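import Mathlib

/-! # Every density is attained by a fugacity -/

set_option autoImplicit false

open scoped BigOperators

noncomputable section

namespace ZI.Rows

section Phi

variable (g : ℕ → ℝ)

/-- the weight `φ ^ k / (g 1 ⋯ g k)` -/
private def aw (φ : ℝ) (k : ℕ) : ℝ := φ ^ k / ∏ i ∈ Finset.range k, g (i + 1)

variable {g} {Gm Gp : ℝ}

private theorem g_lb (g0 : g 0 = 0) (hlb : ∀ k, Gm ≤ g (k + 1) - g k) : ∀ k : ℕ, Gm * k ≤ g k
  | 0 => by simp [g0]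
  | k + 1 => by
      have h1 := g_lb g0 hlb k
      have h2 := hlb k
      push_cast
      linarith

private theorem g_ub (g0 : g 0 = 0) (hub : ∀ k, g (k + 1) - g k ≤ Gp) : ∀ k : ℕ, g k ≤ Gp * k
  | 0 => by simp [g0]
  | k + 1 => by
      have h1 := g_ub g0 hub k
      have h2 := hub k
      push_cast
      linarith

private theorem prod_lb (g0 : g 0 = 0) (hGm : 0 < Gm) (hlb : ∀ k, Gm ≤ g (k + 1) - g k) (k : ℕ) :
    Gm ^ k * (k.factorial : ℝ) ≤ ∏ i ∈ Finset.range k, g (i + 1) := by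
  induction k with
  | zero => simp
  | succ k ih =>
      rw [Finset.prod_range_succ, pow_succ, Nat.factorial_succ]
      have h1 : Gm * ((k + 1 : ℕ) : ℝ) ≤ g (k + 1) := g_lb g0 hlb (k + 1)
      have h2 : 0 ≤ Gm ^ k * (k.factorial : ℝ) := by positivity
      have h3 : 0 ≤ Gm * ((k + 1 : ℕ) : ℝ) := by positivity
      calc Gm ^ k * Gm * (((k + 1) * k.factorial : ℕ) : ℝ) = (Gm ^ k * (k.factorial : ℝ)) * (Gm * ((k + 1 : ℕ) : ℝ)) := by
            push_cast; ring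
        _ ≤ (∏ i ∈ Finset.range k, g (i + 1)) * g (k + 1) := mul_le_mul ih h1 h3 (h2.trans ih)

private theorem prod_pos (g0 : g 0 = 0) (hGm : 0 < Gm) (hlb : ∀ k, Gm ≤ g (k + 1) - g k) (k : ℕ) :
    0 < ∏ i ∈ Finset.range k, g (i + 1) :=
  lt_of_lt_of_le (by positivity) (prod_lb g0 hGm hlb k)

private theorem aw_nonneg (g0 : g 0 = 0) (hGm : 0 < Gm) (hlb : ∀ k, Gm ≤ g (k + 1) - g k) {φ : ℝ} (hφ : 0 ≤ φ)
    (k : ℕ) : 0 ≤ aw g φ k := div_nonneg (pow_nonneg hφ k) (prod_pos g0 hGm hlb k).le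

private theorem aw_le (g0 : g 0 = 0) (hGm : 0 < Gm) (hlb : ∀ k, Gm ≤ g (k + 1) - g k) {φ Φ : ℝ} (hφ : 0 ≤ φ)
    (hΦ : φ ≤ Φ) (k : ℕ) : aw g φ k ≤ (Φ / Gm) ^ k / (k.factorial : ℝ) := by
  rw [aw, div_pow, div_div]
  exact div_le_div₀ (pow_nonneg (hφ.trans hΦ) k) (pow_le_pow_left₀ hφ hΦ k) (by positivity) (prod_lb g0 hGm hlb k)

private theorem summable_k (x : ℝ) (hx : 0 ≤ x) : Summable (fun k : ℕ => (k : ℝ) * (x ^ k / (k.factorial : ℝ))) := by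
  have h := (Real.summable_pow_div_factorial (2 * x))
  refine Summable.of_nonneg_of_le (fun k => by positivity) (fun k => ?_) h
  rw [mul_pow, mul_div_assoc]
  refine mul_le_mul_of_nonneg_right ?_ (by positivity)
  exact_mod_cast (Nat.lt_two_pow_self (n := k)).le

private theorem sum0 (g0 : g 0 = 0) (hGm : 0 < Gm) (hlb : ∀ k, Gm ≤ g (k + 1) - g k) {φ : ℝ} (hφ : 0 ≤ φ) :
    Summable (aw g φ) :=
  Summable.of_nonneg_of_le (aw_nonneg g0 hGm hlb hφ) (aw_le g0 hGm hlb hφ le_rfl)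
    (Real.summable_pow_div_factorial (φ / Gm))

private theorem sum1 (g0 : g 0 = 0) (hGm : 0 < Gm) (hlb : ∀ k, Gm ≤ g (k + 1) - g k) {φ : ℝ} (hφ : 0 ≤ φ) :
    Summable (fun k : ℕ => (k : ℝ) * aw g φ k) :=
  Summable.of_nonneg_of_le (fun k => mul_nonneg k.cast_nonneg (aw_nonneg g0 hGm hlb hφ k))
    (fun k => mul_le_mul_of_nonneg_left (aw_le g0 hGm hlb hφ le_rfl k) k.cast_nonneg)
    (summable_k (φ / Gm) (div_nonneg hφ hGm.le))

/-- `φ * aw k = g (k + 1) * aw (k + 1)` -/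
private theorem aw_succ (g0 : g 0 = 0) (hGm : 0 < Gm) (hlb : ∀ k, Gm ≤ g (k + 1) - g k) (φ : ℝ) (k : ℕ) :
    φ * aw g φ k = g (k + 1) * aw g φ (k + 1) := by
  have h1 : g (k + 1) ≠ 0 := by
    have := g_lb g0 hlb (k + 1)
    have h2 : 0 < Gm * ((k + 1 : ℕ) : ℝ) := by positivity
    linarith
  have h3 := (prod_pos g0 hGm hlb k).ne'
  rw [aw, aw, Finset.prod_range_succ, pow_succ]
  field_simp

private theorem phi_sum (g0 : g 0 = 0) (hGm : 0 < Gm) (hlb : ∀ k, Gm ≤ g (k + 1) - g k) {φ : ℝ} (hφ : 0 ≤ φ) :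
    Summable (fun k => g k * aw g φ k) ∧ φ * ∑' k, aw g φ k = ∑' k, g k * aw g φ k := by
  have h1 : Summable (fun k => g (k + 1) * aw g φ (k + 1)) :=
    ((sum0 g0 hGm hlb hφ).mul_left φ).congr fun k => aw_succ g0 hGm hlb φ k
  have h2 : Summable (fun k => g k * aw g φ k) := (summable_nat_add_iff 1).1 h1
  refine ⟨h2, ?_⟩
  rw [h2.tsum_eq_zero_add, g0, zero_mul, zero_add, ← tsum_mul_left]
  exact tsum_congr fun k => aw_succ g0 hGm hlb φ k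

end Phi

theorem exists_fugacity (g : ℕ → ℝ) (Gm Gp : ℝ) (g0 : g 0 = 0) (hGm : 0 < Gm)
    (hlb : ∀ k, Gm ≤ g (k + 1) - g k) (hub : ∀ k, g (k + 1) - g k ≤ Gp) (ρ : ℝ) (hρ : 0 < ρ) :
    ∃ φ : ℝ, 0 < φ ∧ Summable (fun k : ℕ => φ ^ k / ∏ i ∈ Finset.range k, g (i + 1)) ∧
      Summable (fun k : ℕ => (k : ℝ) * (φ ^ k / ∏ i ∈ Finset.range k, g (i + 1))) ∧
      ∑' k : ℕ, (k : ℝ) * (φ ^ k / ∏ i ∈ Finset.range k, g (i + 1)) =
        ρ * ∑' k : ℕ, φ ^ k / ∏ i ∈ Finset.range k, g (i + 1) := by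
  have hGmp : Gm ≤ Gp := (hlb 0).trans (hub 0)
  have hφ0 : 0 < ρ * Gm := by positivity
  have hle : ρ * Gm ≤ ρ * Gp := mul_le_mul_of_nonneg_left hGmp hρ.le
  -- the bounds of the two ends
  have hup : ∀ φ : ℝ, 0 ≤ φ → φ * ∑' k, aw g φ k ≤ Gp * ∑' k : ℕ, (k : ℝ) * aw g φ k := fun φ hφ => by
    obtain ⟨h1, h2⟩ := phi_sum g0 hGm hlb hφ
    rw [h2, ← tsum_mul_left]
    refine Summable.tsum_le_tsum (fun k => ?_) h1 ((sum1 g0 hGm hlb hφ).mul_left Gp)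
    rw [← mul_assoc]
    exact mul_le_mul_of_nonneg_right (g_ub g0 hub k) (aw_nonneg g0 hGm hlb hφ k)
  have hlo : ∀ φ : ℝ, 0 ≤ φ → Gm * ∑' k : ℕ, (k : ℝ) * aw g φ k ≤ φ * ∑' k, aw g φ k := fun φ hφ => by
    obtain ⟨h1, h2⟩ := phi_sum g0 hGm hlb hφ
    rw [h2, ← tsum_mul_left]
    refine Summable.tsum_le_tsum (fun k => ?_) ((sum1 g0 hGm hlb hφ).mul_left Gm) h1
    rw [← mul_assoc]
    exact mul_le_mul_of_nonneg_right (g_lb g0 hlb k) (aw_nonneg g0 hGm hlb hφ k)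
  have hGp : 0 < Gp := hGm.trans_le hGmp
  -- continuity
  have c0 : ContinuousOn (fun φ => ∑' k, aw g φ k) (Set.Icc (ρ * Gm) (ρ * Gp)) := by
    refine continuousOn_tsum (f := fun (k : ℕ) (φ : ℝ) => aw g φ k)
      (u := fun k : ℕ => (ρ * Gp / Gm) ^ k / (k.factorial : ℝ)) (fun k => ?_)
      (Real.summable_pow_div_factorial (ρ * Gp / Gm)) (fun k φ hφ => ?_)
    · exact ((continuous_id.pow k).div_const _).continuousOn
    · rw [Real.norm_of_nonneg (aw_nonneg g0 hGm hlb (hφ0.le.trans hφ.1) k)]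
      exact aw_le g0 hGm hlb (hφ0.le.trans hφ.1) hφ.2 k
  have c1 : ContinuousOn (fun φ => ∑' k : ℕ, (k : ℝ) * aw g φ k) (Set.Icc (ρ * Gm) (ρ * Gp)) := by
    have hx : 0 ≤ ρ * Gp / Gm := by positivity
    refine continuousOn_tsum (f := fun (k : ℕ) (φ : ℝ) => (k : ℝ) * aw g φ k)
      (u := fun k : ℕ => (k : ℝ) * ((ρ * Gp / Gm) ^ k / (k.factorial : ℝ))) (fun k => ?_)
      (summable_k (ρ * Gp / Gm) hx) (fun k φ hφ => ?_)
    · exact (continuous_const.mul ((continuous_id.pow k).div_const _)).continuousOn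
    · rw [Real.norm_of_nonneg (mul_nonneg k.cast_nonneg (aw_nonneg g0 hGm hlb (hφ0.le.trans hφ.1) k))]
      exact mul_le_mul_of_nonneg_left (aw_le g0 hGm hlb (hφ0.le.trans hφ.1) hφ.2 k) k.cast_nonneg
  have hc : ContinuousOn (fun φ => (∑' k : ℕ, (k : ℝ) * aw g φ k) - ρ * ∑' k, aw g φ k)
      (Set.Icc (ρ * Gm) (ρ * Gp)) := c1.sub (continuousOn_const.mul c0)
  have hz := intermediate_value_Icc hle hc
  have h0 : (0 : ℝ) ∈ Set.Icc
      ((fun φ => (∑' k : ℕ, (k : ℝ) * aw g φ k) - ρ * ∑' k, aw g φ k) (ρ * Gm))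
      ((fun φ => (∑' k : ℕ, (k : ℝ) * aw g φ k) - ρ * ∑' k, aw g φ k) (ρ * Gp)) := by
    constructor
    · have h := hlo (ρ * Gm) hφ0.le
      have : Gm * (∑' k : ℕ, (k : ℝ) * aw g (ρ * Gm) k) ≤ Gm * (ρ * ∑' k, aw g (ρ * Gm) k) := by
        calc _ ≤ ρ * Gm * ∑' k, aw g (ρ * Gm) k := h
          _ = _ := by ring
      have := le_of_mul_le_mul_left this hGm
      show _ - _ ≤ (0 : ℝ)
      linarith
    · have h := hup (ρ * Gp) (hφ0.le.trans hle)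
      have : Gp * (ρ * ∑' k, aw g (ρ * Gp) k) ≤ Gp * (∑' k : ℕ, (k : ℝ) * aw g (ρ * Gp) k) := by
        calc _ = ρ * Gp * ∑' k, aw g (ρ * Gp) k := by ring
          _ ≤ _ := h
      have := le_of_mul_le_mul_left this hGp
      show (0 : ℝ) ≤ _ - _
      linarith
  obtain ⟨φ, hφ, hφe⟩ := hz h0
  have hpos : 0 < φ := hφ0.trans_le hφ.1
  refine ⟨φ, hpos, sum0 g0 hGm hlb hpos.le, sum1 g0 hGm hlb hpos.le, ?_⟩
  have : (∑' k : ℕ, (k : ℝ) * aw g φ k) - ρ * ∑' k, aw g φ k = 0 := hφe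
  exact sub_eq_zero.1 this

end ZI.Rows
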