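import Pool.Agent.ZI.Defs

/-! # The zero-range process with infection, without recovery

* `Clocks m d P`: the graphical construction.  Independent Poisson clocks for the labels `(x, k, e)` (site `x`,
  level `k` counted from `0`, direction `e`) of rates `lam k = (g (k + 1) - g k) / (2 d)`, and an independent
  initial configuration with the product law of fugacity `φ`.
  At a ring of `(x, k, e)` one particle jumps from `x` to `x + e` iff more than `k` particles are at `x`; so a
  particle leaves `x` at the total rate `g (η x)`, in a uniform direction.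
* `st C R ω t`: configuration and infected sites at the time `t` of the finite system in the box `|x| ≤ R`,
  particles that leave the box are killed.
* the process in infinite volume is the increasing limit of the finite systems as `R → ∞`: `conf C ω t x` is the
  number of particles at `x` at the time `t`, `infd C ω t` the set of the infected sites.
* `Iset C ω t`: the sites that contain an infected particle at some time in `[0, t]`.
-/

set_option autoImplicit false

open scoped ENNReal BigOperators Classical
open MeasureTheory

noncomputable section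

namespace ZI

variable {d : ℕ} {m : Model}

/-- sup norm of a position -/
def supN (v : Pos d) : ℕ := Finset.univ.sup (fun j => (v j).natAbs)

/-- unnormalised weight of `k` particles at a site, fugacity `φ` -/
def Model.wt0 (m : Model) (k : ℕ) : ℝ := m.φ ^ k / ∏ i ∈ Finset.range k, m.g (i + 1)

/-- single site law of the invariant product measure of fugacity `φ` -/
def Model.mu (m : Model) (k : ℕ) : ℝ≥0∞ := ENNReal.ofReal (m.wt0 k / ∑' j, m.wt0 j)

/-- clocks and initial configuration -/
structure Clocks (m : Model) (d : ℕ) {Ω : Type} [MeasurableSpace Ω] (P : Measure Ω) where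
  /-- initial configuration -/
  η0 : Ω → Pos d → ℕ
  /-- ring times of the labels -/
  ring : Ω → Lab (Pos d) d → Set ℝ
  η0_meas : ∀ x, Measurable (fun ω => η0 ω x)
  ring_fin : ∀ ω l (a b : ℝ), (ring ω l ∩ Set.Ioc a b).Finite
  ring_meas : ∀ l (a b : ℝ), Measurable (fun ω => (ring ω l ∩ Set.Ioc a b).ncard)
  /-- initial law -/
  η0_law : ∀ x k, P {ω | η0 ω x = k} = m.mu k
  /-- the numbers of rings are Poisson variables -/
  ring_law : ∀ (l : Lab (Pos d) d) (a b : ℝ), 0 ≤ a → a ≤ b → ∀ j : ℕ,
    P {ω | (ring ω l ∩ Set.Ioc a b).ncard = j} =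
      ENNReal.ofReal (Real.exp (-(m.lam d l.2.1 * (b - a))) * (m.lam d l.2.1 * (b - a)) ^ j / j.factorial)
  /-- independence: different sites, different labels, disjoint time intervals -/
  indep : ∀ t : ℕ → ℝ, Monotone t → 0 ≤ t 0 →
    ProbabilityTheory.iIndepFun (fun (i : Pos d ⊕ (Lab (Pos d) d × ℕ)) (ω : Ω) =>
      (match i with
        | .inl x => η0 ω x
        | .inr (l, j) => (ring ω l ∩ Set.Ioc (t j) (t (j + 1))).ncard : ℕ)) P

/-- the rings of the labels of `F` in `(a, b]`, with their times -/
def ringSet (ring : Lab (Pos d) d → Set ℝ) (F : Finset (Lab (Pos d) d)) (a b : ℝ) : Set (ℝ ×ₗ ℕ) :=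
  {p | ∃ l ∈ F, ∃ s ∈ ring l, a < s ∧ s ≤ b ∧ p = toLex (s, Encodable.encode l)}

/-- the list of the labels of `F` that ring in `(a, b]`, ordered by time -/
def ringList (ring : Lab (Pos d) d → Set ℝ) (F : Finset (Lab (Pos d) d)) (a b : ℝ) :
    List (Lab (Pos d) d) :=
  if h : (ringSet ring F a b).Finite then
    (h.toFinset.sort (· ≤ ·)).filterMap (fun p => Encodable.decode (ofLex p).2)
  else []

/-- the box `|x| ≤ R` -/
def box (d R : ℕ) : Finset (Pos d) := Fintype.piFinset (fun _ => Finset.Icc (-(R : ℤ)) R)

/-- neighbours in the box, particles that leave the box are killed -/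
def nbB (R : ℕ) (x : Pos d) (e : Dir d) : Option (Pos d) :=
  if supN (x + dv e) ≤ R then some (x + dv e) else none

/-- the labels of the box with levels `< K` -/
def boxLab (d R K : ℕ) : Finset (Lab (Pos d) d) := box d R ×ˢ (Finset.range K ×ˢ Finset.univ)

section

variable {Ω : Type} [MeasurableSpace Ω] {P : Measure Ω} (C : Clocks m d P)

/-- number of particles in the box at the time `0` -/
def tot (R : ℕ) (ω : Ω) : ℕ := ∑ x ∈ box d R, C.η0 ω x

/-- initial configuration in the box -/
def ini (R : ℕ) (ω : Ω) (x : Pos d) : ℕ := if supN x ≤ R then C.η0 ω x else 0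

/-- configuration and infected sites of the box `R` at the time `t`.  The rings of the levels `≥ tot` are never
effective; so finitely many rings are used. -/
def st (R : ℕ) (ω : Ω) (t : ℝ) : (Pos d → ℕ) × Set (Pos d) :=
  (ringList (C.ring ω) (boxLab d R (tot C R ω)) 0 t).foldl (stepR (nbB R) id Set.univ)
    (ini C R ω, {z | z = 0 ∧ 0 < C.η0 ω 0})

/-- number of particles at `x` at the time `t` (infinite volume) -/
def conf (ω : Ω) (t : ℝ) (x : Pos d) : ℕ∞ := ⨆ R : ℕ, ((st C R ω t).1 x : ℕ∞)

/-- set of the infected sites at the time `t` (infinite volume) -/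
def infd (ω : Ω) (t : ℝ) : Set (Pos d) := {x | ∃ R : ℕ, x ∈ (st C R ω t).2}

/-- the sites that contain an infected particle at some time in `[0, t]` -/
def Iset (ω : Ω) (t : ℝ) : Set (Pos d) := {x | ∃ s : ℝ, 0 ≤ s ∧ s ≤ t ∧ x ∈ infd C ω s}

end

end ZI
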