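import Pool.Agent.ZI.Ev0

/-! # Row R2: the torus chain: detailed balance, reversal, stationarity, translations -/

set_option autoImplicit false

open scoped ENNReal BigOperators Classical

noncomputable section

namespace ZI.R2aux

open ZI

/-! ### words -/

section words

variable {α : Type} [Fintype α] (w : α → ℝ≥0∞)

lemma EvE_tsum {ι : Type} : ∀ (N : ℕ) (F : ι → List α → ℝ≥0∞),
    EvE w N (fun l => ∑' i, F i l) = ∑' i, EvE w N (F i)
  | 0, F => rfl
  | N + 1, F => by
      show ∑ a, w a * EvE w N (fun l => ∑' i, F i (a :: l)) =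
        ∑' i, ∑ a, w a * EvE w N (fun l => F i (a :: l))
      rw [Summable.tsum_finsetSum (fun i _ => ENNReal.summable)]
      refine Finset.sum_congr rfl fun a _ => ?_
      rw [EvE_tsum N (fun i l => F i (a :: l)), ENNReal.tsum_mul_left]

lemma EvE_mul (c : ℝ≥0∞) : ∀ (N : ℕ) (F : List α → ℝ≥0∞),
    EvE w N (fun l => c * F l) = c * EvE w N F
  | 0, F => rfl
  | N + 1, F => by
      show ∑ a, w a * EvE w N (fun l => c * F (a :: l)) = c * ∑ a, w a * EvE w N (fun l => F (a :: l))
      rw [Finset.mul_sum]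
      refine Finset.sum_congr rfl fun a _ => ?_
      rw [EvE_mul c N (fun l => F (a :: l))]
      ring

lemma EvE_const (hw : ∑ a, w a = 1) (c : ℝ≥0∞) : ∀ N : ℕ, EvE w N (fun _ => c) = c
  | 0 => rfl
  | N + 1 => by
      show ∑ a, w a * EvE w N (fun _ => c) = c
      rw [EvE_const hw c N, ← Finset.sum_mul, hw, one_mul]

lemma EvE_take_drop (M : ℕ) : ∀ (N : ℕ) (F : List α → List α → ℝ≥0∞),
    EvE w (N + M) (fun l => F (l.take N) (l.drop N)) =
      EvE w N (fun l => EvE w M (fun l' => F l l'))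
  | 0, F => by
      rw [Nat.zero_add]
      rfl
  | N + 1, F => by
      rw [Nat.succ_add]
      show ∑ a, w a * EvE w (N + M) (fun l => F (a :: l.take N) (l.drop N)) =
        ∑ a, w a * EvE w N (fun l => EvE w M (fun l' => F (a :: l) l'))
      refine Finset.sum_congr rfl fun a _ => ?_
      rw [EvE_take_drop M N (fun l l' => F (a :: l) l')]

lemma EvE_map (g : α ≃ α) (hg : ∀ a, w (g a) = w a) : ∀ (N : ℕ) (F : List α → ℝ≥0∞),
    EvE w N (fun l => F (l.map g)) = EvE w N F
  | 0, F => rfl
  | N + 1, F => by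
      show ∑ a, w a * EvE w N (fun l => F (g a :: l.map g)) =
        ∑ a, w a * EvE w N (fun l => F (a :: l))
      rw [← Equiv.sum_comp g (fun a => w a * EvE w N (fun l => F (a :: l)))]
      refine Finset.sum_congr rfl fun a _ => ?_
      rw [EvE_map g hg N (fun l => F (g a :: l)), hg]

end words

/-! ### the single site law -/

section law

variable (m : Model) (K : ℕ)

lemma g_mono : Monotone m.g :=
  monotone_nat_of_le_succ fun k => by
    have := m.inc_lb k
    have := m.Gm_pos
    linarith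

lemma g_pos (k : ℕ) : 0 < m.g (k + 1) := by
  have h1 := g_mono m (Nat.le_add_left 1 k)
  have h2 := m.inc_lb 0
  have h3 := m.Gm_pos
  have h4 := m.g0
  rw [zero_add] at h2
  linarith

lemma gK_nonneg (k : ℕ) : 0 ≤ m.gK K k := by
  have := g_mono m (Nat.zero_le (min k K))
  rw [m.g0] at this
  exact this

lemma gK_zero : m.gK K 0 = 0 := by
  unfold Model.gK
  rw [Nat.zero_min, m.g0]

lemma gK_pos (hK : 2 ≤ K) (k : ℕ) : 0 < m.gK K (k + 1) := by
  obtain ⟨j, hj⟩ : ∃ j, min (k + 1) K = j + 1 := ⟨min (k + 1) K - 1, by omega⟩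
  unfold Model.gK
  rw [hj]
  exact g_pos m j

lemma wt_pos (hK : 2 ≤ K) (k : ℕ) : 0 < m.wt K k :=
  div_pos (pow_pos m.φ_pos k) (Finset.prod_pos fun i _ => gK_pos m K hK i)

lemma wt_succ (hK : 2 ≤ K) (k : ℕ) : m.wt K (k + 1) * m.gK K (k + 1) = m.φ * m.wt K k := by
  have h1 : (∏ i ∈ Finset.range k, m.gK K (i + 1)) ≠ 0 :=
    (Finset.prod_pos fun i _ => gK_pos m K hK i).ne'
  have h2 := (gK_pos m K hK k).ne'
  unfold Model.wt
  rw [Finset.prod_range_succ, pow_succ]
  field_simp

lemma summable_wt (hK : 2 ≤ K) (hb : 2 * m.φ ≤ m.g K) : Summable (m.wt K) := by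
  refine summable_of_ratio_norm_eventually_le (r := 1 / 2) (by norm_num) ?_
  filter_upwards [Filter.eventually_ge_atTop K] with k hk
  have h1 := wt_succ m K hK k
  have h2 : m.gK K (k + 1) = m.g K := by
    unfold Model.gK
    rw [min_eq_right (by omega)]
  have h3 := wt_pos m K hK k
  have h4 := wt_pos m K hK (k + 1)
  have h5 := m.φ_pos
  rw [Real.norm_of_nonneg h3.le, Real.norm_of_nonneg h4.le]
  rw [h2] at h1
  have h6 : m.wt K (k + 1) * (2 * m.φ) ≤ m.wt K (k + 1) * m.g K :=
    mul_le_mul_of_nonneg_left hb h4.le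
  rw [h1] at h6
  by_contra h7
  push Not at h7
  nlinarith

lemma tsum_wt_pos (hK : 2 ≤ K) (hb : 2 * m.φ ≤ m.g K) : 0 < ∑' j, m.wt K j :=
  (summable_wt m K hK hb).tsum_pos (fun j => (wt_pos m K hK j).le) 0 (wt_pos m K hK 0)

lemma tsum_m1 (hK : 2 ≤ K) (hb : 2 * m.φ ≤ m.g K) : ∑' k, m.m1 K k = 1 := by
  have h := tsum_wt_pos m K hK hb
  unfold Model.m1
  rw [← ENNReal.ofReal_tsum_of_nonneg (fun k => div_nonneg (wt_pos m K hK k).le h.le)
    ((summable_wt m K hK hb).div_const _), tsum_div_const, div_self h.ne', ENNReal.ofReal_one]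

lemma m1_succ (hK : 2 ≤ K) (hb : 2 * m.φ ≤ m.g K) (k : ℕ) :
    m.m1 K (k + 1) * ENNReal.ofReal (m.gK K (k + 1)) = ENNReal.ofReal m.φ * m.m1 K k := by
  have h := tsum_wt_pos m K hK hb
  unfold Model.m1
  rw [← ENNReal.ofReal_mul (div_nonneg (wt_pos m K hK _).le h.le),
    ← ENNReal.ofReal_mul m.φ_pos.le, div_mul_eq_mul_div, wt_succ m K hK, mul_div_assoc]

end law

/-! ### product weights -/

section prod

lemma tsum_prod_aux (V : Type) [Fintype V] : ∀ f : V → ℕ → ℝ≥0∞,
    ∑' η : V → ℕ, ∏ x, f x (η x) = ∏ x, ∑' k, f x k := by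
  refine Fintype.induction_empty_option (P := fun V _ => ∀ f : V → ℕ → ℝ≥0∞,
    ∑' η : V → ℕ, ∏ x, f x (η x) = ∏ x, ∑' k, f x k) ?_ ?_ ?_ V
  · intro α β _ e ih f
    have := Fintype.ofEquiv β e.symm
    rw [← Equiv.tsum_eq (Equiv.arrowCongr e (Equiv.refl ℕ))]
    have h1 : ∏ x, ∑' k, f x k = ∏ x, ∑' k, f (e x) k :=
      (Equiv.prod_comp e (fun x => ∑' k, f x k)).symm
    rw [h1]
    have h2 := ih (fun x => f (e x))
    refine Eq.trans ?_ (h2.trans ?_)
    · refine tsum_congr fun η => ?_
      rw [← Equiv.prod_comp e]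
      refine Finset.prod_congr ?_ fun x _ => ?_
      · ext
        simp
      · simp [Equiv.arrowCongr]
    · refine Finset.prod_congr ?_ fun x _ => rfl
      ext
      simp
  · intro f
    rw [Finset.univ_eq_empty, Finset.prod_empty, tsum_eq_single (fun x => x.elim)]
    · simp
    · intro b hb
      exact absurd (Subsingleton.elim _ _) hb
  · intro α _ ih f
    rw [Fintype.prod_option, ← ih (fun x => f (some x)),
      ← Equiv.tsum_eq (Equiv.piOptionEquivProd (β := fun _ => ℕ)).symm, ENNReal.tsum_prod',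
      ← ENNReal.tsum_mul_right]
    refine tsum_congr fun a => ?_
    rw [← ENNReal.tsum_mul_left]
    refine tsum_congr fun η => ?_
    rw [Fintype.prod_option]
    simp [Equiv.piOptionEquivProd]

variable {V : Type} [Fintype V] (m : Model) (K : ℕ)

/-- one more particle at `x` -/
def add (ξ : V → ℕ) (x : V) : V → ℕ := Function.update ξ x (ξ x + 1)

lemma prw_add (hK : 2 ≤ K) (hb : 2 * m.φ ≤ m.g K) (ξ : V → ℕ) (x : V) :
    prw (m.m1 K) (add ξ x) * ENNReal.ofReal (m.gK K (add ξ x x)) =
      ENNReal.ofReal m.φ * prw (m.m1 K) ξ := by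
  unfold prw
  have h1 : add ξ x x = ξ x + 1 := by
    unfold add
    rw [Function.update_self]
  rw [← Finset.mul_prod_erase Finset.univ _ (Finset.mem_univ x),
    ← Finset.mul_prod_erase Finset.univ (fun y => m.m1 K (ξ y)) (Finset.mem_univ x), h1]
  have h2 : ∏ y ∈ Finset.univ.erase x, m.m1 K (add ξ x y) =
      ∏ y ∈ Finset.univ.erase x, m.m1 K (ξ y) := by
    refine Finset.prod_congr rfl fun y hy => ?_
    unfold add
    rw [Function.update_of_ne (Finset.ne_of_mem_erase hy)]
  rw [h2, mul_right_comm, m1_succ m K hK hb, mul_assoc]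

end prod

/-! ### the chain -/

section chain

variable {d : ℕ} {m : Model} (q : Par d m)

/-- transition probabilities -/
def tr (η η' : Tor d q.M → ℕ) : ℝ≥0∞ := ∑ a, if stepA η a = η' then q.w a else 0

lemma sum_step (F : (Tor d q.M → ℕ) → ℝ≥0∞) (η : Tor d q.M → ℕ) :
    ∑ a, q.w a * F (stepA η a) = ∑' y, tr q η y * F y := by
  unfold tr
  simp_rw [Finset.sum_mul]
  rw [Summable.tsum_finsetSum (fun i _ => ENNReal.summable)]
  refine Finset.sum_congr rfl fun a _ => ?_
  rw [tsum_eq_single (stepA η a)]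
  · rw [if_pos rfl]
  · intro y hy
    rw [if_neg (Ne.symm hy), zero_mul]

/-- the expectation of a function of the path -/
def HE (N : ℕ) (F : List (Tor d q.M → ℕ) → ℝ≥0∞) (η : Tor d q.M → ℕ) : ℝ≥0∞ :=
  EvE q.w N (fun l => F (path η l))

lemma HE_congr (N : ℕ) (F G : List (Tor d q.M → ℕ) → ℝ≥0∞) (η : Tor d q.M → ℕ)
    (h : ∀ l : List (Let d q.M q.K), F (path η l) = G (path η l)) : HE q N F η = HE q N G η := by
  unfold HE
  exact congrArg (EvE q.w N) (funext h)

lemma HE_succ (N : ℕ) (F : List (Tor d q.M → ℕ) → ℝ≥0∞) (η : Tor d q.M → ℕ) :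
    HE q (N + 1) F η = ∑' y, tr q η y * HE q N (fun l => F (η :: l)) y := by
  rw [← sum_step]
  rfl

lemma HE_tsum_mul {ι : Type} (N : ℕ) (c : ι → ℝ≥0∞) (F : ι → List (Tor d q.M → ℕ) → ℝ≥0∞)
    (η : Tor d q.M → ℕ) :
    HE q N (fun l => ∑' i, c i * F i l) η = ∑' i, c i * HE q N (F i) η := by
  unfold HE
  rw [EvE_tsum]
  exact tsum_congr fun i => EvE_mul q.w (c i) N (fun l => F i (path η l))

lemma path_ne_nil (η : Tor d q.M → ℕ) (l : List (Let d q.M q.K)) : path η l ≠ [] := by
  cases l <;> simp [path]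

lemma head_path (η η0 : Tor d q.M → ℕ) (l : List (Let d q.M q.K)) :
    (path η l).headD η0 = η := by
  cases l <;> rfl

lemma HE_snoc (η0 : Tor d q.M → ℕ) : ∀ (N : ℕ) (F : List (Tor d q.M → ℕ) → ℝ≥0∞)
    (η : Tor d q.M → ℕ), HE q (N + 1) F η =
      HE q N (fun l => ∑' y, tr q (l.getLastD η0) y * F (l ++ [y])) η
  | 0, F, η => by
      rw [HE_succ]
      rfl
  | N + 1, F, η => by
      rw [HE_succ, HE_succ]
      refine tsum_congr fun y => ?_
      congr 1
      rw [HE_snoc η0 N (fun l => F (η :: l)) y]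
      refine HE_congr q N _ _ y fun l => ?_
      obtain ⟨a, t, hl⟩ := List.exists_cons_of_ne_nil (path_ne_nil q y l)
      rw [hl]
      rfl

lemma reversal_aux (hbal : ∀ η η' : Tor d q.M → ℕ,
    prw (m.m1 q.K) η * tr q η η' = prw (m.m1 q.K) η' * tr q η' η) :
    ∀ (N : ℕ) (F : List (Tor d q.M → ℕ) → ℝ≥0∞),
      ∑' η, prw (m.m1 q.K) η * HE q N F η =
        ∑' η, prw (m.m1 q.K) η * HE q N (fun l => F l.reverse) η
  | 0, F => rfl
  | N + 1, F => by
      have h1 : ∑' η, prw (m.m1 q.K) η * HE q (N + 1) F η =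
          ∑' η, prw (m.m1 q.K) η *
            HE q N (fun l => ∑' x, tr q (l.headD 0) x * F (x :: l)) η := by
        calc ∑' η, prw (m.m1 q.K) η * HE q (N + 1) F η
            = ∑' η, ∑' y, prw (m.m1 q.K) η * (tr q η y * HE q N (fun l => F (η :: l)) y) := by
              refine tsum_congr fun η => ?_
              rw [HE_succ, ENNReal.tsum_mul_left]
          _ = ∑' y, ∑' η, prw (m.m1 q.K) η * (tr q η y * HE q N (fun l => F (η :: l)) y) :=
              ENNReal.tsum_comm
          _ = ∑' y, prw (m.m1 q.K) y * ∑' η, tr q y η * HE q N (fun l => F (η :: l)) y := by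
              refine tsum_congr fun y => ?_
              rw [← ENNReal.tsum_mul_left]
              refine tsum_congr fun η => ?_
              rw [← mul_assoc, hbal η y, mul_assoc]
          _ = _ := by
              refine tsum_congr fun y => ?_
              rw [← HE_tsum_mul q N (fun η => tr q y η) (fun η l => F (η :: l)) y]
              congr 1
              refine HE_congr q N _ _ y fun l => ?_
              rw [head_path]
      rw [h1, reversal_aux hbal N]
      refine tsum_congr fun η => ?_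
      rw [HE_snoc q 0 N (fun l => F l.reverse) η]
      congr 1
      refine HE_congr q N _ _ η fun l => ?_
      refine tsum_congr fun y => ?_
      have h2 : ((path η l).reverse).headD 0 = (path η l).getLastD 0 := by
        rw [List.headD_eq_head?_getD, List.head?_reverse, List.getLastD_eq_getLast?]
      rw [h2, List.reverse_append]
      rfl

/-! ### the transition probabilities -/

/-- one particle less at `x` -/
def rem {V : Type} (η : V → ℕ) (x : V) : V → ℕ := Function.update η x (η x - 1)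

lemma add_rem {V : Type} (η : V → ℕ) (x : V) (h : 0 < η x) : add (rem η x) x = η := by
  unfold add rem
  rw [Function.update_idem, Function.update_self, Nat.sub_add_cancel h, Function.update_eq_self]

lemma rem_add {V : Type} (ξ : V → ℕ) (x : V) : rem (add ξ x) x = ξ := by
  unfold add rem
  rw [Function.update_idem, Function.update_self, Nat.add_sub_cancel, Function.update_eq_self]

lemma add_self_pos {V : Type} (ξ : V → ℕ) (x : V) : 0 < add ξ x x := by
  unfold add
  rw [Function.update_self]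
  omega

lemma sum_lam (n : ℕ) :
    ∑ k : Fin q.K, (if (k : ℕ) < n then ENNReal.ofReal (m.lam d k * q.p) else 0) =
      ENNReal.ofReal (m.gK q.K n / (2 * d) * q.p) := by
  have hnn : ∀ k, 0 ≤ m.lam d k * q.p := fun k => by
    have h1 := m.inc_lb k
    have h2 := m.Gm_pos
    have h3 := q.p_pos
    have h4 : 0 ≤ m.g (k + 1) - m.g k := by linarith
    unfold Model.lam
    positivity
  rw [Fin.sum_univ_eq_sum_range
    (fun k => if k < n then ENNReal.ofReal (m.lam d k * q.p) else 0) q.K, ← Finset.sum_filter]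
  have h : (Finset.range q.K).filter (fun k => k < n) = Finset.range (min n q.K) := by
    ext k
    simp only [Finset.mem_filter, Finset.mem_range]
    omega
  rw [h, ← ENNReal.ofReal_sum_of_nonneg (fun k _ => hnn k), ← Finset.sum_mul]
  unfold Model.lam Model.gK
  rw [← Finset.sum_div, Finset.sum_range_sub, m.g0, sub_zero]

lemma tr_eq (η η' : Tor d q.M → ℕ) (hne : η ≠ η') :
    tr q η η' = ∑ x : Tor d q.M, ∑ e : Dir d,
      (if 0 < η x ∧ add (rem η x) (x + tv (dv e)) = η' then
        ENNReal.ofReal (m.gK q.K (η x) / (2 * d) * q.p) else 0) := by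
  unfold tr
  rw [Fintype.sum_option]
  have h0 : (if stepA η (none : Let d q.M q.K) = η' then q.w none else 0) = 0 := if_neg hne
  rw [h0, zero_add, Fintype.sum_prod_type]
  refine Finset.sum_congr rfl fun x _ => ?_
  rw [Fintype.sum_prod_type_right]
  refine Finset.sum_congr rfl fun e _ => ?_
  have hstep : ∀ k : Fin q.K, (stepA η (some (x, k, e) : Let d q.M q.K) = η') ↔
      ((k : ℕ) < η x ∧ add (rem η x) (x + tv (dv e)) = η') := fun k => by
    have h1 : stepA η (some (x, k, e) : Let d q.M q.K) =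
        if (k : ℕ) < η x then add (rem η x) (x + tv (dv e)) else η := rfl
    rw [h1]
    by_cases hk : (k : ℕ) < η x
    · rw [if_pos hk]
      exact ⟨fun h => ⟨hk, h⟩, fun h => h.2⟩
    · rw [if_neg hk]
      exact ⟨fun h => absurd h hne, fun h => absurd h.1 hk⟩
  have hw : ∀ k : Fin q.K, q.w (some (x, k, e)) = ENNReal.ofReal (m.lam d k * q.p) := fun k => rfl
  simp_rw [hstep, hw]
  by_cases hC : add (rem η x) (x + tv (dv e)) = η'
  · by_cases hp : 0 < η x
    · rw [if_pos ⟨hp, hC⟩, ← sum_lam q (η x)]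
      exact Finset.sum_congr rfl fun k _ => by simp only [hC, and_true]
    · rw [if_neg (fun h => hp h.1)]
      exact Finset.sum_eq_zero fun k _ => if_neg fun h => by omega
  · rw [if_neg (fun h => hC h.2)]
    exact Finset.sum_eq_zero fun k _ => if_neg fun h => hC h.2

/-- the opposite direction -/
def ng (e : Dir d) : Dir d := (e.1, !e.2)

lemma ng_ng (e : Dir d) : ng (ng e) = e := by
  unfold ng
  simp

lemma dv_ng (e : Dir d) : dv (ng e) = - dv e := by
  unfold dv ng
  rw [← Pi.single_neg]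
  cases e.2 <;> simp

lemma tv_ng {M : ℕ} (e : Dir d) : (tv (dv (ng e)) : Tor d M) = - tv (dv e) := by
  rw [dv_ng]
  funext j
  simp [tv]

/-- reversal of a jump -/
def jumpEquiv : (Tor d q.M × Dir d) ≃ (Tor d q.M × Dir d) where
  toFun a := (a.1 + tv (dv a.2), ng a.2)
  invFun a := (a.1 + tv (dv a.2), ng a.2)
  left_inv a := by
    simp only [tv_ng, ng_ng, add_neg_cancel_right]
  right_inv a := by
    simp only [tv_ng, ng_ng, add_neg_cancel_right]

lemma jump_imp (η η' : Tor d q.M → ℕ) (x : Tor d q.M) (e : Dir d)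
    (h : 0 < η x ∧ add (rem η x) (x + tv (dv e)) = η') :
    0 < η' (x + tv (dv e)) ∧
      add (rem η' (x + tv (dv e))) (x + tv (dv e) + tv (dv (ng e))) = η := by
  obtain ⟨h1, h2⟩ := h
  rw [← h2]
  refine ⟨add_self_pos _ _, ?_⟩
  rw [rem_add, tv_ng, add_neg_cancel_right, add_rem η x h1]

lemma jump_iff (η η' : Tor d q.M → ℕ) (x : Tor d q.M) (e : Dir d) :
    (0 < η x ∧ add (rem η x) (x + tv (dv e)) = η') ↔
    (0 < η' (x + tv (dv e)) ∧
      add (rem η' (x + tv (dv e))) (x + tv (dv e) + tv (dv (ng e))) = η) := by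
  refine ⟨jump_imp q η η' x e, fun h => ?_⟩
  have h1 := jump_imp q η' η (x + tv (dv e)) (ng e) h
  rw [ng_ng, tv_ng, add_neg_cancel_right] at h1
  exact h1

lemma prw_jump (η : Tor d q.M → ℕ) (x : Tor d q.M) (h : 0 < η x) :
    prw (m.m1 q.K) η * ENNReal.ofReal (m.gK q.K (η x) / (2 * d) * q.p) =
      ENNReal.ofReal (1 / (2 * d) * q.p) * (ENNReal.ofReal m.φ * prw (m.m1 q.K) (rem η x)) := by
  have h1 := prw_add m q.K q.K_ge q.K_big (rem η x) x
  rw [add_rem η x h] at h1
  rw [← h1, show m.gK q.K (η x) / (2 * d) * q.p = m.gK q.K (η x) * (1 / (2 * d) * q.p) by ring,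
    ENNReal.ofReal_mul (gK_nonneg m q.K _)]
  ring

lemma balance' (η η' : Tor d q.M → ℕ) :
    prw (m.m1 q.K) η * tr q η η' = prw (m.m1 q.K) η' * tr q η' η := by
  by_cases hne : η = η'
  · rw [hne]
  rw [tr_eq q η η' hne, tr_eq q η' η (Ne.symm hne), ← Fintype.sum_prod_type',
    ← Fintype.sum_prod_type', Finset.mul_sum, Finset.mul_sum]
  symm
  rw [← Equiv.sum_comp (jumpEquiv q)]
  refine Finset.sum_congr rfl fun a _ => ?_
  obtain ⟨x, e⟩ := a
  symm
  show prw (m.m1 q.K) η * (if 0 < η x ∧ add (rem η x) (x + tv (dv e)) = η' then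
        ENNReal.ofReal (m.gK q.K (η x) / (2 * d) * q.p) else 0) =
    prw (m.m1 q.K) η' * (if 0 < η' (x + tv (dv e)) ∧
        add (rem η' (x + tv (dv e))) (x + tv (dv e) + tv (dv (ng e))) = η then
        ENNReal.ofReal (m.gK q.K (η' (x + tv (dv e))) / (2 * d) * q.p) else 0)
  by_cases h : 0 < η x ∧ add (rem η x) (x + tv (dv e)) = η'
  · have h' := (jump_iff q η η' x e).mp h
    rw [if_pos h, if_pos h', prw_jump q η x h.1, prw_jump q η' _ h'.1, ← h.2, rem_add]
  · have h' := fun h1 => h ((jump_iff q η η' x e).mpr h1)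
    rw [if_neg h, if_neg h']
    simp

/-! ### total mass, one step of the stationary measure -/

lemma sum_w' (hd : 0 < d) : ∑ a, q.w a = 1 := by
  rw [Fintype.sum_option, Fintype.sum_prod_type]
  have h1 : ∀ x : Tor d q.M, ∑ b : Fin q.K × Dir d, q.w (some (x, b)) =
      ENNReal.ofReal (m.g q.K * q.p) := fun x => by
    rw [Fintype.sum_prod_type_right]
    have h2 : ∀ e : Dir d, ∑ k : Fin q.K, q.w (some (x, k, e)) =
        ENNReal.ofReal (m.g q.K / (2 * d) * q.p) := fun e => by
      have h3 := sum_lam q q.K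
      rw [show m.gK q.K q.K = m.g q.K by unfold Model.gK; rw [min_self]] at h3
      rw [← h3]
      exact Finset.sum_congr rfl fun k _ => (if_pos k.isLt).symm
    simp_rw [h2]
    rw [Finset.sum_const, Finset.card_univ, nsmul_eq_mul, Fintype.card_prod, Fintype.card_fin,
      Fintype.card_bool]
    rw [← ENNReal.ofReal_natCast, ← ENNReal.ofReal_mul (Nat.cast_nonneg _)]
    congr 1
    have : (d : ℝ) ≠ 0 := by exact_mod_cast hd.ne'
    push_cast
    field_simp
  simp_rw [h1]
  rw [Finset.sum_const, Finset.card_univ, nsmul_eq_mul, Fintype.card_fun, Fintype.card_fin,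
    ZMod.card, ← ENNReal.ofReal_natCast, ← ENNReal.ofReal_mul (Nat.cast_nonneg _)]
  have h4 : ((q.M ^ d : ℕ) : ℝ) * (m.g q.K * q.p) = (q.M : ℝ) ^ d * m.g q.K * q.p := by
    push_cast
    ring
  rw [h4]
  exact tsub_add_cancel_of_le (ENNReal.ofReal_le_one.mpr q.p_tot)

lemma sum_tr (hd : 0 < d) (η : Tor d q.M → ℕ) : ∑' y, tr q η y = 1 := by
  have h := sum_step q (fun _ => 1) η
  simp only [mul_one] at h
  rw [← h, sum_w' q hd]

lemma stat_aux (hd : 0 < d) (F : (Tor d q.M → ℕ) → ℝ≥0∞) : ∀ N : ℕ,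
    ∑' η, prw (m.m1 q.K) η * EvE q.w N (fun l => F (l.foldl stepA η)) =
      ∑' η, prw (m.m1 q.K) η * F η
  | 0 => rfl
  | N + 1 => by
      rw [← stat_aux hd F N]
      calc ∑' η, prw (m.m1 q.K) η * EvE q.w (N + 1) (fun l => F (l.foldl stepA η))
          = ∑' η, ∑' y, prw (m.m1 q.K) η * (tr q η y *
              EvE q.w N (fun l => F (l.foldl stepA y))) := by
            refine tsum_congr fun η => ?_
            rw [ENNReal.tsum_mul_left, ← sum_step q (fun y => EvE q.w N (fun l => F (l.foldl stepA y)))]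
            rfl
        _ = ∑' y, ∑' η, prw (m.m1 q.K) η * (tr q η y *
              EvE q.w N (fun l => F (l.foldl stepA y))) := ENNReal.tsum_comm
        _ = ∑' y, prw (m.m1 q.K) y * EvE q.w N (fun l => F (l.foldl stepA y)) := by
            refine tsum_congr fun y => ?_
            have h : ∀ η, prw (m.m1 q.K) η * (tr q η y *
                EvE q.w N (fun l => F (l.foldl stepA y))) =
                tr q y η * (prw (m.m1 q.K) y * EvE q.w N (fun l => F (l.foldl stepA y))) :=
              fun η => by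
                rw [← mul_assoc, balance' q η y]
                ring
            simp_rw [h]
            rw [ENNReal.tsum_mul_right, sum_tr q hd, one_mul]

/-! ### translations -/

/-- translation of letters as a bijection -/
def shE {M K : ℕ} (z : Tor d M) : Let d M K ≃ Let d M K where
  toFun := shL z
  invFun := shL (-z)
  left_inv a := by
    cases a with
    | none => rfl
    | some l => simp [shL]
  right_inv a := by
    cases a with
    | none => rfl
    | some l => simp [shL]

lemma w_shL (z : Tor d q.M) (a : Let d q.M q.K) : q.w (shE z a) = q.w a := by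
  cases a <;> rfl

end chain

end ZI.R2aux

namespace ZI.Rows

open ZI R2aux

variable {d : ℕ} {m : Model} (q : Par d m)

theorem sum_w (hd : 0 < d) : ∑ a, q.w a = 1 := sum_w' q hd

theorem tsum_prw : ∑' η : Tor d q.M → ℕ, prw (m.m1 q.K) η = 1 := by
  have h := tsum_prod_aux (Tor d q.M) (fun _ => m.m1 q.K)
  rw [tsum_m1 m q.K q.K_ge q.K_big, Finset.prod_const_one] at h
  exact h

/-- shift of the single site law: `E[g(η x) F(η)] = φ E[F(η + δ_x)]` -/
theorem shift_prw (x : Tor d q.M) (F : (Tor d q.M → ℕ) → ℝ≥0∞) :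
    ∑' η : Tor d q.M → ℕ, prw (m.m1 q.K) η * (ENNReal.ofReal (m.gK q.K (η x)) * F η) =
      ENNReal.ofReal m.φ * ∑' η : Tor d q.M → ℕ, prw (m.m1 q.K) η * F (Function.update η x (η x + 1)) := by
  have hinj : Function.Injective (fun η : Tor d q.M → ℕ => add η x) := fun a b h => by
    have h1 : rem (add a x) x = rem (add b x) x := by
      rw [show add a x = add b x from h]
    rwa [rem_add, rem_add] at h1
  rw [← hinj.tsum_eq, ← ENNReal.tsum_mul_left]
  · refine tsum_congr fun η => ?_
    have h1 : Function.update η x (η x + 1) = add η x := by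
      unfold add
      exact congrArg (fun i => @Function.update _ _ i η x (η x + 1)) (Subsingleton.elim _ _)
    rw [← mul_assoc, prw_add m q.K q.K_ge q.K_big, mul_assoc, h1]
  · intro η hη
    refine ⟨rem η x, add_rem η x ?_⟩
    by_contra h0
    refine hη ?_
    have h1 : η x = 0 := by omega
    show prw (m.m1 q.K) η * (ENNReal.ofReal (m.gK q.K (η x)) * F η) = 0
    rw [h1, gK_zero, ENNReal.ofReal_zero, zero_mul, mul_zero]

/-- detailed balance -/
theorem balance (η η' : Tor d q.M → ℕ) :
    prw (m.m1 q.K) η * (∑ a, if stepA η a = η' then q.w a else 0) =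
      prw (m.m1 q.K) η' * (∑ a, if stepA η' a = η then q.w a else 0) := balance' q η η'

/-- reversal of the path -/
theorem reversal (N : ℕ) (F : List (Tor d q.M → ℕ) → ℝ≥0∞) :
    q.EE N (fun η l => F (path η l)) = q.EE N (fun η l => F (path η l).reverse) :=
  reversal_aux q (balance' q) N F

/-- stationarity -/
theorem stationary (hd : 0 < d) (N M : ℕ)
    (F : (Tor d q.M → ℕ) → List (Let d q.M q.K) → ℝ≥0∞) :
    q.EE (N + M) (fun η l => F ((l.take N).foldl stepA η) (l.drop N)) = q.EE M F := by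
  unfold Par.EE
  rw [← stat_aux q hd (fun η => EvE q.w M (F η)) N]
  refine tsum_congr fun η => ?_
  rw [EvE_take_drop q.w M N (fun l l' => F (l.foldl stepA η) l')]

/-- past and future are independent given the present; the past is a reversed chain -/
theorem past_future (N M : ℕ) (F : List (Tor d q.M → ℕ) → List (Let d q.M q.K) → ℝ≥0∞) :
    q.EE (N + M) (fun η l => F (path η (l.take N)).reverse (l.drop N)) =
      q.EE (N + M) (fun η l => F (path η (l.take N)) (l.drop N)) := by
  have h := reversal q N (fun L => EvE q.w M (F L))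
  unfold Par.EE at h ⊢
  have h1 : ∀ η : Tor d q.M → ℕ,
      EvE q.w (N + M) (fun l => F (path η (l.take N)).reverse (l.drop N)) =
        EvE q.w N (fun l => EvE q.w M (F (path η l).reverse)) := fun η =>
    EvE_take_drop q.w M N (fun l l' => F (path η l).reverse l')
  have h2 : ∀ η : Tor d q.M → ℕ,
      EvE q.w (N + M) (fun l => F (path η (l.take N)) (l.drop N)) =
        EvE q.w N (fun l => EvE q.w M (F (path η l))) := fun η =>
    EvE_take_drop q.w M N (fun l l' => F (path η l) l')
  simp_rw [h1, h2]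
  exact h.symm

/-- translation invariance -/
theorem translation (z : Tor d q.M) (N : ℕ) (F : (Tor d q.M → ℕ) → List (Let d q.M q.K) → ℝ≥0∞) :
    q.EE N (fun η l => F (fun x => η (x - z)) (l.map (shL z))) = q.EE N F := by
  unfold Par.EE
  have h1 : ∀ η : Tor d q.M → ℕ,
      EvE q.w N (fun l => F (fun x => η (x - z)) (l.map (shL z))) =
        EvE q.w N (F (fun x => η (x - z))) := fun η =>
    EvE_map q.w (shE z) (w_shL q z) N (F (fun x => η (x - z)))
  simp_rw [h1]
  rw [← Equiv.tsum_eq (Equiv.arrowCongr (Equiv.addRight z) (Equiv.refl ℕ))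
    (fun η => prw (m.m1 q.K) η * EvE q.w N (F η))]
  refine tsum_congr fun η => ?_
  have h2 : (Equiv.arrowCongr (Equiv.addRight z) (Equiv.refl ℕ)) η = fun x => η (x - z) := by
    funext x
    simp [Equiv.arrowCongr, sub_eq_add_neg]
  rw [h2]
  congr 1
  unfold prw
  exact (Equiv.prod_comp (Equiv.subRight z) (fun x => m.m1 q.K (η x))).symm

end ZI.Rows
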