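import Pool.Agent.ZI.Defs

/-! # Environments, restricted infections, blocks and chains of blocks -/

set_option autoImplicit false

open scoped ENNReal BigOperators Classical

noncomputable section

namespace ZI

/-- an environment: sites, neighbours, projection of positions, initial configuration, unit lists -/
structure Env (d : ℕ) where
  V : Type
  nb : V → Dir d → Option V
  pr : Pos d → V
  η0 : V → ℕ
  U : ℕ → List (Lab V d)

variable {d : ℕ}

/-- Euclidean norm of a displacement -/
def nrm (v : Pos d) : ℝ := Real.sqrt (∑ j, ((v j : ℝ)) ^ 2)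

/-- sup norm of a displacement -/
def supn (v : Pos d) : ℕ := Finset.univ.sup (fun j => (v j).natAbs)

/-- level of a displacement in the direction `u` -/
def lev (u : Fin d → ℝ) (v : Pos d) : ℝ := ∑ j, u j * (v j : ℝ)

/-- rank of a displacement: by sup norm, ties by an encoding -/
def rk (v : Pos d) : ℕ ×ₗ ℕ := toLex (supn v, Encodable.encode v)

/-- Euclidean ball -/
def Ball (y : Pos d) (ρ : ℝ) : Set (Pos d) := {z | nrm (z - y) ≤ ρ}

namespace Env

variable (E : Env d)

/-- `x` is occupied at the integer time `t` -/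
def occ (t : ℕ) (x : Pos d) : Prop := 0 < cfg E.nb E.η0 E.U t (E.pr x)

/-- the infection started from `{x}` at time `s`, restricted to `G`, contains `y` at time `t` -/
def R (G : ℕ → Set (Pos d)) (s : ℕ) (x : Pos d) (t : ℕ) (y : Pos d) : Prop :=
  ∃ j, t = s + j ∧ y ∈ inf E.nb E.pr E.η0 E.U G s {x} j

/-- the infection started from `{x}` at time `s`, restricted to `G`, visits `b` during `[s, t]` -/
def vis (G : ℕ → Set (Pos d)) (s : ℕ) (x : Pos d) (t : ℕ) (b : Pos d) : Prop :=
  ∃ j, s + j < t ∧ b ∈ visU E.nb E.pr E.η0 E.U G s {x} j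

/-- the good event: density, covering, visiting, finite speed.
`r` = density radius, `κ` = time factor, `κ'` = confinement, `S` = horizon, `Dm` = distance bound -/
structure Good (r κ κ' Cv S Dm : ℕ) : Prop where
  g1 : ∀ t ≤ S, ∀ x : Pos d, ∃ v : Pos d, v ≠ 0 ∧ supn v ≤ r ∧ E.occ t (x + v)
  g3 : ∀ s t x y, s ≤ t → t ≤ S → E.occ s x → E.occ t y → nrm (x - y) ≤ Dm →
    (nrm (x - y) + 1) * κ ≤ (t : ℝ) - s →
    E.R (fun _ => Ball y (nrm (x - y) + 2 * r * (1 + Real.sqrt ((t : ℝ) - s)) + κ')) s x t y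
  g3' : ∀ s t x b, s ≤ t → t ≤ S → E.occ s x → nrm (x - b) ≤ Dm →
    (nrm (x - b) + 1) * κ ≤ (t : ℝ) - s →
    E.vis (fun _ => Ball b (nrm (x - b) + κ')) s x t b
  g4 : ∀ s t x y, s ≤ t → t ≤ S → E.R (fun _ => Set.univ) s x t y →
    nrm (y - x) ≤ Cv * ((t : ℝ) - s) + r
  g4' : ∀ s t x y, s ≤ t → t ≤ S → E.vis (fun _ => Set.univ) s x t y →
    nrm (y - x) ≤ Cv * ((t : ℝ) - s) + r

/-- the occupied position nearest to `z` at the time `s` (`z` itself if there is none) -/
def near (s : ℕ) (z : Pos d) : Pos d :=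
  if h : {v : Pos d | E.occ s (z + v)}.Nonempty then z + Function.argminOn rk {v | E.occ s (z + v)} h
  else z

end Env

/-- parameters of the blocks: margin `mg`, slope `v = 1/(16 κ)`, jump `l0`, waiting time `Δ`, window `Dw` -/
structure BP where
  mg : ℕ
  κ : ℕ
  l0 : ℕ
  Δ : ℕ
  Dw : ℕ

/-- the shift of the centre -/
def v0 (P : BP) (u : Fin d → ℝ) : Pos d := fun j => round (P.l0 * u j)

/-- the region above the wall (and in the window) of the block `(z, s)` at the time `t` -/
def wall (P : BP) (u : Fin d → ℝ) (z : Pos d) (s t : ℕ) : Set (Pos d) :=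
  {y | -(P.mg : ℝ) + ((t : ℝ) - s) / (16 * P.κ) ≤ lev u (y - z) ∧ supn (y - z) ≤ P.Dw}

namespace Env

variable (E : Env d)

/-- the infection of the block `(z, s)` at the time `t` -/
def W (P : BP) (u : Fin d → ℝ) (z : Pos d) (s t : ℕ) : Set (Pos d) :=
  {y | E.R (wall P u z s) s (E.near s z) t y}

/-- duration of the block of size `m`: first integer time at which the level `m` is reached -/
def bh (P : BP) (u : Fin d → ℝ) (m : ℕ) (z : Pos d) (s : ℕ) : ℕ :=
  sInf {h | ∃ y ∈ E.W P u z s (s + h), (m : ℝ) ≤ lev u (y - z)}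

/-- displacement of the block of size `m` -/
def bx (P : BP) (u : Fin d → ℝ) (m : ℕ) (z : Pos d) (s : ℕ) : Pos d :=
  if h : {v : Pos d | z + v ∈ E.W P u z s (s + E.bh P u m z s) ∧ (m : ℝ) ≤ lev u v}.Nonempty then
    Function.argminOn rk {v : Pos d | z + v ∈ E.W P u z s (s + E.bh P u m z s) ∧ (m : ℝ) ≤ lev u v} h
  else 0

/-- the variable of the block: duration and displacement -/
def blk (P : BP) (u : Fin d → ℝ) (m : ℕ) (z : Pos d) (s : ℕ) : ℕ × Pos d :=
  (E.bh P u m z s, E.bx P u m z s)

/-- chain of blocks with the sizes `ms`, started at `(z, s)`: list of the block variables -/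
def chain (P : BP) (u : Fin d → ℝ) : List ℕ → Pos d → ℕ → List (ℕ × Pos d)
  | [], _, _ => []
  | m :: ms, z, s =>
      E.blk P u m z s :: chain P u ms (z + (E.blk P u m z s).2 + v0 P u) (s + (E.blk P u m z s).1 + P.Δ)

end Env

/-- the environment of the torus chain given by an initial configuration and a word -/
def envT {m : Model} (q : Par d m) (η : Tor d q.M → ℕ) (l : List (Let d q.M q.K)) : Env d where
  V := Tor d q.M
  nb := nbT
  pr := tv
  η0 := η
  U := units q.N1 l

/-- product of the laws `Q m` over a list of sizes -/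
def prodQ (Q : ℕ → (ℕ × Pos d) → ℝ≥0∞) : List ℕ → (List (ℕ × Pos d) → Prop) → ℝ≥0∞
  | [], G => if G [] then 1 else 0
  | m :: ms, G => ∑' y, Q m y * prodQ Q ms (fun l => G (y :: l))

/-- the block parameters of the scale `r` with the exponent `a`: `κ = r^a` -/
def bp (d a r n : ℕ) : BP where
  mg := r ^ (3 * a)
  κ := r ^ a
  l0 := 32 * r ^ (3 * a)
  Δ := (64 * r ^ (3 * a) + 2) * r ^ a
  Dw := n ^ 2

end ZI
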