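import Pool.Agent.ZI.Blocks

/-! # Geometry of displacements: norm, sup norm, level, rounding, nearest occupied position -/

set_option autoImplicit false

open scoped ENNReal BigOperators Classical

noncomputable section

namespace ZI.Geo

open ZI

variable {d : ℕ}

/-- the displacement as a vector of the Euclidean space -/
def ev (v : Pos d) : EuclideanSpace ℝ (Fin d) := WithLp.toLp 2 (fun j => (v j : ℝ))

theorem nrm_eq (v : Pos d) : nrm v = ‖ev v‖ := by
  rw [EuclideanSpace.norm_eq]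
  unfold nrm ev
  congr 1
  refine Finset.sum_congr rfl fun j _ => ?_
  rw [Real.norm_eq_abs, sq_abs]

theorem ev_add (v w : Pos d) : ev (v + w) = ev v + ev w := by
  ext j
  simp [ev]

theorem ev_neg (v : Pos d) : ev (-v) = -ev v := by
  ext j
  simp [ev]

theorem nrm_nonneg (v : Pos d) : 0 ≤ nrm v := Real.sqrt_nonneg _

theorem nrm_add (v w : Pos d) : nrm (v + w) ≤ nrm v + nrm w := by
  rw [nrm_eq, nrm_eq, nrm_eq, ev_add]
  exact norm_add_le _ _

theorem nrm_neg (v : Pos d) : nrm (-v) = nrm v := by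
  rw [nrm_eq, nrm_eq, ev_neg, norm_neg]

theorem nrm_sub_comm (v w : Pos d) : nrm (v - w) = nrm (w - v) := by
  rw [← nrm_neg, neg_sub]

theorem nrm_sub_le (x y z : Pos d) : nrm (x - z) ≤ nrm (x - y) + nrm (y - z) := by
  have := nrm_add (x - y) (y - z)
  rwa [sub_add_sub_cancel] at this

theorem lev_add (u : Fin d → ℝ) (v w : Pos d) : lev u (v + w) = lev u v + lev u w := by
  unfold lev
  rw [← Finset.sum_add_distrib]
  refine Finset.sum_congr rfl fun j _ => ?_
  rw [Pi.add_apply]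
  push_cast
  ring

theorem lev_neg (u : Fin d → ℝ) (v : Pos d) : lev u (-v) = -lev u v := by
  unfold lev
  rw [← Finset.sum_neg_distrib]
  refine Finset.sum_congr rfl fun j _ => ?_
  rw [Pi.neg_apply]
  push_cast
  ring

theorem lev_sub (u : Fin d → ℝ) (v w : Pos d) : lev u (v - w) = lev u v - lev u w := by
  rw [sub_eq_add_neg, lev_add, lev_neg]
  ring

theorem abs_lev_le {u : Fin d → ℝ} (hu : ∑ j, u j ^ 2 = 1) (v : Pos d) : |lev u v| ≤ nrm v := by
  have h := Finset.sum_mul_sq_le_sq_mul_sq Finset.univ u (fun j => (v j : ℝ))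
  rw [hu, one_mul] at h
  unfold nrm
  exact Real.abs_le_sqrt h

theorem lev_le {u : Fin d → ℝ} (hu : ∑ j, u j ^ 2 = 1) (v : Pos d) : lev u v ≤ nrm v :=
  (abs_le.1 (abs_lev_le hu v)).2

theorem neg_le_lev {u : Fin d → ℝ} (hu : ∑ j, u j ^ 2 = 1) (v : Pos d) : -nrm v ≤ lev u v :=
  (abs_le.1 (abs_lev_le hu v)).1

theorem abs_coord_le (v : Pos d) (j : Fin d) : |(v j : ℝ)| ≤ nrm v := by
  unfold nrm
  apply Real.abs_le_sqrt
  exact Finset.single_le_sum (f := fun j => ((v j : ℝ)) ^ 2) (fun _ _ => sq_nonneg _)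
    (Finset.mem_univ j)

theorem supn_le_of_nrm {v : Pos d} {N : ℕ} (h : nrm v ≤ N) : supn v ≤ N := by
  unfold supn
  refine Finset.sup_le fun j _ => ?_
  have h1 := (abs_coord_le v j).trans h
  have h2 : ((v j).natAbs : ℝ) = |(v j : ℝ)| := by
    rw [Nat.cast_natAbs, Int.cast_abs]
  rw [← h2] at h1
  exact_mod_cast h1

theorem nrm_le_sum (v : Pos d) : nrm v ≤ ∑ j, |(v j : ℝ)| := by
  rw [nrm]
  refine Real.sqrt_le_iff.mpr ⟨Finset.sum_nonneg fun _ _ => abs_nonneg _, ?_⟩
  calc ∑ j, ((v j : ℝ)) ^ 2 = ∑ j, |(v j : ℝ)| * |(v j : ℝ)| :=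
        Finset.sum_congr rfl fun j _ => by rw [← sq_abs]; ring
    _ ≤ ∑ j, |(v j : ℝ)| * ∑ i, |(v i : ℝ)| :=
        Finset.sum_le_sum fun j _ => mul_le_mul_of_nonneg_left
          (Finset.single_le_sum (f := fun i => |(v i : ℝ)|) (fun _ _ => abs_nonneg _)
            (Finset.mem_univ j)) (abs_nonneg _)
    _ = (∑ j, |(v j : ℝ)|) ^ 2 := by rw [← Finset.sum_mul]; ring

theorem nrm_le_supn (v : Pos d) : nrm v ≤ d * supn v := by
  refine (nrm_le_sum v).trans ?_
  have h : ∀ j ∈ Finset.univ, |(v j : ℝ)| ≤ (supn v : ℝ) := by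
    intro j _
    have h1 : (v j).natAbs ≤ supn v := Finset.le_sup (f := fun j => (v j).natAbs) (Finset.mem_univ j)
    have h2 : ((v j).natAbs : ℝ) = |(v j : ℝ)| := by
      rw [Nat.cast_natAbs, Int.cast_abs]
    rw [← h2]
    exact_mod_cast h1
  have := Finset.sum_le_card_nsmul Finset.univ _ _ h
  simpa using this

/-- the rounded multiple of the direction -/
def rv (u : Fin d → ℝ) (L : ℕ) : Pos d := fun j => round (L * u j)

theorem lev_rv {u : Fin d → ℝ} (hu : ∑ j, u j ^ 2 = 1) (L : ℕ) : (L : ℝ) - d ≤ lev u (rv u L) := by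
  have h1 : lev u (rv u L) = (L : ℝ) * ∑ j, u j ^ 2 + ∑ j, u j * ((round (L * u j) : ℝ) - L * u j) := by
    unfold lev rv
    rw [Finset.mul_sum, ← Finset.sum_add_distrib]
    refine Finset.sum_congr rfl fun j _ => ?_
    ring
  have h2 : |∑ j, u j * ((round (L * u j) : ℝ) - L * u j)| ≤ d := by
    refine (Finset.abs_sum_le_sum_abs _ _).trans ?_
    have h3 : ∀ j ∈ Finset.univ, |u j * ((round (L * u j) : ℝ) - L * u j)| ≤ 1 := by
      intro j _
      rw [abs_mul]
      have h4 : |u j| ≤ 1 := by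
        rw [← sq_le_one_iff_abs_le_one]
        rw [← hu]
        exact Finset.single_le_sum (f := fun j => u j ^ 2) (fun _ _ => sq_nonneg _)
          (Finset.mem_univ j)
      have h5 : |(round (L * u j) : ℝ) - L * u j| ≤ 1 := by
        rw [abs_sub_comm]
        have := abs_sub_round ((L : ℝ) * u j)
        linarith
      calc |u j| * |(round (L * u j) : ℝ) - L * u j| ≤ 1 * 1 :=
            mul_le_mul h4 h5 (abs_nonneg _) zero_le_one
        _ = 1 := one_mul 1
    have := Finset.sum_le_card_nsmul Finset.univ _ _ h3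
    simpa using this
  rw [h1, hu]
  have := (abs_le.1 h2).1
  linarith

theorem nrm_rv {u : Fin d → ℝ} (hu : ∑ j, u j ^ 2 = 1) (L : ℕ) : nrm (rv u L) ≤ (L : ℝ) + d := by
  have h1 : nrm (rv u L) = ‖(L : ℝ) • (WithLp.toLp 2 u : EuclideanSpace ℝ (Fin d)) +
      (WithLp.toLp 2 (fun j => (round (L * u j) : ℝ) - L * u j) : EuclideanSpace ℝ (Fin d))‖ := by
    rw [nrm_eq]
    congr 1
    ext j
    simp [ev, rv]
  have h2 : ‖(WithLp.toLp 2 u : EuclideanSpace ℝ (Fin d))‖ = 1 := by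
    rw [EuclideanSpace.norm_eq]
    simp only [Real.norm_eq_abs, sq_abs]
    rw [hu, Real.sqrt_one]
  have h3 : ‖(WithLp.toLp 2 (fun j => (round (L * u j) : ℝ) - L * u j) :
      EuclideanSpace ℝ (Fin d))‖ ≤ d := by
    rw [EuclideanSpace.norm_eq]
    rw [Real.sqrt_le_left (Nat.cast_nonneg d)]
    have h4 : ∀ j ∈ Finset.univ, ‖(WithLp.toLp 2 (fun j => (round (L * u j) : ℝ) - L * u j) :
      EuclideanSpace ℝ (Fin d)) j‖ ^ 2 ≤ 1 := by
      intro j _
      rw [Real.norm_eq_abs, sq_abs, sq_le_one_iff_abs_le_one]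
      show |(round (L * u j) : ℝ) - L * u j| ≤ 1
      rw [abs_sub_comm]
      have := abs_sub_round ((L : ℝ) * u j)
      linarith
    have h5 := Finset.sum_le_card_nsmul Finset.univ _ _ h4
    simp only [Finset.card_univ, Fintype.card_fin, nsmul_eq_mul, mul_one] at h5
    refine h5.trans ?_
    rcases Nat.eq_zero_or_pos d with h6 | h6
    · rw [h6]; norm_num
    · have : (1 : ℝ) ≤ d := by exact_mod_cast h6
      nlinarith
  rw [h1]
  refine (norm_add_le _ _).trans ?_
  rw [norm_smul, h2, Real.norm_eq_abs, abs_of_nonneg (Nat.cast_nonneg L), mul_one]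
  linarith

theorem supn_le_of_rk {v w : Pos d} (h : rk v ≤ rk w) : supn v ≤ supn w := by
  unfold rk at h
  rw [Prod.Lex.le_iff] at h
  rcases h with h | h
  · exact h.le
  · exact h.1.le

/-- the nearest occupied position -/
theorem near_spec (E : Env d) (s : ℕ) (z : Pos d) {r : ℕ}
    (h : ∃ v : Pos d, supn v ≤ r ∧ E.occ s (z + v)) :
    E.occ s (E.near s z) ∧ supn (E.near s z - z) ≤ r := by
  obtain ⟨v, hv, hocc⟩ := h
  have hne : {v : Pos d | E.occ s (z + v)}.Nonempty := ⟨v, hocc⟩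
  unfold Env.near
  rw [dif_pos hne]
  refine ⟨Function.argminOn_mem rk {v : Pos d | E.occ s (z + v)} hne, ?_⟩
  rw [add_sub_cancel_left]
  refine le_trans (supn_le_of_rk ?_) hv
  exact Function.argminOn_le rk {v : Pos d | E.occ s (z + v)} (a := v) hocc

end ZI.Geo
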