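import Pool.Agent.ZI.Ev0

/-! # More definitions: chase, bonus moves, density, mixing of configurations, block facts -/

set_option autoImplicit false

open scoped ENNReal BigOperators Classical

noncomputable section

namespace ZI

variable {d : ℕ}

/-- markers along a letter -/
def mkrA {M K : ℕ} (η : Tor d M → ℕ) (P : Pos d × ℕ) (a : Let d M K) : Pos d × ℕ :=
  match toLab a with
  | none => P
  | some l => mkr η P l

/-- the legal successors of an infected position -/
def legal {M K : ℕ} (η : Tor d M → ℕ) (a : Let d M K) (x : Pos d) : Set (Pos d) :=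
  match toLab a with
  | none => {x}
  | some l => infMv nbT tv η {x} l

/-- the target along a letter: a fixed position (`st = true`) or a marker (`st = false`) -/
def tgt {M K : ℕ} (st : Bool) (η : Tor d M → ℕ) (P : Pos d × ℕ) (a : Let d M K) : Pos d × ℕ :=
  if st then P else mkrA η P a

/-- there is a legal path from `x` that stays within the distance `ρ` of the target until it meets it,
and it meets it along the word -/
def Chase {M K : ℕ} (st : Bool) (ρ : ℝ) :
    (Tor d M → ℕ) → Pos d → Pos d × ℕ → List (Let d M K) → Prop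
  | _, x, P, [] => x = P.1
  | η, x, P, a :: l => nrm (x - P.1) ≤ ρ ∧
      (x = P.1 ∨ ∃ x' ∈ legal η a x, Chase st ρ (stepA η a) x' (tgt st η P a) l)

/-- density of the configuration: every position has an occupied position at distance `≤ r`, not itself -/
def Dens {M : ℕ} (r : ℕ) (η : Tor d M → ℕ) : Prop :=
  ∀ x : Pos d, ∃ v : Pos d, v ≠ 0 ∧ supn v ≤ r ∧ 0 < η (tv (x + v))

/-- density at the integer times along a word -/
def DensAt {M K : ℕ} (r N1 : ℕ) (η : Tor d M → ℕ) (l : List (Let d M K)) : Prop :=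
  ∀ s : ℕ, s * N1 < l.length → Dens r ((l.take (s * N1)).foldl stepA η)

/-- the letter is a bonus ring for the path at `X` with the preferred direction `e` -/
def IsBonus {M K : ℕ} (η : Tor d M → ℕ) (X : Pos d) (e : Dir d) (a : Let d M K) : Prop :=
  toLab a = some (tv X, 1, e) ∧ 2 ≤ η (tv X)

/-- the rule of the bonus path: it follows the level `0` rings, and the level `1` rings of the preferred
direction if there are two particles -/
def Xr {M K : ℕ} (η : Tor d M → ℕ) (X : Pos d) (e : Dir d) (a : Let d M K) : Pos d :=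
  match toLab a with
  | none => X
  | some l =>
    if l.1 = tv X ∧ l.2.1 = 0 then X + dv l.2.2
    else if l.1 = tv X ∧ l.2.1 = 1 ∧ l.2.2 = e ∧ 2 ≤ η (tv X) then X + dv e else X

/-- a bonus ring occurs along the word (machine with configuration `cf`, path `X`, policy `pol`) -/
def BonusIn {M K : ℕ} {σ : Type} (cf : σ → (Tor d M → ℕ)) (X : σ → Pos d) (pol : σ → Dir d)
    (step : σ → Let d M K → σ) : σ → List (Let d M K) → Prop
  | _, [] => False
  | s, a :: l => IsBonus (cf s) (X s) (pol s) a ∨ BonusIn cf X pol step (step s a) l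

/-- mixing of two configurations: the first on `U`, the second off `U` -/
def mix {V : Type} (U : Set V) (η η' : V → ℕ) : V → ℕ := fun x => if x ∈ U then η x else η' x

/-- deterministic facts on the block `(z, s)` of size `m` -/
structure BlockFacts (E : Env d) (P : BP) (u : Fin d → ℝ) (r Cv m n : ℕ) (z : Pos d) (s : ℕ) :
    Prop where
  near_occ : E.occ s (E.near s z)
  near_supn : supn (E.near s z - z) ≤ r
  near_W : E.near s z ∈ E.W P u z s s
  x_mem : z + E.bx P u m z s ∈ E.W P u z s (s + E.bh P u m z s)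
  x_lev : (m : ℝ) ≤ lev u (E.bx P u m z s)
  x_occ : E.occ (s + E.bh P u m z s) (z + E.bx P u m z s)
  W_ub : ∀ y ∈ E.W P u z s (s + E.bh P u m z s), lev u (y - z) ≤ m + Cv + r
  h_ub : (E.bh P u m z s : ℝ) ≤ 4 * P.κ * (m + 2 * P.mg)
  conf : ∀ t, s ≤ t → t ≤ s + E.bh P u m z s → ∀ y ∈ E.W P u z s t,
    lev u (y - z) ≤ m + 2 * P.mg - ((s : ℝ) + E.bh P u m z s - t) / (8 * P.κ)
  x_nrm : nrm (E.bx P u m z s) ≤ Cv * E.bh P u m z s + 2 * d * r
  next_mem : E.near (s + E.bh P u m z s + P.Δ) (z + E.bx P u m z s + v0 P u)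
    ∈ E.W P u z s (s + E.bh P u m z s + P.Δ)
  sub : ∀ t, s + E.bh P u m z s + P.Δ ≤ t → t ≤ n ^ 2 → t ≤ s + P.κ ^ 4 * n →
    E.W P u (z + E.bx P u m z s + v0 P u) (s + E.bh P u m z s + P.Δ) t ⊆ E.W P u z s t

/-- the error of the scale `r` -/
def err (r : ℕ) : ℝ≥0∞ := ENNReal.ofReal (Real.exp (- Real.sqrt r))

end ZI
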