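import Pool.Agent.ZI.Ev0

/-! # Row R1: expectation over words -/

set_option autoImplicit false

open scoped ENNReal BigOperators Classical

noncomputable section

namespace ZI

variable {α σ : Type} [Fintype α] (w : α → ℝ≥0∞)

theorem EvE_zero (F : List α → ℝ≥0∞) : EvE w 0 F = F [] := rfl

theorem EvE_succ (N : ℕ) (F : List α → ℝ≥0∞) :
    EvE w (N + 1) F = ∑ a, w a * EvE w N (fun l => F (a :: l)) := rfl

theorem EvE_congr (N : ℕ) {F G : List α → ℝ≥0∞} (h : ∀ l, l.length = N → F l = G l) :
    EvE w N F = EvE w N G := by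
  induction N generalizing F G with
  | zero => exact h [] rfl
  | succ N ih =>
    rw [EvE_succ, EvE_succ]
    refine Finset.sum_congr rfl (fun a _ => ?_)
    rw [ih (fun l hl => h (a :: l) (by simp [hl]))]

theorem EvE_mono (N : ℕ) {F G : List α → ℝ≥0∞} (h : ∀ l, l.length = N → F l ≤ G l) :
    EvE w N F ≤ EvE w N G := by
  induction N generalizing F G with
  | zero => exact h [] rfl
  | succ N ih =>
    rw [EvE_succ, EvE_succ]
    refine Finset.sum_le_sum (fun a _ => ?_)
    exact mul_le_mul_right (ih (fun l hl => h (a :: l) (by simp [hl]))) _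

theorem EvE_add (N : ℕ) (F G : List α → ℝ≥0∞) :
    EvE w N (fun l => F l + G l) = EvE w N F + EvE w N G := by
  induction N generalizing F G with
  | zero => rfl
  | succ N ih =>
    rw [EvE_succ, EvE_succ, EvE_succ, ← Finset.sum_add_distrib]
    refine Finset.sum_congr rfl (fun a _ => ?_)
    rw [ih, mul_add]

theorem EvE_mul (N : ℕ) (c : ℝ≥0∞) (F : List α → ℝ≥0∞) :
    EvE w N (fun l => c * F l) = c * EvE w N F := by
  induction N generalizing F with
  | zero => rfl
  | succ N ih =>
    rw [EvE_succ, EvE_succ, Finset.mul_sum]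
    refine Finset.sum_congr rfl (fun a _ => ?_)
    rw [ih, mul_left_comm]

theorem EvE_tsum {ι : Type} (N : ℕ) (F : ι → List α → ℝ≥0∞) :
    EvE w N (fun l => ∑' i, F i l) = ∑' i, EvE w N (F i) := by
  induction N generalizing F with
  | zero => rfl
  | succ N ih =>
    simp only [EvE_succ]
    rw [Summable.tsum_finsetSum (fun a _ => ENNReal.summable)]
    refine Finset.sum_congr rfl (fun a _ => ?_)
    rw [ih, ENNReal.tsum_mul_left]

theorem EvE_const (hw : ∑ a, w a = 1) (N : ℕ) (c : ℝ≥0∞) : EvE w N (fun _ => c) = c := by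
  induction N with
  | zero => rfl
  | succ N ih => rw [EvE_succ, ih, ← Finset.sum_mul, hw, one_mul]

theorem EvE_append (N M : ℕ) (F : List α → ℝ≥0∞) :
    EvE w (N + M) F = EvE w N (fun l => EvE w M (fun l' => F (l ++ l'))) := by
  induction N generalizing F with
  | zero => rw [zero_add]; rfl
  | succ N ih =>
    rw [Nat.succ_add, EvE_succ, EvE_succ]
    refine Finset.sum_congr rfl (fun a _ => ?_)
    rw [ih]
    rfl

/-- the last letter separately -/
theorem EvE_succ_right (N : ℕ) (F : List α → ℝ≥0∞) :
    EvE w (N + 1) F = ∑ a, w a * EvE w N (fun l => F (l ++ [a])) := by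
  rw [EvE_append]
  have h1 : (fun l => EvE w 1 (fun l' => F (l ++ l'))) = fun l => ∑ a, w a * F (l ++ [a]) := rfl
  rw [h1]
  have h2 : ∀ s : Finset α, EvE w N (fun l => ∑ a ∈ s, w a * F (l ++ [a])) =
      ∑ a ∈ s, w a * EvE w N (fun l => F (l ++ [a])) := by
    intro s
    induction s using Finset.induction_on with
    | empty =>
      simp only [Finset.sum_empty]
      have := EvE_mul w N 0 (fun _ => 0)
      simpa using this
    | insert a s ha ih =>
      simp only [Finset.sum_insert ha]
      rw [EvE_add, ih, EvE_mul]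
  exact h2 _

theorem EvE_reverse (N : ℕ) (F : List α → ℝ≥0∞) :
    EvE w N (fun l => F l.reverse) = EvE w N F := by
  induction N generalizing F with
  | zero => rfl
  | succ N ih =>
    rw [EvE_succ_right w N F, EvE_succ]
    refine Finset.sum_congr rfl (fun a _ => ?_)
    have h1 : (fun l : List α => F (a :: l).reverse) = fun l => F (l.reverse ++ [a]) := by
      funext l
      rw [List.reverse_cons]
    rw [h1, ih (fun l => F (l ++ [a]))]

theorem PrE_le_one (hw : ∑ a, w a = 1) (N : ℕ) (E : List α → Prop) : PrE w N E ≤ 1 := by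
  rw [PrE]
  calc EvE w N (fun l => if E l then 1 else 0) ≤ EvE w N (fun _ => 1) := by
        refine EvE_mono w N (fun l _ => ?_)
        split_ifs
        · exact le_rfl
        · exact zero_le
    _ = 1 := EvE_const w hw N 1

theorem PrE_mono (N : ℕ) {E E' : List α → Prop} (h : ∀ l, l.length = N → E l → E' l) :
    PrE w N E ≤ PrE w N E' := by
  refine EvE_mono w N (fun l hl => ?_)
  by_cases h1 : E l
  · rw [if_pos h1, if_pos (h l hl h1)]
  · rw [if_neg h1]
    exact zero_le

theorem PrE_or (N : ℕ) (E E' : List α → Prop) :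
    PrE w N (fun l => E l ∨ E' l) ≤ PrE w N E + PrE w N E' := by
  rw [PrE, PrE, PrE, ← EvE_add]
  refine EvE_mono w N (fun l _ => ?_)
  by_cases h1 : E l
  · simp [h1]
  · by_cases h2 : E' l
    · simp [h1, h2]
    · simp [h1, h2]

theorem PrE_exists {ι : Type} (N : ℕ) (E : ι → List α → Prop) :
    PrE w N (fun l => ∃ i, E i l) ≤ ∑' i, PrE w N (E i) := by
  unfold PrE
  rw [← EvE_tsum]
  refine EvE_mono w N (fun l _ => ?_)
  by_cases h1 : ∃ i, E i l
  · rw [if_pos h1]
    obtain ⟨i, hi⟩ := h1
    have h2 := ENNReal.le_tsum (f := fun i => if E i l then (1 : ℝ≥0∞) else 0) i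
    simp only [if_pos hi] at h2
    exact h2
  · rw [if_neg h1]
    exact zero_le

theorem PrE_compl (hw : ∑ a, w a = 1) (N : ℕ) (E : List α → Prop) :
    PrE w N E + PrE w N (fun l => ¬ E l) = 1 := by
  rw [PrE, PrE, ← EvE_add, EvE_congr w N (G := fun _ => 1), EvE_const w hw]
  intro l _
  by_cases h1 : E l <;> simp [h1]

theorem PrE_markov (N : ℕ) (c : ℝ≥0∞) (F : List α → ℝ≥0∞) :
    c * PrE w N (fun l => c ≤ F l) ≤ EvE w N F := by
  rw [PrE, ← EvE_mul]
  refine EvE_mono w N (fun l _ => ?_)
  by_cases h1 : c ≤ F l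
  · rw [if_pos h1, mul_one]
    exact h1
  · rw [if_neg h1, mul_zero]
    exact zero_le

/-- supersolutions -/
theorem EvE_foldl_le (step : σ → α → σ) (f : σ → ℝ≥0∞) (C : ℝ≥0∞)
    (h : ∀ s, ∑ a, w a * f (step s a) ≤ C * f s) (N : ℕ) (s : σ) :
    EvE w N (fun l => f (l.foldl step s)) ≤ C ^ N * f s := by
  induction N generalizing s with
  | zero => simp [EvE_zero]
  | succ N ih =>
    rw [EvE_succ]
    calc ∑ a, w a * EvE w N (fun l => f ((a :: l).foldl step s))
        ≤ ∑ a, w a * (C ^ N * f (step s a)) := by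
          refine Finset.sum_le_sum (fun a _ => ?_)
          exact mul_le_mul_right (ih (step s a)) _
      _ = C ^ N * ∑ a, w a * f (step s a) := by
          rw [Finset.mul_sum]
          exact Finset.sum_congr rfl (fun a _ => mul_left_comm _ _ _)
      _ ≤ C ^ N * (C * f s) := mul_le_mul_right (h s) _
      _ = C ^ (N + 1) * f s := by rw [pow_succ, mul_assoc]

/-- time dependent supersolutions (`F n` with `n` letters to go) -/
theorem PrE_hitsBefore_le' (hw : ∑ a, w a = 1) (step : σ → α → σ) (stop bad : σ → Prop)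
    (F : ℕ → σ → ℝ≥0∞) (hbad : ∀ n s, bad s → 1 ≤ F n s)
    (h : ∀ n s, ¬ bad s → ¬ stop s → ∑ a, w a * F n (step s a) ≤ F (n + 1) s) (N : ℕ) (s : σ) :
    PrE w N (HitsBefore step stop bad s) ≤ F N s := by
  induction N generalizing s with
  | zero =>
    by_cases hb : bad s
    · exact (PrE_le_one w hw 0 _).trans (hbad 0 s hb)
    · rw [PrE, EvE_zero]
      simp only [HitsBefore, if_neg hb]
      exact zero_le
  | succ N ih =>
    by_cases hb : bad s
    · exact (PrE_le_one w hw _ _).trans (hbad (N + 1) s hb)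
    · by_cases hs : stop s
      · have h0 : PrE w (N + 1) (HitsBefore step stop bad s) = 0 := by
          rw [PrE]
          have h1 : EvE w (N + 1) (fun l => if HitsBefore step stop bad s l then 1 else 0) =
              EvE w (N + 1) (fun _ => 0 * (0 : ℝ≥0∞)) := by
            refine EvE_congr w _ (fun l hl => ?_)
            cases l with
            | nil => simp at hl
            | cons a l =>
              rw [if_neg]
              · simp
              · simp only [HitsBefore]
                push Not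
                exact ⟨hb, fun h => absurd hs h⟩
          rw [h1, EvE_mul, zero_mul]
        rw [h0]
        exact zero_le
      · refine le_trans ?_ (h N s hb hs)
        rw [PrE, EvE_succ]
        refine Finset.sum_le_sum (fun a _ => ?_)
        refine mul_le_mul_right (le_trans ?_ (ih (step s a))) _
        refine EvE_mono w _ (fun l _ => ?_)
        simp only [HitsBefore, hb, hs, false_or, not_false_eq_true, true_and]
        exact le_rfl

theorem PrE_hitsBefore_le (hw : ∑ a, w a = 1) (step : σ → α → σ) (stop bad : σ → Prop)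
    (f : σ → ℝ≥0∞) (C : ℝ≥0∞) (hC : 1 ≤ C) (hbad : ∀ s, bad s → 1 ≤ f s)
    (h : ∀ s, ¬ bad s → ¬ stop s → ∑ a, w a * f (step s a) ≤ C * f s) (N : ℕ) (s : σ) :
    PrE w N (HitsBefore step stop bad s) ≤ C ^ N * f s := by
  refine PrE_hitsBefore_le' w hw step stop bad (fun n s => C ^ n * f s) ?_ ?_ N s
  · intro n s hs
    calc (1 : ℝ≥0∞) = 1 ^ n * 1 := by simp
      _ ≤ C ^ n * f s := mul_le_mul' (pow_le_pow_left' hC n) (hbad s hs)
  · intro n s hb hs
    calc ∑ a, w a * (C ^ n * f (step s a)) = C ^ n * ∑ a, w a * f (step s a) := by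
          rw [Finset.mul_sum]
          exact Finset.sum_congr rfl (fun a _ => mul_left_comm _ _ _)
      _ ≤ C ^ n * (C * f s) := mul_le_mul_right (h s hb hs) _
      _ = C ^ (n + 1) * f s := by rw [pow_succ, mul_assoc]

/-- subsolutions: lower bound for the probability of `Hits` -/
theorem le_PrE_hits (hw : ∑ a, w a = 1) (step : σ → α → σ) (bad : σ → Prop) (F : ℕ → σ → ℝ≥0∞)
    (h1 : ∀ n s, F n s ≤ 1) (h0 : ∀ s, ¬ bad s → F 0 s = 0)
    (h : ∀ n s, ¬ bad s → F (n + 1) s ≤ ∑ a, w a * F n (step s a)) (N : ℕ) (s : σ) :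
    F N s ≤ PrE w N (Hits step bad s) := by
  have hone : ∀ n s, bad s → PrE w n (Hits step bad s) = 1 := by
    intro n s hb
    rw [PrE]
    rw [EvE_congr w n (G := fun _ => 1), EvE_const w hw]
    intro l _
    rw [if_pos]
    cases l with
    | nil => exact hb
    | cons a l => exact Or.inl hb
  induction N generalizing s with
  | zero =>
    by_cases hb : bad s
    · rw [hone 0 s hb]
      exact h1 0 s
    · rw [h0 s hb]
      exact zero_le
  | succ N ih =>
    by_cases hb : bad s
    · rw [hone (N + 1) s hb]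
      exact h1 (N + 1) s
    · refine (h N s hb).trans ?_
      rw [PrE, EvE_succ]
      refine Finset.sum_le_sum (fun a _ => ?_)
      refine mul_le_mul_right ((ih (step s a)).trans ?_) _
      refine EvE_mono w _ (fun l _ => ?_)
      simp only [Hits, hb, false_or]
      exact le_rfl

end ZI
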