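import Pool.Agent.ZI.Ev0

/-! # Markers -/

set_option autoImplicit false

open scoped ENNReal BigOperators Classical

noncomputable section

namespace ZI.Rows

open ZI

variable {d : ℕ}

theorem tv_add {M : ℕ} (a b : Pos d) : (tv (a + b) : Tor d M) = tv a + tv b := by
  funext j
  simp [tv]

theorem tv_sub {M : ℕ} (a b : Pos d) : (tv (a - b) : Tor d M) = tv a - tv b := by
  funext j
  simp [tv]

theorem tv_dv_ne {M : ℕ} (hM : 2 ≤ M) (e : Dir d) : (tv (dv e) : Tor d M) ≠ 0 := by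
  intro h
  have h1 := congrFun h e.1
  have : Fact (1 < M) := ⟨by omega⟩
  rcases e with ⟨j, b⟩
  cases b
  · simp [tv, dv] at h1
  · simp [tv, dv] at h1

/-- the effect of an effective ring -/
theorem mv_eff {M : ℕ} (η : Tor d M → ℕ) (l : Lab (Tor d M) d) (h : l.2.1 < η l.1) :
    mv nbT η l = Function.update (Function.update η l.1 (η l.1 - 1)) (l.1 + tv (dv l.2.2))
      (Function.update η l.1 (η l.1 - 1) (l.1 + tv (dv l.2.2)) + 1) := by
  rw [mv, if_pos h]
  simp only [nbT]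
  congr <;> (funext a b; exact Subsingleton.elim _ _)

theorem mv_neff {M : ℕ} (η : Tor d M → ℕ) (l : Lab (Tor d M) d) (h : ¬ l.2.1 < η l.1) :
    mv nbT η l = η := by
  simp [mv, h]

theorem add_tv_ne {M : ℕ} (hM : 2 ≤ M) (x : Tor d M) (e : Dir d) : x + tv (dv e) ≠ x := by
  intro h
  exact tv_dv_ne (d := d) hM e (by simpa using h)

/-- at the site of the ring -/
theorem mv_at {M : ℕ} (hM : 2 ≤ M) (η : Tor d M → ℕ) (l : Lab (Tor d M) d) (h : l.2.1 < η l.1) :
    mv nbT η l l.1 = η l.1 - 1 := by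
  rw [mv_eff η l h, Function.update_of_ne (add_tv_ne hM _ _).symm, Function.update_self]

/-- at the target of the jump -/
theorem mv_to {M : ℕ} (hM : 2 ≤ M) (η : Tor d M → ℕ) (l : Lab (Tor d M) d) (h : l.2.1 < η l.1) :
    mv nbT η l (l.1 + tv (dv l.2.2)) = η (l.1 + tv (dv l.2.2)) + 1 := by
  rw [mv_eff η l h, Function.update_self, Function.update_of_ne (add_tv_ne hM _ _)]

theorem mv_else {M : ℕ} (η : Tor d M → ℕ) (l : Lab (Tor d M) d) (h : l.2.1 < η l.1)
    (x : Tor d M) (h1 : x ≠ l.1) (h2 : x ≠ l.1 + tv (dv l.2.2)) : mv nbT η l x = η x := by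
  rw [mv_eff η l h, Function.update_of_ne h2, Function.update_of_ne h1]

theorem le_mv_of_ne {M : ℕ} (hM : 2 ≤ M) (η : Tor d M → ℕ) (l : Lab (Tor d M) d)
    (x : Tor d M) (h1 : x ≠ l.1) : η x ≤ mv nbT η l x := by
  by_cases h : l.2.1 < η l.1
  · by_cases h2 : x = l.1 + tv (dv l.2.2)
    · rw [h2, mv_to hM η l h]
      exact Nat.le_succ _
    · rw [mv_else η l h x h1 h2]
  · rw [mv_neff η l h]

/-- the four cases of the motion of a marker -/
theorem mkr_jump {M : ℕ} (η : Tor d M → ℕ) (P : Pos d × ℕ) (l : Lab (Tor d M) d)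
    (h : l.2.1 < η l.1) (hx : l.1 = tv P.1) (hk : l.2.1 = P.2) :
    mkr η P l = (P.1 + dv l.2.2, η (l.1 + tv (dv l.2.2))) := by
  rw [mkr, if_pos ⟨h, hx⟩, if_pos hk]

theorem mkr_down {M : ℕ} (η : Tor d M → ℕ) (P : Pos d × ℕ) (l : Lab (Tor d M) d)
    (h : l.2.1 < η l.1) (hx : l.1 = tv P.1) (hk : l.2.1 < P.2) :
    mkr η P l = (P.1, P.2 - 1) := by
  rw [mkr, if_pos ⟨h, hx⟩, if_neg (ne_of_lt hk), if_pos hk]

theorem mkr_above {M : ℕ} (η : Tor d M → ℕ) (P : Pos d × ℕ) (l : Lab (Tor d M) d)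
    (hk : P.2 < l.2.1) : mkr η P l = P := by
  rw [mkr]
  split_ifs
  · omega
  · omega
  · rfl
  · rfl

theorem mkr_off {M : ℕ} (η : Tor d M → ℕ) (P : Pos d × ℕ) (l : Lab (Tor d M) d)
    (hx : ¬ (l.2.1 < η l.1 ∧ l.1 = tv P.1)) : mkr η P l = P := by
  rw [mkr, if_neg hx]

theorem mkr_lt {M : ℕ} (hM : 2 ≤ M) (η : Tor d M → ℕ) (P : Pos d × ℕ) (l : Lab (Tor d M) d)
    (h : P.2 < η (tv P.1)) : (mkr η P l).2 < mv nbT η l (tv (mkr η P l).1) := by
  by_cases he : l.2.1 < η l.1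
  · by_cases hx : l.1 = tv P.1
    · rcases lt_trichotomy l.2.1 P.2 with hk | hk | hk
      · rw [mkr_down η P l he hx hk]
        show P.2 - 1 < mv nbT η l (tv P.1)
        rw [← hx, mv_at hM η l he]
        rw [← hx] at h
        omega
      · rw [mkr_jump η P l he hx hk]
        show η (l.1 + tv (dv l.2.2)) < mv nbT η l (tv (P.1 + dv l.2.2))
        rw [tv_add, ← hx, mv_to hM η l he]
        exact Nat.lt_succ_self _
      · rw [mkr_above η P l hk]
        rw [← hx, mv_at hM η l he]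
        omega
    · rw [mkr_off η P l (fun hh => hx hh.2)]
      exact lt_of_lt_of_le h (le_mv_of_ne hM η l _ (fun hh => hx hh.symm))
  · rw [mkr_off η P l (fun hh => he hh.1), mv_neff η l he]
    exact h

/-- every particle after the ring comes from a particle before the ring -/
theorem mkr_surj {M : ℕ} (hM : 2 ≤ M) (η : Tor d M → ℕ) (l : Lab (Tor d M) d) (Q : Pos d × ℕ)
    (h : Q.2 < mv nbT η l (tv Q.1)) : ∃ P : Pos d × ℕ, P.2 < η (tv P.1) ∧ mkr η P l = Q := by
  by_cases he : l.2.1 < η l.1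
  · by_cases hx : tv Q.1 = l.1
    · rw [hx, mv_at hM η l he] at h
      by_cases hk : Q.2 < l.2.1
      · refine ⟨Q, ?_, mkr_above η Q l hk⟩
        rw [hx]
        omega
      · refine ⟨(Q.1, Q.2 + 1), ?_, ?_⟩
        · show Q.2 + 1 < η (tv Q.1)
          rw [hx]
          omega
        · rw [mkr_down η (Q.1, Q.2 + 1) l he hx.symm (by show l.2.1 < Q.2 + 1; omega)]
          rfl
    · by_cases hy : tv Q.1 = l.1 + tv (dv l.2.2)
      · rw [hy, mv_to hM η l he] at h
        by_cases hk : Q.2 < η (l.1 + tv (dv l.2.2))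
        · exact ⟨Q, by rw [hy]; exact hk, mkr_off η Q l (fun hh => hx hh.2.symm)⟩
        · have hk' : Q.2 = η (l.1 + tv (dv l.2.2)) := by omega
          have h1 : (tv (Q.1 - dv l.2.2) : Tor d M) = l.1 := by
            rw [tv_sub, hy, add_sub_cancel_right]
          refine ⟨(Q.1 - dv l.2.2, l.2.1), ?_, ?_⟩
          · show l.2.1 < η (tv (Q.1 - dv l.2.2))
            rw [h1]
            exact he
          · rw [mkr_jump η (Q.1 - dv l.2.2, l.2.1) l he h1.symm rfl]
            show (Q.1 - dv l.2.2 + dv l.2.2, η (l.1 + tv (dv l.2.2))) = Q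
            rw [sub_add_cancel, ← hk']
      · rw [mv_else η l he _ hx hy] at h
        exact ⟨Q, h, mkr_off η Q l (fun hh => hx hh.2.symm)⟩
  · rw [mv_neff η l he] at h
    exact ⟨Q, h, mkr_off η Q l (fun hh => he hh.1)⟩

/-- at most one particle of two at the site of the ring is outside -/
private theorem mkr_inj_aux {M : ℕ} (hM : 2 ≤ M) (η : Tor d M → ℕ) (l : Lab (Tor d M) d)
    (P Q : Pos d × ℕ) (hQ : Q.2 < η (tv Q.1)) (h : mkr η P l = mkr η Q l)
    (he : l.2.1 < η l.1) (hx : l.1 = tv P.1) (hk : l.2.1 = P.2) : P = Q := by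
  rw [mkr_jump η P l he hx hk] at h
  by_cases hy : l.1 = tv Q.1
  · have hcontra : P.1 + dv l.2.2 = Q.1 → False := by
      intro h1
      have h2 := congrArg (fun z : Pos d => (tv z : Tor d M)) h1
      simp only [tv_add] at h2
      rw [← hx, ← hy] at h2
      exact add_tv_ne hM _ _ h2
    rcases lt_trichotomy l.2.1 Q.2 with hk2 | hk2 | hk2
    · rw [mkr_down η Q l he hy hk2] at h
      exact (hcontra (congrArg Prod.fst h)).elim
    · rw [mkr_jump η Q l he hy hk2] at h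
      have h1 : P.1 + dv l.2.2 = Q.1 + dv l.2.2 := congrArg Prod.fst h
      exact Prod.ext (add_right_cancel h1) (hk.symm.trans hk2)
    · rw [mkr_above η Q l hk2] at h
      exact (hcontra (congrArg Prod.fst h)).elim
  · rw [mkr_off η Q l (fun hh => hy hh.2)] at h
    exfalso
    have h1 : P.1 + dv l.2.2 = Q.1 := congrArg Prod.fst h
    have h2 : η (l.1 + tv (dv l.2.2)) = Q.2 := congrArg Prod.snd h
    rw [← h1, tv_add, ← hx, ← h2] at hQ
    exact lt_irrefl _ hQ

theorem mkr_inj {M : ℕ} (hM : 2 ≤ M) (η : Tor d M → ℕ) (l : Lab (Tor d M) d) (P Q : Pos d × ℕ)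
    (hP : P.2 < η (tv P.1)) (hQ : Q.2 < η (tv Q.1)) (h : mkr η P l = mkr η Q l) : P = Q := by
  by_cases he : l.2.1 < η l.1
  · by_cases hjP : l.1 = tv P.1 ∧ l.2.1 = P.2
    · exact mkr_inj_aux hM η l P Q hQ h he hjP.1 hjP.2
    by_cases hjQ : l.1 = tv Q.1 ∧ l.2.1 = Q.2
    · exact (mkr_inj_aux hM η l Q P hP h.symm he hjQ.1 hjQ.2).symm
    -- nobody jumps
    have hst : ∀ R : Pos d × ℕ, ¬ (l.1 = tv R.1 ∧ l.2.1 = R.2) →
        (mkr η R l).1 = R.1 ∧ ((l.1 = tv R.1 ∧ l.2.1 < R.2 ∧ (mkr η R l).2 + 1 = R.2) ∨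
          (¬ (l.1 = tv R.1 ∧ l.2.1 < R.2) ∧ (mkr η R l).2 = R.2)) := by
      intro R hR
      by_cases hx : l.1 = tv R.1
      · rcases lt_trichotomy l.2.1 R.2 with hk | hk | hk
        · rw [mkr_down η R l he hx hk]
          exact ⟨rfl, Or.inl ⟨hx, hk, by show R.2 - 1 + 1 = R.2; omega⟩⟩
        · exact (hR ⟨hx, hk⟩).elim
        · rw [mkr_above η R l hk]
          exact ⟨rfl, Or.inr ⟨fun hh => by omega, rfl⟩⟩
      · rw [mkr_off η R l (fun hh => hx hh.2)]
        exact ⟨rfl, Or.inr ⟨fun hh => hx hh.1, rfl⟩⟩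
    obtain ⟨hP1, hP2⟩ := hst P hjP
    obtain ⟨hQ1, hQ2⟩ := hst Q hjQ
    rw [h] at hP1 hP2
    have h1 : P.1 = Q.1 := hP1.symm.trans hQ1
    rw [h1] at hP2 hjP
    refine Prod.ext h1 ?_
    rcases hP2 with ⟨a1, a2, a3⟩ | ⟨a1, a2⟩
    · rcases hQ2 with ⟨b1, b2, b3⟩ | ⟨b1, b2⟩
      · omega
      · exfalso
        have b1' : ¬ l.2.1 < Q.2 := fun hh => b1 ⟨a1, hh⟩
        have b3 : l.2.1 ≠ Q.2 := fun hh => hjQ ⟨a1, hh⟩
        omega
    · rcases hQ2 with ⟨b1, b2, b3⟩ | ⟨b1, b2⟩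
      · exfalso
        have a1' : ¬ l.2.1 < P.2 := fun hh => a1 ⟨b1, hh⟩
        have a3 : l.2.1 ≠ P.2 := fun hh => hjP ⟨b1, hh⟩
        omega
      · omega
  · rw [mkr_off η P l (fun hh => he hh.1), mkr_off η Q l (fun hh => he hh.1)] at h
    exact h

/-- infected particles stay infected -/
theorem mkr_inf {M : ℕ} (hM : 2 ≤ M) (η : Tor d M → ℕ) (l : Lab (Tor d M) d) (P : Pos d × ℕ)
    (h : P.2 < η (tv P.1)) (A : Set (Pos d)) (hA : P.1 ∈ A) :
    (mkr η P l).1 ∈ infMv nbT tv η A l := by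
  by_cases he : l.2.1 < η l.1
  · rw [infMv, if_pos he]
    by_cases hx : l.1 = tv P.1
    · rcases lt_trichotomy l.2.1 P.2 with hk | hk | hk
      · left
        rw [mkr_down η P l he hx hk]
        refine ⟨hA, fun _ => ?_⟩
        rw [← hx] at h
        omega
      · right
        rw [mkr_jump η P l he hx hk]
        refine ⟨?_, ?_, ?_⟩
        · show P.1 + dv l.2.2 - dv l.2.2 ∈ A
          rw [add_sub_cancel_right]
          exact hA
        · show tv (P.1 + dv l.2.2 - dv l.2.2) = l.1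
          rw [add_sub_cancel_right]
          exact hx.symm
        · show nbT l.1 l.2.2 = some (tv (P.1 + dv l.2.2))
          rw [tv_add, ← hx]
          rfl
      · left
        rw [mkr_above η P l hk]
        refine ⟨hA, fun _ => ?_⟩
        omega
    · left
      rw [mkr_off η P l (fun hh => hx hh.2)]
      exact ⟨hA, fun hh => (hx hh.symm).elim⟩
  · rw [infMv, if_neg he, mkr_off η P l (fun hh => he hh.1)]
    exact hA

end ZI.Rows
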