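import Pool.Agent.ZI.Ev1
import Pool.Agent.ZI.R1
import Pool.Agent.ZI.R2
import Pool.Agent.ZI.R3

/-! # Row C5: Lemma R and finite speed -/

set_option autoImplicit false

open scoped ENNReal BigOperators Classical

noncomputable section

namespace ZI.C5

open ZI ZI.R2aux

variable {d : ℕ}

/-! ### infection as a function of the path -/

section path

variable {V : Type}

/-- initial infected set -/
def B0 (x0 : V) (c : V → ℕ) : Set V := {z | z = x0 ∧ 0 < c z}

/-- the infected set after the configuration changes from `c` to `c'` -/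
def updB (c c' : V → ℕ) (B : Set V) : Set V :=
  if ∃ x ∈ B, c' x < c x then {z | z ∈ B ∧ 0 < c' z} ∪ {y | c y < c' y} else B

/-- the infected set along a list of configurations, the latest one at the head -/
def BPr (x0 : V) : List (V → ℕ) → Set V
  | [] => ∅
  | [c] => B0 x0 c
  | c' :: c :: L => updB c c' (BPr x0 (c :: L))

theorem updB_self (c : V → ℕ) (B : Set V) : updB c c B = B := by
  unfold updB
  rw [if_neg]
  rintro ⟨x, -, h⟩
  exact lt_irrefl _ h

end path

/-- one step of the infection on the torus -/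
def upT {M K : ℕ} (η : Tor d M → ℕ) (B : Set (Tor d M)) (a : Let d M K) : Set (Tor d M) :=
  match toLab a with
  | none => B
  | some b => if b.2.1 < η b.1 ∧ b.1 ∈ B then
      {z | z ∈ B ∧ (z = b.1 → 2 ≤ η b.1)} ∪ {b.1 + tv (dv b.2.2)} else B

/-- configuration and infected set along a word -/
def stT {M K : ℕ} (x0 : Tor d M) (η : Tor d M → ℕ) (l : List (Let d M K)) :
    (Tor d M → ℕ) × Set (Tor d M) :=
  l.foldl (fun s a => (stepA s.1 a, upT s.1 s.2 a)) (η, B0 x0 η)

theorem stepA_none {M K : ℕ} (η : Tor d M → ℕ) (a : Let d M K) (h : toLab a = none) :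
    stepA η a = η := by
  unfold stepA
  rw [h]

theorem stepA_some {M K : ℕ} (η : Tor d M → ℕ) (a : Let d M K) (b : Lab (Tor d M) d)
    (h : toLab a = some b) : stepA η a = mv nbT η b := by
  unfold stepA
  rw [h]

theorem upT_none {M K : ℕ} (η : Tor d M → ℕ) (B : Set (Tor d M)) (a : Let d M K)
    (h : toLab a = none) : upT η B a = B := by
  unfold upT
  rw [h]

theorem upT_some {M K : ℕ} (η : Tor d M → ℕ) (B : Set (Tor d M)) (a : Let d M K)
    (b : Lab (Tor d M) d) (h : toLab a = some b) : upT η B a =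
      if b.2.1 < η b.1 ∧ b.1 ∈ B then
        {z | z ∈ B ∧ (z = b.1 → 2 ≤ η b.1)} ∪ {b.1 + tv (dv b.2.2)} else B := by
  unfold upT
  rw [h]

theorem mv_add {M : ℕ} (η : Tor d M → ℕ) (b : Lab (Tor d M) d) (h : b.2.1 < η b.1) :
    mv nbT η b = add (rem η b.1) (b.1 + tv (dv b.2.2)) := by
  unfold mv
  rw [if_pos h]
  rfl

theorem mv_stay {M : ℕ} (η : Tor d M → ℕ) (b : Lab (Tor d M) d) (h : ¬ b.2.1 < η b.1) :
    mv nbT η b = η := by
  unfold mv
  rw [if_neg h]

section vals

variable {V : Type}

theorem add_at (ξ : V → ℕ) (x : V) : add ξ x x = ξ x + 1 := by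
  unfold add
  rw [Function.update_self]

theorem add_ne (ξ : V → ℕ) {x y : V} (h : y ≠ x) : add ξ x y = ξ y := by
  unfold add
  rw [Function.update_of_ne h]

theorem rem_at (ξ : V → ℕ) (x : V) : rem ξ x x = ξ x - 1 := by
  unfold rem
  rw [Function.update_self]

theorem rem_ne (ξ : V → ℕ) {x y : V} (h : y ≠ x) : rem ξ x y = ξ y := by
  unfold rem
  rw [Function.update_of_ne h]

end vals

/-- values of the configuration after an effective ring -/
theorem jump_vals {M : ℕ} (hM : 2 ≤ M) (η : Tor d M → ℕ) (x : Tor d M) (e : Dir d)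
    (h : 0 < η x) : add (rem η x) (x + tv (dv e)) x + 1 = η x ∧
      add (rem η x) (x + tv (dv e)) (x + tv (dv e)) = η (x + tv (dv e)) + 1 ∧
      ∀ z, z ≠ x → z ≠ x + tv (dv e) → add (rem η x) (x + tv (dv e)) z = η z := by
  have hne : x + tv (dv e) ≠ x := Rows.add_tv_ne hM x e
  refine ⟨?_, ?_, ?_⟩
  · rw [add_ne _ hne.symm, rem_at]
    omega
  · rw [add_at, rem_ne _ hne]
  · intro z h1 h2
    rw [add_ne _ h2, rem_ne _ h1]

theorem upT_eq {M K : ℕ} (hM : 2 ≤ M) (η : Tor d M → ℕ) (B : Set (Tor d M)) (a : Let d M K)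
    (hB : ∀ z ∈ B, 0 < η z) : upT η B a = updB η (stepA η a) B := by
  cases h : toLab a with
  | none => rw [upT_none _ _ _ h, stepA_none _ _ h, updB_self]
  | some b =>
    rw [upT_some _ _ _ b h, stepA_some _ _ b h]
    by_cases hk : b.2.1 < η b.1
    · rw [mv_add η b hk]
      have hx : 0 < η b.1 := lt_of_le_of_lt (Nat.zero_le _) hk
      obtain ⟨h1, h2, h3⟩ := jump_vals hM η b.1 b.2.2 hx
      have hne : b.1 + tv (dv b.2.2) ≠ b.1 := Rows.add_tv_ne hM b.1 b.2.2
      set y := b.1 + tv (dv b.2.2) with hy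
      set c' := add (rem η b.1) y with hc'
      by_cases hxB : b.1 ∈ B
      · rw [if_pos ⟨hk, hxB⟩]
        unfold updB
        rw [if_pos ⟨b.1, hxB, by omega⟩]
        ext z
        simp only [Set.mem_union, Set.mem_ofPred_eq, Set.mem_singleton_iff]
        by_cases hz1 : z = b.1
        · subst hz1
          constructor
          · rintro (⟨ha, hb⟩ | hb)
            · have := hb rfl
              left
              exact ⟨ha, by omega⟩
            · exact absurd hb hne.symm
          · rintro (⟨ha, hb⟩ | hb)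
            · left
              exact ⟨ha, fun _ => by omega⟩
            · omega
        · by_cases hz2 : z = y
          · subst hz2
            constructor
            · intro _
              right
              omega
            · intro _
              right
              rfl
          · rw [h3 z hz1 hz2]
            constructor
            · rintro (⟨ha, -⟩ | hb)
              · left
                exact ⟨ha, hB z ha⟩
              · exact absurd hb hz2
            · rintro (⟨ha, -⟩ | hb)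
              · left
                exact ⟨ha, fun h => absurd h hz1⟩
              · exact absurd hb (lt_irrefl _)
      · rw [if_neg (fun h => hxB h.2)]
        unfold updB
        rw [if_neg]
        rintro ⟨x, hxB', hlt⟩
        by_cases hx1 : x = b.1
        · exact hxB (hx1 ▸ hxB')
        · by_cases hx2 : x = y
          · subst hx2
            omega
          · rw [h3 x hx1 hx2] at hlt
            exact lt_irrefl _ hlt
    · rw [mv_stay η b hk, if_neg (fun h => hk h.1), updB_self]

theorem updB_supp {V : Type} (c c' : V → ℕ) (B : Set V) (hB : ∀ z ∈ B, 0 < c z) :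
    ∀ z ∈ updB c c' B, 0 < c' z := by
  intro z hz
  unfold updB at hz
  split_ifs at hz with h
  · rcases hz with hz | hz
    · exact hz.2
    · exact lt_of_le_of_lt (Nat.zero_le _) hz
  · by_contra h0
    exact h ⟨z, hz, lt_of_le_of_lt (not_lt.1 h0) (hB z hz)⟩

theorem stT_snoc {M K : ℕ} (x0 : Tor d M) (η : Tor d M → ℕ) (l : List (Let d M K))
    (a : Let d M K) : stT x0 η (l ++ [a]) =
      (stepA (stT x0 η l).1 a, upT (stT x0 η l).1 (stT x0 η l).2 a) := by
  unfold stT
  rw [List.foldl_append]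
  rfl

theorem stT_nil {M K : ℕ} (x0 : Tor d M) (η : Tor d M → ℕ) :
    stT x0 η ([] : List (Let d M K)) = (η, B0 x0 η) := rfl

theorem stT_fst {M K : ℕ} (x0 : Tor d M) (η : Tor d M → ℕ) (l : List (Let d M K)) :
    (stT x0 η l).1 = l.foldl stepA η := by
  induction l using List.reverseRecOn with
  | nil => rfl
  | append_singleton l a ih =>
    rw [stT_snoc, List.foldl_append, ih]
    rfl

theorem stT_supp {M K : ℕ} (hM : 2 ≤ M) (x0 : Tor d M) (η : Tor d M → ℕ)
    (l : List (Let d M K)) : ∀ z ∈ (stT x0 η l).2, 0 < (stT x0 η l).1 z := by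
  induction l using List.reverseRecOn with
  | nil => exact fun z hz => hz.2
  | append_singleton l a ih =>
    rw [stT_snoc]
    intro z hz
    rw [upT_eq hM _ _ _ ih] at hz
    exact updB_supp _ _ _ ih z hz

theorem path_snoc {M K : ℕ} (η : Tor d M → ℕ) (l : List (Let d M K)) (a : Let d M K) :
    path η (l ++ [a]) = path η l ++ [stepA (l.foldl stepA η) a] := by
  induction l generalizing η with
  | nil => rfl
  | cons b l ih =>
    rw [List.cons_append, path, path, ih]
    rfl

theorem path_rev_head {M K : ℕ} (η : Tor d M → ℕ) (l : List (Let d M K)) :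
    ∃ L, (path η l).reverse = l.foldl stepA η :: L := by
  induction l using List.reverseRecOn with
  | nil => exact ⟨[], rfl⟩
  | append_singleton l a ih =>
    rw [path_snoc, List.reverse_append, List.foldl_append]
    exact ⟨_, rfl⟩

theorem path_head {M K : ℕ} (η : Tor d M → ℕ) (l : List (Let d M K)) :
    ∃ L, path η l = η :: L := by
  cases l with
  | nil => exact ⟨[], rfl⟩
  | cons a l => exact ⟨_, rfl⟩

theorem BPr_cons {V : Type} (x0 : V) (c' c : V → ℕ) (L : List (V → ℕ)) :
    BPr x0 (c' :: c :: L) = updB c c' (BPr x0 (c :: L)) := rfl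

/-- the infection is the infection of the path -/
theorem BPr_rev {M K : ℕ} (hM : 2 ≤ M) (x0 : Tor d M) (η : Tor d M → ℕ)
    (l : List (Let d M K)) : BPr x0 (path η l).reverse = (stT x0 η l).2 := by
  induction l using List.reverseRecOn with
  | nil => rfl
  | append_singleton l a ih =>
    rw [stT_snoc, upT_eq hM _ _ _ (stT_supp hM x0 η l), path_snoc, List.reverse_append]
    obtain ⟨L, hL⟩ := path_rev_head η l
    change BPr x0 (stepA (l.foldl stepA η) a :: (path η l).reverse) = _
    rw [hL, BPr_cons, ← hL, ih, stT_fst]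

theorem BPr_path_cons {M K : ℕ} (x0 : Tor d M) (η : Tor d M → ℕ) (a : Let d M K)
    (l : List (Let d M K)) : BPr x0 (path η (a :: l)) =
      updB (stepA η a) η (BPr x0 (path (stepA η a) l)) := by
  obtain ⟨L, hL⟩ := path_head (stepA η a) l
  change BPr x0 (η :: path (stepA η a) l) = _
  rw [hL, BPr_cons]

/-- one more particle -/
theorem step_add {M K : ℕ} (hM : 2 ≤ M) (η : Tor d M → ℕ) (D : Tor d M) (a : Let d M K) :
    ∃ D1, stepA (add η D) a = add (stepA η a) D1 ∧ (D1 = D ∨ stepA η a = η) := by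
  cases h : toLab a with
  | none => exact ⟨D, by rw [stepA_none _ _ h, stepA_none _ _ h], Or.inl rfl⟩
  | some b =>
    rw [stepA_some _ _ b h, stepA_some _ _ b h]
    have hne : b.1 + tv (dv b.2.2) ≠ b.1 := Rows.add_tv_ne hM b.1 b.2.2
    by_cases hk : b.2.1 < η b.1
    · have hk' : b.2.1 < add η D b.1 := by
        by_cases hD : b.1 = D
        · rw [← hD, add_at]; omega
        · rw [add_ne _ hD]; exact hk
      refine ⟨D, ?_, Or.inl rfl⟩
      rw [mv_add _ b hk', mv_add _ b hk]
      have hx : 0 < η b.1 := lt_of_le_of_lt (Nat.zero_le _) hk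
      obtain ⟨h1, h2, h3⟩ := jump_vals hM η b.1 b.2.2 hx
      have hx' : 0 < add η D b.1 := lt_of_le_of_lt (Nat.zero_le _) hk'
      obtain ⟨g1, g2, g3⟩ := jump_vals hM (add η D) b.1 b.2.2 hx'
      funext z
      by_cases hz1 : z = b.1
      · subst hz1
        by_cases hD : b.1 = D
        · rw [← hD, add_at]
          rw [← hD, add_at] at g1
          omega
        · rw [add_ne _ hD]
          rw [add_ne η hD] at g1
          omega
      · by_cases hz2 : z = b.1 + tv (dv b.2.2)
        · rw [hz2]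
          by_cases hD : b.1 + tv (dv b.2.2) = D
          · rw [g2, ← hD, add_at, add_at, h2]
          · rw [g2, add_ne _ hD, add_ne _ hD, h2]
        · rw [g3 z hz1 hz2]
          by_cases hD : z = D
          · rw [← hD, add_at, add_at, h3 z hz1 hz2]
          · rw [add_ne _ hD, add_ne _ hD, h3 z hz1 hz2]
    · rw [mv_stay _ b hk]
      by_cases hk' : b.2.1 < add η D b.1
      · have hD : b.1 = D := by
          by_contra hD
          rw [add_ne _ hD] at hk'
          exact hk hk'
        refine ⟨b.1 + tv (dv b.2.2), ?_, Or.inr rfl⟩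
        rw [mv_add _ b hk', ← hD, rem_add]
      · rw [mv_stay _ b hk']
        exact ⟨D, rfl, Or.inl rfl⟩

/-- deterministic part of Lemma R -/
theorem det {M K : ℕ} (hM : 2 ≤ M) (x0 : Tor d M) (l : List (Let d M K)) :
    ∀ (η : Tor d M → ℕ) (D : Tor d M), D ∉ BPr x0 (path (add η D) l) →
      BPr x0 (path (add η D) l) = BPr x0 (path η l) := by
  induction l with
  | nil =>
    intro η D hD
    change B0 x0 (add η D) = B0 x0 η
    have hD' : D ≠ x0 := fun h => hD ⟨h, by rw [add_at]; omega⟩
    ext z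
    unfold B0
    simp only [Set.mem_ofPred_eq]
    constructor
    · rintro ⟨h1, h2⟩
      subst h1
      rw [add_ne _ hD'.symm] at h2
      exact ⟨rfl, h2⟩
    · rintro ⟨h1, h2⟩
      subst h1
      rw [add_ne _ hD'.symm]
      exact ⟨rfl, h2⟩
  | cons a l ih =>
    intro η D hD
    obtain ⟨D1, h1, h2⟩ := step_add hM η D a
    rw [BPr_path_cons] at hD ⊢
    rw [BPr_path_cons, h1]
    rw [h1] at hD
    set c1 := stepA η a with hc1
    have hD1 : D1 ∉ BPr x0 (path (add c1 D1) l) := by
      intro hmem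
      apply hD
      unfold updB
      rcases h2 with h2 | h2
      · subst h2
        split_ifs
        · left
          exact ⟨hmem, by rw [add_at]; omega⟩
        · exact hmem
      · by_cases hDD : D1 = D
        · subst hDD
          split_ifs
          · left
            exact ⟨hmem, by rw [add_at]; omega⟩
          · exact hmem
        · rw [if_pos]
          · right
            change add c1 D1 D < add η D D
            rw [add_ne _ (Ne.symm hDD), add_at, h2]
            omega
          · refine ⟨D1, hmem, ?_⟩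
            rw [add_ne _ hDD, add_at, h2]
            omega
    rw [ih c1 D1 hD1]
    rw [ih c1 D1 hD1] at hD1
    set B1 := BPr x0 (path c1 l) with hB1
    by_cases hDD : D1 = D
    · subst hDD
      have hc : (∃ x ∈ B1, add η D1 x < add c1 D1 x) ↔ ∃ x ∈ B1, η x < c1 x := by
        constructor
        · rintro ⟨x, hx, hlt⟩
          have hxD : x ≠ D1 := fun h => hD1 (h ▸ hx)
          rw [add_ne _ hxD, add_ne _ hxD] at hlt
          exact ⟨x, hx, hlt⟩
        · rintro ⟨x, hx, hlt⟩
          have hxD : x ≠ D1 := fun h => hD1 (h ▸ hx)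
          refine ⟨x, hx, ?_⟩
          rw [add_ne _ hxD, add_ne _ hxD]
          exact hlt
      unfold updB
      by_cases hcc : ∃ x ∈ B1, η x < c1 x
      · rw [if_pos (hc.2 hcc), if_pos hcc]
        ext z
        simp only [Set.mem_union, Set.mem_ofPred_eq]
        by_cases hz : z = D1
        · subst hz
          rw [add_at, add_at]
          constructor
          · rintro (⟨h, -⟩ | h)
            · exact absurd h hD1
            · right
              omega
          · rintro (⟨h, -⟩ | h)
            · exact absurd h hD1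
            · right
              omega
        · rw [add_ne _ hz, add_ne _ hz]
      · rw [if_neg (fun h => hcc (hc.1 h)), if_neg hcc]
    · have hc1η : c1 = η := h2.resolve_left hDD
      have hn1 : ¬ ∃ x ∈ B1, add η D x < add c1 D1 x := by
        rintro ⟨x, hx, hlt⟩
        have hxD : x ≠ D1 := fun h => hD1 (h ▸ hx)
        rw [add_ne _ hxD, hc1η] at hlt
        by_cases hxD' : x = D
        · rw [hxD', add_at] at hlt
          omega
        · rw [add_ne _ hxD'] at hlt
          exact lt_irrefl _ hlt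
      have hn2 : ¬ ∃ x ∈ B1, η x < c1 x := by
        rintro ⟨x, -, hlt⟩
        rw [hc1η] at hlt
        exact lt_irrefl _ hlt
      unfold updB
      rw [if_neg hn1, if_neg hn2]

/-! ### calculus of the expectation of the stationary chain -/

section EE

variable {m : Model} (q : Par d m)

theorem EE_mono (N : ℕ) {F G : (Tor d q.M → ℕ) → List (Let d q.M q.K) → ℝ≥0∞}
    (h : ∀ η l, F η l ≤ G η l) : q.EE N F ≤ q.EE N G := by
  unfold Par.EE
  exact ENNReal.tsum_le_tsum fun η => mul_le_mul_right (EvE_mono q.w N fun l _ => h η l) _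

theorem EE_congr (N : ℕ) {F G : (Tor d q.M → ℕ) → List (Let d q.M q.K) → ℝ≥0∞}
    (h : ∀ η l, F η l = G η l) : q.EE N F = q.EE N G :=
  congrArg (q.EE N) (funext fun η => funext fun l => h η l)

theorem EE_add (N : ℕ) (F G : (Tor d q.M → ℕ) → List (Let d q.M q.K) → ℝ≥0∞) :
    q.EE N (fun η l => F η l + G η l) = q.EE N F + q.EE N G := by
  unfold Par.EE
  rw [← ENNReal.tsum_add]
  refine tsum_congr fun η => ?_
  rw [EvE_add, mul_add]

theorem EE_mul (N : ℕ) (c : ℝ≥0∞) (F : (Tor d q.M → ℕ) → List (Let d q.M q.K) → ℝ≥0∞) :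
    q.EE N (fun η l => c * F η l) = c * q.EE N F := by
  unfold Par.EE
  rw [← ENNReal.tsum_mul_left]
  refine tsum_congr fun η => ?_
  rw [EvE_mul, mul_left_comm]

theorem EE_zero' (N : ℕ) : q.EE N (fun _ _ => 0) = 0 := by
  have := EE_mul q N 0 (fun _ _ => 0)
  simpa using this

theorem EE_sum {ι : Type} (s : Finset ι) (N : ℕ)
    (F : ι → (Tor d q.M → ℕ) → List (Let d q.M q.K) → ℝ≥0∞) :
    q.EE N (fun η l => ∑ i ∈ s, F i η l) = ∑ i ∈ s, q.EE N (F i) := by
  induction s using Finset.induction_on with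
  | empty => simpa using EE_zero' q N
  | insert a s ha ih =>
    simp only [Finset.sum_insert ha]
    rw [EE_add, ih]

/-- the last letter -/
theorem EE_succ (N : ℕ) (F : (Tor d q.M → ℕ) → List (Let d q.M q.K) → ℝ≥0∞) :
    q.EE (N + 1) F = q.EE N (fun η l => ∑ a, q.w a * F η (l ++ [a])) := by
  unfold Par.EE
  refine tsum_congr fun η => ?_
  rw [EvE_append]
  rfl

/-- Lemma R -/
theorem lemma_R (x0 x y : Tor d q.M) (h : ℕ → ℝ≥0∞) (N : ℕ) :
    q.EE N (fun η l => ENNReal.ofReal (m.gK q.K ((stT x0 η l).1 y)) *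
      ((if y ∉ (stT x0 η l).2 then 1 else 0) *
        (if x ∈ (stT x0 η l).2 then h ((stT x0 η l).1 x) else 0))) ≤
      ENNReal.ofReal m.φ * q.EE N (fun η l =>
      ((if y ∉ (stT x0 η l).2 then 1 else 0) *
        (if x ∈ (stT x0 η l).2 then h ((stT x0 η l).1 x) else 0))) := by
  have hM : 2 ≤ q.M := by have := q.M_ge; omega
  set G : List (Tor d q.M → ℕ) → ℝ≥0∞ := fun L => (if y ∉ BPr x0 L then 1 else 0) *
    (if x ∈ BPr x0 L then h (L.headD 0 x) else 0) with hG
  set G' : List (Tor d q.M → ℕ) → ℝ≥0∞ := fun L =>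
    ENNReal.ofReal (m.gK q.K (L.headD 0 y)) * G L with hG'
  have hhead : ∀ (η : Tor d q.M → ℕ) (l : List (Let d q.M q.K)),
      (path η l).reverse.headD 0 = (stT x0 η l).1 := by
    intro η l
    obtain ⟨L, hL⟩ := path_rev_head η l
    rw [hL, stT_fst]
    rfl
  have hhead2 : ∀ (η : Tor d q.M → ℕ) (l : List (Let d q.M q.K)),
      (path η l).headD 0 = η := by
    intro η l
    obtain ⟨L, hL⟩ := path_head η l
    rw [hL]
    rfl
  have e1 : q.EE N (fun η l => ENNReal.ofReal (m.gK q.K ((stT x0 η l).1 y)) *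
      ((if y ∉ (stT x0 η l).2 then 1 else 0) *
        (if x ∈ (stT x0 η l).2 then h ((stT x0 η l).1 x) else 0))) =
      q.EE N (fun η l => G' (path η l).reverse) := by
    refine EE_congr q N fun η l => ?_
    simp only [hG', hG]
    rw [hhead, BPr_rev hM]
  have e2 : q.EE N (fun η l =>
      ((if y ∉ (stT x0 η l).2 then 1 else 0) *
        (if x ∈ (stT x0 η l).2 then h ((stT x0 η l).1 x) else 0))) =
      q.EE N (fun η l => G (path η l).reverse) := by
    refine EE_congr q N fun η l => ?_
    simp only [hG]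
    rw [hhead, BPr_rev hM]
  rw [e1, e2, ← Rows.reversal q N G', ← Rows.reversal q N G]
  have e3 : q.EE N (fun η l => G' (path η l)) = ∑' η : Tor d q.M → ℕ, prw (m.m1 q.K) η *
      (ENNReal.ofReal (m.gK q.K (η y)) * EvE q.w N (fun l => G (path η l))) := by
    unfold Par.EE
    refine tsum_congr fun η => ?_
    congr 1
    rw [← EvE_mul]
    refine congrArg (EvE q.w N) (funext fun l => ?_)
    simp only [hG']
    rw [hhead2]
  rw [e3, Rows.shift_prw q y]
  refine mul_le_mul_right ?_ _
  unfold Par.EE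
  refine ENNReal.tsum_le_tsum fun η => mul_le_mul_right ?_ _
  refine EvE_mono q.w N fun l _ => ?_
  have hup : Function.update η y (η y + 1) = add η y := by
    unfold add
    exact congrArg (fun i => @Function.update _ _ i η y (η y + 1)) (Subsingleton.elim _ _)
  rw [hup]
  simp only [hG]
  rw [hhead2, hhead2]
  by_cases hy : y ∉ BPr x0 (path (add η y) l)
  · have hdet := det hM x0 l η y hy
    rw [hdet] at hy ⊢
    by_cases hx : x ∈ BPr x0 (path η l)
    · have hxy : x ≠ y := fun hh => hy (hh ▸ hx)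
      rw [add_ne _ hxy]
    · rw [if_neg hx, if_neg hx]
  · rw [if_neg hy, zero_mul]
    exact bot_le

end EE

/-! ### the weight on the torus -/

section weight

theorem nrm_eq (v : Pos d) : nrm v = ‖(WithLp.toLp 2 (fun j => (v j : ℝ)) :
    EuclideanSpace ℝ (Fin d))‖ := by
  rw [EuclideanSpace.norm_eq]
  unfold nrm
  congr 1
  refine Finset.sum_congr rfl fun j _ => ?_
  rw [Real.norm_eq_abs, sq_abs]

theorem nrm_add_le (a b : Pos d) : nrm (a + b) ≤ nrm a + nrm b := by
  rw [nrm_eq, nrm_eq, nrm_eq]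
  have h : (WithLp.toLp 2 (fun j => ((a + b) j : ℝ)) : EuclideanSpace ℝ (Fin d)) =
      WithLp.toLp 2 (fun j => (a j : ℝ)) + WithLp.toLp 2 (fun j => (b j : ℝ)) := by
    ext j
    simp
  rw [h]
  exact norm_add_le _ _

theorem nrm_nonneg (v : Pos d) : 0 ≤ nrm v := Real.sqrt_nonneg _

theorem nrm_zero : nrm (0 : Pos d) = 0 := by
  unfold nrm
  simp

theorem nrm_dv (e : Dir d) : nrm (dv e) = 1 := by
  unfold nrm
  have h : ∑ j, ((dv e j : ℤ) : ℝ) ^ 2 = 1 := by
    rw [Finset.sum_eq_single e.1]
    · unfold dv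
      rw [Pi.single_eq_same]
      split_ifs <;> norm_num
    · intro j _ hj
      unfold dv
      rw [Pi.single_eq_of_ne hj]
      norm_num
    · intro h
      exact absurd (Finset.mem_univ _) h
  rw [h, Real.sqrt_one]

theorem nrm_le_of_natAbs {v w : Pos d} (h : ∀ j, (v j).natAbs ≤ (w j).natAbs) :
    nrm v ≤ nrm w := by
  unfold nrm
  apply Real.sqrt_le_sqrt
  refine Finset.sum_le_sum fun j _ => ?_
  have h1 : ((v j).natAbs : ℝ) ≤ ((w j).natAbs : ℝ) := by exact_mod_cast h j
  rw [Nat.cast_natAbs, Nat.cast_natAbs, Int.cast_abs, Int.cast_abs] at h1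
  exact sq_le_sq.2 h1

/-- distance on the torus -/
def nT {M : ℕ} (x0 z : Tor d M) : ℝ := nrm (fun j => ((z - x0) j).valMinAbs)

theorem nT_self {M : ℕ} (x0 : Tor d M) : nT x0 x0 = 0 := by
  unfold nT
  rw [sub_self]
  have : (fun j => ((0 : Tor d M) j).valMinAbs) = (0 : Pos d) := by
    funext j
    exact ZMod.valMinAbs_zero M
  rw [this, nrm_zero]

theorem nT_step {M : ℕ} [NeZero M] (x0 z : Tor d M) (e : Dir d) :
    nT x0 (z + tv (dv e)) ≤ nT x0 z + 1 := by
  have h1 : nT x0 (z + tv (dv e)) ≤ nrm ((fun j => ((z - x0) j).valMinAbs) + dv e) := by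
    apply nrm_le_of_natAbs
    intro j
    apply ZMod.natAbs_min_of_le_div_two M
    · rw [ZMod.coe_valMinAbs]
      have : (((fun j => ((z - x0) j).valMinAbs) + dv e) j : ℤ) =
          ((z - x0) j).valMinAbs + dv e j := rfl
      rw [this, Int.cast_add, ZMod.coe_valMinAbs]
      change z j + tv (dv e) j - x0 j = (z j - x0 j) + _
      unfold tv
      ring
    · exact ZMod.natAbs_valMinAbs_le _
  refine h1.trans ((nrm_add_le _ _).trans ?_)
  rw [nrm_dv]
  exact le_rfl

theorem abs_le_nrm (v : Pos d) (j : Fin d) : |(v j : ℝ)| ≤ nrm v := by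
  unfold nrm
  apply Real.abs_le_sqrt
  exact Finset.single_le_sum (f := fun j => ((v j : ℝ)) ^ 2) (fun i _ => sq_nonneg _)
    (Finset.mem_univ j)

theorem nT_lift {M : ℕ} [NeZero M] (x v : Pos d) (hv : 2 * nrm v < M) :
    nT (tv x : Tor d M) (tv (x + v)) = nrm v := by
  unfold nT
  congr 1
  funext j
  have h0 : ((tv (x + v) - tv x : Tor d M) j) = ((v j : ℤ) : ZMod M) := by
    change (((x + v) j : ℤ) : ZMod M) - ((x j : ℤ) : ZMod M) = _
    rw [Pi.add_apply, Int.cast_add]
    ring
  rw [h0, ZMod.valMinAbs_spec]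
  refine ⟨rfl, ?_⟩
  have h1 := abs_le_nrm v j
  have h2 : |(v j : ℝ)| * 2 < M := by linarith
  have h3 := abs_lt.1 (show |((v j : ℝ)) * 2| < M by rw [abs_mul, abs_two]; exact h2)
  constructor
  · have := h3.1
    exact_mod_cast this
  · have := h3.2.le
    exact_mod_cast this

/-- the weight -/
def FT {M : ℕ} (x0 z : Tor d M) : ℝ≥0∞ := ENNReal.ofReal (Real.exp (nT x0 z))

theorem FT_self {M : ℕ} (x0 : Tor d M) : FT x0 x0 = 1 := by
  unfold FT
  rw [nT_self, Real.exp_zero, ENNReal.ofReal_one]

theorem FT_step {M : ℕ} [NeZero M] (x0 z : Tor d M) (e : Dir d) :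
    FT x0 (z + tv (dv e)) ≤ ENNReal.ofReal (Real.exp 1) * FT x0 z := by
  unfold FT
  rw [← ENNReal.ofReal_mul (Real.exp_pos _).le, ← Real.exp_add]
  apply ENNReal.ofReal_le_ofReal
  apply Real.exp_le_exp.2
  have := nT_step x0 z e
  linarith

end weight

/-! ### one step of the potential -/

section pot

variable {m : Model} (q : Par d m)

/-- the potential -/
def PS (x0 : Tor d q.M) (s : (Tor d q.M → ℕ) × Set (Tor d q.M)) : ℝ≥0∞ :=
  ∑ x, (if x ∈ s.2 then ENNReal.ofReal (m.gK q.K (s.1 x)) else 0) * FT x0 x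

/-- the increase of the potential -/
def AD (x0 : Tor d q.M) (s : (Tor d q.M → ℕ) × Set (Tor d q.M)) (x y : Tor d q.M) : ℝ≥0∞ :=
  (if x ∈ s.2 then ENNReal.ofReal m.Gp +
      (if y ∉ s.2 then ENNReal.ofReal (m.gK q.K (s.1 y)) else 0)
    else (if y ∈ s.2 then ENNReal.ofReal m.Gp else 0)) * FT x0 y

theorem gK_mono (m : Model) (K : ℕ) {a b : ℕ} (h : a ≤ b) : m.gK K a ≤ m.gK K b := by
  unfold Model.gK
  exact g_mono m (min_le_min_right K h)

theorem gK_succ_le (m : Model) (K a : ℕ) : m.gK K (a + 1) ≤ m.gK K a + m.Gp := by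
  unfold Model.gK
  rcases le_total (a + 1) K with h | h
  · rw [min_eq_left h, min_eq_left (by omega)]
    have := m.inc_ub a
    linarith
  · have h1 : min (a + 1) K = K := min_eq_right h
    have h2 := m.le_Gp
    rcases Nat.lt_or_ge a K with h3 | h3
    · have h4 : K = a + 1 := by omega
      rw [h1, min_eq_left h3.le, h4]
      have := m.inc_ub a
      linarith
    · rw [h1, min_eq_right h3]
      linarith

theorem PS_jump (x0 : Tor d q.M) (η : Tor d q.M → ℕ) (B : Set (Tor d q.M))
    (a : Let d q.M q.K) (b : Lab (Tor d q.M) d) (hb : toLab a = some b) (hk : b.2.1 < η b.1) :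
    PS q x0 (stepA η a, upT η B a) ≤ PS q x0 (η, B) +
      AD q x0 (η, B) b.1 (b.1 + tv (dv b.2.2)) := by
  have hM : 2 ≤ q.M := by have := q.M_ge; omega
  have hx : 0 < η b.1 := lt_of_le_of_lt (Nat.zero_le _) hk
  obtain ⟨h1, h2, h3⟩ := jump_vals hM η b.1 b.2.2 hx
  have hne : b.1 + tv (dv b.2.2) ≠ b.1 := Rows.add_tv_ne hM b.1 b.2.2
  rw [stepA_some _ _ b hb, upT_some _ _ _ b hb, mv_add η b hk]
  set y := b.1 + tv (dv b.2.2) with hy
  set c' := add (rem η b.1) y with hc'
  set B' : Set (Tor d q.M) := if b.2.1 < η b.1 ∧ b.1 ∈ B then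
      {z | z ∈ B ∧ (z = b.1 → 2 ≤ η b.1)} ∪ {y} else B with hB'
  have hB'sub : ∀ z, z ≠ y → z ∈ B' → z ∈ B := by
    intro z hz hzB
    rw [hB'] at hzB
    split_ifs at hzB
    · rcases hzB with h | h
      · exact h.1
      · exact absurd h hz
    · exact hzB
  have hyB' : y ∈ B' → y ∈ B ∨ b.1 ∈ B := by
    intro h
    rw [hB'] at h
    split_ifs at h with h'
    · exact Or.inr h'.2
    · exact Or.inl h
  unfold PS
  have hAD : AD q x0 (η, B) b.1 y = ∑ z, if z = y then AD q x0 (η, B) b.1 y else 0 := by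
    rw [Finset.sum_ite_eq' Finset.univ y, if_pos (Finset.mem_univ _)]
  rw [hAD, ← Finset.sum_add_distrib]
  refine Finset.sum_le_sum fun z _ => ?_
  by_cases hz : z = y
  · rw [hz, if_pos rfl]
    unfold AD
    rw [← add_mul]
    refine mul_le_mul_left ?_ _
    simp only
    have hg : ENNReal.ofReal (m.gK q.K (c' y)) ≤ ENNReal.ofReal (m.gK q.K (η y)) +
        ENNReal.ofReal m.Gp := by
      rw [h2, ← ENNReal.ofReal_add (gK_nonneg m q.K _) (by have := m.le_Gp; linarith)]
      exact ENNReal.ofReal_le_ofReal (gK_succ_le m q.K _)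
    by_cases hyB : y ∈ B
    · rw [if_pos hyB]
      refine (show (if y ∈ B' then ENNReal.ofReal (m.gK q.K (c' y)) else 0) ≤
        ENNReal.ofReal (m.gK q.K (η y)) + ENNReal.ofReal m.Gp from ?_).trans ?_
      · split_ifs
        · exact hg
        · exact bot_le
      · gcongr
        split_ifs
        · exact le_self_add
        · exact le_rfl
    · rw [if_neg hyB]
      by_cases hyB2 : y ∈ B'
      · have hxB : b.1 ∈ B := (hyB' hyB2).resolve_left hyB
        rw [if_pos hyB2, if_pos hxB, if_pos hyB, zero_add, add_comm]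
        exact hg
      · rw [if_neg hyB2]
        exact bot_le
  · rw [if_neg hz, add_zero]
    refine mul_le_mul_left ?_ _
    simp only
    by_cases hzB : z ∈ B'
    · rw [if_pos hzB, if_pos (hB'sub z hz hzB)]
      apply ENNReal.ofReal_le_ofReal
      apply gK_mono
      by_cases hz1 : z = b.1
      · subst hz1
        omega
      · rw [h3 z hz1 hz]
    · rw [if_neg hzB]
      exact bot_le

/-- the sum over the letters -/
theorem sum_letters (η : Tor d q.M → ℕ) (X : Tor d q.M → Dir d → ℝ≥0∞) :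
    ∑ a : Let d q.M q.K, q.w a * (match toLab a with
      | none => 0
      | some b => if b.2.1 < η b.1 then X b.1 b.2.2 else 0) =
    ∑ x, ∑ e, ENNReal.ofReal (m.gK q.K (η x) / (2 * d) * q.p) * X x e := by
  rw [Fintype.sum_option]
  have h0 : q.w (none : Let d q.M q.K) * (match toLab (none : Let d q.M q.K) with
      | none => (0 : ℝ≥0∞)
      | some b => if b.2.1 < η b.1 then X b.1 b.2.2 else 0) = 0 := mul_zero _
  rw [h0, zero_add, Fintype.sum_prod_type]
  refine Finset.sum_congr rfl fun x _ => ?_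
  rw [Fintype.sum_prod_type_right]
  refine Finset.sum_congr rfl fun e _ => ?_
  rw [← sum_lam q (η x), Finset.sum_mul]
  refine Finset.sum_congr rfl fun k _ => ?_
  change ENNReal.ofReal (m.lam d k * q.p) * (if (k : ℕ) < η x then X x e else 0) =
    (if (k : ℕ) < η x then ENNReal.ofReal (m.lam d k * q.p) else 0) * X x e
  split_ifs <;> simp

theorem PS_step (hd : 0 < d) (x0 : Tor d q.M) (s : (Tor d q.M → ℕ) × Set (Tor d q.M)) :
    ∑ a : Let d q.M q.K, q.w a * PS q x0 (stepA s.1 a, upT s.1 s.2 a) ≤ PS q x0 s +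
      ∑ x, ∑ e, ENNReal.ofReal (m.gK q.K (s.1 x) / (2 * d) * q.p) *
        AD q x0 s x (x + tv (dv e)) := by
  obtain ⟨η, B⟩ := s
  rw [← sum_letters q η (fun x e => AD q x0 (η, B) x (x + tv (dv e)))]
  have h1 : PS q x0 (η, B) = ∑ a, q.w a * PS q x0 (η, B) := by
    rw [← Finset.sum_mul, Rows.sum_w q hd, one_mul]
  rw [h1, ← Finset.sum_add_distrib]
  refine Finset.sum_le_sum fun a _ => ?_
  rw [← mul_add]
  refine mul_le_mul_right ?_ _
  cases h : toLab a with
  | none =>
    simp only
    rw [stepA_none _ _ h, upT_none _ _ _ h]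
    exact le_self_add
  | some b =>
    simp only
    by_cases hk : b.2.1 < η b.1
    · rw [if_pos hk]
      exact PS_jump q x0 η B a b h hk
    · rw [if_neg hk, stepA_some _ _ b h, upT_some _ _ _ b h, mv_stay _ _ hk,
        if_neg (fun h' => hk h'.1)]
      exact le_self_add

end pot

/-! ### the expected potential -/

section rec

variable {m : Model} (q : Par d m)

/-- expected rate of the infected particles at `x` -/
def bb (x0 : Tor d q.M) (N : ℕ) (x : Tor d q.M) : ℝ≥0∞ :=
  q.EE N (fun η l => if x ∈ (stT x0 η l).2 then ENNReal.ofReal (m.gK q.K ((stT x0 η l).1 x))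
    else 0)

/-- expected potential -/
def aa (x0 : Tor d q.M) (N : ℕ) : ℝ≥0∞ := q.EE N (fun η l => PS q x0 (stT x0 η l))

theorem aa_eq (x0 : Tor d q.M) (N : ℕ) : aa q x0 N = ∑ x, FT x0 x * bb q x0 N x := by
  unfold aa PS bb
  rw [EE_sum q Finset.univ N (fun x η l => (if x ∈ (stT x0 η l).2 then
    ENNReal.ofReal (m.gK q.K ((stT x0 η l).1 x)) else 0) * FT x0 x)]
  refine Finset.sum_congr rfl fun x _ => ?_
  rw [← EE_mul]
  refine EE_congr q N fun η l => mul_comm _ _

theorem ite_le_one' (p : Prop) [Decidable p] : (if p then (1 : ℝ≥0∞) else 0) ≤ 1 := by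
  by_cases h : p
  · rw [if_pos h]
  · rw [if_neg h]
    exact bot_le

/-- the rate constant -/
def C1 (m : Model) : ℝ := (m.Gp + m.φ) * Real.exp 1 + m.Gp * m.φ / m.Gm

theorem term1 (x0 x y : Tor d q.M) (N : ℕ) :
    q.EE N (fun η l => ENNReal.ofReal (m.gK q.K ((stT x0 η l).1 x)) *
      AD q x0 (stT x0 η l) x y) ≤
      (ENNReal.ofReal m.Gp + ENNReal.ofReal m.φ) * (FT x0 y * bb q x0 N x) +
        ENNReal.ofReal (m.Gp * m.φ / m.Gm) * (FT x0 y * bb q x0 N y) := by
  have hM : 2 ≤ q.M := by have := q.M_ge; omega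
  -- three terms
  have e1 : q.EE N (fun η l => ENNReal.ofReal (m.gK q.K ((stT x0 η l).1 x)) *
      AD q x0 (stT x0 η l) x y) ≤ q.EE N (fun η l =>
      ((ENNReal.ofReal m.Gp * FT x0 y) * (if x ∈ (stT x0 η l).2 then
        ENNReal.ofReal (m.gK q.K ((stT x0 η l).1 x)) else 0) +
      FT x0 y * (ENNReal.ofReal (m.gK q.K ((stT x0 η l).1 y)) *
        ((if y ∉ (stT x0 η l).2 then 1 else 0) * (if x ∈ (stT x0 η l).2 then
          ENNReal.ofReal (m.gK q.K ((stT x0 η l).1 x)) else 0)))) +
      (ENNReal.ofReal m.Gp * FT x0 y) * (ENNReal.ofReal (m.gK q.K ((stT x0 η l).1 x)) *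
        ((if x ∉ (stT x0 η l).2 then 1 else 0) * (if y ∈ (stT x0 η l).2 then 1 else 0)))) := by
    refine EE_mono q N fun η l => ?_
    unfold AD
    by_cases hx : x ∈ (stT x0 η l).2
    · by_cases hy : y ∈ (stT x0 η l).2
      · simp only [hx, hy, if_true, not_true_eq_false, if_false, zero_mul, mul_zero, add_zero]
        exact le_of_eq (by ring)
      · simp only [hx, hy, if_true, not_false_eq_true, not_true_eq_false, if_false,
          mul_zero, add_zero, one_mul]
        exact le_of_eq (by ring)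
    · by_cases hy : y ∈ (stT x0 η l).2
      · simp only [hx, hy, if_true, not_false_eq_true, not_true_eq_false, if_false,
          mul_zero, zero_add, add_zero, mul_one]
        exact le_of_eq (by ring)
      · simp only [hx, hy, if_true, not_false_eq_true, if_false, zero_mul, mul_zero]
        exact bot_le
  refine e1.trans ?_
  rw [EE_add, EE_add, EE_mul, EE_mul, EE_mul]
  have r1 := lemma_R q x0 x y (fun k => ENNReal.ofReal (m.gK q.K k)) N
  have r2 : q.EE N (fun η l => ((if y ∉ (stT x0 η l).2 then (1 : ℝ≥0∞) else 0) *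
        (if x ∈ (stT x0 η l).2 then ENNReal.ofReal (m.gK q.K ((stT x0 η l).1 x)) else 0))) ≤
      bb q x0 N x := by
    refine EE_mono q N fun η l => ?_
    exact mul_le_of_le_one_left bot_le (ite_le_one' _)
  have r3 := lemma_R q x0 y x (fun _ => 1) N
  have r4 : ENNReal.ofReal m.Gm * q.EE N (fun η l =>
      ((if x ∉ (stT x0 η l).2 then (1 : ℝ≥0∞) else 0) *
        (if y ∈ (stT x0 η l).2 then 1 else 0))) ≤ bb q x0 N y := by
    rw [← EE_mul]
    refine EE_mono q N fun η l => ?_
    by_cases hy : y ∈ (stT x0 η l).2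
    · rw [if_pos hy, if_pos hy, mul_one]
      have h1 : ENNReal.ofReal m.Gm ≤ ENNReal.ofReal (m.gK q.K ((stT x0 η l).1 y)) := by
        apply ENNReal.ofReal_le_ofReal
        have h2 := stT_supp hM x0 η l y hy
        have h3 : m.gK q.K 1 ≤ m.gK q.K ((stT x0 η l).1 y) := gK_mono m q.K h2
        have h4 : m.gK q.K 1 = m.g 1 := by
          unfold Model.gK
          rw [min_eq_left (by have := q.K_ge; omega)]
        have h5 := m.inc_lb 0
        rw [m.g0, zero_add] at h5
        linarith
      refine le_trans ?_ h1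
      exact mul_le_of_le_one_right bot_le (ite_le_one' _)
    · rw [if_neg hy, if_neg hy, mul_zero, mul_zero]
  have hGm : ENNReal.ofReal m.Gm ≠ 0 := by
    rw [Ne, ENNReal.ofReal_eq_zero, not_le]
    exact m.Gm_pos
  have r5 : q.EE N (fun η l =>
      ((if x ∉ (stT x0 η l).2 then (1 : ℝ≥0∞) else 0) *
        (if y ∈ (stT x0 η l).2 then 1 else 0))) ≤ (ENNReal.ofReal m.Gm)⁻¹ * bb q x0 N y := by
    calc q.EE N (fun η l =>
      ((if x ∉ (stT x0 η l).2 then (1 : ℝ≥0∞) else 0) *
        (if y ∈ (stT x0 η l).2 then 1 else 0)))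
        = (ENNReal.ofReal m.Gm)⁻¹ * (ENNReal.ofReal m.Gm * q.EE N (fun η l =>
      ((if x ∉ (stT x0 η l).2 then (1 : ℝ≥0∞) else 0) *
        (if y ∈ (stT x0 η l).2 then 1 else 0)))) := by
          rw [← mul_assoc, ENNReal.inv_mul_cancel hGm ENNReal.ofReal_ne_top, one_mul]
      _ ≤ _ := mul_le_mul_right r4 _
  have hconst : ENNReal.ofReal (m.Gp * m.φ / m.Gm) =
      ENNReal.ofReal m.Gp * (ENNReal.ofReal m.φ * (ENNReal.ofReal m.Gm)⁻¹) := by
    rw [ENNReal.ofReal_div_of_pos m.Gm_pos, ENNReal.ofReal_mul (by have := m.le_Gp; linarith),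
      div_eq_mul_inv, mul_assoc]
  rw [hconst, add_mul]
  have s1 : ENNReal.ofReal m.Gp * FT x0 y * q.EE N (fun η l => if x ∈ (stT x0 η l).2 then
        ENNReal.ofReal (m.gK q.K ((stT x0 η l).1 x)) else 0) =
      ENNReal.ofReal m.Gp * (FT x0 y * bb q x0 N x) := by
    rw [mul_assoc]
    rfl
  refine add_le_add (add_le_add (le_of_eq s1) ?_) ?_
  · calc FT x0 y * q.EE N (fun η l => ENNReal.ofReal (m.gK q.K ((stT x0 η l).1 y)) *
        ((if y ∉ (stT x0 η l).2 then 1 else 0) * (if x ∈ (stT x0 η l).2 then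
          ENNReal.ofReal (m.gK q.K ((stT x0 η l).1 x)) else 0)))
        ≤ FT x0 y * (ENNReal.ofReal m.φ * bb q x0 N x) :=
          mul_le_mul_right (r1.trans (mul_le_mul_right r2 _)) _
      _ = ENNReal.ofReal m.φ * (FT x0 y * bb q x0 N x) := by ring
  · calc ENNReal.ofReal m.Gp * FT x0 y * q.EE N (fun η l =>
        ENNReal.ofReal (m.gK q.K ((stT x0 η l).1 x)) *
        ((if x ∉ (stT x0 η l).2 then 1 else 0) * (if y ∈ (stT x0 η l).2 then 1 else 0)))
        ≤ ENNReal.ofReal m.Gp * FT x0 y * (ENNReal.ofReal m.φ *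
          ((ENNReal.ofReal m.Gm)⁻¹ * bb q x0 N y)) :=
          mul_le_mul_right (r3.trans (mul_le_mul_right r5 _)) _
      _ = _ := by ring

theorem sum_xe (hd : 0 < d) (c : ℝ≥0∞) :
    ∑ _e : Dir d, ENNReal.ofReal (1 / (2 * d)) * c = c := by
  rw [Finset.sum_const, Finset.card_univ, nsmul_eq_mul, Fintype.card_prod, Fintype.card_fin,
    Fintype.card_bool, ← mul_assoc]
  have h : ((d * 2 : ℕ) : ℝ≥0∞) * ENNReal.ofReal (1 / (2 * d)) = 1 := by
    rw [← ENNReal.ofReal_natCast, ← ENNReal.ofReal_mul (Nat.cast_nonneg _)]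
    have h1 : (d : ℝ) ≠ 0 := by exact_mod_cast hd.ne'
    have h2 : ((d * 2 : ℕ) : ℝ) * (1 / (2 * d)) = 1 := by
      push_cast
      field_simp
    rw [h2, ENNReal.ofReal_one]
  rw [h, one_mul]

theorem aa_succ (hd : 0 < d) (x0 : Tor d q.M) (N : ℕ) :
    aa q x0 (N + 1) ≤ (1 + ENNReal.ofReal (C1 m * q.p)) * aa q x0 N := by
  have hp := q.p_pos
  have hGp : 0 ≤ m.Gp := by have := m.le_Gp; linarith
  have hφ := m.φ_pos
  have h1 : aa q x0 (N + 1) ≤ q.EE N (fun η l => PS q x0 (stT x0 η l) +
      ∑ x, ∑ e, ENNReal.ofReal (m.gK q.K ((stT x0 η l).1 x) / (2 * d) * q.p) *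
        AD q x0 (stT x0 η l) x (x + tv (dv e))) := by
    unfold aa
    rw [EE_succ]
    refine EE_mono q N fun η l => ?_
    simp only [stT_snoc]
    exact PS_step q hd x0 (stT x0 η l)
  refine h1.trans ?_
  rw [EE_add, one_add_mul]
  refine add_le_add le_rfl ?_
  rw [EE_sum q Finset.univ N (fun x η l => ∑ e, ENNReal.ofReal
    (m.gK q.K ((stT x0 η l).1 x) / (2 * d) * q.p) * AD q x0 (stT x0 η l) x (x + tv (dv e)))]
  set κ : ℝ≥0∞ := ENNReal.ofReal (1 / (2 * d)) with hκ
  set P : ℝ≥0∞ := ENNReal.ofReal q.p with hP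
  set A1 : ℝ≥0∞ := (ENNReal.ofReal m.Gp + ENNReal.ofReal m.φ) with hA1
  set A2 : ℝ≥0∞ := ENNReal.ofReal (m.Gp * m.φ / m.Gm) with hA2
  set E1 : ℝ≥0∞ := ENNReal.ofReal (Real.exp 1) with hE1
  have h2 : ∀ x : Tor d q.M, q.EE N (fun η l => ∑ e, ENNReal.ofReal
      (m.gK q.K ((stT x0 η l).1 x) / (2 * d) * q.p) * AD q x0 (stT x0 η l) x (x + tv (dv e))) ≤
      ∑ e : Dir d, κ * (P * (A1 * (E1 * (FT x0 x * bb q x0 N x)) +
        A2 * (FT x0 (x + tv (dv e)) * bb q x0 N (x + tv (dv e))))) := by
    intro x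
    rw [EE_sum q Finset.univ N (fun e η l => ENNReal.ofReal
      (m.gK q.K ((stT x0 η l).1 x) / (2 * d) * q.p) * AD q x0 (stT x0 η l) x (x + tv (dv e)))]
    refine Finset.sum_le_sum fun e _ => ?_
    have h3 : q.EE N (fun η l => ENNReal.ofReal (m.gK q.K ((stT x0 η l).1 x) / (2 * d) * q.p) *
        AD q x0 (stT x0 η l) x (x + tv (dv e))) = (κ * P) * q.EE N (fun η l =>
        ENNReal.ofReal (m.gK q.K ((stT x0 η l).1 x)) * AD q x0 (stT x0 η l) x (x + tv (dv e))) := by
      rw [← EE_mul]
      refine EE_congr q N fun η l => ?_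
      rw [← mul_assoc, hκ, hP, ← ENNReal.ofReal_mul (by positivity),
        ← ENNReal.ofReal_mul (by positivity)]
      congr 2
      ring
    rw [h3, mul_assoc]
    refine mul_le_mul_right (mul_le_mul_right ?_ _) _
    refine (term1 q x0 x (x + tv (dv e)) N).trans (add_le_add (mul_le_mul_right ?_ _) le_rfl)
    rw [← mul_assoc]
    exact mul_le_mul_left (FT_step x0 x e) _
  refine (Finset.sum_le_sum fun x _ => h2 x).trans ?_
  rw [Finset.sum_comm]
  have h4 : ∀ e : Dir d, ∑ x : Tor d q.M, κ * (P * (A1 * (E1 * (FT x0 x * bb q x0 N x)) +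
        A2 * (FT x0 (x + tv (dv e)) * bb q x0 N (x + tv (dv e))))) =
      κ * (P * (A1 * E1 + A2) * aa q x0 N) := by
    intro e
    rw [← Finset.mul_sum, ← Finset.mul_sum, Finset.sum_add_distrib, ← Finset.mul_sum,
      ← Finset.mul_sum, ← Finset.mul_sum]
    have h5 : ∑ x : Tor d q.M, FT x0 (x + tv (dv e)) * bb q x0 N (x + tv (dv e)) =
        aa q x0 N := by
      rw [aa_eq]
      exact Equiv.sum_comp (Equiv.addRight (tv (dv e) : Tor d q.M))
        (fun x => FT x0 x * bb q x0 N x)
    rw [h5, ← aa_eq]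
    ring
  rw [Finset.sum_congr rfl fun e _ => h4 e, sum_xe hd]
  refine mul_le_mul_left (le_of_eq ?_) _
  have hGm := m.Gm_pos
  rw [hP, hA1, hA2, hE1, ← ENNReal.ofReal_add hGp hφ.le,
    ← ENNReal.ofReal_mul (by positivity), ← ENNReal.ofReal_add (by positivity) (by positivity),
    ← ENNReal.ofReal_mul (by positivity)]
  unfold C1
  congr 1
  ring

theorem aa_zero (x0 : Tor d q.M) : aa q x0 0 ≤ ENNReal.ofReal m.φ := by
  have h1 : aa q x0 0 ≤ ∑' η : Tor d q.M → ℕ, prw (m.m1 q.K) η *
      (ENNReal.ofReal (m.gK q.K (η x0)) * 1) := by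
    unfold aa Par.EE
    refine ENNReal.tsum_le_tsum fun η => mul_le_mul_right ?_ _
    change PS q x0 (η, B0 x0 η) ≤ _
    unfold PS
    rw [Finset.sum_eq_single x0]
    · rw [FT_self]
      refine mul_le_mul_left ?_ _
      split_ifs
      · exact le_rfl
      · exact bot_le
    · intro x _ hx
      rw [if_neg (fun h => hx h.1), zero_mul]
    · intro h
      exact absurd (Finset.mem_univ _) h
  refine h1.trans ?_
  rw [Rows.shift_prw q x0 (fun _ => 1)]
  simp only [mul_one]
  rw [Rows.tsum_prw, mul_one]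

theorem aa_le (hd : 0 < d) (x0 : Tor d q.M) (N : ℕ) :
    aa q x0 N ≤ (1 + ENNReal.ofReal (C1 m * q.p)) ^ N * ENNReal.ofReal m.φ := by
  induction N with
  | zero =>
    rw [pow_zero, one_mul]
    exact aa_zero q x0
  | succ N ih =>
    refine (aa_succ q hd x0 N).trans ?_
    rw [pow_succ', mul_assoc]
    exact mul_le_mul_right ih _

/-! ### the bad event -/

/-- the infection has reached the weight `L` -/
def Far (L : ℝ≥0∞) (x0 : Tor d q.M) (η : Tor d q.M → ℕ) (l : List (Let d q.M q.K)) : Prop :=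
  ∃ i ≤ l.length, ∃ z ∈ (stT x0 η (l.take i)).2, L < FT x0 z

theorem far_snoc (L : ℝ≥0∞) (x0 : Tor d q.M) (η : Tor d q.M → ℕ) (l : List (Let d q.M q.K))
    (a : Let d q.M q.K) (h : Far q L x0 η (l ++ [a])) : Far q L x0 η l ∨
      ∃ b, toLab a = some b ∧ b.2.1 < (stT x0 η l).1 b.1 ∧ b.1 ∈ (stT x0 η l).2 ∧
        L < FT x0 (b.1 + tv (dv b.2.2)) := by
  obtain ⟨i, hi, z, hz, hL⟩ := h
  rw [List.length_append, List.length_singleton] at hi
  by_cases hi' : i ≤ l.length
  · left
    refine ⟨i, hi', z, ?_, hL⟩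
    rwa [List.take_append_of_le_length hi'] at hz
  · have hi2 : i = (l ++ [a]).length := by
      rw [List.length_append, List.length_singleton]
      omega
    rw [hi2, List.take_length, stT_snoc] at hz
    by_cases hz' : z ∈ (stT x0 η l).2
    · left
      refine ⟨l.length, le_rfl, z, ?_, hL⟩
      rwa [List.take_length]
    · right
      change z ∈ upT _ _ a at hz
      cases hb : toLab a with
      | none =>
        rw [upT_none _ _ _ hb] at hz
        exact absurd hz hz'
      | some b =>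
        rw [upT_some _ _ _ b hb] at hz
        split_ifs at hz with hc
        · rcases hz with hz | hz
          · exact absurd hz.1 hz'
          · rw [Set.mem_singleton_iff] at hz
            subst hz
            exact ⟨b, rfl, hc.1, hc.2, hL⟩
        · exact absurd hz hz'

theorem far_nil (L : ℝ≥0∞) (hL : 1 ≤ L) (x0 : Tor d q.M) (η : Tor d q.M → ℕ) :
    ¬ Far q L x0 η [] := by
  rintro ⟨i, hi, z, hz, h⟩
  have hi0 : i = 0 := Nat.le_zero.1 hi
  subst hi0
  have hz1 : z = x0 := hz.1
  subst hz1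
  rw [FT_self] at h
  exact absurd h (not_lt.2 hL)

theorem far_step (hd : 0 < d) (L : ℝ≥0∞) (x0 : Tor d q.M) (N : ℕ) :
    L * q.PP (N + 1) (Far q L x0) ≤ L * q.PP N (Far q L x0) +
      ENNReal.ofReal (q.p * Real.exp 1) * aa q x0 N := by
  have hp := q.p_pos
  set κ : ℝ≥0∞ := ENNReal.ofReal (1 / (2 * d)) with hκ
  have h1 : L * q.PP (N + 1) (Far q L x0) ≤ q.EE N (fun η l =>
      L * (if Far q L x0 η l then 1 else 0) +
      ∑ x, ∑ e, ENNReal.ofReal (m.gK q.K ((stT x0 η l).1 x) / (2 * d) * q.p) *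
        (if x ∈ (stT x0 η l).2 then FT x0 (x + tv (dv e)) else 0)) := by
    unfold Par.PP
    rw [← EE_mul, EE_succ]
    refine EE_mono q N fun η l => ?_
    rw [← sum_letters q (stT x0 η l).1
      (fun x e => if x ∈ (stT x0 η l).2 then FT x0 (x + tv (dv e)) else 0)]
    have h2 : L * (if Far q L x0 η l then 1 else 0) =
        ∑ a, q.w a * (L * (if Far q L x0 η l then 1 else 0)) := by
      rw [← Finset.sum_mul, Rows.sum_w q hd, one_mul]
    rw [h2, ← Finset.sum_add_distrib]
    refine Finset.sum_le_sum fun a _ => ?_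
    rw [← mul_add]
    refine mul_le_mul_right ?_ _
    by_cases hf : Far q L x0 η (l ++ [a])
    · rw [if_pos hf, mul_one]
      rcases far_snoc q L x0 η l a hf with h | ⟨b, hb, hb1, hb2, hb3⟩
      · rw [if_pos h, mul_one]
        exact le_self_add
      · rw [hb]
        simp only
        rw [if_pos hb1, if_pos hb2]
        exact hb3.le.trans le_add_self
    · rw [if_neg hf, mul_zero]
      exact bot_le
  refine h1.trans ?_
  rw [EE_add, EE_mul]
  refine add_le_add le_rfl ?_
  rw [EE_sum q Finset.univ N (fun x η l => ∑ e, ENNReal.ofReal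
    (m.gK q.K ((stT x0 η l).1 x) / (2 * d) * q.p) *
    (if x ∈ (stT x0 η l).2 then FT x0 (x + tv (dv e)) else 0))]
  have h3 : ∀ x : Tor d q.M, q.EE N (fun η l => ∑ e, ENNReal.ofReal
      (m.gK q.K ((stT x0 η l).1 x) / (2 * d) * q.p) *
      (if x ∈ (stT x0 η l).2 then FT x0 (x + tv (dv e)) else 0)) ≤
      ENNReal.ofReal (q.p * Real.exp 1) * (FT x0 x * bb q x0 N x) := by
    intro x
    rw [EE_sum q Finset.univ N (fun e η l => ENNReal.ofReal
      (m.gK q.K ((stT x0 η l).1 x) / (2 * d) * q.p) *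
      (if x ∈ (stT x0 η l).2 then FT x0 (x + tv (dv e)) else 0))]
    rw [← sum_xe hd (ENNReal.ofReal (q.p * Real.exp 1) * (FT x0 x * bb q x0 N x))]
    refine Finset.sum_le_sum fun e _ => ?_
    have h4 : q.EE N (fun η l => ENNReal.ofReal
      (m.gK q.K ((stT x0 η l).1 x) / (2 * d) * q.p) *
      (if x ∈ (stT x0 η l).2 then FT x0 (x + tv (dv e)) else 0)) =
      (κ * (ENNReal.ofReal q.p * FT x0 (x + tv (dv e)))) * bb q x0 N x := by
      unfold bb
      rw [← EE_mul]
      refine EE_congr q N fun η l => ?_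
      split_ifs
      · rw [hκ, show m.gK q.K ((stT x0 η l).1 x) / (2 * d) * q.p =
          (1 / (2 * d)) * (q.p * m.gK q.K ((stT x0 η l).1 x)) by ring,
          ENNReal.ofReal_mul (by positivity), ENNReal.ofReal_mul hp.le]
        ring
      · simp
    rw [h4, mul_assoc]
    refine mul_le_mul_right ?_ _
    rw [ENNReal.ofReal_mul hp.le, mul_assoc, mul_assoc]
    refine mul_le_mul_right ?_ _
    rw [← mul_assoc]
    exact mul_le_mul_left (FT_step x0 x e) _
  refine (Finset.sum_le_sum fun x _ => h3 x).trans ?_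
  rw [← Finset.mul_sum, ← aa_eq]

theorem far_bound (hd : 0 < d) (L : ℝ≥0∞) (hL : 1 ≤ L) (x0 : Tor d q.M) (N : ℕ) :
    ENNReal.ofReal (C1 m) * (L * q.PP N (Far q L x0)) + ENNReal.ofReal (Real.exp 1 * m.φ) ≤
      (1 + ENNReal.ofReal (C1 m * q.p)) ^ N * ENNReal.ofReal (Real.exp 1 * m.φ) := by
  have hC : 0 ≤ C1 m := by
    have := m.le_Gp
    have := m.φ_pos
    have := m.Gm_pos
    have : 0 ≤ m.Gp := by linarith
    unfold C1
    positivity
  induction N with
  | zero =>
    have h0 : q.PP 0 (Far q L x0) = 0 := by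
      unfold Par.PP Par.EE
      rw [ENNReal.tsum_eq_zero]
      intro η
      rw [EvE_zero]
      change _ * (if Far q L x0 η [] then (1 : ℝ≥0∞) else 0) = 0
      rw [if_neg (far_nil q L hL x0 η), mul_zero]
    rw [h0, mul_zero, mul_zero, zero_add, pow_zero, one_mul]
  | succ N ih =>
    calc ENNReal.ofReal (C1 m) * (L * q.PP (N + 1) (Far q L x0)) +
          ENNReal.ofReal (Real.exp 1 * m.φ)
        ≤ ENNReal.ofReal (C1 m) * (L * q.PP N (Far q L x0) +
          ENNReal.ofReal (q.p * Real.exp 1) * aa q x0 N) +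
          ENNReal.ofReal (Real.exp 1 * m.φ) := by
          gcongr
          exact far_step q hd L x0 N
      _ = (ENNReal.ofReal (C1 m) * (L * q.PP N (Far q L x0)) +
          ENNReal.ofReal (Real.exp 1 * m.φ)) +
          ENNReal.ofReal (C1 m) * (ENNReal.ofReal (q.p * Real.exp 1) * aa q x0 N) := by ring
      _ ≤ (1 + ENNReal.ofReal (C1 m * q.p)) ^ N * ENNReal.ofReal (Real.exp 1 * m.φ) +
          ENNReal.ofReal (C1 m) * (ENNReal.ofReal (q.p * Real.exp 1) *
            ((1 + ENNReal.ofReal (C1 m * q.p)) ^ N * ENNReal.ofReal m.φ)) := by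
          gcongr
          exact aa_le q hd x0 N
      _ = (1 + ENNReal.ofReal (C1 m * q.p)) ^ (N + 1) * ENNReal.ofReal (Real.exp 1 * m.φ) := by
          have hp := q.p_pos
          rw [ENNReal.ofReal_mul (p := q.p) hp.le, ENNReal.ofReal_mul (p := Real.exp 1)
            (Real.exp_pos _).le, ENNReal.ofReal_mul (p := C1 m) hC]
          ring

end rec

/-! ### the infection on the cover -/

section cover

/-- one letter for the infection on the cover -/
def stepC {M K : ℕ} (s : (Tor d M → ℕ) × Set (Pos d)) (a : Let d M K) :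
    (Tor d M → ℕ) × Set (Pos d) :=
  match toLab a with
  | none => s
  | some b => stepR nbT tv Set.univ s b

/-- the infection on the cover along a word -/
def stC {M K : ℕ} (x : Pos d) (η : Tor d M → ℕ) (l : List (Let d M K)) :
    (Tor d M → ℕ) × Set (Pos d) :=
  l.foldl stepC (η, {z | z ∈ ({x} : Set (Pos d)) ∧ z ∈ (Set.univ : Set (Pos d)) ∧ 0 < η (tv z)})

theorem stepC_none {M K : ℕ} (s : (Tor d M → ℕ) × Set (Pos d)) (a : Let d M K)
    (h : toLab a = none) : stepC s a = s := by
  unfold stepC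
  rw [h]

theorem stepC_some {M K : ℕ} (s : (Tor d M → ℕ) × Set (Pos d)) (a : Let d M K)
    (b : Lab (Tor d M) d) (h : toLab a = some b) :
    stepC s a = stepR nbT tv Set.univ s b := by
  unfold stepC
  rw [h]

theorem stC_snoc {M K : ℕ} (x : Pos d) (η : Tor d M → ℕ) (l : List (Let d M K))
    (a : Let d M K) : stC x η (l ++ [a]) = stepC (stC x η l) a := by
  unfold stC
  rw [List.foldl_append]
  rfl

theorem stepC_fst {M K : ℕ} (s : (Tor d M → ℕ) × Set (Pos d)) (a : Let d M K) :
    (stepC s a).1 = stepA s.1 a := by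
  cases h : toLab a with
  | none => rw [stepC_none _ _ h, stepA_none _ _ h]
  | some b => rw [stepC_some _ _ b h, stepA_some _ _ b h]; rfl

theorem stC_fst {M K : ℕ} (x : Pos d) (η : Tor d M → ℕ) (l : List (Let d M K)) :
    (stC x η l).1 = (stT (tv x) η l).1 := by
  induction l using List.reverseRecOn with
  | nil => rfl
  | append_singleton l a ih => rw [stC_snoc, stT_snoc, stepC_fst, ih]

/-- members after one letter -/
theorem stepC_mem {M K : ℕ} (s : (Tor d M → ℕ) × Set (Pos d)) (a : Let d M K) (y : Pos d)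
    (hy : y ∈ (stepC s a).2) :
    (y ∈ s.2 ∧ ∀ b, toLab a = some b → b.2.1 < s.1 b.1 → tv y = b.1 → 2 ≤ s.1 b.1) ∨
      ∃ b, toLab a = some b ∧ b.2.1 < s.1 b.1 ∧ y - dv b.2.2 ∈ s.2 ∧
        tv (y - dv b.2.2) = b.1 ∧ b.1 + tv (dv b.2.2) = tv y := by
  cases h : toLab a with
  | none =>
    rw [stepC_none _ _ h] at hy
    left
    refine ⟨hy, fun b hb => ?_⟩
    exact absurd hb (by simp)
  | some b =>
    rw [stepC_some _ _ b h] at hy
    have hy' : y ∈ infMv nbT tv s.1 s.2 b := hy.1
    unfold infMv at hy'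
    by_cases hk : b.2.1 < s.1 b.1
    · rw [if_pos hk] at hy'
      rcases hy' with hy' | hy'
      · left
        refine ⟨hy'.1, fun b' hb' _ h2 => ?_⟩
        have : b = b' := Option.some.inj hb'
        subst this
        exact hy'.2 h2
      · right
        obtain ⟨h1, h2, h3⟩ := hy'
        refine ⟨b, rfl, hk, h1, h2, ?_⟩
        exact Option.some.inj h3
    · rw [if_neg hk] at hy'
      left
      refine ⟨hy', fun b' hb' h1 _ => ?_⟩
      have : b = b' := Option.some.inj hb'
      subst this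
      exact absurd h1 hk

theorem cov_tor {M K : ℕ} (x : Pos d) (η : Tor d M → ℕ) (l : List (Let d M K)) :
    ∀ y ∈ (stC x η l).2, tv y ∈ (stT (tv x) η l).2 := by
  induction l using List.reverseRecOn with
  | nil =>
    rintro y ⟨hy, -, h⟩
    rw [Set.mem_singleton_iff] at hy
    subst hy
    exact ⟨rfl, h⟩
  | append_singleton l a ih =>
    intro y hy
    rw [stC_snoc] at hy
    rw [stT_snoc]
    have hfst := stC_fst x η l
    rcases stepC_mem _ _ _ hy with ⟨h1, h2⟩ | ⟨b, hb, h1, h2, h3, h4⟩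
    · have hB := ih y h1
      change tv y ∈ upT _ _ a
      cases h : toLab a with
      | none =>
        rw [upT_none _ _ _ h]
        exact hB
      | some b =>
        rw [upT_some _ _ _ b h]
        split_ifs with hc
        · left
          refine ⟨hB, fun h3 => ?_⟩
          have := h2 b h (by rw [hfst]; exact hc.1) h3
          rwa [hfst] at this
        · exact hB
    · have hB := ih _ h2
      rw [h3] at hB
      change tv y ∈ upT _ _ a
      rw [upT_some _ _ _ b hb]
      rw [hfst] at h1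
      rw [if_pos ⟨h1, hB⟩]
      right
      exact h4.symm

theorem first_exit {M K : ℕ} (x : Pos d) (η : Tor d M → ℕ) (ρ : ℝ) (hρ : 0 ≤ ρ)
    (l : List (Let d M K)) : ∀ y ∈ (stC x η l).2, ρ < nrm (y - x) →
      ∃ i ≤ l.length, ∃ y' ∈ (stC x η (l.take i)).2, ρ < nrm (y' - x) ∧ nrm (y' - x) ≤ ρ + 1 := by
  induction l using List.reverseRecOn with
  | nil =>
    rintro y ⟨hy, -, -⟩ h
    rw [Set.mem_singleton_iff] at hy
    rw [hy, sub_self, nrm_zero] at h
    exact absurd h (not_lt.2 hρ)
  | append_singleton l a ih =>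
    intro y hy hlt
    by_cases hex : ∃ y'' ∈ (stC x η l).2, ρ < nrm (y'' - x)
    · obtain ⟨y'', h1, h2⟩ := hex
      obtain ⟨i, hi, y', h3, h4⟩ := ih y'' h1 h2
      refine ⟨i, ?_, y', ?_, h4⟩
      · rw [List.length_append]
        omega
      · rw [List.take_append_of_le_length hi]
        exact h3
    · push Not at hex
      rw [stC_snoc] at hy
      rcases stepC_mem _ _ _ hy with ⟨h1, -⟩ | ⟨b, -, -, h2, -, -⟩
      · exact absurd hlt (not_lt.2 (hex y h1))
      · refine ⟨(l ++ [a]).length, le_rfl, y, ?_, hlt, ?_⟩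
        · rw [List.take_length, stC_snoc]
          exact hy
        · have h3 := hex _ h2
          have h4 : y - x = (y - dv b.2.2 - x) + dv b.2.2 := by abel
          rw [h4]
          refine (nrm_add_le _ _).trans ?_
          rw [nrm_dv]
          linarith

theorem fold_filterMap {M K : ℕ} (L : List (Let d M K)) :
    ∀ s : (Tor d M → ℕ) × Set (Pos d),
      (L.filterMap toLab).foldl (stepR nbT tv Set.univ) s = L.foldl stepC s := by
  induction L with
  | nil => exact fun s => rfl
  | cons a L ih =>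
    intro s
    cases h : toLab a with
    | none =>
      rw [List.filterMap_cons_none h, List.foldl_cons, stepC_none _ _ h]
      exact ih s
    | some b =>
      rw [List.filterMap_cons_some h, List.foldl_cons, List.foldl_cons, stepC_some _ _ b h]
      exact ih _

theorem take_filterMap {α β : Type} (f : α → Option β) (L : List α) :
    ∀ i ≤ (L.filterMap f).length, ∃ i' ≤ L.length,
      (L.filterMap f).take i = (L.take i').filterMap f := by
  induction L with
  | nil =>
    intro i _
    exact ⟨0, le_rfl, by simp⟩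
  | cons a L ih =>
    intro i hi
    cases h : f a with
    | none =>
      rw [List.filterMap_cons_none h] at hi ⊢
      obtain ⟨i', h1, h2⟩ := ih i hi
      refine ⟨i' + 1, by rw [List.length_cons]; omega, ?_⟩
      rw [h2, List.take_succ_cons, List.filterMap_cons_none h]
    | some b =>
      rw [List.filterMap_cons_some h] at hi ⊢
      cases i with
      | zero => exact ⟨0, by omega, by simp⟩
      | succ i =>
        rw [List.length_cons] at hi
        obtain ⟨i', h1, h2⟩ := ih i (by omega)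
        refine ⟨i' + 1, by rw [List.length_cons]; omega, ?_⟩
        rw [List.take_succ_cons, h2, List.take_succ_cons, List.filterMap_cons_some h]

theorem foldl_stepR_fst {M : ℕ} (L : List (Lab (Tor d M) d)) :
    ∀ s : (Tor d M → ℕ) × Set (Pos d),
      (L.foldl (stepR nbT tv Set.univ) s).1 = L.foldl (mv nbT) s.1 := by
  induction L with
  | nil => exact fun s => rfl
  | cons a L ih => exact fun s => ih _

variable {m : Model} (q : Par d m)

theorem stC_unit (x : Pos d) (η : Tor d q.M → ℕ) (l : List (Let d q.M q.K)) (j : ℕ) :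
    stC x η (l.take (j * q.N1)) = (cfg nbT η (units q.N1 l) j,
      inf nbT tv η (units q.N1 l) (fun _ => Set.univ) 0 {x} j) := by
  induction j with
  | zero =>
    rw [Nat.zero_mul, List.take_zero]
    rfl
  | succ j ih =>
    have h1 : l.take ((j + 1) * q.N1) = l.take (j * q.N1) ++ (l.drop (j * q.N1)).take q.N1 := by
      rw [Nat.succ_mul, List.take_add]
    rw [h1]
    unfold stC at ih ⊢
    rw [List.foldl_append, ih, ← fold_filterMap]
    refine Prod.ext ?_ ?_
    · rw [foldl_stepR_fst]
      rfl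
    · change _ = ((units q.N1 l (0 + j)).foldl (stepR nbT tv Set.univ)
        (cfg nbT η (units q.N1 l) (0 + j),
          inf nbT tv η (units q.N1 l) (fun _ => Set.univ) 0 {x} j ∩ Set.univ)).2
      rw [Nat.zero_add, Set.inter_univ]
      rfl

theorem vis_imp (x y : Pos d) (t : ℕ) (η : Tor d q.M → ℕ) (l : List (Let d q.M q.K))
    (hl : l.length = t * q.N1) (h : (envT q η l).vis (fun _ => Set.univ) 0 x t y) :
    ∃ i ≤ l.length, y ∈ (stC x η (l.take i)).2 := by
  obtain ⟨j, hj, i, hi, hy⟩ := h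
  rw [Nat.zero_add] at hj
  change i ≤ (units q.N1 l (0 + j)).length at hi
  change y ∈ (((units q.N1 l (0 + j)).take i).foldl (stepR nbT tv Set.univ)
    (cfg nbT η (units q.N1 l) (0 + j),
      inf nbT tv η (units q.N1 l) (fun _ => Set.univ) 0 {x} j ∩ Set.univ)).2 at hy
  rw [Nat.zero_add, Set.inter_univ] at hy
  rw [Nat.zero_add] at hi
  unfold units at hi
  obtain ⟨i', hi', htake⟩ := take_filterMap toLab ((l.drop (j * q.N1)).take q.N1) i hi
  have h2 : ((units q.N1 l j).take i) = (((l.drop (j * q.N1)).take q.N1).take i').filterMap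
      toLab := htake
  rw [h2, fold_filterMap, ← stC_unit q x η l j] at hy
  refine ⟨j * q.N1 + min i' q.N1, ?_, ?_⟩
  · rw [hl]
    calc j * q.N1 + min i' q.N1 ≤ j * q.N1 + q.N1 := by
          have := min_le_right i' q.N1
          omega
      _ = (j + 1) * q.N1 := by ring
      _ ≤ t * q.N1 := Nat.mul_le_mul_right _ hj
  · rw [List.take_add, ← List.take_take]
    unfold stC at hy ⊢
    rw [List.foldl_append]
    exact hy

end cover

end ZI.C5

namespace ZI.Rows

open ZI

/-- finite speed, for the infection on the cover started from one position at time `0` -/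
theorem finite_speed (m : Model) (d : ℕ) : ∃ Cv : ℕ, ∀ (q : Par d m) (x : Pos d) (t r : ℕ),
    2 * (Cv * t + r + 2) < q.M →
    q.PP (t * q.N1) (fun η l => ∃ y, (envT q η l).vis (fun _ => Set.univ) 0 x t y ∧
      (Cv : ℝ) * t + r < nrm (y - x)) ≤ ENNReal.ofReal (Cv * Real.exp (- (r : ℝ))) := by
  have hGp := m.le_Gp
  have hφ := m.φ_pos
  have hGm := m.Gm_pos
  have hC1 : 0 < C5.C1 m := by
    have : 0 < m.Gp := by linarith
    unfold C5.C1
    positivity
  obtain ⟨Cv, hCv⟩ := exists_nat_ge (C5.C1 m + Real.exp 1 * m.φ / C5.C1 m)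
  have hpos2 : 0 ≤ Real.exp 1 * m.φ / C5.C1 m := by positivity
  refine ⟨Cv, fun q x t r hM => ?_⟩
  have hρ : (0 : ℝ) ≤ (Cv : ℝ) * t + r := by positivity
  rcases Nat.eq_zero_or_pos d with hd | hd
  · -- dimension zero
    subst hd
    have h0 : q.PP (t * q.N1) (fun η l => ∃ y, (envT q η l).vis (fun _ => Set.univ) 0 x t y ∧
      (Cv : ℝ) * t + r < nrm (y - x)) = 0 := by
      unfold Par.PP
      refine (C5.EE_congr q (t * q.N1) fun η l => ?_).trans (C5.EE_zero' q _)
      beta_reduce
      rw [if_neg]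
      rintro ⟨y, -, hy⟩
      have : y - x = 0 := Subsingleton.elim _ _
      rw [this, C5.nrm_zero] at hy
      exact absurd hy (not_lt.2 hρ)
    rw [h0]
    exact bot_le
  · set ρ : ℝ := (Cv : ℝ) * t + r with hρdef
    set L : ℝ≥0∞ := ENNReal.ofReal (Real.exp ρ) with hL
    have hL1 : 1 ≤ L := by
      rw [hL, ← ENNReal.ofReal_one]
      exact ENNReal.ofReal_le_ofReal (Real.one_le_exp hρ)
    have hM' : 2 * (ρ + 1) < q.M := by
      have h1 : ((2 * (Cv * t + r + 2) : ℕ) : ℝ) < q.M := by exact_mod_cast hM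
      push_cast at h1
      rw [hρdef]
      linarith
    have h1 : q.PP (t * q.N1) (fun η l => ∃ y, (envT q η l).vis (fun _ => Set.univ) 0 x t y ∧
        ρ < nrm (y - x)) ≤ q.PP (t * q.N1) (C5.Far q L (tv x)) := by
      unfold Par.PP Par.EE
      refine ENNReal.tsum_le_tsum fun η => mul_le_mul_right ?_ _
      refine EvE_mono q.w _ fun l hl => ?_
      beta_reduce
      by_cases hE : ∃ y, (envT q η l).vis (fun _ => Set.univ) 0 x t y ∧ ρ < nrm (y - x)
      · rw [if_pos hE, if_pos]
        obtain ⟨y, hy, hlt⟩ := hE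
        obtain ⟨i, hi, hy2⟩ := C5.vis_imp q x y t η l hl hy
        obtain ⟨i', hi', y', hy', h2, h3⟩ := C5.first_exit x η ρ hρ (l.take i) y hy2 hlt
        rw [List.length_take] at hi'
        rw [List.take_take] at hy'
        refine ⟨min i' i, by omega, tv y', C5.cov_tor x η _ y' hy', ?_⟩
        unfold C5.FT
        have h4 : C5.nT (tv x : Tor d q.M) (tv y') = nrm (y' - x) := by
          have := C5.nT_lift (M := q.M) x (y' - x) (by linarith)
          rwa [add_sub_cancel] at this
        rw [h4, hL]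
        exact (ENNReal.ofReal_lt_ofReal_iff (Real.exp_pos _)).2 (Real.exp_lt_exp.2 h2)
      · rw [if_neg hE]
        exact bot_le
    refine h1.trans ?_
    set P := q.PP (t * q.N1) (C5.Far q L (tv x)) with hP
    have h2 := C5.far_bound q hd L hL1 (tv x) (t * q.N1)
    have hp := q.p_pos
    have h3 : (1 + ENNReal.ofReal (C5.C1 m * q.p)) ^ (t * q.N1) ≤
        ENNReal.ofReal (Real.exp (C5.C1 m * t)) := by
      rw [← ENNReal.ofReal_one, ← ENNReal.ofReal_add zero_le_one (by positivity),
        ← ENNReal.ofReal_pow (by positivity)]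
      apply ENNReal.ofReal_le_ofReal
      calc (1 + C5.C1 m * q.p) ^ (t * q.N1) ≤ (Real.exp (C5.C1 m * q.p)) ^ (t * q.N1) := by
            gcongr
            rw [add_comm]
            exact Real.add_one_le_exp _
        _ = Real.exp (C5.C1 m * (t * (q.N1 * q.p))) := by
            rw [← Real.exp_nat_mul]
            congr 1
            push_cast
            ring
        _ ≤ Real.exp (C5.C1 m * t) := by
            apply Real.exp_le_exp.2
            have h4 := q.p_ub
            have h5 : (t : ℝ) * (q.N1 * q.p) ≤ t * 1 := by gcongr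
            rw [mul_one] at h5
            gcongr
    have h4 : ENNReal.ofReal (C5.C1 m) * (L * P) ≤
        ENNReal.ofReal (Real.exp (C5.C1 m * t) * (Real.exp 1 * m.φ)) := by
      rw [ENNReal.ofReal_mul (p := Real.exp (C5.C1 m * t)) (Real.exp_pos _).le]
      exact (le_self_add.trans h2).trans (mul_le_mul_left h3 _)
    have h5 : P ≤ ENNReal.ofReal ((Real.exp (C5.C1 m * t) * (Real.exp 1 * m.φ)) /
        (C5.C1 m * Real.exp ρ)) := by
      rw [ENNReal.ofReal_div_of_pos (by positivity), ENNReal.le_div_iff_mul_le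
        (Or.inl (by
          rw [Ne, ENNReal.ofReal_eq_zero, not_le]
          positivity)) (Or.inl ENNReal.ofReal_ne_top), ENNReal.ofReal_mul hC1.le]
      calc P * (ENNReal.ofReal (C5.C1 m) * ENNReal.ofReal (Real.exp ρ)) =
            ENNReal.ofReal (C5.C1 m) * (L * P) := by rw [hL]; ring
        _ ≤ _ := h4
    refine h5.trans (ENNReal.ofReal_le_ofReal ?_)
    rw [div_le_iff₀ (by positivity)]
    have h6 : Real.exp (C5.C1 m * t) ≤ Real.exp ((Cv : ℝ) * t) := by
      apply Real.exp_le_exp.2
      gcongr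
      linarith
    have h7 : Real.exp 1 * m.φ ≤ Cv * C5.C1 m := by
      have : Real.exp 1 * m.φ / C5.C1 m ≤ Cv := by linarith
      rwa [div_le_iff₀ hC1] at this
    have h8 : Real.exp (-(r : ℝ)) * Real.exp ρ = Real.exp ((Cv : ℝ) * t) := by
      rw [← Real.exp_add, hρdef]
      congr 1
      ring
    calc Real.exp (C5.C1 m * t) * (Real.exp 1 * m.φ)
        ≤ Real.exp ((Cv : ℝ) * t) * (Cv * C5.C1 m) := by gcongr
      _ = Cv * C5.C1 m * (Real.exp (-(r : ℝ)) * Real.exp ρ) := by rw [h8]; ring
      _ = Cv * Real.exp (-(r : ℝ)) * (C5.C1 m * Real.exp ρ) := by ring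

end ZI.Rows
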