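import Pool.Agent.ZI.Ev1
import Pool.Agent.ZI.R3

/-! # D1: from a chase along the word to the relation `R` -/

set_option autoImplicit false

open scoped ENNReal BigOperators Classical

noncomputable section

namespace ZI.Rows

open ZI

variable {d : ℕ}

namespace D1

/-! ### the norm -/

/-- the norm of a displacement as a norm of the Euclidean space -/
theorem nrm_eq (v : Pos d) : nrm v = ‖(WithLp.toLp 2 (fun j => (v j : ℝ)) : EuclideanSpace ℝ (Fin d))‖ := by
  rw [nrm, EuclideanSpace.norm_eq]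
  congr 1
  refine Finset.sum_congr rfl fun j _ => ?_
  simp [sq_abs]

theorem nrm_nonneg (v : Pos d) : 0 ≤ nrm v := Real.sqrt_nonneg _

theorem nrm_zero : nrm (0 : Pos d) = 0 := by
  simp [nrm]

theorem nrm_add_le (v w : Pos d) : nrm (v + w) ≤ nrm v + nrm w := by
  rw [nrm_eq, nrm_eq, nrm_eq]
  refine le_trans (le_of_eq ?_) (norm_add_le _ _)
  congr 1
  ext j
  simp

theorem nrm_sub_le (x y z : Pos d) : nrm (x - z) ≤ nrm (x - y) + nrm (y - z) := by
  have h := nrm_add_le (x - y) (y - z)
  rwa [sub_add_sub_cancel] at h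

/-! ### one letter -/

variable {M K : ℕ}

/-- one letter for the pair (configuration, infected set) -/
def stepRA (G : Set (Pos d)) (s : (Tor d M → ℕ) × Set (Pos d)) (a : Let d M K) :
    (Tor d M → ℕ) × Set (Pos d) :=
  match toLab a with
  | none => s
  | some l => stepR nbT tv G s l

theorem foldl_filterMap (G : Set (Pos d)) (L : List (Let d M K)) (s : (Tor d M → ℕ) × Set (Pos d)) :
    (L.filterMap toLab).foldl (stepR nbT tv G) s = L.foldl (stepRA G) s := by
  induction L generalizing s with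
  | nil => rfl
  | cons a L ih =>
    rw [List.foldl_cons, ← ih]
    rw [List.filterMap_cons]
    unfold stepRA
    cases h : toLab a with
    | none => rfl
    | some l => rfl

theorem foldl_filterMap_mv (L : List (Let d M K)) (η : Tor d M → ℕ) :
    (L.filterMap toLab).foldl (mv nbT) η = L.foldl stepA η := by
  induction L generalizing η with
  | nil => rfl
  | cons a L ih =>
    rw [List.foldl_cons, ← ih]
    rw [List.filterMap_cons]
    unfold stepA
    cases h : toLab a with
    | none => rfl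
    | some l => rfl

theorem stepRA_fst (G : Set (Pos d)) (s : (Tor d M → ℕ) × Set (Pos d)) (a : Let d M K) :
    (stepRA G s a).1 = stepA s.1 a := by
  unfold stepRA stepA
  cases h : toLab a with
  | none => rfl
  | some l => rfl

theorem foldl_stepRA_fst (G : Set (Pos d)) (L : List (Let d M K)) (s : (Tor d M → ℕ) × Set (Pos d)) :
    (L.foldl (stepRA G) s).1 = L.foldl stepA s.1 := by
  induction L generalizing s with
  | nil => rfl
  | cons a L ih =>
    rw [List.foldl_cons, List.foldl_cons, ih, stepRA_fst]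

theorem foldl_stepRA_sub (G : Set (Pos d)) (L : List (Let d M K)) (s : (Tor d M → ℕ) × Set (Pos d))
    (h : s.2 ⊆ G) : (L.foldl (stepRA G) s).2 ⊆ G := by
  induction L generalizing s with
  | nil => exact h
  | cons a L ih =>
    rw [List.foldl_cons]
    refine ih _ ?_
    unfold stepRA
    cases h' : toLab a with
    | none => exact h
    | some l => exact Set.inter_subset_right

/-- the configuration at an integer time -/
theorem cfg_eq (N1 : ℕ) (η0 : Tor d M → ℕ) (w : List (Let d M K)) (t : ℕ) :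
    cfg nbT η0 (units N1 w) t = (w.take (t * N1)).foldl stepA η0 := by
  induction t with
  | zero => simp [cfg]
  | succ t ih =>
    rw [cfg, ih, units, foldl_filterMap_mv, ← List.foldl_append]
    congr 1
    rw [Nat.succ_mul, List.take_add]

/-- the infection (constant restriction) at an integer time -/
theorem inf_eq (N1 : ℕ) (η0 : Tor d M → ℕ) (w : List (Let d M K)) (G : Set (Pos d)) (s : ℕ)
    (A : Set (Pos d)) (j : ℕ) :
    (((w.drop (s * N1)).take (j * N1)).foldl (stepRA G)
      ((w.take (s * N1)).foldl stepA η0, {z | z ∈ A ∧ z ∈ G ∧ 0 < (w.take (s * N1)).foldl stepA η0 (tv z)}))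
    = ((w.take ((s + j) * N1)).foldl stepA η0, inf nbT tv η0 (units N1 w) (fun _ => G) s A j) := by
  induction j with
  | zero => 
    simp [inf, cfg_eq]
  | succ j ih =>
    rw [Nat.succ_mul, List.take_add, List.foldl_append, ih, inf, cfg_eq, units, foldl_filterMap]
    rw [List.drop_drop]
    have h1 : s * N1 + j * N1 = (s + j) * N1 := by ring
    rw [h1]
    have hsub : inf nbT tv η0 (units N1 w) (fun _ => G) s A j ⊆ G := by
      have h2 := foldl_stepRA_sub G ((w.drop (s * N1)).take (j * N1))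
        ((w.take (s * N1)).foldl stepA η0,
          {z | z ∈ A ∧ z ∈ G ∧ 0 < (w.take (s * N1)).foldl stepA η0 (tv z)}) (fun z hz => hz.2.1)
      rw [ih] at h2
      exact h2
    rw [Set.inter_eq_left.2 hsub]
    refine Prod.ext ?_ rfl
    rw [foldl_stepRA_fst]
    show _ = (w.take ((s + (j + 1)) * N1)).foldl stepA η0
    rw [← List.foldl_append]
    congr 1
    rw [← List.take_add]
    congr 1
    ring

theorem infMv_mono {V : Type} (nb : V → Dir d → Option V) (pr : Pos d → V) (η : V → ℕ)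
    {A B : Set (Pos d)} (h : A ⊆ B) (l : Lab V d) : infMv nb pr η A l ⊆ infMv nb pr η B l := by
  unfold infMv
  split_ifs
  · rintro z (⟨h1, h2⟩ | ⟨h1, h2⟩)
    · exact Or.inl ⟨h h1, h2⟩
    · exact Or.inr ⟨h h1, h2⟩
  · exact h

/-- a legal step of an infected position -/
theorem legal_mem (G : Set (Pos d)) (s : (Tor d M → ℕ) × Set (Pos d)) (a : Let d M K) (x x' : Pos d)
    (hx : x ∈ s.2) (hx' : x' ∈ legal s.1 a x) (hG : x' ∈ G) : x' ∈ (stepRA G s a).2 := by
  unfold legal at hx'
  unfold stepRA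
  cases h : toLab a with
  | none =>
    rw [h] at hx'
    have h1 : x' = x := hx'
    rw [h1]
    exact hx
  | some l =>
    rw [h] at hx'
    exact ⟨infMv_mono _ _ _ (Set.singleton_subset_iff.2 hx) _ hx', hG⟩

/-- an infected marker stays infected -/
theorem mkrA_mem (hM : 2 ≤ M) (G : Set (Pos d)) (s : (Tor d M → ℕ) × Set (Pos d)) (a : Let d M K)
    (P : Pos d × ℕ) (hP : P.2 < s.1 (tv P.1)) (hx : P.1 ∈ s.2) (hG : (mkrA s.1 P a).1 ∈ G) :
    (mkrA s.1 P a).1 ∈ (stepRA G s a).2 := by
  unfold mkrA at hG ⊢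
  unfold stepRA
  cases h : toLab a with
  | none => exact hx
  | some l =>
    rw [h] at hG
    exact ⟨mkr_inf hM s.1 l P hP s.2 hx, hG⟩

theorem mkrA_lt (hM : 2 ≤ M) (η : Tor d M → ℕ) (a : Let d M K) (P : Pos d × ℕ)
    (hP : P.2 < η (tv P.1)) : (mkrA η P a).2 < stepA η a (tv (mkrA η P a).1) := by
  unfold mkrA stepA
  cases h : toLab a with
  | none => exact hP
  | some l => exact mkr_lt hM η P l hP

/-- the machine (configuration, marker) -/
abbrev mk (s : (Tor d M → ℕ) × (Pos d × ℕ)) (a : Let d M K) : (Tor d M → ℕ) × (Pos d × ℕ) :=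
  (stepA s.1 a, mkrA s.1 s.2 a)

/-- an infected marker stays infected along a word, as long as it stays in the region -/
theorem marker_stays (hM : 2 ≤ M) (G : Set (Pos d)) (L : List (Let d M K)) :
    ∀ (s : (Tor d M → ℕ) × Set (Pos d)) (P : Pos d × ℕ), P.2 < s.1 (tv P.1) → P.1 ∈ s.2 →
    (∀ i ≤ L.length, ((L.take i).foldl mk (s.1, P)).2.1 ∈ G) →
    (L.foldl mk (s.1, P)).2.1 ∈ (L.foldl (stepRA G) s).2 := by
  induction L with
  | nil => intro s P _ h _; exact h
  | cons a L ih =>
    intro s P hP hx hG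
    rw [List.foldl_cons, List.foldl_cons]
    have h1 := ih (stepRA G s a) (mkrA s.1 P a) (by rw [stepRA_fst]; exact mkrA_lt hM s.1 a P hP)
      (mkrA_mem hM G s a P hP hx (by
        have h2 := hG 1 (by simp)
        simpa [mk] using h2))
    rw [stepRA_fst] at h1
    refine h1 fun i hi => ?_
    have h2 := hG (i + 1) (by simpa using hi)
    simpa [mk] using h2

theorem chase_nrm {st : Bool} {ρ : ℝ} (hρ : 0 ≤ ρ) {η : Tor d M → ℕ} {x : Pos d} {P : Pos d × ℕ}
    {L : List (Let d M K)} (h : Chase st ρ η x P L) : nrm (x - P.1) ≤ ρ := by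
  cases L with
  | nil =>
    have h1 : x = P.1 := h
    rw [h1, sub_self, nrm_zero]
    exact hρ
  | cons a L => exact h.1

/-- the chase of a marker -/
theorem chase_marker (hM : 2 ≤ M) {ρ ρ' : ℝ} (hρ : 0 ≤ ρ) (y : Pos d) (L : List (Let d M K)) :
    ∀ (s : (Tor d M → ℕ) × Set (Pos d)) (x : Pos d) (P : Pos d × ℕ), P.2 < s.1 (tv P.1) → x ∈ s.2 →
    Chase false ρ s.1 x P L →
    (∀ i ≤ L.length, nrm (((L.take i).foldl mk (s.1, P)).2.1 - y) ≤ ρ') →
    (L.foldl mk (s.1, P)).2.1 ∈ (L.foldl (stepRA (Ball y (ρ + ρ'))) s).2 := by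
  induction L with
  | nil =>
    intro s x P hP hx hC _
    have h1 : x = P.1 := hC
    show P.1 ∈ s.2
    rw [← h1]
    exact hx
  | cons a L ih =>
    intro s x P hP hx hC hd
    obtain ⟨h0, hC | ⟨x', hx', hC'⟩⟩ := hC
    · refine marker_stays hM _ (a :: L) s P hP (by rw [← hC]; exact hx) fun i hi => ?_
      show nrm _ ≤ ρ + ρ'
      have := hd i hi
      linarith
    · rw [List.foldl_cons, List.foldl_cons]
      have h1 := ih (stepRA (Ball y (ρ + ρ')) s a) x' (mkrA s.1 P a)
        (by rw [stepRA_fst]; exact mkrA_lt hM s.1 a P hP)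
        (legal_mem _ s a x x' hx hx' (by
          show nrm (x' - y) ≤ ρ + ρ'
          have h2 := hd 1 (by simp)
          have h3 : nrm ((mkrA s.1 P a).1 - y) ≤ ρ' := by simpa [mk] using h2
          have h4 : nrm (x' - (mkrA s.1 P a).1) ≤ ρ := chase_nrm hρ hC'
          have h5 := nrm_sub_le x' (mkrA s.1 P a).1 y
          linarith))
      rw [stepRA_fst] at h1
      refine h1 hC' fun i hi => ?_
      have h2 := hd (i + 1) (by simpa using hi)
      simpa [mk] using h2

/-- the chase of a fixed site -/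
theorem chase_fixed {ρ : ℝ} (hρ : 0 ≤ ρ) (b : Pos d) (L : List (Let d M K)) :
    ∀ (s : (Tor d M → ℕ) × Set (Pos d)) (x : Pos d) (k : ℕ), x ∈ s.2 →
    Chase true ρ s.1 x (b, k) L →
    ∃ i ≤ L.length, b ∈ ((L.take i).foldl (stepRA (Ball b ρ)) s).2 := by
  induction L with
  | nil =>
    intro s x k hx hC
    have h1 : x = b := hC
    exact ⟨0, le_refl _, by rw [← h1]; exact hx⟩
  | cons a L ih =>
    intro s x k hx hC
    obtain ⟨h0, hC | ⟨x', hx', hC'⟩⟩ := hC
    · have h1 : x = b := hC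
      exact ⟨0, Nat.zero_le _, by rw [← h1]; exact hx⟩
    · have h3 : tgt true s.1 (b, k) a = (b, k) := by simp [tgt]
      rw [h3] at hC'
      have h4 : nrm (x' - b) ≤ ρ := chase_nrm (P := (b, k)) hρ hC'
      have h2 : Chase true ρ (stepRA (Ball b ρ) s a).1 x' (b, k) L := by
        rw [stepRA_fst]
        exact hC'
      obtain ⟨i, hi, hb⟩ := ih (stepRA (Ball b ρ) s a) x' k
        (legal_mem _ s a x x' hx hx' h4) h2
      exact ⟨i + 1, by simpa using hi, hb⟩

end D1

open D1

/-- from a chase of a marker along the word to the relation `R` -/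
theorem R_of_chase (m : Model) (q : Par d m) (η0 : Tor d q.M → ℕ) (w : List (Let d q.M q.K))
    (s t : ℕ) (hst : s ≤ t) (hw : t * q.N1 ≤ w.length) (x y : Pos d) (P : Pos d × ℕ) (ρ ρ' : ℝ)
    (hρ : 0 ≤ ρ)
    (hx : 0 < (w.take (s * q.N1)).foldl stepA η0 (tv x))
    (hP : P.2 < (w.take (s * q.N1)).foldl stepA η0 (tv P.1))
    (hC : Chase false ρ ((w.take (s * q.N1)).foldl stepA η0) x P
      ((w.drop (s * q.N1)).take ((t - s) * q.N1)))
    (hd : ∀ i ≤ (t - s) * q.N1, nrm (((((w.drop (s * q.N1)).take i).foldl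
      (fun (s : (Tor d q.M → ℕ) × (Pos d × ℕ)) a => (stepA s.1 a, mkrA s.1 s.2 a))
      ((w.take (s * q.N1)).foldl stepA η0, P)).2.1) - y) ≤ ρ')
    (hy : (((w.drop (s * q.N1)).take ((t - s) * q.N1)).foldl
      (fun (s : (Tor d q.M → ℕ) × (Pos d × ℕ)) a => (stepA s.1 a, mkrA s.1 s.2 a))
      ((w.take (s * q.N1)).foldl stepA η0, P)).2.1 = y) :
    (envT q η0 w).R (fun _ => Ball y (ρ + ρ')) s x t y := by
  have hM : 2 ≤ q.M := by have := q.M_ge; omega
  refine ⟨t - s, by omega, ?_⟩
  have h1 := inf_eq q.N1 η0 w (Ball y (ρ + ρ')) s {x} (t - s)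
  have h2 := congrArg Prod.snd h1
  show y ∈ inf nbT tv η0 (units q.N1 w) (fun _ => Ball y (ρ + ρ')) s {x} (t - s)
  rw [← show _ = inf nbT tv η0 (units q.N1 w) (fun _ => Ball y (ρ + ρ')) s {x} (t - s) from h2]
  have hxG : x ∈ Ball y (ρ + ρ') := by
    show nrm (x - y) ≤ ρ + ρ'
    have h3 : nrm (x - P.1) ≤ ρ := chase_nrm hρ hC
    have h4 : nrm (P.1 - y) ≤ ρ' := by simpa using hd 0 (Nat.zero_le _)
    have h5 := nrm_sub_le x P.1 y
    linarith
  have h6 := chase_marker hM (ρ' := ρ') hρ y ((w.drop (s * q.N1)).take ((t - s) * q.N1))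
    ((w.take (s * q.N1)).foldl stepA η0, {z | z ∈ ({x} : Set (Pos d)) ∧ z ∈ Ball y (ρ + ρ') ∧
      0 < (w.take (s * q.N1)).foldl stepA η0 (tv z)}) x P hP ⟨rfl, hxG, hx⟩ hC
    (fun i hi => by
      have hi' : i ≤ (t - s) * q.N1 := le_trans hi (List.length_take_le _ _)
      have h7 := hd i hi'
      rw [List.take_take, min_eq_left hi']
      exact h7)
  have h8 : (((w.drop (s * q.N1)).take ((t - s) * q.N1)).foldl mk
      ((w.take (s * q.N1)).foldl stepA η0, P)).2.1 = y := hy
  rw [h8] at h6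
  exact h6

/-- from a chase of a fixed site along the word to a visit -/
theorem vis_of_chase (m : Model) (q : Par d m) (η0 : Tor d q.M → ℕ) (w : List (Let d q.M q.K))
    (s t : ℕ) (hst : s < t) (hw : t * q.N1 ≤ w.length) (x b : Pos d) (ρ : ℝ)
    (hx : 0 < (w.take (s * q.N1)).foldl stepA η0 (tv x))
    (hC : Chase true ρ ((w.take (s * q.N1)).foldl stepA η0) x (b, 0)
      ((w.drop (s * q.N1)).take ((t - s) * q.N1))) :
    (envT q η0 w).vis (fun _ => Ball b ρ) s x t b := by
  have hN := q.N1_pos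
  have hlen : ((w.drop (s * q.N1)).take ((t - s) * q.N1)).length = (t - s) * q.N1 := by
    rw [List.length_take, List.length_drop]
    have h1 : (t - s) * q.N1 + s * q.N1 = t * q.N1 := by
      rw [← add_mul]; congr 1; omega
    omega
  have hρ : 0 ≤ ρ := by
    have h1 : 0 < (t - s) * q.N1 := Nat.mul_pos (by omega) hN
    cases hL : (w.drop (s * q.N1)).take ((t - s) * q.N1) with
    | nil => rw [hL] at hlen; simp at hlen; omega
    | cons a L =>
      rw [hL] at hC
      exact le_trans (nrm_nonneg _) hC.1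
  have hxG : x ∈ Ball b ρ := by
    have h1 : nrm (x - b) ≤ ρ := chase_nrm (P := (b, 0)) hρ hC
    exact h1
  obtain ⟨i, hi, hb⟩ := chase_fixed hρ b ((w.drop (s * q.N1)).take ((t - s) * q.N1))
    ((w.take (s * q.N1)).foldl stepA η0, {z | z ∈ ({x} : Set (Pos d)) ∧ z ∈ Ball b ρ ∧
      0 < (w.take (s * q.N1)).foldl stepA η0 (tv z)}) x 0 ⟨rfl, hxG, hx⟩ hC
  rw [hlen] at hi
  rw [List.take_take, min_eq_left hi] at hb
  -- decompose `i = j * N1 + k`
  obtain ⟨j, k, hj, hk, hjk⟩ : ∃ j k : ℕ, j < t - s ∧ k ≤ q.N1 ∧ i = j * q.N1 + k := by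
    by_cases h : i < (t - s) * q.N1
    · refine ⟨i / q.N1, i % q.N1, ?_, (Nat.mod_lt _ hN).le, ?_⟩
      · exact Nat.div_lt_of_lt_mul (by rwa [mul_comm] at h)
      · rw [mul_comm]; exact (Nat.div_add_mod _ _).symm
    · refine ⟨t - s - 1, q.N1, by omega, le_refl _, ?_⟩
      have h1 : (t - s - 1) * q.N1 + q.N1 = (t - s) * q.N1 := by
        rw [← Nat.succ_mul]; congr 1; omega
      omega
  refine ⟨j, by omega, ?_⟩
  show b ∈ visU nbT tv η0 (units q.N1 w) (fun _ => Ball b ρ) s {x} j
  have h1 := inf_eq q.N1 η0 w (Ball b ρ) s {x} j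
  rw [hjk, List.take_add, List.foldl_append, h1, List.drop_drop] at hb
  have h2 : s * q.N1 + j * q.N1 = (s + j) * q.N1 := by ring
  rw [h2] at hb
  have hsub : inf nbT tv η0 (units q.N1 w) (fun _ => Ball b ρ) s {x} j ⊆ Ball b ρ := by
    have h3 := foldl_stepRA_sub (Ball b ρ) ((w.drop (s * q.N1)).take (j * q.N1))
      ((w.take (s * q.N1)).foldl stepA η0,
        {z | z ∈ ({x} : Set (Pos d)) ∧ z ∈ Ball b ρ ∧ 0 < (w.take (s * q.N1)).foldl stepA η0 (tv z)})
      (fun z hz => hz.2.1)
    rw [h1] at h3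
    exact h3
  have h4 : (w.drop ((s + j) * q.N1)).take k = ((w.drop ((s + j) * q.N1)).take q.N1).take k := by
    rw [List.take_take, min_eq_left hk]
  set L := (w.drop ((s + j) * q.N1)).take q.N1 with hL
  refine ⟨((L.take k).filterMap toLab).length, ?_, ?_⟩
  · show ((L.take k).filterMap toLab).length ≤ (L.filterMap toLab).length
    exact ((List.take_sublist k L).filterMap toLab).length_le
  · show b ∈ (((L.filterMap toLab).take ((L.take k).filterMap toLab).length).foldl
      (stepR nbT tv (Ball b ρ)) (cfg nbT η0 (units q.N1 w) (s + j),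
        inf nbT tv η0 (units q.N1 w) (fun _ => Ball b ρ) s {x} j ∩ Ball b ρ)).2
    have h5 : (L.filterMap toLab).take ((L.take k).filterMap toLab).length
        = (L.take k).filterMap toLab := by
      conv_lhs => rw [← List.take_append_drop k L, List.filterMap_append]
      rw [List.take_append_drop k L]
      exact List.take_left' rfl
    rw [h5, foldl_filterMap, Set.inter_eq_left.2 hsub, cfg_eq, ← h4]
    exact hb

end ZI.Rows
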