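import Pool.Agent.ZI.Sys2
import Pool.Agent.ZI.InfLem

/-! # S1: blocks one after the other (deterministic), and numerical facts on the scales -/

set_option autoImplicit false

open scoped ENNReal BigOperators Classical
open MeasureTheory

noncomputable section

namespace ZI.S1

open ZI

variable {d : ℕ}

theorem rr_pos (A k : ℕ) : 0 < rr A k := pow_pos (by norm_num) _

theorem two_le_rr {A k : ℕ} (hA : 0 < A) (hk : A ≤ k) : 2 ≤ rr A k := by
  have h1 : 1 ≤ k / A := (Nat.one_le_div_iff hA).2 hk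
  calc 2 = 2 ^ 1 := by norm_num
    _ ≤ 2 ^ (k / A) := Nat.pow_le_pow_right (by norm_num) h1

/-- powers of `rr` are small compared with `2 ^ k` -/
theorem rr_pow_le {a A k c e : ℕ} (hA : 1000 * a ≤ A) (hc : c ≤ 100 * a) (he : 10 * e ≤ k) :
    2 ^ e * rr A k ^ c ≤ 2 ^ k := by
  unfold rr
  rw [← pow_mul, ← pow_add]
  refine Nat.pow_le_pow_right (by norm_num) ?_
  have h1 : k / A * A ≤ k := Nat.div_mul_le_self k A
  have h2 : k / A * (1000 * a) ≤ k := le_trans (Nat.mul_le_mul_left _ hA) h1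
  have h3 : k / A * c ≤ k / A * (100 * a) := Nat.mul_le_mul_left _ hc
  have h4 : 10 * (k / A * (100 * a)) = k / A * (1000 * a) := by ring
  omega

/-- the level of the shift of the centre is nonnegative -/
theorem lev_v0_nonneg (P : BP) (u : Fin d → ℝ) (hu : ∑ j, u j ^ 2 = 1) (hl : d ≤ P.l0) :
    0 ≤ lev u (v0 P u) := by
  unfold lev v0
  have habs : ∀ j, |u j| ≤ 1 := by
    intro j
    have h1 : u j ^ 2 ≤ 1 := by
      rw [← hu]
      exact Finset.single_le_sum (f := fun j => u j ^ 2) (fun i _ => sq_nonneg _) (Finset.mem_univ j)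
    exact abs_le_one_iff_mul_self_le_one.2 (by nlinarith)
  have h1 : ∀ j, (P.l0 : ℝ) * u j ^ 2 - 1 ≤ u j * ((round ((P.l0 : ℝ) * u j) : ℤ) : ℝ) := by
    intro j
    have h2 : |(P.l0 : ℝ) * u j - (round ((P.l0 : ℝ) * u j) : ℤ)| ≤ 1 / 2 := abs_sub_round _
    have h3 : |u j * ((P.l0 : ℝ) * u j - (round ((P.l0 : ℝ) * u j) : ℤ))| ≤ 1 * (1 / 2) := by
      rw [abs_mul]
      exact mul_le_mul (habs j) h2 (abs_nonneg _) (by norm_num)
    have h4 := (abs_le.1 h3).2
    nlinarith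
  calc (0 : ℝ) ≤ (P.l0 : ℝ) - d := by
        have : (d : ℝ) ≤ P.l0 := by exact_mod_cast hl
        linarith
    _ = ∑ j, ((P.l0 : ℝ) * u j ^ 2 - 1) := by
        rw [Finset.sum_sub_distrib, ← Finset.mul_sum, hu]
        simp
    _ ≤ _ := Finset.sum_le_sum fun j _ => h1 j

theorem lev_add (u : Fin d → ℝ) (x y : Pos d) : lev u (x + y) = lev u x + lev u y := by
  unfold lev
  rw [← Finset.sum_add_distrib]
  refine Finset.sum_congr rfl fun j _ => ?_
  push_cast [Pi.add_apply]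
  ring

section core

variable {Ω : Type} [MeasurableSpace Ω] {P : Measure Ω}

theorem pow_big {r a : ℕ} (hr : 2 ≤ r) (ha : 10 ≤ a) : 1024 ≤ r ^ a :=
  calc 1024 = 2 ^ 10 := by norm_num
    _ ≤ 2 ^ a := Nat.pow_le_pow_right (by norm_num) ha
    _ ≤ r ^ a := Nat.pow_le_pow_left hr a

/-- duration of one block and the waiting time -/
theorem block_time {E : Env d} {a r n Cv m s : ℕ} {u : Fin d → ℝ} {z : Pos d} (hr : 2 ≤ r)
    (ha : 10 ≤ a) (hm : r ^ (7 * a) ≤ m) (F : BlockFacts E (bp d a r n) u r Cv m n z s) :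
    E.bh (bp d a r n) u m z s ≤ 8 * r ^ a * m ∧ (bp d a r n).Δ ≤ m ∧ 1024 ≤ r ^ a := by
  have h1 := pow_big hr ha
  have e3 : r ^ (3 * a) = (r ^ a) ^ 3 := by rw [← pow_mul]; congr 1; ring
  have e7 : r ^ (7 * a) = (r ^ a) ^ 7 := by rw [← pow_mul]; congr 1; ring
  rw [e7] at hm
  generalize hκ : r ^ a = κ at *
  have hF := F.h_ub
  have hmg : 2 * κ ^ 3 ≤ m := by
    refine le_trans ?_ hm
    calc 2 * κ ^ 3 ≤ κ ^ 4 * κ ^ 3 := by
          refine Nat.mul_le_mul_right _ ?_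
          calc 2 ≤ κ := by omega
            _ = κ ^ 1 := (pow_one _).symm
            _ ≤ κ ^ 4 := Nat.pow_le_pow_right (by omega) (by norm_num)
      _ = κ ^ 7 := by ring
  refine ⟨?_, ?_, h1⟩
  · have h2 : (E.bh (bp d a r n) u m z s : ℝ) ≤ 4 * (κ : ℝ) * ((m : ℝ) + 2 * (κ : ℝ) ^ 3) := by
      have h3 := F.h_ub
      have eκ : ((bp d a r n).κ : ℝ) = κ := by rw [← hκ]; rfl
      have emg : ((bp d a r n).mg : ℝ) = (κ : ℝ) ^ 3 := by
        have : (bp d a r n).mg = κ ^ 3 := by rw [← hκ, ← pow_mul, mul_comm a 3]; rfl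
        rw [this]; push_cast; rfl
      rw [eκ, emg] at h3
      exact h3
    have h4 : (2 : ℝ) * (κ : ℝ) ^ 3 ≤ m := by exact_mod_cast hmg
    have h5 : (E.bh (bp d a r n) u m z s : ℝ) ≤ 8 * (κ : ℝ) * m := by
      have h6 : (0 : ℝ) ≤ κ := Nat.cast_nonneg _
      nlinarith
    exact_mod_cast h5
  · show (64 * r ^ (3 * a) + 2) * r ^ a ≤ m
    rw [e3, hκ]
    refine le_trans ?_ hm
    have h2 : 66 ≤ κ ^ 3 := by
      calc 66 ≤ κ := by omega
        _ = κ ^ 1 := (pow_one _).symm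
        _ ≤ κ ^ 3 := Nat.pow_le_pow_right (by omega) (by norm_num)
    have h3 : 1 ≤ κ ^ 3 := Nat.one_le_pow _ _ (by omega)
    calc (64 * κ ^ 3 + 2) * κ ≤ (66 * κ ^ 3) * κ := by
          refine Nat.mul_le_mul_right _ ?_
          omega
      _ ≤ (κ ^ 3 * κ ^ 3) * κ := Nat.mul_le_mul_right _ (Nat.mul_le_mul_right _ h2)
      _ = κ ^ 7 := by ring

/-- total duration of a chain -/
def dur (E : Env d) (Q : BP) (u : Fin d → ℝ) (ms : List ℕ) (z : Pos d) (s : ℕ) : ℕ :=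
  ((E.chain Q u ms z s).map Prod.fst).sum + (ms.length - 1) * Q.Δ

theorem dur_cons (E : Env d) (Q : BP) (u : Fin d → ℝ) (m m2 : ℕ) (ms : List ℕ) (z : Pos d) (s : ℕ) :
    dur E Q u (m :: m2 :: ms) z s = E.bh Q u m z s + Q.Δ +
      dur E Q u (m2 :: ms) (z + E.bx Q u m z s + v0 Q u) (s + E.bh Q u m z s + Q.Δ) := by
  unfold dur
  rw [show E.chain Q u (m :: m2 :: ms) z s = E.blk Q u m z s ::
    E.chain Q u (m2 :: ms) (z + (E.blk Q u m z s).2 + v0 Q u) (s + (E.blk Q u m z s).1 + Q.Δ) from rfl]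
  rw [List.map_cons, List.sum_cons]
  simp only [Env.blk, List.length_cons, Nat.add_sub_cancel]
  ring

/-- the chain of blocks is contained in the first block and it reaches the sum of the levels -/
theorem chain_core (S : Sys d P) {k : ℕ} (hk : S.k0 ≤ k) (hr : 2 ≤ rr S.A k)
    (hd : d ≤ rr S.A k) {E : Env d} (hE : GoodK S.a S.A S.Cv k E) {u : Fin d → ℝ}
    (hu : ∑ j, u j ^ 2 = 1) : ∀ ms : List ℕ, ms ≠ [] → (∀ m ∈ ms, rr S.A k ^ (7 * S.a) ≤ m) →
    ms.sum ≤ rr S.A k * 2 ^ k → ∀ (z : Pos d) (s : ℕ),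
    s + rr S.A k ^ (2 * S.a) * ms.sum ≤ (2 ^ k) ^ 2 →
    dur E (PK d S.a S.A k) u ms z s ≤ 9 * rr S.A k ^ S.a * ms.sum ∧
      ∃ y ∈ E.W (PK d S.a S.A k) u z s (s + dur E (PK d S.a S.A k) u ms z s),
        (ms.sum : ℝ) ≤ lev u (y - z) := by
  have ha := S.a_big
  have hκ := pow_big hr ha
  have hl0 : d ≤ (PK d S.a S.A k).l0 := by
    show d ≤ 32 * rr S.A k ^ (3 * S.a)
    have h1 : rr S.A k ≤ rr S.A k ^ (3 * S.a) := by
      calc rr S.A k = rr S.A k ^ 1 := (pow_one _).symm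
        _ ≤ _ := Nat.pow_le_pow_right (by omega) (by omega)
    omega
  have hv0 := lev_v0_nonneg (PK d S.a S.A k) u hu hl0
  intro ms
  induction ms with
  | nil => intro h; exact absurd rfl h
  | cons m ms ih =>
    intro _ hms hsum z s hs
    have hm : rr S.A k ^ (7 * S.a) ≤ m := hms m (by simp)
    rw [List.sum_cons] at hsum hs
    have hmn : m ≤ rr S.A k * 2 ^ k := by omega
    have hs1 : s + rr S.A k ^ (2 * S.a) * m ≤ (2 ^ k) ^ 2 := by
      have : rr S.A k ^ (2 * S.a) * m ≤ rr S.A k ^ (2 * S.a) * (m + ms.sum) :=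
        Nat.mul_le_mul_left _ (by omega)
      omega
    have F := S.facts k hk E hE u hu m hm hmn z s hs1
    obtain ⟨hb1, hb2, -⟩ := block_time hr ha hm F
    have hb1' : E.bh (PK d S.a S.A k) u m z s ≤ 8 * rr S.A k ^ S.a * m := hb1
    have hb2' : (PK d S.a S.A k).Δ ≤ m := hb2
    cases ms with
    | nil =>
      have hdur : dur E (PK d S.a S.A k) u [m] z s = E.bh (PK d S.a S.A k) u m z s := by
        simp [dur, Env.chain, Env.blk]
      rw [hdur]
      refine ⟨?_, z + E.bx (PK d S.a S.A k) u m z s, F.x_mem, ?_⟩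
      · simp only [List.sum_cons, List.sum_nil, add_zero]
        nlinarith
      · rw [add_sub_cancel_left]
        simpa using F.x_lev
    | cons m2 ms =>
      set κ := rr S.A k ^ S.a with hκd
      have e2 : rr S.A k ^ (2 * S.a) = κ * κ := by rw [hκd, ← pow_add]; congr 1; ring
      have hm0 : 0 < m := lt_of_lt_of_le (pow_pos (by omega) _) hm
      have hstep : E.bh (PK d S.a S.A k) u m z s + (PK d S.a S.A k).Δ ≤ 9 * κ * m := by
        nlinarith
      have hκκ : 9 * κ ≤ κ * κ := Nat.mul_le_mul_right _ (by omega)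
      have hstep2 : E.bh (PK d S.a S.A k) u m z s + (PK d S.a S.A k).Δ ≤
          rr S.A k ^ (2 * S.a) * m := by
        rw [e2]
        exact le_trans hstep (Nat.mul_le_mul_right _ hκκ)
      have hs2 : s + E.bh (PK d S.a S.A k) u m z s + (PK d S.a S.A k).Δ +
          rr S.A k ^ (2 * S.a) * (m2 :: ms).sum ≤ (2 ^ k) ^ 2 := by
        have : rr S.A k ^ (2 * S.a) * (m + (m2 :: ms).sum) =
          rr S.A k ^ (2 * S.a) * m + rr S.A k ^ (2 * S.a) * (m2 :: ms).sum := by ring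
        omega
      obtain ⟨hT, y, hy, hyl⟩ := ih (by simp) (fun m' hm' => hms m' (by simp [hm'])) (by omega)
        (z + E.bx (PK d S.a S.A k) u m z s + v0 (PK d S.a S.A k) u)
        (s + E.bh (PK d S.a S.A k) u m z s + (PK d S.a S.A k).Δ) hs2
      rw [dur_cons]
      set h1 := E.bh (PK d S.a S.A k) u m z s with hh1
      set Δ := (PK d S.a S.A k).Δ with hΔ
      set z' := z + E.bx (PK d S.a S.A k) u m z s + v0 (PK d S.a S.A k) u with hz'
      set T' := dur E (PK d S.a S.A k) u (m2 :: ms) z' (s + h1 + Δ) with hT'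
      have htot : h1 + Δ + T' ≤ 9 * κ * (m :: m2 :: ms).sum := by
        rw [List.sum_cons]
        calc h1 + Δ + T' ≤ 9 * κ * m + 9 * κ * (m2 :: ms).sum := Nat.add_le_add hstep hT
          _ = _ := by ring
      refine ⟨htot, y, ?_, ?_⟩
      · rw [show s + (h1 + Δ + T') = s + h1 + Δ + T' by ring]
        refine F.sub (s + h1 + Δ + T') (by omega) ?_ ?_ hy
        · have h3 : T' ≤ rr S.A k ^ (2 * S.a) * (m2 :: ms).sum := by
            rw [e2]
            exact le_trans hT (Nat.mul_le_mul_right _ hκκ)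
          omega
        · show s + h1 + Δ + T' ≤ s + (rr S.A k ^ S.a) ^ 4 * 2 ^ k
          have h3 : 9 * κ * (m :: m2 :: ms).sum ≤ κ ^ 4 * 2 ^ k := by
            rw [List.sum_cons]
            have hrκ : rr S.A k ≤ κ := by
              calc rr S.A k = rr S.A k ^ 1 := (pow_one _).symm
                _ ≤ _ := Nat.pow_le_pow_right (by omega) (by omega)
            calc 9 * κ * (m + (m2 :: ms).sum) ≤ 9 * κ * (rr S.A k * 2 ^ k) :=
                  Nat.mul_le_mul_left _ hsum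
              _ ≤ (κ * κ) * (κ * 2 ^ k) :=
                  Nat.mul_le_mul hκκ (Nat.mul_le_mul_right _ hrκ)
              _ = κ ^ 3 * 2 ^ k := by ring
              _ ≤ κ ^ 4 * 2 ^ k :=
                  Nat.mul_le_mul_right _ (Nat.pow_le_pow_right (by omega) (by norm_num))
          rw [← hκd]
          omega
      · have e1 : y - z = (y - z') + (E.bx (PK d S.a S.A k) u m z s + v0 (PK d S.a S.A k) u) := by
          rw [hz']
          abel
        rw [e1, lev_add, lev_add, List.sum_cons]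
        have := F.x_lev
        push_cast at hyl ⊢
        linarith

/-- a start before the middle of the horizon leaves enough time for all the blocks -/
theorem room {a A k : ℕ} (ha : 10 ≤ a) (hA : 1000 * a ≤ A) (hk : 20 ≤ k) {s M : ℕ}
    (hs : 2 * s ≤ (2 ^ k) ^ 2) (hM : M ≤ rr A k * 2 ^ k) :
    s + rr A k ^ (2 * a) * M ≤ (2 ^ k) ^ 2 := by
  have h1 : 2 ^ 1 * rr A k ^ (2 * a + 1) ≤ 2 ^ k := rr_pow_le hA (by omega) (by omega)
  have h2 : rr A k ^ (2 * a) * M ≤ rr A k ^ (2 * a + 1) * 2 ^ k := by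
    calc rr A k ^ (2 * a) * M ≤ rr A k ^ (2 * a) * (rr A k * 2 ^ k) := Nat.mul_le_mul_left _ hM
      _ = _ := by ring
  have h3 : 2 * (rr A k ^ (2 * a + 1) * 2 ^ k) ≤ (2 ^ k) ^ 2 := by
    calc 2 * (rr A k ^ (2 * a + 1) * 2 ^ k) = (2 ^ 1 * rr A k ^ (2 * a + 1)) * 2 ^ k := by ring
      _ ≤ 2 ^ k * 2 ^ k := Nat.mul_le_mul_right _ h1
      _ = _ := by ring
  omega

/-- the density radius is large at large scales -/
theorem exists_scale (A k0 N : ℕ) (hA : 0 < A) : ∃ k1 ≥ k0, ∀ k ≥ k1, 2 ≤ rr A k ∧ N ≤ rr A k ∧ 20 ≤ k := by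
  refine ⟨k0 + 20 + A * (N + 1), by omega, fun k hk => ?_⟩
  have h1 : N + 1 ≤ k / A := (Nat.le_div_iff_mul_le hA).2 (by nlinarith)
  have h2 : 2 ^ (N + 1) ≤ rr A k := Nat.pow_le_pow_right (by norm_num) h1
  have h3 : N + 1 < 2 ^ (N + 1) := Nat.lt_two_pow_self
  refine ⟨by omega, by omega, by omega⟩

end core

end ZI.S1

namespace ZI.Rows

open ZI ZI.S1

variable {d : ℕ}

section S

variable {Ω : Type} [MeasurableSpace Ω] {P : Measure Ω}

theorem bh_chain (S : Sys d P) : ∃ k1 ≥ S.k0, ∀ k ≥ k1, ∀ E : Env d, GoodK S.a S.A S.Cv k E →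
    ∀ u : Fin d → ℝ, ∑ j, u j ^ 2 = 1 → ∀ ms : List ℕ, ms ≠ [] →
    (∀ m ∈ ms, rr S.A k ^ (7 * S.a) ≤ m) → ms.sum ≤ rr S.A k * 2 ^ k → ∀ (z : Pos d) (s : ℕ),
    2 * s ≤ (2 ^ k) ^ 2 →
    E.bh (PK d S.a S.A k) u ms.sum z s ≤
      ((E.chain (PK d S.a S.A k) u ms z s).map Prod.fst).sum + (ms.length - 1) * (PK d S.a S.A k).Δ := by
  have ha := S.a_big
  have hA := S.A_big
  obtain ⟨k1, hk1, H⟩ := exists_scale S.A S.k0 d (by omega)
  refine ⟨k1, hk1, fun k hk E hE u hu ms hne hms hsum z s hs => ?_⟩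
  obtain ⟨h2, hd, h20⟩ := H k hk
  obtain ⟨-, y, hy, hyl⟩ := chain_core S (le_trans hk1 hk) h2 hd hE hu ms hne hms hsum z s
    (room ha hA h20 hs hsum)
  exact Nat.sInf_le ⟨y, hy, hyl⟩

end S

end ZI.Rows
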