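import Pool.Agent.ZI.Dec
import Pool.Agent.ZI.Geo
import Pool.Agent.ZI.S1

/-! # E3: chains of blocks are determined by the environment in a half space (deterministic) -/

set_option autoImplicit false

open scoped ENNReal BigOperators Classical

noncomputable section

namespace ZI.E3

open ZI ZI.Geo

variable {d : ℕ}

theorem rk_inj {v w : Pos d} (h : rk v = rk w) : v = w := by
  unfold rk at h
  have h1 := congrArg (fun p => (ofLex p).2) h
  exact Encodable.encode_injective h1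

theorem supn_add (v w : Pos d) : supn (v + w) ≤ supn v + supn w := by
  unfold supn
  refine Finset.sup_le fun j _ => ?_
  have h1 : (v j).natAbs ≤ Finset.univ.sup (fun j => (v j).natAbs) :=
    Finset.le_sup (f := fun j => (v j).natAbs) (Finset.mem_univ j)
  have h2 : (w j).natAbs ≤ Finset.univ.sup (fun j => (w j).natAbs) :=
    Finset.le_sup (f := fun j => (w j).natAbs) (Finset.mem_univ j)
  have h3 : ((v + w) j).natAbs ≤ (v j).natAbs + (w j).natAbs := by
    rw [Pi.add_apply]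
    exact Int.natAbs_add_le _ _
  omega

/-- the nearest occupied position depends only on the occupation in the ball -/
theorem near_eq {E E' : Env d} {s r : ℕ} {z : Pos d}
    (h : ∃ v : Pos d, supn v ≤ r ∧ E.occ s (z + v))
    (he : ∀ v : Pos d, supn v ≤ r → (E.occ s (z + v) ↔ E'.occ s (z + v))) :
    E'.near s z = E.near s z := by
  obtain ⟨v, hv, hocc⟩ := h
  have hne : {v : Pos d | E.occ s (z + v)}.Nonempty := ⟨v, hocc⟩
  have hne' : {v : Pos d | E'.occ s (z + v)}.Nonempty := ⟨v, (he v hv).1 hocc⟩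
  unfold Env.near
  rw [dif_pos hne, dif_pos hne']
  have a1 := Function.argminOn_mem rk {v : Pos d | E.occ s (z + v)} hne
  have a2 := Function.argminOn_mem rk {v : Pos d | E'.occ s (z + v)} hne'
  have b1 := Function.argminOn_le rk {v : Pos d | E.occ s (z + v)} (a := v) hocc
  have c1 : supn (Function.argminOn rk {v : Pos d | E.occ s (z + v)} hne) ≤ r :=
    (supn_le_of_rk b1).trans hv
  have b2 := Function.argminOn_le rk {v : Pos d | E'.occ s (z + v)}
    (a := Function.argminOn rk {v : Pos d | E.occ s (z + v)} hne) ((he _ c1).1 a1)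
  have c2 : supn (Function.argminOn rk {v : Pos d | E'.occ s (z + v)} hne') ≤ r :=
    (supn_le_of_rk b2).trans c1
  have b3 := Function.argminOn_le rk {v : Pos d | E.occ s (z + v)}
    (a := Function.argminOn rk {v : Pos d | E'.occ s (z + v)} hne') ((he _ c2).2 a2)
  rw [rk_inj (le_antisymm b2 b3)]

/-- the block variable depends only on the infection of the block up to the end of the block -/
theorem blk_eq {E E' : Env d} {P : BP} {u : Fin d → ℝ} {m : ℕ} {z : Pos d} {s T : ℕ}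
    (hW : ∀ t ≤ T, E'.W P u z s t = E.W P u z s t) (hT : s + E.bh P u m z s ≤ T)
    (hx : z + E.bx P u m z s ∈ E.W P u z s (s + E.bh P u m z s))
    (hl : (m : ℝ) ≤ lev u (E.bx P u m z s)) : E'.blk P u m z s = E.blk P u m z s := by
  have hb : E'.bh P u m z s = E.bh P u m z s := by
    apply le_antisymm
    · refine Nat.sInf_le ⟨z + E.bx P u m z s, ?_, ?_⟩
      · rw [hW _ hT]
        exact hx
      · rwa [add_sub_cancel_left]
    · have hne : {h | ∃ y ∈ E'.W P u z s (s + h), (m : ℝ) ≤ lev u (y - z)}.Nonempty :=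
        ⟨E.bh P u m z s, z + E.bx P u m z s, by rw [hW _ hT]; exact hx, by
          rwa [add_sub_cancel_left]⟩
      have hle : E'.bh P u m z s ≤ E.bh P u m z s := by
        refine Nat.sInf_le ⟨z + E.bx P u m z s, ?_, ?_⟩
        · rw [hW _ hT]
          exact hx
        · rwa [add_sub_cancel_left]
      obtain ⟨y, hy, hyl⟩ := Nat.sInf_mem hne
      refine Nat.sInf_le ⟨y, ?_, hyl⟩
      have h2 : s + E'.bh P u m z s ≤ T := by omega
      rw [← hW _ h2]
      exact hy
  have hxe : E'.bx P u m z s = E.bx P u m z s := by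
    unfold Env.bx
    rw [hb]
    simp only [hW _ hT]
  unfold Env.blk
  rw [hb, hxe]

/-- the wall of a block whose start is above the line lies in the half space region -/
theorem wall_sub {κ mg l0 Δ n : ℕ} {u : Fin d → ℝ} {z : Pos d} {s : ℕ} {b : ℝ}
    (hz : supn z ≤ 3 * n ^ 2)
    (hl : b + (s : ℝ) / (16 * κ) + 2 * mg ≤ lev u z) (t : ℕ) :
    wall ⟨mg, κ, l0, Δ, n ^ 2⟩ u z s t ⊆ HS ⟨mg, κ, l0, Δ, n ^ 2⟩ u b n t := by
  rintro y ⟨h1, h2⟩
  refine ⟨?_, ?_⟩
  · show b + (t : ℝ) / (16 * κ) ≤ lev u y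
    have h3 : -(mg : ℝ) + ((t : ℝ) - s) / (16 * κ) ≤ lev u (y - z) := h1
    rw [lev_sub, sub_div] at h3
    have h4 : (0 : ℝ) ≤ mg := Nat.cast_nonneg _
    linarith
  · have h3 : supn (y - z) ≤ n ^ 2 := h2
    have h4 := supn_add z (y - z)
    rw [add_sub_cancel] at h4
    omega

theorem core {Cv a r n : ℕ} (hr : 10 ≤ r) (hCr : Cv ≤ r) (hdr : d ≤ r) (ha : 10 ≤ a)
    (hrn : r ≤ n ^ 2) {E E' : Env d}
    {u : Fin d → ℝ} (hu : ∑ j, u j ^ 2 = 1) {T : ℕ} {b : ℝ} (hTn : T ≤ n ^ 2)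
    (hF : ∀ m : ℕ, r ^ (7 * a) ≤ m → m ≤ r * n →
      ∀ (z : Pos d) (s : ℕ), s + r ^ (2 * a) * m ≤ n ^ 2 →
      BlockFacts E (bp d a r n) u r Cv m n z s)
    (hA : AgreeW E E' (HS (bp d a r n) u b n) T) :
    ∀ ms : List ℕ, (∀ m' ∈ ms, r ^ (7 * a) ≤ m') → ms.sum ≤ r * n → ∀ (z : Pos d) (s : ℕ),
    supn z + r ^ (3 * a) * ms.sum ≤ 3 * n ^ 2 →
    b + (s : ℝ) / (16 * (bp d a r n).κ) + 2 * (bp d a r n).mg ≤ lev u z →
    s + r ^ (2 * a) * ms.sum ≤ T →
    E'.chain (bp d a r n) u ms z s = E.chain (bp d a r n) u ms z s := by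
  intro ms
  induction ms with
  | nil => intros; rfl
  | cons m ms ih =>
    intro hms hsum z s hz hl hs
    have hm : r ^ (7 * a) ≤ m := hms m (by simp)
    rw [List.sum_cons] at hsum hz hs
    have hmn : m ≤ r * n := by omega
    have hsm : s + r ^ (2 * a) * m ≤ T := by
      have : r ^ (2 * a) * m ≤ r ^ (2 * a) * (m + ms.sum) := Nat.mul_le_mul_left _ (by omega)
      omega
    have F := hF m hm hmn z s (hsm.trans hTn)
    obtain ⟨hb1, hb2, hκ⟩ := S1.block_time (by omega) ha hm F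
    have e2 : r ^ (2 * a) = (r ^ a) ^ 2 := by rw [← pow_mul]; congr 1; ring
    have e3 : r ^ (3 * a) = (r ^ a) ^ 3 := by rw [← pow_mul]; congr 1; ring
    have e7 : r ^ (7 * a) = (r ^ a) ^ 7 := by rw [← pow_mul]; congr 1; ring
    have hrκ : r ≤ r ^ a := by
      calc r = r ^ 1 := (pow_one _).symm
        _ ≤ r ^ a := Nat.pow_le_pow_right (by omega) (by omega)
    have hbp : bp d a r n = ⟨(r ^ a) ^ 3, r ^ a, 32 * (r ^ a) ^ 3, (64 * (r ^ a) ^ 3 + 2) * r ^ a,
        n ^ 2⟩ := by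
      unfold bp
      rw [e3]
    -- the block
    have hz3 : supn z ≤ 3 * n ^ 2 := by omega
    have hsub : ∀ t, wall (bp d a r n) u z s t ⊆ HS (bp d a r n) u b n t := by
      intro t
      rw [hbp] at hl ⊢
      exact wall_sub hz3 hl t
    have hbhT : s + E.bh (bp d a r n) u m z s + (bp d a r n).Δ + r ^ (2 * a) * ms.sum ≤ T := by
      have h1 : E.bh (bp d a r n) u m z s + (bp d a r n).Δ ≤ r ^ (2 * a) * m := by
        rw [e2]
        calc E.bh (bp d a r n) u m z s + (bp d a r n).Δ ≤ 8 * r ^ a * m + m := Nat.add_le_add hb1 hb2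
          _ = (8 * r ^ a + 1) * m := by ring
          _ ≤ (r ^ a) ^ 2 * m := Nat.mul_le_mul_right _ (by nlinarith)
      have h2 : r ^ (2 * a) * (m + ms.sum) = r ^ (2 * a) * m + r ^ (2 * a) * ms.sum := by ring
      omega
    have hnear : E'.near s z = E.near s z := by
      refine near_eq (r := r) ⟨E.near s z - z, F.near_supn, ?_⟩ ?_
      · rw [add_sub_cancel]
        exact F.near_occ
      · intro v hv
        refine hA.occ s (by omega) (z + v) ⟨?_, ?_⟩
        · have h1 := neg_le_lev hu v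
          have h2 : nrm v ≤ (d : ℝ) * r := (nrm_le_supn v).trans
            (mul_le_mul_of_nonneg_left (by exact_mod_cast hv) (Nat.cast_nonneg _))
          have h3 : (d : ℝ) * r ≤ 2 * ((bp d a r n).mg : ℝ) := by
            rw [hbp]
            have : d * r ≤ 2 * (r ^ a) ^ 3 := by
              calc d * r ≤ r ^ a * r ^ a := Nat.mul_le_mul (hdr.trans hrκ) hrκ
                _ = (r ^ a) ^ 2 := by ring
                _ ≤ (r ^ a) ^ 3 := Nat.pow_le_pow_right (by omega) (by norm_num)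
                _ ≤ 2 * (r ^ a) ^ 3 := by omega
            exact_mod_cast this
          rw [lev_add]
          linarith
        · have := supn_add z v
          omega
    have hW : ∀ t ≤ T, E'.W (bp d a r n) u z s t = E.W (bp d a r n) u z s t := by
      intro t ht
      unfold Env.W
      rw [hnear]
      ext y
      exact (hA.R (wall (bp d a r n) u z s) (fun t' _ => hsub t') s t _ y ht).symm
    have hblk := blk_eq (m := m) hW (by omega) F.x_mem F.x_lev
    show E'.blk (bp d a r n) u m z s :: E'.chain (bp d a r n) u ms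
        (z + (E'.blk (bp d a r n) u m z s).2 + v0 (bp d a r n) u)
        (s + (E'.blk (bp d a r n) u m z s).1 + (bp d a r n).Δ) =
      E.blk (bp d a r n) u m z s :: E.chain (bp d a r n) u ms
        (z + (E.blk (bp d a r n) u m z s).2 + v0 (bp d a r n) u)
        (s + (E.blk (bp d a r n) u m z s).1 + (bp d a r n).Δ)
    rw [hblk]
    congr 1
    have hv0 : v0 (bp d a r n) u = rv u (bp d a r n).l0 := rfl
    have hlv := lev_rv hu (bp d a r n).l0
    have hnv := nrm_rv hu (bp d a r n).l0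
    rw [← hv0] at hlv hnv
    refine ih (fun m' hm' => hms m' (by simp [hm'])) (by omega) _ _ ?_ ?_ hbhT
    · -- displacement
      show supn (z + E.bx (bp d a r n) u m z s + v0 (bp d a r n) u) + r ^ (3 * a) * ms.sum ≤ 3 * n ^ 2
      have h1 : supn (E.bx (bp d a r n) u m z s + v0 (bp d a r n) u) ≤ r ^ (3 * a) * m := by
        apply supn_le_of_nrm
        have h2 := nrm_add (E.bx (bp d a r n) u m z s) (v0 (bp d a r n) u)
        have h3 := F.x_nrm
        have h4 : (Cv * E.bh (bp d a r n) u m z s + 2 * d * r + ((bp d a r n).l0 + d) : ℕ) ≤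
            r ^ (3 * a) * m := by
          rw [e7] at hm
          rw [e3, hbp]
          rw [hbp] at hb1
          generalize r ^ a = κ at *
          have h5 : Cv * E.bh ⟨κ ^ 3, κ, 32 * κ ^ 3, (64 * κ ^ 3 + 2) * κ, n ^ 2⟩ u m z s ≤
              κ * (8 * κ * m) := Nat.mul_le_mul (by omega) hb1
          have h6 : 2 * d * r ≤ 2 * κ ^ 2 := by
            calc 2 * d * r ≤ 2 * κ * κ := Nat.mul_le_mul (by omega) hrκ
              _ = 2 * κ ^ 2 := by ring
          have h7 : κ ^ 2 ≤ κ ^ 3 := Nat.pow_le_pow_right (by omega) (by norm_num)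
          have h8 : κ ≤ κ ^ 3 := by
            calc κ = κ ^ 1 := (pow_one _).symm
              _ ≤ κ ^ 3 := Nat.pow_le_pow_right (by omega) (by norm_num)
          have h9 : 1024 ≤ m := by
            refine le_trans ?_ hm
            calc 1024 ≤ κ := hκ
              _ = κ ^ 1 := (pow_one _).symm
              _ ≤ κ ^ 7 := Nat.pow_le_pow_right (by omega) (by norm_num)
          have h10 : κ * (8 * κ * m) = 8 * (κ ^ 2 * m) := by ring
          have h11 : 1024 * (κ ^ 2 * m) ≤ κ ^ 3 * m := by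
            calc 1024 * (κ ^ 2 * m) ≤ κ * (κ ^ 2 * m) := Nat.mul_le_mul_right _ hκ
              _ = κ ^ 3 * m := by ring
          have h12 : κ ^ 3 * 1024 ≤ κ ^ 3 * m := Nat.mul_le_mul_left _ h9
          show Cv * E.bh ⟨κ ^ 3, κ, 32 * κ ^ 3, (64 * κ ^ 3 + 2) * κ, n ^ 2⟩ u m z s + 2 * d * r +
            (32 * κ ^ 3 + d) ≤ κ ^ 3 * m
          omega
        have h4' : ((Cv * E.bh (bp d a r n) u m z s + 2 * d * r + ((bp d a r n).l0 + d) : ℕ) : ℝ) ≤
            ((r ^ (3 * a) * m : ℕ) : ℝ) := Nat.cast_le.2 h4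
        push_cast at h4' ⊢
        linarith
      have h2 := supn_add z (E.bx (bp d a r n) u m z s + v0 (bp d a r n) u)
      rw [← add_assoc] at h2
      have h3 : r ^ (3 * a) * (m + ms.sum) = r ^ (3 * a) * m + r ^ (3 * a) * ms.sum := by ring
      omega
    · -- level
      show b + ((s + E.bh (bp d a r n) u m z s + (bp d a r n).Δ : ℕ) : ℝ) / (16 * (bp d a r n).κ) +
        2 * (bp d a r n).mg ≤ lev u (z + E.bx (bp d a r n) u m z s + v0 (bp d a r n) u)
      rw [lev_add, lev_add]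
      have h1 := F.x_lev
      have h2 := F.h_ub
      rw [hbp] at hl h1 h2 hlv ⊢
      rw [e7] at hm
      generalize r ^ a = κ at *
      have hκ0 : (0 : ℝ) < κ := by
        have : (1024 : ℝ) ≤ κ := by exact_mod_cast hκ
        linarith
      have h3 : ((s + E.bh ⟨κ ^ 3, κ, 32 * κ ^ 3, (64 * κ ^ 3 + 2) * κ, n ^ 2⟩ u m z s +
          (64 * κ ^ 3 + 2) * κ : ℕ) : ℝ) / (16 * κ) ≤
          (s : ℝ) / (16 * κ) + ((m : ℝ) + 2 * (κ : ℝ) ^ 3) / 4 + (64 * (κ : ℝ) ^ 3 + 2) / 16 := by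
        push_cast
        rw [div_le_iff₀ (by positivity)]
        have h4 : ((s : ℝ) / (16 * κ) + ((m : ℝ) + 2 * (κ : ℝ) ^ 3) / 4 +
            (64 * (κ : ℝ) ^ 3 + 2) / 16) * (16 * κ) =
            s + 4 * κ * ((m : ℝ) + 2 * (κ : ℝ) ^ 3) + (64 * (κ : ℝ) ^ 3 + 2) * κ := by
          field_simp
          ring
        rw [h4]
        have h5 : (E.bh ⟨κ ^ 3, κ, 32 * κ ^ 3, (64 * κ ^ 3 + 2) * κ, n ^ 2⟩ u m z s : ℝ) ≤
            4 * κ * ((m : ℝ) + 2 * (κ : ℝ) ^ 3) := by
          have := h2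
          push_cast at this
          exact this
        linarith
      have h6 : b + (s : ℝ) / (16 * κ) + 2 * (κ : ℝ) ^ 3 ≤ lev u z := by
        have := hl
        push_cast at this
        exact this
      have h7 : 32 * (κ : ℝ) ^ 3 - d ≤
          lev u (v0 ⟨κ ^ 3, κ, 32 * κ ^ 3, (64 * κ ^ 3 + 2) * κ, n ^ 2⟩ u) := by
        have := hlv
        push_cast at this
        exact this
      have h8 : (d : ℝ) ≤ (κ : ℝ) ^ 3 := by
        have : d ≤ κ ^ 3 := by
          calc d ≤ κ := by omega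
            _ = κ ^ 1 := (pow_one _).symm
            _ ≤ κ ^ 3 := Nat.pow_le_pow_right (by omega) (by norm_num)
        exact_mod_cast this
      have h9 : (1 : ℝ) ≤ (κ : ℝ) ^ 3 := by
        have : 1 ≤ κ ^ 3 := Nat.one_le_pow _ _ (by omega)
        exact_mod_cast this
      show b + ((s + E.bh ⟨κ ^ 3, κ, 32 * κ ^ 3, (64 * κ ^ 3 + 2) * κ, n ^ 2⟩ u m z s +
          (64 * κ ^ 3 + 2) * κ : ℕ) : ℝ) / (16 * κ) + 2 * ((κ ^ 3 : ℕ) : ℝ) ≤ _
      have h10 : ((κ ^ 3 : ℕ) : ℝ) = (κ : ℝ) ^ 3 := by push_cast; rfl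
      rw [h10]
      linarith

end ZI.E3

namespace ZI.Rows

open ZI

variable {d : ℕ} {m : Model}

theorem chain_eq {Cv a A r0 : ℕ} {c : ℝ} (hB : Base m d Cv a A r0 c) : ∃ r1 ≥ r0, ∀ r ≥ r1, ∀ n : ℕ,
    r ^ A ≤ n → ∀ E E' : Env d, E.Good r (r ^ a) (r ^ a) Cv (n ^ 2) (n ^ 2) →
    ∀ (u : Fin d → ℝ), ∑ j, u j ^ 2 = 1 → ∀ ms : List ℕ, (∀ m' ∈ ms, r ^ (7 * a) ≤ m') →
    ms.sum ≤ r * n → ∀ (z : Pos d) (s T : ℕ) (b : ℝ), 2 * s ≤ n ^ 2 → supn z ≤ 2 * n ^ 2 →
    b + (s : ℝ) / (16 * (bp d a r n).κ) + 2 * (bp d a r n).mg ≤ lev u z →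
    s + r ^ (2 * a) * ms.sum ≤ T → T ≤ n ^ 2 →
    AgreeW E E' (HS (bp d a r n) u b n) T →
    E'.chain (bp d a r n) u ms z s = E.chain (bp d a r n) u ms z s := by
  refine ⟨r0 + Cv + d, by omega, ?_⟩
  intro r hr n hn E E' hE u hu ms hms hsum z s T b _ hz hl hs hT hA
  have hr10 : 10 ≤ r := by
    have := hB.r0_big
    omega
  have hrA : r ^ (3 * a + 1) ≤ n := by
    refine le_trans (Nat.pow_le_pow_right (by omega) ?_) hn
    have := hB.A_big
    have := hB.a_big
    omega
  have hrn : r ≤ n := by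
    refine le_trans ?_ hrA
    calc r = r ^ 1 := (pow_one _).symm
      _ ≤ _ := Nat.pow_le_pow_right (by omega) (by omega)
  have hnn : n ≤ n ^ 2 := by nlinarith
  refine E3.core hr10 (by omega) (by omega) hB.a_big (hrn.trans hnn) hu hT
    (fun m' h1 h2 z' s' h3 => hB.facts r (by omega) n hn E hE u hu m' h1 h2 z' s' h3) hA ms hms hsum
    z s ?_ hl hs
  have h1 : r ^ (3 * a) * ms.sum ≤ n ^ 2 := by
    calc r ^ (3 * a) * ms.sum ≤ r ^ (3 * a) * (r * n) := Nat.mul_le_mul_left _ hsum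
      _ = r ^ (3 * a + 1) * n := by rw [pow_succ]; ring
      _ ≤ n * n := Nat.mul_le_mul_right _ hrA
      _ = n ^ 2 := by ring
  omega

end ZI.Rows
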