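import Pool.Agent.ZI.Dec
import Pool.Agent.ZI.D1
import Pool.Agent.ZI.R2
import Pool.Agent.ZI.E3
import Pool.Agent.ZI.C5

/-! # Row E4: shift of the starting point, truncation of the word, invariance of the start -/

set_option autoImplicit false

open scoped ENNReal BigOperators Classical

noncomputable section

namespace ZI.E4

open ZI ZI.Rows.D1

variable {d : ℕ}

/-! ### environments with the same units -/

theorem cfg_congr {V : Type} (nb : V → Dir d → Option V) (η0 : V → ℕ) {U U' : ℕ → List (Lab V d)}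
    {T : ℕ} (h : ∀ t < T, U t = U' t) : ∀ t ≤ T, cfg nb η0 U t = cfg nb η0 U' t := by
  intro t
  induction t with
  | zero => intro _; rfl
  | succ t ih =>
    intro ht
    rw [cfg, cfg, ih (by omega), h t (by omega)]

theorem inf_congr {V : Type} (nb : V → Dir d → Option V) (pr : Pos d → V) (η0 : V → ℕ)
    {U U' : ℕ → List (Lab V d)} {T : ℕ} (h : ∀ t < T, U t = U' t) (G : ℕ → Set (Pos d)) (s : ℕ)
    (A : Set (Pos d)) : ∀ j, s + j ≤ T → inf nb pr η0 U G s A j = inf nb pr η0 U' G s A j := by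
  intro j
  induction j with
  | zero =>
    intro hj
    rw [inf, inf, cfg_congr nb η0 h s (by omega)]
  | succ j ih =>
    intro hj
    rw [inf, inf, ih (by omega), cfg_congr nb η0 h (s + j) (by omega), h (s + j) (by omega)]

theorem units_take {M K : ℕ} (N1 : ℕ) (l : List (Let d M K)) (T t : ℕ) (ht : t < T) :
    units N1 l t = units N1 (l.take (T * N1)) t := by
  unfold units
  rw [List.drop_take, List.take_take]
  have h1 : N1 ≤ T * N1 - t * N1 := by
    rw [← Nat.sub_mul]
    exact Nat.le_mul_of_pos_left _ (by omega)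
  rw [Nat.min_eq_left h1]

/-! ### translations -/

/-- translation of a label -/
def shB {M : ℕ} (w : Tor d M) (b : Lab (Tor d M) d) : Lab (Tor d M) d := (b.1 + w, b.2)

theorem toLab_shL {M K : ℕ} (w : Tor d M) (a : Let d M K) :
    toLab (shL w a) = (toLab a).map (shB w) := by
  cases a <;> rfl

theorem update_shift {V : Type} [AddCommGroup V] (w : V) (η : V → ℕ) (y : V) (v : ℕ) :
    Function.update (fun x => η (x + w)) (y + -w) v = fun x => Function.update η y v (x + w) := by
  funext x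
  by_cases h : x = y + -w
  · have h1 : x + w = y := by rw [h]; abel
    rw [h1, h, Function.update_self, Function.update_self]
  · have h1 : x + w ≠ y := by
      intro h2
      apply h
      rw [← h2]; abel
    rw [Function.update_of_ne h, Function.update_of_ne h1]

theorem mvV_shift {V : Type} [AddCommGroup V] (f : Dir d → V) (w : V) (η : V → ℕ) (b : Lab V d) :
    mv (fun x e => some (x + f e)) (fun x => η (x + w)) (b.1 + -w, b.2) =
      fun x => mv (fun x e => some (x + f e)) η b (x + w) := by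
  have h0 : b.1 + -w + w = b.1 := by abel
  unfold mv
  show (if b.2.1 < η (b.1 + -w + w) then _ else _) = _
  rw [h0]
  by_cases h : b.2.1 < η b.1
  · rw [if_pos h]
    simp only [if_pos h]
    rw [h0, update_shift]
    have h2 : b.1 + -w + f b.2.2 = (b.1 + f b.2.2) + -w := by abel
    rw [h2, update_shift w (Function.update η b.1 (η b.1 - 1))]
    have h3 : b.1 + f b.2.2 + -w + w = b.1 + f b.2.2 := by abel
    simp only [h3]
  · rw [if_neg h]
    simp only [if_neg h]

theorem mv_shift {M : ℕ} (w : Tor d M) (η : Tor d M → ℕ) (b : Lab (Tor d M) d) :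
    mv nbT (fun x => η (x + w)) (shB (-w) b) = fun x => mv nbT η b (x + w) :=
  mvV_shift (fun e => tv (dv e)) w η b

theorem tv_add {M : ℕ} (x y : Pos d) : (tv (x + y) : Tor d M) = tv x + tv y := by
  funext j
  simp [tv]

theorem infMv_shift {M : ℕ} (z : Pos d) (η : Tor d M → ℕ) (A : Set (Pos d))
    (b : Lab (Tor d M) d) :
    infMv nbT tv (fun x => η (x + tv z)) {y | y + z ∈ A} (shB (-(tv z)) b) =
      {y | y + z ∈ infMv nbT tv η A b} := by
  have h0 : b.1 + -(tv z) + tv z = b.1 := by abel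
  have hk : (shB (-(tv z)) b).2.1 = b.2.1 := rfl
  have h1 : ∀ y : Pos d, (tv y : Tor d M) = b.1 + -(tv z) ↔ tv (y + z) = b.1 := by
    intro y
    rw [tv_add]
    constructor
    · intro h; rw [h]; abel
    · intro h; rw [← h]; abel
  have h2 : ∀ y : Pos d, nbT (b.1 + -(tv z)) b.2.2 = some (tv y : Tor d M) ↔
      nbT b.1 b.2.2 = some (tv (y + z)) := by
    intro y
    unfold nbT
    rw [Option.some_inj, Option.some_inj, tv_add]
    constructor
    · intro h; rw [← h]; abel
    · intro h
      have : (tv y : Tor d M) = (tv y + tv z) + -(tv z) := by abel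
      rw [this, ← h]; abel
  have h3 : ∀ y : Pos d, y - dv b.2.2 + z = y + z - dv b.2.2 := fun y => by abel
  by_cases h : b.2.1 < η b.1
  · have h' : (shB (-(tv z)) b).2.1 < (fun x => η (x + tv z)) (shB (-(tv z)) b).1 := by
      show b.2.1 < η (b.1 + -(tv z) + tv z)
      rw [h0]; exact h
    rw [infMv, infMv, if_pos h', if_pos h]
    ext y
    show ((y + z ∈ A) ∧ ((tv y : Tor d M) = b.1 + -(tv z) → 2 ≤ η (b.1 + -(tv z) + tv z))) ∨
      ((y - dv b.2.2 + z ∈ A) ∧ (tv (y - dv b.2.2) : Tor d M) = b.1 + -(tv z) ∧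
        nbT (b.1 + -(tv z)) b.2.2 = some (tv y : Tor d M)) ↔
      ((y + z ∈ A) ∧ ((tv (y + z) : Tor d M) = b.1 → 2 ≤ η b.1)) ∨
      ((y + z - dv b.2.2 ∈ A) ∧ (tv (y + z - dv b.2.2) : Tor d M) = b.1 ∧
        nbT b.1 b.2.2 = some (tv (y + z) : Tor d M))
    rw [h0, h1, h1, h2, h3]
  · have h' : ¬ (shB (-(tv z)) b).2.1 < (fun x => η (x + tv z)) (shB (-(tv z)) b).1 := by
      show ¬ b.2.1 < η (b.1 + -(tv z) + tv z)
      rw [h0]; exact h
    rw [infMv, infMv, if_neg h', if_neg h]

theorem foldl_shift {M : ℕ} (z : Pos d) (G : Set (Pos d)) (L : List (Lab (Tor d M) d))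
    (η : Tor d M → ℕ) (A : Set (Pos d)) :
    (L.map (shB (-(tv z)))).foldl (stepR nbT tv {y | y + z ∈ G})
      ((fun x => η (x + tv z)), {y | y + z ∈ A}) =
    ((fun x => (L.foldl (stepR nbT tv G) (η, A)).1 (x + tv z)),
      {y | y + z ∈ (L.foldl (stepR nbT tv G) (η, A)).2}) := by
  induction L generalizing η A with
  | nil => rfl
  | cons b L ih =>
    rw [List.map_cons, List.foldl_cons, List.foldl_cons]
    have h1 : stepR nbT tv {y | y + z ∈ G} ((fun x => η (x + tv z)), {y | y + z ∈ A})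
        (shB (-(tv z)) b) =
        ((fun x => mv nbT η b (x + tv z)), {y | y + z ∈ infMv nbT tv η A b ∩ G}) := by
      unfold stepR
      refine Prod.ext (mv_shift (tv z) η b) ?_
      show infMv nbT tv (fun x => η (x + tv z)) {y | y + z ∈ A} (shB (-(tv z)) b) ∩ {y | y + z ∈ G} = _
      rw [infMv_shift]
      rfl
    rw [h1]
    exact ih _ _

theorem foldl_mv_shift {M : ℕ} (w : Tor d M) (L : List (Lab (Tor d M) d)) (η : Tor d M → ℕ) :
    (L.map (shB (-w))).foldl (mv nbT) (fun x => η (x + w)) = fun x => L.foldl (mv nbT) η (x + w) := by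
  induction L generalizing η with
  | nil => rfl
  | cons b L ih =>
    rw [List.map_cons, List.foldl_cons, List.foldl_cons, mv_shift]
    exact ih _

theorem units_shift {M K : ℕ} (N1 : ℕ) (w : Tor d M) (l : List (Let d M K)) (s t : ℕ) :
    units N1 ((l.drop (s * N1)).map (shL w)) t = (units N1 l (s + t)).map (shB w) := by
  unfold units
  rw [← List.map_drop, ← List.map_take, List.drop_drop, ← Nat.add_mul]
  generalize ((l.drop ((s + t) * N1)).take N1) = L
  induction L with
  | nil => rfl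
  | cons a L ih =>
    rw [List.map_cons, List.filterMap_cons, List.filterMap_cons, toLab_shL, ih]
    cases toLab a <;> rfl

section shift

variable {m : Model} (q : Par d m) (η : Tor d q.M → ℕ) (l : List (Let d q.M q.K)) (z : Pos d) (s : ℕ)

/-- the shifted configuration -/
def η' : Tor d q.M → ℕ := fun x => (l.take (s * q.N1)).foldl stepA η (x + tv z)

/-- the shifted word -/
def l' : List (Let d q.M q.K) := (l.drop (s * q.N1)).map (shL (-(tv z)))

theorem cfg_shift (t : ℕ) : cfg nbT (η' q η l z s) (units q.N1 (l' q l z s)) t =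
    fun x => cfg nbT η (units q.N1 l) (s + t) (x + tv z) := by
  induction t with
  | zero =>
    show η' q η l z s = fun x => cfg nbT η (units q.N1 l) s (x + tv z)
    rw [cfg_eq]
    rfl
  | succ t ih =>
    show (units q.N1 (l' q l z s) t).foldl (mv nbT) _ =
      fun x => (units q.N1 l (s + t)).foldl (mv nbT) (cfg nbT η (units q.N1 l) (s + t)) (x + tv z)
    rw [ih, l', units_shift, foldl_mv_shift]

theorem occ_shift (t : ℕ) (x : Pos d) :
    (envT q (η' q η l z s) (l' q l z s)).occ t x ↔ (envT q η l).occ (s + t) (x + z) := by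
  show 0 < cfg nbT (η' q η l z s) (units q.N1 (l' q l z s)) t (tv x) ↔
    0 < cfg nbT η (units q.N1 l) (s + t) (tv (x + z))
  rw [cfg_shift, tv_add]

theorem inf_shift (G : ℕ → Set (Pos d)) (s' : ℕ) (A : Set (Pos d)) (j : ℕ) :
    inf nbT tv (η' q η l z s) (units q.N1 (l' q l z s)) (fun t => {y | y + z ∈ G (s + t)}) s'
      {y | y + z ∈ A} j = {y | y + z ∈ inf nbT tv η (units q.N1 l) G (s + s') A j} := by
  induction j with
  | zero =>
    ext y
    show (y + z ∈ A ∧ y + z ∈ G (s + s') ∧ 0 < cfg nbT (η' q η l z s) (units q.N1 (l' q l z s)) s' (tv y)) ↔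
      (y + z ∈ A ∧ y + z ∈ G (s + s') ∧ 0 < cfg nbT η (units q.N1 l) (s + s') (tv (y + z)))
    rw [cfg_shift, tv_add]
  | succ j ih =>
    show ((units q.N1 (l' q l z s) (s' + j)).foldl (stepR nbT tv {y | y + z ∈ G (s + (s' + j))})
      (cfg nbT (η' q η l z s) (units q.N1 (l' q l z s)) (s' + j),
        inf nbT tv (η' q η l z s) (units q.N1 (l' q l z s)) (fun t => {y | y + z ∈ G (s + t)}) s'
          {y | y + z ∈ A} j ∩ {y | y + z ∈ G (s + (s' + j))})).2 =
      {y | y + z ∈ ((units q.N1 l (s + s' + j)).foldl (stepR nbT tv (G (s + s' + j)))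
        (cfg nbT η (units q.N1 l) (s + s' + j),
          inf nbT tv η (units q.N1 l) G (s + s') A j ∩ G (s + s' + j))).2}
    rw [ih, cfg_shift, l', units_shift, ← Nat.add_assoc s s' j]
    have h1 := foldl_shift z (G (s + s' + j)) (units q.N1 l (s + s' + j))
      (cfg nbT η (units q.N1 l) (s + s' + j))
      (inf nbT tv η (units q.N1 l) G (s + s') A j ∩ G (s + s' + j))
    exact congrArg Prod.snd h1

theorem R_shift (G : ℕ → Set (Pos d)) (s' : ℕ) (x : Pos d) (t' : ℕ) (y : Pos d) :
    (envT q (η' q η l z s) (l' q l z s)).R (fun t => {y | y + z ∈ G (s + t)}) s' x t' y ↔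
      (envT q η l).R G (s + s') (x + z) (s + t') (y + z) := by
  have hx : ({x} : Set (Pos d)) = {y | y + z ∈ ({x + z} : Set (Pos d))} := by
    ext w
    simp
  constructor
  · rintro ⟨j, hj, hy⟩
    refine ⟨j, by omega, ?_⟩
    have h1 := inf_shift q η l z s G s' {x + z} j
    rw [← hx] at h1
    change y ∈ inf nbT tv (η' q η l z s) (units q.N1 (l' q l z s))
      (fun t => {y | y + z ∈ G (s + t)}) s' {x} j at hy
    rw [h1] at hy
    exact hy
  · rintro ⟨j, hj, hy⟩
    refine ⟨j, by omega, ?_⟩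
    have h1 := inf_shift q η l z s G s' {x + z} j
    rw [← hx] at h1
    show y ∈ inf nbT tv (η' q η l z s) (units q.N1 (l' q l z s))
      (fun t => {y | y + z ∈ G (s + t)}) s' {x} j
    rw [h1]
    exact hy

theorem near_shift (s' : ℕ) (z' : Pos d) :
    (envT q (η' q η l z s) (l' q l z s)).near s' z' + z = (envT q η l).near (s + s') (z' + z) := by
  have h1 : {v : Pos d | (envT q (η' q η l z s) (l' q l z s)).occ s' (z' + v)} =
      {v : Pos d | (envT q η l).occ (s + s') (z' + z + v)} := by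
    ext v
    show (envT q (η' q η l z s) (l' q l z s)).occ s' (z' + v) ↔ (envT q η l).occ (s + s') (z' + z + v)
    rw [occ_shift]
    have : z' + v + z = z' + z + v := by abel
    rw [this]
  unfold Env.near
  by_cases h : {v : Pos d | (envT q η l).occ (s + s') (z' + z + v)}.Nonempty
  · have h' : {v : Pos d | (envT q (η' q η l z s) (l' q l z s)).occ s' (z' + v)}.Nonempty := by
      rw [h1]; exact h
    rw [dif_pos h, dif_pos h']
    have h2 : Function.argminOn rk {v | (envT q (η' q η l z s) (l' q l z s)).occ s' (z' + v)} h' =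
        Function.argminOn rk {v | (envT q η l).occ (s + s') (z' + z + v)} h := by
      congr 1
    rw [h2]
    abel
  · have h' : ¬ {v : Pos d | (envT q (η' q η l z s) (l' q l z s)).occ s' (z' + v)}.Nonempty := by
      rw [h1]; exact h
    rw [dif_neg h, dif_neg h']

theorem W_shift (P : BP) (u : Fin d → ℝ) (z' : Pos d) (s' t' : ℕ) (y : Pos d) :
    y ∈ (envT q (η' q η l z s) (l' q l z s)).W P u z' s' t' ↔
      y + z ∈ (envT q η l).W P u (z' + z) (s + s') (s + t') := by
  have hw : wall P u z' s' = fun t => {y | y + z ∈ wall P u (z' + z) (s + s') (s + t)} := by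
    funext t
    ext w
    unfold wall
    show (-(P.mg : ℝ) + ((t : ℝ) - s') / (16 * P.κ) ≤ lev u (w - z') ∧ supn (w - z') ≤ P.Dw) ↔
      (-(P.mg : ℝ) + (((s + t : ℕ) : ℝ) - ((s + s' : ℕ) : ℝ)) / (16 * P.κ) ≤
        lev u (w + z - (z' + z)) ∧ supn (w + z - (z' + z)) ≤ P.Dw)
    have h1 : w + z - (z' + z) = w - z' := by abel
    have h2 : ((s + t : ℕ) : ℝ) - ((s + s' : ℕ) : ℝ) = (t : ℝ) - s' := by push_cast; ring
    rw [h1, h2]
  show (envT q (η' q η l z s) (l' q l z s)).R (wall P u z' s') s'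
      ((envT q (η' q η l z s) (l' q l z s)).near s' z') t' y ↔
    (envT q η l).R (wall P u (z' + z) (s + s')) (s + s') ((envT q η l).near (s + s') (z' + z))
      (s + t') (y + z)
  rw [hw, R_shift, near_shift]

theorem bh_shift (P : BP) (u : Fin d → ℝ) (k : ℕ) (z' : Pos d) (s' : ℕ) :
    (envT q (η' q η l z s) (l' q l z s)).bh P u k z' s' =
      (envT q η l).bh P u k (z' + z) (s + s') := by
  unfold Env.bh
  congr 1
  ext h
  constructor
  · rintro ⟨y, hy, hk⟩
    refine ⟨y + z, ?_, ?_⟩
    · rw [Nat.add_assoc]; exact (W_shift q η l z s P u z' s' (s' + h) y).mp hy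
    · have : y + z - (z' + z) = y - z' := by abel
      rw [this]; exact hk
  · rintro ⟨y, hy, hk⟩
    refine ⟨y - z, ?_, ?_⟩
    · rw [W_shift]
      have : y - z + z = y := by abel
      rw [this, ← Nat.add_assoc]
      exact hy
    · have : y - z - z' = y - (z' + z) := by abel
      rw [this]; exact hk

theorem bx_shift (P : BP) (u : Fin d → ℝ) (k : ℕ) (z' : Pos d) (s' : ℕ) :
    (envT q (η' q η l z s) (l' q l z s)).bx P u k z' s' =
      (envT q η l).bx P u k (z' + z) (s + s') := by
  have h1 : {v : Pos d | z' + v ∈ (envT q (η' q η l z s) (l' q l z s)).W P u z' s'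
        (s' + (envT q (η' q η l z s) (l' q l z s)).bh P u k z' s') ∧ (k : ℝ) ≤ lev u v} =
      {v : Pos d | z' + z + v ∈ (envT q η l).W P u (z' + z) (s + s')
        (s + s' + (envT q η l).bh P u k (z' + z) (s + s')) ∧ (k : ℝ) ≤ lev u v} := by
    ext v
    have h2 : z' + v + z = z' + z + v := by abel
    constructor
    · rintro ⟨h3, h4⟩
      refine ⟨?_, h4⟩
      rw [W_shift, bh_shift, h2, ← Nat.add_assoc] at h3
      exact h3
    · rintro ⟨h3, h4⟩
      refine ⟨?_, h4⟩
      rw [W_shift, bh_shift, h2, ← Nat.add_assoc]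
      exact h3
  unfold Env.bx
  by_cases h : {v : Pos d | z' + z + v ∈ (envT q η l).W P u (z' + z) (s + s')
        (s + s' + (envT q η l).bh P u k (z' + z) (s + s')) ∧ (k : ℝ) ≤ lev u v}.Nonempty
  · have h' : {v : Pos d | z' + v ∈ (envT q (η' q η l z s) (l' q l z s)).W P u z' s'
        (s' + (envT q (η' q η l z s) (l' q l z s)).bh P u k z' s') ∧ (k : ℝ) ≤ lev u v}.Nonempty := by
      rw [h1]; exact h
    rw [dif_pos h, dif_pos h']
    congr 1
  · have h' : ¬ {v : Pos d | z' + v ∈ (envT q (η' q η l z s) (l' q l z s)).W P u z' s'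
        (s' + (envT q (η' q η l z s) (l' q l z s)).bh P u k z' s') ∧ (k : ℝ) ≤ lev u v}.Nonempty := by
      rw [h1]; exact h
    rw [dif_neg h, dif_neg h']

theorem blk_shift (P : BP) (u : Fin d → ℝ) (k : ℕ) (z' : Pos d) (s' : ℕ) :
    (envT q (η' q η l z s) (l' q l z s)).blk P u k z' s' =
      (envT q η l).blk P u k (z' + z) (s + s') := by
  unfold Env.blk
  rw [bh_shift, bx_shift]

theorem chain_shift' (P : BP) (u : Fin d → ℝ) (ms : List ℕ) (z' : Pos d) (s' : ℕ) :
    (envT q (η' q η l z s) (l' q l z s)).chain P u ms z' s' =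
      (envT q η l).chain P u ms (z' + z) (s + s') := by
  induction ms generalizing z' s' with
  | nil => rfl
  | cons k ms ih =>
    show (envT q (η' q η l z s) (l' q l z s)).blk P u k z' s' ::
        (envT q (η' q η l z s) (l' q l z s)).chain P u ms
          (z' + ((envT q (η' q η l z s) (l' q l z s)).blk P u k z' s').2 + v0 P u)
          (s' + ((envT q (η' q η l z s) (l' q l z s)).blk P u k z' s').1 + P.Δ) =
      (envT q η l).blk P u k (z' + z) (s + s') ::
        (envT q η l).chain P u ms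
          (z' + z + ((envT q η l).blk P u k (z' + z) (s + s')).2 + v0 P u)
          (s + s' + ((envT q η l).blk P u k (z' + z) (s + s')).1 + P.Δ)
    rw [ih, blk_shift]
    congr 2
    · abel
    · omega

end shift

end ZI.E4

namespace ZI.Rows

open ZI ZI.Rows.D1

variable {d : ℕ} {m : Model}

theorem chain_shift (q : Par d m) (η : Tor d q.M → ℕ) (l : List (Let d q.M q.K)) (P : BP)
    (u : Fin d → ℝ) (ms : List ℕ) (z : Pos d) (s : ℕ) :
    (envT q η l).chain P u ms z s =
      (envT q (fun x => (l.take (s * q.N1)).foldl stepA η (x + tv z))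
        ((l.drop (s * q.N1)).map (shL (-(tv z))))).chain P u ms 0 0 := by
  have h := E4.chain_shift' q η l z s P u ms 0 0
  rw [zero_add, Nat.add_zero] at h
  exact h.symm

/-- words that agree up to the time `T` -/
theorem agree_take (q : Par d m) (η : Tor d q.M → ℕ) (l : List (Let d q.M q.K)) (T : ℕ)
    (Γ : ℕ → Set (Pos d)) : AgreeW (envT q η l) (envT q η (l.take (T * q.N1))) Γ T where
  occ t ht x _ := by
    show 0 < cfg nbT η (units q.N1 l) t (tv x) ↔
      0 < cfg nbT η (units q.N1 (l.take (T * q.N1))) t (tv x)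
    rw [E4.cfg_congr nbT η (fun t ht => E4.units_take q.N1 l T t ht) t ht]
  R G _ s t x y ht := by
    constructor
    · rintro ⟨j, rfl, hy⟩
      refine ⟨j, rfl, ?_⟩
      show y ∈ inf nbT tv η (units q.N1 (l.take (T * q.N1))) G s {x} j
      rw [← E4.inf_congr nbT tv η (fun t ht => E4.units_take q.N1 l T t ht) G s {x} j ht]
      exact hy
    · rintro ⟨j, rfl, hy⟩
      refine ⟨j, rfl, ?_⟩
      show y ∈ inf nbT tv η (units q.N1 l) G s {x} j
      rw [E4.inf_congr nbT tv η (fun t ht => E4.units_take q.N1 l T t ht) G s {x} j ht]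
      exact hy

/-- the letters after `N` do not matter -/
theorem EE_take (q : Par d m) (hd : 0 < d) (N M : ℕ)
    (F : (Tor d q.M → ℕ) → List (Let d q.M q.K) → ℝ≥0∞) :
    q.EE (N + M) (fun η l => F η (l.take N)) = q.EE N F := by
  unfold Par.EE
  refine tsum_congr fun η => ?_
  congr 1
  rw [R2aux.EvE_take_drop q.w M N (fun l _ => F η l)]
  exact EvE_congr q.w N (fun l _ => R2aux.EvE_const q.w (sum_w q hd) _ M)

theorem start_inv {Cv a A r0 : ℕ} {c : ℝ} (hB : Base m d Cv a A r0 c) : ∃ r1 ≥ r0, ∀ r ≥ r1, ∀ n : ℕ,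
    r ^ A ≤ n → n ≤ (2 * r) ^ A → ∀ q : Par d m, q.M = n ^ 4 →
    ∀ (u : Fin d → ℝ), ∑ j, u j ^ 2 = 1 → ∀ ms : List ℕ, (∀ m' ∈ ms, r ^ (7 * a) ≤ m') →
    ms.sum ≤ r * n → ∀ (z : Pos d) (s : ℕ), 2 * s ≤ n ^ 2 → ∀ G : List (ℕ × Pos d) → Prop,
    q.PP (n ^ 2 * q.N1) (fun η l => G ((envT q η l).chain (bp d a r n) u ms z s)) ≤
      q.PP (n ^ 2 * q.N1) (fun η l => G ((envT q η l).chain (bp d a r n) u ms 0 0)) +
        ENNReal.ofReal (Real.exp (- c * r)) := by
  obtain ⟨r1, hr1, hchain⟩ := chain_eq hB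
  refine ⟨r1, hr1, ?_⟩
  intro r hr n hn hn2 q hM u hu ms hms hsum z s hs G
  have hr0 : r0 ≤ r := le_trans hr1 hr
  have hr10 : 10 ≤ r := le_trans hB.r0_big hr0
  set P := bp d a r n with hP
  set F : (Tor d q.M → ℕ) → List (Let d q.M q.K) → ℝ≥0∞ :=
    fun η l => if G ((envT q η l).chain P u ms 0 0) then 1 else 0 with hF
  obtain ⟨T, hT⟩ : ∃ T, n ^ 2 = s + T := ⟨n ^ 2 - s, by omega⟩
  have e1 : q.PP (n ^ 2 * q.N1) (fun η l => G ((envT q η l).chain P u ms z s)) =
      q.EE (T * q.N1) F := by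
    unfold Par.PP
    have h1 : (fun (η : Tor d q.M → ℕ) (l : List (Let d q.M q.K)) =>
        (if G ((envT q η l).chain P u ms z s) then (1 : ℝ≥0∞) else 0)) =
        fun η l => (fun (η : Tor d q.M → ℕ) (l : List (Let d q.M q.K)) =>
          F (fun x => η (x - -(tv z))) (l.map (shL (-(tv z)))))
          ((l.take (s * q.N1)).foldl stepA η) (l.drop (s * q.N1)) := by
      funext η l
      simp only [hF, sub_neg_eq_add]
      rw [chain_shift]
    rw [h1, hT, Nat.add_mul]
    exact (stationary q hB.d_pos (s * q.N1) (T * q.N1)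
      (fun (η : Tor d q.M → ℕ) (l : List (Let d q.M q.K)) =>
          F (fun x => η (x - -(tv z))) (l.map (shL (-(tv z)))))).trans
      (translation q (-(tv z)) (T * q.N1) F)
  have e2 : q.EE (T * q.N1) F = q.EE (n ^ 2 * q.N1) (fun η l => F η (l.take (T * q.N1))) := by
    rw [hT, Nat.add_comm s T, Nat.add_mul, EE_take q hB.d_pos]
  have hT2 : r ^ (2 * a) * ms.sum ≤ T := by
    have h2 : r ^ (2 * a + 2) ≤ n := by
      refine le_trans (Nat.pow_le_pow_right (by omega) ?_) hn
      have := hB.A_big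
      have := hB.a_big
      omega
    have h3 : 2 * (r ^ (2 * a) * ms.sum) ≤ n ^ 2 := by
      calc 2 * (r ^ (2 * a) * ms.sum) ≤ r * (r ^ (2 * a) * (r * n)) :=
            Nat.mul_le_mul (by omega) (Nat.mul_le_mul_left _ hsum)
        _ = r ^ (2 * a + 2) * n := by ring
        _ ≤ n * n := Nat.mul_le_mul_right _ h2
        _ = n ^ 2 := by ring
    omega
  rw [e1, e2]
  have hle : q.EE (n ^ 2 * q.N1) (fun η l => F η (l.take (T * q.N1))) ≤
      q.EE (n ^ 2 * q.N1) (fun η l => F η l +
        (if ¬ (envT q η l).Good r (r ^ a) (r ^ a) Cv (n ^ 2) (n ^ 2) then 1 else 0)) := by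
    refine C5.EE_mono q _ fun η l => ?_
    by_cases hg : (envT q η l).Good r (r ^ a) (r ^ a) Cv (n ^ 2) (n ^ 2)
    · refine le_trans (le_of_eq ?_) le_self_add
      simp only [hF]
      rw [hchain r hr n hn (envT q η l) (envT q η (l.take (T * q.N1))) hg u hu ms hms hsum 0 0 T
        (-(2 * P.mg : ℝ)) (by omega) (by simp [supn]) (by simp [lev, ← hP]) (by omega) (by omega)
        (agree_take q η l T _)]
    · rw [if_pos hg]
      refine le_trans ?_ le_add_self
      simp only [hF]
      split_ifs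
      · exact le_rfl
      · exact zero_le
  refine le_trans hle ?_
  rw [C5.EE_add]
  refine add_le_add le_rfl ?_
  refine le_trans ?_ (hB.good r hr0 n hn hn2 q hM)
  unfold Par.PP
  refine C5.EE_mono q _ fun η l => ?_
  by_cases hg : (envT q η l).Good r (r ^ a) (r ^ a) Cv (n ^ 2) (n ^ 2)
  · rw [if_neg (not_not_intro hg)]
    exact zero_le
  · rw [if_pos hg, if_pos hg]

end ZI.Rows
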