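import Pool.Agent.ZI.Dec
import Pool.Agent.ZI.D1
import Pool.Agent.ZI.C5

/-! # Row E1: the infection is a function of the path of configurations -/

set_option autoImplicit false

open scoped ENNReal BigOperators Classical

noncomputable section

namespace ZI.E1

open ZI ZI.R2aux ZI.Rows.D1

variable {d : ℕ}

/-! ### directions on the torus -/

theorem tv_dv_inj {M : ℕ} (hM : 3 ≤ M) {e e' : Dir d}
    (h : (tv (dv e) : Tor d M) = tv (dv e')) : e = e' := by
  have h1 : ((dv e e.1 : ℤ) : ZMod M) = ((dv e' e.1 : ℤ) : ZMod M) := congrFun h e.1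
  have hne1 : ((1 : ℤ) : ZMod M) ≠ 0 := by
    rw [Ne, ZMod.intCast_zmod_eq_zero_iff_dvd]
    intro hd
    have := Int.le_of_dvd (by norm_num) hd
    omega
  have hne2 : ((2 : ℤ) : ZMod M) ≠ 0 := by
    rw [Ne, ZMod.intCast_zmod_eq_zero_iff_dvd]
    intro hd
    have := Int.le_of_dvd (by norm_num) hd
    omega
  have hev : dv e e.1 = if e.2 then 1 else -1 := by
    unfold dv
    rw [Pi.single_eq_same]
  by_cases he : e.1 = e'.1
  · have hev' : dv e' e.1 = if e'.2 then 1 else -1 := by
      unfold dv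
      rw [he, Pi.single_eq_same]
    rw [hev, hev'] at h1
    refine Prod.ext he ?_
    cases h2 : e.2 <;> cases h3 : e'.2
    · rfl
    · exfalso
      rw [h2, h3] at h1
      apply hne2
      have h4 : ((-1 : ℤ) : ZMod M) = ((1 : ℤ) : ZMod M) := by simpa using h1
      have h5 : ((2 : ℤ) : ZMod M) = ((1 : ℤ) : ZMod M) - ((-1 : ℤ) : ZMod M) := by
        push_cast
        ring
      rw [h5, h4, sub_self]
    · exfalso
      rw [h2, h3] at h1
      apply hne2
      have h4 : ((1 : ℤ) : ZMod M) = ((-1 : ℤ) : ZMod M) := by simpa using h1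
      have h5 : ((2 : ℤ) : ZMod M) = ((1 : ℤ) : ZMod M) - ((-1 : ℤ) : ZMod M) := by
        push_cast
        ring
      rw [h5, ← h4, sub_self]
    · rfl
  · exfalso
    have hev' : dv e' e.1 = 0 := by
      unfold dv
      rw [Pi.single_eq_of_ne he]
    rw [hev, hev'] at h1
    split_ifs at h1
    · exact hne1 (by simpa using h1)
    · apply hne1
      have h4 : ((-1 : ℤ) : ZMod M) = 0 := by simpa using h1
      have h5 : ((1 : ℤ) : ZMod M) = - ((-1 : ℤ) : ZMod M) := by
        push_cast
        ring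
      rw [h5, h4, neg_zero]

/-- a jump changes the configuration -/
theorem mv_ne {M : ℕ} (hM : 2 ≤ M) (η : Tor d M → ℕ) (b : Lab (Tor d M) d)
    (h : b.2.1 < η b.1) : mv nbT η b ≠ η := by
  intro h1
  have hx : 0 < η b.1 := lt_of_le_of_lt (Nat.zero_le _) h
  obtain ⟨h2, -, -⟩ := C5.jump_vals hM η b.1 b.2.2 hx
  rw [← C5.mv_add η b h, h1] at h2
  omega

theorem canL_none {M K : ℕ} (hM : 2 ≤ M) (η : Tor d M → ℕ) :
    (canL η η : Let d M K) = none := by
  unfold canL
  rw [dif_neg]
  rintro ⟨b, -, h1, h2⟩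
  exact mv_ne hM η (b.1, 0, b.2.2) h1 h2.symm

theorem canL_some {M K : ℕ} (hM : 3 ≤ M) (hK : 0 < K) (η : Tor d M → ℕ)
    (b : Lab (Tor d M) d) (h : b.2.1 < η b.1) :
    toLab (canL η (mv nbT η b) : Let d M K) = some (b.1, 0, b.2.2) := by
  have hM2 : 2 ≤ M := by omega
  have hx : 0 < η b.1 := lt_of_le_of_lt (Nat.zero_le _) h
  have hmv : mv nbT η b = mv nbT η (b.1, 0, b.2.2) := by
    rw [C5.mv_add η b h, C5.mv_add η (b.1, 0, b.2.2) hx]
  have hex : ∃ c : Tor d M × Fin K × Dir d, (c.2.1 : ℕ) = 0 ∧ 0 < η c.1 ∧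
      mv nbT η b = mv nbT η (c.1, 0, c.2.2) := ⟨(b.1, ⟨0, hK⟩, b.2.2), rfl, hx, hmv⟩
  unfold canL
  rw [dif_pos hex]
  set c := hex.choose with hc
  obtain ⟨h1, h2, h3⟩ := hex.choose_spec
  rw [← hc] at h1 h2 h3
  obtain ⟨a1, a2, a3⟩ := C5.jump_vals hM2 η b.1 b.2.2 hx
  obtain ⟨c1, c2, c3⟩ := C5.jump_vals hM2 η c.1 c.2.2 h2
  rw [C5.mv_add η b h, C5.mv_add η (c.1, 0, c.2.2) h2] at h3
  change add (rem η b.1) (b.1 + tv (dv b.2.2)) = add (rem η c.1) (c.1 + tv (dv c.2.2)) at h3
  rw [← h3] at c1 c2 c3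
  have hneb : b.1 + tv (dv b.2.2) ≠ b.1 := Rows.add_tv_ne hM2 b.1 b.2.2
  have hnec : c.1 + tv (dv c.2.2) ≠ c.1 := Rows.add_tv_ne hM2 c.1 c.2.2
  have e1 : b.1 = c.1 := by
    by_contra hne
    by_cases h4 : b.1 = c.1 + tv (dv c.2.2)
    · rw [← h4] at c2
      omega
    · have := c3 b.1 hne h4
      omega
  have e2 : b.1 + tv (dv b.2.2) = c.1 + tv (dv c.2.2) := by
    by_contra hne
    have h4 : b.1 + tv (dv b.2.2) ≠ c.1 := by rw [← e1]; exact hneb
    have := c3 _ h4 hne
    omega
  have e3 : b.2.2 = c.2.2 := by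
    rw [e1] at e2
    exact tv_dv_inj hM (add_left_cancel e2)
  change some (c.1, (c.2.1 : ℕ), c.2.2) = some (b.1, 0, b.2.2)
  rw [h1, ← e1, ← e3]

/-! ### one letter -/

theorem stepRA_none {M K : ℕ} (G : Set (Pos d)) (s : (Tor d M → ℕ) × Set (Pos d))
    (a : Let d M K) (h : toLab a = none) : stepRA G s a = s := by
  unfold stepRA
  rw [h]

theorem stepRA_some {M K : ℕ} (G : Set (Pos d)) (s : (Tor d M → ℕ) × Set (Pos d))
    (a : Let d M K) (b : Lab (Tor d M) d) (h : toLab a = some b) :
    stepRA G s a = stepR nbT tv G s b := by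
  unfold stepRA
  rw [h]

theorem stepRA_can {M K : ℕ} (hM : 3 ≤ M) (hK : 0 < K) (G A : Set (Pos d))
    (η : Tor d M → ℕ) (a : Let d M K) (hA : A ⊆ G) :
    stepRA G (η, A) (canL η (stepA η a) : Let d M K) = stepRA G (η, A) a := by
  have hM2 : 2 ≤ M := by omega
  cases h : toLab a with
  | none =>
    rw [C5.stepA_none _ _ h, canL_none hM2, stepRA_none _ _ a h]
    exact stepRA_none _ _ _ rfl
  | some b =>
    by_cases hk : b.2.1 < η b.1
    · rw [C5.stepA_some _ _ b h, stepRA_some _ _ a b h,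
        stepRA_some _ _ _ _ (canL_some hM hK η b hk)]
      have hx : 0 < η b.1 := lt_of_le_of_lt (Nat.zero_le _) hk
      unfold stepR
      refine Prod.ext ?_ ?_
      · change mv nbT η (b.1, 0, b.2.2) = mv nbT η b
        rw [C5.mv_add η b hk, C5.mv_add η (b.1, 0, b.2.2) hx]
      · change infMv nbT tv η A (b.1, 0, b.2.2) ∩ G = infMv nbT tv η A b ∩ G
        have h1 : infMv nbT tv η A (b.1, 0, b.2.2) = infMv nbT tv η A b := by
          unfold infMv
          rw [if_pos hk, if_pos hx]
        rw [h1]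
    · rw [C5.stepA_some _ _ b h, C5.mv_stay _ _ hk, canL_none hM2, stepRA_some _ _ a b h,
        stepRA_none _ _ _ rfl]
      unfold stepR
      refine Prod.ext ?_ ?_
      · exact (C5.mv_stay η b hk).symm
      · change A = infMv nbT tv η A b ∩ G
        unfold infMv
        rw [if_neg hk, Set.inter_eq_left.2 hA]

/-! ### the canonical word -/

/-- the canonical word of the path of a word -/
def cw {M K : ℕ} : (Tor d M → ℕ) → List (Let d M K) → List (Let d M K)
  | _, [] => []
  | η, a :: w => canL η (stepA η a) :: cw (stepA η a) w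

theorem canP_path {M K : ℕ} (w : List (Let d M K)) : ∀ η : Tor d M → ℕ,
    (canP (path η w) : List (Let d M K)) = cw η w := by
  induction w with
  | nil => exact fun η => rfl
  | cons a w ih =>
    intro η
    obtain ⟨L, hL⟩ := C5.path_head (stepA η a) w
    have h1 := ih (stepA η a)
    rw [path, hL]
    rw [hL] at h1
    change canL η (stepA η a) :: canP (stepA η a :: L) = _
    rw [h1]
    rfl

theorem cw_length {M K : ℕ} (w : List (Let d M K)) : ∀ η : Tor d M → ℕ,
    (cw η w).length = w.length := by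
  induction w with
  | nil => exact fun η => rfl
  | cons a w ih =>
    intro η
    rw [cw, List.length_cons, List.length_cons, ih]

theorem cw_take {M K : ℕ} (w : List (Let d M K)) : ∀ (k : ℕ) (η : Tor d M → ℕ),
    (cw η w).take k = cw η (w.take k) := by
  induction w with
  | nil =>
    intro k η
    rw [List.take_nil]
    exact List.take_nil
  | cons a w ih =>
    intro k η
    cases k with
    | zero => rfl
    | succ k =>
      rw [cw, List.take_succ_cons, List.take_succ_cons, ih]
      rfl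

theorem cw_drop {M K : ℕ} (w : List (Let d M K)) : ∀ (k : ℕ) (η : Tor d M → ℕ),
    (cw η w).drop k = cw ((w.take k).foldl stepA η) (w.drop k) := by
  induction w with
  | nil =>
    intro k η
    rw [List.take_nil, List.drop_nil]
    exact List.drop_nil
  | cons a w ih =>
    intro k η
    cases k with
    | zero => rfl
    | succ k =>
      rw [cw, List.drop_succ_cons, List.take_succ_cons, List.drop_succ_cons, ih]
      rfl

theorem cw_fold {M K : ℕ} (hM : 3 ≤ M) (hK : 0 < K) (G : Set (Pos d)) (w : List (Let d M K)) :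
    ∀ (η : Tor d M → ℕ) (A : Set (Pos d)), A ⊆ G →
      (cw η w).foldl (stepRA G) (η, A) = w.foldl (stepRA G) (η, A) := by
  induction w with
  | nil => exact fun η A _ => rfl
  | cons a w ih =>
    intro η A hA
    rw [cw, List.foldl_cons, List.foldl_cons, stepRA_can hM hK G A η a hA]
    have h1 : stepRA G (η, A) a = (stepA η a, (stepRA G (η, A) a).2) :=
      Prod.ext (stepRA_fst G (η, A) a) rfl
    have h2 : (stepRA G (η, A) a).2 ⊆ G := foldl_stepRA_sub G [a] (η, A) hA
    rw [h1]
    exact ih _ _ h2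

theorem cw_foldA {M K : ℕ} (hM : 3 ≤ M) (hK : 0 < K) (w : List (Let d M K))
    (η : Tor d M → ℕ) : (cw η w).foldl stepA η = w.foldl stepA η := by
  have h := congrArg Prod.fst (cw_fold hM hK Set.univ w η ∅ (Set.empty_subset _))
  rw [foldl_stepRA_fst, foldl_stepRA_fst] at h
  exact h

/-! ### visits along letters -/

theorem vis_letters {M K : ℕ} (G : Set (Pos d)) (L : List (Let d M K))
    (s : (Tor d M → ℕ) × Set (Pos d)) (z : Pos d) :
    (∃ i ≤ (L.filterMap toLab).length,
      z ∈ (((L.filterMap toLab).take i).foldl (stepR nbT tv G) s).2) ↔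
    ∃ i ≤ L.length, z ∈ ((L.take i).foldl (stepRA G) s).2 := by
  constructor
  · rintro ⟨i, hi, hz⟩
    obtain ⟨i', hi', htake⟩ := C5.take_filterMap toLab L i hi
    rw [htake, foldl_filterMap] at hz
    exact ⟨i', hi', hz⟩
  · rintro ⟨i, hi, hz⟩
    refine ⟨((L.take i).filterMap toLab).length, ?_, ?_⟩
    · conv_rhs => rw [← List.take_append_drop i L, List.filterMap_append, List.length_append]
      exact Nat.le_add_right _ _
    · have h1 : (L.filterMap toLab).take ((L.take i).filterMap toLab).length =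
          (L.take i).filterMap toLab := by
        conv_lhs => rw [← List.take_append_drop i L, List.filterMap_append]
        rw [List.take_append_drop i L]
        exact List.take_left
      rw [h1, foldl_filterMap]
      exact hz

/-! ### words with the same letters up to ineffective rings -/

section env

variable {m : Model} (q : Par d m)

theorem envT_cw (η : Tor d q.M → ℕ) (w : List (Let d q.M q.K)) :
    EqEnv (envT q η w) (envT q η (cw η w)) := by
  have hM : 3 ≤ q.M := by have := q.M_ge; omega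
  have hK : 0 < q.K := by have := q.K_ge; omega
  have hcfg : ∀ t, cfg nbT η (units q.N1 (cw η w)) t = cfg nbT η (units q.N1 w) t := by
    intro t
    rw [cfg_eq, cfg_eq, cw_take, cw_foldA hM hK]
  have hblk : ∀ t, ((cw η w).drop (t * q.N1)).take q.N1 =
      cw (cfg nbT η (units q.N1 w) t) ((w.drop (t * q.N1)).take q.N1) := by
    intro t
    rw [cw_drop, cw_take, cfg_eq]
  have hinf : ∀ (G : ℕ → Set (Pos d)) (s : ℕ) (A : Set (Pos d)) (j : ℕ),
      inf nbT tv η (units q.N1 w) G s A j = inf nbT tv η (units q.N1 (cw η w)) G s A j := by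
    intro G s A j
    induction j with
    | zero =>
      change {z | z ∈ A ∧ z ∈ G s ∧ 0 < cfg nbT η (units q.N1 w) s (tv z)} =
        {z | z ∈ A ∧ z ∈ G s ∧ 0 < cfg nbT η (units q.N1 (cw η w)) s (tv z)}
      rw [hcfg]
    | succ j ih =>
      change ((units q.N1 w (s + j)).foldl (stepR nbT tv (G (s + j)))
        (cfg nbT η (units q.N1 w) (s + j), inf nbT tv η (units q.N1 w) G s A j ∩ G (s + j))).2 =
        ((units q.N1 (cw η w) (s + j)).foldl (stepR nbT tv (G (s + j)))
        (cfg nbT η (units q.N1 (cw η w)) (s + j),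
          inf nbT tv η (units q.N1 (cw η w)) G s A j ∩ G (s + j))).2
      rw [← ih, hcfg]
      have h1 : units q.N1 (cw η w) (s + j) =
        (cw (cfg nbT η (units q.N1 w) (s + j))
          ((w.drop ((s + j) * q.N1)).take q.N1)).filterMap toLab := by
        rw [← hblk]
        rfl
      have h2 : units q.N1 w (s + j) = ((w.drop ((s + j) * q.N1)).take q.N1).filterMap toLab :=
        rfl
      rw [h1, h2, foldl_filterMap, foldl_filterMap, cw_fold hM hK _ _ _ _ Set.inter_subset_right]
  refine ⟨fun t x => ?_, hinf, fun G s A j => ?_⟩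
  · change 0 < cfg nbT η (units q.N1 w) t (tv x) ↔
      0 < cfg nbT η (units q.N1 (cw η w)) t (tv x)
    rw [hcfg]
  · change {z | ∃ i ≤ (units q.N1 w (s + j)).length, z ∈ (((units q.N1 w (s + j)).take i).foldl
        (stepR nbT tv (G (s + j))) (cfg nbT η (units q.N1 w) (s + j),
          inf nbT tv η (units q.N1 w) G s A j ∩ G (s + j))).2} =
      {z | ∃ i ≤ (units q.N1 (cw η w) (s + j)).length,
        z ∈ (((units q.N1 (cw η w) (s + j)).take i).foldl
        (stepR nbT tv (G (s + j))) (cfg nbT η (units q.N1 (cw η w)) (s + j),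
          inf nbT tv η (units q.N1 (cw η w)) G s A j ∩ G (s + j))).2}
    rw [← hinf, hcfg]
    have h1 : units q.N1 (cw η w) (s + j) =
      (cw (cfg nbT η (units q.N1 w) (s + j))
        ((w.drop ((s + j) * q.N1)).take q.N1)).filterMap toLab := by
      rw [← hblk]
      rfl
    have h2 : units q.N1 w (s + j) = ((w.drop ((s + j) * q.N1)).take q.N1).filterMap toLab :=
      rfl
    rw [h1, h2]
    ext z
    change (∃ i ≤ _, z ∈ _) ↔ (∃ i ≤ _, z ∈ _)
    rw [vis_letters, vis_letters, cw_length]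
    constructor
    · rintro ⟨i, hi, hz⟩
      refine ⟨i, hi, ?_⟩
      rw [cw_take, cw_fold hM hK _ _ _ _ Set.inter_subset_right]
      exact hz
    · rintro ⟨i, hi, hz⟩
      refine ⟨i, hi, ?_⟩
      rw [cw_take, cw_fold hM hK _ _ _ _ Set.inter_subset_right] at hz
      exact hz

end env

/-! ### nearest points of sets -/

/-- `near` as a function of the set -/
def nearF (S : Set (Pos d)) (z : Pos d) : Pos d :=
  if h : S.Nonempty then z + Function.argminOn rk S h else z

/-- the displacement as a function of the set -/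
def bxF (S : Set (Pos d)) : Pos d :=
  if h : S.Nonempty then Function.argminOn rk S h else 0

theorem near_eq (E : Env d) (s : ℕ) (z : Pos d) :
    E.near s z = nearF {v | E.occ s (z + v)} z := rfl

theorem bx_eq (E : Env d) (P : BP) (u : Fin d → ℝ) (m : ℕ) (z : Pos d) (s : ℕ) :
    E.bx P u m z s = bxF {v : Pos d | z + v ∈ E.W P u z s (s + E.bh P u m z s) ∧
      (m : ℝ) ≤ lev u v} := rfl

end ZI.E1

namespace ZI.Rows

open ZI ZI.R2aux

variable {d : ℕ} {m : Model}

section E1

variable (q : Par d m)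

theorem pe_path (η : Tor d q.M → ℕ) (w : List (Let d q.M q.K)) :
    EqEnv (envT q η w) (pe q (path η w)) := by
  have h1 : pe q (path η w) = envT q η (E1.cw η w) := by
    unfold pe
    rw [E1.canP_path]
    obtain ⟨L, hL⟩ := C5.path_head η w
    rw [hL]
    rfl
  rw [h1]
  exact E1.envT_cw q η w

theorem isPath_reverse (p : List (Tor d q.M → ℕ)) (hp : IsPath q p) : IsPath q p.reverse := by
  have hM : 2 ≤ q.M := by have := q.M_ge; omega
  have hK : 0 < q.K := by have := q.K_ge; omega
  obtain ⟨η, w, rfl⟩ := hp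
  induction w generalizing η with
  | nil => exact ⟨η, [], rfl⟩
  | cons a w ih =>
    obtain ⟨η', w', h'⟩ := ih (stepA η a)
    obtain ⟨L, hL⟩ := C5.path_head (stepA η a) w
    obtain ⟨L', hL'⟩ := C5.path_rev_head η' w'
    have hlast : w'.foldl stepA η' = stepA η a := by
      have h1 : (path η' w').reverse = path (stepA η a) w := by
        rw [← h', List.reverse_reverse]
      rw [hL', hL] at h1
      exact (List.cons.inj h1).1
    obtain ⟨a', ha'⟩ : ∃ a' : Let d q.M q.K, stepA (stepA η a) a' = η := by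
      cases h : toLab a with
      | none => exact ⟨none, by rw [C5.stepA_none _ a h]; rfl⟩
      | some b =>
        by_cases hk : b.2.1 < η b.1
        · refine ⟨some (b.1 + tv (dv b.2.2), ⟨0, hK⟩, ng b.2.2), ?_⟩
          rw [C5.stepA_some _ a b h, C5.mv_add η b hk]
          have hx : 0 < η b.1 := lt_of_le_of_lt (Nat.zero_le _) hk
          have hj := jump_imp q η _ b.1 b.2.2 ⟨hx, rfl⟩
          rw [C5.stepA_some _ _ (b.1 + tv (dv b.2.2), 0, ng b.2.2) rfl,
            C5.mv_add _ (b.1 + tv (dv b.2.2), 0, ng b.2.2) hj.1]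
          exact hj.2
        · refine ⟨none, ?_⟩
          rw [C5.stepA_some _ a b h, C5.mv_stay _ _ hk]
          rfl
    refine ⟨η', w' ++ [a'], ?_⟩
    rw [C5.path_snoc, hlast, ha', ← h', path, List.reverse_cons]

theorem EqEnv.symm {E E' : Env d} (h : EqEnv E E') : EqEnv E' E :=
  ⟨fun t x => (h.occ t x).symm, fun G s A j => (h.inf G s A j).symm,
    fun G s A j => (h.vis G s A j).symm⟩

theorem EqEnv.R {E E' : Env d} (h : EqEnv E E') (G : ℕ → Set (Pos d)) (s : ℕ) (x : Pos d) (t : ℕ)
    (y : Pos d) : E.R G s x t y ↔ E'.R G s x t y := by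
  unfold Env.R
  simp only [h.inf]

theorem EqEnv.near {E E' : Env d} (h : EqEnv E E') (s : ℕ) (z : Pos d) :
    E.near s z = E'.near s z := by
  rw [E1.near_eq, E1.near_eq]
  congr 1
  ext v
  exact h.occ s (z + v)

theorem EqEnv.W {E E' : Env d} (h : EqEnv E E') (P : BP) (u : Fin d → ℝ) (z : Pos d)
    (s t : ℕ) : E.W P u z s t = E'.W P u z s t := by
  unfold Env.W
  ext y
  change E.R _ _ _ _ _ ↔ E'.R _ _ _ _ _
  rw [EqEnv.R h, EqEnv.near h]

theorem EqEnv.bh {E E' : Env d} (h : EqEnv E E') (P : BP) (u : Fin d → ℝ) (m : ℕ) (z : Pos d)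
    (s : ℕ) : E.bh P u m z s = E'.bh P u m z s := by
  unfold Env.bh
  simp only [EqEnv.W h]

theorem EqEnv.bx {E E' : Env d} (h : EqEnv E E') (P : BP) (u : Fin d → ℝ) (m : ℕ) (z : Pos d)
    (s : ℕ) : E.bx P u m z s = E'.bx P u m z s := by
  rw [E1.bx_eq, E1.bx_eq, EqEnv.bh h, EqEnv.W h]

theorem EqEnv.blk' {E E' : Env d} (h : EqEnv E E') (P : BP) (u : Fin d → ℝ) (m : ℕ) (z : Pos d)
    (s : ℕ) : E.blk P u m z s = E'.blk P u m z s := by
  unfold Env.blk
  rw [EqEnv.bh h, EqEnv.bx h]

theorem EqEnv.chain {E E' : Env d} (h : EqEnv E E') (P : BP) (u : Fin d → ℝ) (ms : List ℕ) (z : Pos d)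
    (s : ℕ) : E.chain P u ms z s = E'.chain P u ms z s := by
  induction ms generalizing z s with
  | nil => rfl
  | cons m ms ih =>
    unfold Env.chain
    rw [EqEnv.blk' h, ih]

theorem EqEnv.pastEv_imp {E E' : Env d} (h : EqEnv E E') (P : BP) (u : Fin d → ℝ)
    (r Cv m : ℕ) (y : ℕ × Pos d) (hp : PastEv E P u r Cv m y) : PastEv E' P u r Cv m y := by
  refine ⟨?_, ?_, hp.lev_ge, ?_, ?_, ?_⟩
  · rw [← EqEnv.blk' h]
    exact hp.blk
  · rw [← EqEnv.W h]
    exact hp.att
  · rw [← EqEnv.near h]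
    exact (h.occ _ _).1 hp.near_occ
  · rw [← EqEnv.near h]
    exact hp.near_supn
  · intro t ht b hb
    rw [← EqEnv.near h, ← h.vis] at hb
    exact hp.conf t ht b hb

theorem EqEnv.pastEv {E E' : Env d} (h : EqEnv E E') (P : BP) (u : Fin d → ℝ) (r Cv m : ℕ)
    (y : ℕ × Pos d) : PastEv E P u r Cv m y ↔ PastEv E' P u r Cv m y :=
  ⟨EqEnv.pastEv_imp h P u r Cv m y, EqEnv.pastEv_imp (EqEnv.symm h) P u r Cv m y⟩

end E1

end ZI.Rows
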