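import Pool.Agent.ZI.ProcE
import Pool.Agent.ZI.R1
import Pool.Agent.ZI.R2

/-! # Row P2b: from the chain to the clocks -/

set_option autoImplicit false

open scoped ENNReal BigOperators Classical
open MeasureTheory

noncomputable section

namespace ZI.P2b

open ZI

variable {d : ℕ} {m : Model}

/-! ### ring lists -/

theorem sort_union_lt {α : Type} [LinearOrder α] (A B : Finset α)
    (h : ∀ a ∈ A, ∀ b ∈ B, a < b) :
    (A ∪ B).sort (· ≤ ·) = A.sort (· ≤ ·) ++ B.sort (· ≤ ·) := by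
  have hd : Disjoint A B := by
    rw [Finset.disjoint_left]
    intro a ha hb
    exact lt_irrefl _ (h a ha a hb)
  have hp : (A.sort (· ≤ ·) ++ B.sort (· ≤ ·)).Pairwise (· ≤ ·) := by
    rw [List.pairwise_append]
    refine ⟨Finset.pairwise_sort _ _, Finset.pairwise_sort _ _, fun a ha b hb => ?_⟩
    exact (h a ((Finset.mem_sort _).1 ha) b ((Finset.mem_sort _).1 hb)).le
  refine List.Perm.eq_of_pairwise (le := (· ≤ ·)) (fun a b _ _ h1 h2 => le_antisymm h1 h2)
    (Finset.pairwise_sort _ _) hp ?_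
  rw [List.perm_ext_iff_of_nodup (Finset.sort_nodup _ _)]
  · intro a
    simp
  · rw [List.nodup_append]
    refine ⟨Finset.sort_nodup _ _, Finset.sort_nodup _ _, fun a ha b hb hab => ?_⟩
    exact (h a ((Finset.mem_sort _).1 ha) b ((Finset.mem_sort _).1 hb)).ne hab

theorem ringSet_union (ring : Lab (Pos d) d → Set ℝ) (F : Finset (Lab (Pos d) d)) {a b c : ℝ}
    (hab : a ≤ b) (hbc : b ≤ c) : ringSet ring F a c = ringSet ring F a b ∪ ringSet ring F b c := by
  ext p
  simp only [ringSet, Set.mem_ofPred_eq, Set.mem_union]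
  constructor
  · rintro ⟨l, hl, s, hs, h1, h2, rfl⟩
    rcases le_or_gt s b with h | h
    · exact Or.inl ⟨l, hl, s, hs, h1, h, rfl⟩
    · exact Or.inr ⟨l, hl, s, hs, h, h2, rfl⟩
  · rintro (⟨l, hl, s, hs, h1, h2, rfl⟩ | ⟨l, hl, s, hs, h1, h2, rfl⟩)
    · exact ⟨l, hl, s, hs, h1, h2.trans hbc, rfl⟩
    · exact ⟨l, hl, s, hs, hab.trans_lt h1, h2, rfl⟩

theorem ringSet_finite (ring : Lab (Pos d) d → Set ℝ) (F : Finset (Lab (Pos d) d)) (a b : ℝ)
    (h : ∀ l ∈ F, (ring l ∩ Set.Ioc a b).Finite) : (ringSet ring F a b).Finite := by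
  have : ringSet ring F a b ⊆ ⋃ l ∈ F, (fun s : ℝ => toLex (s, Encodable.encode l)) ''
      (ring l ∩ Set.Ioc a b) := by
    rintro p ⟨l, hl, s, hs, h1, h2, rfl⟩
    simp only [Set.mem_iUnion]
    exact ⟨l, hl, s, ⟨hs, h1, h2⟩, rfl⟩
  refine Set.Finite.subset ?_ this
  exact Set.Finite.biUnion (Finset.finite_toSet F) (fun l hl => (h l hl).image _)

theorem ringList_append (ring : Lab (Pos d) d → Set ℝ) (F : Finset (Lab (Pos d) d)) {a b c : ℝ}
    (hab : a ≤ b) (hbc : b ≤ c) (h : ∀ l ∈ F, (ring l ∩ Set.Ioc a c).Finite) :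
    ringList ring F a c = ringList ring F a b ++ ringList ring F b c := by
  have h1 : (ringSet ring F a c).Finite := ringSet_finite ring F a c h
  have h2 : (ringSet ring F a b).Finite :=
    h1.subset (by rw [ringSet_union ring F hab hbc]; exact Set.subset_union_left)
  have h3 : (ringSet ring F b c).Finite :=
    h1.subset (by rw [ringSet_union ring F hab hbc]; exact Set.subset_union_right)
  unfold ringList
  rw [dif_pos h1, dif_pos h2, dif_pos h3, ← List.filterMap_append, ← sort_union_lt]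
  · congr 2
    ext p
    simp only [Set.Finite.mem_toFinset, Finset.mem_union]
    rw [ringSet_union ring F hab hbc]
    rfl
  · intro p hp q hq
    rw [Set.Finite.mem_toFinset] at hp hq
    obtain ⟨l, hl, s, hs, h4, h5, rfl⟩ := hp
    obtain ⟨l', hl', s', hs', h4', h5', rfl⟩ := hq
    exact Prod.Lex.toLex_lt_toLex.2 (Or.inl (h5.trans_lt h4'))

theorem ringList_nil (ring : Lab (Pos d) d → Set ℝ) (F : Finset (Lab (Pos d) d)) {a b : ℝ}
    (h : ∀ l ∈ F, ring l ∩ Set.Ioc a b = ∅) : ringList ring F a b = [] := by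
  have : ringSet ring F a b = ∅ := by
    ext p
    simp only [ringSet, Set.mem_ofPred_eq, Set.mem_empty_iff_false, iff_false]
    rintro ⟨l, hl, s, hs, h1, h2, rfl⟩
    have := h l hl
    exact absurd (show s ∈ ring l ∩ Set.Ioc a b from ⟨hs, h1, h2⟩) (by rw [this]; exact id)
  unfold ringList
  split_ifs with h1
  · have : h1.toFinset = ∅ := by
      ext p; rw [Set.Finite.mem_toFinset, this]; simp
    rw [this]; simp
  · rfl

theorem ringList_single (ring : Lab (Pos d) d → Set ℝ) (F : Finset (Lab (Pos d) d)) {a b : ℝ}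
    (l0 : Lab (Pos d) d) (hl0 : l0 ∈ F) (s0 : ℝ) (hs0 : ring l0 ∩ Set.Ioc a b = {s0})
    (h : ∀ l ∈ F, l ≠ l0 → ring l ∩ Set.Ioc a b = ∅) : ringList ring F a b = [l0] := by
  have hs : ringSet ring F a b = {toLex (s0, Encodable.encode l0)} := by
    ext p
    simp only [ringSet, Set.mem_ofPred_eq, Set.mem_singleton_iff]
    constructor
    · rintro ⟨l, hl, s, hs, h1, h2, rfl⟩
      by_cases hll : l = l0
      · subst hll
        have : s ∈ ({s0} : Set ℝ) := by rw [← hs0]; exact ⟨hs, h1, h2⟩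
        rw [Set.mem_singleton_iff.1 this]
      · have := h l hl hll
        exact absurd (show s ∈ ring l ∩ Set.Ioc a b from ⟨hs, h1, h2⟩) (by rw [this]; exact id)
    · rintro rfl
      have : s0 ∈ ring l0 ∩ Set.Ioc a b := by rw [hs0]; rfl
      exact ⟨l0, hl0, s0, this.1, this.2.1, this.2.2, rfl⟩
  have hf : (ringSet ring F a b).Finite := by rw [hs]; exact Set.finite_singleton _
  have hf2 : hf.toFinset = {toLex (s0, Encodable.encode l0)} := by
    ext p; rw [Set.Finite.mem_toFinset, hs]; simp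
  unfold ringList
  rw [dif_pos hf, hf2, Finset.sort_singleton]
  have h1 : (Encodable.decode (ofLex (toLex (s0, Encodable.encode l0))).2 :
      Option (Lab (Pos d) d)) = some l0 := Encodable.encodek l0
  exact (List.filterMap_cons_some (f := fun p : ℝ ×ₗ ℕ =>
    (Encodable.decode (ofLex p).2 : Option (Lab (Pos d) d))) h1).trans rfl

/-! ### the torus labels -/

theorem tv_lft {M : ℕ} [NeZero M] (v : Tor d M) : tv (lft v) = v := by
  funext j
  exact ZMod.coe_valMinAbs _

/-- the label of the fundamental domain of a letter -/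
def emb {M K : ℕ} (x : Tor d M × Fin K × Dir d) : Lab (Pos d) d := (lft x.1, (x.2.1 : ℕ), x.2.2)

theorem lft_inj {M : ℕ} [NeZero M] : Function.Injective (lft : Tor d M → Pos d) :=
  Function.LeftInverse.injective (g := tv) tv_lft

theorem emb_inj {M K : ℕ} [NeZero M] : Function.Injective (emb : Tor d M × Fin K × Dir d → _) := by
  rintro ⟨v, k, e⟩ ⟨v', k', e'⟩ h
  simp only [emb, Prod.mk.injEq] at h
  obtain ⟨h1, h2, h3⟩ := h
  rw [lft_inj h1, Fin.ext h2, h3]

theorem mem_torLab {M K : ℕ} [NeZero M] (l : Lab (Pos d) d) :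
    l ∈ torLab d M K ↔ ∃ x : Tor d M × Fin K × Dir d, emb x = l := by
  obtain ⟨y, k, e⟩ := l
  simp only [torLab, Finset.mem_product, Fintype.mem_piFinset, Finset.mem_filter, Finset.mem_Icc,
    Finset.mem_range, Finset.mem_univ, and_true]
  constructor
  · rintro ⟨h1, h2⟩
    refine ⟨(tv y, ⟨k, h2⟩, e), ?_⟩
    simp only [emb, Prod.mk.injEq, and_true]
    funext j
    have := (ZMod.valMinAbs_spec (y j : ZMod M) (y j)).2 ⟨rfl, by
      have := (h1 j).2
      constructor
      · linarith [this.1]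
      · linarith [this.2]⟩
    exact this
  · rintro ⟨⟨v, k', e'⟩, h⟩
    simp only [emb, Prod.mk.injEq] at h
    obtain ⟨rfl, rfl, rfl⟩ := h
    refine ⟨fun j => ?_, k'.2⟩
    have h := ZMod.valMinAbs_mem_Ioc (v j)
    have h1 : -(M : ℤ) < (v j).valMinAbs * 2 := h.1
    have h2 : (v j).valMinAbs * 2 ≤ M := h.2
    have hM : (0 : ℤ) ≤ M := by positivity
    refine ⟨⟨?_, ?_⟩, ?_, ?_⟩
    · show -(M : ℤ) ≤ (v j).valMinAbs
      omega
    · show (v j).valMinAbs ≤ (M : ℤ)
      omega
    · show -(M : ℤ) < 2 * (v j).valMinAbs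
      omega
    · show 2 * (v j).valMinAbs ≤ (M : ℤ)
      omega


theorem torLab_eq {M K : ℕ} [NeZero M] :
    torLab d M K = Finset.univ.image (emb : Tor d M × Fin K × Dir d → _) := by
  ext l
  rw [mem_torLab]
  simp

/-! ### words and rings -/

/-- the mesh -/
def msh (N1 : ℕ) (j : ℕ) : ℝ := (j : ℝ) / N1

theorem msh_mono (N1 : ℕ) : Monotone (msh N1) := by
  intro a b h
  unfold msh
  have : (a : ℝ) ≤ b := by exact_mod_cast h
  gcongr

/-- counts of the letter -/
def vec {M K : ℕ} (a : Let d M K) (x : Tor d M × Fin K × Dir d) : ℕ :=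
  match a with
  | none => 0
  | some y => if x = y then 1 else 0

/-- the environment of a word -/
def envW {M K : ℕ} (N1 : ℕ) (η : Tor d M → ℕ) (w : List (Let d M K)) : Env d where
  V := Tor d M
  nb := nbT
  pr := tv
  η0 := η
  U := units N1 w

section

variable {Ω : Type} [MeasurableSpace Ω] {P : Measure Ω} (C : Clocks m d P)

/-- number of rings of the label in the mesh interval `j` -/
def cnt (N1 : ℕ) (ω : Ω) (l : Lab (Pos d) d) (j : ℕ) : ℕ :=
  (C.ring ω l ∩ Set.Ioc (msh N1 j) (msh N1 (j + 1))).ncard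

theorem ringList_letter {M K : ℕ} [NeZero M] (N1 : ℕ) (ω : Ω) (j : ℕ) (a : Let d M K)
    (h : ∀ x, cnt C N1 ω (emb x) j = vec a x) :
    ringList (C.ring ω) (torLab d M K) (msh N1 j) (msh N1 (j + 1)) = (a.map emb).toList := by
  cases a with
  | none =>
    apply ringList_nil
    intro l hl
    obtain ⟨x, rfl⟩ := (mem_torLab l).1 hl
    have h1 := h x
    simp only [vec, cnt] at h1
    rwa [Set.ncard_eq_zero (C.ring_fin ω _ _ _)] at h1
  | some y =>
    have h1 := h y
    simp only [vec, cnt, if_true] at h1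
    obtain ⟨s0, hs0⟩ := Set.ncard_eq_one.1 h1
    apply ringList_single _ _ (emb y) ((mem_torLab _).2 ⟨y, rfl⟩) s0 hs0
    intro l hl hne
    obtain ⟨x, rfl⟩ := (mem_torLab l).1 hl
    have h2 := h x
    simp only [vec, cnt] at h2
    rw [if_neg (fun h' => hne (by rw [h']))] at h2
    rwa [Set.ncard_eq_zero (C.ring_fin ω _ _ _)] at h2

theorem ringList_word {M K : ℕ} [NeZero M] (N1 : ℕ) (ω : Ω) (w : List (Let d M K))
    (h : ∀ j (hj : j < w.length), ∀ x, cnt C N1 ω (emb x) j = vec (w[j]) x) (s n : ℕ)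
    (hn : s + n ≤ w.length) :
    ringList (C.ring ω) (torLab d M K) (msh N1 s) (msh N1 (s + n)) =
      ((w.drop s).take n).filterMap (fun a => a.map emb) := by
  induction n with
  | zero =>
    rw [List.take_zero]
    apply ringList_nil
    intro l _
    simp
  | succ n ih =>
    rw [ringList_append (C.ring ω) _ (msh_mono N1 (show s ≤ s + n by omega))
      (msh_mono N1 (show s + n ≤ s + (n + 1) by omega)) (fun l _ => C.ring_fin ω l _ _),
      ih (by omega), List.take_add_one, List.filterMap_append]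
    congr 1
    have hlt : s + n < w.length := by omega
    have h1 : (w.drop s)[n]? = some w[s + n] := by
      rw [List.getElem?_drop, List.getElem?_eq_getElem hlt]
    rw [h1, show s + (n + 1) = s + n + 1 by ring, ringList_letter C N1 ω (s + n) _ (h (s + n) hlt)]
    cases w[s + n] <;> rfl

theorem env_ext {V : Type} {nb : V → Dir d → Option V} {pr : Pos d → V} {η0 : V → ℕ}
    {U U' : ℕ → List (Lab V d)} (h : U = U') : Env.mk V nb pr η0 U = Env.mk V nb pr η0 U' := by
  rw [h]

theorem envC_eq {M K : ℕ} [NeZero M] (N1 : ℕ) (hN : 0 < N1) (T : ℕ) (ω : Ω) (w : List (Let d M K))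
    (hw : w.length = T * N1)
    (h : ∀ j (hj : j < w.length), ∀ x, cnt C N1 ω (emb x) j = vec (w[j]) x) :
    envC C M K T ω = envW N1 (fun v => C.η0 ω (lft v)) w := by
  refine env_ext ?_
  funext t
  by_cases ht : t < T
  · rw [if_pos ht]
    have hN' : (N1 : ℝ) ≠ 0 := by positivity
    have e1 : (t : ℝ) = msh N1 (t * N1) := by
      unfold msh; push_cast; field_simp
    have e2 : (t : ℝ) + 1 = msh N1 (t * N1 + N1) := by
      unfold msh; push_cast; field_simp
    rw [e2]
    conv_lhs => rw [e1]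
    rw [ringList_word C N1 ω w h (t * N1) N1 (by rw [hw]; nlinarith), List.map_filterMap]
    unfold units
    congr 1
    funext a
    cases a with
    | none => rfl
    | some y =>
      simp only [Option.map_some, toLab, emb, tv_lft]
  · rw [if_neg ht]
    unfold units
    rw [List.drop_eq_nil_of_le]
    · simp
    · rw [hw]
      exact Nat.mul_le_mul_right _ (not_lt.1 ht)

end

/-! ### words as functions -/

theorem EvE_fn {α : Type} [Fintype α] (w : α → ℝ≥0∞) (N : ℕ) (F : List α → ℝ≥0∞) :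
    EvE w N F = ∑ f : Fin N → α, (∏ i, w (f i)) * F (List.ofFn f) := by
  induction N generalizing F with
  | zero =>
    rw [Fintype.sum_unique]
    simp [EvE]
  | succ N ih =>
    rw [EvE_succ, ← (Fin.consEquiv (fun _ => α)).sum_comp, Fintype.sum_prod_type]
    refine Finset.sum_congr rfl (fun a _ => ?_)
    rw [ih, Finset.mul_sum]
    refine Finset.sum_congr rfl (fun f _ => ?_)
    simp only [Fin.consEquiv_apply, Fin.prod_univ_succ, Fin.cons_zero, Fin.cons_succ, List.ofFn_succ]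
    rw [mul_assoc]

/-! ### change of the single site law -/

theorem sum_ofReal_div_le (f : ℕ → ℝ) (hf : ∀ k, 0 ≤ f k) :
    ∑' k, ENNReal.ofReal (f k / ∑' j, f j) ≤ 1 := by
  by_cases h : Summable f
  · have h1 : 0 ≤ ∑' j, f j := tsum_nonneg hf
    rw [← ENNReal.ofReal_tsum_of_nonneg (fun k => div_nonneg (hf k) h1) (h.div_const _),
      tsum_div_const]
    rw [← ENNReal.ofReal_one]
    exact ENNReal.ofReal_le_ofReal (div_self_le_one _)
  · rw [tsum_eq_zero_of_not_summable h]
    simp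

theorem tsum_cons (n : ℕ) (f : (Fin (n + 1) → ℕ) → ℝ≥0∞) :
    ∑' η, f η = ∑' k : ℕ, ∑' η : Fin n → ℕ, f (Fin.cons k η) := by
  rw [← (Fin.consEquiv (fun _ => ℕ)).tsum_eq]
  exact ENNReal.tsum_prod (f := fun (k : ℕ) (η : Fin n → ℕ) => f (Fin.cons k η))

theorem prw_fin_le (ν : ℕ → ℝ≥0∞) (hν : ∑' k, ν k ≤ 1) (n : ℕ) (G : (Fin n → ℕ) → ℝ≥0∞)
    (hG : ∀ η, G η ≤ 1) : ∑' η, (∏ i, ν (η i)) * G η ≤ 1 := by
  induction n with
  | zero =>
    rw [tsum_fintype, Fintype.sum_unique]
    simpa using hG _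
  | succ n ih =>
    rw [tsum_cons]
    calc _ ≤ ∑' k, ν k * 1 := by
          refine ENNReal.tsum_le_tsum (fun k => ?_)
          simp only [Fin.prod_univ_succ, Fin.cons_zero, Fin.cons_succ, mul_assoc]
          rw [ENNReal.tsum_mul_left]
          gcongr
          exact ih (fun η => G (Fin.cons k η)) (fun η => hG _)
      _ ≤ 1 := by simpa using hν

theorem tv_fin (μ ν : ℕ → ℝ≥0∞) (hμ : ∑' k, μ k ≤ 1) (hν : ∑' k, ν k ≤ 1) (n : ℕ)
    (G : (Fin n → ℕ) → ℝ≥0∞) (hG : ∀ η, G η ≤ 1) :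
    ∑' η, (∏ i, μ (η i)) * G η ≤ ∑' η, (∏ i, ν (η i)) * G η + n * ∑' k, (μ k - ν k) := by
  induction n with
  | zero =>
    rw [tsum_fintype, tsum_fintype, Fintype.sum_unique, Fintype.sum_unique]
    simp
  | succ n ih =>
    rw [tsum_cons, tsum_cons]
    simp only [Fin.prod_univ_succ, Fin.cons_zero, Fin.cons_succ, mul_assoc,
      ENNReal.tsum_mul_left]
    set H : ℕ → ℝ≥0∞ := fun k => ∑' η : Fin n → ℕ, (∏ i, ν (η i)) * G (Fin.cons k η) with hH
    have hH1 : ∀ k, H k ≤ 1 := fun k => prw_fin_le ν hν n _ (fun η => hG _)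
    calc _ ≤ ∑' k, μ k * (H k + n * ∑' k, (μ k - ν k)) := by
          refine ENNReal.tsum_le_tsum (fun k => ?_)
          gcongr
          exact ih (fun η => G (Fin.cons k η)) (fun η => hG _)
      _ = ∑' k, μ k * H k + (∑' k, μ k) * (n * ∑' k, (μ k - ν k)) := by
          simp only [mul_add]
          rw [ENNReal.tsum_add, ENNReal.tsum_mul_right]
      _ ≤ (∑' k, ν k * H k + ∑' k, (μ k - ν k)) + 1 * (n * ∑' k, (μ k - ν k)) := by
          gcongr
          rw [← ENNReal.tsum_add]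
          refine ENNReal.tsum_le_tsum (fun k => ?_)
          calc μ k * H k ≤ (ν k + (μ k - ν k)) * H k := by
                gcongr
                exact le_add_tsub
            _ = ν k * H k + (μ k - ν k) * H k := add_mul _ _ _
            _ ≤ ν k * H k + (μ k - ν k) * 1 := by
                gcongr
                exact hH1 k
            _ = _ := by rw [mul_one]
      _ = _ := by
          push_cast
          rw [add_mul, one_mul, one_mul]
          ring

theorem tv_V {V : Type} [Fintype V] (μ ν : ℕ → ℝ≥0∞) (hμ : ∑' k, μ k ≤ 1) (hν : ∑' k, ν k ≤ 1)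
    (G : (V → ℕ) → ℝ≥0∞) (hG : ∀ η, G η ≤ 1) :
    ∑' η, prw μ η * G η ≤ ∑' η, prw ν η * G η + Fintype.card V * ∑' k, (μ k - ν k) := by
  have e := Fintype.equivFin V
  have key : ∀ κ : ℕ → ℝ≥0∞, ∑' η, prw κ η * G η =
      ∑' η : Fin (Fintype.card V) → ℕ, (∏ i, κ (η i)) * G (fun v => η (e v)) := by
    intro κ
    rw [← (Equiv.arrowCongr e.symm (Equiv.refl ℕ)).tsum_eq]
    refine tsum_congr (fun η => ?_)
    have : (Equiv.arrowCongr e.symm (Equiv.refl ℕ)) η = fun v => η (e v) := by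
      funext v; simp [Equiv.arrowCongr]
    rw [this]
    congr 1
    unfold prw
    exact e.prod_comp (fun i => κ (η i))
  rw [key, key]
  exact tv_fin μ ν hμ hν _ _ (fun η => hG _)

/-! ### the rates -/

/-- total rate -/
def Lam (m : Model) (d M K : ℕ) : ℝ := (M : ℝ) ^ d * m.g K

theorem lam_nonneg (m : Model) (d k : ℕ) : 0 ≤ m.lam d k := by
  unfold Model.lam
  have h1 := m.inc_lb k
  have h2 := m.Gm_pos
  have h3 : 0 ≤ m.g (k + 1) - m.g k := by linarith
  positivity

theorem g_nonneg (m : Model) (k : ℕ) : 0 ≤ m.g k := by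
  induction k with
  | zero => rw [m.g0]
  | succ k ih =>
    have h1 := m.inc_lb k
    have h2 := m.Gm_pos
    linarith

theorem Lam_nonneg (m : Model) (d M K : ℕ) : 0 ≤ Lam m d M K :=
  mul_nonneg (by positivity) (g_nonneg m K)

theorem sum_lam (m : Model) (hd : 0 < d) (M K : ℕ) [NeZero M] :
    ∑ x : Tor d M × Fin K × Dir d, m.lam d x.2.1 = Lam m d M K := by
  rw [Fintype.sum_prod_type]
  simp only [Finset.sum_const, Finset.card_univ, Fintype.card_pi, ZMod.card, Finset.prod_const,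
    Fintype.card_fin, nsmul_eq_mul]
  rw [Fintype.sum_prod_type]
  simp only [Finset.sum_const, Finset.card_univ, Fintype.card_prod, Fintype.card_fin,
    Fintype.card_bool, nsmul_eq_mul]
  unfold Lam
  push_cast
  congr 1
  have h1 : ∑ x : Fin K, (d : ℝ) * 2 * m.lam d x = ∑ k ∈ Finset.range K, (m.g (k + 1) - m.g k) := by
    rw [Finset.sum_range]
    refine Finset.sum_congr rfl (fun x _ => ?_)
    unfold Model.lam
    have : (d : ℝ) ≠ 0 := by positivity
    field_simp
  rw [h1, Finset.sum_range_sub, m.g0, sub_zero]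

/-- probability of the counts of the letter in a mesh interval -/
def rho (m : Model) {M K : ℕ} (N1 : ℕ) (a : Let d M K) : ℝ≥0∞ :=
  ENNReal.ofReal (Real.exp (-(Lam m d M K / N1))) *
    (match a with
    | none => 1
    | some x => ENNReal.ofReal (m.lam d x.2.1 / N1))

theorem prod_pois (m : Model) (hd : 0 < d) {M K : ℕ} [NeZero M] (N1 : ℕ) (a : Let d M K) :
    ∏ x : Tor d M × Fin K × Dir d, ENNReal.ofReal (Real.exp (-(m.lam d x.2.1 * (1 / N1))) *
      (m.lam d x.2.1 * (1 / N1)) ^ (vec a x) / (vec a x).factorial) = rho m N1 a := by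
  have h1 : ∀ x : Tor d M × Fin K × Dir d, ENNReal.ofReal (Real.exp (-(m.lam d x.2.1 * (1 / N1))) *
      (m.lam d x.2.1 * (1 / N1)) ^ (vec a x) / (vec a x).factorial) =
      ENNReal.ofReal (Real.exp (-(m.lam d x.2.1 * (1 / N1)))) *
        (if a = some x then ENNReal.ofReal (m.lam d x.2.1 / N1) else 1) := by
    intro x
    cases a with
    | none => simp [vec]
    | some y =>
      by_cases hxy : x = y
      · subst hxy
        simp only [vec, if_true, pow_one, Nat.factorial_one, Nat.cast_one, div_one]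
        rw [← ENNReal.ofReal_mul (Real.exp_pos _).le]
        congr 2
        rw [mul_one_div]
      · have : ¬ (some y = some x) := fun h => hxy (Option.some.inj h).symm
        simp only [vec, if_neg hxy, if_neg this, pow_zero, Nat.factorial_zero, Nat.cast_one,
          div_one, mul_one]
  rw [Finset.prod_congr rfl (fun x _ => h1 x), Finset.prod_mul_distrib]
  unfold rho
  congr 1
  · rw [← ENNReal.ofReal_prod_of_nonneg (fun x _ => (Real.exp_pos _).le), ← Real.exp_sum]
    congr 2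
    rw [← sum_lam m hd M K, Finset.sum_neg_distrib, ← Finset.sum_mul]
    ring
  · cases a with
    | none => simp
    | some y =>
      simp only [Option.some.injEq]
      rw [Finset.prod_ite_eq]
      simp

section

variable {Ω : Type} [MeasurableSpace Ω] {P : Measure Ω}

theorem msh_zero (N1 : ℕ) : 0 ≤ msh N1 0 := by simp [msh]

theorem msh_succ (N1 : ℕ) (j : ℕ) : msh N1 (j + 1) - msh N1 j = 1 / N1 := by
  unfold msh; push_cast; ring

theorem msh_nonneg (N1 : ℕ) (j : ℕ) : 0 ≤ msh N1 j := by unfold msh; positivity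

theorem cyl (C : Clocks m d P) (hd : 0 < d) {A J : Type} [Fintype A] [Fintype J] (α : A → Pos d)
    (hα : Function.Injective α) (ι : J → ℕ) (hι : Function.Injective ι) {M K : ℕ} [NeZero M]
    (N1 : ℕ) (η : A → ℕ) (w : J → Let d M K) :
    P {ω | (∀ a, C.η0 ω (α a) = η a) ∧ ∀ j x, cnt C N1 ω (emb x) (ι j) = vec (w j) x} =
      (∏ a, m.mu (η a)) * ∏ j, rho m N1 (w j) := by
  have h0 := C.indep (msh N1) (msh_mono N1) (msh_zero N1)
  let g : A ⊕ (J × (Tor d M × Fin K × Dir d)) → Pos d ⊕ (Lab (Pos d) d × ℕ) :=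
    Sum.elim (fun a => Sum.inl (α a)) (fun p => Sum.inr (emb p.2, ι p.1))
  have hg : Function.Injective g := by
    rintro (a | ⟨j, x⟩) (a' | ⟨j', x'⟩) h
    · simp only [g, Sum.elim_inl, Sum.inl.injEq] at h
      rw [hα h]
    · simp [g] at h
    · simp [g] at h
    · simp only [g, Sum.elim_inr, Sum.inr.injEq, Prod.mk.injEq] at h
      rw [emb_inj h.1, hι h.2]
  have h1 := h0.precomp hg
  have h2 := h1.measure_inter_preimage_eq_mul Finset.univ
    (sets := fun i => {Sum.elim (fun a => η a) (fun p => vec (w p.1) p.2) i})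
    (fun i _ => MeasurableSet.singleton _)
  have e1 : {ω | (∀ a, C.η0 ω (α a) = η a) ∧ ∀ j x, cnt C N1 ω (emb x) (ι j) = vec (w j) x} =
      ⋂ i ∈ (Finset.univ : Finset (A ⊕ (J × (Tor d M × Fin K × Dir d)))),
        (fun ω => (match g i with
          | .inl x => C.η0 ω x
          | .inr (l, j) => (C.ring ω l ∩ Set.Ioc (msh N1 j) (msh N1 (j + 1))).ncard : ℕ)) ⁻¹'
        {Sum.elim (fun a => η a) (fun p => vec (w p.1) p.2) i} := by
    ext ω
    simp only [Set.mem_ofPred_eq, Set.mem_iInter, Finset.mem_univ, forall_true_left, Sum.forall,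
      Set.mem_preimage, Set.mem_singleton_iff, Sum.elim_inl, Sum.elim_inr, g, Prod.forall]
    rfl
  refine (congrArg P e1).trans (h2.trans ?_)
  rw [Fintype.prod_sum_type, Fintype.prod_prod_type]
  congr 1
  · refine Finset.prod_congr rfl (fun a _ => ?_)
    exact C.η0_law (α a) (η a)
  · refine Finset.prod_congr rfl (fun j _ => ?_)
    rw [← prod_pois m hd N1 (w j)]
    refine Finset.prod_congr rfl (fun x _ => ?_)
    have := C.ring_law (emb x) (msh N1 (ι j)) (msh N1 (ι j + 1)) (msh_nonneg _ _)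
      (msh_mono N1 (Nat.le_succ _)) (vec (w j) x)
    rw [msh_succ] at this
    exact this

theorem cnt_meas (C : Clocks m d P) (N1 : ℕ) (l : Lab (Pos d) d) (j : ℕ) :
    Measurable (fun ω => cnt C N1 ω l j) := C.ring_meas l _ _

theorem letter_meas (C : Clocks m d P) {M K : ℕ} [NeZero M] (N1 j : ℕ) (a : Let d M K) :
    MeasurableSet {ω | ∀ x, cnt C N1 ω (emb x) j = vec a x} := by
  have : {ω | ∀ x, cnt C N1 ω (emb x) j = vec a x} =
      ⋂ x, (fun ω => cnt C N1 ω (emb x) j) ⁻¹' {vec a x} := by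
    ext ω; simp
  rw [this]
  exact MeasurableSet.iInter (fun x => cnt_meas C N1 (emb x) j (MeasurableSet.singleton _))

theorem cyl_meas (C : Clocks m d P) {M K : ℕ} [NeZero M] (N1 : ℕ) {n : ℕ} (η : Tor d M → ℕ)
    (w : Fin n → Let d M K) :
    MeasurableSet {ω | (∀ v, C.η0 ω (lft v) = η v) ∧ ∀ j : Fin n, ∀ x,
      cnt C N1 ω (emb x) j = vec (w j) x} := by
  have : {ω | (∀ v, C.η0 ω (lft v) = η v) ∧ ∀ j : Fin n, ∀ x,
      cnt C N1 ω (emb x) j = vec (w j) x} =
      (⋂ v, (fun ω => C.η0 ω (lft v)) ⁻¹' {η v}) ∩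
        ⋂ j : Fin n, {ω | ∀ x, cnt C N1 ω (emb x) j = vec (w j) x} := by
    ext ω; simp
  rw [this]
  exact (MeasurableSet.iInter (fun v => C.η0_meas (lft v) (MeasurableSet.singleton _))).inter
    (MeasurableSet.iInter (fun j => letter_meas C N1 j (w j)))

theorem vec_inj {M K : ℕ} {a b : Let d M K} (h : ∀ x, vec a x = vec b x) : a = b := by
  cases a with
  | none =>
    cases b with
    | none => rfl
    | some y =>
      have := h y
      simp [vec] at this
  | some z =>
    cases b with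
    | none =>
      have := h z
      simp [vec] at this
    | some y =>
      have := h z
      simp only [vec, if_true] at this
      by_cases hzy : z = y
      · rw [hzy]
      · rw [if_neg hzy] at this
        exact absurd this one_ne_zero

/-- exactly one label rings once or nothing rings -/
def Gd (C : Clocks m d P) (M K N1 j : ℕ) : Set Ω :=
  {ω | ∃ a : Let d M K, ∀ x, cnt C N1 ω (emb x) j = vec a x}

theorem Gd_eq (C : Clocks m d P) (M K N1 j : ℕ) :
    Gd C M K N1 j = ⋃ a : Let d M K, {ω | ∀ x, cnt C N1 ω (emb x) j = vec a x} := by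
  ext ω; simp [Gd]

theorem Gd_meas (C : Clocks m d P) (M K N1 j : ℕ) [NeZero M] : MeasurableSet (Gd C M K N1 j) := by
  rw [Gd_eq]
  exact MeasurableSet.iUnion (fun a => letter_meas C N1 j a)

theorem letter_prob (C : Clocks m d P) [IsProbabilityMeasure P] (hd : 0 < d) {M K : ℕ} [NeZero M]
    (N1 j : ℕ) (a : Let d M K) :
    P {ω | ∀ x, cnt C N1 ω (emb x) j = vec a x} = rho m N1 a := by
  have h := cyl C hd (A := Empty) (J := Unit) (fun a => a.elim) (fun a => a.elim) (fun _ => j)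
    (fun _ _ _ => rfl) N1 (fun a => a.elim) (fun _ => a)
  simp only [Finset.univ_eq_empty, Finset.prod_empty, Finset.univ_unique, Finset.prod_singleton,
    one_mul] at h
  rw [← h]
  congr 1
  ext ω
  simp

theorem Gd_prob (C : Clocks m d P) [IsProbabilityMeasure P] (hd : 0 < d) (M K N1 j : ℕ) [NeZero M] :
    P (Gd C M K N1 j)ᶜ ≤ ENNReal.ofReal ((Lam m d M K / N1) ^ 2) := by
  have hy : 0 ≤ Lam m d M K / N1 := div_nonneg (Lam_nonneg _ _ _ _) (by positivity)
  have h1 : P (Gd C M K N1 j) = ENNReal.ofReal (Real.exp (-(Lam m d M K / N1)) *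
      (1 + Lam m d M K / N1)) := by
    rw [Gd_eq, measure_iUnion]
    · rw [tsum_fintype, Fintype.sum_option]
      simp only [letter_prob C hd]
      unfold rho
      simp only [mul_one]
      rw [← Finset.mul_sum, ← ENNReal.ofReal_sum_of_nonneg
        (fun x _ => div_nonneg (lam_nonneg _ _ _) (by positivity)), ← Finset.sum_div, sum_lam m hd,
        ENNReal.ofReal_mul (Real.exp_pos _).le, ENNReal.ofReal_add zero_le_one hy, mul_add,
        ENNReal.ofReal_one, mul_one]
    · intro a b hab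
      rw [Function.onFun, Set.disjoint_left]
      intro ω ha hb
      exact hab (vec_inj (fun x => (ha x).symm.trans (hb x)))
    · exact fun a => letter_meas C N1 j a
  rw [prob_compl_eq_one_sub (Gd_meas C M K N1 j), h1, ← ENNReal.ofReal_one,
    ← ENNReal.ofReal_sub _ (by positivity)]
  apply ENNReal.ofReal_le_ofReal
  set y := Lam m d M K / N1
  have h2 : 1 - y ≤ Real.exp (-y) := by
    have := Real.add_one_le_exp (-y); linarith
  nlinarith [mul_le_mul_of_nonneg_right h2 (show 0 ≤ 1 + y by linarith)]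

/-- some mesh interval has two rings -/
def Bad (C : Clocks m d P) (M K T N1 : ℕ) : Set Ω := ⋃ j : Fin (T * N1), (Gd C M K N1 j)ᶜ

theorem Bad_prob (C : Clocks m d P) [IsProbabilityMeasure P] (hd : 0 < d) (M K T N1 : ℕ) [NeZero M]
    (hN : 0 < N1) :
    P (Bad C M K T N1) ≤ ENNReal.ofReal (T * Lam m d M K ^ 2 / N1) := by
  calc P (Bad C M K T N1) ≤ ∑ j : Fin (T * N1), P (Gd C M K N1 j)ᶜ := by
        unfold Bad
        exact measure_iUnion_fintype_le _ _
    _ ≤ ∑ j : Fin (T * N1), ENNReal.ofReal ((Lam m d M K / N1) ^ 2) :=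
        Finset.sum_le_sum (fun j _ => Gd_prob C hd M K N1 j)
    _ = ENNReal.ofReal (T * Lam m d M K ^ 2 / N1) := by
        rw [Finset.sum_const, Finset.card_univ, Fintype.card_fin, nsmul_eq_mul,
          ← ENNReal.ofReal_natCast, ← ENNReal.ofReal_mul (by positivity)]
        congr 1
        push_cast
        have : (N1 : ℝ) ≠ 0 := by positivity
        field_simp

theorem good_word (C : Clocks m d P) (M K T N1 : ℕ) (ω : Ω) (h : ω ∉ Bad C M K T N1) :
    ∃ w : Fin (T * N1) → Let d M K, ∀ j : Fin (T * N1), ∀ x,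
      cnt C N1 ω (emb x) j = vec (w j) x := by
  have h1 : ∀ j : Fin (T * N1), ∃ a : Let d M K, ∀ x, cnt C N1 ω (emb x) j = vec a x := by
    intro j
    by_contra hj
    exact h (Set.mem_iUnion.2 ⟨j, hj⟩)
  choose w hw using h1
  exact ⟨w, hw⟩

theorem envC_cyl (C : Clocks m d P) {M K : ℕ} [NeZero M] (N1 : ℕ) (hN : 0 < N1) (T : ℕ) (ω : Ω)
    (η : Tor d M → ℕ) (w : Fin (T * N1) → Let d M K) (h1 : ∀ v, C.η0 ω (lft v) = η v)
    (h2 : ∀ j : Fin (T * N1), ∀ x, cnt C N1 ω (emb x) j = vec (w j) x) :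
    envC C M K T ω = envW N1 η (List.ofFn w) := by
  rw [envC_eq C N1 hN T ω (List.ofFn w) (by simp)
    (fun j hj x => by
      rw [List.length_ofFn] at hj
      rw [List.getElem_ofFn]
      exact h2 ⟨j, hj⟩ x)]
  congr 1
  funext v
  exact h1 v

/-- the event of the environment off the bad set -/
theorem good_eq (C : Clocks m d P) {M K : ℕ} [NeZero M] (N1 : ℕ) (hN : 0 < N1) (T : ℕ)
    (F : Env d → Prop) :
    {ω | F (envC C M K T ω)} ∩ (Bad C M K T N1)ᶜ =
      ⋃ p : (Tor d M → ℕ) × (Fin (T * N1) → Let d M K),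
        {ω | F (envW N1 p.1 (List.ofFn p.2)) ∧ (∀ v, C.η0 ω (lft v) = p.1 v) ∧
          ∀ j : Fin (T * N1), ∀ x, cnt C N1 ω (emb x) j = vec (p.2 j) x} := by
  ext ω
  simp only [Set.mem_inter_iff, Set.mem_ofPred_eq, Set.mem_compl_iff, Set.mem_iUnion]
  constructor
  · rintro ⟨h1, h2⟩
    obtain ⟨w, hw⟩ := good_word C M K T N1 ω h2
    refine ⟨(fun v => C.η0 ω (lft v), w), ?_, fun v => rfl, hw⟩
    rw [← envC_cyl C N1 hN T ω (fun v => C.η0 ω (lft v)) w (fun v => rfl) hw]
    exact h1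
  · rintro ⟨⟨η, w⟩, h1, h2, h3⟩
    refine ⟨?_, ?_⟩
    · rw [envC_cyl C N1 hN T ω η w h2 h3]
      exact h1
    · unfold Bad
      rw [Set.mem_iUnion]
      rintro ⟨j, hj⟩
      exact hj ⟨w j, h3 j⟩

end

end ZI.P2b

namespace ZI.Rows

open ZI ZI.P2b

variable {d : ℕ} {m : Model}

section

variable {Ω : Type} [MeasurableSpace Ω] {P : Measure Ω}

theorem nullMeas [IsProbabilityMeasure P] (hd : 0 < d) (C : Clocks m d P) (M K T : ℕ) (hM : 1 ≤ M)
    (F : Env d → Prop) : NullMeasurableSet {ω | F (envC C M K T ω)} P := by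
  have : NeZero M := ⟨by omega⟩
  have h1 : ∀ N : ℕ, MeasurableSet ({ω | F (envC C M K T ω)} ∩ (Bad C M K T (N + 1))ᶜ) := by
    intro N
    rw [good_eq C (N + 1) (Nat.succ_pos N) T F]
    refine MeasurableSet.iUnion (fun p => ?_)
    by_cases hp : F (envW (N + 1) p.1 (List.ofFn p.2))
    · simp only [hp, true_and]
      exact cyl_meas C (N + 1) p.1 p.2
    · simp only [hp, false_and]
      exact MeasurableSet.empty
  have h2 : {ω | F (envC C M K T ω)} = (⋃ N : ℕ, {ω | F (envC C M K T ω)} ∩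
      (Bad C M K T (N + 1))ᶜ) ∪ ({ω | F (envC C M K T ω)} ∩ ⋂ N : ℕ, Bad C M K T (N + 1)) := by
    ext ω
    simp only [Set.mem_union, Set.mem_iUnion, Set.mem_inter_iff, Set.mem_compl_iff, Set.mem_iInter]
    constructor
    · intro h
      by_cases hb : ∀ N, ω ∈ Bad C M K T (N + 1)
      · exact Or.inr ⟨h, hb⟩
      · push Not at hb
        obtain ⟨N, hN⟩ := hb
        exact Or.inl ⟨N, h, hN⟩
    · rintro (⟨N, h, -⟩ | ⟨h, -⟩) <;> exact h
  rw [h2]
  refine (MeasurableSet.iUnion h1).nullMeasurableSet.union ?_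
  apply NullMeasurableSet.of_null
  have h3 : ∀ N : ℕ, P ({ω | F (envC C M K T ω)} ∩ ⋂ N : ℕ, Bad C M K T (N + 1)) ≤
      ENNReal.ofReal (T * Lam m d M K ^ 2 / (N + 1 : ℕ)) := fun N =>
    (measure_mono (Set.inter_subset_right.trans (Set.iInter_subset _ N))).trans
      (Bad_prob C hd M K T (N + 1) (Nat.succ_pos N))
  have h4 : Filter.Tendsto (fun N : ℕ => ENNReal.ofReal (T * Lam m d M K ^ 2 / (N + 1 : ℕ)))
      Filter.atTop (nhds 0) := by
    rw [← ENNReal.ofReal_zero]
    apply ENNReal.tendsto_ofReal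
    have := (tendsto_const_div_atTop_nhds_zero_nat ((T : ℝ) * Lam m d M K ^ 2)).comp
      (Filter.tendsto_add_atTop_nat 1)
    exact this
  exact le_antisymm (ge_of_tendsto' h4 h3) bot_le

/-- the parameters of the mesh `1 / N1` -/
theorem exists_par (hd : 0 < d) (M K T : ℕ) (hM : 5 ≤ M) (hK : 2 ≤ K) (hK' : 2 * m.φ ≤ m.g K)
    (δ : ℝ) (hδ : 0 < δ) : ∃ N1 : ℕ, 0 < N1 ∧ T * Lam m d M K ^ 2 / N1 ≤ δ ∧
      ∃ q : Par d m, ∃ (_ : q.M = M) (_ : q.K = K), q.N1 = N1 ∧
        q.p = Real.exp (-(Lam m d M K / N1)) / N1 := by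
  have hΛ := Lam_nonneg m d M K
  have hGp := m.le_Gp
  obtain ⟨N1, hN1⟩ := exists_nat_ge (1 + 2 * Lam m d M K + 8 * m.Gp + T * Lam m d M K ^ 2 / δ)
  have h0 : 0 ≤ T * Lam m d M K ^ 2 / δ := by positivity
  have hN : (0 : ℝ) < N1 := by linarith
  have hN0 : 0 < N1 := by exact_mod_cast hN
  set Λ := Lam m d M K with hΛdef
  have hexp1 : Real.exp (-(Λ / N1)) ≤ 1 := by
    rw [Real.exp_le_one_iff]
    have : 0 ≤ Λ / N1 := by positivity
    linarith
  have hexp2 : 1 / 2 ≤ Real.exp (-(Λ / N1)) := by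
    have h1 := Real.add_one_le_exp (-(Λ / N1))
    have h2 : Λ / N1 ≤ 1 / 2 := by
      rw [div_le_iff₀ hN]
      linarith
    linarith
  have hp : Real.exp (-(Λ / N1)) / N1 ≤ 1 / N1 := by gcongr
  have hNp : (N1 : ℝ) * (Real.exp (-(Λ / N1)) / N1) = Real.exp (-(Λ / N1)) := by
    field_simp
  refine ⟨N1, hN0, ?_, ⟨M, K, N1, Real.exp (-(Λ / N1)) / N1, hM, hK, hK', hN0, by positivity,
    ?_, ?_, ?_, ?_⟩, rfl, rfl, rfl, rfl⟩
  · rw [div_le_iff₀ hN]
    have : T * Λ ^ 2 / δ ≤ N1 := by linarith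
    rw [div_le_iff₀ hδ] at this
    linarith
  · rw [hNp]; exact hexp2
  · rw [hNp]; exact hexp1
  · calc 8 * m.Gp * (Real.exp (-(Λ / N1)) / N1) ≤ 8 * m.Gp * (1 / N1) := by gcongr
      _ ≤ 1 := by
          rw [mul_one_div, div_le_one hN]
          linarith
  · calc (M : ℝ) ^ d * m.g K * (Real.exp (-(Λ / N1)) / N1) ≤ Λ * (1 / N1) :=
          mul_le_mul_of_nonneg_left hp hΛ
      _ ≤ 1 := by
          rw [mul_one_div, div_le_one hN]
          linarith

theorem rho_le (q : Par d m) (hp : q.p = Real.exp (-(Lam m d q.M q.K / q.N1)) / q.N1)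
    (a : Let d q.M q.K) : rho m q.N1 a ≤ q.w a := by
  have hN : (0 : ℝ) < q.N1 := by exact_mod_cast q.N1_pos
  have hΛ := Lam_nonneg m d q.M q.K
  unfold rho Par.w
  cases a with
  | none =>
    simp only [mul_one]
    have h0 : 0 ≤ (q.M : ℝ) ^ d * m.g q.K * q.p := mul_nonneg hΛ q.p_pos.le
    rw [← ENNReal.ofReal_one, ← ENNReal.ofReal_sub _ h0]
    apply ENNReal.ofReal_le_ofReal
    have e : (q.M : ℝ) ^ d * m.g q.K * q.p = Lam m d q.M q.K / q.N1 *
        Real.exp (-(Lam m d q.M q.K / q.N1)) := by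
      rw [hp]; unfold Lam; ring
    rw [e]
    set y := Lam m d q.M q.K / q.N1
    have h1 := Real.add_one_le_exp y
    have h2 : (1 + y) * Real.exp (-y) ≤ 1 := by
      calc (1 + y) * Real.exp (-y) ≤ Real.exp y * Real.exp (-y) := by
            gcongr; linarith
        _ = 1 := by rw [← Real.exp_add]; simp
    nlinarith
  | some x =>
    simp only
    rw [← ENNReal.ofReal_mul (Real.exp_pos _).le]
    apply ENNReal.ofReal_le_ofReal
    rw [hp]
    exact le_of_eq (by ring)

theorem transfer [IsProbabilityMeasure P] (hd : 0 < d) (C : Clocks m d P) (M K T : ℕ) (hM : 5 ≤ M)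
    (hK : 2 ≤ K) (hK' : 2 * m.φ ≤ m.g K) (δ : ℝ) (hδ : 0 < δ) :
    ∃ q : Par d m, q.M = M ∧ q.K = K ∧ ∀ F : Env d → Prop,
      P {ω | F (envC C M K T ω)} ≤ q.PP (T * q.N1) (fun η l => F (envT q η l)) +
        ENNReal.ofReal δ + (M : ℝ≥0∞) ^ d * tv1 m K := by
  obtain ⟨N1, hN, hδN, q, rfl, rfl, rfl, hp⟩ := exists_par (m := m) (d := d) hd M K T hM hK hK' δ hδ
  refine ⟨q, rfl, rfl, fun F => ?_⟩
  have hbad := (Bad_prob C hd q.M q.K T q.N1 hN).trans (ENNReal.ofReal_le_ofReal hδN)
  have h1 : P {ω | F (envC C q.M q.K T ω)} ≤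
      P ({ω | F (envC C q.M q.K T ω)} ∩ (Bad C q.M q.K T q.N1)ᶜ) + ENNReal.ofReal δ := by
    refine le_trans (measure_mono ?_) ((measure_union_le _ _).trans (add_le_add_right hbad _))
    intro ω hω
    by_cases hb : ω ∈ Bad C q.M q.K T q.N1
    · exact Or.inr hb
    · exact Or.inl ⟨hω, hb⟩
  have h2 : P ({ω | F (envC C q.M q.K T ω)} ∩ (Bad C q.M q.K T q.N1)ᶜ) ≤
      ∑' η : Tor d q.M → ℕ, prw m.mu η *
        EvE q.w (T * q.N1) (fun l => if F (envT q η l) then 1 else 0) := by
    rw [good_eq C q.N1 hN T F]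
    refine (measure_iUnion_le _).trans ?_
    rw [ENNReal.tsum_prod']
    refine ENNReal.tsum_le_tsum (fun η => ?_)
    rw [tsum_fintype, EvE_fn, Finset.mul_sum]
    refine Finset.sum_le_sum (fun w _ => ?_)
    by_cases hF : F (envT q η (List.ofFn w))
    · have hF' : F (envW q.N1 η (List.ofFn w)) := hF
      simp only [hF, hF', true_and, if_true, mul_one]
      rw [cyl C hd lft lft_inj (fun j : Fin (T * q.N1) => (j : ℕ)) Fin.val_injective q.N1 η w]
      unfold prw
      gcongr with j _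
      exact rho_le q hp (w j)
    · have hF' : ¬ F (envW q.N1 η (List.ofFn w)) := hF
      simp only [hF', false_and]
      have : {ω : Ω | False} = ∅ := by ext; simp
      rw [this, measure_empty]
      exact bot_le
  have h3 := tv_V (V := Tor d q.M) m.mu (m.m1 q.K)
    (sum_ofReal_div_le m.wt0 (fun k => div_nonneg (pow_nonneg m.φ_pos.le _)
      (Finset.prod_nonneg (fun i _ => g_nonneg m _))))
    (sum_ofReal_div_le (m.wt q.K) (fun k => div_nonneg (pow_nonneg m.φ_pos.le _)
      (Finset.prod_nonneg (fun i _ => g_nonneg m _))))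
    (fun η => EvE q.w (T * q.N1) (fun l => if F (envT q η l) then 1 else 0))
    (fun η => PrE_le_one q.w (sum_w q hd) _ _)
  have h4 : (Fintype.card (Tor d q.M) : ℝ≥0∞) = (q.M : ℝ≥0∞) ^ d := by
    rw [Fintype.card_pi]
    simp only [ZMod.card, Finset.prod_const, Finset.card_univ, Fintype.card_fin]
    push_cast
    rfl
  rw [h4] at h3
  calc P {ω | F (envC C q.M q.K T ω)} ≤ _ := h1
    _ ≤ (∑' η : Tor d q.M → ℕ, prw (m.m1 q.K) η *
        EvE q.w (T * q.N1) (fun l => if F (envT q η l) then 1 else 0) +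
          (q.M : ℝ≥0∞) ^ d * ∑' k, (m.mu k - m.m1 q.K k)) + ENNReal.ofReal δ := by
        gcongr
        exact h2.trans h3
    _ = _ := by
        unfold Par.PP Par.EE tv1
        ring

end

end ZI.Rows
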