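import Pool.Agent.ZI.ProcE

/-! # Row P3: distance of the single site laws with and without the cap -/

set_option autoImplicit false

open scoped ENNReal BigOperators Classical Pointwise
open MeasureTheory

noncomputable section

namespace ZI.P3aux

open ZI

variable (m : Model)

lemma g_lb (k : ℕ) : m.Gm * k ≤ m.g k := by
  induction k with
  | zero => simp [m.g0]
  | succ k ih =>
    have := m.inc_lb k
    push_cast
    linarith

lemma g_mono : Monotone m.g := monotone_nat_of_le_succ fun k => by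
  have := m.inc_lb k
  have := m.Gm_pos
  linarith

lemma g_pos (k : ℕ) (hk : 1 ≤ k) : 0 < m.g k := by
  have h1 := g_lb m k
  have h2 : (1 : ℝ) ≤ k := by exact_mod_cast hk
  have h3 := m.Gm_pos
  nlinarith

lemma gK_pos (K k : ℕ) (hK : 1 ≤ K) (hk : 1 ≤ k) : 0 < m.gK K k := g_pos m _ (le_min hk hK)

lemma wt0_pos (k : ℕ) : 0 < m.wt0 k :=
  div_pos (pow_pos m.φ_pos k) (Finset.prod_pos fun i _ => g_pos m (i + 1) (by omega))

lemma wt_pos (K k : ℕ) (hK : 1 ≤ K) : 0 < m.wt K k :=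
  div_pos (pow_pos m.φ_pos k) (Finset.prod_pos fun i _ => gK_pos m K (i + 1) hK (by omega))

lemma wt_eq (K k : ℕ) (hk : k ≤ K) : m.wt K k = m.wt0 k := by
  unfold Model.wt Model.wt0 Model.gK
  congr 1
  refine Finset.prod_congr rfl fun i hi => ?_
  rw [Finset.mem_range] at hi
  rw [min_eq_left (by omega)]

lemma wt0_le_wt (K k : ℕ) (hK : 1 ≤ K) : m.wt0 k ≤ m.wt K k := by
  unfold Model.wt Model.wt0
  apply div_le_div_of_nonneg_left (pow_pos m.φ_pos k).le
    (Finset.prod_pos fun i _ => gK_pos m K (i + 1) hK (by omega))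
  exact Finset.prod_le_prod (fun i _ => (gK_pos m K (i + 1) hK (by omega)).le)
    fun i _ => g_mono m (min_le_left _ _)

lemma wt0_le (k : ℕ) : m.wt0 k ≤ (m.φ / m.Gm) ^ k / k.factorial := by
  have h1 : m.Gm ^ k * k.factorial ≤ ∏ i ∈ Finset.range k, m.g (i + 1) := by
    induction k with
    | zero => simp
    | succ k ih =>
      rw [Finset.prod_range_succ, Nat.factorial_succ]
      have h2 := g_lb m (k + 1)
      have h3 : (0 : ℝ) ≤ m.Gm ^ k * k.factorial := mul_nonneg (pow_nonneg m.Gm_pos.le k)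
        (Nat.cast_nonneg _)
      have h4 : (0 : ℝ) ≤ m.Gm * ((k + 1 : ℕ) : ℝ) := mul_nonneg m.Gm_pos.le (Nat.cast_nonneg _)
      calc m.Gm ^ (k + 1) * (((k + 1) * k.factorial : ℕ) : ℝ) =
          (m.Gm ^ k * k.factorial) * (m.Gm * ((k + 1 : ℕ) : ℝ)) := by push_cast; ring
        _ ≤ (∏ i ∈ Finset.range k, m.g (i + 1)) * m.g (k + 1) :=
          mul_le_mul ih h2 h4 (h3.trans ih)
  have h5 : 0 < m.Gm ^ k * k.factorial := mul_pos (pow_pos m.Gm_pos k)
    (by exact_mod_cast Nat.factorial_pos k)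
  calc m.wt0 k ≤ m.φ ^ k / (m.Gm ^ k * k.factorial) :=
        div_le_div_of_nonneg_left (pow_pos m.φ_pos k).le h5 h1
    _ = (m.φ / m.Gm) ^ k / k.factorial := by rw [div_pow, div_div]

lemma wt_succ (K k : ℕ) (hk : K ≤ k) : m.wt K (k + 1) = m.wt K k * (m.φ / m.g K) := by
  unfold Model.wt
  rw [Finset.prod_range_succ, pow_succ]
  have : m.gK K (k + 1) = m.g K := by
    unfold Model.gK
    rw [min_eq_right (by omega)]
  rw [this, div_mul_div_comm]

lemma wt_add (K : ℕ) (hK : 1 ≤ K) (hg : 2 * m.φ ≤ m.g K) (j : ℕ) :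
    m.wt K (K + j) ≤ m.wt0 K * (1 / 2) ^ j := by
  induction j with
  | zero => simp [wt_eq m K K le_rfl]
  | succ j ih =>
    rw [← add_assoc, wt_succ m K (K + j) (by omega), pow_succ, ← mul_assoc]
    have h1 : 0 < m.g K := g_pos m K hK
    have h2 : m.φ / m.g K ≤ 1 / 2 := by
      rw [div_le_div_iff₀ h1 (by norm_num)]
      linarith
    exact mul_le_mul ih h2 (div_nonneg m.φ_pos.le h1.le)
      (mul_nonneg (wt0_pos m K).le (by positivity))

lemma summable_wt (K : ℕ) (hK : 1 ≤ K) (hg : 2 * m.φ ≤ m.g K) : Summable (m.wt K) := by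
  rw [← summable_nat_add_iff K]
  refine Summable.of_nonneg_of_le (fun j => (wt_pos m K _ hK).le) (fun j => ?_)
    ((summable_geometric_of_lt_one (r := (1 / 2 : ℝ)) (by norm_num) (by norm_num)).mul_left
      (m.wt0 K))
  rw [add_comm]
  exact wt_add m K hK hg j

lemma summable_wt0 : Summable m.wt0 := by
  refine Summable.of_nonneg_of_le (fun j => (wt0_pos m j).le) (fun j => wt0_le m j) ?_
  exact Real.summable_pow_div_factorial _

lemma wt0_zero : m.wt0 0 = 1 := by simp [Model.wt0]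

lemma one_le_Z0 : 1 ≤ ∑' k, m.wt0 k := by
  rw [← wt0_zero m]
  exact (summable_wt0 m).le_tsum 0 fun j _ => (wt0_pos m j).le

lemma Z_sub (K : ℕ) (hK : 1 ≤ K) (hg : 2 * m.φ ≤ m.g K) :
    (∑' k, m.wt K k) - ∑' k, m.wt0 k ≤ m.wt0 K := by
  have hs := summable_wt m K hK hg
  have hs0 := summable_wt0 m
  rw [← hs.tsum_sub hs0, ← (hs.sub hs0).sum_add_tsum_nat_add (K + 1)]
  have h1 : ∑ i ∈ Finset.range (K + 1), (m.wt K i - m.wt0 i) = 0 := by
    refine Finset.sum_eq_zero fun i hi => ?_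
    rw [Finset.mem_range] at hi
    rw [wt_eq m K i (by omega), sub_self]
  rw [h1, zero_add]
  have hgeo : Summable (fun j : ℕ => m.wt0 K * (1 / 2 * (1 / 2 : ℝ) ^ j)) :=
    ((summable_geometric_of_lt_one (r := (1 / 2 : ℝ)) (by norm_num) (by norm_num)).mul_left
      _).mul_left _
  have hT : ∑' j : ℕ, m.wt0 K * (1 / 2 * (1 / 2 : ℝ) ^ j) = m.wt0 K := by
    rw [tsum_mul_left, tsum_mul_left, tsum_geometric_of_lt_one (by norm_num) (by norm_num)]
    norm_num
  calc ∑' i, (m.wt K (i + (K + 1)) - m.wt0 (i + (K + 1))) ≤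
      ∑' j : ℕ, m.wt0 K * (1 / 2 * (1 / 2 : ℝ) ^ j) := by
        refine Summable.tsum_le_tsum (fun j => ?_)
          ((summable_nat_add_iff (K + 1)).mpr (hs.sub hs0)) hgeo
        have h2 := wt_add m K hK hg (j + 1)
        have h3 := wt0_pos m (j + (K + 1))
        rw [show K + (j + 1) = j + (K + 1) by ring, pow_succ] at h2
        linarith
    _ = m.wt0 K := hT

lemma tv1_wt0 (K : ℕ) (hK : 1 ≤ K) (hg : 2 * m.φ ≤ m.g K) :
    tv1 m K ≤ ENNReal.ofReal (m.wt0 K) := by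
  have hs := summable_wt m K hK hg
  have hs0 := summable_wt0 m
  have hZ0 : 1 ≤ ∑' k, m.wt0 k := one_le_Z0 m
  have hZ : ∑' k, m.wt0 k ≤ ∑' k, m.wt K k :=
    hs0.tsum_le_tsum (fun k => wt0_le_wt m K k hK) hs
  have hsub := Z_sub m K hK hg
  set Z0 := ∑' k, m.wt0 k with hZ0d
  set Z := ∑' k, m.wt K k with hZd
  have hZ0p : 0 < Z0 := by linarith
  have hZp : 0 < Z := by linarith
  have h1 : ∀ k, m.mu k - m.m1 K k ≤ ENNReal.ofReal (m.wt0 k * ((Z - Z0) / (Z0 * Z))) := by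
    intro k
    unfold Model.mu Model.m1
    rw [← hZ0d, ← hZd, ← ENNReal.ofReal_sub _ (div_nonneg (wt_pos m K k hK).le hZp.le)]
    apply ENNReal.ofReal_le_ofReal
    have h2 : m.wt0 k / Z ≤ m.wt K k / Z := div_le_div_of_nonneg_right (wt0_le_wt m K k hK) hZp.le
    have h3 : m.wt0 k * ((Z - Z0) / (Z0 * Z)) = m.wt0 k / Z0 - m.wt0 k / Z := by
      field_simp
    rw [h3]
    linarith
  have hc : 0 ≤ (Z - Z0) / (Z0 * Z) := div_nonneg (by linarith) (by positivity)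
  calc tv1 m K ≤ ∑' k, ENNReal.ofReal (m.wt0 k * ((Z - Z0) / (Z0 * Z))) :=
        ENNReal.tsum_le_tsum h1
    _ = ENNReal.ofReal (∑' k, m.wt0 k * ((Z - Z0) / (Z0 * Z))) :=
        (ENNReal.ofReal_tsum_of_nonneg (fun k => mul_nonneg (wt0_pos m k).le hc)
          (hs0.mul_right _)).symm
    _ ≤ ENNReal.ofReal (m.wt0 K) := by
        apply ENNReal.ofReal_le_ofReal
        rw [tsum_mul_right, ← hZ0d]
        have h4 : Z0 * ((Z - Z0) / (Z0 * Z)) = (Z - Z0) / Z := by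
          field_simp
        rw [h4, div_le_iff₀ hZp]
        have h5 := wt0_pos m K
        nlinarith

end ZI.P3aux

namespace ZI.Rows

open ZI

theorem tv1_le (m : Model) : ∃ C : ℕ, ∀ K : ℕ, 1 ≤ K → 2 * m.φ ≤ m.g K →
    tv1 m K ≤ ENNReal.ofReal ((C : ℝ) ^ (K + 1) / K.factorial) := by
  obtain ⟨C, hC⟩ := exists_nat_ge (max 1 (m.φ / m.Gm))
  refine ⟨C, fun K hK hg => (P3aux.tv1_wt0 m K hK hg).trans (ENNReal.ofReal_le_ofReal ?_)⟩
  refine (P3aux.wt0_le m K).trans ?_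
  have h1 : (1 : ℝ) ≤ C := (le_max_left _ _).trans hC
  have h2 : m.φ / m.Gm ≤ C := (le_max_right _ _).trans hC
  have h3 : 0 ≤ m.φ / m.Gm := div_nonneg m.φ_pos.le m.Gm_pos.le
  apply div_le_div_of_nonneg_right _ (Nat.cast_nonneg _)
  calc (m.φ / m.Gm) ^ K ≤ (C : ℝ) ^ K := pow_le_pow_left₀ h3 h2 K
    _ ≤ (C : ℝ) ^ (K + 1) := pow_le_pow_right₀ h1 (by omega)

end ZI.Rows
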