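import Pool.Agent.ZI.Blocks

/-! # Row P4: change of the laws in a product -/

set_option autoImplicit false

open scoped ENNReal BigOperators Classical

noncomputable section

namespace ZI.P4aux

open ZI

variable {d : ℕ}

lemma le_one (Q : ℕ → (ℕ × Pos d) → ℝ≥0∞) (hQ : ∀ m, ∑' y, Q m y = 1) :
    ∀ (ms : List ℕ) (G : List (ℕ × Pos d) → Prop), prodQ Q ms G ≤ 1
  | [], G => by
      show (if G [] then (1 : ℝ≥0∞) else 0) ≤ 1
      split_ifs <;> simp
  | m :: ms, G => by
      show ∑' y, Q m y * prodQ Q ms (fun l => G (y :: l)) ≤ 1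
      calc ∑' y, Q m y * prodQ Q ms (fun l => G (y :: l)) ≤ ∑' y, Q m y * 1 :=
            ENNReal.tsum_le_tsum fun y => mul_le_mul_right (le_one Q hQ ms _) _
        _ = 1 := by simp [hQ m]

/-- the total positive difference -/
lemma sub_le {α : Type} (Q Q' : α → ℝ≥0∞) (hQ' : ∑' y, Q' y = 1) (δ : ℝ≥0∞)
    (h : ∀ B : α → Prop, ∑' y, (if B y then Q y else 0) ≤ (∑' y, if B y then Q' y else 0) + δ) :
    ∑' y, (Q y - Q' y) ≤ δ := by
  obtain ⟨B, hB⟩ : ∃ B : α → Prop, ∀ y, B y ↔ Q' y < Q y := ⟨_, fun _ => Iff.rfl⟩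
  have h1 := h B
  have h2 : ∑' y, (if B y then Q y else 0) =
      (∑' y, if B y then Q' y else 0) + ∑' y, (Q y - Q' y) := by
    rw [← ENNReal.tsum_add]
    refine tsum_congr fun y => ?_
    split_ifs with hy
    · exact (add_tsub_cancel_of_le ((hB y).mp hy).le).symm
    · rw [tsub_eq_zero_of_le (not_lt.mp (fun h' => hy ((hB y).mpr h'))), add_zero]
  rw [h2] at h1
  have hf : (∑' y, if B y then Q' y else 0) ≠ ∞ := by
    refine ne_top_of_le_ne_top (b := 1) ENNReal.one_ne_top ?_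
    rw [← hQ']
    refine ENNReal.tsum_le_tsum fun y => ?_
    split_ifs <;> simp
  exact (ENNReal.add_le_add_iff_left hf).mp h1

lemma change {α : Type} (Q Q' : α → ℝ≥0∞) (hQ' : ∑' y, Q' y = 1) (δ : ℝ≥0∞)
    (h : ∀ B : α → Prop, ∑' y, (if B y then Q y else 0) ≤ (∑' y, if B y then Q' y else 0) + δ)
    (F : α → ℝ≥0∞) (hF : ∀ y, F y ≤ 1) :
    ∑' y, Q y * F y ≤ (∑' y, Q' y * F y) + δ := by
  calc ∑' y, Q y * F y ≤ ∑' y, (Q' y * F y + (Q y - Q' y)) := by
        refine ENNReal.tsum_le_tsum fun y => ?_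
        calc Q y * F y ≤ (Q' y + (Q y - Q' y)) * F y := by
              gcongr
              exact le_add_tsub
          _ = Q' y * F y + (Q y - Q' y) * F y := by ring
          _ ≤ Q' y * F y + (Q y - Q' y) * 1 := by
              gcongr
              exact hF y
          _ = Q' y * F y + (Q y - Q' y) := by rw [mul_one]
    _ = (∑' y, Q' y * F y) + ∑' y, (Q y - Q' y) := ENNReal.tsum_add
    _ ≤ (∑' y, Q' y * F y) + δ := by
        gcongr
        exact sub_le Q Q' hQ' δ h

end ZI.P4aux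

namespace ZI.Rows

open ZI

variable {d : ℕ}

theorem prodQ_tv (Q Q' : ℕ → (ℕ × Pos d) → ℝ≥0∞) (hQ : ∀ m, ∑' y, Q m y = 1)
    (hQ' : ∀ m, ∑' y, Q' m y = 1) (δ : ℝ≥0∞)
    (h : ∀ m, ∀ B : (ℕ × Pos d) → Prop, ∑' y, (if B y then Q m y else 0) ≤
      (∑' y, if B y then Q' m y else 0) + δ) (ms : List ℕ) (G : List (ℕ × Pos d) → Prop) :
    prodQ Q ms G ≤ prodQ Q' ms G + ms.length * δ := by
  induction ms generalizing G with
  | nil => simp [prodQ]
  | cons m ms ih =>
    show ∑' y, Q m y * prodQ Q ms (fun l => G (y :: l)) ≤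
      (∑' y, Q' m y * prodQ Q' ms (fun l => G (y :: l))) + ((ms.length + 1 : ℕ) : ℝ≥0∞) * δ
    calc ∑' y, Q m y * prodQ Q ms (fun l => G (y :: l)) ≤
        ∑' y, (Q m y * prodQ Q' ms (fun l => G (y :: l)) + Q m y * (ms.length * δ)) := by
          refine ENNReal.tsum_le_tsum fun y => ?_
          rw [← mul_add]
          exact mul_le_mul_right (ih _) _
      _ = (∑' y, Q m y * prodQ Q' ms (fun l => G (y :: l))) + ms.length * δ := by
          rw [ENNReal.tsum_add, ENNReal.tsum_mul_right, hQ m, one_mul]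
      _ ≤ ((∑' y, Q' m y * prodQ Q' ms (fun l => G (y :: l))) + δ) + ms.length * δ := by
          gcongr
          exact P4aux.change (Q m) (Q' m) (hQ' m) δ (h m) _
            (fun y => P4aux.le_one Q' hQ' ms _)
      _ = (∑' y, Q' m y * prodQ Q' ms (fun l => G (y :: l))) +
          ((ms.length + 1 : ℕ) : ℝ≥0∞) * δ := by
          push_cast
          ring

end ZI.Rows
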