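import Pool.Agent.ZI.Ev1
import Pool.Agent.ZI.R1
import Pool.Agent.ZI.R2

/-! # Calculus of probabilities for the stationary torus chain -/

set_option autoImplicit false

open scoped ENNReal BigOperators Classical

noncomputable section

namespace ZI.Rows.T1

open ZI ZI.Rows

variable {d : ℕ}

theorem PrE_zero_of {α : Type} [Fintype α] (w : α → ℝ≥0∞) (N : ℕ) (E : List α → Prop)
    (h : ∀ l, ¬ E l) : PrE w N E = 0 := by
  have h1 := EvE_mul w N 0 (fun _ => 1)
  simp only [zero_mul] at h1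
  refine le_antisymm (le_trans (EvE_mono w N (G := fun _ => 0) fun l _ => ?_) (le_of_eq h1))
    (zero_le)
  simp [h l]


section PPcalc

variable {m : Model} (q : Par d m)

/-! ### probabilities for the stationary chain -/

theorem PP_mono (N : ℕ) {E E' : (Tor d q.M → ℕ) → List (Let d q.M q.K) → Prop}
    (h : ∀ η l, l.length = N → E η l → E' η l) : q.PP N E ≤ q.PP N E' := by
  refine ENNReal.tsum_le_tsum fun η => ?_
  gcongr
  exact PrE_mono q.w N (h η)

theorem PP_or (N : ℕ) (E E' : (Tor d q.M → ℕ) → List (Let d q.M q.K) → Prop) :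
    q.PP N (fun η l => E η l ∨ E' η l) ≤ q.PP N E + q.PP N E' := by
  unfold Par.PP Par.EE
  rw [← ENNReal.tsum_add]
  refine ENNReal.tsum_le_tsum fun η => ?_
  rw [← mul_add]
  gcongr
  exact PrE_or q.w N _ _

theorem PrE_finset {α ι : Type} [Fintype α] (w : α → ℝ≥0∞) (N : ℕ) (I : Finset ι)
    (E : ι → List α → Prop) :
    PrE w N (fun l => ∃ i ∈ I, E i l) ≤ ∑ i ∈ I, PrE w N (E i) := by
  induction I using Finset.induction_on with
  | empty =>
    have h1 := EvE_mul w N 0 (fun _ => 1)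
    simp only [zero_mul] at h1
    rw [Finset.sum_empty]
    refine le_trans (EvE_mono w N (G := fun _ => 0) fun l _ => ?_) (le_of_eq h1)
    simp
  | insert a s ha ih =>
    rw [Finset.sum_insert ha]
    refine le_trans (PrE_mono w N fun l _ h => ?_) (le_trans (PrE_or w N (E a) (fun l => ∃ i ∈ s, E i l))
      (by gcongr))
    obtain ⟨i, hi, h⟩ := h
    rcases Finset.mem_insert.1 hi with rfl | hi
    · exact Or.inl h
    · exact Or.inr ⟨i, hi, h⟩

theorem PP_finset {ι : Type} (N : ℕ) (I : Finset ι)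
    (E : ι → (Tor d q.M → ℕ) → List (Let d q.M q.K) → Prop) :
    q.PP N (fun η l => ∃ i ∈ I, E i η l) ≤ ∑ i ∈ I, q.PP N (E i) := by
  unfold Par.PP Par.EE
  rw [← Summable.tsum_finsetSum (fun i _ => ENNReal.summable)]
  refine ENNReal.tsum_le_tsum fun η => ?_
  rw [← Finset.mul_sum]
  gcongr
  exact PrE_finset q.w N I (fun i => E i η)

theorem PP_le (N : ℕ) (E : (Tor d q.M → ℕ) → List (Let d q.M q.K) → Prop) (ε : ℝ≥0∞)
    (h : ∀ η, PrE q.w N (E η) ≤ ε) : q.PP N E ≤ ε := by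
  have h1 : q.PP N E ≤ ∑' η : Tor d q.M → ℕ, prw (m.m1 q.K) η * ε := by
    refine ENNReal.tsum_le_tsum fun η => ?_
    gcongr
    exact h η
  rwa [ENNReal.tsum_mul_right, tsum_prw, one_mul] at h1

theorem PP_finset_le {ι : Type} (N : ℕ) (I : Finset ι)
    (E : ι → (Tor d q.M → ℕ) → List (Let d q.M q.K) → Prop) (ε : ℝ≥0∞)
    (h : ∀ i ∈ I, q.PP N (E i) ≤ ε) :
    q.PP N (fun η l => ∃ i ∈ I, E i η l) ≤ I.card * ε := by
  refine le_trans (PP_finset q N I E) (le_trans (Finset.sum_le_sum h) ?_)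
  rw [Finset.sum_const, nsmul_eq_mul]

/-- union over the markers at finitely many positions -/
theorem PP_markers {ι : Type} (N : ℕ) (I : Finset ι) (pos : ι → Pos d)
    (E : ι → ℕ → (Tor d q.M → ℕ) → List (Let d q.M q.K) → Prop) (ε C : ℝ≥0∞)
    (hC : ∀ x : Tor d q.M, ∑' η : Tor d q.M → ℕ, prw (m.m1 q.K) η * (η x : ℝ≥0∞) ≤ C)
    (h : ∀ i ∈ I, ∀ k η, k < η (tv (pos i)) → PrE q.w N (E i k η) ≤ ε) :
    q.PP N (fun η l => ∃ i ∈ I, ∃ k, k < η (tv (pos i)) ∧ E i k η l) ≤ I.card * (C * ε) := by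
  refine PP_finset_le q N I _ _ fun i hi => ?_
  refine le_trans ?_ (mul_le_mul_left (hC (tv (pos i))) ε)
  rw [← ENNReal.tsum_mul_right]
  refine ENNReal.tsum_le_tsum fun η => ?_
  rw [mul_assoc]
  gcongr
  refine le_trans (PrE_mono q.w N (E' := fun l => ∃ k ∈ Finset.range (η (tv (pos i))), E i k η l) ?_) ?_
  · rintro l - ⟨k, hk, h1⟩
    exact ⟨k, Finset.mem_range.2 hk, h1⟩
  · refine le_trans (PrE_finset q.w N _ _) ?_
    refine le_trans (Finset.sum_le_sum (g := fun _ => ε) fun k hk => h i hi k η (Finset.mem_range.1 hk)) ?_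
    rw [Finset.sum_const, Finset.card_range, nsmul_eq_mul]

/-- stationarity, for an event on a window -/
theorem PP_shift (hd : 0 < d) (S s T : ℕ) (h : s + T ≤ S)
    (B : (Tor d q.M → ℕ) → List (Let d q.M q.K) → Prop) :
    q.PP (S * q.N1) (fun η l => B ((l.take (s * q.N1)).foldl stepA η)
      ((l.drop (s * q.N1)).take (T * q.N1))) = q.PP (T * q.N1) B := by
  obtain ⟨R, rfl⟩ : ∃ R, S = s + (T + R) := ⟨S - s - T, by omega⟩
  have h1 := stationary q hd (s * q.N1) ((T + R) * q.N1)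
    (fun η l => if B η (l.take (T * q.N1)) then 1 else 0)
  unfold Par.PP
  rw [add_mul, h1]
  unfold Par.EE
  refine tsum_congr fun η => ?_
  congr 1
  rw [add_mul, EvE_append]
  refine EvE_congr q.w _ fun l hl => ?_
  have h2 : ∀ l' : List (Let d q.M q.K), (l ++ l').take (T * q.N1) = l := fun l' => by
    rw [← hl]; exact List.take_left
  simp only [h2]
  exact EvE_const q.w (sum_w q hd) _ _

end PPcalc

theorem growth (K E : ℕ) (c : ℝ) (hc : 0 < c) :
    ∃ r0 : ℕ, ∀ r ≥ r0, (K : ℝ) * (2 * (r : ℝ)) ^ E ≤ Real.exp (c * r) := by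
  have h1 := isLittleO_pow_exp_pos_mul_atTop (k := E) hc
  have h2 := h1.def (c := 1 / ((K : ℝ) * 2 ^ E + 1)) (by positivity)
  have h3 := tendsto_natCast_atTop_atTop (R := ℝ) |>.eventually h2
  obtain ⟨r0, h4⟩ := Filter.eventually_atTop.1 h3
  refine ⟨r0, fun r hr => ?_⟩
  have h5 := h4 r hr
  rw [Real.norm_of_nonneg (by positivity), Real.norm_of_nonneg (by positivity)] at h5
  have h6 : ((K : ℝ) * 2 ^ E + 1) * (r : ℝ) ^ E ≤ Real.exp (c * r) := by
    rw [one_div, inv_mul_eq_div, le_div_iff₀ (by positivity)] at h5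
    linarith
  have h7 : (K : ℝ) * (2 * (r : ℝ)) ^ E = (K : ℝ) * 2 ^ E * (r : ℝ) ^ E := by
    rw [mul_pow]; ring
  rw [h7]
  have h8 : (0 : ℝ) ≤ (r : ℝ) ^ E := by positivity
  nlinarith

end ZI.Rows.T1
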