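import Pool.Agent.ZI.R2
import Pool.Agent.ZI.Ev1

/-! # Row C6: means and density of the occupied sites -/

set_option autoImplicit false

open scoped ENNReal BigOperators Classical

noncomputable section

namespace ZI.Rows

open ZI R2aux

/-- marginals -/
theorem prw_marg {V : Type} [Fintype V] (m1 : ℕ → ℝ≥0∞) (h1 : ∑' k, m1 k = 1) (x : V)
    (F : ℕ → ℝ≥0∞) : ∑' η : V → ℕ, prw m1 η * F (η x) = ∑' k, m1 k * F k := by
  have h := tsum_prod_aux V (fun y k => if y = x then m1 k * F k else m1 k)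
  have h2 : ∏ y, ∑' k, (if y = x then m1 k * F k else m1 k) = ∑' k, m1 k * F k := by
    rw [Finset.prod_eq_single x]
    · simp
    · intro y _ hy
      simp [hy, h1]
    · intro hx
      exact absurd (Finset.mem_univ x) hx
  rw [h2] at h
  rw [← h]
  refine tsum_congr fun η => ?_
  unfold prw
  rw [← Finset.mul_prod_erase Finset.univ _ (Finset.mem_univ x),
    ← Finset.mul_prod_erase Finset.univ (fun y => if y = x then m1 (η y) * F (η y) else m1 (η y))
      (Finset.mem_univ x), if_pos rfl]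
  have h3 : ∏ y ∈ Finset.univ.erase x, (if y = x then m1 (η y) * F (η y) else m1 (η y)) =
      ∏ y ∈ Finset.univ.erase x, m1 (η y) :=
    Finset.prod_congr rfl fun y hy => if_neg (Finset.ne_of_mem_erase hy)
  rw [h3]
  ring

/-- the sites of a set are empty -/
theorem prw_zero {V : Type} [Fintype V] (m1 : ℕ → ℝ≥0∞) (h1 : ∑' k, m1 k = 1) (S : Finset V) :
    ∑' η : V → ℕ, prw m1 η * (if ∀ y ∈ S, η y = 0 then 1 else 0) = m1 0 ^ S.card := by
  have h := tsum_prod_aux V (fun y k => if y ∈ S then (if k = 0 then m1 0 else 0) else m1 k)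
  have h2 : ∏ y, ∑' k, (if y ∈ S then (if k = 0 then m1 0 else 0) else m1 k) =
      m1 0 ^ S.card := by
    have h3 : ∀ y, ∑' k, (if y ∈ S then (if k = 0 then m1 0 else 0) else m1 k) =
        if y ∈ S then m1 0 else 1 := fun y => by
      by_cases hy : y ∈ S
      · simp [hy]
      · simp [hy, h1]
    simp_rw [h3]
    rw [Finset.prod_ite, Finset.prod_const, Finset.prod_const_one, mul_one]
    congr 1
    simp
  rw [h2] at h
  rw [← h]
  refine tsum_congr fun η => ?_
  unfold prw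
  by_cases hη : ∀ y ∈ S, η y = 0
  · rw [if_pos hη, mul_one]
    refine Finset.prod_congr rfl fun y _ => ?_
    by_cases hy : y ∈ S
    · rw [if_pos hy, if_pos (hη y hy), hη y hy]
    · rw [if_neg hy]
  · rw [if_neg hη, mul_zero]
    push Not at hη
    obtain ⟨y, hy, hy0⟩ := hη
    symm
    exact Finset.prod_eq_zero (Finset.mem_univ y) (by rw [if_pos hy, if_neg hy0])

theorem exists_k0 (m : Model) : ∃ k0 : ℕ, 2 * m.φ ≤ m.g k0 := by
  have h : ∀ k : ℕ, m.Gm * k ≤ m.g k := fun k => by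
    induction k with
    | zero => simp [m.g0]
    | succ k ih =>
      have := m.inc_lb k
      push_cast
      linarith
  obtain ⟨k, hk⟩ := exists_nat_gt (2 * m.φ / m.Gm)
  refine ⟨k, le_trans ?_ (h k)⟩
  rw [div_lt_iff₀ m.Gm_pos] at hk
  linarith

theorem mean_bound (m : Model) : ∃ C : ℕ, ∀ (d : ℕ) (q : Par d m) (x : Tor d q.M),
    ∑' η : Tor d q.M → ℕ, prw (m.m1 q.K) η * (η x : ℝ≥0∞) ≤ C := by
  have hk := exists_k0 m
  refine ⟨Nat.find hk + 2, fun d q x => ?_⟩
  set k0 := Nat.find hk with hk0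
  have hk0' : 2 * m.φ ≤ m.g k0 := Nat.find_spec hk
  have hK : k0 ≤ q.K := Nat.find_min' hk q.K_big
  have h1 := tsum_m1 m q.K q.K_ge q.K_big
  rw [prw_marg (m.m1 q.K) h1 x (fun k => (k : ℝ≥0∞))]
  have hhalf : ∀ j : ℕ, m.m1 q.K (k0 + j) ≤ (1 / 2 : ℝ≥0∞) ^ j := fun j => by
    induction j with
    | zero =>
      rw [pow_zero, ← h1]
      exact ENNReal.le_tsum _
    | succ j ih =>
      have h2 := m1_succ m q.K q.K_ge q.K_big (k0 + j)
      have h3 : ENNReal.ofReal (2 * m.φ) ≤ ENNReal.ofReal (m.gK q.K (k0 + j + 1)) := by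
        refine ENNReal.ofReal_le_ofReal (hk0'.trans ?_)
        unfold Model.gK
        exact g_mono m (le_min (by omega) hK)
      have h4 : m.m1 q.K (k0 + j + 1) * ENNReal.ofReal (2 * m.φ) ≤
          ENNReal.ofReal m.φ * m.m1 q.K (k0 + j) := by
        rw [← h2]
        exact mul_le_mul_right h3 _
      rw [ENNReal.ofReal_mul (by norm_num), ENNReal.ofReal_ofNat] at h4
      have h5 : ENNReal.ofReal m.φ ≠ 0 := by
        rw [ENNReal.ofReal_ne_zero_iff]
        exact m.φ_pos
      have h6 : ENNReal.ofReal m.φ * (m.m1 q.K (k0 + j + 1) * 2) ≤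
          ENNReal.ofReal m.φ * m.m1 q.K (k0 + j) := by
        refine le_trans (le_of_eq ?_) h4
        ring
      have h7 : m.m1 q.K (k0 + j + 1) * 2 ≤ m.m1 q.K (k0 + j) :=
        (ENNReal.mul_le_mul_iff_right h5 ENNReal.ofReal_ne_top).mp h6
      rw [← add_assoc, pow_succ]
      calc m.m1 q.K (k0 + j + 1) = (m.m1 q.K (k0 + j + 1) * 2) * (1 / 2) := by
            rw [mul_assoc, one_div, ENNReal.mul_inv_cancel (by norm_num) (by norm_num), mul_one]
        _ ≤ (1 / 2 : ℝ≥0∞) ^ j * (1 / 2) := by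
            gcongr
            exact h7.trans ih
  have hsplit : ∀ k : ℕ, m.m1 q.K k * (k : ℝ≥0∞) ≤
      m.m1 q.K k * k0 + m.m1 q.K k * ((k - k0 : ℕ) : ℝ≥0∞) := fun k => by
    rw [← mul_add]
    gcongr
    rw [← Nat.cast_add]
    exact_mod_cast (by omega : k ≤ k0 + (k - k0))
  refine (ENNReal.tsum_le_tsum hsplit).trans ?_
  rw [ENNReal.tsum_add, ENNReal.tsum_mul_right, h1, one_mul, Nat.cast_add]
  gcongr
  have h8 : ∑' k, m.m1 q.K k * ((k - k0 : ℕ) : ℝ≥0∞) =
      ∑' j, m.m1 q.K (k0 + j) * (j : ℝ≥0∞) := by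
    rw [← (add_right_injective k0).tsum_eq (f := fun k => m.m1 q.K k * ((k - k0 : ℕ) : ℝ≥0∞))]
    · refine tsum_congr fun j => ?_
      rw [Nat.add_sub_cancel_left]
    · intro k hk
      refine ⟨k - k0, ?_⟩
      have : k - k0 ≠ 0 := fun h0 => hk (by simp [h0])
      show k0 + (k - k0) = k
      omega
  rw [h8]
  refine (ENNReal.tsum_le_tsum fun j => mul_le_mul_left (hhalf j) _).trans ?_
  have h9 : ∑' j : ℕ, ((1 / 2 : ℝ≥0∞) ^ j * (j : ℝ≥0∞)) =
      ENNReal.ofReal (∑' j : ℕ, (j : ℝ) * (1 / 2) ^ j) := by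
    rw [ENNReal.ofReal_tsum_of_nonneg (fun j => by positivity)
      (hasSum_coe_mul_geometric_of_norm_lt_one (by norm_num)).summable]
    refine tsum_congr fun j => ?_
    rw [ENNReal.ofReal_mul (Nat.cast_nonneg _), ENNReal.ofReal_natCast, mul_comm,
      ENNReal.ofReal_pow (by norm_num)]
    congr 2
    rw [one_div, one_div, ENNReal.ofReal_inv_of_pos (by norm_num), ENNReal.ofReal_ofNat]
  rw [h9, tsum_coe_mul_geometric_of_norm_lt_one (by norm_num)]
  rw [show ((1 : ℝ) / 2) / (1 - 1 / 2) ^ 2 = 2 by norm_num]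
  simp

theorem mean_g (m : Model) (d : ℕ) (q : Par d m) (x : Tor d q.M) :
    ∑' η : Tor d q.M → ℕ, prw (m.m1 q.K) η * ENNReal.ofReal (m.gK q.K (η x)) = ENNReal.ofReal m.φ := by
  have h := shift_prw q x (fun _ => 1)
  simp only [mul_one] at h
  rw [h, tsum_prw, mul_one]

theorem m1_zero_le (m : Model) (K : ℕ) (hK : 2 ≤ K) (hb : 2 * m.φ ≤ m.g K) :
    m.m1 K 0 ≤ ENNReal.ofReal (1 / (1 + m.φ / m.g 1)) := by
  have hs := summable_wt m K hK hb
  have h0 : m.wt K 0 = 1 := by simp [Model.wt]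
  have h1 : m.wt K 1 = m.φ / m.g 1 := by
    have : m.gK K 1 = m.g 1 := by
      unfold Model.gK
      rw [min_eq_left (by omega)]
    simp [Model.wt, this]
  have h2 : 1 + m.φ / m.g 1 ≤ ∑' j, m.wt K j := by
    have := hs.sum_le_tsum (Finset.range 2) (fun j _ => (wt_pos m K hK j).le)
    rwa [Finset.sum_range_succ, Finset.sum_range_one, h0, h1] at this
  have h3 : 0 < m.φ / m.g 1 := div_pos m.φ_pos (g_pos m 0)
  unfold Model.m1
  rw [h0]
  refine ENNReal.ofReal_le_ofReal ?_
  exact one_div_le_one_div_of_le (by linarith) h2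

theorem density (m : Model) (d : ℕ) (hd : 0 < d) : ∃ c : ℝ, 0 < c ∧ ∀ (q : Par d m) (r : ℕ),
    2 * r < q.M → q.PP 0 (fun η _ => ¬ Dens r η) ≤
      (q.M : ℝ≥0∞) ^ d * ENNReal.ofReal (Real.exp (- c * r)) := by
  have h3 : 0 < m.φ / m.g 1 := div_pos m.φ_pos (g_pos m 0)
  refine ⟨Real.log (1 + m.φ / m.g 1), Real.log_pos (by linarith), fun q r hr => ?_⟩
  have h1 := tsum_m1 m q.K q.K_ge q.K_big
  let y : Tor d q.M → ℕ → Tor d q.M := fun x k => x + tv (Pi.single (⟨0, hd⟩ : Fin d) ((k : ℤ) + 1))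
  let S : Tor d q.M → Finset (Tor d q.M) := fun x => (Finset.range r).image (y x)
  have hS : ∀ x, (S x).card = r := fun x => by
    rw [Finset.card_image_of_injOn, Finset.card_range]
    intro k hk k' hk' h
    have hk1 : k < r := by simpa using hk
    have hk2 : k' < r := by simpa using hk'
    have h4 : (tv (Pi.single (⟨0, hd⟩ : Fin d) ((k : ℤ) + 1)) : Tor d q.M) =
        tv (Pi.single (⟨0, hd⟩ : Fin d) ((k' : ℤ) + 1)) := add_left_cancel h
    have h5 := congrFun h4 ⟨0, hd⟩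
    simp only [tv, Pi.single_eq_same] at h5
    have h6 : (((k + 1 : ℕ)) : ZMod q.M) = ((k' + 1 : ℕ) : ZMod q.M) := by
      push_cast at h5 ⊢
      exact h5
    rw [ZMod.natCast_eq_natCast_iff'] at h6
    rw [Nat.mod_eq_of_lt (by omega), Nat.mod_eq_of_lt (by omega)] at h6
    omega
  have hD : ∀ η : Tor d q.M → ℕ, ¬ Dens r η → ∃ x, ∀ z ∈ S x, η z = 0 := fun η hη => by
    unfold Dens at hη
    push Not at hη
    obtain ⟨x, hx⟩ := hη
    refine ⟨tv x, fun z hz => ?_⟩
    obtain ⟨k, hk, rfl⟩ := Finset.mem_image.mp hz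
    have hk1 : k < r := by simpa using hk
    have h4 := hx (Pi.single (⟨0, hd⟩ : Fin d) ((k : ℤ) + 1)) (fun h0 => by
      have := congrFun h0 ⟨0, hd⟩
      simp only [Pi.single_eq_same, Pi.zero_apply] at this
      omega) (by
        unfold supn
        refine Finset.sup_le fun j _ => ?_
        by_cases hj : j = ⟨0, hd⟩
        · rw [hj, Pi.single_eq_same]
          omega
        · rw [Pi.single_eq_of_ne hj]
          simp)
    have h5 : (tv (x + Pi.single (⟨0, hd⟩ : Fin d) ((k : ℤ) + 1)) : Tor d q.M) = y (tv x) k := by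
      funext j
      simp [tv, y]
    rw [h5] at h4
    omega
  calc q.PP 0 (fun η _ => ¬ Dens r η)
      ≤ ∑' η : Tor d q.M → ℕ, ∑ x, prw (m.m1 q.K) η * (if ∀ z ∈ S x, η z = 0 then 1 else 0) := by
        refine ENNReal.tsum_le_tsum fun η => ?_
        show prw (m.m1 q.K) η * (@ite _ (¬ Dens r η) (Classical.propDecidable _) 1 0) ≤ _
        by_cases hη : ¬ Dens r η
        · obtain ⟨x, hx⟩ := hD η hη
          rw [if_pos hη]
          refine le_trans (le_of_eq ?_) (Finset.single_le_sum (f := fun x =>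
            prw (m.m1 q.K) η * (if ∀ z ∈ S x, η z = 0 then 1 else 0)) (fun _ _ => bot_le)
            (Finset.mem_univ x))
          show _ = prw (m.m1 q.K) η * (if ∀ z ∈ S x, η z = 0 then 1 else 0)
          rw [if_pos hx]
        · rw [if_neg hη, mul_zero]
          exact bot_le
    _ = ∑ x : Tor d q.M, m.m1 q.K 0 ^ r := by
        rw [Summable.tsum_finsetSum (fun i _ => ENNReal.summable)]
        refine Finset.sum_congr rfl fun x _ => ?_
        have h4 := prw_zero (m.m1 q.K) h1 (S x)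
        rw [hS x] at h4
        refine Eq.trans (tsum_congr fun η => ?_) h4
        congr
    _ = (q.M : ℝ≥0∞) ^ d * m.m1 q.K 0 ^ r := by
        rw [Finset.sum_const, Finset.card_univ, nsmul_eq_mul, Fintype.card_fun, Fintype.card_fin,
          ZMod.card]
        push_cast
        rfl
    _ ≤ (q.M : ℝ≥0∞) ^ d * ENNReal.ofReal
        (Real.exp (- Real.log (1 + m.φ / m.g 1) * r)) := by
        gcongr
        refine (pow_le_pow_left' (m1_zero_le m q.K q.K_ge q.K_big) r).trans (le_of_eq ?_)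
        rw [← ENNReal.ofReal_pow (by positivity)]
        congr 1
        rw [mul_comm, Real.exp_nat_mul, Real.exp_neg, Real.exp_log (by linarith), one_div]

end ZI.Rows
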