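import Pool.Agent.ZI.Ev0

/-! # Row R5b: displacement of symmetric walks with variable rates -/

set_option autoImplicit false

open scoped ENNReal BigOperators Classical

noncomputable section

namespace ZI

variable {d : ℕ}

namespace R5b

variable {α σ : Type} [Fintype α] (w : α → ℝ≥0∞)

theorem EvE_mono' (N : ℕ) {F G : List α → ℝ≥0∞} (h : ∀ l, F l ≤ G l) :
    EvE w N F ≤ EvE w N G := by
  induction N generalizing F G with
  | zero => exact h []
  | succ N ih =>
      simp only [EvE]
      exact Finset.sum_le_sum fun a _ => mul_le_mul_right (ih fun l => h (a :: l)) _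

theorem EvE_one (hw : ∑ a, w a = 1) (N : ℕ) : EvE w N (fun _ => 1) = 1 := by
  induction N with
  | zero => rfl
  | succ N ih => simp only [EvE, ih, mul_one]; exact hw

theorem PrE_le_one' (hw : ∑ a, w a = 1) (N : ℕ) (E : List α → Prop) : PrE w N E ≤ 1 := by
  refine le_trans (EvE_mono' w N (G := fun _ => 1) fun l => ?_) (EvE_one w hw N).le
  split_ifs <;> simp

theorem PrE_zero (E : List α → Prop) : PrE w 0 E = if E [] then 1 else 0 := rfl

theorem PrE_succ (N : ℕ) (E : List α → Prop) :
    PrE w (N + 1) E = ∑ a, w a * PrE w N (fun l => E (a :: l)) := rfl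

theorem PrE_congr' (N : ℕ) {E E' : List α → Prop} (h : ∀ l, E l ↔ E' l) :
    PrE w N E = PrE w N E' := by
  have : E = E' := funext fun l => propext (h l)
  rw [this]

theorem PrE_false (N : ℕ) : PrE w N (fun _ => False) = 0 := by
  induction N with
  | zero => rw [PrE_zero]; simp
  | succ N ih => rw [PrE_succ]; simp [ih]

theorem PrE_hb (hw : ∑ a, w a = 1) (step : σ → α → σ) (stop bad : σ → Prop) (f : σ → ℝ≥0∞)
    (C : ℝ≥0∞) (hC : 1 ≤ C) (hbad : ∀ s, bad s → 1 ≤ f s)
    (h : ∀ s, ¬ bad s → ¬ stop s → ∑ a, w a * f (step s a) ≤ C * f s) (N : ℕ) (s : σ) :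
    PrE w N (HitsBefore step stop bad s) ≤ C ^ N * f s := by
  induction N generalizing s with
  | zero =>
      rw [PrE_zero, pow_zero, one_mul]
      by_cases hb : bad s
      · have : HitsBefore step stop bad s [] := hb
        rw [if_pos this]
        exact hbad s hb
      · have : ¬ HitsBefore step stop bad s [] := hb
        rw [if_neg this]
        exact zero_le
  | succ N ih =>
      by_cases hb : bad s
      · refine le_trans (PrE_le_one' w hw _ _) ?_
        refine le_trans (hbad s hb) ?_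
        exact le_mul_of_one_le_left' (one_le_pow_of_one_le' hC _)
      · by_cases hs : stop s
        · have : PrE w (N + 1) (HitsBefore step stop bad s) = 0 := by
            rw [PrE_succ]
            refine Finset.sum_eq_zero fun a _ => ?_
            rw [PrE_congr' w N (E' := fun _ => False) fun l => ?_, PrE_false, mul_zero]
            simp [HitsBefore, hb, hs]
          rw [this]
          exact zero_le
        · have h1 : PrE w (N + 1) (HitsBefore step stop bad s) =
              ∑ a, w a * PrE w N (HitsBefore step stop bad (step s a)) := by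
            rw [PrE_succ]
            refine Finset.sum_congr rfl fun a _ => ?_
            rw [PrE_congr' w N fun l => ?_]
            simp [HitsBefore, hb, hs]
          rw [h1]
          calc ∑ a, w a * PrE w N (HitsBefore step stop bad (step s a))
              ≤ ∑ a, w a * (C ^ N * f (step s a)) :=
                Finset.sum_le_sum fun a _ => mul_le_mul_right (ih _) _
            _ = C ^ N * ∑ a, w a * f (step s a) := by
                rw [Finset.mul_sum]
                exact Finset.sum_congr rfl fun a _ => by ring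
            _ ≤ C ^ N * (C * f s) := mul_le_mul_right (h s hb hs) _
            _ = C ^ (N + 1) * f s := by ring

/-- the exponential supersolution -/
def ch (θ : ℝ) (v : Pos d) : ℝ := ∏ j, Real.cosh (θ * (v j : ℝ))

theorem ch_pos (θ : ℝ) (v : Pos d) : 0 < ch θ v := Finset.prod_pos fun _ _ => Real.cosh_pos _

theorem ch_zero (θ : ℝ) : ch θ (0 : Pos d) = 1 := by simp [ch]

theorem ch_pair (θ : ℝ) (v : Pos d) (j : Fin d) :
    ch θ (v + dv (j, true)) + ch θ (v + dv (j, false)) = 2 * Real.cosh θ * ch θ v := by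
  have key : ∀ b : Bool, ch θ (v + dv (j, b)) =
      Real.cosh (θ * (v j : ℝ) + θ * (if b then 1 else -1)) *
        ∏ i ∈ Finset.univ.erase j, Real.cosh (θ * (v i : ℝ)) := by
    intro b
    rw [ch, ← Finset.mul_prod_erase _ _ (Finset.mem_univ j)]
    congr 1
    · congr 1
      cases b <;> simp [dv] <;> ring
    · refine Finset.prod_congr rfl fun i hi => ?_
      have : i ≠ j := Finset.ne_of_mem_erase hi
      simp [dv, this]
  rw [key true, key false, ch, ← Finset.mul_prod_erase _ _ (Finset.mem_univ j), ← add_mul,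
    ← mul_assoc]
  congr 1
  have h1 := Real.cosh_add (θ * (v j : ℝ)) θ
  have h2 := Real.cosh_sub (θ * (v j : ℝ)) θ
  simp only [if_true, mul_one, Bool.false_eq_true, if_false, mul_neg]
  rw [← sub_eq_add_neg, h1, h2]
  ring

theorem ch_sum (θ : ℝ) (v : Pos d) :
    ∑ e : Dir d, ch θ (v + dv e) = 2 * d * Real.cosh θ * ch θ v := by
  rw [Fintype.sum_prod_type]
  simp only [Fintype.sum_bool, ch_pair]
  rw [Finset.sum_const, Finset.card_univ, Fintype.card_fin, nsmul_eq_mul]
  ring

theorem nrm_le_sum (v : Pos d) : nrm v ≤ ∑ j, |(v j : ℝ)| := by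
  rw [nrm]
  refine Real.sqrt_le_iff.mpr ⟨Finset.sum_nonneg fun _ _ => abs_nonneg _, ?_⟩
  calc ∑ j, ((v j : ℝ)) ^ 2 = ∑ j, |(v j : ℝ)| * |(v j : ℝ)| :=
        Finset.sum_congr rfl fun j _ => by rw [← sq_abs]; ring
    _ ≤ ∑ j, |(v j : ℝ)| * ∑ i, |(v i : ℝ)| :=
        Finset.sum_le_sum fun j _ => mul_le_mul_of_nonneg_left
          (Finset.single_le_sum (f := fun i => |(v i : ℝ)|) (fun _ _ => abs_nonneg _)
            (Finset.mem_univ j)) (abs_nonneg _)
    _ = (∑ j, |(v j : ℝ)|) ^ 2 := by rw [← Finset.sum_mul]; ring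

theorem ch_lb (θ : ℝ) (hθ : 0 ≤ θ) (v : Pos d) : Real.exp (θ * nrm v) ≤ 2 ^ d * ch θ v := by
  calc Real.exp (θ * nrm v) ≤ Real.exp (∑ j, θ * |(v j : ℝ)|) := by
        rw [← Finset.mul_sum]
        exact Real.exp_le_exp.mpr (mul_le_mul_of_nonneg_left (nrm_le_sum v) hθ)
    _ = ∏ j, Real.exp (θ * |(v j : ℝ)|) := Real.exp_sum _ _
    _ ≤ ∏ j : Fin d, (2 * Real.cosh (θ * (v j : ℝ))) := by
        refine Finset.prod_le_prod (fun _ _ => (Real.exp_pos _).le) fun j _ => ?_
        rw [Real.cosh_eq]
        rcases abs_cases (v j : ℝ) with ⟨h, _⟩ | ⟨h, _⟩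
        · rw [h]; linarith [Real.exp_pos (-(θ * (v j : ℝ)))]
        · rw [h, mul_neg]; linarith [Real.exp_pos (θ * (v j : ℝ))]
    _ = 2 ^ d * ch θ v := by
        rw [Finset.prod_mul_distrib, ch]
        simp

theorem cosh_sub_le (θ : ℝ) (hθ : 0 ≤ θ) (hθ1 : θ ≤ 1) : Real.cosh θ - 1 ≤ θ ^ 2 := by
  have h1 := Real.cosh_le_exp_half_sq θ
  have h2 : |θ ^ 2 / 2| ≤ 1 := by
    rw [abs_of_nonneg (by positivity)]
    nlinarith
  have h3 := Real.abs_exp_sub_one_le h2
  rw [abs_of_nonneg (by positivity : (0:ℝ) ≤ θ ^ 2 / 2)] at h3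
  have h4 := (abs_le.mp h3).2
  linarith

end R5b

open R5b in
/-- displacement: moving by `y √t` within the time `t` has probability at most `C exp (-y / C)` -/
theorem walk_disp (d : ℕ) (cp : ℝ) (hcp : 0 < cp) :
    ∃ C : ℕ, 0 < C ∧ ∀ (σ α : Type) [Fintype α] (w : α → ℝ≥0∞) (step : σ → α → σ) (D : σ → Pos d)
      (act : σ → Prop) (p : ℝ), 0 < p → 2 * d * cp * p ≤ 1 / 2 → ∑ a, w a = 1 →
      SymW w step D act 0 cp p → ∀ (s : σ) (N : ℕ) (t y : ℝ), 1 ≤ t → (N : ℝ) * p ≤ t → 0 ≤ y →
      PrE w N (HitsBefore step (fun s' => ¬ act s') (fun s' => y * Real.sqrt t ≤ nrm (D s' - D s)) s)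
        ≤ ENNReal.ofReal (C * Real.exp (- y / C)) := by
  obtain ⟨C, hC⟩ := exists_nat_ge (2 ^ d * Real.exp (2 * d * cp))
  refine ⟨C + 1, Nat.succ_pos _, ?_⟩
  intro σ α _ w step D act p hp hp2 hw hS s N t y ht hNt hy
  have hst : 1 ≤ Real.sqrt t := by
    rw [Real.one_le_sqrt]; exact ht
  have hst0 : 0 < Real.sqrt t := by linarith
  set θ : ℝ := 1 / Real.sqrt t with hθ
  have hθ0 : 0 ≤ θ := by positivity
  have hθ1 : θ ≤ 1 := by
    rw [hθ, div_le_one hst0]; exact hst
  have hθ2 : θ ^ 2 = 1 / t := by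
    rw [hθ, div_pow, one_pow, Real.sq_sqrt (by linarith)]
  have hco := cosh_sub_le θ hθ0 hθ1
  have hco1 := Real.one_le_cosh θ
  set A : ℝ := 1 + 2 * d * cp * p * (Real.cosh θ - 1) with hA
  have hd0 : (0 : ℝ) ≤ 2 * d * cp * p := by positivity
  have hA1 : 1 ≤ A := by
    have : 0 ≤ 2 * d * cp * p * (Real.cosh θ - 1) := mul_nonneg hd0 (by linarith)
    linarith
  -- the supersolution
  set f : σ → ℝ≥0∞ := fun s' => ENNReal.ofReal (2 ^ d * Real.exp (-y) * ch θ (D s' - D s)) with hf
  have hmain := PrE_hb w hw step (fun s' => ¬ act s')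
    (fun s' => y * Real.sqrt t ≤ nrm (D s' - D s)) f (ENNReal.ofReal A)
    (by rw [← ENNReal.ofReal_one]; exact ENNReal.ofReal_le_ofReal hA1)
    (by
      intro s' hs'
      rw [hf, ← ENNReal.ofReal_one]
      refine ENNReal.ofReal_le_ofReal ?_
      have h1 := ch_lb θ hθ0 (D s' - D s)
      have h2 : Real.exp y ≤ Real.exp (θ * nrm (D s' - D s)) := by
        refine Real.exp_le_exp.mpr ?_
        have : θ * (y * Real.sqrt t) = y := by
          rw [hθ]; field_simp
        rw [← this]
        exact mul_le_mul_of_nonneg_left hs' hθ0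
      have h3 : Real.exp (-y) * Real.exp y = 1 := by rw [← Real.exp_add]; simp
      have h4 : Real.exp (-y) * Real.exp y ≤ Real.exp (-y) * (2 ^ d * ch θ (D s' - D s)) :=
        mul_le_mul_of_nonneg_left (h2.trans h1) (Real.exp_pos _).le
      rw [h3] at h4
      linarith)
    (by
      intro s' _ hact
      have hact' : act s' := not_not.mp hact
      obtain ⟨κ, hκ0, hκ1, hF⟩ := hS s' hact'
      have hF' := hF (fun v => ENNReal.ofReal (2 ^ d * Real.exp (-y) * ch θ (v - D s)))
      simp only [hf]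
      rw [hF']
      have hκp : 0 ≤ κ * p := mul_nonneg hκ0 hp.le
      have hκp1 : 2 * d * κ * p ≤ 2 * d * cp * p := by
        have : (0:ℝ) ≤ 2 * d := by positivity
        nlinarith [mul_le_mul_of_nonneg_left hκ1 this]
      have e1 : ∀ e : Dir d, ENNReal.ofReal (κ * p) *
          ENNReal.ofReal (2 ^ d * Real.exp (-y) * ch θ (D s' + dv e - D s)) =
          ENNReal.ofReal (κ * p * (2 ^ d * Real.exp (-y) * ch θ (D s' - D s + dv e))) := by
        intro e
        rw [← ENNReal.ofReal_mul hκp, add_sub_right_comm]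
      simp only [e1]
      rw [← ENNReal.ofReal_sum_of_nonneg (fun e _ => by
          have := ch_pos θ (D s' - D s + dv e); positivity),
        ← ENNReal.ofReal_mul (by linarith), ← ENNReal.ofReal_mul (by linarith),
        ← ENNReal.ofReal_add (mul_nonneg (by linarith) (by
          have := ch_pos θ (D s' - D s); positivity))
          (Finset.sum_nonneg fun e _ => by
            have := ch_pos θ (D s' - D s + dv e); positivity)]
      refine ENNReal.ofReal_le_ofReal ?_
      rw [← Finset.mul_sum, ← Finset.mul_sum, ch_sum]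
      have hX : 0 ≤ 2 ^ d * Real.exp (-y) * ch θ (D s' - D s) := by
        have := ch_pos θ (D s' - D s); positivity
      set X := 2 ^ d * Real.exp (-y) * ch θ (D s' - D s) with hXdef
      have : (1 - 2 * d * κ * p) * X +
          κ * p * (2 ^ d * Real.exp (-y) * (2 * d * Real.cosh θ * ch θ (D s' - D s))) =
          (1 + 2 * d * κ * p * (Real.cosh θ - 1)) * X := by
        rw [hXdef]; ring
      rw [this]
      refine mul_le_mul_of_nonneg_right ?_ hX
      rw [hA]
      have := mul_le_mul_of_nonneg_right hκp1 (by linarith : 0 ≤ Real.cosh θ - 1)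
      linarith)
    N s
  refine hmain.trans ?_
  simp only [hf, sub_self, ch_zero, mul_one]
  rw [← ENNReal.ofReal_pow (by linarith), ← ENNReal.ofReal_mul (by positivity)]
  refine ENNReal.ofReal_le_ofReal ?_
  have hAN : A ^ N ≤ Real.exp (2 * d * cp) := by
    calc A ^ N ≤ (Real.exp (2 * d * cp * p * (Real.cosh θ - 1))) ^ N := by
          refine pow_le_pow_left₀ (by linarith) ?_ N
          rw [hA]
          have := Real.add_one_le_exp (2 * d * cp * p * (Real.cosh θ - 1))
          linarith
      _ = Real.exp (N * (2 * d * cp * p * (Real.cosh θ - 1))) := by rw [← Real.exp_nat_mul]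
      _ ≤ Real.exp (2 * d * cp) := by
          refine Real.exp_le_exp.mpr ?_
          have h1 : (N : ℝ) * p * (Real.cosh θ - 1) ≤ t * (1 / t) := by
            refine mul_le_mul hNt ?_ (by linarith) (by linarith)
            rw [← hθ2]; exact hco
          have h2 : t * (1 / t) = 1 := by field_simp
          rw [h2] at h1
          have h3 : (0 : ℝ) ≤ 2 * d * cp := by positivity
          calc (N : ℝ) * (2 * d * cp * p * (Real.cosh θ - 1)) =
              2 * d * cp * (N * p * (Real.cosh θ - 1)) := by ring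
            _ ≤ 2 * d * cp * 1 := mul_le_mul_of_nonneg_left h1 h3
            _ = 2 * d * cp := mul_one _
  have hC1 : (1 : ℝ) ≤ C := by
    refine le_trans ?_ hC
    have h1 : (1 : ℝ) ≤ 2 ^ d := one_le_pow₀ (by norm_num)
    have h2 : (1 : ℝ) ≤ Real.exp (2 * d * cp) := Real.one_le_exp (by positivity)
    nlinarith
  have hexp : Real.exp (-y) ≤ Real.exp (-y / ((C + 1 : ℕ) : ℝ)) := by
    refine Real.exp_le_exp.mpr ?_
    rw [neg_div, neg_le_neg_iff]
    exact div_le_self hy (by push_cast; linarith)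
  calc A ^ N * (2 ^ d * Real.exp (-y)) = (2 ^ d * A ^ N) * Real.exp (-y) := by ring
    _ ≤ (2 ^ d * Real.exp (2 * d * cp)) * Real.exp (-y) := by
        refine mul_le_mul_of_nonneg_right ?_ (Real.exp_pos _).le
        exact mul_le_mul_of_nonneg_left hAN (by positivity)
    _ ≤ ((C + 1 : ℕ) : ℝ) * Real.exp (-y) := by
        refine mul_le_mul_of_nonneg_right ?_ (Real.exp_pos _).le
        push_cast; linarith
    _ ≤ ((C + 1 : ℕ) : ℝ) * Real.exp (-y / ((C + 1 : ℕ) : ℝ)) :=
        mul_le_mul_of_nonneg_left hexp (by positivity)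

end ZI
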