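import Pool.Agent.ZI.Ev1
import Pool.Agent.ZI.R1
import Pool.Agent.ZI.R2
import Pool.Agent.ZI.R3
import Pool.Agent.ZI.R5b

/-! # Row C4: displacement of the markers -/

set_option autoImplicit false

open scoped ENNReal BigOperators Classical

noncomputable section

namespace ZI

variable {d : ℕ}

namespace C4

/-- the letter moves the particle at the place `J` of the site `x` -/
def sp {M K : ℕ} (x : Tor d M) (J : ℕ) : Let d M K → Prop
  | none => False
  | some l => l.1 = x ∧ (l.2.1 : ℕ) = J

/-- the position of the marker after a letter -/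
theorem mkrA_fst {M K : ℕ} (η : Tor d M → ℕ) (P : Pos d × ℕ) (h : P.2 < η (tv P.1))
    (a : Let d M K) : (mkrA η P a).1 =
      (match a with
        | none => P.1
        | some l => if l.1 = tv P.1 ∧ (l.2.1 : ℕ) = P.2 then P.1 + dv l.2.2 else P.1) := by
  cases a with
  | none => rfl
  | some l =>
    show (mkr η P (l.1, (l.2.1 : ℕ), l.2.2)).1 = _
    simp only [mkr]
    by_cases h1 : l.1 = tv P.1
    · by_cases h2 : (l.2.1 : ℕ) = P.2
      · rw [if_pos ⟨by rw [h1, h2]; exact h, h1⟩, if_pos h2, if_pos ⟨h1, h2⟩]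
      · rw [if_neg (c := l.1 = tv P.1 ∧ (l.2.1 : ℕ) = P.2) (fun h => h2 h.2)]
        split_ifs <;> rfl
    · rw [if_neg (fun h => h1 h.2), if_neg (fun h => h1 h.1)]

/-- the rate at which the particle at the place `J` moves in a given direction -/
def kap (m : Model) (d K J : ℕ) : ℝ := if J < K then m.lam d J else 0

theorem lam_nonneg (m : Model) (d J : ℕ) : 0 ≤ m.lam d J := by
  unfold Model.lam
  have := m.inc_lb J
  have := m.Gm_pos
  exact div_nonneg (by linarith) (by positivity)

theorem sum_sp {m : Model} (q : Par d m) (x : Tor d q.M) (J : ℕ) (G : Dir d → ℝ≥0∞) :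
    ∑ a : Let d q.M q.K, (match a with
      | none => 0
      | some l => if l.1 = x ∧ (l.2.1 : ℕ) = J then q.w (some l) * G l.2.2 else 0) =
      ∑ e : Dir d, ENNReal.ofReal (kap m d q.K J * q.p) * G e := by
  rw [Fintype.sum_option]
  simp only [zero_add]
  rw [Fintype.sum_prod_type]
  rw [Finset.sum_eq_single x]
  · rw [Fintype.sum_prod_type]
    by_cases hJ : J < q.K
    · rw [Finset.sum_eq_single (⟨J, hJ⟩ : Fin q.K)]
      · refine Finset.sum_congr rfl fun e _ => ?_
        simp only [true_and, if_true]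
        congr 1
        simp only [Par.w, kap, if_pos hJ]
      · intro k _ hk
        refine Finset.sum_eq_zero fun e _ => ?_
        rw [if_neg]
        rintro ⟨_, h⟩
        exact hk (Fin.ext h)
      · intro h
        exact absurd (Finset.mem_univ _) h
    · rw [Finset.sum_eq_zero]
      · rw [kap, if_neg hJ]
        simp
      · intro k _
        refine Finset.sum_eq_zero fun e _ => ?_
        rw [if_neg]
        rintro ⟨_, h⟩
        exact hJ (h ▸ k.2)
  · intro y _ hy
    rw [Fintype.sum_prod_type]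
    refine Finset.sum_eq_zero fun k _ => Finset.sum_eq_zero fun e _ => ?_
    rw [if_neg]
    rintro ⟨h, _⟩
    exact hy h
  · intro h
    exact absurd (Finset.mem_univ _) h

theorem two_d_lam (m : Model) (hd : 0 < d) (J : ℕ) :
    2 * d * m.lam d J ≤ m.Gp := by
  unfold Model.lam
  have h := m.inc_ub J
  have hd' : (0 : ℝ) < 2 * d := by positivity
  rw [mul_div_cancel₀ _ hd'.ne']
  exact h

theorem kap_nonneg (m : Model) (d K J : ℕ) : 0 ≤ kap m d K J := by
  unfold kap
  split_ifs
  · exact lam_nonneg m d J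
  · exact le_rfl

theorem two_d_kap (m : Model) (hd : 0 < d) (K J : ℕ) :
    2 * d * kap m d K J ≤ m.Gp := by
  unfold kap
  split_ifs
  · exact two_d_lam m hd J
  · rw [mul_zero]
    have := m.le_Gp
    linarith

/-- the weight of the letters that do not move the particle -/
theorem sum_nsp {m : Model} (q : Par d m) (hd : 0 < d) (x : Tor d q.M) (J : ℕ) :
    ∑ a : Let d q.M q.K, (match a with
      | none => q.w none
      | some l => if l.1 = x ∧ (l.2.1 : ℕ) = J then 0 else q.w (some l)) =
      ENNReal.ofReal (1 - 2 * d * kap m d q.K J * q.p) := by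
  have h1 := sum_sp q x J (fun _ => 1)
  have h2 : (∑ a : Let d q.M q.K, (match a with
      | none => 0
      | some l => if l.1 = x ∧ (l.2.1 : ℕ) = J then q.w (some l) * 1 else 0)) +
      (∑ a : Let d q.M q.K, (match a with
      | none => q.w none
      | some l => if l.1 = x ∧ (l.2.1 : ℕ) = J then 0 else q.w (some l))) = 1 := by
    rw [← Finset.sum_add_distrib]
    refine Eq.trans ?_ (Rows.sum_w q hd)
    refine Finset.sum_congr rfl fun a _ => ?_
    cases a with
    | none => simp
    | some l =>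
      simp only
      split_ifs <;> simp
  rw [h1] at h2
  have h3 : ∑ e : Dir d, ENNReal.ofReal (kap m d q.K J * q.p) * 1 =
      ENNReal.ofReal (2 * d * kap m d q.K J * q.p) := by
    rw [Finset.sum_const, Finset.card_univ, Fintype.card_prod, Fintype.card_fin, Fintype.card_bool,
      mul_one, nsmul_eq_mul, ← ENNReal.ofReal_natCast, ← ENNReal.ofReal_mul (by positivity)]
    congr 1
    push_cast
    ring
  rw [h3] at h2
  have h4 : 0 ≤ 2 * d * kap m d q.K J * q.p := by
    have := kap_nonneg m d q.K J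
    have := q.p_pos
    positivity
  rw [ENNReal.ofReal_sub _ h4, ENNReal.ofReal_one]
  exact (ENNReal.eq_sub_of_add_eq ENNReal.ofReal_ne_top ((add_comm _ _).trans h2))

/-- the marker is a symmetric walk -/
theorem symW {m : Model} (q : Par d m) (hd : 0 < d) (cp : ℝ)
    (hcp : ∀ J, m.lam d J ≤ cp) (hcp0 : 0 ≤ cp) :
    SymW q.w (fun (s : (Tor d q.M → ℕ) × (Pos d × ℕ)) a => (stepA s.1 a, mkrA s.1 s.2 a))
      (fun s => s.2.1) (fun s => s.2.2 < s.1 (tv s.2.1)) 0 cp q.p := by
  intro s hs
  refine ⟨kap m d q.K s.2.2, kap_nonneg _ _ _ _, ?_, fun F => ?_⟩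
  · unfold kap
    split_ifs
    · exact hcp _
    · exact hcp0
  · rw [← sum_nsp q hd (tv s.2.1) s.2.2, ← sum_sp q (tv s.2.1) s.2.2 (fun e => F (s.2.1 + dv e)),
      Finset.sum_mul, ← Finset.sum_add_distrib]
    refine Finset.sum_congr rfl fun a _ => ?_
    show q.w a * F (mkrA s.1 s.2 a).1 = _
    rw [mkrA_fst s.1 s.2 hs a]
    cases a with
    | none => simp
    | some l =>
      simp only
      split_ifs <;> simp

theorem hb_of_hits {σ α : Type} (step : σ → α → σ) (act bad : σ → Prop)
    (hact : ∀ s a, act s → act (step s a)) (l : List α) :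
    ∀ s, act s → (∃ i ≤ l.length, bad ((l.take i).foldl step s)) →
      HitsBefore step (fun s => ¬ act s) bad s l := by
  induction l with
  | nil =>
    rintro s _ ⟨i, _, h⟩
    show bad s
    simpa using h
  | cons a l ih =>
    rintro s hs ⟨i, hi, h⟩
    cases i with
    | zero => exact Or.inl (by simpa using h)
    | succ i =>
      refine Or.inr ⟨fun h => h hs, ih _ (hact s a hs) ⟨i, ?_, ?_⟩⟩
      · simpa using hi
      · simpa using h

theorem act_step {m : Model} (q : Par d m) (s : (Tor d q.M → ℕ) × (Pos d × ℕ))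
    (a : Let d q.M q.K) (h : s.2.2 < s.1 (tv s.2.1)) :
    (mkrA s.1 s.2 a).2 < stepA s.1 a (tv (mkrA s.1 s.2 a).1) := by
  cases a with
  | none => exact h
  | some l =>
    have := q.M_ge
    exact Rows.mkr_lt (by omega) s.1 s.2 (l.1, (l.2.1 : ℕ), l.2.2) h

theorem sum_w_le {m : Model} (q : Par 0 m) : ∑ a, q.w a ≤ 1 := by
  rw [Fintype.sum_option]
  have h : IsEmpty (Dir 0) := by
    refine ⟨fun e => ?_⟩
    exact e.1.elim0
  rw [Finset.univ_eq_empty, Finset.sum_empty, add_zero]
  simp only [Par.w]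
  exact tsub_le_self

theorem EvE_le_one {α : Type} [Fintype α] (w : α → ℝ≥0∞) (hw : ∑ a, w a ≤ 1) (N : ℕ) (E : List α → Prop) :
    PrE w N E ≤ 1 := by
  unfold PrE
  induction N generalizing E with
  | zero =>
    rw [EvE_zero]
    split_ifs <;> simp
  | succ N ih =>
    rw [EvE_succ]
    refine (Finset.sum_le_sum fun a _ => mul_le_mul_right (ih (fun l => E (a :: l))) (w a)).trans ?_
    simpa using hw

end C4

namespace Rows

open C4 in
theorem marker_disp (m : Model) (d : ℕ) : ∃ C : ℕ, 0 < C ∧ ∀ (q : Par d m) (η : Tor d q.M → ℕ)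
    (P : Pos d × ℕ), P.2 < η (tv P.1) → ∀ (t : ℕ) (y : ℝ), 1 ≤ t → 0 ≤ y →
    PrE q.w (t * q.N1) (fun l => ∃ i ≤ l.length, y * Real.sqrt t ≤
      nrm (((l.take i).foldl (fun (s : (Tor d q.M → ℕ) × (Pos d × ℕ)) a =>
        (stepA s.1 a, mkrA s.1 s.2 a)) (η, P)).2.1 - P.1))
      ≤ ENNReal.ofReal (C * Real.exp (- y / C)) := by
  rcases Nat.eq_zero_or_pos d with rfl | hd
  · refine ⟨1, one_pos, fun q η P _ t y ht hy => ?_⟩
    have hst : 0 < Real.sqrt t := Real.sqrt_pos.2 (by exact_mod_cast ht)
    rcases hy.eq_or_lt with rfl | hy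
    · refine (EvE_le_one q.w (sum_w_le q) _ _).trans ?_
      simp
    · have h1 : PrE q.w (t * q.N1) (fun l => ∃ i ≤ l.length, y * Real.sqrt t ≤
          nrm (((l.take i).foldl (fun (s : (Tor 0 q.M → ℕ) × (Pos 0 × ℕ)) a =>
          (stepA s.1 a, mkrA s.1 s.2 a)) (η, P)).2.1 - P.1)) = 0 := by
        unfold PrE
        rw [EvE_congr q.w _ (G := fun _ => 0 * 0)]
        · rw [EvE_mul, zero_mul]
        · intro l _
          rw [if_neg, zero_mul]
          rintro ⟨i, _, hi⟩
          have h2 : nrm (((l.take i).foldl (fun (s : (Tor 0 q.M → ℕ) × (Pos 0 × ℕ)) a =>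
            (stepA s.1 a, mkrA s.1 s.2 a)) (η, P)).2.1 - P.1) = 0 := by
            simp [nrm]
          rw [h2] at hi
          have := mul_pos hy hst
          linarith
      rw [h1]
      exact zero_le
  · have hGp : 0 < m.Gp := by
      have := m.le_Gp
      linarith
    have hd' : (0 : ℝ) < 2 * d := by positivity
    obtain ⟨C, hC, hw⟩ := walk_disp d (m.Gp / (2 * d)) (by positivity)
    refine ⟨C, hC, fun q η P hP t y ht hy => ?_⟩
    have hp := q.p_pos
    have hcp : ∀ J, m.lam d J ≤ m.Gp / (2 * d) := by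
      intro J
      rw [le_div_iff₀ hd', mul_comm]
      exact two_d_lam m hd J
    have hsm : 2 * d * (m.Gp / (2 * d)) * q.p ≤ 1 / 2 := by
      rw [mul_div_cancel₀ _ hd'.ne']
      have := q.p_small
      linarith
    have hN : ((t * q.N1 : ℕ) : ℝ) * q.p ≤ t := by
      push_cast
      rw [mul_assoc]
      have h1 := q.p_ub
      have h2 : (0 : ℝ) ≤ t := by positivity
      nlinarith
    have key := hw _ _ q.w (fun (s : (Tor d q.M → ℕ) × (Pos d × ℕ)) a =>
      (stepA s.1 a, mkrA s.1 s.2 a)) (fun s => s.2.1) (fun s => s.2.2 < s.1 (tv s.2.1)) q.p hp hsm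
      (sum_w q hd) (symW q hd _ hcp (by positivity)) (η, P) (t * q.N1) t y
      (by exact_mod_cast ht) hN hy
    refine le_trans (PrE_mono q.w _ fun l _ hl => ?_) key
    exact hb_of_hits (fun (s : (Tor d q.M → ℕ) × (Pos d × ℕ)) a =>
      (stepA s.1 a, mkrA s.1 s.2 a)) (fun s => s.2.2 < s.1 (tv s.2.1))
      (fun s' => y * Real.sqrt t ≤ nrm (s'.2.1 - P.1)) (fun s a h => act_step q s a h) l _ hP hl

end Rows

end ZI
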