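import Pool.Agent.ZI.Ev0

/-! # The level function on the torus (row R6) -/

set_option autoImplicit false

open scoped ENNReal BigOperators Classical Pointwise

noncomputable section

namespace ZI.Rows

open ZI

variable {d : ℕ}

namespace R6

/-- the value of the sine at a residue class -/
theorem sin_cast {M : ℕ} [NeZero M] (a : ℤ) :
    Real.sin (2 * Real.pi * (((a : ZMod M).val : ℕ) : ℝ) / M) = Real.sin (2 * Real.pi * (a : ℝ) / M) := by
  have hM : (M : ℝ) ≠ 0 := by exact_mod_cast NeZero.ne M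
  have h1 : (((a : ZMod M).val : ℕ) : ℤ) = a % (M : ℤ) := ZMod.val_intCast a
  have h2 : (((a : ZMod M).val : ℕ) : ℝ) = ((a % (M : ℤ) : ℤ) : ℝ) := by
    rw [← h1]; push_cast; rfl
  have h3 : (a : ℝ) = ((a % (M : ℤ) : ℤ) : ℝ) + (M : ℝ) * ((a / (M : ℤ) : ℤ) : ℝ) := by
    have h := Int.emod_add_mul_ediv a (M : ℤ)
    exact_mod_cast h.symm
  rw [h2]
  conv_rhs => rw [h3]
  have h4 : 2 * Real.pi * (((a % (M : ℤ) : ℤ) : ℝ) + (M : ℝ) * ((a / (M : ℤ) : ℤ) : ℝ)) / M =
      2 * Real.pi * ((a % (M : ℤ) : ℤ) : ℝ) / M + ((a / (M : ℤ) : ℤ) : ℝ) * (2 * Real.pi) := by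
    field_simp
  rw [h4, Real.sin_add_int_mul_two_pi]

/-- the one coordinate level -/
def ell (M : ℕ) (a : ℤ) : ℝ := (M / (2 * Real.pi)) * Real.sin (2 * Real.pi * (a : ℝ) / M)

theorem Lev_eq {M : ℕ} [NeZero M] (u : Fin d → ℝ) (z : Tor d M) (x : Tor d M) (a : Fin d → ℤ)
    (h : ∀ j, x j - z j = ((a j : ℤ) : ZMod M)) : Lev u z x = ∑ j, u j * ell M (a j) := by
  unfold Lev ell
  refine Finset.sum_congr rfl fun j _ => ?_
  rw [h j, sin_cast]
  ring

theorem ell_diff_le {M : ℕ} (a b : ℤ) : |ell M a - ell M b| ≤ |(a : ℝ) - b| := by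
  rcases Nat.eq_zero_or_pos M with h | h
  · subst h; simp [ell]
  have hM : (0 : ℝ) < M := by exact_mod_cast h
  have hp := Real.pi_pos
  unfold ell
  have hs : |Real.sin (2 * Real.pi * (a : ℝ) / M) - Real.sin (2 * Real.pi * (b : ℝ) / M)| ≤
      |2 * Real.pi * (a : ℝ) / M - 2 * Real.pi * (b : ℝ) / M| := by
    have := Real.lipschitzWith_sin.dist_le_mul (2 * Real.pi * (a : ℝ) / M) (2 * Real.pi * (b : ℝ) / M)
    simpa [Real.dist_eq] using this
  rw [← mul_sub, abs_mul, abs_of_pos (by positivity : (0 : ℝ) < M / (2 * Real.pi))]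
  calc (M : ℝ) / (2 * Real.pi) *
        |Real.sin (2 * Real.pi * (a : ℝ) / M) - Real.sin (2 * Real.pi * (b : ℝ) / M)|
      ≤ (M : ℝ) / (2 * Real.pi) * |2 * Real.pi * (a : ℝ) / M - 2 * Real.pi * (b : ℝ) / M| := by
        gcongr
    _ = |(a : ℝ) - b| := by
        have : 2 * Real.pi * (a : ℝ) / M - 2 * Real.pi * (b : ℝ) / M = (2 * Real.pi / M) * ((a : ℝ) - b) := by
          ring
        rw [this, abs_mul, abs_of_pos (by positivity : (0 : ℝ) < 2 * Real.pi / M)]
        field_simp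

theorem ell_sum_le {M : ℕ} (a : ℤ) : |(ell M (a + 1) - ell M a) + (ell M (a - 1) - ell M a)| ≤
    2 * Real.pi / M := by
  rcases Nat.eq_zero_or_pos M with h | h
  · subst h; simp [ell]
  have hM : (0 : ℝ) < M := by exact_mod_cast h
  have hp := Real.pi_pos
  set θ : ℝ := 2 * Real.pi * (a : ℝ) / M with hθ
  set τ : ℝ := 2 * Real.pi / M with hτ
  have hτ0 : 0 < τ := by positivity
  have e1 : ell M (a + 1) = (1 / τ) * Real.sin (θ + τ) := by
    unfold ell
    rw [hθ, hτ]
    push_cast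
    congr 1
    · field_simp
    · congr 1; ring
  have e2 : ell M (a - 1) = (1 / τ) * Real.sin (θ - τ) := by
    unfold ell
    rw [hθ, hτ]
    push_cast
    congr 1
    · field_simp
    · congr 1; ring
  have e3 : ell M a = (1 / τ) * Real.sin θ := by
    unfold ell
    rw [hθ, hτ]
    congr 1
    field_simp
  rw [e1, e2, e3, Real.sin_add, Real.sin_sub]
  have h4 : 1 / τ * (Real.sin θ * Real.cos τ + Real.cos θ * Real.sin τ) - 1 / τ * Real.sin θ +
      (1 / τ * (Real.sin θ * Real.cos τ - Real.cos θ * Real.sin τ) - 1 / τ * Real.sin θ) =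
      - ((1 / τ) * (2 * (1 - Real.cos τ)) * Real.sin θ) := by ring
  rw [h4, abs_neg, abs_mul, abs_mul, abs_of_pos (by positivity : (0 : ℝ) < 1 / τ)]
  have h5 : |2 * (1 - Real.cos τ)| ≤ τ ^ 2 := by
    rw [abs_of_nonneg (by have := Real.cos_le_one τ; linarith)]
    have := Real.one_sub_sq_div_two_le_cos (x := τ)
    linarith
  have h6 : |Real.sin θ| ≤ 1 := Real.abs_sin_le_one θ
  calc 1 / τ * |2 * (1 - Real.cos τ)| * |Real.sin θ| ≤ 1 / τ * τ ^ 2 * 1 := by gcongr
    _ = τ := by field_simp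

theorem exp_le {x : ℝ} (hx : |x| ≤ 1) : Real.exp x ≤ 1 + x + x ^ 2 := by
  have := Real.abs_exp_sub_one_sub_id_le hx
  have h := (abs_le.mp this).2
  linarith

end R6

open R6

theorem Lev_step {M : ℕ} [NeZero M] (u : Fin d → ℝ) (z x : Tor d M) (e : Dir d) :
    |Lev u z (x + tv (dv e)) - Lev u z x| ≤ |u e.1| := by
  have h1 := Lev_eq u z x (fun j => (((x j - z j).val : ℕ) : ℤ)) (fun j => by simp)
  have h2 := Lev_eq u z (x + tv (dv e)) (fun j => (((x j - z j).val : ℕ) : ℤ) + dv e j)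
    (fun j => by simp [tv]; ring)
  rw [h1, h2, ← Finset.sum_sub_distrib]
  rw [Finset.sum_eq_single e.1]
  · rw [← mul_sub, abs_mul]
    have h3 := ell_diff_le (M := M) ((((x e.1 - z e.1).val : ℕ) : ℤ) + dv e e.1)
      (((x e.1 - z e.1).val : ℕ) : ℤ)
    have h4 : |(((((x e.1 - z e.1).val : ℕ) : ℤ) + dv e e.1 : ℤ) : ℝ) -
        ((((x e.1 - z e.1).val : ℕ) : ℤ) : ℝ)| = 1 := by
      push_cast
      rw [add_sub_cancel_left]
      simp only [dv, Pi.single_eq_same]
      split <;> simp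
    rw [h4] at h3
    calc |u e.1| * _ ≤ |u e.1| * 1 := by gcongr
      _ = |u e.1| := mul_one _
  · intro j _ hj
    have : dv e j = 0 := by simp [dv, hj]
    simp [this]
  · intro h; exact absurd (Finset.mem_univ _) h

theorem Lev_exp {M : ℕ} [NeZero M] (u : Fin d → ℝ) (hu : ∑ j, u j ^ 2 = 1) (z x : Tor d M) (a : ℝ)
    (ha : |a| ≤ 1) (ha' : 2 * Real.pi / M ≤ |a|) :
    ∑ e : Dir d, Real.exp (a * (Lev u z (x + tv (dv e)) - Lev u z x)) ≤ 2 * d + 4 * d * a ^ 2 := by
  have hu1 : ∀ j, |u j| ≤ 1 := by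
    intro j
    have h1 : u j ^ 2 ≤ 1 := by
      rw [← hu]
      exact Finset.single_le_sum (f := fun j => u j ^ 2) (fun i _ => sq_nonneg _) (Finset.mem_univ j)
    exact (sq_le_one_iff_abs_le_one _).mp h1
  rw [Fintype.sum_prod_type]
  have key : ∀ j : Fin d, ∑ b : Bool, Real.exp (a * (Lev u z (x + tv (dv (j, b))) - Lev u z x)) ≤
      2 + 4 * a ^ 2 := by
    intro j
    set c : ℤ := (((x j - z j).val : ℕ) : ℤ) with hc
    have hdiff : ∀ b : Bool, Lev u z (x + tv (dv (j, b))) - Lev u z x =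
        u j * (ell M (c + (if b then 1 else -1)) - ell M c) := by
      intro b
      have h1 := Lev_eq u z x (fun j => (((x j - z j).val : ℕ) : ℤ)) (fun j => by simp)
      have h2 := Lev_eq u z (x + tv (dv (j, b))) (fun i => (((x i - z i).val : ℕ) : ℤ) + dv (j, b) i)
        (fun j => by simp [tv]; ring)
      rw [h1, h2, ← Finset.sum_sub_distrib, Finset.sum_eq_single j]
      · simp only [dv, Pi.single_eq_same]
        rw [hc]
        ring_nf
      · intro i _ hi
        have : dv (d := d) (j, b) i = 0 := by simp [dv, hi]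
        simp [this]
      · intro h; exact absurd (Finset.mem_univ _) h
    rw [Fintype.sum_bool, hdiff true, hdiff false]
    simp only [if_true]
    have hp1 : |u j * (ell M (c + 1) - ell M c)| ≤ |u j| := by
      rw [abs_mul]
      have h3 := ell_diff_le (M := M) (c + 1) c
      have h4 : |(((c + 1 : ℤ)) : ℝ) - (c : ℝ)| = 1 := by push_cast; simp
      rw [h4] at h3
      calc |u j| * _ ≤ |u j| * 1 := by gcongr
        _ = |u j| := mul_one _
    have hm1 : |u j * (ell M (c - 1) - ell M c)| ≤ |u j| := by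
      rw [abs_mul]
      have h3 := ell_diff_le (M := M) (c - 1) c
      have h4 : |(((c - 1 : ℤ)) : ℝ) - (c : ℝ)| = 1 := by
        push_cast
        rw [show (c : ℝ) - 1 - c = -1 by ring]
        simp
      rw [h4] at h3
      calc |u j| * _ ≤ |u j| * 1 := by gcongr
        _ = |u j| := mul_one _
    have hsum := ell_sum_le (M := M) c
    set δp := u j * (ell M (c + 1) - ell M c) with hδp
    set δm := u j * (ell M (c - 1) - ell M c) with hδm
    have hif : (c + (if false = true then (1 : ℤ) else -1)) = c - 1 := by simp; ring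
    have hgoal : u j * (ell M (c + (if false = true then (1 : ℤ) else -1)) - ell M c) = δm := by
      rw [hif]
    rw [hgoal]
    have hsum' : |δp + δm| ≤ |a| := by
      have : δp + δm = u j * ((ell M (c + 1) - ell M c) + (ell M (c - 1) - ell M c)) := by
        rw [hδp, hδm]; ring
      rw [this, abs_mul]
      calc |u j| * _ ≤ 1 * (2 * Real.pi / M) := by
            gcongr
            exact hu1 j
        _ = 2 * Real.pi / M := one_mul _
        _ ≤ |a| := ha'
    have hp2 : |δp| ≤ 1 := hp1.trans (hu1 j)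
    have hm2 : |δm| ≤ 1 := hm1.trans (hu1 j)
    have e1 : Real.exp (a * δp) ≤ 1 + a * δp + (a * δp) ^ 2 := by
      apply R6.exp_le
      rw [abs_mul]
      nlinarith [abs_nonneg a, abs_nonneg δp]
    have e2 : Real.exp (a * δm) ≤ 1 + a * δm + (a * δm) ^ 2 := by
      apply R6.exp_le
      rw [abs_mul]
      nlinarith [abs_nonneg a, abs_nonneg δm]
    have e3 : a * (δp + δm) ≤ a ^ 2 := by
      calc a * (δp + δm) ≤ |a * (δp + δm)| := le_abs_self _
        _ = |a| * |δp + δm| := abs_mul _ _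
        _ ≤ |a| * |a| := by gcongr
        _ = a ^ 2 := by rw [← sq, sq_abs]
    have e4 : (a * δp) ^ 2 ≤ a ^ 2 := by
      rw [mul_pow]
      have : δp ^ 2 ≤ 1 := (sq_le_one_iff_abs_le_one _).mpr hp2
      nlinarith [sq_nonneg a]
    have e5 : (a * δm) ^ 2 ≤ a ^ 2 := by
      rw [mul_pow]
      have : δm ^ 2 ≤ 1 := (sq_le_one_iff_abs_le_one _).mpr hm2
      nlinarith [sq_nonneg a]
    nlinarith [sq_nonneg a]
  calc ∑ j : Fin d, ∑ b : Bool, Real.exp (a * (Lev u z (x + tv (dv (j, b))) - Lev u z x))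
      ≤ ∑ _j : Fin d, (2 + 4 * a ^ 2) := Finset.sum_le_sum fun j _ => key j
    _ = 2 * d + 4 * d * a ^ 2 := by
        simp [Finset.sum_const, Finset.card_univ]
        ring

theorem Lev_approx (d : ℕ) : ∃ n0 : ℕ, ∀ n : ℕ, n0 ≤ n → ∀ (u : Fin d → ℝ), ∑ j, u j ^ 2 = 1 →
    ∀ (z : Tor d (n ^ 4)) (y : Pos d), supn y ≤ 4 * n ^ 2 → |Lev u z (z + tv y) - lev u y| ≤ 1 / 4 := by
  refine ⟨50 * (d + 1), fun n hn u hu z y hy => ?_⟩
  have hn1 : 1 ≤ n := le_trans (by omega) hn
  have : NeZero (n ^ 4) := ⟨by positivity⟩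
  have hu1 : ∀ j, |u j| ≤ 1 := by
    intro j
    have h1 : u j ^ 2 ≤ 1 := by
      rw [← hu]
      exact Finset.single_le_sum (f := fun j => u j ^ 2) (fun i _ => sq_nonneg _) (Finset.mem_univ j)
    exact (sq_le_one_iff_abs_le_one _).mp h1
  have hnR : (50 * ((d : ℝ) + 1)) ≤ n := by exact_mod_cast hn
  have hn0 : (0 : ℝ) < n := by exact_mod_cast hn1
  have hp := Real.pi_pos
  have hp4 := Real.pi_lt_d2
  have key : ∀ j, |ell (n ^ 4) (y j) - (y j : ℝ)| ≤ 640 / (n : ℝ) ^ 2 := by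
    intro j
    have hyj : |(y j : ℝ)| ≤ 4 * (n : ℝ) ^ 2 := by
      have h1 : (y j).natAbs ≤ supn y := by
        unfold supn
        exact Finset.le_sup (f := fun j => (y j).natAbs) (Finset.mem_univ j)
      have h2 : (y j).natAbs ≤ 4 * n ^ 2 := h1.trans hy
      have h3 : ((y j).natAbs : ℝ) = |(y j : ℝ)| := by
        rw [Nat.cast_natAbs]; push_cast; rfl
      rw [← h3]
      exact_mod_cast h2
    set τ : ℝ := 2 * Real.pi / ((n : ℝ) ^ 4) with hτ
    have hτ0 : 0 < τ := by positivity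
    have e1 : ell (n ^ 4) (y j) = (1 / τ) * Real.sin (τ * (y j : ℝ)) := by
      unfold ell
      rw [hτ]
      push_cast
      congr 1
      · field_simp
      · congr 1; ring
    have e2 : ell (n ^ 4) (y j) - (y j : ℝ) = (1 / τ) * (Real.sin (τ * (y j : ℝ)) - τ * (y j : ℝ)) := by
      rw [e1]; field_simp
    have hτy : |τ * (y j : ℝ)| ≤ 1 := by
      rw [abs_mul, abs_of_pos hτ0]
      calc τ * |(y j : ℝ)| ≤ τ * (4 * (n : ℝ) ^ 2) := by gcongr
        _ = 8 * Real.pi / (n : ℝ) ^ 2 := by rw [hτ]; field_simp; ring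
        _ ≤ 1 := by
            rw [div_le_one (by positivity)]
            have h50 : (50 : ℝ) ≤ n := by
              have : (0 : ℝ) ≤ d := Nat.cast_nonneg d
              nlinarith
            nlinarith
    have hs : |Real.sin (τ * (y j : ℝ)) - τ * (y j : ℝ)| ≤ |τ * (y j : ℝ)| ^ 3 / 4 := by
      set x : ℝ := τ * (y j : ℝ) with hx
      have hb := Real.sin_bound hτy
      have h1 : |Real.sin x - x| ≤ |Real.sin x - (x - x ^ 3 / 6)| + |x ^ 3 / 6| := by
        have : Real.sin x - x = (Real.sin x - (x - x ^ 3 / 6)) - x ^ 3 / 6 := by ring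
        rw [this]
        exact abs_sub _ _
      have h2 : |x ^ 3 / 6| = |x| ^ 3 / 6 := by
        rw [abs_div, abs_pow]; norm_num
      have h3 : |x| ^ 5 ≤ |x| ^ 3 := pow_le_pow_of_le_one (abs_nonneg x) hτy (by norm_num)
      have h4 : 0 ≤ |x| ^ 3 := by positivity
      rw [h2] at h1
      linarith
    rw [e2, abs_mul, abs_of_pos (by positivity : (0 : ℝ) < 1 / τ)]
    calc 1 / τ * |Real.sin (τ * (y j : ℝ)) - τ * (y j : ℝ)| ≤ 1 / τ * (|τ * (y j : ℝ)| ^ 3 / 4) := by
          gcongr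
      _ = τ ^ 2 * |(y j : ℝ)| ^ 3 / 4 := by
          rw [abs_mul, abs_of_pos hτ0]
          field_simp
      _ ≤ τ ^ 2 * (4 * (n : ℝ) ^ 2) ^ 3 / 4 := by gcongr
      _ = 64 * Real.pi ^ 2 / (n : ℝ) ^ 2 := by
          rw [hτ]; field_simp; ring
      _ ≤ 640 / (n : ℝ) ^ 2 := by
          gcongr
          nlinarith
  have hL : Lev u z (z + tv y) = ∑ j, u j * ell (n ^ 4) (y j) :=
    Lev_eq u z (z + tv y) y (fun j => by simp [tv])
  rw [hL]
  unfold lev
  rw [← Finset.sum_sub_distrib]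
  calc |∑ j, (u j * ell (n ^ 4) (y j) - u j * (y j : ℝ))|
      ≤ ∑ j, |u j * ell (n ^ 4) (y j) - u j * (y j : ℝ)| := Finset.abs_sum_le_sum_abs _ _
    _ ≤ ∑ _j : Fin d, 640 / (n : ℝ) ^ 2 := by
        refine Finset.sum_le_sum fun j _ => ?_
        rw [← mul_sub, abs_mul]
        calc |u j| * _ ≤ 1 * (640 / (n : ℝ) ^ 2) := by
              gcongr
              · exact hu1 j
              · exact key j
          _ = _ := one_mul _
    _ = d * (640 / (n : ℝ) ^ 2) := by simp [Finset.sum_const, Finset.card_univ]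
    _ ≤ 1 / 4 := by
        rw [mul_div_assoc', div_le_div_iff₀ (by positivity) (by norm_num)]
        have hd0 : (0 : ℝ) ≤ d := Nat.cast_nonneg d
        nlinarith [sq_nonneg ((d : ℝ) - 1)]

end ZI.Rows
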