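import Pool.Agent.ZI.Ev1
import Pool.Agent.ZI.R1
import Pool.Agent.ZI.R2
import Pool.Agent.ZI.R3
import Pool.Agent.ZI.R6
import Pool.Agent.ZI.C4

/-! # Row C8: monotonicity, and confinement of the difference of two ordered configurations -/

set_option autoImplicit false

open scoped ENNReal BigOperators Classical

noncomputable section

namespace ZI

variable {d : ℕ}

namespace C8

/-- the configuration after a ring, site by site -/
theorem mv_apply {M : ℕ} (η : Tor d M → ℕ) (l : Lab (Tor d M) d) (z : Tor d M)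
    (h : l.2.1 < η l.1) :
    mv nbT η l z = (if z = l.1 then η l.1 - 1 else η z) +
      (if z = l.1 + tv (dv l.2.2) then 1 else 0) := by
  rw [Rows.mv_eff η l h]
  by_cases h1 : z = l.1 + tv (dv l.2.2)
  · rw [if_pos h1, ← h1, Function.update_self, Function.update_apply]
  · rw [if_neg h1, Function.update_of_ne h1, add_zero, Function.update_apply]

theorem mv_mono {M : ℕ} {η η' : Tor d M → ℕ} (h : η ≤ η') (l : Lab (Tor d M) d) :
    mv nbT η l ≤ mv nbT η' l := by
  intro z
  show mv nbT η l z ≤ mv nbT η' l z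
  have h1 : η z ≤ η' z := h z
  have h2 : η l.1 ≤ η' l.1 := h l.1
  by_cases h3 : l.2.1 < η l.1
  · have h4 : l.2.1 < η' l.1 := lt_of_lt_of_le h3 h2
    rw [mv_apply _ _ _ h3, mv_apply _ _ _ h4]
    split_ifs <;> omega
  · rw [Rows.mv_neff _ _ h3]
    by_cases h4 : l.2.1 < η' l.1
    · rw [mv_apply _ _ _ h4]
      by_cases h5 : z = l.1
      · rw [if_pos h5, h5]
        split_ifs <;> omega
      · rw [if_neg h5]
        split_ifs <;> omega
    · rw [Rows.mv_neff _ _ h4]
      exact h1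

theorem stepA_mono' {M K : ℕ} {η η' : Tor d M → ℕ} (h : η ≤ η') (a : Let d M K) :
    stepA η a ≤ stepA η' a := by
  cases a with
  | none => exact h
  | some l => exact mv_mono h _

/-- real weights of the letters -/
def wR {m : Model} (q : Par d m) (a : Let d q.M q.K) : ℝ :=
  match a with
  | none => 1 - (q.M : ℝ) ^ d * m.g q.K * q.p
  | some l => m.lam d l.2.1 * q.p

theorem lam_nonneg (m : Model) (d J : ℕ) : 0 ≤ m.lam d J := by
  unfold Model.lam
  have := m.inc_lb J
  have := m.Gm_pos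
  exact div_nonneg (by linarith) (by positivity)

theorem lam_le (m : Model) (d J : ℕ) : m.lam d J ≤ m.Gp / (2 * d) := by
  unfold Model.lam
  have h := m.inc_ub J
  gcongr

theorem g_nonneg (m : Model) (k : ℕ) : 0 ≤ m.g k := by
  induction k with
  | zero => exact m.g0.ge
  | succ k ih =>
    have := m.inc_lb k
    have := m.Gm_pos
    linarith

theorem wR_nonneg {m : Model} (q : Par d m) (a : Let d q.M q.K) : 0 ≤ wR q a := by
  cases a with
  | none =>
    have := q.p_tot
    simp only [wR]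
    linarith
  | some l =>
    have := lam_nonneg m d l.2.1
    have := q.p_pos
    simp only [wR]
    positivity

theorem w_eq {m : Model} (q : Par d m) (a : Let d q.M q.K) :
    q.w a = ENNReal.ofReal (wR q a) := by
  cases a with
  | none =>
    have h1 := g_nonneg m q.K
    have h2 := q.p_pos
    simp only [wR, Par.w]
    rw [ENNReal.ofReal_sub _ (by positivity), ENNReal.ofReal_one]
  | some l => rfl

theorem sum_wR {m : Model} (q : Par d m) (hd : 0 < d) : ∑ a, wR q a = 1 := by
  have h := Rows.sum_w q hd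
  simp only [w_eq] at h
  rw [← ENNReal.ofReal_sum_of_nonneg fun a _ => wR_nonneg q a] at h
  rwa [ENNReal.ofReal_eq_one] at h

/-- a linear functional of the configuration -/
def S {V : Type} [Fintype V] (G : V → ℝ) (ξ : V → ℕ) : ℝ := ∑ x, (ξ x : ℝ) * G x

theorem S_update {V : Type} [Fintype V] [DecidableEq V] (G : V → ℝ) (ξ : V → ℕ) (y : V) (v : ℕ) :
    S G (Function.update ξ y v) = S G ξ + ((v : ℝ) - ξ y) * G y := by
  unfold S
  have h : ∀ x, ((Function.update ξ y v x : ℕ) : ℝ) * G x =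
      (ξ x : ℝ) * G x + if x = y then ((v : ℝ) - ξ y) * G y else 0 := by
    intro x
    by_cases hx : x = y
    · subst hx
      rw [Function.update_self, if_pos rfl]
      ring
    · rw [Function.update_of_ne hx, if_neg hx, add_zero]
  rw [Finset.sum_congr rfl fun x _ => h x, Finset.sum_add_distrib]
  simp

theorem S_mv {M : ℕ} [NeZero M] (G : Tor d M → ℝ) (ξ : Tor d M → ℕ) (l : Lab (Tor d M) d) :
    S G (mv nbT ξ l) = S G ξ +
      if l.2.1 < ξ l.1 then G (l.1 + tv (dv l.2.2)) - G l.1 else 0 := by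
  by_cases h : l.2.1 < ξ l.1
  · rw [Rows.mv_eff ξ l h, if_pos h, S_update, S_update]
    have h1 : ((ξ l.1 - 1 : ℕ) : ℝ) = (ξ l.1 : ℝ) - 1 := by
      rw [Nat.cast_sub (by omega)]
      simp
    rw [h1]
    push_cast
    ring
  · rw [Rows.mv_neff ξ l h, if_neg h, add_zero]

/-- one step of the difference of two ordered configurations -/
theorem step_le {m : Model} (q : Par d m) (hd : 0 < d) (G : Tor d q.M → ℝ) (hG : ∀ x, 0 ≤ G x)
    (b : ℝ) (hb : 0 ≤ b) (hGb : ∀ x, ∑ e : Dir d, (G (x + tv (dv e)) - G x) ≤ b * G x)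
    (ξ ξ' : Tor d q.M → ℕ) (h : ξ ≤ ξ') :
    ∑ a, wR q a * (S G (stepA ξ' a) - S G (stepA ξ a)) ≤
      (1 + m.Gp / (2 * d) * q.p * b) * (S G ξ' - S G ξ) := by
  have hp := q.p_pos
  have hGp : 0 < m.Gp := by
    have := m.le_Gp
    linarith
  have hd' : (0 : ℝ) < d := by positivity
  -- the increments
  have h1 : ∀ a : Let d q.M q.K, wR q a * (S G (stepA ξ' a) - S G (stepA ξ a)) =
      wR q a * (S G ξ' - S G ξ) + (match a with
        | none => 0
        | some l => if ξ l.1 ≤ (l.2.1 : ℕ) ∧ (l.2.1 : ℕ) < ξ' l.1 then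
            m.lam d l.2.1 * q.p * (G (l.1 + tv (dv l.2.2)) - G l.1) else 0) := by
    intro a
    cases a with
    | none =>
      show wR q none * (S G ξ' - S G ξ) = _
      simp
    | some l =>
      show wR q (some l) * (S G (mv nbT ξ' (l.1, (l.2.1 : ℕ), l.2.2)) -
        S G (mv nbT ξ (l.1, (l.2.1 : ℕ), l.2.2))) = _
      rw [S_mv, S_mv]
      have h2 : ξ l.1 ≤ ξ' l.1 := h l.1
      have h5 : wR q (some l) = m.lam d l.2.1 * q.p := rfl
      simp only [h5]
      by_cases h3 : (l.2.1 : ℕ) < ξ l.1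
      · rw [if_pos h3, if_pos (lt_of_lt_of_le h3 h2), if_neg (by omega)]
        ring
      · rw [if_neg h3]
        by_cases h4 : (l.2.1 : ℕ) < ξ' l.1
        · rw [if_pos h4, if_pos ⟨by omega, h4⟩]
          ring
        · rw [if_neg h4, if_neg (fun h => h4 h.2)]
          ring
  rw [Finset.sum_congr rfl fun a _ => h1 a, Finset.sum_add_distrib, ← Finset.sum_mul, sum_wR q hd,
    Fintype.sum_option]
  simp only [zero_add]
  rw [Fintype.sum_prod_type]
  have h2 : ∀ x : Tor d q.M, ∑ y : Fin q.K × Dir d, (if ξ x ≤ (y.1 : ℕ) ∧ (y.1 : ℕ) < ξ' x then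
      m.lam d y.1 * q.p * (G (x + tv (dv y.2)) - G x) else 0) ≤
      m.Gp / (2 * d) * q.p * b * (((ξ' x : ℝ) - ξ x) * G x) := by
    intro x
    rw [Fintype.sum_prod_type]
    have h3 : ∀ k : Fin q.K, ∑ e : Dir d, (if ξ x ≤ (k : ℕ) ∧ (k : ℕ) < ξ' x then
        m.lam d k * q.p * (G (x + tv (dv e)) - G x) else 0) ≤
        if ξ x ≤ (k : ℕ) ∧ (k : ℕ) < ξ' x then m.Gp / (2 * d) * q.p * b * G x else 0 := by
      intro k
      split_ifs with h4
      · rw [← Finset.mul_sum]
        have h5 := lam_nonneg m d k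
        have h6 := lam_le m d k
        have h7 := hG x
        calc m.lam d k * q.p * ∑ e : Dir d, (G (x + tv (dv e)) - G x)
            ≤ m.lam d k * q.p * (b * G x) := by
              exact mul_le_mul_of_nonneg_left (hGb x) (by positivity)
          _ ≤ m.Gp / (2 * d) * q.p * (b * G x) := by gcongr
          _ = m.Gp / (2 * d) * q.p * b * G x := by ring
      · simp
    refine (Finset.sum_le_sum fun k _ => h3 k).trans ?_
    rw [← Finset.sum_filter, Finset.sum_const, nsmul_eq_mul]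
    have h4 : (Finset.univ.filter fun k : Fin q.K => ξ x ≤ (k : ℕ) ∧ (k : ℕ) < ξ' x).card ≤
        ξ' x - ξ x := by
      rw [← Nat.card_Ico]
      refine Finset.card_le_card_of_injOn (fun k => (k : ℕ)) ?_ ?_
      · intro k hk
        have := (Finset.mem_filter.1 hk).2
        exact Finset.mem_coe.2 (Finset.mem_Ico.2 this)
      · intro k _ k' _ hkk
        exact Fin.ext hkk
    have h5 : ((Finset.univ.filter fun k : Fin q.K => ξ x ≤ (k : ℕ) ∧ (k : ℕ) < ξ' x).card : ℝ) ≤
        (ξ' x : ℝ) - ξ x := by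
      rw [← Nat.cast_sub (h x)]
      exact_mod_cast h4
    have h6 := hG x
    calc _ ≤ ((ξ' x : ℝ) - ξ x) * (m.Gp / (2 * d) * q.p * b * G x) := by
          exact mul_le_mul_of_nonneg_right h5 (by positivity)
      _ = _ := by ring
  have h3 := Finset.sum_le_sum fun x (_ : x ∈ Finset.univ) => h2 x
  rw [← Finset.mul_sum] at h3
  have h4 : ∑ x, ((ξ' x : ℝ) - ξ x) * G x = S G ξ' - S G ξ := by
    unfold S
    rw [← Finset.sum_sub_distrib]
    exact Finset.sum_congr rfl fun x _ => by ring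
  rw [h4] at h3
  linarith

theorem S_mono {V : Type} [Fintype V] (G : V → ℝ) (hG : ∀ x, 0 ≤ G x) {ξ ξ' : V → ℕ}
    (h : ξ ≤ ξ') : 0 ≤ S G ξ' - S G ξ := by
  unfold S
  rw [← Finset.sum_sub_distrib]
  refine Finset.sum_nonneg fun x _ => ?_
  have h1 : (ξ x : ℝ) ≤ ξ' x := by exact_mod_cast h x
  have h2 := hG x
  nlinarith

theorem S_ge {V : Type} [Fintype V] (G : V → ℝ) (hG : ∀ x, 0 ≤ G x) {ξ ξ' : V → ℕ}
    (h : ξ ≤ ξ') (x : V) (hx : ξ x ≠ ξ' x) : G x ≤ S G ξ' - S G ξ := by
  unfold S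
  rw [← Finset.sum_sub_distrib]
  have h0 : ∀ y ∈ Finset.univ, 0 ≤ (ξ' y : ℝ) * G y - (ξ y : ℝ) * G y := by
    intro y _
    have h1 : (ξ y : ℝ) ≤ ξ' y := by exact_mod_cast h y
    have h2 := hG y
    nlinarith
  refine le_trans ?_ (Finset.single_le_sum h0 (Finset.mem_univ x))
  have h1 : (ξ x : ℝ) + 1 ≤ ξ' x := by
    have := lt_of_le_of_ne (h x) hx
    exact_mod_cast this
  have h2 := hG x
  nlinarith

/-- the machine of the two configurations with the time -/
def stp {M K : ℕ} (s : ℕ × (Tor d M → ℕ) × (Tor d M → ℕ)) (a : Let d M K) :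
    ℕ × (Tor d M → ℕ) × (Tor d M → ℕ) := (s.1 + 1, stepA s.2.1 a, stepA s.2.2 a)

theorem foldl_stp {M K : ℕ} (l : List (Let d M K)) : ∀ s : ℕ × (Tor d M → ℕ) × (Tor d M → ℕ),
    l.foldl stp s = (s.1 + l.length, l.foldl stepA s.2.1, l.foldl stepA s.2.2) := by
  induction l with
  | nil => intro s; rfl
  | cons a l ih =>
    intro s
    rw [List.foldl_cons, ih]
    simp only [stp, List.foldl_cons, List.length_cons]
    congr 1
    omega

end C8

namespace Rows

open C8

theorem stepA_mono {M K : ℕ} {η η' : Tor d M → ℕ} (h : η ≤ η') (a : Let d M K) :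
    stepA η a ≤ stepA η' a := stepA_mono' h a

theorem confine (m : Model) (q : Par d m) (u : Fin d → ℝ) (hu : ∑ j, u j ^ 2 = 1) (z : Tor d q.M)
    (a : ℝ) (ha : |a| ≤ 1) (ha' : 2 * Real.pi / q.M ≤ |a|) (Θ : ℕ → ℝ)
    (hΘ : ∀ i, Θ i + 2 * m.Gp * a ^ 2 * q.p ≤ Θ (i + 1)) (η η' : Tor d q.M → ℕ) (h : η ≤ η') (N : ℕ) :
    PrE q.w N (fun l => ∃ i ≤ l.length, ∃ x, (l.take i).foldl stepA η x ≠ (l.take i).foldl stepA η' x ∧
      Θ i ≤ a * Lev u z x) ≤
      ∑ x, ((η' x - η x : ℕ) : ℝ≥0∞) * ENNReal.ofReal (Real.exp (a * Lev u z x - Θ 0)) := by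
  have hd : 0 < d := by
    rcases Nat.eq_zero_or_pos d with rfl | hd
    · simp at hu
    · exact hd
  have hd' : (0 : ℝ) < d := by positivity
  have hGp : 0 < m.Gp := by
    have := m.le_Gp
    linarith
  have hp := q.p_pos
  set G : Tor d q.M → ℝ := fun x => Real.exp (a * Lev u z x) with hGdef
  have hG : ∀ x, 0 ≤ G x := fun x => (Real.exp_pos _).le
  have hGb : ∀ x, ∑ e : Dir d, (G (x + tv (dv e)) - G x) ≤ (4 * d * a ^ 2) * G x := by
    intro x
    have h1 := Lev_exp u hu z x a ha ha'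
    have h2 : ∑ e : Dir d, (G (x + tv (dv e)) - G x) =
        G x * (∑ e : Dir d, Real.exp (a * (Lev u z (x + tv (dv e)) - Lev u z x)) - 2 * d) := by
      rw [Finset.sum_sub_distrib, Finset.sum_const, Finset.card_univ, Fintype.card_prod,
        Fintype.card_fin, Fintype.card_bool, nsmul_eq_mul, mul_sub, Finset.mul_sum]
      congr 1
      · refine Finset.sum_congr rfl fun e _ => ?_
        simp only [hGdef]
        rw [← Real.exp_add]
        congr 1
        ring
      · push_cast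
        ring
    rw [h2]
    have h3 := hG x
    have h4 : ∑ e : Dir d, Real.exp (a * (Lev u z (x + tv (dv e)) - Lev u z x)) - 2 * d ≤
        4 * d * a ^ 2 := by linarith
    calc _ ≤ G x * (4 * d * a ^ 2) := mul_le_mul_of_nonneg_left h4 h3
      _ = _ := by ring
  set f : ℕ × (Tor d q.M → ℕ) × (Tor d q.M → ℕ) → ℝ≥0∞ := fun s =>
    ENNReal.ofReal ((S G s.2.2 - S G s.2.1) * Real.exp (- Θ s.1)) with hf
  have key := PrE_hitsBefore_le q.w (sum_w q hd) (stp (K := q.K))
    (fun s => ¬ s.2.1 ≤ s.2.2)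
    (fun s => s.2.1 ≤ s.2.2 ∧ ∃ x, s.2.1 x ≠ s.2.2 x ∧ Θ s.1 ≤ a * Lev u z x) f 1 le_rfl
    (by
      rintro ⟨i, ξ, ξ'⟩ ⟨h1, x, h2, h3⟩
      simp only at h1 h2 h3
      have h4 := S_ge G hG h1 x h2
      simp only [hf]
      rw [← ENNReal.ofReal_one]
      refine ENNReal.ofReal_le_ofReal ?_
      have h5 : Real.exp (Θ i) ≤ G x := Real.exp_le_exp.2 h3
      calc (1 : ℝ) = Real.exp (Θ i) * Real.exp (- Θ i) := by
            rw [← Real.exp_add]
            simp
        _ ≤ _ := mul_le_mul_of_nonneg_right (h5.trans h4) (Real.exp_pos _).le)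
    (by
      rintro ⟨i, ξ, ξ'⟩ _ h1
      simp only [not_not] at h1
      rw [one_mul]
      simp only [hf, stp]
      have h2 : ∀ b : Let d q.M q.K, q.w b * ENNReal.ofReal
          ((S G (stepA ξ' b) - S G (stepA ξ b)) * Real.exp (- Θ (i + 1))) =
          ENNReal.ofReal (wR q b * ((S G (stepA ξ' b) - S G (stepA ξ b)) *
            Real.exp (- Θ (i + 1)))) := by
        intro b
        rw [w_eq, ENNReal.ofReal_mul (wR_nonneg q b)]
      rw [Finset.sum_congr rfl fun b _ => h2 b, ← ENNReal.ofReal_sum_of_nonneg]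
      · refine ENNReal.ofReal_le_ofReal ?_
        have h3 := step_le q hd G hG (4 * d * a ^ 2) (by positivity) hGb ξ ξ' h1
        have h4 := S_mono G hG h1
        have h5 : ∑ b, wR q b * ((S G (stepA ξ' b) - S G (stepA ξ b)) * Real.exp (- Θ (i + 1))) =
            (∑ b, wR q b * (S G (stepA ξ' b) - S G (stepA ξ b))) * Real.exp (- Θ (i + 1)) := by
          rw [Finset.sum_mul]
          exact Finset.sum_congr rfl fun b _ => by ring
        rw [h5]
        have h6 : 1 + m.Gp / (2 * d) * q.p * (4 * d * a ^ 2) ≤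
            Real.exp (2 * m.Gp * a ^ 2 * q.p) := by
          have h7 := Real.add_one_le_exp (2 * m.Gp * a ^ 2 * q.p)
          have h8 : m.Gp / (2 * d) * q.p * (4 * d * a ^ 2) = 2 * m.Gp * a ^ 2 * q.p := by
            field_simp
            ring
          linarith
        calc _ ≤ ((1 + m.Gp / (2 * d) * q.p * (4 * d * a ^ 2)) * (S G ξ' - S G ξ)) *
              Real.exp (- Θ (i + 1)) := mul_le_mul_of_nonneg_right h3 (Real.exp_pos _).le
          _ ≤ (Real.exp (2 * m.Gp * a ^ 2 * q.p) * (S G ξ' - S G ξ)) *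
              Real.exp (- Θ (i + 1)) := by gcongr
          _ = (S G ξ' - S G ξ) * Real.exp (2 * m.Gp * a ^ 2 * q.p - Θ (i + 1)) := by
              rw [sub_eq_add_neg (2 * m.Gp * a ^ 2 * q.p), Real.exp_add]
              ring
          _ ≤ (S G ξ' - S G ξ) * Real.exp (- Θ i) := by
              refine mul_le_mul_of_nonneg_left (Real.exp_le_exp.2 ?_) h4
              have := hΘ i
              linarith
      · intro b _
        have := wR_nonneg q b
        have := S_mono G hG (stepA_mono' h1 b)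
        have := Real.exp_pos (- Θ (i + 1))
        positivity) N (0, η, η')
  rw [one_pow, one_mul] at key
  have h0 : f (0, η, η') =
      ∑ x, ((η' x - η x : ℕ) : ℝ≥0∞) * ENNReal.ofReal (Real.exp (a * Lev u z x - Θ 0)) := by
    simp only [hf]
    have h1 : (S G η' - S G η) * Real.exp (- Θ 0) =
        ∑ x, ((η' x - η x : ℕ) : ℝ) * Real.exp (a * Lev u z x - Θ 0) := by
      unfold S
      rw [← Finset.sum_sub_distrib, Finset.sum_mul]
      refine Finset.sum_congr rfl fun x _ => ?_
      rw [Nat.cast_sub (h x), sub_eq_add_neg (a * Lev u z x), Real.exp_add]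
      ring
    rw [h1, ENNReal.ofReal_sum_of_nonneg]
    · refine Finset.sum_congr rfl fun x _ => ?_
      rw [ENNReal.ofReal_mul (by positivity), ENNReal.ofReal_natCast]
    · intro x _
      positivity
  rw [← h0]
  refine le_trans (PrE_mono q.w _ fun l _ hl => ?_) key
  refine C4.hb_of_hits (stp (K := q.K)) (fun s => s.2.1 ≤ s.2.2) _
    (fun s b hs => stepA_mono' hs b) l (0, η, η') h ?_
  obtain ⟨i, hi, x, hx, hx2⟩ := hl
  refine ⟨i, hi, ?_⟩
  rw [foldl_stp]
  have hord : ∀ (l : List (Let d q.M q.K)) (ξ ξ' : Tor d q.M → ℕ), ξ ≤ ξ' →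
      l.foldl stepA ξ ≤ l.foldl stepA ξ' := by
    intro l
    induction l with
    | nil => exact fun _ _ h => h
    | cons b l ih => exact fun ξ ξ' h => ih _ _ (stepA_mono' h b)
  refine ⟨hord _ _ _ h, x, hx, ?_⟩
  simp only [zero_add, List.length_take]
  rw [min_eq_left hi]
  exact hx2

end Rows

end ZI
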