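import Pool.Agent.ZI.ProcE
import Pool.Agent.ZI.R1
import Pool.Agent.ZI.R2
import Pool.Agent.ZI.R3
import Pool.Agent.ZI.C5
import Pool.Agent.ZI.C6
import Pool.Agent.ZI.C8
import Pool.Agent.ZI.D1

/-! # Row CK: the level cap -/

set_option autoImplicit false

open scoped ENNReal BigOperators Classical

noncomputable section

namespace ZI.CK

open ZI ZI.R2aux

variable {d : ℕ}

/-! ### labels that are dropped and never effective -/

section general

variable {V : Type}

/-- along the list of labels started from `η`, the labels that violate `Q` are not effective -/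
def OKL (nb : V → Dir d → Option V) (Q : Lab V d → Bool) : (V → ℕ) → List (Lab V d) → Prop
  | _, [] => True
  | η, b :: L => (¬ Q b = true → ¬ b.2.1 < η b.1) ∧ OKL nb Q (mv nb η b) L

theorem mv_neff (nb : V → Dir d → Option V) (η : V → ℕ) (b : Lab V d) (h : ¬ b.2.1 < η b.1) :
    mv nb η b = η := by
  unfold mv
  rw [if_neg h]

theorem mv_none (nb : V → Dir d → Option V) (η : V → ℕ) (l : Lab V d) (h : l.2.1 < η l.1)
    (hn : nb l.1 l.2.2 = none) (z : V) :
    mv nb η l z = if z = l.1 then η l.1 - 1 else η z := by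
  unfold mv
  rw [if_pos h, hn]
  dsimp only
  rw [Function.update_apply]

theorem mv_some (nb : V → Dir d → Option V) (η : V → ℕ) (l : Lab V d) (h : l.2.1 < η l.1) (y : V)
    (hn : nb l.1 l.2.2 = some y) (z : V) :
    mv nb η l z = (if z = l.1 then η l.1 - 1 else η z) + (if z = y then 1 else 0) := by
  unfold mv
  rw [if_pos h, hn]
  dsimp only
  by_cases hz : z = y
  · rw [if_pos hz, hz, Function.update_self, Function.update_apply]
  · rw [if_neg hz, Function.update_of_ne hz, add_zero, Function.update_apply]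

theorem stepR_neff (nb : V → Dir d → Option V) (pr : Pos d → V) (G : Set (Pos d))
    (s : (V → ℕ) × Set (Pos d)) (hs : s.2 ⊆ G) (b : Lab V d) (h : ¬ b.2.1 < s.1 b.1) :
    stepR nb pr G s b = s := by
  unfold stepR
  refine Prod.ext ?_ ?_
  · exact mv_neff nb s.1 b h
  · show infMv nb pr s.1 s.2 b ∩ G = s.2
    unfold infMv
    rw [if_neg h, Set.inter_eq_left.2 hs]

theorem filter_mv (nb : V → Dir d → Option V) (Q : Lab V d → Bool) (L : List (Lab V d)) :
    ∀ η : V → ℕ, OKL nb Q η L →
      (L.filter Q).foldl (mv nb) η = L.foldl (mv nb) η := by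
  induction L with
  | nil => exact fun _ _ => rfl
  | cons b L ih =>
    intro η h
    by_cases hb : Q b = true
    · rw [List.filter_cons_of_pos hb, List.foldl_cons, List.foldl_cons]
      exact ih _ h.2
    · rw [List.filter_cons_of_neg hb, List.foldl_cons]
      rw [mv_neff nb η b (h.1 hb)]
      refine ih _ ?_
      have h2 := h.2
      rwa [mv_neff nb η b (h.1 hb)] at h2

theorem filter_stepR (nb : V → Dir d → Option V) (pr : Pos d → V) (Q : Lab V d → Bool)
    (G : Set (Pos d)) (L : List (Lab V d)) :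
    ∀ s : (V → ℕ) × Set (Pos d), s.2 ⊆ G → OKL nb Q s.1 L →
      (L.filter Q).foldl (stepR nb pr G) s = L.foldl (stepR nb pr G) s := by
  induction L with
  | nil => exact fun _ _ _ => rfl
  | cons b L ih =>
    intro s hs h
    by_cases hb : Q b = true
    · rw [List.filter_cons_of_pos hb, List.foldl_cons, List.foldl_cons]
      exact ih _ Set.inter_subset_right h.2
    · rw [List.filter_cons_of_neg hb, List.foldl_cons]
      rw [stepR_neff nb pr G s hs b (h.1 hb)]
      refine ih _ hs ?_
      have h2 := h.2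
      rwa [mv_neff nb s.1 b (h.1 hb)] at h2

/-- the sites visited along a list -/
def visL (nb : V → Dir d → Option V) (pr : Pos d → V) (G : Set (Pos d))
    (s : (V → ℕ) × Set (Pos d)) (L : List (Lab V d)) : Set (Pos d) :=
  {z | ∃ i ≤ L.length, z ∈ ((L.take i).foldl (stepR nb pr G) s).2}

theorem visL_nil (nb : V → Dir d → Option V) (pr : Pos d → V) (G : Set (Pos d))
    (s : (V → ℕ) × Set (Pos d)) : visL nb pr G s [] = s.2 := by
  unfold visL
  ext z
  simp

theorem visL_cons (nb : V → Dir d → Option V) (pr : Pos d → V) (G : Set (Pos d))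
    (s : (V → ℕ) × Set (Pos d)) (b : Lab V d) (L : List (Lab V d)) :
    visL nb pr G s (b :: L) = s.2 ∪ visL nb pr G (stepR nb pr G s b) L := by
  unfold visL
  ext z
  simp only [Set.mem_setOf_eq, Set.mem_union]
  constructor
  · rintro ⟨i, hi, hz⟩
    cases i with
    | zero =>
      left
      simpa using hz
    | succ i =>
      right
      refine ⟨i, by simpa using hi, ?_⟩
      simpa using hz
  · rintro (hz | ⟨i, hi, hz⟩)
    · exact ⟨0, Nat.zero_le _, by simpa using hz⟩
    · exact ⟨i + 1, by simpa using hi, by simpa using hz⟩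

theorem sub_visL (nb : V → Dir d → Option V) (pr : Pos d → V) (G : Set (Pos d))
    (s : (V → ℕ) × Set (Pos d)) (L : List (Lab V d)) : s.2 ⊆ visL nb pr G s L := by
  intro z hz
  exact ⟨0, Nat.zero_le _, by simpa using hz⟩

theorem filter_visL (nb : V → Dir d → Option V) (pr : Pos d → V) (Q : Lab V d → Bool)
    (G : Set (Pos d)) (L : List (Lab V d)) :
    ∀ s : (V → ℕ) × Set (Pos d), s.2 ⊆ G → OKL nb Q s.1 L →
      visL nb pr G s (L.filter Q) = visL nb pr G s L := by
  induction L with
  | nil => exact fun _ _ _ => rfl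
  | cons b L ih =>
    intro s hs h
    by_cases hb : Q b = true
    · rw [List.filter_cons_of_pos hb, visL_cons, visL_cons]
      rw [ih _ Set.inter_subset_right h.2]
    · rw [List.filter_cons_of_neg hb, visL_cons]
      rw [stepR_neff nb pr G s hs b (h.1 hb)]
      have h2 := h.2
      rw [mv_neff nb s.1 b (h.1 hb)] at h2
      rw [ih s hs h2, Set.union_eq_self_of_subset_left (sub_visL nb pr G s L)]

end general

/-- dropping labels that are never effective changes nothing -/
theorem eqEnv_cap (E : Env d) (K : ℕ)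
    (h : ∀ t, OKL E.nb (fun b => decide (b.2.1 < K)) (cfg E.nb E.η0 E.U t) (E.U t)) :
    EqEnv E (capE K E) := by
  have hc : ∀ t, cfg E.nb E.η0 (capE K E).U t = cfg E.nb E.η0 E.U t := by
    intro t
    induction t with
    | zero => rfl
    | succ t ih =>
      show ((E.U t).filter (fun b => decide (b.2.1 < K))).foldl (mv E.nb)
        (cfg E.nb E.η0 (capE K E).U t) = (E.U t).foldl (mv E.nb) (cfg E.nb E.η0 E.U t)
      rw [ih]
      exact filter_mv E.nb (fun b => decide (b.2.1 < K)) (E.U t) _ (h t)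
  have hi : ∀ (G : ℕ → Set (Pos d)) (s : ℕ) (A : Set (Pos d)) (j : ℕ),
      inf E.nb E.pr E.η0 (capE K E).U G s A j = inf E.nb E.pr E.η0 E.U G s A j := by
    intro G s A j
    induction j with
    | zero =>
      show {z | z ∈ A ∧ z ∈ G s ∧ 0 < cfg E.nb E.η0 (capE K E).U s (E.pr z)} = _
      rw [hc s]
      rfl
    | succ j ih =>
      show (((E.U (s + j)).filter (fun b => decide (b.2.1 < K))).foldl (stepR E.nb E.pr (G (s + j)))
        (cfg E.nb E.η0 (capE K E).U (s + j), inf E.nb E.pr E.η0 (capE K E).U G s A j ∩ G (s + j))).2 =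
        _
      rw [ih, hc]
      exact congrArg Prod.snd (filter_stepR E.nb E.pr (fun b => decide (b.2.1 < K)) (G (s + j)) (E.U (s + j))
        (cfg E.nb E.η0 E.U (s + j), inf E.nb E.pr E.η0 E.U G s A j ∩ G (s + j))
        Set.inter_subset_right (h (s + j)))
  refine ⟨fun t x => ?_, fun G s A j => (hi G s A j).symm, fun G s A j => ?_⟩
  · show 0 < cfg E.nb E.η0 E.U t (E.pr x) ↔ 0 < cfg E.nb E.η0 (capE K E).U t (E.pr x)
    rw [hc]
  · show visL E.nb E.pr (G (s + j)) (cfg E.nb E.η0 E.U (s + j),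
        inf E.nb E.pr E.η0 E.U G s A j ∩ G (s + j)) (E.U (s + j)) =
      visL E.nb E.pr (G (s + j)) (cfg E.nb E.η0 (capE K E).U (s + j),
        inf E.nb E.pr E.η0 (capE K E).U G s A j ∩ G (s + j))
        ((E.U (s + j)).filter (fun b => decide (b.2.1 < K)))
    rw [hi, hc]
    exact (filter_visL E.nb E.pr (fun b => decide (b.2.1 < K)) (G (s + j)) (E.U (s + j))
        (cfg E.nb E.η0 E.U (s + j), inf E.nb E.pr E.η0 E.U G s A j ∩ G (s + j))
        Set.inter_subset_right (h (s + j))).symm

/-! ### the killed box is below the torus -/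

/-- the representative in the box -/
def kp {M : ℕ} (R : ℕ) (b : Lab (Tor d M) d) : Option (Lab (Pos d) d) :=
  if h : ∃ x : Pos d, supn x ≤ R ∧ tv x = b.1 then some (h.choose, b.2) else none

theorem natAbs_le_supn (x : Pos d) (j : Fin d) : (x j).natAbs ≤ supn x :=
  Finset.le_sup (f := fun j => (x j).natAbs) (Finset.mem_univ j)

/-- the projection is injective on the box -/
theorem tv_inj {M : ℕ} {R : ℕ} (hM : 2 * R < M) {x y : Pos d} (hx : supn x ≤ R) (hy : supn y ≤ R)
    (h : (tv x : Tor d M) = tv y) : x = y := by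
  funext j
  have h1 : ((x j : ℤ) : ZMod M) = ((y j : ℤ) : ZMod M) := congrFun h j
  have h2 := (natAbs_le_supn x j).trans hx
  have h3 := (natAbs_le_supn y j).trans hy
  have h4 : ((x j - y j : ℤ) : ZMod M) = 0 := by
    push_cast
    rw [h1, sub_self]
  rw [ZMod.intCast_zmod_eq_zero_iff_dvd] at h4
  have h5 : x j - y j = 0 := by
    refine Int.eq_zero_of_abs_lt_dvd h4 ?_
    rw [abs_lt]
    omega
  omega

/-- the killed configuration is below the torus configuration, and vanishes off the box -/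
def Inv {M : ℕ} (R : ℕ) (ξ : Pos d → ℕ) (η : Tor d M → ℕ) : Prop :=
  (∀ x, supn x ≤ R → ξ x ≤ η (tv x)) ∧ ∀ x, R < supn x → ξ x = 0

theorem nbB_some {R : ℕ} {x y : Pos d} {e : Dir d} (h : nbB R x e = some y) :
    y = x + dv e ∧ supn y ≤ R := by
  unfold nbB at h
  split_ifs at h with h1
  have h2 := Option.some.inj h
  exact ⟨h2.symm, by rw [← h2]; exact h1⟩

theorem mvB_none {R : ℕ} (ξ : Pos d → ℕ) (l : Lab (Pos d) d) (h : l.2.1 < ξ l.1)
    (hn : nbB R l.1 l.2.2 = none) (z : Pos d) :
    mv (nbB R) ξ l z = if z = l.1 then ξ l.1 - 1 else ξ z := by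
  rw [mv_none (nbB R) ξ l h hn z]
  congr

theorem mvB_some {R : ℕ} (ξ : Pos d → ℕ) (l : Lab (Pos d) d) (h : l.2.1 < ξ l.1) (y : Pos d)
    (hn : nbB R l.1 l.2.2 = some y) (z : Pos d) :
    mv (nbB R) ξ l z = (if z = l.1 then ξ l.1 - 1 else ξ z) + (if z = y then 1 else 0) := by
  rw [mv_some (nbB R) ξ l h y hn z]
  congr

theorem inv_step_some {M : ℕ} {R : ℕ} (hM : 2 * R < M) (ξ : Pos d → ℕ) (η : Tor d M → ℕ)
    (h : Inv R ξ η) (x' : Pos d) (b : Lab (Tor d M) d) (hx' : supn x' ≤ R) (hb : tv x' = b.1) :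
    Inv R (mv (nbB R) ξ (x', b.2)) (mv nbT η b) := by
  have h0 : ξ x' ≤ η b.1 := by
    rw [← hb]
    exact h.1 x' hx'
  by_cases h1 : b.2.1 < ξ x'
  · have h2 : b.2.1 < η b.1 := lt_of_lt_of_le h1 h0
    have hT := C8.mv_apply η b
    cases hn : nbB R x' b.2.2 with
    | none =>
      refine ⟨fun x hx => ?_, fun x hx => ?_⟩
      · rw [mvB_none ξ (x', b.2) h1 hn, hT _ h2]
        show (if x = x' then ξ x' - 1 else ξ x) ≤ _
        by_cases hxx : x = x'
        · rw [if_pos hxx, if_pos (by rw [hxx, hb])]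
          omega
        · rw [if_neg hxx, if_neg (fun h3 => hxx (tv_inj hM hx hx' (h3.trans hb.symm)))]
          have := h.1 x hx
          omega
      · rw [mvB_none ξ (x', b.2) h1 hn]
        show (if x = x' then ξ x' - 1 else ξ x) = 0
        rw [if_neg (fun h3 => by rw [h3] at hx; omega)]
        exact h.2 x hx
    | some y =>
      obtain ⟨hy, hyR⟩ := nbB_some hn
      refine ⟨fun x hx => ?_, fun x hx => ?_⟩
      · rw [mvB_some ξ (x', b.2) h1 y hn, hT _ h2]
        show (if x = x' then ξ x' - 1 else ξ x) + (if x = y then 1 else 0) ≤ _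
        have h4 : (if x = y then 1 else 0) ≤ (if tv x = b.1 + tv (dv b.2.2) then 1 else 0) := by
          by_cases hxy : x = y
          · rw [if_pos hxy, if_pos]
            rw [hxy, hy, Rows.tv_add, hb]
          · rw [if_neg hxy]
            exact Nat.zero_le _
        refine Nat.add_le_add ?_ h4
        by_cases hxx : x = x'
        · rw [if_pos hxx, if_pos (by rw [hxx, hb])]
          omega
        · rw [if_neg hxx, if_neg (fun h3 => hxx (tv_inj hM hx hx' (h3.trans hb.symm)))]
          exact h.1 x hx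
      · rw [mvB_some ξ (x', b.2) h1 y hn]
        show (if x = x' then ξ x' - 1 else ξ x) + (if x = y then 1 else 0) = 0
        rw [if_neg (fun h3 => by rw [h3] at hx; omega), if_neg (fun h3 => by rw [h3] at hx; omega)]
        exact h.2 x hx
  · have h5 : mv (nbB R) ξ (x', b.2) = ξ := mv_neff (nbB R) ξ (x', b.2) h1
    rw [h5]
    refine ⟨fun x hx => ?_, h.2⟩
    by_cases h2 : b.2.1 < η b.1
    · rw [C8.mv_apply η b _ h2]
      by_cases hxx : x = x'
      · rw [if_pos (by rw [hxx, hb]), hxx]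
        omega
      · rw [if_neg (fun h3 => hxx (tv_inj hM hx hx' (h3.trans hb.symm)))]
        have := h.1 x hx
        omega
    · rw [Rows.mv_neff η b h2]
      exact h.1 x hx

theorem inv_step_none {M : ℕ} {R : ℕ} (hM : 2 ≤ M) (ξ : Pos d → ℕ) (η : Tor d M → ℕ)
    (h : Inv R ξ η) (b : Lab (Tor d M) d) (hb : ¬ ∃ x : Pos d, supn x ≤ R ∧ tv x = b.1) :
    Inv R ξ (mv nbT η b) :=
  ⟨fun x hx => (h.1 x hx).trans (Rows.le_mv_of_ne hM η b _ (fun h1 => hb ⟨x, hx, h1⟩)), h.2⟩

theorem kp_fold {M : ℕ} {R : ℕ} (hM2 : 2 ≤ M) (hM : 2 * R < M) (K : ℕ)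
    (L : List (Lab (Tor d M) d)) :
    ∀ (ξ : Pos d → ℕ) (η : Tor d M → ℕ), Inv R ξ η → OKL nbT (fun b => decide (b.2.1 < K)) η L →
      OKL (nbB R) (fun b => decide (b.2.1 < K)) ξ (L.filterMap (kp R)) ∧
        Inv R ((L.filterMap (kp R)).foldl (mv (nbB R)) ξ) (L.foldl (mv nbT) η) := by
  induction L with
  | nil => exact fun ξ η h _ => ⟨trivial, h⟩
  | cons b L ih =>
    intro ξ η h hO
    by_cases hb : ∃ x : Pos d, supn x ≤ R ∧ tv x = b.1
    · obtain ⟨h1, h2⟩ := hb.choose_spec
      have h3 : kp R b = some (hb.choose, b.2) := by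
        unfold kp
        rw [dif_pos hb]
      rw [List.filterMap_cons_some h3, List.foldl_cons, List.foldl_cons]
      obtain ⟨h4, h5⟩ := ih (mv (nbB R) ξ (hb.choose, b.2)) (mv nbT η b)
        (inv_step_some hM ξ η h hb.choose b h1 h2) hO.2
      refine ⟨⟨fun hQ hlt => ?_, h4⟩, h5⟩
      refine hO.1 hQ (lt_of_lt_of_le hlt ?_)
      have h6 := h.1 _ h1
      rwa [h2] at h6
    · have h3 : kp R b = none := by
        unfold kp
        rw [dif_neg hb]
      rw [List.filterMap_cons_none h3, List.foldl_cons]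
      exact ih ξ (mv nbT η b) (inv_step_none hM2 ξ η h b hb) hO.2

/-- the killed system at the integer times, and the labels that are not effective -/
theorem kill_cfg {M : ℕ} {R : ℕ} (hM2 : 2 ≤ M) (hM : 2 * R < M) (K : ℕ) (η0 : Tor d M → ℕ)
    (U : ℕ → List (Lab (Tor d M) d))
    (h : ∀ t, OKL nbT (fun b => decide (b.2.1 < K)) (cfg nbT η0 U t) (U t)) (t : ℕ) :
    Inv R (cfg (nbB R) (fun x => if supn x ≤ R then η0 (tv x) else 0)
      (fun t => (U t).filterMap (kp R)) t) (cfg nbT η0 U t) := by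
  induction t with
  | zero =>
    refine ⟨fun x hx => ?_, fun x hx => ?_⟩
    · show (if supn x ≤ R then η0 (tv x) else 0) ≤ η0 (tv x)
      rw [if_pos hx]
    · show (if supn x ≤ R then η0 (tv x) else 0) = 0
      rw [if_neg (by omega)]
  | succ t ih => exact (kp_fold hM2 hM K (U t) _ _ ih (h t)).2

theorem kill_OKL {M : ℕ} {R : ℕ} (hM2 : 2 ≤ M) (hM : 2 * R < M) (K : ℕ) (η0 : Tor d M → ℕ)
    (U : ℕ → List (Lab (Tor d M) d))
    (h : ∀ t, OKL nbT (fun b => decide (b.2.1 < K)) (cfg nbT η0 U t) (U t)) (t : ℕ) :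
    OKL (nbB R) (fun b => decide (b.2.1 < K)) (cfg (nbB R) (fun x => if supn x ≤ R then η0 (tv x) else 0)
      (fun t => (U t).filterMap (kp R)) t) ((U t).filterMap (kp R)) :=
  (kp_fold hM2 hM K (U t) _ _ (kill_cfg hM2 hM K η0 U h t) (h t)).1

theorem filterMap_filter_comm {M : ℕ} (R K : ℕ) (L : List (Lab (Tor d M) d)) :
    (L.filter (fun b => decide (b.2.1 < K))).filterMap (kp R) =
      (L.filterMap (kp R)).filter (fun b => decide (b.2.1 < K)) := by
  induction L with
  | nil => rfl
  | cons b L ih =>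
    by_cases hQ : b.2.1 < K
    · rw [List.filter_cons_of_pos (by simpa using hQ)]
      by_cases hb : ∃ x : Pos d, supn x ≤ R ∧ tv x = b.1
      · have h3 : kp R b = some (hb.choose, b.2) := by
          unfold kp
          rw [dif_pos hb]
        rw [List.filterMap_cons_some h3, List.filterMap_cons_some h3,
          List.filter_cons_of_pos (by simpa using hQ), ih]
      · have h3 : kp R b = none := by
          unfold kp
          rw [dif_neg hb]
        rw [List.filterMap_cons_none h3, List.filterMap_cons_none h3, ih]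
    · rw [List.filter_cons_of_neg (by simpa using hQ)]
      by_cases hb : ∃ x : Pos d, supn x ≤ R ∧ tv x = b.1
      · have h3 : kp R b = some (hb.choose, b.2) := by
          unfold kp
          rw [dif_pos hb]
        rw [List.filterMap_cons_some h3, List.filter_cons_of_neg (by simpa using hQ), ih]
      · have h3 : kp R b = none := by
          unfold kp
          rw [dif_neg hb]
        rw [List.filterMap_cons_none h3, ih]

/-! ### the bad event -/

/-- some effective ring has a level at least `K'` -/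
def Bad {M K : ℕ} (K' : ℕ) : (Tor d M → ℕ) → List (Let d M K) → Prop
  | _, [] => False
  | η, a :: l => (∃ b, toLab a = some b ∧ K' ≤ b.2.1 ∧ b.2.1 < η b.1) ∨ Bad K' (stepA η a) l

theorem bad_append {M K : ℕ} (K' : ℕ) (l l' : List (Let d M K)) :
    ∀ η : Tor d M → ℕ, Bad K' η (l ++ l') ↔ (Bad K' η l ∨ Bad K' (l.foldl stepA η) l') := by
  induction l with
  | nil =>
    intro η
    simp [Bad]
  | cons a l ih =>
    intro η
    rw [List.cons_append, List.foldl_cons]
    simp only [Bad]
    rw [ih, or_assoc]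

theorem okl_of_not_bad {M K : ℕ} (K' : ℕ) (l : List (Let d M K)) :
    ∀ η : Tor d M → ℕ, ¬ Bad K' η l → OKL nbT (fun b => decide (b.2.1 < K')) η (l.filterMap toLab) := by
  induction l with
  | nil => exact fun _ _ => trivial
  | cons a l ih =>
    intro η h
    simp only [Bad] at h
    push Not at h
    cases ha : toLab a with
    | none =>
      rw [List.filterMap_cons_none ha]
      have h1 : stepA η a = η := C5.stepA_none η a ha
      rw [← h1]
      exact ih _ h.2
    | some b =>
      rw [List.filterMap_cons_some ha]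
      have h1 : stepA η a = mv nbT η b := C5.stepA_some η a b ha
      refine ⟨fun hQ => ?_, ?_⟩
      · have h2 : K' ≤ b.2.1 := by simpa using hQ
        have := h.1 b ha h2
        omega
      · rw [← h1]
        exact ih _ h.2

variable {m : Model} (q : Par d m)

theorem okl_units (K' : ℕ) (η : Tor d q.M → ℕ) (l : List (Let d q.M q.K)) (h : ¬ Bad K' η l)
    (t : ℕ) : OKL nbT (fun b => decide (b.2.1 < K')) (cfg nbT η (units q.N1 l) t) (units q.N1 l t) := by
  rw [Rows.D1.cfg_eq]
  refine okl_of_not_bad K' _ _ fun h1 => h ?_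
  rw [← List.take_append_drop (t * q.N1) l, bad_append]
  right
  rw [← List.take_append_drop q.N1 (l.drop (t * q.N1)), bad_append]
  exact Or.inl h1

/-- without the bad event nothing changes -/
theorem det (K' : ℕ) (η : Tor d q.M → ℕ) (l : List (Let d q.M q.K)) (h : ¬ Bad K' η l) :
    EqEnv (envT q η l) (capE K' (envT q η l)) ∧
      ∀ R : ℕ, 2 * R + 2 ≤ q.M →
        EqEnv (kill R (envT q η l)) (kill R (capE K' (envT q η l))) := by
  have hO := okl_units q K' η l h
  refine ⟨eqEnv_cap _ _ hO, fun R hR => ?_⟩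
  have h1 : kill R (capE K' (envT q η l)) = capE K' (kill R (envT q η l)) := by
    unfold kill capE
    congr 1
    funext t
    exact filterMap_filter_comm R K' (units q.N1 l t)
  rw [h1]
  refine eqEnv_cap _ _ fun t => ?_
  have hM := q.M_ge
  exact kill_OKL (by omega) (by omega) K' η (units q.N1 l) hO t

/-! ### the probability of the bad event -/

/-- probability that the next letter is bad -/
def D (K' : ℕ) (η : Tor d q.M → ℕ) : ℝ≥0∞ :=
  ∑ a : Let d q.M q.K, q.w a * (if ∃ b, toLab a = some b ∧ K' ≤ b.2.1 ∧ b.2.1 < η b.1 then 1 else 0)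

theorem PP_bad_succ (hd : 0 < d) (K' N : ℕ) :
    q.PP (N + 1) (fun η l => Bad K' η l) ≤
      ∑' η : Tor d q.M → ℕ, prw (m.m1 q.K) η * D q K' η + q.PP N (fun η l => Bad K' η l) := by
  have hs := Rows.stationary q hd 1 N (fun η l => if Bad K' η l then 1 else 0)
  have h1 : q.PP N (fun η l => Bad K' η l) =
      ∑' η : Tor d q.M → ℕ, prw (m.m1 q.K) η *
        ∑ a, q.w a * EvE q.w N (fun l => if Bad K' (stepA η a) l then 1 else 0) := by
    show q.EE N (fun η l => if Bad K' η l then 1 else 0) = _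
    rw [← hs, Nat.add_comm 1 N]
    rfl
  rw [h1, ← ENNReal.tsum_add]
  refine ENNReal.tsum_le_tsum fun η => ?_
  rw [← mul_add]
  refine mul_le_mul_right ?_ _
  rw [EvE_succ]
  unfold D
  rw [← Finset.sum_add_distrib]
  refine Finset.sum_le_sum fun a _ => ?_
  rw [← mul_add]
  refine mul_le_mul_right ?_ _
  have h2 : (if ∃ b, toLab a = some b ∧ K' ≤ b.2.1 ∧ b.2.1 < η b.1 then (1 : ℝ≥0∞) else 0) =
      EvE q.w N (fun _ => if ∃ b, toLab a = some b ∧ K' ≤ b.2.1 ∧ b.2.1 < η b.1 then 1 else 0) :=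
    (EvE_const q.w (Rows.sum_w q hd) N _).symm
  rw [h2, ← EvE_add]
  refine EvE_mono q.w N fun l _ => ?_
  show (if Bad K' η (a :: l) then (1 : ℝ≥0∞) else 0) ≤
    (if ∃ b, toLab a = some b ∧ K' ≤ b.2.1 ∧ b.2.1 < η b.1 then 1 else 0) +
      (if Bad K' (stepA η a) l then 1 else 0)
  by_cases h3 : ∃ b, toLab a = some b ∧ K' ≤ b.2.1 ∧ b.2.1 < η b.1
  · rw [if_pos h3]
    refine le_trans ?_ le_self_add
    split_ifs
    · exact le_rfl
    · exact zero_le
  · rw [if_neg h3, zero_add]
    by_cases h4 : Bad K' (stepA η a) l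
    · rw [if_pos h4]
      split_ifs
      · exact le_rfl
      · exact zero_le
    · rw [if_neg h4, if_neg]
      rintro (h5 | h5)
      · exact h3 h5
      · exact h4 h5

theorem PP_bad (hd : 0 < d) (K' N : ℕ) :
    q.PP N (fun η l => Bad K' η l) ≤
      N * ∑' η : Tor d q.M → ℕ, prw (m.m1 q.K) η * D q K' η := by
  induction N with
  | zero =>
    have : q.PP 0 (fun η l => Bad K' η l) = 0 := by
      show ∑' η : Tor d q.M → ℕ, prw (m.m1 q.K) η *
        (if Bad K' η ([] : List (Let d q.M q.K)) then 1 else 0) = 0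
      simp [Bad]
    rw [this]
    exact zero_le
  | succ N ih =>
    refine (PP_bad_succ q hd K' N).trans ?_
    push_cast
    rw [add_mul, one_mul, add_comm]
    gcongr

/-- the next letter is bad: rate bound -/
theorem D_le (K' : ℕ) (η : Tor d q.M → ℕ) :
    D q K' η ≤ ∑ x, ∑ e : Dir d, ENNReal.ofReal (m.gK q.K (η x) / (2 * d) * q.p) *
      (if K' < η x ∧ K' < q.K then 1 else 0) := by
  rw [← C5.sum_letters q η (fun x _ => if K' < η x ∧ K' < q.K then 1 else 0)]
  unfold D
  refine Finset.sum_le_sum fun a _ => ?_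
  refine mul_le_mul_right ?_ _
  cases a with
  | none =>
    rw [if_neg]
    · exact zero_le
    · rintro ⟨b, hb, -⟩
      exact absurd hb (by simp [toLab])
  | some b0 =>
    by_cases h : ∃ b, toLab (some b0 : Let d q.M q.K) = some b ∧ K' ≤ b.2.1 ∧ b.2.1 < η b.1
    · rw [if_pos h]
      obtain ⟨b, hb, h1, h2⟩ := h
      rw [hb]
      show (1 : ℝ≥0∞) ≤ if b.2.1 < η b.1 then (if K' < η b.1 ∧ K' < q.K then 1 else 0) else 0
      have h3 : b = (b0.1, (b0.2.1 : ℕ), b0.2.2) := (Option.some.inj hb).symm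
      have h4 : b.2.1 < q.K := by
        rw [h3]
        exact b0.2.1.isLt
      rw [if_pos h2, if_pos ⟨by omega, by omega⟩]
    · rw [if_neg h]
      exact zero_le

theorem D_eq_zero (K' : ℕ) (hK : q.K ≤ K') (η : Tor d q.M → ℕ) : D q K' η = 0 := by
  refine le_antisymm ((D_le q K' η).trans (le_of_eq ?_)) zero_le
  refine Finset.sum_eq_zero fun x _ => Finset.sum_eq_zero fun e _ => ?_
  rw [if_neg (fun h => by omega), mul_zero]

/-- tail of the single site law -/
theorem tail_le (K' : ℕ) (hK : K' ≤ q.K) (hb : 2 * m.φ ≤ m.g K') :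
    ∑' k, m.m1 q.K k * (if K' ≤ k then 1 else 0) ≤ 2 * m.m1 q.K K' := by
  have hhalf : ∀ j : ℕ, m.m1 q.K (K' + j) ≤ (1 / 2 : ℝ≥0∞) ^ j * m.m1 q.K K' := fun j => by
    induction j with
    | zero => simp
    | succ j ih =>
      have h2 := m1_succ m q.K q.K_ge q.K_big (K' + j)
      have h3 : ENNReal.ofReal (2 * m.φ) ≤ ENNReal.ofReal (m.gK q.K (K' + j + 1)) := by
        refine ENNReal.ofReal_le_ofReal (hb.trans ?_)
        unfold Model.gK
        exact g_mono m (le_min (by omega) hK)
      have h4 : m.m1 q.K (K' + j + 1) * ENNReal.ofReal (2 * m.φ) ≤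
          ENNReal.ofReal m.φ * m.m1 q.K (K' + j) := by
        rw [← h2]
        exact mul_le_mul_right h3 _
      rw [ENNReal.ofReal_mul (by norm_num), ENNReal.ofReal_ofNat] at h4
      have h5 : ENNReal.ofReal m.φ ≠ 0 := by
        rw [ENNReal.ofReal_ne_zero_iff]
        exact m.φ_pos
      have h6 : ENNReal.ofReal m.φ * (m.m1 q.K (K' + j + 1) * 2) ≤
          ENNReal.ofReal m.φ * m.m1 q.K (K' + j) := by
        refine le_trans (le_of_eq ?_) h4
        ring
      have h7 : m.m1 q.K (K' + j + 1) * 2 ≤ m.m1 q.K (K' + j) :=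
        (ENNReal.mul_le_mul_iff_right h5 ENNReal.ofReal_ne_top).mp h6
      rw [← add_assoc, pow_succ]
      calc m.m1 q.K (K' + j + 1) = (m.m1 q.K (K' + j + 1) * 2) * (1 / 2) := by
            rw [mul_assoc, one_div, ENNReal.mul_inv_cancel (by norm_num) (by norm_num), mul_one]
        _ ≤ ((1 / 2 : ℝ≥0∞) ^ j * m.m1 q.K K') * (1 / 2) :=
            mul_le_mul_left (h7.trans ih) _
        _ = _ := by ring
  have h8 : ∑' k, m.m1 q.K k * (if K' ≤ k then 1 else 0) = ∑' j, m.m1 q.K (K' + j) := by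
    rw [← (add_right_injective K').tsum_eq
      (f := fun k => m.m1 q.K k * (if K' ≤ k then (1 : ℝ≥0∞) else 0))]
    · refine tsum_congr fun j => ?_
      show m.m1 q.K (K' + j) * (if K' ≤ K' + j then 1 else 0) = _
      rw [if_pos (by omega), mul_one]
    · intro k hk
      refine ⟨k - K', ?_⟩
      have : K' ≤ k := by
        by_contra h0
        exact hk (by simp [h0])
      show K' + (k - K') = k
      omega
  rw [h8]
  refine (ENNReal.tsum_le_tsum hhalf).trans (le_of_eq ?_)
  rw [ENNReal.tsum_mul_right, ENNReal.tsum_geometric]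
  congr 1
  rw [one_div, ENNReal.one_sub_inv_two, inv_inv]

theorem Gm_le_g (m : Model) (k : ℕ) : m.Gm * k ≤ m.g k := by
  induction k with
  | zero => simp [m.g0]
  | succ k ih =>
    have := m.inc_lb k
    push_cast
    linarith

/-- the single site law decays like `1 / K'!` -/
theorem m1_le (K' : ℕ) (hK : K' ≤ q.K) :
    m.m1 q.K K' ≤ ENNReal.ofReal ((m.φ / m.Gm) ^ K' / K'.factorial) := by
  have hφ := m.φ_pos
  have hG := m.Gm_pos
  induction K' with
  | zero =>
    rw [pow_zero, Nat.factorial_zero, Nat.cast_one, div_one, ENNReal.ofReal_one,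
      ← tsum_m1 m q.K q.K_ge q.K_big]
    exact ENNReal.le_tsum _
  | succ k ih =>
    have h1 := m1_succ m q.K q.K_ge q.K_big k
    have h2 := ih (by omega)
    have h3 : m.Gm * ((k : ℝ) + 1) ≤ m.gK q.K (k + 1) := by
      unfold Model.gK
      rw [min_eq_left hK]
      have := Gm_le_g m (k + 1)
      push_cast at this
      exact this
    have h4 : m.m1 q.K (k + 1) * ENNReal.ofReal (m.Gm * ((k : ℝ) + 1)) ≤
        ENNReal.ofReal m.φ * ENNReal.ofReal ((m.φ / m.Gm) ^ k / k.factorial) := by
      refine le_trans (mul_le_mul_right (ENNReal.ofReal_le_ofReal h3) _) ?_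
      rw [h1]
      exact mul_le_mul_right h2 _
    have hpos : 0 < m.Gm * ((k : ℝ) + 1) := by positivity
    have h5 : ENNReal.ofReal (m.Gm * ((k : ℝ) + 1)) ≠ 0 := by
      rw [ENNReal.ofReal_ne_zero_iff]
      exact hpos
    rw [← ENNReal.mul_le_mul_iff_left h5 ENNReal.ofReal_ne_top]
    refine h4.trans (le_of_eq ?_)
    rw [← ENNReal.ofReal_mul hφ.le, ← ENNReal.ofReal_mul (by positivity)]
    congr 1
    rw [Nat.factorial_succ]
    have h6 : (k.factorial : ℝ) ≠ 0 := by positivity
    have h7 : (k : ℝ) + 1 ≠ 0 := by positivity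
    push_cast
    rw [pow_succ]
    field_simp

theorem mean_D (hd : 0 < d) (K' : ℕ) (hb : 2 * m.φ ≤ m.g K') :
    ∑' η : Tor d q.M → ℕ, prw (m.m1 q.K) η * D q K' η ≤
      (q.M : ℝ≥0∞) ^ d * (ENNReal.ofReal q.p * ENNReal.ofReal m.φ *
        (2 * ENNReal.ofReal ((m.φ / m.Gm) ^ K' / K'.factorial))) := by
  rcases Nat.lt_or_ge K' q.K with hK | hK
  · have hd' : (0 : ℝ) < d := by positivity
    have hp := q.p_pos
    have h1 : ∀ (x : Tor d q.M) (e : Dir d), ∑' η : Tor d q.M → ℕ, prw (m.m1 q.K) η *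
        (ENNReal.ofReal (m.gK q.K (η x) / (2 * d) * q.p) *
          (if K' < η x ∧ K' < q.K then 1 else 0)) ≤
        ENNReal.ofReal (q.p / (2 * d)) * (ENNReal.ofReal m.φ *
          (2 * ENNReal.ofReal ((m.φ / m.Gm) ^ K' / K'.factorial))) := by
      intro x e
      have h2 := Rows.shift_prw q x (fun η => if K' < η x then 1 else 0)
      have h3 : ∀ η : Tor d q.M → ℕ, prw (m.m1 q.K) η *
        (ENNReal.ofReal (m.gK q.K (η x) / (2 * d) * q.p) *
          (if K' < η x ∧ K' < q.K then 1 else 0)) = ENNReal.ofReal (q.p / (2 * d)) *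
          (prw (m.m1 q.K) η * (ENNReal.ofReal (m.gK q.K (η x)) *
            (if K' < η x then 1 else 0))) := by
        intro η
        have h4 : (if K' < η x ∧ K' < q.K then (1 : ℝ≥0∞) else 0) =
            if K' < η x then 1 else 0 := by
          by_cases h5 : K' < η x
          · rw [if_pos h5, if_pos ⟨h5, hK⟩]
          · rw [if_neg h5, if_neg (fun h => h5 h.1)]
        rw [h4, show m.gK q.K (η x) / (2 * d) * q.p = (q.p / (2 * d)) * m.gK q.K (η x) by ring,
          ENNReal.ofReal_mul (by positivity)]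
        ring
      rw [tsum_congr h3, ENNReal.tsum_mul_left, h2]
      refine mul_le_mul_right (mul_le_mul_right ?_ _) _
      have h4 : ∀ η : Tor d q.M → ℕ, prw (m.m1 q.K) η *
          (if K' < Function.update η x (η x + 1) x then (1 : ℝ≥0∞) else 0) =
          prw (m.m1 q.K) η * (if K' ≤ η x then 1 else 0) := by
        intro η
        rw [Function.update_self]
        by_cases h5 : K' ≤ η x
        · rw [if_pos h5, if_pos (by omega)]
        · rw [if_neg h5, if_neg (by omega)]
      rw [tsum_congr h4, Rows.prw_marg (m.m1 q.K) (tsum_m1 m q.K q.K_ge q.K_big) x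
        (fun k => if K' ≤ k then 1 else 0)]
      refine (tail_le q K' hK.le hb).trans ?_
      exact mul_le_mul_right (m1_le q K' hK.le) _
    calc ∑' η : Tor d q.M → ℕ, prw (m.m1 q.K) η * D q K' η
        ≤ ∑' η : Tor d q.M → ℕ, ∑ x, ∑ e : Dir d, prw (m.m1 q.K) η *
          (ENNReal.ofReal (m.gK q.K (η x) / (2 * d) * q.p) *
            (if K' < η x ∧ K' < q.K then 1 else 0)) := by
          refine ENNReal.tsum_le_tsum fun η => ?_
          refine (mul_le_mul_right (D_le q K' η) _).trans (le_of_eq ?_)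
          rw [Finset.mul_sum]
          exact Finset.sum_congr rfl fun x _ => Finset.mul_sum _ _ _
      _ = ∑ x, ∑ e : Dir d, ∑' η : Tor d q.M → ℕ, prw (m.m1 q.K) η *
          (ENNReal.ofReal (m.gK q.K (η x) / (2 * d) * q.p) *
            (if K' < η x ∧ K' < q.K then 1 else 0)) := by
          rw [Summable.tsum_finsetSum (fun i _ => ENNReal.summable)]
          refine Finset.sum_congr rfl fun x _ => ?_
          rw [Summable.tsum_finsetSum (fun i _ => ENNReal.summable)]
      _ ≤ ∑ x : Tor d q.M, ∑ e : Dir d, ENNReal.ofReal (q.p / (2 * d)) * (ENNReal.ofReal m.φ *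
          (2 * ENNReal.ofReal ((m.φ / m.Gm) ^ K' / K'.factorial))) :=
          Finset.sum_le_sum fun x _ => Finset.sum_le_sum fun e _ => h1 x e
      _ = _ := by
          rw [Finset.sum_const, Finset.sum_const, Finset.card_univ, Finset.card_univ,
            nsmul_eq_mul, nsmul_eq_mul, Fintype.card_fun, Fintype.card_fin,
            Fintype.card_prod, Fintype.card_fin, Fintype.card_bool, ZMod.card]
          have h5 : ((d * 2 : ℕ) : ℝ≥0∞) * ENNReal.ofReal (q.p / (2 * d)) =
              ENNReal.ofReal q.p := by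
            rw [← ENNReal.ofReal_natCast, ← ENNReal.ofReal_mul (Nat.cast_nonneg _)]
            congr 1
            push_cast
            field_simp
          rw [← mul_assoc ((d * 2 : ℕ) : ℝ≥0∞), h5]
          push_cast
          ring
  · have h1 : ∀ η : Tor d q.M → ℕ, prw (m.m1 q.K) η * D q K' η = 0 := fun η => by
      rw [D_eq_zero q K' hK η, mul_zero]
    rw [tsum_congr h1, tsum_zero]
    exact zero_le

theorem not_bad_zero {M K : ℕ} (K' : ℕ) (l : List (Let 0 M K)) :
    ∀ η : Tor 0 M → ℕ, ¬ Bad K' η l := by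
  induction l with
  | nil => exact fun _ h => h
  | cons a l ih =>
    rintro η (⟨b, hb, -⟩ | h)
    · cases a with
      | none => exact absurd hb (by simp [toLab])
      | some b0 => exact b0.2.2.1.elim0
    · exact ih _ h

end ZI.CK

namespace ZI.Rows

open ZI ZI.R2aux

theorem cap_agree (m : Model) (d : ℕ) : ∃ C : ℕ, ∀ q : Par d m, ∀ K' T : ℕ, 2 * m.φ ≤ m.g K' →
    q.PP (T * q.N1) (fun η l => ¬ (EqEnv (envT q η l) (capE K' (envT q η l)) ∧
      ∀ R : ℕ, 2 * R + 2 ≤ q.M → EqEnv (kill R (envT q η l)) (kill R (capE K' (envT q η l))))) ≤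
      ENNReal.ofReal (T * (q.M : ℝ) ^ d * (C : ℝ) ^ (K' + 1) / K'.factorial) := by
  obtain ⟨C, hC⟩ := exists_nat_ge (max (2 * m.φ) (m.φ / m.Gm))
  refine ⟨C, fun q K' T hK' => ?_⟩
  have hφ := m.φ_pos
  have hG := m.Gm_pos
  have hp := q.p_pos
  have h1 : q.PP (T * q.N1) (fun η l => ¬ (EqEnv (envT q η l) (capE K' (envT q η l)) ∧
      ∀ R : ℕ, 2 * R + 2 ≤ q.M → EqEnv (kill R (envT q η l)) (kill R (capE K' (envT q η l))))) ≤
      q.PP (T * q.N1) (fun η l => CK.Bad K' η l) := by
    refine C5.EE_mono q _ fun η l => ?_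
    by_cases h : CK.Bad K' η l
    · rw [if_pos h]
      exact @C5.ite_le_one' _ (Classical.propDecidable _)
    · rw [if_neg h]
      exact le_of_eq (@if_neg _ (Classical.propDecidable _)
        (fun h2 => h2 (CK.det q K' η l h)) _ _ _)
  refine h1.trans ?_
  rcases Nat.eq_zero_or_pos d with hd0 | hd
  · subst hd0
    have h2 : q.PP (T * q.N1) (fun η l => CK.Bad K' η l) = 0 := by
      have h3 := C5.EE_congr q (T * q.N1) (F := fun η l => if CK.Bad K' η l then 1 else 0)
        (G := fun _ _ => 0) (fun η l => if_neg (CK.not_bad_zero K' l η))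
      exact h3.trans (C5.EE_zero' q _)
    rw [h2]
    exact zero_le
  · refine (CK.PP_bad q hd K' (T * q.N1)).trans ?_
    refine (mul_le_mul_right (CK.mean_D q hd K' hK') _).trans ?_
    have h2 : ((T * q.N1 : ℕ) : ℝ≥0∞) * ((q.M : ℝ≥0∞) ^ d * (ENNReal.ofReal q.p *
        ENNReal.ofReal m.φ * (2 * ENNReal.ofReal ((m.φ / m.Gm) ^ K' / K'.factorial)))) =
        ENNReal.ofReal (((T * q.N1 : ℕ) : ℝ) * ((q.M : ℝ) ^ d * (q.p * m.φ *
          (2 * ((m.φ / m.Gm) ^ K' / K'.factorial))))) := by
      rw [ENNReal.ofReal_mul (by positivity), ENNReal.ofReal_natCast,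
        ENNReal.ofReal_mul (by positivity), ENNReal.ofReal_pow (by positivity),
        ENNReal.ofReal_natCast, ENNReal.ofReal_mul (by positivity),
        ENNReal.ofReal_mul (by positivity), ENNReal.ofReal_mul (by positivity),
        ENNReal.ofReal_ofNat]
    rw [h2]
    refine ENNReal.ofReal_le_ofReal ?_
    have h3 : 2 * m.φ ≤ C := (le_max_left _ _).trans hC
    have h4 : m.φ / m.Gm ≤ C := (le_max_right _ _).trans hC
    have h5 := q.p_ub
    have h6 : (m.φ / m.Gm) ^ K' ≤ (C : ℝ) ^ K' := pow_le_pow_left₀ (by positivity) h4 K'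
    have hf : (0 : ℝ) < K'.factorial := by positivity
    push_cast
    calc (T : ℝ) * q.N1 * ((q.M : ℝ) ^ d * (q.p * m.φ * (2 * ((m.φ / m.Gm) ^ K' / K'.factorial))))
        = (q.N1 * q.p) * (T * (q.M : ℝ) ^ d * ((2 * m.φ) * (m.φ / m.Gm) ^ K') / K'.factorial) := by
          ring
      _ ≤ 1 * (T * (q.M : ℝ) ^ d * ((2 * m.φ) * (m.φ / m.Gm) ^ K') / K'.factorial) := by
          exact mul_le_mul_of_nonneg_right h5 (by positivity)
      _ ≤ T * (q.M : ℝ) ^ d * (C : ℝ) ^ (K' + 1) / K'.factorial := by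
          rw [one_mul, pow_succ, mul_comm ((C : ℝ) ^ K') C]
          gcongr

end ZI.Rows
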