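import Pool.Agent.ZI.ProcE
import Pool.Agent.ZI.C6
import Pool.Agent.ZI.E1
import Pool.Agent.ZI.InfLem

/-! # Row LK: the killed box inside the torus chain (paper, 9.3) -/

set_option autoImplicit false

open scoped ENNReal BigOperators Classical

noncomputable section

namespace ZI.LK

open ZI ZI.R2aux

variable {d : ℕ}

/-! ### the box in the torus -/

theorem supn_le {x : Pos d} {R : ℕ} : supn x ≤ R ↔ ∀ j, (x j).natAbs ≤ R := by
  unfold supn
  rw [Finset.sup_le_iff]
  simp

theorem supN_eq (x : Pos d) : supN x = supn x := rfl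

theorem natAbs_dv_le (e : Dir d) (j : Fin d) : (dv e j).natAbs ≤ 1 := by
  unfold dv
  by_cases h : j = e.1
  · subst h
    rw [Pi.single_eq_same]
    split_ifs <;> simp
  · rw [Pi.single_eq_of_ne h]
    simp

theorem supn_add_dv (x : Pos d) (e : Dir d) : supn (x + dv e) ≤ supn x + 1 := by
  rw [supn_le]
  intro j
  have h1 : (x j).natAbs ≤ supn x := supn_le.1 le_rfl j
  have h2 := natAbs_dv_le e j
  have h3 : (x + dv e) j = x j + dv e j := rfl
  rw [h3]
  omega

theorem supn_sub_dv (x : Pos d) (e : Dir d) : supn (x - dv e) ≤ supn x + 1 := by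
  rw [supn_le]
  intro j
  have h1 : (x j).natAbs ≤ supn x := supn_le.1 le_rfl j
  have h2 := natAbs_dv_le e j
  have h3 : (x - dv e) j = x j - dv e j := rfl
  rw [h3]
  omega

theorem supn_le_sub (x : Pos d) (e : Dir d) : supn x ≤ supn (x - dv e) + 1 := by
  have h := supn_add_dv (x - dv e) e
  rwa [sub_add_cancel] at h

theorem tv_add' {M : ℕ} (x y : Pos d) : (tv (x + y) : Tor d M) = tv x + tv y := by
  funext j
  simp [tv]

theorem tv_sub' {M : ℕ} (x y : Pos d) : (tv (x - y) : Tor d M) = tv x - tv y := by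
  funext j
  simp [tv]

theorem tv_lft {M : ℕ} (v : Tor d M) : tv (lft v) = v := by
  funext j
  exact ZMod.coe_valMinAbs (v j)

theorem tv_inj {M R : ℕ} (hR : 2 * R + 2 ≤ M) {x y : Pos d} (hx : supn x ≤ R) (hy : supn y ≤ R + 1)
    (h : (tv x : Tor d M) = tv y) : x = y := by
  funext j
  have h1 := supn_le.1 hx j
  have h2 := supn_le.1 hy j
  have h3 : ((x j : ℤ) : ZMod M) = ((y j : ℤ) : ZMod M) := congrFun h j
  rw [ZMod.intCast_eq_intCast_iff_dvd_sub] at h3
  by_contra hne
  have h4 : y j - x j ≠ 0 := fun h => hne (by omega)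
  have h5 := Int.natAbs_dvd_natAbs.2 h3
  have h6 : 0 < (y j - x j).natAbs := Int.natAbs_pos.2 h4
  have h7 := Nat.le_of_dvd h6 h5
  rw [Int.natAbs_natCast] at h7
  omega

theorem lft_supn {M : ℕ} [NeZero M] (v : Tor d M) : 2 * supn (lft v) ≤ M := by
  have h : supn (lft v) ≤ M / 2 := by
    rw [supn_le]
    intro j
    exact ZMod.natAbs_valMinAbs_le _
  omega

theorem lft_tv {M R : ℕ} [NeZero M] (hR : 2 * R + 2 ≤ M) {x : Pos d} (hx : supn x ≤ R) :
    lft (tv x : Tor d M) = x := by
  funext j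
  have h1 := supn_le.1 hx j
  have h2 : (lft (tv x : Tor d M)) j = ((x j : ℤ) : ZMod M).valMinAbs := rfl
  rw [h2, ZMod.valMinAbs_spec]
  refine ⟨rfl, ?_, ?_⟩ <;> omega

/-! ### letters -/

/-- the label of the killed box -/
def kf {M : ℕ} (R : ℕ) (b : Lab (Tor d M) d) : Option (Lab (Pos d) d) :=
  if supn (lft b.1) ≤ R then some (lft b.1, b.2) else none

theorem kf_eq {M R : ℕ} [NeZero M] (hR : 2 * R + 2 ≤ M) (b : Lab (Tor d M) d) :
    (if h : ∃ x : Pos d, supn x ≤ R ∧ tv x = b.1 then some (h.choose, b.2) else none) = kf R b := by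
  unfold kf
  by_cases h : ∃ x : Pos d, supn x ≤ R ∧ tv x = b.1
  · have h1 := h.choose_spec
    have h2 : lft b.1 = h.choose :=
      (congrArg lft h1.2.symm).trans (lft_tv hR h1.1)
    rw [dif_pos h, h2, if_pos h1.1]
  · rw [dif_neg h, if_neg]
    intro h1
    exact h ⟨lft b.1, h1, tv_lft b.1⟩

section gen

variable {α V W : Type} (f : α → Option (Lab V d)) (nb : V → Dir d → Option V) (pr : Pos d → V)

/-- a letter for the configuration -/
def stF (η : V → ℕ) (a : α) : V → ℕ :=
  match f a with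
  | none => η
  | some b => mv nb η b

/-- a letter for the pair (configuration, infected set) -/
def stR (G : Set (Pos d)) (s : (V → ℕ) × Set (Pos d)) (a : α) : (V → ℕ) × Set (Pos d) :=
  match f a with
  | none => s
  | some b => stepR nb pr G s b

/-- the unit lists of a word -/
def un (N1 : ℕ) (w : List α) (t : ℕ) : List (Lab V d) := ((w.drop (t * N1)).take N1).filterMap f

theorem fold_stF (L : List α) : ∀ η : V → ℕ,
    (L.filterMap f).foldl (mv nb) η = L.foldl (stF f nb) η := by
  induction L with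
  | nil => exact fun η => rfl
  | cons a L ih =>
    intro η
    rw [List.foldl_cons, ← ih, List.filterMap_cons]
    unfold stF
    cases h : f a with
    | none => rfl
    | some l => rfl

theorem fold_stR (G : Set (Pos d)) (L : List α) : ∀ s : (V → ℕ) × Set (Pos d),
    (L.filterMap f).foldl (stepR nb pr G) s = L.foldl (stR f nb pr G) s := by
  induction L with
  | nil => exact fun s => rfl
  | cons a L ih =>
    intro s
    rw [List.foldl_cons, ← ih, List.filterMap_cons]
    unfold stR
    cases h : f a with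
    | none => rfl
    | some l => rfl

theorem fold_stR_fst (G : Set (Pos d)) (L : List α) : ∀ s : (V → ℕ) × Set (Pos d),
    (L.foldl (stR f nb pr G) s).1 = L.foldl (stF f nb) s.1 := by
  intro s
  rw [← fold_stR, ← fold_stF]
  exact ZI.foldl_stepR_fst G _ s.1 s.2

theorem cfg_un (N1 : ℕ) (η0 : V → ℕ) (w : List α) (t : ℕ) :
    cfg nb η0 (un f N1 w) t = (w.take (t * N1)).foldl (stF f nb) η0 := by
  induction t with
  | zero => simp [cfg]
  | succ t ih =>
    rw [cfg, ih, un, fold_stF, ← List.foldl_append]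
    congr 1
    rw [Nat.succ_mul, List.take_add]

theorem vis_letters (G : Set (Pos d)) (L : List α) (s : (V → ℕ) × Set (Pos d)) (z : Pos d) :
    (∃ i ≤ (L.filterMap f).length,
      z ∈ (((L.filterMap f).take i).foldl (stepR nb pr G) s).2) ↔
    ∃ i ≤ L.length, z ∈ ((L.take i).foldl (stR f nb pr G) s).2 := by
  constructor
  · rintro ⟨i, hi, hz⟩
    obtain ⟨i', hi', htake⟩ := C5.take_filterMap f L i hi
    rw [htake, fold_stR] at hz
    exact ⟨i', hi', hz⟩
  · rintro ⟨i, hi, hz⟩
    refine ⟨((L.take i).filterMap f).length, ?_, ?_⟩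
    · conv_rhs => rw [← List.take_append_drop i L, List.filterMap_append, List.length_append]
      exact Nat.le_add_right _ _
    · have h1 : (L.filterMap f).take ((L.take i).filterMap f).length =
          (L.take i).filterMap f := by
        conv_lhs => rw [← List.take_append_drop i L, List.filterMap_append]
        rw [List.take_append_drop i L]
        exact List.take_left
      rw [h1, fold_stR]
      exact hz

end gen

section compare

variable {α V W : Type} {f : α → Option (Lab V d)} {nb : V → Dir d → Option V} {pr : Pos d → V}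
  {f' : α → Option (Lab W d)} {nb' : W → Dir d → Option W} {pr' : Pos d → W}
  {Γ : Set (Pos d)} {Ok : (V → ℕ) → (W → ℕ) → Prop}

/-- one letter gives the same infected set inside `Γ` if the configurations are related -/
def Same (f : α → Option (Lab V d)) (nb : V → Dir d → Option V) (pr : Pos d → V)
    (f' : α → Option (Lab W d)) (nb' : W → Dir d → Option W) (pr' : Pos d → W)
    (Γ : Set (Pos d)) (Ok : (V → ℕ) → (W → ℕ) → Prop) : Prop :=
  ∀ η ζ a G A, Ok η ζ → G ⊆ Γ → A ⊆ G →
    (stR f nb pr G (η, A) a).2 = (stR f' nb' pr' G (ζ, A) a).2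

theorem stR_sub (G : Set (Pos d)) (s : (V → ℕ) × Set (Pos d)) (a : α) (h : s.2 ⊆ G) :
    (stR f nb pr G s a).2 ⊆ G := by
  unfold stR
  cases f a with
  | none => exact h
  | some b => exact Set.inter_subset_right

theorem stR_fst (G : Set (Pos d)) (s : (V → ℕ) × Set (Pos d)) (a : α) :
    (stR f nb pr G s a).1 = stF f nb s.1 a := by
  unfold stR stF
  cases f a with
  | none => rfl
  | some b => rfl

theorem fold_same (hS : Same f nb pr f' nb' pr' Γ Ok) {G : Set (Pos d)} (hG : G ⊆ Γ)
    (L : List α) : ∀ (η : V → ℕ) (ζ : W → ℕ) (A : Set (Pos d)), A ⊆ G →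
      (∀ i, Ok ((L.take i).foldl (stF f nb) η) ((L.take i).foldl (stF f' nb') ζ)) →
      (L.foldl (stR f nb pr G) (η, A)).2 = (L.foldl (stR f' nb' pr' G) (ζ, A)).2 := by
  induction L with
  | nil => intro η ζ A _ _; rfl
  | cons a L ih =>
    intro η ζ A hA h
    rw [List.foldl_cons, List.foldl_cons]
    have h1 := hS η ζ a G A (h 0) hG hA
    have h2 : stR f nb pr G (η, A) a = (stF f nb η a, (stR f' nb' pr' G (ζ, A) a).2) :=
      Prod.ext (stR_fst G (η, A) a) h1
    have h3 : stR f' nb' pr' G (ζ, A) a = (stF f' nb' ζ a, (stR f' nb' pr' G (ζ, A) a).2) :=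
      Prod.ext (stR_fst G (ζ, A) a) rfl
    rw [h2, h3]
    refine ih _ _ _ (stR_sub G (ζ, A) a hA) fun i => ?_
    exact h (i + 1)

variable {N1 : ℕ} {w : List α} {η0 : V → ℕ} {ζ0 : W → ℕ}

theorem take_ok (h : ∀ i, Ok ((w.take i).foldl (stF f nb) η0) ((w.take i).foldl (stF f' nb') ζ0))
    (t i : ℕ) :
    Ok ((((w.drop (t * N1)).take N1).take i).foldl (stF f nb) ((w.take (t * N1)).foldl (stF f nb) η0))
      ((((w.drop (t * N1)).take N1).take i).foldl (stF f' nb') ((w.take (t * N1)).foldl (stF f' nb') ζ0)) := by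
  rw [← List.foldl_append, ← List.foldl_append, List.take_take, ← List.take_add]
  exact h _

theorem inf_same (hS : Same f nb pr f' nb' pr' Γ Ok)
    (hocc : ∀ η ζ, Ok η ζ → ∀ x ∈ Γ, (0 < η (pr x) ↔ 0 < ζ (pr' x)))
    (h : ∀ i, Ok ((w.take i).foldl (stF f nb) η0) ((w.take i).foldl (stF f' nb') ζ0))
    {G : ℕ → Set (Pos d)} (hG : ∀ t, G t ⊆ Γ) (s : ℕ) (A : Set (Pos d)) (j : ℕ) :
    inf nb pr η0 (un f N1 w) G s A j = inf nb' pr' ζ0 (un f' N1 w) G s A j := by
  induction j with
  | zero =>
    ext z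
    simp only [inf, Set.mem_ofPred_eq, cfg_un]
    constructor
    · rintro ⟨h1, h2, h3⟩
      exact ⟨h1, h2, (hocc _ _ (h _) z (hG s h2)).1 h3⟩
    · rintro ⟨h1, h2, h3⟩
      exact ⟨h1, h2, (hocc _ _ (h _) z (hG s h2)).2 h3⟩
  | succ j ih =>
    rw [inf, inf, ← ih, cfg_un, cfg_un, un, un, fold_stR, fold_stR]
    exact fold_same hS (hG _) _ _ _ _ Set.inter_subset_right (take_ok h (s + j))

theorem vis_same (hS : Same f nb pr f' nb' pr' Γ Ok)
    (hocc : ∀ η ζ, Ok η ζ → ∀ x ∈ Γ, (0 < η (pr x) ↔ 0 < ζ (pr' x)))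
    (h : ∀ i, Ok ((w.take i).foldl (stF f nb) η0) ((w.take i).foldl (stF f' nb') ζ0))
    {G : ℕ → Set (Pos d)} (hG : ∀ t, G t ⊆ Γ) (s : ℕ) (A : Set (Pos d)) (j : ℕ) :
    visU nb pr η0 (un f N1 w) G s A j = visU nb' pr' ζ0 (un f' N1 w) G s A j := by
  ext z
  unfold visU
  rw [Set.mem_ofPred_eq, Set.mem_ofPred_eq, ← inf_same hS hocc h hG, cfg_un, cfg_un]
  unfold un
  rw [vis_letters, vis_letters]
  refine exists_congr fun i => and_congr_right fun _ => ?_
  rw [fold_same hS (hG _) _ _ _ _ Set.inter_subset_right]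
  intro k
  rw [List.take_take]
  exact take_ok h (s + j) _

end compare

/-! ### the torus and the killed box -/

section box

variable {M K R N : ℕ}

/-- the letters of the killed box -/
def gf (R : ℕ) (a : Let d M K) : Option (Lab (Pos d) d) := (toLab a).bind (kf R)

/-- agreement of the configurations near the origin -/
def OkN (M N : ℕ) (η : Tor d M → ℕ) (ζ : Pos d → ℕ) : Prop := ∀ x, supn x ≤ N → ζ x = η (tv x)

theorem infMv_no {V : Type} {nb : V → Dir d → Option V} {pr : Pos d → V} {η : V → ℕ}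
    {A : Set (Pos d)} {l : Lab V d} (h : ∀ z ∈ A, pr z ≠ l.1) : infMv nb pr η A l = A := by
  unfold infMv
  split_ifs with h1
  · ext z
    constructor
    · rintro (⟨h2, -⟩ | ⟨h2, h3, -⟩)
      · exact h2
      · exact absurd h3 (h _ h2)
    · exact fun hz => Or.inl ⟨hz, fun h2 => absurd h2 (h z hz)⟩
  · rfl

theorem nbB_eq (x : Pos d) (e : Dir d) (h : supn x + 1 ≤ R) : nbB R x e = some (x + dv e) := by
  unfold nbB
  rw [if_pos]
  rw [supN_eq]
  exact (supn_add_dv x e).trans h

theorem same_box [NeZero M] (hR : 2 * R + 2 ≤ M) (hN : N + 1 ≤ R) :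
    Same (toLab : Let d M K → _) nbT tv (gf R) (nbB R) id {x | supn x ≤ N} (OkN M N) := by
  intro η ζ a G A hok hG hA
  have hAG : A ∩ G = A := Set.inter_eq_left.2 hA
  have hAN : ∀ z ∈ A, supn z ≤ N := fun z hz => hG (hA hz)
  unfold stR gf
  cases h : toLab a with
  | none => rfl
  | some b =>
    rw [Option.bind_some]
    unfold kf
    by_cases hb : supn (lft b.1) ≤ R
    · rw [if_pos hb]
      have hl : tv (lft b.1) = b.1 := tv_lft b.1
      have hz : ∀ z ∈ A, (tv z = b.1 ↔ z = lft b.1) := by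
        intro z hz
        constructor
        · intro h1
          have h2 := lft_tv (M := M) hR (x := z) ((hAN z hz).trans (by omega))
          rw [← h2, h1]
        · rintro rfl
          exact hl
      show infMv nbT tv η A b ∩ G = infMv (nbB R) id ζ A (lft b.1, b.2) ∩ G
      congr 1
      by_cases hx : supn (lft b.1) ≤ N
      · have h1 := hok _ hx
        rw [hl] at h1
        unfold infMv
        rw [show ((lft b.1, b.2) : Lab (Pos d) d).1 = lft b.1 from rfl,
          show ((lft b.1, b.2) : Lab (Pos d) d).2 = b.2 from rfl, h1]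
        by_cases h2 : b.2.1 < η b.1
        · rw [if_pos h2, if_pos h2]
          ext z
          constructor
          · rintro (⟨h3, h4⟩ | ⟨h3, h4, -⟩)
            · exact Or.inl ⟨h3, fun h5 => h4 ((hz z h3).2 h5)⟩
            · refine Or.inr ⟨h3, (hz _ h3).1 h4, ?_⟩
              rw [nbB_eq _ _ (by omega), ← (hz _ h3).1 h4, sub_add_cancel]
              rfl
          · rintro (⟨h3, h4⟩ | ⟨h3, h4, -⟩)
            · exact Or.inl ⟨h3, fun h5 => h4 ((hz z h3).1 h5)⟩
            · have h5 : z - dv b.2.2 = lft b.1 := h4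
              refine Or.inr ⟨h3, (hz _ h3).2 h5, ?_⟩
              unfold nbT
              rw [← (hz _ h3).2 h5, ← tv_add', sub_add_cancel]
        · rw [if_neg h2, if_neg h2]
      · rw [infMv_no, infMv_no]
        · intro z hzA h1
          have h2 : z = lft b.1 := h1
          exact hx (h2 ▸ hAN z hzA)
        · intro z hzA h1
          exact hx ((hz z hzA).1 h1 ▸ hAN z hzA)
    · rw [if_neg hb]
      show infMv nbT tv η A b ∩ G = A
      rw [infMv_no, hAG]
      intro z hzA h1
      apply hb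
      rw [← h1, lft_tv hR ((hAN z hzA).trans (by omega))]
      exact (hAN z hzA).trans (by omega)

/-- one letter for the configuration of the killed box -/
def kst (R : ℕ) (ζ : Pos d → ℕ) (a : Let d M K) : Pos d → ℕ := stF (gf R) (nbB R) ζ a

theorem stF_toLab (η : Tor d M → ℕ) (a : Let d M K) : stF toLab nbT η a = stepA η a := by
  unfold stF stepA
  cases toLab a with
  | none => rfl
  | some b => rfl

end box

/-! ### environments -/

section env

variable {m : Model} (q : Par d m)

/-- initial configuration of the killed box -/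
def ini0 {M : ℕ} (R : ℕ) (η : Tor d M → ℕ) (x : Pos d) : ℕ := if supn x ≤ R then η (tv x) else 0

theorem envT_U (η : Tor d q.M → ℕ) (l : List (Let d q.M q.K)) :
    (envT q η l).U = un toLab q.N1 l := rfl

theorem kill_U (R : ℕ) (hR : 2 * R + 2 ≤ q.M) (η : Tor d q.M → ℕ) (l : List (Let d q.M q.K)) :
    (kill R (envT q η l)).U = un (gf R) q.N1 l := by
  funext t
  show (units q.N1 l t).filterMap (fun b =>
    if h : ∃ x : Pos d, supn x ≤ R ∧ tv x = b.1 then some (h.choose, b.2) else none) = _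
  have h1 : (fun b : Lab (Tor d q.M) d =>
      if h : ∃ x : Pos d, supn x ≤ R ∧ tv x = b.1 then some (h.choose, b.2) else none) = kf R :=
    funext fun b => kf_eq hR b
  rw [h1]
  unfold units un
  rw [List.filterMap_filterMap]
  rfl

theorem agree_of (R N : ℕ) (hR : 2 * R + 2 ≤ q.M) (hN : 4 * N + 1 ≤ R) (η : Tor d q.M → ℕ)
    (l : List (Let d q.M q.K))
    (h : ∀ i, OkN q.M (4 * N) ((l.take i).foldl stepA η) ((l.take i).foldl (kst R) (ini0 R η))) :
    Agree N (envT q η l) (kill R (envT q η l)) := by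
  have hS : Same (toLab : Let d q.M q.K → _) nbT tv (gf R) (nbB R) id {x | supn x ≤ 4 * N}
      (OkN q.M (4 * N)) := same_box hR hN
  have hocc : ∀ (η : Tor d q.M → ℕ) (ζ : Pos d → ℕ), OkN q.M (4 * N) η ζ →
      ∀ x ∈ {x | supn x ≤ 4 * N}, (0 < η (tv x) ↔ 0 < ζ (id x)) := by
    intro η ζ h1 x hx
    show 0 < η (tv x) ↔ 0 < ζ x
    rw [h1 x hx]
  have h' : ∀ i, OkN q.M (4 * N) ((l.take i).foldl (stF toLab nbT) η)
      ((l.take i).foldl (stF (gf R) (nbB R)) (ini0 R η)) := by
    intro i
    have h1 : (stF toLab nbT : (Tor d q.M → ℕ) → Let d q.M q.K → _) = stepA := by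
      funext η a
      exact stF_toLab η a
    rw [h1]
    exact h i
  have hinf : ∀ (G : ℕ → Set (Pos d)), (∀ t, G t ⊆ {x | supn x ≤ 4 * N}) → ∀ s A j,
      inf (envT q η l).nb (envT q η l).pr (envT q η l).η0 (envT q η l).U G s A j =
      inf (kill R (envT q η l)).nb (kill R (envT q η l)).pr (kill R (envT q η l)).η0
        (kill R (envT q η l)).U G s A j := by
    intro G hG s A j
    rw [kill_U q R hR]
    exact inf_same hS hocc h' hG s A j
  have hvis : ∀ (G : ℕ → Set (Pos d)), (∀ t, G t ⊆ {x | supn x ≤ 4 * N}) → ∀ s A j,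
      visU (envT q η l).nb (envT q η l).pr (envT q η l).η0 (envT q η l).U G s A j =
      visU (kill R (envT q η l)).nb (kill R (envT q η l)).pr (kill R (envT q η l)).η0
        (kill R (envT q η l)).U G s A j := by
    intro G hG s A j
    rw [kill_U q R hR]
    exact vis_same hS hocc h' hG s A j
  refine ⟨fun t _ x hx => ?_, fun G hG s t x y _ => ?_, fun G hG s t x y _ => ?_⟩
  · show 0 < cfg nbT η (un toLab q.N1 l) t (tv x) ↔
      0 < cfg (nbB R) (ini0 R η) (kill R (envT q η l)).U t x
    rw [kill_U q R hR, cfg_un, cfg_un]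
    exact hocc _ _ (h' _) x hx
  · unfold Env.R
    refine exists_congr fun j => and_congr_right fun _ => ?_
    rw [hinf G hG s {x} j]
  · unfold Env.vis
    refine exists_congr fun j => and_congr_right fun _ => ?_
    rw [hvis G hG s {x} j]

end env

/-! ### the killed box is below the torus -/

section below

variable {M K R : ℕ}

/-- the killed configuration is below the torus configuration -/
def Inv (M R : ℕ) (η : Tor d M → ℕ) (ζ : Pos d → ℕ) : Prop := ∀ x, supn x ≤ R → ζ x ≤ η (tv x)

/-- order between the pairs (configuration, infected set) -/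
def Low (M R : ℕ) (s : (Tor d M → ℕ) × Set (Pos d)) (s' : (Pos d → ℕ) × Set (Pos d)) : Prop :=
  Inv M R s.1 s'.1 ∧ s'.2 ⊆ s.2 ∧ (∀ z ∈ s'.2, supn z ≤ R ∧ 0 < s'.1 z)

theorem mv_val {V : Type} (nb : V → Dir d → Option V) (η : V → ℕ) (l : Lab V d)
    (h : l.2.1 < η l.1) (x : V) :
    mv nb η l x = (if x = l.1 then η l.1 - 1 else η x) + (if nb l.1 l.2.2 = some x then 1 else 0) := by
  unfold mv
  rw [if_pos h]
  cases h1 : nb l.1 l.2.2 with
  | none =>
    simp only [reduceCtorEq, if_false, add_zero]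
    rw [Function.update_apply]
  | some y =>
    simp only [Option.some.injEq]
    by_cases h2 : y = x
    · subst h2
      rw [Function.update_self, if_pos rfl, Function.update_apply]
    · rw [Function.update_of_ne (Ne.symm h2), if_neg h2, add_zero, Function.update_apply]

theorem mv_no {V : Type} (nb : V → Dir d → Option V) (η : V → ℕ) (l : Lab V d)
    (h : ¬ l.2.1 < η l.1) : mv nb η l = η := by
  unfold mv
  rw [if_neg h]

theorem nbB_some {x y : Pos d} {e : Dir d} : nbB R x e = some y ↔ y = x + dv e ∧ supn y ≤ R := by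
  unfold nbB
  rw [supN_eq]
  by_cases h : supn (x + dv e) ≤ R
  · rw [if_pos h, Option.some.injEq]
    constructor
    · rintro rfl
      exact ⟨rfl, h⟩
    · exact fun h1 => h1.1.symm
  · rw [if_neg h]
    constructor
    · intro h1
      exact absurd h1 (by simp)
    · rintro ⟨rfl, h1⟩
      exact absurd h1 h

theorem nbT_some {v y : Tor d M} {e : Dir d} : nbT v e = some y ↔ y = v + tv (dv e) := by
  unfold nbT
  rw [Option.some.injEq]
  exact eq_comm

theorem dv_ne_zero (e : Dir d) : dv e ≠ 0 := by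
  intro h
  have h1 : dv e e.1 = 0 := congrFun h e.1
  unfold dv at h1
  rw [Pi.single_eq_same] at h1
  split_ifs at h1
  omega

/-- the difference of the two configurations after a letter -/
theorem gain_le [NeZero M] (hR : 2 * R + 2 ≤ M) (η : Tor d M → ℕ) (ζ : Pos d → ℕ)
    (hI : Inv M R η ζ) (a : Let d M K) (x : Pos d) (hx : supn x ≤ R) :
    kst R ζ a x ≤ stepA η a (tv x) ∧
    stepA η a (tv x) - kst R ζ a x ≤ η (tv x) - ζ x +
      (match toLab a with
        | none => 0
        | some b => if tv x = b.1 + tv (dv b.2.2) ∧ b.2.1 < η b.1 ∧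
            (supn (lft b.1) ≤ R → ζ (lft b.1) ≤ b.2.1) then 1 else 0) := by
  have hI1 := hI x hx
  unfold kst stF gf stepA
  cases toLab a with
  | none => exact ⟨hI1, le_rfl⟩
  | some b =>
    rw [Option.bind_some]
    unfold kf
    have hl : tv (lft b.1) = b.1 := tv_lft b.1
    by_cases hb : supn (lft b.1) ≤ R
    · rw [if_pos hb]
      have hI2 := hI _ hb
      rw [hl] at hI2
      have e1 : (tv x = b.1) ↔ x = lft b.1 := by
        constructor
        · intro h1
          rw [← h1, lft_tv hR hx]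
        · rintro rfl
          exact hl
      have e2 : (tv x = b.1 + tv (dv b.2.2)) ↔ x = lft b.1 + dv b.2.2 := by
        rw [← hl, ← tv_add', hl]
        constructor
        · intro h1
          exact tv_inj hR hx ((supn_add_dv _ _).trans (by omega)) h1
        · rintro rfl
          rfl
      show mv (nbB R) ζ (lft b.1, b.2) x ≤ mv nbT η b (tv x) ∧ mv nbT η b (tv x) -
        mv (nbB R) ζ (lft b.1, b.2) x ≤ _
      by_cases h1 : b.2.1 < η b.1
      · rw [mv_val nbT η b h1]
        simp only [nbT_some, e1, e2]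
        by_cases h2 : b.2.1 < ζ (lft b.1)
        · rw [mv_val (nbB R) ζ (lft b.1, b.2) h2]
          simp only [nbB_some, hx, and_true, hb, true_implies]
          by_cases h3 : x = lft b.1
          · rw [if_pos h3, if_pos h3]
            have h4 : ¬ x = lft b.1 + dv b.2.2 := by
              rw [h3]
              intro h5
              exact dv_ne_zero b.2.2 (by simpa using h5.symm)
            rw [if_neg h4]
            have h5 : ζ x = ζ (lft b.1) := by rw [h3]
            have h6 : η (tv x) = η b.1 := by rw [h3, hl]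
            rw [h5, h6]
            constructor
            · omega
            · omega
          · rw [if_neg h3, if_neg h3]
            split_ifs <;> omega
        · rw [mv_no (nbB R) ζ (lft b.1, b.2) h2]
          have h2' : ζ (lft b.1) ≤ b.2.1 := not_lt.1 h2
          simp only [h1, hb, h2', true_implies, and_true]
          by_cases h3 : x = lft b.1
          · rw [if_pos h3]
            have h5 : ζ x = ζ (lft b.1) := by rw [h3]
            have h6 : η (tv x) = η b.1 := by rw [h3, hl]
            rw [h5, h6]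
            split_ifs <;> omega
          · rw [if_neg h3]
            split_ifs <;> omega
      · rw [mv_no nbT η b h1, mv_no (nbB R) ζ (lft b.1, b.2) (by
          intro h2
          exact h1 (lt_of_lt_of_le h2 hI2))]
        exact ⟨hI1, Nat.le_add_right _ _⟩
    · rw [if_neg hb]
      have e1 : ¬ tv x = b.1 := by
        intro h1
        apply hb
        rw [← h1, lft_tv hR hx]
        exact hx
      show ζ x ≤ mv nbT η b (tv x) ∧ mv nbT η b (tv x) - ζ x ≤ _
      by_cases h1 : b.2.1 < η b.1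
      · rw [mv_val nbT η b h1]
        simp only [nbT_some, e1, if_false, h1, hb, false_implies, and_true]
        split_ifs <;> omega
      · rw [mv_no nbT η b h1]
        exact ⟨hI1, Nat.le_add_right _ _⟩

theorem low_step [NeZero M] (hR : 2 * R + 2 ≤ M) {s : (Tor d M → ℕ) × Set (Pos d)}
    {s' : (Pos d → ℕ) × Set (Pos d)} (h : Low M R s s') (a : Let d M K) :
    Low M R (stR toLab nbT tv Set.univ s a) (stR (gf R) (nbB R) id Set.univ s' a) := by
  obtain ⟨η, A⟩ := s
  obtain ⟨ζ, A'⟩ := s'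
  obtain ⟨hI, hsub, hA⟩ := h
  simp only at hI hsub hA
  refine ⟨?_, ?_⟩
  · intro x hx
    rw [stR_fst, stR_fst, stF_toLab]
    exact (gain_le hR η ζ hI a x hx).1
  · unfold stR gf
    cases h : toLab a with
    | none => exact ⟨hsub, hA⟩
    | some b =>
      rw [Option.bind_some]
      unfold kf
      have hl : tv (lft b.1) = b.1 := tv_lft b.1
      by_cases hb : supn (lft b.1) ≤ R
      · rw [if_pos hb]
        have hI2 := hI _ hb
        rw [hl] at hI2
        have e1 : ∀ z ∈ A', (tv z = b.1 ↔ z = lft b.1) := by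
          intro z hz
          constructor
          · intro h1
            rw [← h1, lft_tv hR (hA z hz).1]
          · rintro rfl
            exact hl
        show infMv (nbB R) id ζ A' (lft b.1, b.2) ∩ Set.univ ⊆ infMv nbT tv η A b ∩ Set.univ ∧
          ∀ z ∈ infMv (nbB R) id ζ A' (lft b.1, b.2) ∩ Set.univ, supn z ≤ R ∧
            0 < mv (nbB R) ζ (lft b.1, b.2) z
        rw [Set.inter_univ, Set.inter_univ]
        refine ⟨?_, ?_⟩
        · intro z hz
          unfold infMv at hz ⊢
          by_cases h1 : b.2.1 < ζ (lft b.1)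
          · rw [if_pos (show ((lft b.1, b.2) : Lab (Pos d) d).2.1 < ζ (lft b.1) from h1)] at hz
            rw [if_pos (lt_of_lt_of_le h1 hI2)]
            rcases hz with ⟨h3, h4⟩ | ⟨h3, h4, -⟩
            · refine Or.inl ⟨hsub h3, fun h5 => ?_⟩
              have h6 : 2 ≤ ζ (lft b.1) := h4 ((e1 z h3).1 h5)
              exact h6.trans hI2
            · have h5 : z - dv b.2.2 = lft b.1 := h4
              refine Or.inr ⟨hsub h3, (e1 _ h3).2 h5, ?_⟩
              rw [nbT_some, ← (e1 _ h3).2 h5, ← tv_add', sub_add_cancel]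
          · rw [if_neg (show ¬ ((lft b.1, b.2) : Lab (Pos d) d).2.1 < ζ (lft b.1) from h1)] at hz
            by_cases h2 : b.2.1 < η b.1
            · rw [if_pos h2]
              refine Or.inl ⟨hsub hz, fun h5 => ?_⟩
              have h6 := (hA z hz).2
              rw [(e1 z hz).1 h5] at h6
              omega
            · rw [if_neg h2]
              exact hsub hz
        · intro z hz
          refine ⟨?_, infMv_occ (fun z hz => (hA z hz).2) hz⟩
          unfold infMv at hz
          split_ifs at hz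
          · rcases hz with ⟨h3, -⟩ | ⟨-, -, h3⟩
            · exact (hA z h3).1
            · exact (nbB_some.1 h3).2
          · exact (hA z hz).1
      · rw [if_neg hb]
        refine ⟨?_, hA⟩
        show A' ⊆ infMv nbT tv η A b ∩ Set.univ
        rw [Set.inter_univ]
        intro z hz
        have e1 : ¬ tv z = b.1 := by
          intro h1
          apply hb
          rw [← h1, lft_tv hR (hA z hz).1]
          exact (hA z hz).1
        unfold infMv
        split_ifs
        · exact Or.inl ⟨hsub hz, fun h5 => absurd h5 e1⟩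
        · exact hsub hz

theorem low_fold [NeZero M] (hR : 2 * R + 2 ≤ M) (L : List (Let d M K)) :
    ∀ (s : (Tor d M → ℕ) × Set (Pos d)) (s' : (Pos d → ℕ) × Set (Pos d)), Low M R s s' →
      Low M R (L.foldl (stR toLab nbT tv Set.univ) s) (L.foldl (stR (gf R) (nbB R) id Set.univ) s') := by
  induction L with
  | nil => exact fun s s' h => h
  | cons a L ih => exact fun s s' h => ih _ _ (low_step hR h a)

theorem inv_ini (η : Tor d M → ℕ) : Inv M R η (ini0 R η) := by
  intro x hx
  unfold ini0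
  rw [if_pos hx]

theorem low_inf [NeZero M] (hR : 2 * R + 2 ≤ M) (N1 : ℕ) (w : List (Let d M K)) (η : Tor d M → ℕ)
    (j : ℕ) :
    Low M R (cfg nbT η (un toLab N1 w) (0 + j),
        inf nbT tv η (un toLab N1 w) (fun _ => Set.univ) 0 {0} j)
      (cfg (nbB R) (ini0 R η) (un (gf R) N1 w) (0 + j),
        inf (nbB R) id (ini0 R η) (un (gf R) N1 w) (fun _ => Set.univ) 0 {0} j) := by
  have h0 : supn (0 : Pos d) ≤ R := by
    rw [supn_le]
    intro j
    simp
  induction j with
  | zero =>
    refine ⟨inv_ini η, ?_, ?_⟩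
    · rintro z ⟨h1, h2, h3⟩
      refine ⟨h1, h2, ?_⟩
      have h4 : z = 0 := h1
      have h5 : 0 < ini0 R η z := h3
      subst h4
      unfold ini0 at h5
      rw [if_pos h0] at h5
      exact h5
    · rintro z ⟨h1, h2, h3⟩
      have h4 : z = 0 := h1
      exact ⟨h4 ▸ h0, h3⟩
  | succ j ih =>
    have h1 := low_fold hR ((w.drop ((0 + j) * N1)).take N1) _ _ ih
    have h2 : (cfg nbT η (un toLab N1 w) (0 + (j + 1)),
        inf nbT tv η (un toLab N1 w) (fun _ => Set.univ) 0 {0} (j + 1)) =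
        ((w.drop ((0 + j) * N1)).take N1).foldl (stR toLab nbT tv Set.univ)
          (cfg nbT η (un toLab N1 w) (0 + j),
            inf nbT tv η (un toLab N1 w) (fun _ => Set.univ) 0 {0} j) := by
      rw [inf, ← add_assoc, cfg, Set.inter_univ]
      refine Prod.ext ?_ ?_
      · rw [fold_stR_fst, un, fold_stF]
      · rw [un, fold_stR]
    have h3 : (cfg (nbB R) (ini0 R η) (un (gf R) N1 w) (0 + (j + 1)),
        inf (nbB R) id (ini0 R η) (un (gf R) N1 w) (fun _ => Set.univ) 0 {0} (j + 1)) =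
        ((w.drop ((0 + j) * N1)).take N1).foldl (stR (gf R) (nbB R) id Set.univ)
          (cfg (nbB R) (ini0 R η) (un (gf R) N1 w) (0 + j),
            inf (nbB R) id (ini0 R η) (un (gf R) N1 w) (fun _ => Set.univ) 0 {0} j) := by
      rw [inf, ← add_assoc, cfg, Set.inter_univ]
      refine Prod.ext ?_ ?_
      · rw [fold_stR_fst, un, fold_stF]
      · rw [un, fold_stR]
    rw [h2, h3]
    exact h1

end below

/-! ### the expected growth of the difference -/

section prob

variable {m : Model} (q : Par d m) (R : ℕ)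

theorem mem_box {R : ℕ} {x : Pos d} : x ∈ box d R ↔ supn x ≤ R := by
  unfold box
  rw [Fintype.mem_piFinset, supn_le]
  refine forall_congr' fun j => ?_
  rw [Finset.mem_Icc]
  omega

/-- weight of a site of the box -/
def Gw (R : ℕ) (x : Pos d) : ℝ≥0∞ := ENNReal.ofReal (Real.exp ((R : ℝ) - supn x))

/-- weighted difference of the torus configuration and the killed configuration -/
def Dd (η : Tor d q.M → ℕ) (ζ : Pos d → ℕ) : ℝ≥0∞ :=
  ∑ x ∈ box d R, ((η (tv x) - ζ x : ℕ) : ℝ≥0∞) * Gw R x

/-- the source at the boundary of the box -/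
def src (η : Tor d q.M → ℕ) : ℝ≥0∞ :=
  ∑ x ∈ box d R, ∑ e : Dir d, ENNReal.ofReal (m.gK q.K (η (tv x - tv (dv e))) / (2 * d) * q.p)

/-- growth rate -/
def eps : ℝ≥0∞ := ENNReal.ofReal (Real.exp 1 * m.Gp * q.p)

/-- the gain of a letter at a site -/
def gain (η : Tor d q.M → ℕ) (ζ : Pos d → ℕ) (b : Tor d q.M × Fin q.K × Dir d) (x : Pos d) : ℝ≥0∞ :=
  if tv x = b.1 + tv (dv b.2.2) ∧ (b.2.1 : ℕ) < η b.1 ∧
    (supn (lft b.1) ≤ R → ζ (lft b.1) ≤ b.2.1) then 1 else 0

theorem Dd_step (hR : 2 * R + 2 ≤ q.M) (η : Tor d q.M → ℕ) (ζ : Pos d → ℕ)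
    (hI : Inv q.M R η ζ) (b : Tor d q.M × Fin q.K × Dir d) :
    Dd q R (stepA η (some b)) (kst R ζ (some b)) ≤ Dd q R η ζ +
      ∑ x ∈ box d R, gain q R η ζ b x * Gw R x := by
  unfold Dd
  rw [← Finset.sum_add_distrib]
  refine Finset.sum_le_sum fun x hx => ?_
  rw [← add_mul]
  refine mul_le_mul_left (b := _) ?_ _
  have h := (gain_le hR η ζ hI (some b) x (mem_box.1 hx)).2
  have h1 : ((stepA η (some b) (tv x) - kst R ζ (some b) x : ℕ) : ℝ≥0∞) ≤
      ((η (tv x) - ζ x + (if tv x = b.1 + tv (dv b.2.2) ∧ (b.2.1 : ℕ) < η b.1 ∧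
        (supn (lft b.1) ≤ R → ζ (lft b.1) ≤ b.2.1) then 1 else 0) : ℕ) : ℝ≥0∞) :=
    Nat.cast_le.2 h
  refine h1.trans (le_of_eq ?_)
  unfold gain
  push_cast
  split_ifs <;> simp

theorem sum_shift_le (e : Dir d) (F : Pos d → ℝ≥0∞) :
    ∑ x ∈ box d R, (if supn (x - dv e) ≤ R then F (x - dv e) else 0) ≤ ∑ y ∈ box d R, F y := by
  rw [← Finset.sum_filter]
  have h1 : ∑ x ∈ (box d R).filter (fun x => supn (x - dv e) ≤ R), F (x - dv e) =
      ∑ y ∈ ((box d R).filter (fun x => supn (x - dv e) ≤ R)).image (fun x => x - dv e), F y := by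
    rw [Finset.sum_image]
    intro x _ y _ h
    exact sub_left_injective h
  rw [h1]
  refine Finset.sum_le_sum_of_subset fun y hy => ?_
  rw [Finset.mem_image] at hy
  obtain ⟨x, hx, rfl⟩ := hy
  rw [Finset.mem_filter] at hx
  exact mem_box.2 hx.2

theorem Gw_le (x : Pos d) (e : Dir d) :
    Gw R x ≤ ENNReal.ofReal (Real.exp 1) * Gw R (x - dv e) := by
  unfold Gw
  rw [← ENNReal.ofReal_mul (Real.exp_pos _).le, ← Real.exp_add]
  refine ENNReal.ofReal_le_ofReal (Real.exp_le_exp.2 ?_)
  have h : ((supn (x - dv e) : ℕ) : ℝ) ≤ supn x + 1 := by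
    exact_mod_cast supn_sub_dv x e
  linarith

theorem lam_le' (d k : ℕ) : m.lam d k ≤ m.Gp / (2 * d) := by
  unfold Model.lam
  have h := m.inc_ub k
  gcongr

theorem sum_k_le (η ζ : ℕ) :
    ∑ k : Fin q.K, (if (k : ℕ) < η ∧ ζ ≤ k then ENNReal.ofReal (m.lam d k * q.p) else 0) ≤
      ((η - ζ : ℕ) : ℝ≥0∞) * ENNReal.ofReal (m.Gp / (2 * d) * q.p) := by
  have hp := q.p_pos
  rw [← Finset.sum_filter]
  calc ∑ k ∈ Finset.univ.filter (fun k : Fin q.K => (k : ℕ) < η ∧ ζ ≤ k),
        ENNReal.ofReal (m.lam d k * q.p)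
      ≤ ∑ k ∈ Finset.univ.filter (fun k : Fin q.K => (k : ℕ) < η ∧ ζ ≤ k),
        ENNReal.ofReal (m.Gp / (2 * d) * q.p) := by
        refine Finset.sum_le_sum fun k _ => ENNReal.ofReal_le_ofReal ?_
        exact mul_le_mul_of_nonneg_right (lam_le' d k) hp.le
    _ = ((Finset.univ.filter (fun k : Fin q.K => (k : ℕ) < η ∧ ζ ≤ k)).card : ℝ≥0∞) *
        ENNReal.ofReal (m.Gp / (2 * d) * q.p) := by
        rw [Finset.sum_const, nsmul_eq_mul]
    _ ≤ _ := by
        refine mul_le_mul_left (b := _) ?_ _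
        refine Nat.cast_le.2 ?_
        have h1 : ((Finset.univ.filter (fun k : Fin q.K => (k : ℕ) < η ∧ ζ ≤ k)).image
            (fun k : Fin q.K => (k : ℕ))) ⊆ Finset.Ico ζ η := by
          intro k hk
          rw [Finset.mem_image] at hk
          obtain ⟨k', hk', rfl⟩ := hk
          rw [Finset.mem_filter] at hk'
          rw [Finset.mem_Ico]
          exact ⟨hk'.2.2, hk'.2.1⟩
        have h2 := Finset.card_le_card h1
        rw [Finset.card_image_of_injective _ Fin.val_injective, Nat.card_Ico] at h2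
        exact h2

/-- the expected gain through one edge -/
theorem edge_le (hR : 2 * R + 2 ≤ q.M) (η : Tor d q.M → ℕ) (ζ : Pos d → ℕ) (x : Pos d)
    (e : Dir d) :
    (∑ k : Fin q.K, (if (k : ℕ) < η (tv x - tv (dv e)) ∧
      (supn (lft (tv x - tv (dv e) : Tor d q.M)) ≤ R →
        ζ (lft (tv x - tv (dv e) : Tor d q.M)) ≤ k) then ENNReal.ofReal (m.lam d k * q.p) else 0)) *
      Gw R x ≤
    (if supn (x - dv e) ≤ R then ((η (tv (x - dv e)) - ζ (x - dv e) : ℕ) : ℝ≥0∞) * Gw R (x - dv e) *
      (ENNReal.ofReal (m.Gp / (2 * d) * q.p) * ENNReal.ofReal (Real.exp 1)) else 0) +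
    ENNReal.ofReal (m.gK q.K (η (tv x - tv (dv e))) / (2 * d) * q.p) := by
  by_cases h : supn (x - dv e) ≤ R
  · rw [if_pos h]
    refine le_add_right ?_
    have h1 : lft (tv x - tv (dv e) : Tor d q.M) = x - dv e := by
      rw [← tv_sub']
      exact lft_tv hR h
    rw [h1, ← tv_sub']
    have h2 : ∀ k : Fin q.K, (if (k : ℕ) < η (tv (x - dv e)) ∧ (supn (x - dv e) ≤ R →
        ζ (x - dv e) ≤ k) then ENNReal.ofReal (m.lam d k * q.p) else 0) =
        (if (k : ℕ) < η (tv (x - dv e)) ∧ ζ (x - dv e) ≤ k then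
          ENNReal.ofReal (m.lam d k * q.p) else 0) := by
      intro k
      simp only [h, true_implies]
    rw [Finset.sum_congr rfl fun k _ => h2 k]
    calc _ ≤ (((η (tv (x - dv e)) - ζ (x - dv e) : ℕ) : ℝ≥0∞) *
          ENNReal.ofReal (m.Gp / (2 * d) * q.p)) *
          (ENNReal.ofReal (Real.exp 1) * Gw R (x - dv e)) :=
          mul_le_mul' (sum_k_le q _ _) (Gw_le R x e)
      _ = _ := by ring
  · rw [if_neg h, zero_add]
    have h1 : Gw R x ≤ 1 := by
      unfold Gw
      rw [← ENNReal.ofReal_one]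
      refine ENNReal.ofReal_le_ofReal ?_
      rw [← Real.exp_zero]
      refine Real.exp_le_exp.2 ?_
      have h2 := supn_sub_dv x e
      have h3 : ((R : ℕ) : ℝ) ≤ supn x := by
        have : R ≤ supn x := by omega
        exact_mod_cast this
      linarith
    calc _ ≤ (∑ k : Fin q.K, (if (k : ℕ) < η (tv x - tv (dv e)) then
          ENNReal.ofReal (m.lam d k * q.p) else 0)) * 1 := by
          refine mul_le_mul' (Finset.sum_le_sum fun k _ => ?_) h1
          by_cases h4 : (k : ℕ) < η (tv x - tv (dv e))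
          · rw [if_pos h4]
            split_ifs
            · exact le_rfl
            · exact zero_le
          · rw [if_neg h4, if_neg fun h5 => h4 h5.1]
      _ = _ := by rw [mul_one, sum_lam]

theorem sum_gain (η : Tor d q.M → ℕ) (ζ : Pos d → ℕ) (x : Pos d) :
    ∑ b : Tor d q.M × Fin q.K × Dir d, q.w (some b) * gain q R η ζ b x =
      ∑ e : Dir d, ∑ k : Fin q.K, (if (k : ℕ) < η (tv x - tv (dv e)) ∧
      (supn (lft (tv x - tv (dv e) : Tor d q.M)) ≤ R →
        ζ (lft (tv x - tv (dv e) : Tor d q.M)) ≤ k) then ENNReal.ofReal (m.lam d k * q.p) else 0) := by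
  rw [Fintype.sum_prod_type, Finset.sum_comm]
  rw [← Finset.sum_comm, Finset.sum_comm]
  have h0 : ∀ g : Fin q.K → Dir d → ℝ≥0∞, ∑ e : Dir d, ∑ k : Fin q.K, g k e =
      ∑ p : Fin q.K × Dir d, g p.1 p.2 := fun g => by
    rw [Finset.sum_comm, ← Finset.sum_product']
    rfl
  rw [h0 (fun k e => if (k : ℕ) < η (tv x - tv (dv e)) ∧
      (supn (lft (tv x - tv (dv e) : Tor d q.M)) ≤ R →
        ζ (lft (tv x - tv (dv e) : Tor d q.M)) ≤ k) then ENNReal.ofReal (m.lam d k * q.p) else 0)]
  refine Finset.sum_congr rfl fun ke _ => ?_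
  obtain ⟨k, e⟩ := ke
  rw [Finset.sum_eq_single (tv x - tv (dv e))]
  · unfold gain Par.w
    simp only [sub_add_cancel, true_and]
    split_ifs <;> simp
  · intro v _ hv
    unfold gain
    rw [if_neg, mul_zero]
    rintro ⟨h1, -⟩
    exact hv (by rw [h1, add_sub_cancel_right])
  · intro h
    exact absurd (Finset.mem_univ _) h

theorem step_le (hd : 0 < d) (hR : 2 * R + 2 ≤ q.M) (η : Tor d q.M → ℕ) (ζ : Pos d → ℕ)
    (hI : Inv q.M R η ζ) :
    ∑ a, q.w a * Dd q R (stepA η a) (kst R ζ a) ≤ (1 + eps q) * Dd q R η ζ + src q R η := by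
  have hp := q.p_pos
  rw [Fintype.sum_option]
  calc q.w none * Dd q R (stepA η none) (kst R ζ none) +
        ∑ b, q.w (some b) * Dd q R (stepA η (some b)) (kst R ζ (some b))
      ≤ q.w none * Dd q R η ζ + ∑ b, (q.w (some b) * Dd q R η ζ +
          q.w (some b) * ∑ x ∈ box d R, gain q R η ζ b x * Gw R x) := by
        refine add_le_add le_rfl (Finset.sum_le_sum fun b _ => ?_)
        rw [← mul_add]
        exact mul_le_mul_right (Dd_step q R hR η ζ hI b) _
    _ = (∑ a, q.w a) * Dd q R η ζ +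
          ∑ b, q.w (some b) * ∑ x ∈ box d R, gain q R η ζ b x * Gw R x := by
        rw [Finset.sum_add_distrib, ← add_assoc, Fintype.sum_option, add_mul, ← Finset.sum_mul]
    _ = Dd q R η ζ + ∑ x ∈ box d R,
          (∑ b, q.w (some b) * gain q R η ζ b x) * Gw R x := by
        rw [Rows.sum_w q hd, one_mul]
        congr 1
        simp_rw [Finset.mul_sum, Finset.sum_mul]
        rw [Finset.sum_comm]
        refine Finset.sum_congr rfl fun x _ => Finset.sum_congr rfl fun b _ => ?_
        ring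
    _ ≤ Dd q R η ζ + ∑ x ∈ box d R, ∑ e : Dir d,
          ((if supn (x - dv e) ≤ R then
            ((η (tv (x - dv e)) - ζ (x - dv e) : ℕ) : ℝ≥0∞) * Gw R (x - dv e) *
            (ENNReal.ofReal (m.Gp / (2 * d) * q.p) * ENNReal.ofReal (Real.exp 1)) else 0) +
            ENNReal.ofReal (m.gK q.K (η (tv x - tv (dv e))) / (2 * d) * q.p)) := by
        refine add_le_add le_rfl (Finset.sum_le_sum fun x _ => ?_)
        rw [sum_gain, Finset.sum_mul]
        exact Finset.sum_le_sum fun e _ => edge_le q R hR η ζ x e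
    _ = Dd q R η ζ + (∑ e : Dir d, ∑ x ∈ box d R,
          (if supn (x - dv e) ≤ R then
            ((η (tv (x - dv e)) - ζ (x - dv e) : ℕ) : ℝ≥0∞) * Gw R (x - dv e) *
            (ENNReal.ofReal (m.Gp / (2 * d) * q.p) * ENNReal.ofReal (Real.exp 1)) else 0) +
            src q R η) := by
        congr 1
        simp_rw [Finset.sum_add_distrib]
        rw [Finset.sum_comm]
        rfl
    _ ≤ Dd q R η ζ + (∑ e : Dir d, Dd q R η ζ *
            (ENNReal.ofReal (m.Gp / (2 * d) * q.p) * ENNReal.ofReal (Real.exp 1)) + src q R η) := by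
        refine add_le_add le_rfl (add_le_add (Finset.sum_le_sum fun e _ => ?_) le_rfl)
        refine (sum_shift_le R e (fun y => ((η (tv y) - ζ y : ℕ) : ℝ≥0∞) * Gw R y *
            (ENNReal.ofReal (m.Gp / (2 * d) * q.p) * ENNReal.ofReal (Real.exp 1)))).trans ?_
        unfold Dd
        rw [Finset.sum_mul]
    _ = (1 + eps q) * Dd q R η ζ + src q R η := by
        rw [Finset.sum_const, Finset.card_univ, Fintype.card_prod, Fintype.card_fin,
          Fintype.card_bool, nsmul_eq_mul]
        have h1 : ((d * 2 : ℕ) : ℝ≥0∞) * (ENNReal.ofReal (m.Gp / (2 * d) * q.p) *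
            ENNReal.ofReal (Real.exp 1)) = eps q := by
          have hGp : 0 < m.Gp := by linarith [m.le_Gp]
          have hd' : (0 : ℝ) < d := by exact_mod_cast hd
          unfold eps
          rw [← ENNReal.ofReal_mul (by positivity), ← ENNReal.ofReal_natCast,
            ← ENNReal.ofReal_mul (by positivity)]
          congr 1
          push_cast
          field_simp
        rw [← h1]
        ring

/-- the expected discounted source of the next `n` letters -/
def Src : ℕ → (Tor d q.M → ℕ) → ℝ≥0∞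
  | 0 => fun _ => 0
  | n + 1 => fun η => (1 + eps q) ^ n * src q R η + ∑ a, q.w a * Src n (stepA η a)

/-- the two configurations differ at distance at most `B` -/
def Bad (B : ℕ) (η : Tor d q.M → ℕ) (ζ : Pos d → ℕ) : Prop := ∃ x, supn x ≤ B ∧ ζ x ≠ η (tv x)

theorem one_le_of_bad {B : ℕ} (hB : B ≤ R) (η : Tor d q.M → ℕ) (ζ : Pos d → ℕ)
    (hI : Inv q.M R η ζ) (hb : Bad q B η ζ) (n : ℕ) (S : ℝ≥0∞) :
    1 ≤ ENNReal.ofReal (Real.exp ((B : ℝ) - R)) * ((1 + eps q) ^ n * Dd q R η ζ + S) := by
  obtain ⟨x, hx, hne⟩ := hb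
  have hxR : supn x ≤ R := hx.trans hB
  have h1 := hI x hxR
  have h2 : (1 : ℝ≥0∞) ≤ ((η (tv x) - ζ x : ℕ) : ℝ≥0∞) := by
    have : 1 ≤ η (tv x) - ζ x := by omega
    exact_mod_cast this
  have h3 : ENNReal.ofReal (Real.exp ((R : ℝ) - B)) ≤ Dd q R η ζ := by
    unfold Dd
    refine le_trans ?_ (Finset.single_le_sum (fun y _ => zero_le) (mem_box.2 hxR))
    calc ENNReal.ofReal (Real.exp ((R : ℝ) - B)) = 1 * ENNReal.ofReal (Real.exp ((R : ℝ) - B)) := by
          rw [one_mul]
      _ ≤ _ := by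
          refine mul_le_mul' h2 (ENNReal.ofReal_le_ofReal (Real.exp_le_exp.2 ?_))
          have : ((supn x : ℕ) : ℝ) ≤ B := by exact_mod_cast hx
          linarith
  calc (1 : ℝ≥0∞) = ENNReal.ofReal (Real.exp ((B : ℝ) - R)) *
        (1 ^ n * ENNReal.ofReal (Real.exp ((R : ℝ) - B)) + 0) := by
        rw [one_pow, one_mul, add_zero, ← ENNReal.ofReal_mul (Real.exp_pos _).le, ← Real.exp_add]
        simp
    _ ≤ _ := by
        refine mul_le_mul' le_rfl (add_le_add (mul_le_mul' ?_ h3) zero_le)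
        exact pow_le_pow_left' le_self_add n

theorem pr_bad (hd : 0 < d) (hR : 2 * R + 2 ≤ q.M) {B : ℕ} (hB : B ≤ R) (n : ℕ) :
    ∀ (η : Tor d q.M → ℕ) (ζ : Pos d → ℕ), Inv q.M R η ζ →
      PrE q.w n (fun l => ∃ i, Bad q B ((l.take i).foldl stepA η) ((l.take i).foldl (kst R) ζ)) ≤
        ENNReal.ofReal (Real.exp ((B : ℝ) - R)) * ((1 + eps q) ^ n * Dd q R η ζ + Src q R n η) := by
  have hw := Rows.sum_w q hd
  induction n with
  | zero =>
    intro η ζ hI
    by_cases hb : Bad q B η ζ
    · exact (PrE_le_one _ hw _ _).trans (one_le_of_bad q R hB η ζ hI hb _ _)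
    · have h1 : PrE q.w 0 (fun l => ∃ i, Bad q B ((l.take i).foldl stepA η)
          ((l.take i).foldl (kst R) ζ)) = 0 := by
        unfold PrE
        rw [EvE_zero, if_neg]
        rintro ⟨i, hi⟩
        rw [List.take_nil] at hi
        exact hb hi
      rw [h1]
      exact zero_le
  | succ n ih =>
    intro η ζ hI
    by_cases hb : Bad q B η ζ
    · exact (PrE_le_one _ hw _ _).trans (one_le_of_bad q R hB η ζ hI hb _ _)
    · have h1 : ∀ a, PrE q.w n (fun l => ∃ i, Bad q B (((a :: l).take i).foldl stepA η)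
          (((a :: l).take i).foldl (kst R) ζ)) ≤
          ENNReal.ofReal (Real.exp ((B : ℝ) - R)) * ((1 + eps q) ^ n *
            Dd q R (stepA η a) (kst R ζ a) + Src q R n (stepA η a)) := by
        intro a
        refine (PrE_mono _ _ fun l _ => ?_).trans (ih (stepA η a) (kst R ζ a) ?_)
        · rintro ⟨i, hi⟩
          cases i with
          | zero => exact absurd hi hb
          | succ i => exact ⟨i, hi⟩
        · exact fun x hx => (gain_le hR η ζ hI a x hx).1
      calc PrE q.w (n + 1) (fun l => ∃ i, Bad q B ((l.take i).foldl stepA η)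
            ((l.take i).foldl (kst R) ζ))
          = ∑ a, q.w a * PrE q.w n (fun l => ∃ i, Bad q B (((a :: l).take i).foldl stepA η)
            (((a :: l).take i).foldl (kst R) ζ)) := rfl
        _ ≤ ∑ a, q.w a * (ENNReal.ofReal (Real.exp ((B : ℝ) - R)) * ((1 + eps q) ^ n *
            Dd q R (stepA η a) (kst R ζ a) + Src q R n (stepA η a))) :=
            Finset.sum_le_sum fun a _ => mul_le_mul' le_rfl (h1 a)
        _ = ENNReal.ofReal (Real.exp ((B : ℝ) - R)) * ((1 + eps q) ^ n *
            (∑ a, q.w a * Dd q R (stepA η a) (kst R ζ a)) +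
              ∑ a, q.w a * Src q R n (stepA η a)) := by
            rw [mul_add, Finset.mul_sum, Finset.mul_sum, Finset.mul_sum, ← Finset.sum_add_distrib]
            refine Finset.sum_congr rfl fun a _ => ?_
            ring
        _ ≤ ENNReal.ofReal (Real.exp ((B : ℝ) - R)) * ((1 + eps q) ^ n *
            ((1 + eps q) * Dd q R η ζ + src q R η) + ∑ a, q.w a * Src q R n (stepA η a)) :=
            mul_le_mul' le_rfl (add_le_add (mul_le_mul' le_rfl (step_le q R hd hR η ζ hI)) le_rfl)
        _ = ENNReal.ofReal (Real.exp ((B : ℝ) - R)) * ((1 + eps q) ^ (n + 1) * Dd q R η ζ +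
              Src q R (n + 1) η) := by
            show _ = _ * (_ + ((1 + eps q) ^ n * src q R η + ∑ a, q.w a * Src q R n (stepA η a)))
            ring

theorem card_box : (box d R).card = (2 * R + 1) ^ d := by
  unfold box
  rw [Fintype.card_piFinset]
  simp only [Int.card_Icc, Finset.prod_const, Finset.card_univ, Fintype.card_fin]
  congr 1
  omega

theorem mean_src (hd : 0 < d) : ∑' η : Tor d q.M → ℕ, prw (m.m1 q.K) η * src q R η =
    ((2 * R + 1 : ℕ) : ℝ≥0∞) ^ d * ENNReal.ofReal (m.φ * q.p) := by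
  have hp := q.p_pos
  have hd' : (0 : ℝ) < d := by exact_mod_cast hd
  have h1 : ∀ (x : Pos d) (e : Dir d), ∑' η : Tor d q.M → ℕ, prw (m.m1 q.K) η *
      ENNReal.ofReal (m.gK q.K (η (tv x - tv (dv e))) / (2 * d) * q.p) =
      ENNReal.ofReal m.φ * ENNReal.ofReal (q.p / (2 * d)) := by
    intro x e
    have h2 := Rows.mean_g m d q (tv x - tv (dv e))
    rw [← h2, ← ENNReal.tsum_mul_right]
    refine tsum_congr fun η => ?_
    rw [mul_assoc, ← ENNReal.ofReal_mul (gK_nonneg m q.K _)]
    congr 2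
    ring
  unfold src
  simp_rw [Finset.mul_sum]
  rw [Summable.tsum_finsetSum fun _ _ => ENNReal.summable]
  rw [Finset.sum_congr rfl fun x _ => Summable.tsum_finsetSum fun _ _ => ENNReal.summable]
  rw [Finset.sum_congr rfl fun x _ => Finset.sum_congr rfl fun e _ => h1 x e]
  rw [Finset.sum_const, Finset.sum_const, card_box, Finset.card_univ, Fintype.card_prod,
    Fintype.card_fin, Fintype.card_bool, nsmul_eq_mul, nsmul_eq_mul]
  rw [← ENNReal.ofReal_mul m.φ_pos.le, ← ENNReal.ofReal_natCast (d * 2),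
    ← ENNReal.ofReal_mul (by positivity)]
  push_cast
  congr 2
  field_simp

theorem mean_Src (hd : 0 < d) (n : ℕ) : ∑' η : Tor d q.M → ℕ, prw (m.m1 q.K) η * Src q R n η ≤
    (n : ℝ≥0∞) * (1 + eps q) ^ n * (((2 * R + 1 : ℕ) : ℝ≥0∞) ^ d * ENNReal.ofReal (m.φ * q.p)) := by
  have h1 : (1 : ℝ≥0∞) ≤ 1 + eps q := le_self_add
  induction n with
  | zero =>
    simp [Src]
  | succ n ih =>
    have h2 : ∑' η : Tor d q.M → ℕ, prw (m.m1 q.K) η * (∑ a, q.w a * Src q R n (stepA η a)) =
        ∑' η : Tor d q.M → ℕ, prw (m.m1 q.K) η * Src q R n η := stat_aux q hd (Src q R n) 1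
    calc ∑' η : Tor d q.M → ℕ, prw (m.m1 q.K) η * Src q R (n + 1) η
        = ∑' η : Tor d q.M → ℕ, ((1 + eps q) ^ n * (prw (m.m1 q.K) η * src q R η) +
            prw (m.m1 q.K) η * (∑ a, q.w a * Src q R n (stepA η a))) := by
          refine tsum_congr fun η => ?_
          show _ * ((1 + eps q) ^ n * src q R η + ∑ a, q.w a * Src q R n (stepA η a)) = _
          ring
      _ = (1 + eps q) ^ n * (((2 * R + 1 : ℕ) : ℝ≥0∞) ^ d * ENNReal.ofReal (m.φ * q.p)) +
            ∑' η : Tor d q.M → ℕ, prw (m.m1 q.K) η * Src q R n η := by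
          rw [ENNReal.tsum_add, ENNReal.tsum_mul_left, mean_src q R hd, h2]
      _ ≤ (1 + eps q) ^ (n + 1) * (((2 * R + 1 : ℕ) : ℝ≥0∞) ^ d * ENNReal.ofReal (m.φ * q.p)) +
            (n : ℝ≥0∞) * (1 + eps q) ^ (n + 1) *
              (((2 * R + 1 : ℕ) : ℝ≥0∞) ^ d * ENNReal.ofReal (m.φ * q.p)) := by
          refine add_le_add (mul_le_mul' (pow_le_pow_right₀ h1 (Nat.le_succ n)) le_rfl) (ih.trans ?_)
          exact mul_le_mul' (mul_le_mul' le_rfl (pow_le_pow_right₀ h1 (Nat.le_succ n))) le_rfl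
      _ = _ := by
          push_cast
          ring

theorem Dd_ini (η : Tor d q.M → ℕ) : Dd q R η (ini0 R η) = 0 := by
  unfold Dd
  refine Finset.sum_eq_zero fun x hx => ?_
  unfold ini0
  rw [if_pos (mem_box.1 hx)]
  simp

end prob

end ZI.LK

namespace ZI.Rows

open ZI ZI.LK

variable {d : ℕ} {m : Model}

/-- the killed system is below the torus system (deterministic) -/
theorem kill_vis (q : Par d m) (R : ℕ) (hR : 2 * R + 2 ≤ q.M) (η : Tor d q.M → ℕ)
    (l : List (Let d q.M q.K)) (t : ℕ) (b : Pos d)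
    (h : (kill R (envT q η l)).vis (fun _ => Set.univ) 0 0 t b) :
    (envT q η l).vis (fun _ => Set.univ) 0 0 t b := by
  obtain ⟨j, hj, hb⟩ := h
  refine ⟨j, hj, ?_⟩
  rw [kill_U q R hR] at hb
  have hb' : b ∈ visU (nbB R) id (ini0 R η) (un (gf R) q.N1 l) (fun _ => Set.univ) 0 {0} j := hb
  show b ∈ visU nbT tv η (un toLab q.N1 l) (fun _ => Set.univ) 0 {0} j
  unfold visU at hb' ⊢
  rw [Set.mem_ofPred_eq] at hb' ⊢
  unfold un at hb' ⊢
  rw [vis_letters] at hb' ⊢
  obtain ⟨i, hi, hz⟩ := hb'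
  refine ⟨i, hi, ?_⟩
  rw [Set.inter_univ] at hz ⊢
  exact (low_fold hR _ _ _ (low_inf hR q.N1 l η j)).2.1 hz

/-- dimension zero: nothing happens -/
theorem LK.zero_dim (q : Par 0 m) (R N : ℕ) (hR : 2 * R + 2 ≤ q.M) (hN : 16 * N + 4 ≤ R)
    (η : Tor 0 q.M → ℕ) (l : List (Let 0 q.M q.K)) :
    Agree N (envT q η l) (kill R (envT q η l)) := by
  refine agree_of q R N hR (by omega) η l fun i => ?_
  have h1 : ∀ a : Let 0 q.M q.K, toLab a = none := by
    intro a
    cases a with
    | none => rfl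
    | some b => exact b.2.2.1.elim0
  have h2 : ∀ L : List (Let 0 q.M q.K), L.foldl stepA η = η := by
    intro L
    induction L with
    | nil => rfl
    | cons a L ih =>
      rw [List.foldl_cons]
      have : stepA η a = η := by
        unfold stepA
        rw [h1]
      rw [this, ih]
  have h3 : ∀ L : List (Let 0 q.M q.K), L.foldl (kst R) (ini0 R η) = ini0 R η := by
    intro L
    induction L with
    | nil => rfl
    | cons a L ih =>
      rw [List.foldl_cons]
      have : kst R (ini0 R η) a = ini0 R η := by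
        unfold kst stF gf
        rw [h1]
        rfl
      rw [this, ih]
  rw [h2, h3]
  intro x hx
  unfold ini0
  rw [if_pos (hx.trans (by omega))]

theorem killed_agree (m : Model) (d : ℕ) : ∃ C : ℕ, ∀ q : Par d m, ∀ R N : ℕ, 2 * R + 2 ≤ q.M →
    16 * N + 4 ≤ R →
    q.PP (N * q.N1) (fun η l => ¬ Agree N (envT q η l) (kill R (envT q η l))) ≤
      ENNReal.ofReal (C * (R + 1 : ℝ) ^ C * Real.exp (C * N - R / 4)) := by
  obtain ⟨C1, hC1⟩ := exists_nat_ge (m.φ * 2 ^ d)
  obtain ⟨C2, hC2⟩ := exists_nat_ge (Real.exp 1 * m.Gp + 5)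
  refine ⟨C1 + C2 + d, fun q R N hR hN => ?_⟩
  rcases Nat.eq_zero_or_pos d with rfl | hd
  · have h1 : q.PP (N * q.N1) (fun η l => ¬ Agree N (envT q η l) (kill R (envT q η l))) =
        q.EE (N * q.N1) (fun _ _ => 0) := by
      unfold Par.PP
      congr 1
      funext η l
      rw [if_neg (not_not.2 (LK.zero_dim q R N hR hN η l))]
    rw [h1, C5.EE_zero' q]
    exact zero_le
  have hp := q.p_pos
  have hGp : 0 < m.Gp := by linarith [m.le_Gp]
  have hφ := m.φ_pos
  have hB : 4 * N ≤ R := by omega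
  have hC1' : (0 : ℝ) ≤ C1 := Nat.cast_nonneg _
  have hC2' : (0 : ℝ) ≤ C2 := Nat.cast_nonneg _
  have hpN : q.p * (N * q.N1 : ℕ) ≤ N := by
    have h1 := q.p_ub
    have h2 : (0 : ℝ) ≤ N := Nat.cast_nonneg _
    push_cast
    nlinarith
  calc q.PP (N * q.N1) (fun η l => ¬ Agree N (envT q η l) (kill R (envT q η l)))
      ≤ ∑' η : Tor d q.M → ℕ, prw (m.m1 q.K) η * PrE q.w (N * q.N1) (fun l => ∃ i,
          Bad q (4 * N) ((l.take i).foldl stepA η) ((l.take i).foldl (kst R) (ini0 R η))) := by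
        unfold Par.PP Par.EE
        refine ENNReal.tsum_le_tsum fun η => mul_le_mul' le_rfl ?_
        refine PrE_mono q.w _ fun l _ h => ?_
        by_contra hc
        push Not at hc
        refine h (agree_of q R N hR (by omega) η l fun i x hx => ?_)
        by_contra hne
        exact hc i ⟨x, hx, hne⟩
    _ ≤ ∑' η : Tor d q.M → ℕ, prw (m.m1 q.K) η *
          (ENNReal.ofReal (Real.exp (((4 * N : ℕ) : ℝ) - R)) * Src q R (N * q.N1) η) := by
        refine ENNReal.tsum_le_tsum fun η => mul_le_mul' le_rfl ?_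
        refine (pr_bad q R hd hR hB (N * q.N1) η (ini0 R η) (inv_ini η)).trans (le_of_eq ?_)
        rw [Dd_ini, mul_zero, zero_add]
    _ = ENNReal.ofReal (Real.exp (((4 * N : ℕ) : ℝ) - R)) *
          ∑' η : Tor d q.M → ℕ, prw (m.m1 q.K) η * Src q R (N * q.N1) η := by
        rw [← ENNReal.tsum_mul_left]
        refine tsum_congr fun η => ?_
        ring
    _ ≤ ENNReal.ofReal (Real.exp (((4 * N : ℕ) : ℝ) - R)) *
          (((N * q.N1 : ℕ) : ℝ≥0∞) * (1 + eps q) ^ (N * q.N1) *
            (((2 * R + 1 : ℕ) : ℝ≥0∞) ^ d * ENNReal.ofReal (m.φ * q.p))) :=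
        mul_le_mul' le_rfl (mean_Src q R hd _)
    _ = ENNReal.ofReal (Real.exp (((4 * N : ℕ) : ℝ) - R) * (((N * q.N1 : ℕ) : ℝ) *
          (1 + Real.exp 1 * m.Gp * q.p) ^ (N * q.N1) * (((2 * R + 1 : ℕ) : ℝ) ^ d *
            (m.φ * q.p)))) := by
        have h1 : (0 : ℝ) ≤ Real.exp 1 * m.Gp * q.p := by positivity
        unfold eps
        rw [← ENNReal.ofReal_one, ← ENNReal.ofReal_add zero_le_one h1,
          ← ENNReal.ofReal_pow (by positivity), ← ENNReal.ofReal_natCast (N * q.N1),
          ← ENNReal.ofReal_natCast (2 * R + 1), ← ENNReal.ofReal_pow (by positivity),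
          ← ENNReal.ofReal_mul (by positivity), ← ENNReal.ofReal_mul (by positivity),
          ← ENNReal.ofReal_mul (by positivity), ← ENNReal.ofReal_mul (by positivity)]
    _ ≤ ENNReal.ofReal (((C1 + C2 + d : ℕ) : ℝ) * (R + 1 : ℝ) ^ (C1 + C2 + d) *
          Real.exp (((C1 + C2 + d : ℕ) : ℝ) * N - R / 4)) := by
        refine ENNReal.ofReal_le_ofReal ?_
        have h1 : (1 + Real.exp 1 * m.Gp * q.p) ^ (N * q.N1) ≤ Real.exp (Real.exp 1 * m.Gp * N) := by
          calc (1 + Real.exp 1 * m.Gp * q.p) ^ (N * q.N1)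
              ≤ (Real.exp (Real.exp 1 * m.Gp * q.p)) ^ (N * q.N1) := by
                refine pow_le_pow_left₀ (by positivity) ?_ _
                have := Real.add_one_le_exp (Real.exp 1 * m.Gp * q.p)
                linarith
            _ = Real.exp (((N * q.N1 : ℕ) : ℝ) * (Real.exp 1 * m.Gp * q.p)) := by
                rw [← Real.exp_nat_mul]
            _ ≤ _ := by
                refine Real.exp_le_exp.2 ?_
                have h2 : (0 : ℝ) ≤ Real.exp 1 * m.Gp := by positivity
                calc ((N * q.N1 : ℕ) : ℝ) * (Real.exp 1 * m.Gp * q.p) =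
                      Real.exp 1 * m.Gp * (q.p * (N * q.N1 : ℕ)) := by ring
                  _ ≤ _ := mul_le_mul_of_nonneg_left hpN h2
        have h2 : (((2 * R + 1 : ℕ) : ℝ)) ^ d ≤ 2 ^ d * (R + 1 : ℝ) ^ (C1 + C2 + d) := by
          calc (((2 * R + 1 : ℕ) : ℝ)) ^ d ≤ (2 * (R + 1 : ℝ)) ^ d := by
                refine pow_le_pow_left₀ (by positivity) ?_ _
                push_cast
                linarith
            _ = 2 ^ d * (R + 1 : ℝ) ^ d := mul_pow _ _ _
            _ ≤ _ := by
                refine mul_le_mul_of_nonneg_left ?_ (by positivity)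
                exact pow_le_pow_right₀ (by linarith [(Nat.cast_nonneg R : (0 : ℝ) ≤ R)]) (by omega)
        have h3 : ((N * q.N1 : ℕ) : ℝ) * q.p ≤ Real.exp N := by
          have h4 := Real.add_one_le_exp (N : ℝ)
          linarith
        have h5 : ((C1 : ℕ) : ℝ) ≤ ((C1 + C2 + d : ℕ) : ℝ) := by
          exact_mod_cast (by omega : C1 ≤ C1 + C2 + d)
        have h6 : Real.exp 1 * m.Gp + 5 ≤ ((C1 + C2 + d : ℕ) : ℝ) := by
          refine hC2.trans ?_
          exact_mod_cast (by omega : C2 ≤ C1 + C2 + d)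
        have hR0 : (0 : ℝ) ≤ R := Nat.cast_nonneg _
        have hN0 : (0 : ℝ) ≤ N := Nat.cast_nonneg _
        calc Real.exp (((4 * N : ℕ) : ℝ) - R) * (((N * q.N1 : ℕ) : ℝ) *
              (1 + Real.exp 1 * m.Gp * q.p) ^ (N * q.N1) * (((2 * R + 1 : ℕ) : ℝ) ^ d *
                (m.φ * q.p)))
            = Real.exp (((4 * N : ℕ) : ℝ) - R) * ((((N * q.N1 : ℕ) : ℝ) * q.p) *
              (1 + Real.exp 1 * m.Gp * q.p) ^ (N * q.N1) * (m.φ * ((2 * R + 1 : ℕ) : ℝ) ^ d)) := by
              ring
          _ ≤ Real.exp (((4 * N : ℕ) : ℝ) - R) * (Real.exp N *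
              Real.exp (Real.exp 1 * m.Gp * N) * (m.φ * (2 ^ d * (R + 1 : ℝ) ^ (C1 + C2 + d)))) := by
              gcongr
          _ = (m.φ * 2 ^ d) * (R + 1 : ℝ) ^ (C1 + C2 + d) *
              Real.exp ((4 * N - R) + N + Real.exp 1 * m.Gp * N) := by
              rw [Real.exp_add, Real.exp_add]
              push_cast
              ring
          _ ≤ _ := by
              refine mul_le_mul (mul_le_mul_of_nonneg_right (hC1.trans h5) (by positivity))
                (Real.exp_le_exp.2 ?_) (Real.exp_pos _).le (by positivity)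
              nlinarith

end ZI.Rows
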