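import Pool.Agent.ZI.ProcE

/-! # Row P1: identities between the environments given by the clocks -/

set_option autoImplicit false

open scoped ENNReal BigOperators Classical
open MeasureTheory

noncomputable section

namespace ZI.P1

open ZI

variable {d : ℕ}

theorem sort_filter {α : Type} [LinearOrder α] (s : Finset α) (p : α → Prop) :
    (s.filter p).sort (· ≤ ·) = (s.sort (· ≤ ·)).filter (fun x => decide (p x)) := by
  refine List.Perm.eq_of_pairwise' (Finset.pairwise_sort _ _)
    ((Finset.pairwise_sort s (· ≤ ·)).filter _) ?_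
  rw [List.perm_ext_iff_of_nodup (Finset.sort_nodup _ _) ((Finset.sort_nodup _ _).filter _)]
  intro x
  simp

theorem ringSet_finite (ring : Lab (Pos d) d → Set ℝ) (F : Finset (Lab (Pos d) d)) (a b : ℝ)
    (hfin : ∀ l (a b : ℝ), (ring l ∩ Set.Ioc a b).Finite) : (ringSet ring F a b).Finite := by
  have h : ringSet ring F a b =
      ⋃ l ∈ F, (fun s => toLex (s, Encodable.encode l)) '' (ring l ∩ Set.Ioc a b) := by
    ext p
    simp only [ringSet, Set.mem_ofPred_eq, Set.mem_iUnion, Set.mem_image, Set.mem_inter_iff,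
      Set.mem_Ioc]
    constructor
    · rintro ⟨l, hl, s, hs, h1, h2, rfl⟩
      exact ⟨l, hl, s, ⟨hs, h1, h2⟩, rfl⟩
    · rintro ⟨l, hl, s, ⟨hs, h1, h2⟩, rfl⟩
      exact ⟨l, hl, s, hs, h1, h2, rfl⟩
  rw [h]
  exact F.finite_toSet.biUnion fun l _ => (hfin l a b).image _

theorem ringList_filter (ring : Lab (Pos d) d → Set ℝ) (F F' : Finset (Lab (Pos d) d)) (a b : ℝ)
    (hfin : ∀ l (a b : ℝ), (ring l ∩ Set.Ioc a b).Finite) (p : Lab (Pos d) d → Prop)
    (hF : ∀ l, l ∈ F' ↔ l ∈ F ∧ p l) :
    ringList ring F' a b = (ringList ring F a b).filter (fun l => decide (p l)) := by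
  have h := ringSet_finite ring F a b hfin
  have h' := ringSet_finite ring F' a b hfin
  unfold ringList
  rw [dif_pos h, dif_pos h']
  have h1 : h'.toFinset = h.toFinset.filter
      (fun x => ∃ l, p l ∧ Encodable.decode (ofLex x).2 = some l) := by
    ext x
    simp only [Set.Finite.mem_toFinset, Finset.mem_filter, ringSet, Set.mem_ofPred_eq]
    constructor
    · rintro ⟨l, hl, s, hs, h2, h3, rfl⟩
      obtain ⟨h4, h5⟩ := (hF l).mp hl
      exact ⟨⟨l, h4, s, hs, h2, h3, rfl⟩, l, h5, by simp⟩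
    · rintro ⟨⟨l, hl, s, hs, h2, h3, rfl⟩, l', h5, h6⟩
      have h7 : l = l' := by simpa using h6
      subst h7
      exact ⟨l, (hF l).mpr ⟨hl, h5⟩, s, hs, h2, h3, rfl⟩
  rw [h1, sort_filter, List.filterMap_filter, List.filter_filterMap]
  congr 1
  funext x
  cases hx : (Encodable.decode (ofLex x).2 : Option (Lab (Pos d) d)) with
  | none => simp
  | some l =>
    by_cases hp : p l
    · simp [hp, Option.filter]
    · simp [hp, Option.filter]

theorem mem_ringList (ring : Lab (Pos d) d → Set ℝ) (F : Finset (Lab (Pos d) d)) (a b : ℝ)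
    (hfin : ∀ l (a b : ℝ), (ring l ∩ Set.Ioc a b).Finite) (l : Lab (Pos d) d)
    (hl : l ∈ ringList ring F a b) : l ∈ F := by
  have h := ringSet_finite ring F a b hfin
  unfold ringList at hl
  rw [dif_pos h] at hl
  obtain ⟨x, hx, hx'⟩ := List.mem_filterMap.mp hl
  rw [Finset.mem_sort, Set.Finite.mem_toFinset] at hx
  obtain ⟨l', hl', s, hs, h2, h3, rfl⟩ := hx
  have h7 : l' = l := by simpa using hx'
  rwa [← h7]

theorem mem_torLab (M K : ℕ) (l : Lab (Pos d) d) : l ∈ torLab d M K ↔
    (∀ j, -(M : ℤ) < 2 * l.1 j ∧ 2 * l.1 j ≤ M) ∧ l.2.1 < K := by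
  simp only [torLab, Finset.mem_product, Fintype.mem_piFinset, Finset.mem_filter, Finset.mem_Icc,
    Finset.mem_range, Finset.mem_univ, and_true]
  constructor
  · rintro ⟨h1, h2⟩
    exact ⟨fun j => (h1 j).2, h2⟩
  · rintro ⟨h1, h2⟩
    exact ⟨fun j => ⟨⟨by have := h1 j; omega, by have := h1 j; omega⟩, h1 j⟩, h2⟩

theorem supn_le (x : Pos d) (R : ℕ) : supn x ≤ R ↔ ∀ j, -(R : ℤ) ≤ x j ∧ x j ≤ R := by
  unfold supn
  rw [Finset.sup_le_iff]
  constructor
  · intro h j
    have := h j (Finset.mem_univ j)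
    omega
  · intro h j _
    have := h j
    omega

theorem mem_boxLab (R K : ℕ) (l : Lab (Pos d) d) : l ∈ boxLab d R K ↔ supn l.1 ≤ R ∧ l.2.1 < K := by
  simp only [boxLab, box, Finset.mem_product, Fintype.mem_piFinset, Finset.mem_Icc,
    Finset.mem_range, Finset.mem_univ, and_true, supn_le]

/-- positions of the fundamental domain are determined by their image in the torus -/
theorem tv_inj (M : ℕ) (x y : Pos d) (hx : ∀ j, -(M : ℤ) < 2 * x j ∧ 2 * x j ≤ M)
    (hy : ∀ j, -(M : ℤ) < 2 * y j ∧ 2 * y j ≤ M) (h : (tv x : Tor d M) = tv y) : x = y := by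
  funext j
  have h1 : ((x j : ℤ) : ZMod M) = (y j : ZMod M) := congrFun h j
  rw [ZMod.intCast_eq_intCast_iff_dvd_sub] at h1
  obtain ⟨c, hc⟩ := h1
  have h2 := hx j
  have h3 := hy j
  have h4 : c = 0 := by
    by_contra h5
    rcases lt_or_gt_of_ne h5 with h6 | h6
    · nlinarith
    · nlinarith
  rw [h4, mul_zero] at hc
  linarith

theorem lft_tv (M : ℕ) (hM : 1 ≤ M) (x : Pos d) (hx : ∀ j, -(M : ℤ) < 2 * x j ∧ 2 * x j ≤ M) :
    lft (tv x : Tor d M) = x := by
  have : NeZero M := ⟨by omega⟩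
  refine tv_inj M _ _ (fun j => ?_) hx (funext fun j => ?_)
  · have h := ZMod.valMinAbs_mem_Ioc ((x j : ℤ) : ZMod M)
    simp only [lft, tv]
    have h1 := h.1
    have h2 := h.2
    constructor <;> linarith
  · simp only [lft, tv]
    exact ZMod.coe_valMinAbs _

end ZI.P1

namespace ZI.Rows

open ZI P1

variable {d : ℕ} {m : Model}

variable {Ω : Type} [MeasurableSpace Ω] {P : Measure Ω}

theorem capE_envC (C : Clocks m d P) (M K K' T : ℕ) (hK : K' ≤ K) (ω : Ω) :
    capE K' (envC C M K T ω) = envC C M K' T ω := by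
  have h : ∀ t : ℕ, ((envC C M K T ω).U t).filter (fun b => decide (b.2.1 < K')) =
      (envC C M K' T ω).U t := fun t => by
    simp only [envC]
    by_cases ht : t < T
    · rw [if_pos ht, if_pos ht, List.filter_map]
      congr 1
      rw [ringList_filter (C.ring ω) (torLab d M K) (torLab d M K') t (t + 1) (C.ring_fin ω)
        (fun l => l.2.1 < K')]
      · refine List.filter_congr fun l _ => ?_
        simp
      · intro l
        rw [mem_torLab, mem_torLab]
        constructor
        · rintro ⟨h1, h2⟩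
          exact ⟨⟨h1, by omega⟩, h2⟩
        · rintro ⟨⟨h1, h2⟩, h3⟩
          exact ⟨h1, h3⟩
    · rw [if_neg ht, if_neg ht]
      rfl
  unfold capE
  rw [show (fun t => ((envC C M K T ω).U t).filter (fun b => decide (b.2.1 < K'))) =
    (envC C M K' T ω).U from funext h]
  rfl

theorem kill_envC (C : Clocks m d P) (M R K T : ℕ) (hR : 2 * R + 2 ≤ M) (ω : Ω) :
    kill R (envC C M K T ω) = envB C R K T ω := by
  have hbox : ∀ x : Pos d, supn x ≤ R → ∀ j, -(M : ℤ) < 2 * x j ∧ 2 * x j ≤ M := fun x hx j => by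
    have := (supn_le x R).mp hx j
    omega
  have h0 : (fun x : Pos d => if supn x ≤ R then (envC C M K T ω).η0 ((envC C M K T ω).pr x) else 0) =
      fun x => if supn x ≤ R then C.η0 ω x else 0 := by
    funext x
    by_cases hx : supn x ≤ R
    · rw [if_pos hx, if_pos hx]
      show C.η0 ω (lft (tv x : Tor d M)) = _
      rw [lft_tv M (by omega) x (hbox x hx)]
    · rw [if_neg hx, if_neg hx]
  have h : ∀ t : ℕ, ((envC C M K T ω).U t).filterMap (fun b =>
      if h : ∃ x : Pos d, supn x ≤ R ∧ (envC C M K T ω).pr x = b.1 then some (h.choose, b.2)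
        else none) = (envB C R K T ω).U t := fun t => by
    simp only [envC, envB]
    by_cases ht : t < T
    · rw [if_pos ht, if_pos ht, List.filterMap_map]
      rw [ringList_filter (C.ring ω) (torLab d M K) (boxLab d R K) t (t + 1) (C.ring_fin ω)
        (fun l => supn l.1 ≤ R)]
      · rw [← List.filterMap_eq_filter]
        refine List.filterMap_congr fun l hl => ?_
        have hl' := (mem_torLab M K l).mp (mem_ringList _ _ _ _ (C.ring_fin ω) l hl)
        simp only [Function.comp_apply]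
        by_cases hx : supn l.1 ≤ R
        · have hex : ∃ x : Pos d, supn x ≤ R ∧ (tv x : Tor d M) = tv l.1 := ⟨l.1, hx, rfl⟩
          rw [dif_pos hex]
          have h1 : hex.choose = l.1 := tv_inj M _ _ (hbox _ hex.choose_spec.1) hl'.1
            hex.choose_spec.2
          simp [Option.guard, hx, h1]
        · have hex : ¬ ∃ x : Pos d, supn x ≤ R ∧ (tv x : Tor d M) = tv l.1 := by
            rintro ⟨x, hx1, hx2⟩
            have h1 := tv_inj M _ _ (hbox _ hx1) hl'.1 hx2
            exact hx (h1 ▸ hx1)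
          rw [dif_neg hex]
          simp [Option.guard, hx]
      · intro l
        rw [mem_torLab, mem_boxLab]
        constructor
        · rintro ⟨h1, h2⟩
          exact ⟨⟨hbox _ h1, h2⟩, h1⟩
        · rintro ⟨⟨h1, h2⟩, h3⟩
          exact ⟨h3, h2⟩
    · rw [if_neg ht, if_neg ht]
      rfl
  unfold kill
  rw [h0, funext h]
  rfl

end ZI.Rows
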