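import Pool.Agent.ZI.P1
import Pool.Agent.ZI.InfLem

/-! # Row P1b: the real killed systems, monotonicity and the environment `envB` -/

set_option autoImplicit false

open scoped ENNReal BigOperators Classical Pointwise
open MeasureTheory

noncomputable section

namespace ZI.P1b

open ZI

variable {d : ℕ} {m : Model}

/-! ### lists of rings -/

theorem ringList_self (ring : Lab (Pos d) d → Set ℝ) (F : Finset (Lab (Pos d) d)) (a : ℝ) :
    ringList ring F a a = [] := by
  have h : ringSet ring F a a = ∅ := by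
    ext p
    simp only [ringSet, Set.mem_ofPred_eq, Set.mem_empty_iff_false, iff_false]
    rintro ⟨l, -, s, -, h1, h2, -⟩
    linarith
  unfold ringList
  split_ifs with hf
  · have h2 : hf.toFinset = ∅ := by
      rw [Set.Finite.toFinset_eq_empty]
      exact h
    rw [h2]
    simp
  · rfl

theorem ringList_append (ring : Lab (Pos d) d → Set ℝ) (F : Finset (Lab (Pos d) d)) {a b c : ℝ}
    (hab : a ≤ b) (hbc : b ≤ c) (hfin : ∀ l (a b : ℝ), (ring l ∩ Set.Ioc a b).Finite) :
    ringList ring F a c = ringList ring F a b ++ ringList ring F b c := by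
  have h1 := P1.ringSet_finite ring F a b hfin
  have h2 := P1.ringSet_finite ring F b c hfin
  have h3 := P1.ringSet_finite ring F a c hfin
  unfold ringList
  rw [dif_pos h1, dif_pos h2, dif_pos h3, ← List.filterMap_append]
  congr 1
  have hlt : ∀ p ∈ h1.toFinset.sort (· ≤ ·), ∀ q ∈ h2.toFinset.sort (· ≤ ·), p < q := by
    intro p hp q hq
    rw [Finset.mem_sort, Set.Finite.mem_toFinset] at hp hq
    obtain ⟨l, -, s, -, -, hs, rfl⟩ := hp
    obtain ⟨l', -, s', -, hs', -, rfl⟩ := hq
    exact Prod.Lex.toLex_lt_toLex.mpr (Or.inl (lt_of_le_of_lt hs hs'))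
  refine List.Perm.eq_of_pairwise' (r := (· ≤ ·)) (Finset.pairwise_sort _ _) ?_ ?_
  · rw [List.pairwise_append]
    exact ⟨Finset.pairwise_sort _ _, Finset.pairwise_sort _ _,
      fun p hp q hq => (hlt p hp q hq).le⟩
  · rw [List.perm_ext_iff_of_nodup (Finset.sort_nodup _ _) ?_]
    · intro p
      rw [List.mem_append, Finset.mem_sort, Finset.mem_sort, Finset.mem_sort,
        Set.Finite.mem_toFinset, Set.Finite.mem_toFinset, Set.Finite.mem_toFinset]
      constructor
      · rintro ⟨l, hl, s, hs, h4, h5, rfl⟩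
        rcases le_or_gt s b with h6 | h6
        · exact Or.inl ⟨l, hl, s, hs, h4, h6, rfl⟩
        · exact Or.inr ⟨l, hl, s, hs, h6, h5, rfl⟩
      · rintro (⟨l, hl, s, hs, h4, h5, rfl⟩ | ⟨l, hl, s, hs, h4, h5, rfl⟩)
        · exact ⟨l, hl, s, hs, h4, h5.trans hbc, rfl⟩
        · exact ⟨l, hl, s, hs, lt_of_le_of_lt hab h4, h5, rfl⟩
    · rw [List.nodup_append]
      exact ⟨Finset.sort_nodup _ _, Finset.sort_nodup _ _,
        fun p hp q hq => (hlt p hp q hq).ne⟩

theorem filterMap_take {α β : Type} (f : α → Option β) (P : List α) :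
    (∀ p ∈ P, ∃ b, f p = some b) → (P.filterMap f).length = P.length ∧
      ∀ i, (P.filterMap f).take i = (P.take i).filterMap f := by
  induction P with
  | nil => intro _; exact ⟨rfl, fun i => by simp⟩
  | cons p P ih =>
    intro h
    obtain ⟨b, hb⟩ := h p (by simp)
    obtain ⟨h1, h2⟩ := ih fun q hq => h q (by simp [hq])
    rw [List.filterMap_cons_some hb]
    refine ⟨by simp [h1], fun i => ?_⟩
    cases i with
    | zero => simp
    | succ i =>
      rw [List.take_succ_cons, List.take_succ_cons, List.filterMap_cons_some hb, h2]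

theorem ringList_take (ring : Lab (Pos d) d → Set ℝ) (F : Finset (Lab (Pos d) d)) {a c : ℝ}
    (ha : 0 ≤ a) (hac : a ≤ c) (hfin : ∀ l (a b : ℝ), (ring l ∩ Set.Ioc a b).Finite)
    (nt : ∀ l l' : Lab (Pos d) d, l ≠ l' → ∀ s : ℝ, 0 < s → s ∈ ring l → s ∉ ring l')
    (i : ℕ) (hi : i ≤ (ringList ring F a c).length) :
    ∃ s, a ≤ s ∧ s ≤ c ∧ (ringList ring F a c).take i = ringList ring F a s := by
  cases i with
  | zero => exact ⟨a, le_rfl, hac, by rw [ringList_self, List.take_zero]⟩
  | succ i =>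
    have h := P1.ringSet_finite ring F a c hfin
    have hL : ringList ring F a c = (h.toFinset.sort (· ≤ ·)).filterMap
        (fun p => Encodable.decode (ofLex p).2) := by
      unfold ringList
      rw [dif_pos h]
    rw [hL] at hi ⊢
    have hP : ∀ p ∈ h.toFinset.sort (· ≤ ·), p ∈ ringSet ring F a c := by
      intro p hp
      rwa [Finset.mem_sort, Set.Finite.mem_toFinset] at hp
    have hP' : ∀ p ∈ ringSet ring F a c, p ∈ h.toFinset.sort (· ≤ ·) := by
      intro p hp
      rwa [Finset.mem_sort, Set.Finite.mem_toFinset]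
    have hs1 : (h.toFinset.sort (· ≤ ·)).Pairwise (· ≤ ·) := Finset.pairwise_sort _ _
    have hs2 : (h.toFinset.sort (· ≤ ·)).Nodup := Finset.sort_nodup _ _
    generalize h.toFinset.sort (· ≤ ·) = P at hi hP hP' hs1 hs2 ⊢
    obtain ⟨h1, h2⟩ := filterMap_take
      (fun p : ℝ ×ₗ ℕ => (Encodable.decode (ofLex p).2 : Option (Lab (Pos d) d))) P (by
        intro p hp
        obtain ⟨l, -, s, -, -, -, rfl⟩ := hP p hp
        exact ⟨l, by simp⟩)
    rw [h1] at hi
    rw [h2]
    have hi' : i < P.length := hi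
    obtain ⟨l0, hl0, s0, hs0, hs01, hs02, hp0⟩ := hP P[i] (List.getElem_mem hi')
    refine ⟨s0, hs01.le, hs02, ?_⟩
    have h' := P1.ringSet_finite ring F a s0 hfin
    unfold ringList
    rw [dif_pos h']
    congr 1
    refine List.Perm.eq_of_pairwise' (r := (· ≤ ·)) (hs1.sublist (List.take_sublist _ _))
      (Finset.pairwise_sort _ _) ?_
    rw [List.perm_ext_iff_of_nodup (hs2.sublist (List.take_sublist _ _)) (Finset.sort_nodup _ _)]
    intro p
    rw [Finset.mem_sort, Set.Finite.mem_toFinset, List.mem_take_iff_getElem]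
    constructor
    · rintro ⟨j, hj, rfl⟩
      have hj' : j < P.length := by omega
      obtain ⟨l, hl, s, hs, h3, h4, hp⟩ := hP P[j] (List.getElem_mem hj')
      rw [hp]
      refine ⟨l, hl, s, hs, h3, ?_, rfl⟩
      rcases eq_or_lt_of_le (show j ≤ i by omega) with h5 | h5
      · subst h5
        rw [hp] at hp0
        have := congrArg (fun x : ℝ ×ₗ ℕ => (ofLex x).1) hp0
        simp only [ofLex_toLex] at this
        exact this.le
      · have h6 := (List.pairwise_iff_getElem.mp hs1) j i hj' hi' h5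
        rw [hp, hp0, Prod.Lex.toLex_le_toLex] at h6
        rcases h6 with h6 | h6
        · exact h6.le
        · exact h6.1.le
    · rintro ⟨l, hl, s, hs, h3, h4, rfl⟩
      obtain ⟨j, hj, hpj⟩ := List.getElem_of_mem (hP' _ ⟨l, hl, s, hs, h3, h4.trans hs02, rfl⟩)
      refine ⟨j, ?_, hpj⟩
      by_contra hc
      have hij : i < j := by omega
      have h6 := (List.pairwise_iff_getElem.mp hs1) i j hi' hj hij
      rw [hpj, hp0, Prod.Lex.toLex_le_toLex] at h6
      have h7 : s0 = s := by
        rcases h6 with h6 | h6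
        · exact absurd h6 (not_lt.mpr h4)
        · exact h6.1
      have h8 : l0 ≠ l := by
        rintro rfl
        have h9 := (List.pairwise_iff_getElem.mp hs2) i j hi' hj hij
        apply h9
        rw [hpj, hp0, h7]
      subst h7
      exact nt l0 l h8 s0 (lt_of_le_of_lt ha hs01) hs0 hs

/-! ### the systems in boxes -/

theorem supN_eq (v : Pos d) : supN v = supn v := rfl

theorem nbB_some {R R' : ℕ} (hR : R ≤ R') {x z : Pos d} {e : Dir d} (h : nbB R x e = some z) :
    nbB R' x e = some z := by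
  unfold nbB at h ⊢
  split_ifs at h with h1
  rw [if_pos (h1.trans hR)]
  exact h

theorem mv_gen {V : Type} {nb : V → Dir d → Option V} {η : V → ℕ} {l : Lab V d}
    (h : l.2.1 < η l.1) (z : V) :
    mv nb η l z = (if z = l.1 then η l.1 - 1 else η z) +
      (if nb l.1 l.2.2 = some z then 1 else 0) := by
  unfold mv
  rw [if_pos h]
  cases h1 : nb l.1 l.2.2 with
  | none =>
    show Function.update η l.1 (η l.1 - 1) z = _
    rw [Function.update_apply, if_neg (c := none = some z) (by simp), add_zero]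
  | some y =>
    show Function.update (Function.update η l.1 (η l.1 - 1)) y
      (Function.update η l.1 (η l.1 - 1) y + 1) z = _
    by_cases h2 : z = y
    · rw [h2, Function.update_self, if_pos rfl, Function.update_apply]
    · rw [Function.update_of_ne h2, Function.update_apply,
        if_neg (c := some y = some z) (fun h3 => h2 (Option.some.inj h3).symm), add_zero]

theorem nbB_iff {R : ℕ} {x z : Pos d} {e : Dir d} :
    nbB R x e = some z ↔ z = x + dv e ∧ supN z ≤ R := by
  unfold nbB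
  constructor
  · intro h
    split_ifs at h with h1
    have h2 := Option.some.inj h
    exact ⟨h2.symm, h2 ▸ h1⟩
  · rintro ⟨h1, h2⟩
    subst h1
    rw [if_pos h2]

theorem mv_apply {R : ℕ} {η : Pos d → ℕ} {l : Lab (Pos d) d} (h : l.2.1 < η l.1) (z : Pos d) :
    mv (nbB R) η l z = (if z = l.1 then η l.1 - 1 else η z) +
      (if z = l.1 + dv l.2.2 ∧ supN z ≤ R then 1 else 0) := by
  rw [mv_gen h]
  have e := nbB_iff (R := R) (x := l.1) (z := z) (e := l.2.2)
  by_cases h1 : z = l.1 <;> by_cases h2 : nbB R l.1 l.2.2 = some z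
  · simp only [if_pos h1, if_pos h2, if_pos (e.mp h2)]
  · simp only [if_pos h1, if_neg h2, if_neg (fun h3 => h2 (e.mpr h3))]
  · simp only [if_neg h1, if_pos h2, if_pos (e.mp h2)]
  · simp only [if_neg h1, if_neg h2, if_neg (fun h3 => h2 (e.mpr h3))]

theorem mv_noeff {V : Type} {nb : V → Dir d → Option V} {η : V → ℕ} {l : Lab V d}
    (h : η l.1 ≤ l.2.1) : mv nb η l = η := by
  unfold mv
  rw [if_neg (not_lt.mpr h)]

theorem step_noeff {V : Type} {nb : V → Dir d → Option V} {pr : Pos d → V}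
    {s : (V → ℕ) × Set (Pos d)} {l : Lab V d} (h : s.1 l.1 ≤ l.2.1) :
    stepR nb pr Set.univ s l = s := by
  unfold stepR infMv
  rw [mv_noeff h, if_neg (not_lt.mpr h), Set.inter_univ]

theorem mem_box (R : ℕ) (x : Pos d) : x ∈ box d R ↔ supn x ≤ R := by
  simp only [box, Fintype.mem_piFinset, Finset.mem_Icc, P1.supn_le]

/-- finite systems: support in the box, at most `K` particles -/
structure Fin' (R K : ℕ) (η : Pos d → ℕ) : Prop where
  supp : ∀ x, 0 < η x → supn x ≤ R
  sum : ∑ x ∈ box d R, η x ≤ K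

theorem Fin'.low {R K : ℕ} {η : Pos d → ℕ} (h : Fin' R K η) {l : Lab (Pos d) d}
    (hl : l ∉ boxLab d R K) : η l.1 ≤ l.2.1 := by
  rw [P1.mem_boxLab, not_and_or] at hl
  rcases hl with hl | hl
  · have : ¬ 0 < η l.1 := fun h1 => hl (h.supp _ h1)
    omega
  · by_cases h1 : 0 < η l.1
    · have h2 := (Finset.single_le_sum (f := η) (fun x _ => Nat.zero_le _)
        ((mem_box R l.1).mpr (h.supp _ h1))).trans h.sum
      omega
    · omega

theorem sum_dec {V : Type} {B : Finset V} {x : V} (hx : x ∈ B) (η : V → ℕ) (h : 0 < η x) :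
    (∑ z ∈ B, Function.update η x (η x - 1) z) + 1 = ∑ z ∈ B, η z := by
  rw [Finset.sum_update_of_mem hx, Finset.sum_eq_add_sum_sdiff_singleton_of_mem hx η]
  omega

theorem sum_inc {V : Type} {B : Finset V} {x : V} (hx : x ∈ B) (η : V → ℕ) :
    (∑ z ∈ B, Function.update η x (η x + 1) z) = (∑ z ∈ B, η z) + 1 := by
  rw [Finset.sum_update_of_mem hx, Finset.sum_eq_add_sum_sdiff_singleton_of_mem hx η]
  omega

theorem sum_mv {V : Type} {B : Finset V} {nb : V → Dir d → Option V} {η : V → ℕ} {l : Lab V d}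
    (h : l.2.1 < η l.1) (hx : l.1 ∈ B) : ∑ z ∈ B, mv nb η l z ≤ ∑ z ∈ B, η z := by
  have h1 := sum_dec hx η (by omega)
  unfold mv
  rw [if_pos h]
  cases h2 : nb l.1 l.2.2 with
  | none =>
    show ∑ z ∈ B, Function.update η l.1 (η l.1 - 1) z ≤ _
    omega
  | some y =>
    show ∑ z ∈ B, Function.update (Function.update η l.1 (η l.1 - 1)) y
      (Function.update η l.1 (η l.1 - 1) y + 1) z ≤ _
    by_cases h3 : y ∈ B
    · rw [sum_inc h3]
      omega
    · rw [Finset.sum_update_of_notMem h3]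
      omega

theorem Fin'.step {R K : ℕ} {η : Pos d → ℕ} (h : Fin' R K η) (l : Lab (Pos d) d) :
    Fin' R K (mv (nbB R) η l) := by
  by_cases hl : l.2.1 < η l.1
  · have h0 : 0 < η l.1 := by omega
    have hx := h.supp _ h0
    refine ⟨fun z hz => ?_, ?_⟩
    · rw [mv_apply hl] at hz
      by_cases h1 : z = l.1 + dv l.2.2 ∧ supN z ≤ R
      · exact h1.2
      · rw [if_neg h1] at hz
        split_ifs at hz with h2
        · rw [h2]; exact hx
        · exact h.supp z (by omega)
    · exact (sum_mv hl ((mem_box R l.1).mpr hx)).trans h.sum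
  · rw [mv_noeff (not_lt.mp hl)]
    exact h

theorem foldl_filter {R K : ℕ} (p : Lab (Pos d) d → Prop) (hp : ∀ l, ¬ p l → l ∉ boxLab d R K)
    (L : List (Lab (Pos d) d)) :
    ∀ s : (Pos d → ℕ) × Set (Pos d), Fin' R K s.1 →
      (L.filter (fun l => decide (p l))).foldl (stepR (nbB R) id Set.univ) s =
        L.foldl (stepR (nbB R) id Set.univ) s := by
  induction L with
  | nil => intro s _; rfl
  | cons l L ih =>
    intro s hs
    by_cases hl : p l
    · rw [List.filter_cons_of_pos (by simpa using hl), List.foldl_cons, List.foldl_cons]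
      exact ih _ (hs.step l)
    · rw [List.filter_cons_of_neg (by simpa using hl), List.foldl_cons,
        step_noeff (hs.low (hp l hl))]
      exact ih _ hs

/-- comparison of two systems -/
structure Inv (R K : ℕ) (s s' : (Pos d → ℕ) × Set (Pos d)) : Prop where
  fin : Fin' R K s.1
  le : ∀ x, s.1 x ≤ s'.1 x
  sub : s.2 ⊆ s'.2
  occ : ∀ x ∈ s.2, 0 < s.1 x

theorem Inv.step {R R' K : ℕ} (hR : R ≤ R') {s s' : (Pos d → ℕ) × Set (Pos d)} (h : Inv R K s s')
    (l : Lab (Pos d) d) :
    Inv R K (stepR (nbB R) id Set.univ s l) (stepR (nbB R') id Set.univ s' l) := by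
  by_cases hl : l.2.1 < s.1 l.1
  · have hl' : l.2.1 < s'.1 l.1 := lt_of_lt_of_le hl (h.le _)
    refine ⟨h.fin.step l, fun x => ?_, ?_, fun x hx => ?_⟩
    · show mv (nbB R) s.1 l x ≤ mv (nbB R') s'.1 l x
      rw [mv_apply hl, mv_apply hl']
      have h1 := h.le x
      have h2 := h.le l.1
      have h5 : (if x = l.1 then s.1 l.1 - 1 else s.1 x) ≤
          (if x = l.1 then s'.1 l.1 - 1 else s'.1 x) := by
        split_ifs <;> omega
      refine add_le_add h5 ?_
      by_cases h3 : x = l.1 + dv l.2.2 ∧ supN x ≤ R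
      · have h4 : x = l.1 + dv l.2.2 ∧ supN x ≤ R' := ⟨h3.1, h3.2.trans hR⟩
        rw [if_pos h3, if_pos h4]
      · rw [if_neg h3]
        exact Nat.zero_le _
    · show infMv (nbB R) id s.1 s.2 l ∩ Set.univ ⊆ infMv (nbB R') id s'.1 s'.2 l ∩ Set.univ
      rw [Set.inter_univ, Set.inter_univ]
      unfold infMv
      rw [if_pos hl, if_pos hl']
      rintro z (⟨h1, h2⟩ | ⟨h1, h2, h3⟩)
      · exact Or.inl ⟨h.sub h1, fun h4 => (h2 h4).trans (h.le _)⟩
      · exact Or.inr ⟨h.sub h1, h2, nbB_some hR h3⟩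
    · exact infMv_occ (pr := id) h.occ hx.1
  · have hl1 : s.1 l.1 ≤ l.2.1 := not_lt.mp hl
    rw [step_noeff hl1]
    by_cases hl' : l.2.1 < s'.1 l.1
    · refine ⟨h.fin, fun x => ?_, ?_, h.occ⟩
      · show s.1 x ≤ mv (nbB R') s'.1 l x
        rw [mv_apply hl']
        have h1 := h.le x
        by_cases h2 : x = l.1
        · rw [if_pos h2, h2]
          omega
        · rw [if_neg h2]
          omega
      · show s.2 ⊆ infMv (nbB R') id s'.1 s'.2 l ∩ Set.univ
        rw [Set.inter_univ]
        unfold infMv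
        rw [if_pos hl']
        intro z hz
        refine Or.inl ⟨h.sub hz, fun h4 => ?_⟩
        have h5 := h.occ z hz
        have h6 : z = l.1 := h4
        rw [h6] at h5
        omega
    · rw [step_noeff (not_lt.mp hl')]
      exact h

theorem Inv.foldl {R R' K : ℕ} (hR : R ≤ R') (L : List (Lab (Pos d) d)) :
    ∀ s s' : (Pos d → ℕ) × Set (Pos d), Inv R K s s' →
      Inv R K (L.foldl (stepR (nbB R) id Set.univ) s) (L.foldl (stepR (nbB R') id Set.univ) s') := by
  induction L with
  | nil => intro s s' h; exact h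
  | cons l L ih =>
    intro s s' h
    exact ih _ _ (h.step hR l)

section

variable {Ω : Type} [MeasurableSpace Ω] {P : Measure Ω}

theorem supn_zero : supn (0 : Pos d) = 0 := by
  unfold supn
  rw [← Nat.le_zero, Finset.sup_le_iff]
  intro j _
  simp

theorem ini_fin (C : Clocks m d P) (R : ℕ) (ω : Ω) : Fin' R (tot C R ω) (ini C R ω) := by
  refine ⟨fun x hx => ?_, ?_⟩
  · unfold ini at hx
    by_contra h
    have h' : ¬ supN x ≤ R := h
    rw [if_neg h'] at hx
    exact lt_irrefl _ hx
  · unfold tot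
    refine Finset.sum_le_sum fun x hx => ?_
    unfold ini
    split_ifs <;> omega

theorem tot_mono (C : Clocks m d P) {R R' : ℕ} (hR : R ≤ R') (ω : Ω) : tot C R ω ≤ tot C R' ω := by
  unfold tot
  refine Finset.sum_le_sum_of_subset fun x hx => ?_
  rw [mem_box] at hx ⊢
  exact hx.trans hR

/-- the killed system with a larger set of labels -/
theorem st_eq (C : Clocks m d P) (R R' K : ℕ) (hR : R ≤ R') (ω : Ω) (hK : tot C R ω ≤ K) (t : ℝ) :
    st C R ω t = (ringList (C.ring ω) (boxLab d R' K) 0 t).foldl (stepR (nbB R) id Set.univ)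
      (ini C R ω, {z | z = 0 ∧ 0 < C.η0 ω 0}) := by
  unfold st
  rw [P1.ringList_filter (C.ring ω) (boxLab d R' K) (boxLab d R (tot C R ω)) 0 t (C.ring_fin ω)
    (fun l => l ∈ boxLab d R (tot C R ω))]
  · exact foldl_filter _ (fun l h => h) _ (ini C R ω, {z | z = 0 ∧ 0 < C.η0 ω 0}) (ini_fin C R ω)
  · intro l
    constructor
    · intro h
      refine ⟨?_, h⟩
      rw [P1.mem_boxLab] at h ⊢
      exact ⟨h.1.trans hR, lt_of_lt_of_le h.2 hK⟩
    · exact fun h => h.2

theorem fin_ini_K (C : Clocks m d P) (R K : ℕ) (ω : Ω) (hK : tot C R ω ≤ K) :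
    Fin' R K (ini C R ω) := ⟨(ini_fin C R ω).supp, (ini_fin C R ω).sum.trans hK⟩

/-- the state of the environment `envB` at integer times -/
theorem env_state (C : Clocks m d P) (R K T : ℕ) (ω : Ω) (hK : tot C R ω ≤ K) (j : ℕ) (hj : j ≤ T) :
    (cfg (envB C R K T ω).nb (envB C R K T ω).η0 (envB C R K T ω).U j,
      inf (envB C R K T ω).nb (envB C R K T ω).pr (envB C R K T ω).η0 (envB C R K T ω).U
        (fun _ => Set.univ) 0 {0} j) = st C R ω j := by
  induction j with
  | zero =>
    rw [st_eq C R R K le_rfl ω hK, Nat.cast_zero, ringList_self]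
    refine Prod.ext rfl ?_
    show {z : Pos d | z ∈ ({0} : Set (Pos d)) ∧ z ∈ Set.univ ∧
      0 < (if supn z ≤ R then C.η0 ω z else 0)} = {z | z = 0 ∧ 0 < C.η0 ω 0}
    ext z
    simp only [Set.mem_ofPred_eq, Set.mem_singleton_iff, Set.mem_univ, true_and]
    constructor
    · rintro ⟨h1, h2⟩
      subst h1
      rw [if_pos (by rw [supn_zero]; exact Nat.zero_le _)] at h2
      exact ⟨rfl, h2⟩
    · rintro ⟨h1, h2⟩
      subst h1
      rw [if_pos (by rw [supn_zero]; exact Nat.zero_le _)]
      exact ⟨rfl, h2⟩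
  | succ j ih =>
    have ih' := ih (by omega)
    have hU : (envB C R K T ω).U j = ringList (C.ring ω) (boxLab d R K) j (j + 1) := by
      show (if j < T then ringList (C.ring ω) (boxLab d R K) j (j + 1) else []) = _
      rw [if_pos (by omega)]
    rw [st_eq C R R K le_rfl ω hK, Nat.cast_succ, ringList_append (C.ring ω) (boxLab d R K)
      (b := (j : ℝ)) (Nat.cast_nonneg j) (by linarith) (C.ring_fin ω), List.foldl_append,
      ← st_eq C R R K le_rfl ω hK, ← ih', ← hU]
    refine Prod.ext ?_ ?_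
    · show _ = (((envB C R K T ω).U j).foldl
        (stepR (envB C R K T ω).nb (envB C R K T ω).pr Set.univ) _).1
      rw [foldl_stepR_fst]
      rfl
    · show (((envB C R K T ω).U (0 + j)).foldl
        (stepR (envB C R K T ω).nb (envB C R K T ω).pr Set.univ)
        (cfg _ _ _ (0 + j), inf _ _ _ _ _ 0 {0} j ∩ Set.univ)).2 = _
      rw [zero_add, Set.inter_univ]
      rfl

end

end ZI.P1b

namespace ZI.Rows

open ZI

variable {d : ℕ} {m : Model} {Ω : Type} [MeasurableSpace Ω] {P : Measure Ω}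

set_option linter.unusedVariables false in
theorem st_mono (C : Clocks m d P) (R R' : ℕ) (hR : R ≤ R') (ω : Ω) (hω : NoTies C ω) (t : ℝ) :
    (st C R ω t).1 ≤ (st C R' ω t).1 ∧ (st C R ω t).2 ⊆ (st C R' ω t).2 := by
  rw [P1b.st_eq C R R' (tot C R' ω) hR ω (P1b.tot_mono C hR ω)]
  have h := P1b.Inv.foldl hR (K := tot C R ω)
    (ringList (C.ring ω) (boxLab d R' (tot C R' ω)) 0 t)
    (ini C R ω, {z | z = 0 ∧ 0 < C.η0 ω 0}) (ini C R' ω, {z | z = 0 ∧ 0 < C.η0 ω 0})
    ⟨P1b.ini_fin C R ω, fun x => ?_, subset_rfl, fun x hx => ?_⟩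
  · exact ⟨h.le, h.sub⟩
  · show ini C R ω x ≤ ini C R' ω x
    unfold ini
    by_cases h1 : supN x ≤ R
    · rw [if_pos h1, if_pos (h1.trans hR)]
    · rw [if_neg h1]
      exact Nat.zero_le _
  · obtain ⟨h1, h2⟩ := hx
    subst h1
    show 0 < ini C R ω 0
    unfold ini
    rw [if_pos]
    · exact h2
    · rw [P1b.supN_eq, P1b.supn_zero]
      exact Nat.zero_le _

/-- the real killed system and the environment `envB` -/
theorem st_vis (C : Clocks m d P) (R K T : ℕ) (ω : Ω) (hω : NoTies C ω) (hK : tot C R ω ≤ K) (t : ℕ)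
    (ht : 1 ≤ t) (htT : t ≤ T) (b : Pos d) :
    (∃ s : ℝ, 0 ≤ s ∧ s ≤ t ∧ b ∈ (st C R ω s).2) ↔
      (envB C R K T ω).vis (fun _ => Set.univ) 0 0 t b := by
  have key : ∀ j : ℕ, j < T → ∀ s : ℝ, (j : ℝ) ≤ s →
      st C R ω s = (ringList (C.ring ω) (boxLab d R K) j s).foldl (stepR (nbB R) id Set.univ)
        (st C R ω j) := by
    intro j hj s hs
    rw [P1b.st_eq C R R K le_rfl ω hK s, P1b.ringList_append (C.ring ω) (boxLab d R K)
      (b := (j : ℝ)) (Nat.cast_nonneg j) hs (C.ring_fin ω), List.foldl_append,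
      ← P1b.st_eq C R R K le_rfl ω hK]
  have hU : ∀ j : ℕ, j < T → (envB C R K T ω).U j =
      ringList (C.ring ω) (boxLab d R K) j (j + 1) := by
    intro j hj
    show (if j < T then ringList (C.ring ω) (boxLab d R K) j (j + 1) else []) = _
    rw [if_pos hj]
  have hvis : ∀ j : ℕ, j < T → ∀ b : Pos d,
      (b ∈ visU (envB C R K T ω).nb (envB C R K T ω).pr (envB C R K T ω).η0 (envB C R K T ω).U
        (fun _ => Set.univ) 0 {0} j ↔
      ∃ i ≤ (ringList (C.ring ω) (boxLab d R K) j (j + 1)).length,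
        b ∈ (((ringList (C.ring ω) (boxLab d R K) j (j + 1)).take i).foldl
          (stepR (nbB R) id Set.univ) (st C R ω j)).2) := by
    intro j hj b
    rw [← hU j hj, ← P1b.env_state C R K T ω hK j hj.le]
    unfold visU
    rw [zero_add, Set.inter_univ]
    rfl
  unfold Env.vis
  constructor
  · rintro ⟨s, hs0, hst, hb⟩
    obtain ⟨j, hjt, hj1, hj2⟩ : ∃ j : ℕ, j < t ∧ (j : ℝ) ≤ s ∧ s ≤ j + 1 := by
      rcases eq_or_lt_of_le hst with h1 | h1
      · refine ⟨t - 1, by omega, ?_, ?_⟩
        · rw [h1, Nat.cast_sub ht]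
          simp
        · rw [h1, Nat.cast_sub ht]
          simp
      · refine ⟨⌊s⌋₊, ?_, Nat.floor_le hs0, (Nat.lt_floor_add_one s).le⟩
        exact (Nat.floor_lt hs0).mpr h1
    refine ⟨j, by omega, ?_⟩
    rw [hvis j (by omega)]
    have hsplit := P1b.ringList_append (C.ring ω) (boxLab d R K) hj1 hj2 (C.ring_fin ω)
    refine ⟨(ringList (C.ring ω) (boxLab d R K) j s).length, ?_, ?_⟩
    · rw [hsplit, List.length_append]
      exact Nat.le_add_right _ _
    · rw [hsplit, List.take_left', ← key j (by omega) s hj1]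
      · exact hb
      · rfl
  · rintro ⟨j, hj, hb⟩
    have hjT : j < T := by omega
    rw [hvis j hjT] at hb
    obtain ⟨i, hi, hb⟩ := hb
    obtain ⟨s, hs1, hs2, hs3⟩ := P1b.ringList_take (C.ring ω) (boxLab d R K)
      (Nat.cast_nonneg j) (show (j : ℝ) ≤ j + 1 by linarith) (C.ring_fin ω) hω i hi
    rw [hs3, ← key j hjT s hs1] at hb
    refine ⟨s, (Nat.cast_nonneg j).trans hs1, hs2.trans ?_, hb⟩
    have : j + 1 ≤ t := by omega
    exact_mod_cast this

end ZI.Rows
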