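import Pool.Agent.ZI.PPr
import Pool.Agent.ZI.Proc

/-! # Row EX: the clocks exist -/

set_option autoImplicit false

open MeasureTheory ProbabilityTheory
open scoped NNReal ENNReal BigOperators Classical

noncomputable section

namespace ZI.EX

/-- the points of each cell are distinct -/
def Good (w : W) : Prop := ∀ n, Function.Injective (w n).2

/-- the set of the points of a configuration of cells -/
def ringW (w : W) : Set ℝ :=
  if Good w then {s | ∃ n : ℕ, ∃ i < (w n).1, (w n).2 i = s ∧ s ∈ Set.Ioc (n : ℝ) (n + 1)} else ∅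

/-- the points in `(a, b]` -/
def ringF (w : W) (a b : ℝ) : Finset ℝ :=
  (Finset.range ⌈b⌉₊).biUnion (fun n => ((Finset.range (w n).1).filter
    (fun i => (w n).2 i ∈ Set.Ioc a b ∧ (w n).2 i ∈ Set.Ioc (n : ℝ) (n + 1))).image (w n).2)

lemma ringW_eq (w : W) (hw : Good w) (a b : ℝ) : ringW w ∩ Set.Ioc a b = ↑(ringF w a b) := by
  ext s
  unfold ringW ringF
  rw [if_pos hw]
  simp only [Set.mem_inter_iff, Set.mem_ofPred_eq, Finset.coe_biUnion, Set.mem_iUnion, Finset.mem_coe,
    Finset.mem_range, Finset.mem_image, Finset.mem_filter, exists_prop]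
  constructor
  · rintro ⟨⟨n, i, hi, rfl, hs⟩, hab⟩
    exact ⟨n, Nat.lt_ceil.mpr (lt_of_lt_of_le hs.1 hab.2), i, ⟨hi, hab, hs⟩, rfl⟩
  · rintro ⟨n, _, i, ⟨hi, hab, hs⟩, rfl⟩
    exact ⟨⟨n, i, hi, rfl, hs⟩, hab⟩

lemma ringF_card (w : W) (hw : Good w) (a b : ℝ) :
    (ringF w a b).card = cS (Set.Ioc a b) ⌈b⌉₊ w := by
  unfold ringF
  rw [Finset.card_biUnion]
  · unfold cS cN
    refine Finset.sum_congr rfl fun n _ => ?_
    rw [Finset.card_image_of_injective _ (hw n)]
    refine congrArg Finset.card ?_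
    ext i
    simp only [Finset.mem_filter]
  · intro n _ n' _ hn
    rw [Function.onFun, Finset.disjoint_left]
    intro s hs hs'
    simp only [Finset.mem_image, Finset.mem_filter] at hs hs'
    obtain ⟨i, ⟨_, _, h1⟩, rfl⟩ := hs
    obtain ⟨j, ⟨_, _, h2⟩, h3⟩ := hs'
    rw [h3] at h2
    apply hn
    have h4 : (n : ℝ) < n' + 1 := lt_of_lt_of_le h1.1 h2.2
    have h5 : (n' : ℝ) < n + 1 := lt_of_lt_of_le h2.1 h1.2
    have h6 : n < n' + 1 := by exact_mod_cast h4
    have h7 : n' < n + 1 := by exact_mod_cast h5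
    omega

lemma ncard_eq (w : W) (a b : ℝ) :
    (ringW w ∩ Set.Ioc a b).ncard = if Good w then cS (Set.Ioc a b) ⌈b⌉₊ w else 0 := by
  split_ifs with hw
  · rw [ringW_eq w hw, Set.ncard_coe_finset, ringF_card w hw]
  · unfold ringW
    rw [if_neg hw]
    simp

lemma ringW_fin (w : W) (a b : ℝ) : (ringW w ∩ Set.Ioc a b).Finite := by
  by_cases hw : Good w
  · rw [ringW_eq w hw]
    exact Finset.finite_toSet _
  · unfold ringW
    rw [if_neg hw]
    simp

lemma meas_Good : MeasurableSet {w : W | Good w} := by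
  have h : {w : W | Good w} = ⋂ n : ℕ, ⋂ i : ℕ, ⋂ j : ℕ, {w : W | (w n).2 i = (w n).2 j → i = j} := by
    ext w
    simp only [Set.mem_ofPred_eq, Set.mem_iInter]
    exact ⟨fun h n i j hij => h n hij, fun h n i j hij => h n i j hij⟩
  rw [h]
  refine MeasurableSet.iInter fun n => MeasurableSet.iInter fun i => MeasurableSet.iInter fun j => ?_
  have hc : ∀ k : ℕ, Measurable (fun w : W => (w n).2 k) := fun k =>
    (measurable_pi_apply k).comp (measurable_snd.comp (measurable_pi_apply n))
  by_cases hij : i = j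
  · have : {w : W | (w n).2 i = (w n).2 j → i = j} = Set.univ := by
      ext w; simp [hij]
    rw [this]
    exact MeasurableSet.univ
  · have : {w : W | (w n).2 i = (w n).2 j → i = j} = {w : W | (w n).2 i = (w n).2 j}ᶜ := by
      ext w; simp [hij]
    rw [this]
    exact (measurableSet_eq_fun (hc i) (hc j)).compl

lemma meas_ncard (a b : ℝ) : Measurable (fun w : W => (ringW w ∩ Set.Ioc a b).ncard) := by
  simp only [ncard_eq]
  exact Measurable.ite meas_Good (meas_cS _ measurableSet_Ioc) measurable_const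

instance (n : ℕ) : NullSingletonClass (ul n) := by unfold ul; infer_instance

lemma diag (n : ℕ) : ((ul n).prod (ul n)) {p : ℝ × ℝ | p.1 = p.2} = 0 := by
  rw [Measure.measure_prod_null (measurableSet_eq_fun measurable_fst measurable_snd)]
  refine Filter.Eventually.of_forall fun x => ?_
  have : Prod.mk x ⁻¹' {p : ℝ × ℝ | p.1 = p.2} = {x} := by
    ext y; simp [eq_comm]
  show ul n (Prod.mk x ⁻¹' {p : ℝ × ℝ | p.1 = p.2}) = 0
  rw [this]
  exact measure_singleton x

lemma good_ae (r : ℝ≥0) : ∀ᵐ w ∂(Q r), Good w := by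
  unfold Good
  rw [ae_all_iff]
  intro n
  have h1 : ∀ i j : ℕ, i ≠ j → ∀ᵐ w ∂(Q r), (w n).2 i ≠ (w n).2 j := by
    intro i j hij
    have hmW : Measurable (fun w : W => w n) := measurable_pi_apply n
    have h2 : (Q r).map (fun w : W => w n) = cellLaw r n :=
      Measure.infinitePi_map_eval (fun n : ℕ => cellLaw r n) n
    have h3 : (cellLaw r n).map Prod.snd = Measure.infinitePi (fun _ : ℕ => ul n) := by
      unfold cellLaw
      rw [Measure.map_snd_prod, measure_univ, one_smul]
    have h4 : (Measure.infinitePi (fun _ : ℕ => ul n)).map (fun ω : ℕ → ℝ => (ω i, ω j)) =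
        (ul n).prod (ul n) := Measure.infinitePi_map_eval_prod (P := fun _ : ℕ => ul n) hij
    have hm4 : Measurable (fun ω : ℕ → ℝ => (ω i, ω j)) :=
      (measurable_pi_apply i).prodMk (measurable_pi_apply j)
    have h5 : (Q r).map (fun w : W => ((w n).2 i, (w n).2 j)) = (ul n).prod (ul n) := by
      rw [← h4, ← h3, ← h2, Measure.map_map measurable_snd hmW,
        Measure.map_map hm4 (measurable_snd.comp hmW)]
      rfl
    have h6 := diag n
    have hm5 : Measurable (fun w : W => ((w n).2 i, (w n).2 j)) := hm4.comp (measurable_snd.comp hmW)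
    rw [← h5, Measure.map_apply hm5 (measurableSet_eq_fun measurable_fst measurable_snd)] at h6
    exact measure_eq_zero_iff_ae_notMem.mp h6
  have h7 : ∀ᵐ w ∂(Q r), ∀ i j : ℕ, i ≠ j → (w n).2 i ≠ (w n).2 j := by
    rw [ae_all_iff]
    intro i
    rw [ae_all_iff]
    intro j
    by_cases hij : i = j
    · exact Filter.Eventually.of_forall fun w h => absurd hij h
    · filter_upwards [h1 i j hij] with w hw _ using hw
  filter_upwards [h7] with w hw i j hij
  by_contra h
  exact hw i j h hij

/-! ### the law of the initial configuration -/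

variable (m : Model)

lemma g_lb (k : ℕ) : m.Gm * k ≤ m.g k := by
  induction k with
  | zero => simp [m.g0]
  | succ k ih =>
    have := m.inc_lb k
    push_cast
    linarith

lemma g_pos (k : ℕ) : 0 < m.g (k + 1) := by
  have h := g_lb m (k + 1)
  have h1 : 0 < m.Gm * ((k + 1 : ℕ) : ℝ) := mul_pos m.Gm_pos (by positivity)
  linarith

lemma wt0_pos (k : ℕ) : 0 < m.wt0 k := by
  unfold Model.wt0
  exact div_pos (pow_pos m.φ_pos k) (Finset.prod_pos fun i _ => g_pos m i)

lemma wt0_le (k : ℕ) : m.wt0 k ≤ (m.φ / m.Gm) ^ k / k.factorial := by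
  unfold Model.wt0
  have h : (m.Gm ^ k * k.factorial : ℝ) ≤ ∏ i ∈ Finset.range k, m.g (i + 1) := by
    induction k with
    | zero => simp
    | succ k ih =>
      rw [Finset.prod_range_succ, Nat.factorial_succ, pow_succ]
      have h1 := g_lb m (k + 1)
      have h2 : (0 : ℝ) ≤ m.Gm ^ k * k.factorial := mul_nonneg (pow_nonneg m.Gm_pos.le k) (by positivity)
      have h3 : (0 : ℝ) ≤ m.Gm * ((k + 1 : ℕ) : ℝ) := mul_nonneg m.Gm_pos.le (by positivity)
      calc m.Gm ^ k * m.Gm * (((k + 1) * k.factorial : ℕ) : ℝ)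
          = (m.Gm ^ k * k.factorial) * (m.Gm * ((k + 1 : ℕ) : ℝ)) := by push_cast; ring
        _ ≤ _ := mul_le_mul ih h1 h3 (h2.trans ih)
  have h0 : (0 : ℝ) < m.Gm ^ k * k.factorial := mul_pos (pow_pos m.Gm_pos k) (by positivity)
  calc m.φ ^ k / ∏ i ∈ Finset.range k, m.g (i + 1) ≤ m.φ ^ k / (m.Gm ^ k * k.factorial) :=
        div_le_div_of_nonneg_left (pow_nonneg m.φ_pos.le k) h0 h
    _ = (m.φ / m.Gm) ^ k / k.factorial := by rw [div_pow, div_div]

lemma wt0_summable : Summable m.wt0 :=
  Summable.of_nonneg_of_le (fun k => (wt0_pos m k).le) (wt0_le m) (Real.summable_pow_div_factorial _)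

lemma wt0_sum_pos : 0 < ∑' k, m.wt0 k :=
  (wt0_summable m).tsum_pos (fun k => (wt0_pos m k).le) 0 (wt0_pos m 0)

lemma mu_tsum : ∑' k, m.mu k = 1 := by
  unfold Model.mu
  rw [← ENNReal.ofReal_tsum_of_nonneg (fun k => div_nonneg (wt0_pos m k).le (wt0_sum_pos m).le)
    ((wt0_summable m).div_const _), tsum_div_const, div_self (wt0_sum_pos m).ne', ENNReal.ofReal_one]

/-- the single site law -/
def muP : PMF ℕ := ⟨m.mu, by
  have := ENNReal.summable (f := m.mu).hasSum
  rwa [mu_tsum m] at this⟩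

/-- a configuration with `k` points in the cell `0` -/
def cst (k : ℕ) : W := fun _ => (k, fun _ => 0)

/-- law of a block -/
def B (d : ℕ) : Pos d ⊕ Lab (Pos d) d → Measure W
  | .inl _ => (muP m).toMeasure.map cst
  | .inr l => Q (m.lam d l.2.1).toNNReal

instance (d : ℕ) (i : Pos d ⊕ Lab (Pos d) d) : IsProbabilityMeasure (B m d i) := by
  cases i with
  | inl x =>
    show IsProbabilityMeasure ((muP m).toMeasure.map cst)
    exact Measure.isProbabilityMeasure_map (Measurable.of_discrete).aemeasurable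
  | inr l =>
    show IsProbabilityMeasure (Q (m.lam d l.2.1).toNNReal)
    infer_instance

/-- the probability space -/
abbrev Om (d : ℕ) := Pos d ⊕ Lab (Pos d) d → W

/-- the probability -/
def PP (d : ℕ) : Measure (Om d) := Measure.infinitePi (B m d)

instance (d : ℕ) : IsProbabilityMeasure (PP m d) := by unfold PP; infer_instance

lemma lam_nonneg (d k : ℕ) : 0 ≤ m.lam d k := by
  unfold Model.lam
  have := m.inc_lb k
  have := m.Gm_pos
  exact div_nonneg (by linarith) (by positivity)

lemma eval_law (d : ℕ) (i : Pos d ⊕ Lab (Pos d) d) {S : Set W} (hS : MeasurableSet S) :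
    PP m d {ω | ω i ∈ S} = B m d i S := by
  have h : (PP m d).map (fun ω : Om d => ω i) = B m d i := Measure.infinitePi_map_eval (B m d) i
  rw [← h, Measure.map_apply (measurable_pi_apply i) hS]
  rfl

/-- index sets of the blocks -/
abbrev kap (d : ℕ) : Pos d ⊕ Lab (Pos d) d → Type
  | .inl _ => Unit
  | .inr _ => ℕ

/-- the functions of the blocks -/
def fB (d : ℕ) (t : ℕ → ℝ) : (i : Pos d ⊕ Lab (Pos d) d) → kap d i → W → ℕ
  | .inl _ => fun _ w => (w 0).1
  | .inr _ => fun j w => (ringW w ∩ Set.Ioc (t j) (t (j + 1))).ncard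

lemma fB_meas (d : ℕ) (t : ℕ → ℝ) (i : Pos d ⊕ Lab (Pos d) d) (j : kap d i) :
    Measurable (fB d t i j) := by
  cases i with
  | inl x => exact measurable_fst.comp (measurable_pi_apply 0)
  | inr l => exact meas_ncard _ _

lemma fB_indep (d : ℕ) (t : ℕ → ℝ) (ht : Monotone t) (ht0 : 0 ≤ t 0) (i : Pos d ⊕ Lab (Pos d) d) :
    iIndepFun (fB d t i) (B m d i) := by
  cases i with
  | inl x =>
    have : Subsingleton (kap d (Sum.inl x : Pos d ⊕ Lab (Pos d) d)) := inferInstanceAs (Subsingleton Unit)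
    exact iIndepFun.of_subsingleton
  | inr l =>
    have h0 : ∀ j, 0 ≤ t j := fun j => ht0.trans (ht (Nat.zero_le j))
    have h := indep_cS (m.lam d l.2.1).toNNReal (fun j : ℕ => Set.Ioc (t j) (t (j + 1)))
      (fun j => ⌈t (j + 1)⌉₊) (fun _ => measurableSet_Ioc)
      (by
        intro j k hjk
        rw [Set.disjoint_left]
        rintro x ⟨h1, h2⟩ ⟨h3, h4⟩
        rcases lt_or_gt_of_ne hjk with h | h
        · exact absurd (h2.trans (ht h)) (not_le.mpr h3)
        · exact absurd (h4.trans (ht h)) (not_le.mpr h1))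
      (by
        rintro j x ⟨h1, h2⟩
        exact ⟨lt_of_le_of_lt (h0 j) h1, h2.trans (Nat.le_ceil _)⟩)
    refine iIndepFun.congr (fun j => ?_) h
    filter_upwards [good_ae (m.lam d l.2.1).toNNReal] with w hw
    show cS _ _ w = (ringW w ∩ Set.Ioc (t j) (t (j + 1))).ncard
    rw [ncard_eq, if_pos hw]

lemma indep_blocks (d : ℕ) (t : ℕ → ℝ) (ht : Monotone t) (ht0 : 0 ≤ t 0) :
    iIndepFun (fun (p : (i : Pos d ⊕ Lab (Pos d) d) × kap d i) (ω : Om d) => fB d t p.1 p.2 (ω p.1))
      (PP m d) := by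
  refine iIndepFun_uncurry (P := PP m d) (X := fun i j (ω : Om d) => fB d t i j (ω i))
    (fun i j => (fB_meas d t i j).comp (measurable_pi_apply i)) ?_ ?_
  · exact iIndepFun_infinitePi (P := B m d) (X := fun i w j => fB d t i j w)
      (fun i => measurable_pi_lambda _ fun j => fB_meas d t i j)
  · intro i
    have h := fB_indep m d t ht ht0 i
    rw [iIndepFun_iff_map_fun_eq_infinitePi_map (fun j => fB_meas d t i j)] at h
    rw [iIndepFun_iff_map_fun_eq_infinitePi_map (X := fun j (ω : Om d) => fB d t i j (ω i))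
      (fun j => (fB_meas d t i j).comp (measurable_pi_apply i))]
    have h1 : (PP m d).map (fun ω : Om d => ω i) = B m d i := Measure.infinitePi_map_eval (B m d) i
    have h2 : ∀ j, (PP m d).map (fun ω : Om d => fB d t i j (ω i)) = (B m d i).map (fB d t i j) := by
      intro j
      rw [← h1, Measure.map_map (fB_meas d t i j) (measurable_pi_apply i)]
      rfl
    simp only [h2]
    rw [← h, ← h1, Measure.map_map (measurable_pi_lambda _ fun j => fB_meas d t i j)
      (measurable_pi_apply i)]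
    rfl

end ZI.EX

namespace ZI.Rows

open ZI.EX

theorem exists_clocks (m : Model) (d : ℕ) : ∃ (Ω : Type) (_ : MeasurableSpace Ω) (P : Measure Ω)
    (_ : IsProbabilityMeasure P), Nonempty (Clocks m d P) := by
  refine ⟨Om d, inferInstance, PP m d, inferInstance, ⟨?_⟩⟩
  refine
    { η0 := fun ω x => (ω (Sum.inl x) 0).1
      ring := fun ω l => ringW (ω (Sum.inr l))
      η0_meas := fun x => ?_
      ring_fin := fun ω l a b => ringW_fin _ a b
      ring_meas := fun l a b => (meas_ncard a b).comp (measurable_pi_apply _)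
      η0_law := fun x k => ?_
      ring_law := fun l a b ha hab j => ?_
      indep := fun t ht ht0 => ?_ }
  · exact measurable_fst.comp ((measurable_pi_apply 0).comp (measurable_pi_apply (Sum.inl x)))
  · have hS : MeasurableSet {w : W | (w 0).1 = k} :=
      (measurable_fst.comp (measurable_pi_apply 0)) (measurableSet_singleton k)
    have h := eval_law m d (Sum.inl x) hS
    show PP m d {ω | ω (Sum.inl x) ∈ {w : W | (w 0).1 = k}} = m.mu k
    rw [h]
    show ((muP m).toMeasure.map cst) {w : W | (w 0).1 = k} = m.mu k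
    rw [Measure.map_apply Measurable.of_discrete hS]
    have h2 : cst ⁻¹' {w : W | (w 0).1 = k} = {k} := by
      ext y; simp [cst]
    rw [h2, PMF.toMeasure_apply_singleton _ _ (measurableSet_singleton k)]
    rfl
  · have hS : MeasurableSet {w : W | (ringW w ∩ Set.Ioc a b).ncard = j} :=
      (meas_ncard a b) (measurableSet_singleton j)
    have h := eval_law m d (Sum.inr l) hS
    show PP m d {ω | ω (Sum.inr l) ∈ {w : W | (ringW w ∩ Set.Ioc a b).ncard = j}} = _
    rw [h]
    show Q (m.lam d l.2.1).toNNReal {w : W | (ringW w ∩ Set.Ioc a b).ncard = j} = _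
    have h2 : Q (m.lam d l.2.1).toNNReal {w : W | (ringW w ∩ Set.Ioc a b).ncard = j} =
        Q (m.lam d l.2.1).toNNReal {w : W | cS (Set.Ioc a b) ⌈b⌉₊ w = j} := by
      refine measure_congr ?_
      filter_upwards [good_ae (m.lam d l.2.1).toNNReal] with w hw
      show ((ringW w ∩ Set.Ioc a b).ncard = j) = (cS (Set.Ioc a b) ⌈b⌉₊ w = j)
      rw [ncard_eq, if_pos hw]
    rw [h2, law_cS _ _ measurableSet_Ioc
      (fun x hx => ⟨lt_of_le_of_lt ha hx.1, hx.2.trans (Nat.le_ceil _)⟩), poissonMeasure_singleton]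
    congr 2
    rw [NNReal.coe_mul, Real.coe_toNNReal _ (lam_nonneg m d _), Real.coe_toNNReal _ measureReal_nonneg,
      Measure.real, Real.volume_Ioc, ENNReal.toReal_ofReal (by linarith)]
  · have h := indep_blocks m d t ht ht0
    have hφ : Function.Injective (fun i : Pos d ⊕ (Lab (Pos d) d × ℕ) =>
        (match i with
          | .inl x => ⟨.inl x, ()⟩
          | .inr (l, j) => ⟨.inr l, j⟩ : (i : Pos d ⊕ Lab (Pos d) d) × kap d i)) := by
      rintro (x | ⟨l, j⟩) (y | ⟨l', j'⟩) hxy
      · simp only [Sigma.mk.injEq, Sum.inl.injEq] at hxy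
        rw [hxy.1]
      · simp at hxy
      · simp at hxy
      · simp only [Sigma.mk.injEq, Sum.inr.injEq] at hxy
        obtain ⟨h1, h2⟩ := hxy
        subst h1
        rw [eq_of_heq h2]
    have h3 := h.precomp hφ
    refine iIndepFun.congr (fun i => Filter.Eventually.of_forall fun ω => ?_) h3
    rcases i with x | ⟨l, j⟩
    · rfl
    · rfl

end ZI.Rows
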