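import Pool.Agent.ZI.F1cA
import Pool.Agent.ZI.LK
import Pool.Agent.ZI.CK
import Pool.Agent.ZI.P1
import Pool.Agent.ZI.P1b
import Pool.Agent.ZI.P2a
import Pool.Agent.ZI.P2b
import Pool.Agent.ZI.P3

/-! # Row F1c: the real process and the scales -/

set_option autoImplicit false

open scoped ENNReal BigOperators Classical Pointwise
open MeasureTheory

noncomputable section

namespace ZI.F1c

open ZI ZI.Rows

variable {d : ℕ} {m : Model}

theorem tv_small (m : Model) (D : ℕ) (e : ℝ≥0∞) (he : 0 < e) :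
    ∃ K0 : ℕ, ∀ K ≥ K0, (D : ℝ≥0∞) * tv1 m K ≤ e := by
  obtain ⟨C, hC⟩ := tv1_le m
  obtain ⟨n1, hn1⟩ := g_big m
  have h2 := FloorSemiring.tendsto_pow_div_factorial_atTop (C : ℝ)
  have h3 : Filter.Tendsto (fun n : ℕ => ENNReal.ofReal ((D : ℝ) * C * ((C : ℝ) ^ n / n.factorial)))
      Filter.atTop (nhds 0) := by
    have := ENNReal.tendsto_ofReal (h2.const_mul ((D : ℝ) * C))
    rwa [mul_zero, ENNReal.ofReal_zero] at this
  have h4 := h3.eventually (gt_mem_nhds he)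
  obtain ⟨n2, h5⟩ := Filter.eventually_atTop.1 h4
  refine ⟨max 1 (max n1 n2), fun K hK => ?_⟩
  have a1 : 1 ≤ K := le_trans (le_max_left _ _) hK
  have a2 : n1 ≤ K := le_trans (le_trans (le_max_left _ _) (le_max_right _ _)) hK
  have a3 : n2 ≤ K := le_trans (le_trans (le_max_right _ _) (le_max_right _ _)) hK
  refine le_trans ?_ (h5 K a3).le
  refine le_trans (mul_le_mul_right (hC K a1 (hn1 K a2)) _) ?_
  rw [show (D : ℝ≥0∞) = ENNReal.ofReal (D : ℝ) by rw [ENNReal.ofReal_natCast],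
    ← ENNReal.ofReal_mul (Nat.cast_nonneg D)]
  refine ENNReal.ofReal_le_ofReal (le_of_eq ?_)
  rw [pow_succ]
  ring

section chain

variable {Ω : Type} [MeasurableSpace Ω] {P : Measure Ω} (C : Clocks m d P)

theorem chainA {R Rk M' Mk K K' N T Cv r : ℕ} {ω : Ω} (hR : 2 * R + 2 ≤ M') (hRk : 2 * Rk + 2 ≤ M')
    (hMk : 2 * Rk + 2 ≤ Mk) (hK : K ≤ K') (hTN : T ≤ N) (hN : Cv * T + r ≤ 4 * N)
    (hω : NoTies C ω) (htot : tot C R ω ≤ K')
    (h1 : ∀ t b, (kill R (envC C M' K' N ω)).vis (fun _ => Set.univ) 0 0 t b →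
      (envC C M' K' N ω).vis (fun _ => Set.univ) 0 0 t b)
    (h2 : ¬ Fast Cv r T (envC C M' K' T ω))
    (h3 : Agree N (envC C M' K' N ω) (kill Rk (envC C M' K' N ω)))
    (h4 : EqEnv (kill Rk (envC C Mk K' N ω)) (kill Rk (capE K (envC C Mk K' N ω))))
    (h5 : Agree N (envC C Mk K N ω) (kill Rk (envC C Mk K N ω)))
    {t : ℕ} (ht : 1 ≤ t) (htT : t ≤ T) {b : Pos d}
    (hb : ∃ s : ℝ, 0 ≤ s ∧ s ≤ t ∧ b ∈ (st C R ω s).2) :
    (envC C Mk K T ω).vis (fun _ => Set.univ) 0 0 t b := by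
  have e1 := (st_vis C R K' N ω hω htot t ht (htT.trans hTN) b).1 hb
  rw [← kill_envC C M' R K' N hR ω] at e1
  have e2 := vis_bl C hTN h2 hN htT (h1 t b e1)
  have e3 := (h3.vis (fun _ => bl d N) (fun _ => le_rfl) 0 t 0 b (htT.trans hTN)).1 e2
  rw [kill_envC C M' Rk K' N hRk ω, ← kill_envC C Mk Rk K' N hMk ω] at e3
  have e4 := (EqEnv_vis h4).1 e3
  rw [capE_envC C Mk K' K N hK ω] at e4
  have e5 := (h5.vis (fun _ => bl d N) (fun _ => le_rfl) 0 t 0 b (htT.trans hTN)).2 e4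
  exact (envC_vis_T C Mk K T N hTN ω htT).2 e5.univ

theorem chainB {Rk Mk K K' N T Cv r : ℕ} {ω : Ω}
    (hMk : 2 * Rk + 2 ≤ Mk) (hK : K ≤ K') (hTN : T ≤ N) (hN : Cv * T + r ≤ 4 * N)
    (hω : NoTies C ω) (htot : tot C Rk ω ≤ K')
    (h2 : ¬ Fast Cv r T (envC C Mk K T ω))
    (h4 : EqEnv (kill Rk (envC C Mk K' N ω)) (kill Rk (capE K (envC C Mk K' N ω))))
    (h5 : Agree N (envC C Mk K N ω) (kill Rk (envC C Mk K N ω)))
    {t : ℕ} (ht : 1 ≤ t) (htT : t ≤ T) {b : Pos d}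
    (hb : (envC C Mk K T ω).vis (fun _ => Set.univ) 0 0 t b) :
    ∃ s : ℝ, 0 ≤ s ∧ s ≤ t ∧ b ∈ (st C Rk ω s).2 := by
  refine (st_vis C Rk K' N ω hω htot t ht (htT.trans hTN) b).2 ?_
  have e1 := vis_bl C hTN h2 hN htT ((envC_vis_T C Mk K T N hTN ω htT).1 hb)
  have e2 := (h5.vis (fun _ => bl d N) (fun _ => le_rfl) 0 t 0 b (htT.trans hTN)).1 e1
  rw [← capE_envC C Mk K' K N hK ω] at e2
  have e3 := ((EqEnv_vis h4).2 e2).univ
  rw [kill_envC C Mk Rk K' N hMk ω] at e3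
  exact e3

end chain

section clocks

variable {Ω : Type} [MeasurableSpace Ω] {P : Measure Ω}

/-- transfer of an estimate from the chains to the clocks -/
theorem tr [IsProbabilityMeasure P] (hd : 0 < d) (C : Clocks m d P) (M K T : ℕ) (hM : 5 ≤ M)
    (hK : 2 ≤ K) (hK' : 2 * m.φ ≤ m.g K) (e : ℝ) (he : 0 < e) (F : Env d → Prop) (b : ℝ≥0∞)
    (hb : ∀ q : Par d m, q.M = M → q.K = K → q.PP (T * q.N1) (fun η l => F (envT q η l)) ≤ b)
    (htv : (M : ℝ≥0∞) ^ d * tv1 m K ≤ ENNReal.ofReal e) :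
    P {ω | F (envC C M K T ω)} ≤ b + ENNReal.ofReal e + ENNReal.ofReal e := by
  obtain ⟨q, h1, h2, h3⟩ := transfer hd C M K T hM hK hK' e he
  refine (h3 F).trans ?_
  gcongr
  exact hb q h1 h2

/-- the union bound for the boxes `R` -/
theorem link_bound [IsProbabilityMeasure P] (hd : 0 < d) (C : Clocks m d P) (Cv C1 C2 : ℕ)
    (hCv : ∀ (q : Par d m) (x : Pos d) (t r : ℕ), 2 * (Cv * t + r + 2) < q.M →
      q.PP (t * q.N1) (fun η l => ∃ y, (envT q η l).vis (fun _ => Set.univ) 0 x t y ∧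
      (Cv : ℝ) * t + r < nrm (y - x)) ≤ ENNReal.ofReal (Cv * Real.exp (- (r : ℝ))))
    (hC1 : ∀ q : Par d m, ∀ R N : ℕ, 2 * R + 2 ≤ q.M → 16 * N + 4 ≤ R →
      q.PP (N * q.N1) (fun η l => ¬ Agree N (envT q η l) (kill R (envT q η l))) ≤
      ENNReal.ofReal (C1 * (R + 1 : ℝ) ^ C1 * Real.exp (C1 * N - R / 4)))
    (hC2 : ∀ q : Par d m, ∀ K' T : ℕ, 2 * m.φ ≤ m.g K' →
      q.PP (T * q.N1) (fun η l => ¬ (EqEnv (envT q η l) (capE K' (envT q η l)) ∧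
      ∀ R : ℕ, 2 * R + 2 ≤ q.M → EqEnv (kill R (envT q η l)) (kill R (capE K' (envT q η l))))) ≤
      ENNReal.ofReal (T * (q.M : ℝ) ^ d * (C2 : ℝ) ^ (K' + 1) / K'.factorial))
    (n N T Rk Mk : ℕ) (hn : 2 ≤ n) (hMk5 : 5 ≤ Mk) (hMk : 2 * Rk + 2 ≤ Mk) (hRk : 16 * N + 4 ≤ Rk)
    (hTN : T ≤ N) (hN : Cv * T + n ≤ 4 * N) (hsp : 2 * (Cv * T + n + 2) < 2 * Rk + 2)
    (hφ : ∀ K ≥ n, 2 * m.φ ≤ m.g K)
    (e1 : (C1 : ℝ) * ((Rk : ℝ) + 1) ^ C1 * Real.exp (C1 * N - (Rk : ℝ) / 4) ≤ Real.exp (-n))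
    (e2 : (N : ℝ) * (Mk : ℝ) ^ d * (C2 : ℝ) ^ (n + 1) / n.factorial ≤ Real.exp (-n))
    (e3 : (Mk : ℝ≥0∞) ^ d * tv1 m n ≤ ENNReal.ofReal (Real.exp (-n))) :
    P {ω | ¬ ∀ t : ℕ, 1 ≤ t → t ≤ T → ∀ b,
      (b ∈ Iset C ω t ↔ (envC C Mk n T ω).vis (fun _ => Set.univ) 0 0 t b)} ≤
      ((2 * Cv + 23 : ℕ) : ℝ≥0∞) * ENNReal.ofReal (Real.exp (-n)) := by
  set e : ℝ≥0∞ := ENNReal.ofReal (Real.exp (-(n : ℝ))) with he
  have he0 : 0 < e := ENNReal.ofReal_pos.2 (Real.exp_pos _)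
  have hexp : (0 : ℝ) < Real.exp (-(n : ℝ)) := Real.exp_pos _
  -- the single estimates
  have kSpeed : ∀ M K : ℕ, 2 * Rk + 2 ≤ M → n ≤ K → (M : ℝ≥0∞) ^ d * tv1 m K ≤ e →
      P {ω | Fast Cv n T (envC C M K T ω)} ≤ (Cv : ℝ≥0∞) * e + e + e := by
    intro M K hM hK htv
    refine tr hd C M K T (by omega) (by omega) (hφ K hK) _ hexp (Fast Cv n T) _ ?_ htv
    intro q h1 h2
    refine (hCv q 0 T n (by omega)).trans (le_of_eq ?_)
    rw [ENNReal.ofReal_mul (Nat.cast_nonneg Cv), ENNReal.ofReal_natCast]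
  have kAgree : ∀ M K : ℕ, 2 * Rk + 2 ≤ M → n ≤ K → (M : ℝ≥0∞) ^ d * tv1 m K ≤ e →
      P {ω | ¬ Agree N (envC C M K N ω) (kill Rk (envC C M K N ω))} ≤ e + e + e := by
    intro M K hM hK htv
    refine tr hd C M K N (by omega) (by omega) (hφ K hK) _ hexp
      (fun E => ¬ Agree N E (kill Rk E)) _ ?_ htv
    intro q h1 h2
    refine (hC1 q Rk N (by omega) hRk).trans ?_
    exact ENNReal.ofReal_le_ofReal e1
  have kCap : ∀ K : ℕ, n ≤ K → (Mk : ℝ≥0∞) ^ d * tv1 m K ≤ e →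
      P {ω | ¬ EqEnv (kill Rk (envC C Mk K N ω)) (kill Rk (capE n (envC C Mk K N ω)))} ≤
        e + e + e := by
    intro K hK htv
    refine tr hd C Mk K N (by omega) (by omega) (hφ K hK) _ hexp
      (fun E => ¬ EqEnv (kill Rk E) (kill Rk (capE n E))) _ ?_ htv
    intro q h1 h2
    refine le_trans (T1.PP_mono q _ ?_) ((hC2 q n N (hφ n le_rfl)).trans ?_)
    · intro η l _ h h'
      exact h (h'.2 Rk (by omega))
    · rw [h1]
      exact ENNReal.ofReal_le_ofReal e2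
  have kKill : ∀ R M K : ℕ, 2 * R + 2 ≤ M → 2 * Rk + 2 ≤ M → n ≤ K →
      (M : ℝ≥0∞) ^ d * tv1 m K ≤ e →
      P {ω | ¬ ∀ t b, (kill R (envC C M K N ω)).vis (fun _ => Set.univ) 0 0 t b →
        (envC C M K N ω).vis (fun _ => Set.univ) 0 0 t b} ≤ 0 + e + e := by
    intro R M K hR hM hK htv
    refine tr hd C M K N (by omega) (by omega) (hφ K hK) _ hexp
      (fun E => ¬ ∀ t b, (kill R E).vis (fun _ => Set.univ) 0 0 t b →
        E.vis (fun _ => Set.univ) 0 0 t b) _ ?_ htv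
    intro q h1 h2
    refine le_of_eq ?_
    unfold Par.PP Par.EE
    refine ENNReal.tsum_eq_zero.2 fun η => ?_
    rw [mul_eq_zero]
    right
    refine T1.PrE_zero_of q.w _ _ fun l hl => hl fun t b h => ?_
    exact kill_vis q R (by omega) η l t b h
  -- boxes
  let vb : ℕ → Ω → ℕ → Pos d → Prop := fun R ω t b => ∃ s : ℝ, 0 ≤ s ∧ s ≤ t ∧ b ∈ (st C R ω s).2
  let AR : ℕ → Set Ω := fun R => {ω | NoTies C ω ∧ ∃ t : ℕ, 1 ≤ t ∧ t ≤ T ∧ ∃ b, vb R ω t b ∧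
    ¬ (envC C Mk n T ω).vis (fun _ => Set.univ) 0 0 t b}
  let B : Set Ω := {ω | NoTies C ω ∧ ∃ t : ℕ, 1 ≤ t ∧ t ≤ T ∧ ∃ b, ¬ vb Rk ω t b ∧
    (envC C Mk n T ω).vis (fun _ => Set.univ) 0 0 t b}
  have hmono : Monotone AR := by
    intro R R' hRR ω hω
    obtain ⟨h1, t, h2, h3, b, ⟨s, h4, h5, h6⟩, h7⟩ := hω
    exact ⟨h1, t, h2, h3, b, ⟨s, h4, h5, (st_mono C R R' hRR ω h1 s).2 h6⟩, h7⟩
  have hAR : ∀ R, Rk ≤ R → P (AR R) ≤ ((Cv + 14 : ℕ) : ℝ≥0∞) * e := by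
    intro R hR
    obtain ⟨K0, hK0⟩ := tot_small C R e he0
    obtain ⟨K1, hK1⟩ := tv_small m ((2 * R + 2 + Mk) ^ d) e he0
    set K : ℕ := max n (max K0 K1) with hKdef
    have b1 : n ≤ K := le_max_left _ _
    have b2 := hK0 K (le_trans (le_max_left _ _) (le_max_right _ _))
    have b3 := hK1 K (le_trans (le_max_right _ _) (le_max_right _ _))
    rw [Nat.cast_pow] at b3
    have b4 : ((2 * R + 2 : ℕ) : ℝ≥0∞) ^ d * tv1 m K ≤ e :=
      le_trans (mul_le_mul_left (pow_le_pow_left' (Nat.cast_le.2 (by omega)) d) _) b3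
    have b5 : ((Mk : ℕ) : ℝ≥0∞) ^ d * tv1 m K ≤ e :=
      le_trans (mul_le_mul_left (pow_le_pow_left' (Nat.cast_le.2 (by omega)) d) _) b3
    have hsub : AR R ⊆ {ω | K < tot C R ω} ∪
        ({ω | ¬ ∀ t b, (kill R (envC C (2 * R + 2) K N ω)).vis (fun _ => Set.univ) 0 0 t b →
          (envC C (2 * R + 2) K N ω).vis (fun _ => Set.univ) 0 0 t b} ∪
        ({ω | Fast Cv n T (envC C (2 * R + 2) K T ω)} ∪
        ({ω | ¬ Agree N (envC C (2 * R + 2) K N ω) (kill Rk (envC C (2 * R + 2) K N ω))} ∪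
        ({ω | ¬ EqEnv (kill Rk (envC C Mk K N ω)) (kill Rk (capE n (envC C Mk K N ω)))} ∪
        {ω | ¬ Agree N (envC C Mk n N ω) (kill Rk (envC C Mk n N ω))})))) := by
      rintro ω ⟨h1, t, h2, h3, b, h4, h5⟩
      by_contra hc
      simp only [Set.mem_union, Set.mem_ofPred_eq, not_or, not_not, not_lt] at hc
      obtain ⟨c1, c2, c3, c4, c5, c6⟩ := hc
      exact h5 (chainA C (le_refl (2 * R + 2)) (by omega) hMk b1 hTN hN h1 c1 c2 c3 c4 c5 c6 h2 h3 h4)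
    refine (measure_mono hsub).trans ?_
    refine le_trans (measure_union_le _ _) ?_
    refine le_trans (add_le_add b2 (le_trans (measure_union_le _ _)
      (add_le_add (kKill R (2 * R + 2) K le_rfl (by omega) b1 b4) (le_trans (measure_union_le _ _)
      (add_le_add (kSpeed (2 * R + 2) K (by omega) b1 b4) (le_trans (measure_union_le _ _)
      (add_le_add (kAgree (2 * R + 2) K (by omega) b1 b4) (le_trans (measure_union_le _ _)
      (add_le_add (kCap K b1 b5) (kAgree Mk n hMk le_rfl e3)))))))))) (le_of_eq ?_)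
    push_cast
    ring
  have hB : P B ≤ ((Cv + 9 : ℕ) : ℝ≥0∞) * e := by
    obtain ⟨K0, hK0⟩ := tot_small C Rk e he0
    obtain ⟨K1, hK1⟩ := tv_small m (Mk ^ d) e he0
    set K : ℕ := max n (max K0 K1) with hKdef
    have b1 : n ≤ K := le_max_left _ _
    have b2 := hK0 K (le_trans (le_max_left _ _) (le_max_right _ _))
    have b3 := hK1 K (le_trans (le_max_right _ _) (le_max_right _ _))
    rw [Nat.cast_pow] at b3
    have hsub : B ⊆ {ω | K < tot C Rk ω} ∪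
        ({ω | Fast Cv n T (envC C Mk n T ω)} ∪
        ({ω | ¬ EqEnv (kill Rk (envC C Mk K N ω)) (kill Rk (capE n (envC C Mk K N ω)))} ∪
        {ω | ¬ Agree N (envC C Mk n N ω) (kill Rk (envC C Mk n N ω))})) := by
      rintro ω ⟨h1, t, h2, h3, b, h4, h5⟩
      by_contra hc
      simp only [Set.mem_union, Set.mem_ofPred_eq, not_or, not_not, not_lt] at hc
      obtain ⟨c1, c2, c3, c4⟩ := hc
      exact h4 (chainB C hMk b1 hTN hN h1 c1 c2 c3 c4 h2 h3 h5)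
    refine (measure_mono hsub).trans ?_
    refine le_trans (measure_union_le _ _) ?_
    refine le_trans (add_le_add b2 (le_trans (measure_union_le _ _)
      (add_le_add (kSpeed Mk n hMk le_rfl e3) (le_trans (measure_union_le _ _)
      (add_le_add (kCap K b1 b3) (kAgree Mk n hMk le_rfl e3)))))) (le_of_eq ?_)
    push_cast
    ring
  have hU : P (⋃ R, AR R) ≤ ((Cv + 14 : ℕ) : ℝ≥0∞) * e := by
    rw [hmono.measure_iUnion]
    refine iSup_le fun R => ?_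
    exact (measure_mono (hmono (le_max_left R Rk))).trans (hAR _ (le_max_right R Rk))
  have hNT : P {ω | ¬ NoTies C ω} = 0 := no_ties C
  have hsub : {ω | ¬ ∀ t : ℕ, 1 ≤ t → t ≤ T → ∀ b,
      (b ∈ Iset C ω t ↔ (envC C Mk n T ω).vis (fun _ => Set.univ) 0 0 t b)} ⊆
      {ω | ¬ NoTies C ω} ∪ ((⋃ R, AR R) ∪ B) := by
    intro ω hω
    by_contra hc
    simp only [Set.mem_union, not_or] at hc
    obtain ⟨c1, c2, c3⟩ := hc
    have c1' : NoTies C ω := by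
      by_contra h
      exact c1 h
    refine hω fun t ht htT b => ⟨fun hb => ?_, fun hb => ?_⟩
    · by_contra h
      obtain ⟨s, h1, h2, R, h3⟩ := hb
      exact c2 (Set.mem_iUnion.2 ⟨R, c1', t, ht, htT, b, ⟨s, h1, h2, h3⟩, h⟩)
    · by_contra h
      refine c3 ⟨c1', t, ht, htT, b, fun hv => h ?_, hb⟩
      obtain ⟨s, h1, h2, h3⟩ := hv
      exact ⟨s, h1, h2, Rk, h3⟩
  refine (measure_mono hsub).trans ?_
  refine le_trans (measure_union_le _ _) ?_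
  rw [hNT, zero_add]
  refine le_trans (measure_union_le _ _) (le_trans (add_le_add hU hB) (le_of_eq ?_))
  push_cast
  ring

end clocks

end ZI.F1c

namespace ZI.Rows

open ZI ZI.F1c

variable {d : ℕ} {m : Model} {Ω : Type} [MeasurableSpace Ω] {P : Measure Ω}

theorem sys_link [IsProbabilityMeasure P] (hd : 0 < d) (C : Clocks m d P) (A : ℕ) (hA : 1 ≤ A) :
    ∃ k0 : ℕ, ∀ k ≥ k0,
    P {ω | ¬ ∀ t : ℕ, 1 ≤ t → t ≤ (2 ^ k) ^ 2 → ∀ b,
      (b ∈ Iset C ω t ↔ (EK C k ω).vis (fun _ => Set.univ) 0 0 t b)} ≤ err (rr A k) := by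
  obtain ⟨Cv, hCv⟩ := finite_speed m d
  obtain ⟨C1, hC1⟩ := killed_agree m d
  obtain ⟨C2, hC2⟩ := cap_agree m d
  obtain ⟨C3, hC3⟩ := tv1_le m
  obtain ⟨n1, hn1⟩ := g_big m
  obtain ⟨n2, hn2⟩ := kill_small C1 (Cv + 2)
  obtain ⟨n3, hn3⟩ := small (Cv + 2) (4 * d + 2) C2
  obtain ⟨n4, hn4⟩ := small 1 (4 * d) C3
  obtain ⟨n5, hn5⟩ := err_big A (2 * Cv + 23)
  refine ⟨n1 + n2 + n3 + n4 + n5 + 64 * (Cv + 2) + 8, fun k hk => ?_⟩
  have hkn : k < 2 ^ k := Nat.lt_two_pow_self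
  set n : ℕ := 2 ^ k with hn
  have hbig : n1 + n2 + n3 + n4 + n5 + 64 * (Cv + 2) + 8 ≤ n := by omega
  have hn64 : 64 * (Cv + 2) + 8 ≤ n := by omega
  have q1 : n * n = n ^ 2 := by ring
  have q2 : n ^ 2 * n ^ 2 = n ^ 4 := by ring
  have q3 : n ≤ n ^ 2 := by nlinarith
  have q4 : (64 * (Cv + 2) + 8) * n ^ 2 ≤ n ^ 4 := by
    rw [← q2]
    exact Nat.mul_le_mul_right _ (le_trans hn64 q3)
  have q5 : 64 ≤ n ^ 2 := by nlinarith
  have hRk : 16 * ((Cv + 2) * n ^ 2) + 4 ≤ n ^ 4 / 4 := by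
    rw [Nat.le_div_iff_mul_le (by norm_num)]
    nlinarith
  refine le_trans ?_ (hn5 k (by omega))
  refine link_bound hd C Cv C1 C2 hCv hC1 hC2 n ((Cv + 2) * n ^ 2) (n ^ 2) (n ^ 4 / 4) (n ^ 4)
    (by omega) (by omega) (by omega) hRk (by nlinarith) (by nlinarith) ?_ ?_ ?_ ?_ ?_
  · nlinarith
  · intro K hK
    exact hn1 K (by omega)
  · exact hn2 n (by omega)
  · refine le_trans (le_of_eq ?_) (hn3 n (by omega))
    push_cast
    ring
  · refine le_trans (mul_le_mul_right (hC3 n (by omega) (hn1 n (by omega))) _) ?_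
    rw [show ((n ^ 4 : ℕ) : ℝ≥0∞) ^ d = ENNReal.ofReal (((n : ℝ) ^ 4) ^ d) by
      rw [ENNReal.ofReal_pow (by positivity), ENNReal.ofReal_pow (by positivity),
        ENNReal.ofReal_natCast]
      push_cast
      rfl, ← ENNReal.ofReal_mul (by positivity)]
    refine ENNReal.ofReal_le_ofReal (le_trans (le_of_eq ?_) (hn4 n (by omega)))
    rw [← pow_mul]
    push_cast
    ring

end ZI.Rows
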