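import Pool.Agent.ZI.Dec
import Pool.Agent.ZI.R1
import Pool.Agent.ZI.R2

/-! # Row E6: the chain of blocks against the product law -/

set_option autoImplicit false

open scoped ENNReal BigOperators Classical

noncomputable section

namespace ZI

variable {d : ℕ} {m : Model}

namespace E6

/-- indicator -/
def ind (p : Prop) : ℝ≥0∞ := if p then 1 else 0

theorem ind_pos {p : Prop} (h : p) : ind p = 1 := by unfold ind; rw [if_pos h]

theorem ind_neg {p : Prop} (h : ¬ p) : ind p = 0 := by unfold ind; rw [if_neg h]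

theorem ind_le_one (p : Prop) : ind p ≤ 1 := by
  by_cases h : p
  · rw [ind_pos h]
  · rw [ind_neg h]; exact zero_le

theorem ind_mono {p p' : Prop} (h : p → p') : ind p ≤ ind p' := by
  by_cases h1 : p
  · rw [ind_pos h1, ind_pos (h h1)]
  · rw [ind_neg h1]; exact zero_le

theorem ind_or (p p' : Prop) : ind (p ∨ p') ≤ ind p + ind p' := by
  by_cases h1 : p
  · rw [ind_pos (Or.inl h1), ind_pos h1]; exact le_self_add
  · by_cases h2 : p'
    · rw [ind_pos (Or.inr h2), ind_pos h2]; exact le_add_self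
    · rw [ind_neg (not_or.mpr ⟨h1, h2⟩)]; exact zero_le

section PP

variable (q : Par d m)

theorem PP_def (N : ℕ) (E : (Tor d q.M → ℕ) → List (Let d q.M q.K) → Prop) :
    q.PP N E = ∑' η, prw (m.m1 q.K) η * EvE q.w N (fun l => ind (E η l)) := rfl

theorem PP_mono (N : ℕ) {E E' : (Tor d q.M → ℕ) → List (Let d q.M q.K) → Prop}
    (h : ∀ η l, E η l → E' η l) : q.PP N E ≤ q.PP N E' := by
  rw [PP_def, PP_def]
  exact ENNReal.tsum_le_tsum fun η => mul_le_mul_right (EvE_mono q.w N fun l _ =>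
    ind_mono (h η l)) _

theorem PP_congr (N : ℕ) {E E' : (Tor d q.M → ℕ) → List (Let d q.M q.K) → Prop}
    (h : ∀ η l, E η l ↔ E' η l) : q.PP N E = q.PP N E' :=
  le_antisymm (PP_mono q N fun η l => (h η l).1) (PP_mono q N fun η l => (h η l).2)

theorem PP_or (N : ℕ) (E E' : (Tor d q.M → ℕ) → List (Let d q.M q.K) → Prop) :
    q.PP N (fun η l => E η l ∨ E' η l) ≤ q.PP N E + q.PP N E' := by
  rw [PP_def, PP_def, PP_def, ← ENNReal.tsum_add]
  refine ENNReal.tsum_le_tsum fun η => ?_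
  rw [← mul_add, ← EvE_add]
  exact mul_le_mul_right (EvE_mono q.w N fun l _ => ind_or _ _) _

theorem PP_false (N : ℕ) : q.PP N (fun _ _ => False) = 0 := by
  rw [PP_def]
  have h : ∀ η : Tor d q.M → ℕ, EvE q.w N (fun _ => ind False) = 0 := by
    intro η
    have h1 := EvE_mul q.w N 0 (fun _ => ind False)
    simp only [zero_mul] at h1
    refine (EvE_congr q.w N fun l _ => ?_).trans h1
    exact ind_neg not_false
  rw [ENNReal.tsum_eq_zero]
  intro η
  rw [h η, mul_zero]

theorem PP_one_le (hd : 0 < d) (N : ℕ) (E : (Tor d q.M → ℕ) → List (Let d q.M q.K) → Prop) :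
    q.PP N E ≤ 1 := by
  rw [PP_def]
  calc ∑' η, prw (m.m1 q.K) η * EvE q.w N (fun l => ind (E η l))
      ≤ ∑' η, prw (m.m1 q.K) η * 1 := by
        refine ENNReal.tsum_le_tsum fun η => mul_le_mul_right ?_ _
        calc EvE q.w N (fun l => ind (E η l)) ≤ EvE q.w N (fun _ => 1) :=
              EvE_mono q.w N fun l _ => ind_le_one _
          _ = 1 := EvE_const q.w (Rows.sum_w q hd) N 1
    _ = 1 := by simp only [mul_one]; exact Rows.tsum_prw q

theorem PP_finset {ι : Type} (s : Finset ι) (N : ℕ)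
    (E : ι → (Tor d q.M → ℕ) → List (Let d q.M q.K) → Prop) :
    q.PP N (fun η l => ∃ i ∈ s, E i η l) ≤ ∑ i ∈ s, q.PP N (E i) := by
  induction s using Finset.induction_on with
  | empty =>
      rw [Finset.sum_empty, PP_congr q N (E' := fun _ _ => False) (fun η l => by simp), PP_false]
  | insert a s ha ih =>
      rw [Finset.sum_insert ha]
      refine le_trans ?_ (add_le_add_right ih _)
      refine le_trans (PP_mono q N (E' := fun η l => E a η l ∨ ∃ i ∈ s, E i η l) ?_)
        (PP_or q N _ _)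
      rintro η l ⟨i, hi, hE⟩
      rcases Finset.mem_insert.mp hi with rfl | hi
      · exact Or.inl hE
      · exact Or.inr ⟨i, hi, hE⟩

theorem sum_QT_le (hd : 0 < d) (P : BP) (u : Fin d → ℝ) (n m' : ℕ) (s : Finset (ℕ × Pos d)) :
    ∑ y ∈ s, QT q P u n m' y ≤ 1 := by
  have h : ∀ s : Finset (ℕ × Pos d), ∑ y ∈ s, QT q P u n m' y =
      q.PP (n ^ 2 * q.N1) (fun η l => (envT q η l).blk P u m' 0 0 ∈ s) := by
    intro s
    induction s using Finset.induction_on with
    | empty =>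
        rw [Finset.sum_empty, PP_congr q _ (E' := fun _ _ => False) (fun η l => by simp), PP_false]
    | insert a s ha ih =>
        rw [Finset.sum_insert ha, ih]
        unfold QT
        rw [PP_def, PP_def, PP_def, ← ENNReal.tsum_add]
        refine tsum_congr fun η => ?_
        rw [← mul_add, ← EvE_add]
        congr 1
        refine EvE_congr q.w _ fun l _ => ?_
        by_cases h1 : (envT q η l).blk P u m' 0 0 = a
        · have h2 : (envT q η l).blk P u m' 0 0 ∈ insert a s := by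
            rw [h1]; exact Finset.mem_insert_self a s
          have h3 : ¬ (envT q η l).blk P u m' 0 0 ∈ s := by rw [h1]; exact ha
          rw [ind_pos h1, ind_pos h2, ind_neg h3, add_zero]
        · rw [ind_neg h1, zero_add]
          by_cases h2 : (envT q η l).blk P u m' 0 0 ∈ s
          · rw [ind_pos h2, ind_pos (Finset.mem_insert_of_mem h2)]
          · have h3 : ¬ (envT q η l).blk P u m' 0 0 ∈ insert a s := by
              intro h3
              rcases Finset.mem_insert.mp h3 with h3 | h3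
              · exact h1 h3
              · exact h2 h3
            rw [ind_neg h2, ind_neg h3]
  rw [h]
  exact PP_one_le q hd _ _

end PP

theorem prodQ_nil (Q : ℕ → (ℕ × Pos d) → ℝ≥0∞) (G : List (ℕ × Pos d) → Prop) :
    prodQ Q [] G = if G [] then 1 else 0 := rfl

theorem prodQ_cons (Q : ℕ → (ℕ × Pos d) → ℝ≥0∞) (m' : ℕ) (ms : List ℕ)
    (G : List (ℕ × Pos d) → Prop) :
    prodQ Q (m' :: ms) G = ∑' y, Q m' y * prodQ Q ms (fun l => G (y :: l)) := rfl

/-- the induction -/
theorem core (q : Par d m) (hd : 0 < d) (P : BP) (u : Fin d → ℝ) (n lo hi : ℕ)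
    (GoodE : (Tor d q.M → ℕ) → List (Let d q.M q.K) → Prop)
    (A : ℕ → (ℕ × Pos d) → Prop) (B : Finset (ℕ × Pos d)) (ε0 ε1 : ℝ≥0∞)
    (hgood : q.PP (n ^ 2 * q.N1) (fun η l => ¬ GoodE η l) ≤ ε0)
    (hadm : ∀ m', lo ≤ m' → m' ≤ hi → ∀ η l, GoodE η l → A m' ((envT q η l).blk P u m' 0 0))
    (hAB : ∀ m', m' ≤ hi → ∀ y, A m' y → y ∈ B)
    (hstep : ∀ m', lo ≤ m' → m' ≤ hi → ∀ y, A m' y → ∀ ms : List ℕ, (∀ m'' ∈ ms, lo ≤ m'') →
      m' + ms.sum ≤ hi → ∀ G : List (ℕ × Pos d) → Prop,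
      q.PP (n ^ 2 * q.N1) (fun η l => GoodE η l ∧ (envT q η l).blk P u m' 0 0 = y ∧
        G ((envT q η l).chain P u ms (y.2 + v0 P u) (y.1 + P.Δ))) ≤
      QT q P u n m' y * q.PP (n ^ 2 * q.N1) (fun η l => G ((envT q η l).chain P u ms 0 0)) + ε1) :
    ∀ ms : List ℕ, (∀ m' ∈ ms, lo ≤ m') → ms.sum ≤ hi → ∀ G : List (ℕ × Pos d) → Prop,
      q.PP (n ^ 2 * q.N1) (fun η l => G ((envT q η l).chain P u ms 0 0)) ≤
        prodQ (QT q P u n) ms G + ms.length * (ε0 + B.card * ε1) := by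
  intro ms
  induction ms with
  | nil =>
      intro _ _ G
      rw [prodQ_nil]
      simp only [List.length_nil, Nat.cast_zero, zero_mul, add_zero]
      by_cases hG : G []
      · rw [if_pos hG]; exact PP_one_le q hd _ _
      · rw [if_neg hG, PP_congr q _ (E' := fun _ _ => False) (fun η l => by
          simp only [Env.chain, hG]), PP_false]
  | cons m' ms ih =>
      intro hlo hsum G
      have hlo' : lo ≤ m' := hlo m' (List.mem_cons_self)
      have hlos : ∀ m'' ∈ ms, lo ≤ m'' := fun m'' h => hlo m'' (List.mem_cons_of_mem _ h)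
      have hsum' : m' + ms.sum ≤ hi := by rw [List.sum_cons] at hsum; exact hsum
      have hhi : m' ≤ hi := by omega
      have hsums : ms.sum ≤ hi := by omega
      set N := n ^ 2 * q.N1 with hN
      have h1 : q.PP N (fun η l => G ((envT q η l).chain P u (m' :: ms) 0 0)) ≤
          q.PP N (fun η l => ¬ GoodE η l) + ∑ y ∈ B, q.PP N (fun η l => GoodE η l ∧
            (envT q η l).blk P u m' 0 0 = y ∧
            G (y :: (envT q η l).chain P u ms (y.2 + v0 P u) (y.1 + P.Δ))) := by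
        refine le_trans ?_ (add_le_add_right (PP_finset q B N _) _)
        refine le_trans (PP_mono q N ?_) (PP_or q N _ _)
        intro η l hG
        by_cases hg : GoodE η l
        · refine Or.inr ⟨(envT q η l).blk P u m' 0 0, hAB m' hhi _ (hadm m' hlo' hhi η l hg), hg,
            rfl, ?_⟩
          have : (envT q η l).chain P u (m' :: ms) 0 0 = (envT q η l).blk P u m' 0 0 ::
              (envT q η l).chain P u ms (0 + ((envT q η l).blk P u m' 0 0).2 + v0 P u)
                (0 + ((envT q η l).blk P u m' 0 0).1 + P.Δ) := rfl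
          rw [this, zero_add, zero_add] at hG
          exact hG
        · exact Or.inl hg
      have h2 : ∀ y ∈ B, q.PP N (fun η l => GoodE η l ∧ (envT q η l).blk P u m' 0 0 = y ∧
            G (y :: (envT q η l).chain P u ms (y.2 + v0 P u) (y.1 + P.Δ))) ≤
          QT q P u n m' y * (prodQ (QT q P u n) ms (fun l => G (y :: l)) +
            ms.length * (ε0 + B.card * ε1)) + ε1 := by
        intro y _
        by_cases hA : A m' y
        · refine (hstep m' hlo' hhi y hA ms hlos hsum' (fun l => G (y :: l))).trans ?_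
          exact add_le_add_left (mul_le_mul_right (ih hlos hsums (fun l => G (y :: l))) _) _
        · rw [PP_congr q N (E' := fun _ _ => False) (fun η l => ⟨fun h => hA ?_, False.elim⟩),
            PP_false]
          · exact zero_le
          · rw [← h.2.1]; exact hadm m' hlo' hhi η l h.1
      have h3 : ∑ y ∈ B, (QT q P u n m' y * (prodQ (QT q P u n) ms (fun l => G (y :: l)) +
            ms.length * (ε0 + B.card * ε1)) + ε1) ≤
          prodQ (QT q P u n) (m' :: ms) G + ms.length * (ε0 + B.card * ε1) + B.card * ε1 := by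
        rw [Finset.sum_add_distrib, Finset.sum_const, nsmul_eq_mul]
        refine add_le_add_left ?_ _
        calc ∑ y ∈ B, QT q P u n m' y * (prodQ (QT q P u n) ms (fun l => G (y :: l)) +
              ms.length * (ε0 + B.card * ε1))
            = ∑ y ∈ B, QT q P u n m' y * prodQ (QT q P u n) ms (fun l => G (y :: l)) +
              (∑ y ∈ B, QT q P u n m' y) * (ms.length * (ε0 + B.card * ε1)) := by
              rw [Finset.sum_mul, ← Finset.sum_add_distrib]
              exact Finset.sum_congr rfl fun y _ => mul_add _ _ _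
          _ ≤ prodQ (QT q P u n) (m' :: ms) G + 1 * (ms.length * (ε0 + B.card * ε1)) := by
              refine add_le_add ?_ (mul_le_mul_left (sum_QT_le q hd P u n m' B) _)
              rw [prodQ_cons]
              exact ENNReal.sum_le_tsum B
          _ = prodQ (QT q P u n) (m' :: ms) G + ms.length * (ε0 + B.card * ε1) := by
              rw [one_mul]
      calc q.PP N (fun η l => G ((envT q η l).chain P u (m' :: ms) 0 0))
          ≤ ε0 + (prodQ (QT q P u n) (m' :: ms) G + ms.length * (ε0 + B.card * ε1) +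
              B.card * ε1) :=
            h1.trans (add_le_add hgood ((Finset.sum_le_sum h2).trans h3))
        _ = prodQ (QT q P u n) (m' :: ms) G +
              ((m' :: ms).length : ℝ≥0∞) * (ε0 + B.card * ε1) := by
            rw [List.length_cons]
            push_cast
            ring

/-! ### numbers -/

theorem exp_beats (c : ℝ) (hc : 0 < c) (B : ℕ) : ∃ r1 : ℕ, 1 ≤ r1 ∧ ∀ r ≥ r1,
    (r : ℝ) ^ B * Real.exp (- c * r) ≤ Real.exp (- Real.sqrt r) := by
  have h1 : Filter.Tendsto (fun x : ℝ => (c / 2 * x) ^ B * Real.exp (-(c / 2 * x)))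
      Filter.atTop (nhds 0) :=
    (Real.tendsto_pow_mul_exp_neg_atTop_nhds_zero B).comp
      (Filter.Tendsto.const_mul_atTop (by positivity) Filter.tendsto_id)
  have h2 : ∀ᶠ x : ℝ in Filter.atTop, (c / 2 * x) ^ B * Real.exp (-(c / 2 * x)) < (c / 2) ^ B :=
    h1.eventually (gt_mem_nhds (by positivity))
  have h3 : ∀ᶠ x : ℝ in Filter.atTop, (2 / c) ^ 2 ≤ x := Filter.eventually_ge_atTop _
  obtain ⟨x0, hx0⟩ := Filter.eventually_atTop.mp (h2.and h3)
  obtain ⟨r0, hr0⟩ := exists_nat_ge (max x0 1)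
  refine ⟨r0 + 1, by omega, fun r hr => ?_⟩
  have hr' : (r0 : ℝ) + 1 ≤ r := by exact_mod_cast hr
  have hx : x0 ≤ (r : ℝ) := by
    have := le_max_left x0 1
    linarith
  obtain ⟨h4, h5⟩ := hx0 r hx
  have hrpos : (0 : ℝ) < r := by
    have := le_max_right x0 1
    linarith
  have h6 : (r : ℝ) ^ B * Real.exp (-(c / 2 * r)) ≤ 1 := by
    have h7 : (c / 2) ^ B * ((r : ℝ) ^ B * Real.exp (-(c / 2 * r))) ≤ (c / 2) ^ B * 1 := by
      rw [mul_one, ← mul_assoc, ← mul_pow]
      exact h4.le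
    exact le_of_mul_le_mul_left h7 (by positivity)
  have h8 : Real.sqrt r ≤ c / 2 * r := by
    have h9 : 2 / c ≤ Real.sqrt r := Real.le_sqrt_of_sq_le h5
    have h10 : Real.sqrt r * Real.sqrt r = r := Real.mul_self_sqrt hrpos.le
    have h11 : 1 ≤ c / 2 * Real.sqrt r := by
      have : c / 2 * (2 / c) ≤ c / 2 * Real.sqrt r :=
        mul_le_mul_of_nonneg_left h9 (by positivity)
      have h12 : c / 2 * (2 / c) = 1 := by field_simp
      linarith
    calc Real.sqrt r = 1 * Real.sqrt r := (one_mul _).symm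
      _ ≤ c / 2 * Real.sqrt r * Real.sqrt r :=
          mul_le_mul_of_nonneg_right h11 (Real.sqrt_nonneg _)
      _ = c / 2 * r := by rw [mul_assoc, h10]
  have h13 : Real.exp (- c * r) = Real.exp (-(c / 2 * r)) * Real.exp (-(c / 2 * r)) := by
    rw [← Real.exp_add]; congr 1; ring
  rw [h13, ← mul_assoc]
  calc (r : ℝ) ^ B * Real.exp (-(c / 2 * r)) * Real.exp (-(c / 2 * r))
      ≤ 1 * Real.exp (-(c / 2 * r)) := mul_le_mul_of_nonneg_right h6 (Real.exp_pos _).le
    _ ≤ Real.exp (- Real.sqrt r) := by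
        rw [one_mul]; exact Real.exp_le_exp.mpr (neg_le_neg h8)

/-- the box of the possible block variables -/
def box (d H n : ℕ) : Finset (ℕ × Pos d) :=
  Finset.range (H + 1) ×ˢ Fintype.piFinset (fun _ : Fin d => Finset.Icc (-(n : ℤ)) (n : ℤ))

theorem mem_box {H n : ℕ} {y : ℕ × Pos d} (h1 : y.1 ≤ H) (h2 : supn y.2 ≤ n) : y ∈ box d H n := by
  unfold box
  rw [Finset.mem_product, Finset.mem_range, Fintype.mem_piFinset]
  refine ⟨by omega, fun j => ?_⟩
  have : (y.2 j).natAbs ≤ supn y.2 := Finset.le_sup (f := fun j => (y.2 j).natAbs) (Finset.mem_univ j)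
  rw [Finset.mem_Icc]
  omega

theorem card_box (H n : ℕ) : (box d H n).card = (H + 1) * (2 * n + 1) ^ d := by
  unfold box
  rw [Finset.card_product, Finset.card_range, Fintype.card_piFinset]
  congr 1
  rw [Finset.prod_const, Finset.card_univ, Fintype.card_fin, Int.card_Icc]
  congr 1
  omega

theorem pb_succ {r X k : ℕ} (hr : 10 ≤ r) (h : X ≤ r ^ k) : X + 1 ≤ r ^ (k + 1) := by
  have h1 : 1 ≤ r ^ k := Nat.one_le_pow _ _ (by omega)
  have h2 : r ^ k * 10 ≤ r ^ k * r := Nat.mul_le_mul_left _ hr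
  rw [pow_succ]
  omega

theorem pb_four {r X k : ℕ} (hr : 10 ≤ r) (h : X ≤ r ^ k) : 4 * X ≤ r ^ (k + 1) := by
  have h2 : r ^ k * 10 ≤ r ^ k * r := Nat.mul_le_mul_left _ hr
  rw [pow_succ]
  omega

theorem pb_two {r X k : ℕ} (hr : 10 ≤ r) (h : X ≤ r ^ k) : 2 * X ≤ r ^ (k + 1) := by
  have := pb_four hr h
  omega

theorem pb_mul {r X Y k l : ℕ} (h : X ≤ r ^ k) (h' : Y ≤ r ^ l) : X * Y ≤ r ^ (k + l) := by
  rw [pow_add]; exact Nat.mul_le_mul h h'

theorem pb_add {r X Y k l : ℕ} (hr : 10 ≤ r) (h : X ≤ r ^ k) (h' : Y ≤ r ^ l) :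
    X + 2 * Y ≤ r ^ (k + l + 1) := by
  have h1 : r ^ k ≤ r ^ (k + l) := Nat.pow_le_pow_right (by omega) (by omega)
  have h2 : r ^ l ≤ r ^ (k + l) := Nat.pow_le_pow_right (by omega) (by omega)
  have h3 : r ^ (k + l) * 10 ≤ r ^ (k + l) * r := Nat.mul_le_mul_left _ hr
  rw [pow_succ]
  omega

/-- polynomial bounds -/
theorem poly_bd (d a A : ℕ) : ∃ B : ℕ, ∀ r ≥ 10, ∀ n : ℕ, n ≤ (2 * r) ^ A →
    2 * (r * n * (((4 * r ^ a) * (r * n + 2 * r ^ (3 * a)) + 1) * (2 * n ^ 2 + 1) ^ d + 1) + 1) ≤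
      r ^ B := by
  refine ⟨(1 + 2 * A) + (((a + 1 + ((1 + 2 * A) + 3 * a + 1)) + 1 +
    (2 * A * 2 + 1 + 1) * d) + 1) + 1 + 1, fun r hr n hn => ?_⟩
  have hn' : n ≤ r ^ (2 * A) := by
    refine hn.trans ?_
    rw [pow_mul]
    exact Nat.pow_le_pow_left (by nlinarith) A
  have e1 : r * n ≤ r ^ (1 + 2 * A) := pb_mul (pow_one r).ge hn'
  have e2 := pb_add hr e1 (le_refl (r ^ (3 * a)))
  have e3 := pb_four hr (le_refl (r ^ a))
  have e4 := pb_succ hr (pb_mul e3 e2)
  have e5 : n ^ 2 ≤ r ^ (2 * A * 2) := by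
    rw [pow_mul r (2 * A) 2]; exact Nat.pow_le_pow_left hn' 2
  have e6 := pb_succ hr (pb_two hr e5)
  have e7 : (2 * n ^ 2 + 1) ^ d ≤ r ^ ((2 * A * 2 + 1 + 1) * d) := by
    rw [pow_mul r _ d]; exact Nat.pow_le_pow_left e6 d
  exact pb_two hr (pb_succ hr (pb_mul e1 (pb_succ hr (pb_mul e4 e7))))

/-- E6 from the statements of E4, E5a, E5d -/
theorem block_chain_of {Cv a A r0 : ℕ} {c : ℝ} (hB : Base m d Cv a A r0 c)
    (hadm : ∃ r1 ≥ r0, ∀ r ≥ r1,
      ∀ n : ℕ, r ^ A ≤ n → ∀ q : Par d m, q.M = n ^ 4 → ∀ (u : Fin d → ℝ), ∑ j, u j ^ 2 = 1 →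
      ∀ m' : ℕ, r ^ (7 * a) ≤ m' → m' ≤ r * n → ∀ (η : Tor d q.M → ℕ) (l : List (Let d q.M q.K)),
      (envT q η l).Good r (r ^ a) (r ^ a) Cv (n ^ 2) (n ^ 2) →
      Adm (bp d a r n) u r Cv m' n ((envT q η l).blk (bp d a r n) u m' 0 0))
    (hstart : ∃ r1 ≥ r0, ∀ r ≥ r1, ∀ n : ℕ,
      r ^ A ≤ n → n ≤ (2 * r) ^ A → ∀ q : Par d m, q.M = n ^ 4 →
      ∀ (u : Fin d → ℝ), ∑ j, u j ^ 2 = 1 → ∀ ms : List ℕ, (∀ m' ∈ ms, r ^ (7 * a) ≤ m') →
      ms.sum ≤ r * n → ∀ (z : Pos d) (s : ℕ), 2 * s ≤ n ^ 2 → ∀ G : List (ℕ × Pos d) → Prop,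
      q.PP (n ^ 2 * q.N1) (fun η l => G ((envT q η l).chain (bp d a r n) u ms z s)) ≤
        q.PP (n ^ 2 * q.N1) (fun η l => G ((envT q η l).chain (bp d a r n) u ms 0 0)) +
          ENNReal.ofReal (Real.exp (- c * r)))
    (hstep : ∃ c' : ℝ, 0 < c' ∧
      ∃ r1 ≥ r0, ∀ r ≥ r1, ∀ n : ℕ, r ^ A ≤ n → n ≤ (2 * r) ^ A → ∀ q : Par d m, q.M = n ^ 4 →
      ∀ (u : Fin d → ℝ), ∑ j, u j ^ 2 = 1 → ∀ m' : ℕ, r ^ (7 * a) ≤ m' → m' ≤ r * n →
      ∀ y : ℕ × Pos d, Adm (bp d a r n) u r Cv m' n y →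
      ∀ ms : List ℕ, (∀ m'' ∈ ms, r ^ (7 * a) ≤ m'') → m' + ms.sum ≤ r * n →
      ∀ G : List (ℕ × Pos d) → Prop,
      q.PP (n ^ 2 * q.N1) (fun η l => (envT q η l).Good r (r ^ a) (r ^ a) Cv (n ^ 2) (n ^ 2) ∧
        (envT q η l).blk (bp d a r n) u m' 0 0 = y ∧
        G ((envT q η l).chain (bp d a r n) u ms (y.2 + v0 (bp d a r n) u)
          (y.1 + (bp d a r n).Δ))) ≤
      QT q (bp d a r n) u n m' y *
        q.PP (n ^ 2 * q.N1) (fun η l => G ((envT q η l).chain (bp d a r n) u ms 0 0)) +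
        ENNReal.ofReal (Real.exp (- c' * r))) :
    ∃ r1 ≥ r0, ∀ r ≥ r1,
    ∀ n : ℕ, r ^ A ≤ n → n ≤ (2 * r) ^ A → ∀ q : Par d m, q.M = n ^ 4 →
    ∀ (u : Fin d → ℝ), ∑ j, u j ^ 2 = 1 → ∀ ms : List ℕ, (∀ m' ∈ ms, r ^ (7 * a) ≤ m') →
    ms.sum ≤ r * n → ∀ (z : Pos d) (s : ℕ), 2 * s ≤ n ^ 2 → ∀ G : List (ℕ × Pos d) → Prop,
    2 * q.PP (n ^ 2 * q.N1) (fun η l => G ((envT q η l).chain (bp d a r n) u ms z s)) ≤
      2 * prodQ (QT q (bp d a r n) u n) ms G + err r := by
  obtain ⟨ra, hra, hadm⟩ := hadm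
  obtain ⟨rs, hrs, hstart⟩ := hstart
  obtain ⟨c', hc', rt, hrt, hstep⟩ := hstep
  obtain ⟨B, hPB⟩ := poly_bd d a A
  have hcpos := hB.c_pos
  set c0 := min c c' with hc0
  have hc0pos : 0 < c0 := lt_min hcpos hc'
  obtain ⟨re, _, hre⟩ := exp_beats c0 hc0pos B
  refine ⟨max (max ra rs) (max (max rt re) (max r0 10)), ?_, ?_⟩
  · exact le_trans hra (le_trans (le_max_left _ _) (le_max_left _ _))
  intro r hr n hn hn2 q hqM u hu ms hms hsum z s hs G
  have hr_a : ra ≤ r := le_trans (le_trans (le_max_left _ _) (le_max_left _ _)) hr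
  have hr_s : rs ≤ r := le_trans (le_trans (le_max_right _ _) (le_max_left _ _)) hr
  have hr_t : rt ≤ r :=
    le_trans (le_trans (le_trans (le_max_left _ _) (le_max_left _ _)) (le_max_right _ _)) hr
  have hr_e : re ≤ r :=
    le_trans (le_trans (le_trans (le_max_right _ _) (le_max_left _ _)) (le_max_right _ _)) hr
  have hr_0 : r0 ≤ r :=
    le_trans (le_trans (le_trans (le_max_left _ _) (le_max_right _ _)) (le_max_right _ _)) hr
  have hr_10 : 10 ≤ r :=
    le_trans (le_trans (le_trans (le_max_right _ _) (le_max_right _ _)) (le_max_right _ _)) hr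
  set e0 : ℝ≥0∞ := ENNReal.ofReal (Real.exp (- c0 * r)) with he0
  have hec : ENNReal.ofReal (Real.exp (- c * r)) ≤ e0 := by
    refine ENNReal.ofReal_le_ofReal (Real.exp_le_exp.mpr ?_)
    have : c0 * r ≤ c * r := mul_le_mul_of_nonneg_right (min_le_left _ _) (Nat.cast_nonneg r)
    linarith
  have hec' : ENNReal.ofReal (Real.exp (- c' * r)) ≤ e0 := by
    refine ENNReal.ofReal_le_ofReal (Real.exp_le_exp.mpr ?_)
    have : c0 * r ≤ c' * r := mul_le_mul_of_nonneg_right (min_le_right _ _) (Nat.cast_nonneg r)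
    linarith
  set H := 4 * r ^ a * (r * n + 2 * r ^ (3 * a)) with hH
  have hcore := core q hB.d_pos (bp d a r n) u n (r ^ (7 * a)) (r * n)
    (fun η l => (envT q η l).Good r (r ^ a) (r ^ a) Cv (n ^ 2) (n ^ 2))
    (fun m' y => Adm (bp d a r n) u r Cv m' n y) (box d H (n ^ 2)) e0 e0
    ((hB.good r hr_0 n hn hn2 q hqM).trans hec)
    (fun m' h1 h2 η l hg => hadm r hr_a n hn q hqM u hu m' h1 h2 η l hg)
    (by
      intro m' h2 y hy
      refine mem_box ?_ hy.2.2.2.2
      have h3 := hy.2.1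
      have h4 : ((y.1 : ℕ) : ℝ) ≤ ((4 * r ^ a * (m' + 2 * r ^ (3 * a)) : ℕ) : ℝ) := by
        have h5 : (bp d a r n).κ = r ^ a := rfl
        have h6 : (bp d a r n).mg = r ^ (3 * a) := rfl
        rw [h5, h6] at h3
        push_cast
        push_cast at h3
        exact h3
      have h5 : y.1 ≤ 4 * r ^ a * (m' + 2 * r ^ (3 * a)) := by exact_mod_cast h4
      refine h5.trans ?_
      rw [hH]
      exact Nat.mul_le_mul_left _ (by omega))
    (fun m' h1 h2 y hy ms' hms' hsum' G' =>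
      (hstep r hr_t n hn hn2 q hqM u hu m' h1 h2 y hy ms' hms' hsum' G').trans
        (add_le_add_right hec' _))
    ms hms hsum G
  have hlen : ms.length ≤ r * n := by
    refine le_trans ?_ hsum
    have : ∀ l : List ℕ, (∀ x ∈ l, 1 ≤ x) → l.length ≤ l.sum := by
      intro l
      induction l with
      | nil => intro _; simp
      | cons x l ih =>
          intro h
          rw [List.length_cons, List.sum_cons]
          have := h x List.mem_cons_self
          have := ih fun y hy => h y (List.mem_cons_of_mem _ hy)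
          omega
    exact this ms fun x hx => le_trans (Nat.one_le_pow _ _ (by omega)) (hms x hx)
  have hfin : 2 * (e0 + ms.length * (e0 + (box d H (n ^ 2)).card * e0)) ≤ err r := by
    have h1 : 2 * (e0 + ms.length * (e0 + (box d H (n ^ 2)).card * e0)) ≤
        ((r ^ B : ℕ) : ℝ≥0∞) * e0 := by
      have h2 : 2 * (e0 + ms.length * (e0 + (box d H (n ^ 2)).card * e0)) =
          ((2 * (ms.length * ((box d H (n ^ 2)).card + 1) + 1) : ℕ) : ℝ≥0∞) * e0 := by
        push_cast; ring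
      rw [h2]
      refine mul_le_mul_left ?_ _
      have h3 : 2 * (ms.length * ((box d H (n ^ 2)).card + 1) + 1) ≤ r ^ B := by
        refine le_trans ?_ (hPB r hr_10 n hn2)
        rw [card_box]
        refine Nat.mul_le_mul_left _ (Nat.add_le_add_right ?_ _)
        exact Nat.mul_le_mul_right _ hlen
      exact_mod_cast h3
    refine h1.trans ?_
    have h4 := hre r hr_e
    rw [he0, err, ← ENNReal.ofReal_natCast, ← ENNReal.ofReal_mul (Nat.cast_nonneg _)]
    refine ENNReal.ofReal_le_ofReal ?_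
    push_cast
    exact h4
  calc 2 * q.PP (n ^ 2 * q.N1) (fun η l => G ((envT q η l).chain (bp d a r n) u ms z s))
      ≤ 2 * (q.PP (n ^ 2 * q.N1) (fun η l => G ((envT q η l).chain (bp d a r n) u ms 0 0)) +
          e0) :=
        mul_le_mul_right ((hstart r hr_s n hn hn2 q hqM u hu ms hms hsum z s hs G).trans
          (add_le_add_right hec _)) _
    _ ≤ 2 * (prodQ (QT q (bp d a r n) u n) ms G +
          ms.length * (e0 + (box d H (n ^ 2)).card * e0) + e0) :=
        mul_le_mul_right (add_le_add_left hcore _) _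
    _ = 2 * prodQ (QT q (bp d a r n) u n) ms G +
          2 * (e0 + ms.length * (e0 + (box d H (n ^ 2)).card * e0)) := by ring
    _ ≤ 2 * prodQ (QT q (bp d a r n) u n) ms G + err r := add_le_add_right hfin _

end E6

end ZI
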