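import Pool.Agent.ZI.Ev1

/-! # Row R12: exchanging the parts of two independent configurations off a set -/

set_option autoImplicit false

open scoped ENNReal BigOperators Classical

noncomputable section

namespace ZI.Rows

open ZI

/-- exchanging the parts off `U` is an involution -/
def mixEquiv {V : Type} (U : Set V) : ((V → ℕ) × (V → ℕ)) ≃ ((V → ℕ) × (V → ℕ)) where
  toFun a := (mix U a.1 a.2, mix U a.2 a.1)
  invFun a := (mix U a.1 a.2, mix U a.2 a.1)
  left_inv a := by
    refine Prod.ext (funext fun x => ?_) (funext fun x => ?_) <;>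
      by_cases h : x ∈ U <;> simp [mix, h]
  right_inv a := by
    refine Prod.ext (funext fun x => ?_) (funext fun x => ?_) <;>
      by_cases h : x ∈ U <;> simp [mix, h]

theorem prw_mix {V : Type} [Fintype V] (m1 : ℕ → ℝ≥0∞) (U : Set V) (η η' : V → ℕ) :
    prw m1 (mix U η η') * prw m1 (mix U η' η) = prw m1 η * prw m1 η' := by
  unfold prw
  rw [← Finset.prod_mul_distrib, ← Finset.prod_mul_distrib]
  refine Finset.prod_congr rfl fun x _ => ?_
  by_cases h : x ∈ U
  · simp [mix, h]
  · simp [mix, h, mul_comm]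

theorem mix_swap {V : Type} [Fintype V] (m1 : ℕ → ℝ≥0∞) (U : Set V) (F : (V → ℕ) → (V → ℕ) → ℝ≥0∞) :
    ∑' η : V → ℕ, ∑' η' : V → ℕ, prw m1 η * (prw m1 η' * F (mix U η η') (mix U η' η)) =
      ∑' η : V → ℕ, ∑' η' : V → ℕ, prw m1 η * (prw m1 η' * F η η') := by
  rw [← ENNReal.tsum_prod (f := fun η η' => prw m1 η * (prw m1 η' * F (mix U η η') (mix U η' η))),
    ← ENNReal.tsum_prod (f := fun η η' => prw m1 η * (prw m1 η' * F η η')),
    ← Equiv.tsum_eq (mixEquiv U)]
  refine tsum_congr fun a => ?_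
  obtain ⟨η, η'⟩ := a
  show prw m1 (mix U η η') * (prw m1 (mix U η' η) *
    F (mix U (mix U η η') (mix U η' η)) (mix U (mix U η' η) (mix U η η'))) =
    prw m1 η * (prw m1 η' * F η η')
  have h : ∀ a b : V → ℕ, mix U (mix U a b) (mix U b a) = a := fun a b => by
    funext x
    by_cases hx : x ∈ U <;> simp [mix, hx]
  rw [h, h, ← mul_assoc, prw_mix, mul_assoc]

end ZI.Rows
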