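import Pool.Agent.ZI.ProcE
import Pool.Agent.ZI.InfLem
import Pool.Agent.ZI.PPc
import Pool.Agent.ZI.C5

/-! # Row F1c, part 1: restriction of the region, restriction of the time, estimates -/

set_option autoImplicit false

open scoped ENNReal BigOperators Classical Pointwise
open MeasureTheory

noncomputable section

namespace ZI.F1c

open ZI ZI.Rows

variable {d : ℕ} {m : Model}

section det

variable {V : Type} (nb : V → Dir d → Option V) (pr : Pos d → V) (η0 : V → ℕ)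

theorem cfg_congr {U U' : ℕ → List (Lab V d)} {T : ℕ} (h : ∀ t < T, U t = U' t) :
    ∀ t ≤ T, cfg nb η0 U t = cfg nb η0 U' t := by
  intro t
  induction t with
  | zero => intro _; rfl
  | succ t ih =>
    intro ht
    show (U t).foldl (mv nb) (cfg nb η0 U t) = (U' t).foldl (mv nb) (cfg nb η0 U' t)
    rw [ih (by omega), h t (by omega)]

theorem inf_congr {U U' : ℕ → List (Lab V d)} {T : ℕ} (h : ∀ t < T, U t = U' t)
    (G : ℕ → Set (Pos d)) (s : ℕ) (A : Set (Pos d)) :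
    ∀ j, s + j ≤ T → inf nb pr η0 U G s A j = inf nb pr η0 U' G s A j := by
  intro j
  induction j with
  | zero =>
    intro hj
    show {z | z ∈ A ∧ z ∈ G s ∧ 0 < cfg nb η0 U s (pr z)} =
      {z | z ∈ A ∧ z ∈ G s ∧ 0 < cfg nb η0 U' s (pr z)}
    rw [cfg_congr nb η0 h s (by omega)]
  | succ j ih =>
    intro hj
    show ((U (s + j)).foldl (stepR nb pr (G (s + j)))
      (cfg nb η0 U (s + j), inf nb pr η0 U G s A j ∩ G (s + j))).2 =
      ((U' (s + j)).foldl (stepR nb pr (G (s + j)))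
      (cfg nb η0 U' (s + j), inf nb pr η0 U' G s A j ∩ G (s + j))).2
    rw [ih (by omega), cfg_congr nb η0 h (s + j) (by omega), h (s + j) (by omega)]

theorem visU_congr {U U' : ℕ → List (Lab V d)} {T : ℕ} (h : ∀ t < T, U t = U' t)
    (G : ℕ → Set (Pos d)) (s : ℕ) (A : Set (Pos d)) (j : ℕ) (hj : s + j < T) :
    visU nb pr η0 U G s A j = visU nb pr η0 U' G s A j := by
  unfold visU
  rw [inf_congr nb pr η0 h G s A j (by omega), cfg_congr nb η0 h (s + j) (by omega), h (s + j) hj]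

/-- localisation of the region of `visU` -/
theorem visU_region {U : ℕ → List (Lab V d)} {B : Set (Pos d)} {s : ℕ} {A : Set (Pos d)} (h0 : A ⊆ B)
    (j : ℕ) (h : ∀ i ≤ j, visU nb pr η0 U (fun _ => Set.univ) s A i ⊆ B) :
    visU nb pr η0 U (fun _ => Set.univ) s A j ⊆ visU nb pr η0 U (fun _ => B) s A j := by
  rintro z ⟨i, hi, hz⟩
  have h1 : inf nb pr η0 U (fun _ => B) s A j = inf nb pr η0 U (fun _ => Set.univ) s A j := by
    have := inf_inter (nb := nb) (pr := pr) (η0 := η0) (U := U) (G := fun _ => Set.univ)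
      (H := fun _ => B) (s := s) (A := A) h0 j (fun i hi => h i (by omega))
    simpa only [Set.univ_inter] using this
  have h2 : inf nb pr η0 U (fun _ => Set.univ) s A j ∩ B =
      inf nb pr η0 U (fun _ => Set.univ) s A j ∩ Set.univ := by
    ext z
    constructor
    · exact fun hz => ⟨hz.1, trivial⟩
    · exact fun hz => ⟨hz.1, h j le_rfl ⟨0, Nat.zero_le _, hz⟩⟩
  have h3 := foldl_stepR_inter (nb := nb) (pr := pr) (G := Set.univ) (H := B) ((U (s + j)).take i)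
    (cfg nb η0 U (s + j)) (inf nb pr η0 U (fun _ => Set.univ) s A j ∩ Set.univ) ?_
  · refine ⟨i, hi, ?_⟩
    rw [h1, h2]
    rw [Set.univ_inter] at h3
    rw [h3]
    exact hz
  · intro i' hi' z hz
    refine h j le_rfl ⟨min i' i, by omega, ?_⟩
    rw [List.take_take] at hz
    exact hz

end det

/-- the infection that stays in the region `B` is the infection restricted to `B` -/
theorem vis_region {E : Env d} {B : Set (Pos d)} {s t : ℕ} {x : Pos d} (hx : x ∈ B)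
    (h : ∀ y, E.vis (fun _ => Set.univ) s x t y → y ∈ B) {b : Pos d}
    (hb : E.vis (fun _ => Set.univ) s x t b) : E.vis (fun _ => B) s x t b := by
  obtain ⟨j, hj, hb⟩ := hb
  refine ⟨j, hj, visU_region E.nb E.pr E.η0 (by rintro _ rfl; exact hx) j ?_ hb⟩
  intro i hi y hy
  exact h y ⟨i, by omega, hy⟩

theorem vis_mono_t {E : Env d} {G : ℕ → Set (Pos d)} {s t t' : ℕ} {x b : Pos d} (h : t ≤ t')
    (hb : E.vis G s x t b) : E.vis G s x t' b := by
  obtain ⟨j, hj, hb⟩ := hb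
  exact ⟨j, by omega, hb⟩

theorem EqEnv_vis {E E' : Env d} (h : EqEnv E E') {G : ℕ → Set (Pos d)} {s t : ℕ} {x b : Pos d} :
    E.vis G s x t b ↔ E'.vis G s x t b := by
  unfold Env.vis
  constructor
  · rintro ⟨j, hj, hb⟩
    exact ⟨j, hj, by rw [← h.vis]; exact hb⟩
  · rintro ⟨j, hj, hb⟩
    exact ⟨j, hj, by rw [h.vis]; exact hb⟩

section clocks

variable {Ω : Type} [MeasurableSpace Ω] {P : Measure Ω} (C : Clocks m d P)

theorem envC_vis_T (M K T T' : ℕ) (h : T ≤ T') (ω : Ω) {G : ℕ → Set (Pos d)} {s t : ℕ} {x b : Pos d}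
    (ht : t ≤ T) : (envC C M K T ω).vis G s x t b ↔ (envC C M K T' ω).vis G s x t b := by
  have hU : ∀ t < T, (envC C M K T ω).U t = (envC C M K T' ω).U t := by
    intro t ht
    have h1 : (envC C M K T ω).U t =
        (ringList (C.ring ω) (torLab d M K) t (t + 1)).map (fun l => (tv l.1, l.2)) := if_pos ht
    have h2 : (envC C M K T' ω).U t =
        (ringList (C.ring ω) (torLab d M K) t (t + 1)).map (fun l => (tv l.1, l.2)) :=
      if_pos (lt_of_lt_of_le ht h)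
    exact h1.trans h2.symm
  constructor
  · rintro ⟨j, hj, hb⟩
    refine ⟨j, hj, ?_⟩
    have := visU_congr (nbT (d := d) (M := M)) tv (fun v => C.η0 ω (lft v)) hU G s {x} j (by omega)
    exact this ▸ hb
  · rintro ⟨j, hj, hb⟩
    refine ⟨j, hj, ?_⟩
    have := visU_congr (nbT (d := d) (M := M)) tv (fun v => C.η0 ω (lft v)) hU G s {x} j (by omega)
    exact this ▸ hb

end clocks


theorem supn_le_of_nrm {v : Pos d} {N : ℕ} (h : nrm v ≤ N) : supn v ≤ N := by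
  refine Finset.sup_le fun j _ => ?_
  have h1 := C5.abs_le_nrm v j
  have h2 : ((v j).natAbs : ℝ) = |(v j : ℝ)| := by
    rw [Nat.cast_natAbs, Int.cast_abs]
  have h3 : ((v j).natAbs : ℝ) ≤ (N : ℝ) := by rw [h2]; linarith
  exact_mod_cast h3

/-- the infection from the origin is fast -/
def Fast (Cv r : ℕ) (T : ℕ) (E : Env d) : Prop :=
  ∃ y, E.vis (fun _ => Set.univ) 0 0 T y ∧ (Cv : ℝ) * T + r < nrm (y - 0)

/-- the ball of radius `4 N` -/
def bl (d N : ℕ) : Set (Pos d) := {x | supn x ≤ 4 * N}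

theorem region_of_slow {E : Env d} {Cv r T N : ℕ} (h : ¬ Fast Cv r T E) (hN : Cv * T + r ≤ 4 * N)
    (y : Pos d) (hy : E.vis (fun _ => Set.univ) 0 0 T y) : y ∈ bl d N := by
  have h1 : nrm y ≤ (4 * N : ℕ) := by
    by_contra h2
    push Not at h2
    refine h ⟨y, hy, ?_⟩
    rw [sub_zero]
    refine lt_of_le_of_lt ?_ h2
    exact_mod_cast hN
  exact supn_le_of_nrm h1

section clocks

variable {Ω : Type} [MeasurableSpace Ω] {P : Measure Ω} (C : Clocks m d P)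

/-- the infection in the torus is confined to the ball -/
theorem vis_bl {M K T N Cv r : ℕ} {ω : Ω} (hTN : T ≤ N) (h : ¬ Fast Cv r T (envC C M K T ω))
    (hN : Cv * T + r ≤ 4 * N) {t : ℕ} (ht : t ≤ T) {b : Pos d}
    (hb : (envC C M K N ω).vis (fun _ => Set.univ) 0 0 t b) :
    (envC C M K N ω).vis (fun _ => bl d N) 0 0 t b := by
  refine vis_region ?_ ?_ hb
  · show supn (0 : Pos d) ≤ 4 * N
    refine Finset.sup_le fun j _ => ?_
    simp
  · intro y hy
    refine region_of_slow h hN y ?_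
    exact vis_mono_t ht ((envC_vis_T C M K T N hTN ω ht).2 hy)

end clocks

section clocks

variable {Ω : Type} [MeasurableSpace Ω] {P : Measure Ω}

theorem tot_small [IsProbabilityMeasure P] (C : Clocks m d P) (R : ℕ) (e : ℝ≥0∞) (he : 0 < e) :
    ∃ K0 : ℕ, ∀ K ≥ K0, P {ω | K < tot C R ω} ≤ e := by
  have hm : Measurable (fun ω => tot C R ω) := by
    unfold tot
    exact Finset.measurable_fun_sum _ (fun x _ => C.η0_meas x)
  have h1 : Antitone (fun K : ℕ => {ω | K < tot C R ω}) :=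
    fun K K' h ω (hω : K' < tot C R ω) => lt_of_le_of_lt h hω
  have h2 := tendsto_measure_iInter_atTop (μ := P) (s := fun K : ℕ => {ω | K < tot C R ω})
    (fun K => (hm measurableSet_Ioi).nullMeasurableSet) h1 ⟨0, measure_ne_top _ _⟩
  have h3 : (⋂ K : ℕ, {ω | K < tot C R ω}) = ∅ := by
    ext ω
    simp only [Set.mem_iInter, Set.mem_ofPred_eq, Set.mem_empty_iff_false, iff_false, not_forall]
    exact ⟨tot C R ω, lt_irrefl _⟩
  rw [h3, measure_empty] at h2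
  obtain ⟨K0, h4⟩ := Filter.eventually_atTop.1 (h2.eventually (gt_mem_nhds he))
  exact ⟨K0, fun K hK => (h4 K hK).le⟩

end clocks

/-- a polynomial times `D ^ n / n!` is at most `exp (- n)` eventually -/
theorem small (K E D : ℕ) : ∃ n0 : ℕ, ∀ n ≥ n0,
    (K : ℝ) * (n : ℝ) ^ E * ((D : ℝ) ^ (n + 1) / n.factorial) ≤ Real.exp (-n) := by
  obtain ⟨r0, h1⟩ := T1.growth (K * D) E 1 one_pos
  have h2 := FloorSemiring.tendsto_pow_div_factorial_atTop (Real.exp 1 ^ 2 * (D : ℝ))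
  have h3 := h2.eventually (gt_mem_nhds (show (0 : ℝ) < 1 by norm_num))
  obtain ⟨n1, h4⟩ := Filter.eventually_atTop.1 h3
  refine ⟨max r0 n1, fun n hn => ?_⟩
  have h5 := h1 n (le_trans (le_max_left _ _) hn)
  have h6 := h4 n (le_trans (le_max_right _ _) hn)
  have h7 : (K : ℝ) * D * (n : ℝ) ^ E ≤ Real.exp n := by
    refine le_trans ?_ (le_trans h5 (by rw [one_mul]))
    push_cast
    have : (n : ℝ) ^ E ≤ (2 * (n : ℝ)) ^ E := by
      gcongr
      have : (0 : ℝ) ≤ n := Nat.cast_nonneg n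
      linarith
    gcongr
  have h8 : Real.exp (-n) * ((Real.exp 1 ^ 2 * (D : ℝ)) ^ n / n.factorial) ≤ Real.exp (-n) :=
    mul_le_of_le_one_right (Real.exp_pos _).le h6.le
  refine le_trans (le_of_eq_of_le ?_ (mul_le_mul_of_nonneg_right h7
    (show (0 : ℝ) ≤ (D : ℝ) ^ n / n.factorial by positivity))) (le_trans (le_of_eq ?_) h8)
  · rw [pow_succ]; ring
  · have h9 : (Real.exp 1 ^ 2) ^ n = Real.exp n * Real.exp n := by
      rw [← pow_mul, ← Real.exp_nat_mul, ← Real.exp_add]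
      congr 1
      push_cast
      ring
    rw [mul_pow, h9, Real.exp_neg]
    field_simp

theorem g_lb (m : Model) (k : ℕ) : m.Gm * k ≤ m.g k := by
  induction k with
  | zero => simp [m.g0]
  | succ k ih =>
    have := m.inc_lb k
    push_cast
    linarith

theorem g_big (m : Model) : ∃ n0 : ℕ, ∀ n ≥ n0, 2 * m.φ ≤ m.g n := by
  obtain ⟨n0, h⟩ := exists_nat_ge (2 * m.φ / m.Gm)
  refine ⟨n0, fun n hn => le_trans ?_ (g_lb m n)⟩
  have h1 : (n0 : ℝ) ≤ n := by exact_mod_cast hn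
  rw [div_le_iff₀ m.Gm_pos] at h
  nlinarith [m.Gm_pos]

/-- the error of the killed box -/
theorem kill_small (C L : ℕ) : ∃ n0 : ℕ, ∀ n ≥ n0,
    (C : ℝ) * (((n ^ 4 / 4 : ℕ) : ℝ) + 1) ^ C *
      Real.exp (C * ((L * n ^ 2 : ℕ) : ℝ) - ((n ^ 4 / 4 : ℕ) : ℝ) / 4) ≤ Real.exp (-n) := by
  obtain ⟨r0, h1⟩ := T1.growth C (4 * C) 1 one_pos
  refine ⟨max r0 (16 * (C * L + 3) + 4), fun n hn => ?_⟩
  have hn1 : 16 * (C * L + 3) + 4 ≤ n := le_trans (le_max_right _ _) hn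
  have h2 := h1 n (le_trans (le_max_left _ _) hn)
  rw [one_mul] at h2
  have hnR : (16 * ((C : ℝ) * L + 3) + 4) ≤ (n : ℝ) := by exact_mod_cast hn1
  have hCL : (0 : ℝ) ≤ (C : ℝ) * L := by positivity
  have hn4 : (4 : ℝ) ≤ n := by linarith
  have e1 : ((n ^ 4 / 4 : ℕ) : ℝ) ≤ (n : ℝ) ^ 4 / 4 := by
    have := Nat.cast_div_le (α := ℝ) (m := n ^ 4) (n := 4)
    push_cast at this
    exact this
  have e2 : (n : ℝ) ^ 4 / 4 - 1 ≤ ((n ^ 4 / 4 : ℕ) : ℝ) := by
    have h3 : n ^ 4 < 4 * (n ^ 4 / 4) + 4 := by omega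
    have h4 : ((n ^ 4 : ℕ) : ℝ) < ((4 * (n ^ 4 / 4) + 4 : ℕ) : ℝ) := by exact_mod_cast h3
    rw [Nat.cast_add, Nat.cast_mul, Nat.cast_pow] at h4
    push_cast at h4 ⊢
    linarith
  have e3 : ((n ^ 4 / 4 : ℕ) : ℝ) + 1 ≤ (n : ℝ) ^ 4 := by
    have : (4 : ℝ) ^ 4 ≤ (n : ℝ) ^ 4 := by gcongr
    linarith
  have e4 : (((n ^ 4 / 4 : ℕ) : ℝ) + 1) ^ C ≤ (2 * (n : ℝ)) ^ (4 * C) := by
    rw [pow_mul]
    gcongr
    refine e3.trans ?_
    gcongr
    linarith
  have e5 : (C : ℝ) * ((L * n ^ 2 : ℕ) : ℝ) - ((n ^ 4 / 4 : ℕ) : ℝ) / 4 ≤ -n + -n := by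
    push_cast
    have h5 : 16 * ((C : ℝ) * L + 3) ≤ (n : ℝ) ^ 2 := by nlinarith
    have h6 : 16 * ((C : ℝ) * L + 3) * (n : ℝ) ^ 2 ≤ (n : ℝ) ^ 2 * (n : ℝ) ^ 2 := by gcongr
    have h7 : (n : ℝ) ^ 2 * (n : ℝ) ^ 2 = (n : ℝ) ^ 4 := by ring
    have h8 : (n : ℝ) ≤ (n : ℝ) ^ 2 := by nlinarith
    push_cast at e2
    nlinarith
  calc (C : ℝ) * (((n ^ 4 / 4 : ℕ) : ℝ) + 1) ^ C *
      Real.exp (C * ((L * n ^ 2 : ℕ) : ℝ) - ((n ^ 4 / 4 : ℕ) : ℝ) / 4)
      ≤ (C : ℝ) * (2 * (n : ℝ)) ^ (4 * C) * Real.exp (-n + -n) := by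
        gcongr
    _ ≤ Real.exp n * Real.exp (-n + -n) := by
        gcongr
    _ = Real.exp (-n) := by
        rw [← Real.exp_add]
        congr 1
        ring

theorem err_big (A D : ℕ) : ∃ n0 : ℕ, ∀ k : ℕ, n0 ≤ 2 ^ k →
    (D : ℝ≥0∞) * ENNReal.ofReal (Real.exp (-((2 ^ k : ℕ) : ℝ))) ≤ err (rr A k) := by
  refine ⟨2 * D + 4, fun k hk => ?_⟩
  set n : ℕ := 2 ^ k with hn
  have hnR : (2 * (D : ℝ) + 4) ≤ n := by exact_mod_cast hk
  have hD : (0 : ℝ) ≤ D := Nat.cast_nonneg D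
  have h1 : ((rr A k : ℕ) : ℝ) ≤ n := by
    have : rr A k ≤ n := Nat.pow_le_pow_right (by norm_num) (Nat.div_le_self k A)
    exact_mod_cast this
  have h2 : Real.sqrt (rr A k) ≤ n / 2 := by
    rw [Real.sqrt_le_left (by positivity)]
    nlinarith
  unfold err
  rw [show (D : ℝ≥0∞) = ENNReal.ofReal (D : ℝ) by rw [ENNReal.ofReal_natCast],
    ← ENNReal.ofReal_mul hD]
  refine ENNReal.ofReal_le_ofReal ?_
  have h3 : (D : ℝ) ≤ Real.exp ((n : ℝ) / 2) := by
    have := Real.add_one_le_exp ((n : ℝ) / 2)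
    linarith
  calc (D : ℝ) * Real.exp (-n) ≤ Real.exp ((n : ℝ) / 2) * Real.exp (-n) := by gcongr
    _ = Real.exp (- ((n : ℝ) / 2)) := by
        rw [← Real.exp_add]; congr 1; ring
    _ ≤ Real.exp (- Real.sqrt (rr A k)) := by
        gcongr

end ZI.F1c
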