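import Pool.Agent.ZI.C3b

/-! # Row C3, third part: the induction over the windows -/

set_option autoImplicit false

open scoped ENNReal BigOperators Classical

noncomputable section

namespace ZI.C3

open ZI ZI.Rows Plain Fz R5a

variable {d : ℕ} {m : Model} (q : Par d m) (r : ℕ) (st : Bool) (ρ : ℝ)

theorem FP_not_dens (hd : 0 < d) (t : ℕ) (ht : 1 ≤ t) (s : St d q.M) (h : ¬ Dens r s.1) :
    FP q r st ρ (t * q.N1) s = 0 := by
  refine le_antisymm ?_ zero_le
  rw [← PrE_false q hd (t * q.N1) (fun _ => False) (fun _ h => h)]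
  refine PrE_mono q.w _ fun l hl hh => h ?_
  have h1 := hh.1 0 (by rw [hl, zero_mul]; exact Nat.mul_pos ht q.N1_pos)
  rw [zero_mul, List.take_zero] at h1
  exact h1

theorem exp_half_le : Real.exp (1 / 2) ≤ 2 := by
  have h7 : Real.exp (1 / 2) ^ 2 = Real.exp 1 := by
    rw [← Real.exp_nat_mul]
    congr 1
    norm_num
  have h8 := Real.exp_one_lt_d9
  have h9 := Real.exp_pos (1 / 2)
  nlinarith

theorem main (hd : 0 < d) (es : Pos d → Dir d)
    (hes : ∀ v : Pos d, v ≠ 0 → sqn (v + dv (es v)) ≤ sqn v - nrm v / d)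
    (θ : ℝ) (r1 W0 W1 : ℕ) (q0 q1 b0 b1 : ℝ)
    (hθ0 : 0 < θ) (hθ1 : θ ≤ 1) (hr1 : 0 < r1) (hθr : θ * r1 ≤ 1) (hρM : ρ < q.M) (hρ0 : 0 ≤ ρ)
    (hW0 : 1 ≤ W0) (hW01 : W0 ≤ W1) (hq0 : 0 ≤ q0) (hq1 : 0 ≤ q1) (hq1' : q1 ≤ 1)
    (hb0 : b0 ≤ r1 / 2) (hb1 : b1 + r1 ≤ ρ)
    (hbonus : ∀ s0, valid st s0 → Dens r s0.1 → ENNReal.ofReal q0 ≤ PrE q.w (W0 * q.N1)
      (BonusIn (fun s : St d q.M => s.1) (fun s => s.2.1) (fun s => es (DD s)) (sb es st) s0))
    (hdisp0 : ∀ s0 : St d q.M, PrE q.w (W0 * q.N1) (HitsBefore (sp st) (fun s' => ¬ act st s')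
      (fun s' => b0 ≤ nrm (DD s' - DD s0)) s0) ≤ ENNReal.ofReal (q0 / 2))
    (hhit : ∀ s0 : St d q.M, nrm (DD s0) ≤ r1 → ENNReal.ofReal q1 ≤ PrE q.w (W1 * q.N1)
      (Hits (sp st) (fun s => DD s = 0 ∨ ¬ act st s) s0))
    (hdisp1 : ∀ s0 : St d q.M, PrE q.w (W1 * q.N1) (HitsBefore (sp st) (fun s' => ¬ act st s')
      (fun s' => b1 ≤ nrm (DD s' - DD s0)) s0) ≤ ENNReal.ofReal (q1 / 2))
    (hc6 : (8 * m.Gp + 1) * W0 * (64 * d) ≤ r1 * q0)
    (hc7 : (8 * m.Gp + 1) * (θ ^ 2 * W1) ≤ q1 / 8) :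
    ∀ (t : ℕ) (s : St d q.M), valid st s → FP q r st ρ (t * q.N1) s ≤
      ENNReal.ofReal ((Real.exp (θ ^ 2 * (1 - t / W1)) + 4 * W1 / (θ ^ 2 * FF θ ρ)) *
        fz θ (DD s)) := by
  have hGp := Gp_pos m
  have hd' : (1 : ℝ) ≤ d := by exact_mod_cast hd
  have hFF := FF_pos θ ρ
  have hW1 : (1 : ℝ) ≤ W1 := by exact_mod_cast hW0.trans hW01
  have hW0' : (1 : ℝ) ≤ W0 := by exact_mod_cast hW0
  have hW01' : (W0 : ℝ) ≤ W1 := by exact_mod_cast hW01
  have hr1' : (0 : ℝ) < r1 := by exact_mod_cast hr1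
  have hθ2 : 0 < θ ^ 2 := by positivity
  have hθ21 : θ ^ 2 ≤ 1 := by nlinarith
  set E : ℝ := 4 * W1 / (θ ^ 2 * FF θ ρ) with hE
  have hE0 : 0 ≤ E := by positivity
  have hx1 : 4 * m.Gp * θ ^ 2 * W1 ≤ 1 / 2 := by
    have h1 : 0 ≤ θ ^ 2 * W1 := by positivity
    nlinarith
  intro t
  induction t using Nat.strong_induction_on with
  | _ t ih =>
  intro s hs
  have hf1 := one_le_fz θ (DD s)
  have hf0 := fz_pos θ (DD s)
  by_cases ht : t < W1
  · -- trivial
    refine (FP_le_one q r st ρ hd _ s).trans ?_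
    rw [← ENNReal.ofReal_one]
    refine ENNReal.ofReal_le_ofReal ?_
    have ht' : (t : ℝ) ≤ W1 := by exact_mod_cast ht.le
    have h1 : (t : ℝ) / W1 ≤ 1 := by rw [div_le_one (by linarith)]; exact ht'
    have h2 : 1 ≤ Real.exp (θ ^ 2 * (1 - t / W1)) :=
      Real.one_le_exp (mul_nonneg hθ2.le (by linarith))
    nlinarith
  have ht1 : W1 ≤ t := not_lt.mp ht
  by_cases hdens : Dens r s.1
  swap
  · rw [FP_not_dens q r st ρ hd t (by omega) s hdens]
    exact zero_le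
  by_cases hnear : nrm (DD s) < r1
  · -- near window
    have ih' := ih (t - W1) (by omega)
    set e1 : ℝ := Real.exp (θ ^ 2 * (1 - ((t - W1 : ℕ) : ℝ) / W1)) with he1
    have he10 : 0 < e1 := Real.exp_pos _
    have h1 := win_near q r st ρ hd θ (e1 + E) hθ0.le hθ1 (by positivity) hρM hρ0
      ((t - W1) * q.N1) (W1 * q.N1) ih' s hs q1 b1 (by linarith) hq1 (hhit s hnear.le) (hdisp1 s)
    have h2 := FP_le_QQ q r st ρ W1 ((t - W1) * q.N1) s
    have e0 : W1 * q.N1 + (t - W1) * q.N1 = t * q.N1 := by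
      rw [← add_mul]
      congr 1
      omega
    rw [e0] at h2
    refine h2.trans (h1.trans (ENNReal.ofReal_le_ofReal ?_))
    have hf4 : fz θ (DD s) ≤ 4 := by
      rw [fz_eq]
      have h3 := FF_le θ (nrm (DD s)) hθ0.le (nrm_nonneg _)
      have h4 : θ * nrm (DD s) ≤ 1 := by
        have := mul_le_mul_of_nonneg_left hnear.le hθ0.le
        linarith
      have h5 := Real.exp_le_exp.mpr h4
      have h6 := Real.exp_one_lt_d9
      linarith
    have hfin := fin_real ((1 + 4 * d * (m.Gp / d) * q.p * θ ^ 2) ^ (W1 * q.N1))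
      (4 * m.Gp * θ ^ 2 * W1) (θ ^ 2) (q1 / 8) e1 E (e1 + E) (FF θ ρ) (fz θ (DD s))
      (growth q hd θ W1) (by positivity) hx1 (by nlinarith) hθ2.le hθ21 rfl he10.le hE0 hFF
      (by
        have : E * θ ^ 2 = 4 * W1 / FF θ ρ := by rw [hE]; field_simp
        rw [this]
        exact div_le_div_of_nonneg_right (by linarith) hFF.le) hf0.le
    have e2 : e1 * Real.exp (-(θ ^ 2)) = Real.exp (θ ^ 2 * (1 - t / W1)) := by
      rw [he1, ← Real.exp_add]
      congr 1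
      rw [Nat.cast_sub ht1]
      field_simp
      ring
    rw [e2] at hfin
    have h3 : (e1 + E) * (q1 / 8 * fz θ (DD s)) ≤ (e1 + E) * (q1 / 2) := by
      refine mul_le_mul_of_nonneg_left ?_ (by positivity)
      have := mul_le_mul_of_nonneg_left hf4 (by linarith : 0 ≤ q1 / 8)
      linarith
    nlinarith
  have hfar : (r1 : ℝ) ≤ nrm (DD s) := not_lt.mp hnear
  by_cases hin : nrm (DD s) + r1 / 2 ≤ ρ
  · -- far window
    have ih' := ih (t - W0) (by omega)
    set e1 : ℝ := Real.exp (θ ^ 2 * (1 - ((t - W0 : ℕ) : ℝ) / W1)) with he1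
    have he10 : 0 < e1 := Real.exp_pos _
    have h1 := win_far q r st ρ hd es hes θ r1 (e1 + E) hθ0.le hθ1 hr1' hθr (by positivity) hρM hρ0
      ((t - W0) * q.N1) (W0 * q.N1) ih' s hs hfar hin q0 b0 hq0 hb0 (hbonus s hs hdens) (hdisp0 s)
    have h2 := FP_le_QQ q r st ρ W0 ((t - W0) * q.N1) s
    have e0 : W0 * q.N1 + (t - W0) * q.N1 = t * q.N1 := by
      rw [← add_mul]
      congr 1
      omega
    rw [e0] at h2
    refine h2.trans (h1.trans (ENNReal.ofReal_le_ofReal ?_))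
    have hyle : θ ^ 2 * (W0 / W1) ≤ θ ^ 2 * W0 := by
      refine mul_le_mul_of_nonneg_left ?_ hθ2.le
      rw [div_le_iff₀ (by linarith)]
      nlinarith
    have hy1 : θ ^ 2 * (W0 / W1 : ℝ) ≤ 1 := by
      have : (W0 / W1 : ℝ) ≤ 1 := by rw [div_le_one (by linarith)]; exact hW01'
      have h0 : (0 : ℝ) ≤ W0 / W1 := by positivity
      nlinarith
    have hfin := fin_real ((1 + 4 * d * (m.Gp / d) * q.p * θ ^ 2) ^ (W0 * q.N1))
      (4 * m.Gp * θ ^ 2 * W0) (θ ^ 2 * (W0 / W1)) (θ ^ 2 * r1 / (16 * d) * q0 / 4) e1 E (e1 + E)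
      (FF θ ρ) (fz θ (DD s))
      (growth q hd θ W0) (by positivity) (by
        have h3 : 4 * m.Gp * θ ^ 2 * W0 ≤ 4 * m.Gp * θ ^ 2 * W1 :=
          mul_le_mul_of_nonneg_left hW01' (by positivity)
        linarith) (by
        have h3 : 2 * (4 * m.Gp * θ ^ 2 * W0) + θ ^ 2 * (W0 / W1) ≤
            θ ^ 2 * ((8 * m.Gp + 1) * W0) := by
          have : θ ^ 2 * ((8 * m.Gp + 1) * W0) = 2 * (4 * m.Gp * θ ^ 2 * W0) + θ ^ 2 * W0 := by ring
          rw [this]
          linarith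
        refine h3.trans ?_
        have h4 : (8 * m.Gp + 1) * W0 ≤ r1 * q0 / (64 * d) := by
          rw [le_div_iff₀ (by positivity)]
          exact hc6
        calc θ ^ 2 * ((8 * m.Gp + 1) * W0) ≤ θ ^ 2 * (r1 * q0 / (64 * d)) :=
              mul_le_mul_of_nonneg_left h4 hθ2.le
          _ = θ ^ 2 * r1 / (16 * d) * q0 / 4 := by field_simp; ring)
      (by positivity) hy1 rfl he10.le hE0 hFF
      (by
        have : E * (θ ^ 2 * (W0 / W1)) = 4 * W0 / FF θ ρ := by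
          rw [hE]
          have : (W1 : ℝ) ≠ 0 := by linarith
          field_simp
        rw [this]
        exact div_le_div_of_nonneg_right (by linarith) hFF.le) hf0.le
    have e2 : e1 * Real.exp (-(θ ^ 2 * (W0 / W1))) = Real.exp (θ ^ 2 * (1 - t / W1)) := by
      rw [he1, ← Real.exp_add]
      congr 1
      rw [Nat.cast_sub (hW01.trans ht1)]
      field_simp
      ring
    rw [e2] at hfin
    exact hfin
  · -- close to the boundary
    refine (FP_le_one q r st ρ hd _ s).trans ?_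
    rw [← ENNReal.ofReal_one]
    refine ENNReal.ofReal_le_ofReal ?_
    have h1 : FF θ ρ ≤ 2 * fz θ (DD s) := by
      rw [fz_eq]
      rcases le_or_gt ρ (nrm (DD s)) with h2 | h2
      · have := FF_mono θ hρ0 h2
        have := FF_pos θ (nrm (DD s))
        linarith
      · have h3 := FF_lip θ hθ0.le h2.le
        have h4 : θ * (ρ - nrm (DD s)) ≤ 1 / 2 := by
          have h5 : ρ - nrm (DD s) ≤ r1 / 2 := by linarith [not_le.mp hin]
          have := mul_le_mul_of_nonneg_left h5 hθ0.le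
          linarith
        have h5 := (Real.exp_le_exp.mpr h4).trans exp_half_le
        have h6 := FF_pos θ (nrm (DD s))
        have := mul_le_mul_of_nonneg_left h5 h6.le
        linarith
    have h2 : 1 ≤ E * fz θ (DD s) := by
      have h3 : E * fz θ (DD s) = (4 * W1 / θ ^ 2) * (fz θ (DD s) / FF θ ρ) := by
        rw [hE]; field_simp
      have h4 : 4 ≤ 4 * W1 / θ ^ 2 := by
        rw [le_div_iff₀ hθ2]
        nlinarith
      have h5 : 1 / 2 ≤ fz θ (DD s) / FF θ ρ := by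
        rw [le_div_iff₀ hFF]
        linarith
      rw [h3]
      nlinarith
    have h3 : 0 < Real.exp (θ ^ 2 * (1 - t / W1)) := Real.exp_pos _
    nlinarith

end ZI.C3
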