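import Pool.Agent.ZI.C2
import Pool.Agent.ZI.C3c

/-! # Row C3: the chase (paper 3.4) -/

set_option autoImplicit false

open scoped ENNReal BigOperators Classical

noncomputable section

namespace ZI

open ZI.Rows Plain Fz R5a

namespace C3

theorem ev_exp (B C : ℝ) (hC : 0 < C) (k : ℕ) :
    ∃ r0 : ℕ, ∀ r : ℕ, r0 ≤ r → B * (r : ℝ) ^ k * Real.exp (-(r : ℝ) / C) ≤ 1 := by
  have h1 : Filter.Tendsto (fun r : ℕ => ((r : ℝ) / C)) Filter.atTop Filter.atTop :=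
    tendsto_natCast_atTop_atTop.atTop_div_const hC
  have h2 := (Real.tendsto_pow_mul_exp_neg_atTop_nhds_zero k).comp h1
  have h3 : Filter.Tendsto (fun r : ℕ => B * C ^ k * (((r : ℝ) / C) ^ k * Real.exp (-((r : ℝ) / C))))
      Filter.atTop (nhds (B * C ^ k * 0)) := h2.const_mul _
  rw [mul_zero] at h3
  have h4 := h3.eventually (gt_mem_nhds (zero_lt_one' ℝ))
  obtain ⟨r0, hr0⟩ := Filter.eventually_atTop.mp h4
  refine ⟨r0, fun r hr => ?_⟩
  have h5 := (hr0 r hr).le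
  have e1 : B * C ^ k * (((r : ℝ) / C) ^ k * Real.exp (-((r : ℝ) / C))) =
      B * (r : ℝ) ^ k * Real.exp (-(r : ℝ) / C) := by
    rw [div_pow, neg_div]
    field_simp
  rw [e1] at h5
  exact h5

/-- the final estimate -/
theorem final_real (R n y T : ℝ) (a1 a2 : ℕ) (hR : 2 ≤ R) (hn : 0 ≤ n)
    (hT : (n + 1) * R ^ (2 * a2 + 2 * a1 + 3) ≤ T)
    (hy : y ≤ Real.exp ((1 / R ^ a2) * n))
    (hK : 24 * R ^ (2 * a1 + 1 + 2 * a2) * Real.exp (-R) ≤ 1) :
    (Real.exp ((1 / R ^ a2) ^ 2 * (1 - T / R ^ (2 * a1 + 1))) +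
      4 * R ^ (2 * a1 + 1) / ((1 / R ^ a2) ^ 2 *
        FF (1 / R ^ a2) (n + R ^ (2 * a2 + 2 * a1 + 3)))) * y ≤ Real.exp (-R) := by
  have hR0 : 0 < R := by linarith
  have hR1 : 1 ≤ R := by linarith
  set θ : ℝ := 1 / R ^ a2 with hθ
  have hθ0 : 0 < θ := by positivity
  have hθ1 : θ ≤ 1 := by
    rw [hθ, div_le_one (by positivity)]
    exact one_le_pow₀ hR1
  have hRR : 2 * R ≤ R ^ 2 := by nlinarith
  have hθn : θ * n ≤ n := by nlinarith
  -- first term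
  have h1 : (n + 1) * R ^ 2 ≤ θ ^ 2 * (T / R ^ (2 * a1 + 1)) := by
    have e1 : (n + 1) * R ^ 2 = θ ^ 2 * ((n + 1) * R ^ (2 * a2 + 2 * a1 + 3) / R ^ (2 * a1 + 1)) := by
      rw [hθ]
      have e2 : R ^ (2 * a2 + 2 * a1 + 3) = R ^ a2 * R ^ a2 * R ^ (2 * a1 + 1) * R ^ 2 := by ring
      rw [e2]
      field_simp
    rw [e1]
    refine mul_le_mul_of_nonneg_left ?_ (by positivity)
    exact div_le_div_of_nonneg_right hT (by positivity)
  have h2 : Real.exp (θ ^ 2 * (1 - T / R ^ (2 * a1 + 1))) * y ≤ Real.exp (-R) / 2 := by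
    have h3 : θ ^ 2 ≤ 1 := by nlinarith
    have h4 : θ ^ 2 * (1 - T / R ^ (2 * a1 + 1)) + θ * n ≤ -R - 1 := by
      have e3 : θ ^ 2 * (1 - T / R ^ (2 * a1 + 1)) = θ ^ 2 - θ ^ 2 * (T / R ^ (2 * a1 + 1)) := by ring
      rw [e3]
      nlinarith
    calc Real.exp (θ ^ 2 * (1 - T / R ^ (2 * a1 + 1))) * y
        ≤ Real.exp (θ ^ 2 * (1 - T / R ^ (2 * a1 + 1))) * Real.exp (θ * n) :=
          mul_le_mul_of_nonneg_left hy (Real.exp_pos _).le
      _ = Real.exp (θ ^ 2 * (1 - T / R ^ (2 * a1 + 1)) + θ * n) := by rw [Real.exp_add]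
      _ ≤ Real.exp (-R - 1) := Real.exp_le_exp.mpr h4
      _ ≤ Real.exp (-R) / 2 := by
          have h5 : Real.exp (-R) = Real.exp (-R - 1) * Real.exp 1 := by
            rw [← Real.exp_add]
            congr 1
            ring
          have h6 : 2 ≤ Real.exp 1 := by linarith [Real.add_one_le_exp (1 : ℝ)]
          have h7 := mul_le_mul_of_nonneg_left h6 (Real.exp_pos (-R - 1)).le
          rw [h5]
          linarith
  -- second term
  have h3 : 4 * R ^ (2 * a1 + 1) / (θ ^ 2 * FF θ (n + R ^ (2 * a2 + 2 * a1 + 3))) * y ≤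
      Real.exp (-R) / 2 := by
    set F : ℝ := FF θ (n + R ^ (2 * a2 + 2 * a1 + 3)) with hF
    have hF0 : 0 < F := FF_pos _ _
    have hF1 : Real.exp (θ * (n + R ^ (2 * a2 + 2 * a1 + 3)) - 1) ≤ F := le_FF _ _
    have h4 : R ^ 2 ≤ θ * R ^ (2 * a2 + 2 * a1 + 3) := by
      have e2 : θ * R ^ (2 * a2 + 2 * a1 + 3) = R ^ (a2 + 2 * a1 + 3) := by
        rw [hθ]
        have e3 : R ^ (2 * a2 + 2 * a1 + 3) = R ^ a2 * R ^ (a2 + 2 * a1 + 3) := by ring
        rw [e3]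
        field_simp
      rw [e2]
      exact pow_le_pow_right₀ hR1 (by omega)
    have h5 : y / F ≤ Real.exp 1 * (Real.exp (-R) * Real.exp (-R)) := by
      rw [div_le_iff₀ hF0]
      have h6 : Real.exp (θ * n) ≤ Real.exp (1 + -R + -R) *
          Real.exp (θ * (n + R ^ (2 * a2 + 2 * a1 + 3)) - 1) := by
        rw [← Real.exp_add]
        refine Real.exp_le_exp.mpr ?_
        nlinarith
      have e4 : Real.exp (1 + -R + -R) = Real.exp 1 * (Real.exp (-R) * Real.exp (-R)) := by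
        rw [Real.exp_add, Real.exp_add, mul_assoc]
      rw [e4] at h6
      refine hy.trans (h6.trans ?_)
      exact mul_le_mul_of_nonneg_left hF1 (by positivity)
    have e5 : 4 * R ^ (2 * a1 + 1) / (θ ^ 2 * F) * y = 4 * R ^ (2 * a1 + 1 + 2 * a2) * (y / F) := by
      rw [hθ]
      have e6 : R ^ (2 * a1 + 1 + 2 * a2) = R ^ (2 * a1 + 1) * R ^ a2 * R ^ a2 := by ring
      rw [e6]
      field_simp
    rw [e5]
    have h7 : Real.exp 1 ≤ 3 := by linarith [Real.exp_one_lt_d9]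
    have hE := Real.exp_pos (-R)
    have hP : 0 < R ^ (2 * a1 + 1 + 2 * a2) := by positivity
    calc 4 * R ^ (2 * a1 + 1 + 2 * a2) * (y / F)
        ≤ 4 * R ^ (2 * a1 + 1 + 2 * a2) * (Real.exp 1 * (Real.exp (-R) * Real.exp (-R))) :=
          mul_le_mul_of_nonneg_left h5 (by positivity)
      _ ≤ 4 * R ^ (2 * a1 + 1 + 2 * a2) * (3 * (Real.exp (-R) * Real.exp (-R))) := by
          refine mul_le_mul_of_nonneg_left ?_ (by positivity)
          exact mul_le_mul_of_nonneg_right h7 (by positivity)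
      _ = (24 * R ^ (2 * a1 + 1 + 2 * a2) * Real.exp (-R)) * (Real.exp (-R) / 2) := by ring
      _ ≤ 1 * (Real.exp (-R) / 2) := mul_le_mul_of_nonneg_right hK (by positivity)
      _ = Real.exp (-R) / 2 := one_mul _
  rw [add_mul]
  linarith

end C3

open C3

theorem chase (m : Model) (d : ℕ) (hd : 0 < d) : ∃ c : ℕ, ∃ r0 : ℕ, ∀ r ≥ r0, ∀ (q : Par d m)
    (η : Tor d q.M → ℕ) (x : Pos d) (P : Pos d × ℕ) (st : Bool), 0 < η (tv x) →
    (st = false → P.2 < η (tv P.1)) → nrm (x - P.1) + (r : ℝ) ^ c + 1 ≤ q.M → ∀ t : ℕ,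
    (nrm (x - P.1) + 1) * (r : ℝ) ^ c ≤ t →
    PrE q.w (t * q.N1) (fun l => DensAt r q.N1 η l ∧ ¬ Chase st (nrm (x - P.1) + (r : ℝ) ^ c) η x P l)
      ≤ ENNReal.ofReal (Real.exp (- (r : ℝ))) := by
  have hd' : (1 : ℝ) ≤ d := by exact_mod_cast hd
  have hGm := m.Gm_pos
  have hGp := Gp_pos m
  have hcpos : 0 < m.Gp / (d : ℝ) := by positivity
  have hcm : 0 < m.Gm / (2 * (d : ℝ)) := by positivity
  have hcle : m.Gm / (2 * (d : ℝ)) ≤ m.Gp / d := by
    rw [div_le_div_iff₀ (by positivity) (by positivity)]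
    have h1 : m.Gm ≤ m.Gp := m.Gm_le.trans m.le_Gp
    nlinarith
  obtain ⟨Cb, hCb, Hb⟩ := bonus m d hd
  obtain ⟨Ch, hCh, Hh⟩ := walk_hit d hd (m.Gm / (2 * d)) (m.Gp / d) hcm hcle
  obtain ⟨Cd, hCd, Hd⟩ := walk_disp d (m.Gp / d) hcpos
  choose es hes using fun v : Pos d => exists_dir hd v
  set a1 : ℕ := Cb + 6 with ha1
  set a2 : ℕ := 2 * a1 + 1 + a1 * Ch with ha2
  have hCd' : (0 : ℝ) < Cd := by exact_mod_cast hCd
  have hCb' : (1 : ℝ) ≤ Cb := by exact_mod_cast hCb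
  have hCh' : (1 : ℝ) ≤ Ch := by exact_mod_cast hCh
  obtain ⟨rA, hrA⟩ := ev_exp (2 * Cb * Cd) Cd hCd' Cb
  obtain ⟨rB, hrB⟩ := ev_exp (2 * Ch * Cd) Cd hCd' (a1 * Ch)
  obtain ⟨rC, hrC⟩ := ev_exp 24 1 one_pos (2 * a1 + 1 + 2 * a2)
  obtain ⟨rD, hrD⟩ := exists_nat_ge ((8 * m.Gp + 1) * (64 * d) * Cb)
  obtain ⟨rE, hrE⟩ := exists_nat_ge (8 * (8 * m.Gp + 1) * Ch)
  refine ⟨2 * a2 + 2 * a1 + 3, rA + rB + rC + rD + rE + Cb + 2 * Ch + 2, ?_⟩
  intro r hr q η x P st hx hP hM t ht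
  set R : ℝ := (r : ℝ) with hR
  have hR2 : 2 ≤ R := by
    have : 2 ≤ r := by omega
    rw [hR]; exact_mod_cast this
  have hR1 : 1 ≤ R := by linarith
  have hR0 : 0 < R := by linarith
  have hRb : (Cb : ℝ) ≤ R := by
    have : Cb ≤ r := by omega
    rw [hR]; exact_mod_cast this
  have hRh : 2 * (Ch : ℝ) ≤ R := by
    have : 2 * Ch ≤ r := by omega
    rw [hR]; exact_mod_cast this
  have hRD : (8 * m.Gp + 1) * (64 * d) * Cb ≤ R := by
    refine hrD.trans ?_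
    have : rD ≤ r := by omega
    rw [hR]; exact_mod_cast this
  have hRE : 8 * (8 * m.Gp + 1) * Ch ≤ R := by
    refine hrE.trans ?_
    have : rE ≤ r := by omega
    rw [hR]; exact_mod_cast this
  have hA := hrA r (by omega)
  have hB := hrB r (by omega)
  have hC := hrC r (by omega)
  rw [← hR] at hA hB hC
  rw [div_one] at hC
  have hn := nrm_nonneg (x - P.1)
  set ρ : ℝ := nrm (x - P.1) + R ^ (2 * a2 + 2 * a1 + 3) with hρ
  set θ : ℝ := 1 / R ^ a2 with hθ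
  have hθ0 : 0 < θ := by positivity
  have hθ1 : θ ≤ 1 := by
    rw [hθ, div_le_one (by positivity)]
    exact one_le_pow₀ hR1
  have hcR : ∀ k : ℕ, k ≤ 2 * a2 + 2 * a1 + 3 → R ^ k ≤ ρ := by
    intro k hk
    have := pow_le_pow_right₀ hR1 hk
    rw [hρ]
    linarith
  have hp := q.p_pos
  have hw := sum_w q hd
  have hsym := sym q hd st
  have hsym0 : SymW q.w (sp (K := q.K) st) DD (act st) 0 (m.Gp / d) q.p := by
    intro s hs
    obtain ⟨κ, h1, h2, h3⟩ := hsym s hs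
    exact ⟨κ, hcm.le.trans h1, h2, h3⟩
  have hNp : ∀ W : ℕ, ((W * q.N1 : ℕ) : ℝ) * q.p ≤ W := by
    intro W
    push_cast
    have h1 := q.p_ub
    have h2 := mul_le_mul_of_nonneg_left h1 (Nat.cast_nonneg (α := ℝ) W)
    linarith
  have hNp' : ∀ W : ℕ, (W : ℝ) / 2 ≤ ((W * q.N1 : ℕ) : ℝ) * q.p := by
    intro W
    push_cast
    have h1 := q.p_lb
    have h2 := mul_le_mul_of_nonneg_left h1 (Nat.cast_nonneg (α := ℝ) W)
    linarith
  -- the main estimate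
  have hmain := main q r st ρ hd es hes θ (r ^ a1) (r ^ 3) (r ^ (2 * a1 + 1))
    (1 / (Cb * R ^ Cb)) (1 / (Ch * ((r ^ a1 : ℕ) : ℝ) ^ Ch)) (R * Real.sqrt ((r ^ 3 : ℕ) : ℝ))
    (R * Real.sqrt ((r ^ (2 * a1 + 1) : ℕ) : ℝ)) hθ0 hθ1 (Nat.pow_pos (by omega)) ?_ ?_ ?_
    (Nat.one_le_pow _ _ (by omega)) (Nat.pow_le_pow_right (by omega) (by omega)) (by positivity)
    (by positivity) ?_ ?_ ?_ ?_ ?_ ?_ ?_ ?_ ?_ t (η, x, P) ⟨hx, hP⟩
  · -- conclusion
    refine le_trans ?_ (hmain.trans (ENNReal.ofReal_le_ofReal ?_))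
    · exact le_rfl
    · have hfe := final_real R (nrm (x - P.1)) (fz θ (x - P.1)) t a1 a2 hR2 hn ht
        (by rw [fz_eq]; exact FF_le _ _ hθ0.le hn) hC
      push_cast
      exact hfe
  · -- θ r1 ≤ 1
    push_cast
    rw [hθ, ← hR, one_div, inv_mul_le_iff₀ (by positivity), mul_one]
    exact pow_le_pow_right₀ hR1 (by omega)
  · -- ρ < M
    linarith
  · -- 0 ≤ ρ
    positivity
  · -- q1 ≤ 1
    push_cast
    rw [← hR, div_le_one (by positivity)]
    have h1 : 1 ≤ (R ^ a1) ^ Ch := one_le_pow₀ (one_le_pow₀ hR1)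
    nlinarith
  · -- b0 ≤ r1 / 2
    push_cast
    rw [← hR]
    have h1 : Real.sqrt (R ^ 3) ≤ R ^ 2 := by
      rw [Real.sqrt_le_left (by positivity)]
      calc R ^ 3 ≤ R ^ 4 := pow_le_pow_right₀ hR1 (by norm_num)
        _ = (R ^ 2) ^ 2 := by ring
    have h2 : R ^ 6 ≤ R ^ a1 := pow_le_pow_right₀ hR1 (by omega)
    have h3 : R * Real.sqrt (R ^ 3) ≤ R * R ^ 2 := mul_le_mul_of_nonneg_left h1 hR0.le
    have h4 : 2 * R ^ 3 ≤ R ^ 6 := by
      have e1 : R ^ 6 = R ^ 3 * R ^ 3 := by ring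
      have h5 : R ≤ R ^ 3 := le_self_pow₀ hR1 (by norm_num)
      have h6 : 0 < R ^ 3 := by positivity
      rw [e1]
      exact mul_le_mul_of_nonneg_right (hR2.trans h5) h6.le
    have e2 : R * R ^ 2 = R ^ 3 := by ring
    linarith
  · -- b1 + r1 ≤ ρ
    push_cast
    rw [← hR]
    have h1 : Real.sqrt (R ^ (2 * a1 + 1)) ≤ R ^ (a1 + 1) := by
      rw [Real.sqrt_le_left (by positivity)]
      calc R ^ (2 * a1 + 1) ≤ R ^ (2 * (a1 + 1)) := pow_le_pow_right₀ hR1 (by omega)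
        _ = (R ^ (a1 + 1)) ^ 2 := by rw [← pow_mul, mul_comm 2]
    have h3 : R * Real.sqrt (R ^ (2 * a1 + 1)) ≤ R * R ^ (a1 + 1) :=
      mul_le_mul_of_nonneg_left h1 hR0.le
    have e1 : R * R ^ (a1 + 1) = R ^ (a1 + 2) := by ring
    have h4 : R ^ a1 ≤ R ^ (a1 + 2) := pow_le_pow_right₀ hR1 (by omega)
    have h5 : 2 * R ^ (a1 + 2) ≤ R ^ (a1 + 3) := by
      have e2 : R ^ (a1 + 3) = R * R ^ (a1 + 2) := by ring
      rw [e2]
      exact mul_le_mul_of_nonneg_right hR2 (by positivity)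
    have h6 := hcR (a1 + 3) (by omega)
    linarith
  · -- the bonus
    intro s0 hs0 hdens
    obtain ⟨v, hv0, hvr, hvo⟩ := hdens s0.2.1
    refine Hb q (St d q.M) (fun s => s.1) (fun s => s.2.1) (fun s => es (DD s)) (sb es st)
      (fun _ _ => rfl) (fun _ _ => rfl) r (by omega) ?_ s0 v hs0.1 hv0 hvr hvo (r ^ 3) ?_
    · have h1 := hcR 2 (by omega)
      have h2 : 2 * R ≤ R ^ 2 := by nlinarith
      have h3 : ((2 * r : ℕ) : ℝ) < q.M := by
        push_cast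
        rw [← hR]
        linarith
      exact_mod_cast h3
    · have : r ^ 3 = r * r ^ 2 := by ring
      rw [this]
      exact Nat.mul_le_mul_right _ (by omega)
  · -- displacement, short window
    intro s0
    refine (Hd (St d q.M) _ q.w (sp st) DD (act st) q.p hp (hp2 q hd) hw hsym0 s0
      (r ^ 3 * q.N1) ((r ^ 3 : ℕ) : ℝ) R ?_ (hNp _) hR0.le).trans (ENNReal.ofReal_le_ofReal ?_)
    · exact_mod_cast Nat.one_le_pow _ _ (by omega)
    · rw [div_div, le_div_iff₀ (by positivity)]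
      calc Cd * Real.exp (-R / Cd) * (Cb * R ^ Cb * 2) =
          2 * Cb * Cd * R ^ Cb * Real.exp (-R / Cd) := by ring
        _ ≤ 1 := hA
  · -- hitting
    intro s0 hs0
    refine Hh (St d q.M) _ q.w (sp st) DD (act st) q.p hp (hp2 q hd) hw hsym (r ^ a1)
      (Nat.one_le_pow _ _ (by omega)) s0 hs0 (r ^ (2 * a1 + 1) * q.N1) ?_
    refine le_trans ?_ (hNp' _)
    push_cast
    rw [← hR]
    have e1 : R ^ (2 * a1 + 1) = R * (R ^ a1) ^ 2 := by ring
    rw [e1]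
    have h1 : 0 < (R ^ a1) ^ 2 := by positivity
    nlinarith
  · -- displacement, long window
    intro s0
    refine (Hd (St d q.M) _ q.w (sp st) DD (act st) q.p hp (hp2 q hd) hw hsym0 s0
      (r ^ (2 * a1 + 1) * q.N1) ((r ^ (2 * a1 + 1) : ℕ) : ℝ) R ?_ (hNp _) hR0.le).trans
      (ENNReal.ofReal_le_ofReal ?_)
    · exact_mod_cast Nat.one_le_pow _ _ (by omega)
    · push_cast
      rw [← hR, ← pow_mul, div_div, le_div_iff₀ (by positivity)]
      calc Cd * Real.exp (-R / Cd) * (Ch * R ^ (a1 * Ch) * 2) =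
          2 * Ch * Cd * R ^ (a1 * Ch) * Real.exp (-R / Cd) := by ring
        _ ≤ 1 := hB
  · -- gain of the far window
    push_cast
    rw [← hR]
    have e1 : R ^ a1 * (1 / (Cb * R ^ Cb)) = R ^ 6 / Cb := by
      have : R ^ a1 = R ^ Cb * R ^ 6 := by rw [ha1, pow_add]
      rw [this]
      field_simp
    rw [e1, le_div_iff₀ (by linarith)]
    have h1 : (8 * m.Gp + 1) * (64 * d) * Cb ≤ R ^ 3 := hRD.trans (le_self_pow₀ hR1 (by norm_num))
    have h2 : 0 < R ^ 3 := by positivity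
    calc (8 * m.Gp + 1) * R ^ 3 * (64 * d) * Cb = ((8 * m.Gp + 1) * (64 * d) * Cb) * R ^ 3 := by ring
      _ ≤ R ^ 3 * R ^ 3 := mul_le_mul_of_nonneg_right h1 h2.le
      _ = R ^ 6 := by ring
  · -- gain of the near window
    push_cast
    rw [← hR, ← pow_mul, div_div, le_div_iff₀ (by positivity), hθ]
    have e1 : (8 * m.Gp + 1) * ((1 / R ^ a2) ^ 2 * R ^ (2 * a1 + 1)) * (Ch * R ^ (a1 * Ch) * 8) =
        (8 * (8 * m.Gp + 1) * Ch) * (R ^ (2 * a1 + 1) * R ^ (a1 * Ch)) / (R ^ a2 * R ^ a2) := by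
      field_simp
    have e2 : R ^ (2 * a1 + 1) * R ^ (a1 * Ch) = R ^ a2 := by rw [← pow_add]
    rw [e1, e2, div_le_one (by positivity)]
    refine mul_le_mul_of_nonneg_right (hRE.trans ?_) (by positivity)
    exact le_self_pow₀ hR1 (by omega)

end ZI
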