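import Pool.Agent.ZI.Ev1
import Pool.Agent.ZI.R1
import Pool.Agent.ZI.R2
import Pool.Agent.ZI.D1
import Pool.Agent.ZI.PPc
import Pool.Agent.ZI.C4
import Pool.Agent.ZI.C5
import Pool.Agent.ZI.C6
import Pool.Agent.ZI.C3

/-! # T1: the good event has a probability close to one -/

set_option autoImplicit false

open scoped ENNReal BigOperators Classical

noncomputable section

namespace ZI.Rows

open ZI

variable {d : ℕ}

namespace T1

open D1



/-! ### translations by multiples of the side -/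

section shift

variable {M K : ℕ} (c : Pos d) (hc : (tv c : Tor d M) = 0)

include hc

theorem tv_shift (x : Pos d) : (tv (x + c) : Tor d M) = tv x := by
  rw [tv_add, hc, add_zero]

theorem mkr_shift (η : Tor d M → ℕ) (P : Pos d × ℕ) (l : Lab (Tor d M) d) :
    mkr η (P.1 + c, P.2) l = ((mkr η P l).1 + c, (mkr η P l).2) := by
  unfold mkr
  simp only [tv_shift c hc]
  split_ifs
  · simp [add_right_comm]
  · rfl
  · rfl
  · rfl

theorem mkrA_shift (η : Tor d M → ℕ) (P : Pos d × ℕ) (a : Let d M K) :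
    mkrA η (P.1 + c, P.2) a = ((mkrA η P a).1 + c, (mkrA η P a).2) := by
  unfold mkrA
  cases h : toLab a with
  | none => rfl
  | some l => exact mkr_shift c hc η P l

theorem mk_shift (L : List (Let d M K)) : ∀ (η : Tor d M → ℕ) (P : Pos d × ℕ),
    L.foldl mk (η, (P.1 + c, P.2)) =
      ((L.foldl mk (η, P)).1, ((L.foldl mk (η, P)).2.1 + c, (L.foldl mk (η, P)).2.2)) := by
  induction L with
  | nil => intro η P; rfl
  | cons a L ih =>
    intro η P
    rw [List.foldl_cons, List.foldl_cons]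
    show L.foldl mk (stepA η a, mkrA η (P.1 + c, P.2) a) = _
    rw [mkrA_shift c hc, ih]

theorem infMv_shift (η : Tor d M → ℕ) (A B : Set (Pos d)) (h : ∀ z ∈ A, z + c ∈ B)
    (l : Lab (Tor d M) d) : ∀ z ∈ infMv nbT tv η A l, z + c ∈ infMv nbT tv η B l := by
  intro z hz
  unfold infMv at hz ⊢
  split_ifs with he
  · rw [if_pos he] at hz
    rcases hz with ⟨h1, h2⟩ | ⟨h1, h2, h3⟩
    · refine Or.inl ⟨h _ h1, ?_⟩
      rw [tv_shift c hc]
      exact h2
    · refine Or.inr ⟨?_, ?_, ?_⟩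
      · rw [show z + c - dv l.2.2 = (z - dv l.2.2) + c by abel]
        exact h _ h1
      · rw [show z + c - dv l.2.2 = (z - dv l.2.2) + c by abel, tv_shift c hc]
        exact h2
      · rw [tv_shift c hc]
        exact h3
  · rw [if_neg he] at hz
    exact h _ hz

theorem legal_shift (η : Tor d M → ℕ) (a : Let d M K) (x x' : Pos d) (h : x' ∈ legal η a x) :
    x' + c ∈ legal η a (x + c) := by
  unfold legal at h ⊢
  cases h' : toLab a with
  | none =>
    rw [h'] at h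
    have h1 : x' = x := h
    rw [h1]
    exact rfl
  | some l =>
    rw [h'] at h
    refine infMv_shift c hc η {x} {x + c} ?_ l x' h
    rintro z rfl
    exact rfl

theorem chase_shift (st : Bool) (ρ : ℝ) (L : List (Let d M K)) :
    ∀ (η : Tor d M → ℕ) (x : Pos d) (P : Pos d × ℕ), Chase st ρ η x P L →
    Chase st ρ η (x + c) (P.1 + c, P.2) L := by
  induction L with
  | nil =>
    intro η x P h
    have h1 : x = P.1 := h
    show x + c = P.1 + c
    rw [h1]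
  | cons a L ih =>
    rintro η x P ⟨h0, h⟩
    refine ⟨by simpa using h0, ?_⟩
    rcases h with h | ⟨x', hx', h⟩
    · exact Or.inl (by rw [h])
    · refine Or.inr ⟨x' + c, legal_shift c hc η a x x' hx', ?_⟩
      have h1 := ih _ _ _ h
      have h2 : tgt st η (P.1 + c, P.2) a = ((tgt st η P a).1 + c, (tgt st η P a).2) := by
        cases st
        · simpa [tgt] using mkrA_shift c hc η P a
        · simp [tgt]
      rw [h2]
      exact h1

theorem fold_shift (L : List (Let d M K)) : ∀ (η : Tor d M → ℕ) (A B : Set (Pos d)),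
    (∀ z ∈ A, z + c ∈ B) → ∀ z ∈ (L.foldl (stepRA Set.univ) (η, A)).2,
      z + c ∈ (L.foldl (stepRA Set.univ) (η, B)).2 := by
  induction L with
  | nil => intro η A B h; exact h
  | cons a L ih =>
    intro η A B h
    rw [List.foldl_cons, List.foldl_cons]
    unfold stepRA
    cases h' : toLab a with
    | none =>
      exact ih η A B h
    | some l =>
      refine ih _ _ _ ?_
      rintro z ⟨hz, -⟩
      exact ⟨infMv_shift c hc η A B h l z hz, trivial⟩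

end shift

/-! ### deterministic facts -/

section det

variable {M K : ℕ}

/-- every particle at the end of a word comes from a particle at its start -/
theorem trace (hM : 2 ≤ M) (L : List (Let d M K)) : ∀ (η : Tor d M → ℕ) (Q : Pos d × ℕ),
    Q.2 < L.foldl stepA η (tv Q.1) → ∃ P : Pos d × ℕ, P.2 < η (tv P.1) ∧ (L.foldl mk (η, P)).2 = Q := by
  induction L with
  | nil => intro η Q h; exact ⟨Q, h, rfl⟩
  | cons a L ih =>
    intro η Q h
    rw [List.foldl_cons] at h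
    obtain ⟨P', hP', h'⟩ := ih _ Q h
    obtain ⟨P, hP, hP2⟩ : ∃ P : Pos d × ℕ, P.2 < η (tv P.1) ∧ mkrA η P a = P' := by
      unfold stepA at hP'
      unfold mkrA
      cases hl : toLab a with
      | none =>
        rw [hl] at hP'
        exact ⟨P', hP', rfl⟩
      | some l =>
        rw [hl] at hP'
        exact mkr_surj hM η l P' hP'
    refine ⟨P, hP, ?_⟩
    rw [List.foldl_cons]
    show (L.foldl mk (stepA η a, mkrA η P a)).2 = Q
    rw [hP2, h']

theorem chase_mono (st : Bool) {ρ ρ' : ℝ} (h : ρ ≤ ρ') (L : List (Let d M K)) :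
    ∀ (η : Tor d M → ℕ) (x : Pos d) (P : Pos d × ℕ), Chase st ρ η x P L → Chase st ρ' η x P L := by
  induction L with
  | nil => intro η x P h; exact h
  | cons a L ih =>
    rintro η x P ⟨h0, h1⟩
    refine ⟨h0.trans h, ?_⟩
    rcases h1 with h1 | ⟨x', hx', h1⟩
    · exact Or.inl h1
    · exact Or.inr ⟨x', hx', ih _ _ _ h1⟩

theorem take_filterMap {α β : Type} (f : α → Option β) (L : List α) : ∀ i ≤ (L.filterMap f).length,
    ∃ k ≤ L.length, (L.filterMap f).take i = (L.take k).filterMap f := by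
  induction L with
  | nil => intro i hi; exact ⟨0, le_refl _, by simp⟩
  | cons a L ih =>
    intro i hi
    cases h : f a with
    | none =>
      rw [List.filterMap_cons_none h] at hi ⊢
      obtain ⟨k, hk, h1⟩ := ih i hi
      refine ⟨k + 1, by simpa using hk, ?_⟩
      rw [h1, List.take_succ_cons, List.filterMap_cons_none h]
    | some b =>
      rw [List.filterMap_cons_some h] at hi ⊢
      cases i with
      | zero => exact ⟨0, Nat.zero_le _, by simp⟩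
      | succ i =>
        obtain ⟨k, hk, h1⟩ := ih i (by simpa using hi)
        refine ⟨k + 1, by simpa using hk, ?_⟩
        rw [List.take_succ_cons, h1, List.take_succ_cons, List.filterMap_cons_some h]

/-- the infection from `x` on the letters after the time `s`, after `k` letters -/
def infL (N1 : ℕ) (η0 : Tor d M → ℕ) (w : List (Let d M K)) (G : Set (Pos d)) (s : ℕ) (x : Pos d)
    (k : ℕ) : Set (Pos d) :=
  (((w.drop (s * N1)).take k).foldl (stepRA G)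
    ((w.take (s * N1)).foldl stepA η0,
      {z | z ∈ ({x} : Set (Pos d)) ∧ z ∈ G ∧ 0 < (w.take (s * N1)).foldl stepA η0 (tv z)})).2

theorem infL_mul (N1 : ℕ) (η0 : Tor d M → ℕ) (w : List (Let d M K)) (G : Set (Pos d)) (s : ℕ)
    (x : Pos d) (j : ℕ) :
    infL N1 η0 w G s x (j * N1) = inf nbT tv η0 (units N1 w) (fun _ => G) s {x} j :=
  congrArg Prod.snd (inf_eq N1 η0 w G s {x} j)

theorem infL_add (N1 : ℕ) (η0 : Tor d M → ℕ) (w : List (Let d M K)) (G : Set (Pos d)) (s : ℕ)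
    (x : Pos d) (j k : ℕ) (hk : k ≤ N1) :
    infL N1 η0 w G s x (j * N1 + k) =
      ((((w.drop ((s + j) * N1)).take N1).take k).foldl (stepRA G)
        (cfg nbT η0 (units N1 w) (s + j), inf nbT tv η0 (units N1 w) (fun _ => G) s {x} j ∩ G)).2 := by
  have h1 := inf_eq N1 η0 w G s {x} j
  have hsub : inf nbT tv η0 (units N1 w) (fun _ => G) s {x} j ⊆ G := by
    have h3 := foldl_stepRA_sub G ((w.drop (s * N1)).take (j * N1))
      ((w.take (s * N1)).foldl stepA η0,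
        {z | z ∈ ({x} : Set (Pos d)) ∧ z ∈ G ∧ 0 < (w.take (s * N1)).foldl stepA η0 (tv z)})
      (fun z hz => hz.2.1)
    rw [h1] at h3
    exact h3
  unfold infL
  rw [List.take_add, List.foldl_append, h1, List.drop_drop]
  have h2 : s * N1 + j * N1 = (s + j) * N1 := by ring
  rw [h2, Set.inter_eq_left.2 hsub, cfg_eq, List.take_take, min_eq_left hk]

theorem visU_to (N1 : ℕ) (η0 : Tor d M → ℕ) (w : List (Let d M K)) (G : Set (Pos d)) (s : ℕ)
    (x b : Pos d) (j : ℕ) (h : b ∈ visU nbT tv η0 (units N1 w) (fun _ => G) s {x} j) :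
    ∃ k ≤ (j + 1) * N1, b ∈ infL N1 η0 w G s x k := by
  obtain ⟨i, hi, h⟩ := h
  obtain ⟨k, hk, h1⟩ := take_filterMap toLab ((w.drop ((s + j) * N1)).take N1) i hi
  have hk' : k ≤ N1 := le_trans hk (List.length_take_le _ _)
  refine ⟨j * N1 + k, by rw [add_mul]; omega, ?_⟩
  rw [infL_add N1 η0 w G s x j k hk', ← foldl_filterMap, ← h1]
  exact h

theorem to_visU (N1 : ℕ) (η0 : Tor d M → ℕ) (w : List (Let d M K)) (G : Set (Pos d)) (s : ℕ)
    (x b : Pos d) (j k : ℕ) (hk : k ≤ N1) (h : b ∈ infL N1 η0 w G s x (j * N1 + k)) :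
    b ∈ visU nbT tv η0 (units N1 w) (fun _ => G) s {x} j := by
  rw [infL_add N1 η0 w G s x j k hk, ← foldl_filterMap] at h
  set L := (w.drop ((s + j) * N1)).take N1 with hL
  refine ⟨((L.take k).filterMap toLab).length, ?_, ?_⟩
  · show ((L.take k).filterMap toLab).length ≤ (L.filterMap toLab).length
    exact ((List.take_sublist k L).filterMap toLab).length_le
  · have h5 : (L.filterMap toLab).take ((L.take k).filterMap toLab).length
        = (L.take k).filterMap toLab := by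
      conv_lhs => rw [← List.take_append_drop k L, List.filterMap_append]
      rw [List.take_append_drop k L]
      exact List.take_left' rfl
    show b ∈ (((L.filterMap toLab).take ((L.take k).filterMap toLab).length).foldl
      (stepR nbT tv G) (cfg nbT η0 (units N1 w) (s + j),
        inf nbT tv η0 (units N1 w) (fun _ => G) s {x} j ∩ G)).2
    rw [h5]
    exact h

theorem infL_univ_shift (c : Pos d) (hc : (tv c : Tor d M) = 0) (N1 : ℕ) (η0 : Tor d M → ℕ)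
    (w : List (Let d M K)) (s : ℕ) (x y : Pos d) (k : ℕ) (h : y ∈ infL N1 η0 w Set.univ s x k) :
    y + c ∈ infL N1 η0 w Set.univ s (x + c) k := by
  refine fold_shift c hc _ _ _ _ ?_ y h
  rintro z ⟨hz, -, h2⟩
  refine ⟨?_, trivial, ?_⟩
  · have h1 : z = x := hz
    rw [h1]
    exact rfl
  · rw [tv_shift c hc]
    exact h2

end det

/-! ### finite domains -/

/-- fundamental domain -/
def Fd (d M : ℕ) : Finset (Pos d) := Fintype.piFinset (fun _ => Finset.Ico (0 : ℤ) M)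

/-- box -/
def Box (d B : ℕ) : Finset (Pos d) := Fintype.piFinset (fun _ => Finset.Icc (-(B : ℤ)) B)

theorem card_Fd (d M : ℕ) : (Fd d M).card = M ^ d := by
  simp [Fd]

theorem card_Box (d B : ℕ) : (Box d B).card = (2 * B + 1) ^ d := by
  rw [Box, Fintype.card_piFinset]
  simp only [Int.card_Icc, Finset.prod_const, Finset.card_univ, Fintype.card_fin]
  congr 1
  omega

theorem exists_shift {M : ℕ} (hM : 0 < M) (x : Pos d) :
    ∃ c : Pos d, (tv c : Tor d M) = 0 ∧ x + c ∈ Fd d M := by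
  refine ⟨fun j => - (M * (x j / M)), ?_, ?_⟩
  · funext j
    simp [tv]
  · rw [Fd, Fintype.mem_piFinset]
    intro j
    have hM' : (0 : ℤ) < M := by exact_mod_cast hM
    have h1 := Int.emod_nonneg (x j) hM'.ne'
    have h2 := Int.emod_lt_of_pos (x j) hM'
    have h3 : x j % M = x j - M * (x j / M) := Int.emod_def _ _
    rw [Finset.mem_Ico]
    show 0 ≤ x j + - (M * (x j / M)) ∧ x j + - (M * (x j / M)) < M
    constructor <;> linarith

theorem abs_le_nrm (v : Pos d) (j : Fin d) : |(v j : ℝ)| ≤ nrm v := by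
  rw [nrm, ← Real.sqrt_sq_eq_abs]
  exact Real.sqrt_le_sqrt (Finset.single_le_sum (f := fun j => ((v j : ℝ)) ^ 2)
    (fun i _ => sq_nonneg _) (Finset.mem_univ j))

theorem nrm_neg (v : Pos d) : nrm (-v) = nrm v := by
  simp [nrm]

theorem nrm_sub_comm (v w : Pos d) : nrm (v - w) = nrm (w - v) := by
  rw [← nrm_neg, neg_sub]

theorem mem_Box (v : Pos d) (B : ℕ) (h : nrm v ≤ B) : v ∈ Box d B := by
  rw [Box, Fintype.mem_piFinset]
  intro j
  have h1 := (abs_le_nrm v j).trans h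
  rw [abs_le] at h1
  rw [Finset.mem_Icc]
  constructor
  · exact_mod_cast h1.1
  · exact_mod_cast h1.2

/-! ### the bad events of a window -/

section bad

variable {m : Model} (q : Par d m)

/-- a marker moves too far -/
def B2 (r T : ℕ) (η : Tor d q.M → ℕ) (l : List (Let d q.M q.K)) : Prop :=
  ∃ x ∈ Fd d q.M, ∃ k, k < η (tv x) ∧ ∃ i ≤ l.length, ((r : ℝ) / 2) * Real.sqrt T ≤
    nrm (((l.take i).foldl mk (η, (x, k))).2.1 - x)

/-- the chase of a marker fails -/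
def B3 (r c B T : ℕ) (η : Tor d q.M → ℕ) (l : List (Let d q.M q.K)) : Prop :=
  ∃ xv ∈ Fd d q.M ×ˢ Box d B, ∃ k, k < η (tv (xv.1 + xv.2)) ∧ (0 < η (tv xv.1) ∧
    (nrm (xv.1 - (xv.1 + xv.2)) + 1) * (r : ℝ) ^ c ≤ T ∧ DensAt r q.N1 η l ∧
    ¬ Chase false (nrm (xv.1 - (xv.1 + xv.2)) + (r : ℝ) ^ c) η xv.1 (xv.1 + xv.2, k) l)

/-- the chase of a site fails -/
def B3' (r c B T : ℕ) (η : Tor d q.M → ℕ) (l : List (Let d q.M q.K)) : Prop :=
  ∃ xv ∈ Fd d q.M ×ˢ Box d B, (0 < η (tv xv.1) ∧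
    (nrm (xv.1 - (xv.1 + xv.2)) + 1) * (r : ℝ) ^ c ≤ T ∧ DensAt r q.N1 η l ∧
    ¬ Chase true (nrm (xv.1 - (xv.1 + xv.2)) + (r : ℝ) ^ c) η xv.1 (xv.1 + xv.2, 0) l)

/-- the infection is too fast -/
def B4 (r Cv T : ℕ) (η : Tor d q.M → ℕ) (l : List (Let d q.M q.K)) : Prop :=
  ∃ x ∈ Fd d q.M, ∃ y, (∃ k ≤ T * q.N1, y ∈ infL q.N1 η l Set.univ 0 x k) ∧
    (Cv : ℝ) * T + r < nrm (y - x)

/-- bad windows -/
def Bad (r c B Cv T : ℕ) (η : Tor d q.M → ℕ) (l : List (Let d q.M q.K)) : Prop :=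
  B2 q r T η l ∨ B3 q r c B T η l ∨ B3' q r c B T η l ∨ B4 q r Cv T η l

variable {q}

theorem M_pos (q : Par d m) : 0 < q.M := by have := q.M_ge; omega

theorem not_B2 {r T : ℕ} {η : Tor d q.M → ℕ} {l : List (Let d q.M q.K)} (h : ¬ B2 q r T η l)
    (P : Pos d × ℕ) (hP : P.2 < η (tv P.1)) (i : ℕ) (hi : i ≤ l.length) :
    nrm (((l.take i).foldl mk (η, P)).2.1 - P.1) < ((r : ℝ) / 2) * Real.sqrt T := by
  by_contra hcon
  rw [not_lt] at hcon
  obtain ⟨c, hc, hx⟩ := exists_shift (M_pos q) P.1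
  refine h ⟨P.1 + c, hx, P.2, by rw [tv_shift c hc]; exact hP, i, hi, ?_⟩
  rw [mk_shift c hc]
  simpa using hcon

theorem not_B3 {r c B T : ℕ} {η : Tor d q.M → ℕ} {l : List (Let d q.M q.K)}
    (h : ¬ B3 q r c B T η l) (x : Pos d) (P : Pos d × ℕ) (hx : 0 < η (tv x)) (hP : P.2 < η (tv P.1))
    (hB : nrm (P.1 - x) ≤ B) (hT : (nrm (x - P.1) + 1) * (r : ℝ) ^ c ≤ T) (hD : DensAt r q.N1 η l) :
    Chase false (nrm (x - P.1) + (r : ℝ) ^ c) η x P l := by
  by_contra hcon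
  obtain ⟨c', hc', hx'⟩ := exists_shift (M_pos q) x
  have h1 : (x + c') + (P.1 - x) = P.1 + c' := by abel
  have h2 : (x + c') - (P.1 + c') = x - P.1 := by abel
  refine h ⟨(x + c', P.1 - x), Finset.mem_product.2 ⟨hx', mem_Box _ _ hB⟩, P.2, ?_, ?_, ?_, hD, ?_⟩
  · show P.2 < η (tv ((x + c') + (P.1 - x)))
    rw [h1, tv_shift c' hc']
    exact hP
  · show 0 < η (tv (x + c'))
    rw [tv_shift c' hc']
    exact hx
  · show (nrm ((x + c') - ((x + c') + (P.1 - x))) + 1) * (r : ℝ) ^ c ≤ T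
    rw [h1, h2]
    exact hT
  · show ¬ Chase false (nrm ((x + c') - ((x + c') + (P.1 - x))) + (r : ℝ) ^ c) η (x + c')
      ((x + c') + (P.1 - x), P.2) l
    rw [h1, h2]
    intro h3
    apply hcon
    have hc2 : (tv (-c') : Tor d q.M) = 0 := by
      have h5 : (tv (0 - c') : Tor d q.M) = tv 0 - tv c' := tv_sub 0 c'
      rw [zero_sub] at h5
      rw [h5, hc', sub_zero]
      funext j
      simp [tv]
    have h4 := chase_shift (-c') hc2 false _ l η _ _ h3
    have h6 : x + c' + -c' = x := by abel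
    have h7 : P.1 + c' + -c' = P.1 := by abel
    simp only [h6, h7] at h4
    exact h4

theorem not_B3' {r c B T : ℕ} {η : Tor d q.M → ℕ} {l : List (Let d q.M q.K)}
    (h : ¬ B3' q r c B T η l) (x b : Pos d) (hx : 0 < η (tv x))
    (hB : nrm (b - x) ≤ B) (hT : (nrm (x - b) + 1) * (r : ℝ) ^ c ≤ T) (hD : DensAt r q.N1 η l) :
    Chase true (nrm (x - b) + (r : ℝ) ^ c) η x (b, 0) l := by
  by_contra hcon
  obtain ⟨c', hc', hx'⟩ := exists_shift (M_pos q) x
  have h1 : (x + c') + (b - x) = b + c' := by abel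
  have h2 : (x + c') - (b + c') = x - b := by abel
  refine h ⟨(x + c', b - x), Finset.mem_product.2 ⟨hx', mem_Box _ _ hB⟩, ?_, ?_, hD, ?_⟩
  · show 0 < η (tv (x + c'))
    rw [tv_shift c' hc']
    exact hx
  · show (nrm ((x + c') - ((x + c') + (b - x))) + 1) * (r : ℝ) ^ c ≤ T
    rw [h1, h2]
    exact hT
  · show ¬ Chase true (nrm ((x + c') - ((x + c') + (b - x))) + (r : ℝ) ^ c) η (x + c')
      ((x + c') + (b - x), 0) l
    rw [h1, h2]
    intro h3
    apply hcon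
    have hc2 : (tv (-c') : Tor d q.M) = 0 := by
      have h5 : (tv (0 - c') : Tor d q.M) = tv 0 - tv c' := tv_sub 0 c'
      rw [zero_sub] at h5
      rw [h5, hc', sub_zero]
      funext j
      simp [tv]
    have h4 := chase_shift (-c') hc2 true _ l η _ _ h3
    have h6 : x + c' + -c' = x := by abel
    have h7 : b + c' + -c' = b := by abel
    simp only [h6, h7] at h4
    exact h4

theorem not_B4 {r Cv T : ℕ} {η : Tor d q.M → ℕ} {l : List (Let d q.M q.K)}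
    (h : ¬ B4 q r Cv T η l) (x y : Pos d) (k : ℕ) (hk : k ≤ T * q.N1)
    (hy : y ∈ infL q.N1 η l Set.univ 0 x k) : nrm (y - x) ≤ (Cv : ℝ) * T + r := by
  by_contra hcon
  rw [not_le] at hcon
  obtain ⟨c', hc', hx'⟩ := exists_shift (M_pos q) x
  refine h ⟨x + c', hx', y + c', ⟨k, hk, infL_univ_shift c' hc' _ _ _ _ _ _ _ hy⟩, ?_⟩
  simpa using hcon

theorem infL_window (N1 : ℕ) {M K : ℕ} (η : Tor d M → ℕ) (l : List (Let d M K)) (G : Set (Pos d))
    (s T : ℕ) (x : Pos d) (k : ℕ) (hk : k ≤ T * N1) :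
    infL N1 ((l.take (s * N1)).foldl stepA η) ((l.drop (s * N1)).take (T * N1)) G 0 x k =
      infL N1 η l G s x k := by
  unfold infL
  simp only [zero_mul, List.drop_zero, List.take_zero, List.foldl_nil]
  rw [List.take_take, min_eq_left hk]

theorem scale1 {r a c : ℕ} (hr : 2 ≤ r) (ha : 2 * c + 2 ≤ a) {D D' : ℝ} (hD : 0 ≤ D) (T : ℕ)
    (h : (D + 1) * (r : ℝ) ^ a ≤ T) (h' : D' ≤ D + ((r : ℝ) / 2) * Real.sqrt T) :
    (D' + 1) * (r : ℝ) ^ c ≤ T := by
  have hr' : (2 : ℝ) ≤ r := by exact_mod_cast hr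
  have hr1 : (1 : ℝ) ≤ r := by linarith
  have hc0 : (0 : ℝ) ≤ (r : ℝ) ^ c := by positivity
  have h1 : 2 * (r : ℝ) ^ c ≤ (r : ℝ) ^ a := by
    have h2 : (r : ℝ) ^ (c + 1) ≤ (r : ℝ) ^ a := pow_le_pow_right₀ hr1 (by omega)
    rw [pow_succ] at h2
    nlinarith
  have h2 : (r : ℝ) ^ a ≤ T := by
    refine le_trans ?_ h
    have h3 : (0 : ℝ) ≤ (r : ℝ) ^ a := by positivity
    nlinarith
  have h3 : (r : ℝ) ^ (c + 1) ≤ Real.sqrt T := by
    apply Real.le_sqrt_of_sq_le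
    rw [← pow_mul]
    refine le_trans (pow_le_pow_right₀ hr1 (by omega)) h2
  have h4 : Real.sqrt T * Real.sqrt T = T := Real.mul_self_sqrt (Nat.cast_nonneg T)
  have h5 : (0 : ℝ) ≤ Real.sqrt T := Real.sqrt_nonneg _
  have h6 : (D' + 1) * (r : ℝ) ^ c ≤ (D + ((r : ℝ) / 2) * Real.sqrt T + 1) * (r : ℝ) ^ c := by
    gcongr
  have h7 : (r : ℝ) ^ (c + 1) = (r : ℝ) ^ c * r := pow_succ _ _
  have h8 : (D + 1) * (2 * (r : ℝ) ^ c) ≤ T := le_trans (by gcongr) h
  have h9 : Real.sqrt T * (r : ℝ) ^ (c + 1) ≤ Real.sqrt T * Real.sqrt T := by gcongr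
  rw [h7] at h9
  nlinarith

/-- the good event holds if no window is bad -/
theorem good_of (q : Par d m) (η : Tor d q.M → ℕ) (l : List (Let d q.M q.K)) (r a c B Cv n : ℕ)
    (hr : 2 ≤ r) (ha : 2 * c + 2 ≤ a) (hrn : r ≤ n) (hB : 2 * n ^ 2 ≤ B)
    (hlen : l.length = n ^ 2 * q.N1)
    (hD : ∀ s ≤ n ^ 2, Dens r ((l.take (s * q.N1)).foldl stepA η))
    (hW : ∀ s T, 1 ≤ T → s + T ≤ n ^ 2 → ¬ Bad q r c B Cv T ((l.take (s * q.N1)).foldl stepA η)
      ((l.drop (s * q.N1)).take (T * q.N1))) :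
    (envT q η l).Good r (r ^ a) (r ^ a) Cv (n ^ 2) (n ^ 2) := by
  have hM : 2 ≤ q.M := by have := q.M_ge; omega
  have hr1 : (1 : ℝ) ≤ r := by exact_mod_cast (by omega : 1 ≤ r)
  have hocc : ∀ s x, (envT q η l).occ s x ↔ 0 < (l.take (s * q.N1)).foldl stepA η (tv x) := by
    intro s x
    show 0 < cfg nbT η (units q.N1 l) s (tv x) ↔ _
    rw [cfg_eq]
  -- length of a window
  have hwl : ∀ s T, s + T ≤ n ^ 2 → ((l.drop (s * q.N1)).take (T * q.N1)).length = T * q.N1 := by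
    intro s T hsT
    rw [List.length_take, List.length_drop, hlen]
    have h1 : s * q.N1 + T * q.N1 ≤ n ^ 2 * q.N1 := by
      rw [← add_mul]; exact Nat.mul_le_mul_right _ hsT
    omega
  have hadd : ∀ s T, ((l.drop (s * q.N1)).take (T * q.N1)).foldl stepA
      ((l.take (s * q.N1)).foldl stepA η) = (l.take ((s + T) * q.N1)).foldl stepA η := by
    intro s T
    rw [← List.foldl_append]
    congr 1
    rw [add_mul, List.take_add]
  have hDA : ∀ s T, s + T ≤ n ^ 2 → DensAt r q.N1 ((l.take (s * q.N1)).foldl stepA η)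
      ((l.drop (s * q.N1)).take (T * q.N1)) := by
    intro s T hsT s' hs'
    rw [hwl s T hsT] at hs'
    have h1 : s' < T := lt_of_mul_lt_mul_right hs' (Nat.zero_le _)
    rw [List.take_take, min_eq_left (Nat.mul_le_mul_right _ h1.le), hadd]
    exact hD _ (by omega)
  have hT1 : ∀ (D : ℝ) (s t : ℕ), 0 ≤ D → s ≤ t → (D + 1) * ((r ^ a : ℕ) : ℝ) ≤ (t : ℝ) - s →
      1 ≤ t - s ∧ ((t : ℝ) - s) = ((t - s : ℕ) : ℝ) ∧ (D + 1) * (r : ℝ) ^ a ≤ ((t - s : ℕ) : ℝ) := by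
    intro D s t hD0 hst h
    have h1 : ((t : ℝ) - s) = ((t - s : ℕ) : ℝ) := by rw [Nat.cast_sub hst]
    rw [h1] at h
    push_cast at h
    have h2 : (1 : ℝ) ≤ (r : ℝ) ^ a := one_le_pow₀ hr1
    have h3 : (1 : ℝ) ≤ ((t - s : ℕ) : ℝ) := by nlinarith
    exact ⟨by exact_mod_cast h3, h1, h⟩
  refine ⟨?_, ?_, ?_, ?_, ?_⟩
  · intro t ht x
    obtain ⟨v, h1, h2, h3⟩ := hD t ht x
    exact ⟨v, h1, h2, (hocc t _).2 h3⟩
  · intro s t x y hst ht hx hy hxy hT
    obtain ⟨hT1, hTc, hT2⟩ := hT1 _ s t (nrm_nonneg (x - y)) hst hT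
    rw [hocc] at hx hy
    obtain ⟨T, hTe⟩ : ∃ T, t - s = T := ⟨_, rfl⟩
    rw [hTe] at hT1 hTc hT2
    have hsT : s + T = t := by omega
    have hW' := hW s T hT1 (by omega)
    rw [Bad, not_or, not_or, not_or] at hW'
    obtain ⟨w2, w3, -, -⟩ := hW'
    have hy' : (0 : ℕ) < ((l.drop (s * q.N1)).take (T * q.N1)).foldl stepA
      ((l.take (s * q.N1)).foldl stepA η) (tv y) := by rw [hadd, hsT]; exact hy
    obtain ⟨P, hP, hPy⟩ := trace hM _ _ (y, 0) hy'
    have hdisp := not_B2 w2 P hP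
    rw [hwl s T (by omega)] at hdisp
    have hend : nrm (y - P.1) < ((r : ℝ) / 2) * Real.sqrt T := by
      have h1 := hdisp (T * q.N1) (le_refl _)
      rw [List.take_take, min_self, hPy] at h1
      exact h1
    have hxP : nrm (x - P.1) ≤ nrm (x - y) + ((r : ℝ) / 2) * Real.sqrt T := by
      have := nrm_sub_le x y P.1
      linarith
    have hsq : Real.sqrt T ≤ n := by
      rw [Real.sqrt_le_left (Nat.cast_nonneg n)]
      exact_mod_cast (by omega : T ≤ n ^ 2)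
    have hrn' : (r : ℝ) ≤ n := by exact_mod_cast hrn
    have hBox : nrm (P.1 - x) ≤ B := by
      rw [nrm_sub_comm]
      have h1 : ((r : ℝ) / 2) * Real.sqrt T ≤ ((n : ℝ) / 2) * n := by gcongr
      have h2 : (2 : ℝ) * (n : ℝ) ^ 2 ≤ B := by exact_mod_cast hB
      have h3 : nrm (x - y) ≤ (n : ℝ) ^ 2 := by exact_mod_cast hxy
      nlinarith
    have hch := not_B3 w3 x P hx hP hBox (scale1 hr ha (nrm_nonneg _) T hT2 hxP) (hDA s T (by omega))
    have hca : (r : ℝ) ^ c ≤ (r : ℝ) ^ a := pow_le_pow_right₀ hr1 (by omega)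
    have hs0 : 0 ≤ (r : ℝ) * Real.sqrt T := by positivity
    have hch2 := chase_mono false (ρ' := nrm (x - y) + r * (1 + Real.sqrt T) + (r : ℝ) ^ a)
      (by linarith) _ _ _ _ hch
    have hch3 : Chase false (nrm (x - y) + r * (1 + Real.sqrt T) + (r : ℝ) ^ a)
        ((l.take (s * q.N1)).foldl stepA η) x P ((l.drop (s * q.N1)).take ((t - s) * q.N1)) := by
      rw [hTe]; exact hch2
    have hfin := R_of_chase m q η l s t hst (by rw [hlen]; exact Nat.mul_le_mul_right _ ht) x y P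
      (nrm (x - y) + r * (1 + Real.sqrt T) + (r : ℝ) ^ a) (r * (1 + Real.sqrt T))
      (by have := nrm_nonneg (x - y); positivity) hx hP hch3
      (by
        intro i hi
        rw [hTe] at hi
        have h1 := hdisp i hi
        rw [List.take_take, min_eq_left hi] at h1
        have h2 := nrm_sub_le ((((l.drop (s * q.N1)).take i).foldl mk
          ((l.take (s * q.N1)).foldl stepA η, P)).2.1) P.1 y
        rw [nrm_sub_comm P.1 y] at h2
        show nrm ((((l.drop (s * q.N1)).take i).foldl mk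
          ((l.take (s * q.N1)).foldl stepA η, P)).2.1 - y) ≤ _
        nlinarith)
      (by
        rw [hTe]
        exact congrArg Prod.fst hPy)
    have hrad : nrm (x - y) + 2 * r * (1 + Real.sqrt ((t : ℝ) - s)) + ((r ^ a : ℕ) : ℝ) =
        nrm (x - y) + r * (1 + Real.sqrt T) + (r : ℝ) ^ a + r * (1 + Real.sqrt T) := by
      rw [hTc]; push_cast; ring
    rw [hrad]
    exact hfin
  · intro s t x b hst ht hx hxb hT
    obtain ⟨hT1, hTc, hT2⟩ := hT1 _ s t (nrm_nonneg (x - b)) hst hT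
    rw [hocc] at hx
    obtain ⟨T, hTe⟩ : ∃ T, t - s = T := ⟨_, rfl⟩
    rw [hTe] at hT1 hTc hT2
    have hsT : s + T = t := by omega
    have hW' := hW s T hT1 (by omega)
    rw [Bad, not_or, not_or, not_or] at hW'
    obtain ⟨-, -, w3, -⟩ := hW'
    have hBox : nrm (b - x) ≤ B := by
      rw [nrm_sub_comm]
      have h2 : (2 : ℝ) * (n : ℝ) ^ 2 ≤ B := by exact_mod_cast hB
      have h3 : nrm (x - b) ≤ (n : ℝ) ^ 2 := by exact_mod_cast hxb
      nlinarith
    have hch := not_B3' w3 x b hx hBox (scale1 hr ha (nrm_nonneg (x - b)) T hT2 (by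
      have : 0 ≤ ((r : ℝ) / 2) * Real.sqrt T := by positivity
      linarith)) (hDA s T (by omega))
    have hca : (r : ℝ) ^ c ≤ (r : ℝ) ^ a := pow_le_pow_right₀ hr1 (by omega)
    have hch2 := chase_mono true (ρ' := nrm (x - b) + ((r ^ a : ℕ) : ℝ))
      (by push_cast; linarith) _ _ _ _ hch
    refine vis_of_chase m q η l s t (by omega) (by rw [hlen]; exact Nat.mul_le_mul_right _ ht) x b
      _ hx ?_
    rw [hTe]
    exact hch2
  · intro s t x y hst ht hR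
    obtain ⟨j, hj, hy⟩ := hR
    have hy' : y ∈ inf nbT tv η (units q.N1 l) (fun _ => Set.univ) s {x} j := hy
    rcases Nat.eq_zero_or_pos j with h0 | h0
    · subst h0
      have h1 : y = x := hy'.1
      have h2 : (t : ℝ) = s := by rw [hj]; simp
      rw [h1, sub_self, nrm_zero, h2]
      simp
    · have hW' := hW s j h0 (by omega)
      rw [Bad, not_or, not_or, not_or] at hW'
      have h1 := not_B4 hW'.2.2.2 x y (j * q.N1) (le_refl _)
        (by rw [infL_window q.N1 η l Set.univ s j x _ (le_refl _), infL_mul]; exact hy')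
      have h2 : ((t : ℝ) - s) = j := by rw [hj]; push_cast; ring
      rw [h2]
      exact h1
  · intro s t x y hst ht hv
    obtain ⟨j, hj, hy⟩ := hv
    have hy' : y ∈ visU nbT tv η (units q.N1 l) (fun _ => Set.univ) s {x} j := hy
    obtain ⟨k, hk, h1⟩ := visU_to q.N1 η l Set.univ s x y j hy'
    have hW' := hW s (t - s) (by omega) (by omega)
    rw [Bad, not_or, not_or, not_or] at hW'
    have hk' : k ≤ (t - s) * q.N1 := le_trans hk (Nat.mul_le_mul_right _ (by omega))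
    have h2 := not_B4 hW'.2.2.2 x y k hk'
      (by rw [infL_window q.N1 η l Set.univ s (t - s) x k hk']; exact h1)
    have h3 : ((t : ℝ) - s) = ((t - s : ℕ) : ℝ) := by rw [Nat.cast_sub hst]
    rw [h3]
    exact h2

/-! ### probabilities of the bad events -/

theorem PP_B2 (q : Par d m) (C C4 r T : ℕ) (hT : 1 ≤ T)
    (hC : ∀ x : Tor d q.M, ∑' η : Tor d q.M → ℕ, prw (m.m1 q.K) η * (η x : ℝ≥0∞) ≤ C)
    (h4 : ∀ (η : Tor d q.M → ℕ) (P : Pos d × ℕ), P.2 < η (tv P.1) → ∀ (t : ℕ) (y : ℝ), 1 ≤ t →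
      0 ≤ y → PrE q.w (t * q.N1) (fun l => ∃ i ≤ l.length, y * Real.sqrt t ≤
        nrm (((l.take i).foldl mk (η, P)).2.1 - P.1)) ≤ ENNReal.ofReal (C4 * Real.exp (- y / C4))) :
    q.PP (T * q.N1) (B2 q r T) ≤
      ((Fd d q.M).card : ℝ≥0∞) * (C * ENNReal.ofReal (C4 * Real.exp (- ((r : ℝ) / 2) / C4))) := by
  refine PP_markers q (T * q.N1) (Fd d q.M) id
    (fun x k η l => ∃ i ≤ l.length, ((r : ℝ) / 2) * Real.sqrt T ≤
      nrm (((l.take i).foldl mk (η, (x, k))).2.1 - x)) _ _ hC ?_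
  intro x _ k η hk
  exact h4 η (x, k) hk T ((r : ℝ) / 2) hT (by positivity)

theorem cond_M (q : Par d m) {r c T : ℕ} (hr : 1 ≤ r) (hTM : 2 * T ≤ q.M) {D : ℝ} (hD : 0 ≤ D)
    (h : (D + 1) * (r : ℝ) ^ c ≤ T) : D + (r : ℝ) ^ c + 1 ≤ q.M := by
  have h1 : (1 : ℝ) ≤ (r : ℝ) ^ c := one_le_pow₀ (by exact_mod_cast hr)
  have h2 : (2 : ℝ) * T ≤ q.M := by exact_mod_cast hTM
  nlinarith

theorem PP_B3 (q : Par d m) (C c r B T : ℕ) (hr : 1 ≤ r) (hTM : 2 * T ≤ q.M)
    (hC : ∀ x : Tor d q.M, ∑' η : Tor d q.M → ℕ, prw (m.m1 q.K) η * (η x : ℝ≥0∞) ≤ C)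
    (hch : ∀ (η : Tor d q.M → ℕ) (x : Pos d) (P : Pos d × ℕ) (st : Bool), 0 < η (tv x) →
      (st = false → P.2 < η (tv P.1)) → nrm (x - P.1) + (r : ℝ) ^ c + 1 ≤ q.M → ∀ t : ℕ,
      (nrm (x - P.1) + 1) * (r : ℝ) ^ c ≤ t →
      PrE q.w (t * q.N1) (fun l => DensAt r q.N1 η l ∧
        ¬ Chase st (nrm (x - P.1) + (r : ℝ) ^ c) η x P l) ≤ ENNReal.ofReal (Real.exp (- (r : ℝ)))) :
    q.PP (T * q.N1) (B3 q r c B T) ≤
      ((Fd d q.M ×ˢ Box d B).card : ℝ≥0∞) * (C * ENNReal.ofReal (Real.exp (- (r : ℝ)))) := by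
  refine PP_markers q (T * q.N1) (Fd d q.M ×ˢ Box d B) (fun xv => xv.1 + xv.2)
    (fun xv k η l => 0 < η (tv xv.1) ∧
    (nrm (xv.1 - (xv.1 + xv.2)) + 1) * (r : ℝ) ^ c ≤ T ∧ DensAt r q.N1 η l ∧
    ¬ Chase false (nrm (xv.1 - (xv.1 + xv.2)) + (r : ℝ) ^ c) η xv.1 (xv.1 + xv.2, k) l) _ _ hC ?_
  intro xv _ k η hk
  by_cases h : 0 < η (tv xv.1) ∧ (nrm (xv.1 - (xv.1 + xv.2)) + 1) * (r : ℝ) ^ c ≤ T
  · refine le_trans (PrE_mono q.w _ fun l _ hl => hl.2.2) ?_
    exact hch η xv.1 (xv.1 + xv.2, k) false h.1 (fun _ => hk)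
      (cond_M q hr hTM (nrm_nonneg _) h.2) T h.2
  · rw [PrE_zero_of]
    · exact zero_le
    · intro l hl
      exact h ⟨hl.1, hl.2.1⟩

theorem PP_B3' (q : Par d m) (c r B T : ℕ) (hr : 1 ≤ r) (hTM : 2 * T ≤ q.M)
    (hch : ∀ (η : Tor d q.M → ℕ) (x : Pos d) (P : Pos d × ℕ) (st : Bool), 0 < η (tv x) →
      (st = false → P.2 < η (tv P.1)) → nrm (x - P.1) + (r : ℝ) ^ c + 1 ≤ q.M → ∀ t : ℕ,
      (nrm (x - P.1) + 1) * (r : ℝ) ^ c ≤ t →
      PrE q.w (t * q.N1) (fun l => DensAt r q.N1 η l ∧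
        ¬ Chase st (nrm (x - P.1) + (r : ℝ) ^ c) η x P l) ≤ ENNReal.ofReal (Real.exp (- (r : ℝ)))) :
    q.PP (T * q.N1) (B3' q r c B T) ≤
      ((Fd d q.M ×ˢ Box d B).card : ℝ≥0∞) * ENNReal.ofReal (Real.exp (- (r : ℝ))) := by
  refine PP_finset_le q (T * q.N1) (Fd d q.M ×ˢ Box d B) _ _ ?_
  intro xv _
  refine PP_le q _ _ _ fun η => ?_
  by_cases h : 0 < η (tv xv.1) ∧ (nrm (xv.1 - (xv.1 + xv.2)) + 1) * (r : ℝ) ^ c ≤ T
  · refine le_trans (PrE_mono q.w _ fun l _ hl => hl.2.2) ?_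
    exact hch η xv.1 (xv.1 + xv.2, 0) true h.1 (fun hf => by simp at hf)
      (cond_M q hr hTM (nrm_nonneg _) h.2) T h.2
  · rw [PrE_zero_of]
    · exact zero_le
    · intro l hl
      exact h ⟨hl.1, hl.2.1⟩

theorem PP_B4 (q : Par d m) (Cv r T : ℕ) (hT : 1 ≤ T)
    (hf : ∀ x : Pos d, q.PP (T * q.N1) (fun η l => ∃ y, (envT q η l).vis (fun _ => Set.univ) 0 x T y ∧
      (Cv : ℝ) * T + r < nrm (y - x)) ≤ ENNReal.ofReal (Cv * Real.exp (- (r : ℝ)))) :
    q.PP (T * q.N1) (B4 q r Cv T) ≤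
      ((Fd d q.M).card : ℝ≥0∞) * ENNReal.ofReal (Cv * Real.exp (- (r : ℝ))) := by
  have hN := q.N1_pos
  refine PP_finset_le q (T * q.N1) (Fd d q.M) _ _ ?_
  intro x _
  refine le_trans (PP_mono q _ ?_) (hf x)
  rintro η l - ⟨y, ⟨k, hk, hy⟩, h⟩
  refine ⟨y, ?_, h⟩
  obtain ⟨j, k', hj, hk', hjk⟩ : ∃ j k' : ℕ, j < T ∧ k' ≤ q.N1 ∧ k = j * q.N1 + k' := by
    by_cases h : k < T * q.N1
    · refine ⟨k / q.N1, k % q.N1, ?_, (Nat.mod_lt _ hN).le, ?_⟩
      · exact Nat.div_lt_of_lt_mul (by rwa [mul_comm] at h)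
      · rw [mul_comm]; exact (Nat.div_add_mod _ _).symm
    · refine ⟨T - 1, q.N1, by omega, le_refl _, ?_⟩
      have h1 : (T - 1) * q.N1 + q.N1 = T * q.N1 := by
        rw [← Nat.succ_mul]; congr 1; omega
      omega
  refine ⟨j, by omega, ?_⟩
  rw [hjk] at hy
  exact to_visU q.N1 η l Set.univ 0 x y j k' hk' hy

end bad

end T1

open T1 in
/-- the good event (paper 3.7) -/
theorem good_whp (m : Model) (d : ℕ) (hd : 0 < d) : ∃ Cv a0 : ℕ, ∃ c : ℝ, 0 < c ∧ ∀ a ≥ a0, ∀ A : ℕ,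
    4 * a ≤ A → ∃ r0 : ℕ, ∀ r ≥ r0, ∀ n : ℕ, r ^ A ≤ n → n ≤ (2 * r) ^ A → ∀ q : Par d m, q.M = n ^ 4 →
    q.PP (n ^ 2 * q.N1) (fun η l => ¬ (envT q η l).Good r (r ^ a) (r ^ a) Cv (n ^ 2) (n ^ 2)) ≤
      ENNReal.ofReal (Real.exp (- c * r)) := by
  obtain ⟨c3, r3, hch⟩ := chase m d hd
  obtain ⟨C4, hC4, h4⟩ := marker_disp m d
  obtain ⟨Cv, hf⟩ := finite_speed m d
  obtain ⟨C, hC⟩ := mean_bound m
  obtain ⟨c1, hc1, hden⟩ := density m d hd
  have hC4' : (0 : ℝ) < C4 := by exact_mod_cast hC4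
  obtain ⟨c2, hc2, hc21, hc24, hc22⟩ : ∃ c2 : ℝ, 0 < c2 ∧ c2 ≤ c1 ∧ c2 ≤ 1 / (2 * C4) ∧ c2 ≤ 1 :=
    ⟨min c1 (min (1 / (2 * C4)) 1), lt_min hc1 (lt_min (by positivity) one_pos), min_le_left _ _,
      (min_le_right _ _).trans (min_le_left _ _), (min_le_right _ _).trans (min_le_right _ _)⟩
  refine ⟨Cv, 2 * c3 + 2, c2 / 2, by positivity, ?_⟩
  intro a ha A hA
  obtain ⟨r4, hgr⟩ := growth (4 * 5 ^ d * (C * C4 + C + 2 + Cv)) (A * (6 * d + 4)) (c2 / 2)
    (by positivity)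
  refine ⟨max (max r3 r4) (2 * Cv + 9), ?_⟩
  intro r hr n hn1 hn2 q hM
  have hr3 : r3 ≤ r := le_trans (le_trans (le_max_left _ _) (le_max_left _ _)) hr
  have hr4 : r4 ≤ r := le_trans (le_trans (le_max_right _ _) (le_max_left _ _)) hr
  have hr9 : 2 * Cv + 9 ≤ r := le_trans (le_max_right _ _) hr
  have hrn : r ≤ n := by
    refine le_trans ?_ hn1
    exact Nat.le_self_pow (by omega) r
  have hn9 : 2 * Cv + 9 ≤ n := hr9.trans hrn
  have hnn : n ≤ n ^ 2 := Nat.le_self_pow (by norm_num) n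
  have hn4 : (2 * Cv + 9) * n ^ 2 ≤ n ^ 4 := by
    calc (2 * Cv + 9) * n ^ 2 ≤ n ^ 2 * n ^ 2 := Nat.mul_le_mul_right _ (hn9.trans hnn)
      _ = n ^ 4 := by ring
  have hn2p : 1 ≤ n ^ 2 := by nlinarith
  have hMT : ∀ T ≤ n ^ 2, 2 * T ≤ q.M := by
    intro T hT
    rw [hM]
    nlinarith
  have hMr : 2 * r < q.M := by
    rw [hM]
    nlinarith
  have hMf : ∀ T ≤ n ^ 2, 2 * (Cv * T + r + 2) < q.M := by
    intro T hT
    rw [hM]
    have h1 : Cv * T ≤ Cv * n ^ 2 := Nat.mul_le_mul_left _ hT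
    nlinarith
  -- the reduction to the windows
  have hred : q.PP (n ^ 2 * q.N1)
      (fun η l => ¬ (envT q η l).Good r (r ^ a) (r ^ a) Cv (n ^ 2) (n ^ 2)) ≤
      q.PP (n ^ 2 * q.N1) (fun η l => (∃ s ∈ Finset.range (n ^ 2 + 1),
        ¬ Dens r ((l.take (s * q.N1)).foldl stepA η)) ∨
        (∃ sT ∈ Finset.range (n ^ 2 + 1) ×ˢ Finset.range (n ^ 2 + 1),
          (1 ≤ sT.2 ∧ sT.1 + sT.2 ≤ n ^ 2) ∧ Bad q r c3 (2 * n ^ 2) Cv sT.2
            ((l.take (sT.1 * q.N1)).foldl stepA η)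
            ((l.drop (sT.1 * q.N1)).take (sT.2 * q.N1)))) := by
    refine PP_mono q _ fun η l hl hG => ?_
    by_contra hcon
    rw [not_or] at hcon
    obtain ⟨k1, k2⟩ := hcon
    refine hG (good_of q η l r a c3 (2 * n ^ 2) Cv n (by omega) ha hrn (le_refl _) hl ?_ ?_)
    · intro s hs
      by_contra h
      exact k1 ⟨s, Finset.mem_range.2 (by omega), h⟩
    · intro s T hT hsT h
      exact k2 ⟨(s, T), Finset.mem_product.2 ⟨Finset.mem_range.2 (by omega),
        Finset.mem_range.2 (by omega)⟩, ⟨hT, hsT⟩, h⟩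
  refine le_trans hred (le_trans (PP_or q _ _ _) ?_)
  set e : ℝ≥0∞ := ENNReal.ofReal (Real.exp (- (c2 * r))) with he
  have hexp1 : ENNReal.ofReal (Real.exp (- (r : ℝ))) ≤ e := by
    refine ENNReal.ofReal_le_ofReal (Real.exp_le_exp.2 ?_)
    have : (0 : ℝ) ≤ r := Nat.cast_nonneg r
    nlinarith
  have hexp4 : ENNReal.ofReal (C4 * Real.exp (- ((r : ℝ) / 2) / C4)) ≤ C4 * e := by
    rw [ENNReal.ofReal_mul hC4'.le, ENNReal.ofReal_natCast]
    gcongr
    refine ENNReal.ofReal_le_ofReal (Real.exp_le_exp.2 ?_)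
    have h1 : - ((r : ℝ) / 2) / C4 = - ((1 / (2 * C4)) * r) := by
      field_simp
    rw [h1]
    have : (0 : ℝ) ≤ r := Nat.cast_nonneg r
    nlinarith
  have hexpv : ENNReal.ofReal (Cv * Real.exp (- (r : ℝ))) ≤ Cv * e := by
    rw [ENNReal.ofReal_mul (Nat.cast_nonneg _), ENNReal.ofReal_natCast]
    gcongr
  have hexpd : ENNReal.ofReal (Real.exp (- c1 * r)) ≤ e := by
    refine ENNReal.ofReal_le_ofReal (Real.exp_le_exp.2 ?_)
    have : (0 : ℝ) ≤ r := Nat.cast_nonneg r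
    nlinarith
  have hFd : ((Fd d q.M).card : ℝ≥0∞) ≤ ((n ^ 4) ^ d * (2 * (2 * n ^ 2) + 1) ^ d : ℕ) := by
    rw [card_Fd, hM]
    have : (n ^ 4) ^ d * 1 ≤ (n ^ 4) ^ d * (2 * (2 * n ^ 2) + 1) ^ d :=
      Nat.mul_le_mul_left _ (Nat.one_le_pow _ _ (by omega))
    rw [mul_one] at this
    exact_mod_cast this
  have hFB : ((Fd d q.M ×ˢ Box d (2 * n ^ 2)).card : ℝ≥0∞) =
      ((n ^ 4) ^ d * (2 * (2 * n ^ 2) + 1) ^ d : ℕ) := by
    rw [Finset.card_product, card_Fd, card_Box, hM]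
  set V : ℕ := (n ^ 4) ^ d * (2 * (2 * n ^ 2) + 1) ^ d with hV
  have hpart1 : q.PP (n ^ 2 * q.N1) (fun η l => ∃ s ∈ Finset.range (n ^ 2 + 1),
        ¬ Dens r ((l.take (s * q.N1)).foldl stepA η)) ≤ ((n ^ 2 + 1 : ℕ) : ℝ≥0∞) * (V * e) := by
    have h1 := PP_finset_le q (n ^ 2 * q.N1) (Finset.range (n ^ 2 + 1))
      (fun s η l => ¬ Dens r ((l.take (s * q.N1)).foldl stepA η)) (V * e) ?_
    · rwa [Finset.card_range] at h1
    · intro s hs
      rw [Finset.mem_range] at hs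
      have h2 := PP_shift q hd (n ^ 2) s 0 (by omega) (fun η _ => ¬ Dens r η)
      rw [h2, zero_mul]
      refine le_trans (hden q r hMr) ?_
      gcongr
      refine le_trans ?_ hFd
      rw [card_Fd]
      exact_mod_cast le_refl _
  have hpart2 : q.PP (n ^ 2 * q.N1) (fun η l =>
        (∃ sT ∈ Finset.range (n ^ 2 + 1) ×ˢ Finset.range (n ^ 2 + 1),
          (1 ≤ sT.2 ∧ sT.1 + sT.2 ≤ n ^ 2) ∧ Bad q r c3 (2 * n ^ 2) Cv sT.2
            ((l.take (sT.1 * q.N1)).foldl stepA η)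
            ((l.drop (sT.1 * q.N1)).take (sT.2 * q.N1)))) ≤
      (((n ^ 2 + 1) * (n ^ 2 + 1) : ℕ) : ℝ≥0∞) *
        (V * (C * (C4 * e)) + (V * (C * e) + (V * e + V * (Cv * e)))) := by
    have h1 := PP_finset_le q (n ^ 2 * q.N1)
      (Finset.range (n ^ 2 + 1) ×ˢ Finset.range (n ^ 2 + 1))
      (fun sT η l => (1 ≤ sT.2 ∧ sT.1 + sT.2 ≤ n ^ 2) ∧ Bad q r c3 (2 * n ^ 2) Cv sT.2
            ((l.take (sT.1 * q.N1)).foldl stepA η)
            ((l.drop (sT.1 * q.N1)).take (sT.2 * q.N1)))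
      (V * (C * (C4 * e)) + (V * (C * e) + (V * e + V * (Cv * e)))) ?_
    · rwa [Finset.card_product, Finset.card_range] at h1
    · rintro ⟨s, T⟩ -
      by_cases hsT : 1 ≤ T ∧ s + T ≤ n ^ 2
      · refine le_trans (PP_mono q _ fun η l _ h => h.2) ?_
        have h2 := PP_shift q hd (n ^ 2) s T hsT.2 (Bad q r c3 (2 * n ^ 2) Cv T)
        rw [h2]
        have hT2 : T ≤ n ^ 2 := by omega
        have b2 := PP_B2 q C C4 r T hsT.1 (hC d q) (fun η P hP t y ht hy => h4 q η P hP t y ht hy)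
        have b3 := PP_B3 q C c3 r (2 * n ^ 2) T (by omega) (hMT T hT2) (hC d q)
          (fun η x P st hx hP hM' t ht => hch r hr3 q η x P st hx hP hM' t ht)
        have b3' := PP_B3' q c3 r (2 * n ^ 2) T (by omega) (hMT T hT2)
          (fun η x P st hx hP hM' t ht => hch r hr3 q η x P st hx hP hM' t ht)
        have b4 := PP_B4 q Cv r T hsT.1 (fun x => hf q x T r (hMf T hT2))
        rw [hFB] at b3 b3'
        refine le_trans (PP_or q _ _ _) (add_le_add (b2.trans ?_) (le_trans (PP_or q _ _ _)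
          (add_le_add (b3.trans ?_) (le_trans (PP_or q _ _ _)
          (add_le_add (b3'.trans ?_) (b4.trans ?_))))))
        · gcongr
        · gcongr
        · gcongr
        · gcongr
      · have h0 : q.PP (n ^ 2 * q.N1) (fun η l => (1 ≤ T ∧ s + T ≤ n ^ 2) ∧
            Bad q r c3 (2 * n ^ 2) Cv T ((l.take (s * q.N1)).foldl stepA η)
            ((l.drop (s * q.N1)).take (T * q.N1))) ≤ 0 := by
          refine PP_le q _ _ _ fun η => ?_
          rw [PrE_zero_of]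
          intro l hl
          exact hsT hl.1
        exact le_trans h0 zero_le
  refine le_trans (add_le_add hpart1 hpart2) ?_
  have hsum : ((n ^ 2 + 1 : ℕ) : ℝ≥0∞) * (V * e) + (((n ^ 2 + 1) * (n ^ 2 + 1) : ℕ) : ℝ≥0∞) *
        (V * (C * (C4 * e)) + (V * (C * e) + (V * e + V * (Cv * e)))) ≤
      (((n ^ 2 + 1) * (n ^ 2 + 1) * V * (C * C4 + C + 2 + Cv) : ℕ) : ℝ≥0∞) * e := by
    have h1 : ((n ^ 2 + 1 : ℕ) : ℝ≥0∞) * (V * e) ≤
        (((n ^ 2 + 1) * (n ^ 2 + 1) : ℕ) : ℝ≥0∞) * (V * e) := by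
      gcongr
      nlinarith
    refine le_trans (add_le_add h1 (le_refl _)) (le_of_eq ?_)
    push_cast
    ring
  refine le_trans hsum ?_
  have hnat : (n ^ 2 + 1) * (n ^ 2 + 1) * V * (C * C4 + C + 2 + Cv) ≤
      (4 * 5 ^ d * (C * C4 + C + 2 + Cv)) * (2 * r) ^ (A * (6 * d + 4)) := by
    have h1 : n ^ 2 + 1 ≤ 2 * n ^ 2 := by omega
    have h2 : 2 * (2 * n ^ 2) + 1 ≤ 5 * n ^ 2 := by omega
    calc (n ^ 2 + 1) * (n ^ 2 + 1) * V * (C * C4 + C + 2 + Cv)
        ≤ (2 * n ^ 2) * (2 * n ^ 2) * ((n ^ 4) ^ d * (5 * n ^ 2) ^ d) * (C * C4 + C + 2 + Cv) := by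
          rw [hV]; gcongr
      _ = (4 * 5 ^ d * (C * C4 + C + 2 + Cv)) * n ^ (6 * d + 4) := by
          rw [mul_pow 5, ← pow_mul, ← pow_mul]
          rw [show n ^ (6 * d + 4) = n ^ (4 * d) * n ^ (2 * d) * n ^ 4 by
            rw [← pow_add, ← pow_add]; congr 1; ring]
          ring
      _ ≤ (4 * 5 ^ d * (C * C4 + C + 2 + Cv)) * ((2 * r) ^ A) ^ (6 * d + 4) := by gcongr
      _ = _ := by rw [← pow_mul]
  have hreal : (((n ^ 2 + 1) * (n ^ 2 + 1) * V * (C * C4 + C + 2 + Cv) : ℕ) : ℝ) ≤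
      Real.exp (c2 / 2 * r) := by
    refine le_trans ?_ (hgr r hr4)
    exact_mod_cast hnat
  rw [he, ← ENNReal.ofReal_natCast, ← ENNReal.ofReal_mul (Nat.cast_nonneg _)]
  refine ENNReal.ofReal_le_ofReal ?_
  calc _ ≤ Real.exp (c2 / 2 * r) * Real.exp (- (c2 * r)) := by gcongr
    _ = Real.exp (- (c2 / 2) * r) := by rw [← Real.exp_add]; congr 1; ring

end ZI.Rows
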