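import Pool.Agent.ZI.Ev0

/-! # Row R8: Hoeffding inequality for products of the laws of block variables -/

set_option autoImplicit false

open scoped ENNReal BigOperators Classical

noncomputable section

namespace ZI.R8aux

open ZI

variable {d : ℕ}

/-- expectation under a product of laws -/
def prodE (Q : ℕ → (ℕ × Pos d) → ℝ≥0∞) : List ℕ → (List (ℕ × Pos d) → ℝ≥0∞) → ℝ≥0∞
  | [], F => F []
  | m :: ms, F => ∑' y, Q m y * prodE Q ms (fun l => F (y :: l))

variable (Q : ℕ → (ℕ × Pos d) → ℝ≥0∞)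

lemma prodQ_eq : ∀ (ms : List ℕ) (G : List (ℕ × Pos d) → Prop),
    prodQ Q ms G = prodE Q ms (fun l => if G l then 1 else 0)
  | [], _ => rfl
  | m :: ms, G => by
      show ∑' y, Q m y * prodQ Q ms (fun l => G (y :: l)) =
        ∑' y, Q m y * prodE Q ms (fun l => if G (y :: l) then 1 else 0)
      exact tsum_congr fun y => by rw [prodQ_eq ms (fun l => G (y :: l))]

lemma prodE_mono : ∀ (ms : List ℕ) (F G : List (ℕ × Pos d) → ℝ≥0∞), (∀ l, F l ≤ G l) →
    prodE Q ms F ≤ prodE Q ms G
  | [], _, _, h => h []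
  | _ :: ms, F, G, h => ENNReal.tsum_le_tsum fun y =>
      mul_le_mul_right (prodE_mono ms (fun l => F (y :: l)) (fun l => G (y :: l)) fun l => h (y :: l)) _

lemma prodE_add : ∀ (ms : List ℕ) (F G : List (ℕ × Pos d) → ℝ≥0∞),
    prodE Q ms (fun l => F l + G l) = prodE Q ms F + prodE Q ms G
  | [], _, _ => rfl
  | m :: ms, F, G => by
      show ∑' y, Q m y * prodE Q ms (fun l => F (y :: l) + G (y :: l)) =
        (∑' y, Q m y * prodE Q ms (fun l => F (y :: l))) +
          ∑' y, Q m y * prodE Q ms (fun l => G (y :: l))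
      rw [← ENNReal.tsum_add]
      exact tsum_congr fun y => by
        rw [prodE_add ms (fun l => F (y :: l)) (fun l => G (y :: l)), mul_add]

lemma prodE_mul (c : ℝ≥0∞) : ∀ (ms : List ℕ) (F : List (ℕ × Pos d) → ℝ≥0∞),
    prodE Q ms (fun l => c * F l) = c * prodE Q ms F
  | [], _ => rfl
  | m :: ms, F => by
      show ∑' y, Q m y * prodE Q ms (fun l => c * F (y :: l)) =
        c * ∑' y, Q m y * prodE Q ms (fun l => F (y :: l))
      rw [← ENNReal.tsum_mul_left]
      exact tsum_congr fun y => by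
        rw [prodE_mul c ms (fun l => F (y :: l))]
        ring

lemma prodE_one (hQ : ∀ m, ∑' y, Q m y = 1) : ∀ ms : List ℕ, prodE Q ms (fun _ => 1) = 1
  | [] => rfl
  | m :: ms => by
      show ∑' y, Q m y * prodE Q ms (fun _ => 1) = 1
      rw [prodE_one hQ ms]
      simp only [mul_one]
      exact hQ m

/-- one step of the exponential estimate -/
lemma step_bound (Q : (ℕ × Pos d) → ℝ≥0∞) (hQ : ∑' y, Q y = 1) (f : (ℕ × Pos d) → ℝ) (b : ℝ)
    (hb : 0 < b) (hf : ∀ y, |f y| ≤ b) (s : ℝ) :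
    ∑' y, Q y * ENNReal.ofReal (Real.exp (s * (f y - ∑' y, (Q y).toReal * f y))) ≤
      ENNReal.ofReal (Real.exp (2 * s ^ 2 * b ^ 2)) := by
  have hfin : ∀ y, Q y ≠ ∞ := fun y => ne_top_of_le_ne_top ENNReal.one_ne_top
    (hQ ▸ ENNReal.le_tsum y)
  have hP : Summable (fun y => (Q y).toReal) := ENNReal.summable_toReal (by rw [hQ]; simp)
  have hP1 : ∑' y, (Q y).toReal = 1 := by
    rw [← ENNReal.tsum_toReal_eq hfin, hQ, ENNReal.toReal_one]
  have hPf : Summable (fun y => (Q y).toReal * f y) := by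
    refine Summable.of_norm_bounded (hP.mul_right b) fun y => ?_
    rw [Real.norm_eq_abs, abs_mul, abs_of_nonneg ENNReal.toReal_nonneg]
    exact mul_le_mul_of_nonneg_left (hf y) ENNReal.toReal_nonneg
  set μ := ∑' y, (Q y).toReal * f y with hμ
  have hμb : |μ| ≤ b := by
    have h1 : μ ≤ b := by
      have h2 : μ ≤ ∑' y, (Q y).toReal * b :=
        hPf.tsum_le_tsum (fun y => mul_le_mul_of_nonneg_left (le_of_abs_le (hf y))
          ENNReal.toReal_nonneg) (hP.mul_right b)
      rwa [tsum_mul_right, hP1, one_mul] at h2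
    have h3 : -b ≤ μ := by
      have h2 : ∑' y, (Q y).toReal * (-b) ≤ μ :=
        (hP.mul_right (-b)).tsum_le_tsum (fun y => mul_le_mul_of_nonneg_left
          (neg_le_of_abs_le (hf y)) ENNReal.toReal_nonneg) hPf
      rwa [tsum_mul_right, hP1, one_mul] at h2
    exact abs_le.mpr ⟨h3, h1⟩
  have hX : ∀ y, |(f y - μ) / (2 * b)| ≤ 1 := fun y => by
    rw [abs_div, abs_of_pos (by positivity : (0 : ℝ) < 2 * b), div_le_one (by positivity)]
    calc |f y - μ| ≤ |f y| + |μ| := abs_sub _ _
      _ ≤ b + b := add_le_add (hf y) hμb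
      _ = 2 * b := by ring
  have hexp : ∀ y, Real.exp (s * (f y - μ)) ≤
      Real.cosh (2 * b * s) + (f y - μ) / (2 * b) * Real.sinh (2 * b * s) := fun y => by
    have h := Real.exp_mul_le_cosh_add_mul_sinh (hX y) (2 * b * s)
    rwa [show (f y - μ) / (2 * b) * (2 * b * s) = s * (f y - μ) by field_simp] at h
  have hsum : Summable (fun y => (Q y).toReal *
      (Real.cosh (2 * b * s) + (f y - μ) / (2 * b) * Real.sinh (2 * b * s))) := by
    have h1 : Summable (fun y => (Q y).toReal *
        (Real.cosh (2 * b * s) - μ / (2 * b) * Real.sinh (2 * b * s)) +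
        (Q y).toReal * f y * (1 / (2 * b) * Real.sinh (2 * b * s))) :=
      (hP.mul_right _).add (hPf.mul_right _)
    refine h1.congr fun y => ?_
    ring
  have hval : ∑' y, (Q y).toReal *
      (Real.cosh (2 * b * s) + (f y - μ) / (2 * b) * Real.sinh (2 * b * s)) =
      Real.cosh (2 * b * s) := by
    have h1 : ∀ y, (Q y).toReal *
        (Real.cosh (2 * b * s) + (f y - μ) / (2 * b) * Real.sinh (2 * b * s)) =
        (Q y).toReal * (Real.cosh (2 * b * s) - μ / (2 * b) * Real.sinh (2 * b * s)) +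
        (Q y).toReal * f y * (1 / (2 * b) * Real.sinh (2 * b * s)) := fun y => by ring
    simp_rw [h1]
    rw [(hP.mul_right _).tsum_add (hPf.mul_right _), tsum_mul_right, tsum_mul_right, hP1, ← hμ]
    ring
  have hle : Summable (fun y => (Q y).toReal * Real.exp (s * (f y - μ))) :=
    Summable.of_nonneg_of_le (fun y => by positivity)
      (fun y => mul_le_mul_of_nonneg_left (hexp y) ENNReal.toReal_nonneg) hsum
  have h1 : ∀ y, Q y * ENNReal.ofReal (Real.exp (s * (f y - μ))) =
      ENNReal.ofReal ((Q y).toReal * Real.exp (s * (f y - μ))) := fun y => by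
    rw [ENNReal.ofReal_mul ENNReal.toReal_nonneg, ENNReal.ofReal_toReal (hfin y)]
  simp_rw [h1]
  rw [← ENNReal.ofReal_tsum_of_nonneg (fun y => by positivity) hle]
  refine ENNReal.ofReal_le_ofReal ?_
  calc ∑' y, (Q y).toReal * Real.exp (s * (f y - μ))
      ≤ ∑' y, (Q y).toReal *
        (Real.cosh (2 * b * s) + (f y - μ) / (2 * b) * Real.sinh (2 * b * s)) :=
        hle.tsum_le_tsum (fun y => mul_le_mul_of_nonneg_left (hexp y) ENNReal.toReal_nonneg) hsum
    _ = Real.cosh (2 * b * s) := hval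
    _ ≤ Real.exp ((2 * b * s) ^ 2 / 2) := Real.cosh_le_exp_half_sq _
    _ = Real.exp (2 * s ^ 2 * b ^ 2) := by
        congr 1
        ring

lemma mgf_bound (Q : (ℕ × Pos d) → ℝ≥0∞) (hQ : ∑' y, Q y = 1) (f : (ℕ × Pos d) → ℝ) (b : ℝ)
    (hb : 0 < b) (hf : ∀ y, |f y| ≤ b) (s : ℝ) : ∀ ms : List ℕ,
    prodE (fun _ => Q) ms (fun l => ENNReal.ofReal
      (Real.exp (s * ((l.map f).sum - ms.length * ∑' y, (Q y).toReal * f y)))) ≤
      ENNReal.ofReal (Real.exp (ms.length * (2 * s ^ 2 * b ^ 2)))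
  | [] => by
      show ENNReal.ofReal (Real.exp (s * (([] : List ℝ).sum - ((0 : ℕ) : ℝ) * _))) ≤
        ENNReal.ofReal (Real.exp (((0 : ℕ) : ℝ) * _))
      simp
  | m :: ms => by
      have ih := mgf_bound Q hQ f b hb hf s ms
      have h1 : ∀ (y : ℕ × Pos d) (l : List (ℕ × Pos d)), ENNReal.ofReal
          (Real.exp (s * (((y :: l).map f).sum - (m :: ms).length * ∑' y, (Q y).toReal * f y))) =
          ENNReal.ofReal (Real.exp (s * (f y - ∑' y, (Q y).toReal * f y))) * ENNReal.ofReal
          (Real.exp (s * ((l.map f).sum - ms.length * ∑' y, (Q y).toReal * f y))) := fun y l => by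
        rw [← ENNReal.ofReal_mul (Real.exp_pos _).le, ← Real.exp_add]
        congr 2
        simp only [List.map_cons, List.sum_cons, List.length_cons]
        push_cast
        ring
      show ∑' y, Q y * prodE (fun _ => Q) ms (fun l => ENNReal.ofReal
          (Real.exp (s * (((y :: l).map f).sum -
            (m :: ms).length * ∑' y, (Q y).toReal * f y)))) ≤ _
      simp_rw [h1]
      calc ∑' y, Q y * prodE (fun _ => Q) ms (fun l =>
            ENNReal.ofReal (Real.exp (s * (f y - ∑' y, (Q y).toReal * f y))) * ENNReal.ofReal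
            (Real.exp (s * ((l.map f).sum - ms.length * ∑' y, (Q y).toReal * f y))))
          = (∑' y, Q y * ENNReal.ofReal (Real.exp (s * (f y - ∑' y, (Q y).toReal * f y)))) *
            prodE (fun _ => Q) ms (fun l => ENNReal.ofReal
            (Real.exp (s * ((l.map f).sum - ms.length * ∑' y, (Q y).toReal * f y)))) := by
            rw [← ENNReal.tsum_mul_right]
            exact tsum_congr fun y => by
              rw [prodE_mul, mul_assoc]
        _ ≤ ENNReal.ofReal (Real.exp (2 * s ^ 2 * b ^ 2)) *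
            ENNReal.ofReal (Real.exp (ms.length * (2 * s ^ 2 * b ^ 2))) :=
            mul_le_mul' (step_bound Q hQ f b hb hf s) ih
        _ = _ := by
            rw [← ENNReal.ofReal_mul (Real.exp_pos _).le, ← Real.exp_add]
            congr 2
            simp only [List.length_cons]
            push_cast
            ring

end ZI.R8aux

namespace ZI.Rows

open ZI R8aux

variable {d : ℕ}

theorem prodQ_le_one (Q : ℕ → (ℕ × Pos d) → ℝ≥0∞) (hQ : ∀ m, ∑' y, Q m y = 1) (ms : List ℕ)
    (G : List (ℕ × Pos d) → Prop) : prodQ Q ms G + prodQ Q ms (fun l => ¬ G l) = 1 := by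
  rw [prodQ_eq, prodQ_eq, ← prodE_add]
  refine Eq.trans ?_ (prodE_one Q hQ ms)
  congr 1
  funext l
  by_cases h : G l <;> simp [h]

theorem prodQ_hoeffding (Q : (ℕ × Pos d) → ℝ≥0∞) (hQ : ∑' y, Q y = 1) (f : (ℕ × Pos d) → ℝ) (b : ℝ)
    (hb : 0 < b) (hf : ∀ y, |f y| ≤ b) (ms : List ℕ) (t : ℝ) (ht : 0 ≤ t) :
    prodQ (fun _ => Q) ms (fun l => t ≤ |(l.map f).sum - ms.length * ∑' y, (Q y).toReal * f y|)
      ≤ ENNReal.ofReal (2 * Real.exp (- t ^ 2 / (8 * ms.length * b ^ 2))) := by
  rcases Nat.eq_zero_or_pos ms.length with h0 | h0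
  · have h1 := prodQ_le_one (fun _ => Q) (fun _ => hQ) ms
      (fun l => t ≤ |(l.map f).sum - ms.length * ∑' y, (Q y).toReal * f y|)
    refine le_trans (le_trans (self_le_add_right _ _) h1.le) ?_
    rw [h0]
    simp
  set μ := ∑' y, (Q y).toReal * f y with hμ
  have hn : (0 : ℝ) < ms.length := by exact_mod_cast h0
  set n : ℝ := (ms.length : ℝ) with hnn
  set s : ℝ := t / (4 * n * b ^ 2) with hs
  have hs0 : 0 ≤ s := by positivity
  rw [prodQ_eq]
  have h1 : ∀ l : List (ℕ × Pos d), (if t ≤ |(l.map f).sum - n * μ| then (1 : ℝ≥0∞) else 0) ≤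
      ENNReal.ofReal (Real.exp (-(s * t))) *
        (ENNReal.ofReal (Real.exp (s * ((l.map f).sum - n * μ))) +
          ENNReal.ofReal (Real.exp (-s * ((l.map f).sum - n * μ)))) := fun l => by
    split_ifs with h
    · rw [← ENNReal.ofReal_add (Real.exp_pos _).le (Real.exp_pos _).le,
        ← ENNReal.ofReal_mul (Real.exp_pos _).le, mul_add, ← Real.exp_add, ← Real.exp_add,
        ← ENNReal.ofReal_one]
      refine ENNReal.ofReal_le_ofReal ?_
      rcases le_abs.mp h with h2 | h2
      · have h3 : s * t ≤ s * ((l.map f).sum - n * μ) := mul_le_mul_of_nonneg_left h2 hs0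
        have h4 : 1 ≤ Real.exp (-(s * t) + s * ((l.map f).sum - n * μ)) :=
          Real.one_le_exp (by linarith)
        linarith [Real.exp_pos (-(s * t) + -s * ((l.map f).sum - n * μ))]
      · have h3 : s * t ≤ s * -((l.map f).sum - n * μ) := mul_le_mul_of_nonneg_left h2 hs0
        have h4 : 1 ≤ Real.exp (-(s * t) + -s * ((l.map f).sum - n * μ)) :=
          Real.one_le_exp (by linarith)
        linarith [Real.exp_pos (-(s * t) + s * ((l.map f).sum - n * μ))]
    · exact bot_le
  refine (prodE_mono _ ms _ _ h1).trans ?_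
  rw [prodE_mul, prodE_add]
  have h2 := mgf_bound Q hQ f b hb hf s ms
  have h3 := mgf_bound Q hQ f b hb hf (-s) ms
  refine (mul_le_mul_right (add_le_add h2 h3) _).trans ?_
  rw [← ENNReal.ofReal_add (Real.exp_pos _).le (Real.exp_pos _).le,
    ← ENNReal.ofReal_mul (Real.exp_pos _).le]
  refine ENNReal.ofReal_le_ofReal ?_
  have h4 : Real.exp (-(s * t)) * Real.exp (n * (2 * s ^ 2 * b ^ 2)) =
      Real.exp (- t ^ 2 / (8 * n * b ^ 2)) := by
    rw [← Real.exp_add]
    congr 1
    rw [hs]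
    field_simp
    ring
  rw [neg_sq, mul_add, h4]
  linarith

end ZI.Rows
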