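import Pool.Agent.ZI.Sys2
import Pool.Agent.ZI.R8

/-! # Auxiliary facts for S5: summable errors, reverse comparison with independent blocks -/

set_option autoImplicit false

open scoped ENNReal BigOperators Classical
open MeasureTheory

noncomputable section

namespace ZI.Rows

open ZI

variable {d : ℕ} {Ω : Type} [MeasurableSpace Ω] {P : Measure Ω}

namespace S5

theorem rr_pos (A k : ℕ) : 1 ≤ rr A k := Nat.one_le_two_pow

theorem rr_pow_le (a A k e : ℕ) (hA : 1000 * a ≤ A) (he : e ≤ 400 * a) : rr A k ^ e ≤ 2 ^ (k / 2) := by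
  unfold rr
  rw [← pow_mul]
  apply Nat.pow_le_pow_right (by norm_num)
  rw [Nat.le_div_iff_mul_le (by norm_num)]
  have h1 : k / A * A ≤ k := Nat.div_mul_le_self k A
  have h2 : k / A * (1000 * a) ≤ k / A * A := Nat.mul_le_mul_left _ hA
  have h3 : k / A * e ≤ k / A * (400 * a) := Nat.mul_le_mul_left _ he
  have h4 : k / A * (400 * a) * 2 ≤ k / A * (1000 * a) := by
    have : k / A * (400 * a) * 2 = k / A * (800 * a) := by ring
    rw [this]
    apply Nat.mul_le_mul_left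
    omega
  omega

theorem half_small (e : ℝ) (he : 0 < e) : ∃ K : ℕ, ∀ k ≥ K, (2 : ℝ) ^ (k / 2) ≤ e * 2 ^ k := by
  obtain ⟨N, hN⟩ := pow_unbounded_of_one_lt (1 / e) (by norm_num : (1 : ℝ) < 2)
  refine ⟨2 * N, ?_⟩
  intro k hk
  have h1 : N ≤ k / 2 := by omega
  have h2 : (2 : ℝ) ^ N ≤ 2 ^ (k / 2) := pow_le_pow_right₀ (by norm_num) h1
  have h3 : 1 / e ≤ (2 : ℝ) ^ (k / 2) := by linarith
  have h4 : (2 : ℝ) ^ (k / 2) * 2 ^ (k / 2) ≤ 2 ^ k := by
    rw [← pow_add]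
    apply pow_le_pow_right₀ (by norm_num)
    omega
  have h5 : 1 ≤ e * (2 : ℝ) ^ (k / 2) := by
    rw [div_le_iff₀ he] at h3
    linarith
  have h6 : 0 < (2 : ℝ) ^ (k / 2) := by positivity
  calc (2 : ℝ) ^ (k / 2) = 1 * 2 ^ (k / 2) := by ring
    _ ≤ (e * 2 ^ (k / 2)) * 2 ^ (k / 2) := mul_le_mul_of_nonneg_right h5 h6.le
    _ = e * (2 ^ (k / 2) * 2 ^ (k / 2)) := by ring
    _ ≤ e * 2 ^ k := mul_le_mul_of_nonneg_left h4 he.le

/-- the errors are summable -/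
theorem tsum_err (A : ℕ) (hA : 0 < A) : ∑' k : ℕ, err (rr A k) ≠ ⊤ := by
  have hexp : ∀ j : ℕ, Real.exp (- Real.sqrt ((2 : ℝ) ^ j)) ≤ 2 * (1 / 2) ^ j := by
    intro j
    have h1 := Real.quadratic_le_exp_of_nonneg (Real.sqrt_nonneg ((2 : ℝ) ^ j))
    have h2 : Real.sqrt ((2 : ℝ) ^ j) ^ 2 = 2 ^ j := Real.sq_sqrt (by positivity)
    have h3 : (2 : ℝ) ^ j / 2 ≤ Real.exp (Real.sqrt ((2 : ℝ) ^ j)) := by
      have h0 := Real.sqrt_nonneg ((2 : ℝ) ^ j)
      rw [h2] at h1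
      linarith
    rw [Real.exp_neg]
    have h4 : (0 : ℝ) < 2 ^ j / 2 := by positivity
    calc (Real.exp (Real.sqrt ((2 : ℝ) ^ j)))⁻¹ ≤ (2 ^ j / 2)⁻¹ := inv_anti₀ h4 h3
      _ = 2 * (1 / 2) ^ j := by
        rw [one_div, inv_pow, inv_div]
        rfl
  have hA' : (0 : ℝ) < A := by exact_mod_cast hA
  set ρ : ℝ := (1 / 2 : ℝ) ^ (1 / (A : ℝ)) with hρ
  have hρ0 : 0 ≤ ρ := Real.rpow_nonneg (by norm_num) _
  have hρ1 : ρ < 1 := Real.rpow_lt_one (by norm_num) (by norm_num) (by positivity)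
  have hk : ∀ k : ℕ, (1 / 2 : ℝ) ^ (k / A) ≤ 2 * ρ ^ k := by
    intro k
    have h1 : ρ ^ k = (1 / 2 : ℝ) ^ ((k : ℝ) / A) := by
      rw [hρ, ← Real.rpow_natCast, ← Real.rpow_mul (by norm_num)]
      congr 1
      ring
    have h2 : (k : ℝ) / A ≤ ((k / A : ℕ) : ℝ) + 1 := by
      rw [div_le_iff₀ hA']
      have := Nat.lt_div_mul_add hA (a := k)
      have h3 : (k : ℝ) < ((k / A : ℕ) : ℝ) * A + A := by exact_mod_cast this
      linarith
    have h3 : (1 / 2 : ℝ) ^ (((k / A : ℕ) : ℝ) + 1) ≤ (1 / 2 : ℝ) ^ ((k : ℝ) / A) :=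
      Real.rpow_le_rpow_of_exponent_ge (by norm_num) (by norm_num) h2
    rw [Real.rpow_add (by norm_num), Real.rpow_natCast, Real.rpow_one] at h3
    rw [h1]
    linarith
  have hb : ∀ k : ℕ, err (rr A k) ≤ ENNReal.ofReal (4 * ρ ^ k) := by
    intro k
    unfold err rr
    apply ENNReal.ofReal_le_ofReal
    have h1 := hexp (k / A)
    have h2 := hk k
    push_cast
    linarith
  have hs : Summable (fun k : ℕ => 4 * ρ ^ k) := (summable_geometric_of_lt_one hρ0 hρ1).mul_left 4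
  refine ne_top_of_le_ne_top ?_ (ENNReal.tsum_le_tsum hb)
  rw [← ENNReal.ofReal_tsum_of_nonneg (fun k => by positivity) hs]
  exact ENNReal.ofReal_ne_top

variable [IsProbabilityMeasure P]

/-- the reverse of the comparison with independent blocks -/
theorem chain_rev (S : Sys d P) (k : ℕ) (hk : S.k0 ≤ k) (u : Fin d → ℝ) (hu : ∑ j, u j ^ 2 = 1)
    (ms : List ℕ) (hms : ∀ m ∈ ms, rr S.A k ^ (7 * S.a) ≤ m) (hsum : ms.sum ≤ rr S.A k * 2 ^ k)
    (z : Pos d) (s : ℕ) (hs : 2 * s ≤ (2 ^ k) ^ 2) (G : List (ℕ × Pos d) → Prop) :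
    prodQ (QK P S.E S.a S.A k u) ms G ≤
      P {ω | G ((S.E k ω).chain (PK d S.a S.A k) u ms z s)} + err (rr S.A k) := by
  have h1 := S.chain k hk u hu ms hms hsum z s hs (fun l => ¬ G l)
  have h2 := prodQ_le_one (QK P S.E S.a S.A k u) (fun m => S.tsumQ k hk u m) ms G
  have h3 : (1 : ℝ≥0∞) ≤ P {ω | G ((S.E k ω).chain (PK d S.a S.A k) u ms z s)} +
      P {ω | ¬ G ((S.E k ω).chain (PK d S.a S.A k) u ms z s)} := by
    refine le_trans (le_of_eq ?_) (measure_union_le _ _)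
    rw [← measure_univ (μ := P)]
    congr 1
    ext ω
    simp [em]
  have h4 : prodQ (QK P S.E S.a S.A k u) ms (fun l => ¬ G l) ≠ ⊤ := by
    refine ne_top_of_le_ne_top ENNReal.one_ne_top ?_
    rw [← h2]
    exact le_add_self
  rw [← ENNReal.add_le_add_iff_right h4]
  calc prodQ (QK P S.E S.a S.A k u) ms G + prodQ (QK P S.E S.a S.A k u) ms (fun l => ¬ G l)
      = 1 := h2
    _ ≤ P {ω | G ((S.E k ω).chain (PK d S.a S.A k) u ms z s)} +
      P {ω | ¬ G ((S.E k ω).chain (PK d S.a S.A k) u ms z s)} := h3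
    _ ≤ P {ω | G ((S.E k ω).chain (PK d S.a S.A k) u ms z s)} +
      (prodQ (QK P S.E S.a S.A k u) ms (fun l => ¬ G l) + err (rr S.A k)) := by
        gcongr
    _ = _ := by ring

end S5

end ZI.Rows
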