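import Pool.Agent.ZI.Dec
import Pool.Agent.ZI.T1
import Pool.Agent.ZI.D2

/-! # B0: the constants -/

set_option autoImplicit false

open scoped ENNReal BigOperators Classical

noncomputable section

namespace ZI.Rows

open ZI

theorem good_Cv {d : ℕ} {E : Env d} {r κ κ' Cv Cv' S Dm : ℕ} (h : Cv ≤ Cv')
    (hE : E.Good r κ κ' Cv S Dm) : E.Good r κ κ' Cv' S Dm := by
  obtain ⟨g1, g3, g3', g4, g4'⟩ := hE
  have h' : (Cv : ℝ) ≤ Cv' := by exact_mod_cast h
  refine ⟨g1, g3, g3', ?_, ?_⟩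
  · intro s t x y hst ht hR
    have h1 : (0 : ℝ) ≤ (t : ℝ) - s := sub_nonneg.2 (by exact_mod_cast hst)
    have h2 := g4 s t x y hst ht hR
    nlinarith
  · intro s t x y hst ht hR
    have h1 : (0 : ℝ) ≤ (t : ℝ) - s := sub_nonneg.2 (by exact_mod_cast hst)
    have h2 := g4' s t x y hst ht hR
    nlinarith

theorem base_exists (m : Model) (d : ℕ) (hd : 0 < d) : ∃ (Cv a A r0 : ℕ) (c : ℝ),
    Base m d Cv a A r0 c := by
  obtain ⟨Cv0, a0, c, hc, hgood⟩ := good_whp m d hd
  obtain ⟨a, ha, A0, hfacts⟩ := block_facts d hd (Cv0 + 1) (max a0 10)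
  have ha0 : a0 ≤ a := (le_max_left _ _).trans ha
  have ha10 : 10 ≤ a := (le_max_right _ _).trans ha
  obtain ⟨r1, h1⟩ := hgood a ha0 (max A0 (1000 * a)) (by have := le_max_right A0 (1000 * a); omega)
  obtain ⟨r2, h2⟩ := hfacts (max A0 (1000 * a)) (le_max_left _ _)
  refine ⟨Cv0 + 1, a, max A0 (1000 * a), max (max r1 r2) 10, c, ?_⟩
  refine
    { d_pos := hd
      c_pos := hc
      Cv_pos := Nat.succ_pos _
      a_big := ha10
      A_big := le_max_right _ _
      r0_big := le_max_right _ _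
      good := ?_
      facts := ?_ }
  · intro r hr n hn1 hn2 q hM
    refine le_trans (T1.PP_mono q _ fun η l _ hG hG' => hG (good_Cv (Nat.le_succ Cv0) hG'))
      (h1 r ((le_max_left _ _).trans ((le_max_left _ _).trans hr)) n hn1 hn2 q hM)
  · intro r hr n hn E hE u hu m' hm1 hm2 z s hs
    exact h2 r ((le_max_right _ _).trans ((le_max_left _ _).trans hr)) n hn E hE u hu m' hm1 hm2 z s hs

end ZI.Rows
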