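import Pool.Agent.ZI.Ev0

/-! # Row R5a: a symmetric walk with variable rates hits `0` with at least polynomial probability -/

set_option autoImplicit false

open scoped ENNReal BigOperators Classical

noncomputable section

namespace ZI
namespace R5a

variable {d : ℕ}

/-! ### words -/
section words

variable {α σ : Type} [Fintype α] (w : α → ℝ≥0∞)

theorem EvE_mono (N : ℕ) : ∀ {F G : List α → ℝ≥0∞}, (∀ l, l.length = N → F l ≤ G l) →
    EvE w N F ≤ EvE w N G := by
  induction N with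
  | zero => intro F G h; exact h [] rfl
  | succ N ih =>
    intro F G h
    simp only [EvE]
    refine Finset.sum_le_sum (fun a _ => mul_le_mul_right (ih (fun l hl => h (a :: l) (by simp [hl]))) _)

theorem EvE_congr (N : ℕ) {F G : List α → ℝ≥0∞} (h : ∀ l, l.length = N → F l = G l) :
    EvE w N F = EvE w N G :=
  le_antisymm (EvE_mono w N fun l hl => (h l hl).le) (EvE_mono w N fun l hl => (h l hl).ge)

theorem EvE_const (hw : ∑ a, w a = 1) (N : ℕ) (c : ℝ≥0∞) : EvE w N (fun _ => c) = c := by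
  induction N with
  | zero => rfl
  | succ N ih => simp only [EvE, ih]; rw [← Finset.sum_mul, hw, one_mul]

theorem le_PrE_hits (hw : ∑ a, w a = 1) (step : σ → α → σ) (bad : σ → Prop) (F : ℕ → σ → ℝ≥0∞)
    (h1 : ∀ n s, F n s ≤ 1) (h0 : ∀ s, ¬ bad s → F 0 s = 0)
    (h : ∀ n s, ¬ bad s → F (n + 1) s ≤ ∑ a, w a * F n (step s a)) (N : ℕ) (s : σ) :
    F N s ≤ PrE w N (Hits step bad s) := by
  induction N generalizing s with
  | zero =>
    by_cases hb : bad s
    · simp only [PrE, EvE, Hits, hb, if_true]; exact h1 0 s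
    · rw [h0 s hb]; exact zero_le
  | succ N ih =>
    by_cases hb : bad s
    · have : PrE w (N + 1) (Hits step bad s) = 1 := by
        unfold PrE
        refine (EvE_congr w (N + 1) (G := fun _ => 1) (fun l hl => ?_)).trans (EvE_const w hw _ 1)
        cases l with
        | nil => simp at hl
        | cons a l => simp [Hits, hb]
      rw [this]; exact h1 _ _
    · refine le_trans (h N s hb) ?_
      unfold PrE
      simp only [EvE]
      refine Finset.sum_le_sum (fun a _ => mul_le_mul_right ?_ _)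
      refine le_trans (ih (step s a)) ?_
      unfold PrE
      refine EvE_mono w N (fun l _ => ?_)
      by_cases hh : Hits step bad (step s a) l
      · simp [Hits, hh]
      · simp [Hits, hh, hb]

/-- more letters, more chances -/
theorem PrE_hits_succ (hw : ∑ a, w a = 1) (step : σ → α → σ) (bad : σ → Prop) (N : ℕ) (s : σ) :
    PrE w N (Hits step bad s) ≤ PrE w (N + 1) (Hits step bad s) := by
  induction N generalizing s with
  | zero =>
    by_cases hb : bad s
    · have : PrE w (0 + 1) (Hits step bad s) = 1 := by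
        unfold PrE
        refine (EvE_congr w (0 + 1) (G := fun _ => 1) (fun l hl => ?_)).trans (EvE_const w hw _ 1)
        cases l with
        | nil => simp at hl
        | cons a l => simp [Hits, hb]
      rw [this]; simp [PrE, EvE, Hits, hb]
    · have : PrE w 0 (Hits step bad s) = 0 := by simp [PrE, EvE, Hits, hb]
      rw [this]; exact zero_le
  | succ N ih =>
    unfold PrE
    rw [EvE, EvE]
    refine Finset.sum_le_sum (fun a _ => mul_le_mul_right ?_ _)
    by_cases hb : bad s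
    · have e1 : ∀ M : ℕ, EvE w M (fun l => if Hits step bad s (a :: l) then (1 : ℝ≥0∞) else 0) = 1 := by
        intro M
        exact (EvE_congr w M (G := fun _ => 1) (fun l _ => by simp [Hits, hb])).trans (EvE_const w hw _ 1)
      rw [e1, e1]
    · have e1 : ∀ M : ℕ, EvE w M (fun l => if Hits step bad s (a :: l) then (1 : ℝ≥0∞) else 0)
          = PrE w M (Hits step bad (step s a)) := by
        intro M
        refine EvE_congr w M (fun l _ => by simp [Hits, hb])
      rw [e1, e1]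
      exact ih (step s a)

theorem PrE_hits_mono (hw : ∑ a, w a = 1) (step : σ → α → σ) (bad : σ → Prop) {N M : ℕ} (h : N ≤ M)
    (s : σ) : PrE w N (Hits step bad s) ≤ PrE w M (Hits step bad s) := by
  induction M, h using Nat.le_induction with
  | base => exact le_refl _
  | succ M _ ih => exact le_trans ih (PrE_hits_succ w hw step bad M s)

end words

/-! ### the barrier -/

/-- squared length -/
def sqn (x : Pos d) : ℝ := ∑ j, ((x j : ℝ)) ^ 2

theorem sqn_nonneg (x : Pos d) : 0 ≤ sqn x := Finset.sum_nonneg fun _ _ => sq_nonneg _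

theorem sqn_add (x : Pos d) (e : Dir d) :
    sqn (x + dv e) = sqn x + 1 + (if e.2 then 2 * (x e.1 : ℝ) else - (2 * (x e.1 : ℝ))) := by
  unfold sqn
  rw [← Finset.add_sum_erase _ _ (Finset.mem_univ e.1), ← Finset.add_sum_erase _ (fun j => ((x j : ℝ)) ^ 2) (Finset.mem_univ e.1)]
  have h1 : ∑ j ∈ Finset.univ.erase e.1, (((x + dv e) j : ℤ) : ℝ) ^ 2
      = ∑ j ∈ Finset.univ.erase e.1, ((x j : ℝ)) ^ 2 := by
    refine Finset.sum_congr rfl (fun j hj => ?_)
    rw [Finset.mem_erase] at hj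
    have : dv e j = 0 := Pi.single_eq_of_ne hj.1 _
    rw [Pi.add_apply, this, add_zero]
  rw [h1]
  have h2 : dv e e.1 = if e.2 then 1 else -1 := Pi.single_eq_same _ _
  rw [Pi.add_apply, h2]
  rcases e with ⟨i, b⟩
  cases b <;> simp <;> ring

/-- the square of the positive part -/
def pp (y : ℝ) : ℝ := (max y 0) ^ 2

theorem pp_nonneg (y : ℝ) : 0 ≤ pp y := sq_nonneg _

theorem pp_of_nonneg {y : ℝ} (h : 0 ≤ y) : pp y = y ^ 2 := by rw [pp, max_eq_left h]

theorem pp_of_nonpos {y : ℝ} (h : y ≤ 0) : pp y = 0 := by rw [pp, max_eq_right h]; ring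

theorem pp_mono {y z : ℝ} (h : y ≤ z) : pp y ≤ pp z := by
  unfold pp
  exact pow_le_pow_left₀ (le_max_right _ _) (max_le_max h le_rfl) 2

/-- one pair of directions -/
theorem pair_ge (Y : ℝ) (hY : 0 ≤ Y) (k : ℤ) :
    (k : ℝ) ^ 2 - 4 * Y ≤ pp (Y - 1 - 2 * k) + pp (Y - 1 + 2 * k) - 2 * Y ^ 2 := by
  -- it is enough to do `0 ≤ k`
  have key : ∀ k : ℤ, 0 ≤ k →
      (k : ℝ) ^ 2 - 4 * Y ≤ pp (Y - 1 - 2 * k) + pp (Y - 1 + 2 * k) - 2 * Y ^ 2 := by
    intro k hk
    rcases eq_or_lt_of_le hk with h0 | h1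
    · rw [← h0]
      simp only [Int.cast_zero, mul_zero, sub_zero, add_zero]
      by_cases h : 1 ≤ Y
      · rw [pp_of_nonneg (by linarith)]; nlinarith
      · rw [pp_of_nonpos (by linarith)]; nlinarith
    · have hk1 : (1 : ℝ) ≤ k := by exact_mod_cast h1
      rw [pp_of_nonneg (y := Y - 1 + 2 * k) (by linarith)]
      by_cases h : 1 + 2 * (k : ℝ) ≤ Y
      · rw [pp_of_nonneg (by linarith)]; nlinarith
      · rw [pp_of_nonpos (by linarith)]
        push Not at h
        have hz : 1 ≤ 2 * (k : ℝ) - 1 := by linarith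
        have h3 : Y * (1 + 2 * (k : ℝ) - Y) ≥ 0 := mul_nonneg hY (by linarith)
        have h4 : Y * ((2 * (k : ℝ) - 1) - 1) ≥ 0 := mul_nonneg hY (by linarith)
        nlinarith
  rcases le_total 0 k with h | h
  · exact key k h
  · have := key (-k) (by omega)
    push_cast at this
    have e1 : Y - 1 - 2 * -(k : ℝ) = Y - 1 + 2 * k := by ring
    have e2 : Y - 1 + 2 * -(k : ℝ) = Y - 1 - 2 * k := by ring
    rw [e1, e2] at this
    nlinarith

/-- the sum over the neighbours -/
theorem sum_dir (x : Pos d) (A : ℝ) :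
    ∑ e : Dir d, pp (A - sqn (x + dv e)) =
      ∑ j, (pp ((A - sqn x) - 1 - 2 * (x j : ℝ)) + pp ((A - sqn x) - 1 + 2 * (x j : ℝ))) := by
  rw [Fintype.sum_prod_type]
  refine Finset.sum_congr rfl (fun j _ => ?_)
  rw [Fintype.sum_bool, sqn_add, sqn_add]
  simp only [if_true, Bool.false_eq_true, if_false]
  have e1 : A - (sqn x + 1 + 2 * (x j : ℝ)) = A - sqn x - 1 - 2 * (x j : ℝ) := by ring
  have e2 : A - (sqn x + 1 + -(2 * (x j : ℝ))) = A - sqn x - 1 + 2 * (x j : ℝ) := by ring
  rw [e1, e2]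

theorem sum_ge (x : Pos d) (A : ℝ) (hY : 0 ≤ A - sqn x) :
    2 * d * (A - sqn x) ^ 2 + sqn x - 4 * d * (A - sqn x) ≤ ∑ e : Dir d, pp (A - sqn (x + dv e)) := by
  rw [sum_dir]
  have h : ∑ j : Fin d, (((x j : ℤ) : ℝ) ^ 2 - 4 * (A - sqn x) + 2 * (A - sqn x) ^ 2) ≤
      ∑ j, (pp ((A - sqn x) - 1 - 2 * (x j : ℝ)) + pp ((A - sqn x) - 1 + 2 * (x j : ℝ))) := by
    refine Finset.sum_le_sum (fun j _ => ?_)
    have := pair_ge (A - sqn x) hY (x j)
    linarith
  refine le_trans (le_of_eq ?_) h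
  rw [Finset.sum_add_distrib, Finset.sum_sub_distrib]
  simp only [Finset.sum_const, Finset.card_univ, Fintype.card_fin, nsmul_eq_mul]
  unfold sqn
  ring

theorem sum_ge' (x : Pos d) (hx : x ≠ 0) (A : ℝ) (hY : -(1 / 4) ≤ A - sqn x) :
    1 / 4 ≤ ∑ e : Dir d, pp (A - sqn (x + dv e)) := by
  obtain ⟨j, hj⟩ : ∃ j, x j ≠ 0 := by
    by_contra h
    push Not at h
    exact hx (funext h)
  rw [sum_dir]
  refine le_trans ?_ (Finset.single_le_sum (f := fun j => pp ((A - sqn x) - 1 - 2 * (x j : ℝ)) +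
    pp ((A - sqn x) - 1 + 2 * (x j : ℝ))) (fun j _ => add_nonneg (pp_nonneg _) (pp_nonneg _))
    (Finset.mem_univ j))
  have h12 : (1 / 4 : ℝ) = pp (1 / 2) := by rw [pp_of_nonneg (by norm_num)]; norm_num
  rcases lt_or_gt_of_ne hj with h | h
  · have h1 : ((x j : ℤ) : ℝ) ≤ -1 := by exact_mod_cast (by omega : x j ≤ -1)
    have : pp (1 / 2) ≤ pp ((A - sqn x) - 1 - 2 * (x j : ℝ)) := pp_mono (by linarith)
    have := pp_nonneg ((A - sqn x) - 1 + 2 * (x j : ℝ))
    linarith
  · have h1 : (1 : ℝ) ≤ ((x j : ℤ) : ℝ) := by exact_mod_cast (by omega : 1 ≤ x j)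
    have : pp (1 / 2) ≤ pp ((A - sqn x) - 1 + 2 * (x j : ℝ)) := pp_mono (by linarith)
    have := pp_nonneg ((A - sqn x) - 1 - 2 * (x j : ℝ))
    linarith

theorem one_le_sqn (x : Pos d) (hx : x ≠ 0) : 1 ≤ sqn x := by
  obtain ⟨j, hj⟩ : ∃ j, x j ≠ 0 := by
    by_contra h
    push Not at h
    exact hx (funext h)
  refine le_trans ?_ (Finset.single_le_sum (f := fun j => ((x j : ℝ)) ^ 2)
    (fun j _ => sq_nonneg _) (Finset.mem_univ j))
  have : (1 : ℤ) ≤ (x j) ^ 2 := by
    have := sq_pos_of_ne_zero hj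
    omega
  exact_mod_cast this

/-- the barrier is a subsolution (multiplied by `A ^ q`) -/
theorem barrier (hd : 0 < d) (cm cp : ℝ) (hcm : 0 < cm) (hcp : cm ≤ cp) (m : ℕ)
    (hm : 8 * d * cp ≤ m * cm) (p : ℝ) (hp : 0 < p) (hp' : 2 * d * cp * p ≤ 1 / 2) (κ : ℝ)
    (h1 : cm ≤ κ) (h2 : κ ≤ cp) (A : ℝ) (hA : 1 ≤ A) (x : Pos d) (hx : x ≠ 0) :
    pp (A + cm * p - sqn x) * (A / (A + cm * p)) ^ (9 * d * (m + 2)) ≤
      (1 - 2 * d * κ * p) * pp (A - sqn x) + κ * p * ∑ e : Dir d, pp (A - sqn (x + dv e)) := by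
  have hd' : (1 : ℝ) ≤ d := by exact_mod_cast hd
  have hX := one_le_sqn x hx
  have hτ : 0 < cm * p := mul_pos hcm hp
  have hcp0 : 0 < cp := lt_of_lt_of_le hcm hcp
  have hκ : 0 < κ := lt_of_lt_of_le hcm h1
  have hcpp : cp * p ≤ 1 / 4 := by
    have : cp * p ≤ d * (cp * p) := le_mul_of_one_le_left (by positivity) hd'
    nlinarith
  have hτ' : cm * p ≤ 1 / 4 := le_trans (mul_le_mul_of_nonneg_right hcp hp.le) hcpp
  have hκp : 2 * d * κ * p ≤ 1 / 2 := by
    refine le_trans ?_ hp'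
    have : κ * p ≤ cp * p := mul_le_mul_of_nonneg_right h2 hp.le
    nlinarith
  set τ := cm * p with hτdef
  set X := sqn x with hXdef
  set q := 9 * d * (m + 2) with hq
  have hθ1 : (A / (A + τ)) ^ q ≤ 1 := pow_le_one₀ (by positivity) (by rw [div_le_one (by positivity)]; linarith)
  have hθ0 : 0 ≤ (A / (A + τ)) ^ q := by positivity
  have hS0 : 0 ≤ ∑ e : Dir d, pp (A - sqn (x + dv e)) := Finset.sum_nonneg fun _ _ => pp_nonneg _
  rcases lt_or_ge (A - X) 0 with hY | hY
  · -- case 3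
    rw [pp_of_nonpos (y := A - X) hY.le, mul_zero, zero_add]
    rcases le_or_gt (A + τ - X) 0 with h3 | h3
    · rw [pp_of_nonpos h3, zero_mul]; positivity
    · have hS := sum_ge' x hx A (by linarith)
      have e1 : pp (A + τ - X) ≤ τ ^ 2 := by
        rw [pp_of_nonneg h3.le]
        exact pow_le_pow_left₀ h3.le (by linarith) 2
      calc pp (A + τ - X) * (A / (A + τ)) ^ q ≤ τ ^ 2 * 1 :=
            mul_le_mul e1 hθ1 hθ0 (sq_nonneg _)
        _ ≤ cm * p * (1 / 4) := by nlinarith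
        _ ≤ κ * p * ∑ e : Dir d, pp (A - sqn (x + dv e)) := by
            refine mul_le_mul (mul_le_mul_of_nonneg_right h1 hp.le) hS (by norm_num) (by positivity)
  · have hS := sum_ge x A hY
    set Y := A - X with hYdef
    set S := ∑ e : Dir d, pp (A - sqn (x + dv e)) with hSdef
    have e0 : A + τ - X = Y + τ := by rw [hYdef]; ring
    rw [e0, pp_of_nonneg (y := Y + τ) (by linarith), pp_of_nonneg hY]
    have hκp0 : 0 ≤ κ * p := by positivity
    have hR : Y ^ 2 + κ * p * (X - 4 * d * Y) ≤ (1 - 2 * d * κ * p) * Y ^ 2 + κ * p * S := by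
      have := mul_le_mul_of_nonneg_left hS hκp0
      nlinarith
    have hR2 : Y ^ 2 / 2 ≤ (1 - 2 * d * κ * p) * Y ^ 2 + κ * p * S := by
      have h5 : 0 ≤ κ * p * S := mul_nonneg hκp0 hS0
      have h6 : 1 / 2 * Y ^ 2 ≤ (1 - 2 * d * κ * p) * Y ^ 2 :=
        mul_le_mul_of_nonneg_right (by linarith) (sq_nonneg _)
      linarith
    rcases le_or_gt (8 * d * Y) X with h8 | h8
    · -- case 1
      refine le_trans ?_ hR
      have hY8 : 8 * Y ≤ X := by nlinarith
      have e1 : (Y + τ) ^ 2 * (A / (A + τ)) ^ q ≤ (Y + τ) ^ 2 :=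
        mul_le_of_le_one_right (sq_nonneg _) hθ1
      have e2 : κ * p * (X / 2) ≤ κ * p * (X - 4 * d * Y) :=
        mul_le_mul_of_nonneg_left (by linarith) hκp0
      have e3 : τ * (X / 2) ≤ κ * p * (X / 2) :=
        mul_le_mul_of_nonneg_right (mul_le_mul_of_nonneg_right h1 hp.le) (by linarith)
      have e4 : 2 * Y * τ + τ ^ 2 ≤ τ * (X / 2) := by nlinarith
      nlinarith
    · -- case 2
      have hY0 : 0 < Y := by
        by_contra h
        push Not at h
        have : Y = 0 := le_antisymm h hY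
        rw [this] at h8
        linarith
      have hA9 : A ≤ 9 * d * Y := by
        have : A = X + Y := by rw [hYdef]; ring
        nlinarith
      -- the Bernoulli inequality
      have b1 : (A / (A + τ)) ^ (9 * d) ≤ Y / (Y + τ) := by
        have hb := one_add_mul_le_pow (a := τ / A) (by
          have : 0 ≤ τ / A := by positivity
          linarith) (9 * d)
        push_cast at hb
        have hb2 : 1 + τ / Y ≤ (1 + τ / A) ^ (9 * d) := by
          refine le_trans ?_ hb
          have : τ / Y ≤ 9 * d * (τ / A) := by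
            rw [div_le_iff₀ hY0]
            have : 9 * d * (τ / A) * Y = (9 * d * Y) * τ / A := by ring
            rw [this, le_div_iff₀ (by positivity)]
            nlinarith
          linarith
        have e1 : A / (A + τ) = (1 + τ / A)⁻¹ := by field_simp
        have e2 : Y / (Y + τ) = (1 + τ / Y)⁻¹ := by field_simp
        rw [e1, e2, inv_pow]
        exact inv_anti₀ (by positivity) hb2
      have b2 : (A / (A + τ)) ^ q ≤ (Y / (Y + τ)) ^ (m + 2) := by
        rw [hq, pow_mul]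
        exact pow_le_pow_left₀ (by positivity) b1 _
      have b3 : (Y + τ) ^ 2 * (A / (A + τ)) ^ q ≤ Y ^ 2 * (Y / (Y + τ)) ^ m := by
        calc (Y + τ) ^ 2 * (A / (A + τ)) ^ q ≤ (Y + τ) ^ 2 * (Y / (Y + τ)) ^ (m + 2) :=
              mul_le_mul_of_nonneg_left b2 (sq_nonneg _)
          _ = Y ^ 2 * (Y / (Y + τ)) ^ m := by
              rw [pow_add, div_pow Y (Y + τ) 2]
              field_simp
      have b4 : (Y / (Y + τ)) ^ m ≤ (1 + m * (τ / Y))⁻¹ := by
        have hb := one_add_mul_le_pow (a := τ / Y) (by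
          have : 0 ≤ τ / Y := by positivity
          linarith) m
        have e2 : Y / (Y + τ) = (1 + τ / Y)⁻¹ := by field_simp
        rw [e2, inv_pow]
        exact inv_anti₀ (by positivity) hb
      refine le_trans b3 (le_trans (mul_le_mul_of_nonneg_left b4 (sq_nonneg _)) ?_)
      set v := (m : ℝ) * (τ / Y) with hv
      have hv0 : 0 ≤ v := by positivity
      rcases le_or_gt 1 v with hv1 | hv1
      · refine le_trans ?_ hR2
        have : (1 + v)⁻¹ ≤ 1 / 2 := by
          rw [one_div]; exact inv_anti₀ (by norm_num) (by linarith)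
        nlinarith [sq_nonneg Y]
      · refine le_trans ?_ hR
        have hi : (1 + v)⁻¹ ≤ 1 - v / 2 := by
          rw [inv_le_iff_one_le_mul₀ (by linarith)]
          nlinarith
        have e1 : Y ^ 2 * (1 + v)⁻¹ ≤ Y ^ 2 - m * τ * Y / 2 := by
          have : Y ^ 2 * (1 - v / 2) = Y ^ 2 - m * τ * Y / 2 := by
            rw [hv]; field_simp
          rw [← this]
          exact mul_le_mul_of_nonneg_left hi (sq_nonneg _)
        have e2 : - (m * τ * Y / 2) ≤ κ * p * (X - 4 * d * Y) := by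
          have h7 : κ * p * (4 * d * Y) ≤ cp * p * (4 * d * Y) :=
            mul_le_mul_of_nonneg_right (mul_le_mul_of_nonneg_right h2 hp.le) (by positivity)
          have h9 : 8 * d * cp * (p * Y / 2) ≤ m * cm * (p * Y / 2) :=
            mul_le_mul_of_nonneg_right hm (by positivity)
          have h10 : m * τ * Y / 2 = m * cm * (p * Y / 2) := by rw [hτdef]; ring
          have h11 : 0 ≤ κ * p * X := by positivity
          nlinarith
        linarith

theorem nrm_sq_le (v : Pos d) (ρ : ℝ) (h : nrm v ≤ ρ) : sqn v ≤ ρ ^ 2 := by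
  have h0 : nrm v ^ 2 = sqn v := Real.sq_sqrt (sqn_nonneg v)
  rw [← h0]
  exact pow_le_pow_left₀ (Real.sqrt_nonneg _) h 2

end R5a

open R5a in
/-- hitting `0` from distance `ρ` has at least polynomial probability -/
theorem walk_hit (d : ℕ) (hd : 0 < d) (cm cp : ℝ) (hcm : 0 < cm) (hcp : cm ≤ cp) :
    ∃ C : ℕ, 0 < C ∧ ∀ (σ α : Type) [Fintype α] (w : α → ℝ≥0∞) (step : σ → α → σ) (D : σ → Pos d)
      (act : σ → Prop) (p : ℝ), 0 < p → 2 * d * cp * p ≤ 1 / 2 → ∑ a, w a = 1 →
      SymW w step D act cm cp p → ∀ ρ : ℕ, 1 ≤ ρ → ∀ s, nrm (D s) ≤ ρ → ∀ N : ℕ,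
      (C : ℝ) * ρ ^ 2 ≤ N * p →
      ENNReal.ofReal (1 / (C * (ρ : ℝ) ^ C)) ≤ PrE w N (Hits step (fun s => D s = 0 ∨ ¬ act s) s) := by
  have hcp0 : 0 < cp := lt_of_lt_of_le hcm hcp
  have hd' : (1 : ℝ) ≤ d := by exact_mod_cast hd
  obtain ⟨m, hm⟩ := exists_nat_ge (8 * d * cp / cm)
  have hm' : 8 * d * cp ≤ m * cm := by rwa [div_le_iff₀ hcm] at hm
  set q := 9 * d * (m + 2) with hq
  have hq2 : 2 ≤ q := by rw [hq]; nlinarith
  refine ⟨4 ^ (q + 1) + ⌈2 / cm⌉₊ + ⌈1 / cp⌉₊, by positivity, ?_⟩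
  intro σ α _ w step D act p hp hp' hw hS ρ hρ s hs N hN
  set C := 4 ^ (q + 1) + ⌈2 / cm⌉₊ + ⌈1 / cp⌉₊ with hC
  have hρ' : (1 : ℝ) ≤ ρ := by exact_mod_cast hρ
  have hcpp : cp * p ≤ 1 / 4 := by
    have : cp * p ≤ d * (cp * p) := le_mul_of_one_le_left (by positivity) hd'
    nlinarith
  have hτ : 0 < cm * p := mul_pos hcm hp
  have hτ' : cm * p ≤ 1 / 4 := le_trans (mul_le_mul_of_nonneg_right hcp hp.le) hcpp
  -- the barrier
  set A : ℕ → ℝ := fun n => 1 + cm * p * n with hA
  have hA1 : ∀ n, 1 ≤ A n := by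
    intro n
    simp only [hA]
    have : 0 ≤ cm * p * n := by positivity
    linarith
  have hAs : ∀ n, A (n + 1) = A n + cm * p := by
    intro n
    simp only [hA]; push_cast; ring
  set F : ℕ → σ → ℝ≥0∞ := fun n s => ENNReal.ofReal (pp (A n - sqn (D s)) / (A n) ^ q) with hF
  have hmain : ∀ M : ℕ, F M s ≤ PrE w M (Hits step (fun s => D s = 0 ∨ ¬ act s) s) := by
    intro M
    refine le_PrE_hits w hw step _ F ?_ ?_ ?_ M s
    · intro n s
      simp only [hF]
      rw [← ENNReal.ofReal_one]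
      refine ENNReal.ofReal_le_ofReal ?_
      rw [div_le_one (by have := hA1 n; positivity)]
      have h1 : pp (A n - sqn (D s)) ≤ pp (A n) := pp_mono (by have := sqn_nonneg (D s); linarith)
      refine le_trans h1 ?_
      rw [pp_of_nonneg (by have := hA1 n; linarith)]
      exact pow_le_pow_right₀ (hA1 n) hq2
    · intro s hb
      push Not at hb
      simp only [hF]
      have h1 := one_le_sqn (D s) hb.1
      have h2 : A 0 = 1 := by simp [hA]
      rw [pp_of_nonpos (by rw [h2]; linarith), zero_div, ENNReal.ofReal_zero]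
    · intro n s hb
      push Not at hb
      obtain ⟨κ, h1, h2, h3⟩ := hS s hb.2
      have hκ : 0 < κ := lt_of_lt_of_le hcm h1
      have hκp : 2 * d * κ * p ≤ 1 / 2 := by
        refine le_trans ?_ hp'
        have : κ * p ≤ cp * p := mul_le_mul_of_nonneg_right h2 hp.le
        nlinarith
      have hb1 := barrier hd cm cp hcm hcp m hm' p hp hp' κ h1 h2 (A n) (hA1 n) (D s) hb.1
      rw [← hq] at hb1
      simp only [hF]
      rw [h3 (fun x => ENNReal.ofReal (pp (A n - sqn x) / (A n) ^ q)), hAs]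
      have hAn := hA1 n
      rw [← ENNReal.ofReal_mul (by linarith)]
      have hsum : ∑ e : Dir d, ENNReal.ofReal (κ * p) * ENNReal.ofReal (pp (A n - sqn (D s + dv e)) / (A n) ^ q)
          = ENNReal.ofReal (∑ e : Dir d, κ * p * (pp (A n - sqn (D s + dv e)) / (A n) ^ q)) := by
        rw [ENNReal.ofReal_sum_of_nonneg (fun e _ => mul_nonneg (by positivity)
          (div_nonneg (pp_nonneg _) (by positivity)))]
        refine Finset.sum_congr rfl (fun e _ => ?_)
        exact (ENNReal.ofReal_mul (by positivity)).symm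
      rw [hsum, ← ENNReal.ofReal_add (mul_nonneg (by linarith) (div_nonneg (pp_nonneg _) (by positivity)))
        (Finset.sum_nonneg fun e _ => mul_nonneg (by positivity) (div_nonneg (pp_nonneg _) (by positivity)))]
      refine ENNReal.ofReal_le_ofReal ?_
      have hApos : 0 < (A n) ^ q := by positivity
      have hA2pos : 0 < (A n + cm * p) ^ q := by positivity
      have e1 : pp (A n + cm * p - sqn (D s)) / (A n + cm * p) ^ q =
          (pp (A n + cm * p - sqn (D s)) * (A n / (A n + cm * p)) ^ q) / (A n) ^ q := by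
        rw [div_pow]; field_simp
      have e2 : (1 - 2 * d * κ * p) * (pp (A n - sqn (D s)) / (A n) ^ q) +
          ∑ e : Dir d, κ * p * (pp (A n - sqn (D s + dv e)) / (A n) ^ q) =
          ((1 - 2 * d * κ * p) * pp (A n - sqn (D s)) + κ * p * ∑ e : Dir d, pp (A n - sqn (D s + dv e)))
            / (A n) ^ q := by
        rw [add_div, Finset.mul_sum, Finset.sum_div]
        congr 1
        · ring
        · refine Finset.sum_congr rfl (fun e _ => ?_)
          ring
      rw [e1, e2]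
      exact div_le_div_of_nonneg_right hb1 hApos.le
  -- the number of letters
  set M := ⌈2 * (ρ : ℝ) ^ 2 / (cm * p)⌉₊ with hM
  have hM1 : 2 * (ρ : ℝ) ^ 2 ≤ cm * p * M := by
    have := Nat.le_ceil (2 * (ρ : ℝ) ^ 2 / (cm * p))
    rw [← hM, div_le_iff₀ hτ] at this
    linarith
  have hM2 : cm * p * M ≤ 2 * (ρ : ℝ) ^ 2 + cm * p := by
    have := (Nat.ceil_lt_add_one (a := 2 * (ρ : ℝ) ^ 2 / (cm * p)) (by positivity)).le
    rw [← hM] at this
    calc cm * p * M ≤ cm * p * (2 * (ρ : ℝ) ^ 2 / (cm * p) + 1) :=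
          mul_le_mul_of_nonneg_left this hτ.le
      _ = 2 * (ρ : ℝ) ^ 2 + cm * p := by field_simp
  have hCr : 2 / cm + 1 / cp ≤ C := by
    have h1 := Nat.le_ceil (2 / cm)
    have h2 := Nat.le_ceil (1 / cp)
    rw [hC]
    push_cast
    have : (0 : ℝ) ≤ 4 ^ (q + 1) := by positivity
    linarith
  have hMN : M ≤ N := by
    have h1 : (M : ℝ) * (cm * p) ≤ N * (cm * p) := by
      have h2 : (2 / cm + 1 / cp) * (ρ : ℝ) ^ 2 ≤ C * (ρ : ℝ) ^ 2 :=
        mul_le_mul_of_nonneg_right hCr (by positivity)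
      have h3 : cm * ((2 / cm + 1 / cp) * (ρ : ℝ) ^ 2) ≤ cm * (N * p) :=
        mul_le_mul_of_nonneg_left (le_trans h2 hN) hcm.le
      have h4 : cm * ((2 / cm + 1 / cp) * (ρ : ℝ) ^ 2) = 2 * (ρ : ℝ) ^ 2 + cm * (1 / cp) * (ρ : ℝ) ^ 2 := by
        field_simp
      have h5 : cm * p ≤ cm * (1 / cp) * (ρ : ℝ) ^ 2 := by
        have h6 : p ≤ 1 / cp := by rw [le_div_iff₀ hcp0]; linarith
        have h7 : cm * p ≤ cm * (1 / cp) := mul_le_mul_of_nonneg_left h6 hcm.le
        have h8 : cm * (1 / cp) * 1 ≤ cm * (1 / cp) * (ρ : ℝ) ^ 2 :=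
          mul_le_mul_of_nonneg_left (by nlinarith) (by positivity)
        linarith
      nlinarith
    have := le_of_mul_le_mul_right h1 hτ
    exact_mod_cast this
  refine le_trans ?_ (le_trans (hmain M) (PrE_hits_mono w hw step _ hMN s))
  simp only [hF]
  refine ENNReal.ofReal_le_ofReal ?_
  have hX := nrm_sq_le (D s) ρ hs
  have hX0 := sqn_nonneg (D s)
  have hAM : A M = 1 + cm * p * M := rfl
  have hρ2 : (1 : ℝ) ≤ (ρ : ℝ) ^ 2 := by nlinarith
  have hA4 : A M ≤ 4 * (ρ : ℝ) ^ 2 := by rw [hAM]; linarith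
  have hAl : A M / 2 ≤ A M - sqn (D s) := by rw [hAM]; linarith
  have hAp : 1 ≤ A M := hA1 M
  have hpp : 1 / 4 ≤ pp (A M - sqn (D s)) := by
    rw [pp_of_nonneg (by linarith)]
    nlinarith
  have h2q : 2 * q ≤ C := by
    have h1 : q + 1 < 2 ^ (q + 1) := Nat.lt_two_pow_self
    have h2 : 2 ^ (q + 1) * 2 ^ (q + 1) = 4 ^ (q + 1) := by rw [← mul_pow]; norm_num
    have h3 : 2 * 2 ^ (q + 1) ≤ 2 ^ (q + 1) * 2 ^ (q + 1) := by
      refine Nat.mul_le_mul_right _ ?_
      calc 2 = 2 ^ 1 := by norm_num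
        _ ≤ 2 ^ (q + 1) := Nat.pow_le_pow_right (by norm_num) (by omega)
    rw [hC]; omega
  calc 1 / ((C : ℝ) * (ρ : ℝ) ^ C) ≤ 1 / ((4 : ℝ) ^ (q + 1) * (ρ : ℝ) ^ (2 * q)) := by
        refine one_div_le_one_div_of_le (by positivity) ?_
        refine mul_le_mul ?_ (pow_le_pow_right₀ hρ' h2q) (by positivity) (by positivity)
        have : (4 ^ (q + 1) : ℕ) ≤ C := by rw [hC]; omega
        exact_mod_cast this
    _ = (1 / 4) / (4 * (ρ : ℝ) ^ 2) ^ q := by
        rw [mul_pow, ← pow_mul]; field_simp; ring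
    _ ≤ (1 / 4) / (A M) ^ q := by
        refine div_le_div_of_nonneg_left (by norm_num) (by positivity) ?_
        exact pow_le_pow_left₀ (by positivity) hA4 q
    _ ≤ pp (A M - sqn (D s)) / (A M) ^ q := div_le_div_of_nonneg_right hpp (by positivity)

end ZI
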