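import Pool.Agent.ZI.Ev1
import Pool.Agent.ZI.R1
import Pool.Agent.ZI.R2
import Pool.Agent.ZI.R3
import Pool.Agent.ZI.R5a

/-! # Row C2: the bonus lemma (paper 3.3) -/

set_option autoImplicit false

open scoped ENNReal BigOperators Classical

noncomputable section

namespace ZI
namespace C2

open ZI.Rows

variable {d : ℕ}

/-! ### sums over letters -/

theorem sum_split {α : Type} [Fintype α] (w : α → ℝ≥0∞) (hw : ∑ a, w a = 1) (S : Finset α)
    (b : ℝ≥0∞) (G : α → ℝ≥0∞) (h : ∀ a, a ∉ S → G a = b) :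
    ∑ a, w a * G a = (1 - ∑ a ∈ S, w a) * b + ∑ a ∈ S, w a * G a := by
  have h1 : ∑ a, w a * G a = ∑ a ∈ Sᶜ, w a * G a + ∑ a ∈ S, w a * G a := by
    rw [add_comm, Finset.sum_add_sum_compl]
  have h2 : ∑ a ∈ Sᶜ, w a * G a = (∑ a ∈ Sᶜ, w a) * b := by
    rw [Finset.sum_mul]
    refine Finset.sum_congr rfl (fun a ha => ?_)
    rw [h a (Finset.mem_compl.mp ha)]
  have h3 : ∑ a ∈ Sᶜ, w a = 1 - ∑ a ∈ S, w a := by
    have h4 : ∑ a ∈ Sᶜ, w a + ∑ a ∈ S, w a = 1 := by
      rw [add_comm, Finset.sum_add_sum_compl, hw]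
    have h5 : ∑ a ∈ S, w a ≠ ⊤ := by
      intro h
      rw [h, add_top] at h4
      exact ENNReal.top_ne_one h4
    exact ENNReal.eq_sub_of_add_eq h5 h4
  rw [h1, h2, h3]

/-- the opposite direction -/
def opp (e : Dir d) : Dir d := (e.1, !e.2)

theorem dv_opp (e : Dir d) : dv (opp e) = - dv e := by
  unfold dv opp
  rw [← Pi.single_neg]
  cases e.2 <;> simp

def oppE : Dir d ≃ Dir d where
  toFun := opp
  invFun := opp
  left_inv e := by simp [opp]
  right_inv e := by simp [opp]

variable {m : Model}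

theorem lam_lb (m : Model) (hd : 0 < d) (k : ℕ) : m.Gm / (2 * d) ≤ m.lam d k := by
  unfold Model.lam
  exact div_le_div_of_nonneg_right (m.inc_lb k) (by positivity)

theorem lam_ub (m : Model) (hd : 0 < d) (k : ℕ) : m.lam d k ≤ m.Gp / (2 * d) := by
  unfold Model.lam
  exact div_le_div_of_nonneg_right (m.inc_ub k) (by positivity)

theorem lam_pos (m : Model) (hd : 0 < d) (k : ℕ) : 0 < m.lam d k := by
  have := lam_lb m hd k
  have h2 : 0 < m.Gm / (2 * d) := div_pos m.Gm_pos (by positivity)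
  linarith

/-- the letter `(x, k, e)` -/
def L (q : Par d m) (x : Tor d q.M) (k : ℕ) (hk : k < q.K) (e : Dir d) : Let d q.M q.K :=
  some (x, ⟨k, hk⟩, e)

theorem w_L (q : Par d m) (x : Tor d q.M) (k : ℕ) (hk : k < q.K) (e : Dir d) :
    q.w (L q x k hk e) = ENNReal.ofReal (m.lam d k * q.p) := rfl

theorem L_inj (q : Par d m) (x : Tor d q.M) (k : ℕ) (hk : k < q.K) :
    Function.Injective (L q x k hk) := by
  intro e e' h
  simpa [L] using h

/-- the letters at `x` of the level `k` -/
def LS (q : Par d m) (x : Tor d q.M) (k : ℕ) (hk : k < q.K) : Finset (Let d q.M q.K) :=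
  Finset.univ.image (L q x k hk)

theorem mem_LS (q : Par d m) (x : Tor d q.M) (k : ℕ) (hk : k < q.K) (a : Let d q.M q.K) :
    a ∈ LS q x k hk ↔ ∃ e, L q x k hk e = a := by
  simp [LS]

theorem sum_LS (q : Par d m) (x : Tor d q.M) (k : ℕ) (hk : k < q.K) (G : Let d q.M q.K → ℝ≥0∞) :
    ∑ a ∈ LS q x k hk, q.w a * G a = ∑ e : Dir d, ENNReal.ofReal (m.lam d k * q.p) * G (L q x k hk e) := by
  unfold LS
  rw [Finset.sum_image (fun e _ e' _ h => L_inj q x k hk h)]
  rfl

theorem sum_LS' (q : Par d m) (x : Tor d q.M) (k : ℕ) (hk : k < q.K) :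
    ∑ a ∈ LS q x k hk, q.w a = ENNReal.ofReal (2 * d * m.lam d k * q.p) := by
  have h := sum_LS q x k hk (fun _ => 1)
  simp only [mul_one] at h
  rw [h, Finset.sum_const, Finset.card_univ, Fintype.card_prod, Fintype.card_fin, Fintype.card_bool,
    nsmul_eq_mul]
  have : ((d * 2 : ℕ) : ℝ≥0∞) = ENNReal.ofReal (d * 2) := by
    rw [← ENNReal.ofReal_natCast]; push_cast; rfl
  rw [this, ← ENNReal.ofReal_mul (by positivity)]
  congr 1; ring

/-! ### the path and the marker along one letter -/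

section oneStep

variable {M K : ℕ} (η : Tor d M → ℕ) (X : Pos d) (P : Pos d × ℕ) (e0 : Dir d)

theorem Xr_none : Xr (K := K) η X e0 none = X := rfl

theorem Xr_jump (k : Fin K) (hk : (k : ℕ) = 0) (e : Dir d) :
    Xr η X e0 (some (tv X, k, e)) = X + dv e := by
  simp [Xr, toLab, hk]

theorem Xr_off (x : Tor d M) (k : Fin K) (e : Dir d) (h : x ≠ tv X) :
    Xr η X e0 (some (x, k, e)) = X := by
  simp [Xr, toLab, h]

theorem Xr_high (x : Tor d M) (k : Fin K) (e : Dir d) (h : 2 ≤ (k : ℕ)) :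
    Xr η X e0 (some (x, k, e)) = X := by
  have h0 : (k : ℕ) ≠ 0 := by omega
  have h1 : (k : ℕ) ≠ 1 := by omega
  simp [Xr, toLab, h0, h1]

theorem Xr_nb (x : Tor d M) (k : Fin K) (e : Dir d) (h : (k : ℕ) ≠ 0)
    (hb : ¬ IsBonus η X e0 (some (x, k, e))) : Xr η X e0 (some (x, k, e)) = X := by
  show (if x = tv X ∧ (k : ℕ) = 0 then X + dv e
    else if x = tv X ∧ (k : ℕ) = 1 ∧ e = e0 ∧ 2 ≤ η (tv X) then X + dv e0 else X) = X
  rw [if_neg (fun hh => h hh.2), if_neg]
  rintro ⟨h1, h2, h3, h4⟩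
  refine hb ⟨?_, h4⟩
  simp [toLab, h1, h2, h3]

theorem mkrA_none : mkrA (K := K) η P none = P := rfl

theorem mkrA_some (x : Tor d M) (k : Fin K) (e : Dir d) :
    mkrA η P (some (x, k, e)) = mkr η P (x, (k : ℕ), e) := rfl

theorem stepA_none : stepA (K := K) η none = η := rfl

theorem stepA_some (x : Tor d M) (k : Fin K) (e : Dir d) :
    stepA η (some (x, k, e)) = mv nbT η (x, (k : ℕ), e) := rfl

theorem mkrA_lt (hM : 2 ≤ M) (a : Let d M K) (h : P.2 < η (tv P.1)) :
    (mkrA η P a).2 < stepA η a (tv (mkrA η P a).1) := by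
  rcases a with _ | ⟨x, k, e⟩
  · exact h
  · exact mkr_lt hM η P _ h

/-- the marker moves only along its own letters -/
theorem mkrA_fst (x : Tor d M) (k : Fin K) (e : Dir d) (h : ¬ (x = tv P.1 ∧ (k : ℕ) = P.2)) :
    (mkrA η P (some (x, k, e))).1 = P.1 := by
  rw [mkrA_some, mkr]
  split_ifs with h1 h2 h3
  · exact absurd ⟨h1.2, h2⟩ h
  · rfl
  · rfl
  · rfl

theorem mkrA_jump (k : Fin K) (e : Dir d) (hk : (k : ℕ) = P.2) (h : P.2 < η (tv P.1)) :
    mkrA η P (some (tv P.1, k, e)) = (P.1 + dv e, η (tv P.1 + tv (dv e))) := by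
  rw [mkrA_some]
  exact mkr_jump η P _ (by simpa [hk] using h) rfl hk

theorem not_bonus_zero (x : Tor d M) (k : Fin K) (e : Dir d) (h : (k : ℕ) ≠ 1) :
    ¬ IsBonus η X e0 (some (x, k, e)) := by
  rintro ⟨h1, -⟩
  simp [toLab] at h1
  exact h h1.2.1

theorem not_bonus_off (x : Tor d M) (k : Fin K) (e : Dir d) (h : x ≠ tv X) :
    ¬ IsBonus η X e0 (some (x, k, e)) := by
  rintro ⟨h1, -⟩
  simp [toLab] at h1
  exact h h1.1

/-- the occupation at the path stays positive (no bonus) -/
theorem pos_step (hM : 2 ≤ M) (a : Let d M K) (hb : ¬ IsBonus η X e0 a) (h : 0 < η (tv X)) :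
    0 < stepA η a (tv (Xr η X e0 a)) := by
  rcases a with _ | ⟨x, k, e⟩
  · exact h
  · rw [stepA_some]
    by_cases hx : x = tv X
    · by_cases hk : (k : ℕ) = 0
      · subst hx
        rw [Xr_jump η X e0 k hk e, tv_add]
        have := mv_to hM η (tv X, (k : ℕ), e) (by simpa [hk] using h)
        simp only at this
        rw [this]; omega
      · rw [Xr_nb η X e0 x k e hk hb]
        by_cases hh : (k : ℕ) < η x
        · have := mv_at hM η (x, (k : ℕ), e) hh
          simp only at this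
          rw [← hx, this]; omega
        · rw [mv_neff η _ hh]; exact h
    · rw [Xr_off η X e0 x k e hx]
      exact lt_of_lt_of_le h (le_mv_of_ne hM η _ _ (fun hh => hx hh.symm))

/-- when path and marker meet, there are two particles -/
theorem meet_step (hM : 2 ≤ M) (a : Let d M K) (hb : ¬ IsBonus η X e0 a) (h : 0 < η (tv X))
    (hP : P.2 < η (tv P.1)) (hne : (tv X : Tor d M) ≠ tv P.1)
    (hm : (tv (Xr η X e0 a) : Tor d M) = tv (mkrA η P a).1) :
    2 ≤ stepA η a (tv (Xr η X e0 a)) := by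
  rcases a with _ | ⟨x, k, e⟩
  · exact absurd hm hne
  · rw [stepA_some]
    by_cases hx : x = tv X
    · have hxP : x ≠ tv P.1 := by rw [hx]; exact hne
      have e1 : (mkrA η P (some (x, k, e))).1 = P.1 := mkrA_fst η P x k e (fun hh => hxP hh.1)
      by_cases hk : (k : ℕ) = 0
      · subst hx
        rw [Xr_jump η X e0 k hk e, tv_add] at hm ⊢
        rw [e1] at hm
        have := mv_to hM η (tv X, (k : ℕ), e) (by simpa [hk] using h)
        simp only at this
        rw [this, hm]; omega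
      · rw [Xr_nb η X e0 x k e hk hb, e1] at hm
        exact absurd hm hne
    · rw [Xr_off η X e0 x k e hx] at hm ⊢
      by_cases hp : x = tv P.1 ∧ (k : ℕ) = P.2
      · obtain ⟨hp1, hp2⟩ := hp
        subst hp1
        rw [mkrA_jump η P k e hp2 hP] at hm
        rw [hm]
        show 2 ≤ mv nbT η (tv P.1, (k : ℕ), e) (tv (P.1 + dv e))
        rw [tv_add]
        have := mv_to hM η (tv P.1, (k : ℕ), e) (by simpa [hp2] using hP)
        simp only at this
        rw [this]
        have h3 : (tv X : Tor d M) = tv P.1 + tv (dv e) := by rw [hm]; exact tv_add _ _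
        rw [← h3]; omega
      · rw [mkrA_fst η P x k e hp] at hm
        exact absurd hm hne

/-- two particles at the path remain, if no label of the levels `0, 1` rings there -/
theorem two_step (hM : 2 ≤ M) (a : Let d M K) (h : 2 ≤ η (tv X))
    (ha : ∀ (k : Fin K) (e : Dir d), a = some (tv X, k, e) → 2 ≤ (k : ℕ)) :
    Xr η X e0 a = X ∧ 2 ≤ stepA η a (tv X) := by
  rcases a with _ | ⟨x, k, e⟩
  · exact ⟨rfl, h⟩
  · rw [stepA_some]
    by_cases hx : x = tv X
    · subst hx
      have hk := ha k e rfl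
      refine ⟨Xr_high η X e0 _ k e hk, ?_⟩
      by_cases hh : (k : ℕ) < η (tv X)
      · have := mv_at hM η (tv X, (k : ℕ), e) hh
        simp only at this
        rw [this]; omega
      · rw [mv_neff η _ hh]; exact h
    · exact ⟨Xr_off η X e0 x k e hx, le_trans h (le_mv_of_ne hM η _ _ (fun hh => hx hh.symm))⟩

end oneStep

/-! ### after the meeting -/

section after

variable {m : Model} (q : Par d m)

theorem M2 : 2 ≤ q.M := by have := q.M_ge; omega

theorem K1 : 1 < q.K := by have := q.K_ge; omega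

theorem K0 : 0 < q.K := by have := q.K_ge; omega

/-- probability of the bonus letter -/
def al (q : Par d m) : ℝ := m.lam d 1 * q.p

/-- probability of the letters of the levels `0, 1` at one site -/
def be (q : Par d m) : ℝ := 2 * d * (m.lam d 0 + m.lam d 1) * q.p

def ga (q : Par d m) (n : ℕ) : ℝ := al q / be q * (1 - (1 - be q) ^ n)

theorem al_pos (hd : 0 < d) : 0 < al q := mul_pos (lam_pos m hd 1) q.p_pos

theorem be_pos (hd : 0 < d) : 0 < be q := by
  have h0 := lam_pos m hd 0
  have h1 := lam_pos m hd 1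
  have := q.p_pos
  unfold be
  positivity

theorem be_ub (hd : 0 < d) : be q ≤ 2 * m.Gp * q.p := by
  have h0 := lam_ub m hd 0
  have h1 := lam_ub m hd 1
  have hd' : (0 : ℝ) < d := by exact_mod_cast hd
  unfold be
  have : 2 * d * (m.lam d 0 + m.lam d 1) ≤ 2 * m.Gp := by
    have : 2 * d * (m.lam d 0 + m.lam d 1) ≤ 2 * d * (m.Gp / (2 * d) + m.Gp / (2 * d)) :=
      mul_le_mul_of_nonneg_left (add_le_add h0 h1) (by positivity)
    refine le_trans this (le_of_eq ?_)
    field_simp; ring
  exact mul_le_mul_of_nonneg_right this q.p_pos.le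

theorem be_lt_one (hd : 0 < d) : be q ≤ 1 / 4 := by
  have h1 := be_ub q hd
  have h2 := q.p_small
  linarith

theorem be_lb (hd : 0 < d) : 2 * m.Gm * q.p ≤ be q := by
  have h0 := lam_lb m hd 0
  have h1 := lam_lb m hd 1
  have hd' : (0 : ℝ) < d := by exact_mod_cast hd
  unfold be
  have : 2 * m.Gm ≤ 2 * d * (m.lam d 0 + m.lam d 1) := by
    have : 2 * d * (m.Gm / (2 * d) + m.Gm / (2 * d)) ≤ 2 * d * (m.lam d 0 + m.lam d 1) :=
      mul_le_mul_of_nonneg_left (add_le_add h0 h1) (by positivity)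
    refine le_trans (le_of_eq ?_) this
    field_simp; ring
  exact mul_le_mul_of_nonneg_right this q.p_pos.le

theorem ga_zero : ga q 0 = 0 := by simp [ga]

theorem ga_succ (hd : 0 < d) (n : ℕ) : ga q (n + 1) = al q + (1 - be q) * ga q n := by
  have := be_pos q hd
  unfold ga
  rw [pow_succ]
  field_simp
  ring

theorem ga_nonneg (hd : 0 < d) (n : ℕ) : 0 ≤ ga q n := by
  have h1 := be_pos q hd
  have h2 := be_lt_one q hd
  have h3 := al_pos q hd
  have : (1 - be q) ^ n ≤ 1 := pow_le_one₀ (by linarith) (by linarith)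
  unfold ga
  exact mul_nonneg (by positivity) (by linarith)

theorem ga_mono (hd : 0 < d) {n n' : ℕ} (h : n ≤ n') : ga q n ≤ ga q n' := by
  have h1 := be_pos q hd
  have h2 := be_lt_one q hd
  have h3 := al_pos q hd
  have : (1 - be q) ^ n' ≤ (1 - be q) ^ n := pow_le_pow_of_le_one (by linarith) (by linarith) h
  unfold ga
  exact mul_le_mul_of_nonneg_left (by linarith) (by positivity)

theorem ga_lb (hd : 0 < d) : m.Gm / (4 * d * m.Gp) * (1 - Real.exp (- m.Gm)) ≤ ga q q.N1 := by
  have hd' : (0 : ℝ) < d := by exact_mod_cast hd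
  have h1 := be_pos q hd
  have h2 := be_lt_one q hd
  have h3 := al_pos q hd
  have hGp : 0 < m.Gp := by have := m.le_Gp; linarith
  have hGm := m.Gm_pos
  have hp := q.p_pos
  unfold ga
  refine mul_le_mul ?_ ?_ ?_ (by positivity)
  · rw [div_le_div_iff₀ (by positivity) h1]
    have h4 := be_ub q hd
    have h5 := lam_lb m hd 1
    have h6 : m.Gm / (2 * d) * q.p ≤ al q := mul_le_mul_of_nonneg_right h5 hp.le
    calc m.Gm * be q ≤ m.Gm * (2 * m.Gp * q.p) := mul_le_mul_of_nonneg_left h4 hGm.le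
      _ = (m.Gm / (2 * d) * q.p) * (4 * d * m.Gp) := by field_simp; ring
      _ ≤ al q * (4 * d * m.Gp) := mul_le_mul_of_nonneg_right h6 (by positivity)
  · have h4 : (1 - be q) ^ q.N1 ≤ Real.exp (- m.Gm) := by
      calc (1 - be q) ^ q.N1 ≤ (Real.exp (- be q)) ^ q.N1 :=
            pow_le_pow_left₀ (by linarith) (by have := Real.add_one_le_exp (- be q); linarith) _
        _ = Real.exp (- (q.N1 * be q)) := by rw [← Real.exp_nat_mul]; congr 1; ring
        _ ≤ Real.exp (- m.Gm) := by
            rw [Real.exp_le_exp]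
            have h5 := be_lb q hd
            have h6 := q.p_lb
            have h7 : (q.N1 : ℝ) * (2 * m.Gm * q.p) ≤ q.N1 * be q :=
              mul_le_mul_of_nonneg_left h5 (by positivity)
            nlinarith
    linarith
  · have : Real.exp (- m.Gm) ≤ 1 := by rw [Real.exp_le_one_iff]; linarith
    linarith

variable {σ : Type} (cf : σ → (Tor d q.M → ℕ)) (X : σ → Pos d) (pol : σ → Dir d)
  (step : σ → Let d q.M q.K → σ)

theorem PrE_succ {α : Type} [Fintype α] (w : α → ℝ≥0∞) (n : ℕ) (E : List α → Prop) :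
    PrE w (n + 1) E = ∑ a, w a * PrE w n (fun l => E (a :: l)) := rfl

/-- one more letter for `BonusIn` -/
theorem bonus_succ (hd : 0 < d) (n : ℕ) (s : σ) :
    PrE q.w (n + 1) (BonusIn cf X pol step s) =
      ∑ a, q.w a * (if IsBonus (cf s) (X s) (pol s) a then 1 else
        PrE q.w n (BonusIn cf X pol step (step s a))) := by
  rw [PrE_succ]
  refine Finset.sum_congr rfl (fun a _ => ?_)
  congr 1
  by_cases h : IsBonus (cf s) (X s) (pol s) a
  · rw [if_pos h]
    refine (EvE_congr q.w n (G := fun _ => 1) (fun l _ => ?_)).trans (EvE_const _ (sum_w q hd) _ 1)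
    simp [BonusIn, h]
  · rw [if_neg h]
    refine EvE_congr q.w n (fun l _ => ?_)
    simp [BonusIn, h]

/-- if there are two particles at the path then a bonus comes with a good probability -/
theorem bonus_lb (hd : 0 < d) (h1 : ∀ s a, cf (step s a) = stepA (cf s) a)
    (h2 : ∀ s a, X (step s a) = Xr (cf s) (X s) (pol s) a) (n : ℕ) (s : σ)
    (h : 2 ≤ cf s (tv (X s))) : ENNReal.ofReal (ga q n) ≤ PrE q.w n (BonusIn cf X pol step s) := by
  induction n generalizing s with
  | zero => rw [ga_zero, ENNReal.ofReal_zero]; exact zero_le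
  | succ n ih =>
    rw [bonus_succ q cf X pol step hd, ga_succ q hd]
    set x0 : Tor d q.M := tv (X s) with hx0
    set S : Finset (Let d q.M q.K) := LS q x0 0 (K0 q) ∪ LS q x0 1 (K1 q) with hS
    have hdisj : Disjoint (LS q x0 0 (K0 q)) (LS q x0 1 (K1 q)) := by
      rw [Finset.disjoint_left]
      intro a ha hb
      rw [mem_LS] at ha hb
      obtain ⟨e, he⟩ := ha
      obtain ⟨e', he'⟩ := hb
      rw [← he] at he'
      simp [L] at he'
    have hSw : ∑ a ∈ S, q.w a = ENNReal.ofReal (be q) := by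
      rw [hS, Finset.sum_union hdisj, sum_LS', sum_LS', ← ENNReal.ofReal_add]
      · congr 1; unfold be; push_cast; ring
      · have := lam_pos m hd 0; have := q.p_pos; positivity
      · have := lam_pos m hd 1; have := q.p_pos; positivity
    set G : Let d q.M q.K → ℝ≥0∞ := fun a => if a = L q x0 1 (K1 q) (pol s) then 1 else
      if a ∈ S then 0 else ENNReal.ofReal (ga q n) with hG
    have hL : L q x0 1 (K1 q) (pol s) ∈ S := by
      rw [hS, Finset.mem_union]; right; rw [mem_LS]; exact ⟨_, rfl⟩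
    have hle : ∀ a, G a ≤ (if IsBonus (cf s) (X s) (pol s) a then 1 else
        PrE q.w n (BonusIn cf X pol step (step s a))) := by
      intro a
      simp only [hG]
      by_cases ha : a = L q x0 1 (K1 q) (pol s)
      · have hb : IsBonus (cf s) (X s) (pol s) a := by
          refine ⟨?_, h⟩
          rw [ha]; rfl
        rw [if_pos ha, if_pos hb]
      · rw [if_neg ha]
        by_cases hs : a ∈ S
        · rw [if_pos hs]; exact zero_le
        · rw [if_neg hs]
          have hk : ∀ (k : Fin q.K) (e : Dir d), a = some (tv (X s), k, e) → 2 ≤ (k : ℕ) := by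
            intro k e hk
            by_contra hk2
            apply hs
            rw [hS, Finset.mem_union, mem_LS, mem_LS]
            rcases Nat.lt_or_ge (k : ℕ) 1 with h3 | h3
            · left
              refine ⟨e, ?_⟩
              rw [hk, L]
              have : k = ⟨0, K0 q⟩ := Fin.ext (by simp; omega)
              rw [this]
            · right
              refine ⟨e, ?_⟩
              rw [hk, L]
              have : k = ⟨1, K1 q⟩ := Fin.ext (by simp; omega)
              rw [this]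
          have hnb : ¬ IsBonus (cf s) (X s) (pol s) a := by
            rintro ⟨h3, -⟩
            rcases a with _ | ⟨x, k, e⟩
            · simp [toLab] at h3
            · simp [toLab] at h3
              have := hk k e (by rw [h3.1])
              omega
          rw [if_neg hnb]
          have h4 := two_step (cf s) (X s) (pol s) (M2 q) a h hk
          refine ih (step s a) ?_
          rw [h1, h2, h4.1]
          exact h4.2
    refine le_trans ?_ (Finset.sum_le_sum (fun a _ => mul_le_mul_right (hle a) (q.w a)))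
    have hGb : ∀ a, a ∉ S → G a = ENNReal.ofReal (ga q n) := by
      intro a ha
      have hne : a ≠ L q x0 1 (K1 q) (pol s) := fun hh => ha (by rw [hh]; exact hL)
      simp only [hG]
      rw [if_neg hne, if_neg ha]
    rw [sum_split q.w (sum_w q hd) S (ENNReal.ofReal (ga q n)) G hGb, hSw]
    have e1 : (1 : ℝ≥0∞) - ENNReal.ofReal (be q) = ENNReal.ofReal (1 - be q) := by
      rw [ENNReal.ofReal_sub _ (be_pos q hd).le, ENNReal.ofReal_one]
    have e2 : ENNReal.ofReal (al q) ≤ ∑ a ∈ S, q.w a * G a := by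
      refine le_trans ?_ (Finset.single_le_sum (f := fun a => q.w a * G a) (fun _ _ => zero_le) hL)
      simp only [hG, if_true, mul_one, w_L]
      exact le_refl _
    have hb4 := be_lt_one q hd
    rw [e1, ← ENNReal.ofReal_mul (by linarith), add_comm (al q),
      ENNReal.ofReal_add (mul_nonneg (by linarith) (ga_nonneg q hd n)) (al_pos q hd).le]
    exact add_le_add le_rfl e2

end after

/-! ### before the meeting -/

section before

variable {m : Model} (q : Par d m)

variable {σ : Type} (cf : σ → (Tor d q.M → ℕ)) (X : σ → Pos d) (pol : σ → Dir d)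
  (step : σ → Let d q.M q.K → σ)

/-- states: state of the machine, marker, tracked difference, flag of the bonus -/
abbrev St (σ : Type) (d : ℕ) := σ × (Pos d × ℕ) × Pos d × Bool

/-- one letter -/
def st1 (t : St σ d) (a : Let d q.M q.K) : St σ d :=
  (step t.1 a, mkrA (cf t.1) t.2.1 a,
    if IsBonus (cf t.1) (X t.1) (pol t.1) a then t.2.2.1
      else X (step t.1 a) - (mkrA (cf t.1) t.2.1 a).1,
    if IsBonus (cf t.1) (X t.1) (pol t.1) a then true else t.2.2.2)

/-- no bonus yet, not met -/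
def act (t : St σ d) : Prop :=
  t.2.2.2 = false ∧ (tv (X t.1) : Tor d q.M) ≠ tv t.2.1.1 ∧ 0 < cf t.1 (tv (X t.1)) ∧
    t.2.1.2 < cf t.1 (tv t.2.1.1) ∧ t.2.2.1 = X t.1 - t.2.1.1

theorem symW_st1 (hd : 0 < d) (h2 : ∀ s a, X (step s a) = Xr (cf s) (X s) (pol s) a) :
    SymW q.w (st1 q cf X pol step) (fun t => t.2.2.1) (act q cf X) (m.Gm / (2 * d)) (m.Gp / d) q.p := by
  rintro ⟨s, P, δ, b⟩ ⟨hb, hne, hX, hP, hδ⟩
  simp only at hb hne hX hP hδ
  have hd' : (0 : ℝ) < d := by exact_mod_cast hd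
  have hp := q.p_pos
  set x0 : Tor d q.M := tv (X s) with hx0
  set z0 : Tor d q.M := tv P.1 with hz0
  -- the new value of the difference
  have n1 : ∀ e, (st1 q cf X pol step (s, P, δ, b) (L q x0 0 (K0 q) e)).2.2.1 = δ + dv e := by
    intro e
    have hnb : ¬ IsBonus (cf s) (X s) (pol s) (L q x0 0 (K0 q) e) :=
      not_bonus_zero (cf s) (X s) (pol s) x0 _ e (by simp)
    show (if IsBonus (cf s) (X s) (pol s) (L q x0 0 (K0 q) e) then δ
      else X (step s (L q x0 0 (K0 q) e)) - (mkrA (cf s) P (L q x0 0 (K0 q) e)).1) = _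
    rw [if_neg hnb, h2]
    have e1 : Xr (cf s) (X s) (pol s) (L q x0 0 (K0 q) e) = X s + dv e :=
      Xr_jump (cf s) (X s) (pol s) _ rfl e
    have e2 : (mkrA (cf s) P (L q x0 0 (K0 q) e)).1 = P.1 :=
      mkrA_fst (cf s) P x0 _ e (fun hh => hne hh.1)
    rw [e1, e2, hδ]; abel
  have n2 : ∀ (hk : P.2 < q.K) (e : Dir d),
      (st1 q cf X pol step (s, P, δ, b) (L q z0 P.2 hk e)).2.2.1 = δ - dv e := by
    intro hk e
    have hnb : ¬ IsBonus (cf s) (X s) (pol s) (L q z0 P.2 hk e) :=
      not_bonus_off (cf s) (X s) (pol s) z0 _ e (fun hh => hne hh.symm)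
    show (if IsBonus (cf s) (X s) (pol s) (L q z0 P.2 hk e) then δ
      else X (step s (L q z0 P.2 hk e)) - (mkrA (cf s) P (L q z0 P.2 hk e)).1) = _
    rw [if_neg hnb, h2]
    have e1 : Xr (cf s) (X s) (pol s) (L q z0 P.2 hk e) = X s :=
      Xr_off (cf s) (X s) (pol s) z0 _ e (fun hh => hne hh.symm)
    have e2 : mkrA (cf s) P (L q z0 P.2 hk e) = (P.1 + dv e, cf s (tv P.1 + tv (dv e))) :=
      mkrA_jump (cf s) P _ e rfl hP
    rw [e1, e2, hδ]
    show X s - (P.1 + dv e) = _
    abel
  have n3 : ∀ a, a ∉ LS q x0 0 (K0 q) → (∀ (hk : P.2 < q.K), a ∉ LS q z0 P.2 hk) →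
      (st1 q cf X pol step (s, P, δ, b) a).2.2.1 = δ := by
    intro a ha1 ha2
    show (if IsBonus (cf s) (X s) (pol s) a then δ
      else X (step s a) - (mkrA (cf s) P a).1) = δ
    by_cases hnb : IsBonus (cf s) (X s) (pol s) a
    · rw [if_pos hnb]
    · rw [if_neg hnb, h2, hδ]
      rcases a with _ | ⟨x, k, e⟩
      · rfl
      · have e2 : (mkrA (cf s) P (some (x, k, e))).1 = P.1 := by
          refine mkrA_fst (cf s) P x k e (fun hh => ?_)
          have hk : P.2 < q.K := by rw [← hh.2]; exact k.2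
          refine ha2 hk ?_
          rw [mem_LS]
          refine ⟨e, ?_⟩
          rw [L]
          have : (⟨P.2, hk⟩ : Fin q.K) = k := Fin.ext (by simp [hh.2])
          rw [this, hh.1]
        have e1 : Xr (cf s) (X s) (pol s) (some (x, k, e)) = X s := by
          by_cases hx : x = tv (X s)
          · refine Xr_nb (cf s) (X s) (pol s) x k e (fun hk => ?_) hnb
            apply ha1
            rw [mem_LS]
            refine ⟨e, ?_⟩
            rw [L]
            have : (⟨0, K0 q⟩ : Fin q.K) = k := Fin.ext (by simp [hk])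
            rw [this, hx]
          · exact Xr_off (cf s) (X s) (pol s) x k e hx
        rw [e1, e2]
  have hl0 := lam_lb m hd 0
  have hl0' := lam_ub m hd 0
  have hl0p := lam_pos m hd 0
  by_cases hk : P.2 < q.K
  · -- the marker can move
    have hlJ := lam_ub m hd P.2
    have hlJp := lam_pos m hd P.2
    refine ⟨m.lam d 0 + m.lam d P.2, by linarith, ?_, ?_⟩
    · have : m.Gp / d = m.Gp / (2 * d) + m.Gp / (2 * d) := by field_simp; ring
      rw [this]; linarith
    intro F
    set S : Finset (Let d q.M q.K) := LS q x0 0 (K0 q) ∪ LS q z0 P.2 hk with hS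
    have hdisj : Disjoint (LS q x0 0 (K0 q)) (LS q z0 P.2 hk) := by
      rw [Finset.disjoint_left]
      intro a ha hb
      rw [mem_LS] at ha hb
      obtain ⟨e, he⟩ := ha
      obtain ⟨e', he'⟩ := hb
      rw [← he] at he'
      simp only [L, Option.some.injEq, Prod.mk.injEq] at he'
      exact hne he'.1.symm
    have hSw : ∑ a ∈ S, q.w a = ENNReal.ofReal (2 * d * (m.lam d 0 + m.lam d P.2) * q.p) := by
      rw [hS, Finset.sum_union hdisj, sum_LS', sum_LS', ← ENNReal.ofReal_add (by positivity) (by positivity)]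
      congr 1; ring
    rw [sum_split q.w (sum_w q hd) S (F δ) _ (fun a ha => by
      simp only
      rw [n3 a (fun h => ha (by rw [hS, Finset.mem_union]; exact Or.inl h))
        (fun _ h => ha (by rw [hS, Finset.mem_union]; exact Or.inr h))]), hSw]
    have e1 : (1 : ℝ≥0∞) - ENNReal.ofReal (2 * d * (m.lam d 0 + m.lam d P.2) * q.p) =
        ENNReal.ofReal (1 - 2 * d * (m.lam d 0 + m.lam d P.2) * q.p) := by
      rw [ENNReal.ofReal_sub _ (by positivity), ENNReal.ofReal_one]
    rw [e1]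
    congr 1
    rw [hS, Finset.sum_union hdisj, sum_LS q x0 0 (K0 q) (fun a => F (st1 q cf X pol step (s, P, δ, b) a).2.2.1),
      sum_LS q z0 P.2 hk (fun a => F (st1 q cf X pol step (s, P, δ, b) a).2.2.1)]
    have e2 : ∑ e : Dir d, ENNReal.ofReal (m.lam d P.2 * q.p) *
        F (st1 q cf X pol step (s, P, δ, b) (L q z0 P.2 hk e)).2.2.1 =
        ∑ e : Dir d, ENNReal.ofReal (m.lam d P.2 * q.p) * F (δ + dv e) := by
      rw [← Equiv.sum_comp oppE]
      refine Finset.sum_congr rfl (fun e _ => ?_)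
      rw [n2 hk]
      congr 2
      show δ - dv (opp e) = _
      rw [dv_opp]; abel
    rw [e2, ← Finset.sum_add_distrib]
    refine Finset.sum_congr rfl (fun e _ => ?_)
    rw [n1, ← add_mul, ← ENNReal.ofReal_add (by positivity) (by positivity)]
    congr 2; ring
  · refine ⟨m.lam d 0, hl0, ?_, ?_⟩
    · have : m.Gp / d = m.Gp / (2 * d) + m.Gp / (2 * d) := by field_simp; ring
      have h3 : 0 < m.Gp / (2 * d) := by linarith
      rw [this]; linarith
    intro F
    rw [sum_split q.w (sum_w q hd) (LS q x0 0 (K0 q)) (F δ) _ (fun a ha => by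
      simp only
      rw [n3 a ha (fun h => absurd h hk)]), sum_LS']
    have e1 : (1 : ℝ≥0∞) - ENNReal.ofReal (2 * d * m.lam d 0 * q.p) =
        ENNReal.ofReal (1 - 2 * d * m.lam d 0 * q.p) := by
      rw [ENNReal.ofReal_sub _ (by positivity), ENNReal.ofReal_one]
    rw [e1]
    congr 1
    rw [sum_LS q x0 0 (K0 q) (fun a => F (st1 q cf X pol step (s, P, δ, b) a).2.2.1)]
    refine Finset.sum_congr rfl (fun e _ => ?_)
    rw [n1]

/-- a flagged state is bad forever -/
theorem hits_flag (t : St σ d) (l : List (Let d q.M q.K)) (h : t.2.2.2 = true) :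
    Hits (st1 q cf X pol step) (fun t => t.2.2.1 = 0 ∨ ¬ act q cf X t) t l := by
  have hb : (fun t => t.2.2.1 = 0 ∨ ¬ act q cf X t) t := Or.inr (fun ha => by
    have := ha.1
    rw [h] at this
    exact absurd this (by simp))
  cases l with
  | nil => exact hb
  | cons a l => exact Or.inl hb

/-- the two phases together -/
theorem two_phases (hd : 0 < d) (h1 : ∀ s a, cf (step s a) = stepA (cf s) a)
    (h2 : ∀ s a, X (step s a) = Xr (cf s) (X s) (pol s) a) (N M : ℕ) (s : σ) (P : Pos d × ℕ)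
    (hX : 0 < cf s (tv (X s))) (hP : P.2 < cf s (tv P.1))
    (hm : (tv (X s) : Tor d q.M) = tv P.1 → 2 ≤ cf s (tv (X s))) :
    ENNReal.ofReal (ga q M) * PrE q.w N (Hits (st1 q cf X pol step)
      (fun t => t.2.2.1 = 0 ∨ ¬ act q cf X t) (s, P, X s - P.1, false)) ≤
      PrE q.w (N + M) (BonusIn cf X pol step s) := by
  have hw := sum_w q hd
  induction N generalizing s P with
  | zero =>
    rw [zero_add]
    by_cases hme : (tv (X s) : Tor d q.M) = tv P.1
    · refine le_trans ?_ (bonus_lb q cf X pol step hd h1 h2 M s (hm hme))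
      exact mul_le_of_le_one_right' (PrE_le_one q.w hw _ _)
    · have hnb : ¬ ((s, P, X s - P.1, false) : St σ d).2.2.1 = 0 := by
        intro h
        apply hme
        have : X s = P.1 := sub_eq_zero.mp h
        rw [this]
      have : PrE q.w 0 (Hits (st1 q cf X pol step)
          (fun t => t.2.2.1 = 0 ∨ ¬ act q cf X t) (s, P, X s - P.1, false)) = 0 := by
        show (if _ then (1 : ℝ≥0∞) else 0) = 0
        rw [if_neg]
        rintro (h | h)
        · exact hnb h
        · exact h ⟨rfl, hme, hX, hP, rfl⟩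
      rw [this, mul_zero]; exact zero_le
  | succ N ih =>
    by_cases hme : (tv (X s) : Tor d q.M) = tv P.1
    · refine le_trans (mul_le_of_le_one_right' (PrE_le_one q.w hw _ _)) ?_
      refine le_trans (ENNReal.ofReal_le_ofReal (ga_mono q hd (by omega : M ≤ N + 1 + M))) ?_
      exact bonus_lb q cf X pol step hd h1 h2 _ s (hm hme)
    · have hbad : ¬ (fun t => t.2.2.1 = 0 ∨ ¬ act q cf X t) ((s, P, X s - P.1, false) : St σ d) := by
        rintro (h | h)
        · apply hme
          have : X s = P.1 := sub_eq_zero.mp h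
          rw [this]
        · exact h ⟨rfl, hme, hX, hP, rfl⟩
      rw [show N + 1 + M = (N + M) + 1 by ring, bonus_succ q cf X pol step hd, PrE_succ, Finset.mul_sum]
      refine Finset.sum_le_sum (fun a _ => ?_)
      rw [mul_left_comm]
      refine mul_le_mul_right ?_ _
      have hcong : PrE q.w N (fun l => Hits (st1 q cf X pol step)
          (fun t => t.2.2.1 = 0 ∨ ¬ act q cf X t) (s, P, X s - P.1, false) (a :: l)) =
          PrE q.w N (Hits (st1 q cf X pol step)
          (fun t => t.2.2.1 = 0 ∨ ¬ act q cf X t) (st1 q cf X pol step (s, P, X s - P.1, false) a)) := by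
        refine EvE_congr q.w N (fun l _ => ?_)
        have : Hits (st1 q cf X pol step) (fun t => t.2.2.1 = 0 ∨ ¬ act q cf X t)
            (s, P, X s - P.1, false) (a :: l) ↔ Hits (st1 q cf X pol step)
            (fun t => t.2.2.1 = 0 ∨ ¬ act q cf X t) (st1 q cf X pol step (s, P, X s - P.1, false) a) l :=
          ⟨fun h => h.resolve_left hbad, fun h => Or.inr h⟩
        by_cases hh : Hits (st1 q cf X pol step)
            (fun t => t.2.2.1 = 0 ∨ ¬ act q cf X t) (st1 q cf X pol step (s, P, X s - P.1, false) a) l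
        · rw [if_pos (this.mpr hh), if_pos hh]
        · rw [if_neg (fun h => hh (this.mp h)), if_neg hh]
      rw [hcong]
      by_cases hb : IsBonus (cf s) (X s) (pol s) a
      · rw [if_pos hb]
        refine le_trans (mul_le_of_le_one_right' (PrE_le_one q.w hw _ _)) ?_
        rw [← ENNReal.ofReal_one]
        refine ENNReal.ofReal_le_ofReal ?_
        have h3 := al_pos q hd
        have h4 := be_pos q hd
        have h5 := be_lt_one q hd
        have h6 : (1 - be q) ^ M ≤ 1 := pow_le_one₀ (by linarith) (by linarith)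
        have h7 : 0 ≤ (1 - be q) ^ M := pow_nonneg (by linarith) _
        have h8 : al q ≤ be q := by
          unfold al be
          have hl0 := lam_pos m hd 0
          have hl1 := lam_pos m hd 1
          have hd' : (1 : ℝ) ≤ d := by exact_mod_cast hd
          refine mul_le_mul_of_nonneg_right ?_ q.p_pos.le
          nlinarith
        unfold ga
        have h9 : al q / be q ≤ 1 := by rw [div_le_one h4]; exact h8
        calc al q / be q * (1 - (1 - be q) ^ M) ≤ 1 * 1 :=
              mul_le_mul h9 (by linarith) (by linarith) (by norm_num)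
          _ = 1 := one_mul 1
      · rw [if_neg hb]
        have hst : st1 q cf X pol step (s, P, X s - P.1, false) a =
            (step s a, mkrA (cf s) P a, X (step s a) - (mkrA (cf s) P a).1, false) := by
          unfold st1
          simp only [if_neg hb]
        rw [hst]
        refine ih (step s a) (mkrA (cf s) P a) ?_ ?_ ?_
        · rw [h1, h2]; exact pos_step (cf s) (X s) (pol s) (M2 q) a hb hX
        · rw [h1]; exact mkrA_lt (cf s) P (M2 q) a hP
        · intro hm'
          rw [h1, h2]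
          rw [h2] at hm'
          exact meet_step (cf s) (X s) P (pol s) (M2 q) a hb hX hP hme hm'

end before

theorem nrm_le_supn (hd : 0 < d) (v : Pos d) (r : ℕ) (h : supn v ≤ r) : nrm (-v) ≤ ((d * r : ℕ) : ℝ) := by
  unfold nrm
  rw [show ((d * r : ℕ) : ℝ) = Real.sqrt (((d * r : ℕ) : ℝ) ^ 2) from (Real.sqrt_sq (by positivity)).symm]
  refine Real.sqrt_le_sqrt ?_
  have h1 : ∀ j, (((-v) j : ℤ) : ℝ) ^ 2 ≤ (r : ℝ) ^ 2 := by
    intro j
    have h2 : (v j).natAbs ≤ r :=
      le_trans (Finset.le_sup (f := fun j => (v j).natAbs) (Finset.mem_univ j)) h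
    have h3 : |((v j : ℤ) : ℝ)| ≤ r := by
      rw [← Int.cast_abs, Int.abs_eq_natAbs]
      exact_mod_cast h2
    rw [Pi.neg_apply, Int.cast_neg, neg_sq, ← sq_abs]
    exact pow_le_pow_left₀ (abs_nonneg _) h3 2
  calc ∑ j, (((-v) j : ℤ) : ℝ) ^ 2 ≤ ∑ _j : Fin d, (r : ℝ) ^ 2 := Finset.sum_le_sum (fun j _ => h1 j)
    _ = d * (r : ℝ) ^ 2 := by simp
    _ ≤ ((d * r : ℕ) : ℝ) ^ 2 := by
        push_cast
        have : (1 : ℝ) ≤ d := by exact_mod_cast hd
        have hr : (0 : ℝ) ≤ (r : ℝ) ^ 2 := sq_nonneg _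
        nlinarith [mul_nonneg (mul_nonneg (by linarith : (0 : ℝ) ≤ (d : ℝ)) hr) (by linarith : (0 : ℝ) ≤ (d : ℝ) - 1)]

theorem tv_ne (M : ℕ) (x v : Pos d) (hv : v ≠ 0) (r : ℕ) (h : supn v ≤ r) (hM : 2 * r < M) :
    (tv x : Tor d M) ≠ tv (x + v) := by
  intro he
  apply hv
  funext j
  have h1 := congrFun he j
  simp only [tv, Pi.add_apply, Int.cast_add] at h1
  have h2 : ((v j : ℤ) : ZMod M) = 0 := by
    have : (x j : ZMod M) + 0 = (x j : ZMod M) + (v j : ZMod M) := by rw [add_zero]; exact h1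
    exact (add_left_cancel this).symm
  rw [ZMod.intCast_zmod_eq_zero_iff_dvd] at h2
  have h3 : (v j).natAbs ≤ r :=
    le_trans (Finset.le_sup (f := fun j => (v j).natAbs) (Finset.mem_univ j)) h
  have h4 : M ∣ (v j).natAbs := by
    rw [← Int.natAbs_natCast M]
    exact Int.natAbs_dvd_natAbs.mpr h2
  by_contra h5
  have h6 : 0 < (v j).natAbs := Int.natAbs_pos.mpr h5
  have := Nat.le_of_dvd h6 h4
  omega

end C2

/-- the bonus lemma (paper 3.3) -/
theorem bonus (m : Model) (d : ℕ) (hd : 0 < d) : ∃ C : ℕ, 0 < C ∧ ∀ (q : Par d m) (σ : Type)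
    (cf : σ → (Tor d q.M → ℕ)) (X : σ → Pos d) (pol : σ → Dir d) (step : σ → Let d q.M q.K → σ),
    (∀ s a, cf (step s a) = stepA (cf s) a) → (∀ s a, X (step s a) = Xr (cf s) (X s) (pol s) a) →
    ∀ r : ℕ, 1 ≤ r → 2 * r < q.M → ∀ (s : σ) (v : Pos d), 0 < cf s (tv (X s)) → v ≠ 0 → supn v ≤ r →
    0 < cf s (tv (X s + v)) → ∀ W : ℕ, C * r ^ 2 ≤ W →
    ENNReal.ofReal (1 / (C * (r : ℝ) ^ C)) ≤ PrE q.w (W * q.N1) (BonusIn cf X pol step s) := by
  have hd' : (1 : ℝ) ≤ d := by exact_mod_cast hd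
  have hGm := m.Gm_pos
  have hGp : 0 < m.Gp := by have := m.le_Gp; linarith
  have hGG : m.Gm ≤ m.Gp := by have := m.le_Gp; have := m.Gm_le; linarith
  obtain ⟨C0, hC0, hwalk⟩ := walk_hit d hd (m.Gm / (2 * d)) (m.Gp / d) (by positivity)
    (by rw [div_le_div_iff₀ (by positivity) (by positivity)]; nlinarith)
  set γ : ℝ := m.Gm / (4 * d * m.Gp) * (1 - Real.exp (- m.Gm)) with hγ
  have hγ0 : 0 < γ := by
    have : Real.exp (- m.Gm) < 1 := by rw [Real.exp_lt_one_iff]; linarith
    rw [hγ]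
    exact mul_pos (by positivity) (by linarith)
  obtain ⟨C1, hC1⟩ := exists_nat_ge (C0 * (d : ℝ) ^ C0 / γ)
  refine ⟨2 * C0 * d ^ 2 + 1 + C0 + C1, by positivity, ?_⟩
  intro q σ cf X pol step h1 h2 r hr hM s v hX hv hvr hv0 W hW
  set C := 2 * C0 * d ^ 2 + 1 + C0 + C1 with hC
  have hr2 : 1 ≤ r ^ 2 := Nat.one_le_pow _ _ hr
  have hr' : (1 : ℝ) ≤ r := by exact_mod_cast hr
  have hW1 : 2 * C0 * d ^ 2 * r ^ 2 + 1 ≤ W := by
    refine le_trans ?_ hW
    rw [hC]
    nlinarith [Nat.zero_le ((C0 + C1) * r ^ 2)]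
  obtain ⟨W', rfl⟩ : ∃ W', W = W' + 1 := ⟨W - 1, by omega⟩
  have hW2 : 2 * C0 * d ^ 2 * r ^ 2 ≤ W' := by omega
  rw [show (W' + 1) * q.N1 = W' * q.N1 + q.N1 by ring]
  have hP0 : ((X s + v, 0) : Pos d × ℕ).2 < cf s (tv ((X s + v, 0) : Pos d × ℕ).1) := hv0
  refine le_trans ?_ (C2.two_phases q cf X pol step hd h1 h2 (W' * q.N1) q.N1 s (X s + v, 0) hX hP0
    (fun h => absurd h (C2.tv_ne q.M (X s) v hv r hvr hM)))
  have hps := q.p_small
  have hp := q.p_pos
  have hwk := hwalk (C2.St σ d) (Let d q.M q.K) q.w (C2.st1 q cf X pol step) (fun t => t.2.2.1)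
    (C2.act q cf X) q.p q.p_pos (by
      have : 2 * (d : ℝ) * (m.Gp / d) * q.p = 2 * (m.Gp * q.p) := by field_simp
      rw [this]; nlinarith) (Rows.sum_w q hd)
    (C2.symW_st1 q cf X pol step hd h2) (d * r) (by nlinarith)
    (s, (X s + v, 0), X s - (X s + v), false) (by
      show nrm (X s - (X s + v)) ≤ _
      rw [show X s - (X s + v) = -v by abel]
      exact C2.nrm_le_supn hd v r hvr) (W' * q.N1) (by
      have h3 := q.p_lb
      have h4 : (2 * C0 * d ^ 2 * r ^ 2 : ℝ) ≤ W' := by exact_mod_cast hW2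
      push_cast
      have h5 : (0 : ℝ) ≤ W' := Nat.cast_nonneg _
      calc (C0 : ℝ) * (d * r) ^ 2 = (2 * C0 * d ^ 2 * r ^ 2 : ℝ) * (1 / 2) := by ring
        _ ≤ W' * (q.N1 * q.p) := mul_le_mul h4 h3 (by norm_num) h5
        _ = W' * q.N1 * q.p := by ring)
  refine le_trans ?_ (mul_le_mul' (ENNReal.ofReal_le_ofReal (C2.ga_lb q hd)) hwk)
  rw [← ENNReal.ofReal_mul hγ0.le]
  refine ENNReal.ofReal_le_ofReal ?_
  have hrC0 : 0 < (r : ℝ) ^ C0 := by positivity
  have hCpos : (0 : ℝ) < C := by rw [hC]; positivity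
  have hC0' : (0 : ℝ) < C0 := by exact_mod_cast hC0
  push_cast
  rw [mul_one_div, div_le_div_iff₀ (by positivity) (by positivity)]
  rw [div_le_iff₀ hγ0] at hC1
  have h6 : (r : ℝ) ^ C0 ≤ (r : ℝ) ^ C := pow_le_pow_right₀ hr' (by rw [hC]; omega)
  have h7 : (C1 : ℝ) ≤ C := by exact_mod_cast (by rw [hC]; omega : C1 ≤ C)
  calc 1 * (C0 * (d * (r : ℝ)) ^ C0) = (C0 * (d : ℝ) ^ C0) * (r : ℝ) ^ C0 := by ring
    _ ≤ (C1 * γ) * (r : ℝ) ^ C0 := mul_le_mul_of_nonneg_right hC1 hrC0.le
    _ ≤ (C * γ) * (r : ℝ) ^ C := by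
        refine mul_le_mul (mul_le_mul_of_nonneg_right h7 hγ0.le) h6 hrC0.le (by positivity)
    _ = γ * (C * (r : ℝ) ^ C) := by ring

end ZI
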