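import Pool.Agent.ZI.R5a

/-! # The supersolution `exp (sqrt (1 + θ² |v|²) - 1)` (row C3) -/

set_option autoImplicit false

open scoped ENNReal BigOperators Classical

noncomputable section

namespace ZI.Fz

open ZI R5a

variable {d : ℕ}

/-- the radial function -/
def FF (θ y : ℝ) : ℝ := Real.exp (Real.sqrt (1 + θ ^ 2 * y ^ 2) - 1)

/-- the supersolution -/
def fz (θ : ℝ) (v : Pos d) : ℝ := Real.exp (Real.sqrt (1 + θ ^ 2 * sqn v) - 1)

theorem nrm_nonneg (v : Pos d) : 0 ≤ nrm v := Real.sqrt_nonneg _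

theorem nrm_sq (v : Pos d) : nrm v ^ 2 = sqn v := Real.sq_sqrt (sqn_nonneg v)

theorem fz_eq (θ : ℝ) (v : Pos d) : fz θ v = FF θ (nrm v) := by
  rw [fz, FF, nrm_sq]

theorem FF_pos (θ y : ℝ) : 0 < FF θ y := Real.exp_pos _

theorem fz_pos (θ : ℝ) (v : Pos d) : 0 < fz θ v := Real.exp_pos _

theorem one_le_FF (θ y : ℝ) : 1 ≤ FF θ y := by
  refine Real.one_le_exp ?_
  have : 1 ≤ Real.sqrt (1 + θ ^ 2 * y ^ 2) := by
    rw [Real.one_le_sqrt]
    have := mul_nonneg (sq_nonneg θ) (sq_nonneg y)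
    linarith
  linarith

theorem one_le_fz (θ : ℝ) (v : Pos d) : 1 ≤ fz θ v := by
  rw [fz_eq]
  exact one_le_FF _ _

theorem FF_mono (θ : ℝ) {y z : ℝ} (hy : 0 ≤ y) (h : y ≤ z) : FF θ y ≤ FF θ z := by
  refine Real.exp_le_exp.mpr ?_
  have h1 : y ^ 2 ≤ z ^ 2 := pow_le_pow_left₀ hy h 2
  have h2 : θ ^ 2 * y ^ 2 ≤ θ ^ 2 * z ^ 2 := mul_le_mul_of_nonneg_left h1 (sq_nonneg θ)
  have := Real.sqrt_le_sqrt (by linarith : 1 + θ ^ 2 * y ^ 2 ≤ 1 + θ ^ 2 * z ^ 2)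
  linarith

theorem FF_le (θ y : ℝ) (hθ : 0 ≤ θ) (hy : 0 ≤ y) : FF θ y ≤ Real.exp (θ * y) := by
  refine Real.exp_le_exp.mpr ?_
  have h0 : 0 ≤ θ * y := mul_nonneg hθ hy
  have : Real.sqrt (1 + θ ^ 2 * y ^ 2) ≤ 1 + θ * y := by
    rw [Real.sqrt_le_left (by linarith)]
    nlinarith
  linarith

theorem le_FF (θ y : ℝ) : Real.exp (θ * y - 1) ≤ FF θ y := by
  refine Real.exp_le_exp.mpr ?_
  have : θ * y ≤ Real.sqrt (1 + θ ^ 2 * y ^ 2) := by
    refine Real.le_sqrt_of_sq_le ?_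
    nlinarith
  linarith

theorem FF_lip (θ : ℝ) (hθ : 0 ≤ θ) {y z : ℝ} (h : y ≤ z) :
    FF θ z ≤ FF θ y * Real.exp (θ * (z - y)) := by
  rw [FF, FF, ← Real.exp_add]
  refine Real.exp_le_exp.mpr ?_
  have h1 : θ * y ≤ Real.sqrt (1 + θ ^ 2 * y ^ 2) := by
    refine Real.le_sqrt_of_sq_le ?_
    nlinarith
  have h2 : 0 ≤ Real.sqrt (1 + θ ^ 2 * y ^ 2) := Real.sqrt_nonneg _
  have h3 : Real.sqrt (1 + θ ^ 2 * y ^ 2) ^ 2 = 1 + θ ^ 2 * y ^ 2 := Real.sq_sqrt (by positivity)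
  have h4 : 0 ≤ θ * (z - y) := mul_nonneg hθ (by linarith)
  have : Real.sqrt (1 + θ ^ 2 * z ^ 2) ≤ Real.sqrt (1 + θ ^ 2 * y ^ 2) + θ * (z - y) := by
    rw [Real.sqrt_le_left (by linarith)]
    have h5 := mul_le_mul_of_nonneg_right h1 h4
    nlinarith
  linarith

theorem sqrt_step (S u : ℝ) (hS : 1 ≤ S) (hu : 0 ≤ S + u) :
    Real.sqrt (S + u) ≤ Real.sqrt S + u / (2 * Real.sqrt S) := by
  have h1 : 1 ≤ Real.sqrt S := by rw [Real.one_le_sqrt]; exact hS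
  have h2 : Real.sqrt S ^ 2 = S := Real.sq_sqrt (by linarith)
  have h3 : Real.sqrt (S + u) ^ 2 = S + u := Real.sq_sqrt hu
  have h4 : Real.sqrt S + u / (2 * Real.sqrt S) = (2 * S + u) / (2 * Real.sqrt S) := by
    have : Real.sqrt S ≠ 0 := by linarith
    field_simp
    linarith
  rw [h4, le_div_iff₀ (by linarith)]
  nlinarith [sq_nonneg (Real.sqrt (S + u) - Real.sqrt S)]

/-- one step of the supersolution -/
theorem fz_step (θ : ℝ) (v v' : Pos d) : fz θ v' ≤ fz θ v *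
    Real.exp (θ ^ 2 * (sqn v' - sqn v) / (2 * Real.sqrt (1 + θ ^ 2 * sqn v))) := by
  rw [fz, fz, ← Real.exp_add]
  refine Real.exp_le_exp.mpr ?_
  have h0 := sqn_nonneg v
  have h0' := sqn_nonneg v'
  have hθ := sq_nonneg θ
  have h1 := sqrt_step (1 + θ ^ 2 * sqn v) (θ ^ 2 * (sqn v' - sqn v))
    (by nlinarith [mul_nonneg hθ h0]) (by nlinarith [mul_nonneg hθ h0'])
  have e1 : 1 + θ ^ 2 * sqn v + θ ^ 2 * (sqn v' - sqn v) = 1 + θ ^ 2 * sqn v' := by ring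
  rw [e1] at h1
  linarith

theorem coord_sq_le (v : Pos d) (j : Fin d) : ((v j : ℝ)) ^ 2 ≤ sqn v :=
  Finset.single_le_sum (f := fun j => ((v j : ℝ)) ^ 2) (fun _ _ => sq_nonneg _) (Finset.mem_univ j)

theorem fz_pair (θ : ℝ) (v : Pos d) (j : Fin d) :
    fz θ (v + dv (j, true)) + fz θ (v + dv (j, false)) ≤ 2 * Real.exp (θ ^ 2) * fz θ v := by
  have hθ := sq_nonneg θ
  have h0 := sqn_nonneg v
  set S : ℝ := 1 + θ ^ 2 * sqn v with hS
  have hS1 : 1 ≤ S := by nlinarith [mul_nonneg hθ h0]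
  have hs1 : 1 ≤ Real.sqrt S := by rw [Real.one_le_sqrt]; exact hS1
  have hs2 : Real.sqrt S ^ 2 = S := Real.sq_sqrt (by linarith)
  have h1 := fz_step θ v (v + dv (j, true))
  have h2 := fz_step θ v (v + dv (j, false))
  rw [sqn_add] at h1 h2
  simp only [if_true, Bool.false_eq_true, if_false] at h1 h2
  rw [← hS] at h1 h2
  set A : ℝ := θ ^ 2 / (2 * Real.sqrt S) with hA
  set B : ℝ := θ ^ 2 * (v j : ℝ) / Real.sqrt S with hB
  have e1 : θ ^ 2 * (sqn v + 1 + 2 * (v j : ℝ) - sqn v) / (2 * Real.sqrt S) = A + B := by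
    have : Real.sqrt S ≠ 0 := by linarith
    rw [hA, hB]; field_simp; ring
  have e2 : θ ^ 2 * (sqn v + 1 + -(2 * (v j : ℝ)) - sqn v) / (2 * Real.sqrt S) = A - B := by
    have : Real.sqrt S ≠ 0 := by linarith
    rw [hA, hB]; field_simp; ring
  rw [e1] at h1
  rw [e2] at h2
  have hA1 : A ≤ θ ^ 2 / 2 := by
    rw [hA]
    exact div_le_div_of_nonneg_left hθ (by norm_num) (by linarith)
  have hB1 : B ^ 2 ≤ θ ^ 2 := by
    rw [hB, div_pow, hs2, div_le_iff₀ (by linarith)]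
    have h3 := coord_sq_le v j
    have h4 : θ ^ 2 * (v j : ℝ) ^ 2 ≤ θ ^ 2 * sqn v := mul_le_mul_of_nonneg_left h3 hθ
    have h5 : θ ^ 2 * (v j : ℝ) ^ 2 ≤ S := by rw [hS]; linarith
    calc (θ ^ 2 * (v j : ℝ)) ^ 2 = θ ^ 2 * (θ ^ 2 * (v j : ℝ) ^ 2) := by ring
      _ ≤ θ ^ 2 * S := mul_le_mul_of_nonneg_left h5 hθ
  have hc : Real.exp B + Real.exp (-B) = 2 * Real.cosh B := by rw [Real.cosh_eq]; ring
  have hc2 := Real.cosh_le_exp_half_sq B
  have h6 : Real.exp (A + B) + Real.exp (A - B) = 2 * (Real.exp A * Real.cosh B) := by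
    rw [Real.exp_add, sub_eq_add_neg, Real.exp_add, ← mul_add, hc]; ring
  have h7 : Real.exp A * Real.cosh B ≤ Real.exp (θ ^ 2) := by
    calc Real.exp A * Real.cosh B ≤ Real.exp A * Real.exp (B ^ 2 / 2) :=
          mul_le_mul_of_nonneg_left hc2 (Real.exp_pos _).le
      _ = Real.exp (A + B ^ 2 / 2) := by rw [Real.exp_add]
      _ ≤ Real.exp (θ ^ 2) := Real.exp_le_exp.mpr (by linarith)
  have hf := fz_pos θ v
  calc fz θ (v + dv (j, true)) + fz θ (v + dv (j, false))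
      ≤ fz θ v * (Real.exp (A + B) + Real.exp (A - B)) := by rw [mul_add]; linarith
    _ = 2 * (fz θ v * (Real.exp A * Real.cosh B)) := by rw [h6]; ring
    _ ≤ 2 * (fz θ v * Real.exp (θ ^ 2)) := by
        have := mul_le_mul_of_nonneg_left h7 hf.le
        linarith
    _ = 2 * Real.exp (θ ^ 2) * fz θ v := by ring

theorem fz_sum (θ : ℝ) (v : Pos d) :
    ∑ e : Dir d, fz θ (v + dv e) ≤ 2 * d * Real.exp (θ ^ 2) * fz θ v := by
  rw [Fintype.sum_prod_type]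
  simp only [Fintype.sum_bool]
  calc ∑ j : Fin d, (fz θ (v + dv (j, true)) + fz θ (v + dv (j, false)))
      ≤ ∑ _j : Fin d, 2 * Real.exp (θ ^ 2) * fz θ v := Finset.sum_le_sum fun j _ => fz_pair θ v j
    _ = 2 * d * Real.exp (θ ^ 2) * fz θ v := by
        rw [Finset.sum_const, Finset.card_univ, Fintype.card_fin, nsmul_eq_mul]
        ring

/-- a direction that decreases the length -/
theorem exists_dir (hd : 0 < d) (v : Pos d) :
    ∃ e : Dir d, v ≠ 0 → sqn (v + dv e) ≤ sqn v - nrm v / d := by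
  have hne : (Finset.univ : Finset (Fin d)).Nonempty := ⟨⟨0, hd⟩, Finset.mem_univ _⟩
  obtain ⟨j, _, hj⟩ := Finset.exists_max_image Finset.univ (fun j => |(v j : ℝ)|) hne
  refine ⟨(j, decide (v j < 0)), fun hv => ?_⟩
  have hd' : (1 : ℝ) ≤ d := by exact_mod_cast hd
  obtain ⟨i, hi⟩ : ∃ i, v i ≠ 0 := by
    by_contra h
    push Not at h
    exact hv (funext h)
  have h1 : (1 : ℝ) ≤ |(v j : ℝ)| := by
    refine le_trans ?_ (hj i (Finset.mem_univ i))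
    have : (1 : ℤ) ≤ |v i| := Int.one_le_abs hi
    calc (1 : ℝ) ≤ ((|v i| : ℤ) : ℝ) := by exact_mod_cast this
      _ = |(v i : ℝ)| := by push_cast; rfl
  have h2 : sqn v ≤ (d * |(v j : ℝ)|) ^ 2 := by
    calc sqn v ≤ ∑ _i : Fin d, |(v j : ℝ)| ^ 2 := by
          refine Finset.sum_le_sum fun i _ => ?_
          rw [← sq_abs]
          exact pow_le_pow_left₀ (abs_nonneg _) (hj i (Finset.mem_univ i)) 2
      _ = d * |(v j : ℝ)| ^ 2 := by
          rw [Finset.sum_const, Finset.card_univ, Fintype.card_fin, nsmul_eq_mul]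
      _ ≤ (d * |(v j : ℝ)|) ^ 2 := by
          have : (0 : ℝ) ≤ |(v j : ℝ)| ^ 2 := by positivity
          nlinarith
  have h3 : nrm v ≤ d * |(v j : ℝ)| := by
    have h4 : nrm v ^ 2 ≤ (d * |(v j : ℝ)|) ^ 2 := by rw [nrm_sq]; exact h2
    exact le_of_sq_le_sq h4 (by positivity)
  have h5 : nrm v / d ≤ |(v j : ℝ)| := by
    rw [div_le_iff₀ (by linarith)]
    linarith
  have h6 : sqn (v + dv (j, decide (v j < 0))) = sqn v + 1 - 2 * |(v j : ℝ)| := by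
    rw [sqn_add]
    by_cases hneg : v j < 0
    · have : (v j : ℝ) < 0 := by exact_mod_cast hneg
      simp only [hneg, decide_true, if_true]
      rw [abs_of_neg this]; ring
    · have : (0 : ℝ) ≤ (v j : ℝ) := by exact_mod_cast (not_lt.mp hneg)
      simp only [hneg, decide_false, Bool.false_eq_true, if_false]
      rw [abs_of_nonneg this]; ring
  rw [h6]
  linarith

theorem fz_dec0 (hd : 0 < d) (θ : ℝ) (v v' : Pos d) (h : sqn v' ≤ sqn v - nrm v / d) :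
    fz θ v' ≤ fz θ v := by
  rw [fz, fz]
  refine Real.exp_le_exp.mpr ?_
  have h1 : 0 ≤ nrm v / d := div_nonneg (nrm_nonneg v) (by positivity)
  have h2 : θ ^ 2 * sqn v' ≤ θ ^ 2 * sqn v := mul_le_mul_of_nonneg_left (by linarith) (sq_nonneg θ)
  have := Real.sqrt_le_sqrt (by linarith : 1 + θ ^ 2 * sqn v' ≤ 1 + θ ^ 2 * sqn v)
  linarith

theorem exp_neg_le' (x : ℝ) (h0 : 0 ≤ x) (h1 : x ≤ 1) : Real.exp (-x) ≤ 1 - x / 2 := by
  have h2 : Real.exp (-x) * Real.exp x = 1 := by rw [← Real.exp_add]; simp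
  have h3 : 1 + x ≤ Real.exp x := by linarith [Real.add_one_le_exp x]
  have h4 : 0 < Real.exp (-x) := Real.exp_pos _
  have h5 : Real.exp (-x) * (1 + x) ≤ 1 :=
    (mul_le_mul_of_nonneg_left h3 h4.le).trans h2.le
  have h6 : 1 ≤ (1 - x / 2) * (1 + x) := by nlinarith
  have h7 : Real.exp (-x) * (1 + x) ≤ (1 - x / 2) * (1 + x) := h5.trans h6
  exact le_of_mul_le_mul_right h7 (by linarith)

theorem fz_dec (hd : 0 < d) (θ r1 : ℝ) (hr1 : 0 < r1) (h0 : 0 ≤ θ) (h1 : θ * r1 ≤ 1) (hθ1 : θ ≤ 1)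
    (v v' : Pos d) (h : sqn v' ≤ sqn v - nrm v / d) (hv : r1 / 2 ≤ nrm v) :
    fz θ v' ≤ (1 - θ ^ 2 * r1 / (16 * d)) * fz θ v := by
  have hd' : (1 : ℝ) ≤ d := by exact_mod_cast hd
  have hθ := sq_nonneg θ
  have hn := nrm_nonneg v
  set S : ℝ := 1 + θ ^ 2 * sqn v with hS
  have hS1 : 1 ≤ S := by nlinarith [mul_nonneg hθ (sqn_nonneg v)]
  have hs1 : 1 ≤ Real.sqrt S := by rw [Real.one_le_sqrt]; exact hS1
  have h2 := fz_step θ v v'
  rw [← hS] at h2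
  -- the exponent
  have h3 : r1 * Real.sqrt S ≤ 4 * nrm v := by
    have : r1 * Real.sqrt S = Real.sqrt (r1 ^ 2 * S) := by
      rw [Real.sqrt_mul (by positivity), Real.sqrt_sq hr1.le]
    rw [this, Real.sqrt_le_left (by linarith)]
    have h4 : r1 ^ 2 * θ ^ 2 ≤ 1 := by
      have : (θ * r1) ^ 2 ≤ 1 ^ 2 := pow_le_pow_left₀ (by positivity) h1 2
      nlinarith
    have h5 : r1 ^ 2 ≤ 4 * nrm v ^ 2 := by nlinarith
    have h6 : r1 ^ 2 * θ ^ 2 * sqn v ≤ sqn v :=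
      mul_le_of_le_one_left (sqn_nonneg v) h4
    rw [hS]
    have h7 := nrm_sq v
    nlinarith
  set x : ℝ := θ ^ 2 * r1 / (8 * d) with hx
  have hx0 : 0 ≤ x := by positivity
  have hx1 : x ≤ 1 := by
    rw [hx, div_le_one (by positivity)]
    have : θ ^ 2 * r1 = θ * (θ * r1) := by ring
    rw [this]
    have : θ * (θ * r1) ≤ 1 * 1 := mul_le_mul hθ1 h1 (by positivity) (by norm_num)
    linarith
  have h4 : θ ^ 2 * (sqn v' - sqn v) / (2 * Real.sqrt S) ≤ -x := by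
    have h5 : θ ^ 2 * (sqn v' - sqn v) ≤ - (θ ^ 2 * (nrm v / d)) := by
      have := mul_le_mul_of_nonneg_left (by linarith : sqn v' - sqn v ≤ - (nrm v / d)) hθ
      linarith
    have h6 : x ≤ θ ^ 2 * (nrm v / d) / (2 * Real.sqrt S) := by
      rw [hx, le_div_iff₀ (by linarith)]
      have : θ ^ 2 * r1 / (8 * d) * (2 * Real.sqrt S) = θ ^ 2 / (4 * d) * (r1 * Real.sqrt S) := by
        field_simp; ring
      rw [this]
      calc θ ^ 2 / (4 * d) * (r1 * Real.sqrt S) ≤ θ ^ 2 / (4 * d) * (4 * nrm v) :=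
            mul_le_mul_of_nonneg_left h3 (by positivity)
        _ = θ ^ 2 * (nrm v / d) := by field_simp
    have h7 : θ ^ 2 * (sqn v' - sqn v) / (2 * Real.sqrt S) ≤
        - (θ ^ 2 * (nrm v / d)) / (2 * Real.sqrt S) := by
      exact div_le_div_of_nonneg_right h5 (by linarith)
    rw [neg_div] at h7
    linarith
  have h8 := exp_neg_le' x hx0 hx1
  have hf := fz_pos θ v
  calc fz θ v' ≤ fz θ v * Real.exp (θ ^ 2 * (sqn v' - sqn v) / (2 * Real.sqrt S)) := h2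
    _ ≤ fz θ v * Real.exp (-x) := mul_le_mul_of_nonneg_left (Real.exp_le_exp.mpr h4) hf.le
    _ ≤ fz θ v * (1 - x / 2) := mul_le_mul_of_nonneg_left h8 hf.le
    _ = (1 - θ ^ 2 * r1 / (16 * d)) * fz θ v := by
        rw [hx]
        field_simp
        ring

end ZI.Fz
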