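import Pool.Agent.ZI.R1
import Pool.Agent.ZI.Fz

/-! # One window of the chase (row C3): the abstract supersolution argument -/

set_option autoImplicit false

open scoped ENNReal BigOperators Classical

noncomputable section

namespace ZI.Win

open ZI Fz

variable {d : ℕ} {σ α : Type} [Fintype α]

theorem exp_sq_le (θ : ℝ) (h1 : θ ^ 2 ≤ 1) : Real.exp (θ ^ 2) ≤ 1 + 2 * θ ^ 2 := by
  have h0 := sq_nonneg θ
  have h2 : |θ ^ 2| ≤ 1 := by rw [abs_of_nonneg h0]; exact h1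
  have h3 := Real.abs_exp_sub_one_le h2
  rw [abs_of_nonneg h0] at h3
  have h4 := (abs_le.mp h3).2
  linarith

/-- one step of the supersolution along the plain walk -/
theorem sum_f (w : α → ℝ≥0∞) (sp : σ → α → σ) (D : σ → Pos d) (act : σ → Prop)
    (cm cp p θ : ℝ) (hcm : 0 ≤ cm) (hp : 0 ≤ p) (hp2 : 2 * d * cp * p ≤ 1 / 2) (hθ : θ ^ 2 ≤ 1)
    (hS : SymW w sp D act cm cp p) (s : σ) (hs : act s) (c : ℝ) (hc : 0 ≤ c) :
    ∑ a, w a * ENNReal.ofReal (c * fz θ (D (sp s a))) ≤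
      ENNReal.ofReal (c * ((1 + 4 * d * cp * p * θ ^ 2) * fz θ (D s))) := by
  obtain ⟨κ, hκ1, hκ2, hF⟩ := hS s hs
  rw [hF (fun v => ENNReal.ofReal (c * fz θ v))]
  have hκ0 : 0 ≤ κ := hcm.trans hκ1
  have hκp : 0 ≤ κ * p := mul_nonneg hκ0 hp
  have hd0 : (0 : ℝ) ≤ d := Nat.cast_nonneg d
  have hκp1 : κ * p ≤ cp * p := mul_le_mul_of_nonneg_right hκ2 hp
  have h1 : 2 * d * κ * p ≤ 2 * d * cp * p := by
    have := mul_le_mul_of_nonneg_left hκp1 (by positivity : (0 : ℝ) ≤ 2 * d)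
    linarith
  have e1 : ∀ e : Dir d, ENNReal.ofReal (κ * p) * ENNReal.ofReal (c * fz θ (D s + dv e)) =
      ENNReal.ofReal (κ * p * (c * fz θ (D s + dv e))) := fun e =>
    (ENNReal.ofReal_mul hκp).symm
  have hfp : ∀ v : Pos d, 0 ≤ c * fz θ v := fun v => mul_nonneg hc (fz_pos θ v).le
  simp only [e1]
  rw [← ENNReal.ofReal_sum_of_nonneg (fun e _ => mul_nonneg hκp (hfp _)),
    ← ENNReal.ofReal_mul (by linarith),
    ← ENNReal.ofReal_add (mul_nonneg (by linarith) (hfp _))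
      (Finset.sum_nonneg fun e _ => mul_nonneg hκp (hfp _))]
  refine ENNReal.ofReal_le_ofReal ?_
  rw [← Finset.mul_sum, ← Finset.mul_sum]
  have h2 := fz_sum θ (D s)
  have h3 := exp_sq_le θ hθ
  have hf := (fz_pos θ (D s)).le
  have h4 : ∑ e : Dir d, fz θ (D s + dv e) ≤ 2 * d * (1 + 2 * θ ^ 2) * fz θ (D s) := by
    refine h2.trans ?_
    refine mul_le_mul_of_nonneg_right ?_ hf
    exact mul_le_mul_of_nonneg_left h3 (by positivity)
  have h5 : κ * p * (c * ∑ e : Dir d, fz θ (D s + dv e)) ≤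
      κ * p * (c * (2 * d * (1 + 2 * θ ^ 2) * fz θ (D s))) :=
    mul_le_mul_of_nonneg_left (mul_le_mul_of_nonneg_left h4 hc) hκp
  have h6 : 2 * d * κ * p * (2 * θ ^ 2 * (c * fz θ (D s))) ≤
      2 * d * cp * p * (2 * θ ^ 2 * (c * fz θ (D s))) :=
    mul_le_mul_of_nonneg_right h1 (by have := hfp (D s); positivity)
  calc (1 - 2 * d * κ * p) * (c * fz θ (D s)) + κ * p * (c * ∑ e : Dir d, fz θ (D s + dv e))
      ≤ (1 - 2 * d * κ * p) * (c * fz θ (D s)) +
        κ * p * (c * (2 * d * (1 + 2 * θ ^ 2) * fz θ (D s))) := by linarith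
    _ = c * fz θ (D s) + 2 * d * κ * p * (2 * θ ^ 2 * (c * fz θ (D s))) := by ring
    _ ≤ c * fz θ (D s) + 2 * d * cp * p * (2 * θ ^ 2 * (c * fz θ (D s))) := by linarith
    _ = c * ((1 + 4 * d * cp * p * θ ^ 2) * fz θ (D s)) := by ring

/-- the window argument -/
theorem window (w : α → ℝ≥0∞) (sp sb : σ → α → σ) (D : σ → Pos d)
    (isB : σ → α → Prop) (act valid : σ → Prop) (cm cp p θ ρ Fρ A B G a0 : ℝ)
    (hcm : 0 ≤ cm) (hcp : 0 ≤ cp) (hp : 0 ≤ p) (hp2 : 2 * d * cp * p ≤ 1 / 2) (hθ : θ ^ 2 ≤ 1)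
    (hS : SymW w sp D act cm cp p)
    (hact : ∀ s, valid s → D s ≠ 0 → nrm (D s) ≤ ρ → act s)
    (hvalid : ∀ s a, valid s → valid (sb s a))
    (hnb : ∀ s a, ¬ isB s a → sb s a = sp s a)
    (hb : ∀ s a, act s → D s ≠ 0 → isB s a → D (sp s a) = D s ∧ fz θ (D (sb s a)) ≤ fz θ (D s))
    (hb' : ∀ s a, act s → D s ≠ 0 → isB s a → a0 ≤ nrm (D s) →
      B * fz θ (D (sb s a)) + A * G ≤ B * fz θ (D s))
    (hFρ : 0 < Fρ) (hF : ∀ v : Pos d, ρ < nrm v → Fρ ≤ fz θ v) (hA : 0 ≤ A) (hG : 0 ≤ G)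
    (hB : B = 1 / Fρ + A)
    (Q R : ℕ → σ → ℝ≥0∞)
    (hQ1 : ∀ n s, Q n s ≤ 1) (hQ2 : ∀ n s, D s = 0 → Q n s = 0)
    (hQ3 : ∀ n s, valid s → D s ≠ 0 → nrm (D s) ≤ ρ → Q (n + 1) s ≤ ∑ a, w a * Q n (sb s a))
    (hQ0 : ∀ s, valid s → Q 0 s ≤ ENNReal.ofReal (A * fz θ (D s)))
    (hR1 : ∀ n s, ρ < nrm (D s) → R n s = 0)
    (hR2 : ∀ n s, D s = 0 → ENNReal.ofReal G * R n s ≤ 1)
    (hR0 : ∀ s, D s ≠ 0 → R 0 s = 0)
    (hR3 : ∀ n s, valid s → D s ≠ 0 → nrm (D s) ≤ ρ →
      R (n + 1) s ≤ ∑ a, w a * (if isB s a ∧ a0 ≤ nrm (D s) then 1 else R n (sb s a))) :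
    ∀ n s, valid s → Q n s + ENNReal.ofReal (A * G) * R n s ≤
      ENNReal.ofReal ((1 + 4 * d * cp * p * θ ^ 2) ^ n * B * fz θ (D s)) := by
  have hd0 : (0 : ℝ) ≤ d := Nat.cast_nonneg d
  set Γ : ℝ := 1 + 4 * d * cp * p * θ ^ 2 with hΓ
  have hΓ1 : 1 ≤ Γ := by
    rw [hΓ]
    have : 0 ≤ 4 * d * cp * p * θ ^ 2 := by positivity
    linarith
  have hB0 : 0 ≤ B := by rw [hB]; positivity
  have hAB : A ≤ B := by
    rw [hB]
    have : 0 ≤ 1 / Fρ := by positivity
    linarith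
  have hΓn : ∀ n, 1 ≤ Γ ^ n := fun n => one_le_pow₀ hΓ1
  -- the two trivial cases
  have hfar : ∀ n s, ρ < nrm (D s) → Q n s + ENNReal.ofReal (A * G) * R n s ≤
      ENNReal.ofReal (Γ ^ n * B * fz θ (D s)) := by
    intro n s hs
    rw [hR1 n s hs, mul_zero, add_zero]
    refine (hQ1 n s).trans ?_
    rw [← ENNReal.ofReal_one]
    refine ENNReal.ofReal_le_ofReal ?_
    have h1 := hF (D s) hs
    have h2 : 1 ≤ B * fz θ (D s) := by
      rw [hB]
      have h3 : 1 / Fρ * Fρ = 1 := by field_simp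
      have h4 : 1 / Fρ * Fρ ≤ 1 / Fρ * fz θ (D s) := mul_le_mul_of_nonneg_left h1 (by positivity)
      have h5 : 0 ≤ A * fz θ (D s) := mul_nonneg hA (fz_pos θ _).le
      linarith
    have h3 := hΓn n
    calc (1 : ℝ) ≤ 1 * (B * fz θ (D s)) := by linarith
      _ ≤ Γ ^ n * (B * fz θ (D s)) := mul_le_mul_of_nonneg_right h3 (by linarith)
      _ = Γ ^ n * B * fz θ (D s) := by ring
  have hzero : ∀ n s, D s = 0 → Q n s + ENNReal.ofReal (A * G) * R n s ≤
      ENNReal.ofReal (Γ ^ n * B * fz θ (D s)) := by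
    intro n s hs
    rw [hQ2 n s hs, zero_add, ENNReal.ofReal_mul hA, mul_assoc]
    calc ENNReal.ofReal A * (ENNReal.ofReal G * R n s) ≤ ENNReal.ofReal A * 1 :=
          mul_le_mul_right (hR2 n s hs) _
      _ = ENNReal.ofReal A := mul_one _
      _ ≤ _ := by
        refine ENNReal.ofReal_le_ofReal ?_
        have h1 := one_le_fz θ (D s)
        have h2 := hΓn n
        calc A ≤ B := hAB
          _ = 1 * B * 1 := by ring
          _ ≤ Γ ^ n * B * fz θ (D s) := by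
            refine mul_le_mul (mul_le_mul_of_nonneg_right h2 hB0) h1 zero_le_one ?_
            positivity
  intro n
  induction n with
  | zero =>
    intro s hs
    by_cases h0 : D s = 0
    · exact hzero 0 s h0
    · rw [hR0 s h0, mul_zero, add_zero, pow_zero, one_mul]
      refine (hQ0 s hs).trans (ENNReal.ofReal_le_ofReal ?_)
      exact mul_le_mul_of_nonneg_right hAB (fz_pos θ _).le
  | succ n ih =>
    intro s hs
    by_cases h0 : D s = 0
    · exact hzero (n + 1) s h0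
    by_cases hfar' : ρ < nrm (D s)
    · exact hfar (n + 1) s hfar'
    have hle : nrm (D s) ≤ ρ := not_lt.mp hfar'
    have ha := hact s hs h0 hle
    have hQ := hQ3 n s hs h0 hle
    have hR := hR3 n s hs h0 hle
    have hc0 : 0 ≤ Γ ^ n * B := mul_nonneg (by have := hΓn n; linarith) hB0
    calc Q (n + 1) s + ENNReal.ofReal (A * G) * R (n + 1) s
        ≤ ∑ a, w a * Q n (sb s a) + ENNReal.ofReal (A * G) *
          ∑ a, w a * (if isB s a ∧ a0 ≤ nrm (D s) then 1 else R n (sb s a)) :=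
          add_le_add hQ (mul_le_mul_right hR _)
      _ = ∑ a, w a * (Q n (sb s a) + ENNReal.ofReal (A * G) *
          (if isB s a ∧ a0 ≤ nrm (D s) then 1 else R n (sb s a))) := by
          rw [Finset.mul_sum, ← Finset.sum_add_distrib]
          refine Finset.sum_congr rfl fun a _ => ?_
          rw [mul_add, mul_left_comm]
      _ ≤ ∑ a, w a * ENNReal.ofReal (Γ ^ n * B * fz θ (D (sp s a))) := by
          refine Finset.sum_le_sum fun a _ => mul_le_mul_right ?_ _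
          have ih' := ih (sb s a) (hvalid s a hs)
          by_cases hba : isB s a
          · have hbb := hb s a ha h0 hba
            rw [hbb.1]
            by_cases h3 : a0 ≤ nrm (D s)
            · rw [if_pos ⟨hba, h3⟩, mul_one]
              have h4 : Q n (sb s a) ≤ ENNReal.ofReal (Γ ^ n * B * fz θ (D (sb s a))) :=
                le_trans le_self_add ih'
              refine (add_le_add_left h4 _).trans ?_
              rw [← ENNReal.ofReal_add (mul_nonneg hc0 (fz_pos θ _).le) (mul_nonneg hA hG)]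
              refine ENNReal.ofReal_le_ofReal ?_
              have h5 := hb' s a ha h0 hba h3
              have h6 := hΓn n
              have h7 : 1 * (A * G) ≤ Γ ^ n * (A * G) :=
                mul_le_mul_of_nonneg_right h6 (mul_nonneg hA hG)
              have h8 := mul_le_mul_of_nonneg_left h5 (by linarith : (0 : ℝ) ≤ Γ ^ n)
              linarith
            · rw [if_neg (fun hh => h3 hh.2)]
              refine ih'.trans (ENNReal.ofReal_le_ofReal ?_)
              exact mul_le_mul_of_nonneg_left hbb.2 hc0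
          · rw [if_neg (fun hh => hba hh.1)]
            rw [hnb s a hba] at ih' ⊢
            exact ih'
      _ ≤ ENNReal.ofReal (Γ ^ n * B * (Γ * fz θ (D s))) :=
          sum_f w sp D act cm cp p θ hcm hp hp2 hθ hS s ha (Γ ^ n * B) hc0
      _ = ENNReal.ofReal (Γ ^ (n + 1) * B * fz θ (D s)) := by
          congr 1
          rw [pow_succ]
          ring

end ZI.Win
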