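import Pool.Agent.ZI.Plain
import Pool.Agent.ZI.Win
import Pool.Agent.ZI.R5a
import Pool.Agent.ZI.R5b

/-! # Row C3, first part: events of a window -/

set_option autoImplicit false

open scoped ENNReal BigOperators Classical

noncomputable section

namespace ZI.C3

open ZI ZI.Rows Plain Fz R5a

variable {d : ℕ}

/-! ### norms -/

theorem nrm_eq (v : Pos d) : nrm v = ‖(WithLp.toLp 2 (fun j => ((v j : ℤ) : ℝ)) : EuclideanSpace ℝ (Fin d))‖ := by
  rw [EuclideanSpace.norm_eq, nrm]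
  congr 1
  refine Finset.sum_congr rfl fun j _ => ?_
  rw [Real.norm_eq_abs, sq_abs]

theorem nrm_add_le (a b : Pos d) : nrm (a + b) ≤ nrm a + nrm b := by
  rw [nrm_eq, nrm_eq, nrm_eq]
  refine le_trans (le_of_eq ?_) (norm_add_le _ _)
  congr 1
  ext j
  simp

theorem nrm_neg (a : Pos d) : nrm (-a) = nrm a := by
  unfold nrm
  congr 1
  refine Finset.sum_congr rfl fun j _ => ?_
  simp

theorem nrm_zero : nrm (0 : Pos d) = 0 := by
  unfold nrm
  simp

theorem abs_coord_le (v : Pos d) (j : Fin d) : |(v j : ℝ)| ≤ nrm v := by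
  rw [← Real.sqrt_sq_eq_abs]
  exact Real.sqrt_le_sqrt (coord_sq_le v j)

/-- two positions at distance less than the side with the same projection are equal -/
theorem eq_of_tv {M : ℕ} (X Z : Pos d) (h : (tv X : Tor d M) = tv Z) (hlt : nrm (X - Z) < M) :
    X - Z = 0 := by
  by_contra hne
  obtain ⟨j, hj⟩ : ∃ j, (X - Z) j ≠ 0 := by
    by_contra hh
    push Not at hh
    exact hne (funext hh)
  have h1 : ((X j : ℤ) : ZMod M) = ((Z j : ℤ) : ZMod M) := congrFun h j
  have h2 : (M : ℤ) ∣ (X - Z) j := by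
    have := (ZMod.intCast_eq_intCast_iff_dvd_sub _ _ _).mp h1.symm
    exact this
  have h3 : (M : ℤ) ≤ |(X - Z) j| := Int.le_of_dvd (abs_pos.mpr hj) ((dvd_abs _ _).mpr h2)
  have h4 : (M : ℝ) ≤ |(((X - Z) j : ℤ) : ℝ)| := by
    have : ((M : ℤ) : ℝ) ≤ ((|(X - Z) j| : ℤ) : ℝ) := by exact_mod_cast h3
    push_cast at this ⊢
    exact this
  exact absurd (h4.trans (abs_coord_le _ j)) (not_le.mpr hlt)

/-! ### failure of the chase -/

variable {m : Model} (q : Par d m) (r : ℕ) (st : Bool) (ρ : ℝ)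

/-- probability of the failure of the chase with `N` letters to go -/
def FP (N : ℕ) (s : St d q.M) : ℝ≥0∞ :=
  PrE q.w N (fun l => DensAt r q.N1 s.1 l ∧ ¬ Chase st ρ s.1 s.2.1 s.2.2 l)

/-- the same with a window of `N` letters before -/
def QQ (N' N : ℕ) (s : St d q.M) : ℝ≥0∞ :=
  EvE q.w N (fun l1 => PrE q.w N' (fun l2 => DensAt r q.N1 (l1.foldl stepA s.1) l2 ∧
    ¬ Chase st ρ s.1 s.2.1 s.2.2 (l1 ++ l2)))

theorem densAt_append {M K : ℕ} (r N1 W : ℕ) (η : Tor d M → ℕ) (l1 l2 : List (Let d M K))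
    (h1 : l1.length = W * N1) (h : DensAt r N1 η (l1 ++ l2)) :
    DensAt r N1 (l1.foldl stepA η) l2 := by
  intro s hs
  have h2 := h (W + s) (by rw [List.length_append, h1, add_mul]; omega)
  have h3 : (l1 ++ l2).take ((W + s) * N1) = l1 ++ l2.take (s * N1) := by
    rw [add_mul, ← h1, List.take_length_add_append]
  rw [h3, List.foldl_append] at h2
  exact h2

theorem FP_le_QQ (W N' : ℕ) (s : St d q.M) :
    FP q r st ρ (W * q.N1 + N') s ≤ QQ q r st ρ N' (W * q.N1) s := by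
  unfold FP QQ PrE
  rw [EvE_append]
  refine EvE_mono q.w _ fun l1 hl1 => EvE_mono q.w _ fun l2 _ => ?_
  split_ifs with h1 h2
  · exact le_rfl
  · exact (h2 ⟨densAt_append r q.N1 W s.1 l1 l2 hl1 h1.1, h1.2⟩).elim
  · exact zero_le
  · exact le_rfl

theorem QQ_zero (N' : ℕ) (s : St d q.M) : QQ q r st ρ N' 0 s = FP q r st ρ N' s := rfl

theorem QQ_le_one (hd : 0 < d) (N' N : ℕ) (s : St d q.M) : QQ q r st ρ N' N s ≤ 1 := by
  unfold QQ
  refine (EvE_mono q.w N (G := fun _ => 1) fun l _ => ?_).trans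
    (EvE_const q.w (sum_w q hd) N 1).le
  exact PrE_le_one q.w (sum_w q hd) _ _

theorem FP_le_one (hd : 0 < d) (N : ℕ) (s : St d q.M) : FP q r st ρ N s ≤ 1 :=
  PrE_le_one q.w (sum_w q hd) _ _

theorem chase_meet {M K : ℕ} (hρ : 0 ≤ ρ) (η : Tor d M → ℕ) (x : Pos d) (P : Pos d × ℕ)
    (l : List (Let d M K)) (h : x - P.1 = 0) : Chase st ρ η x P l := by
  cases l with
  | nil => exact sub_eq_zero.mp h
  | cons a l =>
    refine ⟨?_, Or.inl (sub_eq_zero.mp h)⟩
    rw [h, nrm_zero]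
    exact hρ

theorem PrE_false (hd : 0 < d) (N : ℕ) (E : List (Let d q.M q.K) → Prop) (h : ∀ l, ¬ E l) :
    PrE q.w N E = 0 := by
  unfold PrE
  rw [EvE_congr q.w N (G := fun _ => 0) fun l _ => if_neg (h l), EvE_const q.w (sum_w q hd)]

theorem QQ_meet (hd : 0 < d) (hρ : 0 ≤ ρ) (N' N : ℕ) (s : St d q.M) (h : DD s = 0) :
    QQ q r st ρ N' N s = 0 := by
  unfold QQ
  rw [EvE_congr q.w N (G := fun _ => 0) fun l _ => PrE_false q hd _ _ fun l2 hh =>
    hh.2 (chase_meet st ρ hρ _ _ _ _ h), EvE_const q.w (sum_w q hd)]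

/-- one letter of a strategy -/
theorem QQ_succ (N' N : ℕ) (s : St d q.M) (nx : St d q.M → Let d q.M q.K → St d q.M)
    (h : ∀ a, (nx s a).1 = stepA s.1 a ∧ (nx s a).2.1 ∈ legal s.1 a s.2.1 ∧
      (nx s a).2.2 = tgt st s.1 s.2.2 a) (hle : nrm (DD s) ≤ ρ) :
    QQ q r st ρ N' (N + 1) s ≤ ∑ a, q.w a * QQ q r st ρ N' N (nx s a) := by
  unfold QQ
  rw [EvE_succ]
  refine Finset.sum_le_sum fun a _ => mul_le_mul_right ?_ _
  refine EvE_mono q.w N fun l1 _ => PrE_mono q.w N' fun l2 _ hh => ?_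
  obtain ⟨h1, h2, h3⟩ := h a
  refine ⟨?_, fun hc => hh.2 ?_⟩
  · rw [h1]
    exact hh.1
  · show Chase st ρ s.1 s.2.1 s.2.2 (a :: (l1 ++ l2))
    refine ⟨hle, Or.inr ⟨(nx s a).2.1, h2, ?_⟩⟩
    rw [← h1, ← h3]
    exact hc

theorem legal_sp (s : St d q.M) (hs : valid st s) (a : Let d q.M q.K) :
    (sp st s a).1 = stepA s.1 a ∧ (sp st s a).2.1 ∈ legal s.1 a s.2.1 ∧
      (sp st s a).2.2 = tgt st s.1 s.2.2 a :=
  ⟨rfl, adm_legal (adm_X0 s.1 s.2.1 a hs.1), rfl⟩

theorem legal_sb (es : Pos d → Dir d) (s : St d q.M) (hs : valid st s) (a : Let d q.M q.K) :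
    (sb es st s a).1 = stepA s.1 a ∧ (sb es st s a).2.1 ∈ legal s.1 a s.2.1 ∧
      (sb es st s a).2.2 = tgt st s.1 s.2.2 a :=
  ⟨rfl, adm_legal (adm_Xr s.1 s.2.1 _ a hs.1), rfl⟩

/-! ### the gain events -/

/-- a bonus ring while the path is not at the target, at distance between `a0` and `ρ` of it -/
def EvF (es : Pos d → Dir d) (a0 : ℝ) : St d q.M → List (Let d q.M q.K) → Prop
  | _, [] => False
  | s, a :: l => (DD s ≠ 0 ∧ nrm (DD s) ≤ ρ ∧ a0 ≤ nrm (DD s)) ∧
      (isB es s a ∨ EvF es a0 (sb es st s a) l)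

/-- the plain path meets the target without leaving the ball -/
def EvN : St d q.M → List (Let d q.M q.K) → Prop
  | s, [] => DD s = 0
  | s, a :: l => DD s = 0 ∨ (nrm (DD s) ≤ ρ ∧ EvN (sp st s a) l)

theorem act_of (s : St d q.M) (hρM : ρ < q.M) (hs : valid st s) (h0 : DD s ≠ 0)
    (hle : nrm (DD s) ≤ ρ) : act st s :=
  ⟨hs, fun h => h0 (eq_of_tv _ _ h (lt_of_le_of_lt hle hρM))⟩

theorem two_le_M : 2 ≤ q.M := le_trans (by norm_num) q.M_ge

theorem dist_lt (v v0 : Pos d) (b : ℝ) (h : nrm (v - v0) < b) :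
    nrm v < nrm v0 + b ∧ nrm v0 - b < nrm v := by
  have h1 := nrm_add_le (v - v0) v0
  rw [sub_add_cancel] at h1
  have h2 := nrm_add_le (-(v - v0)) v
  rw [nrm_neg, neg_sub, sub_add_cancel] at h2
  have h3 : nrm (v0 - v) = nrm (v - v0) := by rw [← nrm_neg, neg_sub]
  constructor <;> linarith

/-- far window: a bonus ring and no large displacement of the plain path -/
theorem evF_of (es : Pos d → Dir d) (a0 b : ℝ) (v0 : Pos d) (hρM : ρ < q.M)
    (h1 : nrm v0 + b ≤ ρ) (h2 : a0 ≤ nrm v0 - b) (h3 : 0 < a0) :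
    ∀ (l : List (Let d q.M q.K)) (s : St d q.M), valid st s →
    BonusIn (fun s : St d q.M => s.1) (fun s => s.2.1) (fun s => es (DD s)) (sb es st) s l →
    ¬ HitsBefore (sp st) (fun s' => ¬ act st s') (fun s' => b ≤ nrm (DD s' - v0)) s l →
    EvF q st ρ es a0 s l := by
  intro l
  induction l with
  | nil => intro s _ hb; exact hb.elim
  | cons a l ih =>
    intro s hs hb hn
    simp only [HitsBefore, not_or, not_and] at hn
    obtain ⟨hn1, hn2⟩ := hn
    have h4 := dist_lt (DD s) v0 b (not_le.mp hn1)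
    have h5 : a0 ≤ nrm (DD s) := by linarith
    have h0 : DD s ≠ 0 := by
      intro hh
      rw [hh, nrm_zero] at h5
      linarith
    have hle : nrm (DD s) ≤ ρ := by linarith
    have ha := act_of q st ρ s hρM hs h0 hle
    refine ⟨⟨h0, hle, h5⟩, ?_⟩
    by_cases hba : isB es s a
    · exact Or.inl hba
    · right
      have hb' := hb.resolve_left hba
      refine ih _ (valid_sb (two_le_M q) es st s a hs) hb' ?_
      rw [sb_of_not es st s a hba]
      exact hn2 (not_not.mpr ha)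

/-- near window: the plain walk hits and has no large displacement -/
theorem evN_of (b : ℝ) (v0 : Pos d) (hρM : ρ < q.M) (h1 : nrm v0 + b ≤ ρ) :
    ∀ (l : List (Let d q.M q.K)) (s : St d q.M), valid st s →
    Hits (sp st) (fun s => DD s = 0 ∨ ¬ act st s) s l →
    ¬ HitsBefore (sp st) (fun s' => ¬ act st s') (fun s' => b ≤ nrm (DD s' - v0)) s l →
    EvN q st ρ s l := by
  intro l
  induction l with
  | nil =>
    intro s hs hb hn
    by_contra h0
    have h4 := dist_lt (DD s) v0 b (not_le.mp hn)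
    exact (hb.resolve_left h0) (act_of q st ρ s hρM hs h0 (by linarith))
  | cons a l ih =>
    intro s hs hb hn
    simp only [HitsBefore, not_or, not_and] at hn
    obtain ⟨hn1, hn2⟩ := hn
    have h4 := dist_lt (DD s) v0 b (not_le.mp hn1)
    have hle : nrm (DD s) ≤ ρ := by linarith
    by_cases h0 : DD s = 0
    · exact Or.inl h0
    · have ha := act_of q st ρ s hρM hs h0 hle
      right
      refine ⟨hle, ih _ (valid_sp (two_le_M q) st s a hs) ?_ (hn2 (not_not.mpr ha))⟩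
      rcases hb with hb | hb
      · exact (hb.resolve_left h0 ha).elim
      · exact hb

end ZI.C3
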