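import Pool.Agent.ZI.C3a

/-! # Row C3, second part: the two windows and the induction -/

set_option autoImplicit false

open scoped ENNReal BigOperators Classical

noncomputable section

namespace ZI.C3

open ZI ZI.Rows Plain Fz R5a

variable {d : ℕ} {m : Model} (q : Par d m) (r : ℕ) (st : Bool) (ρ : ℝ)

theorem Gp_pos (m : Model) : 0 < m.Gp := by have := m.le_Gp; linarith

theorem cp_eq (hd : 0 < d) (m : Model) (x : ℝ) : 4 * (d : ℝ) * (m.Gp / d) * x = 4 * m.Gp * x := by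
  have : (d : ℝ) ≠ 0 := by positivity
  field_simp

theorem hp2 (hd : 0 < d) : 2 * (d : ℝ) * (m.Gp / d) * q.p ≤ 1 / 2 := by
  have : (d : ℝ) ≠ 0 := by positivity
  have h1 : 2 * (d : ℝ) * (m.Gp / d) * q.p = 2 * m.Gp * q.p := by field_simp
  have h2 := q.p_small
  rw [h1]
  linarith

theorem sub_of_add (Q : ℝ≥0∞) (x y : ℝ) (hx : 0 ≤ x) (h : Q + ENNReal.ofReal x ≤ ENNReal.ofReal y) :
    Q ≤ ENNReal.ofReal (y - x) := by
  rw [ENNReal.ofReal_sub _ hx]
  exact ENNReal.le_sub_of_add_le_right ENNReal.ofReal_ne_top h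

theorem half_of (q0 : ℝ) (hq0 : 0 ≤ q0) (P R H : ℝ≥0∞) (h1 : ENNReal.ofReal q0 ≤ P) (h2 : P ≤ R + H)
    (h3 : H ≤ ENNReal.ofReal (q0 / 2)) : ENNReal.ofReal (q0 / 2) ≤ R := by
  have h4 : ENNReal.ofReal (q0 / 2) + ENNReal.ofReal (q0 / 2) = ENNReal.ofReal q0 := by
    rw [← ENNReal.ofReal_add (by linarith) (by linarith)]
    congr 1
    ring
  have h5 : ENNReal.ofReal (q0 / 2) + ENNReal.ofReal (q0 / 2) ≤ R + ENNReal.ofReal (q0 / 2) := by
    rw [h4]
    exact h1.trans (h2.trans (add_le_add_right h3 R))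
  exact (ENNReal.add_le_add_iff_right ENNReal.ofReal_ne_top).mp h5

theorem EvF_succ (hd : 0 < d) (es : Pos d → Dir d) (a0 : ℝ) (n : ℕ) (s : St d q.M) :
    PrE q.w (n + 1) (EvF q st ρ es a0 s) ≤ ∑ a, q.w a * (if isB es s a ∧ a0 ≤ nrm (DD s) then 1 else
      PrE q.w n (EvF q st ρ es a0 (sb es st s a))) := by
  show EvE q.w (n + 1) _ ≤ _
  rw [EvE_succ]
  refine Finset.sum_le_sum fun a _ => mul_le_mul_right ?_ _
  show PrE q.w n (fun l => EvF q st ρ es a0 s (a :: l)) ≤ _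
  split_ifs with h
  · exact PrE_le_one q.w (sum_w q hd) _ _
  · refine PrE_mono q.w n fun l _ hh => ?_
    obtain ⟨⟨_, _, h3⟩, h4⟩ := hh
    exact h4.resolve_left fun h5 => h ⟨h5, h3⟩

/-- the far window -/
theorem win_far (hd : 0 < d) (es : Pos d → Dir d)
    (hes : ∀ v : Pos d, v ≠ 0 → sqn (v + dv (es v)) ≤ sqn v - nrm v / d)
    (θ r1 A : ℝ) (hθ0 : 0 ≤ θ) (hθ1 : θ ≤ 1) (hr1 : 0 < r1) (hθr : θ * r1 ≤ 1) (hA : 0 ≤ A)
    (hρM : ρ < q.M) (hρ0 : 0 ≤ ρ) (N' N : ℕ)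
    (hQ0 : ∀ s, valid st s → FP q r st ρ N' s ≤ ENNReal.ofReal (A * fz θ (DD s)))
    (s0 : St d q.M) (hs0 : valid st s0) (h1 : r1 ≤ nrm (DD s0)) (h2 : nrm (DD s0) + r1 / 2 ≤ ρ)
    (q0 b : ℝ) (hq0 : 0 ≤ q0) (hb : b ≤ r1 / 2)
    (hbonus : ENNReal.ofReal q0 ≤ PrE q.w N
      (BonusIn (fun s : St d q.M => s.1) (fun s => s.2.1) (fun s => es (DD s)) (sb es st) s0))
    (hdisp : PrE q.w N (HitsBefore (sp st) (fun s' => ¬ act st s')
      (fun s' => b ≤ nrm (DD s' - DD s0)) s0) ≤ ENNReal.ofReal (q0 / 2)) :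
    QQ q r st ρ N' N s0 ≤ ENNReal.ofReal
      (((1 + 4 * d * (m.Gp / d) * q.p * θ ^ 2) ^ N * (1 / FF θ ρ + A) -
        A * (θ ^ 2 * r1 / (16 * d) * q0 / 4)) * fz θ (DD s0)) := by
  have hd' : (1 : ℝ) ≤ d := by exact_mod_cast hd
  have hGm := m.Gm_pos
  have hGp := Gp_pos m
  have hp := q.p_pos
  set δ : ℝ := θ ^ 2 * r1 / (16 * d) with hδ
  have hδ0 : 0 ≤ δ := by positivity
  set a0 : ℝ := nrm (DD s0) - r1 / 2 with ha0
  have ha0' : r1 / 2 ≤ a0 := by rw [ha0]; linarith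
  set G : ℝ := δ * fz θ (DD s0) / 2 with hG
  have hf0 := fz_pos θ (DD s0)
  have hG0 : 0 ≤ G := by positivity
  have hFF := FF_pos θ ρ
  -- comparison of the values of the supersolution
  have hcomp : ∀ v : Pos d, a0 ≤ nrm v → fz θ (DD s0) ≤ 2 * fz θ v := by
    intro v hv
    rw [fz_eq θ v, fz_eq θ (DD s0)]
    have e1 : nrm (DD s0) - a0 = r1 / 2 := by rw [ha0]; ring
    have h3 := FF_lip θ hθ0 (y := a0) (z := nrm (DD s0)) (by linarith)
    rw [e1] at h3
    have h4 : Real.exp (θ * (r1 / 2)) ≤ 2 := by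
      have h5 : θ * (r1 / 2) ≤ 1 / 2 := by linarith
      have h6 : Real.exp (θ * (r1 / 2)) ≤ Real.exp (1 / 2) := Real.exp_le_exp.mpr h5
      have h7 : Real.exp (1 / 2) ^ 2 = Real.exp 1 := by
        rw [← Real.exp_nat_mul]
        congr 1
        norm_num
      have h8 := Real.exp_one_lt_d9
      have h9 := Real.exp_pos (1 / 2)
      nlinarith
    have h5 := FF_mono θ (by linarith : 0 ≤ a0) hv
    have h6 := FF_pos θ a0
    calc FF θ (nrm (DD s0)) ≤ FF θ a0 * Real.exp (θ * (r1 / 2)) := h3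
      _ ≤ FF θ a0 * 2 := mul_le_mul_of_nonneg_left h4 h6.le
      _ ≤ 2 * FF θ (nrm v) := by linarith
  have hmain := Win.window q.w (sp st) (sb es st) DD (isB es) (act st) (valid st) (m.Gm / (2 * d))
    (m.Gp / d) q.p θ ρ (FF θ ρ) A (1 / FF θ ρ + A) G a0 (by positivity) (by positivity) hp.le
    (hp2 q hd) (by nlinarith) (sym q hd st) (fun s hs h0 hle => act_of q st ρ s hρM hs h0 hle)
    (fun s a hs => valid_sb (two_le_M q) es st s a hs) (fun s a h => sb_of_not es st s a h)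
    (fun s a ha h0 hba => by
      obtain ⟨h3, h4⟩ := bonus_DD es st s a ha.2 hba
      refine ⟨h3, ?_⟩
      rw [h4]
      exact fz_dec0 hd θ _ _ (hes _ h0))
    (fun s a ha h0 hba h3 => by
      obtain ⟨_, h4⟩ := bonus_DD es st s a ha.2 hba
      rw [h4]
      have h5 := fz_dec hd θ r1 hr1 hθ0 hθr hθ1 _ _ (hes _ h0) (ha0'.trans h3)
      have h6 := hcomp _ h3
      have hB0 : 0 ≤ 1 / FF θ ρ + A := by positivity
      have h7 := mul_le_mul_of_nonneg_left h5 hB0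
      have h8 : A * G ≤ (1 / FF θ ρ + A) * (δ * fz θ (DD s)) := by
        have h9 : G ≤ δ * fz θ (DD s) := by
          rw [hG]
          have := mul_le_mul_of_nonneg_left h6 hδ0
          linarith
        have h10 : A ≤ 1 / FF θ ρ + A := by
          have : 0 ≤ 1 / FF θ ρ := by positivity
          linarith
        exact mul_le_mul h10 h9 hG0 hB0
      have e1 : (1 / FF θ ρ + A) * ((1 - θ ^ 2 * r1 / (16 * d)) * fz θ (DD s)) =
        (1 / FF θ ρ + A) * fz θ (DD s) - (1 / FF θ ρ + A) * (δ * fz θ (DD s)) := by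
        rw [hδ]; ring
      rw [e1] at h7
      linarith)
    hFF (fun v hv => by rw [fz_eq]; exact FF_mono θ hρ0 hv.le) hA hG0 rfl
    (fun n s => QQ q r st ρ N' n s) (fun n s => PrE q.w n (EvF q st ρ es a0 s))
    (fun n s => QQ_le_one q r st ρ hd N' n s) (fun n s h => QQ_meet q r st ρ hd hρ0 N' n s h)
    (fun n s hs _ hle => QQ_succ q r st ρ N' n s (sb es st) (legal_sb q st es s hs) hle)
    (fun s hs => hQ0 s hs)
    (fun n s hs => PrE_false q hd n _ fun l hl => by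
      cases l with
      | nil => exact hl
      | cons a l => exact absurd hl.1.2.1 (not_le.mpr hs))
    (fun n s hs => by
      rw [PrE_false q hd n _ fun l hl => by
        cases l with
        | nil => exact hl
        | cons a l => exact hl.1.1 hs, mul_zero]
      exact zero_le)
    (fun s _ => if_neg (fun hl : EvF q st ρ es a0 s [] => hl))
    (fun n s _ _ _ => EvF_succ q st ρ hd es a0 n s) N s0 hs0
  have hR : ENNReal.ofReal (q0 / 2) ≤ PrE q.w N (EvF q st ρ es a0 s0) := by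
    refine half_of q0 hq0 _ _ _ hbonus ?_ hdisp
    refine le_trans (PrE_mono q.w N fun l _ hl => ?_) (PrE_or q.w N _ _)
    by_cases hh : HitsBefore (sp st) (fun s' => ¬ act st s') (fun s' => b ≤ nrm (DD s' - DD s0)) s0 l
    · exact Or.inr hh
    · exact Or.inl (evF_of q st ρ es a0 b (DD s0) hρM (by linarith) (by rw [ha0]; linarith)
        (by linarith) l s0 hs0 hl hh)
  have h3 : QQ q r st ρ N' N s0 + ENNReal.ofReal (A * G * (q0 / 2)) ≤
      ENNReal.ofReal ((1 + 4 * d * (m.Gp / d) * q.p * θ ^ 2) ^ N * (1 / FF θ ρ + A) *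
        fz θ (DD s0)) := by
    refine le_trans (add_le_add_right ?_ _) hmain
    rw [ENNReal.ofReal_mul (mul_nonneg hA hG0)]
    exact mul_le_mul_right hR _
  refine (sub_of_add _ _ _ (by positivity) h3).trans (le_of_eq ?_)
  congr 1
  rw [hG]
  ring

theorem EvN_succ (n : ℕ) (s : St d q.M) (h0 : DD s ≠ 0) :
    PrE q.w (n + 1) (EvN q st ρ s) ≤ ∑ a, q.w a * PrE q.w n (EvN q st ρ (sp st s a)) := by
  show EvE q.w (n + 1) _ ≤ _
  rw [EvE_succ]
  refine Finset.sum_le_sum fun a _ => mul_le_mul_right ?_ _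
  refine PrE_mono q.w n fun l _ hh => ?_
  exact (hh.resolve_left h0).2

/-- the near window -/
theorem win_near (hd : 0 < d)
    (θ A : ℝ) (hθ0 : 0 ≤ θ) (hθ1 : θ ≤ 1) (hA : 0 ≤ A)
    (hρM : ρ < q.M) (hρ0 : 0 ≤ ρ) (N' N : ℕ)
    (hQ0 : ∀ s, valid st s → FP q r st ρ N' s ≤ ENNReal.ofReal (A * fz θ (DD s)))
    (s0 : St d q.M) (hs0 : valid st s0) (q1 b : ℝ) (h2 : nrm (DD s0) + b ≤ ρ) (hq1 : 0 ≤ q1)
    (hhit : ENNReal.ofReal q1 ≤ PrE q.w N (Hits (sp st) (fun s => DD s = 0 ∨ ¬ act st s) s0))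
    (hdisp : PrE q.w N (HitsBefore (sp st) (fun s' => ¬ act st s')
      (fun s' => b ≤ nrm (DD s' - DD s0)) s0) ≤ ENNReal.ofReal (q1 / 2)) :
    QQ q r st ρ N' N s0 ≤ ENNReal.ofReal
      ((1 + 4 * d * (m.Gp / d) * q.p * θ ^ 2) ^ N * (1 / FF θ ρ + A) * fz θ (DD s0) -
        A * (q1 / 2)) := by
  have hd' : (1 : ℝ) ≤ d := by exact_mod_cast hd
  have hGm := m.Gm_pos
  have hGp := Gp_pos m
  have hp := q.p_pos
  have hFF := FF_pos θ ρ
  have hmain := Win.window q.w (sp st) (sp st) DD (fun _ _ => False) (act st) (valid st)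
    (m.Gm / (2 * d))
    (m.Gp / d) q.p θ ρ (FF θ ρ) A (1 / FF θ ρ + A) 1 0 (by positivity) (by positivity) hp.le
    (hp2 q hd) (by nlinarith) (sym q hd st) (fun s hs h0 hle => act_of q st ρ s hρM hs h0 hle)
    (fun s a hs => valid_sp (two_le_M q) st s a hs) (fun s a _ => rfl)
    (fun s a _ _ h => h.elim) (fun s a _ _ h => h.elim)
    hFF (fun v hv => by rw [fz_eq]; exact FF_mono θ hρ0 hv.le) hA zero_le_one rfl
    (fun n s => QQ q r st ρ N' n s) (fun n s => PrE q.w n (EvN q st ρ s))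
    (fun n s => QQ_le_one q r st ρ hd N' n s) (fun n s h => QQ_meet q r st ρ hd hρ0 N' n s h)
    (fun n s hs _ hle => QQ_succ q r st ρ N' n s (sp st) (legal_sp q st s hs) hle)
    (fun s hs => hQ0 s hs)
    (fun n s hs => PrE_false q hd n _ fun l hl => by
      have h0 : DD s ≠ 0 := by
        intro hh
        rw [hh, nrm_zero] at hs
        linarith
      cases l with
      | nil => exact h0 hl
      | cons a l => exact absurd (hl.resolve_left h0).1 (not_le.mpr hs))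
    (fun n s _ => by
      rw [ENNReal.ofReal_one, one_mul]
      exact PrE_le_one q.w (sum_w q hd) _ _)
    (fun s h0 => if_neg (fun hl : EvN q st ρ s [] => h0 hl))
    (fun n s _ h0 _ => by
      refine (EvN_succ q st ρ n s h0).trans (le_of_eq ?_)
      refine Finset.sum_congr rfl fun a _ => ?_
      rw [if_neg (fun hh => hh.1)]) N s0 hs0
  have hR : ENNReal.ofReal (q1 / 2) ≤ PrE q.w N (EvN q st ρ s0) := by
    refine half_of q1 hq1 _ _ _ hhit ?_ hdisp
    refine le_trans (PrE_mono q.w N fun l _ hl => ?_) (PrE_or q.w N _ _)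
    by_cases hh : HitsBefore (sp st) (fun s' => ¬ act st s') (fun s' => b ≤ nrm (DD s' - DD s0)) s0 l
    · exact Or.inr hh
    · exact Or.inl (evN_of q st ρ b (DD s0) hρM h2 l s0 hs0 hl hh)
  have h3 : QQ q r st ρ N' N s0 + ENNReal.ofReal (A * (q1 / 2)) ≤
      ENNReal.ofReal ((1 + 4 * d * (m.Gp / d) * q.p * θ ^ 2) ^ N * (1 / FF θ ρ + A) *
        fz θ (DD s0)) := by
    refine le_trans (add_le_add_right ?_ _) hmain
    rw [mul_one, ENNReal.ofReal_mul hA]
    exact mul_le_mul_right hR _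
  exact sub_of_add _ _ _ (by positivity) h3

/-- growth of the supersolution over `W` units of time -/
theorem growth (hd : 0 < d) (θ : ℝ) (W : ℕ) :
    (1 + 4 * d * (m.Gp / d) * q.p * θ ^ 2) ^ (W * q.N1) ≤ Real.exp (4 * m.Gp * θ ^ 2 * W) := by
  have hGp := Gp_pos m
  have hp := q.p_pos
  have e1 : 4 * (d : ℝ) * (m.Gp / d) * q.p * θ ^ 2 = 4 * m.Gp * q.p * θ ^ 2 := by
    rw [cp_eq hd]
  rw [e1]
  have h0 : 0 ≤ 4 * m.Gp * q.p * θ ^ 2 := by positivity
  calc (1 + 4 * m.Gp * q.p * θ ^ 2) ^ (W * q.N1)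
      ≤ (Real.exp (4 * m.Gp * q.p * θ ^ 2)) ^ (W * q.N1) := by
        refine pow_le_pow_left₀ (by linarith) ?_ _
        have := Real.add_one_le_exp (4 * m.Gp * q.p * θ ^ 2)
        linarith
    _ = Real.exp (((W * q.N1 : ℕ) : ℝ) * (4 * m.Gp * q.p * θ ^ 2)) := by rw [← Real.exp_nat_mul]
    _ ≤ Real.exp (4 * m.Gp * θ ^ 2 * W) := by
        refine Real.exp_le_exp.mpr ?_
        push_cast
        have h1 := q.p_ub
        have h2 : 0 ≤ 4 * m.Gp * θ ^ 2 * W := by positivity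
        have h3 := mul_le_mul_of_nonneg_left h1 h2
        calc (W : ℝ) * q.N1 * (4 * m.Gp * q.p * θ ^ 2) = 4 * m.Gp * θ ^ 2 * W * (q.N1 * q.p) := by ring
          _ ≤ 4 * m.Gp * θ ^ 2 * W * 1 := h3
          _ = _ := by ring

theorem fin_real (g x0 y κ e1 E A F f : ℝ) (hg : g ≤ Real.exp x0) (hx0 : 0 ≤ x0) (hx1 : x0 ≤ 1 / 2)
    (hκ : 2 * x0 + y ≤ κ) (hy0 : 0 ≤ y) (hy1 : y ≤ 1) (hA : A = e1 + E) (he1 : 0 ≤ e1) (hE : 0 ≤ E)
    (hF : 0 < F) (hEy : 4 / F ≤ E * y) (hf : 0 ≤ f) :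
    (g * (1 / F + A) - A * κ) * f ≤ (e1 * Real.exp (-y) + E) * f := by
  refine mul_le_mul_of_nonneg_right ?_ hf
  have h1 : Real.exp x0 ≤ 1 + 2 * x0 := by
    have h2 : |x0| ≤ 1 := by rw [abs_of_nonneg hx0]; linarith
    have h3 := Real.abs_exp_sub_one_le h2
    rw [abs_of_nonneg hx0] at h3
    have h4 := (abs_le.mp h3).2
    linarith
  have h2 : g ≤ 2 := by linarith
  have h3 : g - κ ≤ Real.exp (-y) := by
    have := Real.add_one_le_exp (-y)
    linarith
  have h4 := exp_neg_le' y hy0 hy1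
  have hA0 : 0 ≤ A := by rw [hA]; linarith
  have h5 : A * (g - κ) ≤ A * Real.exp (-y) := mul_le_mul_of_nonneg_left h3 hA0
  have h6 : g * (1 / F) ≤ 2 / F := by
    rw [mul_one_div]
    exact div_le_div_of_nonneg_right h2 hF.le
  have h7 : E * Real.exp (-y) ≤ E * (1 - y / 2) := mul_le_mul_of_nonneg_left h4 hE
  have h8 : 4 / F = 2 * (2 / F) := by ring
  have h9 : A * Real.exp (-y) = e1 * Real.exp (-y) + E * Real.exp (-y) := by rw [hA]; ring
  nlinarith

end ZI.C3
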