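import Mathlib

/-!
# Zero-range process with infection (no recovery): basic definitions

* positions `Pos d = Fin d → ℤ`, directions `Dir d` (`± e_j`), labels `(x, k, e)`: site `x`, level `k`
  (the `k`-th particle counted from `0`, so the label is effective iff `k < η x`), direction `e`.
* `mv nb η l`: the configuration after the label `l` rings.
* `infMv`: the set of infected positions after the label rings (all particles at an infected position are infected).
* unit lists: `U t` is the ordered list of the labels that ring in the time interval `(t, t + 1]`.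
-/

set_option autoImplicit false

open scoped ENNReal BigOperators Classical

noncomputable section

namespace ZI

/-- positions -/
abbrev Pos (d : ℕ) := Fin d → ℤ

/-- directions `± e_j` -/
abbrev Dir (d : ℕ) := Fin d × Bool

/-- the unit vector of a direction -/
def dv {d : ℕ} (e : Dir d) : Pos d := Pi.single e.1 (if e.2 then 1 else -1)

/-- labels -/
abbrev Lab (V : Type) (d : ℕ) := V × ℕ × Dir d

variable {d : ℕ} {V : Type}

/-- the configuration after a ring: if `k < η x`, one particle jumps from `x` to `nb x e`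
(and is killed if `nb x e = none`) -/
def mv (nb : V → Dir d → Option V) (η : V → ℕ) (l : Lab V d) : V → ℕ :=
  if l.2.1 < η l.1 then
    (match nb l.1 l.2.2 with
      | none => Function.update η l.1 (η l.1 - 1)
      | some y => Function.update (Function.update η l.1 (η l.1 - 1)) y
          (Function.update η l.1 (η l.1 - 1) y + 1))
  else η

/-- the set of infected positions after a ring; `pr` is the projection of the positions to the sites -/
def infMv (nb : V → Dir d → Option V) (pr : Pos d → V) (η : V → ℕ) (A : Set (Pos d))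
    (l : Lab V d) : Set (Pos d) :=
  if l.2.1 < η l.1 then
    {z | z ∈ A ∧ (pr z = l.1 → 2 ≤ η l.1)} ∪
      {z | z - dv l.2.2 ∈ A ∧ pr (z - dv l.2.2) = l.1 ∧ nb l.1 l.2.2 = some (pr z)}
  else A

/-- one ring for the pair (configuration, infected set), infection restricted to the region `G` -/
def stepR (nb : V → Dir d → Option V) (pr : Pos d → V) (G : Set (Pos d))
    (s : (V → ℕ) × Set (Pos d)) (l : Lab V d) : (V → ℕ) × Set (Pos d) :=
  (mv nb s.1 l, infMv nb pr s.1 s.2 l ∩ G)

/-- the configuration at the integer time `t` -/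
def cfg (nb : V → Dir d → Option V) (η0 : V → ℕ) (U : ℕ → List (Lab V d)) : ℕ → (V → ℕ)
  | 0 => η0
  | t + 1 => (U t).foldl (mv nb) (cfg nb η0 U t)

/-- the infected set at the time `s + j`, for the infection started from `A` at the time `s` and
restricted to the region `G t` during `(t, t + 1]` -/
def inf (nb : V → Dir d → Option V) (pr : Pos d → V) (η0 : V → ℕ) (U : ℕ → List (Lab V d))
    (G : ℕ → Set (Pos d)) (s : ℕ) (A : Set (Pos d)) : ℕ → Set (Pos d)
  | 0 => {z | z ∈ A ∧ z ∈ G s ∧ 0 < cfg nb η0 U s (pr z)}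
  | j + 1 => ((U (s + j)).foldl (stepR nb pr (G (s + j)))
      (cfg nb η0 U (s + j), inf nb pr η0 U G s A j ∩ G (s + j))).2

/-- the sites visited by the infection during the interval `(s + j, s + j + 1]` (and at its start) -/
def visU (nb : V → Dir d → Option V) (pr : Pos d → V) (η0 : V → ℕ) (U : ℕ → List (Lab V d))
    (G : ℕ → Set (Pos d)) (s : ℕ) (A : Set (Pos d)) (j : ℕ) : Set (Pos d) :=
  {z | ∃ i ≤ (U (s + j)).length, z ∈ (((U (s + j)).take i).foldl (stepR nb pr (G (s + j)))
      (cfg nb η0 U (s + j), inf nb pr η0 U G s A j ∩ G (s + j))).2}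

/-! ### words of labels -/

/-- expectation over words of length `N`, letters independent with weights `w` -/
def EvE {α : Type} [Fintype α] (w : α → ℝ≥0∞) : ℕ → (List α → ℝ≥0∞) → ℝ≥0∞
  | 0, F => F []
  | N + 1, F => ∑ a, w a * EvE w N (fun l => F (a :: l))

/-- probability over words of length `N` -/
def PrE {α : Type} [Fintype α] (w : α → ℝ≥0∞) (N : ℕ) (E : List α → Prop) : ℝ≥0∞ :=
  EvE w N (fun l => if E l then 1 else 0)

/-! ### the torus chain -/

/-- the torus -/
abbrev Tor (d M : ℕ) := Fin d → ZMod M

/-- projection to the torus -/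
def tv {d M : ℕ} (z : Pos d) : Tor d M := fun j => (z j : ZMod M)

/-- neighbours in the torus -/
def nbT {d M : ℕ} (x : Tor d M) (e : Dir d) : Option (Tor d M) := some (x + tv (dv e))

/-- the letters of the torus chain with levels `< K`: `none` = nothing rings in this step -/
abbrev Let (d M K : ℕ) := Option (Tor d M × Fin K × Dir d)

/-- a letter as a label -/
def toLab {d M K : ℕ} (a : Let d M K) : Option (Lab (Tor d M) d) :=
  a.map (fun l => (l.1, (l.2.1 : ℕ), l.2.2))

/-- the unit lists of a word, `N1` letters per unit of time -/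
def units {d M K : ℕ} (N1 : ℕ) (l : List (Let d M K)) (t : ℕ) : List (Lab (Tor d M) d) :=
  ((l.drop (t * N1)).take N1).filterMap toLab

/-- the model: rate function `g` with increments in `[Gm, Gp]`, fugacity `φ` -/
structure Model where
  g : ℕ → ℝ
  Gm : ℝ
  Gp : ℝ
  φ : ℝ
  g0 : g 0 = 0
  Gm_pos : 0 < Gm
  Gm_le : Gm ≤ 1
  le_Gp : 1 ≤ Gp
  inc_lb : ∀ k, Gm ≤ g (k + 1) - g k
  inc_ub : ∀ k, g (k + 1) - g k ≤ Gp
  φ_pos : 0 < φ

namespace Model

variable (m : Model)

/-- rate of the label `(x, k, e)` in dimension `d` (level `k` counted from `0`) -/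
def lam (d : ℕ) (k : ℕ) : ℝ := (m.g (k + 1) - m.g k) / (2 * d)

/-- `g` stopped at the level cap `K` -/
def gK (K k : ℕ) : ℝ := m.g (min k K)

/-- unnormalised single site weight of the chain with cap `K` -/
def wt (K k : ℕ) : ℝ := m.φ ^ k / ∏ i ∈ Finset.range k, m.gK K (i + 1)

/-- the single site law of the chain with cap `K` -/
def m1 (K : ℕ) (k : ℕ) : ℝ≥0∞ := ENNReal.ofReal (m.wt K k / ∑' j, m.wt K j)

end Model

/-- product weights of a configuration on a finite set of sites -/
def prw {V : Type} [Fintype V] (m1 : ℕ → ℝ≥0∞) (η : V → ℕ) : ℝ≥0∞ := ∏ x, m1 (η x)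

/-- the parameters of the torus chain: side `M`, level cap `K`, `N1` letters per unit of time, a label of
level `k` has probability `lam k * p` in each step -/
structure Par (d : ℕ) (m : Model) where
  M : ℕ
  K : ℕ
  N1 : ℕ
  p : ℝ
  M_ge : 5 ≤ M
  K_ge : 2 ≤ K
  K_big : 2 * m.φ ≤ m.g K
  N1_pos : 0 < N1
  p_pos : 0 < p
  p_lb : 1 / 2 ≤ N1 * p
  p_ub : N1 * p ≤ 1
  p_small : 8 * m.Gp * p ≤ 1
  p_tot : (M : ℝ) ^ d * m.g K * p ≤ 1

namespace Par

variable {m : Model} (q : Par d m)

/-- weights of the letters -/
def w (a : Let d q.M q.K) : ℝ≥0∞ :=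
  match a with
  | none => 1 - ENNReal.ofReal ((q.M : ℝ) ^ d * m.g q.K * q.p)
  | some l => ENNReal.ofReal (m.lam d l.2.1 * q.p)

instance : NeZero q.M := ⟨by have := q.M_ge; omega⟩

/-- expectation for the stationary torus chain over `N` letters -/
def EE (N : ℕ) (F : (Tor d q.M → ℕ) → List (Let d q.M q.K) → ℝ≥0∞) : ℝ≥0∞ :=
  ∑' η : Tor d q.M → ℕ, prw (m.m1 q.K) η * EvE q.w N (F η)

/-- probability for the stationary torus chain -/
def PP (N : ℕ) (E : (Tor d q.M → ℕ) → List (Let d q.M q.K) → Prop) : ℝ≥0∞ :=
  q.EE N (fun η l => if E η l then 1 else 0)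

end Par

end ZI
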