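import Pool.Agent.ZI.Dec
import Pool.Agent.ZI.R3

/-! # Row E2: paths that agree in a region give infections that agree -/

set_option autoImplicit false

open scoped ENNReal BigOperators Classical

noncomputable section

namespace ZI.E2

open ZI

variable {d : ℕ}

/-- the infected set after one step, as a function of the two consecutive configurations -/
def nu {M : ℕ} (η η1 : Tor d M → ℕ) (A : Set (Pos d)) : Set (Pos d) :=
  {z | (z ∈ A ∧ (η1 (tv z) < η (tv z) → 2 ≤ η (tv z))) ∨
    ∃ e : Dir d, z - dv e ∈ A ∧ η1 (tv (z - dv e)) < η (tv (z - dv e)) ∧ η (tv z) < η1 (tv z)}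

theorem nu_self {M : ℕ} (η : Tor d M → ℕ) (A : Set (Pos d)) : nu η η A = A := by
  ext z
  unfold nu
  simp only [Set.mem_ofPred_eq]
  constructor
  · rintro (h | ⟨e, -, h, -⟩)
    · exact h.1
    · exact absurd h (lt_irrefl _)
  · intro h
    exact Or.inl ⟨h, fun h1 => absurd h1 (lt_irrefl _)⟩

/-- directions are determined by their projection to the torus -/
theorem tv_dv_inj {M : ℕ} (hM : 3 ≤ M) (e e' : Dir d) (h : (tv (dv e) : Tor d M) = tv (dv e')) :
    e = e' := by
  have : Fact (1 < M) := ⟨by omega⟩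
  have h2 : (2 : ZMod M) ≠ 0 := by
    intro h0
    have h3 : ((2 : ℕ) : ZMod M) = 0 := by exact_mod_cast h0
    rw [ZMod.natCast_eq_zero_iff] at h3
    exact absurd (Nat.le_of_dvd (by norm_num) h3) (by omega)
  rcases e with ⟨j, b⟩
  rcases e' with ⟨j', b'⟩
  have hj : j = j' := by
    by_contra hne
    have h1 := congrFun h j
    simp only [tv, dv, Pi.single_eq_same, Pi.single_eq_of_ne hne, Int.cast_zero] at h1
    cases b
    · simp at h1
    · simp at h1
  subst hj
  have h1 := congrFun h j
  simp only [tv, dv, Pi.single_eq_same] at h1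
  cases b <;> cases b'
  · rfl
  · exfalso
    apply h2
    simp at h1
    have h4 : (1 : ZMod M) + 1 = 0 := by
      nth_rewrite 1 [← h1]
      simp
    rw [← h4]
    norm_num
  · exfalso
    apply h2
    simp at h1
    have h4 : (1 : ZMod M) + 1 = 0 := by
      nth_rewrite 1 [h1]
      simp
    rw [← h4]
    norm_num
  · rfl

/-- the infection moves as a function of the configurations -/
theorem infMv_eq_nu {M : ℕ} (hM : 3 ≤ M) (η : Tor d M → ℕ) (A : Set (Pos d))
    (b : Lab (Tor d M) d) : infMv nbT tv η A b = nu η (mv nbT η b) A := by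
  have hM2 : 2 ≤ M := by omega
  unfold infMv
  by_cases hk : b.2.1 < η b.1
  · rw [if_pos hk]
    have h1 := Rows.mv_at hM2 η b hk
    have h2 := Rows.mv_to hM2 η b hk
    have hlt : ∀ x, mv nbT η b x < η x → x = b.1 := by
      intro x hx
      by_contra hne
      exact absurd (Rows.le_mv_of_ne hM2 η b x hne) (not_le.2 hx)
    have hgt : ∀ x, η x < mv nbT η b x → x = b.1 + tv (dv b.2.2) := by
      intro x hx
      by_contra hne
      by_cases hx1 : x = b.1
      · rw [hx1, h1] at hx
        omega
      · rw [Rows.mv_else η b hk x hx1 hne] at hx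
        exact lt_irrefl _ hx
    ext z
    unfold nu
    simp only [Set.mem_ofPred_eq, Set.mem_union]
    constructor
    · rintro (⟨hz, hz2⟩ | ⟨hz, hz1, hz2⟩)
      · exact Or.inl ⟨hz, fun h => by
          have h3 := hlt _ h
          rw [h3]
          exact hz2 h3⟩
      · right
        refine ⟨b.2.2, hz, ?_, ?_⟩
        · rw [hz1, h1]
          omega
        · have h3 : b.1 + tv (dv b.2.2) = tv z := Option.some.inj hz2
          rw [← h3, h2]
          omega
    · rintro (⟨hz, hz2⟩ | ⟨e, hz, hz1, hz2⟩)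
      · left
        refine ⟨hz, fun h => ?_⟩
        have h3 : mv nbT η b (tv z) < η (tv z) := by
          rw [h, h1]
          omega
        have h4 := hz2 h3
        rwa [h] at h4
      · right
        have h3 := hlt _ hz1
        have h4 := hgt _ hz2
        have h5 : (tv z : Tor d M) = tv (z - dv e) + tv (dv e) := by
          rw [← Rows.tv_add, sub_add_cancel]
        have h6 : e = b.2.2 := by
          apply tv_dv_inj hM
          rw [h3, h4] at h5
          exact (add_left_cancel h5).symm
        subst h6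
        refine ⟨hz, h3, ?_⟩
        change some (b.1 + tv (dv b.2.2)) = some (tv z)
        rw [h4]
  · rw [if_neg hk, Rows.mv_neff η b hk, nu_self]

theorem nu_sub {M : ℕ} {η η1 η' η1' : Tor d M → ℕ} {A Γ : Set (Pos d)} (hA : A ⊆ Γ)
    (h0 : ∀ y ∈ Γ, ∀ z : Pos d, (z = y ∨ ∃ e : Dir d, z = y + dv e) → η (tv z) = η' (tv z))
    (h1 : ∀ y ∈ Γ, ∀ z : Pos d, (z = y ∨ ∃ e : Dir d, z = y + dv e) → η1 (tv z) = η1' (tv z)) :
    nu η η1 A ⊆ nu η' η1' A := by
  rintro z (⟨hz, hz2⟩ | ⟨e, hz, hz1, hz2⟩)
  · left
    refine ⟨hz, ?_⟩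
    rw [← h0 z (hA hz) z (Or.inl rfl), ← h1 z (hA hz) z (Or.inl rfl)]
    exact hz2
  · right
    refine ⟨e, hz, ?_, ?_⟩
    · rw [← h0 _ (hA hz) _ (Or.inl rfl), ← h1 _ (hA hz) _ (Or.inl rfl)]
      exact hz1
    · rw [← h0 _ (hA hz) z (Or.inr ⟨e, (sub_add_cancel z _).symm⟩),
        ← h1 _ (hA hz) z (Or.inr ⟨e, (sub_add_cancel z _).symm⟩)]
      exact hz2

theorem nu_congr {M : ℕ} {η η1 η' η1' : Tor d M → ℕ} {A Γ : Set (Pos d)} (hA : A ⊆ Γ)
    (h0 : ∀ y ∈ Γ, ∀ z : Pos d, (z = y ∨ ∃ e : Dir d, z = y + dv e) → η (tv z) = η' (tv z))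
    (h1 : ∀ y ∈ Γ, ∀ z : Pos d, (z = y ∨ ∃ e : Dir d, z = y + dv e) → η1 (tv z) = η1' (tv z)) :
    nu η η1 A = nu η' η1' A :=
  Set.Subset.antisymm (nu_sub hA h0 h1)
    (nu_sub hA (fun y hy z hz => (h0 y hy z hz).symm) (fun y hy z hz => (h1 y hy z hz).symm))

/-- one letter for the restricted infection -/
def stG {M K : ℕ} (G : Set (Pos d)) (s : (Tor d M → ℕ) × Set (Pos d)) (a : Let d M K) :
    (Tor d M → ℕ) × Set (Pos d) :=
  (stepA s.1 a, nu s.1 (stepA s.1 a) s.2 ∩ G)

theorem stG_foldl_fst {M K : ℕ} (G : Set (Pos d)) (L : List (Let d M K)) :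
    ∀ s : (Tor d M → ℕ) × Set (Pos d), (L.foldl (stG G) s).1 = L.foldl stepA s.1 := by
  induction L with
  | nil => exact fun _ => rfl
  | cons a L ih => exact fun s => ih _

theorem stG_foldl_sub {M K : ℕ} (G : Set (Pos d)) (L : List (Let d M K)) :
    ∀ s : (Tor d M → ℕ) × Set (Pos d), s.2 ⊆ G → (L.foldl (stG G) s).2 ⊆ G := by
  induction L with
  | nil => exact fun _ h => h
  | cons a L ih => exact fun s _ => ih _ Set.inter_subset_right

theorem fold_filterMap {M K : ℕ} (hM : 3 ≤ M) (G : Set (Pos d)) (L : List (Let d M K)) :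
    ∀ s : (Tor d M → ℕ) × Set (Pos d), s.2 ⊆ G →
      (L.filterMap toLab).foldl (stepR nbT tv G) s = L.foldl (stG G) s := by
  induction L with
  | nil => exact fun s _ => rfl
  | cons a L ih =>
    intro s hs
    cases h : toLab a with
    | none =>
      have h1 : stG G s a = s := by
        have h2 : stepA s.1 a = s.1 := by
          unfold stepA
          rw [h]
        refine Prod.ext h2 ?_
        change nu s.1 (stepA s.1 a) s.2 ∩ G = s.2
        rw [h2, nu_self]
        exact Set.inter_eq_left.2 hs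
      rw [List.filterMap_cons_none h, List.foldl_cons, h1]
      exact ih s hs
    | some b =>
      have h1 : stG G s a = stepR nbT tv G s b := by
        have h2 : stepA s.1 a = mv nbT s.1 b := by
          unfold stepA
          rw [h]
        refine Prod.ext h2 ?_
        change nu s.1 (stepA s.1 a) s.2 ∩ G = infMv nbT tv s.1 s.2 b ∩ G
        rw [h2, infMv_eq_nu hM]
      rw [List.filterMap_cons_some h, List.foldl_cons, List.foldl_cons, h1]
      exact ih _ Set.inter_subset_right

theorem take_filterMap {α β : Type} (f : α → Option β) (L : List α) :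
    ∀ i ≤ (L.filterMap f).length, ∃ i' ≤ L.length,
      (L.filterMap f).take i = (L.take i').filterMap f := by
  induction L with
  | nil =>
    intro i _
    exact ⟨0, le_rfl, by simp⟩
  | cons a L ih =>
    intro i hi
    cases h : f a with
    | none =>
      rw [List.filterMap_cons_none h] at hi ⊢
      obtain ⟨i', h1, h2⟩ := ih i hi
      refine ⟨i' + 1, by rw [List.length_cons]; omega, ?_⟩
      rw [h2, List.take_succ_cons, List.filterMap_cons_none h]
    | some b =>
      rw [List.filterMap_cons_some h] at hi ⊢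
      cases i with
      | zero => exact ⟨0, by omega, by simp⟩
      | succ i =>
        rw [List.length_cons] at hi
        obtain ⟨i', h1, h2⟩ := ih i (by omega)
        refine ⟨i' + 1, by rw [List.length_cons]; omega, ?_⟩
        rw [List.take_succ_cons, h2, List.take_succ_cons, List.filterMap_cons_some h]

theorem filterMap_take {α β : Type} (f : α → Option β) (L : List α) (i : ℕ) :
    ∃ k ≤ (L.filterMap f).length, (L.filterMap f).take k = (L.take i).filterMap f := by
  have h1 : L.filterMap f = (L.take i).filterMap f ++ (L.drop i).filterMap f := by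
    rw [← List.filterMap_append, List.take_append_drop]
  refine ⟨((L.take i).filterMap f).length, ?_, ?_⟩
  · rw [h1, List.length_append]
    omega
  · rw [h1, List.take_left]

/-- two words whose configurations agree near the region give the same infected sets in it -/
theorem fold_agree {M K : ℕ} (G Γ : Set (Pos d)) (η η' : Tor d M → ℕ) (A : Set (Pos d))
    (L L' : List (Let d M K)) (hlen : L.length = L'.length)
    (hag : ∀ i ≤ L.length, ∀ y ∈ Γ, ∀ z : Pos d, (z = y ∨ ∃ e : Dir d, z = y + dv e) →
      (L.take i).foldl stepA η (tv z) = (L'.take i).foldl stepA η' (tv z))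
    (hsub : ∀ i ≤ L.length, ((L.take i).foldl (stG G) (η, A)).2 ⊆ Γ) :
    ∀ i ≤ L.length, ((L.take i).foldl (stG G) (η, A)).2 = ((L'.take i).foldl (stG G) (η', A)).2 := by
  intro i
  induction i with
  | zero =>
    intro _
    rw [List.take_zero, List.take_zero]
    rfl
  | succ i ih =>
    intro hi
    have hi1 : i < L.length := by omega
    have hi2 : i < L'.length := by omega
    have e1 : L.take (i + 1) = L.take i ++ [L[i]] := (List.take_append_getElem hi1).symm
    have e2 : L'.take (i + 1) = L'.take i ++ [L'[i]] := (List.take_append_getElem hi2).symm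
    have ih' := ih (by omega)
    have f1 : (L.take (i + 1)).foldl stepA η = stepA ((L.take i).foldl stepA η) L[i] := by
      rw [e1, List.foldl_append]
      rfl
    have f2 : (L'.take (i + 1)).foldl stepA η' = stepA ((L'.take i).foldl stepA η') L'[i] := by
      rw [e2, List.foldl_append]
      rfl
    rw [e1, e2, List.foldl_append, List.foldl_append]
    change nu ((L.take i).foldl (stG G) (η, A)).1
        (stepA ((L.take i).foldl (stG G) (η, A)).1 L[i]) ((L.take i).foldl (stG G) (η, A)).2 ∩ G =
      nu ((L'.take i).foldl (stG G) (η', A)).1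
        (stepA ((L'.take i).foldl (stG G) (η', A)).1 L'[i])
        ((L'.take i).foldl (stG G) (η', A)).2 ∩ G
    rw [stG_foldl_fst, stG_foldl_fst, ← ih', ← f1, ← f2,
      nu_congr (hsub i (by omega)) (hag i (by omega)) (hag (i + 1) hi)]

/-! ### canonical words -/

theorem path_head {M K : ℕ} (η : Tor d M → ℕ) (l : List (Let d M K)) :
    ∃ t, path η l = η :: t := by
  cases l with
  | nil => exact ⟨[], rfl⟩
  | cons a l => exact ⟨path (stepA η a) l, rfl⟩

theorem path_length {M K : ℕ} (l : List (Let d M K)) :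
    ∀ η : Tor d M → ℕ, (path η l).length = l.length + 1 := by
  induction l with
  | nil => exact fun _ => rfl
  | cons a l ih =>
    intro η
    change (path (stepA η a) l).length + 1 = _
    rw [ih]
    rfl

theorem path_getD {M K : ℕ} (l : List (Let d M K)) :
    ∀ (η : Tor d M → ℕ) (i : ℕ), i ≤ l.length → ∀ c,
      (path η l).getD i c = (l.take i).foldl stepA η := by
  induction l with
  | nil =>
    intro η i hi c
    have h0 : i = 0 := by simpa using hi
    subst h0
    rfl
  | cons a l ih =>
    intro η i hi c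
    cases i with
    | zero => rfl
    | succ i =>
      change (path (stepA η a) l).getD i c = _
      rw [ih _ i (by simpa using hi)]
      rfl

/-- the canonical letter makes the same step -/
theorem stepA_canL {M K : ℕ} (_ : 3 ≤ M) (hK : 0 < K) (η : Tor d M → ℕ) (a : Let d M K) :
    stepA η (canL η (stepA η a) : Let d M K) = stepA η a := by
  unfold canL
  split_ifs with h
  · obtain ⟨h1, h2, h3⟩ := h.choose_spec
    have h4 : stepA η (some h.choose : Let d M K) =
        mv nbT η (h.choose.1, (h.choose.2.1 : ℕ), h.choose.2.2) := rfl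
    rw [h4, h1]
    exact h3.symm
  · have h0 : stepA η (none : Let d M K) = η := rfl
    rw [h0]
    by_contra hne
    apply h
    cases a with
    | none => exact absurd rfl hne
    | some b =>
      have h4 : stepA η (some b : Let d M K) = mv nbT η (b.1, (b.2.1 : ℕ), b.2.2) := rfl
      by_cases hk : (b.2.1 : ℕ) < η b.1
      · refine ⟨(b.1, ⟨0, hK⟩, b.2.2), rfl, lt_of_le_of_lt (Nat.zero_le _) hk, ?_⟩
        rw [h4]
        unfold mv
        rw [if_pos hk, if_pos (lt_of_le_of_lt (Nat.zero_le _) hk)]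
      · exfalso
        apply hne
        rw [h4, Rows.mv_neff η _ hk]

theorem path_canP {M K : ℕ} (hM : 3 ≤ M) (hK : 0 < K) (l : List (Let d M K)) :
    ∀ η : Tor d M → ℕ, path η (canP (path η l) : List (Let d M K)) = path η l := by
  induction l with
  | nil => exact fun _ => rfl
  | cons a l ih =>
    intro η
    obtain ⟨t, ht⟩ := path_head (stepA η a) l
    have h1 : (canP (path η (a :: l)) : List (Let d M K)) =
        canL η (stepA η a) :: canP (path (stepA η a) l) := by
      change canP (η :: path (stepA η a) l) = _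
      rw [ht]
      rfl
    rw [h1]
    change η :: path (stepA η (canL η (stepA η a))) (canP (path (stepA η a) l)) =
      η :: path (stepA η a) l
    rw [stepA_canL hM hK, ih]

variable {m : Model} (q : Par d m)

theorem isPath_eq {p : List (Tor d q.M → ℕ)} (hp : IsPath q p) :
    path (p.headD (fun _ => 0)) (canP p : List (Let d q.M q.K)) = p := by
  obtain ⟨η, w, rfl⟩ := hp
  obtain ⟨t, ht⟩ := path_head η w
  have h1 : (path η w).headD (fun _ => 0) = η := by
    rw [ht]
    rfl
  rw [h1]
  have := q.M_ge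
  have := q.K_ge
  exact path_canP (by omega) (by omega) w η

/-- segment of a word for the unit `t` -/
def seg (w : List (Let d q.M q.K)) (t : ℕ) : List (Let d q.M q.K) := (w.drop (t * q.N1)).take q.N1

theorem units_eq (w : List (Let d q.M q.K)) (t : ℕ) :
    units q.N1 w t = (seg q w t).filterMap toLab := rfl

theorem foldl_mv {M K : ℕ} (L : List (Let d M K)) :
    ∀ η : Tor d M → ℕ, (L.filterMap toLab).foldl (mv nbT) η = L.foldl stepA η := by
  induction L with
  | nil => exact fun _ => rfl
  | cons a L ih =>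
    intro η
    cases h : toLab a with
    | none =>
      rw [List.filterMap_cons_none h, List.foldl_cons]
      have h2 : stepA η a = η := by
        unfold stepA
        rw [h]
      rw [h2]
      exact ih η
    | some b =>
      rw [List.filterMap_cons_some h, List.foldl_cons, List.foldl_cons]
      have h2 : stepA η a = mv nbT η b := by
        unfold stepA
        rw [h]
      rw [h2]
      exact ih _

theorem take_succ_seg (w : List (Let d q.M q.K)) (t : ℕ) :
    w.take ((t + 1) * q.N1) = w.take (t * q.N1) ++ seg q w t := by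
  unfold seg
  rw [Nat.succ_mul, List.take_add]

theorem take_seg (w : List (Let d q.M q.K)) (t i : ℕ) (hi : i ≤ q.N1) :
    w.take (t * q.N1 + i) = w.take (t * q.N1) ++ (seg q w t).take i := by
  unfold seg
  rw [List.take_add, List.take_take, min_eq_left hi]

theorem cfg_eq (w : List (Let d q.M q.K)) (η : Tor d q.M → ℕ) (t : ℕ) :
    cfg nbT η (units q.N1 w) t = (w.take (t * q.N1)).foldl stepA η := by
  induction t with
  | zero =>
    rw [Nat.zero_mul, List.take_zero]
    rfl
  | succ t ih =>
    change (units q.N1 w t).foldl (mv nbT) (cfg nbT η (units q.N1 w) t) = _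
    rw [ih, units_eq, foldl_mv, take_succ_seg, List.foldl_append]

theorem seg_length (w : List (Let d q.M q.K)) (t : ℕ) (h : (t + 1) * q.N1 ≤ w.length) :
    (seg q w t).length = q.N1 := by
  unfold seg
  rw [List.length_take, List.length_drop]
  have : (t + 1) * q.N1 = t * q.N1 + q.N1 := Nat.succ_mul _ _
  omega

theorem inf_succ (w : List (Let d q.M q.K)) (η : Tor d q.M → ℕ) (G : ℕ → Set (Pos d)) (s : ℕ)
    (A : Set (Pos d)) (j : ℕ) :
    inf nbT tv η (units q.N1 w) G s A (j + 1) =
      ((seg q w (s + j)).foldl (stG (G (s + j))) ((w.take ((s + j) * q.N1)).foldl stepA η,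
        inf nbT tv η (units q.N1 w) G s A j ∩ G (s + j))).2 := by
  have hM := q.M_ge
  change ((units q.N1 w (s + j)).foldl (stepR nbT tv (G (s + j)))
    (cfg nbT η (units q.N1 w) (s + j), inf nbT tv η (units q.N1 w) G s A j ∩ G (s + j))).2 = _
  rw [units_eq, cfg_eq, fold_filterMap (by omega) _ _ _ Set.inter_subset_right]

theorem visU_eq (w : List (Let d q.M q.K)) (η : Tor d q.M → ℕ) (G : ℕ → Set (Pos d)) (s : ℕ)
    (A : Set (Pos d)) (j : ℕ) :
    visU nbT tv η (units q.N1 w) G s A j =
      {z | ∃ i ≤ (seg q w (s + j)).length, z ∈ (((seg q w (s + j)).take i).foldl (stG (G (s + j)))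
        ((w.take ((s + j) * q.N1)).foldl stepA η,
        inf nbT tv η (units q.N1 w) G s A j ∩ G (s + j))).2} := by
  have hM := q.M_ge
  unfold visU
  rw [cfg_eq]
  ext z
  simp only [Set.mem_ofPred_eq]
  constructor
  · rintro ⟨i, hi, hz⟩
    rw [units_eq] at hi hz
    obtain ⟨i', h1, h2⟩ := take_filterMap toLab _ i hi
    refine ⟨i', h1, ?_⟩
    rw [h2, fold_filterMap (by omega) _ _ _ Set.inter_subset_right] at hz
    exact hz
  · rintro ⟨i, hi, hz⟩
    obtain ⟨k, h1, h2⟩ := filterMap_take toLab (seg q w (s + j)) i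
    refine ⟨k, h1, ?_⟩
    rw [units_eq, h2, fold_filterMap (by omega) _ _ _ Set.inter_subset_right]
    exact hz

/-- the general comparison for two words -/
theorem core (w w' : List (Let d q.M q.K)) (η η' : Tor d q.M → ℕ) (T : ℕ)
    (hw : T * q.N1 ≤ w.length) (hw' : T * q.N1 ≤ w'.length) (Γ : ℕ → Set (Pos d))
    (hag : ∀ t ≤ T, ∀ i, t * q.N1 ≤ i → i ≤ (t + 1) * q.N1 → i ≤ T * q.N1 → ∀ y ∈ Γ t,
      ∀ z : Pos d, (z = y ∨ ∃ e : Dir d, z = y + dv e) →
      (w.take i).foldl stepA η (tv z) = (w'.take i).foldl stepA η' (tv z))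
    (G : ℕ → Set (Pos d)) (s : ℕ) (x : Pos d) (h0 : s ≤ T → x ∈ G s → x ∈ Γ s)
    (hsub : ∀ j, s + j < T → visU nbT tv η (units q.N1 w) G s {x} j ⊆ Γ (s + j)) :
    ∀ j, s + j ≤ T →
      inf nbT tv η (units q.N1 w) G s {x} j = inf nbT tv η' (units q.N1 w') G s {x} j ∧
      (s + j < T → visU nbT tv η (units q.N1 w) G s {x} j =
        visU nbT tv η' (units q.N1 w') G s {x} j) := by
  have hN : 0 < q.N1 := q.N1_pos
  have key : ∀ j, s + j < T →
      inf nbT tv η (units q.N1 w) G s {x} j = inf nbT tv η' (units q.N1 w') G s {x} j →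
      ∀ i ≤ q.N1, (((seg q w (s + j)).take i).foldl (stG (G (s + j)))
        ((w.take ((s + j) * q.N1)).foldl stepA η,
        inf nbT tv η (units q.N1 w) G s {x} j ∩ G (s + j))).2 =
        (((seg q w' (s + j)).take i).foldl (stG (G (s + j)))
        ((w'.take ((s + j) * q.N1)).foldl stepA η',
        inf nbT tv η' (units q.N1 w') G s {x} j ∩ G (s + j))).2 := by
    intro j hj hinf
    have hmul : (s + j + 1) * q.N1 ≤ T * q.N1 := Nat.mul_le_mul_right _ hj
    have hexp : (s + j + 1) * q.N1 = (s + j) * q.N1 + q.N1 := Nat.succ_mul _ _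
    have l1 : (seg q w (s + j)).length = q.N1 := seg_length q w _ (hmul.trans hw)
    have l2 : (seg q w' (s + j)).length = q.N1 := seg_length q w' _ (hmul.trans hw')
    intro i0 hi0
    rw [← hinf]
    refine fold_agree (G (s + j)) (Γ (s + j)) _ _ _ _ _ (by rw [l1, l2]) ?_ ?_ i0
      (by rw [l1]; exact hi0)
    · intro i hi y hy z hz
      rw [l1] at hi
      rw [← List.foldl_append, ← List.foldl_append, ← take_seg q w _ i hi,
        ← take_seg q w' _ i hi]
      exact hag (s + j) hj.le _ (by omega) (by omega) (by omega) y hy z hz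
    · intro i hi z hz
      apply hsub j hj
      rw [visU_eq]
      exact ⟨i, hi, hz⟩
  have hinf : ∀ j, s + j ≤ T →
      inf nbT tv η (units q.N1 w) G s {x} j = inf nbT tv η' (units q.N1 w') G s {x} j := by
    intro j
    induction j with
    | zero =>
      intro hs
      rw [Nat.add_zero] at hs
      ext z
      change (z ∈ ({x} : Set (Pos d)) ∧ z ∈ G s ∧ 0 < cfg nbT η (units q.N1 w) s (tv z)) ↔
        (z ∈ ({x} : Set (Pos d)) ∧ z ∈ G s ∧ 0 < cfg nbT η' (units q.N1 w') s (tv z))
      refine and_congr_right fun hz => and_congr_right fun hG => ?_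
      rw [Set.mem_singleton_iff] at hz
      subst hz
      have h1 : s * q.N1 ≤ T * q.N1 := Nat.mul_le_mul_right _ hs
      have h2 : (s + 1) * q.N1 = s * q.N1 + q.N1 := Nat.succ_mul _ _
      rw [cfg_eq, cfg_eq, hag s hs (s * q.N1) le_rfl (by omega) h1 z (h0 hs hG) z (Or.inl rfl)]
    | succ j ih =>
      intro hj
      have hj' : s + j < T := by omega
      have hmul : (s + j + 1) * q.N1 ≤ T * q.N1 := Nat.mul_le_mul_right _ hj'
      have l1 : (seg q w (s + j)).length = q.N1 := seg_length q w _ (hmul.trans hw)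
      have l2 : (seg q w' (s + j)).length = q.N1 := seg_length q w' _ (hmul.trans hw')
      have hk := key j hj' (ih hj'.le) q.N1 le_rfl
      have t1 : (seg q w (s + j)).take q.N1 = seg q w (s + j) := List.take_of_length_le l1.le
      have t2 : (seg q w' (s + j)).take q.N1 = seg q w' (s + j) := List.take_of_length_le l2.le
      rw [t1, t2] at hk
      rw [inf_succ, inf_succ]
      exact hk
  intro j hj
  refine ⟨hinf j hj, fun hj' => ?_⟩
  have hmul : (s + j + 1) * q.N1 ≤ T * q.N1 := Nat.mul_le_mul_right _ hj'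
  have l1 : (seg q w (s + j)).length = q.N1 := seg_length q w _ (hmul.trans hw)
  have l2 : (seg q w' (s + j)).length = q.N1 := seg_length q w' _ (hmul.trans hw')
  have hk := key j hj' (hinf j hj)
  rw [visU_eq, visU_eq]
  ext z
  simp only [Set.mem_ofPred_eq, l1, l2]
  constructor
  · rintro ⟨i, hi, hz⟩
    exact ⟨i, hi, by rwa [← hk i hi]⟩
  · rintro ⟨i, hi, hz⟩
    exact ⟨i, hi, by rwa [hk i hi]⟩

theorem visU_sub (w : List (Let d q.M q.K)) (η : Tor d q.M → ℕ) (G : ℕ → Set (Pos d)) (s : ℕ)
    (A : Set (Pos d)) (j : ℕ) : visU nbT tv η (units q.N1 w) G s A j ⊆ G (s + j) := by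
  rw [visU_eq]
  rintro z ⟨i, -, hz⟩
  exact stG_foldl_sub _ _ _ Set.inter_subset_right hz

end ZI.E2

namespace ZI.Rows

open ZI ZI.E2

variable {d : ℕ} {m : Model}

/-! ## E2: paths that agree in a region give infections that agree -/

theorem agree_paths (q : Par d m) (p p' : List (Tor d q.M → ℕ)) (hp : IsPath q p) (hp' : IsPath q p')
    (hlen : p.length = p'.length) (T : ℕ) (hT : T * q.N1 < p.length) (Γ : ℕ → Set (Pos d))
    (hΓ : ∀ t ≤ T, ∀ i, t * q.N1 ≤ i → i ≤ (t + 1) * q.N1 → i ≤ T * q.N1 → ∀ y ∈ Γ t, ∀ z : Pos d,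
      (z = y ∨ ∃ e : Dir d, z = y + dv e) →
      (p.getD i (fun _ => 0)) (tv z) = (p'.getD i (fun _ => 0)) (tv z)) :
    AgreeW (pe q p) (pe q p') Γ T ∧
    ∀ (G : ℕ → Set (Pos d)) (s : ℕ) (x : Pos d), s < T → x ∈ Γ s →
      (∀ j, s + j < T → visU (pe q p).nb (pe q p).pr (pe q p).η0 (pe q p).U G s {x} j ⊆ Γ (s + j)) →
      ∀ j, s + j ≤ T →
        inf (pe q p).nb (pe q p).pr (pe q p).η0 (pe q p).U G s {x} j =
          inf (pe q p').nb (pe q p').pr (pe q p').η0 (pe q p').U G s {x} j ∧
        (s + j < T → visU (pe q p).nb (pe q p).pr (pe q p).η0 (pe q p).U G s {x} j =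
          visU (pe q p').nb (pe q p').pr (pe q p').η0 (pe q p').U G s {x} j) := by
  have hN : 0 < q.N1 := q.N1_pos
  have e1 := isPath_eq q hp
  have e2 := isPath_eq q hp'
  have l1 : p.length = (canP p : List (Let d q.M q.K)).length + 1 := by
    conv_lhs => rw [← e1]
    exact path_length _ _
  have l2 : p'.length = (canP p' : List (Let d q.M q.K)).length + 1 := by
    conv_lhs => rw [← e2]
    exact path_length _ _
  have g1 : ∀ i, i ≤ T * q.N1 → p.getD i (fun _ => 0) =
      ((canP p : List (Let d q.M q.K)).take i).foldl stepA (p.headD (fun _ => 0)) := by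
    intro i hi
    have h := path_getD (canP p : List (Let d q.M q.K)) (p.headD (fun _ => 0)) i (by omega)
      (fun _ => 0)
    rw [e1] at h
    exact h
  have g2 : ∀ i, i ≤ T * q.N1 → p'.getD i (fun _ => 0) =
      ((canP p' : List (Let d q.M q.K)).take i).foldl stepA (p'.headD (fun _ => 0)) := by
    intro i hi
    have h := path_getD (canP p' : List (Let d q.M q.K)) (p'.headD (fun _ => 0)) i (by omega)
      (fun _ => 0)
    rw [e2] at h
    exact h
  have hag : ∀ t ≤ T, ∀ i, t * q.N1 ≤ i → i ≤ (t + 1) * q.N1 → i ≤ T * q.N1 → ∀ y ∈ Γ t,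
      ∀ z : Pos d, (z = y ∨ ∃ e : Dir d, z = y + dv e) →
      ((canP p : List (Let d q.M q.K)).take i).foldl stepA (p.headD (fun _ => 0)) (tv z) =
      ((canP p' : List (Let d q.M q.K)).take i).foldl stepA (p'.headD (fun _ => 0)) (tv z) := by
    intro t ht i h1 h2 h3 y hy z hz
    rw [← g1 i h3, ← g2 i h3]
    exact hΓ t ht i h1 h2 h3 y hy z hz
  have hc := fun G s x h0 hsub => core q (canP p) (canP p') (p.headD (fun _ => 0))
    (p'.headD (fun _ => 0)) T (by omega) (by omega) Γ hag G s x h0 hsub
  refine ⟨⟨?_, ?_⟩, ?_⟩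
  · intro t ht x hx
    change 0 < cfg nbT (p.headD (fun _ => 0)) (units q.N1 (canP p)) t (tv x) ↔
      0 < cfg nbT (p'.headD (fun _ => 0)) (units q.N1 (canP p')) t (tv x)
    have h1 : t * q.N1 ≤ T * q.N1 := Nat.mul_le_mul_right _ ht
    have h2 : (t + 1) * q.N1 = t * q.N1 + q.N1 := Nat.succ_mul _ _
    rw [cfg_eq, cfg_eq, hag t ht (t * q.N1) le_rfl (by omega) h1 x hx x (Or.inl rfl)]
  · intro G hG s t x y ht
    have h0 : s ≤ T → x ∈ G s → x ∈ Γ s := fun hs hx => hG s hs hx
    have hsub : ∀ j, s + j < T → visU nbT tv (p.headD (fun _ => 0))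
        (units q.N1 (canP p : List (Let d q.M q.K))) G s {x} j ⊆ Γ (s + j) := fun j hj =>
      (visU_sub q _ _ G s {x} j).trans (hG (s + j) hj.le)
    constructor
    · rintro ⟨j, hj, hy⟩
      refine ⟨j, hj, ?_⟩
      have h1 := (hc G s x h0 hsub j (by omega)).1
      change y ∈ inf nbT tv (p.headD (fun _ => 0)) (units q.N1 (canP p)) G s {x} j at hy
      change y ∈ inf nbT tv (p'.headD (fun _ => 0)) (units q.N1 (canP p')) G s {x} j
      rwa [← h1]
    · rintro ⟨j, hj, hy⟩
      refine ⟨j, hj, ?_⟩
      have h1 := (hc G s x h0 hsub j (by omega)).1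
      change y ∈ inf nbT tv (p'.headD (fun _ => 0)) (units q.N1 (canP p')) G s {x} j at hy
      change y ∈ inf nbT tv (p.headD (fun _ => 0)) (units q.N1 (canP p)) G s {x} j
      rwa [h1]
  · intro G s x _ hx hsub j hj
    exact hc G s x (fun _ _ => hx) hsub j hj

end ZI.Rows
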