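import Pool.Agent.ZI.S1

/-! # S2: comparison of scales (deterministic) -/

set_option autoImplicit false

open scoped ENNReal BigOperators Classical
open MeasureTheory

noncomputable section

namespace ZI.S2

open ZI ZI.S1

variable {d : ℕ}

theorem rk_inj {v w : Pos d} (h : rk v = rk w) : v = w := by
  unfold rk at h
  have h1 := toLex.injective h
  exact Encodable.encode_injective (Prod.ext_iff.1 h1).2

theorem supn_le_of_rk_le {v w : Pos d} (h : rk v ≤ rk w) : supn v ≤ supn w := by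
  unfold rk at h
  rcases (Prod.Lex.toLex_le_toLex).1 h with h1 | ⟨h1, -⟩
  · exact le_of_lt h1
  · exact le_of_eq h1

theorem argmin_congr {s t : Set (Pos d)} (hs : s.Nonempty) (ht : t.Nonempty)
    (h1 : Function.argminOn rk s hs ∈ t) (h2 : Function.argminOn rk t ht ∈ s) :
    Function.argminOn rk s hs = Function.argminOn rk t ht :=
  rk_inj (le_antisymm (Function.argminOn_le rk s h2) (Function.argminOn_le rk t h1))

/-- the nearest occupied position depends only on the occupation near the point -/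
theorem near_congr {E E' : Env d} {t N : ℕ} (h : ∀ v, supn v ≤ N → (E.occ t (0 + v) ↔ E'.occ t (0 + v)))
    (h0 : ∃ v, supn v ≤ N ∧ E.occ t (0 + v)) : E.near t 0 = E'.near t 0 := by
  obtain ⟨v, hv, hv'⟩ := h0
  have hs : {v : Pos d | E.occ t (0 + v)}.Nonempty := ⟨v, hv'⟩
  have ht : {v : Pos d | E'.occ t (0 + v)}.Nonempty := ⟨v, (h v hv).1 hv'⟩
  unfold Env.near
  rw [dif_pos hs, dif_pos ht]
  congr 1
  refine argmin_congr hs ht ?_ ?_
  · have h1 : supn (Function.argminOn rk {v : Pos d | E.occ t (0 + v)} hs) ≤ N :=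
      le_trans (supn_le_of_rk_le (Function.argminOn_le rk _ hv')) hv
    exact (h _ h1).1 (Function.argminOn_mem rk _ hs)
  · have h1 : supn (Function.argminOn rk {v : Pos d | E'.occ t (0 + v)} ht) ≤ N :=
      le_trans (supn_le_of_rk_le (Function.argminOn_le rk _ ((h v hv).1 hv'))) hv
    exact (h _ h1).2 (Function.argminOn_mem rk _ ht)

theorem rr_mono (A : ℕ) {k k' : ℕ} (h : k ≤ k') : rr A k ≤ rr A k' :=
  Nat.pow_le_pow_right (by norm_num) (Nat.div_le_div_right h)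

/-- the region of the block grows with the scale -/
theorem wall_mono {a A k k' : ℕ} (h : k ≤ k') (u : Fin d → ℝ) (t : ℕ) :
    wall (PK d a A k) u 0 0 t ⊆ wall (PK d a A k') u 0 0 t := by
  rintro y ⟨h1, h2⟩
  have hr := rr_mono A h
  have hr0 := rr_pos A k
  refine ⟨le_trans ?_ h1, le_trans h2 ?_⟩
  · have e1 : ((PK d a A k).mg : ℝ) ≤ (PK d a A k').mg := by
      exact_mod_cast Nat.pow_le_pow_left hr _
    have e2 : ((PK d a A k).κ : ℝ) ≤ (PK d a A k').κ := by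
      exact_mod_cast Nat.pow_le_pow_left hr _
    have e3 : (0 : ℝ) < (PK d a A k).κ := by
      exact_mod_cast pow_pos hr0 _
    have e4 : ((t : ℝ) - (0 : ℕ)) / (16 * (PK d a A k').κ) ≤ ((t : ℝ) - (0 : ℕ)) / (16 * (PK d a A k).κ) := by
      refine div_le_div_of_nonneg_left ?_ (by positivity) (by linarith)
      simp
    linarith
  · show (2 ^ k) ^ 2 ≤ (2 ^ k') ^ 2
    exact Nat.pow_le_pow_left (Nat.pow_le_pow_right (by norm_num) h) 2

theorem R_mono_start {E : Env d} {G G' : ℕ → Set (Pos d)} {s t : ℕ} {x y : Pos d}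
    (h : ∀ t, G t ⊆ G' t) (ho : E.occ s x) (hx : x ∈ G s) (hR : E.R G s x t y) : E.R G' s x t y :=
  (Env.R_self ho (h s hx)).comp hR fun i _ _ => h i

end ZI.S2

namespace ZI.Rows

open ZI ZI.S1 ZI.S2

variable {d : ℕ}

section S

variable {Ω : Type} [MeasurableSpace Ω] {P : Measure Ω}

theorem bh_scale (S : Sys d P) : ∃ k1 ≥ S.k0, ∀ k ≥ k1, ∀ k' ≥ k, ∀ E E' : Env d,
    GoodK S.a S.A S.Cv k E → GoodK S.a S.A S.Cv k' E' → Agree ((2 ^ k) ^ 2) E E' →
    ∀ u : Fin d → ℝ, ∑ j, u j ^ 2 = 1 → ∀ m : ℕ, rr S.A k ^ (7 * S.a) ≤ m → m ≤ rr S.A k * 2 ^ k →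
    E'.bh (PK d S.a S.A k') u m 0 0 ≤ E.bh (PK d S.a S.A k) u m 0 0 := by
  have ha := S.a_big
  have hA := S.A_big
  obtain ⟨k1, hk1, H⟩ := exists_scale S.A S.k0 d (by omega)
  refine ⟨k1, hk1, fun k hk k' hk' E E' hE hE' hag u hu m hm hmn => ?_⟩
  obtain ⟨h2, hd, h20⟩ := H k hk
  have hroom : 0 + rr S.A k ^ (2 * S.a) * m ≤ (2 ^ k) ^ 2 := room ha hA h20 (by simp) hmn
  have F := S.facts k (le_trans hk1 hk) E hE u hu m hm hmn 0 0 hroom
  obtain ⟨hb1, -, hκ⟩ := block_time h2 ha hm F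
  have hb : E.bh (PK d S.a S.A k) u m 0 0 ≤ (2 ^ k) ^ 2 := by
    refine le_trans hb1 (le_trans ?_ hroom)
    rw [zero_add]
    refine Nat.mul_le_mul_right _ ?_
    calc 8 * rr S.A k ^ S.a ≤ rr S.A k ^ S.a * rr S.A k ^ S.a := Nat.mul_le_mul_right _ (by omega)
      _ = rr S.A k ^ (2 * S.a) := by rw [← pow_add]; congr 1; ring
  have hrn : rr S.A k ≤ 2 ^ k := by
    have := rr_pow_le (a := S.a) (A := S.A) (k := k) (c := 1) (e := 0) hA (by omega) (by omega)
    simpa using this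
  have hn : 2 ^ k ≤ (2 ^ k) ^ 2 := by
    calc 2 ^ k = (2 ^ k) ^ 1 := (pow_one _).symm
      _ ≤ _ := Nat.pow_le_pow_right (Nat.two_pow_pos k) (by norm_num)
  have hnear : E.near 0 0 = E'.near 0 0 := by
    refine near_congr (N := rr S.A k) (fun v hv => hag.occ 0 (Nat.zero_le _) _ ?_) ?_
    · rw [zero_add]
      omega
    · obtain ⟨v, -, hv1, hv2⟩ := hE.g1 0 (Nat.zero_le _) 0
      exact ⟨v, hv1, hv2⟩
  -- the start
  have hst : E.occ 0 (E.near 0 0) ∧ E.near 0 0 ∈ wall (PK d S.a S.A k) u 0 0 0 := by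
    obtain ⟨j, hj, hy⟩ := F.near_W
    obtain rfl : j = 0 := by omega
    exact ⟨hy.2.2, hy.2.1⟩
  have hwall : ∀ t, wall (PK d S.a S.A k) u 0 0 t ⊆ {x | supn x ≤ 4 * (2 ^ k) ^ 2} := by
    rintro t y ⟨-, hy⟩
    rw [sub_zero] at hy
    have : (PK d S.a S.A k).Dw = (2 ^ k) ^ 2 := rfl
    rw [this] at hy
    exact le_trans hy (by omega)
  refine Nat.sInf_le ⟨0 + E.bx (PK d S.a S.A k) u m 0 0, ?_, ?_⟩
  · have h1 := F.x_mem
    have h3 : E.R (wall (PK d S.a S.A k) u 0 0) 0 (E.near 0 0) (0 + E.bh (PK d S.a S.A k) u m 0 0)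
      (0 + E.bx (PK d S.a S.A k) u m 0 0) := h1
    have h4 := (hag.R _ hwall 0 _ _ _ (by rw [zero_add]; exact hb)).1 h3
    have h5 : E'.occ 0 (E.near 0 0) := by
      refine (hag.occ 0 (Nat.zero_le _) _ ?_).1 hst.1
      exact hwall 0 hst.2
    show E'.R (wall (PK d S.a S.A k') u 0 0) 0 (E'.near 0 0) (0 + E.bh (PK d S.a S.A k) u m 0 0)
      (0 + E.bx (PK d S.a S.A k) u m 0 0)
    rw [← hnear]
    exact R_mono_start (fun t => wall_mono hk' u t) h5 hst.2 h4
  · rw [zero_add, sub_zero]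
    exact F.x_lev

end S

end ZI.Rows
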