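import Pool.Agent.ZI.Dec
import Pool.Agent.ZI.S2
import Pool.Agent.ZI.R6
import Pool.Agent.ZI.E2

/-! # E5a: transfer of the past event (deterministic) -/

set_option autoImplicit false

open scoped ENNReal BigOperators Classical Pointwise

noncomputable section

namespace ZI.E5a

open ZI ZI.S1 ZI.S2

variable {d : ℕ}

/-! ## generalities on restricted infections -/
section gen

variable {V : Type} {nb : V → Dir d → Option V} {pr : Pos d → V} {η0 : V → ℕ} {U : ℕ → List (Lab V d)}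
  {G : ℕ → Set (Pos d)} {s j : ℕ} {A : Set (Pos d)} {b x : Pos d}

theorem visU_split (hb : b ∈ visU nb pr η0 U G s A j) :
    ∃ z ∈ inf nb pr η0 U G s A j, z ∈ G (s + j) ∧ b ∈ visU nb pr η0 U G (s + j) {z} 0 := by
  obtain ⟨i, hi, h⟩ := hb
  obtain ⟨z, hz, hbz⟩ := mem_foldl_stepR _ _ _ _ h
  refine ⟨z, hz.1, hz.2, i, hi, ?_⟩
  refine foldl_stepR_mono subset_rfl _ _ ?_ hbz
  rintro _ rfl
  exact ⟨⟨rfl, hz.2, inf_occ j _ hz.1⟩, hz.2⟩

theorem visU_region : visU nb pr η0 U G s A j ⊆ G (s + j) := by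
  rintro b ⟨i, -, h⟩
  exact foldl_stepR_region _ _ _ Set.inter_subset_right h

theorem inf_succ_region : inf nb pr η0 U G s A (j + 1) ⊆ G (s + j) := fun _ h =>
  foldl_stepR_region _ _ _ Set.inter_subset_right h

theorem mem_visU_self (h : x ∈ inf nb pr η0 U G s A j) (hG : x ∈ G (s + j)) :
    x ∈ visU nb pr η0 U G s A j := ⟨0, Nat.zero_le _, h, hG⟩

theorem inf_start (h : (inf nb pr η0 U G s {x} j).Nonempty) : x ∈ inf nb pr η0 U G s {x} 0 := by
  induction j with
  | zero =>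
    obtain ⟨y, hy⟩ := h
    have : y = x := hy.1
    rwa [this] at hy
  | succ j ih =>
    obtain ⟨y, hy⟩ := h
    obtain ⟨z, hz, -⟩ := inf_pred hy
    exact ih ⟨z, hz⟩

end gen

/-! ## congruence in the unit lists -/
section congr

variable {V : Type} {nb : V → Dir d → Option V} {pr : Pos d → V} {η0 : V → ℕ}
  {U U' : ℕ → List (Lab V d)} {T : ℕ}

theorem cfg_congr (h : ∀ t < T, U t = U' t) (t : ℕ) (ht : t ≤ T) : cfg nb η0 U t = cfg nb η0 U' t := by
  induction t with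
  | zero => rfl
  | succ t ih =>
    show (U t).foldl (mv nb) (cfg nb η0 U t) = (U' t).foldl (mv nb) (cfg nb η0 U' t)
    rw [h t (by omega), ih (by omega)]

theorem inf_congr (h : ∀ t < T, U t = U' t) (G : ℕ → Set (Pos d)) (s : ℕ) (A : Set (Pos d)) (j : ℕ)
    (hj : s + j ≤ T) : inf nb pr η0 U G s A j = inf nb pr η0 U' G s A j := by
  induction j with
  | zero =>
    show {z | z ∈ A ∧ z ∈ G s ∧ 0 < cfg nb η0 U s (pr z)} = {z | z ∈ A ∧ z ∈ G s ∧ 0 < cfg nb η0 U' s (pr z)}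
    rw [cfg_congr h s (by omega)]
  | succ j ih =>
    show ((U (s + j)).foldl (stepR nb pr (G (s + j)))
      (cfg nb η0 U (s + j), inf nb pr η0 U G s A j ∩ G (s + j))).2 =
      ((U' (s + j)).foldl (stepR nb pr (G (s + j)))
      (cfg nb η0 U' (s + j), inf nb pr η0 U' G s A j ∩ G (s + j))).2
    rw [h (s + j) (by omega), cfg_congr h (s + j) (by omega), ih (by omega)]

theorem visU_congr (h : ∀ t < T, U t = U' t) (G : ℕ → Set (Pos d)) (s : ℕ) (A : Set (Pos d)) (j : ℕ)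
    (hj : s + j < T) : visU nb pr η0 U G s A j = visU nb pr η0 U' G s A j := by
  unfold visU
  rw [h (s + j) hj, cfg_congr h (s + j) (by omega), inf_congr h G s A j (by omega)]

end congr

theorem units_take {M K : ℕ} (N1 : ℕ) (l : List (Let d M K)) {T t : ℕ} (ht : t < T) :
    units N1 (l.take (T * N1)) t = units N1 l t := by
  unfold units
  rw [List.drop_take, List.take_take]
  congr 2
  refine min_eq_left ?_
  have : (t + 1) * N1 ≤ T * N1 := Nat.mul_le_mul_right _ ht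
  rw [add_mul, one_mul] at this
  omega

/-- two environments whose block infections agree up to the time `T` -/
structure SameW (E E' : Env d) (Q : BP) (u : Fin d → ℝ) (T : ℕ) : Prop where
  near : E.near 0 0 = E'.near 0 0
  W : ∀ t ≤ T, E.W Q u 0 0 t = E'.W Q u 0 0 t

theorem SameW.blk {E E' : Env d} {Q : BP} {u : Fin d → ℝ} {T : ℕ} (h : SameW E E' Q u T) {m : ℕ}
    (h1 : E.bh Q u m 0 0 = T) (h2 : ∃ y ∈ E.W Q u 0 0 T, (m : ℝ) ≤ lev u y) :
    E'.blk Q u m 0 0 = E.blk Q u m 0 0 := by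
  have hT : E'.bh Q u m 0 0 = T := by
    refine le_antisymm (Nat.sInf_le ?_) ?_
    · obtain ⟨y, hy, hl⟩ := h2
      refine ⟨y, ?_, by rwa [sub_zero]⟩
      rw [zero_add, ← h.W T le_rfl]
      exact hy
    · by_contra hlt
      push Not at hlt
      have hne : {h | ∃ y ∈ E'.W Q u 0 0 (0 + h), (m : ℝ) ≤ lev u (y - 0)}.Nonempty := by
        obtain ⟨y, hy, hl⟩ := h2
        refine ⟨T, y, ?_, by rwa [sub_zero]⟩
        rw [zero_add, ← h.W T le_rfl]
        exact hy
      obtain ⟨y, hy, hl⟩ := Nat.sInf_mem hne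
      have h3 : E.bh Q u m 0 0 ≤ E'.bh Q u m 0 0 := by
        refine Nat.sInf_le ⟨y, ?_, hl⟩
        change y ∈ E'.W Q u 0 0 (0 + E'.bh Q u m 0 0) at hy
        rw [zero_add] at hy ⊢
        rw [h.W _ hlt.le]
        exact hy
      omega
  have hset : {v : Pos d | 0 + v ∈ E'.W Q u 0 0 (0 + E'.bh Q u m 0 0) ∧ (m : ℝ) ≤ lev u v} =
      {v : Pos d | 0 + v ∈ E.W Q u 0 0 (0 + E.bh Q u m 0 0) ∧ (m : ℝ) ≤ lev u v} := by
    rw [hT, h1, zero_add, h.W T le_rfl]
  unfold Env.blk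
  rw [hT, h1]
  congr 1
  unfold Env.bx
  by_cases hne : {v : Pos d | 0 + v ∈ E.W Q u 0 0 (0 + E.bh Q u m 0 0) ∧ (m : ℝ) ≤ lev u v}.Nonempty
  · have hne' : {v : Pos d | 0 + v ∈ E'.W Q u 0 0 (0 + E'.bh Q u m 0 0) ∧
        (m : ℝ) ≤ lev u v}.Nonempty := by rwa [hset]
    rw [dif_pos hne, dif_pos hne']
    exact argmin_congr hne' hne (by rw [← hset]; exact Function.argminOn_mem _ _ _)
      (by rw [hset]; exact Function.argminOn_mem _ _ _)
  · have hne' : ¬ {v : Pos d | 0 + v ∈ E'.W Q u 0 0 (0 + E'.bh Q u m 0 0) ∧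
        (m : ℝ) ≤ lev u v}.Nonempty := by rwa [hset]
    rw [dif_neg hne, dif_neg hne']

/-! ## levels and norms -/

theorem lev_le_nrm {u : Fin d → ℝ} (hu : ∑ j, u j ^ 2 = 1) (v : Pos d) : lev u v ≤ nrm v := by
  unfold lev nrm
  refine Real.le_sqrt_of_sq_le ?_
  have h := Finset.sum_mul_sq_le_sq_mul_sq Finset.univ u (fun j => (v j : ℝ))
  rwa [hu, one_mul] at h

theorem abs_le_one {u : Fin d → ℝ} (hu : ∑ j, u j ^ 2 = 1) (j : Fin d) : |u j| ≤ 1 := by
  have h1 : u j ^ 2 ≤ 1 := by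
    rw [← hu]
    exact Finset.single_le_sum (f := fun j => u j ^ 2) (fun i _ => sq_nonneg _) (Finset.mem_univ j)
  exact abs_le_one_iff_mul_self_le_one.2 (by nlinarith)

theorem lev_le_supn {u : Fin d → ℝ} (hu : ∑ j, u j ^ 2 = 1) (v : Pos d) :
    lev u v ≤ d * (supn v : ℝ) := by
  unfold lev
  have h1 : ∀ j, u j * (v j : ℝ) ≤ (supn v : ℝ) := by
    intro j
    have h2 : (v j).natAbs ≤ supn v := by
      unfold supn
      exact Finset.le_sup (f := fun j => (v j).natAbs) (Finset.mem_univ j)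
    have h3 : |(v j : ℝ)| ≤ (supn v : ℝ) := by
      have h4 : ((v j).natAbs : ℝ) = |(v j : ℝ)| := by
        rw [Nat.cast_natAbs]; push_cast; rfl
      rw [← h4]
      exact_mod_cast h2
    calc u j * (v j : ℝ) ≤ |u j * (v j : ℝ)| := le_abs_self _
      _ = |u j| * |(v j : ℝ)| := abs_mul _ _
      _ ≤ 1 * (supn v : ℝ) := mul_le_mul (abs_le_one hu j) h3 (abs_nonneg _) (by norm_num)
      _ = _ := one_mul _
  calc ∑ j, u j * (v j : ℝ) ≤ ∑ _j : Fin d, (supn v : ℝ) := Finset.sum_le_sum fun j _ => h1 j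
    _ = _ := by simp

theorem lev_dv_le {u : Fin d → ℝ} (hu : ∑ j, u j ^ 2 = 1) (e : Dir d) : lev u (dv e) ≤ 1 := by
  unfold lev dv
  rw [Finset.sum_eq_single e.1]
  · have h := abs_le.1 (abs_le_one hu e.1)
    rw [Pi.single_eq_same]
    split_ifs
    · push_cast; linarith [h.2]
    · push_cast; linarith [h.1]
  · intro b _ hb
    rw [Pi.single_eq_of_ne hb]
    simp
  · intro h
    exact absurd (Finset.mem_univ _) h

theorem supn_add_le (v w : Pos d) : supn (v + w) ≤ supn v + supn w := by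
  unfold supn
  refine Finset.sup_le fun j _ => ?_
  refine le_trans (Int.natAbs_add_le _ _) (Nat.add_le_add ?_ ?_)
  · exact Finset.le_sup (f := fun j => (v j).natAbs) (Finset.mem_univ j)
  · exact Finset.le_sup (f := fun j => (w j).natAbs) (Finset.mem_univ j)

theorem supn_dv_le (e : Dir d) : supn (dv e) ≤ 1 := by
  unfold supn dv
  refine Finset.sup_le fun j _ => ?_
  by_cases h : j = e.1
  · subst h
    rw [Pi.single_eq_same]
    split_ifs <;> simp
  · rw [Pi.single_eq_of_ne h]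
    simp

/-! ## truncated words -/

theorem take_inf {M K : ℕ} (N1 T : ℕ) (η : Tor d M → ℕ) (l : List (Let d M K)) (G : ℕ → Set (Pos d))
    (s : ℕ) (A : Set (Pos d)) (j : ℕ) (hj : s + j ≤ T) :
    inf nbT tv η (units N1 (l.take (T * N1))) G s A j = inf nbT tv η (units N1 l) G s A j :=
  inf_congr (fun _ ht => units_take _ _ ht) G s A j hj

theorem take_visU {M K : ℕ} (N1 T : ℕ) (η : Tor d M → ℕ) (l : List (Let d M K)) (G : ℕ → Set (Pos d))
    (s : ℕ) (A : Set (Pos d)) (j : ℕ) (hj : s + j < T) :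
    visU nbT tv η (units N1 (l.take (T * N1))) G s A j = visU nbT tv η (units N1 l) G s A j :=
  visU_congr (fun _ ht => units_take _ _ ht) G s A j hj

theorem take_W {m : Model} (q : Par d m) (P : BP) (u : Fin d → ℝ) (T : ℕ) (η : Tor d q.M → ℕ)
    (l : List (Let d q.M q.K)) (t : ℕ) (ht : t ≤ T) :
    (envT q η (l.take (T * q.N1))).W P u 0 0 t = (envT q η l).W P u 0 0 t := by
  have hI := take_inf q.N1 T η l (wall P u 0 0) 0 {(envT q η l).near 0 0} t (by omega)
  ext x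
  constructor
  · rintro ⟨j, hj, hx⟩
    obtain rfl : j = t := by omega
    refine ⟨j, hj, ?_⟩
    have : x ∈ inf nbT tv η (units q.N1 (l.take (T * q.N1))) (wall P u 0 0) 0
      {(envT q η l).near 0 0} j := hx
    rw [hI] at this
    exact this
  · rintro ⟨j, hj, hx⟩
    obtain rfl : j = t := by omega
    refine ⟨j, hj, ?_⟩
    have : x ∈ inf nbT tv η (units q.N1 l) (wall P u 0 0) 0 {(envT q η l).near 0 0} j := hx
    rw [← hI] at this
    exact this

/-- enough room for a block of size at most `r n` -/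
theorem room2 {a A r n m' : ℕ} (ha : 10 ≤ a) (hA : 1000 * a ≤ A) (hr : 1 ≤ r) (hn : r ^ A ≤ n)
    (hm : m' ≤ r * n) : r ^ (2 * a) * m' ≤ n ^ 2 := by
  have h1 : r ^ (2 * a + 1) ≤ n := le_trans (Nat.pow_le_pow_right hr (by omega)) hn
  calc r ^ (2 * a) * m' ≤ r ^ (2 * a) * (r * n) := Nat.mul_le_mul_left _ hm
    _ = r ^ (2 * a + 1) * n := by ring
    _ ≤ n * n := Nat.mul_le_mul_right _ h1
    _ = n ^ 2 := by ring

end ZI.E5a

namespace ZI.Rows

open ZI ZI.S1 ZI.S2 ZI.E5a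

variable {d : ℕ} {m : Model}

/-- the past event determines the block variable of every longer word -/
theorem blk_of_pastEv (q : Par d m) (P : BP) (u : Fin d → ℝ) (r Cv m' : ℕ) (y : ℕ × Pos d)
    (η : Tor d q.M → ℕ) (l : List (Let d q.M q.K))
    (h : PastEv (envT q η (l.take (y.1 * q.N1))) P u r Cv m' y) :
    (envT q η l).blk P u m' 0 0 = y := by
  have hs : SameW (envT q η (l.take (y.1 * q.N1))) (envT q η l) P u y.1 :=
    ⟨rfl, fun t ht => take_W q P u y.1 η l t ht⟩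
  have h1 : (envT q η (l.take (y.1 * q.N1))).bh P u m' 0 0 = y.1 := by
    have := h.blk
    exact congrArg Prod.fst this
  rw [hs.blk h1 ⟨y.2, h.att, h.lev_ge⟩, h.blk]

/-- the good event implies the past event (deterministic) -/
theorem pastEv_of_good {Cv a A r0 : ℕ} {c : ℝ} (hB : Base m d Cv a A r0 c) : ∃ r1 ≥ r0, ∀ r ≥ r1,
    ∀ n : ℕ, r ^ A ≤ n → ∀ q : Par d m, q.M = n ^ 4 → ∀ (u : Fin d → ℝ), ∑ j, u j ^ 2 = 1 →
    ∀ m' : ℕ, r ^ (7 * a) ≤ m' → m' ≤ r * n → ∀ (η : Tor d q.M → ℕ) (l : List (Let d q.M q.K)),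
    (envT q η l).Good r (r ^ a) (r ^ a) Cv (n ^ 2) (n ^ 2) →
    Adm (bp d a r n) u r Cv m' n ((envT q η l).blk (bp d a r n) u m' 0 0) ∧
    PastEv (envT q η (l.take (((envT q η l).blk (bp d a r n) u m' 0 0).1 * q.N1)))
      (bp d a r n) u r Cv m' ((envT q η l).blk (bp d a r n) u m' 0 0) := by
  have ha := hB.a_big
  have hA := hB.A_big
  have hr0 := hB.r0_big
  refine ⟨r0 + d, by omega, fun r hr n hn q hM u hu m' hm hmn η l hE => ?_⟩
  set E := envT q η l with hEd
  set Q := bp d a r n with hQ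
  have hr2 : 2 ≤ r := by omega
  have hroom : r ^ (2 * a) * m' ≤ n ^ 2 := room2 ha hA (by omega) hn hmn
  have F : BlockFacts E Q u r Cv m' n 0 0 :=
    hB.facts r (by omega) n hn E hE u hu m' hm hmn 0 0 (by rwa [zero_add])
  have hb1 : E.bh Q u m' 0 0 ≤ 8 * r ^ a * m' := (block_time hr2 ha hm F).1
  have hκ : 1024 ≤ r ^ a := (block_time hr2 ha hm F).2.2
  have hb : E.bh Q u m' 0 0 ≤ n ^ 2 := by
    refine le_trans hb1 (le_trans ?_ hroom)
    refine Nat.mul_le_mul_right _ ?_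
    calc 8 * r ^ a ≤ r ^ a * r ^ a := Nat.mul_le_mul_right _ (by omega)
      _ = r ^ (2 * a) := by rw [← pow_add]; congr 1; ring
  have hmem : 0 + E.bx Q u m' 0 0 ∈ E.W Q u 0 0 (0 + E.bh Q u m' 0 0) := F.x_mem
  -- the duration is positive
  have hpos : 1 ≤ E.bh Q u m' 0 0 := by
    by_contra h0
    have h0' : E.bh Q u m' 0 0 = 0 := by omega
    rw [h0'] at hmem
    obtain ⟨j, hj, hy⟩ := hmem
    obtain rfl : j = 0 := by omega
    have h1 : 0 + E.bx Q u m' 0 0 = E.near 0 0 := hy.1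
    have h2 := F.near_supn
    rw [sub_zero, ← h1, zero_add] at h2
    have h3 := lev_le_supn hu (E.bx Q u m' 0 0)
    have h4 := F.x_lev
    have h5 : (m' : ℝ) ≤ d * (r : ℝ) := by
      refine le_trans h4 (le_trans h3 ?_)
      refine mul_le_mul_of_nonneg_left ?_ (Nat.cast_nonneg _)
      exact_mod_cast h2
    have h6 : m' ≤ d * r := by exact_mod_cast h5
    have h7 : r ^ 3 ≤ r ^ (7 * a) := Nat.pow_le_pow_right (by omega) (by omega)
    have h8 : d * r ≤ r * r := Nat.mul_le_mul_right _ (by omega)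
    have h9 : r * r < r ^ 3 := by
      calc r * r = r * r * 1 := (mul_one _).symm
        _ < r * r * r := Nat.mul_lt_mul_of_pos_left (by omega) (by positivity)
        _ = r ^ 3 := by ring
    omega
  have hblk1 : (E.blk Q u m' 0 0).1 = E.bh Q u m' 0 0 := rfl
  have hblk2 : (E.blk Q u m' 0 0).2 = E.bx Q u m' 0 0 := rfl
  have hsup : supn (E.bx Q u m' 0 0) ≤ n ^ 2 := by
    obtain ⟨j, hj, hy⟩ := hmem
    obtain ⟨i, rfl⟩ : ∃ i, j = i + 1 := ⟨j - 1, by omega⟩
    have := (inf_succ_region hy).2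
    rwa [sub_zero, zero_add] at this
  refine ⟨⟨by rwa [hblk1], ?_, ?_, ?_, hsup⟩, ?_⟩
  · rw [hblk1]
    exact F.h_ub
  · rw [hblk2]
    exact F.x_lev
  · rw [hblk2]
    have := F.W_ub _ hmem
    rwa [sub_zero, zero_add] at this
  · have key : ∀ T, T = E.bh Q u m' 0 0 →
        PastEv (envT q η (l.take (T * q.N1))) Q u r Cv m' (T, E.bx Q u m' 0 0) := by
      intro T hT
      have hs : SameW E (envT q η (l.take (T * q.N1))) Q u T :=
        ⟨rfl, fun t ht => (take_W q Q u T η l t ht).symm⟩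
      have hmem' : E.bx Q u m' 0 0 ∈ E.W Q u 0 0 T := by
        rw [zero_add, zero_add, ← hT] at hmem
        exact hmem
      refine ⟨?_, ?_, F.x_lev, F.near_occ, ?_, ?_⟩
      · rw [hs.blk hT.symm ⟨E.bx Q u m' 0 0, hmem', F.x_lev⟩, hT]
        rfl
      · show E.bx Q u m' 0 0 ∈ (envT q η (l.take (T * q.N1))).W Q u 0 0 T
        rw [take_W q Q u T η l T le_rfl]
        exact hmem'
      · have := F.near_supn
        rwa [sub_zero] at this
      · intro t ht b hb'
        have ht' : t < T := ht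
        have hb'' : b ∈ visU nbT tv η (units q.N1 (l.take (T * q.N1))) (wall Q u 0 0) 0 {E.near 0 0} t :=
          hb'
        rw [take_visU q.N1 T η l (wall Q u 0 0) 0 _ t (by omega)] at hb''
        obtain ⟨z, hz, hzG, hbz⟩ := visU_split hb''
        have hzW : z ∈ E.W Q u 0 0 t := ⟨t, (zero_add t).symm, hz⟩
        have h1 := F.conf t (Nat.zero_le _) (by omega) z hzW
        have h2 : E.vis (fun _ => Set.univ) t z (t + 1) b := by
          refine ⟨0, by omega, ?_⟩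
          have := visU_mono_univ 0 hbz
          rwa [zero_add] at this
        have h3 := hE.g4' t (t + 1) z b (by omega) (by omega) h2
        have h4 : lev u b = lev u z + lev u (b - z) := by
          rw [← lev_add]
          congr 1
          abel
        have h5 := lev_le_nrm hu (b - z)
        rw [sub_zero] at h1
        push_cast at h1 h3
        show lev u b ≤ m' + 2 * Q.mg + Cv + r - ((T : ℝ) - t) / (8 * Q.κ)
        rw [h4, hT]
        have e1 : (Cv : ℝ) * ((t : ℝ) + 1 - t) = Cv := by ring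
        rw [e1] at h3
        have e2 : ((0 : ℝ) + E.bh Q u m' 0 0 - t) = (E.bh Q u m' 0 0 : ℝ) - t := by ring
        rw [e2] at h1
        linarith
    exact key _ rfl

/-- transfer of the past event between paths that agree below the line -/
theorem past_transfer {Cv a A r0 : ℕ} {c : ℝ} (hB : Base m d Cv a A r0 c) : ∃ r1 ≥ r0, ∀ r ≥ r1,
    ∀ n : ℕ, r ^ A ≤ n → ∀ q : Par d m, q.M = n ^ 4 → ∀ (u : Fin d → ℝ), ∑ j, u j ^ 2 = 1 →
    ∀ m' : ℕ, r ^ (7 * a) ≤ m' → m' ≤ r * n → ∀ y : ℕ × Pos d, Adm (bp d a r n) u r Cv m' n y →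
    ∀ p p' : List (Tor d q.M → ℕ), IsPath q p → IsPath q p' → p.length = y.1 * q.N1 + 1 →
    p'.length = y.1 * q.N1 + 1 →
    (∀ i ≤ y.1 * q.N1, ∀ v : Tor d q.M,
      Lev u 0 v ≤ m' + 3 * (bp d a r n).mg - ((y.1 : ℝ) - (i : ℝ) / q.N1) / (8 * (bp d a r n).κ) →
      p.getD i (fun _ => 0) v = p'.getD i (fun _ => 0) v) →
    PastEv (pe q p) (bp d a r n) u r Cv m' y → PastEv (pe q p') (bp d a r n) u r Cv m' y := by
  have ha := hB.a_big
  have hA := hB.A_big
  have hr0 := hB.r0_big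
  obtain ⟨n0, hn0⟩ := Lev_approx d
  refine ⟨r0 + d + Cv + n0, by omega,
    fun r hr n hn q hM u hu m' hm hmn y hy p p' hp hp' hl hl' hag h => ?_⟩
  set Q := bp d a r n with hQ
  obtain ⟨T, z0⟩ := y
  obtain ⟨hy1, hy2, hy3, hy4, hy5⟩ := hy
  change 1 ≤ T at hy1
  change (T : ℝ) ≤ 4 * Q.κ * (m' + 2 * Q.mg) at hy2
  have hr10 : 10 ≤ r := by omega
  have hrn : r ≤ n := by
    refine le_trans ?_ hn
    calc r = r ^ 1 := (pow_one _).symm
      _ ≤ r ^ A := Nat.pow_le_pow_right (by omega) (by omega)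
  have hnn : r ≤ n ^ 2 := le_trans hrn (by nlinarith)
  have hκ1 : 1 ≤ Q.κ := Nat.one_le_pow _ _ (by omega)
  have hκ0 : (0 : ℝ) < Q.κ := by exact_mod_cast hκ1
  have hr3 : r ^ 3 ≤ m' := le_trans (Nat.pow_le_pow_right (by omega) (by omega)) hm
  have hmg : Cv + r + 2 ≤ Q.mg := by
    show Cv + r + 2 ≤ r ^ (3 * a)
    have h1 : r ^ 2 ≤ r ^ (3 * a) := Nat.pow_le_pow_right (by omega) (by omega)
    nlinarith
  have hmgR : (Cv : ℝ) + r + 2 ≤ Q.mg := by exact_mod_cast hmg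
  have hN1 : (0 : ℝ) < q.N1 := by exact_mod_cast q.N1_pos
  have hLev : ∀ z : Pos d, supn z ≤ 4 * n ^ 2 → Lev u (0 : Tor d q.M) (tv z) ≤ lev u z + 1 / 4 := by
    have h1 : ∀ M, M = n ^ 4 → ∀ z : Pos d, supn z ≤ 4 * n ^ 2 →
        Lev u (0 : Tor d M) (tv z) ≤ lev u z + 1 / 4 := by
      rintro _ rfl z hz
      have h2 := hn0 n (by omega) u hu 0 z hz
      rw [zero_add] at h2
      linarith [(abs_le.1 h2).2]
    exact h1 _ hM
  -- the region
  let Γ : ℕ → Set (Pos d) := fun t =>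
    {z | lev u z ≤ m' + 2 * Q.mg + Cv + r - ((T : ℝ) - t) / (8 * Q.κ) ∧ supn z ≤ n ^ 2}
  have hΓ0 : ∀ v : Pos d, supn v ≤ r → v ∈ Γ 0 := by
    intro v hv
    refine ⟨?_, le_trans hv hnn⟩
    have h1 := lev_le_supn hu v
    have h2 : (d : ℝ) * (supn v : ℝ) ≤ d * r := by
      refine mul_le_mul_of_nonneg_left ?_ (Nat.cast_nonneg _)
      exact_mod_cast hv
    have h3 : ((T : ℝ) - (0 : ℕ)) / (8 * Q.κ) ≤ (m' + 2 * Q.mg) / 2 := by
      rw [div_le_iff₀ (by positivity)]
      push_cast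
      linarith
    have h4 : 2 * (d * r) ≤ m' := by
      refine le_trans ?_ hr3
      have : d * r ≤ r * r := Nat.mul_le_mul_right _ (by omega)
      nlinarith [Nat.mul_le_mul_right (r * r) hr10, sq_nonneg r]
    have h4R : 2 * ((d : ℝ) * r) ≤ m' := by exact_mod_cast h4
    have h5 : (0 : ℝ) ≤ Q.mg := Nat.cast_nonneg _
    have h6 : (0 : ℝ) ≤ Cv := Nat.cast_nonneg _
    have h7 : (0 : ℝ) ≤ r := Nat.cast_nonneg _
    linarith
  obtain ⟨hAg, hI⟩ := agree_paths q p p' hp hp' (hl.trans hl'.symm) T (by rw [hl]; exact Nat.lt_succ_self _) Γ (by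
    rintro t ht i hi1 - hi3 y0 ⟨hy0, hy0'⟩ z hz
    refine hag i hi3 (tv z) ?_
    have h1 : lev u z ≤ lev u y0 + 1 ∧ supn z ≤ 4 * n ^ 2 := by
      have hn1 : 1 ≤ n ^ 2 := by omega
      rcases hz with rfl | ⟨e, rfl⟩
      · exact ⟨by linarith, by omega⟩
      · refine ⟨by rw [lev_add]; linarith [lev_dv_le hu e], ?_⟩
        have := supn_add_le y0 (dv e)
        have := supn_dv_le e
        omega
    have h2 := hLev z h1.2
    have h3 : (t : ℝ) ≤ (i : ℝ) / q.N1 := by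
      rw [le_div_iff₀ hN1]
      exact_mod_cast hi1
    have h4 : ((T : ℝ) - (i : ℝ) / q.N1) / (8 * Q.κ) ≤ ((T : ℝ) - t) / (8 * Q.κ) :=
      div_le_div_of_nonneg_right (by linarith) (by positivity)
    show Lev u 0 (tv z) ≤ m' + 3 * Q.mg - ((T : ℝ) - (i : ℝ) / q.N1) / (8 * Q.κ)
    linarith [h1.1])
  have hnear : (pe q p).near 0 0 = (pe q p').near 0 0 := by
    refine near_congr (N := r) (fun v hv => hAg.occ 0 (Nat.zero_le _) _ ?_) ?_
    · rw [zero_add]
      exact hΓ0 v hv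
    · exact ⟨(pe q p).near 0 0, h.near_supn, by rw [zero_add]; exact h.near_occ⟩
  have hIn := hI (wall Q u 0 0) 0 ((pe q p).near 0 0) (by omega) (hΓ0 _ h.near_supn) (by
    intro j hj b hb
    refine ⟨?_, ?_⟩
    · have := h.conf j (by omega) b hb
      rwa [zero_add]
    · have := (visU_region hb).2
      rwa [sub_zero] at this)
  have hW : ∀ t ≤ T, (pe q p).W Q u 0 0 t = (pe q p').W Q u 0 0 t := by
    intro t ht
    ext x
    constructor
    · rintro ⟨j, hj, hx⟩
      obtain rfl : j = t := by omega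
      refine ⟨j, hj, ?_⟩
      rw [← hnear, ← (hIn j (by omega)).1]
      exact hx
    · rintro ⟨j, hj, hx⟩
      obtain rfl : j = t := by omega
      refine ⟨j, hj, ?_⟩
      rw [← hnear, ← (hIn j (by omega)).1] at hx
      exact hx
  have hs : SameW (pe q p) (pe q p') Q u T := ⟨hnear, hW⟩
  refine ⟨?_, ?_, h.lev_ge, ?_, ?_, ?_⟩
  · rw [hs.blk (congrArg Prod.fst h.blk) ⟨z0, h.att, h.lev_ge⟩, h.blk]
  · show z0 ∈ (pe q p').W Q u 0 0 T
    rw [← hW T le_rfl]
    exact h.att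
  · rw [← hnear]
    exact (hAg.occ 0 (Nat.zero_le _) _ (hΓ0 _ h.near_supn)).1 h.near_occ
  · rw [← hnear]
    exact h.near_supn
  · intro t ht b hb
    rw [← hnear, ← (hIn t (by change t < T at ht; omega)).2 (by change t < T at ht; omega)] at hb
    exact h.conf t ht b hb

end ZI.Rows
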