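import Pool.Agent.ZI.E1
import Pool.Agent.ZI.E2
import Pool.Agent.ZI.E3
import Pool.Agent.ZI.R6

/-! # Row E5b: transfer of the future -/

set_option autoImplicit false

open scoped ENNReal BigOperators Classical

noncomputable section

namespace ZI.E5b

open ZI ZI.Rows

variable {d : ℕ} {m : Model}

theorem path_length {M K : ℕ} (w : List (Let d M K)) :
    ∀ η : Tor d M → ℕ, (path η w).length = w.length + 1 := by
  induction w with
  | nil => intro η; rfl
  | cons a w ih =>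
    intro η
    show (path (stepA η a) w).length + 1 = _
    rw [ih]
    rfl

theorem path_getD {M K : ℕ} (f : Tor d M → ℕ) (w : List (Let d M K)) :
    ∀ (η : Tor d M → ℕ) (i : ℕ), i ≤ w.length → (path η w).getD i f = (w.take i).foldl stepA η := by
  induction w with
  | nil =>
    intro η i hi
    have h0 : i = 0 := by simpa using hi
    subst h0
    rfl
  | cons a w ih =>
    intro η i hi
    rcases i with _ | i
    · rfl
    · rw [List.take_succ_cons, List.foldl_cons]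
      show (path (stepA η a) w).getD i f = _
      refine ih _ i ?_
      simpa using hi

theorem mix_mix {V : Type} (U : Set V) (η η' : V → ℕ) :
    mix U (mix U η η') (fun _ => 0) = mix U η (fun _ => 0) := by
  funext x
  unfold mix
  split_ifs <;> rfl

theorem abs_u_le {u : Fin d → ℝ} (hu : ∑ j, u j ^ 2 = 1) (j : Fin d) : |u j| ≤ 1 := by
  have h1 : u j ^ 2 ≤ 1 := by
    rw [← hu]
    exact Finset.single_le_sum (f := fun j => u j ^ 2) (fun _ _ => sq_nonneg _) (Finset.mem_univ j)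
  exact abs_le_one_iff_mul_self_le_one.2 (by nlinarith)

theorem lev_add (u : Fin d → ℝ) (v w : Pos d) : lev u (v + w) = lev u v + lev u w := by
  unfold lev
  rw [← Finset.sum_add_distrib]
  refine Finset.sum_congr rfl fun j _ => ?_
  rw [Pi.add_apply]
  push_cast
  ring

theorem lev_v0 (P : BP) {u : Fin d → ℝ} (hu : ∑ j, u j ^ 2 = 1) :
    (P.l0 : ℝ) - d / 2 ≤ lev u (v0 P u) := by
  have h1 : ∀ j, (P.l0 : ℝ) * u j ^ 2 - 1 / 2 ≤ u j * ((v0 P u j : ℤ) : ℝ) := by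
    intro j
    have h2 := abs_sub_round ((P.l0 : ℝ) * u j)
    have h3 := abs_u_le hu j
    have h4 : |u j * ((P.l0 : ℝ) * u j - (round ((P.l0 : ℝ) * u j) : ℝ))| ≤ 1 / 2 := by
      rw [abs_mul]
      calc |u j| * _ ≤ 1 * (1 / 2) := mul_le_mul h3 h2 (abs_nonneg _) zero_le_one
        _ = 1 / 2 := one_mul _
    have h5 := (abs_le.1 h4).2
    show (P.l0 : ℝ) * u j ^ 2 - 1 / 2 ≤ u j * ((round ((P.l0 : ℝ) * u j) : ℤ) : ℝ)
    nlinarith [h5]
  have h6 := Finset.sum_le_sum fun j (_ : j ∈ Finset.univ) => h1 j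
  rw [Finset.sum_sub_distrib, ← Finset.mul_sum, hu, mul_one, Finset.sum_const, Finset.card_univ,
    Fintype.card_fin, nsmul_eq_mul] at h6
  unfold lev
  linarith

theorem supn_v0 (P : BP) {u : Fin d → ℝ} (hu : ∑ j, u j ^ 2 = 1) : supn (v0 P u) ≤ P.l0 + 1 := by
  unfold supn
  refine Finset.sup_le fun j _ => ?_
  have h2 := abs_sub_round ((P.l0 : ℝ) * u j)
  have h3 := abs_u_le hu j
  have hl : (0 : ℝ) ≤ P.l0 := Nat.cast_nonneg _
  have h4 : |(P.l0 : ℝ) * u j| ≤ P.l0 := by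
    rw [abs_mul, abs_of_nonneg hl]
    exact mul_le_of_le_one_right hl h3
  have h5 : |((round ((P.l0 : ℝ) * u j) : ℤ) : ℝ)| ≤ P.l0 + 1 := by
    have h6 : ((round ((P.l0 : ℝ) * u j) : ℤ) : ℝ) =
        (P.l0 : ℝ) * u j - ((P.l0 : ℝ) * u j - (round ((P.l0 : ℝ) * u j) : ℤ)) := by ring
    rw [h6]
    refine (abs_sub _ _).trans ?_
    linarith
  have h7 : (((v0 P u j).natAbs : ℕ) : ℝ) ≤ ((P.l0 + 1 : ℕ) : ℝ) := by
    rw [Nat.cast_natAbs]
    push_cast
    exact h5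
  exact_mod_cast h7

theorem supn_add (v w : Pos d) : supn (v + w) ≤ supn v + supn w := by
  unfold supn
  refine Finset.sup_le fun j _ => ?_
  have h1 : (v j).natAbs ≤ Finset.univ.sup (fun j => (v j).natAbs) :=
    Finset.le_sup (f := fun j => (v j).natAbs) (Finset.mem_univ j)
  have h2 : (w j).natAbs ≤ Finset.univ.sup (fun j => (w j).natAbs) :=
    Finset.le_sup (f := fun j => (w j).natAbs) (Finset.mem_univ j)
  exact (Int.natAbs_add_le _ _).trans (add_le_add h1 h2)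

/-- large powers -/
theorem big {r a A n : ℕ} (hr : 10 ≤ r) (ha : 10 ≤ a) (hA : 1000 * a ≤ A) (hn : r ^ A ≤ n) :
    1000 * r ^ (4 * a) ≤ n := by
  refine le_trans ?_ hn
  calc 1000 * r ^ (4 * a) = 10 ^ 3 * r ^ (4 * a) := by norm_num
    _ ≤ r ^ 3 * r ^ (4 * a) := Nat.mul_le_mul_right _ (Nat.pow_le_pow_left hr 3)
    _ = r ^ (3 + 4 * a) := (pow_add _ _ _).symm
    _ ≤ r ^ A := Nat.pow_le_pow_right (by omega) (by omega)

theorem agreeW_of_eqEnv {E E' F F' : Env d} (h : EqEnv E F) (h' : EqEnv E' F') {Γ : ℕ → Set (Pos d)}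
    {T : ℕ} (hF : AgreeW F F' Γ T) : AgreeW E E' Γ T where
  occ := fun t ht x hx => (h.occ t x).trans ((hF.occ t ht x hx).trans (h'.occ t x).symm)
  R := fun G hG s t x y ht => (EqEnv.R h G s x t y).trans ((hF.R G hG s t x y ht).trans
    (EqEnv.R h' G s x t y).symm)

/-- the level on the torus near the origin -/
theorem lev_torus {n0 n : ℕ} (hn : n0 ≤ n)
    (h0 : ∀ n : ℕ, n0 ≤ n → ∀ (u : Fin d → ℝ), ∑ j, u j ^ 2 = 1 → ∀ (z : Tor d (n ^ 4)) (y : Pos d),
      supn y ≤ 4 * n ^ 2 → |Lev u z (z + tv y) - lev u y| ≤ 1 / 4) {u : Fin d → ℝ}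
    (hu : ∑ j, u j ^ 2 = 1) : ∀ M : ℕ, M = n ^ 4 → NeZero M → ∀ y z : Pos d, supn y ≤ 4 * n ^ 2 →
      (z = y ∨ ∃ e : Dir d, z = y + dv e) → lev u y - 5 / 4 ≤ Lev u (0 : Tor d M) (tv z) := by
  rintro M rfl _ y z hy hz
  have h1 := h0 n hn u hu 0 y hy
  rw [zero_add] at h1
  have h2 := (abs_le.1 h1).1
  rcases hz with rfl | ⟨e, rfl⟩
  · linarith
  · have h3 := Lev_step u 0 (tv y : Tor d (n ^ 4)) e
    have h4 := abs_u_le hu e.1
    have h5 := (abs_le.1 (h3.trans h4)).1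
    have h6 : (tv (y + dv e) : Tor d (n ^ 4)) = tv y + tv (dv e) := by
      funext j
      simp [tv]
    rw [h6]
    linarith

end ZI.E5b

namespace ZI.Rows

open ZI ZI.E5b

variable {d : ℕ} {m : Model}

theorem future_transfer {Cv a A r0 : ℕ} {c : ℝ} (hB : Base m d Cv a A r0 c) : ∃ r1 ≥ r0, ∀ r ≥ r1,
    ∀ n : ℕ, r ^ A ≤ n → ∀ q : Par d m, q.M = n ^ 4 → ∀ (u : Fin d → ℝ), ∑ j, u j ^ 2 = 1 →
    ∀ m' : ℕ, r ^ (7 * a) ≤ m' → m' ≤ r * n → ∀ y : ℕ × Pos d, Adm (bp d a r n) u r Cv m' n y →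
    ∀ ms : List ℕ, (∀ m'' ∈ ms, r ^ (7 * a) ≤ m'') → ms.sum ≤ r * n →
    ∀ (η η' : Tor d q.M → ℕ) (w : List (Let d q.M q.K)), w.length = n ^ 2 * q.N1 →
    (envT q η w).Good r (r ^ a) (r ^ a) Cv (n ^ 2) (n ^ 2) →
    ¬ LeakF q (bp d a r n) u m' η w →
    ¬ LeakF q (bp d a r n) u m' (mix (Up u (m' + 4 * (bp d a r n).mg)) η η') w →
    (envT q (mix (Up u (m' + 4 * (bp d a r n).mg)) η η') w).chain (bp d a r n) u ms
        (y.2 + v0 (bp d a r n) u) (bp d a r n).Δ =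
      (envT q η w).chain (bp d a r n) u ms (y.2 + v0 (bp d a r n) u) (bp d a r n).Δ := by
  obtain ⟨r1, hr1, H⟩ := chain_eq hB
  obtain ⟨n0, hn0⟩ := Lev_approx d
  refine ⟨max r1 (max n0 (d + 10)), le_trans hr1 (le_max_left _ _), ?_⟩
  intro r hr n hn q hq u hu m' hm' hm2 y hy ms hms hsum η η' w hw hG hL hL'
  have hrr1 : r1 ≤ r := (le_max_left _ _).trans hr
  have hrn0 : n0 ≤ r := ((le_max_left _ _).trans (le_max_right _ _)).trans hr
  have hrd : d + 10 ≤ r := ((le_max_right _ _).trans (le_max_right _ _)).trans hr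
  have hr10 : 10 ≤ r := by omega
  have ha := hB.a_big
  have hA := hB.A_big
  have hbig := big hr10 ha hA hn
  have hrpos : 0 < r := by omega
  have hp1 : r ^ (3 * a) ≤ r ^ (4 * a) := Nat.pow_le_pow_right hrpos (by omega)
  have hp2 : r ^ (2 * a) * r ≤ r ^ (4 * a) := by
    rw [← pow_succ]
    exact Nat.pow_le_pow_right hrpos (by omega)
  have hp3 : r ≤ r ^ (3 * a) := by
    calc r = r ^ 1 := (pow_one r).symm
      _ ≤ _ := Nat.pow_le_pow_right hrpos (by omega)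
  have hn1 : 1 ≤ n := by
    have : 0 < r ^ (4 * a) := pow_pos hrpos _
    omega
  have hn2 : n ≤ n ^ 2 := by
    rw [pow_two]
    exact Nat.le_mul_of_pos_left _ (by omega)
  have hnn0 : n0 ≤ n := by
    have : r ≤ r ^ (4 * a) := hp3.trans hp1
    omega
  set P := bp d a r n with hP
  have hmg : P.mg = r ^ (3 * a) := rfl
  have hκ : P.κ = r ^ a := rfl
  have hl0 : P.l0 = 32 * r ^ (3 * a) := rfl
  have hΔ : P.Δ = (64 * r ^ (3 * a) + 2) * r ^ a := rfl
  have hκpos : (0 : ℝ) < P.κ := by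
    rw [hκ]
    exact_mod_cast pow_pos hrpos a
  have hκ1 : (1 : ℝ) ≤ P.κ := by
    rw [hκ]
    exact_mod_cast Nat.one_le_pow _ _ hrpos
  have hΔle : P.Δ ≤ 66 * r ^ (4 * a) := by
    rw [hΔ]
    have h1 : r ^ (3 * a) * r ^ a = r ^ (4 * a) := by
      rw [← pow_add]
      congr 1
      ring
    have h2 : r ^ a ≤ r ^ (4 * a) := Nat.pow_le_pow_right hrpos (by omega)
    calc (64 * r ^ (3 * a) + 2) * r ^ a = 64 * (r ^ (3 * a) * r ^ a) + 2 * r ^ a := by ring
      _ ≤ 64 * r ^ (4 * a) + 2 * r ^ (4 * a) := by rw [h1]; omega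
      _ = 66 * r ^ (4 * a) := by ring
  set U : Set (Tor d q.M) := Up u (m' + 4 * P.mg) with hU
  set ζ := mix U η η' with hζ
  -- the two evolutions agree above the line
  have hag : ∀ i ≤ w.length, ∀ v : Tor d q.M,
      (m' : ℝ) + 6 * P.mg + ((i : ℝ) / q.N1) / (16 * P.κ) ≤ Lev u 0 v →
      (w.take i).foldl stepA η v = (w.take i).foldl stepA ζ v := by
    intro i hi v hv
    have h1 : (w.take i).foldl stepA η v = (w.take i).foldl stepA (mix U η (fun _ => 0)) v := by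
      by_contra h
      exact hL ⟨i, hi, v, h, hv⟩
    have h2 : (w.take i).foldl stepA ζ v = (w.take i).foldl stepA (mix U ζ (fun _ => 0)) v := by
      by_contra h
      exact hL' ⟨i, hi, v, h, hv⟩
    rw [hζ, mix_mix] at h2
    rw [h1, ← h2]
  have hN1 : (0 : ℝ) < q.N1 := by exact_mod_cast q.N1_pos
  have hmgbig : (d : ℝ) + 10 ≤ P.mg := by
    rw [hmg]
    exact_mod_cast hrd.trans hp3
  have hd0 : (0 : ℝ) ≤ d := Nat.cast_nonneg _
  -- agreement of the paths in the region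
  have hA1 := agree_paths q (path η w) (path ζ w) ⟨η, w, rfl⟩ ⟨ζ, w, rfl⟩
    (by rw [path_length, path_length]) (n ^ 2) (by rw [path_length, hw]; omega)
    (HS P u (m' + 7 * P.mg) n) (by
      intro t ht i hi1 hi2 hi3 y' hy' z hz
      have hiw : i ≤ w.length := by rw [hw]; exact hi3
      rw [path_getD _ w η i hiw, path_getD _ w ζ i hiw]
      refine hag i hiw _ ?_
      have h1 := lev_torus hnn0 hn0 hu q.M hq inferInstance y' z hy'.2 hz
      refine le_trans ?_ h1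
      have h2 : (i : ℝ) / q.N1 ≤ t + 1 := by
        rw [div_le_iff₀ hN1]
        exact_mod_cast hi2
      have h3 : ((i : ℝ) / q.N1) / (16 * P.κ) ≤ (t : ℝ) / (16 * P.κ) + 1 / 16 := by
        calc ((i : ℝ) / q.N1) / (16 * P.κ) ≤ ((t : ℝ) + 1) / (16 * P.κ) := by gcongr
          _ = (t : ℝ) / (16 * P.κ) + 1 / (16 * P.κ) := add_div _ _ _
          _ ≤ _ := by
              gcongr
              linarith
      have h4 : (m' : ℝ) + 7 * P.mg + (t : ℝ) / (16 * P.κ) ≤ lev u y' := hy'.1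
      linarith)
  have hA2 : AgreeW (envT q η w) (envT q ζ w) (HS P u (m' + 7 * P.mg) n) (n ^ 2) :=
    agreeW_of_eqEnv (pe_path q η w) (pe_path q ζ w) hA1.1
  refine H r hrr1 n hn (envT q η w) (envT q ζ w) hG u hu ms hms hsum (y.2 + v0 P u) P.Δ (n ^ 2)
    (m' + 7 * P.mg) ?_ ?_ ?_ ?_ le_rfl hA2
  · omega
  · refine (supn_add _ _).trans ?_
    have h1 := supn_v0 P hu
    have h2 := hy.2.2.2.2
    rw [hl0] at h1
    omega
  · rw [lev_add]
    have h1 := lev_v0 P hu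
    have h2 := hy.2.2.1
    have h3 : ((P.Δ : ℕ) : ℝ) / (16 * P.κ) = 4 * P.mg + 1 / 8 := by
      rw [hΔ, hmg, ← hκ]
      push_cast
      field_simp
      ring
    have h4 : ((P.l0 : ℕ) : ℝ) = 32 * P.mg := by
      rw [hl0, hmg]
      push_cast
      ring
    show (m' : ℝ) + 7 * P.mg + ((P.Δ : ℕ) : ℝ) / (16 * P.κ) + 2 * P.mg ≤ _
    rw [h3]
    rw [h4] at h1
    linarith
  · have h1 : r ^ (2 * a) * ms.sum ≤ r ^ (4 * a) * n := by
      calc r ^ (2 * a) * ms.sum ≤ r ^ (2 * a) * (r * n) := Nat.mul_le_mul_left _ hsum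
        _ = (r ^ (2 * a) * r) * n := by ring
        _ ≤ _ := Nat.mul_le_mul_right _ hp2
    have h2 : 1000 * r ^ (4 * a) * n ≤ n ^ 2 := by
      rw [pow_two]
      exact Nat.mul_le_mul_right _ hbig
    have h3 : r ^ (4 * a) ≤ r ^ (4 * a) * n := Nat.le_mul_of_pos_right _ (by omega)
    calc P.Δ + r ^ (2 * a) * ms.sum ≤ 66 * r ^ (4 * a) + r ^ (4 * a) * n := add_le_add hΔle h1
      _ ≤ 1000 * r ^ (4 * a) * n := by nlinarith
      _ ≤ n ^ 2 := h2

end ZI.Rows
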