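import Pool.Agent.ZI.C8
import Pool.Agent.ZI.C6
import Pool.Agent.ZI.Dec

/-! # Row E5c: leak probabilities -/

set_option autoImplicit false

open scoped ENNReal BigOperators Classical

noncomputable section

namespace ZI.E5c

open ZI

variable {d : ℕ} {m : Model}

theorem PP_le (q : Par d m) (N : ℕ) (E : (Tor d q.M → ℕ) → List (Let d q.M q.K) → Prop)
    (C : ℕ) (hC : ∀ x, ∑' η : Tor d q.M → ℕ, prw (m.m1 q.K) η * (η x : ℝ≥0∞) ≤ C) (ε : ℝ≥0∞)
    (hE : ∀ η, PrE q.w N (E η) ≤ ∑ x, (η x : ℝ≥0∞) * ε) :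
    q.PP N E ≤ (q.M : ℝ≥0∞) ^ d * C * ε := by
  calc q.PP N E = ∑' η : Tor d q.M → ℕ, prw (m.m1 q.K) η * PrE q.w N (E η) := rfl
    _ ≤ ∑' η : Tor d q.M → ℕ, ∑ x, (prw (m.m1 q.K) η * (η x : ℝ≥0∞)) * ε := by
        refine ENNReal.tsum_le_tsum fun η => ?_
        calc prw (m.m1 q.K) η * PrE q.w N (E η)
            ≤ prw (m.m1 q.K) η * ∑ x, (η x : ℝ≥0∞) * ε := mul_le_mul_right (hE η) _
          _ = _ := by
              rw [Finset.mul_sum]
              exact Finset.sum_congr rfl fun x _ => by ring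
    _ = ∑ x, (∑' η : Tor d q.M → ℕ, prw (m.m1 q.K) η * (η x : ℝ≥0∞)) * ε := by
        rw [Summable.tsum_finsetSum (fun i _ => ENNReal.summable)]
        exact Finset.sum_congr rfl fun x _ => ENNReal.tsum_mul_right
    _ ≤ ∑ _x : Tor d q.M, (C : ℝ≥0∞) * ε :=
        Finset.sum_le_sum fun x _ => mul_le_mul_left (hC x) _
    _ = _ := by
        rw [Finset.sum_const, Finset.card_univ, nsmul_eq_mul, Fintype.card_fun, Fintype.card_fin,
          ZMod.card]
        push_cast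
        ring

/-- a polynomial is at most the exponential function -/
theorem exists_poly (k C : ℕ) : ∃ R : ℕ, ∀ r : ℕ, R ≤ r →
    ((2 : ℝ) * r) ^ k * C ≤ Real.exp r := by
  have h := (Real.isLittleO_pow_exp_atTop (n := k)).bound
    (show (0 : ℝ) < 1 / (2 ^ k * (C + 1)) by positivity)
  have h2 := tendsto_natCast_atTop_atTop (R := ℝ) |>.eventually h
  obtain ⟨R, hR⟩ := Filter.eventually_atTop.mp h2
  refine ⟨R, fun r hr => ?_⟩
  have h3 := hR r hr
  rw [Real.norm_of_nonneg (by positivity), Real.norm_of_nonneg (Real.exp_pos _).le] at h3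
  have h4 : (0 : ℝ) < 2 ^ k * (C + 1) := by positivity
  calc ((2 : ℝ) * r) ^ k * C = (2 ^ k * C) * (r : ℝ) ^ k := by
        rw [mul_pow]
        ring
    _ ≤ (2 ^ k * C) * (1 / (2 ^ k * (C + 1)) * Real.exp r) := by gcongr
    _ ≤ (2 ^ k * (C + 1)) * (1 / (2 ^ k * (C + 1)) * Real.exp r) := by
        gcongr
        linarith
    _ = Real.exp r := by field_simp

/-- the final estimate -/
theorem final (d a A C : ℕ) (Gp : ℝ) (hGp : 1 ≤ Gp) (ha : 10 ≤ a) : ∃ R : ℕ, ∀ r : ℕ, R ≤ r →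
    ∀ n : ℕ, n ≤ (2 * r) ^ A → ∀ M : ℕ, M = n ^ 4 →
    (M : ℝ≥0∞) ^ d * C * ENNReal.ofReal (Real.exp (-((r : ℝ) ^ (2 * a) / (16 * Gp)))) ≤
      ENNReal.ofReal (Real.exp (- (r : ℝ))) := by
  obtain ⟨R1, hR1⟩ := exists_poly (A * 4 * d) C
  refine ⟨max R1 (max 3 ⌈16 * Gp⌉₊), fun r hr n hn M hM => ?_⟩
  have hr1 : R1 ≤ r := le_trans (le_max_left _ _) hr
  have hr2 : 3 ≤ r := le_trans (le_trans (le_max_left _ _) (le_max_right _ _)) hr
  have hr3 : 16 * Gp ≤ r := by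
    have h1 : ⌈16 * Gp⌉₊ ≤ r := le_trans (le_trans (le_max_right _ _) (le_max_right _ _)) hr
    exact (Nat.le_ceil _).trans (by exact_mod_cast h1)
  have hr2' : (3 : ℝ) ≤ r := by exact_mod_cast hr2
  have h1 : (M : ℝ) ^ d * C ≤ Real.exp r := by
    refine le_trans ?_ (hR1 r hr1)
    gcongr
    rw [hM, pow_mul, pow_mul]
    push_cast
    gcongr
    exact_mod_cast hn
  have h2 : (2 : ℝ) * r ≤ (r : ℝ) ^ (2 * a) / (16 * Gp) := by
    rw [le_div_iff₀ (by positivity)]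
    calc (2 : ℝ) * r * (16 * Gp) ≤ r * r * r := by
          have : (2 : ℝ) ≤ r := by linarith
          gcongr
      _ = (r : ℝ) ^ 3 := by ring
      _ ≤ (r : ℝ) ^ (2 * a) := pow_le_pow_right₀ (by linarith) (by omega)
  have h3 : (M : ℝ≥0∞) ^ d * C = ENNReal.ofReal ((M : ℝ) ^ d * C) := by
    rw [ENNReal.ofReal_mul (by positivity), ENNReal.ofReal_pow (by positivity),
      ENNReal.ofReal_natCast, ENNReal.ofReal_natCast]
  rw [h3, ← ENNReal.ofReal_mul (by positivity)]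
  refine ENNReal.ofReal_le_ofReal ?_
  calc (M : ℝ) ^ d * C * Real.exp (-((r : ℝ) ^ (2 * a) / (16 * Gp)))
      ≤ Real.exp r * Real.exp (-(2 * r)) := by
        gcongr
    _ = Real.exp (- (r : ℝ)) := by
        rw [← Real.exp_add]
        congr 1
        ring

theorem le_side (a A : ℕ) (Gp : ℝ) (hGp : 1 ≤ Gp) (ha : 10 ≤ a) (hA : 1000 * a ≤ A) :
    ∃ R : ℕ, ∀ r : ℕ, R ≤ r → ∀ n : ℕ, r ^ A ≤ n → ∀ M : ℕ, M = n ^ 4 →
    2 * Real.pi / M ≤ 1 / (32 * (r : ℝ) ^ a * Gp) := by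
  refine ⟨max 1 ⌈64 * Real.pi * Gp⌉₊, fun r hr n hn M hM => ?_⟩
  have hr1 : 1 ≤ r := le_trans (le_max_left _ _) hr
  have hr3 : 64 * Real.pi * Gp ≤ r := by
    have h1 : ⌈64 * Real.pi * Gp⌉₊ ≤ r := le_trans (le_max_right _ _) hr
    exact (Nat.le_ceil _).trans (by exact_mod_cast h1)
  have hr1' : (1 : ℝ) ≤ r := by exact_mod_cast hr1
  have hn1 : 1 ≤ n := le_trans (Nat.one_le_pow _ _ hr1) hn
  have hM1 : (r : ℝ) ^ (a + 1) ≤ M := by
    have h1 : r ^ (a + 1) ≤ M := by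
      rw [hM]
      calc r ^ (a + 1) ≤ r ^ A := Nat.pow_le_pow_right hr1 (by omega)
        _ ≤ n := hn
        _ = n ^ 1 := (pow_one n).symm
        _ ≤ n ^ 4 := Nat.pow_le_pow_right hn1 (by norm_num)
    exact_mod_cast h1
  have hMp : (0 : ℝ) < M := lt_of_lt_of_le (by positivity) hM1
  rw [div_le_div_iff₀ hMp (by positivity), one_mul]
  calc 2 * Real.pi * (32 * (r : ℝ) ^ a * Gp) = (64 * Real.pi * Gp) * (r : ℝ) ^ a := by ring
    _ ≤ r * (r : ℝ) ^ a := by gcongr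
    _ = (r : ℝ) ^ (a + 1) := by ring
    _ ≤ M := hM1

theorem mix_zero_le {V : Type} (U : Set V) (η : V → ℕ) : mix U (fun _ => 0) η ≤ η := fun x => by
  by_cases h : x ∈ U <;> simp [mix, h]

theorem mix_zero_le' {V : Type} (U : Set V) (η : V → ℕ) : mix U η (fun _ => 0) ≤ η := fun x => by
  by_cases h : x ∈ U <;> simp [mix, h]

end ZI.E5c

namespace ZI.Rows

open ZI E5c

variable {d : ℕ} {m : Model}

theorem leakP_le {Cv a A r0 : ℕ} {c : ℝ} (hB : Base m d Cv a A r0 c) : ∃ r1 ≥ r0, ∀ r ≥ r1,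
    ∀ n : ℕ, r ^ A ≤ n → n ≤ (2 * r) ^ A → ∀ q : Par d m, q.M = n ^ 4 →
    ∀ (u : Fin d → ℝ), ∑ j, u j ^ 2 = 1 → ∀ m' N : ℕ,
    q.PP N (fun η w => LeakP q (bp d a r n) u m' η w) ≤ ENNReal.ofReal (Real.exp (- (r : ℝ))) := by
  obtain ⟨C, hC⟩ := mean_bound m
  obtain ⟨R1, hR1⟩ := final d a A C m.Gp m.le_Gp hB.a_big
  obtain ⟨R2, hR2⟩ := le_side a A m.Gp m.le_Gp hB.a_big hB.A_big
  refine ⟨max r0 (max R1 R2), le_max_left _ _, fun r hr n hn hn' q hq u hu m' N => ?_⟩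
  have hr0 : r0 ≤ r := le_trans (le_max_left _ _) hr
  have hr1 := le_trans (le_trans (le_max_left _ _) (le_max_right _ _)) hr
  have hr2 := le_trans (le_trans (le_max_right _ _) (le_max_right _ _)) hr
  have hr10 : 10 ≤ r := le_trans hB.r0_big hr0
  have hrp : (1 : ℝ) ≤ r := by
    have : 1 ≤ r := by omega
    exact_mod_cast this
  have hGp := m.le_Gp
  have hpw : (1 : ℝ) ≤ (r : ℝ) ^ a := one_le_pow₀ hrp
  refine (PP_le q N _ C (hC d q) (ENNReal.ofReal (Real.exp (-((r : ℝ) ^ (2 * a) / (16 * m.Gp)))))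
    fun η => ?_).trans (hR1 r hr1 n hn' q.M hq)
  set α : ℝ := -(1 / (16 * (r : ℝ) ^ a * m.Gp)) with hα
  have hαneg : α < 0 := by
    rw [hα, neg_lt_zero]
    positivity
  have habs : |α| = 1 / (16 * (r : ℝ) ^ a * m.Gp) := by
    rw [hα, abs_neg, abs_of_pos (by positivity)]
  set B : ℕ → ℝ := fun i => m' + 3 * (bp d a r n).mg - ((i : ℝ) / q.N1) / (8 * (bp d a r n).κ)
    with hB'
  have hN1 : (0 : ℝ) < q.N1 := by exact_mod_cast q.N1_pos
  have hp := q.p_pos
  have hκ : ((bp d a r n).κ : ℝ) = (r : ℝ) ^ a := by simp [bp]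
  have hmg : ((bp d a r n).mg : ℝ) = (r : ℝ) ^ (3 * a) := by simp [bp]
  have hη := mix_zero_le (Up u (m' + 4 * (bp d a r n).mg)) η
  have key := confine m q u hu 0 α
    (by
      rw [habs, div_le_one (by positivity)]
      nlinarith)
    (by
      rw [habs]
      refine (hR2 r hr2 n hn q.M hq).trans ?_
      gcongr
      norm_num)
    (fun i => α * B i)
    (by
      intro i
      have h1 : B (i + 1) = B i - 1 / (8 * (r : ℝ) ^ a * q.N1) := by
        simp only [hB', hκ]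
        push_cast
        field_simp
        ring
      have h2 : α * B (i + 1) = α * B i + (-α) / (8 * (r : ℝ) ^ a * q.N1) := by
        rw [h1]
        ring
      rw [h2]
      have h3 : 2 * m.Gp * α ^ 2 * q.p ≤ (-α) / (8 * (r : ℝ) ^ a * q.N1) := by
        rw [le_div_iff₀ (by positivity)]
        have h4 : (q.N1 : ℝ) * q.p ≤ 1 := q.p_ub
        have h5 : 16 * (r : ℝ) ^ a * m.Gp * (-α) = 1 := by
          rw [hα]
          field_simp
        calc 2 * m.Gp * α ^ 2 * q.p * (8 * (r : ℝ) ^ a * q.N1)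
            = (16 * (r : ℝ) ^ a * m.Gp * (-α)) * (-α) * (q.N1 * q.p) := by ring
          _ = (-α) * (q.N1 * q.p) := by rw [h5, one_mul]
          _ ≤ (-α) * 1 := by
              gcongr
              linarith
          _ = -α := mul_one _
      linarith)
    _ η hη N
  refine le_trans ?_ (key.trans ?_)
  · refine PrE_mono q.w N fun l _ h => ?_
    obtain ⟨i, hi, v, hv, hl⟩ := h
    exact ⟨i, hi, v, hv.symm, mul_le_mul_of_nonpos_left hl hαneg.le⟩
  · refine Finset.sum_le_sum fun x _ => ?_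
    by_cases hx : x ∈ Up u (m' + 4 * (bp d a r n).mg)
    · have h1 : (mix (Up u (m' + 4 * (bp d a r n).mg)) (fun _ => 0) η) x = 0 := by
        simp [mix, hx]
      rw [h1, Nat.sub_zero]
      refine mul_le_mul_right (ENNReal.ofReal_le_ofReal (Real.exp_le_exp.mpr ?_)) _
      have h2 : (m' : ℝ) + 4 * (bp d a r n).mg ≤ Lev u 0 x := hx
      have h3 : α * Lev u 0 x ≤ α * (m' + 4 * (bp d a r n).mg) :=
        mul_le_mul_of_nonpos_left h2 hαneg.le
      have h4 : B 0 = m' + 3 * (bp d a r n).mg := by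
        simp [hB']
      rw [h4]
      have h5 : α * ((bp d a r n).mg : ℝ) = -((r : ℝ) ^ (2 * a) / (16 * m.Gp)) := by
        rw [hmg, hα, show 3 * a = a + 2 * a by ring, pow_add]
        field_simp
      nlinarith
    · have h1 : (mix (Up u (m' + 4 * (bp d a r n).mg)) (fun _ => 0) η) x = η x := by
        simp [mix, hx]
      rw [h1, Nat.sub_self]
      simp

theorem leakF_le {Cv a A r0 : ℕ} {c : ℝ} (hB : Base m d Cv a A r0 c) : ∃ r1 ≥ r0, ∀ r ≥ r1,
    ∀ n : ℕ, r ^ A ≤ n → n ≤ (2 * r) ^ A → ∀ q : Par d m, q.M = n ^ 4 →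
    ∀ (u : Fin d → ℝ), ∑ j, u j ^ 2 = 1 → ∀ m' N : ℕ,
    q.PP N (fun η w => LeakF q (bp d a r n) u m' η w) ≤ ENNReal.ofReal (Real.exp (- (r : ℝ))) := by
  obtain ⟨C, hC⟩ := mean_bound m
  obtain ⟨R1, hR1⟩ := final d a A C m.Gp m.le_Gp hB.a_big
  obtain ⟨R2, hR2⟩ := le_side a A m.Gp m.le_Gp hB.a_big hB.A_big
  refine ⟨max r0 (max R1 R2), le_max_left _ _, fun r hr n hn hn' q hq u hu m' N => ?_⟩
  have hr0 : r0 ≤ r := le_trans (le_max_left _ _) hr
  have hr1 := le_trans (le_trans (le_max_left _ _) (le_max_right _ _)) hr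
  have hr2 := le_trans (le_trans (le_max_right _ _) (le_max_right _ _)) hr
  have hr10 : 10 ≤ r := le_trans hB.r0_big hr0
  have hrp : (1 : ℝ) ≤ r := by
    have : 1 ≤ r := by omega
    exact_mod_cast this
  have hGp := m.le_Gp
  have hpw : (1 : ℝ) ≤ (r : ℝ) ^ a := one_le_pow₀ hrp
  refine (PP_le q N _ C (hC d q) (ENNReal.ofReal (Real.exp (-((r : ℝ) ^ (2 * a) / (16 * m.Gp)))))
    fun η => ?_).trans (hR1 r hr1 n hn' q.M hq)
  set α : ℝ := 1 / (32 * (r : ℝ) ^ a * m.Gp) with hα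
  have hαpos : 0 < α := by
    rw [hα]
    positivity
  have habs : |α| = 1 / (32 * (r : ℝ) ^ a * m.Gp) := abs_of_pos hαpos
  set B : ℕ → ℝ := fun i => m' + 6 * (bp d a r n).mg + ((i : ℝ) / q.N1) / (16 * (bp d a r n).κ)
    with hB'
  have hN1 : (0 : ℝ) < q.N1 := by exact_mod_cast q.N1_pos
  have hp := q.p_pos
  have hκ : ((bp d a r n).κ : ℝ) = (r : ℝ) ^ a := by simp [bp]
  have hmg : ((bp d a r n).mg : ℝ) = (r : ℝ) ^ (3 * a) := by simp [bp]
  have hη := mix_zero_le' (Up u (m' + 4 * (bp d a r n).mg)) η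
  have key := confine m q u hu 0 α
    (by
      rw [habs, div_le_one (by positivity)]
      nlinarith)
    (by
      rw [habs]
      exact hR2 r hr2 n hn q.M hq)
    (fun i => α * B i)
    (by
      intro i
      have h1 : B (i + 1) = B i + 1 / (16 * (r : ℝ) ^ a * q.N1) := by
        simp only [hB', hκ]
        push_cast
        field_simp
        ring
      have h2 : α * B (i + 1) = α * B i + α / (16 * (r : ℝ) ^ a * q.N1) := by
        rw [h1]
        ring
      rw [h2]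
      have h3 : 2 * m.Gp * α ^ 2 * q.p ≤ α / (16 * (r : ℝ) ^ a * q.N1) := by
        rw [le_div_iff₀ (by positivity)]
        have h4 : (q.N1 : ℝ) * q.p ≤ 1 := q.p_ub
        have h5 : 32 * (r : ℝ) ^ a * m.Gp * α = 1 := by
          rw [hα]
          field_simp
        calc 2 * m.Gp * α ^ 2 * q.p * (16 * (r : ℝ) ^ a * q.N1)
            = (32 * (r : ℝ) ^ a * m.Gp * α) * α * (q.N1 * q.p) := by ring
          _ = α * (q.N1 * q.p) := by rw [h5, one_mul]
          _ ≤ α * 1 := by gcongr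
          _ = α := mul_one _
      linarith)
    _ η hη N
  refine le_trans ?_ (key.trans ?_)
  · refine PrE_mono q.w N fun l _ h => ?_
    obtain ⟨i, hi, v, hv, hl⟩ := h
    exact ⟨i, hi, v, hv.symm, mul_le_mul_of_nonneg_left hl hαpos.le⟩
  · refine Finset.sum_le_sum fun x _ => ?_
    by_cases hx : x ∈ Up u (m' + 4 * (bp d a r n).mg)
    · have h1 : (mix (Up u (m' + 4 * (bp d a r n).mg)) η (fun _ => 0)) x = η x := by
        simp [mix, hx]
      rw [h1, Nat.sub_self]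
      simp
    · have h1 : (mix (Up u (m' + 4 * (bp d a r n).mg)) η (fun _ => 0)) x = 0 := by
        simp [mix, hx]
      rw [h1, Nat.sub_zero]
      refine mul_le_mul_right (ENNReal.ofReal_le_ofReal (Real.exp_le_exp.mpr ?_)) _
      have h2 : Lev u 0 x ≤ (m' : ℝ) + 4 * (bp d a r n).mg := (not_le.mp hx).le
      have h3 : α * Lev u 0 x ≤ α * (m' + 4 * (bp d a r n).mg) :=
        mul_le_mul_of_nonneg_left h2 hαpos.le
      have h4 : B 0 = m' + 6 * (bp d a r n).mg := by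
        simp [hB']
      rw [h4]
      have h5 : 2 * (α * ((bp d a r n).mg : ℝ)) = (r : ℝ) ^ (2 * a) / (16 * m.Gp) := by
        rw [hmg, hα, show 3 * a = a + 2 * a by ring, pow_add]
        field_simp
        norm_num
      nlinarith

end ZI.Rows
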