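import Pool.Agent.ZI.E4
import Pool.Agent.ZI.E5b
import Pool.Agent.ZI.R1
import Pool.Agent.ZI.R2
import Pool.Agent.ZI.R12
import Pool.Agent.ZI.E1
import Pool.Agent.ZI.E3
import Pool.Agent.ZI.E5a
import Pool.Agent.ZI.E5c

/-! # Row E5d: one-step decoupling of blocks (paper, Lemma 5.1) -/

set_option autoImplicit false

open scoped ENNReal BigOperators Classical Pointwise

noncomputable section

namespace ZI.E5d

open ZI ZI.Rows

variable {d : ℕ} {m : Model}

/-! ### expectations -/

theorem EE_mono (q : Par d m) (N : ℕ) {F G : (Tor d q.M → ℕ) → List (Let d q.M q.K) → ℝ≥0∞}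
    (h : ∀ η l, l.length = N → F η l ≤ G η l) : q.EE N F ≤ q.EE N G := by
  unfold Par.EE
  exact ENNReal.tsum_le_tsum fun η => mul_le_mul_right (EvE_mono q.w N fun l hl => h η l hl) _

theorem PP_mono (q : Par d m) (N : ℕ) {F G : (Tor d q.M → ℕ) → List (Let d q.M q.K) → Prop}
    (h : ∀ η l, l.length = N → F η l → G η l) : q.PP N F ≤ q.PP N G := by
  refine EE_mono q N fun η l hl => ?_
  by_cases h1 : F η l
  · rw [if_pos h1, if_pos (h η l hl h1)]
  · rw [if_neg h1]
    exact zero_le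

theorem PP_le_one (q : Par d m) (hd : 0 < d) (N : ℕ)
    (F : (Tor d q.M → ℕ) → List (Let d q.M q.K) → Prop) : q.PP N F ≤ 1 := by
  unfold Par.PP Par.EE
  calc ∑' η, prw (m.m1 q.K) η * EvE q.w N (fun l => if F η l then 1 else 0)
      ≤ ∑' η, prw (m.m1 q.K) η * 1 :=
        ENNReal.tsum_le_tsum fun η => mul_le_mul_right (PrE_le_one q.w (sum_w q hd) N (F η)) _
    _ = 1 := by simp_rw [mul_one]; exact tsum_prw q

/-- letters after the first `N` ones do not matter -/
theorem EE_take (q : Par d m) (hd : 0 < d) (N M : ℕ)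
    (F : (Tor d q.M → ℕ) → List (Let d q.M q.K) → ℝ≥0∞) :
    q.EE (N + M) (fun η l => F η (l.take N)) = q.EE N F := by
  unfold Par.EE
  refine tsum_congr fun η => ?_
  congr 1
  have h := R2aux.EvE_take_drop q.w M N (fun l _ => F η l)
  rw [h]
  congr 1
  funext l
  exact EvE_const q.w (sum_w q hd) M (F η l)

theorem PP_take (q : Par d m) (hd : 0 < d) (N M : ℕ)
    (F : (Tor d q.M → ℕ) → List (Let d q.M q.K) → Prop) :
    q.PP (N + M) (fun η l => F η (l.take N)) = q.PP N F :=
  EE_take q hd N M (fun η l => if F η l then 1 else 0)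

/-- the last configuration of a path -/
theorem headD_reverse_path {M K : ℕ} (w : List (Let d M K)) : ∀ (η : Tor d M → ℕ)
    (η0 : Tor d M → ℕ), (path η w).reverse.headD η0 = w.foldl stepA η := by
  induction w with
  | nil => intro η η0; rfl
  | cons a w ih =>
    intro η η0
    have h := ih (stepA η a) η
    rw [path, List.reverse_cons, List.foldl_cons, ← h]
    cases h2 : (path (stepA η a) w).reverse with
    | nil =>
      exfalso
      have h3 : path (stepA η a) w = [] := by simpa using h2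
      cases w <;> simp [path] at h3
    | cons b t => rfl

theorem length_path {M K : ℕ} (w : List (Let d M K)) : ∀ (η : Tor d M → ℕ),
    (path η w).length = w.length + 1 := by
  induction w with
  | nil => intro η; rfl
  | cons a w ih =>
    intro η
    rw [path, List.length_cons, ih, List.length_cons]

theorem getD_path {M K : ℕ} (w : List (Let d M K)) : ∀ (η η0 : Tor d M → ℕ) (i : ℕ),
    i ≤ w.length → (path η w).getD i η0 = (w.take i).foldl stepA η := by
  induction w with
  | nil =>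
    intro η η0 i hi
    have : i = 0 := by simpa using hi
    subst this
    rfl
  | cons a w ih =>
    intro η η0 i hi
    cases i with
    | zero => rfl
    | succ i =>
      rw [path, List.getD_cons_succ, ih (stepA η a) η0 i (by simpa using hi)]
      rfl

theorem getD_reverse_path {M K : ℕ} (w : List (Let d M K)) (η η0 : Tor d M → ℕ) (i : ℕ)
    (hi : i ≤ w.length) :
    (path η w).reverse.getD i η0 = (w.take (w.length - i)).foldl stepA η := by
  rw [← getD_path w η η0 (w.length - i) (by omega)]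
  have h1 : i < (path η w).length := by rw [length_path]; omega
  have h2 : w.length - i < (path η w).length := by rw [length_path]; omega
  rw [List.getD_eq_getElem?_getD, List.getD_eq_getElem?_getD, List.getElem?_reverse h1, length_path]
  congr 2

/-! ### the abstract decoupling -/

theorem decouple (q : Par d m) (hd : 0 < d) (N M : ℕ) (U : Set (Tor d q.M))
    (a b lp lf bad : (Tor d q.M → ℕ) → List (Let d q.M q.K) → Prop)
    (ha : ∀ η η' w, w.length = N → a η w → a (mix U η' η) w ∨ lp η w ∨ lp (mix U η' η) w)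
    (hb : ∀ η η' w, w.length = M → b η w →
      b (mix U η η') w ∨ lf η w ∨ lf (mix U η η') w ∨ bad η w) :
    ∑' η : Tor d q.M → ℕ, prw (m.m1 q.K) η * (PrE q.w N (a η) * PrE q.w M (b η)) ≤
      q.PP N a * q.PP M b + 2 * q.PP N lp + 2 * q.PP M lf + q.PP M bad := by
  have hw := sum_w q hd
  have hA1 : ∀ η, PrE q.w N (a η) ≤ 1 := fun η => PrE_le_one q.w hw N _
  have hB1 : ∀ η, PrE q.w M (b η) ≤ 1 := fun η => PrE_le_one q.w hw M _
  have hA : ∀ η η', PrE q.w N (a η) ≤
      PrE q.w N (a (mix U η' η)) + PrE q.w N (lp η) + PrE q.w N (lp (mix U η' η)) := by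
    intro η η'
    calc PrE q.w N (a η) ≤ PrE q.w N (fun w => a (mix U η' η) w ∨ lp η w ∨ lp (mix U η' η) w) :=
          PrE_mono q.w N fun w hl h => ha η η' w hl h
      _ ≤ PrE q.w N (a (mix U η' η)) + PrE q.w N (fun w => lp η w ∨ lp (mix U η' η) w) :=
          PrE_or q.w N _ _
      _ ≤ PrE q.w N (a (mix U η' η)) + (PrE q.w N (lp η) + PrE q.w N (lp (mix U η' η))) :=
          add_le_add le_rfl (PrE_or q.w N _ _)
      _ = _ := by rw [add_assoc]
  have hB : ∀ η η', PrE q.w M (b η) ≤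
      PrE q.w M (b (mix U η η')) + PrE q.w M (lf η) + PrE q.w M (lf (mix U η η')) +
        PrE q.w M (bad η) := by
    intro η η'
    calc PrE q.w M (b η)
        ≤ PrE q.w M (fun w => b (mix U η η') w ∨ lf η w ∨ lf (mix U η η') w ∨ bad η w) :=
          PrE_mono q.w M fun w hl h => hb η η' w hl h
      _ ≤ PrE q.w M (b (mix U η η')) +
          PrE q.w M (fun w => lf η w ∨ lf (mix U η η') w ∨ bad η w) := PrE_or q.w M _ _
      _ ≤ PrE q.w M (b (mix U η η')) + (PrE q.w M (lf η) +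
          PrE q.w M (fun w => lf (mix U η η') w ∨ bad η w)) :=
          add_le_add le_rfl (PrE_or q.w M _ _)
      _ ≤ PrE q.w M (b (mix U η η')) + (PrE q.w M (lf η) +
          (PrE q.w M (lf (mix U η η')) + PrE q.w M (bad η))) :=
          add_le_add le_rfl (add_le_add le_rfl (PrE_or q.w M _ _))
      _ = _ := by ring
  have hAB : ∀ η η', PrE q.w N (a η) * PrE q.w M (b η) ≤
      (PrE q.w N (a (mix U η' η)) * PrE q.w M (b (mix U η η')) + PrE q.w N (lp (mix U η' η)) +
        PrE q.w M (lf (mix U η η'))) +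
      (PrE q.w N (lp η) + PrE q.w M (lf η) + PrE q.w M (bad η)) := by
    intro η η'
    calc PrE q.w N (a η) * PrE q.w M (b η)
        ≤ (PrE q.w N (a (mix U η' η)) + PrE q.w N (lp η) + PrE q.w N (lp (mix U η' η))) *
          PrE q.w M (b η) := mul_le_mul_left (hA η η') _
      _ = PrE q.w N (a (mix U η' η)) * PrE q.w M (b η) + PrE q.w N (lp η) * PrE q.w M (b η) +
          PrE q.w N (lp (mix U η' η)) * PrE q.w M (b η) := by ring
      _ ≤ PrE q.w N (a (mix U η' η)) * (PrE q.w M (b (mix U η η')) + PrE q.w M (lf η) +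
          PrE q.w M (lf (mix U η η')) + PrE q.w M (bad η)) + PrE q.w N (lp η) * 1 +
          PrE q.w N (lp (mix U η' η)) * 1 :=
          add_le_add (add_le_add (mul_le_mul_right (hB η η') _) (mul_le_mul_right (hB1 η) _))
            (mul_le_mul_right (hB1 η) _)
      _ = PrE q.w N (a (mix U η' η)) * PrE q.w M (b (mix U η η')) +
          PrE q.w N (a (mix U η' η)) * (PrE q.w M (lf η) +
          PrE q.w M (lf (mix U η η')) + PrE q.w M (bad η)) + PrE q.w N (lp η) * 1 +
          PrE q.w N (lp (mix U η' η)) * 1 := by ring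
      _ ≤ PrE q.w N (a (mix U η' η)) * PrE q.w M (b (mix U η η')) +
          1 * (PrE q.w M (lf η) +
          PrE q.w M (lf (mix U η η')) + PrE q.w M (bad η)) + PrE q.w N (lp η) * 1 +
          PrE q.w N (lp (mix U η' η)) * 1 :=
          add_le_add (add_le_add (add_le_add le_rfl (mul_le_mul_left (hA1 _) _)) le_rfl) le_rfl
      _ = _ := by ring
  have hswap := mix_swap (m.m1 q.K) U (fun η η' => PrE q.w N (a η') * PrE q.w M (b η) +
    PrE q.w N (lp η') + PrE q.w M (lf η))
  have h1 := tsum_prw q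
  have hP : ∀ F : (Tor d q.M → ℕ) → List (Let d q.M q.K) → Prop, ∀ K : ℕ,
      ∑' η : Tor d q.M → ℕ, prw (m.m1 q.K) η * PrE q.w K (F η) = q.PP K F := fun F K => rfl
  calc ∑' η : Tor d q.M → ℕ, prw (m.m1 q.K) η * (PrE q.w N (a η) * PrE q.w M (b η))
      = ∑' η : Tor d q.M → ℕ, ∑' η' : Tor d q.M → ℕ, prw (m.m1 q.K) η * (prw (m.m1 q.K) η' *
          (PrE q.w N (a η) * PrE q.w M (b η))) := by
        refine tsum_congr fun η => ?_
        rw [ENNReal.tsum_mul_left, ENNReal.tsum_mul_right, h1, one_mul]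
    _ ≤ ∑' η : Tor d q.M → ℕ, ∑' η' : Tor d q.M → ℕ, (prw (m.m1 q.K) η * (prw (m.m1 q.K) η' *
          (PrE q.w N (a (mix U η' η)) * PrE q.w M (b (mix U η η')) + PrE q.w N (lp (mix U η' η)) +
            PrE q.w M (lf (mix U η η')))) + prw (m.m1 q.K) η * (prw (m.m1 q.K) η' *
          (PrE q.w N (lp η) + PrE q.w M (lf η) + PrE q.w M (bad η)))) := by
        refine ENNReal.tsum_le_tsum fun η => ENNReal.tsum_le_tsum fun η' => ?_
        rw [← mul_add, ← mul_add]
        exact mul_le_mul_right (mul_le_mul_right (hAB η η') _) _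
    _ = (∑' η : Tor d q.M → ℕ, ∑' η' : Tor d q.M → ℕ, prw (m.m1 q.K) η * (prw (m.m1 q.K) η' *
          (PrE q.w N (a (mix U η' η)) * PrE q.w M (b (mix U η η')) + PrE q.w N (lp (mix U η' η)) +
            PrE q.w M (lf (mix U η η'))))) +
        ∑' η : Tor d q.M → ℕ, ∑' η' : Tor d q.M → ℕ, prw (m.m1 q.K) η * (prw (m.m1 q.K) η' *
          (PrE q.w N (lp η) + PrE q.w M (lf η) + PrE q.w M (bad η))) := by
        rw [← ENNReal.tsum_add]
        exact tsum_congr fun η => ENNReal.tsum_add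
    _ = (∑' η : Tor d q.M → ℕ, ∑' η' : Tor d q.M → ℕ, prw (m.m1 q.K) η * (prw (m.m1 q.K) η' *
          (PrE q.w N (a η') * PrE q.w M (b η) + PrE q.w N (lp η') + PrE q.w M (lf η)))) +
        (q.PP N lp + q.PP M lf + q.PP M bad) := by
        rw [hswap]
        congr 1
        have h2 : ∀ η : Tor d q.M → ℕ, ∑' η' : Tor d q.M → ℕ, prw (m.m1 q.K) η *
            (prw (m.m1 q.K) η' * (PrE q.w N (lp η) + PrE q.w M (lf η) + PrE q.w M (bad η))) =
            prw (m.m1 q.K) η * PrE q.w N (lp η) + prw (m.m1 q.K) η * PrE q.w M (lf η) +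
              prw (m.m1 q.K) η * PrE q.w M (bad η) := fun η => by
          rw [ENNReal.tsum_mul_left, ENNReal.tsum_mul_right, h1, one_mul]
          ring
        simp_rw [h2]
        rw [ENNReal.tsum_add, ENNReal.tsum_add, hP, hP, hP]
    _ = (q.PP N a * q.PP M b + q.PP N lp + q.PP M lf) + (q.PP N lp + q.PP M lf + q.PP M bad) := by
        congr 1
        have h2 : ∀ η : Tor d q.M → ℕ, ∑' η' : Tor d q.M → ℕ, prw (m.m1 q.K) η *
            (prw (m.m1 q.K) η' * (PrE q.w N (a η') * PrE q.w M (b η) + PrE q.w N (lp η') +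
              PrE q.w M (lf η))) =
            prw (m.m1 q.K) η * PrE q.w M (b η) * q.PP N a + prw (m.m1 q.K) η * q.PP N lp +
              prw (m.m1 q.K) η * PrE q.w M (lf η) := fun η => by
          rw [ENNReal.tsum_mul_left]
          have h3 : ∑' η' : Tor d q.M → ℕ, prw (m.m1 q.K) η' * (PrE q.w N (a η') *
              PrE q.w M (b η) + PrE q.w N (lp η') + PrE q.w M (lf η)) =
              q.PP N a * PrE q.w M (b η) + q.PP N lp + PrE q.w M (lf η) := by
            have h4 : ∀ η' : Tor d q.M → ℕ, prw (m.m1 q.K) η' * (PrE q.w N (a η') *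
              PrE q.w M (b η) + PrE q.w N (lp η') + PrE q.w M (lf η)) =
              prw (m.m1 q.K) η' * PrE q.w N (a η') * PrE q.w M (b η) +
              prw (m.m1 q.K) η' * PrE q.w N (lp η') + prw (m.m1 q.K) η' * PrE q.w M (lf η) :=
              fun η' => by ring
            simp_rw [h4]
            rw [ENNReal.tsum_add, ENNReal.tsum_add, ENNReal.tsum_mul_right, hP, hP,
              ENNReal.tsum_mul_right, h1, one_mul]
          rw [h3]
          ring
        simp_rw [h2]
        rw [ENNReal.tsum_add, ENNReal.tsum_add, ENNReal.tsum_mul_right, hP, hP,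
          ENNReal.tsum_mul_right, h1, one_mul]
        ring
    _ = _ := by ring

/-! ### small facts -/

theorem agreeW_symm {E E' : Env d} {Γ : ℕ → Set (Pos d)} {T : ℕ} (h : AgreeW E E' Γ T) :
    AgreeW E' E Γ T :=
  ⟨fun t ht x hx => (h.occ t ht x hx).symm, fun G hG s t x y ht => (h.R G hG s t x y ht).symm⟩

theorem supn_le_iff (v : Pos d) (k : ℕ) : supn v ≤ k ↔ ∀ j, (v j).natAbs ≤ k := by
  unfold supn
  rw [Finset.sup_le_iff]
  simp

theorem supn_add_le (v w : Pos d) : supn (v + w) ≤ supn v + supn w := by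
  rw [supn_le_iff]
  intro j
  have h1 := (supn_le_iff v (supn v)).mp le_rfl j
  have h2 := (supn_le_iff w (supn w)).mp le_rfl j
  have h3 : ((v + w) j).natAbs ≤ (v j).natAbs + (w j).natAbs := Int.natAbs_add_le _ _
  omega

theorem supn_v0_le (P : BP) (u : Fin d → ℝ) (hu : ∑ j, u j ^ 2 = 1) : supn (v0 P u) ≤ P.l0 + 1 := by
  rw [supn_le_iff]
  intro j
  have h1 : u j ^ 2 ≤ 1 := by
    rw [← hu]
    exact Finset.single_le_sum (f := fun j => u j ^ 2) (fun i _ => sq_nonneg _) (Finset.mem_univ j)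
  have h2 : |u j| ≤ 1 := by
    rw [← sq_le_one_iff_abs_le_one]
    exact h1
  have h3 : |(P.l0 : ℝ) * u j| ≤ P.l0 := by
    rw [abs_mul, Nat.abs_cast]
    calc (P.l0 : ℝ) * |u j| ≤ P.l0 * 1 := mul_le_mul_of_nonneg_left h2 (Nat.cast_nonneg _)
      _ = P.l0 := mul_one _
  have h4 := abs_sub_round ((P.l0 : ℝ) * u j)
  have h5 : |(round ((P.l0 : ℝ) * u j) : ℝ)| ≤ P.l0 + 1 := by
    calc |(round ((P.l0 : ℝ) * u j) : ℝ)|
        = |(P.l0 : ℝ) * u j - ((P.l0 : ℝ) * u j - round ((P.l0 : ℝ) * u j))| := by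
          congr 1; ring
      _ ≤ |(P.l0 : ℝ) * u j| + |(P.l0 : ℝ) * u j - round ((P.l0 : ℝ) * u j)| := abs_sub _ _
      _ ≤ P.l0 + 1 / 2 := add_le_add h3 h4
      _ ≤ P.l0 + 1 := by linarith
  have h6 : (((v0 P u j).natAbs : ℕ) : ℝ) ≤ ((P.l0 + 1 : ℕ) : ℝ) := by
    have h7 : (((v0 P u j).natAbs : ℕ) : ℝ) = |((v0 P u j : ℤ) : ℝ)| := by
      rw [← Int.cast_abs, Int.abs_eq_natAbs, Int.cast_natCast]
    rw [h7]
    push_cast
    exact h5
  exact_mod_cast h6

theorem mix_mix {V : Type} (U : Set V) (η η' : V → ℕ) :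
    mix U (fun _ => 0) (mix U η' η) = mix U (fun _ => 0) η := by
  funext x
  by_cases h : x ∈ U <;> simp [mix, h]

/-- the numbers -/
theorem numbers (k n r m' y1 S : ℕ) (hk : 10 ≤ k) (hr : r ≤ k) (hn : k ^ 10 ≤ n)
    (hm : m' + S ≤ r * n) (hy : (y1 : ℝ) ≤ 4 * k * (m' + 2 * (k : ℝ) ^ 3)) :
    y1 ≤ n ^ 2 ∧ 2 * (y1 + (64 * k ^ 3 + 2) * k) ≤ n ^ 2 ∧
      y1 + (64 * k ^ 3 + 2) * k + k ^ 2 * S ≤ n ^ 2 ∧ 2 * ((64 * k ^ 3 + 2) * k) ≤ n ^ 2 ∧
      32 * k ^ 3 + 1 ≤ n ^ 2 := by
  have hy' : y1 ≤ 4 * k * (m' + 2 * k ^ 3) := by exact_mod_cast hy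
  have hmk : m' + S ≤ k * n := hm.trans (Nat.mul_le_mul_right _ hr)
  have h1 : 4 * k * (m' + 2 * k ^ 3) ≤ 4 * k ^ 2 * n + 8 * k ^ 4 := by
    have : m' ≤ k * n := by omega
    calc 4 * k * (m' + 2 * k ^ 3) ≤ 4 * k * (k * n + 2 * k ^ 3) := by gcongr
      _ = _ := by ring
  have h2 : k ^ 2 * S ≤ k ^ 3 * n := by
    have : S ≤ k * n := by omega
    calc k ^ 2 * S ≤ k ^ 2 * (k * n) := by gcongr
      _ = _ := by ring
  have h3 : k ^ 10 * n ≤ n ^ 2 := by
    rw [sq]
    exact Nat.mul_le_mul_right _ hn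
  have h4 : 1000 * k ^ 4 ≤ k ^ 10 := by
    calc 1000 * k ^ 4 ≤ k ^ 6 * k ^ 4 := by
          gcongr
          calc 1000 ≤ 10 ^ 6 := by norm_num
            _ ≤ k ^ 6 := Nat.pow_le_pow_left hk 6
      _ = k ^ 10 := by ring
  have h5 : 1000 * k ^ 4 * n ≤ n ^ 2 := (Nat.mul_le_mul_right _ h4).trans h3
  have hk4 : k ^ 3 ≤ k ^ 4 := Nat.pow_le_pow_right (by omega) (by norm_num)
  have hk2 : k ^ 2 ≤ k ^ 4 := Nat.pow_le_pow_right (by omega) (by norm_num)
  have hk1 : k ≤ k ^ 4 := by
    calc k = k ^ 1 := (pow_one k).symm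
      _ ≤ k ^ 4 := Nat.pow_le_pow_right (by omega) (by norm_num)
  have hn1 : 1 ≤ n := by
    have : 1 ≤ k ^ 10 := Nat.one_le_pow _ _ (by omega)
    omega
  have h6 : k ^ 4 ≤ k ^ 4 * n := Nat.le_mul_of_pos_right _ hn1
  have h7 : k ^ 2 * n ≤ k ^ 4 * n := Nat.mul_le_mul_right _ hk2
  have h8 : k ^ 3 * n ≤ k ^ 4 * n := Nat.mul_le_mul_right _ hk4
  have hΔ : (64 * k ^ 3 + 2) * k = 64 * k ^ 4 + 2 * k := by ring
  rw [hΔ]
  have h9 : 1000 * (k ^ 4 * n) ≤ n ^ 2 := by
    calc 1000 * (k ^ 4 * n) = 1000 * k ^ 4 * n := by ring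
      _ ≤ n ^ 2 := h5
  have h10 : 4 * k ^ 2 * n = 4 * (k ^ 2 * n) := by ring
  rw [h10] at h1
  have hk4' : 1 ≤ k ^ 4 := Nat.one_le_pow _ _ (by omega)
  refine ⟨?_, ?_, ?_, ?_, ?_⟩ <;> omega

end ZI.E5d

namespace ZI.E5d

open ZI ZI.Rows

variable {d : ℕ} {m : Model}

/-- the second block onwards is a function of the configuration at the time `s0` and the future letters -/
theorem chain_drop (q : Par d m) (η : Tor d q.M → ℕ) (l : List (Let d q.M q.K)) (P : BP)
    (u : Fin d → ℝ) (ms : List ℕ) (z : Pos d) (s0 t : ℕ) :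
    (envT q η l).chain P u ms z (s0 + t) =
      (envT q ((l.take (s0 * q.N1)).foldl stepA η) (l.drop (s0 * q.N1))).chain P u ms z t := by
  rw [chain_shift q η l P u ms z (s0 + t),
    chain_shift q ((l.take (s0 * q.N1)).foldl stepA η) (l.drop (s0 * q.N1)) P u ms z t]
  have h1 : (s0 + t) * q.N1 = s0 * q.N1 + t * q.N1 := by ring
  rw [h1, List.take_add, List.foldl_append, List.drop_drop]

theorem exp_bound (c r : ℝ) (hc : 0 < c) (hr : 10 ≤ r) (hr' : 10 / c ≤ r) :
    4 * Real.exp (-r) + 2 * Real.exp (-c * r) ≤ Real.exp (- (min 1 c / 2) * r) := by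
  have h1 : min 1 c ≤ 1 := min_le_left _ _
  have h2 : min 1 c ≤ c := min_le_right _ _
  have h3 : 0 < min 1 c := lt_min one_pos hc
  have h4 : Real.exp (-r) ≤ Real.exp (-(min 1 c) * r) := by
    apply Real.exp_le_exp.mpr
    nlinarith
  have h5 : Real.exp (-c * r) ≤ Real.exp (-(min 1 c) * r) := by
    apply Real.exp_le_exp.mpr
    nlinarith
  have h6 : 10 ≤ min 1 c * r := by
    rcases min_choice 1 c with h | h <;> rw [h]
    · linarith
    · rw [div_le_iff₀ hc] at hr'
      linarith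
  have h7 : (6 : ℝ) ≤ Real.exp (min 1 c / 2 * r) := by
    have := Real.add_one_le_exp (min 1 c / 2 * r)
    linarith
  have h8 : Real.exp (-(min 1 c) * r) * Real.exp (min 1 c / 2 * r) =
      Real.exp (- (min 1 c / 2) * r) := by
    rw [← Real.exp_add]
    congr 1
    ring
  calc 4 * Real.exp (-r) + 2 * Real.exp (-c * r) ≤ Real.exp (-(min 1 c) * r) * 6 := by linarith
    _ ≤ Real.exp (-(min 1 c) * r) * Real.exp (min 1 c / 2 * r) :=
        mul_le_mul_of_nonneg_left h7 (Real.exp_pos _).le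
    _ = _ := h8

end ZI.E5d

namespace ZI.Rows

open ZI E5d

variable {d : ℕ} {m : Model}

/-- one-step decoupling -/
theorem one_step {Cv a A r0 : ℕ} {c : ℝ} (hB : Base m d Cv a A r0 c) : ∃ c' : ℝ, 0 < c' ∧
    ∃ r1 ≥ r0, ∀ r ≥ r1, ∀ n : ℕ, r ^ A ≤ n → n ≤ (2 * r) ^ A → ∀ q : Par d m, q.M = n ^ 4 →
    ∀ (u : Fin d → ℝ), ∑ j, u j ^ 2 = 1 → ∀ m' : ℕ, r ^ (7 * a) ≤ m' → m' ≤ r * n →
    ∀ y : ℕ × Pos d, Adm (bp d a r n) u r Cv m' n y →
    ∀ ms : List ℕ, (∀ m'' ∈ ms, r ^ (7 * a) ≤ m'') → m' + ms.sum ≤ r * n →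
    ∀ G : List (ℕ × Pos d) → Prop,
    q.PP (n ^ 2 * q.N1) (fun η l => (envT q η l).Good r (r ^ a) (r ^ a) Cv (n ^ 2) (n ^ 2) ∧
      (envT q η l).blk (bp d a r n) u m' 0 0 = y ∧
      G ((envT q η l).chain (bp d a r n) u ms (y.2 + v0 (bp d a r n) u) (y.1 + (bp d a r n).Δ))) ≤
    QT q (bp d a r n) u n m' y *
      q.PP (n ^ 2 * q.N1) (fun η l => G ((envT q η l).chain (bp d a r n) u ms 0 0)) +
      ENNReal.ofReal (Real.exp (- c' * r)) := by
  obtain ⟨ra, hra, H3⟩ := chain_eq hB
  obtain ⟨rb, hrb, H4⟩ := start_inv hB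
  obtain ⟨rc, hrc, H5⟩ := past_transfer hB
  obtain ⟨rd, hrd, H6⟩ := pastEv_of_good hB
  obtain ⟨re, hre, H7⟩ := future_transfer hB
  obtain ⟨rf, hrf, H8⟩ := leakP_le hB
  obtain ⟨rg, hrg, H9⟩ := leakF_le hB
  have hc := hB.c_pos
  refine ⟨min 1 c / 2, by have := lt_min one_pos hc; linarith,
    ra + rb + rc + rd + re + rf + rg + 10 + ⌈10 / c⌉₊, by omega, ?_⟩
  intro r hr n hn hn2 q hq u hu m' hm' hm'n y hy ms hms hsum G
  have hd := hB.d_pos
  -- numbers
  have ha10 := hB.a_big
  have hA := hB.A_big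
  have hr10 : 10 ≤ r := by omega
  have hrc10 : 10 / c ≤ (r : ℝ) := by
    have h1 : ⌈10 / c⌉₊ ≤ r := by omega
    exact (Nat.le_ceil _).trans (by exact_mod_cast h1)
  set P := bp d a r n with hP
  have hk10 : 10 ≤ r ^ a := by
    calc 10 ≤ r := hr10
      _ = r ^ 1 := (pow_one r).symm
      _ ≤ r ^ a := Nat.pow_le_pow_right (by omega) (by omega)
  have hrk : r ≤ r ^ a := by
    calc r = r ^ 1 := (pow_one r).symm
      _ ≤ r ^ a := Nat.pow_le_pow_right (by omega) (by omega)
  have hkn : (r ^ a) ^ 10 ≤ n := by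
    rw [← pow_mul]
    exact (Nat.pow_le_pow_right (by omega) (by omega)).trans hn
  have hmg : P.mg = (r ^ a) ^ 3 := by rw [← pow_mul, mul_comm]; rfl
  have hκ : P.κ = r ^ a := rfl
  have hΔ : P.Δ = (64 * (r ^ a) ^ 3 + 2) * r ^ a := by
    rw [← pow_mul, mul_comm a 3]; rfl
  have hl0 : P.l0 = 32 * (r ^ a) ^ 3 := by rw [← pow_mul, mul_comm a 3]; rfl
  have h2a : r ^ (2 * a) = (r ^ a) ^ 2 := by rw [← pow_mul, mul_comm]
  obtain ⟨hy1, hy2, hy3, hy4, hy5⟩ := hy
  have hnum := numbers (r ^ a) n r m' y.1 ms.sum hk10 hrk hkn hsum (by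
    have := hy2
    rw [hmg, hκ] at this
    push_cast at this ⊢
    exact this)
  obtain ⟨hn1, hn2', hn3, hn4, hn5⟩ := hnum
  rw [← hΔ] at hn2' hn3 hn4
  rw [← h2a] at hn3
  set N := y.1 * q.N1 with hN
  set M := n ^ 2 * q.N1 with hM
  have hNM : N ≤ M := Nat.mul_le_mul_right _ hn1
  set z1 := y.2 + v0 P u with hz1
  have hsums : ms.sum ≤ r * n := by omega
  have hAdm : Adm P u r Cv m' n y := ⟨hy1, hy2, hy3, hy4, hy5⟩
  -- the two factors
  set aa : (Tor d q.M → ℕ) → List (Let d q.M q.K) → Prop :=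
    fun η w => PastEv (pe q (path η w).reverse) P u r Cv m' y with haa
  set bb : (Tor d q.M → ℕ) → List (Let d q.M q.K) → Prop :=
    fun η w => G ((envT q η w).chain P u ms z1 P.Δ) with hbb
  -- step 1: longer words
  have hstep1 : q.PP M (fun η l => (envT q η l).Good r (r ^ a) (r ^ a) Cv (n ^ 2) (n ^ 2) ∧
      (envT q η l).blk P u m' 0 0 = y ∧ G ((envT q η l).chain P u ms z1 (y.1 + P.Δ))) ≤
      q.PP (N + M) (fun η l => PastEv (pe q (path η (l.take N))) P u r Cv m' y ∧
        bb ((l.take N).foldl stepA η) (l.drop N)) := by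
    rw [← PP_take q hd M N, Nat.add_comm M N]
    refine PP_mono q (N + M) fun η l hl => ?_
    rintro ⟨hg, hb, hG⟩
    constructor
    · have h1 := (H6 r (by omega) n hn q hq u hu m' hm' hm'n η (l.take M) hg).2
      rw [hb, ← hP, List.take_take, min_eq_left hNM] at h1
      exact (EqEnv.pastEv (pe_path q η (l.take N)) P u r Cv m' y).mp h1
    · have h1 := agreeW_symm (agree_take q η l (n ^ 2) (HS P u (lev u z1 -
        ((y.1 + P.Δ : ℕ) : ℝ) / (16 * P.κ) - 2 * P.mg) n))
      have h2 := H3 r (by omega) n hn (envT q η (l.take M)) (envT q η l) hg u hu ms hms hsums z1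
        (y.1 + P.Δ) (n ^ 2) (lev u z1 - ((y.1 + P.Δ : ℕ) : ℝ) / (16 * P.κ) - 2 * P.mg) hn2'
        (by
          have h3 := supn_add_le y.2 (v0 P u)
          have h4 := supn_v0_le P u hu
          rw [hl0] at h4
          rw [hz1]
          omega) (by rw [← hP]; linarith) hn3 le_rfl h1
      rw [← hP] at h2
      rw [hbb]
      show G ((envT q ((l.take N).foldl stepA η) (l.drop N)).chain P u ms z1 P.Δ)
      rw [hN, ← chain_drop q η l P u ms z1 y.1 P.Δ, h2]
      exact hG
  -- step 2: reversal of the past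
  have hstep2 : q.PP (N + M) (fun η l => PastEv (pe q (path η (l.take N))) P u r Cv m' y ∧
        bb ((l.take N).foldl stepA η) (l.drop N)) =
      ∑' η : Tor d q.M → ℕ, prw (m.m1 q.K) η * (PrE q.w N (aa η) * PrE q.w M (bb η)) := by
    set F : List (Tor d q.M → ℕ) → List (Let d q.M q.K) → ℝ≥0∞ := fun L w =>
      if (PastEv (pe q L.reverse) P u r Cv m' y ∧ bb (L.headD (fun _ => 0)) w) then 1 else 0 with hF
    have h1 : q.PP (N + M) (fun η l => PastEv (pe q (path η (l.take N))) P u r Cv m' y ∧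
        bb ((l.take N).foldl stepA η) (l.drop N)) =
        q.EE (N + M) (fun η l => F (path η (l.take N)).reverse (l.drop N)) := by
      unfold Par.PP
      congr 1
      funext η l
      rw [hF]
      simp only [List.reverse_reverse, headD_reverse_path]
      split_ifs <;> rfl
    rw [h1, past_future q N M F]
    unfold Par.EE
    refine tsum_congr fun η => ?_
    congr 1
    have h2 := R2aux.EvE_take_drop q.w M N (fun l l' => F (path η l) l')
    rw [h2]
    have h3 : (fun l => EvE q.w M (fun l' => F (path η l) l')) =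
        fun l => PrE q.w M (bb η) * (if aa η l then 1 else 0) := by
      funext l
      rw [hF, haa]
      simp only [R2aux.head_path]
      by_cases h4 : PastEv (pe q (path η l).reverse) P u r Cv m' y
      · simp only [h4, true_and, if_true, mul_one]
        rfl
      · simp only [h4, false_and, if_false, mul_zero]
        exact EvE_const q.w (sum_w q hd) M 0
    rw [h3, EvE_mul, mul_comm]
    rfl
  -- step 3: decoupling
  have hstep3 := decouple q hd N M (Up u (m' + 4 * P.mg)) aa bb (LeakP q P u m') (LeakF q P u m')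
    (fun η w => ¬ (envT q η w).Good r (r ^ a) (r ^ a) Cv (n ^ 2) (n ^ 2)) (by
      intro η η' w hw h
      by_contra hcon
      push Not at hcon
      obtain ⟨hc1, hc2, hc3⟩ := hcon
      apply hc1
      refine H5 r (by omega) n hn q hq u hu m' hm' hm'n y hAdm (path η w).reverse
        (path (mix (Up u (m' + 4 * P.mg)) η' η) w).reverse (isPath_reverse q _ ⟨η, w, rfl⟩)
        (isPath_reverse q _ ⟨_, w, rfl⟩) ?_ ?_ ?_ h
      · rw [List.length_reverse, length_path, hw]
      · rw [List.length_reverse, length_path, hw]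
      · intro i hi v hv
        rw [getD_reverse_path w η _ i (by omega), getD_reverse_path w _ _ i (by omega)]
        have h1 : Lev u 0 v ≤ m' + 3 * P.mg - (((w.length - i : ℕ) : ℝ) / q.N1) / (8 * P.κ) := by
          refine hv.trans_eq ?_
          have h2 : ((w.length - i : ℕ) : ℝ) / q.N1 = (y.1 : ℝ) - (i : ℝ) / q.N1 := by
            rw [hw, hN, Nat.cast_sub hi]
            have h3 : (q.N1 : ℝ) ≠ 0 := by
              have := q.N1_pos
              positivity
            push_cast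
            field_simp
          rw [h2]
        have h2 : (w.take (w.length - i)).foldl stepA η v =
            (w.take (w.length - i)).foldl stepA (mix (Up u (m' + 4 * P.mg)) (fun _ => 0) η) v := by
          by_contra h3
          exact hc2 ⟨w.length - i, Nat.sub_le _ _, v, h3, h1⟩
        have h4 : (w.take (w.length - i)).foldl stepA (mix (Up u (m' + 4 * P.mg)) η' η) v =
            (w.take (w.length - i)).foldl stepA (mix (Up u (m' + 4 * P.mg)) (fun _ => 0) η) v := by
          by_contra h3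
          refine hc3 ⟨w.length - i, Nat.sub_le _ _, v, ?_, h1⟩
          rw [mix_mix]
          exact h3
        rw [h2, h4]) (by
      intro η η' w hw h
      by_contra hcon
      push Not at hcon
      obtain ⟨hc1, hc2, hc3, hc4⟩ := hcon
      apply hc1
      have h1 := H7 r (by omega) n hn q hq u hu m' hm' hm'n y hAdm ms hms hsums η η' w hw hc4 hc2 hc3
      rw [hbb]
      show G ((envT q (mix (Up u (m' + 4 * P.mg)) η η') w).chain P u ms z1 P.Δ)
      rw [← hP] at h1
      rw [hz1, h1]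
      exact h)
  -- the first factor
  have hfac1 : q.PP N aa ≤ QT q P u n m' y := by
    have h1 : q.PP N aa = q.EE N (fun η l => (fun L => if PastEv (pe q L) P u r Cv m' y then
        (1 : ℝ≥0∞) else 0) (path η l).reverse) := rfl
    rw [h1, ← reversal q N (fun L => if PastEv (pe q L) P u r Cv m' y then (1 : ℝ≥0∞) else 0)]
    have h2 : q.EE N (fun η l => (fun L => if PastEv (pe q L) P u r Cv m' y then
        (1 : ℝ≥0∞) else 0) (path η l)) =
        q.PP N (fun η l => PastEv (pe q (path η l)) P u r Cv m' y) := rfl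
    rw [h2, ← PP_take q hd N (M - N), Nat.add_sub_cancel' hNM]
    refine PP_mono q M fun η l _ h3 => ?_
    exact blk_of_pastEv q P u r Cv m' y η l ((EqEnv.pastEv (pe_path q η (l.take N)) P u r Cv m' y).mpr h3)
  -- the second factor
  have hfac2 : q.PP M bb ≤ q.PP M (fun η l => G ((envT q η l).chain P u ms 0 0)) +
      ENNReal.ofReal (Real.exp (- c * r)) :=
    H4 r (by omega) n hn hn2 q hq u hu ms hms hsums z1 P.Δ hn4 G
  have hQ1 : QT q P u n m' y ≤ 1 := PP_le_one q hd _ _
  have hgood := hB.good r (by omega) n hn hn2 q hq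
  have hlp := H8 r (by omega) n hn hn2 q hq u hu m' N
  have hlf := H9 r (by omega) n hn hn2 q hq u hu m' M
  rw [← hP] at hlp hlf
  calc q.PP M (fun η l => (envT q η l).Good r (r ^ a) (r ^ a) Cv (n ^ 2) (n ^ 2) ∧
      (envT q η l).blk P u m' 0 0 = y ∧ G ((envT q η l).chain P u ms z1 (y.1 + P.Δ)))
      ≤ ∑' η : Tor d q.M → ℕ, prw (m.m1 q.K) η * (PrE q.w N (aa η) * PrE q.w M (bb η)) :=
        hstep1.trans_eq hstep2
    _ ≤ q.PP N aa * q.PP M bb + 2 * q.PP N (LeakP q P u m') + 2 * q.PP M (LeakF q P u m') +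
        q.PP M (fun η w => ¬ (envT q η w).Good r (r ^ a) (r ^ a) Cv (n ^ 2) (n ^ 2)) := hstep3
    _ ≤ QT q P u n m' y * (q.PP M (fun η l => G ((envT q η l).chain P u ms 0 0)) +
        ENNReal.ofReal (Real.exp (- c * r))) + 2 * ENNReal.ofReal (Real.exp (- (r : ℝ))) +
        2 * ENNReal.ofReal (Real.exp (- (r : ℝ))) + ENNReal.ofReal (Real.exp (- c * r)) :=
        add_le_add (add_le_add (add_le_add (mul_le_mul' hfac1 hfac2) (mul_le_mul_right hlp _))
          (mul_le_mul_right hlf _)) hgood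
    _ = QT q P u n m' y * q.PP M (fun η l => G ((envT q η l).chain P u ms 0 0)) +
        (QT q P u n m' y * ENNReal.ofReal (Real.exp (- c * r)) +
          4 * ENNReal.ofReal (Real.exp (- (r : ℝ))) + ENNReal.ofReal (Real.exp (- c * r))) := by
        ring
    _ ≤ QT q P u n m' y * q.PP M (fun η l => G ((envT q η l).chain P u ms 0 0)) +
        (1 * ENNReal.ofReal (Real.exp (- c * r)) +
          4 * ENNReal.ofReal (Real.exp (- (r : ℝ))) + ENNReal.ofReal (Real.exp (- c * r))) :=
        add_le_add le_rfl (add_le_add (add_le_add (mul_le_mul_left hQ1 _) le_rfl) le_rfl)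
    _ ≤ QT q P u n m' y * q.PP M (fun η l => G ((envT q η l).chain P u ms 0 0)) +
        ENNReal.ofReal (Real.exp (- (min 1 c / 2) * r)) := by
        refine add_le_add le_rfl ?_
        have h1 := exp_bound c r hc (by exact_mod_cast hr10) hrc10
        calc 1 * ENNReal.ofReal (Real.exp (- c * r)) +
            4 * ENNReal.ofReal (Real.exp (- (r : ℝ))) + ENNReal.ofReal (Real.exp (- c * r))
            = ENNReal.ofReal (4 * Real.exp (- (r : ℝ)) + 2 * Real.exp (- c * r)) := by
              rw [ENNReal.ofReal_add (by positivity) (by positivity),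
                ENNReal.ofReal_mul (by norm_num), ENNReal.ofReal_mul (by norm_num)]
              rw [show ENNReal.ofReal 4 = 4 by norm_num, show ENNReal.ofReal 2 = 2 by norm_num]
              ring
          _ ≤ _ := ENNReal.ofReal_le_ofReal h1

end ZI.Rows
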