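import Pool.Agent.ZI.E6
import Pool.Agent.ZI.E4
import Pool.Agent.ZI.E5a
import Pool.Agent.ZI.E5d

/-! # Row E6: the chain of blocks -/

set_option autoImplicit false

open scoped ENNReal BigOperators Classical Pointwise

noncomputable section

namespace ZI.Rows

open ZI

variable {d : ℕ} {m : Model}

theorem block_chain {Cv a A r0 : ℕ} {c : ℝ} (hB : Base m d Cv a A r0 c) : ∃ r1 ≥ r0, ∀ r ≥ r1,
    ∀ n : ℕ, r ^ A ≤ n → n ≤ (2 * r) ^ A → ∀ q : Par d m, q.M = n ^ 4 →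
    ∀ (u : Fin d → ℝ), ∑ j, u j ^ 2 = 1 → ∀ ms : List ℕ, (∀ m' ∈ ms, r ^ (7 * a) ≤ m') →
    ms.sum ≤ r * n → ∀ (z : Pos d) (s : ℕ), 2 * s ≤ n ^ 2 → ∀ G : List (ℕ × Pos d) → Prop,
    2 * q.PP (n ^ 2 * q.N1) (fun η l => G ((envT q η l).chain (bp d a r n) u ms z s)) ≤
      2 * prodQ (QT q (bp d a r n) u n) ms G + err r := by
  obtain ⟨ra, hra, h⟩ := pastEv_of_good hB
  refine E6.block_chain_of hB ⟨ra, hra, ?_⟩ (start_inv hB) (one_step hB)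
  intro r hr n hn q hM u hu m' hm1 hm2 η l hg
  exact (h r hr n hn q hM u hu m' hm1 hm2 η l hg).1

end ZI.Rows
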