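import Pool.Agent.ZI.Blocks

/-! # Definitions for the rows: paths, hitting, markers, level function -/

set_option autoImplicit false

open scoped ENNReal BigOperators Classical

noncomputable section

namespace ZI

variable {d : ℕ}

section Machine

variable {σ α : Type} [Fintype α]

/-- the word `l` leads from `s` to a state in `bad` at some time `≤ length l` -/
def Hits (step : σ → α → σ) (bad : σ → Prop) : σ → List α → Prop
  | s, [] => bad s
  | s, a :: l => bad s ∨ Hits step bad (step s a) l

/-- `bad` is reached along the word, not later than `stop` -/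
def HitsBefore (step : σ → α → σ) (stop bad : σ → Prop) : σ → List α → Prop
  | s, [] => bad s
  | s, a :: l => bad s ∨ (¬ stop s ∧ HitsBefore step stop bad (step s a) l)

/-- as long as `act` holds, `D` makes symmetric jumps: `D → D + e` with probability `κ p` for each of the `2 d`
directions, `κ ∈ [cm, cp]` a function of the state -/
def SymW (w : α → ℝ≥0∞) (step : σ → α → σ) (D : σ → Pos d) (act : σ → Prop) (cm cp p : ℝ) : Prop :=
  ∀ s, act s → ∃ κ : ℝ, cm ≤ κ ∧ κ ≤ cp ∧ ∀ F : Pos d → ℝ≥0∞,
    ∑ a, w a * F (D (step s a)) =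
      ENNReal.ofReal (1 - 2 * d * κ * p) * F (D s) + ∑ e : Dir d, ENNReal.ofReal (κ * p) * F (D s + dv e)

end Machine

/-- the configuration after a letter -/
def stepA {M K : ℕ} (η : Tor d M → ℕ) (a : Let d M K) : Tor d M → ℕ :=
  match toLab a with
  | none => η
  | some l => mv nbT η l

/-- the list of the configurations along a word (length + 1 of them) -/
def path {M K : ℕ} : (Tor d M → ℕ) → List (Let d M K) → List (Tor d M → ℕ)
  | η, [] => [η]
  | η, a :: l => η :: path (stepA η a) l

/-- translation of letters -/
def shL {M K : ℕ} (z : Tor d M) (a : Let d M K) : Let d M K := a.map (fun l => (l.1 + z, l.2))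

/-- markers on the cover of the torus: position `Z` and place `J` in the stack (counted from `0`) -/
def mkr {M : ℕ} (η : Tor d M → ℕ) (P : Pos d × ℕ) (l : Lab (Tor d M) d) : Pos d × ℕ :=
  if l.2.1 < η l.1 ∧ l.1 = tv P.1 then
    (if l.2.1 = P.2 then (P.1 + dv l.2.2, η (l.1 + tv (dv l.2.2)))
     else if l.2.1 < P.2 then (P.1, P.2 - 1) else P)
  else P

/-- the level function on the torus -/
def Lev {M : ℕ} (u : Fin d → ℝ) (z x : Tor d M) : ℝ :=
  ∑ j, u j * (M / (2 * Real.pi)) * Real.sin (2 * Real.pi * ((x j - z j).val : ℝ) / M)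

end ZI
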