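import Pool.Agent.ZI.LK
import Pool.Agent.ZI.CK
import Pool.Agent.ZI.P2b
import Pool.Agent.ZI.P3
import Pool.Agent.ZI.P1

/-! # Row F1b: agreement of the scales -/

set_option autoImplicit false

open scoped ENNReal BigOperators Classical
open MeasureTheory

noncomputable section

namespace ZI.F1b

open ZI

variable {d : ℕ} {m : Model}

/-! ### agreement is an equivalence relation; truncation -/

theorem Agree.refl (N : ℕ) (E : Env d) : Agree N E E :=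
  ⟨fun _ _ _ _ => Iff.rfl, fun _ _ _ _ _ _ _ => Iff.rfl, fun _ _ _ _ _ _ _ => Iff.rfl⟩

theorem Agree.symm {N : ℕ} {E E' : Env d} (h : Agree N E E') : Agree N E' E :=
  ⟨fun t ht x hx => (h.occ t ht x hx).symm, fun G hG s t x y ht => (h.R G hG s t x y ht).symm,
    fun G hG s t x y ht => (h.vis G hG s t x y ht).symm⟩

theorem Agree.trans {N : ℕ} {E E' E'' : Env d} (h : Agree N E E') (h' : Agree N E' E'') :
    Agree N E E'' :=
  ⟨fun t ht x hx => (h.occ t ht x hx).trans (h'.occ t ht x hx),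
    fun G hG s t x y ht => (h.R G hG s t x y ht).trans (h'.R G hG s t x y ht),
    fun G hG s t x y ht => (h.vis G hG s t x y ht).trans (h'.vis G hG s t x y ht)⟩

theorem Agree.mono {N N' : ℕ} (hN : N ≤ N') {E E' : Env d} (h : Agree N' E E') : Agree N E E' :=
  ⟨fun t ht x hx => h.occ t (ht.trans hN) x (hx.trans (by omega)),
    fun G hG s t x y ht => h.R G (fun t => (hG t).trans fun x (hx : supn x ≤ 4 * N) =>
      show supn x ≤ 4 * N' from hx.trans (by omega)) s t x y (ht.trans hN),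
    fun G hG s t x y ht => h.vis G (fun t => (hG t).trans fun x (hx : supn x ≤ 4 * N) =>
      show supn x ≤ 4 * N' from hx.trans (by omega)) s t x y (ht.trans hN)⟩

theorem Agree.of_eqEnv {E E' : Env d} (h : EqEnv E E') (N : ℕ) : Agree N E E' := by
  refine ⟨fun t _ x _ => h.occ t x, fun G _ s t x y _ => ?_, fun G _ s t x y _ => ?_⟩
  · unfold Env.R
    constructor
    · rintro ⟨j, hj, hy⟩
      exact ⟨j, hj, by rw [← h.inf]; exact hy⟩
    · rintro ⟨j, hj, hy⟩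
      exact ⟨j, hj, by rw [h.inf]; exact hy⟩
  · unfold Env.vis
    constructor
    · rintro ⟨j, hj, hy⟩
      exact ⟨j, hj, by rw [← h.vis]; exact hy⟩
    · rintro ⟨j, hj, hy⟩
      exact ⟨j, hj, by rw [h.vis]; exact hy⟩

section trunc

variable {V : Type} (nb : V → Dir d → Option V) (pr : Pos d → V) (η0 : V → ℕ)
  (U U' : ℕ → List (Lab V d)) (N : ℕ) (h : ∀ t < N, U' t = U t)

include h

theorem cfg_trunc : ∀ t ≤ N, cfg nb η0 U' t = cfg nb η0 U t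
  | 0, _ => rfl
  | t + 1, ht => by
      show (U' t).foldl (mv nb) (cfg nb η0 U' t) = (U t).foldl (mv nb) (cfg nb η0 U t)
      rw [h t (by omega), cfg_trunc t (by omega)]

theorem inf_trunc (G : ℕ → Set (Pos d)) (s : ℕ) (A : Set (Pos d)) : ∀ j, s + j ≤ N →
    inf nb pr η0 U' G s A j = inf nb pr η0 U G s A j
  | 0, hj => by
      unfold inf
      rw [cfg_trunc nb η0 U U' N h s (by omega)]
  | j + 1, hj => by
      unfold inf
      rw [h (s + j) (by omega), cfg_trunc nb η0 U U' N h (s + j) (by omega),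
        inf_trunc G s A j (by omega)]

theorem visU_trunc (G : ℕ → Set (Pos d)) (s : ℕ) (A : Set (Pos d)) (j : ℕ) (hj : s + j < N) :
    visU nb pr η0 U' G s A j = visU nb pr η0 U G s A j := by
  unfold visU
  rw [h (s + j) hj, cfg_trunc nb η0 U U' N h (s + j) hj.le,
    inf_trunc nb pr η0 U U' N h G s A j hj.le]

end trunc

theorem Agree.trunc (E : Env d) (U' : ℕ → List (Lab E.V d)) (N : ℕ) (h : ∀ t < N, U' t = E.U t) :
    Agree N { E with U := U' } E := by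
  refine ⟨fun t ht x _ => ?_, fun G _ s t x y ht => ?_, fun G _ s t x y ht => ?_⟩
  · unfold Env.occ
    rw [cfg_trunc E.nb E.η0 E.U U' N h t ht]
  · unfold Env.R
    constructor
    · rintro ⟨j, hj, hy⟩
      refine ⟨j, hj, ?_⟩
      rw [← inf_trunc E.nb E.pr E.η0 E.U U' N h G s {x} j (by omega)]
      exact hy
    · rintro ⟨j, hj, hy⟩
      refine ⟨j, hj, ?_⟩
      show y ∈ inf E.nb E.pr E.η0 U' G s {x} j
      rw [inf_trunc E.nb E.pr E.η0 E.U U' N h G s {x} j (by omega)]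
      exact hy
  · unfold Env.vis
    constructor
    · rintro ⟨j, hj, hy⟩
      refine ⟨j, hj, ?_⟩
      rw [← visU_trunc E.nb E.pr E.η0 E.U U' N h G s {x} j (by omega)]
      exact hy
    · rintro ⟨j, hj, hy⟩
      refine ⟨j, hj, ?_⟩
      show y ∈ visU E.nb E.pr E.η0 U' G s {x} j
      rw [visU_trunc E.nb E.pr E.η0 E.U U' N h G s {x} j (by omega)]
      exact hy

variable {Ω : Type} [MeasurableSpace Ω] {P : Measure Ω}

theorem agree_envC (C : Clocks m d P) (M K T N : ℕ) (hN : N ≤ T) (ω : Ω) :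
    Agree N (envC C M K N ω) (envC C M K T ω) := by
  refine Agree.trunc (envC C M K T ω) _ N fun t ht => ?_
  show (if t < N then (ringList (C.ring ω) (torLab d M K) t (t + 1)).map
    (fun l => ((tv l.1 : Tor d M), l.2)) else []) = if t < T then _ else []
  rw [if_pos ht, if_pos (by omega)]

/-! ### one step: scales `n` and `2 n` -/

/-- the sum of the errors of one step -/
def stepErr (m : Model) (d C1 C2 n : ℕ) (δ : ℝ) : ℝ≥0∞ :=
  (ENNReal.ofReal (C1 * ((n ^ 4 / 4 : ℕ) + 1 : ℝ) ^ C1 *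
      Real.exp (C1 * (n ^ 2 : ℕ) - (n ^ 4 / 4 : ℕ) / 4)) +
    ENNReal.ofReal δ + ((n ^ 4 : ℕ) : ℝ≥0∞) ^ d * tv1 m n) +
  (ENNReal.ofReal (C1 * ((n ^ 4 / 4 : ℕ) + 1 : ℝ) ^ C1 *
      Real.exp (C1 * (n ^ 2 : ℕ) - (n ^ 4 / 4 : ℕ) / 4)) +
    ENNReal.ofReal δ + (((2 * n) ^ 4 : ℕ) : ℝ≥0∞) ^ d * tv1 m (2 * n)) +
  (ENNReal.ofReal ((n ^ 2 : ℕ) * (((2 * n) ^ 4 : ℕ) : ℝ) ^ d * (C2 : ℝ) ^ (n + 1) / n.factorial) +
    ENNReal.ofReal δ + (((2 * n) ^ 4 : ℕ) : ℝ≥0∞) ^ d * tv1 m (2 * n))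

theorem step_agree [IsProbabilityMeasure P] (hd : 0 < d) (C : Clocks m d P) {C1 C2 : ℕ}
    (h1 : ∀ q : Par d m, ∀ R N : ℕ, 2 * R + 2 ≤ q.M → 16 * N + 4 ≤ R →
      q.PP (N * q.N1) (fun η l => ¬ Agree N (envT q η l) (kill R (envT q η l))) ≤
        ENNReal.ofReal (C1 * (R + 1 : ℝ) ^ C1 * Real.exp (C1 * N - R / 4)))
    (h2 : ∀ q : Par d m, ∀ K' T : ℕ, 2 * m.φ ≤ m.g K' →
      q.PP (T * q.N1) (fun η l => ¬ (EqEnv (envT q η l) (capE K' (envT q η l)) ∧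
        ∀ R : ℕ, 2 * R + 2 ≤ q.M → EqEnv (kill R (envT q η l)) (kill R (capE K' (envT q η l))))) ≤
        ENNReal.ofReal (T * (q.M : ℝ) ^ d * (C2 : ℝ) ^ (K' + 1) / K'.factorial))
    (n : ℕ) (hn : 16 ≤ n) (hg : 2 * m.φ ≤ m.g n) (δ : ℝ) (hδ : 0 < δ) :
    P {ω | ¬ Agree (n ^ 2) (envC C (n ^ 4) n (n ^ 2) ω)
      (envC C ((2 * n) ^ 4) (2 * n) ((2 * n) ^ 2) ω)} ≤ stepErr m d C1 C2 n δ := by
  have hg2 : 2 * m.φ ≤ m.g (2 * n) := hg.trans
    (monotone_nat_of_le_succ (fun k => by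
      have := m.inc_lb k
      have := m.Gm_pos
      linarith) (by omega))
  have hn4 : 16 ^ 2 * n ^ 2 ≤ n ^ 4 := by
    calc 16 ^ 2 * n ^ 2 ≤ n ^ 2 * n ^ 2 := by gcongr
      _ = n ^ 4 := by ring
  have hn2 : 256 ≤ n ^ 2 := by nlinarith
  set R : ℕ := n ^ 4 / 4 with hR
  have hR1 : 2 * R + 2 ≤ n ^ 4 := by omega
  have hR2 : 16 * n ^ 2 + 4 ≤ R := by omega
  have h2n : n ^ 4 ≤ (2 * n) ^ 4 := Nat.pow_le_pow_left (by omega) 4
  obtain ⟨qa, qa1, qa2, qa3⟩ := Rows.transfer hd C (n ^ 4) n (n ^ 2) (by omega) (by omega) hg δ hδ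
  obtain ⟨qb, qb1, qb2, qb3⟩ := Rows.transfer hd C ((2 * n) ^ 4) (2 * n) (n ^ 2) (by omega)
    (by omega) hg2 δ hδ
  have ha := (qa3 (fun E => ¬ Agree (n ^ 2) E (kill R E))).trans (add_le_add (add_le_add
    (h1 qa R (n ^ 2) (by rw [qa1]; exact hR1) hR2) le_rfl) le_rfl)
  have hb := (qb3 (fun E => ¬ Agree (n ^ 2) E (kill R E))).trans (add_le_add (add_le_add
    (h1 qb R (n ^ 2) (by rw [qb1]; omega) hR2) le_rfl) le_rfl)
  have hc := (qb3 (fun E => ¬ (EqEnv E (capE n E) ∧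
    ∀ R : ℕ, 2 * R + 2 ≤ qb.M → EqEnv (kill R E) (kill R (capE n E))))).trans (add_le_add (add_le_add
    (h2 qb n (n ^ 2) hg) le_rfl) le_rfl)
  rw [qb1] at hc
  refine (measure_mono ?_).trans ((measure_union_le _ _).trans (add_le_add
    ((measure_union_le _ _).trans (add_le_add ha hb)) hc))
  intro ω hω
  by_contra hcon
  simp only [Set.mem_union, Set.mem_ofPred_eq, not_or, not_not] at hcon
  obtain ⟨⟨e1, e2⟩, e3⟩ := hcon
  refine hω ?_
  have e4 := e3.2 R (by omega)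
  have e5 : kill R (capE n (envC C ((2 * n) ^ 4) (2 * n) (n ^ 2) ω)) =
      kill R (envC C (n ^ 4) n (n ^ 2) ω) := by
    rw [Rows.capE_envC C _ _ _ _ (by omega), Rows.kill_envC C _ _ _ _ (by omega),
      Rows.kill_envC C _ _ _ _ hR1]
  rw [e5] at e4
  exact Agree.trans (Agree.trans (Agree.trans e1 (Agree.symm (Agree.of_eqEnv e4 _)))
    (Agree.symm e2)) (agree_envC C _ _ _ _ (Nat.pow_le_pow_left (by omega) 2) ω)

/-! ### real analysis -/

/-- a polynomial is at most the exponential function -/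
theorem ev_poly (k C : ℕ) : ∀ᶠ n : ℕ in Filter.atTop, (C : ℝ) * (n : ℝ) ^ k ≤ Real.exp n := by
  have h := (Real.isLittleO_pow_exp_atTop (n := k)).bound
    (show (0 : ℝ) < 1 / (C + 1) by positivity)
  have h2 := tendsto_natCast_atTop_atTop (R := ℝ) |>.eventually h
  filter_upwards [h2] with n h3
  rw [Real.norm_of_nonneg (by positivity), Real.norm_of_nonneg (Real.exp_pos _).le] at h3
  calc (C : ℝ) * (n : ℝ) ^ k ≤ (C + 1) * (n : ℝ) ^ k := by gcongr; linarith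
    _ ≤ (C + 1) * (1 / (C + 1) * Real.exp n) := by gcongr
    _ = Real.exp n := by field_simp

theorem ev_ge (B : ℝ) : ∀ᶠ n : ℕ in Filter.atTop, B ≤ n :=
  tendsto_natCast_atTop_atTop (R := ℝ) |>.eventually_ge_atTop B

/-- factorials beat exponentials -/
theorem ev_fact (k C D : ℕ) : ∀ᶠ n : ℕ in Filter.atTop,
    (D : ℝ) * (n : ℝ) ^ k * (C : ℝ) ^ (n + 1) / n.factorial ≤ Real.exp (-(n : ℝ)) := by
  have h1 : Filter.Tendsto (fun n : ℕ => ((C * Real.exp 2 + 1) : ℝ) ^ n / n.factorial)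
      Filter.atTop (nhds 0) := FloorSemiring.tendsto_pow_div_factorial_atTop _
  have h2 := h1.eventually (ge_mem_nhds (show (0 : ℝ) < 1 / (C + 1) by positivity))
  filter_upwards [h2, ev_poly k D] with n h3 h4
  have hf : (0 : ℝ) < n.factorial := by exact_mod_cast n.factorial_pos
  have h5 : ((C * Real.exp 2 + 1) : ℝ) ^ n * (C + 1) ≤ n.factorial := by
    have h6 := h3
    rw [div_le_iff₀ hf] at h6
    calc ((C * Real.exp 2 + 1) : ℝ) ^ n * (C + 1) ≤ (1 / (C + 1) * n.factorial) * (C + 1) := by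
          gcongr
      _ = n.factorial := by field_simp
  rw [div_le_iff₀ hf]
  calc (D : ℝ) * (n : ℝ) ^ k * (C : ℝ) ^ (n + 1)
      ≤ Real.exp n * ((C : ℝ) ^ n * C) := by
        rw [pow_succ]
        gcongr
    _ = Real.exp (-(n : ℝ)) * (((C : ℝ) ^ n * Real.exp (2 * n)) * C) := by
        have : Real.exp n = Real.exp (-(n : ℝ)) * Real.exp (2 * n) := by
          rw [← Real.exp_add]
          congr 1
          ring
        rw [this]
        ring
    _ ≤ Real.exp (-(n : ℝ)) * (((C * Real.exp 2 + 1) : ℝ) ^ n * (C + 1)) := by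
        gcongr
        · have : Real.exp (2 * n) = Real.exp 2 ^ n := by
            rw [← Real.exp_nat_mul]
            congr 1
            ring
          rw [this, ← mul_pow]
          gcongr
          linarith
        · linarith
    _ ≤ Real.exp (-(n : ℝ)) * n.factorial := by gcongr

theorem ev_LK (C1 : ℕ) : ∀ᶠ n : ℕ in Filter.atTop,
    (C1 : ℝ) * ((n ^ 4 / 4 : ℕ) + 1 : ℝ) ^ C1 *
      Real.exp (C1 * (n ^ 2 : ℕ) - (n ^ 4 / 4 : ℕ) / 4) ≤ Real.exp (-(n : ℝ)) := by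
  filter_upwards [ev_poly (4 * C1) (C1 * 2 ^ C1), ev_ge (32 * C1 + 100), ev_ge 1] with n h1 h2 h3
  have hC : (0 : ℝ) ≤ C1 := Nat.cast_nonneg _
  have h4 : ((n ^ 4 / 4 : ℕ) : ℝ) ≤ (n : ℝ) ^ 4 := by
    have : n ^ 4 / 4 ≤ n ^ 4 := Nat.div_le_self _ _
    exact_mod_cast this
  have h5 : (n : ℝ) ^ 4 / 4 - 1 ≤ ((n ^ 4 / 4 : ℕ) : ℝ) := by
    have h6 : n ^ 4 ≤ 4 * (n ^ 4 / 4) + 3 := by omega
    have h7 : ((n ^ 4 : ℕ) : ℝ) ≤ 4 * ((n ^ 4 / 4 : ℕ) : ℝ) + 3 := by exact_mod_cast h6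
    push_cast at h7
    linarith
  have h8 : (1 : ℝ) ≤ (n : ℝ) ^ 4 := one_le_pow₀ h3
  have h9 : (C1 : ℝ) * ((n ^ 4 / 4 : ℕ) + 1 : ℝ) ^ C1 ≤ Real.exp n := by
    refine le_trans ?_ h1
    calc (C1 : ℝ) * ((n ^ 4 / 4 : ℕ) + 1 : ℝ) ^ C1 ≤ C1 * (2 * (n : ℝ) ^ 4) ^ C1 := by
          gcongr
          linarith
      _ = ((C1 * 2 ^ C1 : ℕ) : ℝ) * (n : ℝ) ^ (4 * C1) := by
          rw [mul_pow, ← pow_mul]
          push_cast
          ring
  calc (C1 : ℝ) * ((n ^ 4 / 4 : ℕ) + 1 : ℝ) ^ C1 *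
      Real.exp (C1 * (n ^ 2 : ℕ) - (n ^ 4 / 4 : ℕ) / 4)
      ≤ Real.exp n * Real.exp (C1 * (n ^ 2 : ℕ) - (n ^ 4 / 4 : ℕ) / 4) := by gcongr
    _ = Real.exp (n + (C1 * (n ^ 2 : ℕ) - (n ^ 4 / 4 : ℕ) / 4)) := (Real.exp_add _ _).symm
    _ ≤ Real.exp (-(n : ℝ)) := by
        refine Real.exp_le_exp.mpr ?_
        have h10 : (32 * C1 + 100 : ℝ) * (n : ℝ) ^ 2 ≤ (n : ℝ) ^ 4 := by
          calc (32 * C1 + 100 : ℝ) * (n : ℝ) ^ 2 ≤ n * (n : ℝ) ^ 2 := by gcongr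
            _ = (n : ℝ) ^ 3 := by ring
            _ ≤ (n : ℝ) ^ 4 := pow_le_pow_right₀ h3 (by norm_num)
        have h11 : (n : ℝ) ≤ (n : ℝ) ^ 2 := by nlinarith
        push_cast at h5 ⊢
        nlinarith

theorem ev_g (m : Model) : ∀ᶠ n : ℕ in Filter.atTop, 2 * m.φ ≤ m.g n := by
  have h : ∀ k : ℕ, m.Gm * k ≤ m.g k := fun k => by
    induction k with
    | zero => simp [m.g0]
    | succ k ih =>
      have := m.inc_lb k
      push_cast
      linarith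
  filter_upwards [ev_ge (2 * m.φ / m.Gm)] with n hn
  refine le_trans ?_ (h n)
  rw [div_le_iff₀ m.Gm_pos] at hn
  linarith

theorem ev_step (m : Model) (d C1 C2 : ℕ) (h3 : ∃ C : ℕ, ∀ K : ℕ, 1 ≤ K → 2 * m.φ ≤ m.g K →
    tv1 m K ≤ ENNReal.ofReal ((C : ℝ) ^ (K + 1) / K.factorial)) :
    ∀ᶠ n : ℕ in Filter.atTop, stepErr m d C1 C2 n (Real.exp (-(n : ℝ))) ≤
      ENNReal.ofReal (9 * Real.exp (-(n : ℝ))) := by
  obtain ⟨C3, h3⟩ := h3
  have h2n : Filter.Tendsto (fun n : ℕ => 2 * n) Filter.atTop Filter.atTop :=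
    Filter.tendsto_atTop_mono (fun n => show n ≤ 2 * n by omega) Filter.tendsto_id
  filter_upwards [ev_LK C1, ev_fact (4 * d) C3 1, h2n.eventually (ev_fact (4 * d) C3 1),
    ev_fact (2 + 4 * d) C2 (2 ^ (4 * d)), ev_g m, h2n.eventually (ev_g m),
    Filter.eventually_ge_atTop 1] with n a1 a2 a3 a4 a5 a6 a7
  have e1 : ENNReal.ofReal (C1 * ((n ^ 4 / 4 : ℕ) + 1 : ℝ) ^ C1 *
      Real.exp (C1 * (n ^ 2 : ℕ) - (n ^ 4 / 4 : ℕ) / 4)) ≤ ENNReal.ofReal (Real.exp (-(n : ℝ))) :=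
    ENNReal.ofReal_le_ofReal a1
  have key : ∀ k : ℕ, 1 ≤ k → 2 * m.φ ≤ m.g k →
      (1 : ℕ) * (k : ℝ) ^ (4 * d) * (C3 : ℝ) ^ (k + 1) / k.factorial ≤ Real.exp (-(k : ℝ)) →
      ((k ^ 4 : ℕ) : ℝ≥0∞) ^ d * tv1 m k ≤ ENNReal.ofReal (Real.exp (-(k : ℝ))) := by
    intro k hk1 hk2 hk3
    calc ((k ^ 4 : ℕ) : ℝ≥0∞) ^ d * tv1 m k
        ≤ ((k ^ 4 : ℕ) : ℝ≥0∞) ^ d * ENNReal.ofReal ((C3 : ℝ) ^ (k + 1) / k.factorial) := by
          gcongr
          exact h3 k hk1 hk2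
      _ = ENNReal.ofReal (((k ^ 4 : ℕ) : ℝ) ^ d * ((C3 : ℝ) ^ (k + 1) / k.factorial)) := by
          rw [ENNReal.ofReal_mul (by positivity), ENNReal.ofReal_pow (by positivity),
            ENNReal.ofReal_natCast]
      _ ≤ _ := by
          refine ENNReal.ofReal_le_ofReal (le_trans (le_of_eq ?_) hk3)
          rw [pow_mul]
          push_cast
          ring
  have e2 := key n a7 a5 (by exact_mod_cast a2)
  have e3 := key (2 * n) (by omega) a6 (by exact_mod_cast a3)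
  have e3' : (((2 * n) ^ 4 : ℕ) : ℝ≥0∞) ^ d * tv1 m (2 * n) ≤
      ENNReal.ofReal (Real.exp (-(n : ℝ))) := by
    refine e3.trans (ENNReal.ofReal_le_ofReal (Real.exp_le_exp.mpr ?_))
    push_cast
    have : (0 : ℝ) ≤ n := Nat.cast_nonneg _
    linarith
  have e4 : ENNReal.ofReal ((n ^ 2 : ℕ) * (((2 * n) ^ 4 : ℕ) : ℝ) ^ d * (C2 : ℝ) ^ (n + 1) /
      n.factorial) ≤ ENNReal.ofReal (Real.exp (-(n : ℝ))) := by
    refine ENNReal.ofReal_le_ofReal (le_trans (le_of_eq ?_) a4)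
    have h5 : (((2 * n) ^ 4 : ℕ) : ℝ) ^ d = ((2 ^ (4 * d) : ℕ) : ℝ) * (n : ℝ) ^ (4 * d) := by
      push_cast
      rw [← pow_mul, mul_pow]
    rw [h5, pow_add (n : ℝ) 2 (4 * d)]
    push_cast
    ring
  unfold stepErr
  calc _ ≤ (ENNReal.ofReal (Real.exp (-(n : ℝ))) + ENNReal.ofReal (Real.exp (-(n : ℝ))) +
        ENNReal.ofReal (Real.exp (-(n : ℝ)))) +
      (ENNReal.ofReal (Real.exp (-(n : ℝ))) + ENNReal.ofReal (Real.exp (-(n : ℝ))) +
        ENNReal.ofReal (Real.exp (-(n : ℝ)))) +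
      (ENNReal.ofReal (Real.exp (-(n : ℝ))) + ENNReal.ofReal (Real.exp (-(n : ℝ))) +
        ENNReal.ofReal (Real.exp (-(n : ℝ)))) := by
        gcongr
    _ = _ := by
        rw [ENNReal.ofReal_mul (by norm_num)]
        rw [show ENNReal.ofReal 9 = 9 by norm_num]
        ring

/-- sums of the errors -/
theorem sum_err (k : ℕ) : ∀ i : ℕ, ∑ j ∈ Finset.range i, (9 : ℝ) * Real.exp (-((2 : ℝ) ^ (k + j))) ≤
    18 * Real.exp (-((2 : ℝ) ^ k)) * (1 - (1 / 2 : ℝ) ^ i)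
  | 0 => by simp
  | i + 1 => by
      rw [Finset.sum_range_succ]
      have ih := sum_err k i
      have h1 : Real.exp (-((2 : ℝ) ^ (k + i))) ≤ Real.exp (-((2 : ℝ) ^ k)) * (1 / 2 : ℝ) ^ i := by
        have h2 : (2 : ℝ) ^ k + i ≤ (2 : ℝ) ^ (k + i) := by
          have h3 : 2 ^ k + i ≤ 2 ^ (k + i) := by
            have h4 : i + 1 ≤ 2 ^ i := Nat.lt_two_pow_self
            have h5 : 1 ≤ 2 ^ k := Nat.one_le_two_pow
            rw [pow_add]
            nlinarith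
          exact_mod_cast h3
        calc Real.exp (-((2 : ℝ) ^ (k + i))) ≤ Real.exp (-((2 : ℝ) ^ k) + -(i : ℝ)) :=
              Real.exp_le_exp.mpr (by linarith)
          _ = Real.exp (-((2 : ℝ) ^ k)) * Real.exp (-(i : ℝ)) := Real.exp_add _ _
          _ ≤ Real.exp (-((2 : ℝ) ^ k)) * (1 / 2 : ℝ) ^ i := by
              gcongr
              rw [show -(i : ℝ) = i * (-1) by ring, Real.exp_nat_mul]
              gcongr
              have := Real.exp_one_gt_d9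
              rw [Real.exp_neg, one_div]
              gcongr
              linarith
      calc _ ≤ 18 * Real.exp (-((2 : ℝ) ^ k)) * (1 - (1 / 2 : ℝ) ^ i) +
          9 * (Real.exp (-((2 : ℝ) ^ k)) * (1 / 2 : ℝ) ^ i) := by gcongr
        _ = _ := by
            rw [pow_succ]
            ring

theorem err_ge (A k : ℕ) (hk : 3 ≤ k) : ENNReal.ofReal (18 * Real.exp (-((2 : ℝ) ^ k))) ≤
    err (rr A k) := by
  unfold err rr
  refine ENNReal.ofReal_le_ofReal ?_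
  have h1 : Real.sqrt ((2 ^ (k / A) : ℕ) : ℝ) ≤ (2 : ℝ) ^ k / 2 := by
    rw [Real.sqrt_le_left (by positivity)]
    have h2 : ((2 ^ (k / A) : ℕ) : ℝ) ≤ (2 : ℝ) ^ k := by
      push_cast
      exact pow_le_pow_right₀ (by norm_num) (Nat.div_le_self _ _)
    have h3 : (8 : ℝ) ≤ (2 : ℝ) ^ k := by
      calc (8 : ℝ) = 2 ^ 3 := by norm_num
        _ ≤ 2 ^ k := pow_le_pow_right₀ (by norm_num) hk
    nlinarith
  have h3 : (8 : ℝ) ≤ (2 : ℝ) ^ k := by
    calc (8 : ℝ) = 2 ^ 3 := by norm_num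
      _ ≤ 2 ^ k := pow_le_pow_right₀ (by norm_num) hk
  have h4 : (18 : ℝ) ≤ Real.exp 3 := by
    have h5 := Real.exp_one_gt_d9
    have h6 : Real.exp 3 = Real.exp 1 ^ 3 := by
      rw [← Real.exp_nat_mul]
      norm_num
    rw [h6]
    have h7 : (2.7 : ℝ) ^ 3 ≤ Real.exp 1 ^ 3 := pow_le_pow_left₀ (by norm_num) (by linarith) 3
    norm_num at h7 ⊢
    linarith
  calc 18 * Real.exp (-((2 : ℝ) ^ k)) ≤ Real.exp 3 * Real.exp (-((2 : ℝ) ^ k)) := by gcongr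
    _ = Real.exp (3 + -((2 : ℝ) ^ k)) := (Real.exp_add _ _).symm
    _ ≤ _ := Real.exp_le_exp.mpr (by linarith)

end ZI.F1b

namespace ZI.Rows

open ZI F1b

variable {d : ℕ} {m : Model} {Ω : Type} [MeasurableSpace Ω] {P : Measure Ω}

theorem sys_agree [IsProbabilityMeasure P] (hd : 0 < d) (C : Clocks m d P) (A : ℕ) (hA : 1 ≤ A) :
    ∃ k0 : ℕ, ∀ k ≥ k0, ∀ k' ≥ k,
    P {ω | ¬ Agree ((2 ^ k) ^ 2) (EK C k ω) (EK C k' ω)} ≤ err (rr A k) := by
  obtain ⟨C1, h1⟩ := killed_agree m d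
  obtain ⟨C2, h2⟩ := cap_agree m d
  obtain ⟨n0, hn0⟩ := Filter.eventually_atTop.mp
    (((ev_step m d C1 C2 (tv1_le m)).and (ev_g m)).and (Filter.eventually_ge_atTop 16))
  refine ⟨max n0 3, fun k hk k' hk' => ?_⟩
  have hk0 : n0 ≤ k := (le_max_left _ _).trans hk
  have hk3 : 3 ≤ k := (le_max_right _ _).trans hk
  have hstep : ∀ j ≥ k, P {ω | ¬ Agree ((2 ^ j) ^ 2) (EK C j ω) (EK C (j + 1) ω)} ≤
      ENNReal.ofReal (9 * Real.exp (-((2 : ℝ) ^ j))) := by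
    intro j hj
    have hj2 : n0 ≤ 2 ^ j := (hk0.trans hj).trans Nat.lt_two_pow_self.le
    obtain ⟨⟨h3, h4⟩, h5⟩ := hn0 (2 ^ j) hj2
    have h6 := step_agree hd C h1 h2 (2 ^ j) h5 h4 (Real.exp (-((2 ^ j : ℕ) : ℝ))) (Real.exp_pos _)
    have h7 : (2 * 2 ^ j) = 2 ^ (j + 1) := by ring
    rw [h7] at h6
    refine (h6.trans h3).trans (le_of_eq ?_)
    push_cast
    rfl
  have hall : ∀ i : ℕ, P {ω | ¬ Agree ((2 ^ k) ^ 2) (EK C k ω) (EK C (k + i) ω)} ≤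
      ENNReal.ofReal (∑ j ∈ Finset.range i, (9 : ℝ) * Real.exp (-((2 : ℝ) ^ (k + j)))) := by
    intro i
    induction i with
    | zero =>
      have : {ω | ¬ Agree ((2 ^ k) ^ 2) (EK C k ω) (EK C (k + 0) ω)} = ∅ := by
        ext ω
        simp [Agree.refl]
      rw [this]
      simp
    | succ i ih =>
      rw [Finset.sum_range_succ, ENNReal.ofReal_add
        (Finset.sum_nonneg fun j _ => by positivity) (by positivity)]
      refine (measure_mono ?_).trans ((measure_union_le _ _).trans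
        (add_le_add ih (hstep (k + i) (by omega))))
      intro ω hω
      by_contra hcon
      simp only [Set.mem_union, Set.mem_ofPred_eq, not_or, not_not] at hcon
      refine hω (Agree.trans hcon.1 (Agree.mono ?_ hcon.2))
      gcongr
      · norm_num
      · omega
  obtain ⟨i, rfl⟩ : ∃ i, k' = k + i := ⟨k' - k, by omega⟩
  refine (hall i).trans (le_trans (ENNReal.ofReal_le_ofReal ?_) (err_ge A k hk3))
  refine (sum_err k i).trans ?_
  have h8 : (0 : ℝ) ≤ (1 / 2 : ℝ) ^ i := by positivity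
  have h9 := Real.exp_pos (-((2 : ℝ) ^ k))
  nlinarith

end ZI.Rows
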