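import Pool.Agent.ZI.B0
import Pool.Agent.ZI.E6b
import Pool.Agent.ZI.F1a
import Pool.Agent.ZI.F1b
import Pool.Agent.ZI.F1c

/-! # The abstract system of the clocks -/

set_option autoImplicit false

open scoped ENNReal BigOperators Classical Pointwise
open MeasureTheory

noncomputable section

namespace ZI.Rows

open ZI

variable {d : ℕ} {m : Model}

theorem rr_ge (A k r0 : ℕ) (hk : A * r0 ≤ k) (hA : 0 < A) : r0 ≤ rr A k := by
  unfold rr
  have h1 : r0 ≤ k / A := by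
    rw [Nat.le_div_iff_mul_le hA, Nat.mul_comm]
    exact hk
  exact h1.trans (Nat.lt_two_pow_self).le

theorem rr_pow_le' (A k : ℕ) : rr A k ^ A ≤ 2 ^ k := by
  unfold rr
  rw [← pow_mul]
  exact Nat.pow_le_pow_right (by norm_num) (Nat.div_mul_le_self k A)

theorem le_rr_pow (A k : ℕ) (hA : 0 < A) : 2 ^ k ≤ (2 * rr A k) ^ A := by
  unfold rr
  rw [← pow_succ', ← pow_mul]
  refine Nat.pow_le_pow_right (by norm_num) ?_
  exact (Nat.lt_div_mul_add hA (a := k)).le.trans (by ring_nf; rfl)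

theorem sys_of_clocks {Ω : Type} [MeasurableSpace Ω] {P : Measure Ω} [IsProbabilityMeasure P]
    (hd : 0 < d) (C : Clocks m d P) :
    ∃ S : Sys d P, (∀ ω t, S.I ω t = Iset C ω t) ∧ ∀ ω, (ω ∈ S.S0 ↔ 0 < C.η0 ω 0) := by
  obtain ⟨Cv, a, A, r0, c, hB⟩ := base_exists m d hd
  have hA1 : 1 ≤ A := by
    have h1 := hB.A_big
    have h2 := hB.a_big
    omega
  obtain ⟨k1, h1⟩ := sys_good C hB
  obtain ⟨k2, h2⟩ := sys_chain_of C hB (block_chain hB)
  obtain ⟨k3, h3⟩ := sys_shift hd C A hA1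
  obtain ⟨k4, h4⟩ := sys_agree hd C A hA1
  obtain ⟨k5, h5⟩ := sys_link hd C A hA1
  let k0 : ℕ := k1 + k2 + k3 + k4 + k5 + A * r0
  have hocc : ∀ k ω, (EK C k ω).occ 0 0 ↔ 0 < C.η0 ω 0 := by
    intro k ω
    have h0 : (lft (tv (0 : Pos d) : Tor d ((2 ^ k) ^ 4))) = 0 := by
      funext j
      simp [lft, tv]
    show 0 < C.η0 ω (lft (tv (0 : Pos d) : Tor d ((2 ^ k) ^ 4))) ↔ _
    rw [h0]
  refine ⟨{ d_pos := hd, Cv := Cv, a := a, A := A, k0 := k0, Cv_pos := hB.Cv_pos, a_big := hB.a_big,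
            A_big := hB.A_big, E := EK C, facts := ?_, good := ?_, chain := ?_, tsumQ := ?_, agree := ?_,
            shift := ?_, I := Iset C, S0 := {ω | 0 < C.η0 ω 0}, I_mono := ?_, link := ?_,
            link0 := ?_ }, ?_, ?_⟩
  · intro k hk E hE u hu m' hm1 hm2 z s hs
    have hr : r0 ≤ rr A k := rr_ge A k r0 (by omega) hA1
    exact hB.facts (rr A k) hr (2 ^ k) (rr_pow_le' A k) E hE u hu m' hm1 hm2 z s hs
  · intro k hk
    exact h1 k (by omega)
  · intro k hk u hu ms hms hsum z s hs G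
    exact h2 k (by omega) u hu ms hms hsum z s hs G
  · intro k _ u m'
    exact sys_tsumQ hd C a A k u m'
  · intro k hk k' hk'
    exact h4 k (by omega) k' hk'
  · intro k hk s0 T hT H
    exact h3 k (by omega) s0 T hT H
  · intro ω t t' htt x hx
    obtain ⟨s, hs0, hst, hx⟩ := hx
    exact ⟨s, hs0, hst.trans htt, hx⟩
  · intro k hk
    exact h5 k (by omega)
  · intro k _ ω
    exact (hocc k ω).symm
  · intro ω t
    rfl
  · intro ω
    exact Iff.rfl

end ZI.Rows
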