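import Mathlib

/-! Row R7: convex geometry. -/

set_option autoImplicit false

open scoped BigOperators Pointwise Topology

noncomputable section

namespace ZI

variable {d : ℕ}

/-- the Wulff type set -/
def wulff (v : (Fin d → ℝ) → ℝ) : Set (Fin d → ℝ) :=
  {x | ∀ u : Fin d → ℝ, ∑ j, u j ^ 2 = 1 → ∑ j, u j * x j ≤ v u}

namespace R7

/-- Cauchy-Schwarz. -/
theorem cs (u x : Fin d → ℝ) : |∑ j, u j * x j| ≤ Real.sqrt (∑ j, u j ^ 2) * Real.sqrt (∑ j, x j ^ 2) := by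
  rw [← Real.sqrt_mul (Finset.sum_nonneg (fun j _ => sq_nonneg (u j))), ← Real.sqrt_sq_eq_abs]
  exact Real.sqrt_le_sqrt (Finset.sum_mul_sq_le_sq_mul_sq _ _ _)

theorem dot_le {u x : Fin d → ℝ} {a : ℝ} (ha : 0 ≤ a) (hu : ∑ j, u j ^ 2 = 1)
    (hx : ∑ j, x j ^ 2 ≤ a ^ 2) : |∑ j, u j * x j| ≤ a := by
  refine (cs u x).trans ?_
  rw [hu, Real.sqrt_one, one_mul]
  calc Real.sqrt (∑ j, x j ^ 2) ≤ Real.sqrt (a ^ 2) := Real.sqrt_le_sqrt hx
    _ = a := Real.sqrt_sq ha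

theorem cont_dot (u : Fin d → ℝ) : Continuous (fun x : Fin d → ℝ => ∑ j, u j * x j) := by
  fun_prop

theorem closed_wulff (v : (Fin d → ℝ) → ℝ) : IsClosed (wulff v) := by
  have : wulff v = ⋂ (u : Fin d → ℝ) (_ : ∑ j, u j ^ 2 = 1), {x | ∑ j, u j * x j ≤ v u} := by
    ext x
    simp [wulff]
  rw [this]
  exact isClosed_iInter (fun u => isClosed_iInter (fun _ => isClosed_le (cont_dot u) continuous_const))

theorem convex_wulff (v : (Fin d → ℝ) → ℝ) : Convex ℝ (wulff v) := by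
  intro x hx y hy a b ha hb hab u hu
  have h1 := hx u hu
  have h2 := hy u hu
  have h3 : ∑ j, u j * (a • x + b • y) j = a * (∑ j, u j * x j) + b * (∑ j, u j * y j) := by
    rw [Finset.mul_sum, Finset.mul_sum, ← Finset.sum_add_distrib]
    refine Finset.sum_congr rfl (fun j _ => ?_)
    simp only [Pi.add_apply, Pi.smul_apply, smul_eq_mul]
    ring
  rw [h3]
  calc a * (∑ j, u j * x j) + b * (∑ j, u j * y j) ≤ a * v u + b * v u := by gcongr
    _ = v u := by rw [← add_mul, hab, one_mul]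

/-- Normalisation. -/
theorem exists_unit {x : Fin d → ℝ} (hx : x ≠ 0) :
    ∃ u : Fin d → ℝ, ∑ j, u j ^ 2 = 1 ∧ ∃ r > 0, r ^ 2 = ∑ j, x j ^ 2 ∧ ∀ j, x j = r * u j := by
  have h1 : 0 < ∑ j, x j ^ 2 := by
    obtain ⟨j, hj⟩ := Function.ne_iff.1 hx
    exact Finset.sum_pos' (fun j _ => sq_nonneg _) ⟨j, Finset.mem_univ j, by
      have : x j ≠ 0 := hj
      positivity⟩
  set r := Real.sqrt (∑ j, x j ^ 2) with hr
  have hr0 : 0 < r := Real.sqrt_pos.2 h1
  have hr2 : r ^ 2 = ∑ j, x j ^ 2 := Real.sq_sqrt h1.le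
  refine ⟨fun j => x j / r, ?_, r, hr0, hr2, fun j => by field_simp⟩
  simp only [div_pow]
  rw [← Finset.sum_div, ← hr2, div_self (by positivity)]

theorem wulff_sq_le {v : (Fin d → ℝ) → ℝ} {C : ℝ}
    (hv : ∀ u : Fin d → ℝ, ∑ j, u j ^ 2 = 1 → v u ≤ C) {x : Fin d → ℝ} (hx : x ∈ wulff v) :
    x = 0 ∨ ∑ j, x j ^ 2 ≤ C ^ 2 ∧ 0 ≤ C := by
  by_cases h0 : x = 0
  · exact Or.inl h0
  · right
    obtain ⟨u, hu, r, hr, hr2, hxu⟩ := exists_unit h0
    have h1 := hx u hu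
    have h2 : ∑ j, u j * x j = r := by
      have : ∀ j, u j * x j = r * u j ^ 2 := fun j => by rw [hxu j]; ring
      simp only [this]
      rw [← Finset.mul_sum, hu, mul_one]
    rw [h2] at h1
    have h3 : r ≤ C := h1.trans (hv u hu)
    refine ⟨?_, hr.le.trans h3⟩
    rw [← hr2]
    exact pow_le_pow_left₀ hr.le h3 2

theorem coord_le {x : Fin d → ℝ} {a : ℝ} (ha : 0 ≤ a) (hx : ∑ j, x j ^ 2 ≤ a ^ 2) (j : Fin d) :
    |x j| ≤ a := by
  have h1 : x j ^ 2 ≤ a ^ 2 :=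
    (Finset.single_le_sum (f := fun j => x j ^ 2) (fun j _ => sq_nonneg _) (Finset.mem_univ j)).trans hx
  exact abs_le_of_sq_le_sq h1 ha

theorem ball_subset {v : (Fin d → ℝ) → ℝ} {c : ℝ} (hc : 0 < c)
    (hv : ∀ u : Fin d → ℝ, ∑ j, u j ^ 2 = 1 → c ≤ v u) :
    {x : Fin d → ℝ | ∑ j, x j ^ 2 < c ^ 2} ⊆ interior (wulff v) := by
  refine interior_maximal (fun x hx u hu => ?_) (isOpen_lt (by fun_prop) continuous_const)
  have := dot_le hc.le hu (le_of_lt hx)
  exact (le_abs_self _).trans (this.trans (hv u hu))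

end R7

open R7

theorem wulff_compact (v : (Fin d → ℝ) → ℝ) (c C : ℝ) (hc : 0 < c)
    (hv : ∀ u : Fin d → ℝ, ∑ j, u j ^ 2 = 1 → c ≤ v u ∧ v u ≤ C) :
    IsCompact (wulff v) ∧ Convex ℝ (wulff v) ∧ (interior (wulff v)).Nonempty := by
  refine ⟨?_, convex_wulff v, ⟨0, ball_subset hc (fun u hu => (hv u hu).1) ?_⟩⟩
  · refine Metric.isCompact_of_isClosed_isBounded (closed_wulff v) ?_
    rw [isBounded_iff_forall_norm_le]
    refine ⟨|C|, fun x hx => ?_⟩
    rw [pi_norm_le_iff_of_nonneg (abs_nonneg C)]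
    intro j
    rcases wulff_sq_le (fun u hu => (hv u hu).2) hx with h | ⟨h1, h2⟩
    · rw [h]; simp
    · rw [Real.norm_eq_abs, abs_of_nonneg h2]
      exact coord_le h2 h1 j
  · change ∑ j : Fin d, (0 : Fin d → ℝ) j ^ 2 < c ^ 2
    rw [Finset.sum_eq_zero (fun j _ => by simp)]
    positivity

/-- finitely many directions suffice from outside -/
theorem wulff_outer (v : (Fin d → ℝ) → ℝ) (c C : ℝ) (hc : 0 < c)
    (hv : ∀ u : Fin d → ℝ, ∑ j, u j ^ 2 = 1 → c ≤ v u ∧ v u ≤ C) (ε : ℝ) (hε : 0 < ε) :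
    ∃ 𝒰 : Finset (Fin d → ℝ), (∀ u ∈ 𝒰, ∑ j, u j ^ 2 = 1) ∧ ∃ δ > 0,
      ∀ x : Fin d → ℝ, (∀ u ∈ 𝒰, ∑ j, u j * x j ≤ v u + δ) → x ∈ (1 + ε) • wulff v := by
  classical
  obtain ⟨hcomp, hconv, hne⟩ := wulff_compact v c C hc hv
  have h0int : (0 : Fin d → ℝ) ∈ interior (wulff v) := by
    apply ball_subset hc (fun u hu => (hv u hu).1)
    change ∑ j : Fin d, (0 : Fin d → ℝ) j ^ 2 < c ^ 2
    rw [Finset.sum_eq_zero (fun j _ => by simp)]
    positivity
  have h1ε : (1 : ℝ) < 1 + ε := by linarith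
  have hsub : wulff v ⊆ (1 + ε) • interior (wulff v) := by
    intro x hx
    rw [Set.mem_smul_set_iff_inv_smul_mem₀ (by positivity)]
    have h1 : (1 + ε)⁻¹ • x = (1 - (1 + ε)⁻¹) • (0 : Fin d → ℝ) + (1 + ε)⁻¹ • x := by simp
    rw [h1]
    have h2 : (1 + ε)⁻¹ < 1 := inv_lt_one_of_one_lt₀ h1ε
    exact hconv.combo_interior_closure_mem_interior h0int (subset_closure hx) (by linarith)
      (by positivity) (by ring)
  have hopen : IsOpen ((1 + ε) • interior (wulff v)) :=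
    isOpen_interior.smul₀ (by positivity)
  -- the compact set to be avoided
  set B : Set (Fin d → ℝ) := Metric.closedBall 0 (|C| + 1) with hB
  have hK : IsCompact (B \ (1 + ε) • interior (wulff v)) :=
    (isCompact_closedBall _ _).diff hopen
  have hsep : ∀ x : Fin d → ℝ, x ∉ wulff v → ∃ u : Fin d → ℝ, ∑ j, u j ^ 2 = 1 ∧
      v u < ∑ j, u j * x j := by
    intro x hx
    by_contra hcon
    push Not at hcon
    exact hx hcon
  choose! w hw1 hw2 using hsep
  obtain ⟨t, ht1, ht2⟩ := hK.elim_nhds_subcover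
    (fun x => {y : Fin d → ℝ | v (w x) + (∑ j, w x j * x j - v (w x)) / 2 < ∑ j, w x j * y j})
    (fun x hx => by
      refine (isOpen_lt continuous_const (cont_dot (w x))).mem_nhds ?_
      have h3 : x ∉ wulff v := fun h => hx.2 (hsub h)
      have h4 := hw2 x h3
      change v (w x) + (∑ j, w x j * x j - v (w x)) / 2 < ∑ j, w x j * x j
      linarith)
  set 𝒰 : Finset (Fin d → ℝ) := t.image w ∪ (Finset.univ.image (fun j : Fin d => Pi.single j (1 : ℝ)) ∪
    Finset.univ.image (fun j : Fin d => Pi.single j (-1 : ℝ))) with h𝒰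
  have htw : ∀ x ∈ t, x ∉ wulff v := fun x hx h => (ht1 x hx).2 (hsub h)
  obtain ⟨δ, hδ0, hδ1, hδt⟩ : ∃ δ : ℝ, 0 < δ ∧ δ ≤ 1 ∧
      ∀ x ∈ t, δ ≤ (∑ j, w x j * x j - v (w x)) / 2 := by
    by_cases hte : t.Nonempty
    · obtain ⟨x0, hx0, hmin⟩ := t.exists_min_image (fun x => (∑ j, w x j * x j - v (w x)) / 2) hte
      refine ⟨min 1 ((∑ j, w x0 j * x0 j - v (w x0)) / 2), ?_, min_le_left _ _, fun x hx =>
        (min_le_right _ _).trans (hmin x hx)⟩
      have := hw2 x0 (htw x0 hx0)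
      exact lt_min one_pos (by linarith)
    · exact ⟨1, one_pos, le_rfl, fun x hx => absurd ⟨x, hx⟩ hte⟩
  have hsq : ∀ (j : Fin d) (a : ℝ), a ^ 2 = 1 → ∑ i, (Pi.single j a : Fin d → ℝ) i ^ 2 = 1 := by
    intro j a ha
    rw [Finset.sum_eq_single j]
    · simpa using ha
    · intro i _ hij
      rw [Pi.single_eq_of_ne hij]
      norm_num
    · intro h
      exact absurd (Finset.mem_univ j) h
  have hdot : ∀ (j : Fin d) (a : ℝ) (x : Fin d → ℝ),
      ∑ i, (Pi.single j a : Fin d → ℝ) i * x i = a * x j := by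
    intro j a x
    rw [Finset.sum_eq_single j]
    · simp
    · intro i _ hij
      rw [Pi.single_eq_of_ne hij, zero_mul]
    · intro h
      exact absurd (Finset.mem_univ j) h
  refine ⟨𝒰, fun u hu => ?_, δ, hδ0, fun x hx => ?_⟩
  · rw [h𝒰, Finset.mem_union, Finset.mem_union, Finset.mem_image, Finset.mem_image,
      Finset.mem_image] at hu
    rcases hu with ⟨y, hy, rfl⟩ | ⟨j, -, rfl⟩ | ⟨j, -, rfl⟩
    · exact hw1 y (htw y hy)
    · exact hsq j 1 (by norm_num)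
    · exact hsq j (-1) (by norm_num)
  · have hxB : x ∈ B := by
      rw [hB, mem_closedBall_zero_iff, pi_norm_le_iff_of_nonneg (by positivity)]
      intro j
      have h5 := hx (Pi.single j 1) (by
        rw [h𝒰]
        exact Finset.mem_union_right _ (Finset.mem_union_left _ (Finset.mem_image_of_mem _ (Finset.mem_univ j))))
      have h6 := hx (Pi.single j (-1)) (by
        rw [h𝒰]
        exact Finset.mem_union_right _ (Finset.mem_union_right _ (Finset.mem_image_of_mem _ (Finset.mem_univ j))))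
      rw [hdot] at h5 h6
      have h7 := (hv _ (hsq j 1 (by norm_num))).2
      have h8 := (hv _ (hsq j (-1) (by norm_num))).2
      have h9 := le_abs_self C
      rw [Real.norm_eq_abs, abs_le]
      constructor <;> linarith
    by_contra hcon
    have h10 : x ∈ B \ (1 + ε) • interior (wulff v) :=
      ⟨hxB, fun h => hcon (Set.smul_set_mono interior_subset h)⟩
    have h11 := ht2 h10
    rw [Set.mem_iUnion₂] at h11
    obtain ⟨y, hy, hxy⟩ := h11
    have h12 := hx (w y) (by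
      rw [h𝒰]
      exact Finset.mem_union_left _ (Finset.mem_image_of_mem _ hy))
    have h13 := hδt y hy
    have h14 : v (w y) + (∑ j, w y j * y j - v (w y)) / 2 < ∑ j, w y j * x j := hxy
    linarith

/-- finitely many directions suffice from inside -/
theorem wulff_inner (hd : 0 < d) (v : (Fin d → ℝ) → ℝ) (c C : ℝ) (hc : 0 < c)
    (hv : ∀ u : Fin d → ℝ, ∑ j, u j ^ 2 = 1 → c ≤ v u ∧ v u ≤ C) (ε : ℝ) (hε : 0 < ε)
    (hε1 : ε ≤ 1) :
    ∃ 𝒰 : Finset (Fin d → ℝ), (∀ u ∈ 𝒰, ∑ j, u j ^ 2 = 1) ∧ ∃ δ > 0,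
      ∀ P : (Fin d → ℝ) → (Fin d → ℝ),
        (∀ u ∈ 𝒰, ∑ j, P u j ^ 2 ≤ C ^ 2 ∧ (1 - δ) * v u ≤ ∑ j, u j * P u j) →
        (1 - ε) • wulff v ⊆ convexHull ℝ (P '' (𝒰 : Set (Fin d → ℝ))) := by
  classical
  have hsq : ∑ i, (Pi.single (⟨0, hd⟩ : Fin d) 1 : Fin d → ℝ) i ^ 2 = 1 := by
    rw [Finset.sum_eq_single (⟨0, hd⟩ : Fin d)]
    · simp
    · intro i _ hij
      rw [Pi.single_eq_of_ne hij]
      norm_num
    · intro h
      exact absurd (Finset.mem_univ _) h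
  have hcC : c ≤ C := (hv _ hsq).1.trans (hv _ hsq).2
  have hC : 0 < C := hc.trans_le hcC
  set η : ℝ := ε * c / (4 * C) with hη
  have hη0 : 0 < η := by positivity
  -- the sphere
  have hS : IsCompact {u : Fin d → ℝ | ∑ j, u j ^ 2 = 1} := by
    refine Metric.isCompact_of_isClosed_isBounded (isClosed_eq (by fun_prop) continuous_const) ?_
    rw [isBounded_iff_forall_norm_le]
    refine ⟨1, fun x hx => ?_⟩
    rw [pi_norm_le_iff_of_nonneg zero_le_one]
    intro j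
    rw [Real.norm_eq_abs]
    have hx' : ∑ j, x j ^ 2 = 1 := hx
    exact coord_le zero_le_one (by rw [hx']; norm_num) j
  obtain ⟨t, ht1, ht2⟩ := hS.elim_nhds_subcover
    (fun x => {y : Fin d → ℝ | ∑ j, (y j - x j) ^ 2 < η ^ 2})
    (fun x _ => by
      refine (isOpen_lt (by fun_prop) continuous_const).mem_nhds ?_
      change ∑ j, (x j - x j) ^ 2 < η ^ 2
      rw [Finset.sum_eq_zero (fun j _ => by rw [sub_self]; norm_num)]
      positivity)
  refine ⟨t, ht1, ε / 2, by positivity, fun P hP => ?_⟩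
  intro x hx
  obtain ⟨x', hx', rfl⟩ := hx
  by_contra hcon
  have hclosed : IsClosed (convexHull ℝ (P '' (t : Set (Fin d → ℝ)))) :=
    (t.finite_toSet.image P).isClosed_convexHull ℝ
  obtain ⟨f, a, hf1, hf2⟩ := geometric_hahn_banach_closed_point (convex_convexHull ℝ _) hclosed hcon
  -- the direction
  have hfx : ∀ y : Fin d → ℝ, f y = ∑ j, f (Pi.single j 1) * y j := by
    intro y
    have h1 : y = ∑ j, y j • (Pi.single j (1 : ℝ) : Fin d → ℝ) := by
      ext i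
      rw [Finset.sum_apply, Finset.sum_eq_single i]
      · simp
      · intro j _ hj
        simp [Pi.single_eq_of_ne (Ne.symm hj)]
      · intro h
        exact absurd (Finset.mem_univ i) h
    conv_lhs => rw [h1]
    rw [map_sum]
    refine Finset.sum_congr rfl (fun j _ => ?_)
    rw [map_smul, smul_eq_mul, mul_comm]
  obtain ⟨u0, hu0⟩ : ∃ u0, u0 ∈ t := by
    have h1 := ht2 (show (Pi.single (⟨0, hd⟩ : Fin d) 1 : Fin d → ℝ) ∈ {u : Fin d → ℝ | ∑ j, u j ^ 2 = 1}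
      from hsq)
    rw [Set.mem_iUnion₂] at h1
    obtain ⟨y, hy, -⟩ := h1
    exact ⟨y, hy⟩
  have hmem : ∀ u ∈ t, P u ∈ convexHull ℝ (P '' (t : Set (Fin d → ℝ))) := fun u hu =>
    subset_convexHull ℝ _ ⟨u, Finset.mem_coe.2 hu, rfl⟩
  have hw0 : (fun j => f (Pi.single j 1)) ≠ (0 : Fin d → ℝ) := by
    intro h
    have h1 : ∀ y, f y = 0 := by
      intro y
      rw [hfx y]
      refine Finset.sum_eq_zero (fun j _ => ?_)
      have : f (Pi.single j 1) = 0 := congrFun h j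
      rw [this, zero_mul]
    have h2 := hf1 _ (hmem u0 hu0)
    rw [h1] at h2 hf2
    linarith
  obtain ⟨w, hw, r, hr, -, hwr⟩ := exists_unit hw0
  have hfw : ∀ y : Fin d → ℝ, f y = r * ∑ j, w j * y j := by
    intro y
    rw [hfx y, Finset.mul_sum]
    refine Finset.sum_congr rfl (fun j _ => ?_)
    have : f (Pi.single j 1) = r * w j := hwr j
    rw [this]
    ring
  obtain ⟨u, hu, huw⟩ : ∃ u ∈ t, ∑ j, (w j - u j) ^ 2 < η ^ 2 := by
    have h1 := ht2 (show w ∈ {u : Fin d → ℝ | ∑ j, u j ^ 2 = 1} from hw)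
    rw [Set.mem_iUnion₂] at h1
    obtain ⟨y, hy, hy2⟩ := h1
    exact ⟨y, hy, hy2⟩
  obtain ⟨hP1, hP2⟩ := hP u hu
  have hnear : ∀ y : Fin d → ℝ, ∑ j, y j ^ 2 ≤ C ^ 2 →
      |∑ j, w j * y j - ∑ j, u j * y j| ≤ η * C := by
    intro y hy
    have h1 : ∑ j, w j * y j - ∑ j, u j * y j = ∑ j, (w j - u j) * y j := by
      rw [← Finset.sum_sub_distrib]
      exact Finset.sum_congr rfl (fun j _ => by ring)
    rw [h1]
    refine (cs _ _).trans ?_
    refine mul_le_mul ?_ ?_ (Real.sqrt_nonneg _) hη0.le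
    · rw [← Real.sqrt_sq hη0.le]
      exact Real.sqrt_le_sqrt huw.le
    · rw [← Real.sqrt_sq hC.le]
      exact Real.sqrt_le_sqrt hy
  have hx'C : ∑ j, x' j ^ 2 ≤ C ^ 2 := by
    rcases wulff_sq_le (fun u hu => (hv u hu).2) hx' with h | h
    · rw [h]
      rw [Finset.sum_eq_zero (fun j _ => by simp)]
      positivity
    · exact h.1
  have h1 := hf1 _ (hmem u hu)
  have h2 : f (P u) < f ((1 - ε) • x') := h1.trans hf2
  rw [map_smul, smul_eq_mul, hfw, hfw] at h2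
  have h3 := abs_le.1 (hnear _ hP1)
  have h4 := abs_le.1 (hnear _ hx'C)
  have h5 := hx' u (ht1 u hu)
  have h6 := (hv u (ht1 u hu)).1
  have h7 : ∑ j, w j * P u j < (1 - ε) * ∑ j, w j * x' j := by
    have : r * ∑ j, w j * P u j < r * ((1 - ε) * ∑ j, w j * x' j) := by linarith
    exact lt_of_mul_lt_mul_left this hr.le
  have h8 : (1 - ε) * ∑ j, w j * x' j ≤ (1 - ε) * (v u + η * C) :=
    mul_le_mul_of_nonneg_left (by linarith) (by linarith)
  have h9 : η * C = ε * c / 4 := by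
    rw [hη]
    field_simp
  rw [h9] at h3 h8
  have h10 : (1 - ε) * (v u + ε * c / 4) ≤ (1 - ε) * v u + ε * c / 4 := by
    have : 0 ≤ ε * (ε * c / 4) := by positivity
    linarith
  have h11 : ε * c ≤ ε * v u := mul_le_mul_of_nonneg_left h6 hε.le
  linarith

end ZI
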