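import Pool.Agent.ZI.Sys2
import Pool.Agent.ZI.D0

/-! # S6: following a moving target (Blackwell feedback with blocks) -/

set_option autoImplicit false

open scoped ENNReal BigOperators Classical
open MeasureTheory

noncomputable section

namespace ZI.Rows

open ZI

variable {d : ℕ}


namespace S6

/-! ### Euclidean norm of real vectors -/

/-- Euclidean norm -/
def nr (v : Fin d → ℝ) : ℝ := Real.sqrt (∑ j, v j ^ 2)

theorem nr_eq (v : Fin d → ℝ) : nr v = ‖(WithLp.toLp 2 v : EuclideanSpace ℝ (Fin d))‖ := by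
  rw [nr, EuclideanSpace.norm_eq]
  congr 1
  refine Finset.sum_congr rfl fun j _ => ?_
  simp [sq_abs]

theorem nr_nonneg (v : Fin d → ℝ) : 0 ≤ nr v := Real.sqrt_nonneg _

theorem nr_sq (v : Fin d → ℝ) : nr v ^ 2 = ∑ j, v j ^ 2 :=
  Real.sq_sqrt (Finset.sum_nonneg fun j _ => sq_nonneg _)

theorem nr_add_le (v w : Fin d → ℝ) : nr (v + w) ≤ nr v + nr w := by
  rw [nr_eq, nr_eq, nr_eq, WithLp.toLp_add]
  exact norm_add_le _ _

theorem nr_neg (v : Fin d → ℝ) : nr (-v) = nr v := by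
  simp [nr]

theorem nr_sub_le (v w : Fin d → ℝ) : nr (v - w) ≤ nr v + nr w := by
  rw [sub_eq_add_neg, ← nr_neg w]
  exact nr_add_le _ _

theorem nr_smul (a : ℝ) (v : Fin d → ℝ) : nr (a • v) = |a| * nr v := by
  rw [nr_eq, nr_eq, WithLp.toLp_smul, norm_smul, Real.norm_eq_abs]

theorem dot_le (v w : Fin d → ℝ) : |∑ j, v j * w j| ≤ nr v * nr w := by
  rw [← Real.sqrt_sq_eq_abs, nr, nr, ← Real.sqrt_mul (Finset.sum_nonneg fun _ _ => sq_nonneg _)]
  exact Real.sqrt_le_sqrt (Finset.sum_mul_sq_le_sq_mul_sq _ _ _)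

theorem nr_one {u : Fin d → ℝ} (hu : ∑ j, u j ^ 2 = 1) : nr u = 1 := by
  rw [nr, hu, Real.sqrt_one]

theorem nr_le_card {v : Fin d → ℝ} {c : ℝ} (hc : 0 ≤ c) (h : ∀ j, |v j| ≤ c) : nr v ≤ d * c := by
  have h1 : ∑ j, v j ^ 2 ≤ (d * c) ^ 2 := by
    rcases Nat.eq_zero_or_pos d with hd | hd
    · subst hd
      simp
    have h2 : ∑ j, v j ^ 2 ≤ ∑ _j : Fin d, c ^ 2 :=
      Finset.sum_le_sum fun j _ => sq_le_sq.2 (by rw [abs_of_nonneg hc]; exact h j)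
    rw [Finset.sum_const, Finset.card_univ, Fintype.card_fin, nsmul_eq_mul] at h2
    have h3 : (1 : ℝ) ≤ d := by exact_mod_cast hd
    have h4 : (d : ℝ) * c ^ 2 ≤ (d * c) ^ 2 := by
      have := sq_nonneg c
      nlinarith [mul_nonneg (by linarith : (0 : ℝ) ≤ d - 1) (by positivity : (0 : ℝ) ≤ d * c ^ 2)]
    exact h2.trans h4
  calc nr v ≤ Real.sqrt ((d * c) ^ 2) := Real.sqrt_le_sqrt h1
    _ = d * c := Real.sqrt_sq (by positivity)

theorem abs_le_nr (v : Fin d → ℝ) (j : Fin d) : |v j| ≤ nr v := by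
  rw [← Real.sqrt_sq_eq_abs, nr]
  exact Real.sqrt_le_sqrt (Finset.single_le_sum (f := fun j => v j ^ 2) (fun j _ => sq_nonneg _)
    (Finset.mem_univ j))

/-- a real vector from a position -/
def rv (v : Pos d) : Fin d → ℝ := fun j => (v j : ℝ)

theorem nrm_eq_nr (v : Pos d) : nrm v = nr (rv v) := rfl

theorem rv_add (v w : Pos d) : rv (v + w) = rv v + rv w := by
  funext j; simp [rv]

theorem rv_sub (v w : Pos d) : rv (v - w) = rv v - rv w := by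
  funext j; simp [rv]

theorem nrm_le_supn (v : Pos d) : nrm v ≤ d * supn v := by
  rw [nrm_eq_nr]
  refine nr_le_card (by positivity) fun j => ?_
  have h : (v j).natAbs ≤ supn v := Finset.le_sup (f := fun j => (v j).natAbs) (Finset.mem_univ j)
  have h2 : |(v j : ℝ)| = ((v j).natAbs : ℝ) := by
    rw [Nat.cast_natAbs]
    push_cast
    rfl
  rw [rv, h2]
  exact_mod_cast h

theorem supn_le_of_nrm {v : Pos d} {n : ℕ} (h : nrm v ≤ n) : supn v ≤ n := by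
  refine Finset.sup_le fun j _ => ?_
  have h1 := abs_le_nr (rv v) j
  rw [← nrm_eq_nr] at h1
  have h2 : |(v j : ℝ)| = ((v j).natAbs : ℝ) := by
    rw [Nat.cast_natAbs]
    push_cast
    rfl
  rw [rv, h2] at h1
  exact_mod_cast h1.trans h

/-! ### the shift of the centre -/

theorem v0_err (P : BP) (u : Fin d → ℝ) (j : Fin d) : |rv (v0 P u) j - P.l0 * u j| ≤ 1 := by
  rw [rv, v0, abs_sub_comm]
  exact (abs_sub_round _).trans (by norm_num)

theorem nrm_v0 (P : BP) {u : Fin d → ℝ} (hu : ∑ j, u j ^ 2 = 1) : nrm (v0 P u) ≤ P.l0 + d := by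
  have h : rv (v0 P u) = (P.l0 : ℝ) • u + (fun j => rv (v0 P u) j - P.l0 * u j) := by
    funext j; simp
  rw [nrm_eq_nr, h]
  refine (nr_add_le _ _).trans ?_
  rw [nr_smul, nr_one hu, mul_one, abs_of_nonneg (by positivity)]
  have := nr_le_card (d := d) (v := fun j => rv (v0 P u) j - P.l0 * u j) (c := 1) (by norm_num)
    (fun j => v0_err P u j)
  linarith

theorem lev_v0 (P : BP) {u : Fin d → ℝ} (hu : ∑ j, u j ^ 2 = 1) : -(d : ℝ) ≤ lev u (v0 P u) := by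
  have h : lev u (v0 P u) = P.l0 + ∑ j, u j * (rv (v0 P u) j - P.l0 * u j) := by
    have h1 : lev u (v0 P u) = P.l0 * ∑ j, u j ^ 2 + ∑ j, u j * (rv (v0 P u) j - P.l0 * u j) := by
      rw [Finset.mul_sum, ← Finset.sum_add_distrib, lev]
      refine Finset.sum_congr rfl fun j _ => ?_
      simp only [rv]
      ring
    rw [h1, hu, mul_one]
  have h2 := dot_le u (fun j => rv (v0 P u) j - P.l0 * u j)
  have h3 := nr_le_card (d := d) (v := fun j => rv (v0 P u) j - P.l0 * u j) (c := 1) (by norm_num)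
    (fun j => v0_err P u j)
  rw [nr_one hu, one_mul] at h2
  have h4 := neg_abs_le (∑ j, u j * (rv (v0 P u) j - P.l0 * u j))
  have h5 : (0 : ℝ) ≤ P.l0 := by positivity
  linarith

theorem lev_eq (u : Fin d → ℝ) (v : Pos d) : lev u v = ∑ j, u j * rv v j := rfl

theorem lev_le_nrm {u : Fin d → ℝ} (hu : ∑ j, u j ^ 2 = 1) (v : Pos d) : lev u v ≤ nrm v := by
  have := dot_le u (rv v)
  rw [nr_one hu, one_mul] at this
  rw [lev_eq, nrm_eq_nr]
  exact (le_abs_self _).trans this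

/-! ### the nearest occupied position -/

theorem near_self (E : Env d) {s : ℕ} {x : Pos d} (h : E.occ s x) : E.near s x = x := by
  have hne : {v : Pos d | E.occ s (x + v)}.Nonempty := ⟨0, by simpa using h⟩
  rw [Env.near, dif_pos hne]
  have h0 : (0 : Pos d) ∈ {v : Pos d | E.occ s (x + v)} := by simpa using h
  have h1 := Function.argminOn_le rk _ h0
  have h2 : supn (Function.argminOn rk {v : Pos d | E.occ s (x + v)} hne) ≤ supn (0 : Pos d) := by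
    have := Prod.Lex.le_iff.1 h1
    rcases this with h | h
    · exact le_of_lt h
    · exact le_of_eq h.1
  have h3 : supn (0 : Pos d) = 0 := by simp [supn]
  rw [h3] at h2
  have h4 : Function.argminOn rk {v : Pos d | E.occ s (x + v)} hne = 0 := by
    funext j
    have : ((Function.argminOn rk {v : Pos d | E.occ s (x + v)} hne) j).natAbs ≤ 0 :=
      (Finset.le_sup (f := fun j => ((Function.argminOn rk {v : Pos d | E.occ s (x + v)} hne) j).natAbs)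
        (Finset.mem_univ j)).trans h2
    simpa using this
  rw [h4, add_zero]


/-! ### scales -/

theorem scale_large {a A : ℕ} (hA : 1000 * a ≤ A) (K : ℝ) : ∃ k1 : ℕ, ∀ k ≥ k1, ∀ m : ℕ,
    2 ^ k ≤ m ^ 2 → K * (rr A k : ℝ) ^ (7 * a) ≤ m := by
  obtain ⟨N, hN⟩ := exists_nat_gt K
  refine ⟨4 * N, fun k hk m hm => ?_⟩
  have h1 : (rr A k) ^ (7 * a) = 2 ^ ((k / A) * (7 * a)) := by
    rw [rr, ← pow_mul]
  have h2 : (k / A) * (1000 * a) ≤ k :=
    (Nat.mul_le_mul_left _ hA).trans (Nat.div_mul_le_self k A)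
  have h3 : 2 * (N + (k / A) * (7 * a)) ≤ k := by
    have h5 : (k / A) * (1000 * a) = 1000 * ((k / A) * a) := by ring
    have h6 : (k / A) * (7 * a) = 7 * ((k / A) * a) := by ring
    rw [h5] at h2
    rw [h6]
    omega
  have h4 : (2 ^ (N + (k / A) * (7 * a))) ^ 2 ≤ m ^ 2 := by
    refine le_trans ?_ hm
    rw [← pow_mul]
    exact Nat.pow_le_pow_right (by norm_num) (by omega)
  have h5 : 2 ^ (N + (k / A) * (7 * a)) ≤ m := by
    by_contra h
    push Not at h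
    have := Nat.pow_lt_pow_left h (n := 2) (by norm_num)
    omega
  have h6 : (K : ℝ) ≤ 2 ^ N := by
    refine hN.le.trans ?_
    exact_mod_cast (Nat.lt_two_pow_self (n := N)).le
  have h7 : ((rr A k : ℝ)) ^ (7 * a) = 2 ^ ((k / A) * (7 * a)) := by
    exact_mod_cast h1
  rw [h7]
  calc K * 2 ^ ((k / A) * (7 * a)) ≤ 2 ^ N * 2 ^ ((k / A) * (7 * a)) :=
        mul_le_mul_of_nonneg_right h6 (by positivity)
    _ = 2 ^ (N + (k / A) * (7 * a)) := by rw [pow_add]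
    _ ≤ m := by exact_mod_cast h5

/-! ### one block -/

/-- the position of the centre relative to the moving target -/
def dD (x0 : Pos d) (b0 : Fin d → ℝ) (s0 : ℕ) (z : Pos d) (s : ℕ) : Fin d → ℝ :=
  fun j => (z j : ℝ) - (x0 j : ℝ) - b0 j * ((s : ℝ) - s0)

theorem mem_tube {x0 : Pos d} {b0 : Fin d → ℝ} {s0 : ℕ} {ρ : ℝ} {z : Pos d} {s : ℕ} :
    z ∈ tube (fun j => (x0 j : ℝ)) b0 s0 ρ s ↔ nr (dD x0 b0 s0 z s) ≤ ρ := Iff.rfl

theorem dD_add (x0 : Pos d) (b0 : Fin d → ℝ) (s0 : ℕ) (z v : Pos d) (s h : ℕ) :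
    dD x0 b0 s0 (z + v) (s + h) = dD x0 b0 s0 z s + (rv v - (h : ℝ) • b0) := by
  funext j
  simp only [dD, rv, Pi.add_apply, Pi.sub_apply, Pi.smul_apply, smul_eq_mul]
  push_cast
  ring

/-- restriction to the tube of the infection during one block -/
theorem R_tube (E : Env d) {r κ κ' Cv S Dm : ℕ} (hg : E.Good r κ κ' Cv S Dm) {G : ℕ → Set (Pos d)}
    {x0 : Pos d} {b0 : Fin d → ℝ} {s0 s t : ℕ} {B ρ : ℝ} {x y : Pos d} (hB : nr b0 ≤ B)
    (hR : E.R G s x t y) (hst : s ≤ t) (ht : t ≤ S)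
    (hρ : nr (dD x0 b0 s0 x s) + (Cv + B) * ((t : ℝ) - s) + r ≤ ρ) :
    E.R (tube (fun j => (x0 j : ℝ)) b0 s0 ρ) s x t y := by
  have hB0 : 0 ≤ B := (nr_nonneg _).trans hB
  have hst' : (s : ℝ) ≤ t := by exact_mod_cast hst
  have h0 : 0 ≤ ((Cv : ℝ) + B) * ((t : ℝ) - s) := mul_nonneg (by positivity) (by linarith)
  have hr0 : (0 : ℝ) ≤ r := by positivity
  refine R_mono E (fun _ => Set.inter_subset_right) (R_restrict E hR (G' := tube (fun j => (x0 j : ℝ)) b0 s0 ρ)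
    ?_ ?_)
  · rw [mem_tube]
    linarith
  · intro j hj b hb
    have hv : E.vis (fun _ => Set.univ) s x (s + j + 1) b :=
      vis_mono E (fun _ => Set.subset_univ _) ⟨j, by omega, hb⟩
    have h1 := hg.g4' s (s + j + 1) x b (by omega) (by omega) hv
    rw [mem_tube]
    have h2 : b = x + (b - x) := by abel
    rw [h2, dD_add]
    have h3 : ((s + j + 1 : ℕ) : ℝ) ≤ t := by exact_mod_cast (show s + j + 1 ≤ t by omega)
    push_cast at h1 h3
    have h4 : nr (rv (b - x) - (j : ℝ) • b0) ≤ Cv * ((s : ℝ) + j + 1 - s) + r + j * B := by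
      refine (nr_sub_le _ _).trans ?_
      rw [nr_smul, abs_of_nonneg (by positivity), ← nrm_eq_nr]
      have : (j : ℝ) * nr b0 ≤ j * B := mul_le_mul_of_nonneg_left hB (by positivity)
      linarith
    refine (nr_add_le _ _).trans ?_
    have h5 : (Cv : ℝ) * ((s : ℝ) + j + 1 - s) ≤ Cv * ((t : ℝ) - s) :=
      mul_le_mul_of_nonneg_left (by linarith) (by positivity)
    have h6 : (j : ℝ) * B ≤ ((t : ℝ) - s) * B := mul_le_mul_of_nonneg_right (by linarith) hB0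
    nlinarith

/-- facts on one block -/
structure Step (E : Env d) (u : Fin d → ℝ) (Γu Γm : ℝ) (Cv m : ℕ) (q : ℝ) (z : Pos d) (s : ℕ)
    (h Δ : ℕ) (X v : Pos d) (G : ℕ → Set (Pos d)) : Prop where
  near : nrm (E.near s z - z) ≤ d * q
  R1 : E.R G s (E.near s z) (s + h) (z + X)
  R2 : E.R G s (E.near s z) (s + h + Δ) (E.near (s + h + Δ) (z + X + v))
  h_ub : (h : ℝ) ≤ Γu * m
  h_lb : (m : ℝ) ≤ 2 * Cv * h
  X_nrm : nrm X ≤ Cv * h + 2 * d * q
  X_lev : (m : ℝ) ≤ lev u X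
  v_nrm : nrm v ≤ (32 + d) * q
  v_lev : -(d : ℝ) * q ≤ lev u v
  Δ_ub : (Δ : ℝ) ≤ 66 * q


variable {Ω : Type} [MeasurableSpace Ω] {P : Measure Ω}

theorem rr_pos (A k : ℕ) : 1 ≤ rr A k := Nat.one_le_two_pow

/-- one block, restricted to the tube -/
theorem step (S : Sys d P) {k : ℕ} (hk : S.k0 ≤ k) {E : Env d} (hE : GoodK S.a S.A S.Cv k E)
    {u : Fin d → ℝ} (hu : ∑ j, u j ^ 2 = 1) {Γu Γm : ℝ} {m : ℕ} {q : ℝ}
    (hq : q = (rr S.A k : ℝ) ^ (7 * S.a)) (b1 : 4 * d * q ≤ m) (b2 : 2 * q ≤ m)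
    (b3 : 2 * (Γm + 66) ≤ 2 ^ k) (hm : m ≤ 2 ^ k) {z : Pos d} {s : ℕ} (hs : 2 * s ≤ (2 ^ k) ^ 2)
    (hb : (E.bh (PK d S.a S.A k) u m z s : ℝ) ≤ Γu * m) (hΓ : Γu ≤ Γm) {x0 : Pos d} {b0 : Fin d → ℝ}
    {s0 : ℕ} {B ρ : ℝ} (hB : nr b0 ≤ B)
    (hρ : nr (dD x0 b0 s0 z s) + d * q + (S.Cv + B) * (Γm * m + 66 * q) + q ≤ ρ) :
    ∃ (h Δ : ℕ) (X v : Pos d),
      Step E u Γu Γm S.Cv m q z s h Δ X v (tube (fun j => (x0 j : ℝ)) b0 s0 ρ) := by
  set r := rr S.A k with hr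
  have hr1 : 1 ≤ r := rr_pos _ _
  have hr1' : (1 : ℝ) ≤ r := by exact_mod_cast hr1
  have hq1 : 1 ≤ q := by rw [hq]; exact one_le_pow₀ hr1'
  have ha := S.a_big
  have hrq : (r : ℝ) ≤ q := by
    rw [hq]
    calc (r : ℝ) = (r : ℝ) ^ 1 := (pow_one _).symm
      _ ≤ (r : ℝ) ^ (7 * S.a) := pow_le_pow_right₀ hr1' (by omega)
  have hqn : q = ((r ^ (7 * S.a) : ℕ) : ℝ) := by rw [hq]; push_cast; rfl
  have hm0 : (0 : ℝ) < m := by linarith
  have hmn : (m : ℝ) ≤ 2 ^ k := by exact_mod_cast hm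
  have hB0 : 0 ≤ B := (nr_nonneg _).trans hB
  have f1 : r ^ (7 * S.a) ≤ m := by
    have : ((r ^ (7 * S.a) : ℕ) : ℝ) ≤ m := by rw [← hqn]; linarith
    exact_mod_cast this
  have f2 : m ≤ r * 2 ^ k := hm.trans (Nat.le_mul_of_pos_left _ hr1)
  have f3 : s + r ^ (2 * S.a) * m ≤ (2 ^ k) ^ 2 := by
    have h1 : r ^ (2 * S.a) ≤ r ^ (7 * S.a) := Nat.pow_le_pow_right hr1 (by omega)
    have h2 : 2 * r ^ (7 * S.a) ≤ m := by
      have : ((2 * r ^ (7 * S.a) : ℕ) : ℝ) ≤ m := by push_cast; push_cast at hqn; rw [← hqn]; linarith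
      exact_mod_cast this
    have h3 : 2 * (r ^ (2 * S.a) * m) ≤ (2 ^ k) ^ 2 := by
      calc 2 * (r ^ (2 * S.a) * m) = (2 * r ^ (2 * S.a)) * m := by ring
        _ ≤ (2 ^ k) * 2 ^ k := Nat.mul_le_mul (by omega) hm
        _ = (2 ^ k) ^ 2 := by ring
    omega
  have hf := S.facts k hk E hE u hu m f1 f2 z s f3
  set h := E.bh (PK d S.a S.A k) u m z s with hh
  set X := E.bx (PK d S.a S.A k) u m z s with hX
  have hΔ : ((PK d S.a S.A k).Δ : ℝ) ≤ 66 * q := by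
    have e1 : (PK d S.a S.A k).Δ = (64 * r ^ (3 * S.a) + 2) * r ^ S.a := rfl
    have e2 : (64 * r ^ (3 * S.a) + 2) * r ^ S.a ≤ 66 * r ^ (7 * S.a) := by
      have e3 : r ^ (7 * S.a) = r ^ (3 * S.a) * r ^ (3 * S.a) * r ^ S.a := by
        rw [← pow_add, ← pow_add]; congr 1; ring
      have e4 : 1 ≤ r ^ (3 * S.a) := Nat.one_le_pow _ _ hr1
      rw [e3]
      have e5 : 64 * r ^ (3 * S.a) + 2 ≤ 66 * (r ^ (3 * S.a) * r ^ (3 * S.a)) := by nlinarith
      calc (64 * r ^ (3 * S.a) + 2) * r ^ S.a ≤ 66 * (r ^ (3 * S.a) * r ^ (3 * S.a)) * r ^ S.a :=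
            Nat.mul_le_mul_right _ e5
        _ = _ := by ring
    rw [e1, hqn]
    exact_mod_cast e2
  have hl0 : ((PK d S.a S.A k).l0 : ℝ) ≤ 32 * q := by
    have e1 : (PK d S.a S.A k).l0 = 32 * r ^ (3 * S.a) := rfl
    rw [e1, hqn]
    have e2 : r ^ (3 * S.a) ≤ r ^ (7 * S.a) := Nat.pow_le_pow_right hr1 (by omega)
    exact_mod_cast Nat.mul_le_mul_left 32 e2
  have hd0 : (0 : ℝ) ≤ d := by positivity
  have hxl : (m : ℝ) ≤ lev u X := hf.x_lev
  have hxn : nrm X ≤ S.Cv * h + 2 * d * q := by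
    refine hf.x_nrm.trans ?_
    have : 2 * (d : ℝ) * r ≤ 2 * d * q := mul_le_mul_of_nonneg_left hrq (by positivity)
    linarith
  have hlb : (m : ℝ) ≤ 2 * S.Cv * h := by
    have h1 := lev_le_nrm hu X
    nlinarith
  have hnear : nrm (E.near s z - z) ≤ d * q := by
    refine (nrm_le_supn _).trans ?_
    refine mul_le_mul_of_nonneg_left ?_ hd0
    have : ((supn (E.near s z - z) : ℕ) : ℝ) ≤ r := by exact_mod_cast hf.near_supn
    linarith
  have hD : nr (dD x0 b0 s0 (E.near s z) s) ≤ nr (dD x0 b0 s0 z s) + d * q := by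
    have e1 : dD x0 b0 s0 (E.near s z) s = dD x0 b0 s0 z s + rv (E.near s z - z) := by
      funext j
      simp only [dD, rv, Pi.add_apply, Pi.sub_apply]
      push_cast
      ring
    rw [e1]
    refine (nr_add_le _ _).trans ?_
    rw [← nrm_eq_nr]
    linarith
  have hhm : (h : ℝ) ≤ Γm * m := hb.trans (mul_le_mul_of_nonneg_right hΓ hm0.le)
  have hC0 : 0 ≤ (S.Cv : ℝ) + B := by positivity
  have htot : s + h + (PK d S.a S.A k).Δ ≤ (2 ^ k) ^ 2 := by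
    have e1 : (s : ℝ) ≤ (2 ^ k) ^ 2 / 2 := by
      have : ((2 * s : ℕ) : ℝ) ≤ (((2 ^ k) ^ 2 : ℕ) : ℝ) := by exact_mod_cast hs
      push_cast at this
      linarith
    have e2 : Γm * m + 66 * q ≤ (Γm + 66) * m := by nlinarith
    have hG0 : 0 ≤ Γm := by
      by_contra hc
      push Not at hc
      have : (h : ℝ) < 0 := lt_of_le_of_lt hhm (mul_neg_of_neg_of_pos hc hm0)
      have : (0 : ℝ) ≤ h := by positivity
      linarith
    have e3 : 2 * ((Γm + 66) * m) ≤ (2 : ℝ) ^ k * 2 ^ k := by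
      calc 2 * ((Γm + 66) * m) = (2 * (Γm + 66)) * m := by ring
        _ ≤ (2 : ℝ) ^ k * 2 ^ k := mul_le_mul b3 hmn hm0.le (by positivity)
    have e4 : ((s + h + (PK d S.a S.A k).Δ : ℕ) : ℝ) ≤ (((2 ^ k) ^ 2 : ℕ) : ℝ) := by
      push_cast
      have : (2 : ℝ) ^ k * 2 ^ k = (2 ^ k) ^ 2 := by ring
      linarith
    exact_mod_cast e4
  have hGood : E.Good r (r ^ S.a) (r ^ S.a) S.Cv ((2 ^ k) ^ 2) ((2 ^ k) ^ 2) := hE
  refine ⟨h, (PK d S.a S.A k).Δ, X, v0 (PK d S.a S.A k) u, ⟨hnear, ?_, ?_, hb, hlb, hxn, hxl, ?_, ?_, hΔ⟩⟩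
  · refine R_tube E hGood hB hf.x_mem (by omega) (by omega) ?_
    push_cast
    have e1 : ((S.Cv : ℝ) + B) * ((s : ℝ) + h - s) ≤ (S.Cv + B) * (Γm * m + 66 * q) :=
      mul_le_mul_of_nonneg_left (by linarith) hC0
    linarith
  · refine R_tube E hGood hB hf.next_mem (by omega) (by omega) ?_
    push_cast
    have e1 : ((S.Cv : ℝ) + B) * ((s : ℝ) + h + (PK d S.a S.A k).Δ - s) ≤ (S.Cv + B) * (Γm * m + 66 * q) :=
      mul_le_mul_of_nonneg_left (by linarith) hC0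
    linarith
  · refine (nrm_v0 _ hu).trans ?_
    nlinarith
  · have := lev_v0 (PK d S.a S.A k) hu
    nlinarith

/-- the drift: a block in a direction close to the direction to the target does not increase the distance
in first order -/
theorem drift {D w e u b0 : Fin d → ℝ} {h Δ m q C2 ε δ B Γu c : ℝ} {Xv : Fin d → ℝ}
    (hw : w = Xv - (h + Δ) • b0) (he : D = -(c • e)) (hc : 0 ≤ c)
    (hlev : m - d * q ≤ ∑ j, u j * Xv j) (hub : Γu * ∑ j, u j * b0 j ≤ 1 - ε) (hε : ε < 1)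
    (hh : h ≤ Γu * m) (hh0 : 0 ≤ h) (hm : 0 ≤ m) (hΔ0 : 0 ≤ Δ) (hΔ : Δ ≤ 66 * q) (hB : nr b0 ≤ B)
    (hu : ∑ j, u j ^ 2 = 1)
    (hwn : nr w ≤ C2 * m) (hnet : nr (e - u) ≤ δ) (hδ0 : 0 ≤ δ) (hδ : δ * C2 = ε / 2)
    (b6 : 2 * (66 * B + d) * q ≤ ε * m) :
    nr (D + w) ^ 2 ≤ nr D ^ 2 + (C2 * m) ^ 2 := by
  have h1 : nr (D + w) ^ 2 = nr D ^ 2 + 2 * ∑ j, D j * w j + nr w ^ 2 := by
    rw [nr_sq, nr_sq, nr_sq, Finset.mul_sum, ← Finset.sum_add_distrib, ← Finset.sum_add_distrib]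
    refine Finset.sum_congr rfl fun j _ => ?_
    simp only [Pi.add_apply]
    ring
  have h2 : ∑ j, D j * w j = -(c * (∑ j, u j * w j + ∑ j, (e - u) j * w j)) := by
    rw [← Finset.sum_add_distrib, Finset.mul_sum, ← Finset.sum_neg_distrib]
    refine Finset.sum_congr rfl fun j _ => ?_
    rw [he]
    simp only [Pi.neg_apply, Pi.smul_apply, Pi.sub_apply, smul_eq_mul]
    ring
  have h3 : ∑ j, u j * w j = ∑ j, u j * Xv j - (h + Δ) * ∑ j, u j * b0 j := by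
    rw [Finset.mul_sum, ← Finset.sum_sub_distrib]
    refine Finset.sum_congr rfl fun j _ => ?_
    rw [hw]
    simp only [Pi.smul_apply, Pi.sub_apply, smul_eq_mul]
    ring
  have hub1 : ∑ j, u j * b0 j ≤ B := by
    have := (le_abs_self _).trans (dot_le u b0)
    rw [nr_one hu, one_mul] at this
    linarith
  have h4 : (h + Δ) * ∑ j, u j * b0 j ≤ (1 - ε) * m + 66 * B * q := by
    have hB0 : 0 ≤ B := (nr_nonneg _).trans hB
    by_cases hs : 0 ≤ ∑ j, u j * b0 j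
    · have e1 : h * ∑ j, u j * b0 j ≤ (1 - ε) * m := by
        calc h * ∑ j, u j * b0 j ≤ (Γu * m) * ∑ j, u j * b0 j := mul_le_mul_of_nonneg_right hh hs
          _ = (Γu * ∑ j, u j * b0 j) * m := by ring
          _ ≤ (1 - ε) * m := mul_le_mul_of_nonneg_right hub hm
      have e2 : Δ * ∑ j, u j * b0 j ≤ 66 * q * B := mul_le_mul hΔ hub1 hs (by linarith)
      nlinarith
    · push Not at hs
      have e1 : (h + Δ) * ∑ j, u j * b0 j ≤ 0 := mul_nonpos_of_nonneg_of_nonpos (by linarith) hs.le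
      have e2 : 0 ≤ (1 - ε) * m := mul_nonneg (by linarith) hm
      have e3 : 0 ≤ 66 * B * q := mul_nonneg (by linarith) (by linarith)
      linarith
  have h5 : -(δ * (C2 * m)) ≤ ∑ j, (e - u) j * w j := by
    have e1 := neg_abs_le (∑ j, (e - u) j * w j)
    have e2 := dot_le (e - u) w
    have e3 : nr (e - u) * nr w ≤ δ * (C2 * m) := mul_le_mul hnet hwn (nr_nonneg _) hδ0
    linarith
  have h6 : δ * (C2 * m) = ε / 2 * m := by rw [← mul_assoc, hδ]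
  have h7 : 0 ≤ ∑ j, u j * w j + ∑ j, (e - u) j * w j := by
    rw [h3]
    nlinarith
  have h8 : ∑ j, D j * w j ≤ 0 := by
    rw [h2]
    have := mul_nonneg hc h7
    linarith
  have h9 : nr w ^ 2 ≤ (C2 * m) ^ 2 := pow_le_pow_left₀ (nr_nonneg _) hwn 2
  rw [h1]
  linarith

/-- every vector is a nonpositive multiple of a unit vector -/
theorem exists_dir (hd : 0 < d) (D : Fin d → ℝ) : ∃ e : Fin d → ℝ, ∑ j, e j ^ 2 = 1 ∧
    D = -(nr D • e) := by
  by_cases h : nr D = 0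
  · refine ⟨Pi.single ⟨0, hd⟩ 1, ?_, ?_⟩
    · rw [Finset.sum_eq_single ⟨0, hd⟩]
      · simp
      · intro j _ hj
        simp [Pi.single_eq_of_ne hj]
      · simp
    · rw [h, zero_smul, neg_zero]
      funext j
      have := abs_le_nr D j
      rw [h] at this
      simpa using abs_eq_zero.1 (le_antisymm this (abs_nonneg _))
  · refine ⟨-((nr D)⁻¹ • D), ?_, ?_⟩
    · have h1 : nr (-((nr D)⁻¹ • D)) = 1 := by
        rw [nr_neg, nr_smul, abs_of_nonneg (inv_nonneg.2 (nr_nonneg _)), inv_mul_cancel₀ h]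
      have h2 := nr_sq (-((nr D)⁻¹ • D))
      rw [h1, one_pow] at h2
      exact h2.symm
    · rw [smul_neg, neg_neg, smul_smul, mul_inv_cancel₀ h, one_smul]



/-- the recursion over the blocks -/
theorem follow (S : Sys d P) {k : ℕ} (hk : S.k0 ≤ k) {E : Env d} (hE : GoodK S.a S.A S.Cv k E)
    {𝒰 : Finset (Fin d → ℝ)} {δ : ℝ} (hN : IsNet δ 𝒰) {Γ : (Fin d → ℝ) → ℝ} {Γm ε B C2 C4 q ρ : ℝ}
    (hΓ : ∀ u ∈ 𝒰, 0 < Γ u ∧ Γ u ≤ Γm) (hst : StepP S.a S.A k E 𝒰 Γ) {b0 : Fin d → ℝ} (hB : nr b0 ≤ B)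
    (hub : ∀ u ∈ 𝒰, Γ u * ∑ j, u j * b0 j ≤ 1 - ε) {m : ℕ} (hm1 : 2 ^ k ≤ m ^ 2) (hm : m ≤ 2 ^ k)
    {x0 : Pos d} {s0 s1 : ℕ} (hx0 : supn x0 ≤ rr S.A k * 2 ^ k) (hs1 : s1 ≤ s0 + rr S.A k * 2 ^ k)
    (h2s : 2 * s1 ≤ (2 ^ k) ^ 2) (hΓm : 0 < Γm) (hε : ε < 1) (hδ0 : 0 ≤ δ) (hδ : δ * C2 = ε / 2)
    (hC2 : C2 = (S.Cv + B) * Γm + 1) (hC4 : 0 ≤ C4) (hC42 : C4 ^ 2 = 2 * S.Cv * C2 ^ 2)
    (hq : q = (rr S.A k : ℝ) ^ (7 * S.a)) (b1 : 4 * d * q ≤ m) (b2 : 2 * q ≤ m)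
    (b3 : 2 * (Γm + 66) ≤ 2 ^ k) (b4 : 66 * q ≤ Γm * m) (b5 : (3 * d + 32 + 66 * B) * q ≤ m)
    (b6 : 2 * (66 * B + d) * q ≤ ε * m) (b7 : (d + 1 + 66 * (S.Cv + B)) * q ≤ m)
    (b8 : (1 + B + C4) * q ≤ 2 ^ k)
    (hρ : Real.sqrt (2 * S.Cv * C2 ^ 2 * m * ((s1 : ℝ) - s0)) + C2 * m ≤ ρ) :
    ∀ (n : ℕ) (z : Pos d) (s : ℕ), s0 ≤ s → s ≤ s1 → s1 ≤ s + n →
      E.R (tube (fun j => (x0 j : ℝ)) b0 s0 ρ) s0 x0 s (E.near s z) →
      nr (dD x0 b0 s0 z s) ^ 2 ≤ 2 * S.Cv * C2 ^ 2 * m * ((s : ℝ) - s0) →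
      ∃ (s : ℕ) (x : Pos d), s0 ≤ s ∧ s ≤ s1 ∧ (s1 : ℝ) ≤ s + Γm * m ∧
        E.R (tube (fun j => (x0 j : ℝ)) b0 s0 ρ) s0 x0 s x ∧ x ∈ tube (fun j => (x0 j : ℝ)) b0 s0 ρ s := by
  have hr1 : 1 ≤ rr S.A k := rr_pos _ _
  have hr1' : (1 : ℝ) ≤ rr S.A k := by exact_mod_cast hr1
  have ha := S.a_big
  have hrq : (rr S.A k : ℝ) ≤ q := by
    rw [hq]
    calc (rr S.A k : ℝ) = (rr S.A k : ℝ) ^ 1 := (pow_one _).symm
      _ ≤ (rr S.A k : ℝ) ^ (7 * S.a) := pow_le_pow_right₀ hr1' (by omega)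
  have hq1 : 1 ≤ q := hr1'.trans hrq
  have hm0 : (0 : ℝ) < m := by linarith
  have hmn : (m : ℝ) ≤ 2 ^ k := by exact_mod_cast hm
  have hB0 : 0 ≤ B := (nr_nonneg _).trans hB
  have hd0 : (0 : ℝ) ≤ d := by positivity
  have hCv0 : (0 : ℝ) ≤ S.Cv := by positivity
  have hC20 : 0 < C2 := by rw [hC2]; positivity
  have hs1' : (s1 : ℝ) ≤ s0 + rr S.A k * 2 ^ k := by exact_mod_cast hs1
  -- one step
  have key : ∀ (z : Pos d) (s : ℕ), s0 ≤ s → s ≤ s1 →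
      E.R (tube (fun j => (x0 j : ℝ)) b0 s0 ρ) s0 x0 s (E.near s z) →
      nr (dD x0 b0 s0 z s) ^ 2 ≤ 2 * S.Cv * C2 ^ 2 * m * ((s : ℝ) - s0) →
      (∃ (s : ℕ) (x : Pos d), s0 ≤ s ∧ s ≤ s1 ∧ (s1 : ℝ) ≤ s + Γm * m ∧
        E.R (tube (fun j => (x0 j : ℝ)) b0 s0 ρ) s0 x0 s x ∧ x ∈ tube (fun j => (x0 j : ℝ)) b0 s0 ρ s) ∨
      (∃ (z' : Pos d) (s' : ℕ), s < s' ∧ s' ≤ s1 ∧
        E.R (tube (fun j => (x0 j : ℝ)) b0 s0 ρ) s0 x0 s' (E.near s' z') ∧
        nr (dD x0 b0 s0 z' s') ^ 2 ≤ 2 * S.Cv * C2 ^ 2 * m * ((s' : ℝ) - s0)) := by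
    intro z s h1 h2 hR hD
    have h1' : (s0 : ℝ) ≤ s := by exact_mod_cast h1
    have h2' : (s : ℝ) ≤ s1 := by exact_mod_cast h2
    have hnD : nr (dD x0 b0 s0 z s) ≤ Real.sqrt (2 * S.Cv * C2 ^ 2 * m * ((s1 : ℝ) - s0)) := by
      rw [← Real.sqrt_sq (nr_nonneg (dD x0 b0 s0 z s))]
      exact Real.sqrt_le_sqrt (hD.trans (mul_le_mul_of_nonneg_left (by linarith) (by positivity)))
    have hnD2 : nr (dD x0 b0 s0 z s) ≤ C4 * (rr S.A k * 2 ^ k) := by
      have e1 : (2 * S.Cv * C2 ^ 2 * m * ((s : ℝ) - s0)) ≤ (C4 * (rr S.A k * 2 ^ k)) ^ 2 := by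
        rw [mul_pow, hC42]
        have e2 : (m : ℝ) * ((s : ℝ) - s0) ≤ (rr S.A k * 2 ^ k) ^ 2 := by
          have e3 : (m : ℝ) ≤ rr S.A k * 2 ^ k := by
            have : (2 : ℝ) ^ k ≤ rr S.A k * 2 ^ k := le_mul_of_one_le_left (by positivity) hr1'
            linarith
          rw [sq]
          exact mul_le_mul e3 (by linarith) (by linarith) (by positivity)
        calc (2 * S.Cv * C2 ^ 2 * m * ((s : ℝ) - s0)) = 2 * S.Cv * C2 ^ 2 * (m * ((s : ℝ) - s0)) := by ring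
          _ ≤ 2 * S.Cv * C2 ^ 2 * (rr S.A k * 2 ^ k) ^ 2 := mul_le_mul_of_nonneg_left e2 (by positivity)
      exact abs_le_of_sq_le_sq' (hD.trans e1) (by positivity) |>.2
    have hzs : supn z ≤ (2 ^ k) ^ 2 := by
      have hzj : ∀ j, |(z j : ℝ)| ≤ (2 ^ k) ^ 2 := by
        intro j
        have e1 : (z j : ℝ) = (x0 j : ℝ) + (b0 j * ((s : ℝ) - s0) + dD x0 b0 s0 z s j) := by
          simp only [dD]; ring
        have e2 : |(x0 j : ℝ)| ≤ rr S.A k * 2 ^ k := by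
          have e3 : (x0 j).natAbs ≤ supn x0 :=
            Finset.le_sup (f := fun j => (x0 j).natAbs) (Finset.mem_univ j)
          have e4 : |(x0 j : ℝ)| = ((x0 j).natAbs : ℝ) := by
            rw [Nat.cast_natAbs]; push_cast; rfl
          rw [e4]
          exact_mod_cast e3.trans hx0
        have e5 : |b0 j * ((s : ℝ) - s0)| ≤ B * (rr S.A k * 2 ^ k) := by
          rw [abs_mul, abs_of_nonneg (by linarith : (0 : ℝ) ≤ (s : ℝ) - s0)]
          exact mul_le_mul ((abs_le_nr b0 j).trans hB) (by linarith) (by linarith) hB0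
        have e6 : |dD x0 b0 s0 z s j| ≤ C4 * (rr S.A k * 2 ^ k) := (abs_le_nr _ j).trans hnD2
        have e7 : |(z j : ℝ)| ≤ (1 + B + C4) * rr S.A k * 2 ^ k := by
          rw [e1]
          refine (abs_add_le _ _).trans ?_
          have := abs_add_le (b0 j * ((s : ℝ) - s0)) (dD x0 b0 s0 z s j)
          nlinarith
        have e8 : (1 + B + C4) * rr S.A k ≤ 2 ^ k :=
          (mul_le_mul_of_nonneg_left hrq (by positivity)).trans b8
        calc |(z j : ℝ)| ≤ (1 + B + C4) * rr S.A k * 2 ^ k := e7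
          _ ≤ 2 ^ k * 2 ^ k := mul_le_mul_of_nonneg_right e8 (by positivity)
          _ = (2 ^ k) ^ 2 := by ring
      refine Finset.sup_le fun j _ => ?_
      have e4 : |(z j : ℝ)| = ((z j).natAbs : ℝ) := by
        rw [Nat.cast_natAbs]; push_cast; rfl
      have := hzj j
      rw [e4] at this
      exact_mod_cast this
    obtain ⟨e, he1, he2⟩ := exists_dir S.d_pos (dD x0 b0 s0 z s)
    obtain ⟨u, huU, hue⟩ := hN.2 e he1
    have hu := hN.1 u huU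
    have hnet : nr (e - u) ≤ δ := by
      rw [← Real.sqrt_sq hδ0]
      exact Real.sqrt_le_sqrt hue
    have hb := hst u huU m hm1 hm z s hzs (by omega)
    have hρ1 : nr (dD x0 b0 s0 z s) + C2 * m ≤ ρ := by linarith
    obtain ⟨h, Δ, X, v, H⟩ := step S hk hE hu hq b1 b2 b3 hm (by omega) hb (hΓ u huU).2 (x0 := x0)
      (s0 := s0) (ρ := ρ) hB (by
        refine le_trans ?_ hρ1
        rw [hC2]
        nlinarith)
    have hh0 : (0 : ℝ) ≤ h := by positivity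
    have hΔ0 : (0 : ℝ) ≤ Δ := by positivity
    have hhm : (h : ℝ) ≤ Γm * m := H.h_ub.trans (mul_le_mul_of_nonneg_right (hΓ u huU).2 hm0.le)
    by_cases hA : (s1 : ℝ) ≤ s + Γm * m
    · left
      refine ⟨s, E.near s z, h1, h2, hA, hR, ?_⟩
      rw [mem_tube]
      have e1 : dD x0 b0 s0 (E.near s z) s = dD x0 b0 s0 z s + rv (E.near s z - z) := by
        funext j
        simp only [dD, rv, Pi.add_apply, Pi.sub_apply]
        push_cast
        ring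
      rw [e1]
      refine (nr_add_le _ _).trans ?_
      have e2 := H.near
      rw [nrm_eq_nr] at e2
      have e3 : 0 ≤ (S.Cv + B) * Γm := by positivity
      have e4 : (1 : ℝ) * m ≤ C2 * m := mul_le_mul_of_nonneg_right (by rw [hC2]; linarith) hm0.le
      have e5 : (d : ℝ) * q ≤ 4 * d * q := by nlinarith [mul_nonneg hd0 (by linarith : (0 : ℝ) ≤ q)]
      linarith
    · push Not at hA
      have hlt : s + h < s1 := by
        have : ((s + h : ℕ) : ℝ) < s1 := by push_cast; linarith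
        exact_mod_cast this
      have hh1 : 0 < h := by
        rcases Nat.eq_zero_or_pos h with h0 | h0
        · exfalso
          have := H.h_lb
          rw [h0] at this
          push_cast at this
          linarith
        · exact h0
      by_cases hC : s + h + Δ ≤ s1
      · right
        refine ⟨z + X + v, s + h + Δ, by omega, hC, R_trans E hR H.R2, ?_⟩
        have e1 : dD x0 b0 s0 (z + X + v) (s + h + Δ) =
            dD x0 b0 s0 z s + (rv (X + v) - ((h : ℝ) + Δ) • b0) := by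
          rw [add_assoc z X v, add_assoc s h Δ, dD_add]
          push_cast
          rfl
        have hwn : nr (rv (X + v) - ((h : ℝ) + Δ) • b0) ≤ C2 * m := by
          refine (nr_sub_le _ _).trans ?_
          rw [nr_smul, abs_of_nonneg (by positivity), rv_add]
          have e2 := nr_add_le (rv X) (rv v)
          have e3 := H.X_nrm
          have e4 := H.v_nrm
          rw [nrm_eq_nr] at e3 e4
          have e5 : ((h : ℝ) + Δ) * nr b0 ≤ (Γm * m + 66 * q) * B :=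
            mul_le_mul (by linarith [H.Δ_ub]) hB (nr_nonneg _) (by positivity)
          have e6 : (S.Cv : ℝ) * h ≤ S.Cv * (Γm * m) := mul_le_mul_of_nonneg_left hhm hCv0
          rw [hC2]
          nlinarith
        have hlev : (m : ℝ) - d * q ≤ ∑ j, u j * rv (X + v) j := by
          have e2 : ∑ j, u j * rv (X + v) j = lev u X + lev u v := by
            rw [rv_add, lev_eq, lev_eq, ← Finset.sum_add_distrib]
            refine Finset.sum_congr rfl fun j _ => ?_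
            simp only [Pi.add_apply]
            ring
          rw [e2]
          have := H.X_lev
          have := H.v_lev
          linarith
        have hdr := drift (D := dD x0 b0 s0 z s) rfl he2 (nr_nonneg _) hlev (hub u huU) hε H.h_ub hh0
          hm0.le hΔ0 H.Δ_ub hB hu hwn hnet hδ0 hδ b6
        rw [e1]
        refine hdr.trans ?_
        push_cast
        have e2 : (C2 * m) ^ 2 ≤ 2 * S.Cv * C2 ^ 2 * m * h := by
          calc (C2 * m) ^ 2 = (C2 ^ 2 * m) * m := by ring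
            _ ≤ (C2 ^ 2 * m) * (2 * S.Cv * h) := mul_le_mul_of_nonneg_left H.h_lb (by positivity)
            _ = _ := by ring
        have e3 : 0 ≤ 2 * S.Cv * C2 ^ 2 * m * Δ := by positivity
        nlinarith
      · left
        push Not at hC
        refine ⟨s + h, z + X, by omega, hlt.le, ?_, R_trans E hR H.R1, ?_⟩
        · have e1 : (s1 : ℝ) ≤ ((s + h + Δ : ℕ) : ℝ) := by exact_mod_cast hC.le
          push_cast at e1 ⊢
          linarith [H.Δ_ub]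
        · rw [mem_tube, dD_add]
          refine (nr_add_le _ _).trans ?_
          have e2 := nr_sub_le (rv X) ((h : ℝ) • b0)
          rw [nr_smul, abs_of_nonneg hh0] at e2
          have e3 := H.X_nrm
          rw [nrm_eq_nr] at e3
          have e5 : (h : ℝ) * nr b0 ≤ (Γm * m) * B := mul_le_mul hhm hB (nr_nonneg _) (by positivity)
          have e6 : (S.Cv : ℝ) * h ≤ S.Cv * (Γm * m) := mul_le_mul_of_nonneg_left hhm hCv0
          have e7 : 0 ≤ (d : ℝ) * q := by positivity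
          refine le_trans ?_ hρ1
          rw [hC2]
          nlinarith
  intro n
  induction n with
  | zero =>
    intro z s h1 h2 h3 hR hD
    rcases key z s h1 h2 hR hD with h | ⟨z', s', h4, h5, _⟩
    · exact h
    · omega
  | succ n ih =>
    intro z s h1 h2 h3 hR hD
    rcases key z s h1 h2 hR hD with h | ⟨z', s', h4, h5, h6, h7⟩
    · exact h
    · exact ih z' s' (by omega) h5 (by omega) h6 h7

end S6

open S6 in
/-- following a moving target -/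
theorem moving_target {Ω : Type} [MeasurableSpace Ω] {P : Measure Ω} (S : Sys d P) (Γm ε B : ℝ)
    (hΓ : 0 < Γm) (hε : 0 < ε) (hε1 : ε < 1) (hB : 0 < B) :
    ∃ δ : ℝ, 0 < δ ∧ ∃ C : ℝ, 0 < C ∧ ∃ k1 : ℕ, ∀ k ≥ k1, ∀ E : Env d, GoodK S.a S.A S.Cv k E →
    ∀ 𝒰 : Finset (Fin d → ℝ), IsNet δ 𝒰 → ∀ Γ : (Fin d → ℝ) → ℝ, (∀ u ∈ 𝒰, 0 < Γ u ∧ Γ u ≤ Γm) →
    StepP S.a S.A k E 𝒰 Γ → ∀ b0 : Fin d → ℝ, ∑ j, b0 j ^ 2 ≤ B ^ 2 →
    (∀ u ∈ 𝒰, Γ u * ∑ j, u j * b0 j ≤ 1 - ε) → ∀ m : ℕ, 2 ^ k ≤ m ^ 2 → m ≤ 2 ^ k →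
    ∀ (x0 : Pos d) (s0 s1 : ℕ), E.occ s0 x0 → supn x0 ≤ rr S.A k * 2 ^ k → s0 ≤ s1 →
    s1 ≤ s0 + rr S.A k * 2 ^ k → 2 * s1 ≤ (2 ^ k) ^ 2 → ∀ ρ : ℝ,
    C * m * Real.sqrt (1 + ((s1 : ℝ) - s0) / m) ≤ ρ →
    ∃ (s : ℕ) (x : Pos d), s0 ≤ s ∧ s ≤ s1 ∧ (s1 : ℝ) ≤ s + Γm * m ∧
      E.R (tube (fun j => (x0 j : ℝ)) b0 s0 ρ) s0 x0 s x ∧ x ∈ tube (fun j => (x0 j : ℝ)) b0 s0 ρ s := by
  obtain ⟨C2, hC2⟩ : ∃ C2 : ℝ, C2 = (S.Cv + B) * Γm + 1 := ⟨_, rfl⟩
  have hC20 : 0 < C2 := by rw [hC2]; positivity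
  obtain ⟨C4, hC4⟩ : ∃ C4 : ℝ, C4 = Real.sqrt (2 * S.Cv) * C2 := ⟨_, rfl⟩
  have hC40 : 0 ≤ C4 := by rw [hC4]; positivity
  have hC42 : C4 ^ 2 = 2 * S.Cv * C2 ^ 2 := by
    rw [hC4, mul_pow, Real.sq_sqrt (by positivity)]
  obtain ⟨K, hK⟩ : ∃ K : ℝ, K = 4 * d + 2 + 2 * (Γm + 66) + 66 / Γm + (3 * d + 32 + 66 * B) +
      2 * (66 * B + d) / ε + (d + 1 + 66 * (S.Cv + B)) + (1 + B + C4) := ⟨_, rfl⟩
  obtain ⟨k2, hk2⟩ := scale_large S.A_big K
  refine ⟨ε / (2 * C2), by positivity, C4 + C2, by positivity, max S.k0 k2, ?_⟩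
  intro k hk E hE 𝒰 hN Γ hΓu hst b0 hb0 hub m hm1 hm x0 s0 s1 hocc hx0 hs01 hs1 h2s ρ hρ
  have hKm := hk2 k (le_trans (le_max_right _ _) hk) m hm1
  obtain ⟨q, hq⟩ : ∃ q : ℝ, q = (rr S.A k : ℝ) ^ (7 * S.a) := ⟨_, rfl⟩
  rw [← hq] at hKm
  have hr1' : (1 : ℝ) ≤ rr S.A k := by exact_mod_cast rr_pos S.A k
  have hq1 : 1 ≤ q := by rw [hq]; exact one_le_pow₀ hr1'
  have hd0 : (0 : ℝ) ≤ d := by positivity
  have hCv0 : (0 : ℝ) ≤ S.Cv := by positivity
  have p1 : 0 ≤ 66 / Γm := by positivity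
  have p2 : 0 ≤ 2 * (66 * B + d) / ε := by positivity
  have p3 : (0 : ℝ) ≤ d + 1 + 66 * (S.Cv + B) := by positivity
  have p4 : (0 : ℝ) ≤ 3 * d + 32 + 66 * B := by positivity
  have hKc : ∀ c : ℝ, c ≤ K → c * q ≤ m := fun c hc =>
    (mul_le_mul_of_nonneg_right hc (by linarith)).trans hKm
  have hmn : (m : ℝ) ≤ 2 ^ k := by exact_mod_cast hm
  have b1 : 4 * d * q ≤ m := hKc _ (by rw [hK]; linarith)
  have b2 : 2 * q ≤ m := hKc _ (by rw [hK]; linarith)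
  have hm0 : (0 : ℝ) < m := by linarith
  have b3 : 2 * (Γm + 66) ≤ (2 : ℝ) ^ k := by
    have h1 : 2 * (Γm + 66) * q ≤ m := hKc _ (by rw [hK]; linarith)
    nlinarith
  have b4 : 66 * q ≤ Γm * m := by
    have h1 : 66 / Γm * q ≤ m := hKc _ (by rw [hK]; linarith)
    have h2 : Γm * (66 / Γm * q) = 66 * q := by field_simp
    rw [← h2]
    exact mul_le_mul_of_nonneg_left h1 hΓ.le
  have b5 : (3 * d + 32 + 66 * B) * q ≤ m := hKc _ (by rw [hK]; linarith)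
  have b6 : 2 * (66 * B + d) * q ≤ ε * m := by
    have h1 : 2 * (66 * B + d) / ε * q ≤ m := hKc _ (by rw [hK]; linarith)
    have h2 : ε * (2 * (66 * B + d) / ε * q) = 2 * (66 * B + d) * q := by field_simp
    rw [← h2]
    exact mul_le_mul_of_nonneg_left h1 hε.le
  have b7 : (d + 1 + 66 * (S.Cv + B)) * q ≤ m := hKc _ (by rw [hK]; linarith)
  have b8 : (1 + B + C4) * q ≤ (2 : ℝ) ^ k := (hKc _ (by rw [hK]; linarith)).trans hmn
  have hB' : nr b0 ≤ B := by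
    rw [nr, ← Real.sqrt_sq hB.le]
    exact Real.sqrt_le_sqrt hb0
  have hL : (0 : ℝ) ≤ (s1 : ℝ) - s0 := by
    have : (s0 : ℝ) ≤ s1 := by exact_mod_cast hs01
    linarith
  have hρ' : Real.sqrt (2 * S.Cv * C2 ^ 2 * m * ((s1 : ℝ) - s0)) + C2 * m ≤ ρ := by
    refine le_trans ?_ hρ
    have e1 : Real.sqrt (2 * S.Cv * C2 ^ 2 * m * ((s1 : ℝ) - s0)) = C4 * Real.sqrt (m * ((s1 : ℝ) - s0)) := by
      rw [← hC42, mul_assoc (C4 ^ 2), Real.sqrt_mul (by positivity), Real.sqrt_sq hC40]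
    have e2 : Real.sqrt (m * ((s1 : ℝ) - s0)) ≤ m * Real.sqrt (1 + ((s1 : ℝ) - s0) / m) := by
      have e3 : (m : ℝ) * Real.sqrt (1 + ((s1 : ℝ) - s0) / m) =
          Real.sqrt (m ^ 2 * (1 + ((s1 : ℝ) - s0) / m)) := by
        rw [Real.sqrt_mul (by positivity), Real.sqrt_sq hm0.le]
      rw [e3]
      refine Real.sqrt_le_sqrt ?_
      have e4 : (m : ℝ) ^ 2 * (1 + ((s1 : ℝ) - s0) / m) = m ^ 2 + m * ((s1 : ℝ) - s0) := by
        field_simp
      rw [e4]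
      nlinarith
    have e5 : (1 : ℝ) ≤ Real.sqrt (1 + ((s1 : ℝ) - s0) / m) := by
      rw [show (1 : ℝ) = Real.sqrt 1 by rw [Real.sqrt_one]]
      refine Real.sqrt_le_sqrt ?_
      rw [Real.sqrt_one]
      have := div_nonneg hL hm0.le
      linarith
    rw [e1]
    have e6 : C4 * Real.sqrt (m * ((s1 : ℝ) - s0)) ≤ C4 * (m * Real.sqrt (1 + ((s1 : ℝ) - s0) / m)) :=
      mul_le_mul_of_nonneg_left e2 hC40
    have e7 : C2 * m * 1 ≤ C2 * m * Real.sqrt (1 + ((s1 : ℝ) - s0) / m) :=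
      mul_le_mul_of_nonneg_left e5 (by positivity)
    calc C4 * Real.sqrt (m * ((s1 : ℝ) - s0)) + C2 * m
        ≤ C4 * (m * Real.sqrt (1 + ((s1 : ℝ) - s0) / m)) + C2 * m * Real.sqrt (1 + ((s1 : ℝ) - s0) / m) := by
          linarith
      _ = (C4 + C2) * m * Real.sqrt (1 + ((s1 : ℝ) - s0) / m) := by ring
  have hρ0 : 0 ≤ ρ := le_trans (by positivity) hρ'
  have hz0 : nr (dD x0 b0 s0 x0 s0) = 0 := by
    have : dD x0 b0 s0 x0 s0 = 0 := by
      funext j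
      simp [dD]
    rw [this]
    simp [nr]
  refine follow S (le_trans (le_max_left _ _) hk) hE hN hΓu hst hB' hub hm1 hm hx0 hs1 h2s hΓ hε1
    (by positivity) ?_ hC2 hC40 hC42 hq b1 b2 b3 b4 b5 b6 b7 b8 hρ' s1 x0 s0 le_rfl hs01 (by omega) ?_ ?_
  · field_simp
  · rw [near_self E hocc]
    refine R_self E hocc ?_
    rw [mem_tube, hz0]
    exact hρ0
  · rw [hz0]
    simp

end ZI.Rows
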