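import Pool.Agent.ZI.S6

/-! # S7: reaching a target in linear time (deterministic) -/

set_option autoImplicit false

open scoped ENNReal BigOperators Classical
open MeasureTheory

noncomputable section

namespace ZI.Rows

open ZI

variable {d : ℕ} {Ω : Type} [MeasurableSpace Ω] {P : Measure Ω}

namespace S7

open S6

/-- powers of the density radius are small compared with `n ^ (1 / 4)` -/
theorem scale_pow {a A : ℕ} (hA : 1000 * a ≤ A) (K : ℝ) : ∃ k1 : ℕ, ∀ k ≥ k1,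
    K * ((rr A k : ℝ) ^ (7 * a)) ^ 2 * Real.sqrt (2 ^ k) ≤ ((2 : ℝ) ^ k) ^ (3 / 4 : ℝ) := by
  obtain ⟨N, hN⟩ := exists_nat_gt K
  refine ⟨8 * N, fun k hk => ?_⟩
  have h2 : (k / A) * (1000 * a) ≤ k :=
    (Nat.mul_le_mul_left _ hA).trans (Nat.div_mul_le_self k A)
  have h3 : 4 * (N + (k / A) * (7 * a) * 2) ≤ k := by
    have h5 : (k / A) * (1000 * a) = 1000 * ((k / A) * a) := by ring
    have h6 : (k / A) * (7 * a) * 2 = 14 * ((k / A) * a) := by ring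
    rw [h5] at h2
    rw [h6]
    omega
  have h6 : (K : ℝ) ≤ 2 ^ N := by
    refine hN.le.trans ?_
    exact_mod_cast (Nat.lt_two_pow_self (n := N)).le
  have h7 : ((rr A k : ℝ)) ^ (7 * a) = 2 ^ ((k / A) * (7 * a)) := by
    rw [rr]
    push_cast
    rw [← pow_mul]
  have h8 : K * ((rr A k : ℝ) ^ (7 * a)) ^ 2 ≤ 2 ^ (N + (k / A) * (7 * a) * 2) := by
    rw [h7, ← pow_mul, pow_add]
    exact mul_le_mul_of_nonneg_right h6 (by positivity)
  have h9 : (2 : ℝ) ^ (N + (k / A) * (7 * a) * 2) ≤ ((2 : ℝ) ^ k) ^ (1 / 4 : ℝ) := by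
    have e1 : ((2 : ℝ) ^ (N + (k / A) * (7 * a) * 2)) ^ 4 ≤ 2 ^ k := by
      rw [← pow_mul]
      exact pow_le_pow_right₀ (by norm_num) (by omega)
    have e2 := Real.rpow_le_rpow (by positivity) e1 (by norm_num : (0 : ℝ) ≤ 1 / 4)
    have e3 : (((2 : ℝ) ^ (N + (k / A) * (7 * a) * 2)) ^ 4) ^ (1 / 4 : ℝ) =
        (2 : ℝ) ^ (N + (k / A) * (7 * a) * 2) := by
      have h := Real.pow_rpow_inv_natCast (x := (2 : ℝ) ^ (N + (k / A) * (7 * a) * 2))
        (by positivity) (n := 4) (by norm_num)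
      rw [one_div]
      exact_mod_cast h
    rwa [e3] at e2
  have h10 : ((2 : ℝ) ^ k) ^ (3 / 4 : ℝ) = ((2 : ℝ) ^ k) ^ (1 / 4 : ℝ) * Real.sqrt (2 ^ k) := by
    rw [Real.sqrt_eq_rpow, ← Real.rpow_add (by positivity)]
    norm_num
  rw [h10]
  exact mul_le_mul_of_nonneg_right (h8.trans h9) (Real.sqrt_nonneg _)

/-- one block in a direction close to the direction to the target contracts the distance -/
theorem contract {D X u e : Fin d → ℝ} {m C2 : ℝ} (hC2 : 1 ≤ C2) (he : D = -(nr D • e))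
    (hnet : nr (e - u) ≤ 1 / (2 * C2)) (hX : nr X ≤ C2 * m)
    (hlev : m ≤ ∑ j, u j * X j) (hm : 0 ≤ m) (hm1 : nr D ≤ 4 * C2 ^ 2 * m)
    (hm2 : 2 * C2 ^ 2 * m ≤ nr D) :
    nr (D + X) ≤ (1 - 1 / (16 * C2 ^ 2)) * nr D := by
  have hC20 : 0 < C2 := by linarith
  have hD0 := nr_nonneg D
  have h1 : nr (D + X) ^ 2 = nr D ^ 2 + 2 * ∑ j, D j * X j + nr X ^ 2 := by
    rw [nr_sq, nr_sq, nr_sq, Finset.mul_sum, ← Finset.sum_add_distrib, ← Finset.sum_add_distrib]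
    refine Finset.sum_congr rfl fun j _ => ?_
    simp only [Pi.add_apply]
    ring
  have h2 : ∑ j, D j * X j = -(nr D * (∑ j, u j * X j + ∑ j, (e - u) j * X j)) := by
    rw [← Finset.sum_add_distrib, Finset.mul_sum, ← Finset.sum_neg_distrib]
    refine Finset.sum_congr rfl fun j _ => ?_
    have e1 : D j = -(nr D * e j) := by
      have := congrFun he j
      simpa only [Pi.neg_apply, Pi.smul_apply, smul_eq_mul] using this
    rw [e1]
    simp only [Pi.sub_apply]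
    ring
  have h3 : -(m / 2) ≤ ∑ j, (e - u) j * X j := by
    have e1 := neg_abs_le (∑ j, (e - u) j * X j)
    have e2 := dot_le (e - u) X
    have e3 : nr (e - u) * nr X ≤ 1 / (2 * C2) * (C2 * m) :=
      mul_le_mul hnet hX (nr_nonneg _) (by positivity)
    have e4 : 1 / (2 * C2) * (C2 * m) = m / 2 := by field_simp
    linarith
  have h4 : nr D * (m / 2) ≤ nr D * (∑ j, u j * X j + ∑ j, (e - u) j * X j) :=
    mul_le_mul_of_nonneg_left (by linarith) hD0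
  have h5 : nr X ^ 2 ≤ nr D * m / 2 := by
    have e1 : nr X ^ 2 ≤ (C2 * m) ^ 2 := pow_le_pow_left₀ (nr_nonneg _) hX 2
    have e2 : (C2 * m) ^ 2 = (2 * C2 ^ 2 * m) * m / 2 := by ring
    have e3 : (2 * C2 ^ 2 * m) * m ≤ nr D * m := mul_le_mul_of_nonneg_right hm2 hm
    linarith
  have h6 : nr D ^ 2 / (8 * C2 ^ 2) ≤ nr D * m / 2 := by
    rw [div_le_iff₀ (by positivity)]
    have := mul_le_mul_of_nonneg_left hm1 hD0
    nlinarith
  have h7 : nr (D + X) ^ 2 ≤ ((1 - 1 / (16 * C2 ^ 2)) * nr D) ^ 2 := by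
    have e1 : ((1 - 1 / (16 * C2 ^ 2)) * nr D) ^ 2 =
        nr D ^ 2 - nr D ^ 2 / (8 * C2 ^ 2) + (nr D / (16 * C2 ^ 2)) ^ 2 := by
      field_simp
      ring
    rw [e1, h1, h2]
    have e2 := sq_nonneg (nr D / (16 * C2 ^ 2))
    linarith
  have h8 : 0 ≤ (1 - 1 / (16 * C2 ^ 2)) * nr D := by
    refine mul_nonneg ?_ hD0
    have e1 : 1 / (16 * C2 ^ 2) ≤ 1 := by
      rw [div_le_one (by positivity)]
      nlinarith
    linarith
  exact (abs_le_of_sq_le_sq' h7 h8).2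

theorem nrm_comm (x y : Pos d) : nrm (x - y) = nrm (y - x) := by
  rw [nrm_eq_nr, nrm_eq_nr, ← neg_sub y x]
  have : rv (-(y - x)) = -rv (y - x) := by
    funext j
    simp [rv]
  rw [this, nr_neg]

theorem dD_zero (x y : Pos d) (s : ℕ) : dD y 0 0 x s = rv (x - y) := by
  funext j
  simp [dD, rv]

theorem tube_eq (y : Pos d) (ρ : ℝ) :
    tube (fun j => (y j : ℝ)) (0 : Fin d → ℝ) 0 ρ = fun _ => Ball y ρ := by
  funext t
  ext z
  rw [mem_tube, dD_zero, ← nrm_eq_nr]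
  rfl

/-- the recursion over the blocks: the potential `s + 8 Γm |x - y|` does not increase -/
theorem walk (S : Sys d P) {k : ℕ} (hk : S.k0 ≤ k) {E : Env d} (hE : GoodK S.a S.A S.Cv k E)
    {𝒰 : Finset (Fin d → ℝ)} {C2 : ℝ} (hN : IsNet (1 / (2 * C2)) 𝒰) {Γ : (Fin d → ℝ) → ℝ} {Γm q p : ℝ}
    (hΓ : ∀ u ∈ 𝒰, 0 < Γ u ∧ Γ u ≤ Γm) (hst : StepP S.a S.A k E 𝒰 Γ)
    {x y : Pos d} {s t : ℕ} (hxs : supn x ≤ rr S.A k * 2 ^ k)
    (hD0 : nrm (x - y) ≤ 2 ^ k) (ht : (s : ℝ) + 8 * Γm * nrm (x - y) + p ≤ t)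
    (h2t : 2 * t ≤ (2 ^ k) ^ 2) (hΓm : 0 < Γm) (hC2 : C2 = S.Cv * Γm + 1)
    (hq : q = (rr S.A k : ℝ) ^ (7 * S.a))
    (hb1 : ∀ m : ℕ, 2 ^ k ≤ m ^ 2 → 4 * d * q ≤ m) (hb2 : ∀ m : ℕ, 2 ^ k ≤ m ^ 2 → 2 * q ≤ m)
    (b3 : 2 * (Γm + 66) ≤ 2 ^ k) (b5 : (d + 66 * S.Cv + 1) * q ≤ p) (b6 : rr S.A k + 2 ≤ 2 ^ k) :
    ∀ (n : ℕ) (x' : Pos d) (s' : ℕ), t ≤ s' + n →
      E.R (fun _ => Ball y (2 * nrm (x - y) + p)) s x s' x' →
      (s' : ℝ) + 8 * Γm * nrm (x' - y) ≤ s + 8 * Γm * nrm (x - y) → nrm (x' - y) ≤ nrm (x - y) →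
      ∃ (s'' : ℕ) (x'' : Pos d), E.R (fun _ => Ball y (2 * nrm (x - y) + p)) s x s'' x'' ∧
        (s'' : ℝ) + 8 * Γm * nrm (x'' - y) ≤ s + 8 * Γm * nrm (x - y) ∧
        nrm (x'' - y) ≤ nrm (x - y) ∧
        nrm (x'' - y) ≤ 4 * C2 ^ 2 * (Real.sqrt (2 ^ k) + 1) := by
  have hr1' : (1 : ℝ) ≤ rr S.A k := by exact_mod_cast rr_pos S.A k
  have hq1 : 1 ≤ q := by rw [hq]; exact one_le_pow₀ hr1'
  have hd0 : (0 : ℝ) ≤ d := by positivity
  have hCv0 : (0 : ℝ) ≤ S.Cv := by positivity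
  have hCG : 0 ≤ S.Cv * Γm := by positivity
  have hC21 : 1 ≤ C2 := by rw [hC2]; linarith
  have hC20 : 0 < C2 := by linarith
  have hC22 : C2 ≤ C2 ^ 2 := by nlinarith
  have hp0 : 0 ≤ p := le_trans (by positivity) b5
  have hD00 : 0 ≤ nrm (x - y) := Real.sqrt_nonneg _
  intro n
  induction n with
  | zero =>
    intro x' s' h1 hR h2 h3
    by_cases hsm : nrm (x' - y) ≤ 4 * C2 ^ 2 * (Real.sqrt (2 ^ k) + 1)
    · exact ⟨s', x', hR, h2, h3, hsm⟩
    · exfalso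
      push Not at hsm
      have e1 : (0 : ℝ) < 4 * C2 ^ 2 * (Real.sqrt (2 ^ k) + 1) := by positivity
      have e2 : (t : ℝ) ≤ s' := by exact_mod_cast (by omega : t ≤ s')
      have e3 : 0 < 8 * Γm * nrm (x' - y) := mul_pos (by linarith) (by linarith)
      linarith
  | succ n ih =>
    intro x' s' h1 hR h2 h3
    by_cases hsm : nrm (x' - y) ≤ 4 * C2 ^ 2 * (Real.sqrt (2 ^ k) + 1)
    · exact ⟨s', x', hR, h2, h3, hsm⟩
    push Not at hsm
    obtain ⟨D, hD⟩ : ∃ D : ℝ, D = nrm (x' - y) := ⟨_, rfl⟩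
    rw [← hD] at h2 h3 hsm
    have hsq : (1 : ℝ) ≤ Real.sqrt (2 ^ k) := Real.one_le_sqrt.2 (one_le_pow₀ (by norm_num))
    have hDpos : 0 < D := lt_trans (by positivity) hsm
    obtain ⟨m, hm⟩ : ∃ m : ℕ, m = ⌊D / (2 * C2 ^ 2)⌋₊ := ⟨_, rfl⟩
    have hm2 : (m : ℝ) ≤ D / (2 * C2 ^ 2) := by rw [hm]; exact Nat.floor_le (by positivity)
    have hm3 : D / (2 * C2 ^ 2) < m + 1 := by rw [hm]; exact Nat.lt_floor_add_one _
    have hbig : 2 * (Real.sqrt (2 ^ k) + 1) < D / (2 * C2 ^ 2) := by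
      rw [lt_div_iff₀ (by positivity)]
      linarith
    have hm4 : Real.sqrt (2 ^ k) ≤ m := by linarith
    have hm5 : 2 ^ k ≤ m ^ 2 := by
      have e1 : Real.sqrt (2 ^ k) ^ 2 ≤ (m : ℝ) ^ 2 := pow_le_pow_left₀ (Real.sqrt_nonneg _) hm4 2
      rw [Real.sq_sqrt (by positivity)] at e1
      exact_mod_cast e1
    have hm6 : D ≤ 4 * C2 ^ 2 * m := by
      have e1 : D / (2 * C2 ^ 2) ≤ 2 * m := by linarith
      rw [div_le_iff₀ (by positivity)] at e1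
      linarith
    have hm7 : 2 * C2 ^ 2 * m ≤ D := by
      rw [le_div_iff₀ (by positivity)] at hm2
      linarith
    have hm8 : m ≤ 2 ^ k := by
      have e1 : (m : ℝ) ≤ 2 ^ k := by
        have e2 : (m : ℝ) * 1 ≤ m * (2 * C2 ^ 2) :=
          mul_le_mul_of_nonneg_left (by nlinarith) (by positivity)
        linarith
      exact_mod_cast e1
    have hm0 : (0 : ℝ) < m := by linarith
    have b1 := hb1 m hm5
    have b2 := hb2 m hm5
    have hs't : s' ≤ t := by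
      have : (s' : ℝ) ≤ t := by
        have : 0 ≤ 8 * Γm * D := by positivity
        linarith
      exact_mod_cast this
    have hocc : E.occ s' x' := R_occ E hR
    -- the size of `x'`
    have hzs : supn x' ≤ (2 ^ k) ^ 2 := by
      refine Finset.sup_le fun j _ => ?_
      have e3 : (x j).natAbs ≤ supn x := Finset.le_sup (f := fun j => (x j).natAbs) (Finset.mem_univ j)
      have e4 : |(x j : ℝ)| ≤ rr S.A k * 2 ^ k := by
        have e5 : |(x j : ℝ)| = ((x j).natAbs : ℝ) := by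
          rw [Nat.cast_natAbs]; push_cast; rfl
        rw [e5]
        exact_mod_cast e3.trans hxs
      have e6 : |rv (x - y) j| ≤ 2 ^ k := (abs_le_nr _ j).trans (by rw [← nrm_eq_nr]; exact hD0)
      have e7 : |rv (x' - y) j| ≤ 2 ^ k :=
        (abs_le_nr _ j).trans (by rw [← nrm_eq_nr, ← hD]; linarith)
      have e8 : (x' j : ℝ) = x j - rv (x - y) j + rv (x' - y) j := by
        simp [rv]
      have e9 : |(x' j : ℝ)| ≤ (rr S.A k + 2) * 2 ^ k := by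
        rw [e8]
        rw [abs_le] at e4 e6 e7 ⊢
        constructor <;> nlinarith [e4.1, e4.2, e6.1, e6.2, e7.1, e7.2]
      have e10 : ((rr S.A k : ℝ) + 2) * 2 ^ k ≤ 2 ^ k * 2 ^ k :=
        mul_le_mul_of_nonneg_right (by exact_mod_cast b6) (by positivity)
      have e11 : |(x' j : ℝ)| = ((x' j).natAbs : ℝ) := by
        rw [Nat.cast_natAbs]; push_cast; rfl
      rw [e11] at e9
      have e12 : ((x' j).natAbs : ℝ) ≤ (2 ^ k) ^ 2 := by
        rw [sq]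
        exact e9.trans e10
      exact_mod_cast e12
    obtain ⟨e, he1, he2⟩ := exists_dir S.d_pos (rv (x' - y))
    obtain ⟨u, huU, hue⟩ := hN.2 e he1
    have hu := hN.1 u huU
    have hnet : nr (e - u) ≤ 1 / (2 * C2) := by
      rw [← Real.sqrt_sq (by positivity : (0 : ℝ) ≤ 1 / (2 * C2))]
      exact Real.sqrt_le_sqrt hue
    have hbl := hst u huU m hm5 hm8 x' s' hzs (by omega)
    have hz : nr (0 : Fin d → ℝ) ≤ 0 := by simp [nr]
    obtain ⟨h, Δ, X, v, H⟩ := step S hk hE hu hq b1 b2 b3 hm8 (z := x') (s := s') (by omega) hbl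
      (hΓ u huU).2 (x0 := y) (b0 := 0) (s0 := 0) (B := 0) (ρ := 2 * nrm (x - y) + p) hz (by
        rw [dD_zero, ← nrm_eq_nr, ← hD]
        have e1 : (S.Cv : ℝ) * (Γm * m) ≤ D := by
          have e2 : (S.Cv : ℝ) * (Γm * m) = (S.Cv * Γm) * m := by ring
          rw [e2]
          have e3 : (S.Cv * Γm) * m ≤ C2 ^ 2 * m :=
            mul_le_mul_of_nonneg_right (by linarith) hm0.le
          have e4 : C2 ^ 2 * m ≤ 2 * C2 ^ 2 * m := by nlinarith [mul_pos (pow_pos hC20 2) hm0]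
          linarith
        have e2 : D + d * q + (S.Cv + 0) * (Γm * m + 66 * q) + q =
          D + S.Cv * (Γm * m) + (d + 66 * S.Cv + 1) * q := by ring
        rw [e2]
        linarith)
    have hR1 := H.R1
    rw [near_self E hocc, tube_eq] at hR1
    have hh1 : 0 < h := by
      rcases Nat.eq_zero_or_pos h with h0 | h0
      · exfalso
        have := H.h_lb
        rw [h0] at this
        push_cast at this
        linarith
      · exact h0
    have hXn : nr (rv X) ≤ C2 * m := by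
      have e1 := H.X_nrm
      rw [nrm_eq_nr] at e1
      have e2 : (S.Cv : ℝ) * h ≤ S.Cv * (Γm * m) := by
        refine mul_le_mul_of_nonneg_left ?_ hCv0
        exact H.h_ub.trans (mul_le_mul_of_nonneg_right (hΓ u huU).2 hm0.le)
      have e3 : 2 * (d : ℝ) * q ≤ m := by nlinarith [mul_nonneg hd0 (by linarith : (0 : ℝ) ≤ q)]
      rw [hC2]
      linarith
    have hnD : nr (rv (x' - y)) = D := by rw [hD, nrm_eq_nr]
    have hcon := contract (D := rv (x' - y)) (X := rv X) (u := u) (e := e) (m := m) hC21 he2 hnet hXn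
      H.X_lev hm0.le (by rw [hnD]; exact hm6) (by rw [hnD]; exact hm7)
    rw [hnD, ← rv_add, ← nrm_eq_nr] at hcon
    have hxy : x' - y + X = x' + X - y := by abel
    rw [hxy] at hcon
    have hlam : (1 - 1 / (16 * C2 ^ 2)) * D = D - D / (16 * C2 ^ 2) := by ring
    rw [hlam] at hcon
    have hlam0 : 0 ≤ D / (16 * C2 ^ 2) := by positivity
    have htime : (h : ℝ) ≤ 8 * Γm * (D / (16 * C2 ^ 2)) := by
      have e1 : (h : ℝ) ≤ Γm * m := H.h_ub.trans (mul_le_mul_of_nonneg_right (hΓ u huU).2 hm0.le)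
      have e2 : Γm * m ≤ Γm * (D / (2 * C2 ^ 2)) := mul_le_mul_of_nonneg_left hm2 hΓm.le
      have e3 : Γm * (D / (2 * C2 ^ 2)) = 8 * Γm * (D / (16 * C2 ^ 2)) := by
        field_simp
        norm_num
      linarith
    refine ih (x' + X) (s' + h) (by omega) (R_trans E hR hR1) ?_ (by linarith)
    push_cast
    have e1 : 8 * Γm * nrm (x' + X - y) ≤ 8 * Γm * (D - D / (16 * C2 ^ 2)) :=
      mul_le_mul_of_nonneg_left hcon (by positivity)
    have e2 : 8 * Γm * (D - D / (16 * C2 ^ 2)) = 8 * Γm * D - 8 * Γm * (D / (16 * C2 ^ 2)) := by ring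
    linarith

end S7

open S6 S7 in
/-- reaching a target in linear time -/
theorem reach (S : Sys d P) (Γm : ℝ) (hΓ : 0 < Γm) :
    ∃ δ : ℝ, 0 < δ ∧ ∃ C : ℝ, 0 < C ∧ ∃ k1 : ℕ, ∀ k ≥ k1, ∀ E : Env d, GoodK S.a S.A S.Cv k E →
    ∀ 𝒰 : Finset (Fin d → ℝ), IsNet δ 𝒰 → ∀ Γ : (Fin d → ℝ) → ℝ, (∀ u ∈ 𝒰, 0 < Γ u ∧ Γ u ≤ Γm) →
    StepP S.a S.A k E 𝒰 Γ → ∀ (x y : Pos d) (s t : ℕ), E.occ s x → supn x ≤ rr S.A k * 2 ^ k →
    nrm (y - x) ≤ 2 ^ k → (s : ℝ) + C * nrm (y - x) + ((2 : ℝ) ^ k) ^ (3 / 4 : ℝ) ≤ t →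
    t ≤ s + rr S.A k * 2 ^ k → 2 * t ≤ (2 ^ k) ^ 2 →
    (E.occ t y →
      E.R (fun _ => Ball y (2 * nrm (y - x) + ((2 : ℝ) ^ k) ^ (3 / 4 : ℝ))) s x t y) ∧
    E.vis (fun _ => Ball y (2 * nrm (y - x) + ((2 : ℝ) ^ k) ^ (3 / 4 : ℝ))) s x t y := by
  obtain ⟨C2, hC2⟩ : ∃ C2 : ℝ, C2 = S.Cv * Γm + 1 := ⟨_, rfl⟩
  have hCG : 0 ≤ S.Cv * Γm := by positivity
  have hC21 : 1 ≤ C2 := by rw [hC2]; linarith
  have hC20 : 0 < C2 := by linarith
  obtain ⟨K, hK⟩ : ∃ K : ℝ, K = 4 * d + 2 + 2 * (Γm + 66) := ⟨_, rfl⟩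
  obtain ⟨k2, hk2⟩ := scale_large S.A_big K
  obtain ⟨K', hK'⟩ : ∃ K' : ℝ, K' = 8 * C2 ^ 2 + 8 + d + 66 * S.Cv := ⟨_, rfl⟩
  obtain ⟨k3, hk3⟩ := scale_pow S.A_big K'
  refine ⟨1 / (2 * C2), by positivity, 8 * Γm, by positivity, max (max S.k0 k2) (max k3 4), ?_⟩
  intro k hk E hE 𝒰 hN Γ hΓu hst x y s t hocc hxs hD0 ht htr h2t
  have hk0 : S.k0 ≤ k := by omega
  have hk4 : 4 ≤ k := by omega
  obtain ⟨q, hq⟩ : ∃ q : ℝ, q = (rr S.A k : ℝ) ^ (7 * S.a) := ⟨_, rfl⟩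
  obtain ⟨p, hp⟩ : ∃ p : ℝ, p = ((2 : ℝ) ^ k) ^ (3 / 4 : ℝ) := ⟨_, rfl⟩
  obtain ⟨w, hw⟩ : ∃ w : ℝ, w = Real.sqrt (2 ^ k) := ⟨_, rfl⟩
  have hr1 : 1 ≤ rr S.A k := rr_pos _ _
  have hr1' : (1 : ℝ) ≤ rr S.A k := by exact_mod_cast hr1
  have hq1 : 1 ≤ q := by rw [hq]; exact one_le_pow₀ hr1'
  have ha := S.a_big
  have hrq : (rr S.A k : ℝ) ≤ q := by
    rw [hq]
    calc (rr S.A k : ℝ) = (rr S.A k : ℝ) ^ 1 := (pow_one _).symm
      _ ≤ (rr S.A k : ℝ) ^ (7 * S.a) := pow_le_pow_right₀ hr1' (by omega)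
  have hraq : (rr S.A k : ℝ) ^ S.a ≤ q := by
    rw [hq]
    exact pow_le_pow_right₀ hr1' (by omega)
  have hd0 : (0 : ℝ) ≤ d := by positivity
  have hCv0 : (0 : ℝ) ≤ S.Cv := by positivity
  have hw1 : 1 ≤ w := by
    rw [hw]
    exact Real.one_le_sqrt.2 (one_le_pow₀ (by norm_num))
  have hww : w ^ 2 = 2 ^ k := by rw [hw]; exact Real.sq_sqrt (by positivity)
  have hmain : K' * q ^ 2 * w ≤ p := by
    rw [hq, hw, hp]
    exact hk3 k (by omega)
  have hpK : ∀ c : ℝ, 0 ≤ c → c ≤ K' → c * q ^ 2 * w ≤ p := fun c _ hc => by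
    refine le_trans ?_ hmain
    exact mul_le_mul_of_nonneg_right (mul_le_mul_of_nonneg_right hc (by positivity)) (by linarith)
  have hqq : q ≤ q ^ 2 * w := by
    have e1 : q * 1 ≤ q * (q * w) :=
      mul_le_mul_of_nonneg_left (by nlinarith) (by linarith)
    nlinarith
  have hqqp : 0 ≤ q ^ 2 * w := by positivity
  have b5 : (d + 66 * S.Cv + 1) * q ≤ p := by
    have e1 : (d + 66 * S.Cv + 1) * q ≤ (d + 66 * S.Cv + 1) * (q ^ 2 * w) :=
      mul_le_mul_of_nonneg_left hqq (by positivity)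
    have e2 := hpK (d + 66 * S.Cv + 1) (by positivity) (by rw [hK']; nlinarith [sq_nonneg C2])
    nlinarith
  have hb1 : ∀ m : ℕ, 2 ^ k ≤ m ^ 2 → 4 * d * q ≤ m := fun m hm => by
    refine le_trans ?_ (hk2 k (by omega) m hm)
    rw [← hq]
    exact mul_le_mul_of_nonneg_right (by rw [hK]; linarith) (by linarith)
  have hb2 : ∀ m : ℕ, 2 ^ k ≤ m ^ 2 → 2 * q ≤ m := fun m hm => by
    refine le_trans ?_ (hk2 k (by omega) m hm)
    rw [← hq]
    exact mul_le_mul_of_nonneg_right (by rw [hK]; linarith) (by linarith)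
  have hb2k : K * q ≤ 2 ^ k := by
    have := hk2 k (by omega) (2 ^ k) (by
      rw [sq]
      exact Nat.le_mul_of_pos_left _ (by positivity))
    rw [← hq] at this
    exact_mod_cast this
  have b3 : 2 * (Γm + 66) ≤ (2 : ℝ) ^ k := by
    refine le_trans ?_ hb2k
    have e1 : 2 * (Γm + 66) ≤ K := by rw [hK]; linarith
    have e2 : K * 1 ≤ K * q := mul_le_mul_of_nonneg_left hq1 (by rw [hK]; positivity)
    linarith
  have b6 : rr S.A k + 2 ≤ 2 ^ k := by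
    have e1 : ((rr S.A k + 2 : ℕ) : ℝ) ≤ ((2 ^ k : ℕ) : ℝ) := by
      push_cast
      refine le_trans ?_ hb2k
      have e2 : (3 : ℝ) ≤ K := by rw [hK]; linarith
      have e3 : 3 * q ≤ K * q := mul_le_mul_of_nonneg_right e2 (by linarith)
      linarith
    exact_mod_cast e1
  have hp0 : 0 ≤ p := le_trans (by positivity) b5
  rw [← hp] at ht ⊢
  rw [nrm_comm y x] at hD0 ht ⊢
  have hD00 : 0 ≤ nrm (x - y) := Real.sqrt_nonneg _
  obtain ⟨s', x', hR, h2, h3, h4⟩ := walk S hk0 hE hN hΓu hst hxs hD0 ht h2t hΓ hC2 hq hb1 hb2 b3 b5 b6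
    t x s (by omega) (R_self E hocc (by
      show nrm (x - y) ≤ 2 * nrm (x - y) + p
      linarith)) le_rfl le_rfl
  rw [← hw] at h4
  obtain ⟨D, hD⟩ : ∃ D : ℝ, D = nrm (x' - y) := ⟨_, rfl⟩
  have hDn : 0 ≤ D := by rw [hD]; exact Real.sqrt_nonneg _
  rw [← hD] at h2 h3 h4
  have hst' : s ≤ s' := (R_start E hR).2.2
  have hocc' : E.occ s' x' := R_occ E hR
  have hs't0 : (s' : ℝ) + p ≤ t := by
    have : 0 ≤ 8 * Γm * D := by positivity
    linarith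
  have hs't : s' ≤ t := by
    have : (s' : ℝ) ≤ t := by linarith
    exact_mod_cast this
  have hD4 : D ≤ 8 * C2 ^ 2 * w := by nlinarith [sq_nonneg C2]
  have hτ : (t : ℝ) - s' ≤ rr S.A k * 2 ^ k := by
    have e1 : (t : ℝ) ≤ s + rr S.A k * 2 ^ k := by exact_mod_cast htr
    have e2 : (s : ℝ) ≤ s' := by exact_mod_cast hst'
    linarith
  have hsq : Real.sqrt ((t : ℝ) - s') ≤ q * w := by
    have e1 : (t : ℝ) - s' ≤ (q * w) ^ 2 := by
      rw [mul_pow, hww]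
      refine hτ.trans (mul_le_mul_of_nonneg_right ?_ (by positivity))
      nlinarith
    calc Real.sqrt ((t : ℝ) - s') ≤ Real.sqrt ((q * w) ^ 2) := Real.sqrt_le_sqrt e1
      _ = q * w := Real.sqrt_sq (by positivity)
  have hGood : E.Good (rr S.A k) (rr S.A k ^ S.a) (rr S.A k ^ S.a) S.Cv ((2 ^ k) ^ 2) ((2 ^ k) ^ 2) := hE
  have hqw : 1 ≤ q * w := by nlinarith
  have hqw2 : q ≤ q * w := by nlinarith
  have hcond : (D + 1) * ((rr S.A k ^ S.a : ℕ) : ℝ) ≤ (t : ℝ) - s' := by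
    push_cast
    have e1 : (D + 1) * (rr S.A k : ℝ) ^ S.a ≤ (8 * C2 ^ 2 * w + 1) * q :=
      mul_le_mul (by linarith) hraq (by positivity) (by positivity)
    have e2 : (8 * C2 ^ 2 * w + 1) * q ≤ (8 * C2 ^ 2 + 1) * q ^ 2 * w := by
      have e3 : w * q ≤ q ^ 2 * w := by nlinarith
      have e4 : 8 * C2 ^ 2 * (w * q) ≤ 8 * C2 ^ 2 * (q ^ 2 * w) :=
        mul_le_mul_of_nonneg_left e3 (by positivity)
      nlinarith
    have e3 := hpK (8 * C2 ^ 2 + 1) (by positivity) (by rw [hK']; linarith)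
    linarith
  have hDm : D ≤ (((2 ^ k) ^ 2 : ℕ) : ℝ) := by
    push_cast
    have : (2 : ℝ) ^ k ≤ (2 ^ k) ^ 2 := by
      rw [sq]
      exact le_mul_of_one_le_left (by positivity) (one_le_pow₀ (by norm_num))
    linarith
  have hradius : D + 2 * (rr S.A k : ℝ) * (1 + Real.sqrt ((t : ℝ) - s')) + ((rr S.A k ^ S.a : ℕ) : ℝ) ≤
      2 * nrm (x - y) + p := by
    push_cast
    have e1 : 2 * (rr S.A k : ℝ) * (1 + Real.sqrt ((t : ℝ) - s')) ≤ 2 * q * (2 * (q * w)) :=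
      mul_le_mul (by linarith) (by linarith) (by positivity) (by positivity)
    have e2 := hpK (8 * C2 ^ 2 + 5) (by positivity) (by rw [hK']; linarith)
    have e3 : 8 * C2 ^ 2 * w ≤ 8 * C2 ^ 2 * (q ^ 2 * w) := by
      refine mul_le_mul_of_nonneg_left ?_ (by positivity)
      nlinarith
    nlinarith
  have hradius' : D + ((rr S.A k ^ S.a : ℕ) : ℝ) ≤ 2 * nrm (x - y) + p := by
    have e1 : 0 ≤ 2 * (rr S.A k : ℝ) * (1 + Real.sqrt ((t : ℝ) - s')) := by positivity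
    linarith
  constructor
  · intro hoy
    refine R_trans E hR (R_mono E ?_ (hGood.g3 s' t x' y hs't (by omega) hocc' hoy
      (by rw [← hD]; exact hDm) (by rw [← hD]; exact hcond)))
    intro _ z hz
    have hz' : nrm (z - y) ≤ nrm (x' - y) + 2 * (rr S.A k : ℝ) * (1 + Real.sqrt ((t : ℝ) - s')) +
        ((rr S.A k ^ S.a : ℕ) : ℝ) := hz
    rw [← hD] at hz'
    exact hz'.trans hradius
  · refine R_vis E hR (vis_mono E ?_ (hGood.g3' s' t x' y hs't (by omega) hocc'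
      (by rw [← hD]; exact hDm) (by rw [← hD]; exact hcond)))
    intro _ z hz
    have hz' : nrm (z - y) ≤ nrm (x' - y) + ((rr S.A k ^ S.a : ℕ) : ℝ) := hz
    rw [← hD] at hz'
    exact hz'.trans hradius'

end ZI.Rows
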