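import Pool.Agent.ZI.Net
import Pool.Agent.ZI.S4
import Pool.Agent.ZI.S6
import Pool.Agent.ZI.S7

/-! # Row S10: the lower bound -/

set_option autoImplicit false

open scoped ENNReal BigOperators Classical
open MeasureTheory

noncomputable section

namespace ZI

variable {d : ℕ}

namespace S10

theorem tri (a b : Fin d → ℝ) :
    Real.sqrt (∑ j, (a j + b j) ^ 2) ≤ Real.sqrt (∑ j, a j ^ 2) + Real.sqrt (∑ j, b j ^ 2) := by
  have h := norm_add_le (WithLp.toLp 2 a : EuclideanSpace ℝ (Fin d)) (WithLp.toLp 2 b)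
  simpa [EuclideanSpace.norm_eq] using h

theorem abs_le_sqrt (a : Fin d → ℝ) (j : Fin d) : |a j| ≤ Real.sqrt (∑ j, a j ^ 2) := by
  refine Real.abs_le_sqrt ?_
  exact Finset.single_le_sum (f := fun j => a j ^ 2) (fun _ _ => sq_nonneg _) (Finset.mem_univ j)

theorem scale (r : ℝ) (hr : 0 ≤ r) (a : Fin d → ℝ) :
    Real.sqrt (∑ j, (r * a j) ^ 2) = r * Real.sqrt (∑ j, a j ^ 2) := by
  have h : ∑ j, (r * a j) ^ 2 = r ^ 2 * ∑ j, a j ^ 2 := by
    rw [Finset.mul_sum]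
    exact Finset.sum_congr rfl fun j _ => by ring
  rw [h, Real.sqrt_mul (sq_nonneg r), Real.sqrt_sq hr]

/-- the norm of a position from its levels -/
theorem nrm_le_of_lev (x : Pos d) (R : ℝ) (hR : 0 ≤ R)
    (h : ∀ u : Fin d → ℝ, ∑ j, u j ^ 2 = 1 → lev u x ≤ R) : nrm x ≤ R := by
  by_cases hx : nrm x = 0
  · rw [hx]
    exact hR
  · have h0 : 0 < nrm x := lt_of_le_of_ne (Real.sqrt_nonneg _) (Ne.symm hx)
    have hs : nrm x ^ 2 = ∑ j, (x j : ℝ) ^ 2 := Real.sq_sqrt (Finset.sum_nonneg fun _ _ => sq_nonneg _)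
    have h1 := h (fun j => (x j : ℝ) / nrm x) (by
      have : ∑ j, ((x j : ℝ) / nrm x) ^ 2 = (∑ j, (x j : ℝ) ^ 2) / nrm x ^ 2 := by
        rw [Finset.sum_div]
        exact Finset.sum_congr rfl fun j _ => by rw [div_pow]
      rw [this, ← hs]
      exact div_self (by positivity))
    have h2 : lev (fun j => (x j : ℝ) / nrm x) x = nrm x := by
      unfold lev
      have : ∑ j, (x j : ℝ) / nrm x * (x j : ℝ) = (∑ j, (x j : ℝ) ^ 2) / nrm x := by
        rw [Finset.sum_div]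
        exact Finset.sum_congr rfl fun j _ => by ring
      rw [this, ← hs, pow_two, mul_div_cancel_right₀ _ hx]
    rw [h2] at h1
    exact h1

theorem supn_le_of_nrm (y : Pos d) (N : ℕ) (h : nrm y ≤ N) : supn y ≤ N := by
  unfold supn
  refine Finset.sup_le fun j _ => ?_
  have h1 := abs_le_sqrt (fun j => (y j : ℝ)) j
  have h2 : |(y j : ℝ)| ≤ N := h1.trans h
  have h3 : ((y j).natAbs : ℝ) = |(y j : ℝ)| := by
    rw [Nat.cast_natAbs, Int.cast_abs]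
  rw [← h3] at h2
  exact_mod_cast h2

/-! ### the errors are summable -/

theorem err_le (A : ℕ) (hA : 0 < A) : ∃ K : ℝ, 0 < K ∧ ∀ k : ℕ,
    err (rr A k) ≤ ENNReal.ofReal (K * (1 / 2 : ℝ) ^ k) := by
  refine ⟨(4 * A).factorial * 2 ^ (2 * A), by positivity, fun k => ?_⟩
  unfold err
  refine ENNReal.ofReal_le_ofReal ?_
  set j := k / A with hj
  have h1 : k < A * (j + 1) := by
    have := Nat.lt_mul_div_succ k hA
    simpa [hj] using this
  have hrr : ((rr A k : ℕ) : ℝ) = 2 ^ j := by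
    unfold rr
    push_cast
    rfl
  rw [hrr]
  set y : ℝ := Real.sqrt (2 ^ j) with hy
  have hy0 : 0 < y := Real.sqrt_pos.2 (by positivity)
  have h2 := Real.pow_div_factorial_le_exp y hy0.le (4 * A)
  have h3 : y ^ (4 * A) = 2 ^ (2 * A * j) := by
    have h4 : y ^ 2 = 2 ^ j := Real.sq_sqrt (by positivity)
    calc y ^ (4 * A) = (y ^ 2) ^ (2 * A) := by rw [← pow_mul]; congr 1; ring
      _ = _ := by rw [h4, ← pow_mul]; congr 1; ring
  rw [h3] at h2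
  have hf : (0 : ℝ) < (4 * A).factorial := by positivity
  rw [div_le_iff₀ hf] at h2
  have h5 : (2 : ℝ) ^ k ≤ 2 ^ (2 * A * j) * 2 ^ (2 * A) := by
    rw [← pow_add]
    refine pow_le_pow_right₀ one_le_two ?_
    nlinarith
  have h6 : (2 : ℝ) ^ k ≤ Real.exp y * (4 * A).factorial * 2 ^ (2 * A) := by
    refine h5.trans ?_
    gcongr
  rw [Real.exp_neg, one_div, inv_pow]
  rw [inv_le_iff_one_le_mul₀ (Real.exp_pos _), ← div_eq_mul_inv, div_mul_eq_mul_div, one_le_div (by positivity)]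
  nlinarith

theorem tsum_err (A : ℕ) (hA : 0 < A) (k0 : ℕ) : ∑' i : ℕ, err (rr A (i + k0)) ≠ ⊤ := by
  obtain ⟨K, hK, h⟩ := err_le A hA
  have h1 : Summable fun i : ℕ => K * (1 / 2 : ℝ) ^ (i + k0) := by
    have := (summable_geometric_of_lt_one (by norm_num : (0 : ℝ) ≤ 1 / 2) (by norm_num)).mul_left
      (K * (1 / 2 : ℝ) ^ k0)
    refine this.congr fun i => ?_
    rw [pow_add]
    ring
  refine ne_top_of_le_ne_top ?_ (ENNReal.tsum_le_tsum fun i => h (i + k0))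
  exact h1.tsum_ofReal_ne_top

/-- Borel Cantelli from an index on -/
theorem ae_ev {Ω : Type} [MeasurableSpace Ω] {P : Measure Ω} (B : ℕ → Set Ω) (f : ℕ → ℝ≥0∞) (k0 : ℕ)
    (h : ∀ k ≥ k0, P (B k) ≤ f k) (hf : ∑' i : ℕ, f (i + k0) ≠ ⊤) :
    ∀ᵐ ω ∂P, ∃ K, ∀ k ≥ K, ω ∉ B k := by
  have h1 : ∑' i : ℕ, P (B (i + k0)) ≠ ⊤ :=
    ne_top_of_le_ne_top hf (ENNReal.tsum_le_tsum fun i => h (i + k0) (Nat.le_add_left _ _))
  filter_upwards [MeasureTheory.ae_eventually_notMem h1] with ω hω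
  obtain ⟨K, hK⟩ := Filter.eventually_atTop.1 hω
  refine ⟨K + k0, fun k hk => ?_⟩
  have := hK (k - k0) (by omega)
  rwa [Nat.sub_add_cancel (by omega)] at this

/-- the ratio estimate -/
theorem ratio (ε t : ℝ) (hε : 0 < ε) (hε1 : ε < 1) (ht : 8 / ε ≤ t) (s1 : ℝ)
    (hs : (1 - ε / 2) * t - 1 ≤ s1) : (1 + ε / 8) * (1 - ε) * t ≤ (1 - ε / 4) * s1 := by
  have h1 : 8 ≤ ε * t := by
    rw [div_le_iff₀ hε] at ht
    linarith
  have h2 : (1 - 5 * ε / 8) * t ≤ s1 := by nlinarith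
  have ht0 : 0 < t := lt_of_lt_of_le (by positivity) ht
  have h3 : (1 - ε / 4) * ((1 - 5 * ε / 8) * t) ≤ (1 - ε / 4) * s1 :=
    mul_le_mul_of_nonneg_left h2 (by linarith)
  have h4 : (1 + ε / 8) * (1 - ε) ≤ (1 - ε / 4) * (1 - 5 * ε / 8) := by nlinarith [sq_nonneg ε]
  nlinarith

end S10

namespace S10

open Rows

theorem net_mono {δ δ' : ℝ} (hδ : 0 < δ) (h : δ ≤ δ') {𝒰 : Finset (Fin d → ℝ)} (hn : IsNet δ 𝒰) :
    IsNet δ' 𝒰 := by
  refine ⟨hn.1, fun e he => ?_⟩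
  obtain ⟨u, hu, hue⟩ := hn.2 e he
  exact ⟨u, hu, hue.trans (pow_le_pow_left₀ hδ.le h 2)⟩

theorem rr_ge (A : ℕ) (hA : 0 < A) (K : ℝ) : ∃ k1 : ℕ, ∀ k ≥ k1, K ≤ (rr A k : ℝ) := by
  obtain ⟨N, hN⟩ := pow_unbounded_of_one_lt K (one_lt_two (α := ℝ))
  refine ⟨A * N, fun k hk => ?_⟩
  have h1 : N ≤ k / A := (Nat.le_div_iff_mul_le hA).2 (by rw [mul_comm]; exact hk)
  have h2 : (2 : ℝ) ^ N ≤ rr A k := by
    unfold rr
    push_cast
    exact pow_le_pow_right₀ one_le_two h1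
  linarith

theorem w_ge (K : ℝ) : ∃ k1 : ℕ, ∀ k ≥ k1, K ≤ ((2 : ℝ) ^ k) ^ (1 / 4 : ℝ) := by
  have h1 : Filter.Tendsto (fun k : ℕ => ((2 : ℝ) ^ k) ^ (1 / 4 : ℝ)) Filter.atTop Filter.atTop :=
    (tendsto_rpow_atTop (by norm_num)).comp (tendsto_pow_atTop_atTop_of_one_lt one_lt_two)
  exact Filter.eventually_atTop.1 (h1.eventually_ge_atTop K)

/-- the deterministic part of the lower bound -/
theorem det {Ω : Type} [MeasurableSpace Ω] {P : Measure Ω} (S : Sys d P) (γ : (Fin d → ℝ) → ℝ)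
    (c C : ℝ) (hc : 0 < c) (hlb : ∀ u : Fin d → ℝ, ∑ j, u j ^ 2 = 1 → c ≤ γ u)
    (hub : ∀ u : Fin d → ℝ, ∑ j, u j ^ 2 = 1 → γ u ≤ C) (ε : ℝ) (hε : 0 < ε) (hε1 : ε < 1) :
    ∃ 𝒰 : Finset (Fin d → ℝ), (∀ u ∈ 𝒰, ∑ j, u j ^ 2 = 1) ∧ ∃ K0 ≥ S.k0, ∀ k ≥ K0, ∀ E : Env d,
      GoodK S.a S.A S.Cv k E → StepP S.a S.A k E 𝒰 (fun u => γ u + c * ε / 8) → E.occ 0 0 →
      ∀ t : ℝ, (2 : ℝ) ^ k ≤ t → t < 2 ^ (k + 1) → ∀ x : Pos d,
        (∀ u : Fin d → ℝ, ∑ j, u j ^ 2 = 1 → lev u x ≤ (1 - ε) * t / γ u) →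
        E.vis (fun _ => Set.univ) 0 0 ⌊t⌋₊ x := by
  have hC : c ≤ C := by
    have hd := S.d_pos
    have hu : ∑ j : Fin d, (Pi.single (⟨0, hd⟩ : Fin d) (1 : ℝ) : Fin d → ℝ) j ^ 2 = 1 := by
      rw [Finset.sum_eq_single (⟨0, hd⟩ : Fin d)]
      · simp
      · intro j _ hj
        simp [Pi.single_eq_of_ne hj]
      · intro h
        exact absurd (Finset.mem_univ _) h
    exact (hlb _ hu).trans (hub _ hu)
  set Γm : ℝ := C + c with hΓmdef
  have hΓm : 0 < Γm := by linarith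
  set B : ℝ := 4 / c with hBdef
  have hB : 0 < B := by positivity
  obtain ⟨δ6, hδ6, C6, hC6, k6, h6⟩ := moving_target S Γm (ε / 4) B hΓm (by linarith) (by linarith) hB
  obtain ⟨δ7, hδ7, C7, hC7, k7, h7⟩ := reach S Γm hΓm
  have hδ : 0 < min δ6 δ7 := lt_min hδ6 hδ7
  obtain ⟨𝒰, hnet⟩ := exists_net d (min δ6 δ7) hδ
  have hnet6 := net_mono hδ (min_le_left δ6 δ7) hnet
  have hnet7 := net_mono hδ (min_le_right δ6 δ7) hnet
  set K1 : ℝ := 3 * C6 + 2 * B * Γm with hK1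
  have hK1pos : 0 < K1 := by positivity
  obtain ⟨ka, hka⟩ := w_ge (max 1 (max K1 ((C7 * K1 + 2) / (ε / 2))))
  obtain ⟨kb, hkb⟩ := rr_ge S.A (by have := S.A_big; have := S.a_big; omega) (max 2 (2 * B + 3 * C6))
  obtain ⟨kc, hkc⟩ := pow_unbounded_of_one_lt (8 / ε) (one_lt_two (α := ℝ))
  refine ⟨𝒰, hnet.1, S.k0 + k6 + k7 + ka + kb + kc + 2, by omega, ?_⟩
  intro k hk E hG hS hocc t ht1 ht2 x hx
  have hw1 := hka k (by omega)
  have hr1 := hkb k (by omega)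
  have hn1 : 8 / ε ≤ (2 : ℝ) ^ k := hkc.le.trans (pow_le_pow_right₀ one_le_two (by omega))
  set w : ℝ := ((2 : ℝ) ^ k) ^ (1 / 4 : ℝ) with hwdef
  set n : ℝ := (2 : ℝ) ^ k with hn
  have hnpos : 0 < n := by positivity
  have hw4 : w ^ 4 = n := by
    rw [hwdef, ← Real.rpow_natCast, ← Real.rpow_mul hnpos.le]
    norm_num
  have hw3 : n ^ (3 / 4 : ℝ) = w ^ 3 := by
    rw [hwdef, ← Real.rpow_natCast, ← Real.rpow_mul hnpos.le]
    norm_num
  have hw_1 : 1 ≤ w := (le_max_left _ _).trans hw1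
  have hw_K : K1 ≤ w := ((le_max_left _ _).trans (le_max_right _ _)).trans hw1
  have hw_C : C7 * K1 + 2 ≤ ε / 2 * w := by
    have := ((le_max_right _ _).trans (le_max_right _ _)).trans hw1
    rw [div_le_iff₀ (by positivity)] at this
    linarith
  have hrr2 : 2 ≤ rr S.A k := by
    have := (le_max_left _ _).trans hr1
    exact_mod_cast this
  have hrrB : 2 * B + 3 * C6 ≤ (rr S.A k : ℝ) := (le_max_right _ _).trans hr1
  have hw2 : 1 ≤ w ^ 2 := one_le_pow₀ hw_1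
  have hw3' : 1 ≤ w ^ 3 := one_le_pow₀ hw_1
  have hw23 : w ^ 2 ≤ w ^ 3 := pow_le_pow_right₀ hw_1 (by norm_num)
  have hw34 : w ^ 3 ≤ w ^ 4 := pow_le_pow_right₀ hw_1 (by norm_num)
  have hw46 : w ^ 4 ≤ w ^ 6 := pow_le_pow_right₀ hw_1 (by norm_num)
  -- the size of the blocks
  set m : ℕ := 2 ^ ((k + 1) / 2) with hm
  have hm1 : 2 ^ k ≤ m ^ 2 := by
    rw [hm, ← pow_mul]
    exact Nat.pow_le_pow_right (by norm_num) (by omega)
  have hm2 : m ≤ 2 ^ k := Nat.pow_le_pow_right (by norm_num) (by omega)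
  have hm3 : (m : ℝ) ^ 2 ≤ 2 * w ^ 4 := by
    have h1 : m ^ 2 ≤ 2 ^ (k + 1) := by
      rw [hm, ← pow_mul]
      exact Nat.pow_le_pow_right (by norm_num) (by omega)
    have h2 : (m : ℝ) ^ 2 ≤ 2 ^ (k + 1) := by exact_mod_cast h1
    rw [hw4, hn, mul_comm, ← pow_succ]
    exact h2
  have hm0 : (0 : ℝ) < m := by
    rw [hm]
    positivity
  have hm4 : (m : ℝ) ≤ 2 * w ^ 2 := by
    have h1 : (m : ℝ) ^ 2 ≤ (2 * w ^ 2) ^ 2 := by
      have h2 : (0 : ℝ) ≤ w ^ 4 := by positivity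
      have h3 : (2 * w ^ 2) ^ 2 = 4 * w ^ 4 := by ring
      rw [h3]
      linarith
    exact (pow_le_pow_iff_left₀ hm0.le (by positivity) two_ne_zero).1 h1
  -- the times
  have ht0 : 0 < t := lt_of_lt_of_le hnpos ht1
  have ht2' : t < 2 * n := by
    rw [hn, mul_comm, ← pow_succ]
    exact ht2
  have ht8 : 8 ≤ t := by
    have h1 : 8 ≤ 8 / ε := by
      rw [le_div_iff₀ hε]
      linarith
    linarith
  have hε2 : 0 ≤ (1 - ε / 2) * t := by
    have : 0 ≤ 1 - ε / 2 := by linarith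
    positivity
  set s1 : ℕ := ⌊(1 - ε / 2) * t⌋₊ with hs1def
  have hs1a : (s1 : ℝ) ≤ (1 - ε / 2) * t := Nat.floor_le hε2
  have hs1b : (1 - ε / 2) * t - 1 ≤ s1 := (Nat.sub_one_lt_floor _).le
  set T : ℕ := ⌊t⌋₊ with hTdef
  have hTa : (T : ℝ) ≤ t := Nat.floor_le ht0.le
  have hTb : t - 1 ≤ T := (Nat.sub_one_lt_floor _).le
  have hεt : ε * t ≤ t := mul_le_of_le_one_left ht0.le hε1.le
  have hεt0 : 0 < ε * t := by positivity
  have hs1c : t / 4 ≤ s1 := by linarith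
  have hs1pos : (0 : ℝ) < s1 := lt_of_lt_of_le (by positivity) hs1c
  have hs1t : (s1 : ℝ) ≤ t := by linarith
  have hTnat : T < 2 ^ (k + 1) := by
    have : (T : ℝ) < 2 ^ (k + 1) := lt_of_le_of_lt hTa ht2
    exact_mod_cast this
  have hs1nat : s1 < 2 ^ (k + 1) := by
    have : (s1 : ℝ) < 2 ^ (k + 1) := lt_of_le_of_lt hs1t ht2
    exact_mod_cast this
  have hrk : 2 ^ (k + 1) ≤ rr S.A k * 2 ^ k := by
    rw [pow_succ, mul_comm]
    exact Nat.mul_le_mul_right _ hrr2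
  have hkk : 2 * 2 ^ (k + 1) ≤ (2 ^ k) ^ 2 := by
    rw [← pow_mul, ← pow_succ']
    exact Nat.pow_le_pow_right (by norm_num) (by omega)
  -- the target
  have hxn : nrm x ≤ t / c := by
    refine nrm_le_of_lev x _ (by positivity) fun u hu => (hx u hu).trans ?_
    have h1 := hlb u hu
    have h2 : (1 - ε) * t ≤ t := by linarith
    exact div_le_div₀ ht0.le h2 hc h1
  set b0 : Fin d → ℝ := fun j => 1 / (s1 : ℝ) * (x j : ℝ) with hb0
  have hβ : Real.sqrt (∑ j, b0 j ^ 2) ≤ B := by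
    rw [hb0, scale _ (by positivity)]
    have h1 : Real.sqrt (∑ j, (x j : ℝ) ^ 2) ≤ t / c := hxn
    calc 1 / (s1 : ℝ) * Real.sqrt (∑ j, (x j : ℝ) ^ 2) ≤ 1 / (t / 4) * (t / c) := by
          gcongr
      _ = B := by
          rw [hBdef]
          field_simp
  have hβ2 : ∑ j, b0 j ^ 2 ≤ B ^ 2 := by
    have h1 := pow_le_pow_left₀ (Real.sqrt_nonneg _) hβ 2
    rwa [Real.sq_sqrt (Finset.sum_nonneg fun _ _ => sq_nonneg _)] at h1
  have hΓ : ∀ u ∈ 𝒰, 0 < γ u + c * ε / 8 ∧ γ u + c * ε / 8 ≤ Γm := by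
    intro u hu
    have h1 := hlb u (hnet.1 u hu)
    have h2 := hub u (hnet.1 u hu)
    have h3 : 0 < c * ε / 8 := by positivity
    refine ⟨by linarith, ?_⟩
    have h4 : c * ε ≤ c := mul_le_of_le_one_right hc.le hε1.le
    rw [hΓmdef]
    linarith
  have hcond : ∀ u ∈ 𝒰, (γ u + c * ε / 8) * ∑ j, u j * b0 j ≤ 1 - ε / 4 := by
    intro u hu
    have hu1 := hnet.1 u hu
    have h1 : ∑ j, u j * b0 j = lev u x / s1 := by
      unfold lev
      rw [Finset.sum_div]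
      refine Finset.sum_congr rfl fun j _ => ?_
      rw [hb0]
      ring
    rw [h1, mul_div_assoc', div_le_iff₀ hs1pos]
    have h2 := ratio ε t hε hε1 (hn1.trans ht1) s1 hs1b
    refine le_trans ?_ h2
    have h3 := hlb u hu1
    have hγ0 : 0 < γ u := by linarith
    have h4 : γ u * lev u x ≤ (1 - ε) * t := by
      have := hx u hu1
      rw [le_div_iff₀ hγ0] at this
      linarith
    by_cases hl : lev u x ≤ 0
    · have h5 : (γ u + c * ε / 8) * lev u x ≤ 0 :=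
        mul_nonpos_of_nonneg_of_nonpos (by positivity) hl
      have h6 : 0 ≤ (1 + ε / 8) * (1 - ε) * t := by
        have : 0 ≤ 1 - ε := by linarith
        positivity
      linarith
    · push Not at hl
      have h5 : c * ε / 8 * lev u x ≤ ε / 8 * (γ u * lev u x) := by
        have h6 : c * lev u x ≤ γ u * lev u x := mul_le_mul_of_nonneg_right h3 hl.le
        calc c * ε / 8 * lev u x = ε / 8 * (c * lev u x) := by ring
          _ ≤ _ := mul_le_mul_of_nonneg_left h6 (by positivity)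
      have h7 : ε / 8 * (γ u * lev u x) ≤ ε / 8 * ((1 - ε) * t) :=
        mul_le_mul_of_nonneg_left h4 (by positivity)
      calc (γ u + c * ε / 8) * lev u x = γ u * lev u x + c * ε / 8 * lev u x := by ring
        _ ≤ (1 - ε) * t + ε / 8 * ((1 - ε) * t) := by linarith
        _ = _ := by ring
  obtain ⟨s, y, hs0, hs1', hs2, hR, hy⟩ := h6 k (by omega) E hG 𝒰 hnet6 (fun u => γ u + c * ε / 8) hΓ hS
    b0 hβ2 hcond m hm1 hm2 0 0 s1 hocc (by simp [supn]) (Nat.zero_le _) (by omega)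
    (by omega) (C6 * m * Real.sqrt (1 + ((s1 : ℝ) - (0 : ℕ)) / m)) le_rfl
  set ρ : ℝ := C6 * m * Real.sqrt (1 + ((s1 : ℝ) - (0 : ℕ)) / m) with hρ
  have hρ1 : ρ ≤ 3 * C6 * w ^ 3 := by
    have h1 : (m : ℝ) * Real.sqrt (1 + ((s1 : ℝ) - (0 : ℕ)) / m) ≤ 3 * w ^ 3 := by
      rw [← Real.sqrt_sq hm0.le, ← Real.sqrt_mul (sq_nonneg _), Real.sqrt_sq hm0.le]
      rw [Real.sqrt_le_left (by positivity)]
      have h2 : (m : ℝ) ^ 2 * (1 + ((s1 : ℝ) - (0 : ℕ)) / m) = m ^ 2 + m * s1 := by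
        push_cast
        field_simp
        ring
      rw [h2]
      have h3 : (m : ℝ) * s1 ≤ (2 * w ^ 2) * (2 * w ^ 4) := by
        have : (s1 : ℝ) ≤ 2 * w ^ 4 := by rw [hw4]; linarith
        exact mul_le_mul hm4 this hs1pos.le (by positivity)
      have h4 : (2 * w ^ 2) * (2 * w ^ 4) = 4 * w ^ 6 := by ring
      have h5 : (3 * w ^ 3) ^ 2 = 9 * w ^ 6 := by ring
      have h6 : 0 ≤ w ^ 6 := by positivity
      rw [h5]
      linarith
    calc ρ = C6 * (m * Real.sqrt (1 + ((s1 : ℝ) - (0 : ℕ)) / m)) := by rw [hρ]; ring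
      _ ≤ C6 * (3 * w ^ 3) := mul_le_mul_of_nonneg_left h1 hC6.le
      _ = _ := by ring
  have hy' : Real.sqrt (∑ j, ((y j : ℝ) - b0 j * s) ^ 2) ≤ ρ := by
    have h1 : y ∈ tube (fun j => (((0 : Pos d) j : ℤ) : ℝ)) b0 0 ρ s := hy
    unfold tube at h1
    simpa using h1
  have hs1s : (s : ℝ) ≤ s1 := by exact_mod_cast hs1'
  -- the distance to the target
  have hxy : nrm (x - y) ≤ K1 * w ^ 3 := by
    have h1 : nrm (x - y) = Real.sqrt (∑ j, (((s1 : ℝ) - s) * b0 j + (- ((y j : ℝ) - b0 j * s))) ^ 2) := by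
      unfold nrm
      congr 1
      refine Finset.sum_congr rfl fun j _ => ?_
      congr 1
      simp only [Pi.sub_apply, hb0]
      push_cast
      field_simp
      ring
    rw [h1]
    refine (tri _ _).trans ?_
    rw [scale _ (by linarith)]
    have h2 : Real.sqrt (∑ j, (-((y j : ℝ) - b0 j * s)) ^ 2) ≤ ρ := by
      simp only [neg_sq]
      exact hy'
    have h3 : ((s1 : ℝ) - s) * Real.sqrt (∑ j, b0 j ^ 2) ≤ (Γm * m) * B := by
      refine mul_le_mul ?_ hβ (Real.sqrt_nonneg _) (by positivity)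
      linarith
    have h4 : (Γm * m) * B ≤ 2 * B * Γm * w ^ 3 := by
      have : (m : ℝ) ≤ 2 * w ^ 3 := by linarith
      calc (Γm * m) * B = Γm * B * m := by ring
        _ ≤ Γm * B * (2 * w ^ 3) := by gcongr
        _ = _ := by ring
    calc _ ≤ 2 * B * Γm * w ^ 3 + 3 * C6 * w ^ 3 := by linarith
      _ = _ := by rw [hK1]; ring
  have hyn : nrm y ≤ (rr S.A k * 2 ^ k : ℕ) := by
    have h1 : nrm y = Real.sqrt (∑ j, ((s : ℝ) * b0 j + ((y j : ℝ) - b0 j * s)) ^ 2) := by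
      unfold nrm
      congr 1
      refine Finset.sum_congr rfl fun j _ => ?_
      congr 1
      ring
    rw [h1]
    refine (tri _ _).trans ?_
    rw [scale _ (by positivity)]
    have h3 : (s : ℝ) * Real.sqrt (∑ j, b0 j ^ 2) ≤ (2 * w ^ 4) * B := by
      refine mul_le_mul ?_ hβ (Real.sqrt_nonneg _) (by positivity)
      rw [hw4]
      linarith
    have h5 : ρ ≤ 3 * C6 * w ^ 4 := hρ1.trans (by gcongr)
    push_cast
    rw [← hn, ← hw4]
    calc _ ≤ (2 * w ^ 4) * B + 3 * C6 * w ^ 4 := by linarith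
      _ = (2 * B + 3 * C6) * w ^ 4 := by ring
      _ ≤ _ := by gcongr
  have hvis := (h7 k (by omega) E hG 𝒰 hnet7 (fun u => γ u + c * ε / 8) hΓ hS y x s T (R_occ E hR)
    (supn_le_of_nrm y _ hyn) (by
      rw [← hn, ← hw4]
      calc nrm (x - y) ≤ K1 * w ^ 3 := hxy
        _ ≤ w * w ^ 3 := by gcongr
        _ = w ^ 4 := by ring) (by
      rw [← hn, hw3]
      have h1 : C7 * nrm (x - y) ≤ C7 * (K1 * w ^ 3) := by gcongr
      have h2 : (C7 * K1 + 2) * w ^ 3 ≤ (ε / 2 * w) * w ^ 3 := by gcongr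
      have h3 : ε / 2 * w ^ 4 ≤ ε / 2 * t := by
        rw [hw4]
        gcongr
      have h4 : (ε / 2 * w) * w ^ 3 = ε / 2 * w ^ 4 := by ring
      have h5 : (C7 * K1 + 2) * w ^ 3 = C7 * (K1 * w ^ 3) + 2 * w ^ 3 := by ring
      have h6 : ε / 2 * t = t - (1 - ε / 2) * t := by ring
      linarith) (by omega) (by omega)).2
  exact R_vis E (R_mono E (fun _ => Set.subset_univ _) hR) (vis_mono E (fun _ => Set.subset_univ _) hvis)

end S10

namespace Rows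

open S10

theorem lower {Ω : Type} [MeasurableSpace Ω] {P : Measure Ω} [IsProbabilityMeasure P] (S : Sys d P)
    (γ : (Fin d → ℝ) → ℝ) (c C : ℝ)
    (hγ : IsGamma S γ c C) (hU : UpTail S γ) (ε : ℝ) (hε : 0 < ε) (hε1 : ε < 1) :
    ∀ᵐ ω ∂P, ω ∈ S.S0 → ∃ T0 : ℝ, ∀ t : ℝ, T0 ≤ t → ∀ x : Pos d,
      (∀ u : Fin d → ℝ, ∑ j, u j ^ 2 = 1 → lev u x ≤ (1 - ε) * t / γ u) → x ∈ S.I ω t := by
  obtain ⟨𝒰, h𝒰, K0, hK0, hdet⟩ := det S γ c C hγ.c_pos hγ.lb hγ.ub ε hε hε1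
  have hc := hγ.c_pos
  obtain ⟨k1, hk1⟩ := stepP_whp S γ hU 𝒰 h𝒰 (c * ε / 8) (by positivity)
  have hA : 0 < S.A := by
    have := S.A_big
    have := S.a_big
    omega
  have h1 := ae_ev (fun k => {ω | ¬ GoodK S.a S.A S.Cv k (S.E k ω)}) (fun k => err (rr S.A k)) S.k0
    (fun k hk => S.good k hk) (S10.tsum_err S.A hA S.k0)
  have h2 := ae_ev (fun k => {ω | ¬ StepP S.a S.A k (S.E k ω) 𝒰 (fun u => γ u + c * ε / 8)})
    (fun k => ENNReal.ofReal ((1 / 2 : ℝ) ^ k)) k1 hk1 (by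
      have h3 : Summable fun i : ℕ => (1 / 2 : ℝ) ^ (i + k1) := by
        have := (summable_geometric_of_lt_one (by norm_num : (0 : ℝ) ≤ 1 / 2) (by norm_num)).mul_left
          ((1 / 2 : ℝ) ^ k1)
        refine this.congr fun i => ?_
        rw [pow_add]
        ring
      exact h3.tsum_ofReal_ne_top)
  have h3 := ae_ev (fun k => {ω | ¬ ∀ t : ℕ, 1 ≤ t → t ≤ (2 ^ k) ^ 2 → ∀ b,
    (b ∈ S.I ω t ↔ (S.E k ω).vis (fun _ => Set.univ) 0 0 t b)}) (fun k => err (rr S.A k)) S.k0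
    (fun k hk => S.link k hk) (S10.tsum_err S.A hA S.k0)
  filter_upwards [h1, h2, h3] with ω hω1 hω2 hω3 hω0
  obtain ⟨K1, hK1⟩ := hω1
  obtain ⟨K2, hK2⟩ := hω2
  obtain ⟨K3, hK3⟩ := hω3
  set K := K0 + K1 + K2 + K3 + 1 with hK
  refine ⟨2 ^ K, fun t ht x hx => ?_⟩
  have ht0 : 0 < t := lt_of_lt_of_le (by positivity) ht
  set T := ⌊t⌋₊ with hT
  have hT1 : 2 ^ K ≤ T := by
    refine Nat.le_floor ?_
    push_cast
    exact ht
  have hT0 : T ≠ 0 := by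
    have : 0 < 2 ^ K := by positivity
    omega
  set k := Nat.log 2 T with hk
  have hkK : K ≤ k := Nat.le_log_of_pow_le one_lt_two hT1
  have hkT : 2 ^ k ≤ T := Nat.pow_log_le_self 2 hT0
  have hkT' : T < 2 ^ (k + 1) := Nat.lt_pow_succ_log_self one_lt_two T
  have ht1 : (2 : ℝ) ^ k ≤ t := by
    have h4 : (T : ℝ) ≤ t := Nat.floor_le ht0.le
    have h5 : ((2 ^ k : ℕ) : ℝ) ≤ T := by exact_mod_cast hkT
    push_cast at h5
    linarith
  have ht2 : t < 2 ^ (k + 1) := by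
    have h4 : t < T + 1 := Nat.lt_floor_add_one t
    have h5 : ((T + 1 : ℕ) : ℝ) ≤ ((2 ^ (k + 1) : ℕ) : ℝ) := by exact_mod_cast hkT'
    push_cast at h5
    linarith
  have hg := hK1 k (by omega)
  have hs := hK2 k (by omega)
  have hl := hK3 k (by omega)
  rw [not_not] at hg hs hl
  have hv := hdet k (by omega) (S.E k ω) hg hs ((S.link0 k (by omega) ω).1 hω0) t ht1 ht2 x hx
  have hk2 : 1 ≤ k := by omega
  have hTk : T ≤ (2 ^ k) ^ 2 := by
    refine hkT'.le.trans ?_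
    rw [← pow_mul]
    exact Nat.pow_le_pow_right (by norm_num) (by omega)
  exact S.I_mono ω (Nat.floor_le ht0.le) ((hl T (by omega) hTk x).2 hv)

end Rows

end ZI
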