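import Pool.Agent.ZI.Sys2

/-! # Finite nets of the sphere; summability of the errors -/

set_option autoImplicit false

open scoped ENNReal BigOperators Classical
open MeasureTheory

noncomputable section

namespace ZI.Rows

open ZI

/-- finite nets of the sphere exist -/
theorem exists_net (d : ℕ) (δ : ℝ) (hδ : 0 < δ) : ∃ 𝒰 : Finset (Fin d → ℝ), IsNet δ 𝒰 := by
  set K : Set (Fin d → ℝ) := {e | ∑ j, e j ^ 2 = 1} with hK
  have hclosed : IsClosed K :=
    isClosed_eq (continuous_finsetSum _ fun j _ => (continuous_apply j).pow 2) continuous_const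
  have hbdd : Bornology.IsBounded K := by
    refine (Metric.isBounded_closedBall (x := (0 : Fin d → ℝ)) (r := 1)).subset ?_
    intro e he
    rw [mem_closedBall_zero_iff, pi_norm_le_iff_of_nonneg zero_le_one]
    intro j
    rw [Real.norm_eq_abs, ← Real.sqrt_sq_eq_abs, ← Real.sqrt_one]
    apply Real.sqrt_le_sqrt
    rw [← (he : ∑ j, e j ^ 2 = 1)]
    exact Finset.single_le_sum (f := fun j => e j ^ 2) (fun i _ => sq_nonneg _) (Finset.mem_univ j)
  have hcomp : IsCompact K := Metric.isCompact_of_isClosed_isBounded hclosed hbdd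
  obtain ⟨t, htK, ht⟩ := hcomp.elim_nhds_subcover (fun u => {e | ∑ j, (e j - u j) ^ 2 < δ ^ 2})
    (fun u _ => IsOpen.mem_nhds
      (isOpen_lt (continuous_finsetSum _ fun j _ =>
        ((continuous_apply j).sub continuous_const).pow 2) continuous_const)
      (by simp only [Set.mem_ofPred_eq, sub_self]; simpa using pow_pos hδ 2))
  refine ⟨t, fun u hu => htK u hu, fun e he => ?_⟩
  have := ht (show e ∈ K from he)
  rw [Set.mem_iUnion₂] at this
  obtain ⟨u, hu, h⟩ := this
  exact ⟨u, hu, le_of_lt h⟩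

/-- a net may be enlarged -/
theorem isNet_insert {d : ℕ} {δ : ℝ} {𝒰 : Finset (Fin d → ℝ)} (h : IsNet δ 𝒰) {u : Fin d → ℝ}
    (hu : ∑ j, u j ^ 2 = 1) : IsNet δ (insert u 𝒰) := by
  refine ⟨fun v hv => ?_, fun e he => ?_⟩
  · rcases Finset.mem_insert.1 hv with rfl | hv
    · exact hu
    · exact h.1 v hv
  · obtain ⟨v, hv, hve⟩ := h.2 e he
    exact ⟨v, Finset.mem_insert_of_mem hv, hve⟩

theorem exp_sqrt_le (n : ℕ) : Real.exp (- Real.sqrt (2 ^ n)) ≤ 24 / 2 ^ n * (1 / 2 ^ n) := by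
  set x : ℝ := Real.sqrt (2 ^ n) with hx
  have hx0 : 0 < x := Real.sqrt_pos.2 (by positivity)
  have hx2 : x ^ 2 = 2 ^ n := Real.sq_sqrt (by positivity)
  have h4 : x ^ 4 / 24 ≤ Real.exp x := by
    have := Real.pow_div_factorial_le_exp x hx0.le 4
    norm_num [Nat.factorial] at this
    exact this
  have h5 : Real.exp (-x) ≤ 24 / x ^ 4 := by
    rw [Real.exp_neg, inv_eq_one_div, div_le_div_iff₀ (Real.exp_pos x) (by positivity)]
    linarith
  have h6 : x ^ 4 = 2 ^ n * 2 ^ n := by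
    rw [← hx2]; ring
  rw [h6] at h5
  refine h5.trans (le_of_eq ?_)
  field_simp

/-- the errors of the scales are summable -/
theorem tsum_err {A : ℕ} (hA : 0 < A) : ∑' k : ℕ, err (rr A k) ≠ ⊤ := by
  have hreal : Summable (fun k : ℕ => Real.exp (- Real.sqrt ((rr A k : ℕ) : ℝ))) := by
    -- compare with a geometric series
    have hb : ∀ k : ℕ, Real.exp (- Real.sqrt ((rr A k : ℕ) : ℝ)) ≤ 48 * ((1 / 2 : ℝ) ^ (1 / A : ℝ)) ^ k := by
      intro k
      have h1 : Real.exp (- Real.sqrt ((rr A k : ℕ) : ℝ)) ≤ 24 * (1 / 2 : ℝ) ^ (k / A) := by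
        rcases Nat.eq_zero_or_pos (k / A) with h0 | h0
        · rw [h0, pow_zero, mul_one]
          have : Real.exp (- Real.sqrt ((rr A k : ℕ) : ℝ)) ≤ 1 := by
            rw [Real.exp_le_one_iff]
            exact neg_nonpos.2 (Real.sqrt_nonneg _)
          linarith
        · have h2 := exp_sqrt_le (k / A)
          have h3 : ((rr A k : ℕ) : ℝ) = 2 ^ (k / A) := by simp [rr]
          rw [h3]
          refine h2.trans ?_
          rw [one_div_pow, div_mul_eq_mul_div, ← mul_div_assoc, mul_one]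
          have h4 : (1 : ℝ) ≤ 2 ^ (k / A) := one_le_pow₀ (by norm_num)
          rw [div_div, div_eq_mul_one_div]
          refine mul_le_mul_of_nonneg_left ?_ (by norm_num)
          rw [← one_div]
          apply one_div_le_one_div_of_le (by positivity)
          nlinarith
      refine h1.trans ?_
      have h5 : (1 / 2 : ℝ) ^ (k / A) ≤ 2 * ((1 / 2 : ℝ) ^ (1 / A : ℝ)) ^ k := by
        have hA' : (0 : ℝ) < A := by exact_mod_cast hA
        have e1 : ((1 / 2 : ℝ) ^ (1 / A : ℝ)) ^ k = (1 / 2 : ℝ) ^ ((k : ℝ) / A) := by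
          rw [← Real.rpow_natCast, ← Real.rpow_mul (by norm_num)]
          congr 1
          ring
        rw [e1]
        have e2 : (2 : ℝ) * (1 / 2 : ℝ) ^ ((k : ℝ) / A) = (1 / 2 : ℝ) ^ ((k : ℝ) / A - 1) := by
          rw [Real.rpow_sub_one (by norm_num)]
          ring
        rw [e2, ← Real.rpow_natCast]
        apply Real.rpow_le_rpow_of_exponent_ge (by norm_num) (by norm_num)
        have h7 := Nat.lt_div_mul_add (a := k) hA
        have h8 : (k : ℝ) < (k / A : ℕ) * A + A := by exact_mod_cast h7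
        have h9 : (k : ℝ) / A < (k / A : ℕ) + 1 := by
          rw [div_lt_iff₀ hA']
          linarith
        linarith
      linarith
    have hA' : (0 : ℝ) < A := by exact_mod_cast hA
    refine Summable.of_nonneg_of_le (fun k => (Real.exp_pos _).le) hb ?_
    apply Summable.mul_left
    apply summable_geometric_of_lt_one (by positivity)
    apply Real.rpow_lt_one (by norm_num) (by norm_num) (by positivity)
  have : (fun k : ℕ => err (rr A k)) =
      fun k : ℕ => ENNReal.ofReal (Real.exp (- Real.sqrt ((rr A k : ℕ) : ℝ))) := rfl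
  rw [this]
  exact hreal.tsum_ofReal_ne_top

/-- small powers of the scale -/
theorem rr_small (A : ℕ) (hA : 2 ≤ A) (c : ℝ) (hc : 0 < c) : ∃ k1 : ℕ, ∀ k ≥ k1, (rr A k : ℝ) ≤ c * 2 ^ k := by
  obtain ⟨n0, hn0⟩ := pow_unbounded_of_one_lt (1 / c) (one_lt_two : (1 : ℝ) < 2)
  refine ⟨2 * n0, fun k hk => ?_⟩
  have h1 : k / A ≤ k / 2 := Nat.div_le_div_left hA (by norm_num)
  have h2 : ((rr A k : ℕ) : ℝ) ≤ 2 ^ (k / 2) := by
    simp only [rr, Nat.cast_pow, Nat.cast_ofNat]
    exact pow_le_pow_right₀ (by norm_num) h1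
  have h3 : (1 : ℝ) ≤ c * 2 ^ (k / 2) := by
    have h4 : (2 : ℝ) ^ n0 ≤ 2 ^ (k / 2) := pow_le_pow_right₀ (by norm_num) (by omega)
    have h5 : 1 / c < 2 ^ (k / 2) := lt_of_lt_of_le hn0 h4
    rw [div_lt_iff₀ hc] at h5
    linarith
  have h6 : (2 : ℝ) ^ (k / 2) * 2 ^ (k / 2) ≤ 2 ^ k := by
    rw [← pow_add]
    exact pow_le_pow_right₀ (by norm_num) (by omega)
  calc ((rr A k : ℕ) : ℝ) ≤ 2 ^ (k / 2) := h2
    _ ≤ (c * 2 ^ (k / 2)) * 2 ^ (k / 2) := le_mul_of_one_le_left (by positivity) h3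
    _ = c * (2 ^ (k / 2) * 2 ^ (k / 2)) := by ring
    _ ≤ c * 2 ^ k := mul_le_mul_of_nonneg_left h6 hc.le

end ZI.Rows
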