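import Pool.Agent.ZI.Sys2
import Pool.Agent.ZI.D0
import Pool.Agent.ZI.S7

/-! # ZI row S8: Lemma 7.1, deterministic part -/

set_option autoImplicit false

open scoped ENNReal BigOperators Classical
open MeasureTheory

noncomputable section

namespace ZI.S8

open ZI

variable {d : ℕ}

theorem nrm_eq (v : Pos d) : nrm v = ‖(WithLp.toLp 2 (fun j => (v j : ℝ)) : EuclideanSpace ℝ (Fin d))‖ := by
  rw [EuclideanSpace.norm_eq]
  unfold nrm
  congr 1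
  refine Finset.sum_congr rfl fun j _ => ?_
  simp

theorem nrm_nonneg (v : Pos d) : 0 ≤ nrm v := Real.sqrt_nonneg _

theorem nrm_zero : nrm (0 : Pos d) = 0 := by
  simp [nrm]

theorem nrm_add_le (v w : Pos d) : nrm (v + w) ≤ nrm v + nrm w := by
  rw [nrm_eq, nrm_eq, nrm_eq]
  have : (WithLp.toLp 2 (fun j => ((v + w) j : ℝ)) : EuclideanSpace ℝ (Fin d)) =
      WithLp.toLp 2 (fun j => (v j : ℝ)) + WithLp.toLp 2 (fun j => (w j : ℝ)) := by
    ext j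
    simp
  rw [this]
  exact norm_add_le _ _

theorem nrm_neg (v : Pos d) : nrm (-v) = nrm v := by
  simp [nrm]

theorem nrm_sub_comm (v w : Pos d) : nrm (v - w) = nrm (w - v) := by
  rw [← nrm_neg (v - w)]
  congr 1
  abel

theorem nrm_sub_le (x y z : Pos d) : nrm (x - z) ≤ nrm (x - y) + nrm (y - z) := by
  have := nrm_add_le (x - y) (y - z)
  rwa [sub_add_sub_cancel] at this

theorem abs_le_nrm (v : Pos d) (j : Fin d) : |(v j : ℝ)| ≤ nrm v := by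
  unfold nrm
  rw [← Real.sqrt_sq_eq_abs]
  apply Real.sqrt_le_sqrt
  exact Finset.single_le_sum (f := fun j => ((v j : ℝ)) ^ 2) (fun i _ => sq_nonneg _) (Finset.mem_univ j)

theorem nrm_le_sum (v : Pos d) : nrm v ≤ ∑ j, |(v j : ℝ)| := by
  unfold nrm
  apply Real.sqrt_le_iff.2
  refine ⟨Finset.sum_nonneg fun _ _ => abs_nonneg _, ?_⟩
  have := Finset.sum_sq_le_sq_sum_of_nonneg (s := (Finset.univ : Finset (Fin d)))
    (f := fun j => |(v j : ℝ)|) (fun _ _ => abs_nonneg _)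
  simpa [sq_abs] using this

theorem nrm_le_mul (v : Pos d) (c : ℝ) (h : ∀ j, |(v j : ℝ)| ≤ c) : nrm v ≤ d * c := by
  refine (nrm_le_sum v).trans ?_
  calc ∑ j, |(v j : ℝ)| ≤ ∑ _j : Fin d, c := Finset.sum_le_sum fun j _ => h j
    _ = d * c := by simp

theorem natAbs_le_supn (v : Pos d) (j : Fin d) : (v j).natAbs ≤ supn v :=
  Finset.le_sup (f := fun j => (v j).natAbs) (Finset.mem_univ j)

theorem nrm_le_supn (v : Pos d) (r : ℕ) (h : supn v ≤ r) : nrm v ≤ d * r := by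
  refine nrm_le_mul v r fun j => ?_
  have := (natAbs_le_supn v j).trans h
  have h2 : |(v j : ℝ)| = ((v j).natAbs : ℝ) := by
    rw [Nat.cast_natAbs, Int.cast_abs]
  rw [h2]
  exact_mod_cast this

theorem supn_le_of_nrm (v : Pos d) (c : ℕ) (h : nrm v ≤ c) : supn v ≤ c := by
  refine Finset.sup_le fun j _ => ?_
  have h1 := (abs_le_nrm v j).trans h
  have h2 : |(v j : ℝ)| = ((v j).natAbs : ℝ) := by
    rw [Nat.cast_natAbs, Int.cast_abs]
  rw [h2] at h1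
  exact_mod_cast h1

theorem lev_add (u : Fin d → ℝ) (v w : Pos d) : lev u (v + w) = lev u v + lev u w := by
  unfold lev
  rw [← Finset.sum_add_distrib]
  refine Finset.sum_congr rfl fun j _ => ?_
  push_cast [Pi.add_apply]
  ring

theorem lev_sub (u : Fin d → ℝ) (v w : Pos d) : lev u (v - w) = lev u v - lev u w := by
  unfold lev
  rw [← Finset.sum_sub_distrib]
  refine Finset.sum_congr rfl fun j _ => ?_
  push_cast [Pi.sub_apply]
  ring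

theorem lev_zero (u : Fin d → ℝ) : lev u (0 : Pos d) = 0 := by
  simp [lev]

theorem abs_lev_le (u : Fin d → ℝ) (hu : ∑ j, u j ^ 2 = 1) (v : Pos d) : |lev u v| ≤ nrm v := by
  have h := Finset.sum_mul_sq_le_sq_mul_sq Finset.univ u (fun j => (v j : ℝ))
  rw [hu, one_mul] at h
  unfold lev nrm
  rw [← Real.sqrt_sq_eq_abs]
  exact Real.sqrt_le_sqrt h

theorem sum_abs_u (u : Fin d → ℝ) (hu : ∑ j, u j ^ 2 = 1) : ∑ j, |u j| ≤ d := by
  have h : ∀ j, |u j| ≤ 1 := fun j => by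
    have h1 : u j ^ 2 ≤ 1 := by
      rw [← hu]
      exact Finset.single_le_sum (f := fun j => u j ^ 2) (fun i _ => sq_nonneg _) (Finset.mem_univ j)
    have := abs_le_one_iff_mul_self_le_one.2 (by nlinarith : u j * u j ≤ 1)
    exact this
  calc ∑ j, |u j| ≤ ∑ _j : Fin d, (1 : ℝ) := Finset.sum_le_sum fun j _ => h j
    _ = d := by simp

/-- the points of the segment -/
def seg (x y : Pos d) (N i : ℕ) : Pos d := fun j => x j + ((i : ℤ) * (y j - x j)) / (N : ℤ)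

theorem seg_zero (x y : Pos d) (N : ℕ) : seg x y N 0 = x := by
  funext j
  simp [seg]

theorem seg_last (x y : Pos d) (N : ℕ) (hN : 0 < N) : seg x y N N = y := by
  funext j
  have : (N : ℤ) ≠ 0 := by exact_mod_cast hN.ne'
  simp only [seg]
  rw [Int.mul_ediv_cancel_left _ this]
  ring

theorem seg_err (x y : Pos d) (N i : ℕ) (hN : 0 < N) (j : Fin d) :
    |((seg x y N i j : ℤ) : ℝ) - (x j + (i : ℝ) / N * (y j - x j))| ≤ 1 := by
  have hN' : (0 : ℤ) < N := by exact_mod_cast hN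
  have hNr : (0 : ℝ) < N := by exact_mod_cast hN
  have h1 := Int.emod_add_mul_ediv ((i : ℤ) * (y j - x j)) (N : ℤ)
  have h2 := Int.emod_nonneg ((i : ℤ) * (y j - x j)) hN'.ne'
  have h3 := Int.emod_lt_of_pos ((i : ℤ) * (y j - x j)) hN'
  set e := ((i : ℤ) * (y j - x j)) % (N : ℤ) with he
  set c := ((i : ℤ) * (y j - x j)) / (N : ℤ) with hc
  have h1r : (e : ℝ) + N * c = (i : ℝ) * (y j - x j) := by exact_mod_cast h1
  have h2r : (0 : ℝ) ≤ e := by exact_mod_cast h2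
  have h3r : (e : ℝ) < N := by exact_mod_cast h3
  have h4 : (i : ℝ) / N * (y j - x j) = e / N + c := by
    rw [div_mul_eq_mul_div, ← h1r]
    field_simp
  have h5 : ((seg x y N i j : ℤ) : ℝ) = x j + c := by
    simp only [seg]
    push_cast
    rfl
  rw [h5, h4]
  have h6 : (x j : ℝ) + c - (x j + (e / N + c)) = -(e / N) := by ring
  rw [h6, abs_neg, abs_of_nonneg (by positivity), div_le_one hNr]
  exact h3r.le

theorem seg_step (x y : Pos d) (N i : ℕ) (hN : 0 < N) :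
    nrm (seg x y N (i + 1) - seg x y N i) ≤ nrm (y - x) / N * d + 2 * d := by
  have hNr : (0 : ℝ) < N := by exact_mod_cast hN
  have := nrm_le_mul (seg x y N (i + 1) - seg x y N i) (nrm (y - x) / N + 2) fun j => by
    have h1 := seg_err x y N (i + 1) hN j
    have h2 := seg_err x y N i hN j
    have h3 := abs_le_nrm (y - x) j
    rw [abs_le] at h1 h2 h3
    push_cast [Pi.sub_apply] at h1 h2 h3 ⊢
    have h4 : ((i : ℝ) + 1) / N * (y j - x j) - (i : ℝ) / N * (y j - x j) = (y j - x j) / N := by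
      field_simp
      ring
    have h5 : ((y j : ℝ) - x j) / N ≤ nrm (y - x) / N := by
      apply div_le_div_of_nonneg_right h3.2 hNr.le
    have h6 : -(nrm (y - x) / N) ≤ ((y j : ℝ) - x j) / N := by
      rw [← neg_div]
      apply div_le_div_of_nonneg_right h3.1 hNr.le
    rw [abs_le]
    constructor <;> linarith [h1.1, h1.2, h2.1, h2.2]
  refine this.trans (le_of_eq ?_)
  ring

theorem seg_nrm (x y : Pos d) (N i : ℕ) (hN : 0 < N) (hi : i ≤ N) :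
    nrm (seg x y N i - x) ≤ d * nrm (y - x) + d := by
  have hNr : (0 : ℝ) < N := by exact_mod_cast hN
  have := nrm_le_mul (seg x y N i - x) (nrm (y - x) + 1) fun j => by
    have h1 := seg_err x y N i hN j
    have h3 := abs_le_nrm (y - x) j
    have h4 : (i : ℝ) / N ≤ 1 := by
      rw [div_le_one hNr]
      exact_mod_cast hi
    have h5 : 0 ≤ (i : ℝ) / N := by positivity
    have h6 : |(i : ℝ) / N * ((y j : ℝ) - x j)| ≤ nrm (y - x) := by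
      rw [abs_mul, abs_of_nonneg h5]
      push_cast [Pi.sub_apply] at h3
      calc (i : ℝ) / N * |(y j : ℝ) - x j| ≤ 1 * |(y j : ℝ) - x j| :=
            mul_le_mul_of_nonneg_right h4 (abs_nonneg _)
        _ ≤ nrm (y - x) := by rw [one_mul]; exact h3
    rw [abs_le] at h1 h6
    push_cast [Pi.sub_apply] at h1 ⊢
    rw [abs_le]
    constructor <;> linarith [h1.1, h1.2, h6.1, h6.2]
  refine this.trans (le_of_eq ?_)
  ring

theorem seg_lev (u : Fin d → ℝ) (hu : ∑ j, u j ^ 2 = 1) (x y z : Pos d) (N i : ℕ) (hN : 0 < N)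
    (hi : i ≤ N) (c : ℝ) (hx : c ≤ lev u (x - z)) (hy : c ≤ lev u (y - z)) :
    c - d ≤ lev u (seg x y N i - z) := by
  have hNr : (0 : ℝ) < N := by exact_mod_cast hN
  have h4 : (i : ℝ) / N ≤ 1 := by
    rw [div_le_one hNr]
    exact_mod_cast hi
  have h5 : 0 ≤ (i : ℝ) / N := by positivity
  have h1 : lev u (seg x y N i - z) = (1 - (i : ℝ) / N) * lev u (x - z) + (i : ℝ) / N * lev u (y - z)
      + ∑ j, u j * (((seg x y N i j : ℤ) : ℝ) - (x j + (i : ℝ) / N * (y j - x j))) := by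
    unfold lev
    rw [Finset.mul_sum, Finset.mul_sum, ← Finset.sum_add_distrib, ← Finset.sum_add_distrib]
    refine Finset.sum_congr rfl fun j _ => ?_
    push_cast [Pi.sub_apply]
    ring
  have h2 : |∑ j, u j * (((seg x y N i j : ℤ) : ℝ) - (x j + (i : ℝ) / N * (y j - x j)))| ≤ d := by
    refine (Finset.abs_sum_le_sum_abs _ _).trans (le_trans ?_ (sum_abs_u u hu))
    refine Finset.sum_le_sum fun j _ => ?_
    rw [abs_mul]
    calc |u j| * _ ≤ |u j| * 1 := mul_le_mul_of_nonneg_left (seg_err x y N i hN j) (abs_nonneg _)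
      _ = |u j| := mul_one _
  rw [abs_le] at h2
  rw [h1]
  nlinarith [h2.1, mul_le_mul_of_nonneg_left hx (sub_nonneg.2 h4), mul_le_mul_of_nonneg_left hy h5]

end ZI.S8
namespace ZI.S8

open ZI ZI.Rows

variable {d : ℕ}

theorem walk (E : Env d) (T r : ℕ) (h1 : ∀ t ≤ T, ∀ x : Pos d, ∃ v : Pos d, supn v ≤ r ∧ E.occ t (x + v))
    (x y : Pos d) (N : ℕ) (hN : 0 < N) (τ : ℕ → ℕ) (hτ : ∀ i ≤ N, τ i ≤ T)
    (hx : E.occ (τ 0) x) (hy : E.occ (τ N) y) (ℓ ρ : ℝ) (hρ : 0 ≤ ρ)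
    (hℓ : nrm (y - x) / N * d + 2 * d + 2 * (d * r) ≤ ℓ)
    (hstep : ∀ i < N, ∀ a b : Pos d, E.occ (τ i) a → E.occ (τ (i + 1)) b → nrm (b - a) ≤ ℓ →
      nrm (a - x) ≤ d * nrm (y - x) + d + d * r → E.R (fun _ => Ball b ρ) (τ i) a (τ (i + 1)) b) :
    E.R (fun _ => {b | ∃ i ≤ N, nrm (b - seg x y N i) ≤ ρ + d * r}) (τ 0) x (τ N) y := by
  have hY : ∀ i : ℕ, ∃ Y : Pos d, i ≤ N → supn (Y - seg x y N i) ≤ r ∧ E.occ (τ i) Y ∧
      (i = 0 → Y = x) ∧ (i = N → Y = y) := by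
    intro i
    by_cases h0 : i = 0
    · refine ⟨x, fun _ => ⟨?_, ?_, fun _ => rfl, fun h => ?_⟩⟩
      · rw [h0, seg_zero, sub_self]
        simp [supn]
      · rw [h0]
        exact hx
      · omega
    by_cases hN' : i = N
    · refine ⟨y, fun _ => ⟨?_, ?_, fun h => absurd h h0, fun _ => rfl⟩⟩
      · rw [hN', seg_last _ _ _ hN, sub_self]
        simp [supn]
      · rw [hN']
        exact hy
    by_cases hle : i ≤ N
    · obtain ⟨v, hv, ho⟩ := h1 (τ i) (hτ i hle) (seg x y N i)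
      refine ⟨seg x y N i + v, fun _ => ⟨?_, ho, fun h => absurd h h0, fun h => absurd h hN'⟩⟩
      rw [add_sub_cancel_left]
      exact hv
    · exact ⟨x, fun h => absurd h hle⟩
  choose Y hY using hY
  have hdr : (0 : ℝ) ≤ d * r := by positivity
  have key : ∀ i, i ≤ N →
      E.R (fun _ => {b | ∃ i ≤ N, nrm (b - seg x y N i) ≤ ρ + d * r}) (τ 0) x (τ i) (Y i) := by
    intro i
    induction i with
    | zero =>
      intro _
      rw [(hY 0 (Nat.zero_le _)).2.2.1 rfl]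
      refine R_self E hx ⟨0, Nat.zero_le _, ?_⟩
      rw [seg_zero, sub_self, nrm_zero]
      linarith
    | succ i ih =>
      intro hi
      have hi' : i < N := by omega
      have h2 := ih hi'.le
      obtain ⟨ha1, ha2, -, -⟩ := hY i hi'.le
      obtain ⟨hb1, hb2, -, -⟩ := hY (i + 1) hi
      have ea := nrm_le_supn _ _ ha1
      have eb := nrm_le_supn _ _ hb1
      have es := seg_step x y N i hN
      have h3 : nrm (Y (i + 1) - Y i) ≤ ℓ := by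
        have e1 := nrm_sub_le (Y (i + 1)) (seg x y N (i + 1)) (Y i)
        have e2 := nrm_sub_le (seg x y N (i + 1)) (seg x y N i) (Y i)
        rw [nrm_sub_comm (seg x y N i) (Y i)] at e2
        linarith
      have h4 : nrm (Y i - x) ≤ d * nrm (y - x) + d + d * r := by
        have e1 := nrm_sub_le (Y i) (seg x y N i) x
        have e2 := seg_nrm x y N i hN hi'.le
        linarith
      have h5 := hstep i hi' (Y i) (Y (i + 1)) ha2 hb2 h3 h4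
      refine R_trans E h2 (R_mono E (fun _ => ?_) h5)
      intro b hb
      refine ⟨i + 1, hi, ?_⟩
      have e1 := nrm_sub_le b (Y (i + 1)) (seg x y N (i + 1))
      have e2 : nrm (b - Y (i + 1)) ≤ ρ := hb
      linarith
  have h6 := key N le_rfl
  rwa [(hY N le_rfl).2.2.2 rfl] at h6

theorem after (E : Env d) (T : ℕ) (c4 : ℝ) (hc4 : 0 ≤ c4)
    (g4' : ∀ τ, τ + 1 ≤ T → ∀ x b, E.vis (fun _ => Set.univ) τ x (τ + 1) b → nrm (b - x) ≤ c4)
    (Z : ℕ → Pos d) (σ e : ℕ) (hσe : σ ≤ e) (he : e ≤ T)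
    (hZ : ∀ τ, σ ≤ τ → τ < e → E.R (fun _ => Set.univ) τ (Z τ) (τ + 1) (Z (τ + 1)))
    (hocc : E.occ σ (Z σ)) (G : ℕ → Set (Pos d)) (hGσ : Z σ ∈ G σ)
    (hG : ∀ τ, σ ≤ τ → τ < e → ∀ b, nrm (b - Z τ) ≤ c4 → b ∈ G τ) :
    E.R G σ (Z σ) e (Z e) := by
  have key : ∀ τ, σ ≤ τ → τ ≤ e → E.R G σ (Z σ) τ (Z τ) := by
    intro τ hτ
    induction τ, hτ using Nat.le_induction with
    | base =>
      intro _
      exact R_self E hocc hGσ
    | succ τ hτ ih =>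
      intro hτe
      have h1 := ih (by omega)
      have h2 := hZ τ hτ (by omega)
      have h3 := R_restrict E (G' := G) h2 (hG τ hτ (by omega) _ (by rw [sub_self, nrm_zero]; exact hc4))
        (by
          intro j hj b hb
          have hj0 : j = 0 := by omega
          subst hj0
          refine hG τ hτ (by omega) b (g4' τ (by omega) (Z τ) b ⟨0, by omega, hb⟩))
      exact R_trans E h1 (R_mono E (fun _ => Set.inter_subset_right) h3)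
  exact key e hσe le_rfl

end ZI.S8
namespace ZI.S8

open ZI ZI.Rows

variable {d : ℕ}

theorem inf_congr (E : Env d) (G G' : ℕ → Set (Pos d)) (s : ℕ) (A : Set (Pos d)) : ∀ j : ℕ,
    (∀ i ≤ j, G (s + i) = G' (s + i)) →
      inf E.nb E.pr E.η0 E.U G s A j = inf E.nb E.pr E.η0 E.U G' s A j := by
  intro j
  induction j with
  | zero =>
    intro h
    have h0 := h 0 le_rfl
    rw [add_zero] at h0
    simp only [inf, h0]
  | succ j ih =>
    intro h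
    have h1 := ih fun i hi => h i (by omega)
    have h2 := h j (by omega)
    simp only [inf, h1, h2]

theorem R_upto (E : Env d) {G G' : ℕ → Set (Pos d)} {s t : ℕ} {x y : Pos d} (h : E.R G s x t y)
    (hG : ∀ τ, s ≤ τ → τ ≤ t → G τ ⊆ G' τ) : E.R G' s x t y := by
  have h1 : E.R (fun τ => if s ≤ τ ∧ τ ≤ t then G' τ else G τ) s x t y := by
    refine R_mono E (fun τ => ?_) h
    by_cases hτ : s ≤ τ ∧ τ ≤ t
    · rw [if_pos hτ]
      exact hG τ hτ.1 hτ.2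
    · rw [if_neg hτ]
  obtain ⟨j, hj, hy⟩ := h1
  refine ⟨j, hj, ?_⟩
  rw [← inf_congr E (fun τ => if s ≤ τ ∧ τ ≤ t then G' τ else G τ) G' s {x} j ?_]
  · exact hy
  · intro i hi
    rw [if_pos ⟨by omega, by omega⟩]

theorem bh_le (E : Env d) (P : BP) (u : Fin d → ℝ) (m : ℕ) (z : Pos d) (s e : ℕ) (hse : s ≤ e)
    (y : Pos d) (h : E.R (wall P u z s) s (E.near s z) e y) (hm : (m : ℝ) ≤ lev u (y - z)) :
    E.bh P u m z s ≤ e - s := by
  refine Nat.sInf_le ⟨y, ?_, hm⟩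
  have : s + (e - s) = e := by omega
  rw [this]
  exact h

/-- the times of the steps -/
def tm (s e N i : ℕ) : ℕ := s + i * (e - s) / N

theorem tm_zero (s e N : ℕ) : tm s e N 0 = s := by simp [tm]

theorem tm_last (s e N : ℕ) (hN : 0 < N) (hse : s ≤ e) : tm s e N N = e := by
  unfold tm
  rw [Nat.mul_div_cancel_left _ hN]
  omega

theorem tm_mono (s e N i j : ℕ) (hij : i ≤ j) : tm s e N i ≤ tm s e N j := by
  unfold tm
  have := Nat.div_le_div_right (c := N) (Nat.mul_le_mul_right (e - s) hij)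
  omega

theorem tm_lb (s e N i : ℕ) (hN : 0 < N) :
    (tm s e N i : ℝ) + ((e - s : ℕ) : ℝ) / N - 1 ≤ tm s e N (i + 1) := by
  have hNr : (0 : ℝ) < N := by exact_mod_cast hN
  have h1 : (((i * (e - s)) / N : ℕ) : ℝ) ≤ (i : ℝ) * ((e - s : ℕ) : ℝ) / N := by
    have := @Nat.cast_div_le ℝ _ _ _ (i * (e - s)) N
    push_cast at this ⊢
    exact this
  have h2 : ((i : ℝ) + 1) * ((e - s : ℕ) : ℝ) / N - 1 ≤ ((((i + 1) * (e - s)) / N : ℕ) : ℝ) := by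
    have h3 := Nat.lt_div_mul_add (a := (i + 1) * (e - s)) hN
    have h4 : (((i + 1) * (e - s) : ℕ) : ℝ) < ((((i + 1) * (e - s)) / N * N + N : ℕ) : ℝ) := by
      exact_mod_cast h3
    push_cast at h4
    rw [sub_le_iff_le_add, div_le_iff₀ hNr]
    linarith
  unfold tm
  push_cast
  have h5 : ((i : ℝ) + 1) * ((e - s : ℕ) : ℝ) / N = (i : ℝ) * ((e - s : ℕ) : ℝ) / N + ((e - s : ℕ) : ℝ) / N := by
    ring
  linarith

theorem climb {Ω : Type} [MeasurableSpace Ω] {P : Measure Ω} (S : Sys d P) (k : ℕ) (hk : S.k0 ≤ k)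
    (E : Env d) (hE : GoodK S.a S.A S.Cv k E) (u : Fin d → ℝ) (hu : ∑ j, u j ^ 2 = 1)
    (𝒰 : Finset (Fin d → ℝ)) (hu𝒰 : u ∈ 𝒰) (Γ : (Fin d → ℝ) → ℝ) (Γm : ℝ)
    (hΓ : ∀ v ∈ 𝒰, 0 < Γ v ∧ Γ v ≤ Γm) (hstep : StepP S.a S.A k E 𝒰 Γ) (q : ℕ) (z : Pos d) (s : ℕ)
    (h1 : 2 ^ k ≤ q ^ 2) (h2 : q ≤ 2 ^ k) (h3 : rr S.A k ^ (7 * S.a) ≤ q) (h4 : supn z ≤ (2 ^ k) ^ 2)
    (h5 : 2 * s ≤ (2 ^ k) ^ 2) (h6 : s + rr S.A k ^ (2 * S.a) * q ≤ (2 ^ k) ^ 2)
    (hr : 1 ≤ rr S.A k) :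
    ∃ (h : ℕ) (x1 : Pos d), (h : ℝ) ≤ Γm * q ∧
      E.R (wall (PK d S.a S.A k) u z s) s (E.near s z) (s + h) x1 ∧ E.occ (s + h) x1 ∧
      (q : ℝ) ≤ lev u (x1 - z) ∧ nrm (x1 - z) ≤ S.Cv * (Γm * q) + 2 * d * rr S.A k := by
  have hS := hstep u hu𝒰 q h1 h2 z s h4 h5
  have hm : q ≤ rr S.A k * 2 ^ k := h2.trans (Nat.le_mul_of_pos_left _ hr)
  have F := S.facts k hk E hE u hu q h3 hm z s h6
  have hh : ((E.bh (PK d S.a S.A k) u q z s : ℕ) : ℝ) ≤ Γm * q :=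
    hS.trans (mul_le_mul_of_nonneg_right (hΓ u hu𝒰).2 (Nat.cast_nonneg _))
  refine ⟨E.bh (PK d S.a S.A k) u q z s, z + E.bx (PK d S.a S.A k) u q z s, hh, F.x_mem, F.x_occ, ?_, ?_⟩
  · rw [add_sub_cancel_left]
    exact F.x_lev
  · rw [add_sub_cancel_left]
    refine F.x_nrm.trans ?_
    have := mul_le_mul_of_nonneg_left hh (Nat.cast_nonneg S.Cv : (0 : ℝ) ≤ S.Cv)
    linarith

end ZI.S8
namespace ZI.S8

open ZI ZI.Rows

variable {d : ℕ}

theorem walkWall (a A Cv k : ℕ) (E : Env d) (hE : GoodK a A Cv k E) (C b : ℝ) (hC : 0 ≤ C) (hb : 0 ≤ b)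
    (hreach : ∀ (x y : Pos d) (s t : ℕ), E.occ s x → supn x ≤ rr A k * 2 ^ k →
      nrm (y - x) ≤ 2 ^ k → (s : ℝ) + C * nrm (y - x) + b ≤ t →
      t ≤ s + rr A k * 2 ^ k → 2 * t ≤ (2 ^ k) ^ 2 → E.occ t y →
      E.R (fun _ => Ball y (2 * nrm (y - x) + b)) s x t y)
    (P : BP) (u : Fin d → ℝ) (hu : ∑ j, u j ^ 2 = 1) (z x1 y : Pos d) (s s1 σ q N : ℕ) (hN : 0 < N)
    (D1 : ℝ) (hx1 : E.occ s1 x1) (hy : E.occ σ y) (hD1 : nrm (y - x1) ≤ D1) (hs1σ : s1 ≤ σ)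
    (n1 : D1 / N * d + 2 * d + 2 * (d * rr A k) ≤ (q : ℝ) / 16)
    (n2 : d * D1 + d + d * rr A k + nrm (x1 - z) + nrm z ≤ ((rr A k * 2 ^ k : ℕ) : ℝ))
    (n3 : (q : ℝ) / 16 ≤ 2 ^ k)
    (n4 : C * ((q : ℝ) / 16) + b + 1 ≤ ((σ - s1 : ℕ) : ℝ) / N)
    (n5 : σ ≤ s1 + rr A k * 2 ^ k)
    (n6 : 2 * σ ≤ (2 ^ k) ^ 2)
    (hlx : (q : ℝ) ≤ lev u (x1 - z)) (hly : (q : ℝ) ≤ lev u (y - z))
    (n7 : ∀ τ : ℕ, τ ≤ σ → -(P.mg : ℝ) + ((τ : ℝ) - s) / (16 * P.κ) ≤ q - d - (2 * ((q : ℝ) / 16) + b) - d * rr A k)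
    (n8 : d * D1 + d + (2 * ((q : ℝ) / 16) + b) + d * rr A k + nrm (x1 - z) ≤ (P.Dw : ℝ)) :
    E.R (wall P u z s) s1 x1 σ y := by
  have hNr : (0 : ℝ) < N := by exact_mod_cast hN
  have hσT : σ ≤ (2 ^ k) ^ 2 := by omega
  have hd0 : (0 : ℝ) ≤ d := Nat.cast_nonneg _
  have hw := walk E ((2 ^ k) ^ 2) (rr A k) (fun t ht x => by
      obtain ⟨v, -, h1, h2⟩ := hE.g1 t ht x
      exact ⟨v, h1, h2⟩) x1 y N hN (tm s1 σ N) (fun i hi => by
        have := tm_mono s1 σ N i N hi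
        rw [tm_last _ _ _ hN hs1σ] at this
        omega) (by rw [tm_zero]; exact hx1) (by rw [tm_last _ _ _ hN hs1σ]; exact hy)
      ((q : ℝ) / 16) (2 * ((q : ℝ) / 16) + b) (by positivity) (by
        refine le_trans ?_ n1
        have : nrm (y - x1) / N * d ≤ D1 / N * d :=
          mul_le_mul_of_nonneg_right (div_le_div_of_nonneg_right hD1 hNr.le) hd0
        linarith) (by
        intro i hi p p' hp hp' hpp hpx
        have e1 : nrm (p' - p) ≤ 2 ^ k := hpp.trans n3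
        have e2 : supn p ≤ rr A k * 2 ^ k := by
          refine supn_le_of_nrm _ _ ?_
          have f1 := nrm_add_le (p - x1) x1
          have f2 := nrm_add_le (x1 - z) z
          rw [sub_add_cancel] at f1 f2
          have f3 : d * nrm (y - x1) ≤ d * D1 := mul_le_mul_of_nonneg_left hD1 hd0
          linarith
        have e3 := tm_lb s1 σ N i hN
        have e4 : C * nrm (p' - p) ≤ C * ((q : ℝ) / 16) := mul_le_mul_of_nonneg_left hpp hC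
        have e5 := tm_mono s1 σ N (i + 1) N (by omega)
        rw [tm_last _ _ _ hN hs1σ] at e5
        have e6 := tm_mono s1 σ N 0 i (by omega)
        rw [tm_zero] at e6
        have h := hreach p p' (tm s1 σ N i) (tm s1 σ N (i + 1)) hp e2 e1 (by linarith) (by omega)
          (by omega) hp'
        refine R_mono E (fun _ w hw => ?_) h
        have hw' : nrm (w - p') ≤ 2 * nrm (p' - p) + b := hw
        show nrm (w - p') ≤ 2 * ((q : ℝ) / 16) + b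
        linarith)
  rw [tm_zero, tm_last _ _ _ hN hs1σ] at hw
  refine R_upto E hw fun τ hτ1 hτ2 w hw => ?_
  obtain ⟨i, hi, hw⟩ := hw
  have g1 := seg_lev u hu x1 y z N i hN hi q hlx hly
  have g2 := seg_nrm x1 y N i hN hi
  have g3 : |lev u (w - seg x1 y N i)| ≤ nrm (w - seg x1 y N i) := abs_lev_le u hu _
  have g4 : lev u (w - z) = lev u (w - seg x1 y N i) + lev u (seg x1 y N i - z) := by
    rw [← lev_add, sub_add_sub_cancel]
  rw [abs_le] at g3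
  constructor
  · have := n7 τ hτ2
    rw [g4]
    linarith [g3.1]
  · refine supn_le_of_nrm _ _ ?_
    have f1 := nrm_sub_le w (seg x1 y N i) z
    have f2 := nrm_sub_le (seg x1 y N i) x1 z
    have f3 : d * nrm (y - x1) ≤ d * D1 := mul_le_mul_of_nonneg_left hD1 hd0
    linarith

end ZI.S8
namespace ZI.S8

open ZI ZI.Rows

variable {d : ℕ}

theorem big (a A : ℕ) (ha : 10 ≤ a) (hA : 1000 * a ≤ A) (K : ℕ) : ∃ k1 : ℕ, ∀ k ≥ k1,
    K ≤ rr A k ∧ K * rr A k ^ (7 * a) ≤ 2 ^ k ∧ (K : ℝ) * ((2 : ℝ) ^ k) ^ (3 / 4 : ℝ) ≤ 2 ^ k := by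
  refine ⟨A * K + 4 * K, fun k hk => ⟨?_, ?_, ?_⟩⟩
  · have hA0 : 0 < A := by omega
    have h1 : K ≤ k / A := by
      rw [Nat.le_div_iff_mul_le hA0]
      nlinarith
    calc K ≤ 2 ^ K := Nat.lt_two_pow_self.le
      _ ≤ 2 ^ (k / A) := Nat.pow_le_pow_right (by norm_num) h1
  · unfold rr
    rw [← pow_mul]
    have h1 : k / A * A ≤ k := Nat.div_mul_le_self k A
    have h2 : k / A * (1000 * a) ≤ k / A * A := Nat.mul_le_mul_left _ hA
    have h3 : k / A * (7 * a) + K ≤ k := by nlinarith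
    calc K * 2 ^ (k / A * (7 * a)) ≤ 2 ^ K * 2 ^ (k / A * (7 * a)) :=
          Nat.mul_le_mul_right _ Nat.lt_two_pow_self.le
      _ = 2 ^ (k / A * (7 * a) + K) := by rw [pow_add, mul_comm]
      _ ≤ 2 ^ k := Nat.pow_le_pow_right (by norm_num) h3
  · have h0 : (0 : ℝ) < (2 : ℝ) ^ k := by positivity
    have h1 : ((2 : ℝ) ^ k) ^ (1 / 4 : ℝ) * ((2 : ℝ) ^ k) ^ (3 / 4 : ℝ) = 2 ^ k := by
      rw [← Real.rpow_add h0]
      norm_num
    have h2 : (K : ℝ) ≤ ((2 : ℝ) ^ k) ^ (1 / 4 : ℝ) := by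
      have h3 : (K : ℝ) ≤ 2 ^ K := by exact_mod_cast Nat.lt_two_pow_self.le
      have h4 : ((2 : ℝ) ^ (4 * K)) ^ (1 / 4 : ℝ) = 2 ^ K := by
        rw [← Real.rpow_natCast, ← Real.rpow_natCast, ← Real.rpow_mul (by norm_num)]
        congr 1
        push_cast
        ring
      refine h3.trans ?_
      rw [← h4]
      apply Real.rpow_le_rpow (by positivity)
      · apply pow_le_pow_right₀ (by norm_num)
        omega
      · norm_num
    calc (K : ℝ) * ((2 : ℝ) ^ k) ^ (3 / 4 : ℝ) ≤ ((2 : ℝ) ^ k) ^ (1 / 4 : ℝ) * ((2 : ℝ) ^ k) ^ (3 / 4 : ℝ) :=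
          mul_le_mul_of_nonneg_right h2 (by positivity)
      _ = 2 ^ k := h1

theorem exists_argmin (f : ℕ → ℝ) (s e : ℕ) (hse : s ≤ e) :
    ∃ σ, s ≤ σ ∧ σ ≤ e ∧ ∀ τ, s ≤ τ → τ ≤ e → f σ ≤ f τ := by
  obtain ⟨σ, hσ, hm⟩ := Finset.exists_min_image (Finset.Icc s e) f ⟨s, by simp [hse]⟩
  rw [Finset.mem_Icc] at hσ
  exact ⟨σ, hσ.1, hσ.2, fun τ h1 h2 => hm τ (by rw [Finset.mem_Icc]; exact ⟨h1, h2⟩)⟩

/-- the grid point behind `Y` -/
def gw (u : Fin d → ℝ) (q : ℕ) (Y : Pos d) : Pos d := fun j => round (((Y j : ℝ) - 2 * d * q * u j) / q)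

/-- scaling -/
def sc (q : ℕ) (w : Pos d) : Pos d := fun j => (q : ℤ) * w j

theorem gw_err (u : Fin d → ℝ) (q : ℕ) (hq : 0 < q) (Y : Pos d) (j : Fin d) :
    |((Y - sc q (gw u q Y)) j : ℝ) - 2 * d * q * u j| ≤ (q : ℝ) / 2 := by
  have hqr : (0 : ℝ) < q := by exact_mod_cast hq
  have h := abs_sub_round (((Y j : ℝ) - 2 * d * q * u j) / q)
  have h2 : ((Y - sc q (gw u q Y)) j : ℝ) - 2 * d * q * u j =
      q * (((Y j : ℝ) - 2 * d * q * u j) / q - round (((Y j : ℝ) - 2 * d * q * u j) / q)) := by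
    have : ((Y - sc q (gw u q Y)) j : ℤ) = Y j - q * round (((Y j : ℝ) - 2 * d * q * u j) / q) := rfl
    rw [this]
    push_cast
    rw [mul_sub, mul_div_cancel₀ _ hqr.ne']
    ring
  rw [h2, abs_mul, abs_of_pos hqr]
  calc (q : ℝ) * _ ≤ q * (1 / 2) := mul_le_mul_of_nonneg_left h hqr.le
    _ = q / 2 := by ring

theorem abs_u_le (u : Fin d → ℝ) (hu : ∑ j, u j ^ 2 = 1) (j : Fin d) : |u j| ≤ 1 := by
  have h1 : u j ^ 2 ≤ 1 := by
    rw [← hu]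
    exact Finset.single_le_sum (f := fun j => u j ^ 2) (fun i _ => sq_nonneg _) (Finset.mem_univ j)
  exact abs_le_one_iff_mul_self_le_one.2 (by nlinarith : u j * u j ≤ 1)

theorem gw_lev (u : Fin d → ℝ) (hu : ∑ j, u j ^ 2 = 1) (hd : 0 < d) (q : ℕ) (hq : 0 < q) (Y : Pos d) :
    (q : ℝ) ≤ lev u (Y - sc q (gw u q Y)) := by
  have hqr : (0 : ℝ) < q := by exact_mod_cast hq
  have hdr : (1 : ℝ) ≤ d := by exact_mod_cast hd
  have h1 : lev u (Y - sc q (gw u q Y)) = 2 * d * q +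
      ∑ j, u j * (((Y - sc q (gw u q Y)) j : ℝ) - 2 * d * q * u j) := by
    unfold lev
    have h2 : ∑ j, u j * (((Y - sc q (gw u q Y)) j : ℝ) - 2 * d * q * u j) =
        ∑ j, u j * ((Y - sc q (gw u q Y)) j : ℝ) - 2 * d * q * ∑ j, u j ^ 2 := by
      rw [Finset.mul_sum, ← Finset.sum_sub_distrib]
      refine Finset.sum_congr rfl fun j _ => ?_
      ring
    rw [h2, hu]
    ring
  have h3 : |∑ j, u j * (((Y - sc q (gw u q Y)) j : ℝ) - 2 * d * q * u j)| ≤ d * (q / 2) := by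
    refine (Finset.abs_sum_le_sum_abs _ _).trans ?_
    calc ∑ j, |u j * (((Y - sc q (gw u q Y)) j : ℝ) - 2 * d * q * u j)| ≤ ∑ j, |u j| * (q / 2) := by
          refine Finset.sum_le_sum fun j _ => ?_
          rw [abs_mul]
          exact mul_le_mul_of_nonneg_left (gw_err u q hq Y j) (abs_nonneg _)
      _ = (∑ j, |u j|) * (q / 2) := by rw [Finset.sum_mul]
      _ ≤ d * (q / 2) := mul_le_mul_of_nonneg_right (sum_abs_u u hu) (by positivity)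
  rw [abs_le] at h3
  rw [h1]
  nlinarith [h3.1]

theorem gw_nrm (u : Fin d → ℝ) (hu : ∑ j, u j ^ 2 = 1) (hd : 0 < d) (q : ℕ) (hq : 0 < q) (Y : Pos d) :
    nrm (Y - sc q (gw u q Y)) ≤ 3 * d ^ 2 * q := by
  have hqr : (0 : ℝ) < q := by exact_mod_cast hq
  have hdr : (1 : ℝ) ≤ d := by exact_mod_cast hd
  have := nrm_le_mul (Y - sc q (gw u q Y)) (3 * d * q) fun j => by
    have h1 := gw_err u q hq Y j
    have h2 : |2 * (d : ℝ) * q * u j| ≤ 2 * d * q := by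
      rw [abs_mul, abs_of_nonneg (by positivity)]
      calc 2 * (d : ℝ) * q * |u j| ≤ 2 * d * q * 1 :=
            mul_le_mul_of_nonneg_left (abs_u_le u hu j) (by positivity)
        _ = 2 * d * q := mul_one _
    have h3 : (q : ℝ) / 2 ≤ d * q := by nlinarith
    rw [abs_le] at h1 h2 ⊢
    constructor <;> linarith [h1.1, h1.2, h2.1, h2.2]
  refine this.trans (le_of_eq ?_)
  ring

theorem gw_bound (u : Fin d → ℝ) (hu : ∑ j, u j ^ 2 = 1) (q : ℕ) (hq : 0 < q) (Y : Pos d)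
    (K : ℝ) (hY : nrm Y ≤ K * q) (j : Fin d) : |((gw u q Y j : ℤ) : ℝ)| ≤ K + 2 * d + 1 := by
  have hqr : (0 : ℝ) < q := by exact_mod_cast hq
  have h := abs_sub_round (((Y j : ℝ) - 2 * d * q * u j) / q)
  have h1 : |((Y j : ℝ) - 2 * d * q * u j) / q| ≤ K + 2 * d := by
    rw [abs_div, abs_of_pos hqr, div_le_iff₀ hqr]
    have h2 := (abs_le_nrm Y j).trans hY
    have h3 : |2 * (d : ℝ) * q * u j| ≤ 2 * d * q := by
      rw [abs_mul, abs_of_nonneg (by positivity)]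
      calc 2 * (d : ℝ) * q * |u j| ≤ 2 * d * q * 1 :=
            mul_le_mul_of_nonneg_left (abs_u_le u hu j) (by positivity)
        _ = 2 * d * q := mul_one _
    rw [abs_le] at h2 h3 ⊢
    constructor <;> linarith [h2.1, h2.2, h3.1, h3.2]
  have h4 : (gw u q Y j : ℤ) = round (((Y j : ℝ) - 2 * d * q * u j) / q) := rfl
  rw [h4]
  rw [abs_le] at h h1 ⊢
  constructor <;> linarith [h.1, h.2, h1.1, h1.2]

end ZI.S8
namespace ZI.S8

open ZI ZI.Rows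

variable {d : ℕ}

theorem core {Ω : Type} [MeasurableSpace Ω] {P : Measure Ω} (S : Sys d P) (k : ℕ) (hk : S.k0 ≤ k)
    (E : Env d) (hE : GoodK S.a S.A S.Cv k E) (u : Fin d → ℝ) (hu : ∑ j, u j ^ 2 = 1)
    (𝒰 : Finset (Fin d → ℝ)) (hu𝒰 : u ∈ 𝒰) (Γ : (Fin d → ℝ) → ℝ) (Γm : ℝ) (hΓm : 0 < Γm)
    (hΓ : ∀ v ∈ 𝒰, 0 < Γ v ∧ Γ v ≤ Γm) (hstep : StepP S.a S.A k E 𝒰 Γ) (C b : ℝ) (hC : 0 < C)
    (hb : 0 ≤ b)
    (hreach : ∀ (x y : Pos d) (s t : ℕ), E.occ s x → supn x ≤ rr S.A k * 2 ^ k →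
      nrm (y - x) ≤ 2 ^ k → (s : ℝ) + C * nrm (y - x) + b ≤ t →
      t ≤ s + rr S.A k * 2 ^ k → 2 * t ≤ (2 ^ k) ^ 2 → E.occ t y →
      E.R (fun _ => Ball y (2 * nrm (y - x) + b)) s x t y)
    (g ε : ℝ) (hg : 0 < g) (hε : 0 < ε) (hε1 : ε < g) (N V L m q K : ℕ) (hN0 : 0 < N) (B1 : ℝ)
    (hB1 : B1 = 3 * (d : ℝ) ^ 2 + S.Cv * Γm + 1)
    (hN : 32 * B1 * d ≤ N)
    (hV : Γm + N * (C / 16 + 1) ≤ V) (hL : 4 * ((V : ℝ) + 1) ≤ ε * L)
    (c1 : K ≤ rr S.A k) (c2 : K * rr S.A k ^ (7 * S.a) ≤ q) (c3 : (K : ℝ) * b ≤ q) (c4 : q * L ≤ m)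
    (c6 : m ≤ 2 ^ k) (c8 : 2 ^ k ≤ K * q) (hL0 : 0 < L)
    (k1 : 128 * (d : ℝ) ≤ K)
    (k2 : (d + 1) * B1 + 6 * (d : ℝ) ^ 2 + 2 * S.Cv * g + 10 ≤ K)
    (k3 : 2 * ((V : ℝ) + g) + 10 ≤ K) (k4 : 4 * g ≤ ε * K) (k5 : 16 * (S.Cv : ℝ) ≤ K)
    (C3 : ℕ) (hC3 : 2 * (2 + (S.Cv : ℝ) * g + 3 * (d : ℝ) ^ 2) ≤ C3) (hC3m : C3 * m ≤ 2 ^ k)
    (t : ℕ) (x : Pos d) (ht : (t : ℝ) ≤ (g - ε) * m)
    (hR : E.R (fun _ => Set.univ) (V * q) 0 (V * q + t) x) (hx : (m : ℝ) ≤ lev u x)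
    (Kw : ℝ) (Kv : ℕ) (hmq : (m : ℝ) ≤ 2 * L * q)
    (hKw : (S.Cv * g + 1) * (2 * L) + 2 * d + 1 ≤ Kw) (hKv : (V : ℝ) + 2 * L * g + 1 ≤ Kv) :
    ∃ (w : Pos d) (v : ℕ), (∀ j, |((w j : ℤ) : ℝ)| ≤ Kw) ∧ v < Kv ∧ 2 * (q * v) ≤ (2 ^ k) ^ 2 ∧
      (m : ℝ) / 2 ≤ (⌊(m : ℝ) - lev u (sc q w)⌋₊ : ℝ) ∧
      2 * ⌊(m : ℝ) - lev u (sc q w)⌋₊ ≤ 2 ^ k ∧
      (E.bh (PK d S.a S.A k) u ⌊(m : ℝ) - lev u (sc q w)⌋₊ (sc q w) (q * v) : ℝ) ≤
        (g - ε / 2) * (⌊(m : ℝ) - lev u (sc q w)⌋₊ : ℝ) := by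
  -- basic facts
  have hd0 : 0 < d := S.d_pos
  have hdr : (1 : ℝ) ≤ d := by exact_mod_cast hd0
  have hr1 : 1 ≤ rr S.A k := Nat.one_le_two_pow
  have ha0 : 7 * S.a ≠ 0 := by have := S.a_big; omega
  have ha1 : S.a ≠ 0 := by have := S.a_big; omega
  have hr7 : rr S.A k ≤ rr S.A k ^ (7 * S.a) := Nat.le_self_pow ha0 _
  have hra : rr S.A k ≤ rr S.A k ^ S.a := Nat.le_self_pow ha1 _
  have hCv0 : (0 : ℝ) ≤ S.Cv := Nat.cast_nonneg _
  have hV0 : (0 : ℝ) ≤ V := Nat.cast_nonneg _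
  have hK10 : (10 : ℝ) ≤ K := by linarith
  have hK1 : 10 ≤ K := by exact_mod_cast hK10
  set r := rr S.A k with hr
  set n : ℝ := (2 : ℝ) ^ k with hn
  have hn0 : 0 < n := by positivity
  have ncast : ((2 ^ k : ℕ) : ℝ) = n := by push_cast; rfl
  have F1n : K * r ≤ q := (Nat.mul_le_mul_left _ hr7).trans c2
  have F1 : (K : ℝ) * r ≤ q := by exact_mod_cast F1n
  have hr1r : (1 : ℝ) ≤ r := by exact_mod_cast hr1
  have hKr0 : (0 : ℝ) ≤ K := Nat.cast_nonneg _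
  have F2 : (K : ℝ) ≤ q := le_trans (by
    calc (K : ℝ) = K * 1 := (mul_one _).symm
      _ ≤ K * r := mul_le_mul_of_nonneg_left hr1r hKr0) F1
  have F2n : K ≤ q := by exact_mod_cast F2
  have hq0 : 0 < q := by omega
  have hq0r : (0 : ℝ) < q := by exact_mod_cast hq0
  have F4 : (q : ℝ) * L ≤ m := by exact_mod_cast c4
  have hL1 : (1 : ℝ) ≤ L := by exact_mod_cast hL0
  have F5 : (q : ℝ) ≤ m := le_trans (by
    calc (q : ℝ) = q * 1 := (mul_one _).symm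
      _ ≤ q * L := mul_le_mul_of_nonneg_left hL1 hq0r.le) F4
  have F6 : (m : ℝ) ≤ n := by rw [← ncast]; exact_mod_cast c6
  have F7 : (K : ℝ) * n ≤ n * n := mul_le_mul_of_nonneg_right (by linarith) hn0.le
  have F8 : (K : ℝ) ≤ r := by exact_mod_cast c1
  have hqn : q ≤ 2 ^ k := by
    have : (q : ℝ) ≤ ((2 ^ k : ℕ) : ℝ) := by rw [ncast]; linarith
    exact_mod_cast this
  have hb1 : b ≤ (q : ℝ) / 10 := by
    have : 10 * b ≤ K * b := mul_le_mul_of_nonneg_right hK10 hb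
    linarith
  have hr2 : (r : ℝ) ≤ q / 10 := by
    have : 10 * (r : ℝ) ≤ K * r := mul_le_mul_of_nonneg_right hK10 (by linarith)
    linarith
  have hdr2 : 128 * (d : ℝ) * r ≤ q := by
    have : 128 * (d : ℝ) * r ≤ K * r := mul_le_mul_of_nonneg_right k1 (by linarith)
    linarith
  have hm0 : (0 : ℝ) < m := by linarith
  have hgm : 0 < g * m := by positivity
  have hgm2 : g * m ≤ g * n := mul_le_mul_of_nonneg_left F6 hg.le
  have htg : (t : ℝ) ≤ g * m := by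
    have : (g - ε) * m ≤ g * m := mul_le_mul_of_nonneg_right (by linarith) hm0.le
    linarith
  have hVq : (V : ℝ) * q ≤ V * n := mul_le_mul_of_nonneg_left (F5.trans F6) hV0
  have hB0 : 1 ≤ B1 := by
    rw [hB1]
    have := mul_nonneg hCv0 hΓm.le
    have h3 : (0 : ℝ) ≤ 3 * (d : ℝ) ^ 2 := by positivity
    linarith
  have hkk : (1 : ℝ) ≤ r := hr1r
  -- times
  have he2r : 2 * ((V : ℝ) * q + t) ≤ n * n := by
    have h1 : (2 * ((V : ℝ) + g)) * n ≤ K * n := mul_le_mul_of_nonneg_right (by linarith) hn0.le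
    linarith
  have he2 : 2 * (V * q + t) ≤ (2 ^ k) ^ 2 := by
    have : ((2 * (V * q + t) : ℕ) : ℝ) ≤ (((2 ^ k) ^ 2 : ℕ) : ℝ) := by
      push_cast
      rw [sq]
      exact he2r
    exact_mod_cast this
  obtain ⟨Z, hZ0, hZe, hZ⟩ := R_route E hR
  have hpos : ∀ τ, V * q ≤ τ → τ ≤ V * q + t → E.R (fun _ => Set.univ) (V * q) 0 τ (Z τ) := by
    intro τ h1 h2
    rcases Nat.lt_or_ge τ (V * q + t) with h | h
    · have := (hZ τ h1 h).2.1
      exact this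
    · have h3 : τ = V * q + t := by omega
      rw [h3, hZe]
      exact hR
  have hZn : ∀ τ, V * q ≤ τ → τ ≤ V * q + t → nrm (Z τ) ≤ S.Cv * (g * m) + r := by
    intro τ h1 h2
    have h3 := hE.g4 (V * q) τ 0 (Z τ) h1 (by omega) (hpos τ h1 h2)
    rw [sub_zero] at h3
    have h4 : (τ : ℝ) ≤ ((V * q : ℕ) : ℝ) + t := by exact_mod_cast h2
    have h5 : (S.Cv : ℝ) * ((τ : ℝ) - ((V * q : ℕ) : ℝ)) ≤ S.Cv * (g * m) :=
      mul_le_mul_of_nonneg_left (by linarith) hCv0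
    linarith
  obtain ⟨σ, hσ1, hσ2, hσ3⟩ := exists_argmin (fun τ => lev u (Z τ) - 1 / (4 * g) * (τ : ℝ)) (V * q)
    (V * q + t) (by omega)
  have hYocc : E.occ σ (Z σ) := R_occ E (hpos σ hσ1 hσ2)
  have hz1 := gw_lev u hu hd0 q hq0 (Z σ)
  have hz2 := gw_nrm u hu hd0 q hq0 (Z σ)
  have hYn := hZn σ hσ1 hσ2
  set w := gw u q (Z σ) with hw
  set z := sc q w with hz
  have hzn : nrm z ≤ S.Cv * (g * m) + r + 3 * d ^ 2 * q := by
    have h1 := nrm_sub_le z (Z σ) 0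
    rw [sub_zero, sub_zero, nrm_sub_comm] at h1
    linarith
  have hVσ : V ≤ σ / q := (Nat.le_div_iff_mul_le hq0).2 hσ1
  obtain ⟨v, hv⟩ := Nat.exists_eq_add_of_le hVσ
  have hs1 : q * v + V * q ≤ σ := by
    have h1 := Nat.mul_div_le σ q
    rw [hv] at h1
    calc q * v + V * q = q * (V + v) := by ring
      _ ≤ σ := h1
  have hs2 : σ < q * v + (V + 1) * q := by
    have h1 := Nat.lt_mul_div_succ σ hq0
    rw [hv] at h1
    calc σ < q * (V + v + 1) := h1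
      _ = q * v + (V + 1) * q := by ring
  have hs1r : (q : ℝ) * v + V * q ≤ σ := by exact_mod_cast hs1
  have hs2r : (σ : ℝ) < q * v + (V + 1) * q := by exact_mod_cast hs2
  have hσ1r : (V : ℝ) * q ≤ σ := by exact_mod_cast hσ1
  have hσ2r : (σ : ℝ) ≤ V * q + t := by exact_mod_cast hσ2
  -- bounds in terms of n
  have hqn' : (q : ℝ) ≤ n := F5.trans F6
  have hCg0 : 0 ≤ (S.Cv : ℝ) * g := mul_nonneg hCv0 hg.le
  have P1 : (S.Cv : ℝ) * (g * m) ≤ (S.Cv * g) * n := by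
    calc (S.Cv : ℝ) * (g * m) = (S.Cv * g) * m := by ring
      _ ≤ (S.Cv * g) * n := mul_le_mul_of_nonneg_left F6 hCg0
  have P2 : 3 * (d : ℝ) ^ 2 * q ≤ 3 * d ^ 2 * n := mul_le_mul_of_nonneg_left hqn' (by positivity)
  have P3 : B1 * q ≤ B1 * n := mul_le_mul_of_nonneg_left hqn' (by linarith)
  have P4 : (d : ℝ) * (B1 * q) ≤ d * B1 * n := by
    calc (d : ℝ) * (B1 * q) = (d * B1) * q := by ring
      _ ≤ (d * B1) * n := mul_le_mul_of_nonneg_left hqn' (by positivity)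
  have P5 : ((d + 1) * B1 + 6 * (d : ℝ) ^ 2 + 2 * S.Cv * g + 10) * n ≤ K * n :=
    mul_le_mul_of_nonneg_right k2 hn0.le
  have P6 : (K : ℝ) * n ≤ r * n := mul_le_mul_of_nonneg_right F8 hn0.le
  have P7 : 0 ≤ (d : ℝ) ^ 2 * n := by positivity
  have P8 : 0 ≤ (S.Cv : ℝ) * g * n := by positivity
  have P9 : 0 ≤ B1 * n := by positivity
  have P10 : 0 ≤ (d : ℝ) * B1 * n := by positivity
  have P11 : (d : ℝ) ≤ d * r := by
    calc (d : ℝ) = d * 1 := (mul_one _).symm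
      _ ≤ d * r := mul_le_mul_of_nonneg_left hr1r (by linarith)
  have P12 : 16 * (S.Cv : ℝ) ≤ q := k5.trans F2
  have hznat : supn z ≤ (2 ^ k) ^ 2 := by
    refine supn_le_of_nrm _ _ ?_
    push_cast
    rw [sq]
    change nrm z ≤ n * n
    linarith
  have hs_le : 2 * (q * v) ≤ (2 ^ k) ^ 2 := by omega
  have h6 : q * v + r ^ (2 * S.a) * q ≤ (2 ^ k) ^ 2 := by
    have e1 : r ^ (2 * S.a) ≤ r ^ (7 * S.a) := Nat.pow_le_pow_right hr1 (by omega)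
    have e2 : 2 * r ^ (2 * S.a) ≤ q := by
      calc 2 * r ^ (2 * S.a) ≤ K * r ^ (7 * S.a) := Nat.mul_le_mul (by omega) e1
        _ ≤ q := c2
    have e3 : 2 * (r ^ (2 * S.a) * q) ≤ (2 ^ k) ^ 2 := by
      calc 2 * (r ^ (2 * S.a) * q) = (2 * r ^ (2 * S.a)) * q := by ring
        _ ≤ 2 ^ k * 2 ^ k := Nat.mul_le_mul (e2.trans hqn) hqn
        _ = (2 ^ k) ^ 2 := by ring
    omega
  have h1q : 2 ^ k ≤ q ^ 2 := by
    calc 2 ^ k ≤ K * q := c8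
      _ ≤ q * q := Nat.mul_le_mul_right _ F2n
      _ = q ^ 2 := by ring
  have h3q : r ^ (7 * S.a) ≤ q := (Nat.le_mul_of_pos_left _ (by omega)).trans c2
  obtain ⟨h, x1, hh, hc1, hc2, hc3, hc4⟩ := climb S k hk E hE u hu 𝒰 hu𝒰 Γ Γm hΓ hstep q z (q * v)
    h1q hqn h3q hznat hs_le h6 hr1
  have hNr : (0 : ℝ) < N := by exact_mod_cast hN0
  have hNC : 0 ≤ (N : ℝ) * (C / 16 + 1) := by positivity
  have hhV : h ≤ V * q := by
    have : (h : ℝ) ≤ ((V * q : ℕ) : ℝ) := by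
      push_cast
      refine hh.trans (mul_le_mul_of_nonneg_right (by linarith) hq0r.le)
    exact_mod_cast this
  have hs1σ : q * v + h ≤ σ := by omega
  have hx1z : nrm (x1 - z) ≤ B1 * q := by
    have e1 : (S.Cv : ℝ) * (Γm * q) = (B1 - 3 * d ^ 2 - 1) * q := by rw [hB1]; ring
    have e2 : 0 ≤ 3 * (d : ℝ) ^ 2 * q := by positivity
    rw [e1] at hc4
    linarith
  have hD1 : nrm (Z σ - x1) ≤ B1 * q := by
    have e1 := nrm_sub_le (Z σ) z x1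
    rw [nrm_sub_comm z x1] at e1
    have e2 : (S.Cv : ℝ) * (Γm * q) = (B1 - 3 * d ^ 2 - 1) * q := by rw [hB1]; ring
    rw [e2] at hc4
    linarith
  have hκ1 : (r : ℝ) ≤ ((PK d S.a S.A k).κ : ℝ) := by
    have : r ≤ (PK d S.a S.A k).κ := hra
    exact_mod_cast this
  have hκ2 : (V : ℝ) + 1 ≤ ((PK d S.a S.A k).κ : ℝ) := by linarith
  have hκ3 : g ≤ ((PK d S.a S.A k).κ : ℝ) := by linarith
  have hκ0 : (0 : ℝ) < ((PK d S.a S.A k).κ : ℝ) := by linarith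
  have hmg : (0 : ℝ) ≤ ((PK d S.a S.A k).mg : ℝ) := Nat.cast_nonneg _
  have hDw : ((PK d S.a S.A k).Dw : ℝ) = n * n := by
    have : (PK d S.a S.A k).Dw = (2 ^ k) ^ 2 := rfl
    rw [this]
    push_cast
    rw [sq]
  have hσs : ((σ : ℝ) - ((q * v : ℕ) : ℝ)) / (16 * ((PK d S.a S.A k).κ : ℝ)) ≤ q / 16 := by
    rw [div_le_iff₀ (by positivity)]
    have e1 : ((V : ℝ) + 1) * q ≤ ((PK d S.a S.A k).κ : ℝ) * q :=
      mul_le_mul_of_nonneg_right hκ2 hq0r.le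
    push_cast
    linarith
  have hw2 := walkWall S.a S.A S.Cv k E hE C b hC.le hb hreach (PK d S.a S.A k) u hu z x1 (Z σ)
    (q * v) (q * v + h) σ q N hN0 (B1 * q) hc2 hYocc hD1 hs1σ
    (by
      have e1 : B1 * q / N * d ≤ (q : ℝ) / 32 := by
        rw [div_mul_eq_mul_div, div_le_iff₀ hNr]
        have := mul_le_mul_of_nonneg_right hN hq0r.le
        linarith
      linarith)
    (by
      push_cast
      change d * (B1 * q) + d + d * (r : ℝ) + nrm (x1 - z) + nrm z ≤ r * n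
      linarith)
    (by linarith)
    (by
      rw [le_div_iff₀ hNr, Nat.cast_sub hs1σ]
      push_cast
      have e1 : b + 1 ≤ q := by linarith
      have e2 : (C * ((q : ℝ) / 16) + b + 1) * N ≤ (C * ((q : ℝ) / 16) + q) * N :=
        mul_le_mul_of_nonneg_right (by linarith) hNr.le
      have e3 : (C * ((q : ℝ) / 16) + q) * N = N * (C / 16 + 1) * q := by ring
      have e4 : (Γm + N * (C / 16 + 1)) * q ≤ V * q := mul_le_mul_of_nonneg_right hV hq0r.le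
      linarith)
    (by
      have e1 : V + 1 ≤ r := by
        have : (V : ℝ) + 1 ≤ r := by linarith
        exact_mod_cast this
      have e2 : (V + 1) * q ≤ r * 2 ^ k := Nat.mul_le_mul e1 hqn
      change σ ≤ q * v + h + r * 2 ^ k
      calc σ ≤ q * v + (V + 1) * q := hs2.le
        _ ≤ q * v + r * 2 ^ k := Nat.add_le_add_left e2 _
        _ ≤ q * v + h + r * 2 ^ k := Nat.add_le_add_right (Nat.le_add_right _ _) _)
    (by omega) hc3 hz1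
    (by
      intro τ hτ
      have e1 : ((τ : ℝ) - ((q * v : ℕ) : ℝ)) / (16 * ((PK d S.a S.A k).κ : ℝ)) ≤
          ((σ : ℝ) - ((q * v : ℕ) : ℝ)) / (16 * ((PK d S.a S.A k).κ : ℝ)) := by
        apply div_le_div_of_nonneg_right _ (by positivity)
        have : (τ : ℝ) ≤ σ := by exact_mod_cast hτ
        linarith
      linarith)
    (by
      rw [hDw]
      linarith)
  have hGall : ∀ τ, σ ≤ τ → τ ≤ V * q + t → ∀ b' : Pos d, nrm (b' - Z τ) ≤ S.Cv + r →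
      b' ∈ wall (PK d S.a S.A k) u z (q * v) τ := by
    intro τ hτ1 hτ2 b' hb'
    have hτr : (σ : ℝ) ≤ τ := by exact_mod_cast hτ1
    constructor
    · have e1 := hσ3 τ (by omega) hτ2
      have e2 : |lev u (b' - Z τ)| ≤ nrm (b' - Z τ) := abs_lev_le u hu _
      rw [abs_le] at e2
      have e3 : lev u (b' - z) = lev u (b' - Z τ) + (lev u (Z τ) - lev u (Z σ)) + lev u (Z σ - z) := by
        rw [lev_sub, lev_sub, lev_sub]
        ring
      have e4 : ((τ : ℝ) - ((q * v : ℕ) : ℝ)) / (16 * ((PK d S.a S.A k).κ : ℝ)) =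
          ((τ : ℝ) - σ) / (16 * ((PK d S.a S.A k).κ : ℝ)) +
          ((σ : ℝ) - ((q * v : ℕ) : ℝ)) / (16 * ((PK d S.a S.A k).κ : ℝ)) := by ring
      have e5 : ((τ : ℝ) - σ) / (16 * ((PK d S.a S.A k).κ : ℝ)) ≤ ((τ : ℝ) - σ) / (4 * g) := by
        apply div_le_div_of_nonneg_left (by linarith) (by positivity) (by linarith)
      have e6 : 1 / (4 * g) * (τ : ℝ) - 1 / (4 * g) * (σ : ℝ) = ((τ : ℝ) - σ) / (4 * g) := by ring
      rw [e3, e4]
      linarith [e2.1]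
    · refine supn_le_of_nrm _ _ ?_
      rw [hDw]
      have e1 := nrm_sub_le b' (Z τ) z
      have e2 := nrm_sub_le (Z τ) 0 z
      rw [sub_zero, zero_sub, nrm_neg] at e2
      have e3 := hZn τ (by omega) hτ2
      linarith
  have hb0 : nrm (Z σ - Z σ) ≤ (S.Cv : ℝ) + r := by
    rw [sub_self, nrm_zero]
    positivity
  have haf := after E ((2 ^ k) ^ 2) (S.Cv + r) (by positivity)
    (fun τ hτ x b hv => by
      have := hE.g4' τ (τ + 1) x b (by omega) hτ hv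
      push_cast at this
      rw [add_sub_cancel_left, mul_one] at this
      exact this)
    Z σ (V * q + t) hσ2 (by omega) (fun τ h1 h2 => (hZ τ (by omega) h2).2.2.1) hYocc
    (wall (PK d S.a S.A k) u z (q * v)) (hGall σ le_rfl hσ2 _ hb0)
    (fun τ h1 h2 b' hb' => hGall τ h1 (by omega) b' hb')
  have hfin : E.R (wall (PK d S.a S.A k) u z (q * v)) (q * v) (E.near (q * v) z) (V * q + t) x := by
    rw [hZe] at haf
    exact R_trans E (R_trans E hc1 hw2) haf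
  -- sizes
  have e1 := hσ3 (V * q) le_rfl (by omega)
  rw [hZ0, lev_zero] at e1
  push_cast at e1
  set D : ℝ := (σ : ℝ) - V * q with hD
  have hD0 : 0 ≤ D := by linarith
  have hDg : D ≤ g * m := by linarith
  have e2 : lev u (Z σ) ≤ D / (4 * g) := by
    have : 1 / (4 * g) * (σ : ℝ) - 1 / (4 * g) * ((V : ℝ) * q) = D / (4 * g) := by rw [hD]; ring
    linarith
  have e3 : lev u z ≤ D / (4 * g) := by
    have : lev u (Z σ - z) = lev u (Z σ) - lev u z := lev_sub _ _ _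
    linarith
  have e4 : D / (4 * g) ≤ m / 4 := by
    rw [div_le_iff₀ (by positivity)]
    linarith
  have e5 : -lev u z ≤ nrm z := by
    have := abs_lev_le u hu z
    rw [abs_le] at this
    linarith [this.1]
  set M : ℕ := ⌊(m : ℝ) - lev u z⌋₊ with hM
  have f1 : (M : ℝ) ≤ m - lev u z := Nat.floor_le (by linarith)
  have f2 : (m : ℝ) - lev u z < M + 1 := Nat.lt_floor_add_one _
  have f3 : (10 : ℝ) ≤ q := by linarith
  have hbh : E.bh (PK d S.a S.A k) u M z (q * v) ≤ V * q + t - q * v := by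
    refine bh_le E _ u M z (q * v) (V * q + t) (by omega) x hfin ?_
    rw [lev_sub]
    linarith
  have hbhr : (E.bh (PK d S.a S.A k) u M z (q * v) : ℝ) ≤ V * q + t - q * v := by
    have g1 : ((E.bh (PK d S.a S.A k) u M z (q * v) : ℕ) : ℝ) ≤ ((V * q + t - q * v : ℕ) : ℝ) := by
      exact_mod_cast hbh
    rw [Nat.cast_sub (by omega)] at g1
    push_cast at g1
    exact g1
  refine ⟨w, v, ?_, ?_, hs_le, by linarith, ?_, ?_⟩
  · intro j
    refine (gw_bound u hu q hq0 (Z σ) ((S.Cv * g + 1) * (2 * L)) ?_ j).trans hKw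
    have g1 : (S.Cv * g + 1) * (m : ℝ) ≤ (S.Cv * g + 1) * (2 * L * q) :=
      mul_le_mul_of_nonneg_left hmq (by linarith)
    linarith
  · have g1 : (v : ℝ) * q ≤ (2 * L * g) * q := by
      have : g * m ≤ g * (2 * L * q) := mul_le_mul_of_nonneg_left hmq hg.le
      linarith
    have g2 : (v : ℝ) ≤ 2 * L * g := le_of_mul_le_mul_right g1 hq0r
    have g3 : (v : ℝ) < Kv := by linarith
    exact_mod_cast g3
  · have g1 : 2 * (2 + (S.Cv : ℝ) * g + 3 * (d : ℝ) ^ 2) * m ≤ C3 * m :=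
      mul_le_mul_of_nonneg_right hC3 hm0.le
    have g2 : (C3 : ℝ) * m ≤ ((2 ^ k : ℕ) : ℝ) := by exact_mod_cast hC3m
    have g3 : 3 * (d : ℝ) ^ 2 * q ≤ 3 * (d : ℝ) ^ 2 * m := mul_le_mul_of_nonneg_left F5 (by positivity)
    have g4 : ((2 * M : ℕ) : ℝ) ≤ ((2 ^ k : ℕ) : ℝ) := by
      push_cast at g2 ⊢
      linarith
    exact_mod_cast g4
  · refine hbhr.trans ?_
    have g1 : 4 * ((V : ℝ) + 1) * q ≤ ε * m := by
      calc 4 * ((V : ℝ) + 1) * q ≤ ε * L * q := mul_le_mul_of_nonneg_right hL hq0r.le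
        _ = ε * (q * L) := by ring
        _ ≤ ε * m := mul_le_mul_of_nonneg_left F4 hε.le
    have g2 : 4 * g ≤ ε * m := k4.trans (mul_le_mul_of_nonneg_left (F2.trans F5) hε.le)
    have g3 : (g - ε / 2) * (m - D / (4 * g) - 1) ≤ (g - ε / 2) * M :=
      mul_le_mul_of_nonneg_left (by linarith) (by linarith)
    have g4 : (g - ε / 2) * (D / (4 * g)) ≤ D / 4 := by
      have : (g - ε / 2) * (D / (4 * g)) ≤ g * (D / (4 * g)) :=
        mul_le_mul_of_nonneg_right (by linarith) (by positivity)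
      have h2 : g * (D / (4 * g)) = D / 4 := by field_simp
      linarith
    have g5 : (g - ε / 2) * (m - D / (4 * g) - 1) = g * m - ε / 2 * m - (g - ε / 2) * (D / (4 * g)) -
        (g - ε / 2) := by ring
    have g6 : (g - ε) * m = g * m - ε * m := by ring
    linarith

end ZI.S8
namespace ZI.Rows

open ZI ZI.S8

variable {d : ℕ} {Ω : Type} [MeasurableSpace Ω] {P : Measure Ω}

/-- S8, from the conclusion of the row S7 -/
theorem route_block_of (S : Sys d P) (u : Fin d → ℝ) (hu : ∑ j, u j ^ 2 = 1) (g ε Γm : ℝ) (hg : 0 < g)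
    (hε : 0 < ε) (hε1 : ε < g) (hΓ : g < Γm)
    (hreach0 : ∃ δ : ℝ, 0 < δ ∧ ∃ C : ℝ, 0 < C ∧ ∃ k1 : ℕ, ∀ k ≥ k1, ∀ E : Env d, GoodK S.a S.A S.Cv k E →
      ∀ 𝒰 : Finset (Fin d → ℝ), IsNet δ 𝒰 → ∀ Γ : (Fin d → ℝ) → ℝ, (∀ u ∈ 𝒰, 0 < Γ u ∧ Γ u ≤ Γm) →
      StepP S.a S.A k E 𝒰 Γ → ∀ (x y : Pos d) (s t : ℕ), E.occ s x → supn x ≤ rr S.A k * 2 ^ k →
      nrm (y - x) ≤ 2 ^ k → (s : ℝ) + C * nrm (y - x) + ((2 : ℝ) ^ k) ^ (3 / 4 : ℝ) ≤ t →
      t ≤ s + rr S.A k * 2 ^ k → 2 * t ≤ (2 ^ k) ^ 2 →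
      (E.occ t y →
        E.R (fun _ => Ball y (2 * nrm (y - x) + ((2 : ℝ) ^ k) ^ (3 / 4 : ℝ))) s x t y) ∧
      E.vis (fun _ => Ball y (2 * nrm (y - x) + ((2 : ℝ) ^ k) ^ (3 / 4 : ℝ))) s x t y) :
    ∃ δ : ℝ, 0 < δ ∧ ∃ e1 : ℝ, 0 < e1 ∧ ∃ C3 N0 : ℕ, 0 < C3 ∧ ∃ k1 : ℕ, ∀ k ≥ k1, ∀ m : ℕ,
    (2 : ℝ) ^ k ≤ 4 * C3 * m → C3 * m ≤ 2 ^ k → ∃ (s0 : ℕ) (F : Finset (Pos d × ℕ × ℕ)),
      (s0 : ℝ) + g * m + 1 ≤ (2 ^ k) ^ 2 ∧ F.card ≤ N0 ∧
      (∀ f ∈ F, 2 * f.2.1 ≤ (2 ^ k) ^ 2 ∧ e1 * 2 ^ k ≤ f.2.2 ∧ 2 * f.2.2 ≤ 2 ^ k) ∧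
      ∀ E : Env d, GoodK S.a S.A S.Cv k E → ∀ 𝒰 : Finset (Fin d → ℝ), IsNet δ 𝒰 → u ∈ 𝒰 →
      ∀ Γ : (Fin d → ℝ) → ℝ, (∀ v ∈ 𝒰, 0 < Γ v ∧ Γ v ≤ Γm) → StepP S.a S.A k E 𝒰 Γ →
      (∃ (t : ℕ) (x : Pos d), (t : ℝ) ≤ (g - ε) * m ∧ E.R (fun _ => Set.univ) s0 0 (s0 + t) x ∧
        (m : ℝ) ≤ lev u x) →
      ∃ f ∈ F, (E.bh (PK d S.a S.A k) u f.2.2 f.1 f.2.1 : ℝ) ≤ (g - ε / 2) * f.2.2 := by
  have hΓm : 0 < Γm := hg.trans hΓ
  obtain ⟨δ, hδ, C, hC, k1, hreach⟩ := hreach0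
  obtain ⟨N, hN⟩ := exists_nat_ge (32 * (3 * (d : ℝ) ^ 2 + S.Cv * Γm + 1) * d + 1)
  have hN0 : 0 < N := by
    have : (0 : ℝ) < N := by
      have : (0 : ℝ) ≤ 32 * (3 * (d : ℝ) ^ 2 + S.Cv * Γm + 1) * d := by positivity
      linarith
    exact_mod_cast this
  obtain ⟨V, hV⟩ := exists_nat_ge (Γm + N * (C / 16 + 1))
  obtain ⟨L, hL⟩ := exists_nat_ge (4 * ((V : ℝ) + 1) / ε + 1)
  have hL0 : 0 < L := by
    have : (0 : ℝ) < L := by
      have : (0 : ℝ) ≤ 4 * ((V : ℝ) + 1) / ε := by positivity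
      linarith
    exact_mod_cast this
  have hL' : 4 * ((V : ℝ) + 1) ≤ ε * L := by
    have h1 : 4 * ((V : ℝ) + 1) / ε ≤ L := by linarith
    rw [div_le_iff₀ hε] at h1
    linarith
  obtain ⟨C3, hC3⟩ := exists_nat_ge (2 * (2 + (S.Cv : ℝ) * g + 3 * (d : ℝ) ^ 2))
  have hC30 : 0 < C3 := by
    have : (0 : ℝ) < C3 := by
      have : (0 : ℝ) ≤ (S.Cv : ℝ) * g + 3 * (d : ℝ) ^ 2 := by positivity
      linarith
    exact_mod_cast this
  obtain ⟨Kw, hKw⟩ := exists_nat_ge ((S.Cv * g + 1) * (2 * L) + 2 * d + 1)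
  obtain ⟨Kv, hKv⟩ := exists_nat_ge (V + 2 * L * g + 1)
  obtain ⟨K1, hK1⟩ := exists_nat_ge (128 * (d : ℝ))
  obtain ⟨K2, hK2⟩ := exists_nat_ge ((d + 1) * (3 * (d : ℝ) ^ 2 + S.Cv * Γm + 1) + 6 * (d : ℝ) ^ 2 + 2 * S.Cv * g + 10)
  obtain ⟨K3, hK3⟩ := exists_nat_ge (2 * ((V : ℝ) + g) + 10)
  obtain ⟨K4, hK4⟩ := exists_nat_ge (4 * g / ε)
  obtain ⟨K, hK⟩ : ∃ K : ℕ, K = K1 + K2 + K3 + K4 + 16 * S.Cv + 8 * C3 * L + 1 := ⟨_, rfl⟩
  obtain ⟨k2, hk2⟩ := big S.a S.A S.a_big S.A_big (8 * C3 * L * K + L + K)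
  refine ⟨δ, hδ, 1 / (8 * C3), by positivity, C3, Finset.card (Fintype.piFinset (fun _ : Fin d => Finset.Icc (-(Kw : ℤ)) Kw)) * Kv, hC30,
    k1 + k2 + S.k0, fun k hk m hm1 hm2 => ?_⟩
  obtain ⟨b1, b2, b3⟩ := hk2 k (by omega)
  set F : Finset (Pos d × ℕ × ℕ) := (((Fintype.piFinset (fun _ : Fin d => Finset.Icc (-(Kw : ℤ)) Kw)) ×ˢ Finset.range Kv).image
    (fun p => (sc (m / L) p.1, (m / L) * p.2, ⌊(m : ℝ) - lev u (sc (m / L) p.1)⌋₊))).filter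
    (fun f => 2 * f.2.1 ≤ (2 ^ k) ^ 2 ∧ 1 / (8 * (C3 : ℝ)) * 2 ^ k ≤ f.2.2 ∧ 2 * f.2.2 ≤ 2 ^ k) with hF
  set q := m / L with hq
  have hr1 : 1 ≤ rr S.A k := Nat.one_le_two_pow
  have hmn : m ≤ 2 ^ k := (Nat.le_mul_of_pos_left _ hC30).trans hm2
  have hmnr : (m : ℝ) ≤ 2 ^ k := by exact_mod_cast hmn
  have hr7 : 1 ≤ rr S.A k ^ (7 * S.a) := Nat.one_le_pow _ _ hr1
  have hKm : (8 * C3 * L * K + L + K : ℕ) ≤ 2 ^ k := (Nat.le_mul_of_pos_right _ hr7).trans b2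
  have hCL : 1 ≤ C3 * L := Nat.mul_pos hC30 hL0
  have hK0 : 1 ≤ K := by omega
  have hLm : L ≤ m := by
    have h1 : ((8 * C3 * L * K + L + K : ℕ) : ℝ) ≤ 2 ^ k := by exact_mod_cast hKm
    have h2 : ((8 * C3 * L * K + L + K : ℕ) : ℝ) ≤ 4 * C3 * m := h1.trans hm1
    have h3 : 8 * C3 * L * K + L + K ≤ 4 * C3 * m := by exact_mod_cast h2
    have h4 : 4 * C3 * L ≤ 4 * C3 * m := by nlinarith
    exact Nat.le_of_mul_le_mul_left h4 (by omega)
  have hq1 : q * L ≤ m := Nat.div_mul_le_self m L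
  have hq2 : m < L * (q + 1) := Nat.lt_mul_div_succ m hL0
  have hq0 : 1 ≤ q := Nat.div_pos hLm hL0
  have hmq : m ≤ 2 * L * q := by
    have : L * (q + 1) ≤ L * (2 * q) := Nat.mul_le_mul_left _ (by omega)
    calc m ≤ L * (2 * q) := hq2.le.trans this
      _ = 2 * L * q := by ring
  have hmqr : (m : ℝ) ≤ 2 * L * q := by exact_mod_cast hmq
  have hnq : (2 : ℝ) ^ k ≤ 8 * C3 * L * q := by
    calc (2 : ℝ) ^ k ≤ 4 * C3 * m := hm1
      _ ≤ 4 * C3 * (2 * L * q) := mul_le_mul_of_nonneg_left hmqr (by positivity)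
      _ = 8 * C3 * L * q := by ring
  have hnqn : 2 ^ k ≤ 8 * C3 * L * q := by exact_mod_cast hnq
  have c2 : K * rr S.A k ^ (7 * S.a) ≤ q := by
    have h1 : (8 * C3 * L) * (K * rr S.A k ^ (7 * S.a)) ≤ (8 * C3 * L) * q := by
      calc (8 * C3 * L) * (K * rr S.A k ^ (7 * S.a)) = (8 * C3 * L * K) * rr S.A k ^ (7 * S.a) := by ring
        _ ≤ (8 * C3 * L * K + L + K) * rr S.A k ^ (7 * S.a) := Nat.mul_le_mul_right _ (by omega)
        _ ≤ 2 ^ k := b2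
        _ ≤ 8 * C3 * L * q := hnqn
    exact Nat.le_of_mul_le_mul_left h1 (by positivity)
  have hCLr : (0 : ℝ) < 8 * C3 * L := by positivity
  have hb0 : (0 : ℝ) ≤ ((2 : ℝ) ^ k) ^ (3 / 4 : ℝ) := by positivity
  have c3 : (K : ℝ) * ((2 : ℝ) ^ k) ^ (3 / 4 : ℝ) ≤ q := by
    have h1 : (8 * C3 * L) * ((K : ℝ) * ((2 : ℝ) ^ k) ^ (3 / 4 : ℝ)) ≤ (8 * C3 * L) * q := by
      have h2 : (8 * C3 * L) * ((K : ℝ) * ((2 : ℝ) ^ k) ^ (3 / 4 : ℝ)) ≤
          ((8 * C3 * L * K + L + K : ℕ) : ℝ) * ((2 : ℝ) ^ k) ^ (3 / 4 : ℝ) := by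
        have h3 : (8 * C3 * L) * ((K : ℝ) * ((2 : ℝ) ^ k) ^ (3 / 4 : ℝ)) =
          (8 * C3 * L * K) * ((2 : ℝ) ^ k) ^ (3 / 4 : ℝ) := by ring
        rw [h3]
        apply mul_le_mul_of_nonneg_right _ hb0
        push_cast
        have : (0 : ℝ) ≤ L := Nat.cast_nonneg _
        have : (0 : ℝ) ≤ K := Nat.cast_nonneg _
        linarith
      linarith
    exact le_of_mul_le_mul_left h1 hCLr
  have c8 : 2 ^ k ≤ K * q := hnqn.trans (Nat.mul_le_mul_right _ (by omega))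
  have hKr : (K : ℝ) = K1 + K2 + K3 + K4 + 16 * S.Cv + 8 * C3 * L + 1 := by
    rw [hK]
    push_cast
    ring
  have hCv0 : (0 : ℝ) ≤ S.Cv := Nat.cast_nonneg _
  have z1 : (0 : ℝ) ≤ K1 := Nat.cast_nonneg _
  have z2 : (0 : ℝ) ≤ K2 := Nat.cast_nonneg _
  have z3 : (0 : ℝ) ≤ K3 := Nat.cast_nonneg _
  have z4 : (0 : ℝ) ≤ K4 := Nat.cast_nonneg _
  have z5 : (0 : ℝ) ≤ V := Nat.cast_nonneg _
  have hK4' : 4 * g ≤ ε * K := by
    have h1 : 4 * g / ε ≤ K := by linarith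
    rw [div_le_iff₀ hε] at h1
    linarith
  have hKn : (K : ℝ) ≤ 2 ^ k := by
    have : ((8 * C3 * L * K + L + K : ℕ) : ℝ) ≤ 2 ^ k := by exact_mod_cast hKm
    push_cast at this
    have h2 : (0 : ℝ) ≤ 8 * C3 * L * K + L := by positivity
    linarith
  have hqm : (q : ℝ) ≤ m := by
    have : q ≤ m := (Nat.le_mul_of_pos_right _ hL0).trans hq1
    exact_mod_cast this
  refine ⟨V * q, F, ?_, ?_, ?_, ?_⟩
  · push_cast
    have h1 : (V : ℝ) * q ≤ V * 2 ^ k := mul_le_mul_of_nonneg_left (hqm.trans hmnr) z5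
    have h2 : g * m ≤ g * 2 ^ k := mul_le_mul_of_nonneg_left hmnr hg.le
    have h3 : (1 : ℝ) ≤ 2 ^ k := one_le_pow₀ (by norm_num)
    have h4 : ((V : ℝ) + g + 1) * 2 ^ k ≤ 2 ^ k * 2 ^ k :=
      mul_le_mul_of_nonneg_right (by linarith) (by positivity)
    rw [sq]
    linarith
  · rw [hF]
    refine (Finset.card_filter_le _ _).trans (Finset.card_image_le.trans ?_)
    rw [Finset.card_product, Finset.card_range]
  · intro f hf
    rw [hF, Finset.mem_filter] at hf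
    exact hf.2
  · intro E hE 𝒰 hnet hu𝒰 Γ hΓ' hstep hfast
    obtain ⟨t, x, ht, hR, hx⟩ := hfast
    obtain ⟨w, v, hw, hv, d1, d2, d3, d4⟩ := core S k (by omega) E hE u hu 𝒰 hu𝒰 Γ Γm hΓm hΓ' hstep C
      (((2 : ℝ) ^ k) ^ (3 / 4 : ℝ)) hC hb0
      (fun x y s t h1 h2 h3 h4 h5 h6 h7 => (hreach k (by omega) E hE 𝒰 hnet Γ hΓ' hstep x y s t h1 h2 h3
        h4 h5 h6).1 h7) g ε hg hε hε1 N V L m q K hN0 _ rfl (by linarith) hV hL' (by omega) c2 c3 hq1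
      hmn c8 hL0 (by linarith) (by linarith) (by linarith) hK4' (by
        have : (0 : ℝ) ≤ 8 * C3 * L := by positivity
        linarith) C3 hC3 hm2 t x ht hR hx Kw Kv hmqr hKw hKv
    refine ⟨(sc q w, q * v, ⌊(m : ℝ) - lev u (sc q w)⌋₊), ?_, d4⟩
    rw [hF, Finset.mem_filter]
    refine ⟨?_, d1, ?_, d3⟩
    · rw [Finset.mem_image]
      refine ⟨(w, v), ?_, rfl⟩
      rw [Finset.mem_product, Fintype.mem_piFinset, Finset.mem_range]
      refine ⟨fun j => ?_, hv⟩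
      rw [Finset.mem_Icc]
      have := hw j
      rw [abs_le] at this
      constructor
      · exact_mod_cast this.1
      · exact_mod_cast this.2
    · have hC3r : (0 : ℝ) < C3 := by exact_mod_cast hC30
      calc 1 / (8 * (C3 : ℝ)) * 2 ^ k ≤ 1 / (8 * (C3 : ℝ)) * (4 * C3 * m) :=
            mul_le_mul_of_nonneg_left hm1 (by positivity)
        _ = m / 2 := by
            field_simp
            ring
        _ ≤ _ := d2

/-- S8 -/
theorem route_block (S : Sys d P) (u : Fin d → ℝ) (hu : ∑ j, u j ^ 2 = 1) (g ε Γm : ℝ) (hg : 0 < g)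
    (hε : 0 < ε) (hε1 : ε < g) (hΓ : g < Γm) :
    ∃ δ : ℝ, 0 < δ ∧ ∃ e1 : ℝ, 0 < e1 ∧ ∃ C3 N0 : ℕ, 0 < C3 ∧ ∃ k1 : ℕ, ∀ k ≥ k1, ∀ m : ℕ,
    (2 : ℝ) ^ k ≤ 4 * C3 * m → C3 * m ≤ 2 ^ k → ∃ (s0 : ℕ) (F : Finset (Pos d × ℕ × ℕ)),
      (s0 : ℝ) + g * m + 1 ≤ (2 ^ k) ^ 2 ∧ F.card ≤ N0 ∧
      (∀ f ∈ F, 2 * f.2.1 ≤ (2 ^ k) ^ 2 ∧ e1 * 2 ^ k ≤ f.2.2 ∧ 2 * f.2.2 ≤ 2 ^ k) ∧
      ∀ E : Env d, GoodK S.a S.A S.Cv k E → ∀ 𝒰 : Finset (Fin d → ℝ), IsNet δ 𝒰 → u ∈ 𝒰 →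
      ∀ Γ : (Fin d → ℝ) → ℝ, (∀ v ∈ 𝒰, 0 < Γ v ∧ Γ v ≤ Γm) → StepP S.a S.A k E 𝒰 Γ →
      (∃ (t : ℕ) (x : Pos d), (t : ℝ) ≤ (g - ε) * m ∧ E.R (fun _ => Set.univ) s0 0 (s0 + t) x ∧
        (m : ℝ) ≤ lev u x) →
      ∃ f ∈ F, (E.bh (PK d S.a S.A k) u f.2.2 f.1 f.2.1 : ℝ) ≤ (g - ε / 2) * f.2.2 :=
  route_block_of S u hu g ε Γm hg hε hε1 hΓ (reach S Γm (hg.trans hΓ))

end ZI.Rows
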