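import Pool.Agent.ZI.S3
import Pool.Agent.ZI.S4
import Pool.Agent.ZI.S5
import Pool.Agent.ZI.S9
import Pool.Agent.ZI.S10
import Pool.Agent.ZI.R7

/-! # S11: the shape theorem for the abstract system -/

set_option autoImplicit false

open scoped ENNReal BigOperators Classical Pointwise
open MeasureTheory

noncomputable section

namespace ZI.Rows

open ZI

variable {d : ℕ} {Ω : Type} [MeasurableSpace Ω] {P : Measure Ω}

theorem shape [IsProbabilityMeasure P] (S : Sys d P) : ∃ B : Set (Fin d → ℝ), IsCompact B ∧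
    Convex ℝ B ∧ (interior B).Nonempty ∧ ∀ ε : ℝ, 0 < ε → ε < 1 → ∀ᵐ ω ∂P, ω ∈ S.S0 →
      ∃ T0 : ℝ, ∀ t : ℝ, T0 ≤ t → ∀ x : Pos d,
        ((fun j => (x j : ℝ)) ∈ ((1 - ε) * t) • B → x ∈ S.I ω t) ∧
        (x ∈ S.I ω t → (fun j => (x j : ℝ)) ∈ ((1 + ε) * t) • B) := by
  obtain ⟨γ, c, C, hγ⟩ := gamma_exists S
  have hU : UpTail S γ := up_tail S γ c C hγ
  have hL : LowTail S γ := low_tail S γ c C hγ hU
  have hc := hγ.c_pos
  -- the speed function
  have hd := S.d_pos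
  have hunit : ∃ u : Fin d → ℝ, ∑ j, u j ^ 2 = 1 := by
    refine ⟨Pi.single ⟨0, hd⟩ 1, ?_⟩
    rw [Finset.sum_eq_single (⟨0, hd⟩ : Fin d)]
    · simp
    · intro j _ hj
      simp [Pi.single_eq_of_ne hj]
    · intro h
      exact absurd (Finset.mem_univ _) h
  have hC : 0 < C := by
    obtain ⟨u, hu⟩ := hunit
    have h1 := hγ.lb u hu
    have h2 := hγ.ub u hu
    linarith
  have hv : ∀ u : Fin d → ℝ, ∑ j, u j ^ 2 = 1 → 1 / C ≤ 1 / γ u ∧ 1 / γ u ≤ 1 / c := by
    intro u hu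
    have h1 := hγ.lb u hu
    have h2 := hγ.ub u hu
    exact ⟨one_div_le_one_div_of_le (by linarith) h2, one_div_le_one_div_of_le hc h1⟩
  have hC' : 0 < 1 / C := by positivity
  obtain ⟨hB1, hB2, hB3⟩ := wulff_compact (fun u => 1 / γ u) (1 / C) (1 / c) hC' hv
  refine ⟨wulff (fun u => 1 / γ u), hB1, hB2, hB3, ?_⟩
  intro ε hε hε1
  obtain ⟨𝒰, h𝒰, δ, hδ, hout⟩ := wulff_outer (fun u => 1 / γ u) (1 / C) (1 / c) hC' hv ε hε
  have hup : ∀ᵐ ω ∂P, ∀ u ∈ 𝒰, ∃ T0 : ℝ, ∀ t : ℝ, T0 ≤ t → ∀ x ∈ S.I ω t,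
      lev u x ≤ (1 + δ * c) * t / γ u := by
    rw [Filter.eventually_all_finset]
    intro u hu
    exact upper S γ c C hγ hU hL u (h𝒰 u hu) (δ * c) (by positivity)
  have hlo := lower S γ c C hγ hU ε hε hε1
  filter_upwards [hup, hlo] with ω h1 h2 hω
  obtain ⟨T2, hT2⟩ := h2 hω
  choose! T1 hT1 using h1
  obtain ⟨T3, hT3⟩ : ∃ T3 : ℝ, ∀ u ∈ 𝒰, T1 u ≤ T3 := by
    obtain ⟨M, hM⟩ := (𝒰.image T1).exists_le
    exact ⟨M, fun u hu => hM _ (Finset.mem_image_of_mem _ hu)⟩
  refine ⟨max (max T2 T3) 1, ?_⟩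
  intro t ht x
  have ht1 : 1 ≤ t := le_trans (le_max_right _ _) ht
  have ht2 : T2 ≤ t := le_trans (le_trans (le_max_left _ _) (le_max_left _ _)) ht
  have ht3 : T3 ≤ t := le_trans (le_trans (le_max_right _ _) (le_max_left _ _)) ht
  constructor
  · intro hx
    refine hT2 t ht2 x ?_
    intro u hu
    obtain ⟨b, hb, hbx⟩ := hx
    have hb' := hb u hu
    have hlev : lev u x = ((1 - ε) * t) * ∑ j, u j * b j := by
      unfold lev
      rw [Finset.mul_sum]
      refine Finset.sum_congr rfl ?_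
      intro j _
      have := congrFun hbx j
      simp only [Pi.smul_apply, smul_eq_mul] at this
      rw [← this]
      ring
    rw [hlev]
    have h0 : 0 ≤ (1 - ε) * t := by
      apply mul_nonneg <;> linarith
    calc ((1 - ε) * t) * ∑ j, u j * b j ≤ ((1 - ε) * t) * (1 / γ u) :=
          mul_le_mul_of_nonneg_left hb' h0
      _ = (1 - ε) * t / γ u := by ring
  · intro hx
    have ht0 : 0 < t := by linarith
    have key : (fun j => (x j : ℝ) / t) ∈ (1 + ε) • wulff (fun u => 1 / γ u) := by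
      refine hout _ ?_
      intro u hu
      have h3 := hT1 u hu t (le_trans (hT3 u hu) ht3) x hx
      have hγu : 0 < γ u := lt_of_lt_of_le hc (hγ.lb u (h𝒰 u hu))
      have h4 : ∑ j, u j * ((x j : ℝ) / t) = lev u x / t := by
        unfold lev
        rw [Finset.sum_div]
        refine Finset.sum_congr rfl ?_
        intro j _
        ring
      rw [h4, div_le_iff₀ ht0]
      refine le_trans h3 ?_
      have h5 : c / γ u ≤ 1 := by
        rw [div_le_one hγu]
        exact hγ.lb u (h𝒰 u hu)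
      have h6 : (1 + δ * c) * t / γ u = t * (1 / γ u) + (δ * t) * (c / γ u) := by
        ring
      rw [h6]
      have h7 : (δ * t) * (c / γ u) ≤ (δ * t) * 1 :=
        mul_le_mul_of_nonneg_left h5 (by positivity)
      nlinarith [h7]
    obtain ⟨b, hb, hbx⟩ := key
    refine ⟨b, hb, ?_⟩
    ext j
    have := congrFun hbx j
    simp only [Pi.smul_apply, smul_eq_mul] at this ⊢
    have h8 : (x j : ℝ) = (x j : ℝ) / t * t := by
      field_simp
    rw [h8, ← this]
    ring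

end ZI.Rows
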