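import Pool.Agent.ZI.P1b

/-! # Survival: without recovery the infection never dies -/

set_option autoImplicit false

open scoped ENNReal BigOperators Classical
open MeasureTheory

noncomputable section

namespace ZI.Rows

open ZI

variable {d : ℕ} {m : Model}

/-- one ring does not kill the infection if all infected sites are inside the box -/
theorem step_nonempty (R : ℕ) (s : (Pos d → ℕ) × Set (Pos d)) (l : Lab (Pos d) d)
    (h : s.2.Nonempty) (hR : ∀ z ∈ s.2, supN z + 1 ≤ R) :
    (stepR (nbB R) id Set.univ s l).2.Nonempty := by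
  obtain ⟨z, hz⟩ := h
  show (infMv (nbB R) id s.1 s.2 l ∩ Set.univ).Nonempty
  rw [Set.inter_univ]
  unfold infMv
  by_cases hl : l.2.1 < s.1 l.1
  · rw [if_pos hl]
    by_cases h1 : z = l.1 ∧ ¬ 2 ≤ s.1 l.1
    · refine ⟨z + dv l.2.2, Or.inr ⟨?_, ?_, ?_⟩⟩
      · rw [add_sub_cancel_right]
        exact hz
      · rw [add_sub_cancel_right]
        exact h1.1
      · show nbB R l.1 l.2.2 = some (z + dv l.2.2)
        rw [← h1.1]
        unfold nbB
        rw [if_pos]
        have h2 := hR z hz
        have h3 : supN (z + dv l.2.2) ≤ supN z + 1 := by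
          unfold supN
          rw [Finset.sup_le_iff]
          intro j _
          have h4 : (z j).natAbs ≤ Finset.univ.sup (fun j => (z j).natAbs) :=
            Finset.le_sup (f := fun j => (z j).natAbs) (Finset.mem_univ j)
          have h5 : ((dv l.2.2 : Pos d) j).natAbs ≤ 1 := by
            unfold dv
            rw [Pi.single_apply]
            split_ifs <;> simp
          have h6 : (z + dv l.2.2) j = z j + (dv l.2.2 : Pos d) j := rfl
          rw [h6]
          have h7 := Int.natAbs_add_le (z j) ((dv l.2.2 : Pos d) j)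
          omega
        omega
    · refine ⟨z, Or.inl ⟨hz, fun h2 => ?_⟩⟩
      by_contra h3
      exact h1 ⟨h2, h3⟩
  · rw [if_neg hl]
    exact ⟨z, hz⟩

theorem survives {Ω : Type} [MeasurableSpace Ω] {P : Measure Ω} (C : Clocks m d P) (ω : Ω)
    (hω : NoTies C ω) (h0 : 0 < C.η0 ω 0) (T : ℝ) (R : ℕ)
    (hR : ∀ x ∈ Iset C ω T, supN x + 1 ≤ R) (s : ℝ) (hs : 0 ≤ s) (hsT : s ≤ T) :
    (infd C ω s).Nonempty := by
  have key : ∀ i ≤ (ringList (C.ring ω) (boxLab d R (tot C R ω)) 0 s).length,
      (((ringList (C.ring ω) (boxLab d R (tot C R ω)) 0 s).take i).foldl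
        (stepR (nbB R) id Set.univ) (ini C R ω, {z | z = 0 ∧ 0 < C.η0 ω 0})).2.Nonempty := by
    intro i
    induction i with
    | zero =>
      intro _
      exact ⟨0, rfl, h0⟩
    | succ i ih =>
      intro hi
      have h1 := ih (by omega)
      obtain ⟨s', hs0, hss, ht⟩ := P1b.ringList_take (C.ring ω) (boxLab d R (tot C R ω)) le_rfl hs
        (C.ring_fin ω) hω i (by omega)
      have hi' : i < (ringList (C.ring ω) (boxLab d R (tot C R ω)) 0 s).length := by omega
      rw [List.take_add_one, List.getElem?_eq_getElem hi', List.foldl_append]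
      refine step_nonempty R _ _ h1 ?_
      intro z hz
      apply hR
      refine ⟨s', hs0, hss.trans hsT, R, ?_⟩
      rw [ht] at hz
      exact hz
  have h1 := key _ le_rfl
  rw [List.take_length] at h1
  obtain ⟨z, hz⟩ := h1
  exact ⟨z, R, hz⟩

end ZI.Rows
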