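import Pool.Agent.ZI.F1
import Pool.Agent.ZI.S11
import Pool.Agent.ZI.SV
import Pool.Agent.ZI.P2a

/-! # The shape theorem for the process given by clocks -/

set_option autoImplicit false

open scoped ENNReal BigOperators Classical Pointwise
open MeasureTheory

noncomputable section

namespace ZI.Rows

open ZI

variable {d : ℕ} {m : Model}

theorem shape_theorem {Ω : Type} [MeasurableSpace Ω] {P : Measure Ω} [IsProbabilityMeasure P]
    (hd : 0 < d) (C : Clocks m d P) :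
    ∃ B : Set (Fin d → ℝ), IsCompact B ∧ Convex ℝ B ∧ (interior B).Nonempty ∧
      ∀ ε : ℝ, 0 < ε → ε < 1 → ∀ᵐ ω ∂P, 0 < C.η0 ω 0 →
        ∃ T0 : ℝ, ∀ t : ℝ, T0 ≤ t → ∀ x : Pos d,
          ((fun j => (x j : ℝ)) ∈ ((1 - ε) * t) • B → x ∈ Iset C ω t) ∧
          (x ∈ Iset C ω t → (fun j => (x j : ℝ)) ∈ ((1 + ε) * t) • B) := by
  obtain ⟨S, hI, hS⟩ := sys_of_clocks hd C
  obtain ⟨B, h1, h2, h3, h4⟩ := shape S
  refine ⟨B, h1, h2, h3, ?_⟩
  intro ε hε hε1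
  filter_upwards [h4 ε hε hε1] with ω hω h0
  obtain ⟨T0, hT⟩ := hω ((hS ω).2 h0)
  refine ⟨T0, fun t ht x => ?_⟩
  have h5 := hT t ht x
  rw [hI ω t] at h5
  exact h5

/-- on `0 < η0 0` the infection survives, and the shape theorem holds -/
theorem shape_survival {Ω : Type} [MeasurableSpace Ω] {P : Measure Ω} [IsProbabilityMeasure P]
    (hd : 0 < d) (C : Clocks m d P) :
    ∃ B : Set (Fin d → ℝ), IsCompact B ∧ Convex ℝ B ∧ (interior B).Nonempty ∧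
      ∀ ε : ℝ, 0 < ε → ε < 1 → ∀ᵐ ω ∂P, 0 < C.η0 ω 0 →
        (∀ t : ℝ, 0 ≤ t → (infd C ω t).Nonempty) ∧
        ∃ T0 : ℝ, ∀ t : ℝ, T0 ≤ t → ∀ x : Pos d,
          ((fun j => (x j : ℝ)) ∈ ((1 - ε) * t) • B → x ∈ Iset C ω t) ∧
          (x ∈ Iset C ω t → (fun j => (x j : ℝ)) ∈ ((1 + ε) * t) • B) := by
  obtain ⟨B, h1, h2, h3, h4⟩ := shape_theorem hd C
  refine ⟨B, h1, h2, h3, ?_⟩
  intro ε hε hε1
  filter_upwards [h4 ε hε hε1, no_ties C] with ω hω hn h0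
  obtain ⟨T0, hT⟩ := hω h0
  refine ⟨?_, T0, hT⟩
  intro t ht
  have hle : T0 ≤ max T0 t := le_max_left _ _
  obtain ⟨K, hK⟩ := (h1.smul ((1 + ε) * max T0 t)).isBounded.exists_norm_le
  refine survives C ω hn h0 (max T0 t) (⌈K⌉₊ + 1) ?_ t ht (le_max_right _ _)
  intro x hx
  have h5 := hK _ ((hT _ hle x).2 hx)
  have h6 : supN x ≤ ⌈K⌉₊ := by
    unfold supN
    rw [Finset.sup_le_iff]
    intro j _
    have h7 : ‖(fun j => (x j : ℝ)) j‖ ≤ ‖(fun j => (x j : ℝ))‖ := norm_le_pi_norm (fun j => (x j : ℝ)) j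
    have h8 : ((x j).natAbs : ℝ) ≤ K := by
      have h9 : ((x j).natAbs : ℝ) = ‖((x j : ℤ) : ℝ)‖ := by
        rw [Real.norm_eq_abs, Nat.cast_natAbs, Int.cast_abs]
      rw [h9]
      exact h7.trans h5
    have h10 : ((x j).natAbs : ℝ) ≤ (⌈K⌉₊ : ℝ) := h8.trans (Nat.le_ceil K)
    exact_mod_cast h10
  omega

end ZI.Rows
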