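import Pool.Agent.ZI.F2
import Pool.Agent.ZI.EX
import Pool.Agent.ZI.Phi

/-! # Shape theorem for the infection on the zero-range process, no recovery

`Model`: the rate function `g` with `g 0 = 0` and increments in `[Gm, Gp]`, `0 < Gm ≤ 1 ≤ Gp`, and the fugacity
`φ > 0` of the invariant product measure.  `Clocks m d P`: the graphical construction on a probability space
(independent Poisson clocks and an independent initial configuration with the invariant product law).
`infd C ω t`: the infected sites at the time `t`; at the time `0` the particles at the origin are infected, there is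
no recovery.  `Iset C ω t`: the sites that contain an infected particle at some time in `[0, t]`.
-/

set_option autoImplicit false

open scoped ENNReal BigOperators Classical Pointwise
open MeasureTheory ZI

noncomputable section

namespace Pool.Agent.Results.MP_646828_pr.NoRecovery

/-- the density of the invariant product measure of fugacity `m.φ` -/
def dens (m : Model) : ℝ := (∑' k : ℕ, (k : ℝ) * m.wt0 k) / ∑' k : ℕ, m.wt0 k

/-- The shape theorem without recovery: every dimension `d ≥ 1`, every rate function, every density `ρ > 0`.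
The density `ρ` is attained by some fugacity; the clocks exist; and for all clocks of density `ρ` there is a
deterministic shape `B`: almost surely, if there are particles at the origin at the time `0`, then the infection
survives and the visited set has the asymptotic shape `B`. -/
theorem result (d : ℕ) (hd : 0 < d) (g : ℕ → ℝ) (Gm Gp : ℝ) (g0 : g 0 = 0) (hGm : 0 < Gm)
    (hGm1 : Gm ≤ 1) (hGp : 1 ≤ Gp) (hlb : ∀ k, Gm ≤ g (k + 1) - g k)
    (hub : ∀ k, g (k + 1) - g k ≤ Gp) (ρ : ℝ) (hρ : 0 < ρ) :
    (∃ m : Model, m.g = g ∧ dens m = ρ) ∧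
    ∀ m : Model, m.g = g → dens m = ρ →
      (∃ (Ω : Type) (_ : MeasurableSpace Ω) (P : Measure Ω) (_ : IsProbabilityMeasure P),
        Nonempty (Clocks m d P)) ∧
      ∀ (Ω : Type) [MeasurableSpace Ω] (P : Measure Ω) [IsProbabilityMeasure P] (C : Clocks m d P),
        ∃ B : Set (Fin d → ℝ), IsCompact B ∧ Convex ℝ B ∧ (interior B).Nonempty ∧
          ∀ ε : ℝ, 0 < ε → ε < 1 → ∀ᵐ ω ∂P, 0 < C.η0 ω 0 →
            (∀ t : ℝ, 0 ≤ t → (infd C ω t).Nonempty) ∧
            ∃ T0 : ℝ, ∀ t : ℝ, T0 ≤ t → ∀ x : Pos d,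
              ((fun j => (x j : ℝ)) ∈ ((1 - ε) * t) • B → x ∈ Iset C ω t) ∧
              (x ∈ Iset C ω t → (fun j => (x j : ℝ)) ∈ ((1 + ε) * t) • B) := by
  refine ⟨?_, fun m _ _ => ⟨Rows.exists_clocks m d, fun Ω _ P _ C => Rows.shape_survival hd C⟩⟩
  obtain ⟨φ, hφ, hs, _, h⟩ := Rows.exists_fugacity g Gm Gp g0 hGm hlb hub ρ hρ
  refine ⟨⟨g, Gm, Gp, φ, g0, hGm, hGm1, hGp, hlb, hub, hφ⟩, rfl, ?_⟩
  have hg : ∀ k, 0 < g (k + 1) := by
    intro k
    induction k with
    | zero =>
      have h1 := hlb 0
      rw [g0] at h1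
      linarith
    | succ k ih =>
      have h1 := hlb (k + 1)
      linarith
  have hpos : 0 < ∑' k : ℕ, φ ^ k / ∏ i ∈ Finset.range k, g (i + 1) := by
    refine hs.tsum_pos (fun k => ?_) 0 (by simp)
    exact div_nonneg (pow_nonneg hφ.le _) (Finset.prod_nonneg (fun i _ => (hg i).le))
  show (∑' k : ℕ, (k : ℝ) * (φ ^ k / ∏ i ∈ Finset.range k, g (i + 1))) /
    ∑' k : ℕ, φ ^ k / ∏ i ∈ Finset.range k, g (i + 1) = ρ
  rw [h, mul_div_assoc, div_self hpos.ne', mul_one]

end Pool.Agent.Results.MP_646828_pr.NoRecovery
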