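import Pool.Agent.ZI.ProcE

/-! # Row P2b, deterministic part: the ring lists along a mesh -/

set_option autoImplicit false

open scoped ENNReal BigOperators Classical
open MeasureTheory

noncomputable section

namespace ZI.P2bA

open ZI

variable {d : ℕ}

/-- sorting a union of two sets, all the elements of the first are smaller -/
lemma sort_union {α : Type*} [LinearOrder α] (s t : Finset α) (h : ∀ x ∈ s, ∀ y ∈ t, x < y) :
    (s ∪ t).sort (· ≤ ·) = s.sort (· ≤ ·) ++ t.sort (· ≤ ·) := by
  have hd : Disjoint s t := by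
    rw [Finset.disjoint_left]
    intro x hx hx'
    exact lt_irrefl _ (h x hx x hx')
  refine List.Perm.eq_of_pairwise ?_ (Finset.pairwise_sort _ _) ?_ ?_
  · intro a b _ _ h1 h2
    exact le_antisymm h1 h2
  · rw [List.pairwise_append]
    refine ⟨Finset.pairwise_sort _ _, Finset.pairwise_sort _ _, ?_⟩
    intro a ha b hb
    exact (h a ((Finset.mem_sort _).1 ha) b ((Finset.mem_sort _).1 hb)).le
  · rw [← Multiset.coe_eq_coe, ← Multiset.coe_add]
    simp only [Finset.sort_eq]
    rw [← Finset.disjUnion_eq_union s t hd]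
    rfl

/-- finiteness of the set of the rings -/
lemma ringSet_finite (ring : Lab (Pos d) d → Set ℝ)
    (hr : ∀ l (a b : ℝ), (ring l ∩ Set.Ioc a b).Finite) (F : Finset (Lab (Pos d) d)) (a b : ℝ) :
    (ringSet ring F a b).Finite := by
  have h1 : ringSet ring F a b ⊆ ⋃ l ∈ (F : Set (Lab (Pos d) d)),
      (fun s : ℝ => toLex (s, Encodable.encode l)) '' (ring l ∩ Set.Ioc a b) := by
    rintro p ⟨l, hl, s, hs, h2, h3, rfl⟩
    exact Set.mem_iUnion₂.2 ⟨l, hl, s, ⟨hs, h2, h3⟩, rfl⟩
  exact (Set.Finite.biUnion F.finite_toSet fun l _ => (hr l a b).image _).subset h1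

lemma ringList_eq (ring : Lab (Pos d) d → Set ℝ)
    (hr : ∀ l (a b : ℝ), (ring l ∩ Set.Ioc a b).Finite) (F : Finset (Lab (Pos d) d)) (a b : ℝ) :
    ringList ring F a b = ((ringSet_finite ring hr F a b).toFinset.sort (· ≤ ·)).filterMap
      (fun p => Encodable.decode (ofLex p).2) := by
  unfold ringList
  rw [dif_pos (ringSet_finite ring hr F a b)]

/-- concatenation of intervals -/
lemma ringList_append (ring : Lab (Pos d) d → Set ℝ)
    (hr : ∀ l (a b : ℝ), (ring l ∩ Set.Ioc a b).Finite) (F : Finset (Lab (Pos d) d)) (a b c : ℝ)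
    (hab : a ≤ b) (hbc : b ≤ c) :
    ringList ring F a c = ringList ring F a b ++ ringList ring F b c := by
  rw [ringList_eq ring hr F a c, ringList_eq ring hr F a b, ringList_eq ring hr F b c,
    ← List.filterMap_append, ← sort_union]
  · congr 2
    ext p
    simp only [Set.Finite.mem_toFinset, Finset.mem_union]
    constructor
    · rintro ⟨l, hl, s, hs, h1, h2, rfl⟩
      rcases le_or_gt s b with h | h
      · exact Or.inl ⟨l, hl, s, hs, h1, h, rfl⟩
      · exact Or.inr ⟨l, hl, s, hs, h, h2, rfl⟩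
    · rintro (⟨l, hl, s, hs, h1, h2, rfl⟩ | ⟨l, hl, s, hs, h1, h2, rfl⟩)
      · exact ⟨l, hl, s, hs, h1, h2.trans hbc, rfl⟩
      · exact ⟨l, hl, s, hs, hab.trans_lt h1, h2, rfl⟩
  · intro p hp q hq
    rw [Set.Finite.mem_toFinset] at hp hq
    obtain ⟨l, hl, s, hs, h1, h2, rfl⟩ := hp
    obtain ⟨l', hl', s', hs', h1', h2', rfl⟩ := hq
    rw [Prod.Lex.toLex_lt_toLex]
    exact Or.inl (lt_of_le_of_lt h2 h1')

/-- no ring -/
lemma ringList_nil (ring : Lab (Pos d) d → Set ℝ)
    (hr : ∀ l (a b : ℝ), (ring l ∩ Set.Ioc a b).Finite) (F : Finset (Lab (Pos d) d)) (a b : ℝ)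
    (h : ∀ l ∈ F, (ring l ∩ Set.Ioc a b).ncard = 0) : ringList ring F a b = [] := by
  rw [ringList_eq ring hr]
  have h1 : (ringSet_finite ring hr F a b).toFinset = ∅ := by
    rw [Set.Finite.toFinset_eq_empty, Set.eq_empty_iff_forall_notMem]
    rintro p ⟨l, hl, s, hs, h1, h2, rfl⟩
    have h3 := h l hl
    rw [Set.ncard_eq_zero (hr l a b)] at h3
    exact Set.eq_empty_iff_forall_notMem.1 h3 s ⟨hs, h1, h2⟩
  rw [h1]
  simp

/-- one ring -/
lemma ringList_one (ring : Lab (Pos d) d → Set ℝ)
    (hr : ∀ l (a b : ℝ), (ring l ∩ Set.Ioc a b).Finite) (F : Finset (Lab (Pos d) d)) (a b : ℝ)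
    (l : Lab (Pos d) d) (hl : l ∈ F) (h1 : (ring l ∩ Set.Ioc a b).ncard = 1)
    (h : ∀ l' ∈ F, l' ≠ l → (ring l' ∩ Set.Ioc a b).ncard = 0) : ringList ring F a b = [l] := by
  rw [ringList_eq ring hr]
  obtain ⟨s, hs⟩ := Set.ncard_eq_one.1 h1
  have hs' : s ∈ ring l ∩ Set.Ioc a b := by rw [hs]; rfl
  have h2 : (ringSet_finite ring hr F a b).toFinset = {toLex (s, Encodable.encode l)} := by
    ext p
    rw [Set.Finite.mem_toFinset, Finset.mem_singleton]
    constructor
    · rintro ⟨l', hl', s', hs1, h3, h4, rfl⟩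
      by_cases hll : l' = l
      · subst hll
        have : s' ∈ ring l' ∩ Set.Ioc a b := ⟨hs1, h3, h4⟩
        rw [hs] at this
        rw [Set.mem_singleton_iff.1 this]
      · have h5 := h l' hl' hll
        rw [Set.ncard_eq_zero (hr l' a b)] at h5
        exact absurd ⟨hs1, h3, h4⟩ (Set.eq_empty_iff_forall_notMem.1 h5 s')
    · rintro rfl
      exact ⟨l, hl, s, hs'.1, hs'.2.1, hs'.2.2, rfl⟩
  have e : (Encodable.decode (ofLex (toLex (s, Encodable.encode l))).2 : Option (Lab (Pos d) d)) =
    some l := Encodable.encodek l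
  rw [h2, Finset.sort_singleton]
  exact List.filterMap_cons_some (f := fun p : ℝ ×ₗ ℕ =>
    (Encodable.decode (ofLex p).2 : Option (Lab (Pos d) d))) e

/-- the list of the rings along a mesh -/
lemma ringList_mesh (ring : Lab (Pos d) d → Set ℝ)
    (hr : ∀ l (a b : ℝ), (ring l ∩ Set.Ioc a b).Finite) (F : Finset (Lab (Pos d) d))
    (t : ℕ → ℝ) (ht : Monotone t) (i n : ℕ) :
    ringList ring F (t i) (t (i + n)) =
      ((List.range n).map (fun j => ringList ring F (t (i + j)) (t (i + j + 1)))).flatten := by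
  induction n with
  | zero =>
    rw [ringList_nil ring hr]
    · simp
    · intro l _
      simp
  | succ n ih =>
    rw [List.range_succ, List.map_append, List.flatten_append, ← ih]
    rw [ringList_append ring hr F (t i) (t (i + n)) (t (i + (n + 1))) (ht (by omega)) (ht (by omega))]
    simp [add_assoc]

section Env

variable {m : Model} {Ω : Type} [MeasurableSpace Ω] {P : Measure Ω}

lemma lt_of_mem_torLab {M K : ℕ} {l : Lab (Pos d) d} (h : l ∈ torLab d M K) : l.2.1 < K := by
  unfold torLab at h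
  rw [Finset.mem_product, Finset.mem_product] at h
  exact Finset.mem_range.1 h.2.1

/-- the label `l` is the only ring in `(a, b]` -/
def Only (C : Clocks m d P) (M K : ℕ) (ω : Ω) (a b : ℝ) (l : Lab (Pos d) d) : Prop :=
  l ∈ torLab d M K ∧ (C.ring ω l ∩ Set.Ioc a b).ncard = 1 ∧
    ∀ l' ∈ torLab d M K, l' ≠ l → (C.ring ω l' ∩ Set.Ioc a b).ncard = 0

/-- the letter of the interval `(a, b]` -/
def letter (C : Clocks m d P) (M K : ℕ) (ω : Ω) (a b : ℝ) : Let d M K :=
  if h : ∃ l, Only C M K ω a b l then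
    some (tv h.choose.1, ⟨h.choose.2.1, lt_of_mem_torLab h.choose_spec.1⟩, h.choose.2.2)
  else none

/-- at most one ring in `(a, b]` -/
def Simple (C : Clocks m d P) (M K : ℕ) (ω : Ω) (a b : ℝ) : Prop :=
  ∑ l ∈ torLab d M K, (C.ring ω l ∩ Set.Ioc a b).ncard ≤ 1

lemma Only.unique {C : Clocks m d P} {M K : ℕ} {ω : Ω} {a b : ℝ} {l l' : Lab (Pos d) d}
    (h : Only C M K ω a b l) (h' : Only C M K ω a b l') : l = l' := by
  by_contra hne
  have := h.2.2 l' h'.1 (Ne.symm hne)
  rw [h'.2.1] at this
  exact one_ne_zero this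

lemma letter_some {C : Clocks m d P} {M K : ℕ} {ω : Ω} {a b : ℝ} {l : Lab (Pos d) d}
    (h : Only C M K ω a b l) :
    letter C M K ω a b = some (tv l.1, ⟨l.2.1, lt_of_mem_torLab h.1⟩, l.2.2) := by
  have h1 : ∃ l, Only C M K ω a b l := ⟨l, h⟩
  have h2 : h1.choose = l := h1.choose_spec.unique h
  unfold letter
  rw [dif_pos h1]
  congr 1
  refine Prod.ext ?_ (Prod.ext ?_ ?_)
  · show tv h1.choose.1 = tv l.1
    rw [h2]
  · apply Fin.ext
    show h1.choose.2.1 = l.2.1
    rw [h2]
  · show h1.choose.2.2 = l.2.2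
    rw [h2]

lemma letter_none {C : Clocks m d P} {M K : ℕ} {ω : Ω} {a b : ℝ}
    (h : ¬ ∃ l, Only C M K ω a b l) : letter C M K ω a b = none := by
  unfold letter
  rw [dif_neg h]

/-- the rings of a simple interval are given by the letter -/
lemma ring_letter {C : Clocks m d P} {M K : ℕ} {ω : Ω} {a b : ℝ} (h : Simple C M K ω a b) :
    (ringList (C.ring ω) (torLab d M K) a b).map (fun l => ((tv l.1 : Tor d M), l.2)) =
      (toLab (letter C M K ω a b)).toList := by
  have hr := C.ring_fin ω
  by_cases h1 : ∃ l, Only C M K ω a b l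
  · obtain ⟨l, hl⟩ := h1
    rw [letter_some hl, ringList_one (C.ring ω) hr _ a b l hl.1 hl.2.1 hl.2.2]
    rfl
  · rw [letter_none h1, ringList_nil (C.ring ω) hr]
    · rfl
    · intro l hl
      by_contra h0
      apply h1
      refine ⟨l, hl, ?_, ?_⟩
      · have h2 := Finset.single_le_sum
          (f := fun l => (C.ring ω l ∩ Set.Ioc a b).ncard) (fun _ _ => Nat.zero_le _) hl
        have h3 : (C.ring ω l ∩ Set.Ioc a b).ncard ≤ 1 := h2.trans h
        omega
      · intro l' hl' hne
        by_contra h2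
        have h3 : (C.ring ω l ∩ Set.Ioc a b).ncard + (C.ring ω l' ∩ Set.Ioc a b).ncard ≤ 1 := by
          refine le_trans ?_ h
          have h4 : ({l, l'} : Finset (Lab (Pos d) d)) ⊆ torLab d M K := by
            intro x hx
            rcases Finset.mem_insert.1 hx with rfl | hx
            · exact hl
            · rw [Finset.mem_singleton.1 hx]
              exact hl'
          refine le_trans (le_of_eq ?_) (Finset.sum_le_sum_of_subset h4)
          rw [Finset.sum_pair (Ne.symm hne)]
        omega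

/-- the word of the letters along the mesh `1 / N1` -/
def word (C : Clocks m d P) (M K N : ℕ) (t : ℕ → ℝ) (ω : Ω) : List (Let d M K) :=
  (List.range N).map (fun j => letter C M K ω (t j) (t (j + 1)))

lemma word_length (C : Clocks m d P) (M K N : ℕ) (t : ℕ → ℝ) (ω : Ω) :
    (word C M K N t ω).length = N := by
  unfold word
  rw [List.length_map, List.length_range]

/-- the mesh -/
def mesh (N1 : ℕ) (j : ℕ) : ℝ := (j : ℝ) / N1

lemma mesh_mono (N1 : ℕ) : Monotone (mesh N1) := fun i j h => by
  unfold mesh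
  gcongr

lemma mesh_mul {N1 : ℕ} (hN : 0 < N1) (t : ℕ) : mesh N1 (t * N1) = t := by
  unfold mesh
  push_cast
  field_simp

/-- the environment of the clocks is the environment of the word -/
theorem envC_eq (C : Clocks m d P) (q : Par d m) (T : ℕ) (ω : Ω)
    (h : ∀ j < T * q.N1, Simple C q.M q.K ω (mesh q.N1 j) (mesh q.N1 (j + 1))) :
    envC C q.M q.K T ω = envT q (fun v => C.η0 ω (lft v))
      (word C q.M q.K (T * q.N1) (mesh q.N1) ω) := by
  have hr := C.ring_fin ω
  have hN := q.N1_pos
  unfold envC envT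
  congr 1
  funext t
  by_cases ht : t < T
  · rw [if_pos ht]
    have h1 : ringList (C.ring ω) (torLab d q.M q.K) t (t + 1) =
        ((List.range q.N1).map (fun j => ringList (C.ring ω) (torLab d q.M q.K)
          (mesh q.N1 (t * q.N1 + j)) (mesh q.N1 (t * q.N1 + j + 1)))).flatten := by
      rw [← ringList_mesh (C.ring ω) hr _ _ (mesh_mono q.N1)]
      congr 1
      · rw [mesh_mul hN]
      · have : t * q.N1 + q.N1 = (t + 1) * q.N1 := by ring
        rw [this, mesh_mul hN]
        push_cast
        rfl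
    rw [h1, List.map_flatten, List.map_map]
    unfold units
    have h2 : ((word C q.M q.K (T * q.N1) (mesh q.N1) ω).drop (t * q.N1)).take q.N1 =
        (List.range q.N1).map (fun j => letter C q.M q.K ω (mesh q.N1 (t * q.N1 + j))
          (mesh q.N1 (t * q.N1 + j + 1))) := by
      have h3 : (t + 1) * q.N1 ≤ T * q.N1 := Nat.mul_le_mul_right _ ht
      have h4 : (t + 1) * q.N1 = t * q.N1 + q.N1 := by ring
      apply List.ext_getElem
      · rw [List.length_take, List.length_drop, word_length, List.length_map, List.length_range]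
        omega
      · intro i hi1 hi2
        rw [List.getElem_take, List.getElem_drop]
        unfold word
        rw [List.getElem_map, List.getElem_map, List.getElem_range, List.getElem_range]
    rw [h2, List.filterMap_eq_flatMap_toList, List.flatMap_map, List.flatMap_def]
    congr 1
    refine List.map_congr_left fun j hj => ?_
    rw [List.mem_range] at hj
    refine ring_letter (h _ ?_)
    have h3 : (t + 1) * q.N1 ≤ T * q.N1 := Nat.mul_le_mul_right _ ht
    have h4 : (t + 1) * q.N1 = t * q.N1 + q.N1 := by ring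
    omega
  · rw [if_neg ht]
    unfold units
    rw [List.drop_eq_nil_of_le]
    · simp
    · rw [word_length]
      exact Nat.mul_le_mul_right _ (not_lt.1 ht)

end Env

end ZI.P2bA
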