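import Mathlib

/-! # A Poisson process on `(0, ∞)`, built from cells `(n, n + 1]` -/

set_option autoImplicit false

open MeasureTheory ProbabilityTheory
open scoped NNReal ENNReal BigOperators Classical

noncomputable section

namespace ZI.EX

/-- a cell: number of points and their positions -/
abbrev Cell := ℕ × (ℕ → ℝ)

/-- uniform law on the cell `(n, n + 1]` -/
def ul (n : ℕ) : Measure ℝ := volume.restrict (Set.Ioc (n : ℝ) (n + 1))

instance (n : ℕ) : IsProbabilityMeasure (ul n) := ⟨by simp [ul]⟩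

/-- law of a cell, rate `r` -/
def cellLaw (r : ℝ≥0) (n : ℕ) : Measure Cell :=
  (poissonMeasure r).prod (Measure.infinitePi (fun _ : ℕ => ul n))

instance (r : ℝ≥0) (n : ℕ) : IsProbabilityMeasure (cellLaw r n) := by
  unfold cellLaw; infer_instance

lemma int_pow (n k : ℕ) (g : ℝ → ℂ) (hg : Measurable g) :
    ∫ U : ℕ → ℝ, ∏ i ∈ Finset.range k, g (U i) ∂(Measure.infinitePi (fun _ : ℕ => ul n)) =
      (∫ x, g x ∂(ul n)) ^ k := by
  have hX : iIndepFun (fun (i : Fin k) (U : ℕ → ℝ) => U i) (Measure.infinitePi (fun _ : ℕ => ul n)) := by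
    have h := iIndepFun_infinitePi (P := fun _ : ℕ => ul n) (X := fun _ (x : ℝ) => x)
      (fun _ => measurable_id)
    exact h.precomp Fin.val_injective
  have h1 := hX.integral_fun_prod_comp (f := fun _ => g)
    (fun i => (measurable_pi_apply _).aemeasurable) (fun i => hg.aestronglyMeasurable)
  simp only [Finset.prod_range]
  rw [h1]
  rw [Finset.prod_congr rfl (g := fun _ => ∫ x, g x ∂(ul n)), Finset.prod_const, Finset.card_univ,
    Fintype.card_fin]
  intro i _
  have h2 : (Measure.infinitePi (fun _ : ℕ => ul n)).map (fun U : ℕ → ℝ => U i) = ul n :=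
    Measure.infinitePi_map_eval (fun _ : ℕ => ul n) (i : ℕ)
  have h3 := integral_map (μ := Measure.infinitePi (fun _ : ℕ => ul n)) (φ := fun U : ℕ → ℝ => U i)
    (measurable_pi_apply _).aemeasurable (f := g) hg.aestronglyMeasurable
  rw [h2] at h3
  exact h3.symm

lemma meas_prodcell (g : ℝ → ℂ) (hg : Measurable g) :
    Measurable (fun e : Cell => ∏ i ∈ Finset.range e.1, g (e.2 i)) := by
  refine measurable_from_prod_countable_right fun k => ?_
  show Measurable (fun y : ℕ → ℝ => ∏ i ∈ Finset.range k, g (y i))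
  have h : ∀ i ∈ Finset.range k, Measurable (fun y : ℕ → ℝ => g (y i)) :=
    fun i _ => hg.comp (measurable_pi_apply i)
  exact Finset.measurable_fun_prod _ h

lemma norm_prodcell (g : ℝ → ℂ) (hb : ∀ x, ‖g x‖ ≤ 1) (e : Cell) :
    ‖∏ i ∈ Finset.range e.1, g (e.2 i)‖ ≤ 1 := by
  rw [norm_prod]
  exact Finset.prod_le_one (fun _ _ => norm_nonneg _) (fun i _ => hb _)

lemma po_int (r : ℝ≥0) (z : ℂ) : ∫ k, z ^ k ∂(poissonMeasure r) = Complex.exp (r * (z - 1)) := by
  rw [integral_poissonMeasure r]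
  have h : ∀ k : ℕ, (Real.exp (-r) * r ^ k / k.factorial : ℝ) • z ^ k =
      (Real.exp (-r) : ℂ) * ((r * z) ^ k / k.factorial) := by
    intro k
    rw [Complex.real_smul]
    push_cast
    rw [mul_pow]
    ring
  simp_rw [h]
  rw [tsum_mul_left, (NormedSpace.expSeries_div_hasSum_exp (r * z)).tsum_eq, ← Complex.exp_eq_exp_ℂ,
    Complex.ofReal_exp, ← Complex.exp_add]
  push_cast
  ring_nf

lemma cell_int (r : ℝ≥0) (n : ℕ) (g : ℝ → ℂ) (hg : Measurable g) (hb : ∀ x, ‖g x‖ ≤ 1) :
    ∫ e : Cell, ∏ i ∈ Finset.range e.1, g (e.2 i) ∂(cellLaw r n) =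
      Complex.exp (r * (∫ x, g x ∂(ul n) - 1)) := by
  have hi : Integrable (fun e : Cell => ∏ i ∈ Finset.range e.1, g (e.2 i))
      ((poissonMeasure r).prod (Measure.infinitePi (fun _ : ℕ => ul n))) :=
    Integrable.of_bound (meas_prodcell g hg).aestronglyMeasurable 1
      (Filter.Eventually.of_forall (norm_prodcell g hb))
  unfold cellLaw
  rw [integral_prod _ hi]
  simp only [int_pow n _ g hg]
  exact po_int r _

/-- number of the points of the cell `n` in the set `A` -/
def cN (n : ℕ) (A : Set ℝ) (e : Cell) : ℕ :=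
  ((Finset.range e.1).filter (fun i => e.2 i ∈ A ∧ e.2 i ∈ Set.Ioc (n : ℝ) (n + 1))).card

/-- a configuration of cells -/
abbrev W := ℕ → Cell

/-- law of the cells -/
def Q (r : ℝ≥0) : Measure W := Measure.infinitePi (fun n => cellLaw r n)

instance (r : ℝ≥0) : IsProbabilityMeasure (Q r) := by unfold Q; infer_instance

/-- number of the points in `A`, first `M` cells -/
def cS (A : Set ℝ) (M : ℕ) (w : W) : ℕ := ∑ n ∈ Finset.range M, cN n A (w n)

lemma meas_cN (n : ℕ) {A : Set ℝ} (hA : MeasurableSet A) : Measurable (cN n A) := by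
  refine measurable_from_prod_countable_right fun k => ?_
  have h : (fun x : ℕ → ℝ => cN n A (k, x)) = fun x => ∑ i ∈ Finset.range k,
      (A ∩ Set.Ioc (n : ℝ) (n + 1)).indicator (fun _ => 1) (x i) := by
    funext x
    unfold cN
    rw [Finset.card_filter]
    refine Finset.sum_congr rfl fun i _ => ?_
    rw [Set.indicator_apply]
    rfl
  show Measurable (fun x : ℕ → ℝ => cN n A (k, x))
  rw [h]
  exact Finset.measurable_sum _ fun i _ =>
    (measurable_const.indicator (hA.inter measurableSet_Ioc)).comp (measurable_pi_apply i)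

lemma meas_cS (M : ℕ) {A : Set ℝ} (hA : MeasurableSet A) : Measurable (cS A M) := by
  unfold cS
  exact Finset.measurable_sum _ fun n _ => (meas_cN n hA).comp (measurable_pi_apply n)

lemma cS_eq {A : Set ℝ} {M M' : ℕ} (hM : M ≤ M') (hA : A ⊆ Set.Iic (M : ℝ)) (w : W) :
    cS A M' w = cS A M w := by
  unfold cS
  symm
  apply Finset.sum_subset (Finset.range_subset_range.mpr hM)
  intro n _ hn
  unfold cN
  rw [Finset.card_eq_zero, Finset.filter_eq_empty_iff]
  rintro i _ ⟨h1, h2⟩
  have h3 : (w n).2 i ≤ M := hA h1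
  have h4 : (n : ℝ) < (w n).2 i := h2.1
  rw [Finset.mem_range, not_lt] at hn
  have h5 : (M : ℝ) ≤ n := by exact_mod_cast hn
  linarith

section Joint

variable {ι : Type} (s : Finset ι) (A : ι → Set ℝ) (θ : ι → ℝ)

/-- the factor of a point -/
def gf (n : ℕ) (u : ℝ) : ℂ :=
  Complex.exp ((∑ j ∈ s, θ j * (if u ∈ A j ∧ u ∈ Set.Ioc (n : ℝ) (n + 1) then (1 : ℝ) else 0) : ℝ) * Complex.I)

lemma norm_gf (n : ℕ) (u : ℝ) : ‖gf s A θ n u‖ ≤ 1 := by
  unfold gf
  rw [Complex.norm_exp_ofReal_mul_I]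

lemma meas_gf (hA : ∀ j ∈ s, MeasurableSet (A j)) (n : ℕ) : Measurable (gf s A θ n) := by
  unfold gf
  refine Complex.measurable_exp.comp (Measurable.mul_const ?_ _)
  refine Complex.measurable_ofReal.comp (Finset.measurable_sum _ fun j hj => ?_)
  refine Measurable.const_mul ?_ _
  exact Measurable.ite ((hA j hj).inter measurableSet_Ioc) measurable_const measurable_const

lemma gf_eq (hd : ∀ j ∈ s, ∀ k ∈ s, j ≠ k → Disjoint (A j) (A k)) (n : ℕ) (u : ℝ) :
    gf s A θ n u = 1 + ∑ j ∈ s, (A j ∩ Set.Ioc (n : ℝ) (n + 1)).indicator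
      (fun _ => Complex.exp (θ j * Complex.I) - 1) u := by
  unfold gf
  by_cases h : ∃ j ∈ s, u ∈ A j ∧ u ∈ Set.Ioc (n : ℝ) (n + 1)
  · obtain ⟨j, hj, hu⟩ := h
    have hk : ∀ k ∈ s, k ≠ j → ¬ (u ∈ A k ∧ u ∈ Set.Ioc (n : ℝ) (n + 1)) := by
      intro k hk hkj hc
      exact Set.disjoint_left.mp (hd k hk j hj hkj) hc.1 hu.1
    rw [Finset.sum_eq_single_of_mem j hj (fun k hks hkj => by rw [if_neg (hk k hks hkj), mul_zero]),
      Finset.sum_eq_single_of_mem j hj (fun k hks hkj => by
        exact Set.indicator_of_notMem (s := A k ∩ Set.Ioc (n : ℝ) (n + 1)) (hk k hks hkj) _), if_pos hu,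
      Set.indicator_of_mem (s := A j ∩ Set.Ioc (n : ℝ) (n + 1)) hu]
    push_cast
    ring_nf
  · push Not at h
    have h0 : ∀ k ∈ s, ¬ (u ∈ A k ∧ u ∈ Set.Ioc (n : ℝ) (n + 1)) := fun k hk hc => h k hk hc.1 hc.2
    rw [Finset.sum_eq_zero (fun k hk => by rw [if_neg (h0 k hk), mul_zero]),
      Finset.sum_eq_zero (fun k hk => Set.indicator_of_notMem (s := A k ∩ Set.Ioc (n : ℝ) (n + 1)) (h0 k hk) _)]
    simp

lemma int_gf (hA : ∀ j ∈ s, MeasurableSet (A j)) (hd : ∀ j ∈ s, ∀ k ∈ s, j ≠ k → Disjoint (A j) (A k))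
    (n : ℕ) : ∫ u, gf s A θ n u ∂(ul n) - 1 =
      ∑ j ∈ s, ((ul n).real (A j) : ℂ) * (Complex.exp (θ j * Complex.I) - 1) := by
  have h1 : ∀ j ∈ s, Integrable ((A j ∩ Set.Ioc (n : ℝ) (n + 1)).indicator
      (fun _ : ℝ => Complex.exp (θ j * Complex.I) - 1)) (ul n) := fun j hj =>
    (integrable_const _).indicator ((hA j hj).inter measurableSet_Ioc)
  simp only [gf_eq s A θ hd n]
  rw [integral_add (integrable_const _) (integrable_finsetSum _ h1), integral_finsetSum _ h1]
  simp only [integral_const, probReal_univ, one_smul, add_sub_cancel_left]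
  refine Finset.sum_congr rfl fun j hj => ?_
  rw [integral_indicator ((hA j hj).inter measurableSet_Ioc), setIntegral_const]
  have h2 : (ul n).real (A j ∩ Set.Ioc (n : ℝ) (n + 1)) = (ul n).real (A j) := by
    unfold Measure.real ul
    rw [Measure.restrict_apply ((hA j hj).inter measurableSet_Ioc), Measure.restrict_apply (hA j hj),
      Set.inter_assoc, Set.inter_self]
  rw [h2, Complex.real_smul]

lemma exp_prod (M : ℕ) (w : W) :
    Complex.exp ((∑ j ∈ s, θ j * (cS (A j) M w : ℝ) : ℝ) * Complex.I) =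
      ∏ n : Fin M, ∏ i ∈ Finset.range (w n).1, gf s A θ n ((w n).2 i) := by
  have h1 : (∑ j ∈ s, θ j * (cS (A j) M w : ℝ)) = ∑ n ∈ Finset.range M, ∑ i ∈ Finset.range (w n).1,
      ∑ j ∈ s, θ j * (if (w n).2 i ∈ A j ∧ (w n).2 i ∈ Set.Ioc (n : ℝ) (n + 1) then (1 : ℝ) else 0) := by
    have h2 : ∀ j ∈ s, θ j * (cS (A j) M w : ℝ) = ∑ n ∈ Finset.range M, ∑ i ∈ Finset.range (w n).1,
        θ j * (if (w n).2 i ∈ A j ∧ (w n).2 i ∈ Set.Ioc (n : ℝ) (n + 1) then (1 : ℝ) else 0) := by
      intro j _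
      unfold cS cN
      rw [Nat.cast_sum, Finset.mul_sum]
      refine Finset.sum_congr rfl fun n _ => ?_
      rw [Finset.card_filter, Nat.cast_sum, Finset.mul_sum]
      refine Finset.sum_congr rfl fun i _ => ?_
      split_ifs <;> simp
    rw [Finset.sum_congr rfl h2, Finset.sum_comm]
    refine Finset.sum_congr rfl fun n _ => ?_
    rw [Finset.sum_comm]
  rw [h1, ← Finset.prod_range (fun n => ∏ i ∈ Finset.range (w n).1, gf s A θ n ((w n).2 i))]
  rw [Complex.ofReal_sum, Finset.sum_mul, Complex.exp_sum]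
  refine Finset.prod_congr rfl fun n _ => ?_
  rw [Complex.ofReal_sum, Finset.sum_mul, Complex.exp_sum]
  rfl

lemma sum_ul (M : ℕ) {B : Set ℝ} (hB : MeasurableSet B) (hM : B ⊆ Set.Ioc 0 (M : ℝ)) :
    ∑ n ∈ Finset.range M, (ul n).real B = volume.real B := by
  have h : ∀ N : ℕ, ∑ n ∈ Finset.range N, (ul n).real B = volume.real (B ∩ Set.Ioc 0 (N : ℝ)) := by
    intro N
    induction N with
    | zero => simp
    | succ N ih =>
      rw [Finset.sum_range_succ, ih]
      have h1 : B ∩ Set.Ioc 0 ((N + 1 : ℕ) : ℝ) = (B ∩ Set.Ioc 0 (N : ℝ)) ∪ (B ∩ Set.Ioc (N : ℝ) (N + 1)) := by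
        rw [← Set.inter_union_distrib_left, Set.Ioc_union_Ioc_eq_Ioc (by positivity) (by linarith)]
        push_cast
        rfl
      have h2 : (ul N).real B = volume.real (B ∩ Set.Ioc (N : ℝ) (N + 1)) := by
        unfold Measure.real ul
        rw [Measure.restrict_apply hB]
      have h3 : (volume : Measure ℝ) (B ∩ Set.Ioc 0 (N : ℝ)) ≠ ∞ :=
        ne_top_of_le_ne_top (by simp) (measure_mono Set.inter_subset_right)
      have h4 : (volume : Measure ℝ) (B ∩ Set.Ioc (N : ℝ) (N + 1)) ≠ ∞ :=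
        ne_top_of_le_ne_top (by simp) (measure_mono Set.inter_subset_right)
      rw [h1, h2, measureReal_union (h₁ := h3) (h₂ := h4) _ (hB.inter measurableSet_Ioc)]
      refine Set.disjoint_left.mpr ?_
      rintro x ⟨_, hx1⟩ ⟨_, hx2⟩
      exact absurd hx1.2 (not_le.mpr hx2.1)
  rw [h M, Set.inter_eq_left.mpr hM]

theorem joint (r : ℝ≥0) (M : ℕ) (hA : ∀ j ∈ s, MeasurableSet (A j))
    (hd : ∀ j ∈ s, ∀ k ∈ s, j ≠ k → Disjoint (A j) (A k)) (hM : ∀ j ∈ s, A j ⊆ Set.Ioc 0 (M : ℝ)) :
    ∫ w, Complex.exp ((∑ j ∈ s, θ j * (cS (A j) M w : ℝ) : ℝ) * Complex.I) ∂(Q r) =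
      Complex.exp (∑ j ∈ s, (r : ℂ) * (volume.real (A j) : ℂ) * (Complex.exp (θ j * Complex.I) - 1)) := by
  simp only [exp_prod s A θ M]
  have hX : iIndepFun (fun (n : Fin M) (w : W) => w n) (Q r) := by
    have h := iIndepFun_infinitePi (P := fun n : ℕ => cellLaw r n) (X := fun _ (x : Cell) => x)
      (fun _ => measurable_id)
    exact h.precomp Fin.val_injective
  have h1 := hX.integral_fun_prod_comp
    (f := fun (n : Fin M) (e : Cell) => ∏ i ∈ Finset.range e.1, gf s A θ n (e.2 i))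
    (fun i => (measurable_pi_apply _).aemeasurable)
    (fun i => (meas_prodcell _ (meas_gf s A θ hA i)).aestronglyMeasurable)
  rw [h1]
  have h2 : ∀ n : Fin M, ∫ w : W, ∏ i ∈ Finset.range (w n).1, gf s A θ n ((w n).2 i) ∂(Q r) =
      Complex.exp (r * ∑ j ∈ s, ((ul n).real (A j) : ℂ) * (Complex.exp (θ j * Complex.I) - 1)) := by
    intro n
    have h3 : (Q r).map (fun w : W => w n) = cellLaw r n :=
      Measure.infinitePi_map_eval (fun n : ℕ => cellLaw r n) (n : ℕ)
    rw [← int_gf s A θ hA hd n, ← cell_int r n _ (meas_gf s A θ hA n) (norm_gf s A θ n), ← h3,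
      integral_map (measurable_pi_apply _).aemeasurable
        (meas_prodcell _ (meas_gf s A θ hA n)).aestronglyMeasurable]
  rw [Finset.prod_congr rfl (fun n _ => h2 n), ← Complex.exp_sum]
  congr 1
  rw [← Finset.mul_sum, Finset.sum_comm, Finset.mul_sum]
  refine Finset.sum_congr rfl fun j hj => ?_
  rw [← Finset.sum_mul, ← mul_assoc]
  congr 2
  rw [← sum_ul M (hA j hj) (hM j hj), Complex.ofReal_sum, Finset.sum_range]

end Joint

/-- the counts are Poisson variables -/
theorem law_cS (r : ℝ≥0) (M : ℕ) {B : Set ℝ} (hB : MeasurableSet B) (hM : B ⊆ Set.Ioc 0 (M : ℝ)) (j : ℕ) :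
    Q r {w | cS B M w = j} = poissonMeasure (r * (volume.real B).toNNReal) {j} := by
  have hm : Measurable (fun w : W => (cS B M w : ℝ)) := measurable_from_nat.comp (meas_cS M hB)
  have hp : IsProbabilityMeasure ((Q r).map (fun w : W => (cS B M w : ℝ))) :=
    Measure.isProbabilityMeasure_map hm.aemeasurable
  have h1 : (Q r).map (fun w : W => (cS B M w : ℝ)) =
      (poissonMeasure (r * (volume.real B).toNNReal)).map (Nat.cast : ℕ → ℝ) := by
    refine Measure.ext_of_charFun ?_
    funext t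
    rw [charFun_map_cast_poissonMeasure, charFun_apply_real,
      integral_map hm.aemeasurable (by fun_prop)]
    have h2 := joint ({()} : Finset Unit) (fun _ => B) (fun _ => t) r M (fun _ _ => hB)
      (fun j _ k _ hjk => absurd rfl hjk) (fun _ _ => hM)
    simp only [Finset.sum_singleton, Complex.ofReal_mul] at h2
    rw [h2]
    congr 1
    rw [NNReal.coe_mul, Real.coe_toNNReal _ measureReal_nonneg]
    push_cast
    ring
  have h3 : Q r {w | cS B M w = j} = (Q r).map (fun w : W => (cS B M w : ℝ)) {(j : ℝ)} := by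
    rw [Measure.map_apply hm (measurableSet_singleton _)]
    congr 1
    ext w
    simp
  rw [h3, h1, Measure.map_apply measurable_from_nat (measurableSet_singleton _)]
  congr 1
  ext k
  simp

/-- the counts of disjoint sets are independent -/
theorem indep_cS (r : ℝ≥0) {ι : Type} (A : ι → Set ℝ) (M : ι → ℕ) (hA : ∀ j, MeasurableSet (A j))
    (hd : ∀ j k, j ≠ k → Disjoint (A j) (A k)) (hM : ∀ j, A j ⊆ Set.Ioc 0 (M j : ℝ)) :
    iIndepFun (fun j (w : W) => cS (A j) (M j) w) (Q r) := by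
  rw [iIndepFun_iff_finset]
  intro s
  have hmj : ∀ j, Measurable (fun w : W => (cS (A j) (M j) w : ℝ)) := fun j =>
    measurable_from_nat.comp (meas_cS (M j) (hA j))
  have key : iIndepFun (fun (j : s) (w : W) => (cS (A j) (M j) w : ℝ)) (Q r) := by
    rw [iIndepFun_iff_charFun_pi (X := fun (j : s) (w : W) => (cS (A j) (M j) w : ℝ))
      (fun j : s => (hmj j).aemeasurable)]
    intro t
    obtain ⟨M', hM'⟩ : ∃ M' : ℕ, ∀ j ∈ s, M j ≤ M' := ⟨s.sup M, fun j hj => Finset.le_sup hj⟩
    have hsub : ∀ j ∈ s, A j ⊆ Set.Ioc 0 (M' : ℝ) := fun j hj x hx =>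
      ⟨(hM j hx).1, (hM j hx).2.trans (by exact_mod_cast hM' j hj)⟩
    have hcs : ∀ (j : s) (w : W), cS (A j) (M j) w = cS (A j) M' w := fun j w =>
      (cS_eq (hM' j j.2) (fun x hx => (hM j hx).2) w).symm
    have hR : ∀ j : s, charFun ((Q r).map (fun w : W => (cS (A j) (M j) w : ℝ))) (t j) =
        Complex.exp ((r : ℂ) * (volume.real (A j) : ℂ) * (Complex.exp (t j * Complex.I) - 1)) := by
      intro j
      rw [charFun_apply_real, integral_map (hmj j).aemeasurable (by fun_prop)]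
      have h2 := joint ({()} : Finset Unit) (fun _ => A j) (fun _ => t j) r (M j) (fun _ _ => hA j)
        (fun j _ k _ hjk => absurd rfl hjk) (fun _ _ => hM j)
      simp only [Finset.sum_singleton, Complex.ofReal_mul] at h2
      rw [h2]
    rw [Finset.prod_congr rfl (fun j _ => hR j), ← Complex.exp_sum, charFun_apply,
      integral_map (by
        apply Measurable.aemeasurable
        exact (measurable_pi_lambda _ fun j : s => hmj j).comp measurable_id |>.comp measurable_id |> fun h =>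
          (WithLp.measurable_toLp 2 _).comp h) (by fun_prop)]
    have h3 := joint (Finset.univ : Finset s) (fun j : s => A j) (fun j => t j) r M' (fun j _ => hA j)
      (fun j _ k _ hjk => hd j k (fun h => hjk (Subtype.ext h))) (fun j _ => hsub j j.2)
    rw [← h3]
    congr 1
    funext w
    congr 2
    simp only [PiLp.inner_apply, RCLike.inner_apply, conj_trivial]
    rw [Finset.sum_congr rfl fun j _ => by rw [hcs j w]]
  have h4 := key.comp (fun _ x => ⌊x⌋₊) (fun _ => Nat.measurable_floor)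
  refine iIndepFun.congr ?_ h4
  intro j
  refine Filter.Eventually.of_forall fun w => ?_
  simp [Function.comp, Finset.restrict]

end ZI.EX
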