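import Pool.Agent.ZI.R1
import Pool.Agent.ZI.R2
import Pool.Agent.ZI.R3
import Pool.Agent.ZI.Ev1

/-! # The plain path and the bonus path against a target (row C3) -/

set_option autoImplicit false

open scoped ENNReal BigOperators Classical

noncomputable section

namespace ZI.Plain

open ZI ZI.Rows

variable {d : ℕ}

/-! ### admissible moves of a path -/

/-- an admissible move of a path along a letter: it jumps with an effective ring at its site, or it stays and no
effective ring takes the last particle -/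
def Adm {M K : ℕ} (η : Tor d M → ℕ) (X : Pos d) (a : Let d M K) (X' : Pos d) : Prop :=
  (∃ l, toLab a = some l ∧ l.1 = tv X ∧ l.2.1 < η l.1 ∧ X' = X + dv l.2.2) ∨
  (X' = X ∧ ∀ l, toLab a = some l → l.1 = tv X → l.2.1 < η l.1 → 2 ≤ η l.1)

theorem adm_legal {M K : ℕ} {η : Tor d M → ℕ} {X : Pos d} {a : Let d M K} {X' : Pos d}
    (h : Adm η X a X') : X' ∈ legal η a X := by
  unfold legal
  cases ha : toLab a with
  | none =>
    rcases h with ⟨l, hl, _⟩ | ⟨h, _⟩
    · rw [ha] at hl; cases hl
    · exact h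
  | some l =>
    show X' ∈ infMv nbT tv η {X} l
    rcases h with ⟨l', hl', h1, h2, h3⟩ | ⟨h1, h2⟩
    · rw [ha] at hl'
      cases hl'
      rw [infMv, if_pos h2]
      right
      refine ⟨?_, ?_, ?_⟩
      · show X' - dv l.2.2 = X
        rw [h3, add_sub_cancel_right]
      · rw [h3, add_sub_cancel_right]
        exact h1.symm
      · rw [h3, tv_add, ← h1]
        rfl
    · rw [infMv]
      split_ifs with he
      · left
        refine ⟨h1, fun hx => ?_⟩
        rw [h1] at hx
        exact h2 l ha hx.symm he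
      · exact h1

theorem adm_occ {M K : ℕ} (hM : 2 ≤ M) {η : Tor d M → ℕ} {X : Pos d} {a : Let d M K} {X' : Pos d}
    (h0 : 0 < η (tv X)) (h : Adm η X a X') : 0 < stepA η a (tv X') := by
  unfold stepA
  cases ha : toLab a with
  | none =>
    rcases h with ⟨l, hl, _⟩ | ⟨h, _⟩
    · rw [ha] at hl; cases hl
    · rw [h]; exact h0
  | some l =>
    show 0 < mv nbT η l (tv X')
    rcases h with ⟨l', hl', h1, h2, h3⟩ | ⟨h1, h2⟩
    · rw [ha] at hl'
      cases hl'
      rw [h3, tv_add, ← h1, mv_to hM η l h2]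
      exact Nat.succ_pos _
    · rw [h1]
      by_cases he : l.2.1 < η l.1
      · by_cases hx : l.1 = tv X
        · rw [← hx, mv_at hM η l he]
          have := h2 l ha hx he
          omega
        · exact lt_of_lt_of_le h0 (le_mv_of_ne hM η l _ (fun hh => hx hh.symm))
      · rw [mv_neff η l he]
        exact h0

/-- the plain path: it follows the level `0` rings -/
def X0 {M K : ℕ} (X : Pos d) (a : Let d M K) : Pos d :=
  match toLab a with
  | none => X
  | some l => if l.1 = tv X ∧ l.2.1 = 0 then X + dv l.2.2 else X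

theorem X0_none {M K : ℕ} (X : Pos d) (a : Let d M K) (ha : toLab a = none) : X0 X a = X := by
  unfold X0
  rw [ha]

theorem X0_some {M K : ℕ} (X : Pos d) (a : Let d M K) (l : Lab (Tor d M) d) (ha : toLab a = some l) :
    X0 X a = if l.1 = tv X ∧ l.2.1 = 0 then X + dv l.2.2 else X := by
  unfold X0
  rw [ha]

theorem Xr_none {M K : ℕ} (η : Tor d M → ℕ) (X : Pos d) (e : Dir d) (a : Let d M K)
    (ha : toLab a = none) : Xr η X e a = X := by
  unfold Xr
  rw [ha]

theorem Xr_some {M K : ℕ} (η : Tor d M → ℕ) (X : Pos d) (e : Dir d) (a : Let d M K)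
    (l : Lab (Tor d M) d) (ha : toLab a = some l) :
    Xr η X e a = if l.1 = tv X ∧ l.2.1 = 0 then X + dv l.2.2
      else if l.1 = tv X ∧ l.2.1 = 1 ∧ l.2.2 = e ∧ 2 ≤ η (tv X) then X + dv e else X := by
  unfold Xr
  rw [ha]

theorem adm_X0 {M K : ℕ} (η : Tor d M → ℕ) (X : Pos d) (a : Let d M K) (h0 : 0 < η (tv X)) :
    Adm η X a (X0 X a) := by
  cases ha : toLab a with
  | none =>
    rw [X0_none X a ha]
    right
    refine ⟨rfl, fun l hl => ?_⟩
    rw [ha] at hl; cases hl
  | some l =>
    rw [X0_some X a l ha]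
    split_ifs with h
    · left
      refine ⟨l, ha, h.1, ?_, rfl⟩
      rw [h.2, h.1]
      exact h0
    · right
      refine ⟨rfl, fun l' hl' h1 h2 => ?_⟩
      rw [ha] at hl'
      cases hl'
      have : l.2.1 ≠ 0 := fun h3 => h ⟨h1, h3⟩
      omega

theorem adm_Xr {M K : ℕ} (η : Tor d M → ℕ) (X : Pos d) (e : Dir d) (a : Let d M K)
    (h0 : 0 < η (tv X)) : Adm η X a (Xr η X e a) := by
  cases ha : toLab a with
  | none =>
    rw [Xr_none η X e a ha]
    right
    refine ⟨rfl, fun l hl => ?_⟩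
    rw [ha] at hl; cases hl
  | some l =>
    rw [Xr_some η X e a l ha]
    split_ifs with h h'
    · left
      refine ⟨l, ha, h.1, ?_, rfl⟩
      rw [h.2, h.1]
      exact h0
    · left
      refine ⟨l, ha, h'.1, ?_, by rw [h'.2.2.1]⟩
      rw [h'.2.1, h'.1]
      exact lt_of_lt_of_le one_lt_two h'.2.2.2
    · right
      refine ⟨rfl, fun l' hl' h1 h2 => ?_⟩
      rw [ha] at hl'
      cases hl'
      have : l.2.1 ≠ 0 := fun h3 => h ⟨h1, h3⟩
      omega

/-- the bonus path is the plain path unless there is a bonus ring -/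
theorem Xr_of_not {M K : ℕ} (η : Tor d M → ℕ) (X : Pos d) (e : Dir d) (a : Let d M K)
    (h : ¬ IsBonus η X e a) : Xr η X e a = X0 X a := by
  cases ha : toLab a with
  | none => rw [Xr_none η X e a ha, X0_none X a ha]
  | some l =>
    rw [Xr_some η X e a l ha, X0_some X a l ha]
    split_ifs with h1 h2
    · rfl
    · exfalso
      apply h
      refine ⟨?_, h2.2.2.2⟩
      rw [ha]
      rcases l with ⟨x, k, e'⟩
      obtain ⟨h3, h4, h5, _⟩ := h2
      simp only at h3 h4 h5
      rw [h3, h4, h5]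
    · rfl

theorem Xr_of_bonus {M K : ℕ} (η : Tor d M → ℕ) (X : Pos d) (e : Dir d) (a : Let d M K)
    (h : IsBonus η X e a) : Xr η X e a = X + dv e := by
  rw [Xr_some η X e a _ h.1]
  have h2 := h.2
  simp [h2]

theorem X0_of_bonus {M K : ℕ} (η : Tor d M → ℕ) (X : Pos d) (e : Dir d) (a : Let d M K)
    (h : IsBonus η X e a) : X0 X a = X := by
  rw [X0_some X a _ h.1]
  simp

/-! ### the two machines -/

/-- states: configuration, path, target -/
abbrev St (d M : ℕ) := (Tor d M → ℕ) × Pos d × (Pos d × ℕ)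

variable {M K : ℕ}

/-- displacement from the target to the path -/
def DD (s : St d M) : Pos d := s.2.1 - s.2.2.1

/-- the plain step -/
def sp (st : Bool) (s : St d M) (a : Let d M K) : St d M :=
  (stepA s.1 a, X0 s.2.1 a, tgt st s.1 s.2.2 a)

/-- the bonus step, with the preferred direction `es (DD s)` -/
def sb (es : Pos d → Dir d) (st : Bool) (s : St d M) (a : Let d M K) : St d M :=
  (stepA s.1 a, Xr s.1 s.2.1 (es (DD s)) a, tgt st s.1 s.2.2 a)

/-- bonus letters -/
def isB (es : Pos d → Dir d) (s : St d M) (a : Let d M K) : Prop :=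
  IsBonus s.1 s.2.1 (es (DD s)) a

/-- the path is at an occupied site, the marker marks a particle -/
def valid (st : Bool) (s : St d M) : Prop :=
  0 < s.1 (tv s.2.1) ∧ (st = false → s.2.2.2 < s.1 (tv s.2.2.1))

/-- valid and the path is not at the target -/
def act (st : Bool) (s : St d M) : Prop :=
  valid st s ∧ (tv s.2.1 : Tor d M) ≠ tv s.2.2.1

theorem mkrA_lt (hM : 2 ≤ M) (η : Tor d M → ℕ) (P : Pos d × ℕ) (a : Let d M K)
    (h : P.2 < η (tv P.1)) : (mkrA η P a).2 < stepA η a (tv (mkrA η P a).1) := by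
  unfold mkrA stepA
  cases ha : toLab a with
  | none => exact h
  | some l => exact mkr_lt hM η P l h

theorem valid_tgt (hM : 2 ≤ M) (st : Bool) (s : St d M) (a : Let d M K) (h : valid st s) :
    st = false → (tgt st s.1 s.2.2 a).2 < stepA s.1 a (tv (tgt st s.1 s.2.2 a).1) := by
  intro hst
  subst hst
  exact mkrA_lt hM s.1 s.2.2 a (h.2 rfl)

theorem valid_sp (hM : 2 ≤ M) (st : Bool) (s : St d M) (a : Let d M K) (h : valid st s) :
    valid st (sp st s a) :=
  ⟨adm_occ hM h.1 (adm_X0 s.1 s.2.1 a h.1), valid_tgt hM st s a h⟩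

theorem valid_sb (hM : 2 ≤ M) (es : Pos d → Dir d) (st : Bool) (s : St d M) (a : Let d M K)
    (h : valid st s) : valid st (sb es st s a) :=
  ⟨adm_occ hM h.1 (adm_Xr s.1 s.2.1 _ a h.1), valid_tgt hM st s a h⟩

theorem sb_of_not (es : Pos d → Dir d) (st : Bool) (s : St d M) (a : Let d M K)
    (h : ¬ isB es s a) : sb es st s a = sp st s a := by
  unfold sb sp
  rw [Xr_of_not s.1 s.2.1 _ a h]

theorem mkrA_of_ne (η : Tor d M → ℕ) (P : Pos d × ℕ) (a : Let d M K)
    (h : ∀ l, toLab a = some l → l.1 ≠ tv P.1) : mkrA η P a = P := by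
  unfold mkrA
  cases ha : toLab a with
  | none => rfl
  | some l => exact mkr_off η P l (fun hh => h l ha hh.2)

theorem bonus_DD (es : Pos d → Dir d) (st : Bool) (s : St d M) (a : Let d M K)
    (hne : (tv s.2.1 : Tor d M) ≠ tv s.2.2.1) (h : isB es s a) :
    DD (sp st s a) = DD s ∧ DD (sb es st s a) = DD s + dv (es (DD s)) := by
  have h1 : tgt st s.1 s.2.2 a = s.2.2 := by
    cases st
    · refine mkrA_of_ne s.1 s.2.2 a (fun l hl => ?_)
      have := h.1
      rw [hl] at this
      cases this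
      exact hne
    · rfl
  constructor
  · unfold DD sp
    rw [h1, X0_of_bonus _ _ _ _ h]
  · unfold DD sb
    rw [h1, Xr_of_bonus _ _ _ _ h]
    show s.2.1 + dv (es (DD s)) - s.2.2.1 = s.2.1 - s.2.2.1 + dv (es (DD s))
    abel

/-! ### the plain machine is a symmetric walk -/

theorem sum_split {α ι : Type} [Fintype α] [Fintype ι] (w : α → ℝ≥0∞) (hw : ∑ a, w a = 1)
    (φ : ι → α) (hφ : Function.Injective φ) (G : α → ℝ≥0∞) (c : ℝ≥0∞)
    (h : ∀ a, (∀ i, a ≠ φ i) → G a = c) :
    ∑ a, w a * G a = (1 - ∑ i, w (φ i)) * c + ∑ i, w (φ i) * G (φ i) := by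
  have hS : ∀ H : α → ℝ≥0∞, ∑ a ∈ Finset.univ.image φ, H a = ∑ i, H (φ i) := fun H =>
    Finset.sum_image (fun i _ j _ hij => hφ hij)
  have h1 : ∑ a ∈ (Finset.univ.image φ)ᶜ, w a = 1 - ∑ i, w (φ i) := by
    refine ENNReal.eq_sub_of_add_eq ?_ ?_
    · rw [← hS w]
      refine ne_top_of_le_ne_top ENNReal.one_ne_top ?_
      rw [← hw]
      exact Finset.sum_le_sum_of_subset (Finset.subset_univ _)
    · rw [← hS w, add_comm, Finset.sum_add_sum_compl, hw]
  rw [← Finset.sum_add_sum_compl (Finset.univ.image φ), hS (fun a => w a * G a), add_comm]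
  congr 1
  rw [← h1, Finset.sum_mul]
  refine Finset.sum_congr rfl fun a ha => ?_
  rw [h a fun i hi => ?_]
  rw [Finset.mem_compl] at ha
  exact ha (by rw [hi]; exact Finset.mem_image_of_mem φ (Finset.mem_univ i))

theorem dv_not (j : Fin d) (b : Bool) : dv (j, !b) = - dv (j, b) := by
  unfold dv
  cases b
  · show (Pi.single j (if (!false : Bool) = true then (1:ℤ) else -1) : Pos d) = _
    simp [← Pi.single_neg]
  · show (Pi.single j (if (!true : Bool) = true then (1:ℤ) else -1) : Pos d) = _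
    simp [← Pi.single_neg]

theorem sum_neg_dir (F : Pos d → ℝ≥0∞) (v : Pos d) :
    ∑ e : Dir d, F (v - dv e) = ∑ e : Dir d, F (v + dv e) := by
  rw [Fintype.sum_prod_type, Fintype.sum_prod_type]
  refine Finset.sum_congr rfl fun j _ => ?_
  rw [Fintype.sum_bool, Fintype.sum_bool]
  have h1 : dv (j, false) = - dv (j, true) := dv_not j true
  rw [h1, sub_neg_eq_add, ← sub_eq_add_neg, add_comm]

variable {m : Model} (q : Par d m)

theorem lam_lb (hd : 0 < d) (k : ℕ) : m.Gm / (2 * d) ≤ m.lam d k := by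
  unfold Model.lam
  have : (0 : ℝ) < d := by exact_mod_cast hd
  exact div_le_div_of_nonneg_right (m.inc_lb k) (by positivity)

theorem lam_ub (hd : 0 < d) (k : ℕ) : m.lam d k ≤ m.Gp / (2 * d) := by
  unfold Model.lam
  have : (0 : ℝ) < d := by exact_mod_cast hd
  exact div_le_div_of_nonneg_right (m.inc_ub k) (by positivity)

theorem lam_nonneg (hd : 0 < d) (k : ℕ) : 0 ≤ m.lam d k := by
  refine le_trans ?_ (lam_lb hd k)
  have : (0 : ℝ) < d := by exact_mod_cast hd
  have := m.Gm_pos
  positivity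

theorem card_dir : Fintype.card (Dir d) = 2 * d := by
  simp [mul_comm]

theorem sum_ofReal_dir (y : ℝ) : ∑ _e : Dir d, ENNReal.ofReal y = ENNReal.ofReal (2 * d * y) := by
  rw [Finset.sum_const, Finset.card_univ, card_dir, nsmul_eq_mul, ENNReal.ofReal_mul (by positivity)]
  congr 1
  rw [ENNReal.ofReal_mul (by norm_num)]
  simp

/-- the letter of the path -/
def lx (X : Pos d) (e : Dir d) : Let d q.M q.K := some (tv X, ⟨0, by have := q.K_ge; omega⟩, e)

/-- the letter of level `J` at the target -/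
def lz (Z : Pos d) (J : ℕ) (hJ : J < q.K) (e : Dir d) : Let d q.M q.K := some (tv Z, ⟨J, hJ⟩, e)

theorem lx_inj (X : Pos d) : Function.Injective (lx q X) := by
  intro e e' h
  unfold lx at h
  have := Option.some.inj h
  exact (Prod.mk.inj (Prod.mk.inj this).2).2

theorem lz_inj (Z : Pos d) (J : ℕ) (hJ : J < q.K) : Function.Injective (lz q Z J hJ) := by
  intro e e' h
  unfold lz at h
  have := Option.some.inj h
  exact (Prod.mk.inj (Prod.mk.inj this).2).2

theorem w_lx (X : Pos d) (e : Dir d) : q.w (lx q X e) = ENNReal.ofReal (m.lam d 0 * q.p) := rfl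

theorem w_lz (Z : Pos d) (J : ℕ) (hJ : J < q.K) (e : Dir d) :
    q.w (lz q Z J hJ e) = ENNReal.ofReal (m.lam d J * q.p) := rfl

theorem X0_lx (X : Pos d) (e : Dir d) : X0 X (lx q X e) = X + dv e := by
  rw [X0_some X (lx q X e) (tv X, 0, e) rfl]
  simp

theorem X0_of_ne (X : Pos d) (a : Let d q.M q.K) (h : ∀ e, a ≠ lx q X e) : X0 X a = X := by
  cases ha : a with
  | none => rfl
  | some l =>
    rw [X0_some X _ (l.1, (l.2.1 : ℕ), l.2.2) rfl]
    rw [if_neg]
    rintro ⟨h1, h2⟩
    apply h l.2.2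
    rw [ha]
    unfold lx
    rcases l with ⟨x, k, e⟩
    simp only at h1 h2
    subst h1
    congr 3
    exact Fin.ext h2

theorem mkrA_of_ne' (η : Tor d q.M → ℕ) (P : Pos d × ℕ) (a : Let d q.M q.K)
    (h : ∀ (hJ : P.2 < q.K) (e : Dir d), a ≠ lz q P.1 P.2 hJ e) : (mkrA η P a).1 = P.1 := by
  cases ha : a with
  | none => rfl
  | some l =>
    show (mkr η P (l.1, (l.2.1 : ℕ), l.2.2)).1 = P.1
    rw [mkr]
    split_ifs with h1 h2 h3
    · exfalso
      rcases l with ⟨x, k, e⟩
      simp only at h1 h2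
      have hk : P.2 < q.K := by rw [← h2]; exact k.2
      apply h hk e
      rw [ha]
      unfold lz
      rw [h1.2]
      congr 3
      exact Fin.ext h2
    · rfl
    · rfl
    · rfl

theorem mkrA_lz (η : Tor d q.M → ℕ) (P : Pos d × ℕ) (hJ : P.2 < q.K) (e : Dir d)
    (h : P.2 < η (tv P.1)) : (mkrA η P (lz q P.1 P.2 hJ e)).1 = P.1 + dv e := by
  show (mkr η P (tv P.1, P.2, e)).1 = P.1 + dv e
  rw [mkr_jump η P (tv P.1, P.2, e) h rfl rfl]

theorem toLab_lx (X : Pos d) (e : Dir d) : toLab (lx q X e) = some (tv X, 0, e) := rfl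

/-- the plain machine is a symmetric walk -/
theorem sym (hd : 0 < d) (st : Bool) :
    SymW q.w (sp (K := q.K) st) DD (act st) (m.Gm / (2 * d)) (m.Gp / d) q.p := by
  intro s hs
  obtain ⟨⟨hocc, hmk⟩, hne⟩ := hs
  obtain ⟨η, X, P⟩ := s
  simp only at hocc hmk hne
  have hw := sum_w q hd
  have hd' : (0 : ℝ) < d := by exact_mod_cast hd
  have hp := q.p_pos
  have hGp : 0 ≤ m.Gp := by linarith [m.le_Gp]
  have hl0 : 0 ≤ m.lam d 0 * q.p := mul_nonneg (lam_nonneg hd 0) hp.le
  have hdiv : m.Gp / (2 * d) + m.Gp / (2 * d) = m.Gp / d := by field_simp; ring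
  have hdiv0 : 0 ≤ m.Gp / (2 * d) := by positivity
  by_cases hc : st = false ∧ P.2 < q.K
  · obtain ⟨hst, hJ⟩ := hc
    subst hst
    have hlJ : 0 ≤ m.lam d P.2 * q.p := mul_nonneg (lam_nonneg hd P.2) hp.le
    refine ⟨m.lam d 0 + m.lam d P.2, ?_, ?_, ?_⟩
    · have := lam_lb (m := m) hd 0
      have := lam_nonneg (m := m) hd P.2
      linarith
    · have := lam_ub (m := m) hd 0
      have := lam_ub (m := m) hd P.2
      linarith
    · intro F
      have hinj : Function.Injective (Sum.elim (lx q X) (lz q P.1 P.2 hJ)) := by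
        refine (lx_inj q X).sumElim (lz_inj q P.1 P.2 hJ) ?_
        intro e e' h
        unfold lx lz at h
        exact hne (Prod.mk.inj (Option.some.inj h)).1
      rw [sum_split q.w hw _ hinj (fun a => F (DD (sp false (η, X, P) a))) (F (DD (η, X, P)))]
      · rw [Fintype.sum_sum_type, Fintype.sum_sum_type]
        simp only [Sum.elim_inl, Sum.elim_inr, w_lx, w_lz]
        have e1 : ∀ e : Dir d, DD (sp false (η, X, P) (lx q X e)) = DD (η, X, P) + dv e := by
          intro e
          show X0 X (lx q X e) - (mkrA η P (lx q X e)).1 = X - P.1 + dv e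
          rw [X0_lx, mkrA_of_ne η P _ (fun l hl => ?_)]
          · abel
          · rw [toLab_lx] at hl
            cases hl
            exact hne
        have e2 : ∀ e : Dir d, DD (sp false (η, X, P) (lz q P.1 P.2 hJ e)) =
            DD (η, X, P) - dv e := by
          intro e
          show X0 X (lz q P.1 P.2 hJ e) - (mkrA η P (lz q P.1 P.2 hJ e)).1 = X - P.1 - dv e
          rw [X0_of_ne q X _ (fun e' h => ?_), mkrA_lz q η P hJ e (hmk rfl)]
          · abel
          · unfold lx lz at h
            exact hne (Prod.mk.inj (Option.some.inj h)).1.symm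
        simp only [e1, e2]
        rw [sum_ofReal_dir, sum_ofReal_dir, ← ENNReal.ofReal_add (by positivity) (by positivity),
          ← ENNReal.ofReal_one, ← ENNReal.ofReal_sub _ (by positivity), ← Finset.mul_sum,
          ← Finset.mul_sum, sum_neg_dir, ← add_mul, ← ENNReal.ofReal_add hl0 hlJ, ← Finset.mul_sum]
        congr 3
        · ring
        · ring
      · intro a ha
        show F (X0 X a - (mkrA η P a).1) = F (X - P.1)
        rw [X0_of_ne q X a (fun e => ha (Sum.inl e)),
          mkrA_of_ne' q η P a (fun _ e => ha (Sum.inr e))]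
  · refine ⟨m.lam d 0, lam_lb hd 0, ?_, ?_⟩
    · have := lam_ub (m := m) hd 0
      linarith
    · intro F
      have htg : ∀ a : Let d q.M q.K, (tgt st η P a).1 = P.1 := by
        intro a
        cases st
        · refine mkrA_of_ne' q η P a (fun hJ _ => (hc ⟨rfl, hJ⟩).elim)
        · rfl
      rw [sum_split q.w hw _ (lx_inj q X) (fun a => F (DD (sp st (η, X, P) a))) (F (DD (η, X, P)))]
      · simp only [w_lx]
        have e1 : ∀ e : Dir d, DD (sp st (η, X, P) (lx q X e)) = DD (η, X, P) + dv e := by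
          intro e
          show X0 X (lx q X e) - (tgt st η P (lx q X e)).1 = X - P.1 + dv e
          rw [X0_lx, htg]
          abel
        simp only [e1]
        rw [sum_ofReal_dir, ← ENNReal.ofReal_one, ← ENNReal.ofReal_sub _ (by positivity)]
        congr 3
        ring
      · intro a ha
        show F (X0 X a - (tgt st η P a).1) = F (X - P.1)
        rw [X0_of_ne q X a ha, htg]

end ZI.Plain
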