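import Mathlib

/-! R11: the recursion. -/

set_option autoImplicit false

namespace ZI.Rows

open Filter Topology Finset

theorem recursion (a v e : ℕ → ℝ) (ha : ∀ k, 0 ≤ a k) (hv : ∀ k, 0 ≤ v k) (he : ∀ k, 0 ≤ e k)
    (hse : Summable e) (h1 : ∀ k, a (k + 1) ≤ a k + e k)
    (h2 : ∀ k, v (k + 1) + a (k + 1) ^ 2 ≤ v k / 2 + a k ^ 2 + e k) :
    (∃ γ, Filter.Tendsto a Filter.atTop (nhds γ) ∧ ∀ k, γ ≤ a k + ∑' j, e (k + j)) ∧ Summable v := by
  constructor
  · have hs : ∀ k, Summable fun j => e (k + j) := fun k => by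
      have := (summable_nat_add_iff k).2 hse
      simpa [add_comm] using this
    have hs0 : ∀ k, 0 ≤ ∑' j, e (k + j) := fun k => tsum_nonneg fun j => he _
    have hstep : ∀ k, ∑' j, e (k + j) = e k + ∑' j, e (k + 1 + j) := fun k => by
      rw [(hs k).tsum_eq_zero_add]
      congr 1
      refine tsum_congr fun j => ?_
      congr 1
      ring
    have hanti : Antitone fun k => a k + ∑' j, e (k + j) := by
      refine antitone_nat_of_succ_le fun k => ?_
      have := h1 k
      have := hstep k
      linarith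
    have hbdd : BddBelow (Set.range fun k => a k + ∑' j, e (k + j)) := by
      refine ⟨0, ?_⟩
      rintro _ ⟨k, rfl⟩
      exact add_nonneg (ha k) (hs0 k)
    have hlim := tendsto_atTop_ciInf hanti hbdd
    have htail : Tendsto (fun k => ∑' j, e (k + j)) atTop (𝓝 0) := by
      have := tendsto_sum_nat_add e
      simpa [add_comm] using this
    refine ⟨⨅ k, (a k + ∑' j, e (k + j)), ?_, fun k => ciInf_le hbdd k⟩
    have := hlim.sub htail
    simpa using this
  · refine summable_of_sum_range_le (c := 2 * (v 0 + a 0 ^ 2 + ∑' k, e k)) hv fun n => ?_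
    have hE : ∀ n, ∑ k ∈ range n, e k ≤ ∑' k, e k := fun n => hse.sum_le_tsum _ fun k _ => he k
    have hrec : ∀ n, ∑ k ∈ range n, v (k + 1) + a n ^ 2 ≤
        (∑ k ∈ range n, v k) / 2 + a 0 ^ 2 + ∑ k ∈ range n, e k := by
      intro n
      induction n with
      | zero => simp
      | succ n ih =>
        rw [sum_range_succ, sum_range_succ, sum_range_succ]
        have := h2 n
        linarith
    have hS : ∑ k ∈ range (n + 1), v k = (∑ k ∈ range n, v (k + 1)) + v 0 := sum_range_succ' v n
    have hmono : ∑ k ∈ range n, v k ≤ ∑ k ∈ range (n + 1), v k := by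
      rw [sum_range_succ]
      have := hv n
      linarith
    have h3 := hrec n
    have h4 := hE n
    have h5 := sq_nonneg (a n)
    linarith

end ZI.Rows
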