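import Pool.Agent.ZI.S3d
import Pool.Agent.ZI.S1
import Pool.Agent.ZI.S2

/-! # Row S3: the speeds exist -/

set_option autoImplicit false

open scoped ENNReal NNReal BigOperators Classical Topology
open MeasureTheory

noncomputable section

namespace ZI.S3

open ZI

variable {d : ℕ} {Ω : Type} [MeasurableSpace Ω] {P : Measure Ω}

lemma Chain1.mono {S : Sys d P} {k k' : ℕ} (h : Chain1 S k) (hk : k ≤ k') : Chain1 S k' :=
  fun j hj => h j (hk.trans hj)

lemma Scale1.mono {S : Sys d P} {k k' : ℕ} (h : Scale1 S k) (hk : k ≤ k') : Scale1 S k' :=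
  fun j hj => h j (hk.trans hj)

/-- the first error sequence -/
def e0 (S : Sys d P) (k : ℕ) : ℝ := dl S k + 7 * (4 ^ k * ep S.A k)

/-- the second error sequence -/
def e1 (S : Sys d P) (C0 : ℝ) (k : ℕ) : ℝ := (67 + 2 * C0) * dl S k + 420 * (4 ^ k * ep S.A k)

lemma A_pos (S : Sys d P) : 0 < S.A := by
  have h1 := S.A_big
  have h2 := S.a_big
  omega

lemma e0_nonneg (S : Sys d P) (k : ℕ) : 0 ≤ e0 S k := by
  have h1 := dl_nonneg S k
  have h2 := ep_pos S.A k
  unfold e0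
  positivity

lemma e1_nonneg (S : Sys d P) {C0 : ℝ} (hC : 0 ≤ C0) (k : ℕ) : 0 ≤ e1 S C0 k := by
  have h1 := dl_nonneg S k
  have h2 := ep_pos S.A k
  unfold e1
  positivity

lemma e0_summable (S : Sys d P) : Summable (e0 S) :=
  (dl_summable S).add ((ep_summable S.A (A_pos S)).mul_left 7)

lemma e1_summable (S : Sys d P) (C0 : ℝ) : Summable (e1 S C0) :=
  ((dl_summable S).mul_left _).add ((ep_summable S.A (A_pos S)).mul_left 420)

lemma shift_summable {f : ℕ → ℝ} (h : Summable f) (K : ℕ) : Summable (fun j => f (K + j)) := by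
  have := (summable_nat_add_iff K).2 h
  simpa [add_comm] using this

variable [IsProbabilityMeasure P]

/-- first recursion -/
lemma rec_a (S : Sys d P) {k1 k : ℕ} (hS1 : Chain1 S k1) (hS2 : Scale1 S k1) (hk0 : S.k0 ≤ k)
    (hk1 : k1 ≤ k) (hk : 15 ≤ k) (u : Fin d → ℝ) (hu : ∑ j, u j ^ 2 = 1) :
    m1 S (k + 1) u / 2 ^ (k + 1) ≤ m1 S k u / 2 ^ k + e0 S k := by
  have h := (rec_real S hS1 hS2 hk0 hk1 hk u hu).1
  have h2 : (0 : ℝ) < 2 ^ k := by positivity
  have h3 : (1 : ℝ) ≤ 2 ^ k := one_le_pow₀ (by norm_num)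
  have h4 := ep_pos S.A k
  have h5 : (4 : ℝ) ^ k * ep S.A k ≤ 2 ^ k * (4 ^ k * ep S.A k) :=
    le_mul_of_one_le_left (by positivity) h3
  have h6 : ((PK d S.a S.A (k + 1)).Δ : ℝ) = dl S k * 2 ^ (k + 1) := by
    unfold dl
    field_simp
  rw [div_le_iff₀ (by positivity)]
  calc m1 S (k + 1) u ≤ 2 * m1 S k u + (PK d S.a S.A (k + 1)).Δ + 14 * 4 ^ k * ep S.A k := h
    _ ≤ 2 * m1 S k u + dl S k * 2 ^ (k + 1) + 14 * (2 ^ k * (4 ^ k * ep S.A k)) := by
        rw [h6]
        linarith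
    _ = (m1 S k u / 2 ^ k + e0 S k) * 2 ^ (k + 1) := by
        unfold e0
        field_simp
        ring

/-- second recursion -/
lemma rec_v (S : Sys d P) {k1 k : ℕ} (hS1 : Chain1 S k1) (hS2 : Scale1 S k1) (hk0 : S.k0 ≤ k)
    (hk1 : k1 ≤ k) (hk : 15 ≤ k) (u : Fin d → ℝ) (hu : ∑ j, u j ^ 2 = 1) (C0 : ℝ)
    (hC : m1 S k u / 2 ^ k ≤ C0) :
    m2 S (k + 1) u / 4 ^ (k + 1) ≤
      (m2 S k u / 4 ^ k - (m1 S k u / 2 ^ k) ^ 2) / 2 + (m1 S k u / 2 ^ k) ^ 2 + e1 S C0 k := by
  have h := (rec_real S hS1 hS2 hk0 hk1 hk u hu).2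
  have h2 : (0 : ℝ) < 2 ^ k := by positivity
  have hq : (1 : ℝ) ≤ 2 ^ k := one_le_pow₀ (by norm_num)
  have hε := ep_pos S.A k
  have hε2 := ep_half S.A k
  have hD := dl_nonneg S k
  have hD2 := dl_le' S k
  have h6 : ((PK d S.a S.A (k + 1)).Δ : ℝ) = dl S k * (2 * 2 ^ k) := by
    unfold dl
    rw [pow_succ]
    field_simp
  have p1 : (4 : ℝ) ^ k = (2 ^ k) ^ 2 := by rw [← pow_mul, mul_comm, pow_mul]; norm_num
  have p2 : (16 : ℝ) ^ k = (2 ^ k) ^ 4 := by
    rw [show (16 : ℝ) = 2 ^ 4 by norm_num, ← pow_mul, ← pow_mul, mul_comm]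
  have p3 : (4 : ℝ) ^ (k + 1) = 4 * (2 ^ k) ^ 2 := by rw [pow_succ, p1]; ring
  have hm1 := m1_le S hk0 u
  have hm0 := m1_nonneg S k u
  rw [h6, p2] at h
  unfold e1
  rw [p1] at h hm1 ⊢
  rw [p3]
  set q : ℝ := 2 ^ k with hqdef
  set ε := ep S.A k with hεdef
  set D := dl S k with hDdef
  set A := m1 S k u / q with hA
  set B := m2 S k u / q ^ 2 with hB
  have e1' : m1 S k u = A * q := by rw [hA]; field_simp
  have e2' : m2 S k u = B * q ^ 2 := by rw [hB]; field_simp
  have hA0 : 0 ≤ A := div_nonneg hm0 h2.le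
  have hAq : A ≤ q := by
    rw [hA, div_le_iff₀ h2]
    nlinarith
  rw [e1', e2'] at h
  rw [div_le_iff₀ (by positivity)]
  have t1 : q ^ 2 * ε ≥ q * ε := by
    have : q * ε ≤ q * (q * ε) := le_mul_of_one_le_left (by positivity) hq
    linarith
  have t2 : A * q * ε ≤ q ^ 2 * ε := by
    have : A * q ≤ q * q := mul_le_mul_of_nonneg_right hAq h2.le
    nlinarith
  have t3 : q ^ 2 * ε ^ 2 ≤ q ^ 2 * ε * (1 / 2) := by
    have : q ^ 2 * ε * ε ≤ q ^ 2 * ε * (1 / 2) := mul_le_mul_of_nonneg_left hε2 (by positivity)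
    linarith
  have t4 : D * (q * ε) ≤ 66 * (q ^ 2 * ε) :=
    mul_le_mul hD2 t1 (by positivity) (by norm_num)
  have t5 : D * A ≤ D * C0 := mul_le_mul_of_nonneg_left hC hD
  have t6 : D ^ 2 ≤ 66 * D := by nlinarith
  have key : (19 / 2 : ℝ) * (q ^ 2 * ε) + B / 2 + (A ^ 2 + 6 * (A * q * ε) + 9 * (q ^ 2 * ε ^ 2)) / 2 +
      2 * (D * A) + 6 * (D * (q * ε)) + D ^ 2 ≤
      (B - A ^ 2) / 2 + A ^ 2 + ((67 + 2 * C0) * D + 420 * (q ^ 2 * ε)) := by
    have h0 : 0 ≤ q ^ 2 * ε := by positivity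
    linarith
  have key2 := mul_le_mul_of_nonneg_right key (show (0 : ℝ) ≤ 4 * q ^ 2 by positivity)
  refine le_trans (le_trans h (le_of_eq ?_)) key2
  ring

/-- the speeds exist, from the statements of S1 and S2 -/
theorem gamma_exists_of (S : Sys d P) (h1 : ∃ k1 ≥ S.k0, Chain1 S k1)
    (h2 : ∃ k1 ≥ S.k0, Scale1 S k1) :
    ∃ (γ : (Fin d → ℝ) → ℝ) (c C : ℝ), IsGamma S γ c C := by
  obtain ⟨k1, hk1, hS1⟩ := h1
  obtain ⟨k2, -, hS2⟩ := h2
  set K := max (max k1 k2) (max 15 (2 * d + 6)) with hK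
  have hKk1 : k1 ≤ K := (le_max_left _ _).trans (le_max_left _ _)
  have hKk2 : k2 ≤ K := (le_max_right _ _).trans (le_max_left _ _)
  have hK15 : 15 ≤ K := (le_max_left _ _).trans (le_max_right _ _)
  have hKd : 2 * d + 6 ≤ K := (le_max_right _ _).trans (le_max_right _ _)
  have hK0 : S.k0 ≤ K := le_trans hk1 hKk1
  have hC1 : Chain1 S K := hS1.mono hKk1
  have hC2 : Scale1 S K := hS2.mono hKk2
  have hs0 := shift_summable (e0_summable S) K
  set C0 : ℝ := 2 ^ K + ∑' j, e0 S (K + j) with hC0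
  have hC0nn : 0 ≤ C0 := add_nonneg (by positivity) (tsum_nonneg fun j => e0_nonneg S _)
  have hs1 := shift_summable (e1_summable S C0) K
  -- bound of the means
  have ha0 : ∀ u : Fin d → ℝ, m1 S K u / 2 ^ K ≤ 2 ^ K := by
    intro u
    rw [div_le_iff₀ (by positivity)]
    refine (m1_le S hK0 u).trans (le_of_eq ?_)
    rw [← mul_pow]
    norm_num
  have haC : ∀ u : Fin d → ℝ, ∑ j, u j ^ 2 = 1 → ∀ j, m1 S (K + j) u / 2 ^ (K + j) ≤ C0 := by
    intro u hu j
    have h3 : ∀ j, m1 S (K + j) u / 2 ^ (K + j) ≤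
        m1 S K u / 2 ^ K + ∑ i ∈ Finset.range j, e0 S (K + i) := by
      intro j
      induction j with
      | zero => simp
      | succ j ih =>
        rw [Finset.sum_range_succ]
        have h4 := rec_a S hC1 hC2 (k := K + j) (by omega) (by omega) (by omega) u hu
        have h5 : m1 S (K + (j + 1)) u / 2 ^ (K + (j + 1)) ≤
          m1 S (K + j) u / 2 ^ (K + j) + e0 S (K + j) := h4
        linarith
    refine (h3 j).trans (add_le_add (ha0 u) ?_)
    exact hs0.sum_le_tsum _ fun i _ => e0_nonneg S _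
  -- the recursion
  have hrec : ∀ u : Fin d → ℝ, ∑ j, u j ^ 2 = 1 → ∃ γ : ℝ,
      Filter.Tendsto (fun j => m1 S (K + j) u / 2 ^ (K + j)) Filter.atTop (𝓝 γ) ∧
      γ ≤ 2 ^ K + ∑' j, e1 S C0 (K + j) ∧
      Summable (fun j => m2 S (K + j) u / 4 ^ (K + j) - (m1 S (K + j) u / 2 ^ (K + j)) ^ 2) := by
    intro u hu
    obtain ⟨⟨γ, hγ1, hγ2⟩, hv⟩ := ZI.Rows.recursion (fun j => m1 S (K + j) u / 2 ^ (K + j))
      (fun j => m2 S (K + j) u / 4 ^ (K + j) - (m1 S (K + j) u / 2 ^ (K + j)) ^ 2)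
      (fun j => e1 S C0 (K + j)) (fun j => div_nonneg (m1_nonneg S _ u) (by positivity))
      (fun j => by
        have h3 := (cheb S (k := K + j) (by omega) u).1
        have h4 : m2 S (K + j) u / 4 ^ (K + j) - (m1 S (K + j) u / 2 ^ (K + j)) ^ 2 =
            (m2 S (K + j) u - m1 S (K + j) u ^ 2) / 4 ^ (K + j) := by
          rw [div_pow, ← pow_mul, mul_comm (K + j) 2, pow_mul, show (2 : ℝ) ^ 2 = 4 by norm_num,
            sub_div]
        rw [h4]
        exact div_nonneg h3 (by positivity))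
      (fun j => e1_nonneg S hC0nn _) hs1
      (fun j => by
        have h4 := rec_a S hC1 hC2 (k := K + j) (by omega) (by omega) (by omega) u hu
        refine h4.trans (add_le_add le_rfl ?_)
        have h5 := dl_nonneg S (K + j)
        have h6 := ep_pos S.A (K + j)
        have h7 : 0 ≤ (4 : ℝ) ^ (K + j) * ep S.A (K + j) := by positivity
        have h8 : 0 ≤ C0 * dl S (K + j) := mul_nonneg hC0nn h5
        unfold e0 e1
        nlinarith)
      (fun j => by
        have h4 := rec_v S hC1 hC2 (k := K + j) (by omega) (by omega) (by omega) u hu C0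
          (haC u hu j)
        have h5 : m2 S (K + (j + 1)) u / 4 ^ (K + (j + 1)) ≤
          (m2 S (K + j) u / 4 ^ (K + j) - (m1 S (K + j) u / 2 ^ (K + j)) ^ 2) / 2 +
          (m1 S (K + j) u / 2 ^ (K + j)) ^ 2 + e1 S C0 (K + j) := h4
        linarith)
    refine ⟨γ, hγ1, ?_, hv⟩
    have h3 := hγ2 0
    simp only [zero_add, add_zero] at h3
    exact h3.trans (add_le_add (ha0 u) le_rfl)
  choose! γ hγ1 hγ2 hγ3 using hrec
  refine ⟨γ, 1 / (4 * (S.Cv : ℝ)), 2 ^ K + ∑' j, e1 S C0 (K + j), ?_, ?_, ?_, ?_, ?_⟩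
  · have : (0 : ℝ) < S.Cv := by exact_mod_cast S.Cv_pos
    positivity
  · intro u hu
    refine ge_of_tendsto (hγ1 u hu) (Filter.Eventually.of_forall fun j => ?_)
    exact m1_lb S (by omega) (by omega) (by omega) u hu
  · intro u hu
    exact hγ2 u hu
  · intro u hu
    have h3 := hγ1 u hu
    rw [← Filter.tendsto_add_atTop_iff_nat K]
    refine h3.congr fun j => ?_
    rw [add_comm j K, mu_eq S (by omega) u]
  · intro u hu ε hε
    set γu := γ u with hγu
    -- the tail of the sum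
    have h3 : ∀ᶠ j in Filter.atTop, |m1 S (K + j) u / 2 ^ (K + j) - γu| < ε / 2 := by
      have := (hγ1 u hu).eventually (Metric.ball_mem_nhds γu (half_pos hε))
      filter_upwards [this] with j hj
      rwa [Real.dist_eq] at hj
    obtain ⟨J, hJ⟩ := Filter.eventually_atTop.1 h3
    set v : ℕ → ℝ := fun j => m2 S (K + j) u / 4 ^ (K + j) - (m1 S (K + j) u / 2 ^ (K + j)) ^ 2
      with hv
    have h4 : ∀ j, J ≤ j → P {ω | ε < |((S.E (K + j) ω).bh (PK d S.a S.A (K + j)) u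
        (2 ^ (K + j)) 0 0 : ℝ) / 2 ^ (K + j) - γu|} ≤
        ENNReal.ofReal (ep S.A (K + j) + v j * (4 / ε ^ 2)) := by
      intro j hj
      set k := K + j with hk
      have h5 : {ω | ε < |((S.E k ω).bh (PK d S.a S.A k) u (2 ^ k) 0 0 : ℝ) / 2 ^ k - γu|} ⊆
          {ω | ¬ GoodK S.a S.A S.Cv k (S.E k ω)} ∪
          {ω | ε / 2 * 2 ^ k < |((min ((S.E k ω).blk (PK d S.a S.A k) u (2 ^ k) 0 0).1
            ((2 ^ k) ^ 2) : ℕ) : ℝ) - m1 S k u|} := by
        intro ω hω
        by_cases hg : GoodK S.a S.A S.Cv k (S.E k ω)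
        swap
        · exact Or.inl hg
        right
        have h6 := (facts0 S (k := k) (by omega) (by omega) u hu _ hg).2
        have h7 : min ((S.E k ω).blk (PK d S.a S.A k) u (2 ^ k) 0 0).1 ((2 ^ k) ^ 2) =
          (S.E k ω).bh (PK d S.a S.A k) u (2 ^ k) 0 0 := min_eq_left h6
        show ε / 2 * 2 ^ k < _
        rw [h7]
        set h := (S.E k ω).bh (PK d S.a S.A k) u (2 ^ k) 0 0 with hh
        have h8 : ε < |(h : ℝ) / 2 ^ k - γu| := hω
        have h9 := hJ j hj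
        have h10 : |(h : ℝ) / 2 ^ k - γu| ≤ |(h : ℝ) / 2 ^ k - m1 S k u / 2 ^ k| +
          |m1 S k u / 2 ^ k - γu| := abs_sub_le _ _ _
        have h11 : ε / 2 < |(h : ℝ) / 2 ^ k - m1 S k u / 2 ^ k| := by linarith
        rw [← sub_div, abs_div, abs_of_pos (show (0 : ℝ) < 2 ^ k by positivity),
          lt_div_iff₀ (by positivity)] at h11
        exact h11
      have h6 := (cheb S (k := k) (by omega) u).2 (ε / 2 * 2 ^ k) (by positivity)
      have h7 : P {ω | ε / 2 * 2 ^ k < |((min ((S.E k ω).blk (PK d S.a S.A k) u (2 ^ k) 0 0).1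
            ((2 ^ k) ^ 2) : ℕ) : ℝ) - m1 S k u|} ≤ ENNReal.ofReal (v j * (4 / ε ^ 2)) := by
        refine (ENNReal.le_ofReal_iff_toReal_le (measure_ne_top _ _) ?_).2 ?_
        · refine mul_nonneg ?_ (by positivity)
          have h3 := (cheb S (k := K + j) (by omega) u).1
          have h4 : m2 S (K + j) u / 4 ^ (K + j) - (m1 S (K + j) u / 2 ^ (K + j)) ^ 2 =
              (m2 S (K + j) u - m1 S (K + j) u ^ 2) / 4 ^ (K + j) := by
            rw [div_pow, ← pow_mul, mul_comm (K + j) 2, pow_mul, show (2 : ℝ) ^ 2 = 4 by norm_num,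
              sub_div]
          show 0 ≤ m2 S (K + j) u / 4 ^ (K + j) - (m1 S (K + j) u / 2 ^ (K + j)) ^ 2
          rw [h4]
          exact div_nonneg h3 (by positivity)
        · have h8 : v j * (4 / ε ^ 2) = (m2 S k u - m1 S k u ^ 2) / (ε / 2 * 2 ^ k) ^ 2 := by
            show (m2 S k u / 4 ^ k - (m1 S k u / 2 ^ k) ^ 2) * (4 / ε ^ 2) = _
            have p1 : (4 : ℝ) ^ k = (2 ^ k) ^ 2 := by
              rw [← pow_mul, mul_comm, pow_mul]
              norm_num
            rw [p1]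
            field_simp
            ring
          rw [h8, le_div_iff₀ (by positivity)]
          exact h6
      calc _ ≤ P _ := measure_mono h5
        _ ≤ err (rr S.A k) + ENNReal.ofReal (v j * (4 / ε ^ 2)) :=
            (measure_union_le _ _).trans (add_le_add (S.good k (by omega)) h7)
        _ ≤ _ := by
            have h8 : err (rr S.A k) = ENNReal.ofReal (ep S.A k) := rfl
            rw [h8, ← ENNReal.ofReal_add (ep_pos _ _).le]
            refine mul_nonneg ?_ (by positivity)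
            have h3 := (cheb S (k := K + j) (by omega) u).1
            have h4 : m2 S (K + j) u / 4 ^ (K + j) - (m1 S (K + j) u / 2 ^ (K + j)) ^ 2 =
                (m2 S (K + j) u - m1 S (K + j) u ^ 2) / 4 ^ (K + j) := by
              rw [div_pow, ← pow_mul, mul_comm (K + j) 2, pow_mul, show (2 : ℝ) ^ 2 = 4 by norm_num,
                sub_div]
            show 0 ≤ m2 S (K + j) u / 4 ^ (K + j) - (m1 S (K + j) u / 2 ^ (K + j)) ^ 2
            rw [h4]
            exact div_nonneg h3 (by positivity)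
    have hsum : Summable (fun j => ep S.A (K + j) + v j * (4 / ε ^ 2)) := by
      refine Summable.add ?_ ((hγ3 u hu).mul_right _)
      refine Summable.of_nonneg_of_le (fun j => (ep_pos _ _).le) (fun j => ?_)
        (shift_summable (ep_summable S.A (A_pos S)) K)
      exact le_mul_of_one_le_left (ep_pos _ _).le (one_le_pow₀ (by norm_num))
    -- split the sum
    set f : ℕ → ℝ≥0∞ := fun k => P {ω | ε < |((S.E k ω).bh (PK d S.a S.A k) u
        (2 ^ k) 0 0 : ℝ) / 2 ^ k - γu|} with hf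
    have h5 : ∑' k, f k = ∑ i ∈ Finset.range (K + J), f i + ∑' k, f (k + (K + J)) :=
      (Summable.sum_add_tsum_nat_add' (ENNReal.summable)).symm
    show ∑' k, f k ≠ ⊤
    rw [h5]
    refine ENNReal.add_ne_top.2 ⟨?_, ?_⟩
    · exact ENNReal.sum_ne_top.2 fun i _ => measure_ne_top _ _
    · have h6 : ∑' k, f (k + (K + J)) ≤
          ∑' k, ENNReal.ofReal (ep S.A (K + (k + J)) + v (k + J) * (4 / ε ^ 2)) := by
        refine ENNReal.tsum_le_tsum fun k => ?_
        have h7 := h4 (k + J) (by omega)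
        have h8 : k + (K + J) = K + (k + J) := by ring
        rw [h8]
        exact h7
      refine ne_top_of_le_ne_top ?_ h6
      have h7 : Summable (fun k => ep S.A (K + (k + J)) + v (k + J) * (4 / ε ^ 2)) :=
        (summable_nat_add_iff J).2 hsum
      exact h7.tsum_ofReal_ne_top

end ZI.S3

namespace ZI.Rows

open ZI

variable {d : ℕ} {Ω : Type} [MeasurableSpace Ω] {P : Measure Ω}

theorem gamma_exists [IsProbabilityMeasure P] (S : Sys d P) :
    ∃ (γ : (Fin d → ℝ) → ℝ) (c C : ℝ), IsGamma S γ c C :=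
  ZI.S3.gamma_exists_of S (bh_chain S) (bh_scale S)

end ZI.Rows
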