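import Pool.Agent.ZI.Sys2
import Pool.Agent.ZI.R11

/-! # Row S3, first part: laws on countable sets, comparison of expectations -/

set_option autoImplicit false

open scoped ENNReal BigOperators Classical
open MeasureTheory

noncomputable section

namespace ZI.S3

open ZI

/-! ### laws on a countable set -/

/-- indicator -/
def ind (p : Prop) : ℝ≥0∞ := if p then 1 else 0

@[simp] lemma ind_true {p : Prop} (h : p) : ind p = 1 := if_pos h

@[simp] lemma ind_false {p : Prop} (h : ¬ p) : ind p = 0 := if_neg h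

section Law

variable {Ω : Type} [MeasurableSpace Ω] {P : Measure Ω} {Y Y' : Type}

/-- the law of a variable gives the probabilities of all the events -/
lemma law_eq [Countable Y] [IsProbabilityMeasure P] (X : Ω → Y)
    (h : ∑' y, P {ω | X ω = y} = 1) (G : Y → Prop) :
    P {ω | G (X ω)} = ∑' y, P {ω | X ω = y} * ind (G y) := by
  have key : ∀ G : Y → Prop,
      P {ω | G (X ω)} ≤ ∑' y, P {ω | X ω = y} * ind (G y) := by
    intro G
    calc P {ω | G (X ω)} ≤ P (⋃ y, {ω | X ω = y ∧ G y}) :=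
          measure_mono (fun ω hω => Set.mem_iUnion.2 ⟨X ω, rfl, hω⟩)
      _ ≤ ∑' y, P {ω | X ω = y ∧ G y} := measure_iUnion_le _
      _ = _ := tsum_congr fun y => by by_cases hG : G y <;> simp [hG]
  refine le_antisymm (key G) ?_
  have h1 : P {ω | ¬ G (X ω)} ≤ ∑' y, P {ω | X ω = y} * ind (¬ G y) := by
    exact key (fun y => ¬ G y)
  have h2 : (1 : ℝ≥0∞) ≤ P {ω | G (X ω)} + P {ω | ¬ G (X ω)} := by
    rw [← measure_univ (μ := P)]
    refine (measure_mono (fun ω _ => ?_)).trans (measure_union_le _ _)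
    by_cases h : G (X ω)
    · exact Or.inl h
    · exact Or.inr h
  have h3 : ∑' y, P {ω | X ω = y} * ind (G y) +
      ∑' y, P {ω | X ω = y} * ind (¬ G y) = 1 := by
    rw [← ENNReal.tsum_add]
    refine Eq.trans (tsum_congr fun y => ?_) h
    by_cases hG : G y <;> simp [hG]
  have h4 : ∑' y, P {ω | X ω = y} * ind (¬ G y) ≠ ⊤ :=
    ne_top_of_le_ne_top ENNReal.one_ne_top (le_add_self.trans h3.le)
  have h5 : ∑' y, P {ω | X ω = y} * ind (G y) +
      ∑' y, P {ω | X ω = y} * ind (¬ G y) ≤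
      P {ω | G (X ω)} + ∑' y, P {ω | X ω = y} * ind (¬ G y) :=
    h3.le.trans (h2.trans (add_le_add le_rfl h1))
  exact (ENNReal.add_le_add_iff_right h4).1 h5

lemma sum_ind (F M : ℕ) :
    ∑ t ∈ Finset.range M, ind (t < F) = ((min F M : ℕ) : ℝ≥0∞) := by
  have h1 : ∀ t ∈ Finset.range M, ind (t < F) = if t < F then 1 else 0 := by
    intro t _
    by_cases h : t < F
    · rw [ind_true h, if_pos h]
    · rw [ind_false h, if_neg h]
  rw [Finset.sum_congr rfl h1, ← Finset.sum_filter, Finset.sum_const, nsmul_eq_mul, mul_one]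
  congr 1
  have : (Finset.range M).filter (fun t => t < F) = Finset.range (min F M) := by
    ext t
    simp only [Finset.mem_filter, Finset.mem_range, lt_min_iff]
    tauto
  rw [this, Finset.card_range]

/-- layer cake -/
lemma layer (q : Y → ℝ≥0∞) (F : Y → ℕ) (M : ℕ) :
    ∑' y, q y * ((min (F y) M : ℕ) : ℝ≥0∞) =
      ∑ t ∈ Finset.range M, ∑' y, q y * ind (t < F y) := by
  rw [← Summable.tsum_finsetSum (fun _ _ => ENNReal.summable)]
  refine tsum_congr fun y => ?_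
  rw [← Finset.mul_sum, sum_ind]

/-- comparison of two expectations -/
lemma compare (q : Y → ℝ≥0∞) (q' : Y' → ℝ≥0∞) (F : Y → ℕ) (F' : Y' → ℕ) (M : ℕ)
    (hF : ∀ y, F y ≤ M) (δ : ℝ≥0∞)
    (h : ∀ t < M, ∑' y, q y * ind (t < F y) ≤
      δ + ∑' y, q' y * ind (t < F' y)) :
    ∑' y, q y * (F y : ℝ≥0∞) ≤ M * δ + ∑' y, q' y * (F' y : ℝ≥0∞) := by
  have h1 : ∑' y, q y * (F y : ℝ≥0∞) =
      ∑ t ∈ Finset.range M, ∑' y, q y * ind (t < F y) := by
    rw [← layer]
    exact tsum_congr fun y => by rw [min_eq_left (hF y)]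
  rw [h1]
  calc ∑ t ∈ Finset.range M, ∑' y, q y * ind (t < F y)
      ≤ ∑ t ∈ Finset.range M, (δ + ∑' y, q' y * ind (t < F' y)) :=
        Finset.sum_le_sum fun t ht => h t (Finset.mem_range.1 ht)
    _ = M * δ + ∑' y, q' y * ((min (F' y) M : ℕ) : ℝ≥0∞) := by
        rw [Finset.sum_add_distrib, Finset.sum_const, Finset.card_range, nsmul_eq_mul, layer]
    _ ≤ _ := by
        refine add_le_add le_rfl (ENNReal.tsum_le_tsum fun y => ?_)
        refine mul_le_mul_right ?_ _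
        exact_mod_cast min_le_left _ _

lemma prod_fac (q : Y → ℝ≥0∞) (f g : Y → ℝ≥0∞) :
    ∑' y : Y × Y, q y.1 * q y.2 * (f y.1 * g y.2) = (∑' y, q y * f y) * ∑' y, q y * g y := by
  rw [ENNReal.tsum_prod', ← ENNReal.tsum_mul_right]
  refine tsum_congr fun y => ?_
  rw [← ENNReal.tsum_mul_left]
  exact tsum_congr fun z => by ring

/-- first moment of the sum -/
lemma prod_one (q : Y → ℝ≥0∞) (hq : ∑' y, q y = 1) (f : Y → ℝ≥0∞) (c : ℝ≥0∞) :
    ∑' y : Y × Y, q y.1 * q y.2 * (f y.1 + f y.2 + c) = 2 * (∑' y, q y * f y) + c := by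
  have h1 := prod_fac q f (fun _ => 1)
  have h2 := prod_fac q (fun _ => 1) f
  have h3 := prod_fac q (fun _ => 1) (fun _ => 1)
  simp only [mul_one, one_mul, hq] at h1 h2 h3
  simp only [mul_add, ENNReal.tsum_add, ENNReal.tsum_mul_right, h1, h2, h3]
  ring

/-- second moment of the sum -/
lemma prod_two (q : Y → ℝ≥0∞) (hq : ∑' y, q y = 1) (f : Y → ℝ≥0∞) (c : ℝ≥0∞) :
    ∑' y : Y × Y, q y.1 * q y.2 * (f y.1 + f y.2 + c) ^ 2 =
      2 * (∑' y, q y * f y ^ 2) + 2 * (∑' y, q y * f y) ^ 2 + 4 * c * (∑' y, q y * f y) + c ^ 2 := by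
  have h1 := prod_fac q (fun y => f y ^ 2) (fun _ => 1)
  have h2 := prod_fac q (fun _ => 1) (fun y => f y ^ 2)
  have h3 := prod_fac q (fun _ => 1) (fun _ => 1)
  have h4 := prod_fac q f f
  have h5 := prod_fac q f (fun _ => 1)
  have h6 := prod_fac q (fun _ => 1) f
  simp only [mul_one, one_mul, hq] at h1 h2 h3 h4 h5 h6
  have h7 : ∀ y : Y × Y, q y.1 * q y.2 * (f y.1 + f y.2 + c) ^ 2 =
      q y.1 * q y.2 * f y.1 ^ 2 + q y.1 * q y.2 * f y.2 ^ 2 + 2 * (q y.1 * q y.2 * (f y.1 * f y.2)) +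
      2 * c * (q y.1 * q y.2 * f y.1) + 2 * c * (q y.1 * q y.2 * f y.2) +
      c ^ 2 * (q y.1 * q y.2) := fun y => by ring
  simp only [h7, ENNReal.tsum_add, ENNReal.tsum_mul_left, h1, h2, h3, h4, h5, h6]
  ring

end Law

end ZI.S3
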