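import Pool.Agent.ZI.S3a

/-! # Row S3, second part: the two recursive inequalities -/

set_option autoImplicit false

open scoped ENNReal BigOperators Classical
open MeasureTheory

noncomputable section

namespace ZI.S3

open ZI

variable {d : ℕ} {Ω : Type} [MeasurableSpace Ω] {P : Measure Ω}

/-- the statement of row S1 -/
def Chain1 (S : Sys d P) (k1 : ℕ) : Prop := ∀ k ≥ k1, ∀ E : Env d, GoodK S.a S.A S.Cv k E →
    ∀ u : Fin d → ℝ, ∑ j, u j ^ 2 = 1 → ∀ ms : List ℕ, ms ≠ [] →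
    (∀ m ∈ ms, rr S.A k ^ (7 * S.a) ≤ m) → ms.sum ≤ rr S.A k * 2 ^ k → ∀ (z : Pos d) (s : ℕ),
    2 * s ≤ (2 ^ k) ^ 2 →
    E.bh (PK d S.a S.A k) u ms.sum z s ≤
      ((E.chain (PK d S.a S.A k) u ms z s).map Prod.fst).sum + (ms.length - 1) * (PK d S.a S.A k).Δ

/-- the statement of row S2 -/
def Scale1 (S : Sys d P) (k1 : ℕ) : Prop := ∀ k ≥ k1, ∀ k' ≥ k, ∀ E E' : Env d,
    GoodK S.a S.A S.Cv k E → GoodK S.a S.A S.Cv k' E' → Agree ((2 ^ k) ^ 2) E E' →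
    ∀ u : Fin d → ℝ, ∑ j, u j ^ 2 = 1 → ∀ m : ℕ, rr S.A k ^ (7 * S.a) ≤ m → m ≤ rr S.A k * 2 ^ k →
    E'.bh (PK d S.a S.A k') u m 0 0 ≤ E.bh (PK d S.a S.A k) u m 0 0

/-! ### the scales -/

lemma rr_mono {A k k' : ℕ} (h : k ≤ k') : rr A k ≤ rr A k' :=
  Nat.pow_le_pow_right (by norm_num) (Nat.div_le_div_right h)

lemma rr_pos (A k : ℕ) : 1 ≤ rr A k := Nat.one_le_two_pow

lemma err_anti {r r' : ℕ} (h : r ≤ r') : err r' ≤ err r := by
  unfold err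
  refine ENNReal.ofReal_le_ofReal (Real.exp_le_exp.2 (neg_le_neg (Real.sqrt_le_sqrt ?_)))
  exact_mod_cast h

lemma div_bound {a A k : ℕ} (hA : 1000 * a ≤ A) : 1000 * (a * (k / A)) ≤ k := by
  calc 1000 * (a * (k / A)) = 1000 * a * (k / A) := by ring
    _ ≤ A * (k / A) := Nat.mul_le_mul_right _ hA
    _ ≤ k := Nat.mul_div_le k A

lemma rr_pow_eq (A k b : ℕ) : rr A k ^ b = 2 ^ (b * (k / A)) := by
  unfold rr
  rw [← pow_mul, mul_comm]

/-- all the powers that occur are small -/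
lemma rr_small {a A k : ℕ} (hA : 1000 * a ≤ A) (hk : 15 ≤ k) :
    66 * rr A (k + 1) ^ (7 * a) ≤ 2 ^ k := by
  have h1 := div_bound (k := k + 1) hA
  rw [rr_pow_eq]
  calc 66 * 2 ^ (7 * a * ((k + 1) / A)) ≤ 2 ^ 7 * 2 ^ (7 * a * ((k + 1) / A)) :=
        Nat.mul_le_mul_right _ (by norm_num)
    _ = 2 ^ (7 + 7 * a * ((k + 1) / A)) := (pow_add _ _ _).symm
    _ ≤ 2 ^ k := by
        refine Nat.pow_le_pow_right (by norm_num) ?_
        have : 7 * a * ((k + 1) / A) = 7 * (a * ((k + 1) / A)) := by ring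
        omega

variable [IsProbabilityMeasure P]

/-- the law of the block variable -/
lemma tailQ (S : Sys d P) {k : ℕ} (hk : S.k0 ≤ k) (u : Fin d → ℝ) (m : ℕ)
    (G : ℕ × Pos d → Prop) :
    P {ω | G ((S.E k ω).blk (PK d S.a S.A k) u m 0 0)} =
      ∑' y, QK P S.E S.a S.A k u m y * ind (G y) :=
  law_eq (fun ω => (S.E k ω).blk (PK d S.a S.A k) u m 0 0) (S.tsumQ k hk u m) G

/-- two blocks instead of one -/
lemma rec_step (S : Sys d P) {k1 k : ℕ} (hS : Chain1 S k1) (hk0 : S.k0 ≤ k) (hk1 : k1 ≤ k)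
    (hk : 15 ≤ k) (u : Fin d → ℝ) (hu : ∑ j, u j ^ 2 = 1) (φ : ℕ → ℕ) (hφ : Monotone φ) :
    ∑' y, QK P S.E S.a S.A (k + 1) u (2 ^ (k + 1)) y *
        ((φ (min y.1 ((2 ^ (k + 1)) ^ 2)) : ℕ) : ℝ≥0∞) ≤
      ((φ ((2 ^ (k + 1)) ^ 2) : ℕ) : ℝ≥0∞) * (2 * err (rr S.A k)) +
      ∑' y : (ℕ × Pos d) × (ℕ × Pos d), QK P S.E S.a S.A (k + 1) u (2 ^ k) y.1 *
        QK P S.E S.a S.A (k + 1) u (2 ^ k) y.2 *
        ((φ (min y.1.1 ((2 ^ k) ^ 2) + min y.2.1 ((2 ^ k) ^ 2) + (PK d S.a S.A (k + 1)).Δ) : ℕ) :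
          ℝ≥0∞) := by
  refine compare (q := QK P S.E S.a S.A (k + 1) u (2 ^ (k + 1)))
    (q' := fun y : (ℕ × Pos d) × (ℕ × Pos d) => QK P S.E S.a S.A (k + 1) u (2 ^ k) y.1 *
        QK P S.E S.a S.A (k + 1) u (2 ^ k) y.2) (F := fun y => φ (min y.1 ((2 ^ (k + 1)) ^ 2)))
    (F' := fun y => φ (min y.1.1 ((2 ^ k) ^ 2) + min y.2.1 ((2 ^ k) ^ 2) +
      (PK d S.a S.A (k + 1)).Δ)) (M := φ ((2 ^ (k + 1)) ^ 2)) (fun y => hφ (min_le_right _ _))
      (2 * err (rr S.A k)) fun t _ => ?_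
  have hs := rr_small S.A_big (a := S.a) (A := S.A) hk
  set r := rr S.A (k + 1) with hr
  have hr1 : 1 ≤ r := rr_pos _ _
  have hrp : ∀ b ≤ 7 * S.a, 66 * r ^ b ≤ 2 ^ k := fun b hb =>
    (Nat.mul_le_mul_left _ (Nat.pow_le_pow_right hr1 hb)).trans hs
  have h7 : r ^ (7 * S.a) ≤ 2 ^ k := by have := hrp _ le_rfl; omega
  set ms : List ℕ := [2 ^ k, 2 ^ k] with hms
  have hsum : ms.sum = 2 ^ (k + 1) := by simp [hms, pow_succ]; ring
  have hm : ∀ m ∈ ms, r ^ (7 * S.a) ≤ m := by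
    intro m hm
    simp only [hms, List.mem_cons, List.not_mem_nil, or_false, or_self] at hm
    rw [hm]
    exact h7
  have hle : ms.sum ≤ r * 2 ^ (k + 1) := by
    rw [hsum]
    exact Nat.le_mul_of_pos_left _ hr1
  set T : ℕ := (2 ^ k) ^ 2 with hT
  set G : List (ℕ × Pos d) → Prop := fun l =>
    t < φ ((l.map (fun y => min y.1 T)).sum + (PK d S.a S.A (k + 1)).Δ) with hG
  have h1 := S.chain (k + 1) (by omega) u hu ms hm hle 0 0 (by simp) G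
  have h2 := tailQ S (k := k + 1) (by omega) u (2 ^ (k + 1))
    (fun y => t < φ (min y.1 ((2 ^ (k + 1)) ^ 2)))
  rw [← h2]
  -- the deterministic inclusion
  have h3 : {ω | t < φ (min ((S.E (k + 1) ω).blk (PK d S.a S.A (k + 1)) u (2 ^ (k + 1)) 0 0).1
      ((2 ^ (k + 1)) ^ 2))} ⊆ {ω | ¬ GoodK S.a S.A S.Cv (k + 1) (S.E (k + 1) ω)} ∪
      {ω | G ((S.E (k + 1) ω).chain (PK d S.a S.A (k + 1)) u ms 0 0)} := by
    intro ω hω
    by_cases hg : GoodK S.a S.A S.Cv (k + 1) (S.E (k + 1) ω)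
    swap
    · exact Or.inl hg
    right
    have h4 := hS (k + 1) (by omega) (S.E (k + 1) ω) hg u hu ms (by simp [hms]) hm hle 0 0 (by simp)
    rw [hsum] at h4
    set E := S.E (k + 1) ω with hE
    set p := PK d S.a S.A (k + 1) with hp
    have hκ : p.κ = r ^ S.a := rfl
    have hmg : p.mg = r ^ (3 * S.a) := rfl
    have hΔ : p.Δ = (64 * r ^ (3 * S.a) + 2) * r ^ S.a := rfl
    have hT0 : T = 2 ^ k * 2 ^ k := by rw [hT]; ring
    have hT1 : (2 ^ (k + 1)) ^ 2 = 4 * T := by rw [hT]; ring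
    have hk2 : 0 < 2 ^ k := by positivity
    have hpa : 66 * r ^ S.a ≤ 2 ^ k := hrp _ (by omega)
    have hp2 : 66 * r ^ (2 * S.a) ≤ 2 ^ k := hrp _ (by omega)
    have hp3 : 66 * r ^ (3 * S.a) ≤ 2 ^ k := hrp _ (by omega)
    have hp4 : 66 * r ^ (4 * S.a) ≤ 2 ^ k := hrp _ (by omega)
    have hΔ' : p.Δ ≤ T := by
      rw [hΔ]
      have h5 : (64 * r ^ (3 * S.a) + 2) * r ^ S.a ≤ 66 * r ^ (4 * S.a) := by
        have h6 : 1 ≤ r ^ (3 * S.a) := Nat.one_le_pow _ _ hr1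
        calc (64 * r ^ (3 * S.a) + 2) * r ^ S.a ≤ (66 * r ^ (3 * S.a)) * r ^ S.a :=
              Nat.mul_le_mul_right _ (by omega)
          _ = 66 * r ^ (4 * S.a) := by ring
      rw [hT0]
      calc _ ≤ 66 * r ^ (4 * S.a) := h5
        _ ≤ 2 ^ k := hp4
        _ ≤ 2 ^ k * 2 ^ k := Nat.le_mul_of_pos_left _ hk2
    have hb2 : r ^ (2 * S.a) * 2 ^ k ≤ T := by
      rw [hT0]
      exact Nat.mul_le_mul_right _ (by omega)
    have hh : ∀ (z : Pos d) (s : ℕ), s ≤ 2 * T → E.bh p u (2 ^ k) z s ≤ T := by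
      intro z s hs
      have hf := S.facts (k + 1) (by omega) E hg u hu (2 ^ k) h7
        (by rw [pow_succ]; nlinarith [hr1, hk2]) z s (by rw [hT1]; show s + r ^ (2 * S.a) * 2 ^ k ≤ 4 * T; omega)
      have h5 := hf.h_ub
      have h6 : (E.bh p u (2 ^ k) z s : ℝ) ≤ ((4 * p.κ * (2 ^ k + 2 * p.mg) : ℕ) : ℝ) := by
        push_cast
        push_cast at h5
        exact h5
      have h7 : E.bh p u (2 ^ k) z s ≤ 4 * p.κ * (2 ^ k + 2 * p.mg) := by exact_mod_cast h6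
      refine h7.trans ?_
      rw [hκ, hmg, hT0]
      calc 4 * r ^ S.a * (2 ^ k + 2 * r ^ (3 * S.a)) ≤ 4 * r ^ S.a * (3 * 2 ^ k) :=
            Nat.mul_le_mul_left _ (by omega)
        _ = (12 * r ^ S.a) * 2 ^ k := by ring
        _ ≤ 2 ^ k * 2 ^ k := Nat.mul_le_mul_right _ (by omega)
    have e1 : E.chain p u ms 0 0 = [E.blk p u (2 ^ k) 0 0,
        E.blk p u (2 ^ k) (0 + (E.blk p u (2 ^ k) 0 0).2 + v0 p u)
          (0 + (E.blk p u (2 ^ k) 0 0).1 + p.Δ)] := rfl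
    have g1 := hh 0 0 (by omega)
    have g2 := hh (0 + (E.blk p u (2 ^ k) 0 0).2 + v0 p u)
      (0 + (E.blk p u (2 ^ k) 0 0).1 + p.Δ) (by
        have : (E.blk p u (2 ^ k) 0 0).1 = E.bh p u (2 ^ k) 0 0 := rfl
        rw [this]
        omega)
    rw [e1] at h4
    show G (E.chain p u ms 0 0)
    rw [hG, e1]
    show t < φ _
    refine lt_of_lt_of_le hω (hφ ?_)
    refine (min_le_left _ _).trans ?_
    refine le_trans (show (E.blk p u (2 ^ (k + 1)) 0 0).1 ≤ _ from h4) ?_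
    simp only [List.map_cons, List.map_nil, List.sum_cons, List.sum_nil, hms, List.length_cons,
      List.length_nil]
    have g1' : min (E.blk p u (2 ^ k) 0 0).1 T = (E.blk p u (2 ^ k) 0 0).1 := min_eq_left g1
    have g2' : min (E.blk p u (2 ^ k) (0 + (E.blk p u (2 ^ k) 0 0).2 + v0 p u)
          (0 + (E.blk p u (2 ^ k) 0 0).1 + p.Δ)).1 T = (E.blk p u (2 ^ k)
          (0 + (E.blk p u (2 ^ k) 0 0).2 + v0 p u) (0 + (E.blk p u (2 ^ k) 0 0).1 + p.Δ)).1 :=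
      min_eq_left g2
    rw [g1', g2']
    omega
  have herr : err r ≤ err (rr S.A k) := err_anti (rr_mono (Nat.le_succ k))
  have h5 : prodQ (QK P S.E S.a S.A (k + 1) u) ms G =
      ∑' y : (ℕ × Pos d) × (ℕ × Pos d), QK P S.E S.a S.A (k + 1) u (2 ^ k) y.1 *
        QK P S.E S.a S.A (k + 1) u (2 ^ k) y.2 *
        ind (t < φ (min y.1.1 T + min y.2.1 T + (PK d S.a S.A (k + 1)).Δ)) := by
    rw [ENNReal.tsum_prod']
    show ∑' y, QK P S.E S.a S.A (k + 1) u (2 ^ k) y *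
      ∑' z, QK P S.E S.a S.A (k + 1) u (2 ^ k) z * ind (G [y, z]) = _
    refine tsum_congr fun y => ?_
    rw [← ENNReal.tsum_mul_left]
    refine tsum_congr fun z => ?_
    rw [← mul_assoc]
    congr 2
  calc P {ω | t < φ (min ((S.E (k + 1) ω).blk (PK d S.a S.A (k + 1)) u (2 ^ (k + 1)) 0 0).1
      ((2 ^ (k + 1)) ^ 2))} ≤ P _ := measure_mono h3
    _ ≤ err r + (prodQ (QK P S.E S.a S.A (k + 1) u) ms G + err r) :=
        (measure_union_le _ _).trans (add_le_add (S.good (k + 1) (by omega)) h1)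
    _ ≤ err (rr S.A k) + (prodQ (QK P S.E S.a S.A (k + 1) u) ms G + err (rr S.A k)) := by gcongr
    _ = _ := by rw [h5]; ring

/-- comparison of the scales -/
lemma scale_step (S : Sys d P) {k1 k : ℕ} (hS : Scale1 S k1) (hk0 : S.k0 ≤ k) (hk1 : k1 ≤ k)
    (hk : 15 ≤ k) (u : Fin d → ℝ) (hu : ∑ j, u j ^ 2 = 1) (φ : ℕ → ℕ) (hφ : Monotone φ) :
    ∑' y, QK P S.E S.a S.A (k + 1) u (2 ^ k) y * ((φ (min y.1 ((2 ^ k) ^ 2)) : ℕ) : ℝ≥0∞) ≤
      ((φ ((2 ^ k) ^ 2) : ℕ) : ℝ≥0∞) * (3 * err (rr S.A k)) +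
      ∑' y, QK P S.E S.a S.A k u (2 ^ k) y * ((φ (min y.1 ((2 ^ k) ^ 2)) : ℕ) : ℝ≥0∞) := by
  refine compare (q := QK P S.E S.a S.A (k + 1) u (2 ^ k))
    (q' := QK P S.E S.a S.A k u (2 ^ k)) (F := fun y => φ (min y.1 ((2 ^ k) ^ 2)))
    (F' := fun y => φ (min y.1 ((2 ^ k) ^ 2))) (M := φ ((2 ^ k) ^ 2)) (fun y => hφ (min_le_right _ _))
      (3 * err (rr S.A k)) fun t _ => ?_
  rw [← tailQ S (k := k + 1) (by omega) u (2 ^ k) (fun y => t < φ (min y.1 ((2 ^ k) ^ 2))),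
    ← tailQ S (k := k) hk0 u (2 ^ k) (fun y => t < φ (min y.1 ((2 ^ k) ^ 2)))]
  have hs := rr_small S.A_big (a := S.a) (A := S.A) hk
  have h7 : rr S.A k ^ (7 * S.a) ≤ 2 ^ k := by
    have : rr S.A k ^ (7 * S.a) ≤ rr S.A (k + 1) ^ (7 * S.a) :=
      Nat.pow_le_pow_left (rr_mono (Nat.le_succ k)) _
    omega
  have h3 : {ω | t < φ (min ((S.E (k + 1) ω).blk (PK d S.a S.A (k + 1)) u (2 ^ k) 0 0).1
      ((2 ^ k) ^ 2))} ⊆ ({ω | ¬ GoodK S.a S.A S.Cv (k + 1) (S.E (k + 1) ω)} ∪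
      {ω | ¬ GoodK S.a S.A S.Cv k (S.E k ω)} ∪
      {ω | ¬ Agree ((2 ^ k) ^ 2) (S.E k ω) (S.E (k + 1) ω)}) ∪
      {ω | t < φ (min ((S.E k ω).blk (PK d S.a S.A k) u (2 ^ k) 0 0).1 ((2 ^ k) ^ 2))} := by
    intro ω hω
    by_cases hg : GoodK S.a S.A S.Cv (k + 1) (S.E (k + 1) ω)
    swap
    · exact Or.inl (Or.inl (Or.inl hg))
    by_cases hg' : GoodK S.a S.A S.Cv k (S.E k ω)
    swap
    · exact Or.inl (Or.inl (Or.inr hg'))
    by_cases ha : Agree ((2 ^ k) ^ 2) (S.E k ω) (S.E (k + 1) ω)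
    swap
    · exact Or.inl (Or.inr ha)
    right
    have h4 := hS k hk1 (k + 1) (by omega) _ _ hg' hg ha u hu (2 ^ k) h7
      (Nat.le_mul_of_pos_left _ (rr_pos _ _))
    refine lt_of_lt_of_le hω (hφ ?_)
    exact min_le_min h4 le_rfl
  have herr : err (rr S.A (k + 1)) ≤ err (rr S.A k) := err_anti (rr_mono (Nat.le_succ k))
  calc _ ≤ P _ := measure_mono h3
    _ ≤ (err (rr S.A (k + 1)) + err (rr S.A k) + err (rr S.A k)) + _ := by
        refine (measure_union_le _ _).trans (add_le_add ?_ le_rfl)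
        refine (measure_union_le _ _).trans (add_le_add ?_ (S.agree k hk0 (k + 1) (by omega)))
        exact (measure_union_le _ _).trans (add_le_add (S.good (k + 1) (by omega)) (S.good k hk0))
    _ ≤ (err (rr S.A k) + err (rr S.A k) + err (rr S.A k)) + _ := by gcongr
    _ = _ := by ring

end ZI.S3
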