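import Pool.Agent.ZI.S3b

/-! # Row S3, third part: real inequalities -/

set_option autoImplicit false

open scoped ENNReal NNReal BigOperators Classical
open MeasureTheory

noncomputable section

namespace ZI.S3

open ZI

variable {d : ℕ} {Ω : Type} [MeasurableSpace Ω] {P : Measure Ω}

/-- the error of the scale `k` as a real number -/
def ep (A k : ℕ) : ℝ := Real.exp (-Real.sqrt (rr A k : ℝ))

lemma err_eq (A k : ℕ) : err (rr A k) = ((Real.toNNReal (ep A k) : ℝ≥0) : ℝ≥0∞) := rfl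

lemma ep_pos (A k : ℕ) : 0 < ep A k := Real.exp_pos _

lemma ep_half (A k : ℕ) : ep A k ≤ 1 / 2 := by
  have h1 : (1 : ℝ) ≤ Real.sqrt (rr A k : ℝ) := by
    rw [Real.one_le_sqrt]
    exact_mod_cast rr_pos A k
  have h2 : ep A k ≤ Real.exp (-1) := Real.exp_le_exp.2 (by linarith)
  have h3 := Real.exp_neg_one_lt_d9
  unfold ep at *
  linarith

/-- the truncated first moment -/
def M1 (S : Sys d P) (k : ℕ) (u : Fin d → ℝ) : ℝ≥0∞ :=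
  ∑' y, QK P S.E S.a S.A k u (2 ^ k) y * ((min y.1 ((2 ^ k) ^ 2) : ℕ) : ℝ≥0∞)

/-- the truncated second moment -/
def M2 (S : Sys d P) (k : ℕ) (u : Fin d → ℝ) : ℝ≥0∞ :=
  ∑' y, QK P S.E S.a S.A k u (2 ^ k) y * (((min y.1 ((2 ^ k) ^ 2)) ^ 2 : ℕ) : ℝ≥0∞)

lemma M1_le (S : Sys d P) {k : ℕ} (hk : S.k0 ≤ k) (u : Fin d → ℝ) : M1 S k u ≤ 4 ^ k := by
  have h := S.tsumQ k hk u (2 ^ k)
  calc M1 S k u ≤ ∑' y, QK P S.E S.a S.A k u (2 ^ k) y * 4 ^ k := by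
        refine ENNReal.tsum_le_tsum fun y => mul_le_mul_right ?_ _
        have : min y.1 ((2 ^ k) ^ 2) ≤ 4 ^ k := by
          refine (min_le_right _ _).trans (le_of_eq ?_)
          rw [← pow_mul, mul_comm, pow_mul]
          norm_num
        exact_mod_cast this
    _ = 4 ^ k := by rw [ENNReal.tsum_mul_right, h, one_mul]

lemma M2_le (S : Sys d P) {k : ℕ} (hk : S.k0 ≤ k) (u : Fin d → ℝ) : M2 S k u ≤ 16 ^ k := by
  have h := S.tsumQ k hk u (2 ^ k)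
  calc M2 S k u ≤ ∑' y, QK P S.E S.a S.A k u (2 ^ k) y * 16 ^ k := by
        refine ENNReal.tsum_le_tsum fun y => mul_le_mul_right ?_ _
        have : (min y.1 ((2 ^ k) ^ 2)) ^ 2 ≤ 16 ^ k := by
          refine (Nat.pow_le_pow_left (min_le_right _ _) 2).trans (le_of_eq ?_)
          rw [← pow_mul, ← pow_mul, show (16 : ℕ) = 2 ^ 4 by norm_num, ← pow_mul]
          congr 1
          ring
        exact_mod_cast this
    _ = 16 ^ k := by rw [ENNReal.tsum_mul_right, h, one_mul]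

/-- real version of the first moment -/
def m1 (S : Sys d P) (k : ℕ) (u : Fin d → ℝ) : ℝ := (M1 S k u).toReal

/-- real version of the second moment -/
def m2 (S : Sys d P) (k : ℕ) (u : Fin d → ℝ) : ℝ := (M2 S k u).toReal

lemma QK_ne_top (S : Sys d P) {k : ℕ} (hk : S.k0 ≤ k) (u : Fin d → ℝ) (m : ℕ) (y : ℕ × Pos d) :
    QK P S.E S.a S.A k u m y ≠ ⊤ := by
  refine ne_top_of_le_ne_top ENNReal.one_ne_top ?_
  rw [← S.tsumQ k hk u m]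
  exact ENNReal.le_tsum y

lemma mu_eq (S : Sys d P) {k : ℕ} (hk : S.k0 ≤ k) (u : Fin d → ℝ) : muK S k u = m1 S k u := by
  unfold muK m1 M1
  rw [ENNReal.tsum_toReal_eq]
  · refine tsum_congr fun y => ?_
    rw [ENNReal.toReal_mul, ENNReal.toReal_natCast]
    congr 1
    push_cast
    rfl
  · intro y
    exact ENNReal.mul_ne_top (QK_ne_top S hk u _ y) (ENNReal.natCast_ne_top _)

lemma m1_nonneg (S : Sys d P) (k : ℕ) (u : Fin d → ℝ) : 0 ≤ m1 S k u := ENNReal.toReal_nonneg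

lemma m2_nonneg (S : Sys d P) (k : ℕ) (u : Fin d → ℝ) : 0 ≤ m2 S k u := ENNReal.toReal_nonneg

lemma m1_le (S : Sys d P) {k : ℕ} (hk : S.k0 ≤ k) (u : Fin d → ℝ) : m1 S k u ≤ 4 ^ k := by
  have h := ENNReal.toReal_mono (by finiteness) (M1_le S hk u)
  simpa [m1] using h

variable [IsProbabilityMeasure P]

/-- the two recursive inequalities for the moments -/
lemma rec_real (S : Sys d P) {k1 k : ℕ} (hS1 : Chain1 S k1) (hS2 : Scale1 S k1) (hk0 : S.k0 ≤ k)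
    (hk1 : k1 ≤ k) (hk : 15 ≤ k) (u : Fin d → ℝ) (hu : ∑ j, u j ^ 2 = 1) :
    m1 S (k + 1) u ≤ 2 * m1 S k u + (PK d S.a S.A (k + 1)).Δ + 14 * 4 ^ k * ep S.A k ∧
    m2 S (k + 1) u ≤ 38 * 16 ^ k * ep S.A k + 2 * m2 S k u + 2 * (m1 S k u + 3 * 4 ^ k * ep S.A k) ^ 2 +
      4 * (PK d S.a S.A (k + 1)).Δ * (m1 S k u + 3 * 4 ^ k * ep S.A k) +
      ((PK d S.a S.A (k + 1)).Δ : ℝ) ^ 2 := by
  set D := (PK d S.a S.A (k + 1)).Δ with hD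
  have hq := S.tsumQ (k + 1) (by omega) u (2 ^ k)
  have a1 := rec_step S hS1 hk0 hk1 hk u hu (fun n => n) (fun _ _ h => h)
  have a2 := rec_step S hS1 hk0 hk1 hk u hu (fun n => n ^ 2) (fun _ _ h => Nat.pow_le_pow_left h 2)
  have b1 := scale_step S hS2 hk0 hk1 hk u hu (fun n => n) (fun _ _ h => h)
  have b2 := scale_step S hS2 hk0 hk1 hk u hu (fun n => n ^ 2) (fun _ _ h => Nat.pow_le_pow_left h 2)
  have c1 := prod_one (QK P S.E S.a S.A (k + 1) u (2 ^ k)) hq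
    (fun y => ((min y.1 ((2 ^ k) ^ 2) : ℕ) : ℝ≥0∞)) (D : ℝ≥0∞)
  have c2 := prod_two (QK P S.E S.a S.A (k + 1) u (2 ^ k)) hq
    (fun y => ((min y.1 ((2 ^ k) ^ 2) : ℕ) : ℝ≥0∞)) (D : ℝ≥0∞)
  simp only [Nat.cast_add, Nat.cast_pow] at a1 a2 b1 b2 c1 c2
  rw [c1] at a1
  rw [c2] at a2
  set E1 := ∑' y, QK P S.E S.a S.A (k + 1) u (2 ^ k) y * ((min y.1 ((2 ^ k) ^ 2) : ℕ) : ℝ≥0∞)
    with hE1
  set E2 := ∑' y, QK P S.E S.a S.A (k + 1) u (2 ^ k) y * ((min y.1 ((2 ^ k) ^ 2) : ℕ) : ℝ≥0∞) ^ 2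
    with hE2
  have hM1 : M1 S (k + 1) u ≤ (((2 : ℕ) : ℝ≥0∞) ^ (k + 1)) ^ 2 * (2 * err (rr S.A k)) + (2 * E1 + D) := a1
  have hM2 : M2 S (k + 1) u ≤ ((((2 : ℕ) : ℝ≥0∞) ^ (k + 1)) ^ 2) ^ 2 * (2 * err (rr S.A k)) +
      (2 * E2 + 2 * E1 ^ 2 + 4 * D * E1 + (D : ℝ≥0∞) ^ 2) := by
    refine le_trans (le_of_eq ?_) a2
    unfold M2
    simp only [Nat.cast_pow]
  have hN1 : E1 ≤ (((2 : ℕ) : ℝ≥0∞) ^ k) ^ 2 * (3 * err (rr S.A k)) + M1 S k u := b1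
  have hN2 : E2 ≤ ((((2 : ℕ) : ℝ≥0∞) ^ k) ^ 2) ^ 2 * (3 * err (rr S.A k)) + M2 S k u := by
    refine b2.trans (le_of_eq ?_)
    unfold M2
    simp only [Nat.cast_pow]
  rw [err_eq] at hM1 hM2 hN1 hN2
  have t1 : M1 S k u ≠ ⊤ := ne_top_of_le_ne_top (by finiteness) (M1_le S hk0 u)
  have t2 : M2 S k u ≠ ⊤ := ne_top_of_le_ne_top (by finiteness) (M2_le S hk0 u)
  have t3 : M1 S (k + 1) u ≠ ⊤ := ne_top_of_le_ne_top (by finiteness) (M1_le S (by omega) u)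
  have t4 : M2 S (k + 1) u ≠ ⊤ := ne_top_of_le_ne_top (by finiteness) (M2_le S (by omega) u)
  have t5 : E1 ≠ ⊤ := ne_top_of_le_ne_top (by finiteness) hN1
  have t6 : E2 ≠ ⊤ := ne_top_of_le_ne_top (by finiteness) hN2
  have hx : ((Real.toNNReal (ep S.A k) : ℝ≥0) : ℝ) = ep S.A k := Real.coe_toNNReal _ (ep_pos _ _).le
  unfold m1 m2
  generalize Real.toNNReal (ep S.A k) = e at *
  lift M1 S k u to ℝ≥0 using t1 with x1
  lift M2 S k u to ℝ≥0 using t2 with x2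
  lift M1 S (k + 1) u to ℝ≥0 using t3 with x3
  lift M2 S (k + 1) u to ℝ≥0 using t4 with x4
  lift E1 to ℝ≥0 using t5 with y1
  lift E2 to ℝ≥0 using t6 with y2
  rw [← hx]
  have g1 : (x3 : ℝ) ≤ ((2 : ℝ) ^ (k + 1)) ^ 2 * (2 * e) + (2 * y1 + D) := by exact_mod_cast hM1
  have g2 : (x4 : ℝ) ≤ (((2 : ℝ) ^ (k + 1)) ^ 2) ^ 2 * (2 * e) +
      (2 * y2 + 2 * (y1 : ℝ) ^ 2 + 4 * D * y1 + (D : ℝ) ^ 2) := by exact_mod_cast hM2
  have g3 : (y1 : ℝ) ≤ ((2 : ℝ) ^ k) ^ 2 * (3 * e) + x1 := by exact_mod_cast hN1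
  have g4 : (y2 : ℝ) ≤ (((2 : ℝ) ^ k) ^ 2) ^ 2 * (3 * e) + x2 := by exact_mod_cast hN2
  have p1 : ((2 : ℝ) ^ k) ^ 2 = 4 ^ k := by rw [← pow_mul, mul_comm, pow_mul]; norm_num
  have p2 : ((2 : ℝ) ^ (k + 1)) ^ 2 = 4 * 4 ^ k := by rw [pow_succ (2 : ℝ) k, mul_pow, p1]; ring
  have p3 : ((4 : ℝ) ^ k) ^ 2 = 16 ^ k := by rw [← pow_mul, mul_comm, pow_mul]; norm_num
  rw [p2] at g1 g2
  rw [p1] at g3 g4
  have p4 : (4 * (4 : ℝ) ^ k) ^ 2 = 16 * 16 ^ k := by rw [mul_pow, p3]; ring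
  rw [p4] at g2
  rw [p3] at g4
  simp only [ENNReal.coe_toReal]
  have hD0 : (0 : ℝ) ≤ D := Nat.cast_nonneg _
  have hy : (y1 : ℝ) ≤ x1 + 3 * 4 ^ k * e := by linarith
  have hy0 : (0 : ℝ) ≤ y1 := y1.2
  have hy2 : (y1 : ℝ) ^ 2 ≤ (x1 + 3 * 4 ^ k * e) ^ 2 := pow_le_pow_left₀ hy0 hy 2
  have hy3 : 4 * (D : ℝ) * y1 ≤ 4 * D * (x1 + 3 * 4 ^ k * e) :=
    mul_le_mul_of_nonneg_left hy (by positivity)
  constructor
  · linarith
  · linarith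

end ZI.S3
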