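import Pool.Agent.ZI.S3c

/-! # Row S3, fourth part: Chebyshev, lower bound of the means, summable errors -/

set_option autoImplicit false

open scoped ENNReal NNReal BigOperators Classical
open MeasureTheory

noncomputable section

namespace ZI.S3

open ZI

variable {d : ℕ} {Ω : Type} [MeasurableSpace Ω] {P : Measure Ω}

/-! ### summable errors -/

/-- the errors are summable, even after multiplication by `4 ^ k` -/
lemma ep_summable (A : ℕ) (hA : 0 < A) : Summable (fun k : ℕ => (4 : ℝ) ^ k * ep A k) := by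
  have h1 := tendsto_pow_const_div_const_pow_of_one_lt 2 (r := (2 : ℝ)) (by norm_num)
  have hApos : (0 : ℝ) < A := by exact_mod_cast hA
  have h2 : ∀ᶠ n : ℕ in Filter.atTop, ((n : ℝ) ^ 2 / 2 ^ n) < 1 / (18 * (A : ℝ) ^ 2) :=
    h1.eventually_lt_const (by positivity)
  obtain ⟨J, hJ⟩ := Filter.eventually_atTop.1 h2
  have h3 : ∀ k : ℕ, J * A ≤ k → 3 * (k : ℝ) ≤ Real.sqrt (rr A k : ℝ) := by
    intro k hk
    have h4 : J ≤ k / A := (Nat.le_div_iff_mul_le hA).2 hk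
    have h5 := hJ (k / A + 1) (by omega)
    have h6 : (k : ℝ) ≤ A * ((k / A : ℕ) + 1) := by
      have : k ≤ A * (k / A + 1) := (Nat.lt_mul_div_succ k hA).le
      exact_mod_cast this
    refine Real.le_sqrt_of_sq_le ?_
    have h7 : (rr A k : ℝ) = 2 ^ (k / A) := by
      unfold rr
      push_cast
      rfl
    rw [h7]
    rw [div_lt_div_iff₀ (by positivity) (by positivity), one_mul, pow_succ (2 : ℝ) (k / A)] at h5
    push_cast at h5
    have h8 : (k : ℝ) ^ 2 ≤ (A * ((k / A : ℕ) + 1)) ^ 2 :=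
      pow_le_pow_left₀ (Nat.cast_nonneg _) h6 2
    have h9 : (A * (((k / A : ℕ) : ℝ) + 1)) ^ 2 = (((k / A : ℕ) : ℝ) + 1) ^ 2 * A ^ 2 := by ring
    rw [h9] at h8
    nlinarith
  have h4 : Summable (fun k : ℕ => ((1 : ℝ) / 2) ^ k) :=
    summable_geometric_of_lt_one (by norm_num) (by norm_num)
  refine Summable.of_norm_bounded_eventually_nat (g := fun k : ℕ => ((1 : ℝ) / 2) ^ k) h4 ?_
  refine Filter.eventually_atTop.2 ⟨J * A, fun k hk => ?_⟩
  have h5 := h3 k hk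
  have h6 : ep A k ≤ ((1 : ℝ) / 8) ^ k := by
    have h7 : ep A k ≤ Real.exp (-(3 * (k : ℝ))) := Real.exp_le_exp.2 (neg_le_neg h5)
    refine h7.trans ?_
    have h8 : Real.exp (-(3 * (k : ℝ))) = (Real.exp (-3)) ^ k := by
      rw [← Real.exp_nat_mul]
      congr 1
      ring
    rw [h8]
    refine pow_le_pow_left₀ (Real.exp_pos _).le ?_ k
    have h9 : Real.exp (-3) = (Real.exp (-1)) ^ 3 := by
      rw [← Real.exp_nat_mul]
      norm_num
    have h10 : Real.exp (-1) ≤ 1 / 2 := by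
      have := Real.exp_neg_one_lt_d9
      linarith
    rw [h9]
    calc Real.exp (-1) ^ 3 ≤ (1 / 2 : ℝ) ^ 3 := pow_le_pow_left₀ (Real.exp_pos _).le h10 3
      _ = 1 / 8 := by norm_num
  rw [Real.norm_of_nonneg (mul_nonneg (by positivity) (ep_pos _ _).le)]
  calc (4 : ℝ) ^ k * ep A k ≤ 4 ^ k * (1 / 8) ^ k := mul_le_mul_of_nonneg_left h6 (by positivity)
    _ = (1 / 2) ^ k := by rw [← mul_pow]; norm_num

/-- the waiting time of the scale `k + 1` divided by `2 ^ (k + 1)` -/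
def dl (S : Sys d P) (k : ℕ) : ℝ := ((PK d S.a S.A (k + 1)).Δ : ℝ) / 2 ^ (k + 1)

lemma dl_nonneg (S : Sys d P) (k : ℕ) : 0 ≤ dl S k := div_nonneg (Nat.cast_nonneg _) (by positivity)

lemma dl_le (S : Sys d P) (k : ℕ) : dl S k ≤ 66 * (3 / 4 : ℝ) ^ (k + 1) := by
  have h1 := div_bound (a := S.a) (A := S.A) (k := k + 1) S.A_big
  set r := rr S.A (k + 1) with hr
  have hr1 : 1 ≤ r := rr_pos _ _
  have h2 : (PK d S.a S.A (k + 1)).Δ ≤ 66 * r ^ (4 * S.a) := by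
    have h5 : (64 * r ^ (3 * S.a) + 2) * r ^ S.a ≤ 66 * r ^ (4 * S.a) := by
      have h6 : 1 ≤ r ^ (3 * S.a) := Nat.one_le_pow _ _ hr1
      calc (64 * r ^ (3 * S.a) + 2) * r ^ S.a ≤ (66 * r ^ (3 * S.a)) * r ^ S.a :=
            Nat.mul_le_mul_right _ (by omega)
        _ = 66 * r ^ (4 * S.a) := by ring
    exact h5
  have h3 : (r ^ (4 * S.a)) ^ 2 ≤ 2 ^ (k + 1) := by
    rw [hr, rr_pow_eq, ← pow_mul]
    refine Nat.pow_le_pow_right (by norm_num) ?_
    have : 4 * S.a * ((k + 1) / S.A) * 2 = 8 * (S.a * ((k + 1) / S.A)) := by ring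
    omega
  set x : ℝ := ((r ^ (4 * S.a) : ℕ) : ℝ) with hx
  have h4 : x ^ 2 ≤ 2 ^ (k + 1) := by
    rw [hx]
    exact_mod_cast h3
  have h5 : x / 2 ^ (k + 1) ≤ (3 / 4 : ℝ) ^ (k + 1) := by
    refine le_of_sq_le_sq ?_ (by positivity)
    calc (x / 2 ^ (k + 1)) ^ 2 = x ^ 2 / (2 ^ (k + 1)) ^ 2 := div_pow _ _ _
      _ ≤ 2 ^ (k + 1) / (2 ^ (k + 1)) ^ 2 := by gcongr
      _ = (1 / 2) ^ (k + 1) := by
          rw [sq, ← div_div, div_self (by positivity), one_div, one_div, inv_pow]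
      _ ≤ (9 / 16) ^ (k + 1) := pow_le_pow_left₀ (by norm_num) (by norm_num) _
      _ = ((3 / 4 : ℝ) ^ (k + 1)) ^ 2 := by rw [← pow_mul, mul_comm, pow_mul]; norm_num
  have h6 : ((PK d S.a S.A (k + 1)).Δ : ℝ) ≤ 66 * x := by
    rw [hx]
    exact_mod_cast h2
  unfold dl
  calc ((PK d S.a S.A (k + 1)).Δ : ℝ) / 2 ^ (k + 1) ≤ 66 * x / 2 ^ (k + 1) := by gcongr
    _ = 66 * (x / 2 ^ (k + 1)) := by ring
    _ ≤ _ := by gcongr

lemma dl_le' (S : Sys d P) (k : ℕ) : dl S k ≤ 66 := by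
  refine (dl_le S k).trans ?_
  have : (3 / 4 : ℝ) ^ (k + 1) ≤ 1 := pow_le_one₀ (by norm_num) (by norm_num)
  linarith

lemma dl_summable (S : Sys d P) : Summable (dl S) := by
  have h1 : Summable (fun k : ℕ => ((3 : ℝ) / 4) ^ k) :=
    summable_geometric_of_lt_one (by norm_num) (by norm_num)
  have h2 : Summable (fun k : ℕ => 66 * ((3 : ℝ) / 4) ^ (k + 1)) :=
    ((summable_nat_add_iff 1).2 h1).mul_left 66
  exact Summable.of_nonneg_of_le (dl_nonneg S) (dl_le S) h2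

variable [IsProbabilityMeasure P]

/-- Chebyshev inequality for the truncated duration -/
lemma cheb (S : Sys d P) {k : ℕ} (hk : S.k0 ≤ k) (u : Fin d → ℝ) :
    0 ≤ m2 S k u - m1 S k u ^ 2 ∧ ∀ δ : ℝ, 0 < δ →
      (P {ω | δ < |((min ((S.E k ω).blk (PK d S.a S.A k) u (2 ^ k) 0 0).1 ((2 ^ k) ^ 2) : ℕ) : ℝ) -
        m1 S k u|}).toReal * δ ^ 2 ≤ m2 S k u - m1 S k u ^ 2 := by
  set Q := QK P S.E S.a S.A k u (2 ^ k) with hQdef
  set f : ℕ × Pos d → ℝ := fun y => ((min y.1 ((2 ^ k) ^ 2) : ℕ) : ℝ) with hf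
  set T : ℝ := (((2 ^ k) ^ 2 : ℕ) : ℝ) with hT
  have hf0 : ∀ y, 0 ≤ f y := fun y => Nat.cast_nonneg _
  have hfT : ∀ y, f y ≤ T := fun y => by
    have : min y.1 ((2 ^ k) ^ 2) ≤ (2 ^ k) ^ 2 := min_le_right _ _
    exact Nat.cast_le.2 this
  have hQ := S.tsumQ k hk u (2 ^ k)
  have hfin : ∀ y, Q y ≠ ∞ := QK_ne_top S hk u _
  have hP : Summable (fun y => (Q y).toReal) := ENNReal.summable_toReal (by rw [hQ]; simp)
  have hP1 : ∑' y, (Q y).toReal = 1 := by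
    rw [← ENNReal.tsum_toReal_eq hfin, hQ, ENNReal.toReal_one]
  have hPf : Summable (fun y => (Q y).toReal * f y) := by
    refine Summable.of_norm_bounded (hP.mul_right T) fun y => ?_
    rw [Real.norm_of_nonneg (mul_nonneg ENNReal.toReal_nonneg (hf0 y))]
    exact mul_le_mul_of_nonneg_left (hfT y) ENNReal.toReal_nonneg
  have hPf2 : Summable (fun y => (Q y).toReal * f y ^ 2) := by
    refine Summable.of_norm_bounded (hP.mul_right (T ^ 2)) fun y => ?_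
    rw [Real.norm_of_nonneg (mul_nonneg ENNReal.toReal_nonneg (sq_nonneg _))]
    exact mul_le_mul_of_nonneg_left (pow_le_pow_left₀ (hf0 y) (hfT y) 2) ENNReal.toReal_nonneg
  have e1 : ∑' y, (Q y).toReal * f y = m1 S k u := by
    unfold m1 M1
    rw [ENNReal.tsum_toReal_eq]
    · refine tsum_congr fun y => ?_
      rw [ENNReal.toReal_mul, ENNReal.toReal_natCast]
    · intro y
      exact ENNReal.mul_ne_top (hfin y) (ENNReal.natCast_ne_top _)
  have e2 : ∑' y, (Q y).toReal * f y ^ 2 = m2 S k u := by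
    unfold m2 M2
    rw [ENNReal.tsum_toReal_eq]
    · refine tsum_congr fun y => ?_
      rw [ENNReal.toReal_mul, ENNReal.toReal_natCast]
      congr 1
      simp only [hf]
      push_cast
      rfl
    · intro y
      exact ENNReal.mul_ne_top (hfin y) (ENNReal.natCast_ne_top _)
  set μ := m1 S k u with hμ
  have h1 : ∀ y, (Q y).toReal * (f y - μ) ^ 2 =
      (Q y).toReal * f y ^ 2 + (Q y).toReal * f y * (-2 * μ) + (Q y).toReal * μ ^ 2 :=
    fun y => by ring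
  have hs : Summable (fun y => (Q y).toReal * (f y - μ) ^ 2) := by
    simp only [h1]
    exact (hPf2.add (hPf.mul_right _)).add (hP.mul_right _)
  have e3 : ∑' y, (Q y).toReal * (f y - μ) ^ 2 = m2 S k u - μ ^ 2 := by
    simp only [h1]
    rw [(hPf2.add (hPf.mul_right _)).tsum_add (hP.mul_right _), hPf2.tsum_add (hPf.mul_right _),
      tsum_mul_right, tsum_mul_right, hP1, e1, e2]
    ring
  constructor
  · rw [← e3]
    exact tsum_nonneg fun y => mul_nonneg ENNReal.toReal_nonneg (sq_nonneg _)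
  · intro δ hδ
    have h2 := tailQ S hk u (2 ^ k) (fun y => δ < |f y - μ|)
    have h3 : P {ω | δ < |((min ((S.E k ω).blk (PK d S.a S.A k) u (2 ^ k) 0 0).1
        ((2 ^ k) ^ 2) : ℕ) : ℝ) - μ|} = ∑' y, Q y * ind (δ < |f y - μ|) := h2
    have hi : ∀ p : Prop, (ind p).toReal ≤ 1 ∧ ind p ≠ ⊤ := by
      intro p
      by_cases hp : p
      · rw [ind_true hp]; simp
      · rw [ind_false hp]; simp
    rw [h3, ENNReal.tsum_toReal_eq (fun y => ENNReal.mul_ne_top (hfin y) (hi _).2), ← e3,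
      ← tsum_mul_right]
    refine Summable.tsum_le_tsum (fun y => ?_) ?_ hs
    · rw [ENNReal.toReal_mul, mul_assoc]
      refine mul_le_mul_of_nonneg_left ?_ ENNReal.toReal_nonneg
      by_cases hp : δ < |f y - μ|
      · rw [ind_true hp, ENNReal.toReal_one, one_mul, ← sq_abs (f y - μ)]
        exact pow_le_pow_left₀ hδ.le hp.le 2
      · rw [ind_false hp, ENNReal.toReal_zero, zero_mul]
        exact sq_nonneg _
    · refine Summable.of_nonneg_of_le (fun y => mul_nonneg ENNReal.toReal_nonneg (sq_nonneg _))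
        (fun y => ?_) (hP.mul_right (δ ^ 2))
      rw [ENNReal.toReal_mul]
      refine mul_le_mul_of_nonneg_right ?_ (sq_nonneg _)
      exact mul_le_of_le_one_right ENNReal.toReal_nonneg (hi _).1

/-- level is at most the norm -/
lemma lev_le_nrm (u : Fin d → ℝ) (hu : ∑ j, u j ^ 2 = 1) (v : Pos d) : lev u v ≤ nrm v := by
  unfold lev nrm
  refine Real.le_sqrt_of_sq_le ?_
  have h := Finset.sum_mul_sq_le_sq_mul_sq Finset.univ u (fun j => (v j : ℝ))
  rwa [hu, one_mul] at h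

omit [IsProbabilityMeasure P] in
/-- facts on the block of size `2 ^ k` at the origin -/
lemma facts0 (S : Sys d P) {k : ℕ} (hk0 : S.k0 ≤ k) (hk : 15 ≤ k) (u : Fin d → ℝ)
    (hu : ∑ j, u j ^ 2 = 1) (E : Env d) (hg : GoodK S.a S.A S.Cv k E) :
    BlockFacts E (PK d S.a S.A k) u (rr S.A k) S.Cv (2 ^ k) (2 ^ k) 0 0 ∧
      E.bh (PK d S.a S.A k) u (2 ^ k) 0 0 ≤ (2 ^ k) ^ 2 := by
  have hs := rr_small S.A_big (a := S.a) (A := S.A) hk
  set r := rr S.A k with hr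
  have hr1 : 1 ≤ r := rr_pos _ _
  have hrp : ∀ b ≤ 7 * S.a, 66 * r ^ b ≤ 2 ^ k := fun b hb =>
    (Nat.mul_le_mul_left _ ((Nat.pow_le_pow_right hr1 hb).trans
      (Nat.pow_le_pow_left (rr_mono (Nat.le_succ k)) _))).trans hs
  have h7 : r ^ (7 * S.a) ≤ 2 ^ k := by have := hrp _ le_rfl; omega
  have hpa : 66 * r ^ S.a ≤ 2 ^ k := hrp _ (by omega)
  have hp2 : 66 * r ^ (2 * S.a) ≤ 2 ^ k := hrp _ (by omega)
  have hp3 : 66 * r ^ (3 * S.a) ≤ 2 ^ k := hrp _ (by omega)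
  have hf := S.facts k hk0 E hg u hu (2 ^ k) h7 (Nat.le_mul_of_pos_left _ hr1) 0 0 (by
    rw [zero_add, sq]
    exact Nat.mul_le_mul_right _ (show r ^ (2 * S.a) ≤ 2 ^ k by omega))
  refine ⟨hf, ?_⟩
  have h5 := hf.h_ub
  have hκ : (PK d S.a S.A k).κ = r ^ S.a := rfl
  have hmg : (PK d S.a S.A k).mg = r ^ (3 * S.a) := rfl
  have h6 : (E.bh (PK d S.a S.A k) u (2 ^ k) 0 0 : ℝ) ≤
      ((4 * (PK d S.a S.A k).κ * (2 ^ k + 2 * (PK d S.a S.A k).mg) : ℕ) : ℝ) := by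
    push_cast
    push_cast at h5
    exact h5
  have h7 : E.bh (PK d S.a S.A k) u (2 ^ k) 0 0 ≤
    4 * (PK d S.a S.A k).κ * (2 ^ k + 2 * (PK d S.a S.A k).mg) := by exact_mod_cast h6
  refine h7.trans ?_
  rw [hκ, hmg, sq]
  calc 4 * r ^ S.a * (2 ^ k + 2 * r ^ (3 * S.a)) ≤ 4 * r ^ S.a * (3 * 2 ^ k) :=
        Nat.mul_le_mul_left _ (by omega)
    _ = (12 * r ^ S.a) * 2 ^ k := by ring
    _ ≤ 2 ^ k * 2 ^ k := Nat.mul_le_mul_right _ (by omega)

/-- lower bound of the mean -/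
lemma m1_lb (S : Sys d P) {k : ℕ} (hk0 : S.k0 ≤ k) (hk : 15 ≤ k) (hkd : 2 * d + 6 ≤ k)
    (u : Fin d → ℝ) (hu : ∑ j, u j ^ 2 = 1) : 1 / (4 * (S.Cv : ℝ)) ≤ m1 S k u / 2 ^ k := by
  have hCv : (0 : ℝ) < S.Cv := by exact_mod_cast S.Cv_pos
  -- probability of the good event
  have h1 : P {ω | ¬ (2 ^ k ≤ 2 * S.Cv * ((S.E k ω).blk (PK d S.a S.A k) u (2 ^ k) 0 0).1)} ≤
      err (rr S.A k) := by
    refine (measure_mono fun ω hω => ?_).trans (S.good k hk0)
    intro hg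
    apply hω
    have hf := (facts0 S hk0 hk u hu _ hg).1
    have h2 := hf.x_lev
    have h3 := lev_le_nrm u hu ((S.E k ω).bx (PK d S.a S.A k) u (2 ^ k) 0 0)
    have h4 := hf.x_nrm
    have h5 : 4 * (d * rr S.A k) ≤ 2 ^ k := by
      have h6 : rr S.A k ≤ 2 ^ (k / 2) := by
        unfold rr
        refine Nat.pow_le_pow_right (by norm_num) (Nat.div_le_div_left ?_ (by norm_num))
        have h1 := S.A_big
        have h2 := S.a_big
        omega
      have h7 : d ≤ 2 ^ d := Nat.lt_two_pow_self.le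
      calc 4 * (d * rr S.A k) ≤ 2 ^ 2 * (2 ^ d * 2 ^ (k / 2)) :=
            Nat.mul_le_mul (by norm_num) (Nat.mul_le_mul h7 h6)
        _ = 2 ^ (2 + (d + k / 2)) := by rw [pow_add, pow_add]
        _ ≤ 2 ^ k := Nat.pow_le_pow_right (by norm_num) (by omega)
    have h6 : 4 * ((d : ℝ) * rr S.A k) ≤ 2 ^ k := by exact_mod_cast h5
    have h7 : ((2 ^ k : ℕ) : ℝ) ≤ S.Cv * ((S.E k ω).bh (PK d S.a S.A k) u (2 ^ k) 0 0 : ℝ) +
        2 * d * rr S.A k := h2.trans (h3.trans h4)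
    push_cast at h7
    have h8 : (2 : ℝ) ^ k ≤ 2 * S.Cv * ((S.E k ω).bh (PK d S.a S.A k) u (2 ^ k) 0 0 : ℝ) := by
      linarith
    have h9 : 2 ^ k ≤ 2 * S.Cv * (S.E k ω).bh (PK d S.a S.A k) u (2 ^ k) 0 0 := by exact_mod_cast h8
    exact h9
  have h2 : (1 : ℝ≥0∞) ≤
      P {ω | 2 ^ k ≤ 2 * S.Cv * ((S.E k ω).blk (PK d S.a S.A k) u (2 ^ k) 0 0).1} +
        err (rr S.A k) := by
    refine le_trans ?_ (add_le_add le_rfl h1)
    rw [← measure_univ (μ := P)]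
    refine (measure_mono (fun ω _ => ?_)).trans (measure_union_le _ _)
    by_cases h : 2 ^ k ≤ 2 * S.Cv * ((S.E k ω).blk (PK d S.a S.A k) u (2 ^ k) 0 0).1
    · exact Or.inl h
    · exact Or.inr h
  rw [tailQ S hk0 u (2 ^ k) (fun y => 2 ^ k ≤ 2 * S.Cv * y.1)] at h2
  have h3 : (2 : ℝ≥0∞) ^ k * ∑' y, QK P S.E S.a S.A k u (2 ^ k) y * ind (2 ^ k ≤ 2 * S.Cv * y.1) ≤
      2 * S.Cv * M1 S k u := by
    unfold M1
    rw [← ENNReal.tsum_mul_left, ← ENNReal.tsum_mul_left]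
    refine ENNReal.tsum_le_tsum fun y => ?_
    by_cases h : 2 ^ k ≤ 2 * S.Cv * y.1
    · rw [ind_true h, mul_one]
      have h4 : 2 ^ k ≤ 2 * S.Cv * min y.1 ((2 ^ k) ^ 2) := by
        rcases le_total y.1 ((2 ^ k) ^ 2) with h5 | h5
        · rw [min_eq_left h5]
          exact h
        · rw [min_eq_right h5, sq, ← mul_assoc]
          exact Nat.le_mul_of_pos_left _ (by have := S.Cv_pos; positivity)
      have h5 : (2 : ℝ≥0∞) ^ k ≤ 2 * S.Cv * ((min y.1 ((2 ^ k) ^ 2) : ℕ) : ℝ≥0∞) := by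
        exact_mod_cast h4
      calc (2 : ℝ≥0∞) ^ k * QK P S.E S.a S.A k u (2 ^ k) y ≤
          (2 * S.Cv * ((min y.1 ((2 ^ k) ^ 2) : ℕ) : ℝ≥0∞)) * QK P S.E S.a S.A k u (2 ^ k) y :=
            mul_le_mul_left h5 _
        _ = _ := by ring
    · rw [ind_false h, mul_zero, mul_zero]
      exact zero_le
  set X := ∑' y, QK P S.E S.a S.A k u (2 ^ k) y * ind (2 ^ k ≤ 2 * S.Cv * y.1) with hX
  have t1 : M1 S k u ≠ ⊤ := ne_top_of_le_ne_top (by finiteness) (M1_le S hk0 u)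
  have t2 : X ≠ ⊤ := by
    refine ne_top_of_le_ne_top ENNReal.one_ne_top ?_
    rw [← S.tsumQ k hk0 u (2 ^ k)]
    refine ENNReal.tsum_le_tsum fun y => ?_
    by_cases h : 2 ^ k ≤ 2 * S.Cv * y.1
    · rw [ind_true h, mul_one]
    · rw [ind_false h, mul_zero]
      exact zero_le
  rw [err_eq] at h2
  have hx : ((Real.toNNReal (ep S.A k) : ℝ≥0) : ℝ) = ep S.A k := Real.coe_toNNReal _ (ep_pos _ _).le
  have hh := ep_half S.A k
  rw [← hx] at hh
  unfold m1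
  generalize Real.toNNReal (ep S.A k) = e at *
  clear_value X
  lift M1 S k u to ℝ≥0 using t1 with x
  lift X to ℝ≥0 using t2 with y
  have g1 : (1 : ℝ) ≤ y + e := by exact_mod_cast h2
  have g2 : (2 : ℝ) ^ k * y ≤ 2 * S.Cv * x := by exact_mod_cast h3
  simp only [ENNReal.coe_toReal]
  rw [div_le_div_iff₀ (by positivity) (by positivity)]
  have h2k : (0 : ℝ) < 2 ^ k := by positivity
  nlinarith

end ZI.S3
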